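import Pool.Agent.Work.MP_552024_lc.PLS.S4

set_option autoImplicit false

/-! Item BdSph: the boundary of a ball is a sphere. -/

namespace Pool.Agent.Work.MP_552024_lc.PLS

theorem I_BdSph : St_BdSph := by
  intro n E _ _ _ A T h
  have hT : Pol T := h.pol_bd
  obtain ⟨hA, hS, f, g, hfg, hi⟩ := h
  have r : PLInv f g (dOrth (n + 2)) T := hfg.restrict (dOrth_subset _) hS hi
  have hd : dOrth (n + 2) = Fct (n + 1) ∪ Rst (n + 1) := dOrth_eq_union (n + 1)
  have hF : Fct (n + 1) ⊆ dOrth (n + 2) := by rw [hd]; exact Set.subset_union_left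
  have hR : Rst (n + 1) ⊆ dOrth (n + 2) := by rw [hd]; exact Set.subset_union_right
  have hI : f '' (Fct (n + 1) ∩ Rst (n + 1)) = f '' Fct (n + 1) ∩ f '' Rst (n + 1) :=
    r.image_inter hF hR
  refine ⟨f '' Fct (n + 1), f '' Rst (n + 1), f '' Fct (n + 1) ∩ f '' Rst (n + 1), ?_, rfl, ?_, ?_⟩
  · rw [← Set.image_union, ← hd]
    have h1 := r.image_eq (subset_refl _)
    rw [h1]
    ext y
    exact ⟨fun hy => ⟨hy, r.mapsg y hy⟩, fun hy => hy.1⟩
  · refine (ball_Fct (n + 1)).transport (r.pol_image hT hF (pol_Fct _)) (r.restrict_image hF)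
      Set.inter_subset_left ?_
    intro x hx
    rw [← hI]
    exact (r.mem_image (Set.inter_subset_left.trans hF) (hF hx)).symm
  · refine (ball_Rst (n + 1)).transport (r.pol_image hT hR (pol_Rst _)) (r.restrict_image hR)
      Set.inter_subset_right ?_
    intro x hx
    rw [← hI]
    exact (r.mem_image (Set.inter_subset_left.trans hF) (hR hx)).symm

end Pool.Agent.Work.MP_552024_lc.PLS
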