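import Pool.Agent.Work.MP_552024_lc.PLS.S4X

set_option autoImplicit false

/-! Item Box: the box step. -/

namespace Pool.Agent.Work.MP_552024_lc.PLS

namespace ABox

variable {E : Type*} [AddCommGroup E] [Module ℚ E]

theorem sph_pol {k : ℕ} {T : Set E} (h : Sph k T) : Pol T := by
  obtain ⟨D₁, D₂, U, rfl, _, h₁, h₂⟩ := h
  exact h₁.1.union h₂.1

/-- A form vanishing at `y` and not at `w`. -/
theorem sep {u : E →ₗ[ℚ] ℚ} {y w : E} (hy : 0 < u y) (hw : 0 < u w)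
    (hyw : y ∉ ray w) : ∃ a : E →ₗ[ℚ] ℚ, a w ≠ 0 ∧ a y = 0 := by
  have hnot : w ∉ Submodule.span ℚ {y} := by
    intro hmem
    obtain ⟨c, hc⟩ := Submodule.mem_span_singleton.1 hmem
    have h1 : u w = c * u y := by rw [← hc, map_smul, smul_eq_mul]
    have hcpos : 0 < c := by
      by_contra hneg
      push Not at hneg
      have : c * u y ≤ 0 := mul_nonpos_of_nonpos_of_nonneg hneg hy.le
      linarith
    apply hyw
    refine ⟨c⁻¹, (inv_pos.2 hcpos).le, ?_⟩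
    rw [← hc, smul_smul, inv_mul_cancel₀ hcpos.ne', one_smul]
  obtain ⟨f, hf, hle⟩ := Submodule.exists_le_ker_of_notMem hnot
  exact ⟨f, hf, hle (Submodule.mem_span_singleton_self y)⟩

/-- Off the closed box, the germ of the new sphere is the old one. -/
theorem germ_off {ι : Type*} {T M : Set E} {h : ι → E →ₗ[ℚ] ℚ} {y : E} (hy : y ∉ KC h) :
    Tg y ((T \ KO h) ∪ (M ∩ KD h)) = Tg y T := by
  obtain ⟨i, hi⟩ : ∃ i, h i y < 0 := by
    by_contra hne
    push Not at hne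
    exact hy hne
  have key : ∀ v : E, ∃ ε : ℚ, 0 < ε ∧ ∀ s : ℚ, 0 < s → s ≤ ε →
      (y + s • v ∈ (T \ KO h) ∪ (M ∩ KD h) ↔ y + s • v ∈ T) := by
    intro v
    obtain ⟨ε, hε, H⟩ := small_signs (Set.finite_singleton (h i)) y v
    refine ⟨ε, hε, fun s h0 h1 => ?_⟩
    have h2 := (H s h0 h1 (h i) rfl).1 hi.ne
    have h3 : h i (y + s • v) < 0 := by
      rw [sign_neg hi] at h2
      exact sign_eq_neg_one_iff.1 h2
    constructor
    · rintro (h4 | h4)
      · exact h4.1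
      · exact absurd (h4.2.1 i) (not_le.2 h3)
    · intro h4
      exact Or.inl ⟨h4, fun h5 => absurd (h5 i) (not_lt.2 h3.le)⟩
  ext v
  obtain ⟨ε, hε, H⟩ := key v
  constructor
  · rintro ⟨δ, hδ, K⟩
    exact ⟨min ε δ, lt_min hε hδ, fun s h0 h1 =>
      (H s h0 (h1.trans (min_le_left _ _))).1 (K s h0 (h1.trans (min_le_right _ _)))⟩
  · rintro ⟨δ, hδ, K⟩
    exact ⟨min ε δ, lt_min hε hδ, fun s h0 h1 =>
      (H s h0 (h1.trans (min_le_left _ _))).2 (K s h0 (h1.trans (min_le_right _ _)))⟩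

end ABox

open ABox in
theorem I_Box (hBxS : St_BxS) (hBxDl : St_BxDl) (hBxE : St_BxE) (hBxQ : St_BxQ)
    (hBxTh : St_BxTh) (hBxSide : St_BxSide) (hBxPS : St_BxPS) (hBxPT : St_BxPT)
    (hJBS : St_JBS) : St_Box := by
  classical
  intro E _ _ _ T u v w B W hSch hH hWf hW
  obtain ⟨M, M', hsides, hloc⟩ := hJBS 1 hSch E T hH.dim hH.sph
  have huw : 0 < u w := hH.bdd w hH.mem hH.w0
  obtain ⟨_, A₁, hA₁, hcl₁⟩ := sph_pol hH.sph
  -- separating forms
  have hsep : ∀ y : E, ∃ a : E →ₗ[ℚ] ℚ, y ∈ W → a w ≠ 0 ∧ a y = 0 := by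
    intro y
    by_cases hy : y ∈ W
    · obtain ⟨hyT, hy0, hyr⟩ := hW y hy
      obtain ⟨a, ha⟩ := sep (hH.bdd y hyT hy0) huw hyr
      exact ⟨a, fun _ => ha⟩
    · exact ⟨0, fun h => absurd h hy⟩
  choose a ha using hsep
  obtain ⟨A, hAdef⟩ : ∃ A : Set (E →ₗ[ℚ] ℚ), A = A₁ ∪ a '' W := ⟨_, rfl⟩
  have hA : A.Finite := by rw [hAdef]; exact hA₁.union (hWf.image a)
  have hclA : ClA A T := by
    rw [hAdef]
    exact ClA.mono hcl₁ Set.subset_union_left
  obtain ⟨s, hs⟩ := hBxS E T u v w B hH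
  obtain ⟨δ, hδ, hnear, hslope⟩ := hBxDl E T u v w B s hH hs
  obtain ⟨η, hη, hsmall⟩ := hBxE E u v w A s δ hH.dim huw hA hs.sw hs.sum hs.bas hδ
  have hD : BxD T u v w B A s δ η := ⟨hs, hδ, hη, hsmall, hnear, hslope⟩
  obtain ⟨hwKO, hptd, hbddKC, hKC, hKO⟩ := hBxQ E u v w s δ η huw hs.sw hs.sum hs.bas hδ hη
  have hR : BxR T M M' w A (qf u (lev u v w) s δ η) :=
    ⟨hH.dim, hH.sph, hH.mem, hH.w0, hsides, hloc, hA, hclA, hwKO, hptd, hsmall⟩
  obtain ⟨hSph, hStd⟩ := hBxTh E T M M' w A (Fin 5) (qf u (lev u v w) s δ η) hSch hR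
  obtain ⟨_, hlocS⟩ := hBxSide E T M M' w A (Fin 5) (qf u (lev u v w) s δ η) hSch hR
  refine ⟨(T \ KO (qf u (lev u v w) s δ η)) ∪ (M ∩ KD (qf u (lev u v w) s δ η)), hSph, ?_,
    hStd, ?_, ?_⟩
  · rintro x (hx | hx) hx0
    · exact hH.bdd x hx.1 hx0
    · exact hbddKC x hx.2.1 hx0
  · intro y hy
    obtain ⟨hyT, hy0, hyr⟩ := hW y hy
    have hyKC : y ∉ KC (qf u (lev u v w) s δ η) := by
      intro hmem
      have h1 := hsmall y hmem hy0
      obtain ⟨h2, h3⟩ := ha y hy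
      rcases h1 (a y) (by rw [hAdef]; exact Or.inr ⟨y, hy, rfl⟩) with h4 | h4
      · exact h2 h4
      · rw [h3, sign_zero, sign_eq_zero_iff] at h4
        exact h2 h4
    exact ⟨Or.inl ⟨hyT, fun h5 => hyKC (fun i => (h5 i).le)⟩, germ_off hyKC⟩
  · intro x hx hx0
    by_cases hxKC : x ∈ KC (qf u (lev u v w) s δ η)
    · right
      have hxKO : x ∉ KO (qf u (lev u v w) s δ η) := by
        intro h1
        rcases hx with h2 | h2
        · exact h2.2 h1
        · obtain ⟨_, i, hi⟩ := h2.2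
          have := h1 i
          rw [hi] at this
          exact lt_irrefl _ this
      have hxKD : x ∈ KD (qf u (lev u v w) s δ η) := by
        refine ⟨hxKC, ?_⟩
        by_contra hne
        push Not at hne
        exact hxKO (fun i => lt_of_le_of_ne (hxKC i) (Ne.symm (hne i)))
      rcases lt_or_eq_of_le ((hKC x).1 hxKC).1 with h1 | h1
      · exact hBxPS E T M M' u v w B A s δ η _ x hH hD hR rfl hSph hx hxKD hx0 h1
      · exact hBxPT E T M M' u v w B A s δ η _ x hH hD hR rfl hSph hlocS hx hxKD hx0 h1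
    · left
      have hxT : x ∈ T := by
        rcases hx with h2 | h2
        · exact h2.1
        · exact absurd h2.2.1 hxKC
      refine ⟨hxT, ?_, germ_off hxKC⟩
      rintro ⟨c, hc, hxc⟩
      apply hxKC
      intro i
      rw [hxc, map_smul, smul_eq_mul]
      exact mul_nonneg hc (hwKO i).le

end Pool.Agent.Work.MP_552024_lc.PLS
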