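import Pool.Agent.Work.MP_552024_lc.PLS.S4L

/-!
# MP_552024_lc: the bounded side of a circle in a hyperplane
-/

set_option autoImplicit false

namespace Pool.Agent.Work.MP_552024_lc.PLS

namespace ABsd

lemma exists_ker {n : ℕ} {E : Type} [AddCommGroup E] [Module ℚ E] [FiniteDimensional ℚ E]
    (h : E →ₗ[ℚ] ℚ) (hn : Module.finrank ℚ E = n + 3) : ∃ z : E, z ≠ 0 ∧ h z = 0 := by
  have h1 := LinearMap.finrank_range_add_finrank_ker h
  have h2 : Module.finrank ℚ (LinearMap.range h) ≤ 1 := by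
    have := Submodule.finrank_le (LinearMap.range h)
    simpa using this
  have h3 : 0 < Module.finrank ℚ (LinearMap.ker h) := by omega
  have : Nontrivial (LinearMap.ker h) := Module.nontrivial_of_finrank_pos h3
  obtain ⟨z, hz⟩ := exists_ne (0 : LinearMap.ker h)
  exact ⟨z.1, fun h4 => hz (Subtype.ext h4), z.2⟩

end ABsd

open ABsd in
theorem I_Bsd (hDisc : St_Disc) (hConnB : St_ConnB) : St_Bsd := by
  intro n hA E _ _ _ C h u hn hh hC hCh hCb
  obtain ⟨D, D', hu, hi, hD, hD', hDb, hneg⟩ := hDisc n hA E C h u hn hh hC hCh hCb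
  have hDK : ∀ x ∈ D, h x = 0 := fun x hx => by
    have : x ∈ D ∪ D' := Or.inl hx
    rw [hu] at this
    exact this
  have hD'K : ∀ x ∈ D', h x = 0 := fun x hx => by
    have : x ∈ D ∪ D' := Or.inr hx
    rw [hu] at this
    exact this
  have hK : ∀ x, h x = 0 → x ∈ D ∨ x ∈ D' := fun x hx => by
    have : x ∈ ({x | h x = 0} : Set E) := hx
    rw [← hu] at this
    exact this
  have hCD : ∀ x ∈ C, x ∈ D ∧ x ∈ D' := fun x hx => by
    rw [← hi] at hx
    exact hx
  have hDC : ∀ x, x ∈ D → x ∈ D' → x ∈ C := fun x h1 h2 => by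
    rw [← hi]
    exact ⟨h1, h2⟩
  have h0C : (0 : E) ∈ C := (hConnB (n + 1) E D C hD).2.2
  have e1 : bsd u h C = D := by
    apply Set.Subset.antisymm
    · rintro x ⟨hx0, hx⟩
      rcases hx with hx | hx
      · exact (hCD x hx).1
      · by_contra hxD
        have hxD' : x ∈ D' := (hK x hx0).resolve_left hxD
        apply hx
        refine ⟨D' \ C, (hConnB (n + 1) E D' C hD').1, ⟨hxD', fun hxC => hxD (hCD x hxC).1⟩,
          fun y hy => ⟨hD'K y hy.1, hy.2⟩, ?_⟩
        obtain ⟨z, hz0, hz⟩ := exists_ker h hn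
        have key : ∀ y : E, y ≠ 0 → h y = 0 → u y ≤ 0 → ∃ y ∈ D' \ C, u y ≤ 0 := by
          intro y hy0 hy1 hy2
          exact ⟨y, ⟨hneg y hy1 hy2, fun hyC => absurd (hCb y hyC hy0) (not_lt.2 hy2)⟩, hy2⟩
        rcases le_total (u z) 0 with hz2 | hz2
        · exact key z hz0 hz hz2
        · refine key (-z) (neg_ne_zero.2 hz0) (by rw [map_neg, hz, neg_zero]) ?_
          rw [map_neg]
          linarith
    · intro x hx
      refine ⟨hDK x hx, ?_⟩
      by_cases hxC : x ∈ C
      · exact Or.inl hxC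
      · refine Or.inr ?_
        rintro ⟨G, hG, hxG, hGC, y, hyG, hy⟩
        have hxD' : x ∉ D' := fun h1 => hxC (hDC x hx h1)
        rcases hG.2 D D' hD.1 hD'.1 (fun z hz => hK z (hGC z hz).1)
          (fun z hz h1 h2 => (hGC z hz).2 (hDC z h1 h2)) with h1 | h1
        · have hyD := h1 hyG
          have hy0 : y = 0 := by
            by_contra hy0
            exact absurd (hDb y hyD hy0) (not_lt.2 hy)
          exact (hGC y hyG).2 (hy0 ▸ h0C)
        · exact hxD' (h1 hxG)
  have e2 : osd u h C = D' := by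
    unfold osd
    rw [e1]
    ext x
    constructor
    · rintro ⟨hx0, hx⟩
      rcases hx with hx | hx
      · exact (hCD x hx).2
      · exact (hK x hx0).resolve_left hx
    · intro hx
      refine ⟨hD'K x hx, ?_⟩
      by_cases hxC : x ∈ C
      · exact Or.inl hxC
      · exact Or.inr fun h1 => hxC (hDC x h1 hx)
  rw [e1, e2]
  exact ⟨hu, hi, hD, hD', hDb, hneg⟩

end Pool.Agent.Work.MP_552024_lc.PLS
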