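import Pool.Agent.Work.MP_552024_lc.PLS.S4X

/-!
Item BxB: the cone structure near a point of a sphere.
-/

set_option autoImplicit false

namespace Pool.Agent.Work.MP_552024_lc.PLS

namespace ABxB

section

variable {E : Type} [AddCommGroup E] [Module ℚ E]

/-- invariance under translations by multiples of `w` -/
def WI (w : E) (X : Set E) : Prop := ∀ x ∈ X, ∀ c : ℚ, x + c • w ∈ X

theorem WI.iff {w : E} {X : Set E} (h : WI w X) (x : E) (c : ℚ) : x + c • w ∈ X ↔ x ∈ X := by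
  constructor
  · intro hx
    have h1 := h _ hx (-c)
    rwa [add_assoc, ← add_smul, add_neg_cancel, zero_smul, add_zero] at h1
  · intro hx; exact h x hx c

theorem WI.sub {w : E} {X : Set E} (h : WI w X) {x : E} (hx : x ∈ X) (c : ℚ) :
    x - c • w ∈ X := by
  have h1 := h x hx (-c)
  rwa [neg_smul, ← sub_eq_add_neg] at h1

theorem conn_line (y w : E) : Conn {x : E | ∃ c : ℚ, x = y + c • w} := by
  refine conn_of_convex ⟨y, 0, by simp⟩ ?_
  rintro _ ⟨a, rfl⟩ _ ⟨b, rfl⟩ t _ _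
  exact ⟨a + t * (b - a), by module⟩

variable [FiniteDimensional ℚ E]

theorem wi_side {S N : Set E} {w : E} (hS : Pol S) (hw : WI w S) (hSN : S ⊆ N)
    (h : Comp N Set.univ S) : WI w N := by
  intro y hy c
  by_cases hyS : y ∈ S
  · exact hSN (hw y hyS c)
  · have h1 : {x : E | ∃ c : ℚ, x = y + c • w} ⊆ N := by
      refine h.sub_of_conn pol_univ hS (conn_line y w) ?_ ⟨y, ⟨0, by simp⟩, hy⟩
      rintro _ ⟨c, rfl⟩
      exact ⟨trivial, fun h2 => hyS ((hw.iff y c).1 h2)⟩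
    exact h1 ⟨c, rfl⟩

theorem tl_ev (k : ℕ) : tl k (ev k) = 0 := by
  funext i
  show ev k i.succ = 0
  simp [ev, Fin.succ_ne_zero]

theorem recomb (k : ℕ) (y : Fin (k + 1) → ℚ) : emb k (tl k y) + zcr k y • ev k = y := by
  funext i
  rcases Fin.eq_zero_or_eq_succ i with rfl | ⟨j, rfl⟩
  · rw [Pi.add_apply, emb_zero, Pi.smul_apply]
    simp [ev, zcr, crd]
  · rw [Pi.add_apply, emb_succ, Pi.smul_apply]
    simp [ev, Fin.succ_ne_zero, tl, tcr, crd]

variable {ι : Type} [Fintype ι] [Nonempty ι]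

/-- The cone over a ball. -/
theorem cone_ball (h : ι → E →ₗ[ℚ] ℚ) {w : E} (hw : w ∈ KO h) {k : ℕ} {X Y : Set E}
    (hX : WI w X) (hY : WI w Y) (hYX : Y ⊆ X) (hXp : Pol X)
    (hb : Ball k (X ∩ KD h) (Y ∩ KD h)) :
    Ball (k + 1) (X ∩ KC h) ((X ∩ KD h) ∪ (Y ∩ KC h)) := by
  obtain ⟨_, _, f, g, hfg, hi⟩ := hb
  have hR := radial_KC h hw
  have hKD : KD h ⊆ KC h := fun x hx => hx.1
  have hsub : ∀ x ∈ X ∩ KC h, x - rad h w x • w ∈ X ∩ KD h := by
    rintro x ⟨hx, hx2⟩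
    exact ⟨hX.sub hx _, hR.sub x hx2⟩
  have htl : ∀ y ∈ Orth (k + 1), tl k y ∈ Orth k := fun y hy i => hy i.succ
  have hmF : ∀ y ∈ Orth (k + 1), rad h w (f (tl k y) + zcr k y • w) = zcr k y := by
    intro y hy
    rw [rad_add h hw, hR.m_zero (hfg.mapsf _ (htl y hy)).2, zero_add]
  have hFG : ∀ (a : Fin k → ℚ) (c : ℚ), tl k (emb k a + c • ev k) = a := by
    intro a c
    rw [map_add, map_smul, tl_emb, tl_ev, smul_zero, add_zero]
  have hFG2 : ∀ (a : Fin k → ℚ) (c : ℚ), zcr k (emb k a + c • ev k) = c := by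
    intro a c
    have h1 : zcr k (emb k a) = 0 := emb_zero a
    rw [map_add, map_smul, h1, zcr_ev, zero_add, smul_eq_mul, mul_one]
  refine ⟨hXp.inter (pol_KC h), ?_, fun y => f (tl k y) + zcr k y • w,
    fun x => emb k (g (x - rad h w x • w)) + rad h w x • ev k, ⟨?_, ?_, ?_, ?_, ?_, ?_⟩, ?_⟩
  · rintro x (⟨h1, h2⟩ | ⟨h1, h2⟩)
    · exact ⟨h1, hKD h2⟩
    · exact ⟨hYX h1, h2⟩
  · exact (hfg.plf.comp (plOn_linear (tl k) _) htl).add
      ((plOn_linear (zcr k) _).lin (LinearMap.toSpanSingleton ℚ E w))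
  · have h1 : PLOn (fun x => x - rad h w x • w) (X ∩ KC h) :=
      (plOn_id _).sub ((plOn_rad h w _).lin (LinearMap.toSpanSingleton ℚ E w))
    exact ((hfg.plg.comp h1 hsub).lin (emb k)).add
      ((plOn_rad h w _).lin (LinearMap.toSpanSingleton ℚ _ (ev k)))
  · intro y hy
    have h1 := hfg.mapsf _ (htl y hy)
    exact ⟨hX _ h1.1 _, hR.add _ h1.2 _ (hy 0)⟩
  · intro x hx
    have h1 := hfg.mapsg _ (hsub x hx)
    have h2 := hR.nonneg x hx.2
    intro i
    rcases Fin.eq_zero_or_eq_succ i with rfl | ⟨j, rfl⟩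
    · rw [Pi.add_apply, emb_zero, Pi.smul_apply]
      simpa [ev] using h2
    · rw [Pi.add_apply, emb_succ, Pi.smul_apply]
      have h3 : ev k j.succ = 0 := by simp [ev, Fin.succ_ne_zero]
      rw [h3, smul_zero, add_zero]
      exact h1 j
  · intro y hy
    show emb k (g (f (tl k y) + zcr k y • w - rad h w (f (tl k y) + zcr k y • w) • w)) +
      rad h w (f (tl k y) + zcr k y • w) • ev k = y
    rw [hmF y hy, add_sub_cancel_right, hfg.gf _ (htl y hy), recomb]
  · intro x hx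
    show f (tl k (emb k (g (x - rad h w x • w)) + rad h w x • ev k)) +
      zcr k (emb k (g (x - rad h w x • w)) + rad h w x • ev k) • w = x
    rw [hFG, hFG2, hfg.fg _ (hsub x hx), sub_add_cancel]
  · intro y hy
    have h1 := hfg.mapsf _ (htl y hy)
    have h2 := hi _ (htl y hy)
    constructor
    · rintro ⟨_, i, hi0⟩
      rcases Fin.eq_zero_or_eq_succ i with rfl | ⟨j, rfl⟩
      · left
        have h3 : zcr k y = 0 := hi0
        show f (tl k y) + zcr k y • w ∈ _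
        rw [h3, zero_smul, add_zero]
        exact h1
      · right
        have h3 : tl k y ∈ dOrth k := ⟨htl y hy, j, hi0⟩
        have h4 := h2.1 h3
        exact ⟨hY _ h4.1 _, hR.add _ h4.2 _ (hy 0)⟩
    · rintro (h3 | h3)
      · have h4 := hR.m_zero h3.2
        have h5 := hmF y hy
        rw [h5] at h4
        exact ⟨hy, 0, h4⟩
      · have h4 : f (tl k y) ∈ Y := (hY.iff _ _).1 h3.1
        have h5 : tl k y ∈ dOrth k := h2.2 ⟨h4, h1.2⟩
        obtain ⟨_, j, hj⟩ := h5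
        exact ⟨hy, j.succ, hj⟩

/-- The cone over a circle is a disc. -/
theorem disc_ball (hSphIso : St_SphIso) (hBdSph : St_BdSph) (h : ι → E →ₗ[ℚ] ℚ) {w : E}
    (hw : w ∈ KO h) {S : Set E} (hS : WI w S) (hSp : Pol S) (hsph : Sph 2 (S ∩ KD h)) :
    Ball 3 (S ∩ KC h) (S ∩ KD h) := by
  have hK := radial_KC h hw
  have hR : Radial (S ∩ KC h) (S ∩ KD h) w (rad h w) := by
    refine ⟨plOn_rad h w _, fun x hx => hK.nonneg x hx.2, ?_, ?_, fun v hv => hK.val v hv.2⟩
    · intro x hx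
      exact ⟨hS.sub hx.1 _, hK.sub x hx.2⟩
    · intro v hv t ht
      exact ⟨hS _ hv.1 t, hK.add v hv.2 t ht⟩
  obtain ⟨f, g, hfg⟩ := hSphIso 1 (Fin 3 → ℚ) E (dOrth 3) (S ∩ KD h)
    (hBdSph 1 _ _ _ (ball_Orth 3)) hsph
  have hR0 : Radial (Orth 3) (dOrth 3) (fun _ => 1) (rad (crd 3) (fun _ => 1)) :=
    radial_KC (crd 3) (one_mem_KO 3)
  obtain ⟨Φ, Ψ, h1, _, _, h4⟩ := hR0.ext hR hfg
  exact ⟨hSp.inter (pol_KC h), fun x hx => ⟨hx.1, hx.2.1⟩, Φ, Ψ, h1, h4⟩

/-- The sides of `S` and the sides of its projection. -/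
theorem match_sides (hConnB : St_ConnB) {F : Type} [AddCommGroup F] [Module ℚ F]
    [FiniteDimensional ℚ F] (p : E →ₗ[ℚ] F) (q : F →ₗ[ℚ] E) (hpq : ∀ z, p (q z) = z)
    {S N N' : Set E} (hS : ∀ x, q (p x) ∈ S ↔ x ∈ S) (hs : Sides S N N') {A A' L : Set F}
    (hL : L = {z | q z ∈ S}) (hu : A ∪ A' = Set.univ) (hi : A ∩ A' = L) (hA : Ball 3 A L)
    (hA' : Ball 3 A' L) :
    ({z | q z ∈ N} = A ∧ {z | q z ∈ N'} = A') ∨ ({z | q z ∈ N} = A' ∧ {z | q z ∈ N'} = A) := by
  obtain ⟨hN, hN', hNu, hNi⟩ := hs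
  have pre : ∀ D : Set F, Pol D → Pol {x : E | p x ∈ D} := by
    intro D hD
    have h1 := (plOn_linear p Set.univ).pol_preimage pol_univ hD
    simpa using h1
  have side : ∀ M : Set E, Comp M Set.univ S →
      (M \ S ⊆ {x | p x ∈ A} ∨ M \ S ⊆ {x | p x ∈ A'}) := by
    intro M hM
    refine hM.conn.2 _ _ (pre A hA.1) (pre A' hA'.1) ?_ ?_
    · intro x _
      have h1 : p x ∈ A ∪ A' := by rw [hu]; trivial
      exact h1
    · intro x hx h1 h2
      have h3 : p x ∈ L := by rw [← hi]; exact ⟨h1, h2⟩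
      rw [hL] at h3
      exact hx.2 ((hS x).1 h3)
  obtain ⟨⟨⟨a, ha⟩, _⟩, _⟩ := hConnB 2 F A L hA
  obtain ⟨⟨⟨a', ha'⟩, _⟩, _⟩ := hConnB 2 F A' L hA'
  have both : ∀ D D' : Set F, D ∩ D' = L → (∃ z, z ∈ D' \ L) → N \ S ⊆ {x | p x ∈ D} →
      N' \ S ⊆ {x | p x ∈ D} → False := by
    rintro D D' hD ⟨z, hz, hzL⟩ h1 h2
    have hzS : q z ∉ S := fun h3 => hzL (by rw [hL]; exact h3)
    have h3 : q z ∈ N ∪ N' := by rw [hNu]; trivial
    have h4 : p (q z) ∈ D := by
      rcases h3 with h3 | h3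
      · exact h1 ⟨h3, hzS⟩
      · exact h2 ⟨h3, hzS⟩
    rw [hpq] at h4
    exact hzL (by rw [← hD]; exact ⟨h4, hz⟩)
  have fin : ∀ (M M' : Set E) (D D' : Set F), M ∪ M' = Set.univ → M ∩ M' = S → D ∩ D' = L →
      M \ S ⊆ {x | p x ∈ D} → M' \ S ⊆ {x | p x ∈ D'} → {z | q z ∈ M} = D := by
    intro M M' D D' hMu hMi hDi h1 h2
    ext z
    constructor
    · intro hz
      by_cases hzS : q z ∈ S
      · have h3 : z ∈ L := by rw [hL]; exact hzS
        rw [← hDi] at h3; exact h3.1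
      · have h3 : p (q z) ∈ D := h1 ⟨hz, hzS⟩
        rwa [hpq] at h3
    · intro hz
      by_cases hzS : q z ∈ S
      · have h3 : q z ∈ M ∩ M' := by rw [hMi]; exact hzS
        exact h3.1
      · have h3 : q z ∈ M ∪ M' := by rw [hMu]; trivial
        rcases h3 with h3 | h3
        · exact h3
        · exfalso
          have h4 : p (q z) ∈ D' := h2 ⟨h3, hzS⟩
          rw [hpq] at h4
          have h5 : z ∈ L := by rw [← hDi]; exact ⟨hz, h4⟩
          rw [hL] at h5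
          exact hzS h5
  have hNu' : N' ∪ N = Set.univ := by rw [Set.union_comm]; exact hNu
  have hNi' : N' ∩ N = S := by rw [Set.inter_comm]; exact hNi
  have hi' : A' ∩ A = L := by rw [Set.inter_comm]; exact hi
  rcases side N hN with h1 | h1 <;> rcases side N' hN' with h2 | h2
  · exact (both A A' hi ⟨a', ha'⟩ h1 h2).elim
  · left
    exact ⟨fin N N' A A' hNu hNi hi h1 h2, fin N' N A' A hNu' hNi' hi' h2 h1⟩
  · right
    exact ⟨fin N N' A' A hNu hNi hi' h1 h2, fin N' N A A' hNu' hNi' hi h2 h1⟩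
  · exact (both A' A hi' ⟨a, ha⟩ h1 h2).elim

theorem Sph.pol {k : ℕ} {T : Set E} (h : Sph k T) : Pol T := by
  obtain ⟨D₁, D₂, U, hT, _, h1, h2⟩ := h
  rw [hT]
  exact h1.1.union h2.1

end

end ABxB

open ABxB in
theorem I_BxB (hLS : St_LS) (hSphTr : St_SphTr) (hSphIso : St_SphIso)
    (hBdSph : St_BdSph) (hConnB : St_ConnB) : St_BxB := by
  intro E _ _ _ T N N' w ι _ _ h hSch hdim hsph hwT hw0 hsides hwK _
  have hTp : Pol T := ABxB.Sph.pol hsph
  have hSp : Pol (Tg w T) := tg_pol hTp hwT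
  have hSw : WI w (Tg w T) := fun x hx c => (tg_add hTp.con x c).2 hx
  have hSN : Tg w T ⊆ N := by rw [← hsides.2.2.2]; exact Set.inter_subset_left
  have hSN' : Tg w T ⊆ N' := by rw [← hsides.2.2.2]; exact Set.inter_subset_right
  have hNw : WI w N := wi_side hSp hSw hSN hsides.1
  have hNw' : WI w N' := wi_side hSp hSw hSN' hsides.2.1
  -- the projection
  obtain ⟨b, hb⟩ : ∃ b : E →ₗ[ℚ] ℚ, b w = 1 := by
    have h1 : ¬ ∀ φ : Module.Dual ℚ E, φ w = 0 := by
      rw [Module.forall_dual_apply_eq_zero_iff]; exact hw0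
    rw [not_forall] at h1
    obtain ⟨φ, hφ⟩ := h1
    refine ⟨(φ w)⁻¹ • φ, ?_⟩
    rw [LinearMap.smul_apply, smul_eq_mul, inv_mul_cancel₀ hφ]
  have hb0 : b ≠ 0 := by
    intro h0
    rw [h0, LinearMap.zero_apply] at hb
    exact zero_ne_one hb
  have hfr : Module.finrank ℚ (LinearMap.ker b) = 2 + 1 := by
    have h1 := Module.Dual.finrank_ker_add_one_of_ne_zero hb0
    omega
  let q : LinearMap.ker b →ₗ[ℚ] E := (LinearMap.ker b).subtype
  let p : E →ₗ[ℚ] LinearMap.ker b :=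
    LinearMap.codRestrict (LinearMap.ker b) (LinearMap.id - b.smulRight w) (by
      intro x
      rw [LinearMap.mem_ker]
      simp [hb])
  have hqp : ∀ x, q (p x) = x - b x • w := fun x => by simp [p, q]
  have hpq : ∀ z, p (q z) = z := by
    intro z
    apply Subtype.ext
    have h1 : b (q z) = 0 := z.2
    have h2 := hqp (q z)
    rw [h1, zero_smul, sub_zero] at h2
    exact h2
  have hpker : ∀ y, p y = 0 ↔ ∃ c : ℚ, y = c • w := by
    intro y
    constructor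
    · intro h1
      refine ⟨b y, ?_⟩
      have h2 := hqp y
      rw [h1, map_zero] at h2
      exact (sub_eq_zero.1 h2.symm)
    · rintro ⟨c, rfl⟩
      apply Subtype.ext
      have h2 := hqp (c • w)
      have h3 : b (c • w) = c := by rw [map_smul, hb, smul_eq_mul, mul_one]
      rw [h3, sub_self] at h2
      exact h2
  have hSph2 := hLS 1 E (LinearMap.ker b) T w p q hpq hpker hsph hwT hw0
  have hinv : ∀ X : Set E, WI w X → ∀ x, q (p x) ∈ X ↔ x ∈ X := by
    intro X hX x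
    rw [hqp, sub_eq_add_neg, ← neg_smul]
    exact hX.iff x _
  have himg : p '' Tg w T = {z | q z ∈ Tg w T} := by
    ext z
    constructor
    · rintro ⟨y, hy, rfl⟩
      exact (hinv _ hSw y).2 hy
    · intro hz
      exact ⟨q z, hz, hpq z⟩
  rw [himg] at hSph2
  obtain ⟨A, A', hu, hi, hA, hA'⟩ := hSch (LinearMap.ker b) hfr _ hSph2
  have hm := match_sides hConnB p q hpq (hinv _ hSw) hsides rfl hu hi hA hA'
  have hBN : Ball 3 {z | q z ∈ N} {z | q z ∈ Tg w T} ∧
      Ball 3 {z | q z ∈ N'} {z | q z ∈ Tg w T} := by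
    rcases hm with ⟨h1, h2⟩ | ⟨h1, h2⟩
    · rw [h1, h2]; exact ⟨hA, hA'⟩
    · rw [h1, h2]; exact ⟨hA', hA⟩
  -- the boundary of the cone is isomorphic to the kernel
  have hR := radial_KC h hwK
  have hψ : PLInv (fun z : LinearMap.ker b => q z - rad h w (q z) • w) p Set.univ (KD h) := by
    refine ⟨?_, plOn_linear p _, ?_, fun _ _ => trivial, ?_, ?_⟩
    · exact (plOn_linear q _).sub (((plOn_rad h w Set.univ).comp (plOn_linear q _)
        (fun _ _ => trivial)).lin (LinearMap.toSpanSingleton ℚ E w))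
    · intro z _
      refine ⟨fun i => ?_, ?_⟩
      · rw [map_sub, map_smul, smul_eq_mul]
        linarith [rad_le h hwK (q z) i]
      · obtain ⟨i, hi⟩ := exists_rad_eq h hwK (q z)
        refine ⟨i, ?_⟩
        rw [map_sub, map_smul, smul_eq_mul]; linarith
    · intro z _
      show p (q z - rad h w (q z) • w) = z
      rw [map_sub, hpq, (hpker _).2 ⟨_, rfl⟩, sub_zero]
    · intro x hx
      show q (p x) - rad h w (q (p x)) • w = x
      have h1 : q (p x) = x + (-(b x)) • w := by rw [hqp, neg_smul, sub_eq_add_neg]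
      rw [h1, rad_add h hwK, hR.m_zero hx, zero_add, add_sub_cancel_right]
  have hψX : ∀ X : Set E, WI w X →
      (∀ z ∈ (Set.univ : Set (LinearMap.ker b)), (z ∈ {z | q z ∈ X} ↔
        (fun z : LinearMap.ker b => q z - rad h w (q z) • w) z ∈ X ∩ KD h)) := by
    intro X hX z hz
    constructor
    · intro h1
      exact ⟨hX.sub h1 _, hψ.mapsf z hz⟩
    · rintro ⟨h1, _⟩
      have h2 : q z + (-(rad h w (q z))) • w ∈ X := by
        rw [neg_smul, ← sub_eq_add_neg]; exact h1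
      exact (hX.iff _ _).1 h2
  have hψR : ∀ X : Set E, WI w X →
      PLInv (fun z : LinearMap.ker b => q z - rad h w (q z) • w) p {z | q z ∈ X} (X ∩ KD h) :=
    fun X hX => hψ.restrict (Set.subset_univ _) Set.inter_subset_right (hψX X hX)
  have hSD : Pol (Tg w T ∩ KD h) := hSp.inter (pol_KD h)
  have r1 : Sph 2 (Tg w T ∩ KD h) := hSphTr 1 _ _ _ _ _ _ hSph2 hSD (hψR _ hSw)
  have tr : ∀ X : Set E, WI w X → Pol X → Tg w T ⊆ X → Ball 3 {z | q z ∈ X} {z | q z ∈ Tg w T} →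
      Ball 3 (X ∩ KD h) (Tg w T ∩ KD h) := by
    intro X hX hXp hSX hB
    refine hB.transport (hXp.inter (pol_KD h)) (hψR X hX) (fun x hx => ⟨hSX hx.1, hx.2⟩) ?_
    intro z _
    exact hψX _ hSw z trivial
  have r2 := tr N hNw hsides.1.pol hSN hBN.1
  have r3 := tr N' hNw' hsides.2.1.pol hSN' hBN.2
  refine ⟨r1, r2, r3, disc_ball hSphIso hBdSph h hwK hSw hSp r1, ?_, ?_⟩
  · exact cone_ball h hwK hNw hSw hSN hsides.1.pol r2
  · exact cone_ball h hwK hNw' hSw hSN' hsides.2.1.pol r3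

end Pool.Agent.Work.MP_552024_lc.PLS
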