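import Pool.Agent.Work.MP_552024_lc.PLS.S4X

set_option autoImplicit false

namespace Pool.Agent.Work.MP_552024_lc.PLS

open SignType

namespace ABxDl

theorem common {ι : Type*} {S : Set ι} (hS : S.Finite) (P : ι → ℚ → Prop)
    (hm : ∀ i δ δ', 0 < δ' → δ' ≤ δ → P i δ → P i δ') (h : ∀ i ∈ S, ∃ δ, 0 < δ ∧ P i δ) :
    ∃ δ, 0 < δ ∧ ∀ i ∈ S, P i δ := by
  induction S, hS using Set.Finite.induction_on with
  | empty => exact ⟨1, one_pos, fun i hi => hi.elim⟩
  | @insert a s _ _ ih =>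
    obtain ⟨δ, hδ, H⟩ := ih (fun i hi => h i (Set.mem_insert_of_mem _ hi))
    obtain ⟨δ', hδ', H'⟩ := h a (Set.mem_insert _ _)
    refine ⟨min δ δ', lt_min hδ hδ', ?_⟩
    intro i hi
    rcases Set.mem_insert_iff.1 hi with rfl | hi
    · exact hm _ _ _ (lt_min hδ hδ') (min_le_right _ _) H'
    · exact hm _ _ _ (lt_min hδ hδ') (min_le_left _ _) (H i hi)

theorem exists_d (M : ℚ) (hM : 0 < M) : ∃ δ : ℚ, 0 < δ ∧ M * δ < 1 := by
  refine ⟨1 / (2 * M), by positivity, ?_⟩
  have : M * (1 / (2 * M)) = 1 / 2 := by field_simp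
  rw [this]; norm_num

theorem slope_small {E : Type} [AddCommGroup E] [Module ℚ E] (g s : E →ₗ[ℚ] ℚ) (b : E →ₗ[ℚ] ℚ) :
    ∃ δ : ℚ, 0 < δ ∧ ∀ k : ℚ, (∃ y, b y = 0 ∧ g y ≠ 0) → (∀ y, b y = 0 → g y = k * s y) →
      δ < |k| := by
  by_cases h : ∃ k : ℚ, (∃ y, b y = 0 ∧ g y ≠ 0) ∧ (∀ y, b y = 0 → g y = k * s y)
  · obtain ⟨k, ⟨y, hy, hgy⟩, hk⟩ := h
    have e := hk y hy
    have hk0 : k ≠ 0 := by
      intro h0; rw [h0, zero_mul] at e; exact hgy e
    have hs0 : s y ≠ 0 := by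
      intro h0; rw [h0, mul_zero] at e; exact hgy e
    refine ⟨|k| / 2, by positivity, fun k' _ hk' => ?_⟩
    have e' := hk' y hy
    have : k = k' := mul_right_cancel₀ hs0 (e.symm.trans e')
    rw [← this]
    have : 0 < |k| := by positivity
    linarith
  · exact ⟨1, one_pos, fun k h1 h2 => (h ⟨k, h1, h2⟩).elim⟩

theorem sph_pol {E : Type} [AddCommGroup E] [Module ℚ E] {k : ℕ} {T : Set E} (h : Sph k T) :
    Pol T := by
  obtain ⟨D1, D2, U, rfl, -, h1, h2⟩ := h
  exact h1.1.union h2.1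

theorem face_congr {E : Type} [AddCommGroup E] [Module ℚ E] {B : Set (E →ₗ[ℚ] ℚ)} {x y : E}
    (h : SameSign B x y) : face B x = face B y := by
  ext z
  constructor
  · intro hz b hb
    exact (hz b hb).imp id (fun h' => h'.trans (h b hb))
  · intro hz b hb
    exact (hz b hb).imp id (fun h' => h'.trans (h b hb).symm)

/-- If the form `a` is positive at `x` and vanishes on the face of `x` only on the line of `w`,
then it is nonnegative on the face. -/
theorem nonneg_face {E : Type} [AddCommGroup E] [Module ℚ E] {B : Set (E →ₗ[ℚ] ℚ)} {w x : E}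
    (van : ∀ b ∈ B, b w = 0) (spn : ∀ y, (∀ b ∈ B, b y = 0) → ∃ c : ℚ, y = c • w)
    (a : E →ₗ[ℚ] ℚ) (hx : ¬ ∃ c : ℚ, x = c • w) (hax : 0 < a x)
    (h0 : ∀ y ∈ face B x, a y = 0 → ∃ c : ℚ, y = c • w) : ∀ y ∈ face B x, 0 ≤ a y := by
  intro y hy
  by_contra hlt
  push Not at hlt
  set z : E := (-(a y)) • x + (a x) • y with hz
  have haz : a z = 0 := by
    rw [hz, map_add, map_smul, map_smul, smul_eq_mul, smul_eq_mul]; ring
  have hfz : z ∈ face B x := by
    intro b hb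
    rcases hy b hb with h1 | h1
    · by_cases hbx : b x = 0
      · left
        rw [hz, map_add, map_smul, map_smul, hbx, h1, smul_zero, smul_zero, add_zero]
      · right
        rw [hz, map_add, map_smul, map_smul, h1, smul_zero, add_zero, smul_eq_mul, sign_mul,
          sign_pos (by linarith : 0 < -(a y)), one_mul]
    · right
      rcases lt_trichotomy (b x) 0 with h2 | h2 | h2
      · rw [sign_neg h2] at h1 ⊢
        rw [sign_eq_neg_one_iff] at h1 ⊢
        rw [hz, map_add, map_smul, map_smul, smul_eq_mul, smul_eq_mul]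
        have e1 : -(a y) * b x < 0 := mul_neg_of_pos_of_neg (by linarith) h2
        have e2 : a x * b y < 0 := mul_neg_of_pos_of_neg hax h1
        linarith
      · rw [h2, sign_zero] at h1 ⊢
        rw [sign_eq_zero_iff] at h1 ⊢
        rw [hz, map_add, map_smul, map_smul, h1, h2, smul_zero, smul_zero, add_zero]
      · rw [sign_pos h2] at h1 ⊢
        rw [sign_eq_one_iff] at h1 ⊢
        rw [hz, map_add, map_smul, map_smul, smul_eq_mul, smul_eq_mul]
        have e1 : 0 < -(a y) * b x := mul_pos (by linarith) h2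
        have e2 : 0 < a x * b y := mul_pos hax h1
        linarith
  obtain ⟨c, hc⟩ := h0 z hfz haz
  apply hx
  apply spn
  intro b hb
  have hbz : b z = 0 := by rw [hc, map_smul, van b hb, smul_zero]
  rw [hz, map_add, map_smul, map_smul, smul_eq_mul, smul_eq_mul] at hbz
  by_contra hbx
  rcases hy b hb with h1 | h1
  · rw [h1, mul_zero, add_zero] at hbz
    rcases mul_eq_zero.1 hbz with h3 | h3
    · linarith
    · exact hbx h3
  · rcases lt_or_gt_of_ne hbx with h2 | h2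
    · rw [sign_neg h2, sign_eq_neg_one_iff] at h1
      have e1 : -(a y) * b x < 0 := mul_neg_of_pos_of_neg (by linarith) h2
      have e2 : a x * b y < 0 := mul_neg_of_pos_of_neg hax h1
      linarith
    · rw [sign_pos h2, sign_eq_one_iff] at h1
      have e1 : 0 < -(a y) * b x := mul_pos (by linarith) h2
      have e2 : 0 < a x * b y := mul_pos hax h1
      linarith

theorem contra {δ M s a : ℚ} (hs : 0 < s) (hM : 0 < M) (hd : M * δ < 1) (ha : a ≤ δ * s)
    (h : s ≤ M * a) : False := by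
  have h1 : M * a ≤ M * (δ * s) := mul_le_mul_of_nonneg_left ha hM.le
  have h2 : M * (δ * s) = (M * δ) * s := by ring
  have h3 : (M * δ) * s < 1 * s := mul_lt_mul_of_pos_right hd hs
  linarith

end ABxDl

open ABxDl in
theorem I_BxDl (hSlope : St_Slope) : St_BxDl := by
  intro E _ _ _ T u v w B s hH hF
  set g : E →ₗ[ℚ] ℚ := lev u v w with hg
  have hT : Pol T := sph_pol hH.sph
  have hTg : Pol (Tg w T) := tg_pol hT hH.mem
  have hGf : ({g, -g} : Set (E →ₗ[ℚ] ℚ)).Finite := Set.toFinite _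
  -- (a)
  obtain ⟨δ1, hδ1, H1⟩ := common (S := B ×ˢ (Set.univ : Set (Fin 3)))
    (hH.fin.prod Set.finite_univ)
    (fun p δ => ∀ k : ℚ, (∃ y, p.1 y = 0 ∧ g y ≠ 0) → (∀ y, p.1 y = 0 → g y = k * s p.2 y) →
      δ < |k|)
    (fun p δ δ' _ h1 h2 k h3 h4 => h1.trans_lt (h2 k h3 h4))
    (fun p _ => slope_small g (s p.2) p.1)
  -- (b)
  obtain ⟨δ2, hδ2, H2⟩ := common
    (S := (Set.univ : Set (Fin 3 × Fin 3)) ×ˢ ({g, -g} : Set (E →ₗ[ℚ] ℚ)))
    (Set.finite_univ.prod hGf)
    (fun p δ => p.1.1 ≠ p.1.2 → ∃ M : ℚ, 0 < M ∧ M * δ < 1 ∧ ∀ x ∈ Tg w T,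
      s p.1.1 x = s p.1.2 x → 0 ≤ p.2 x → s p.1.1 x ≤ M * p.2 x)
    (fun p δ δ' _ h1 h2 h3 => by
      obtain ⟨M, hM, h4, h5⟩ := h2 h3
      exact ⟨M, hM, (mul_le_mul_of_nonneg_left h1 hM.le).trans_lt h4, h5⟩)
    (by
      rintro ⟨⟨i, j⟩, a⟩ ⟨-, ha⟩
      by_cases hij : i = j
      · exact ⟨1, one_pos, fun h => (h hij).elim⟩
      have hX : Pol ((Tg w T ∩ {x | (s i - s j) x = 0}) ∩ {x | 0 ≤ a x}) :=
        (hTg.inter (pol_hyperplane _)).inter (pol_halfspace _)
      obtain ⟨M, hM, h1⟩ := hSlope E _ a (s i) hX (fun x hx => hx.2) (by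
        rintro x ⟨⟨hx1, hx2⟩, -⟩ hax
        have hgx : g x = 0 := by
          rcases ha with rfl | ha
          · exact hax
          · have ha' : a = -g := ha
            rw [ha', LinearMap.neg_apply, neg_eq_zero] at hax
            exact hax
        refine hF.corner x hx1 hgx i j hij ?_
        have : (s i - s j) x = 0 := hx2
        rw [LinearMap.sub_apply, sub_eq_zero] at this
        exact this)
      obtain ⟨δ, hδ, h2⟩ := exists_d M hM
      refine ⟨δ, hδ, fun _ => ⟨M, hM, h2, fun x hx1 hx2 hx3 => h1 x ⟨⟨hx1, ?_⟩, hx3⟩⟩⟩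
      show (s i - s j) x = 0
      rw [LinearMap.sub_apply, sub_eq_zero]
      exact hx2)
  -- (c)
  obtain ⟨R, hR, hRs, hRr⟩ := exists_reps hH.fin (Tg w T)
  obtain ⟨δ3, hδ3, H3⟩ := common
    (S := (R ×ˢ (Set.univ : Set (Fin 3))) ×ˢ ({g, -g} : Set (E →ₗ[ℚ] ℚ)))
    ((hR.prod Set.finite_univ).prod hGf)
    (fun p δ => (∀ y ∈ face B p.1.1, 0 ≤ p.2 y) →
      (∀ y ∈ face B p.1.1, p.2 y = 0 → s p.1.2 y ≤ 0) →
      ∃ M : ℚ, 0 < M ∧ M * δ < 1 ∧ ∀ y ∈ face B p.1.1, s p.1.2 y ≤ M * p.2 y)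
    (fun p δ δ' _ h1 h2 h3 h3' => by
      obtain ⟨M, hM, h4, h5⟩ := h2 h3 h3'
      exact ⟨M, hM, (mul_le_mul_of_nonneg_left h1 hM.le).trans_lt h4, h5⟩)
    (by
      rintro ⟨⟨x0, i⟩, a⟩ -
      by_cases hc : (∀ y ∈ face B x0, 0 ≤ a y) ∧ (∀ y ∈ face B x0, a y = 0 → s i y ≤ 0)
      · obtain ⟨M, hM, h1⟩ := hSlope E _ a (s i) (pol_face hH.fin x0) hc.1 hc.2
        obtain ⟨δ, hδ, h2⟩ := exists_d M hM
        exact ⟨δ, hδ, fun _ _ => ⟨M, hM, h2, h1⟩⟩
      · exact ⟨1, one_pos, fun h1 h2 => (hc ⟨h1, h2⟩).elim⟩)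
  have hpos : 0 < min δ1 (min δ2 δ3) := lt_min hδ1 (lt_min hδ2 hδ3)
  refine ⟨min δ1 (min δ2 δ3), hpos, ?_, ?_⟩
  · intro x hx i hi hj hgx
    obtain ⟨a, ha, hax⟩ : ∃ a ∈ ({g, -g} : Set (E →ₗ[ℚ] ℚ)), a x = |g x| := by
      rcases le_total 0 (g x) with h | h
      · exact ⟨g, Or.inl rfl, (abs_of_nonneg h).symm⟩
      · exact ⟨-g, Or.inr rfl, by rw [abs_of_nonpos h]; rfl⟩
    have hax0 : 0 ≤ a x := by rw [hax]; exact abs_nonneg _
    have hle2 : a x ≤ δ2 * s i x := by
      rw [hax]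
      exact hgx.trans (mul_le_mul_of_nonneg_right
        ((min_le_right _ _).trans (min_le_left _ _)) hi.le)
    have hle3 : a x ≤ δ3 * s i x := by
      rw [hax]
      exact hgx.trans (mul_le_mul_of_nonneg_right
        ((min_le_right _ _).trans (min_le_right _ _)) hi.le)
    constructor
    · intro j hji
      refine lt_of_le_of_ne (hj j) (fun heq => ?_)
      obtain ⟨M, hM, h1, h2⟩ := H2 ((i, j), a) ⟨trivial, ha⟩ (fun h => hji h.symm)
      exact contra hi hM h1 hle2 (h2 x hx heq.symm hax0)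
    · have hnw : ¬ ∃ c : ℚ, x = c • w := by
        rintro ⟨c, hc⟩
        rw [hc, map_smul, hF.sw i, smul_zero] at hi
        exact lt_irrefl _ hi
      rcases hH.nh x hx hnw with h | h
      · exact h
      · exfalso
        have hgx0 : g x ≠ 0 := fun h0 => hnw (h x (mem_face_self B x) h0)
        have haxp : 0 < a x := by rw [hax]; exact abs_pos.2 hgx0
        have h' : ∀ y ∈ face B x, a y = 0 → ∃ c : ℚ, y = c • w := by
          intro y hy hay
          refine h y hy ?_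
          rcases ha with rfl | ha
          · exact hay
          · rw [Set.mem_singleton_iff] at ha
            rw [ha, LinearMap.neg_apply, neg_eq_zero] at hay
            exact hay
        have hnn := nonneg_face hH.van hH.spn a hnw haxp h'
        obtain ⟨x0, hx0, hxx⟩ := hRr x hx
        have hfe := face_congr hxx
        obtain ⟨M, hM, h1, h2⟩ := H3 ((x0, i), a) ⟨⟨hx0, trivial⟩, ha⟩
          (by simp only; rw [hfe]; exact hnn)
          (by
            simp only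
            rw [hfe]
            intro y hy hay
            obtain ⟨c, hc⟩ := h' y hy hay
            rw [hc, map_smul, hF.sw i, smul_zero])
        exact contra hi hM h1 hle3 (h2 x (by simp only; rw [hfe]; exact mem_face_self B x))
  · intro b hb i k h1 h2
    exact (min_le_left _ _).trans_lt (H1 (b, i) ⟨hb, trivial⟩ k h1 h2)

end Pool.Agent.Work.MP_552024_lc.PLS
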