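import Pool.Agent.Work.MP_552024_lc.PLS.S4X

set_option autoImplicit false

/-! Item BxE: the choice of the size of the box. -/

namespace Pool.Agent.Work.MP_552024_lc.PLS

namespace ABxE

variable {E : Type} [AddCommGroup E] [Module ℚ E]

/-- the forms are combinations of the four basic ones -/
theorem coeffs (u g s0 s1 a : E →ₗ[ℚ] ℚ)
    (h : ∀ x, u x = 0 → g x = 0 → s0 x = 0 → s1 x = 0 → x = 0) :
    ∃ c0 c1 c2 c3 : ℚ, ∀ x, a x = c0 * u x + c1 * g x + c2 * s0 x + c3 * s1 x := by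
  have h1 : a ∈ Submodule.span ℚ (Set.range ![u, g, s0, s1]) := by
    apply mem_span_of_iInf_ker_le_ker
    intro x hx
    rw [Submodule.mem_iInf] at hx
    have e0 := hx 0
    have e1 := hx 1
    have e2 := hx 2
    have e3 := hx 3
    simp only [LinearMap.mem_ker] at e0 e1 e2 e3
    have : x = 0 := h x (by simpa using e0) (by simpa using e1) (by simpa using e2)
      (by simpa using e3)
    rw [this]
    exact Submodule.zero_mem _
  rw [Submodule.mem_span_range_iff_exists_fun] at h1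
  obtain ⟨c, hc⟩ := h1
  refine ⟨c 0, c 1, c 2, c 3, fun x => ?_⟩
  rw [← hc, Fin.sum_univ_four]
  simp

/-- the inequalities of the box -/
theorem box_ineq {u g : E →ₗ[ℚ] ℚ} {s : Fin 3 → E →ₗ[ℚ] ℚ} {δ η : ℚ} {x : E}
    (hs : s 0 + s 1 + s 2 = 0)
    (h : ∀ x, u x = 0 → g x = 0 → s 0 x = 0 → s 1 x = 0 → x = 0)
    (hd : 0 < δ) (he : 0 < η) (hx : x ∈ KC (qf u g s δ η)) (hx0 : x ≠ 0) :
    0 < u x ∧ |g x| ≤ δ * η * u x ∧ |s 0 x| ≤ 2 * η * u x ∧ |s 1 x| ≤ 2 * η * u x := by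
  have e0 : 0 ≤ (δ * η) * u x - g x := by simpa [qf] using hx 0
  have e1 : 0 ≤ (δ * η) * u x + g x := by simpa [qf] using hx 1
  have e2 : 0 ≤ η * u x - s 0 x := by simpa [qf] using hx 2
  have e3 : 0 ≤ η * u x - s 1 x := by simpa [qf] using hx 3
  have e4 : 0 ≤ η * u x - s 2 x := by simpa [qf] using hx 4
  have es : s 0 x + s 1 x + s 2 x = 0 := by
    have := congrArg (fun l : E →ₗ[ℚ] ℚ => l x) hs
    simpa using this
  have hde : 0 < δ * η := mul_pos hd he
  have hu0 : 0 ≤ u x := by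
    by_contra hcon
    have := mul_neg_of_pos_of_neg hde (not_le.1 hcon)
    linarith
  have hu : 0 < u x := by
    rcases hu0.lt_or_eq with h1 | h1
    · exact h1
    · exfalso
      rw [← h1, mul_zero] at e0 e1 e2 e3 e4
      exact hx0 (h x h1.symm (by linarith) (by linarith) (by linarith))
  refine ⟨hu, abs_le.2 ⟨by linarith, by linarith⟩, abs_le.2 ⟨by linarith, ?_⟩,
    abs_le.2 ⟨by linarith, ?_⟩⟩
  · have := mul_pos he hu
    linarith
  · have := mul_pos he hu
    linarith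

/-- one form -/
theorem one_form {u g : E →ₗ[ℚ] ℚ} {s : Fin 3 → E →ₗ[ℚ] ℚ} {δ : ℚ} {w : E}
    (hw : 0 < u w) (hg : g w = 0) (hsw : ∀ i, s i w = 0) (hs : s 0 + s 1 + s 2 = 0)
    (h : ∀ x, u x = 0 → g x = 0 → s 0 x = 0 → s 1 x = 0 → x = 0)
    (hd : 0 < δ) (a : E →ₗ[ℚ] ℚ) :
    ∃ η₀ : ℚ, 0 < η₀ ∧ ∀ η, 0 < η → η ≤ η₀ → ∀ x ∈ KC (qf u g s δ η), x ≠ 0 →
      a w = 0 ∨ SignType.sign (a w) = SignType.sign (a x) := by
  obtain ⟨c0, c1, c2, c3, hc⟩ := coeffs u g (s 0) (s 1) a h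
  have haw : a w = c0 * u w := by
    rw [hc w, hg, hsw 0, hsw 1]
    ring
  by_cases h0 : c0 = 0
  · refine ⟨1, one_pos, fun η _ _ x _ _ => Or.inl ?_⟩
    rw [haw, h0, zero_mul]
  · have hM : 0 ≤ |c1| * δ + 2 * |c2| + 2 * |c3| := by positivity
    set M := |c1| * δ + 2 * |c2| + 2 * |c3| with hMd
    have hc0 : 0 < |c0| := abs_pos.2 h0
    refine ⟨|c0| / (M + 1), by positivity, fun η he hle x hx hx0 => Or.inr ?_⟩
    obtain ⟨hu, b1, b2, b3⟩ := box_ineq hs h hd he hx hx0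
    have hMe : M * η < |c0| := by
      rw [le_div_iff₀ (by linarith)] at hle
      linarith
    have hMu : M * η * u x < |c0| * u x := mul_lt_mul_of_pos_right hMe hu
    have hr : |c1 * g x + c2 * s 0 x + c3 * s 1 x| ≤ M * η * u x := by
      calc |c1 * g x + c2 * s 0 x + c3 * s 1 x|
          ≤ |c1 * g x| + |c2 * s 0 x| + |c3 * s 1 x| := abs_add_three _ _ _
        _ = |c1| * |g x| + |c2| * |s 0 x| + |c3| * |s 1 x| := by
            rw [abs_mul, abs_mul, abs_mul]
        _ ≤ |c1| * (δ * η * u x) + |c2| * (2 * η * u x) + |c3| * (2 * η * u x) := by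
            gcongr
        _ = M * η * u x := by
            rw [hMd]
            ring
    have hr2 := abs_le.1 hr
    have hax : a x = c0 * u x + (c1 * g x + c2 * s 0 x + c3 * s 1 x) := by
      rw [hc x]
      ring
    rcases lt_or_gt_of_ne h0 with hneg | hpos
    · have e1 : a w < 0 := by
        rw [haw]
        exact mul_neg_of_neg_of_pos hneg hw
      have e2 : a x < 0 := by
        rw [abs_of_neg hneg] at hMu
        rw [hax]
        linarith
      rw [sign_neg e1, sign_neg e2]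
    · have e1 : 0 < a w := by
        rw [haw]
        exact mul_pos hpos hw
      have e2 : 0 < a x := by
        rw [abs_of_pos hpos] at hMu
        rw [hax]
        linarith
      rw [sign_pos e1, sign_pos e2]

end ABxE

theorem I_BxE : St_BxE := by
  intro E _ _ _ u v w A s δ _ hw hA hsw hs hbas hd
  have hg : lev u v w w = 0 := by
    unfold lev
    simp only [LinearMap.sub_apply, LinearMap.smul_apply, smul_eq_mul]
    ring
  suffices H : ∃ η₀ : ℚ, 0 < η₀ ∧ ∀ η, 0 < η → η ≤ η₀ →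
      ∀ x ∈ KC (qf u (lev u v w) s δ η), x ≠ 0 → ∀ a ∈ A,
        a w = 0 ∨ SignType.sign (a w) = SignType.sign (a x) by
    obtain ⟨η₀, h1, h2⟩ := H
    exact ⟨η₀, h1, fun x hx hx0 => h2 η₀ h1 le_rfl x hx hx0⟩
  induction A, hA using Set.Finite.induction_on with
  | empty => exact ⟨1, one_pos, fun η _ _ x _ _ a ha => absurd ha (Set.notMem_empty a)⟩
  | @insert a A _ _ ih =>
    obtain ⟨η₁, h1, h2⟩ := ih
    obtain ⟨η₂, h3, h4⟩ := ABxE.one_form hw hg hsw hs hbas hd a
    refine ⟨min η₁ η₂, lt_min h1 h3, fun η he hle x hx hx0 b hb => ?_⟩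
    rcases Set.mem_insert_iff.1 hb with rfl | hb
    · exact h4 η he (hle.trans (min_le_right _ _)) x hx hx0
    · exact h2 η he (hle.trans (min_le_left _ _)) x hx hx0 b hb

end Pool.Agent.Work.MP_552024_lc.PLS
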