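import Pool.Agent.Work.MP_552024_lc.PLS.S4X

/-!
# MP_552024_lc: `PP` on the sides of the box
-/

set_option autoImplicit false

namespace Pool.Agent.Work.MP_552024_lc.PLS

namespace ABxPS

open SignType

section Gen

variable {E : Type} [AddCommGroup E] [Module ℚ E] {ι : Type}

lemma inv_KO (h : ι → E →ₗ[ℚ] ℚ) : InvA (Set.range h) (KO h) := by
  intro x y hxy hx i
  rw [← sign_eq_one_iff, ← hxy (h i) ⟨i, rfl⟩, sign_eq_one_iff]
  exact hx i

lemma inv_KD (h : ι → E →ₗ[ℚ] ℚ) : InvA (Set.range h) (KD h) := by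
  rintro x y hxy ⟨h1, i, hi⟩
  refine ⟨fun j => ?_, i, ?_⟩
  · rw [← sign_nonneg_iff, ← hxy (h j) ⟨j, rfl⟩, sign_nonneg_iff]
    exact h1 j
  · rw [← sign_eq_zero_iff, ← hxy (h i) ⟨i, rfl⟩, sign_eq_zero_iff]
    exact hi

variable [Fintype ι]

lemma fin_range (h : ι → E →ₗ[ℚ] ℚ) : (Set.range h).Finite := Set.finite_range h

lemma con_KO (h : ι → E →ₗ[ℚ] ℚ) : Con (KO h) := (inv_KO h).con (fin_range h)

lemma con_KD (h : ι → E →ₗ[ℚ] ℚ) : Con (KD h) := (inv_KD h).con (fin_range h)

lemma tg_KO (h : ι → E →ₗ[ℚ] ℚ) (x : E) (i : ι) (hi : h i x = 0)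
    (hj : ∀ j, j ≠ i → 0 < h j x) : Tg x (KO h) = {y | 0 < h i y} := by
  ext y
  obtain ⟨δ, hδ, H⟩ := small_signs (fin_range h) x y
  constructor
  · rintro ⟨ε, hε, K⟩
    have h1 := K (min ε δ) (lt_min hε hδ) (min_le_left _ _) i
    have h2 := (H (min ε δ) (lt_min hε hδ) (min_le_right _ _) (h i) ⟨i, rfl⟩).2 hi
    rw [← sign_eq_one_iff, h2, sign_eq_one_iff] at h1
    exact h1
  · intro hy
    refine ⟨δ, hδ, fun s h0 h1 j => ?_⟩
    by_cases hji : j = i
    · subst hji
      rw [← sign_eq_one_iff, (H s h0 h1 (h j) ⟨j, rfl⟩).2 hi, sign_eq_one_iff]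
      exact hy
    · rw [← sign_eq_one_iff, (H s h0 h1 (h j) ⟨j, rfl⟩).1 (hj j hji).ne', sign_eq_one_iff]
      exact hj j hji

lemma tg_KD (h : ι → E →ₗ[ℚ] ℚ) (x : E) (i : ι) (hi : h i x = 0)
    (hj : ∀ j, j ≠ i → 0 < h j x) : Tg x (KD h) = {y | h i y = 0} := by
  ext y
  obtain ⟨δ, hδ, H⟩ := small_signs (fin_range h) x y
  have hpos : ∀ s : ℚ, 0 < s → s ≤ δ → ∀ j, j ≠ i → 0 < h j (x + s • y) := by
    intro s h0 h1 j hji
    rw [← sign_eq_one_iff, (H s h0 h1 (h j) ⟨j, rfl⟩).1 (hj j hji).ne', sign_eq_one_iff]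
    exact hj j hji
  constructor
  · rintro ⟨ε, hε, K⟩
    obtain ⟨_, j, h1⟩ := K (min ε δ) (lt_min hε hδ) (min_le_left _ _)
    have hji : j = i := by
      by_contra hne
      exact absurd h1 (hpos _ (lt_min hε hδ) (min_le_right _ _) j hne).ne'
    subst hji
    have h2 := (H (min ε δ) (lt_min hε hδ) (min_le_right _ _) (h j) ⟨j, rfl⟩).2 hi
    rw [← sign_eq_zero_iff, h2, sign_eq_zero_iff] at h1
    exact h1
  · intro hy
    refine ⟨δ, hδ, fun s h0 h1 => ?_⟩
    have h3 : h i (x + s • y) = 0 := by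
      rw [← sign_eq_zero_iff, (H s h0 h1 (h i) ⟨i, rfl⟩).2 hi, sign_eq_zero_iff]
      exact hy
    refine ⟨fun j => ?_, i, h3⟩
    by_cases hji : j = i
    · subst hji
      exact h3.ge
    · exact (hpos s h0 h1 j hji).le

/-- translations along directions on which the active forms vanish -/
lemma tg_KD_add (h : ι → E →ₗ[ℚ] ℚ) (x e : E) (he : ∀ j, h j x = 0 → h j e = 0) (y : E)
    (hy : y ∈ Tg x (KD h)) (c : ℚ) : y + c • e ∈ Tg x (KD h) := by
  refine tg_inv (fin_range h) (inv_KD h) y _ ?_ hy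
  rintro a ⟨⟨j, rfl⟩, ha⟩
  rw [map_add, map_smul, he j ha, smul_zero, add_zero]

end Gen

lemma qf_succ {E : Type} [AddCommGroup E] [Module ℚ E] (u g : E →ₗ[ℚ] ℚ)
    (s : Fin 3 → E →ₗ[ℚ] ℚ) (δ η : ℚ) (i : Fin 3) :
    qf u g s δ η i.succ.succ = η • u - s i := by
  fin_cases i <;> rfl

lemma qf_zero {E : Type} [AddCommGroup E] [Module ℚ E] (u g : E →ₗ[ℚ] ℚ)
    (s : Fin 3 → E →ₗ[ℚ] ℚ) (δ η : ℚ) : qf u g s δ η 0 = (δ * η) • u - g := rfl

lemma qf_one {E : Type} [AddCommGroup E] [Module ℚ E] (u g : E →ₗ[ℚ] ℚ)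
    (s : Fin 3 → E →ₗ[ℚ] ℚ) (δ η : ℚ) : qf u g s δ η (Fin.succ 0) = (δ * η) • u + g := rfl

/-- a direction in the kernel of three forms -/
lemma exists_dir {E : Type} [AddCommGroup E] [Module ℚ E] [FiniteDimensional ℚ E]
    (hE : Module.finrank ℚ E = 4) (a b c : E →ₗ[ℚ] ℚ) :
    ∃ e : E, e ≠ 0 ∧ a e = 0 ∧ b e = 0 ∧ c e = 0 := by
  have h1 : LinearMap.ker (LinearMap.pi ![a, b, c] : E →ₗ[ℚ] (Fin 3 → ℚ)) ≠ ⊥ := by
    apply LinearMap.ker_ne_bot_of_finrank_lt
    rw [hE]
    simp
  obtain ⟨e, he, he0⟩ := Submodule.exists_mem_ne_zero_of_ne_bot h1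
  rw [LinearMap.mem_ker] at he
  exact ⟨e, he0, congrFun he 0, congrFun he 1, congrFun he 2⟩

lemma exists_comb {E : Type} [AddCommGroup E] [Module ℚ E] (l b q : E →ₗ[ℚ] ℚ)
    (h : ∀ e, b e = 0 → q e = 0 → l e = 0) : ∃ α β : ℚ, ∀ y, l y = α * b y + β * q y := by
  have h1 : l ∈ Submodule.span ℚ (Set.range ![b, q]) := by
    apply mem_span_of_iInf_ker_le_ker
    intro e he
    rw [Submodule.mem_iInf] at he
    rw [LinearMap.mem_ker]
    exact h e (he 0) (he 1)
  rw [Matrix.range_cons, Matrix.range_cons, Matrix.range_empty, Set.union_empty,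
    Set.singleton_union, Submodule.mem_span_pair] at h1
  obtain ⟨α, β, h2⟩ := h1
  exact ⟨α, β, fun y => by rw [← h2]; simp⟩

lemma sph_pol {E : Type} [AddCommGroup E] [Module ℚ E] {k : ℕ} {T : Set E} (h : Sph k T) :
    Pol T := by
  obtain ⟨D₁, D₂, U, rfl, _, h1, h2⟩ := h
  exact h1.1.union h2.1

end ABxPS

open ABxPS in
theorem I_BxPS (hBxX : St_BxX) (hTD : St_TD) (hBxQ : St_BxQ) : St_BxPS := by
  intro E _ _ _ T M M' u v w B A s δ η T' x hH hD hR hT' hSph hxT' hxKD hx0 hgx
  have huw : 0 < u w := hH.bdd w hH.mem hH.w0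
  obtain ⟨hwO, _, hKCb, hKC, _⟩ := hBxQ E u v w s δ η huw hD.frm.sw hD.frm.sum hD.frm.bas
    hD.dpos hD.epos
  have hxKC : x ∈ KC (qf u (lev u v w) s δ η) := hxKD.1
  have hux : 0 < u x := hKCb x hxKC hx0
  have hT : Pol T := sph_pol hR.sph
  have hM : Pol M := hR.sides.1.pol
  have hM' : Pol M' := hR.sides.2.1.pol
  have hMM' : M ∪ M' = Set.univ := hR.sides.2.2.1
  have hMiM' : M ∩ M' = T := hR.sides.2.2.2
  have hT'p : Pol T' := sph_pol hSph
  set g : E →ₗ[ℚ] ℚ := lev u v w with hg
  set h := qf u g s δ η with hh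
  have hid : ∀ y, u w * lev u v x y = u x * g y - g x * u y := by
    intro y
    rw [hg]
    unfold lev
    simp only [LinearMap.sub_apply, LinearMap.smul_apply, smul_eq_mul]
    ring
  have hgabs := abs_lt.1 hgx
  have hpos0 : 0 < h 0 x := by
    rw [hh, qf_zero]
    simp only [LinearMap.sub_apply, LinearMap.smul_apply, smul_eq_mul]
    linarith
  have hpos1 : 0 < h (Fin.succ 0) x := by
    rw [hh, qf_one]
    simp only [LinearMap.add_apply, LinearMap.smul_apply, smul_eq_mul]
    linarith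
  have hsx : ∀ j, s j x ≤ η * u x := ((hKC x).1 hxKC).2
  have hsuc : ∀ (j : Fin 3) (y : E), h j.succ.succ y = η * u y - s j y := by
    intro j y
    rw [hh, qf_succ]
    simp only [LinearMap.sub_apply, LinearMap.smul_apply, smul_eq_mul]
  -- the active index
  obtain ⟨i, hi⟩ : ∃ i : Fin 3, h i.succ.succ x = 0 := by
    obtain ⟨_, j, hj⟩ := hxKD
    revert hj
    refine Fin.cases ?_ (fun j => ?_) j
    · intro hj
      exact absurd hj hpos0.ne'
    · refine Fin.cases ?_ (fun j => ?_) j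
      · intro hj
        exact absurd hj hpos1.ne'
      · intro hj
        exact ⟨j, hj⟩
  have hTgT' : Tg x T' = (Tg x T \ Tg x (KO h)) ∪ (Tg x M ∩ Tg x (KD h)) := by
    rw [hT', tg_union (hT.con.diff (con_KO h)) (hM.con.inter (con_KD h)), tg_diff (con_KO h),
      tg_inter]
  have hPol : Pol (Tg x T') := tg_pol hT'p hxT'
  -- reduction to an invariant direction
  have hred : ∀ e : E, (∀ y ∈ Tg x T', ∀ c : ℚ, y + c • e ∈ Tg x T') → lev u v x e ≠ 0 →
      PP (Tg x T') (lev u v x) := by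
    intro e he hle N hN
    exact hTD E (Tg x T') N (lev u v x) e hPol he hle hN
  have hlne : ∀ e : E, u x * g e - g x * u e ≠ 0 → lev u v x e ≠ 0 := by
    intro e he h0
    apply he
    rw [← hid, h0, mul_zero]
  by_cases hxT : x ∈ T
  · -- the point is in `T`
    have hface : w ∈ face A x := hR.small x hxKC hx0
    have hxTg : x ∈ Tg w T := (tg_near hR.fin hR.cla.inv hface).2 hxT
    have hsi : s i x = η * u x := by
      have := hsuc i x
      rw [hi] at this
      linarith
    have hsip : 0 < s i x := by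
      rw [hsi]
      exact mul_pos hD.epos hux
    obtain ⟨hlt, hcross⟩ := hD.near x hxTg i hsip (fun j => by rw [hsi]; exact hsx j) (by
      rw [hsi, ← mul_assoc]
      exact hgx.le)
    have hnm : ¬ ∃ c : ℚ, x = c • w := by
      rintro ⟨c, hc⟩
      rw [hc, map_smul, hD.frm.sw i, smul_zero] at hsip
      exact lt_irrefl _ hsip
    obtain ⟨b, hbB, hb0, hbx, hTb, hy1, _, hsides⟩ :=
      hBxX E T M M' u v w B A s δ η x hH hD hR hxT hxKC hx0 hcross hnm
    have hact : ∀ j, j ≠ i.succ.succ → 0 < h j x := by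
      intro j
      refine Fin.cases ?_ (fun j => ?_) j
      · intro _
        exact hpos0
      · refine Fin.cases ?_ (fun j => ?_) j
        · intro _
          exact hpos1
        · intro hj
          have hji : j ≠ i := fun h1 => hj (h1 ▸ rfl)
          rw [hsuc]
          have := hlt j hji
          linarith
    have hKO := tg_KO h x i.succ.succ hi hact
    have hKD := tg_KD h x i.succ.succ hi hact
    have hTM : T ⊆ M := by rw [← hMiM']; exact Set.inter_subset_left
    have hTgTM : Tg x T ⊆ Tg x M := tg_mono hTM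
    -- invariance
    have hinv : ∀ e : E, b e = 0 → h i.succ.succ e = 0 →
        ∀ y ∈ Tg x T', ∀ c : ℚ, y + c • e ∈ Tg x T' := by
      intro e he1 he2 y hy c
      have hb' : b (y + c • e) = b y := by rw [map_add, map_smul, he1, smul_zero, add_zero]
      have hq' : h i.succ.succ (y + c • e) = h i.succ.succ y := by
        rw [map_add, map_smul, he2, smul_zero, add_zero]
      have hT1 : y + c • e ∈ Tg x T ↔ y ∈ Tg x T := by
        rw [hTb, Set.mem_ofPred_eq, Set.mem_ofPred_eq, hb']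
      have hM1 : y + c • e ∈ Tg x M ↔ y ∈ Tg x M := by
        have key : ∀ z, z ∈ Tg x M ↔ (z ∈ Tg x M \ Tg x T ∨ z ∈ Tg x T) := by
          intro z
          constructor
          · intro hz
            by_cases hz2 : z ∈ Tg x T
            · exact Or.inr hz2
            · exact Or.inl ⟨hz, hz2⟩
          · rintro (hz | hz)
            · exact hz.1
            · exact hTgTM hz
        rw [key, key, hT1]
        rcases hsides with ⟨h3, _⟩ | ⟨h3, _⟩
        · rw [h3, Set.mem_ofPred_eq, Set.mem_ofPred_eq, hb']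
        · rw [h3, Set.mem_ofPred_eq, Set.mem_ofPred_eq, hb']
      rw [hTgT'] at hy ⊢
      rcases hy with hy | hy
      · left
        refine ⟨hT1.2 hy.1, fun h4 => hy.2 ?_⟩
        rw [hKO, Set.mem_ofPred_eq] at h4 ⊢
        rwa [hq'] at h4
      · right
        refine ⟨hM1.2 hy.1, ?_⟩
        have h4 := hy.2
        rw [hKD, Set.mem_ofPred_eq] at h4 ⊢
        rwa [hq']
    by_cases hex : ∃ e, b e = 0 ∧ h i.succ.succ e = 0 ∧ lev u v x e ≠ 0
    · obtain ⟨e, he1, he2, he3⟩ := hex
      exact hred e (hinv e he1 he2) he3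
    · exfalso
      push Not at hex
      obtain ⟨α, β, hαβ⟩ := exists_comb (lev u v x) b (h i.succ.succ) hex
      have hgw : g w = 0 := by
        rw [hg]
        unfold lev
        simp only [LinearMap.sub_apply, LinearMap.smul_apply, smul_eq_mul]
        ring
      have hlw : lev u v x w = - g x := by
        have h1 := hid w
        rw [hgw, mul_zero, zero_sub] at h1
        have h2 : u w * lev u v x w = u w * (- g x) := by rw [h1]; ring
        exact mul_left_cancel₀ huw.ne' h2
      have hβ : β * (η * u w) = - g x := by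
        have h1 := hαβ w
        rw [hlw, hH.van b hbB, hsuc, hD.frm.sw i] at h1
        linarith
      have hη := hD.epos
      have hk : ∀ y, b y = 0 → g y = (g x / (η * u x)) * s i y := by
        intro y hy
        have h1 := hid y
        rw [hαβ y, hy, hsuc] at h1
        have h2 : u w * (β * (η * u y - s i y)) * η = - g x * (η * u y - s i y) := by
          rw [← hβ]
          ring
        have h3 : (u x * g y - g x * u y) * η = - g x * (η * u y - s i y) := by
          rw [← h1, ← h2]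
          ring
        have h4 : η * u x * g y = g x * s i y := by linarith
        have h5 : η * u x ≠ 0 := (mul_pos hη hux).ne'
        field_simp
        linarith
      have h6 := hD.slope b hbB i (g x / (η * u x)) hy1 hk
      rw [abs_div, abs_of_pos (mul_pos hη hux), lt_div_iff₀ (mul_pos hη hux)] at h6
      rw [mul_assoc] at hgx
      exact lt_asymm h6 hgx
  · -- the point is not in `T`
    have hTe : Tg x T = ∅ := tg_eq_empty hT hxT
    have hxM : x ∈ M := by
      rw [hT'] at hxT'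
      rcases hxT' with h1 | h1
      · exact absurd h1.1 hxT
      · exact h1.1
    have hxM' : x ∉ M' := fun h1 => hxT (by rw [← hMiM']; exact ⟨hxM, h1⟩)
    have hMu : Tg x M = Set.univ := by
      have h1 : Tg x (M ∪ M') = Set.univ := by rw [hMM', tg_univ]
      rw [tg_union hM.con hM'.con, tg_eq_empty hM' hxM', Set.union_empty] at h1
      exact h1
    have hTg : Tg x T' = Tg x (KD h) := by
      rw [hTgT', hTe, hMu, Set.empty_sdiff, Set.empty_union, Set.univ_inter]
    obtain ⟨e, he0, he1, he2, he3⟩ := exists_dir hR.dim u (s 0) (s 1)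
    have hge : g e ≠ 0 := fun h1 => he0 (hD.frm.bas e he1 h1 he2 he3)
    have hs2 : s 2 e = 0 := by
      have h1 : (s 0 + s 1 + s 2) e = 0 := by rw [hD.frm.sum]; rfl
      simp only [LinearMap.add_apply, he2, he3] at h1
      linarith
    have hse : ∀ j, s j e = 0 := by
      intro j
      fin_cases j
      · exact he2
      · exact he3
      · exact hs2
    refine hred e (fun y hy c => ?_) (hlne e ?_)
    · rw [hTg] at hy ⊢
      refine tg_KD_add h x e (fun j => ?_) y hy c
      refine Fin.cases ?_ (fun j => ?_) j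
      · intro hj
        exact absurd hj hpos0.ne'
      · refine Fin.cases ?_ (fun j => ?_) j
        · intro hj
          exact absurd hj hpos1.ne'
        · intro _
          rw [hsuc, he1, hse, mul_zero, sub_zero]
    · rw [he1, mul_zero, sub_zero]
      exact mul_ne_zero hux.ne' hge

end Pool.Agent.Work.MP_552024_lc.PLS
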