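import Pool.Agent.Work.MP_552024_lc.PLS.S4X

set_option autoImplicit false

/-! Item BxPT: `PP` on the top and the bottom of the box. -/

namespace Pool.Agent.Work.MP_552024_lc.PLS

namespace ABxPT

theorem con_KO {E : Type*} [AddCommGroup E] [Module ℚ E] {ι : Type*} [Finite ι]
    (h : ι → E →ₗ[ℚ] ℚ) : Con (KO h) := by
  refine ⟨Set.range h, Set.finite_range h, fun x y hxy hx i => ?_⟩
  have h1 := hxy (h i) ⟨i, rfl⟩
  rw [sign_pos (hx i)] at h1
  exact sign_eq_one_iff.1 h1.symm

theorem tg_KC {E : Type*} [AddCommGroup E] [Module ℚ E] {ι : Type*} [Finite ι]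
    (h : ι → E →ₗ[ℚ] ℚ) {x : E} (hx : x ∈ KC h) (z : E) :
    z ∈ Tg x (KC h) ↔ ∀ i, h i x = 0 → 0 ≤ h i z := by
  constructor
  · rintro ⟨ε, hε, K⟩ i hi
    have h1 := K ε hε le_rfl i
    rw [map_add, hi, zero_add, map_smul, smul_eq_mul] at h1
    exact nonneg_of_mul_nonneg_right h1 hε
  · intro H
    obtain ⟨ε, hε, K⟩ := small_signs (Set.finite_range h) x z
    refine ⟨ε, hε, fun s h0 h1 i => ?_⟩
    have h2 := K s h0 h1 (h i) ⟨i, rfl⟩
    by_cases h3 : h i x = 0
    · rw [map_add, h3, zero_add, map_smul, smul_eq_mul]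
      exact mul_nonneg h0.le (H i h3)
    · have h4 : 0 < h i x := lt_of_le_of_ne (hx i) (Ne.symm h3)
      have h5 := h2.1 h3
      rw [sign_pos h4] at h5
      exact (sign_eq_one_iff.1 h5).le

theorem conn_star {E : Type*} [AddCommGroup E] [Module ℚ E] {s : Set E} {y : E} (hy : y ∈ s)
    (h : ∀ z ∈ s, ∃ c ⊆ s, Conn c ∧ y ∈ c ∧ z ∈ c) : Conn s := by
  refine ⟨⟨y, hy⟩, fun F₁ F₂ h1 h2 hcov hdis => ?_⟩
  rcases hcov hy with hy1 | hy2
  · left
    intro z hz
    obtain ⟨c, hcs, hc, hyc, hzc⟩ := h z hz
    rcases hc.2 F₁ F₂ h1 h2 (hcs.trans hcov) (fun a ha => hdis a (hcs ha)) with h3 | h3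
    · exact h3 hzc
    · exact absurd (h3 hyc) (hdis y hy hy1)
  · right
    intro z hz
    obtain ⟨c, hcs, hc, hyc, hzc⟩ := h z hz
    rcases hc.2 F₁ F₂ h1 h2 (hcs.trans hcov) (fun a ha => hdis a (hcs ha)) with h3 | h3
    · exact absurd hy2 (hdis y hy (h3 hyc))
    · exact h3 hzc

/-- Points of the box plane with given side values. -/
theorem exists_y {E : Type} [AddCommGroup E] [Module ℚ E] [FiniteDimensional ℚ E]
    (u g s0 s1 : E →ₗ[ℚ] ℚ) (hdim : Module.finrank ℚ E = 4)
    (bas : ∀ x, u x = 0 → g x = 0 → s0 x = 0 → s1 x = 0 → x = 0) (a b : ℚ) :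
    ∃ y, u y = 0 ∧ g y = 0 ∧ s0 y = a ∧ s1 y = b := by
  let φ : E →ₗ[ℚ] (Fin 4 → ℚ) := LinearMap.pi ![u, g, s0, s1]
  have hinj : Function.Injective φ := by
    rw [← LinearMap.ker_eq_bot, LinearMap.ker_eq_bot']
    intro x hx
    have h0 := congrFun hx 0
    have h1 := congrFun hx 1
    have h2 := congrFun hx 2
    have h3 := congrFun hx 3
    exact bas x h0 h1 h2 h3
  have hsurj : Function.Surjective φ := by
    rw [← LinearMap.injective_iff_surjective_of_finrank_eq_finrank]
    · exact hinj
    · rw [hdim, Module.finrank_fin_fun]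
  obtain ⟨y, hy⟩ := hsurj ![0, 0, a, b]
  exact ⟨y, congrFun hy 0, congrFun hy 1, congrFun hy 2, congrFun hy 3⟩

theorem exists_y' {E : Type} [AddCommGroup E] [Module ℚ E] [FiniteDimensional ℚ E]
    (u g : E →ₗ[ℚ] ℚ) (s : Fin 3 → E →ₗ[ℚ] ℚ) (hdim : Module.finrank ℚ E = 4)
    (sum : s 0 + s 1 + s 2 = 0)
    (bas : ∀ x, u x = 0 → g x = 0 → s 0 x = 0 → s 1 x = 0 → x = 0) (k : Fin 3) :
    ∃ y, u y = 0 ∧ g y = 0 ∧ ∀ i, i ≠ k → s i y = 1 := by
  have hs : ∀ y, s 0 y + s 1 y + s 2 y = 0 := by
    intro y
    have := LinearMap.congr_fun sum y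
    simpa using this
  fin_cases k
  · obtain ⟨y, h1, h2, h3, h4⟩ := exists_y u g (s 0) (s 1) hdim bas (-2) 1
    refine ⟨y, h1, h2, fun i hi => ?_⟩
    have h5 := hs y
    fin_cases i
    · exact absurd rfl hi
    · exact h4
    · show s 2 y = 1
      linarith
  · obtain ⟨y, h1, h2, h3, h4⟩ := exists_y u g (s 0) (s 1) hdim bas 1 (-2)
    refine ⟨y, h1, h2, fun i hi => ?_⟩
    have h5 := hs y
    fin_cases i
    · exact h3
    · exact absurd rfl hi
    · show s 2 y = 1
      linarith
  · obtain ⟨y, h1, h2, h3, h4⟩ := exists_y u g (s 0) (s 1) hdim bas 1 1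
    refine ⟨y, h1, h2, fun i hi => ?_⟩
    fin_cases i
    · exact h3
    · exact h4
    · exact absurd rfl hi

theorem lev_mul {E : Type} [AddCommGroup E] [Module ℚ E] (u v : E →ₗ[ℚ] ℚ) (w x z : E) :
    u w * lev u v x z = u x * lev u v w z - lev u v w x * u z := by
  simp only [lev, LinearMap.sub_apply, LinearMap.smul_apply, smul_eq_mul]
  ring

end ABxPT

open ABxPT in
theorem I_BxPT (hBxX : St_BxX) (hTD : St_TD) (hBxQ : St_BxQ) : St_BxPT := by
  intro E _ _ _ T M M' u v w B A s δ η T' x hH hD hR hT' hsph hsides hxT' hxKD hx0 hg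
  have huw : 0 < u w := hH.bdd w hH.mem hH.w0
  obtain ⟨-, -, hbdd, hKC, -⟩ := hBxQ E u v w s δ η huw hD.frm.sw hD.frm.sum hD.frm.bas hD.dpos
    hD.epos
  set g := lev u v w with hgdef
  set q := qf u g s δ η with hqdef
  have hxKC : x ∈ KC q := fun i => hxKD.1 i
  have hux : 0 < u x := hbdd x hxKC hx0
  have hxs := ((hKC x).1 hxKC).2
  have hδη : 0 < δ * η := mul_pos hD.dpos hD.epos
  have hsum : ∀ y, s 0 y + s 1 y + s 2 y = 0 := by
    intro y
    have := LinearMap.congr_fun hD.frm.sum y
    simpa using this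
  obtain ⟨e, he, hge⟩ : ∃ e : ℚ, (e = 1 ∨ e = -1) ∧ g x = e * (δ * η * u x) := by
    rcases le_total 0 (g x) with h | h
    · exact ⟨1, Or.inl rfl, by rw [one_mul, ← hg, abs_of_nonneg h]⟩
    · exact ⟨-1, Or.inr rfl, by rw [← hg, abs_of_nonpos h]; ring⟩
  have hgx : g x ≠ 0 := by
    rw [hge]
    have : δ * η * u x ≠ 0 := (mul_pos hδη hux).ne'
    rcases he with rfl | rfl
    · simpa using this
    · simpa using this
  have hlG : ∀ z, lev u v x z = 0 ↔ g z = e * (δ * η * u z) := by
    intro z
    have h1 := lev_mul u v w x z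
    rw [← hgdef, hge] at h1
    constructor
    · intro h2
      rw [h2, mul_zero] at h1
      have h3 : u x * (g z - e * (δ * η * u z)) = 0 := by linarith [h1]
      rcases mul_eq_zero.1 h3 with h4 | h4
      · exact absurd h4 hux.ne'
      · linarith
    · intro h2
      rw [h2] at h1
      have h3 : u w * lev u v x z = 0 := by rw [h1]; ring
      rcases mul_eq_zero.1 h3 with h4 | h4
      · exact absurd h4 huw.ne'
      · exact h4
  -- the germs of the box on the level of `x`
  have hG1 : ∀ z, lev u v x z = 0 → (z ∈ Tg x (KC q) ↔ ∀ i, s i x = η * u x → s i z ≤ η * u z) := by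
    intro z hz
    rw [hlG] at hz
    rw [tg_KC q hxKC z]
    simp only [hqdef, qf, Fin.forall_fin_succ, Matrix.cons_val_zero, Matrix.cons_val_succ,
      LinearMap.sub_apply, LinearMap.add_apply, LinearMap.smul_apply, smul_eq_mul,
      Fin.succ_zero_eq_one, Fin.succ_one_eq_two]
    constructor
    · rintro ⟨-, -, h3, h4, h5, -⟩
      refine ⟨fun h => ?_, fun h => ?_, fun h => ?_, fun i => i.elim0⟩
      · linarith [h3 (by linarith)]
      · linarith [h4 (by linarith)]
      · linarith [h5 (by linarith)]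
    · rintro ⟨h3, h4, h5, -⟩
      have hp := mul_pos hδη hux
      refine ⟨fun h => ?_, fun h => ?_, fun h => ?_, fun h => ?_, fun h => ?_, fun i => i.elim0⟩
      · rcases he with rfl | rfl
        · linarith
        · rw [hge] at h; linarith
      · rcases he with rfl | rfl
        · rw [hge] at h; linarith
        · linarith
      · linarith [h3 (by linarith)]
      · linarith [h4 (by linarith)]
      · linarith [h5 (by linarith)]
  have hG2 : ∀ z, lev u v x z = 0 → z ∉ Tg x (KO q) := by
    rintro z hz ⟨ε, hε, K⟩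
    rw [hlG] at hz
    have h1 := K ε hε le_rfl
    rcases he with rfl | rfl
    · have h2 := h1 0
      simp only [hqdef, qf, Matrix.cons_val_zero, LinearMap.sub_apply, LinearMap.smul_apply,
        smul_eq_mul, map_add, map_smul, hge, hz] at h2
      linarith
    · have h2 := h1 1
      simp only [hqdef, qf, Matrix.cons_val_one, Matrix.cons_val_zero, LinearMap.add_apply,
        LinearMap.smul_apply, smul_eq_mul, map_add, map_smul, hge, hz] at h2
      linarith
  -- polyhedrality
  have hMp : Pol M := hR.sides.1.pol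
  have hMp' : Pol M' := hR.sides.2.1.pol
  have hMM : M ∪ M' = Set.univ := hR.sides.2.2.1
  have hMT : M ∩ M' = T := hR.sides.2.2.2
  have hTp : Pol T := by rw [← hMT]; exact hMp.inter hMp'
  have hP : Tg x (M \ KO q) = Tg x M \ Tg x (KO q) := tg_diff (con_KO q)
  have hP' : Tg x (M' ∪ KC q) = Tg x M' ∪ Tg x (KC q) := tg_union hMp'.con (pol_KC q).con
  have hTM : Tg x T = Tg x M ∩ Tg x M' := by rw [← hMT, tg_inter]
  have hU : Tg x M ∪ Tg x M' = Set.univ := by
    rw [← tg_union hMp.con hMp'.con, hMM, tg_univ]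
  obtain ⟨hc1, hc2, hc3, hc4⟩ := hsides x hxT' hx0
  have hSp : Pol (Tg x T') := by rw [← hc4]; exact hc1.pol.inter hc2.pol
  -- the two sides
  have hA : (Tg x (M \ KO q) \ Tg x T') ∩ {z | lev u v x z = 0} =
      {z | z ∈ Tg x M \ Tg x T ∧ lev u v x z = 0 ∧ ∃ i, s i x = η * u x ∧ η * u z < s i z} := by
    ext z
    constructor
    · rintro ⟨⟨h1, h2⟩, h3⟩
      have h3' : lev u v x z = 0 := h3
      have h4 : z ∉ Tg x (M' ∪ KC q) := fun h => h2 (hc4 ▸ ⟨h1, h⟩)
      rw [hP'] at h4
      rw [hP] at h1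
      refine ⟨⟨h1.1, fun h => h4 (Or.inl (hTM ▸ h).2)⟩, h3', ?_⟩
      have h5 : z ∉ Tg x (KC q) := fun h => h4 (Or.inr h)
      rw [hG1 z h3'] at h5
      push Not at h5
      exact h5
    · rintro ⟨⟨h1, h2⟩, h3, i, h4, h5⟩
      have h6 : z ∉ Tg x (KC q) := by
        rw [hG1 z h3]
        intro h
        exact absurd (h i h4) (not_le.2 h5)
      refine ⟨⟨?_, ?_⟩, h3⟩
      · rw [hP]
        exact ⟨h1, hG2 z h3⟩
      · rw [← hc4, hP']
        rintro ⟨-, h7 | h7⟩
        · exact h2 (by rw [hTM]; exact ⟨h1, h7⟩)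
        · exact h6 h7
  have hB : (Tg x (M' ∪ KC q) \ Tg x T') ∩ {z | lev u v x z = 0} =
      (Tg x M' \ Tg x T) ∩ {z | lev u v x z = 0} := by
    ext z
    constructor
    · rintro ⟨⟨h1, h2⟩, h3⟩
      have h3' : lev u v x z = 0 := h3
      have h4 : z ∉ Tg x (M \ KO q) := fun h => h2 (hc4 ▸ ⟨h, h1⟩)
      rw [hP] at h4
      have h5 : z ∉ Tg x M := fun h => h4 ⟨h, hG2 z h3'⟩
      have h6 : z ∈ Tg x M' := by
        have : z ∈ Tg x M ∪ Tg x M' := by rw [hU]; trivial
        exact this.resolve_left h5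
      exact ⟨⟨h6, fun h => h5 (hTM ▸ h).1⟩, h3⟩
    · rintro ⟨⟨h1, h2⟩, h3⟩
      have h5 : z ∉ Tg x M := fun h => h2 (by rw [hTM]; exact ⟨h, h1⟩)
      refine ⟨⟨?_, ?_⟩, h3⟩
      · rw [hP']; exact Or.inl h1
      · rw [← hc4, hP]
        rintro ⟨h6, -⟩
        exact h5 h6.1
  have key : (({z | z ∈ Tg x M \ Tg x T ∧ lev u v x z = 0 ∧
        ∃ i, s i x = η * u x ∧ η * u z < s i z} : Set E) = ∅ ∨
      Conn {z | z ∈ Tg x M \ Tg x T ∧ lev u v x z = 0 ∧
        ∃ i, s i x = η * u x ∧ η * u z < s i z}) ∧
      ((Tg x M' \ Tg x T) ∩ {z | lev u v x z = 0} = ∅ ∨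
        Conn ((Tg x M' \ Tg x T) ∩ {z | lev u v x z = 0})) := by
    by_cases hxT : x ∈ T
    · by_cases hI : ∃ i, s i x = η * u x
      · -- active side
        obtain ⟨i, hi⟩ := hI
        have hpos : 0 < s i x := by rw [hi]; exact mul_pos hD.epos hux
        have hxw : x ∈ Tg w T := (tg_near hR.fin hR.cla.inv (hR.small x hxKC hx0)).2 hxT
        obtain ⟨hj, hcross⟩ := hD.near x hxw i hpos (fun j => by rw [hi]; exact hxs j)
          (by rw [← hgdef, hg, hi]; exact le_of_eq (by ring))
        have hnw : ¬ ∃ c : ℚ, x = c • w := by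
          rintro ⟨c, hc⟩
          rw [hc, map_smul, hD.frm.sw i, smul_zero] at hpos
          exact lt_irrefl _ hpos
        obtain ⟨b, -, -, -, hbT, -, -, hbs⟩ :=
          hBxX E T M M' u v w B A s δ η x hH hD hR hxT hxKC hx0 hcross hnw
        have huni : ∀ i', s i' x = η * u x → i' = i := by
          intro i' hi'
          by_contra hne
          have := hj i' hne
          rw [hi, hi'] at this
          exact lt_irrefl _ this
        have hconv : ∀ b' : E →ₗ[ℚ] ℚ, Tg x M \ Tg x T = {y | 0 < b' y} →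
            ({z | z ∈ Tg x M \ Tg x T ∧ lev u v x z = 0 ∧
              ∃ i, s i x = η * u x ∧ η * u z < s i z} : Set E) = ∅ ∨
            Conn {z | z ∈ Tg x M \ Tg x T ∧ lev u v x z = 0 ∧
              ∃ i, s i x = η * u x ∧ η * u z < s i z} := by
          intro b' hb'
          rw [hb']
          rcases Set.eq_empty_or_nonempty {z : E | z ∈ {y | 0 < b' y} ∧ lev u v x z = 0 ∧
              ∃ i, s i x = η * u x ∧ η * u z < s i z} with h | h
          · exact Or.inl h
          right
          apply conn_of_convex h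
          rintro a ⟨ha1, ha2, i1, hi1, ha3⟩ c ⟨hc1, hc2, i2, hi2, hc3⟩ t ht0 ht1
          rw [huni i1 hi1] at ha3
          rw [huni i2 hi2] at hc3
          have ha1' : 0 < b' a := ha1
          have hc1' : 0 < b' c := hc1
          have e1 : ∀ f : E →ₗ[ℚ] ℚ, f (a + t • (c - a)) = (1 - t) * f a + t * f c := by
            intro f
            rw [map_add, map_smul, map_sub, smul_eq_mul]
            ring
          refine ⟨?_, ?_, i, hi, ?_⟩
          · show 0 < b' _
            rw [e1]
            rcases ht0.eq_or_lt with rfl | ht0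
            · simpa using ha1'
            · have h1 := mul_pos ht0 hc1'
              have h2 := mul_nonneg (sub_nonneg.2 ht1) ha1'.le
              linarith
          · rw [e1, ha2, hc2]; ring
          · rw [e1, e1]
            have h1 : 0 ≤ (1 - t) * (s i a - η * u a) :=
              mul_nonneg (sub_nonneg.2 ht1) (by linarith)
            rcases ht0.eq_or_lt with rfl | ht0
            · simpa using ha3
            · have h2 : 0 < t * (s i c - η * u c) := mul_pos ht0 (by linarith)
              linarith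
        have hconv' : ∀ b' : E →ₗ[ℚ] ℚ, Tg x M' \ Tg x T = {y | 0 < b' y} →
            ((Tg x M' \ Tg x T) ∩ {z | lev u v x z = 0} = ∅ ∨
              Conn ((Tg x M' \ Tg x T) ∩ {z | lev u v x z = 0})) := by
          intro b' hb'
          rw [hb']
          rcases Set.eq_empty_or_nonempty ({y : E | 0 < b' y} ∩ {z | lev u v x z = 0}) with h | h
          · exact Or.inl h
          right
          apply conn_of_convex h
          rintro a ⟨ha1, ha2⟩ c ⟨hc1, hc2⟩ t ht0 ht1
          have ha1' : 0 < b' a := ha1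
          have hc1' : 0 < b' c := hc1
          have ha2' : lev u v x a = 0 := ha2
          have hc2' : lev u v x c = 0 := hc2
          have e1 : ∀ f : E →ₗ[ℚ] ℚ, f (a + t • (c - a)) = (1 - t) * f a + t * f c := by
            intro f
            rw [map_add, map_smul, map_sub, smul_eq_mul]
            ring
          refine ⟨?_, ?_⟩
          · show 0 < b' _
            rw [e1]
            rcases ht0.eq_or_lt with rfl | ht0
            · simpa using ha1'
            · have h1 := mul_pos ht0 hc1'
              have h2 := mul_nonneg (sub_nonneg.2 ht1) ha1'.le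
              linarith
          · show lev u v x _ = 0
            rw [e1, ha2', hc2']; ring
        have hneg : {y : E | b y < 0} = {y | 0 < (-b) y} := by
          ext y
          simp
        rcases hbs with ⟨h1, h2⟩ | ⟨h1, h2⟩
        · exact ⟨hconv b h1, hconv' (-b) (h2.trans hneg)⟩
        · exact ⟨hconv (-b) (h1.trans hneg), hconv' b h2⟩
      · -- no active side
        constructor
        · left
          ext z
          simp only [Set.mem_ofPred_eq, Set.mem_empty_iff_false, iff_false]
          rintro ⟨-, -, i, hi, -⟩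
          exact hI ⟨i, hi⟩
        · apply hTD E (Tg x T) (Tg x M') (lev u v x) w (tg_pol hTp hxT)
          · intro z hz c
            rw [← tg_tg hR.fin hR.cla.inv (hR.small x hxKC hx0)] at hz ⊢
            obtain ⟨ε, hε, K⟩ := hz
            refine ⟨ε, hε, fun t h0 h1 => ?_⟩
            have h2 := (tg_add (S := T) hTp.con (x + t • z) (t * c)).2 (K t h0 h1)
            have h3 : x + t • (z + c • w) = x + t • z + (t * c) • w := by module
            rw [h3]
            exact h2
          · intro h
            have h1 := lev_mul u v w x w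
            have h2 : lev u v w w = 0 := by
              simp only [lev, LinearMap.sub_apply, LinearMap.smul_apply, smul_eq_mul]
              ring
            rw [h, h2, ← hgdef] at h1
            have h3 : g x * u w = 0 := by linarith
            rcases mul_eq_zero.1 h3 with h4 | h4
            · exact hgx h4
            · exact huw.ne' h4
          · exact (hR.loc x hxT hx0).2.1
    · -- `x` is not in `T`
      have hxM : x ∈ M := by
        rw [hT'] at hxT'
        rcases hxT' with h | h
        · exact absurd h.1 hxT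
        · exact h.1
      have hxM' : x ∉ M' := fun h => hxT (hMT ▸ ⟨hxM, h⟩)
      have hE : Tg x M' = ∅ := tg_eq_empty hMp' hxM'
      have hF : Tg x M \ Tg x T = Set.univ := by
        rw [hTM, hE, Set.inter_empty, Set.sdiff_empty]
        rw [hE, Set.union_empty] at hU
        exact hU
      constructor
      · rw [hF]
        by_cases hI : ∃ i, s i x = η * u x
        · right
          obtain ⟨i0, hi0⟩ := hI
          have hηu : 0 < η * u x := mul_pos hD.epos hux
          obtain ⟨k, hk⟩ : ∃ k, s k x ≠ η * u x := by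
            by_contra hcon
            push Not at hcon
            have := hsum x
            rw [hcon 0, hcon 1, hcon 2] at this
            linarith
          obtain ⟨y, hy1, hy2, hy3⟩ := exists_y' u g s hH.dim hD.frm.sum hD.frm.bas k
          have hly : lev u v x y = 0 := by rw [hlG, hy1, hy2]; ring
          have hyI : ∀ i, s i x = η * u x → η * u y < s i y := by
            intro i hi
            have hne : i ≠ k := by rintro rfl; exact hk hi
            rw [hy1, hy3 i hne]
            linarith
          apply conn_star (y := y)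
          · exact ⟨trivial, hly, i0, hi0, hyI i0 hi0⟩
          rintro z ⟨-, hz1, i, hi, hz2⟩
          refine ⟨{z' | lev u v x z' = 0 ∧ η * u z' < s i z'}, ?_, ?_, ⟨hly, hyI i hi⟩, hz1, hz2⟩
          · rintro z' ⟨h1, h2⟩
            exact ⟨trivial, h1, i, hi, h2⟩
          · have hne : ({z' | lev u v x z' = 0 ∧ η * u z' < s i z'} : Set E).Nonempty :=
              ⟨z, hz1, hz2⟩
            apply conn_of_convex hne
            rintro a ⟨ha2, ha3⟩ c ⟨hc2, hc3⟩ t ht0 ht1
            have e1 : ∀ f : E →ₗ[ℚ] ℚ, f (a + t • (c - a)) = (1 - t) * f a + t * f c := by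
              intro f
              rw [map_add, map_smul, map_sub, smul_eq_mul]
              ring
            refine ⟨?_, ?_⟩
            · rw [e1, ha2, hc2]; ring
            · rw [e1, e1]
              have h1 : 0 ≤ (1 - t) * (s i a - η * u a) :=
                mul_nonneg (sub_nonneg.2 ht1) (by linarith)
              rcases ht0.eq_or_lt with rfl | ht0
              · simpa using ha3
              · have h2 : 0 < t * (s i c - η * u c) := mul_pos ht0 (by linarith)
                linarith
        · left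
          ext z
          simp only [Set.mem_ofPred_eq, Set.mem_empty_iff_false, iff_false]
          rintro ⟨-, -, i, hi, -⟩
          exact hI ⟨i, hi⟩
      · left
        rw [hE, Set.empty_sdiff, Set.empty_inter]
  intro N hN
  obtain ⟨p, hp⟩ := hN.nonempty
  have hpU : p ∈ Tg x (M \ KO q) ∪ Tg x (M' ∪ KC q) := by rw [hc3]; trivial
  rcases hpU with h | h
  · have hNP : N = Tg x (M \ KO q) := hN.eq_of_meet pol_univ hSp hc1 ⟨p, hp, h, hp.2⟩
    rw [hNP, hA]
    exact key.1
  · have hNP : N = Tg x (M' ∪ KC q) := hN.eq_of_meet pol_univ hSp hc2 ⟨p, hp, h, hp.2⟩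
    rw [hNP, hB]
    exact key.2

end Pool.Agent.Work.MP_552024_lc.PLS
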