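import Pool.Agent.Work.MP_552024_lc.PLS.S4X

set_option autoImplicit false

namespace Pool.Agent.Work.MP_552024_lc.PLS

namespace ABxS

open SignType

/-- Generic coordinates on a plane. -/
theorem gen_basis {V : Type} [AddCommGroup V] [Module ℚ V] [FiniteDimensional ℚ V]
    (hd : Module.finrank ℚ V = 2) (Φ : Set (V →ₗ[ℚ] ℚ)) (hΦ : Φ.Finite)
    (hne : ∀ b ∈ Φ, b ≠ 0) :
    ∃ s₀ s₁ : V →ₗ[ℚ] ℚ, (∀ x, s₀ x = 0 → s₁ x = 0 → x = 0) ∧
      ∀ b ∈ Φ, ∀ x, b x = 0 → (s₀ x = s₁ x → x = 0) ∧ (s₁ x = -2 * s₀ x → x = 0) ∧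
        (s₀ x = -2 * s₁ x → x = 0) := by
  obtain ⟨c, hc0, hcne⟩ := exists_form_vanishing (k := 0) hd (0 : V)
  obtain ⟨f, _, hf⟩ := exists_generic ({c} : Set (V →ₗ[ℚ] ℚ)) (Set.finite_singleton c)
    (by rintro φ rfl; exact hcne) (B := ∅) Set.finite_empty 0 (fun b hb => hb.elim)
  have hf0 : f ≠ 0 := by
    rintro rfl
    exact hf c rfl (map_zero c)
  obtain ⟨l, hlf, hlne⟩ := exists_form_vanishing (k := 0) hd f
  let F : ℚ × V →ₗ[ℚ] V := (LinearMap.toSpanSingleton ℚ V f).comp (LinearMap.fst ℚ ℚ V)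
  let Y : ℚ × V →ₗ[ℚ] V := LinearMap.snd ℚ ℚ V
  have hF : ∀ t y, F (t, y) = t • f := fun t y => rfl
  have hY : ∀ t y, Y (t, y) = y := fun t y => rfl
  let Ψ : Set (ℚ × V →ₗ[ℚ] ℚ) :=
    (((fun b : V →ₗ[ℚ] ℚ => b.comp (F + Y)) '' Φ ∪
      (fun b : V →ₗ[ℚ] ℚ => b.comp (F - (2 : ℚ) • Y)) '' Φ) ∪
      (fun b : V →ₗ[ℚ] ℚ => b.comp (Y - (2 : ℚ) • F)) '' Φ) ∪
      {LinearMap.fst ℚ ℚ V, l.comp Y}
  have hΨ : Ψ.Finite := ((((hΦ.image _).union (hΦ.image _)).union (hΦ.image _)).union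
    (by simp))
  have nz : ∀ b : V →ₗ[ℚ] ℚ, b ≠ 0 → ∃ y, b y ≠ 0 := by
    intro b hb
    by_contra hcon
    push Not at hcon
    exact hb (LinearMap.ext hcon)
  obtain ⟨⟨t, y⟩, _, hq⟩ := exists_generic Ψ hΨ (by
    rintro φ (((⟨b, hb, rfl⟩ | ⟨b, hb, rfl⟩) | ⟨b, hb, rfl⟩) | (rfl | rfl)) h0
    · obtain ⟨y, hy⟩ := nz b (hne b hb)
      have h1 := LinearMap.congr_fun h0 (0, y)
      have h2 : b ((F + Y) (0, y)) = 0 := h1
      rw [LinearMap.add_apply, hF, hY, zero_smul, zero_add] at h2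
      exact hy h2
    · obtain ⟨y, hy⟩ := nz b (hne b hb)
      have h1 := LinearMap.congr_fun h0 (0, y)
      have h2 : b ((F - (2 : ℚ) • Y) (0, y)) = 0 := h1
      rw [LinearMap.sub_apply, LinearMap.smul_apply, hF, hY, zero_smul, zero_sub, map_neg,
        map_smul, smul_eq_mul] at h2
      exact hy (by linarith)
    · obtain ⟨y, hy⟩ := nz b (hne b hb)
      have h1 := LinearMap.congr_fun h0 (0, y)
      have h2 : b ((Y - (2 : ℚ) • F) (0, y)) = 0 := h1
      rw [LinearMap.sub_apply, LinearMap.smul_apply, hF, hY, zero_smul, smul_zero, sub_zero] at h2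
      exact hy h2
    · have h1 := LinearMap.congr_fun h0 (1, 0)
      have h2 : (1 : ℚ) = 0 := h1
      exact one_ne_zero h2
    · obtain ⟨y, hy⟩ := nz l hlne
      have h1 := LinearMap.congr_fun h0 (0, y)
      exact hy h1) (B := ∅) Set.finite_empty 0 (fun b hb => hb.elim)
  have ht : t ≠ 0 := hq (LinearMap.fst ℚ ℚ V) (Or.inr (Or.inl rfl))
  have hly : l y ≠ 0 := hq (l.comp Y) (Or.inr (Or.inr rfl))
  have q1 : ∀ b ∈ Φ, b (t • f + y) ≠ 0 := fun b hb =>
    hq (b.comp (F + Y)) (Or.inl (Or.inl (Or.inl ⟨b, hb, rfl⟩)))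
  have q2 : ∀ b ∈ Φ, b (t • f - (2 : ℚ) • y) ≠ 0 := fun b hb =>
    hq (b.comp (F - (2 : ℚ) • Y)) (Or.inl (Or.inl (Or.inr ⟨b, hb, rfl⟩)))
  have q3 : ∀ b ∈ Φ, b (y - (2 : ℚ) • (t • f)) ≠ 0 := fun b hb =>
    hq (b.comp (Y - (2 : ℚ) • F)) (Or.inl (Or.inr ⟨b, hb, rfl⟩))
  have hli : LinearIndependent ℚ ![t • f, y] := by
    rw [LinearIndependent.pair_iff]
    intro α β h
    have h1 := congrArg l h
    rw [map_add, map_smul, map_smul, map_smul, hlf, smul_zero, smul_zero, zero_add, map_zero,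
      smul_eq_mul] at h1
    have h2 : β = 0 := (mul_eq_zero.1 h1).resolve_right hly
    rw [h2, zero_smul, add_zero, smul_smul] at h
    have h3 := (smul_eq_zero.1 h).resolve_right hf0
    exact ⟨(mul_eq_zero.1 h3).resolve_right ht, h2⟩
  let bs := basisOfLinearIndependentOfCardEqFinrank hli (by rw [hd]; rfl)
  have hbs : ∀ x, x = bs.coord 0 x • (t • f) + bs.coord 1 x • y := by
    intro x
    have h1 := bs.sum_repr x
    rw [Fin.sum_univ_two] at h1
    have h2 : bs 0 = t • f := by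
      simp only [bs, coe_basisOfLinearIndependentOfCardEqFinrank]
      rfl
    have h3 : bs 1 = y := by
      simp only [bs, coe_basisOfLinearIndependentOfCardEqFinrank]
      rfl
    rw [h2, h3] at h1
    exact h1.symm
  refine ⟨bs.coord 0, bs.coord 1, ?_, ?_⟩
  · intro x h0 h1
    rw [hbs x, h0, h1, zero_smul, zero_smul, add_zero]
  · intro b hb x hx
    refine ⟨fun h => ?_, fun h => ?_, fun h => ?_⟩
    · have h1 := hbs x
      rw [← h, ← smul_add] at h1
      rw [h1, map_smul, smul_eq_mul] at hx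
      rw [h1, (mul_eq_zero.1 hx).resolve_right (q1 b hb), zero_smul]
    · have h1 : x = bs.coord 0 x • (t • f - (2 : ℚ) • y) := by
        conv_lhs => rw [hbs x, h]
        module
      rw [h1, map_smul, smul_eq_mul] at hx
      rw [h1, (mul_eq_zero.1 hx).resolve_right (q2 b hb), zero_smul]
    · have h1 : x = bs.coord 1 x • (y - (2 : ℚ) • (t • f)) := by
        conv_lhs => rw [hbs x, h]
        module
      rw [h1, map_smul, smul_eq_mul] at hx
      rw [h1, (mul_eq_zero.1 hx).resolve_right (q3 b hb), zero_smul]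

variable {E : Type} [AddCommGroup E] [Module ℚ E]

theorem lev_self (u v : E →ₗ[ℚ] ℚ) (w : E) : lev u v w w = 0 := by
  show (u w • v - v w • u) w = 0
  rw [LinearMap.sub_apply, LinearMap.smul_apply, LinearMap.smul_apply, smul_eq_mul, smul_eq_mul]
  ring

/-- A point of the germ in the level of `w` lies in a hyperplane of `B`. -/
theorem exists_b (hNoChm : St_NoChm) [FiniteDimensional ℚ E] {T : Set E} {u v : E →ₗ[ℚ] ℚ}
    {w : E} {B : Set (E →ₗ[ℚ] ℚ)} (h : BxH T u v w B) {x : E} (hx : x ∈ Tg w T) :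
    ∃ b ∈ B, b ≠ 0 ∧ b x = 0 := by
  by_contra hc
  push Not at hc
  have hPol : Pol T := by
    obtain ⟨D₁, D₂, U, rfl, _, hB1, hB2⟩ := h.sph
    exact hB1.1.union hB2.1
  obtain ⟨A, hA, hAT⟩ := hPol.exists_cl
  let A' : Set (E →ₗ[ℚ] ℚ) := {a | a ∈ A ∧ a ≠ 0}
  have hA' : A'.Finite := hA.subset (fun a ha => ha.1)
  have hinv : InvA A' T := by
    intro y z hyz hy
    refine hAT.inv y z (fun a ha => ?_) hy
    by_cases h0 : a = 0
    · rw [h0, LinearMap.zero_apply, LinearMap.zero_apply]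
    · exact hyz a ⟨ha, h0⟩
  obtain ⟨z, _, hz⟩ := exists_generic A' hA' (fun a ha => ha.2) (B := ∅) Set.finite_empty 0
    (fun b hb => hb.elim)
  obtain ⟨ε, hε, H⟩ := small_signs (hA'.union h.fin) x z
  have hne : ∀ a ∈ A', a (x + ε • z) ≠ 0 := by
    intro a ha h0
    obtain ⟨H1, H2⟩ := H ε hε le_rfl a (Or.inl ha)
    rw [h0, sign_zero] at H1 H2
    by_cases h1 : a x = 0
    · exact hz a ha (sign_eq_zero_iff.1 (H2 h1).symm)
    · exact h1 (sign_eq_zero_iff.1 (H1 h1).symm)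
  have hss : SameSign B x (x + ε • z) := by
    intro b hb
    by_cases h0 : b = 0
    · rw [h0, LinearMap.zero_apply, LinearMap.zero_apply]
    · exact ((H ε hε le_rfl b (Or.inr hb)).1 (hc b hb h0)).symm
  obtain ⟨ε₁, hε₁, K⟩ := h.cla.inv x _ hss hx
  obtain ⟨ε₂, hε₂, K₂⟩ := small_signs hA' w (x + ε • z)
  have hs0 : 0 < min ε₁ ε₂ := lt_min hε₁ hε₂
  have hyT := K (min ε₁ ε₂) hs0 (min_le_left _ _)
  refine hNoChm 2 E T A' h.dim h.sph hA' hinv _ ?_ hyT
  intro a ha h0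
  obtain ⟨H1, H2⟩ := K₂ (min ε₁ ε₂) hs0 (min_le_right _ _) a ha
  rw [h0, sign_zero] at H1 H2
  by_cases h1 : a w = 0
  · exact hne a ha (sign_eq_zero_iff.1 (H2 h1).symm)
  · exact h1 (sign_eq_zero_iff.1 (H1 h1).symm)

theorem key (hNoChm : St_NoChm) [FiniteDimensional ℚ E] {T : Set E} {u v : E →ₗ[ℚ] ℚ}
    {w : E} {B : Set (E →ₗ[ℚ] ℚ)} (h : BxH T u v w B) {x : E} (hx : x ∈ Tg w T)
    (hg : lev u v w x = 0) (hxw : ¬ ∃ c : ℚ, x = c • w) (huw : 0 < u w) :
    ∃ b ∈ B, b x = 0 ∧ ∃ z, u z = 0 ∧ lev u v w z = 0 ∧ b z ≠ 0 := by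
  obtain ⟨b, hb, hb0, hbx⟩ := exists_b hNoChm h hx
  refine ⟨b, hb, hbx, ?_⟩
  by_contra hc
  push Not at hc
  rcases h.nh x hx hxw with ⟨y, y', hy, _, hgy, _⟩ | h2
  · have hby : b y = 0 := by
      have := hy b hb
      rw [hbx, sign_zero] at this
      exact sign_eq_zero_iff.1 this
    -- b vanishes on the kernel of g
    have hker : ∀ z, lev u v w z = 0 → b z = 0 := by
      intro z hz
      have h1 := hc (z - (u z / u w) • w)
        (by rw [map_sub, map_smul, smul_eq_mul, div_mul_cancel₀ _ huw.ne', sub_self])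
        (by rw [map_sub, map_smul, hz, lev_self, smul_zero, sub_zero])
      rw [map_sub, map_smul, h.van b hb, smul_zero, sub_zero] at h1
      exact h1
    apply hb0
    ext z
    have h1 := hker (z - (lev u v w z / lev u v w y) • y)
      (by rw [map_sub, map_smul, smul_eq_mul, div_mul_cancel₀ _ hgy.ne, sub_self])
    rw [map_sub, map_smul, hby, smul_zero, sub_zero] at h1
    rw [h1]; rfl
  · exact hxw (h2 x (mem_face_self B x) hg)

end ABxS

theorem I_BxS (hNoChm : St_NoChm) : St_BxS := by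
  intro E _ _ _ T u v w B h
  have huw : 0 < u w := h.bdd w h.mem h.w0
  have hgw : lev u v w w = 0 := ABxS.lev_self u v w
  have hgx : ∀ x, lev u v w x = u w * v x - v w * u x := by
    intro x
    show (u w • v - v w • u) x = _
    rw [LinearMap.sub_apply, LinearMap.smul_apply, LinearMap.smul_apply, smul_eq_mul, smul_eq_mul]
  obtain ⟨z₀, hz₀, hgz₀⟩ : ∃ z₀, u z₀ = 0 ∧ lev u v w z₀ ≠ 0 := by
    by_contra hc
    push Not at hc
    refine h.ind (v w / u w) (LinearMap.ext fun y => ?_)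
    have h1 := hc (y - (u y / u w) • w)
      (by rw [map_sub, map_smul, smul_eq_mul, div_mul_cancel₀ _ huw.ne', sub_self])
    rw [map_sub, map_smul, hgw, smul_zero, sub_zero, hgx] at h1
    rw [LinearMap.smul_apply, smul_eq_mul]
    field_simp
    linarith
  generalize hg : lev u v w = g at *
  let K₀ : Submodule ℚ E := LinearMap.ker (u.prod g)
  have hK : ∀ x, x ∈ K₀ ↔ u x = 0 ∧ g x = 0 := by
    intro x
    show x ∈ LinearMap.ker (u.prod g) ↔ _
    rw [LinearMap.mem_ker, LinearMap.prod_apply]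
    exact Prod.mk_eq_zero
  have hfr : Module.finrank ℚ K₀ = 2 := by
    have hsurj : Function.Surjective (u.prod g) := by
      rintro ⟨p, q⟩
      refine ⟨(p / u w) • w + (q / g z₀) • z₀, ?_⟩
      rw [LinearMap.prod_apply]
      refine Prod.ext ?_ ?_
      · show u ((p / u w) • w + (q / g z₀) • z₀) = p
        rw [map_add, map_smul, map_smul, hz₀, smul_zero, add_zero, smul_eq_mul,
          div_mul_cancel₀ _ huw.ne']
      · show g ((p / u w) • w + (q / g z₀) • z₀) = q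
        rw [map_add, map_smul, map_smul, hgw, smul_zero, zero_add, smul_eq_mul,
          div_mul_cancel₀ _ hgz₀]
    have h1 := LinearMap.finrank_range_add_finrank_ker (u.prod g)
    rw [LinearMap.range_eq_top.2 hsurj, finrank_top, h.dim, Module.finrank_prod,
      Module.finrank_self] at h1
    show Module.finrank ℚ (LinearMap.ker (u.prod g)) = 2
    omega
  -- the projection
  let P₀ : E →ₗ[ℚ] E := LinearMap.id - (LinearMap.toSpanSingleton ℚ E w).comp ((u w)⁻¹ • u) -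
    (LinearMap.toSpanSingleton ℚ E z₀).comp ((g z₀)⁻¹ • g)
  have hP₀ : ∀ x, P₀ x = x - ((u w)⁻¹ * u x) • w - ((g z₀)⁻¹ * g x) • z₀ := fun x => rfl
  have hP₀K : ∀ x, P₀ x ∈ K₀ := by
    intro x
    rw [hK, hP₀]
    constructor
    · rw [map_sub, map_sub, map_smul, map_smul, hz₀, smul_zero, sub_zero, smul_eq_mul]
      field_simp
      ring
    · rw [map_sub, map_sub, map_smul, map_smul, hgw, smul_zero, sub_zero, smul_eq_mul]
      field_simp
      ring
  let P : E →ₗ[ℚ] K₀ := LinearMap.codRestrict K₀ P₀ hP₀K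
  have hPv : ∀ x, (P x : E) = P₀ x := fun x => rfl
  have hPw : P w = 0 := by
    apply Subtype.ext
    rw [hPv, hP₀, hgw, mul_zero, zero_smul, sub_zero, inv_mul_cancel₀ huw.ne', one_smul, sub_self]
    rfl
  let Φ : Set (K₀ →ₗ[ℚ] ℚ) :=
    (fun b : E →ₗ[ℚ] ℚ => b.comp K₀.subtype) '' {b | b ∈ B ∧ ∃ z, u z = 0 ∧ g z = 0 ∧ b z ≠ 0}
  obtain ⟨s₀, s₁, hs, hs'⟩ := ABxS.gen_basis hfr Φ
    ((h.fin.subset (fun b hb => hb.1)).image _) (by
      rintro _ ⟨b, ⟨_, z, h1, h2, h3⟩, rfl⟩ h0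
      exact h3 (LinearMap.congr_fun h0 ⟨z, (hK z).2 ⟨h1, h2⟩⟩))
  refine ⟨![s₀.comp P, s₁.comp P, -(s₀.comp P) - s₁.comp P], ?_, ?_, ?_, ?_⟩
  · intro i
    fin_cases i
    · show s₀ (P w) = 0
      rw [hPw, map_zero]
    · show s₁ (P w) = 0
      rw [hPw, map_zero]
    · show -(s₀ (P w)) - s₁ (P w) = 0
      rw [hPw, map_zero, map_zero]; ring
  · show s₀.comp P + s₁.comp P + (-(s₀.comp P) - s₁.comp P) = 0
    abel
  · intro x h1 h2 h3 h4
    rw [hg] at h2
    have h3 : s₀ (P x) = 0 := h3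
    have h4 : s₁ (P x) = 0 := h4
    have h5 := congrArg Subtype.val (hs (P x) h3 h4)
    rw [hPv, hP₀, h1, h2, mul_zero, mul_zero, zero_smul, zero_smul, sub_zero, sub_zero] at h5
    exact h5
  · intro x hx hgx0 i j hij hs_eq
    by_contra hpos
    push Not at hpos
    rw [hg] at hgx0
    -- the projected point
    have hPx : P₀ x = x + (-((u w)⁻¹ * u x)) • w := by
      rw [hP₀, hgx0, mul_zero, zero_smul, sub_zero, neg_smul, sub_eq_add_neg]
    have hCon : Con T := by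
      obtain ⟨D₁, D₂, U, rfl, _, hB1, hB2⟩ := h.sph
      exact (hB1.1.union hB2.1).con
    have hPT : P₀ x ∈ Tg w T := by
      rw [hPx]
      exact (tg_add hCon _ _).2 hx
    have h0 : P x ≠ 0 → False := by
      intro hne
      have hne' : P₀ x ≠ 0 := fun h1 => hne (Subtype.ext h1)
      obtain ⟨hu0, hg0⟩ := (hK _).1 (hP₀K x)
      have hnw : ¬ ∃ c : ℚ, P₀ x = c • w := by
        rintro ⟨c, hc⟩
        rw [hc, map_smul, smul_eq_mul] at hu0
        rw [(mul_eq_zero.1 hu0).resolve_right huw.ne', zero_smul] at hc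
        exact hne' hc
      obtain ⟨b, hbB, hbx, z, hz1, hz2, hz3⟩ := ABxS.key hNoChm h hPT (by rw [hg]; exact hg0)
        hnw huw
      rw [hg] at hz2
      obtain ⟨k1, k2, k3⟩ := hs' (b.comp K₀.subtype) ⟨b, ⟨hbB, z, hz1, hz2, hz3⟩, rfl⟩ (P x) hbx
      fin_cases i <;> fin_cases j
      · exact hij rfl
      · exact hne (k1 hs_eq)
      · have h2 : s₀ (P x) = -(s₀ (P x)) - s₁ (P x) := hs_eq
        exact hne (k2 (by linarith))
      · exact hne (k1 hs_eq.symm)
      · exact hij rfl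
      · have h2 : s₁ (P x) = -(s₀ (P x)) - s₁ (P x) := hs_eq
        exact hne (k3 (by linarith))
      · have h2 : -(s₀ (P x)) - s₁ (P x) = s₀ (P x) := hs_eq
        exact hne (k2 (by linarith))
      · have h2 : -(s₀ (P x)) - s₁ (P x) = s₁ (P x) := hs_eq
        exact hne (k3 (by linarith))
      · exact hij rfl
    apply h0
    intro hP
    fin_cases i
    · have h2 : 0 < s₀ (P x) := hpos
      rw [hP, map_zero] at h2
      exact lt_irrefl _ h2
    · have h2 : 0 < s₁ (P x) := hpos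
      rw [hP, map_zero] at h2
      exact lt_irrefl _ h2
    · have h2 : 0 < -(s₀ (P x)) - s₁ (P x) := hpos
      rw [hP, map_zero, map_zero] at h2
      linarith

end Pool.Agent.Work.MP_552024_lc.PLS
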