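import Pool.Agent.Work.MP_552024_lc.PLS.S4X

set_option autoImplicit false

/-!
# The sides of the new sphere of a box replacement
-/

namespace Pool.Agent.Work.MP_552024_lc.PLS

namespace ABxSide

variable {E : Type} [AddCommGroup E] [Module ℚ E]

theorem sides_symm {T M M' : Set E} (h : Sides T M M') : Sides T M' M :=
  ⟨h.2.1, h.1, by rw [Set.union_comm]; exact h.2.2.1, by rw [Set.inter_comm]; exact h.2.2.2⟩

theorem pol_diff_KO {ι : Type} [Fintype ι] [Nonempty ι] {M : Set E} (hM : Pol M)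
    (h : ι → E →ₗ[ℚ] ℚ) : Pol (M \ KO h) := by
  obtain ⟨h0, A, hA, H⟩ := hM
  refine ⟨⟨h0, fun h1 => ?_⟩, A ∪ Set.range h, hA.union (Set.finite_range h), ?_⟩
  · have := h1 (Classical.arbitrary ι)
    rw [map_zero] at this
    exact lt_irrefl _ this
  · rintro y ⟨hyM, hyK⟩ x hx
    refine ⟨H y hyM (face_anti Set.subset_union_left y hx), fun hxK => hyK fun i => ?_⟩
    have h1 := hx (h i) (Or.inr ⟨i, rfl⟩)
    have h2 := hxK i
    rcases h1 with h1 | h1
    · exact absurd h1 h2.ne'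
    · rw [sign_pos h2] at h1
      exact sign_eq_one_iff.1 h1.symm

/-- The two sides are determined by closed sets that cover the space and meet in the sphere. -/
theorem sides_eq [FiniteDimensional ℚ E] {T X X' P P' : Set E} (hX : Pol X) (hX' : Pol X')
    (huni : X ∪ X' = Set.univ) (hint : X ∩ X' = T) (hs : Sides T P P')
    (h1 : (X \ T).Nonempty) (h2 : (X' \ T).Nonempty) :
    (P = X ∧ P' = X') ∨ (P = X' ∧ P' = X) := by
  have key : ∀ Q : Set E, Comp Q Set.univ T → Q ⊆ X ∨ Q ⊆ X' := by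
    intro Q hQ
    have h3 : Q \ T ⊆ X ∪ X' := by rw [huni]; exact Set.subset_univ _
    rcases hQ.conn.2 X X' hX hX' h3 (fun x hx hxX hxX' => hx.2 (by
      rw [← hint]; exact ⟨hxX, hxX'⟩)) with h4 | h4
    · left; rw [← hQ.cl_eq]; exact hX.cl_subset h4
    · right; rw [← hQ.cl_eq]; exact hX'.cl_subset h4
  have hTP : T ⊆ P := by rw [← hs.2.2.2]; exact Set.inter_subset_left
  have hTP' : T ⊆ P' := by rw [← hs.2.2.2]; exact Set.inter_subset_right
  have cover : ∀ x, x ∈ P ∨ x ∈ P' := fun x => by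
    have : x ∈ P ∪ P' := by rw [hs.2.2.1]; trivial
    exact this
  have fin : ∀ Q Q' Z Z' : Set E, T ⊆ Q → (∀ x, x ∈ Q ∨ x ∈ Q') → Z ∩ Z' ⊆ T → Q ⊆ Z →
      Q' ⊆ Z' → Q = Z := by
    intro Q Q' Z Z' hT hc hZ hQ hQ'
    refine subset_antisymm hQ fun x hx => ?_
    rcases hc x with h | h
    · exact h
    · exact hT (hZ ⟨hx, hQ' h⟩)
  have hi1 : X ∩ X' ⊆ T := by rw [hint]
  have hi2 : X' ∩ X ⊆ T := by rw [Set.inter_comm, hint]
  rcases key P hs.1 with hP | hP <;> rcases key P' hs.2.1 with hP' | hP'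
  · exfalso
    obtain ⟨x, hx, hxT⟩ := h2
    refine hxT (hi1 ⟨?_, hx⟩)
    rcases cover x with h | h
    · exact hP h
    · exact hP' h
  · left
    exact ⟨fin P P' X X' hTP cover hi1 hP hP',
      fin P' P X' X hTP' (fun x => (cover x).symm) hi2 hP' hP⟩
  · right
    exact ⟨fin P P' X' X hTP cover hi2 hP hP',
      fin P' P X X' hTP' (fun x => (cover x).symm) hi1 hP' hP⟩
  · exfalso
    obtain ⟨x, hx, hxT⟩ := h1
    refine hxT (hi1 ⟨hx, ?_⟩)
    rcases cover x with h | h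
    · exact hP h
    · exact hP' h

end ABxSide

open ABxSide in
theorem I_BxSide (hBxTh : St_BxTh) (hJBS : St_JBS) (hBxB : St_BxB) (hClM : St_ClM)
    (hConnB : St_ConnB) : St_BxSide := by
  intro E _ _ _ T M M' w A ι _ _ h hSch R
  have hdim := R.dim
  have hT' := (hBxTh E T M M' w A ι h hSch R).1
  have hMT : M ∩ M' = T := R.sides.2.2.2
  have hMu : M ∪ M' = Set.univ := R.sides.2.2.1
  have hM : Pol M := R.sides.1.pol
  have hM' : Pol M' := R.sides.2.1.pol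
  have hcl : ClA A M := hClM E A T M R.fin R.cla R.sides.1
  have hclT : ClA A T := R.cla
  have hX : Pol (M \ KO h) := pol_diff_KO hM h
  have hX' : Pol (M' ∪ KC h) := hM'.union (pol_KC h)
  have hKO : ∀ x, x ∈ KC h → x ∉ KO h → x ∈ KD h := by
    intro x h1 h2
    refine ⟨h1, ?_⟩
    by_contra h3
    push Not at h3
    exact h2 fun i => lt_of_le_of_ne (h1 i) (Ne.symm (h3 i))
  have huni : (M \ KO h) ∪ (M' ∪ KC h) = Set.univ := by
    refine Set.eq_univ_of_forall fun x => ?_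
    have hx : x ∈ M ∪ M' := by rw [hMu]; trivial
    rcases hx with hx | hx
    · by_cases h1 : x ∈ KO h
      · exact Or.inr (Or.inr fun i => (h1 i).le)
      · exact Or.inl ⟨hx, h1⟩
    · exact Or.inr (Or.inl hx)
  have hint : (M \ KO h) ∩ (M' ∪ KC h) = (T \ KO h) ∪ (M ∩ KD h) := by
    ext x
    constructor
    · rintro ⟨⟨h1, h2⟩, h3 | h3⟩
      · exact Or.inl ⟨by rw [← hMT]; exact ⟨h1, h3⟩, h2⟩
      · exact Or.inr ⟨h1, hKO x h3 h2⟩
    · rintro (⟨h1, h2⟩ | ⟨h1, h2⟩)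
      · rw [← hMT] at h1
        exact ⟨⟨h1.1, h2⟩, Or.inl h1.2⟩
      · refine ⟨⟨h1, fun h3 => ?_⟩, Or.inr h2.1⟩
        obtain ⟨i, hi⟩ := h2.2
        have := h3 i
        rw [hi] at this
        exact lt_irrefl _ this
  obtain ⟨P, P', hs, hloc⟩ := hJBS 1 hSch E _ hdim hT'
  have hn' : ((M' ∪ KC h) \ ((T \ KO h) ∪ (M ∩ KD h))).Nonempty := by
    refine ⟨w, Or.inr fun i => (R.wKO i).le, ?_⟩
    rintro (⟨_, h1⟩ | ⟨_, h1⟩)
    · exact h1 R.wKO
    · obtain ⟨i, hi⟩ := h1.2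
      have := R.wKO i
      rw [hi] at this
      exact lt_irrefl _ this
  have hn : ((M \ KO h) \ ((T \ KO h) ∪ (M ∩ KD h))).Nonempty := by
    have hB := (hBxB E T (Tg w M) (Tg w M') w ι h hSch hdim R.sph R.mem R.w0
      (R.loc w R.mem R.w0) R.wKO R.ptd).2.1
    obtain ⟨y, hy1, hy2⟩ := (hConnB 2 E _ _ hB).1.1
    have hyD : y ∈ KD h := hy1.2
    have hy0 : y ≠ 0 := by
      rintro rfl
      exact hy2 ⟨zero_mem_tg.2 R.mem, hyD⟩
    have hwy : w ∈ face A y := R.small y hyD.1 hy0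
    have hyM : y ∈ M := (tg_near R.fin hcl.inv hwy).1 hy1.1
    have hyT : y ∉ T := fun h1 => hy2 ⟨(tg_near R.fin hclT.inv hwy).2 h1, hyD⟩
    have hyM' : y ∉ M' := fun h1 => hyT (by rw [← hMT]; exact ⟨hyM, h1⟩)
    obtain ⟨A', hA', hcl'⟩ := hM'.exists_cl
    obtain ⟨ε, hε, H⟩ := mem_face_small hA' y (-w)
    have hz := H ε hε le_rfl
    have hzM' : y + ε • (-w) ∉ M' := fun h1 => hyM' (hcl' _ h1 hz)
    have hzM : y + ε • (-w) ∈ M := by
      have hx : y + ε • (-w) ∈ M ∪ M' := by rw [hMu]; trivial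
      exact hx.resolve_right hzM'
    obtain ⟨i, hi⟩ := hyD.2
    have hneg : h i (y + ε • (-w)) < 0 := by
      rw [map_add, hi, zero_add, map_smul, map_neg, smul_eq_mul]
      have := mul_pos hε (R.wKO i)
      linarith
    refine ⟨y + ε • (-w), ⟨hzM, fun h1 => ?_⟩, ?_⟩
    · exact lt_asymm hneg (h1 i)
    · rintro (⟨h1, _⟩ | ⟨_, h1⟩)
      · rw [← hMT] at h1
        exact hzM' h1.2
      · exact absurd (h1.1 i) (not_le.2 hneg)
  rcases sides_eq hX hX' huni hint hs hn hn' with ⟨rfl, rfl⟩ | ⟨rfl, rfl⟩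
  · exact ⟨hs, hloc⟩
  · exact ⟨sides_symm hs, fun x hx h0 => sides_symm (hloc x hx h0)⟩

end Pool.Agent.Work.MP_552024_lc.PLS
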