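import Pool.Agent.Work.MP_552024_lc.PLS.S4X

set_option autoImplicit false

/-!
# The boundary of a half box is standard
-/

namespace Pool.Agent.Work.MP_552024_lc.PLS

namespace ABxStd

variable {E : Type} [AddCommGroup E] [Module ℚ E]
variable {ι : Type} [Fintype ι] [Nonempty ι]

theorem mem_KC (h : ι → E →ₗ[ℚ] ℚ) {p : E} (hp : p ∈ KO h) {x : E} :
    x ∈ KC h ↔ 0 ≤ rad h p x := by
  constructor
  · exact (radial_KC h hp).nonneg x
  · intro hx i
    exact le_trans (mul_nonneg hx (hp i).le) (rad_le h hp x i)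

theorem pol_neg (h : ι → E →ₗ[ℚ] ℚ) {p : E} (hp : p ∈ KO h) : Pol {x : E | rad h p x ≤ 0} := by
  have e : {x : E | rad h p x ≤ 0} = ⋃ i, {x | 0 ≤ (-h i) x} := by
    ext x
    rw [Set.mem_iUnion]
    constructor
    · intro hx
      have hx' : rad h p x ≤ 0 := hx
      obtain ⟨i, hi⟩ := exists_rad_eq h hp x
      refine ⟨i, ?_⟩
      show 0 ≤ (-h i) x
      rw [LinearMap.neg_apply, ← hi]
      have := mul_nonneg (neg_nonneg.2 hx') (hp i).le
      linarith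
    · rintro ⟨i, hi⟩
      have hi' : 0 ≤ (-h i) x := hi
      rw [LinearMap.neg_apply] at hi'
      have h1 := rad_le h hp x i
      show rad h p x ≤ 0
      by_contra hc
      have := mul_pos (not_le.1 hc) (hp i)
      linarith
  rw [e]
  exact pol_iUnion fun i => pol_halfspace _

theorem m_rho (h : ι → E →ₗ[ℚ] ℚ) {p : E} (hp : p ∈ KO h) (x : E) :
    rad h p (x + (-2 * rad h p x) • p) = - rad h p x := by
  rw [rad_add h hp]; ring

theorem rho_rho (h : ι → E →ₗ[ℚ] ℚ) {p : E} (hp : p ∈ KO h) (x : E) :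
    x + (-2 * rad h p x) • p + (-2 * rad h p (x + (-2 * rad h p x) • p)) • p = x := by
  rw [m_rho h hp, add_assoc, ← add_smul]
  have : -2 * rad h p x + -2 * -rad h p x = 0 := by ring
  rw [this, zero_smul, add_zero]

theorem pl_rho (h : ι → E →ₗ[ℚ] ℚ) (p : E) (S : Set E) :
    PLOn (fun x => x + (-2 * rad h p x) • p) S := by
  have h1 : PLOn (fun x => -2 * rad h p x) S := (plOn_rad h p S).smul (-2)
  exact (plOn_id S).add (h1.lin (LinearMap.toSpanSingleton ℚ E p))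

theorem ball_neg {k : ℕ} (h : ι → E →ₗ[ℚ] ℚ) {p : E} (hp : p ∈ KO h)
    (hB : Ball k (KC h) (KD h)) : Ball k {x : E | rad h p x ≤ 0} (KD h) := by
  have hz : ∀ x ∈ KD h, rad h p x = 0 := fun x hx =>
    (rad_zero_iff h hp ((radial_KC h hp).subset hx)).1 hx
  refine hB.transport (pol_neg h hp) (F := fun x => x + (-2 * rad h p x) • p)
    (G := fun x => x + (-2 * rad h p x) • p)
    ⟨pl_rho h p _, pl_rho h p _, ?_, ?_, fun x _ => rho_rho h hp x, fun x _ => rho_rho h hp x⟩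
    ?_ ?_
  · intro x hx
    show rad h p (x + (-2 * rad h p x) • p) ≤ 0
    rw [m_rho h hp]
    have := (mem_KC h hp).1 hx
    linarith
  · intro x hx
    have hx' : rad h p x ≤ 0 := hx
    rw [mem_KC h hp, m_rho h hp]
    linarith
  · intro x hx
    exact (hz x hx).le
  · intro x hx
    constructor
    · intro hd
      show x + (-2 * rad h p x) • p ∈ KD h
      rw [hz x hd, mul_zero, zero_smul, add_zero]
      exact hd
    · intro hd
      have h1 := hz _ hd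
      have h2 : rad h p (x + (-2 * rad h p x) • p) = 0 := h1
      rw [m_rho h hp] at h2
      rw [rad_zero_iff h hp hx]
      linarith

end ABxStd

theorem I_BxStd (hBxB : St_BxB) : St_BxStd := by
  intro E _ _ _ T N N' w ι _ _ h hSch hdim hT hw hw0 hS hK hpt
  obtain ⟨_, hN, hN', hSK, hNC, hNC'⟩ := hBxB E T N N' w ι h hSch hdim hT hw hw0 hS hK hpt
  have hu : N ∪ N' = Set.univ := hS.2.2.1
  have hi : N ∩ N' = Tg w T := hS.2.2.2
  have hB := coneBall 3 E ι h hdim ⟨w, hK⟩ hpt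
  have hneg := ABxStd.ball_neg h hK hB
  have hKDC : ∀ x, x ∈ KD h → x ∈ KC h := fun x hx => hx.1
  have hz : ∀ x, x ∈ KC h → rad h w x ≤ 0 → x ∈ KD h := fun x h1 h2 =>
    (rad_zero_iff h hK h1).2 (le_antisymm h2 ((ABxStd.mem_KC h hK).1 h1))
  have hz' : ∀ x, x ∈ KD h → rad h w x ≤ 0 := fun x hx =>
    ((rad_zero_iff h hK (hKDC x hx)).1 hx).le
  have hor : ∀ x, x ∈ N ∨ x ∈ N' := fun x => by
    have : x ∈ N ∪ N' := by rw [hu]; trivial
    exact this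
  have hSi : ∀ x, x ∈ Tg w T ↔ x ∈ N ∧ x ∈ N' := fun x => by rw [← hi]; rfl
  have e1 : (N' ∩ KD h) ∪ (N ∩ KD h) = KD h := by
    ext x
    constructor
    · rintro (h1 | h1)
      · exact h1.2
      · exact h1.2
    · intro h1
      rcases hor x with h2 | h2
      · exact Or.inr ⟨h2, h1⟩
      · exact Or.inl ⟨h2, h1⟩
  have e2 : (N' ∩ KD h) ∩ (N ∩ KD h) = Tg w T ∩ KD h := by
    ext x
    constructor
    · rintro ⟨h1, h2⟩
      exact ⟨(hSi x).2 ⟨h2.1, h1.1⟩, h1.2⟩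
    · rintro ⟨h1, h2⟩
      exact ⟨⟨((hSi x).1 h1).2, h2⟩, ((hSi x).1 h1).1, h2⟩
  have e3 : (N' ∩ KD h) ∩ (Tg w T ∩ KC h) = Tg w T ∩ KD h := by
    ext x
    constructor
    · rintro ⟨h1, h2⟩
      exact ⟨h2.1, h1.2⟩
    · rintro ⟨h1, h2⟩
      exact ⟨⟨((hSi x).1 h1).2, h2⟩, h1, hKDC x h2⟩
  have e4 : {x : E | rad h w x ≤ 0} ∩ (N' ∩ KC h) = N' ∩ KD h := by
    ext x
    constructor
    · rintro ⟨h1, h2⟩
      exact ⟨h2.1, hz x h2.2 h1⟩
    · rintro ⟨h1, h2⟩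
      exact ⟨hz' x h2, h1, hKDC x h2⟩
  have hA' := unionLemma 3 {x : E | rad h w x ≤ 0} (N' ∩ KC h) (N' ∩ KD h) (N ∩ KD h)
    (Tg w T ∩ KC h) (Tg w T ∩ KD h) (by rw [e1]; exact hneg) hNC' hN' hN hSK e2 e3 e4
  refine ⟨N ∩ KC h, {x : E | rad h w x ≤ 0} ∪ (N' ∩ KC h), ?_, ?_, hNC, hA'⟩
  · refine Set.eq_univ_of_forall fun x => ?_
    rcases le_total 0 (rad h w x) with h1 | h1
    · have h2 := (ABxStd.mem_KC h hK).2 h1
      rcases hor x with h3 | h3
      · exact Or.inl ⟨h3, h2⟩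
      · exact Or.inr (Or.inr ⟨h3, h2⟩)
    · exact Or.inr (Or.inl h1)
  · ext x
    constructor
    · rintro ⟨⟨h1, h2⟩, h3 | h3⟩
      · exact Or.inl ⟨h1, hz x h2 h3⟩
      · exact Or.inr ⟨(hSi x).2 ⟨h1, h3.1⟩, h2⟩
    · rintro (⟨h1, h2⟩ | ⟨h1, h2⟩)
      · exact ⟨⟨h1, hKDC x h2⟩, Or.inl (hz' x h2)⟩
      · exact ⟨⟨((hSi x).1 h1).1, h2⟩, Or.inr ⟨((hSi x).1 h1).2, h2⟩⟩

end Pool.Agent.Work.MP_552024_lc.PLS
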