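import Pool.Agent.Work.MP_552024_lc.PLS.S4X

set_option autoImplicit false

/-! `BxH` only depends on the germ at `w`. -/

namespace Pool.Agent.Work.MP_552024_lc.PLS

theorem I_BxT : St_BxT := by
  intro E _ _ _ T T' u v w B hH hS hb hw hT
  exact
    { dim := hH.dim
      sph := hS
      bdd := hb
      mem := hw
      w0 := hH.w0
      fin := hH.fin
      van := hH.van
      spn := hH.spn
      cla := by rw [hT]; exact hH.cla
      nh := by rw [hT]; exact hH.nh
      ind := hH.ind }

end Pool.Agent.Work.MP_552024_lc.PLS
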