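import Pool.Agent.Work.MP_552024_lc.PLS.S4X

set_option autoImplicit false

/-! Item BxTh: the new sphere of a box replacement. -/

namespace Pool.Agent.Work.MP_552024_lc.PLS

namespace ABxTh

variable {E : Type} [AddCommGroup E] [Module ℚ E]

theorem pol_compl_KO {ι : Type} [Fintype ι] [Nonempty ι] (h : ι → E →ₗ[ℚ] ℚ) :
    Pol {x : E | x ∉ KO h} := by
  refine ⟨?_, Set.range h, Set.finite_range h, ?_⟩
  · intro h0
    obtain ⟨i⟩ := ‹Nonempty ι›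
    have h1 := h0 i
    rw [map_zero] at h1
    exact lt_irrefl _ h1
  · intro y hy x hx hxK
    have hy : ¬ ∀ i, 0 < h i y := hy
    push Not at hy
    obtain ⟨i, hi⟩ := hy
    have h1 : 0 < h i x := hxK i
    rcases hx (h i) ⟨i, rfl⟩ with h2 | h2
    · exact absurd h2 h1.ne'
    · rw [sign_pos h1, eq_comm, sign_eq_one_iff] at h2
      exact absurd h2 (not_lt.2 hi)

theorem mem_KD_of {ι : Type} {h : ι → E →ₗ[ℚ] ℚ} {x : E} (h1 : x ∈ KC h) (h2 : x ∉ KO h) :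
    x ∈ KD h := by
  have h2 : ¬ ∀ i, 0 < h i x := h2
  push Not at h2
  obtain ⟨i, hi⟩ := h2
  exact ⟨h1, i, le_antisymm hi (h1 i)⟩

theorem KO_sub {ι : Type} {h : ι → E →ₗ[ℚ] ℚ} {x : E} (h1 : x ∈ KO h) : x ∈ KC h :=
  fun i => (h1 i).le

theorem not_KO_of {ι : Type} {h : ι → E →ₗ[ℚ] ℚ} {x : E} (h1 : x ∈ KD h) : x ∉ KO h := by
  intro h2
  obtain ⟨_, i, hi⟩ := h1
  exact absurd hi (h2 i).ne'

/-- The pieces of `T`. -/
theorem pieces {ι : Type} [Fintype ι] [Nonempty ι] {h : ι → E →ₗ[ℚ] ℚ} {T F₁ F₂ : Set E}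
    (hConnB : ∀ A T : Set E, Ball (2 + 1) A T → Conn (A \ T) ∧ cl (A \ T) = A ∧ (0 : E) ∈ T)
    (hT : Pol T) (hb : Ball 3 (T ∩ KC h) (T ∩ KD h)) (hU : F₁ ∪ F₂ = T)
    (hI : F₁ ∩ F₂ = T ∩ KD h) (h1 : Ball 3 F₁ (T ∩ KD h)) (h2 : Ball 3 F₂ (T ∩ KD h))
    (hsub : (T ∩ KC h) \ (T ∩ KD h) ⊆ F₁) :
    F₁ = T ∩ KC h ∧ F₂ = T \ KO h := by
  have hCF1 : T ∩ KD h ⊆ F₁ := by rw [← hI]; exact Set.inter_subset_left
  have hCF2 : T ∩ KD h ⊆ F₂ := by rw [← hI]; exact Set.inter_subset_right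
  have hF1T : F₁ ⊆ T := by rw [← hU]; exact Set.subset_union_left
  have hF2T : F₂ ⊆ T := by rw [← hU]; exact Set.subset_union_right
  have hc1 : Conn (F₁ \ (T ∩ KD h)) := (hConnB _ _ h1).1
  have hcE : Conn ((T ∩ KC h) \ (T ∩ KD h)) := (hConnB _ _ hb).1
  have hdec := hc1.2 (KC h) (T ∩ {x | x ∉ KO h}) (pol_KC h) (hT.inter (pol_compl_KO h)) ?_ ?_
  · have hKC : F₁ \ (T ∩ KD h) ⊆ KC h := by
      rcases hdec with h3 | h3
      · exact h3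
      · obtain ⟨x, hx⟩ := hcE.1
        exfalso
        have h4 := h3 ⟨hsub hx, hx.2⟩
        exact hx.2 ⟨hx.1.1, mem_KD_of hx.1.2 h4.2⟩
    have e1 : F₁ = T ∩ KC h := by
      ext x
      constructor
      · intro hx
        by_cases hxC : x ∈ T ∩ KD h
        · exact ⟨hxC.1, hxC.2.1⟩
        · exact ⟨hF1T hx, hKC ⟨hx, hxC⟩⟩
      · intro hx
        by_cases hxC : x ∈ T ∩ KD h
        · exact hCF1 hxC
        · exact hsub ⟨hx, hxC⟩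
    refine ⟨e1, ?_⟩
    ext x
    constructor
    · intro hx
      refine ⟨hF2T hx, fun hxO => ?_⟩
      have h3 : x ∈ F₁ := by rw [e1]; exact ⟨hF2T hx, KO_sub hxO⟩
      have h4 : x ∈ T ∩ KD h := by rw [← hI]; exact ⟨h3, hx⟩
      exact not_KO_of h4.2 hxO
    · rintro ⟨hxT, hxO⟩
      have h3 : x ∈ F₁ ∪ F₂ := by rw [hU]; exact hxT
      rcases h3 with h3 | h3
      · rw [e1] at h3
        exact hCF2 ⟨hxT, mem_KD_of h3.2 hxO⟩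
      · exact h3
  · rintro x ⟨hx, _⟩
    by_cases h3 : x ∈ KC h
    · exact Or.inl h3
    · exact Or.inr ⟨hF1T hx, fun h4 => h3 (KO_sub h4)⟩
  · rintro x ⟨hx, hxC⟩ h3 ⟨h4, h5⟩
    exact hxC ⟨h4, mem_KD_of h3 h5⟩

end ABxTh

open ABxTh in
theorem I_BxTh (hBxB : St_BxB) (hBxStd : St_BxStd) (hK3 : St_K3) (hCutT : St_CutT)
    (hClM : St_ClM) (hConnB : St_ConnB) : St_BxTh := by
  intro E _ _ _ T M M' w A ι _ _ h hS hR
  have hMM : M ∩ M' = T := hR.sides.2.2.2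
  have hTM : T ⊆ M := by rw [← hMM]; exact Set.inter_subset_left
  have hN := hR.loc w hR.mem hR.w0
  have hclM : ClA A M := hClM E A T M hR.fin hR.cla hR.sides.1
  have hpolM : Pol M := hR.sides.1.1
  have h0T : (0 : E) ∈ T := by
    have := (hR.cla w hR.mem) (zero_mem_face A w)
    exact this
  have hpolT : Pol T := ⟨h0T, A, hR.fin, hR.cla⟩
  -- comparison with the germs
  have key : ∀ S : Set E, InvA A S → w ∈ S → (0 : E) ∈ S → ∀ x ∈ KC h, (x ∈ Tg w S ↔ x ∈ S) := by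
    intro S hS hw h0 x hx
    by_cases hx0 : x = 0
    · rw [hx0]
      exact ⟨fun _ => h0, fun _ => zero_mem_tg.2 hw⟩
    · exact tg_near hR.fin hS (hR.small x hx hx0)
  have kT := key T hR.cla.inv hR.mem h0T
  have kM := key M hclM.inv (hTM hR.mem) (hTM h0T)
  have eTC : Tg w T ∩ KC h = T ∩ KC h := by
    ext x
    exact ⟨fun hx => ⟨(kT x hx.2).1 hx.1, hx.2⟩, fun hx => ⟨(kT x hx.2).2 hx.1, hx.2⟩⟩
  have eTD : Tg w T ∩ KD h = T ∩ KD h := by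
    ext x
    exact ⟨fun hx => ⟨(kT x hx.2.1).1 hx.1, hx.2⟩, fun hx => ⟨(kT x hx.2.1).2 hx.1, hx.2⟩⟩
  have eMD : Tg w M ∩ KD h = M ∩ KD h := by
    ext x
    exact ⟨fun hx => ⟨(kM x hx.2.1).1 hx.1, hx.2⟩, fun hx => ⟨(kM x hx.2.1).2 hx.1, hx.2⟩⟩
  obtain ⟨b1, b2, -, b4, -, -⟩ := hBxB E T (Tg w M) (Tg w M') w ι h hS hR.dim hR.sph hR.mem hR.w0
    hN hR.wKO hR.ptd
  have std1 := hBxStd E T (Tg w M) (Tg w M') w ι h hS hR.dim hR.sph hR.mem hR.w0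
    hN hR.wKO hR.ptd
  rw [eTD] at b1 b2 b4
  rw [eTC] at b4 std1
  rw [eMD] at b2 std1
  have hE12 : ∃ E₁ E₂ : Set E, E₁ = T ∩ KC h ∧ E₂ = T \ KO h ∧ E₁ ∪ E₂ = T ∧
      E₁ ∩ E₂ = T ∩ KD h ∧ Ball 3 E₁ (T ∩ KD h) ∧ Ball 3 E₂ (T ∩ KD h) := by
    obtain ⟨F₁, F₂, hU, hI, h1, h2⟩ := hK3 1 hS E T (T ∩ KD h) hR.sph b1 Set.inter_subset_left
    have hcb := fun A T h => hConnB 2 E A T h
    have hcE : Conn ((T ∩ KC h) \ (T ∩ KD h)) := (hcb _ _ b4).1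
    rcases hcE.2 F₁ F₂ h1.1 h2.1 (by rw [hU]; exact fun x hx => hx.1.1) (by
      intro x hx h3 h4
      exact hx.2 (by rw [← hI]; exact ⟨h3, h4⟩)) with h3 | h3
    · obtain ⟨e1, e2⟩ := pieces hcb hpolT b4 hU hI h1 h2 h3
      exact ⟨F₁, F₂, e1, e2, hU, hI, h1, h2⟩
    · obtain ⟨e1, e2⟩ := pieces hcb hpolT b4 ((Set.union_comm _ _).trans hU)
        ((Set.inter_comm _ _).trans hI) h2 h1 h3
      exact ⟨F₂, F₁, e1, e2, (Set.union_comm _ _).trans hU, (Set.inter_comm _ _).trans hI, h2, h1⟩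
  obtain ⟨E₁, E₂, e1, e2, hU, hI, h1, h2⟩ := hE12
  have hcut : CutD T (M ∩ KD h) (T ∩ KD h) E₁ E₂ := by
    refine ⟨hU, hI, ?_, b2, h1, h2, b1⟩
    ext x
    exact ⟨fun hx => ⟨hx.2, hx.1.2⟩, fun hx => ⟨⟨hTM hx.1, hx.2⟩, hx.1⟩⟩
  obtain ⟨s1, s2, s3, -, -⟩ := hCutT E T _ _ E₁ E₂ hR.dim hcut
  rw [e2] at s2 s3
  refine ⟨s2, fun hstd => s3 ?_ hstd⟩
  rw [e1, Set.union_comm]
  exact std1

end Pool.Agent.Work.MP_552024_lc.PLS
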