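import Pool.Agent.Work.MP_552024_lc.PLS.S4X

set_option autoImplicit false

/-! Item BxX: the sphere near the box in the crossing case. -/

namespace Pool.Agent.Work.MP_552024_lc.PLS

open SignType

namespace ABxX

section

variable {E : Type} [AddCommGroup E] [Module ℚ E]

theorem invA_erase {A : Set (E →ₗ[ℚ] ℚ)} {S : Set E} (h : InvA A S) : InvA (A \ {0}) S := by
  intro x y hxy hx
  refine h x y (fun a ha => ?_) hx
  by_cases h0 : a = 0
  · rw [h0]; rfl
  · exact hxy a ⟨ha, h0⟩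

/-- A point which is generic and near `y₀`. -/
theorem exists_near {C : Set (E →ₗ[ℚ] ℚ)} (hC : C.Finite) (y₀ : E) :
    ∃ z : E, (∀ a ∈ C, a ≠ 0 → a z ≠ 0) ∧ ∀ a ∈ C, a y₀ ≠ 0 → sign (a z) = sign (a y₀) := by
  obtain ⟨q, _, hq⟩ := exists_generic (C \ {0}) (hC.subset Set.sdiff_subset)
    (fun φ hφ => hφ.2) (B := ∅) Set.finite_empty (0 : E) (fun b hb => hb.elim)
  obtain ⟨ε, hε, H⟩ := small_signs hC y₀ q
  refine ⟨y₀ + ε • q, fun a ha h0 h1 => ?_, fun a ha h0 => (H ε hε le_rfl a ha).1 h0⟩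
  by_cases h2 : a y₀ = 0
  · have h3 := (H ε hε le_rfl a ha).2 h2
    rw [h1, sign_zero, eq_comm, sign_eq_zero_iff] at h3
    exact hq a ⟨ha, h0⟩ h3
  · have h3 := (H ε hε le_rfl a ha).1 h2
    rw [h1, sign_zero, eq_comm, sign_eq_zero_iff] at h3
    exact h2 h3

/-- Generic points are not in the germ of a sphere. -/
theorem not_mem_tg [FiniteDimensional ℚ E] (hN : St_NoChm) (hd : Module.finrank ℚ E = 4)
    {T : Set E} (hT : Sph 3 T) {A : Set (E →ₗ[ℚ] ℚ)} (hA : A.Finite) (hI : InvA A T) (x z : E)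
    (hz : ∀ a ∈ A, a ≠ 0 → a z ≠ 0) : z ∉ Tg x T := by
  rintro ⟨ε, hε, K⟩
  obtain ⟨δ, hδ, H⟩ := small_signs hA x z
  have hm : 0 < min ε δ := lt_min hε hδ
  refine hN 2 E T (A \ {0}) hd hT (hA.subset Set.sdiff_subset) (invA_erase hI)
    (x + (min ε δ) • z) ?_ (K _ hm (min_le_left _ _))
  intro a ha h1
  by_cases h2 : a x = 0
  · have h3 := (H _ hm (min_le_right _ _) a ha.1).2 h2
    rw [h1, sign_zero, eq_comm, sign_eq_zero_iff] at h3
    exact hz a ha.1 ha.2 h3
  · have h3 := (H _ hm (min_le_right _ _) a ha.1).1 h2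
    rw [h1, sign_zero, eq_comm, sign_eq_zero_iff] at h3
    exact h2 h3

theorem finrank_ker [FiniteDimensional ℚ E] (hd : Module.finrank ℚ E = 4) (b : E →ₗ[ℚ] ℚ)
    (hb : b ≠ 0) : Module.finrank ℚ (LinearMap.ker b) = 3 := by
  have h1 := b.finrank_range_add_finrank_ker
  have h2 : Module.finrank ℚ (LinearMap.range b) = 1 := by
    rw [LinearMap.range_eq_top.2 (LinearMap.surjective_of_ne_zero hb)]
    simp
  omega

/-- A form which vanishes on three independent vectors of `ker b` is zero on `ker b`. -/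
theorem ker_le [FiniteDimensional ℚ E] (hd : Module.finrank ℚ E = 4) (b g : E →ₗ[ℚ] ℚ)
    (hb : b ≠ 0) (w x1 y' : E) (hbw : b w = 0) (hb1 : b x1 = 0) (hby : b y' = 0) (hw0 : w ≠ 0)
    (hgw : g w = 0) (hg1 : g x1 = 0) (hgy : g y' ≠ 0) (h1w : ¬ ∃ c : ℚ, x1 = c • w) :
    ∀ y, b y = 0 → ∃ α β γ : ℚ, y = α • w + β • x1 + γ • y' := by
  have hli : LinearIndependent ℚ ![w, x1, y'] := by
    rw [Fintype.linearIndependent_iff]
    intro c hc
    simp only [Fin.sum_univ_three, Matrix.cons_val_zero, Matrix.cons_val_one,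
      Matrix.cons_val_two, Matrix.tail_cons, Matrix.head_cons] at hc
    have h3 : c 2 = 0 := by
      have h4 := congrArg g hc
      simp only [map_add, map_smul, hgw, hg1, mul_zero, zero_add, map_zero,
        smul_eq_mul] at h4
      exact (mul_eq_zero.1 h4).resolve_right hgy
    rw [h3, zero_smul, add_zero] at hc
    have h2 : c 1 = 0 := by
      by_contra h5
      apply h1w
      refine ⟨- (c 1)⁻¹ * c 0, ?_⟩
      have h6 : c 1 • x1 = - (c 0 • w) := eq_neg_of_add_eq_zero_right hc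
      have h7 : x1 = (c 1)⁻¹ • (c 1 • x1) := by rw [smul_smul, inv_mul_cancel₀ h5, one_smul]
      rw [h7, h6, smul_neg, smul_smul, neg_mul, neg_smul]
    rw [h2, zero_smul, add_zero] at hc
    have h1 : c 0 = 0 := (smul_eq_zero.1 hc).resolve_right hw0
    intro i
    fin_cases i
    · exact h1
    · exact h2
    · exact h3
  have hle : Submodule.span ℚ (Set.range ![w, x1, y']) ≤ LinearMap.ker b := by
    rw [Submodule.span_le]
    rintro _ ⟨i, rfl⟩
    fin_cases i
    · exact hbw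
    · exact hb1
    · exact hby
  have heq : Submodule.span ℚ (Set.range ![w, x1, y']) = LinearMap.ker b := by
    apply Submodule.eq_of_le_of_finrank_le hle
    rw [finrank_ker hd b hb, finrank_span_eq_card hli]
    simp
  intro y hy
  have hy2 : y ∈ Submodule.span ℚ (Set.range ![w, x1, y']) := by
    rw [heq]; exact hy
  rw [Submodule.mem_span_range_iff_exists_fun] at hy2
  obtain ⟨c, hc⟩ := hy2
  refine ⟨c 0, c 1, c 2, ?_⟩
  rw [← hc]
  simp [Fin.sum_univ_three]

/-- The sides of a hyperplane. -/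
theorem sides_hyp [FiniteDimensional ℚ E] (b : E →ₗ[ℚ] ℚ) (hb : b ≠ 0) (N N' : Set E)
    (h : Sides {y | b y = 0} N N') :
    ((N \ {y | b y = 0} = {y | 0 < b y} ∧ N' \ {y | b y = 0} = {y | b y < 0}) ∨
      (N \ {y | b y = 0} = {y | b y < 0} ∧ N' \ {y | b y = 0} = {y | 0 < b y})) := by
  obtain ⟨h1, h2, hU, hI⟩ := h
  obtain ⟨p, hp⟩ : ∃ p, b p ≠ 0 := by
    by_contra hcon
    push Not at hcon
    exact hb (LinearMap.ext hcon)
  have hF : Pol {y : E | b y = 0} := pol_hyperplane b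
  have hPne : ({y : E | 0 < b y}).Nonempty := by
    rcases lt_or_gt_of_ne hp with h3 | h3
    · exact ⟨-p, by simp only [Set.mem_ofPred_eq, map_neg]; linarith⟩
    · exact ⟨p, h3⟩
  have hQne : ({y : E | b y < 0}).Nonempty := by
    rcases lt_or_gt_of_ne hp with h3 | h3
    · exact ⟨p, h3⟩
    · exact ⟨-p, by simp only [Set.mem_ofPred_eq, map_neg]; linarith⟩
  have hPc : Conn {y : E | 0 < b y} := by
    refine conn_of_convex hPne (fun x hx y hy t h0 h1 => ?_)
    simp only [Set.mem_ofPred_eq, map_add, map_smul, map_sub, smul_eq_mul] at hx hy ⊢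
    rcases h0.eq_or_lt with rfl | h0
    · linarith
    · nlinarith
  have hQc : Conn {y : E | b y < 0} := by
    refine conn_of_convex hQne (fun x hx y hy t h0 h1 => ?_)
    simp only [Set.mem_ofPred_eq, map_add, map_smul, map_sub, smul_eq_mul] at hx hy ⊢
    rcases h0.eq_or_lt with rfl | h0
    · linarith
    · nlinarith
  have hPF : {y : E | 0 < b y} ⊆ Set.univ \ {y | b y = 0} := by
    intro y hy
    exact ⟨trivial, fun h3 => by
      simp only [Set.mem_ofPred_eq] at hy h3; rw [h3] at hy; exact lt_irrefl _ hy⟩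
  have hQF : {y : E | b y < 0} ⊆ Set.univ \ {y | b y = 0} := by
    intro y hy
    exact ⟨trivial, fun h3 => by
      simp only [Set.mem_ofPred_eq] at hy h3; rw [h3] at hy; exact lt_irrefl _ hy⟩
  have key : ∀ s : Set E, Conn s → s ⊆ Set.univ \ {y | b y = 0} → s ⊆ N ∨ s ⊆ N' := by
    intro s hs hsF
    obtain ⟨z, hz⟩ := hs.1
    have hz2 : z ∈ N ∪ N' := by rw [hU]; trivial
    rcases hz2 with hz2 | hz2
    · exact Or.inl (Comp.sub_of_conn pol_univ hF h1 hs hsF ⟨z, hz, hz2⟩)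
    · exact Or.inr (Comp.sub_of_conn pol_univ hF h2 hs hsF ⟨z, hz, hz2⟩)
  have hNN : ∀ y, y ∈ N → y ∈ N' → b y = 0 := by
    intro y hy hy'
    have : y ∈ N ∩ N' := ⟨hy, hy'⟩
    rw [hI] at this
    exact this
  have fin : ∀ X X' : Set E, {y : E | 0 < b y} ⊆ X → {y : E | b y < 0} ⊆ X' →
      (∀ y, y ∈ X → y ∈ X' → b y = 0) →
      X \ {y | b y = 0} = {y | 0 < b y} ∧ X' \ {y | b y = 0} = {y | b y < 0} := by
    intro X X' hX hX' hXX
    constructor
    · ext y
      constructor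
      · rintro ⟨hy, hy0⟩
        rcases lt_trichotomy (b y) 0 with h3 | h3 | h3
        · exact absurd (hXX y hy (hX' h3)) hy0
        · exact absurd h3 hy0
        · exact h3
      · intro hy
        exact ⟨hX hy, (hPF hy).2⟩
    · ext y
      constructor
      · rintro ⟨hy, hy0⟩
        rcases lt_trichotomy (b y) 0 with h3 | h3 | h3
        · exact h3
        · exact absurd h3 hy0
        · exact absurd (hXX y (hX h3) hy) hy0
      · intro hy
        exact ⟨hX' hy, (hQF hy).2⟩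
  rcases key _ hPc hPF with hP | hP <;> rcases key _ hQc hQF with hQ | hQ
  · exfalso
    obtain ⟨y, hy, hy0⟩ := h2.nonempty
    rcases lt_trichotomy (b y) 0 with h3 | h3 | h3
    · exact hy0 (hNN y (hQ h3) hy)
    · exact hy0 h3
    · exact hy0 (hNN y (hP h3) hy)
  · left
    exact fin N N' hP hQ hNN
  · right
    have := fin N' N hP hQ (fun y h3 h4 => hNN y h4 h3)
    exact ⟨this.2, this.1⟩
  · exfalso
    obtain ⟨y, hy, hy0⟩ := h1.nonempty
    rcases lt_trichotomy (b y) 0 with h3 | h3 | h3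
    · exact hy0 (hNN y hy (hQ h3))
    · exact hy0 h3
    · exact hy0 (hNN y hy (hP h3))

end

end ABxX

open ABxX

theorem I_BxX (hNoChm : St_NoChm) : St_BxX := by
  intro E _ _ _ T M M' u v w B A s δ η x hB hD hR hxT hxK hx0 hcr hxw
  obtain ⟨y, y', hy, hy', hgy, hgy'⟩ := hcr
  set g := lev u v w with hg
  have hgw : g w = 0 := by
    rw [hg]; simp only [lev, LinearMap.sub_apply, LinearMap.smul_apply, smul_eq_mul]; ring
  -- the point `x1`
  have hden : 0 < g y' - g y := by linarith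
  have ht0 : 0 ≤ - g y / (g y' - g y) := div_nonneg (by linarith) hden.le
  have ht1 : - g y / (g y' - g y) ≤ 1 := by rw [div_le_one hden]; linarith
  set x1 : E := y + (- g y / (g y' - g y)) • (y' - y) with hx1
  have h1s : SameSign B x1 x := sameSign_convex hy hy' ht0 ht1
  have hg1 : g x1 = 0 := by
    rw [hx1]
    simp only [map_add, map_smul, map_sub, smul_eq_mul]
    field_simp
    ring
  have h1w : ¬ ∃ c : ℚ, x1 = c • w := by
    rintro ⟨c, hc⟩
    apply hxw
    apply hB.spn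
    intro b hb
    have h2 := h1s b hb
    rw [hc, map_smul, hB.van b hb, smul_zero, sign_zero, eq_comm, sign_eq_zero_iff] at h2
    exact h2
  have hvan : ∀ b ∈ B, b x = 0 → b w = 0 ∧ b x1 = 0 ∧ b y' = 0 := by
    intro b hb hbx
    refine ⟨hB.van b hb, ?_, ?_⟩
    · have h2 := h1s b hb
      rw [hbx, sign_zero, sign_eq_zero_iff] at h2
      exact h2
    · have h2 := hy' b hb
      rw [hbx, sign_zero, sign_eq_zero_iff] at h2
      exact h2
  have hI : InvA A T := hR.cla.inv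
  have hwx : w ∈ face A x := hR.small x hxK hx0
  have htt : Tg x (Tg w T) = Tg x T := tg_tg hR.fin hI hwx
  have hinv : InvA (At B x) (Tg x T) := by
    rw [← htt]; exact tg_inv hB.fin hB.cla.inv
  have h0T : (0 : E) ∈ Tg x T := zero_mem_tg.2 hxT
  -- the form `b`
  obtain ⟨b, hb, hb0, hbx⟩ : ∃ b ∈ B, b ≠ 0 ∧ b x = 0 := by
    by_contra hcon
    push Not at hcon
    obtain ⟨z, hz, _⟩ := exists_near hR.fin (0 : E)
    refine not_mem_tg hNoChm hR.dim hR.sph hR.fin hI x z hz (hinv 0 z ?_ h0T)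
    rintro a ⟨ha, hax⟩
    by_cases h0 : a = 0
    · rw [h0]; rfl
    · exact absurd hax (hcon a ha h0)
  obtain ⟨hbw, hb1, hby'⟩ := hvan b hb hbx
  have hker := ker_le hR.dim b g hb0 w x1 y' hbw hb1 hby' hB.w0 hgw hg1 hgy'.ne' h1w
  have hker2 : ∀ a ∈ B, a x = 0 → ∀ z, b z = 0 → a z = 0 := by
    intro a ha hax z hz
    obtain ⟨α, β, γ, rfl⟩ := hker z hz
    obtain ⟨h1, h2, h3⟩ := hvan a ha hax
    simp only [map_add, map_smul, h1, h2, h3, smul_zero, add_zero]
  obtain ⟨p, hp⟩ : ∃ p, b p = 1 := by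
    obtain ⟨p, hp⟩ : ∃ p, b p ≠ 0 := by
      by_contra hcon
      push Not at hcon
      exact hb0 (LinearMap.ext hcon)
    exact ⟨(b p)⁻¹ • p, by rw [map_smul, smul_eq_mul, inv_mul_cancel₀ hp]⟩
  have hmul : ∀ a ∈ B, a x = 0 → ∀ z, a z = b z * a p := by
    intro a ha hax z
    have h2 := hker2 a ha hax (z - b z • p) (by
      rw [map_sub, map_smul, hp, smul_eq_mul, mul_one, sub_self])
    rw [map_sub, map_smul, smul_eq_mul, sub_eq_zero] at h2
    exact h2
  have hTg : Tg x T = {y | b y = 0} := by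
    apply subset_antisymm
    · intro y0 hy0
      by_contra hne
      simp only [Set.mem_ofPred_eq] at hne
      obtain ⟨z, hz, hz2⟩ := exists_near (hR.fin.union hB.fin) y0
      refine not_mem_tg hNoChm hR.dim hR.sph hR.fin hI x z (fun a ha => hz a (Or.inl ha))
        (hinv y0 z ?_ hy0)
      rintro a ⟨ha, hax⟩
      rw [hmul a ha hax y0, hmul a ha hax z, sign_mul, sign_mul, hz2 b (Or.inr hb) hne]
    · intro y0 hy0
      simp only [Set.mem_ofPred_eq] at hy0
      refine hinv 0 y0 ?_ h0T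
      rintro a ⟨ha, hax⟩
      rw [hker2 a ha hax y0 hy0, map_zero]
  refine ⟨b, hb, hb0, hbx, hTg, ⟨y', hby', hgy'.ne'⟩, ⟨x1, hb1, hg1, h1w⟩, ?_⟩
  have hloc := hR.loc x hxT hx0
  rw [hTg] at hloc ⊢
  exact sides_hyp b hb0 _ _ hloc

end Pool.Agent.Work.MP_552024_lc.PLS
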