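import Pool.Agent.Work.MP_552024_lc.PLS.S4

set_option autoImplicit false

namespace Pool.Agent.Work.MP_552024_lc.PLS

namespace ACV

variable {E : Type} [AddCommGroup E] [Module ℚ E]
variable {ι : Type} [Fintype ι] [Nonempty ι]

theorem mem_KC (h : ι → E →ₗ[ℚ] ℚ) {p : E} (hp : p ∈ KO h) {x : E} :
    x ∈ KC h ↔ 0 ≤ rad h p x := by
  constructor
  · exact (radial_KC h hp).nonneg x
  · intro hx i
    exact le_trans (mul_nonneg hx (hp i).le) (rad_le h hp x i)

theorem pol_neg (h : ι → E →ₗ[ℚ] ℚ) {p : E} (hp : p ∈ KO h) : Pol {x : E | rad h p x ≤ 0} := by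
  have e : {x : E | rad h p x ≤ 0} = ⋃ i, {x | 0 ≤ (-h i) x} := by
    ext x
    rw [Set.mem_iUnion]
    constructor
    · intro hx
      have hx' : rad h p x ≤ 0 := hx
      obtain ⟨i, hi⟩ := exists_rad_eq h hp x
      refine ⟨i, ?_⟩
      show 0 ≤ (-h i) x
      rw [LinearMap.neg_apply, ← hi]
      have := mul_nonneg (neg_nonneg.2 hx') (hp i).le
      linarith
    · rintro ⟨i, hi⟩
      have hi' : 0 ≤ (-h i) x := hi
      rw [LinearMap.neg_apply] at hi'
      have h1 := rad_le h hp x i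
      show rad h p x ≤ 0
      by_contra hc
      have := mul_pos (not_le.1 hc) (hp i)
      linarith
  rw [e]
  exact pol_iUnion fun i => pol_halfspace _

theorem m_rho (h : ι → E →ₗ[ℚ] ℚ) {p : E} (hp : p ∈ KO h) (x : E) :
    rad h p (x + (-2 * rad h p x) • p) = - rad h p x := by
  rw [rad_add h hp]; ring

theorem rho_rho (h : ι → E →ₗ[ℚ] ℚ) {p : E} (hp : p ∈ KO h) (x : E) :
    x + (-2 * rad h p x) • p + (-2 * rad h p (x + (-2 * rad h p x) • p)) • p = x := by
  rw [m_rho h hp, add_assoc, ← add_smul]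
  have : -2 * rad h p x + -2 * -rad h p x = 0 := by ring
  rw [this, zero_smul, add_zero]

theorem pl_rho (h : ι → E →ₗ[ℚ] ℚ) (p : E) (S : Set E) :
    PLOn (fun x => x + (-2 * rad h p x) • p) S := by
  have h1 : PLOn (fun x => -2 * rad h p x) S := (plOn_rad h p S).smul (-2)
  exact (plOn_id S).add (h1.lin (LinearMap.toSpanSingleton ℚ E p))

theorem ball_neg {k : ℕ} (h : ι → E →ₗ[ℚ] ℚ) {p : E} (hp : p ∈ KO h)
    (hB : Ball k (KC h) (KD h)) : Ball k {x : E | rad h p x ≤ 0} (KD h) := by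
  have hz : ∀ x ∈ KD h, rad h p x = 0 := fun x hx =>
    (rad_zero_iff h hp ((radial_KC h hp).subset hx)).1 hx
  refine hB.transport (pol_neg h hp) (F := fun x => x + (-2 * rad h p x) • p)
    (G := fun x => x + (-2 * rad h p x) • p)
    ⟨pl_rho h p _, pl_rho h p _, ?_, ?_, fun x _ => rho_rho h hp x, fun x _ => rho_rho h hp x⟩
    ?_ ?_
  · intro x hx
    show rad h p (x + (-2 * rad h p x) • p) ≤ 0
    rw [m_rho h hp]
    have := (mem_KC h hp).1 hx
    linarith
  · intro x hx
    have hx' : rad h p x ≤ 0 := hx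
    rw [mem_KC h hp, m_rho h hp]
    linarith
  · intro x hx
    exact (hz x hx).le
  · intro x hx
    constructor
    · intro hd
      show x + (-2 * rad h p x) • p ∈ KD h
      rw [hz x hd, mul_zero, zero_smul, add_zero]
      exact hd
    · intro hd
      have h1 := hz _ hd
      have h2 : rad h p (x + (-2 * rad h p x) • p) = 0 := h1
      rw [m_rho h hp] at h2
      rw [rad_zero_iff h hp hx]
      linarith

end ACV

theorem I_CV : St_CV := by
  intro n E _ _ _ ι _ _ h hn hO hK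
  obtain ⟨p, hp⟩ := hO
  have hB := coneBall n E ι h hn ⟨p, hp⟩ hK
  refine ⟨KC h, {x : E | rad h p x ≤ 0}, ?_, ?_, hB, ACV.ball_neg h hp hB⟩
  · ext x
    simp only [Set.mem_union, Set.mem_univ, iff_true]
    rcases le_total 0 (rad h p x) with h1 | h1
    · exact Or.inl ((ACV.mem_KC h hp).2 h1)
    · exact Or.inr h1
  · ext x
    constructor
    · rintro ⟨h1, h2⟩
      have h2' : rad h p x ≤ 0 := h2
      exact (rad_zero_iff h hp h1).2 (le_antisymm h2' ((ACV.mem_KC h hp).1 h1))
    · intro hx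
      have h1 : x ∈ KC h := (radial_KC h hp).subset hx
      exact ⟨h1, ((rad_zero_iff h hp h1).1 hx).le⟩

end Pool.Agent.Work.MP_552024_lc.PLS
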