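import Pool.Agent.Work.MP_552024_lc.PLS.S4

/-!
MP_552024_lc, PL Schoenflies theorem in dimension 4: item Chord.
-/

set_option autoImplicit false

namespace Pool.Agent.Work.MP_552024_lc.PLS

open SignType

namespace AChord

variable {E : Type*} [AddCommGroup E] [Module ℚ E]

theorem clA_compl {A : Set (E →ₗ[ℚ] ℚ)} {K : Set E} (hinv : InvA A K) (hcl : Pol Kᶜ) :
    ClA A Kᶜ := by
  intro y hy x hx
  have h : x ∈ cl Kᶜ :=
    Or.inr ⟨y, hy, fun t h0 h1 => hinv.compl _ _ (sameSign_segment hx h0 h1).symm hy⟩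
  rwa [hcl.cl_eq] at h

theorem exit_pt {A : Set (E →ₗ[ℚ] ℚ)} (hA : A.Finite) {K : Set E} (hinv : InvA A K)
    (hcl : Pol Kᶜ) {x₀ m : E} (hx : x₀ ∈ K) {s₁ : ℚ} (hs₁ : 0 < s₁) (h1 : x₀ + s₁ • m ∉ K) :
    ∃ s : ℚ, 0 < s ∧ x₀ + s • m ∉ K ∧ (∀ r, 0 ≤ r → r < s → x₀ + r • m ∈ K) ∧
      ∃ b ∈ A, b m ≠ 0 ∧ b x₀ + s * b m = 0 := by
  classical
  let crit : Finset ℚ := hA.toFinset.image (fun b => -(b x₀) / (b m))
  have key : ∀ s : ℚ, 0 < s → x₀ + s • m ∉ K →
      ∃ r ∈ crit, 0 < r ∧ r ≤ s ∧ x₀ + r • m ∉ K := by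
    intro s hs hsK
    by_cases hc : s ∈ crit
    · exact ⟨s, hc, hs, le_rfl, hsK⟩
    let G : Finset ℚ := insert 0 (crit.filter (fun r => 0 ≤ r ∧ r < s))
    have hG0 : (0 : ℚ) ∈ G := Finset.mem_insert_self _ _
    obtain ⟨s', hs'⟩ : ∃ s', s' = G.max' ⟨0, hG0⟩ := ⟨_, rfl⟩
    have hs'mem : s' ∈ G := by rw [hs']; exact Finset.max'_mem _ _
    have hs'0 : 0 ≤ s' := by rw [hs']; exact Finset.le_max' _ _ hG0
    have hs's : s' < s := by
      rcases Finset.mem_insert.1 hs'mem with h | h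
      · rw [h]; exact hs
      · exact (Finset.mem_filter.1 h).2.2
    have hmax : ∀ r ∈ crit, 0 ≤ r → r < s → r ≤ s' := by
      intro r hr h0 h2
      rw [hs']
      exact Finset.le_max' _ _ (Finset.mem_insert_of_mem (Finset.mem_filter.2 ⟨hr, h0, h2⟩))
    have hface : x₀ + s' • m ∈ face A (x₀ + s • m) := by
      intro b hb
      have e : ∀ r : ℚ, b (x₀ + r • m) = b x₀ + r * b m := by
        intro r; rw [map_add, map_smul, smul_eq_mul]
      rw [e, e]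
      by_cases h0 : b x₀ + s' * b m = 0
      · exact Or.inl h0
      right
      by_cases hm : b m = 0
      · rw [hm, mul_zero, mul_zero]
      · have hcr : -(b x₀) / (b m) ∈ crit :=
          Finset.mem_image.2 ⟨b, hA.mem_toFinset.2 hb, rfl⟩
        obtain ⟨ρ, hρ⟩ : ∃ ρ, ρ = -(b x₀) / (b m) := ⟨_, rfl⟩
        rw [← hρ] at hcr
        have hρ2 : b x₀ = -(ρ * b m) := by rw [hρ]; field_simp
        have e2 : ∀ r : ℚ, b x₀ + r * b m = (r - ρ) * b m := by
          intro r; rw [hρ2]; ring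
        rw [e2] at h0
        rw [e2, e2, sign_mul, sign_mul]
        have hne : s' - ρ ≠ 0 := fun h => h0 (by rw [h, zero_mul])
        have hsρ : s ≠ ρ := fun h => hc (by rw [h]; exact hcr)
        congr 1
        rcases lt_or_gt_of_ne hne with h2 | h2
        · have h3 : s < ρ := by
            by_contra h4
            have h5 : ρ < s := lt_of_le_of_ne (not_lt.1 h4) (Ne.symm hsρ)
            have := hmax ρ hcr (by linarith) h5
            linarith
          rw [sign_neg h2, sign_neg (by linarith)]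
        · rw [sign_pos h2, sign_pos (by linarith)]
    have hK' : x₀ + s' • m ∉ K := clA_compl hinv hcl _ hsK hface
    have hpos : 0 < s' := by
      rcases hs'0.lt_or_eq with h | h
      · exact h
      · exfalso
        rw [← h, zero_smul, add_zero] at hK'
        exact hK' hx
    rcases Finset.mem_insert.1 hs'mem with h | h
    · exact absurd h hpos.ne'
    · exact ⟨s', (Finset.mem_filter.1 h).1, hpos, hs's.le, hK'⟩
  let F : Finset ℚ := crit.filter (fun r => 0 < r ∧ x₀ + r • m ∉ K)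
  have hF : F.Nonempty := by
    obtain ⟨r, hr, h2, _, h4⟩ := key s₁ hs₁ h1
    exact ⟨r, Finset.mem_filter.2 ⟨hr, h2, h4⟩⟩
  obtain ⟨s, hs⟩ : ∃ s, s = F.min' hF := ⟨_, rfl⟩
  have hsF : s ∈ F := by rw [hs]; exact Finset.min'_mem _ _
  obtain ⟨hsc, hs0, hsK⟩ := Finset.mem_filter.1 hsF
  refine ⟨s, hs0, hsK, ?_, ?_⟩
  · intro r hr0 hrs
    by_contra hrK
    have hr : 0 < r := by
      rcases hr0.lt_or_eq with h | h
      · exact h
      · exfalso
        rw [← h, zero_smul, add_zero] at hrK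
        exact hrK hx
    obtain ⟨r', hr', h2, h3, h4⟩ := key r hr hrK
    have h5 : s ≤ r' := by
      rw [hs]; exact Finset.min'_le _ _ (Finset.mem_filter.2 ⟨hr', h2, h4⟩)
    linarith
  · obtain ⟨b, hb, hbs⟩ := Finset.mem_image.1 hsc
    have hm : b m ≠ 0 := by
      intro h
      rw [h, div_zero] at hbs
      linarith
    refine ⟨b, hA.mem_toFinset.1 hb, hm, ?_⟩
    rw [← hbs]
    field_simp
    ring

theorem face_sgn {A : Set (E →ₗ[ℚ] ℚ)} {f : E →ₗ[ℚ] ℚ} (hf : f ∈ A ∨ -f ∈ A) {x y : E}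
    (h : x ∈ face A y) : f x = 0 ∨ sign (f x) = sign (f y) := by
  rcases hf with hf | hf
  · exact h f hf
  · rcases h _ hf with h1 | h1
    · left
      rw [LinearMap.neg_apply, neg_eq_zero] at h1
      exact h1
    · right
      rw [LinearMap.neg_apply, LinearMap.neg_apply, Left.sign_neg, Left.sign_neg, neg_inj] at h1
      exact h1

theorem ss_sgn {A : Set (E →ₗ[ℚ] ℚ)} {f : E →ₗ[ℚ] ℚ} (hf : f ∈ A ∨ -f ∈ A) {x y : E}
    (h : SameSign A x y) : sign (f x) = sign (f y) := by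
  rcases hf with hf | hf
  · exact h f hf
  · have h1 := h _ hf
    rw [LinearMap.neg_apply, LinearMap.neg_apply, Left.sign_neg, Left.sign_neg, neg_inj] at h1
    exact h1

theorem ss_pos {A : Set (E →ₗ[ℚ] ℚ)} {f : E →ₗ[ℚ] ℚ} (hf : f ∈ A ∨ -f ∈ A) {x y : E}
    (h : SameSign A x y) : 0 < f x ↔ 0 < f y := by
  rw [← sign_eq_one_iff, ss_sgn hf h, sign_eq_one_iff]

theorem ss_zero {A : Set (E →ₗ[ℚ] ℚ)} {f : E →ₗ[ℚ] ℚ} (hf : f ∈ A ∨ -f ∈ A) {x y : E}
    (h : SameSign A x y) : f x = 0 ↔ f y = 0 := by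
  rw [← sign_eq_zero_iff, ss_sgn hf h, sign_eq_zero_iff]

theorem face_nonneg {A : Set (E →ₗ[ℚ] ℚ)} {f : E →ₗ[ℚ] ℚ} (hf : f ∈ A ∨ -f ∈ A) {x y : E}
    (h : x ∈ face A y) (hy : 0 ≤ f y) : 0 ≤ f x := by
  rcases face_sgn hf h with h1 | h1
  · exact h1.ge
  · rcases hy.lt_or_eq with h2 | h2
    · rw [sign_pos h2, sign_eq_one_iff] at h1
      exact h1.le
    · rw [← h2, sign_zero, sign_eq_zero_iff] at h1
      exact h1.ge

theorem face_zero {A : Set (E →ₗ[ℚ] ℚ)} {f : E →ₗ[ℚ] ℚ} (hf : f ∈ A ∨ -f ∈ A) {x y : E}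
    (h : x ∈ face A y) (hy : f y = 0) : f x = 0 := by
  rcases face_sgn hf h with h1 | h1
  · exact h1
  · rw [hy, sign_zero, sign_eq_zero_iff] at h1
    exact h1

theorem exists_sgn {A : Set (E →ₗ[ℚ] ℚ)} {b : E →ₗ[ℚ] ℚ} (hb : b ∈ A) {x₀ m : E} {s : ℚ}
    (hs : 0 < s) (hm : b m ≠ 0) (h : b x₀ + s * b m = 0) :
    ∃ f : E →ₗ[ℚ] ℚ, (f ∈ A ∨ -f ∈ A) ∧ 0 < f x₀ ∧ f x₀ + s * f m = 0 := by
  have h0 : b x₀ ≠ 0 := by
    intro h0
    rw [h0, zero_add] at h
    rcases mul_eq_zero.1 h with h1 | h1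
    · exact hs.ne' h1
    · exact hm h1
  rcases lt_or_gt_of_ne h0 with h1 | h1
  · refine ⟨-b, Or.inr (by rwa [neg_neg]), ?_, ?_⟩
    · rw [LinearMap.neg_apply]; linarith
    · rw [LinearMap.neg_apply, LinearMap.neg_apply]; linarith
  · exact ⟨b, Or.inl hb, h1, h⟩

/-- three forms whose common kernel is a line -/
theorem line_ker [FiniteDimensional ℚ E] (hE : Module.finrank ℚ E = 4) (a u v : E →ₗ[ℚ] ℚ)
    (ha : a ≠ 0) {x₀ y : E} {t₀ t₁ : ℚ} (hax : a x₀ = 0) (hay : a y = 0) (hux : 0 < u x₀)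
    (huy : 0 < u y) (hvx : v x₀ = t₀ * u x₀) (hvy : v y = t₁ * u y) (ht : t₁ < t₀) :
    ∃ m : E, m ≠ 0 ∧ a m = 0 ∧ u m = 0 ∧ v m = 0 ∧
      ∀ x, a x = 0 → u x = 0 → v x = 0 → ∃ k : ℚ, x = k • m := by
  obtain ⟨w, hw⟩ : ∃ w, a w ≠ 0 := by
    by_contra h
    push Not at h
    exact ha (LinearMap.ext h)
  let L : E →ₗ[ℚ] ℚ × ℚ × ℚ := a.prod (u.prod v)
  have hL : ∀ x, L x = (a x, u x, v x) := fun x => rfl
  have hsurj : Function.Surjective L := by
    rintro ⟨α, β, γ⟩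
    have hd : t₀ - t₁ ≠ 0 := (sub_pos.2 ht).ne'
    refine ⟨(α / a w) • w +
      ((((γ - α / a w * v w) - t₁ * (β - α / a w * u w)) / (t₀ - t₁)) / u x₀) • x₀ +
      (((t₀ * (β - α / a w * u w) - (γ - α / a w * v w)) / (t₀ - t₁)) / u y) • y, ?_⟩
    rw [hL]
    simp only [map_add, map_smul, smul_eq_mul, hax, hay, hvx, hvy, mul_zero, add_zero]
    refine Prod.ext ?_ (Prod.ext ?_ ?_)
    · show α / a w * a w = α
      field_simp
    · show α / a w * u w + _ / u x₀ * u x₀ + _ / u y * u y = β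
      rw [div_mul_cancel₀ _ hux.ne', div_mul_cancel₀ _ huy.ne']
      field_simp
      ring
    · show α / a w * v w + _ / u x₀ * (t₀ * u x₀) + _ / u y * (t₁ * u y) = γ
      have e1 : ∀ q : ℚ, q / u x₀ * (t₀ * u x₀) = q * t₀ := by
        intro q; field_simp
      have e2 : ∀ q : ℚ, q / u y * (t₁ * u y) = q * t₁ := by
        intro q; field_simp
      rw [e1, e2]
      field_simp
      ring
  have hker : Module.finrank ℚ (LinearMap.ker L) = 1 := by
    have h1 := LinearMap.finrank_range_add_finrank_ker L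
    rw [LinearMap.range_eq_top.2 hsurj, finrank_top, hE] at h1
    have h2 : Module.finrank ℚ (ℚ × ℚ × ℚ) = 3 := by
      rw [Module.finrank_prod, Module.finrank_prod, Module.finrank_self]
    omega
  obtain ⟨⟨m, hm⟩, hm0, hspan⟩ := finrank_eq_one_iff'.1 hker
  have hm' : L m = 0 := LinearMap.mem_ker.1 hm
  rw [hL] at hm'
  have h1 : a m = 0 := congrArg Prod.fst hm'
  have h2 : u m = 0 := congrArg (fun p => p.2.1) hm'
  have h3 : v m = 0 := congrArg (fun p => p.2.2) hm'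
  refine ⟨m, fun h => hm0 (Subtype.ext h), h1, h2, h3, ?_⟩
  intro x hx1 hx2 hx3
  obtain ⟨k, hk⟩ := hspan ⟨x, LinearMap.mem_ker.2 (by rw [hL, hx1, hx2, hx3]; rfl)⟩
  exact ⟨k, (congrArg Subtype.val hk).symm⟩

end AChord

open AChord in
theorem I_Chord (hGap : St_Gap) (hSecB : St_SecB) (hBdSph : St_BdSph) : St_Chord := by
  intro E _ _ _ A u v l c K x₀ a hE H hx₀ ha hax
  obtain ⟨hfin, hspn, hne, hlc, hlow, hup, hinv, hopn, -, hslab, hbdd, -, hnoray⟩ := H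
  have hcon : Con K := hinv.con hfin
  have hu : ∀ x, 0 < (v - l • u) x → 0 < (c • u - v) x → 0 < u x := by
    intro x h1 h2
    simp only [LinearMap.sub_apply, LinearMap.smul_apply, smul_eq_mul] at h1 h2
    have h3 : 0 < (c - l) * u x := by linarith
    exact (mul_pos_iff_of_pos_left (sub_pos.2 hlc)).1 h3
  have hx1 := (hslab x₀ hx₀).1
  have hx2 := (hslab x₀ hx₀).2
  have hux : 0 < u x₀ := hu x₀ hx1 hx2
  obtain ⟨t₀, ht₀⟩ : ∃ t₀, t₀ = v x₀ / u x₀ := ⟨_, rfl⟩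
  have hvx : v x₀ = t₀ * u x₀ := by rw [ht₀]; field_simp
  have hlt : l < t₀ := by
    rw [ht₀, lt_div_iff₀ hux]
    simp only [LinearMap.sub_apply, LinearMap.smul_apply, smul_eq_mul] at hx1
    linarith
  have htc : t₀ < c := by
    rw [ht₀, div_lt_iff₀ hux]
    simp only [LinearMap.sub_apply, LinearMap.smul_apply, smul_eq_mul] at hx2
    linarith
  -- another level
  obtain ⟨t₁, ht1a, ht1b⟩ := exists_between hlt
  obtain ⟨y, hy, hvy⟩ := hGap E A u v l c t₁ x₀ hfin hspn ht1a (ht1b.trans htc) hlow hup hnoray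
    hx1 hx2
  have hyK : y ∈ K := hinv _ _ hy.symm hx₀
  have huy : 0 < u y := hu y (hslab y hyK).1 (hslab y hyK).2
  have hay : a y = 0 := (ss_zero (Or.inl ha) hy).2 hax
  obtain ⟨m, hm0, ham, hum, hvm, hspan⟩ :=
    line_ker hE a u v (hne a ha) hax hay hux huy hvx hvy ht1b
  -- the two exits
  have hg : ∀ m' : E, m' ≠ 0 → u m' = 0 → ∃ s₁ : ℚ, 0 < s₁ ∧ x₀ + s₁ • m' ∉ K := by
    intro m' hm' hum'
    obtain ⟨ε, hε, hF⟩ := mem_face_small hfin m' x₀
    refine ⟨1 / ε, by positivity, fun hK => ?_⟩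
    have h1 : m' + ε • x₀ ∈ K := by
      have h2 := (inv_smul hcon (x₀ + (1 / ε) • m') hε).2 hK
      have e : ε • (x₀ + (1 / ε) • m') = m' + ε • x₀ := by
        rw [smul_add, smul_smul, mul_one_div_cancel hε.ne', one_smul, add_comm]
      rwa [e] at h2
    have h2 : m' ∈ cl K := (mem_cl_iff hfin hinv m').2 (Or.inr ⟨_, h1, hF ε hε le_rfl⟩)
    have := hbdd m' h2 hm'
    linarith
  obtain ⟨s₁, hs₁, hs₁K⟩ := hg m hm0 hum
  obtain ⟨s₂, hs₂, hs₂K⟩ := hg (-m) (neg_ne_zero.2 hm0) (by rw [map_neg, hum, neg_zero])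
  obtain ⟨s, hs, hsK, hsin, b₁, hb₁, hb₁m, hb₁p⟩ := exit_pt hfin hinv hopn hx₀ hs₁ hs₁K
  obtain ⟨r, hr, hrK, hrin, b₂, hb₂, hb₂m, hb₂p⟩ := exit_pt hfin hinv hopn hx₀ hs₂ hs₂K
  obtain ⟨a₁, ha₁A, ha₁x, ha₁p⟩ := exists_sgn hb₁ hs hb₁m hb₁p
  obtain ⟨a₂, ha₂A, ha₂x, ha₂p⟩ := exists_sgn hb₂ hr hb₂m hb₂p
  rw [map_neg] at ha₂p
  have hin : ∀ q : ℚ, -r < q → q < s → x₀ + q • m ∈ K := by
    intro q h1 h2
    rcases le_or_gt 0 q with h3 | h3
    · exact hsin q h3 h2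
    · have h4 := hrin (-q) (by linarith) (by linarith)
      rwa [smul_neg, neg_smul, neg_neg] at h4
  -- decomposition
  have hdec : ∀ z : E, a z = 0 → v z = t₀ * u z → 0 < u z →
      ∃ α β : ℚ, 0 < α ∧ z = α • x₀ + β • m := by
    intro z h1 h2 h3
    obtain ⟨β, hβ⟩ := hspan (z - (u z / u x₀) • x₀)
      (by rw [map_sub, map_smul, hax, h1, smul_zero, sub_zero])
      (by rw [map_sub, map_smul, smul_eq_mul, div_mul_cancel₀ _ hux.ne', sub_self])
      (by rw [map_sub, map_smul, smul_eq_mul, h2, hvx]; field_simp; ring)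
    refine ⟨u z / u x₀, β, div_pos h3 hux, ?_⟩
    rw [← hβ]; abel
  let hh : Fin 4 → E →ₗ[ℚ] ℚ := ![a₁, a₂, v - l • u, c • u - v]
  have hall : ∀ P : (E →ₗ[ℚ] ℚ) → Prop, (∀ i, P (hh i)) ↔
      (P a₁ ∧ P a₂ ∧ P (v - l • u) ∧ P (c • u - v)) := by
    intro P
    constructor
    · intro h; exact ⟨h 0, h 1, h 2, h 3⟩
    · rintro ⟨h0, h1, h2, h3⟩ i
      fin_cases i
      · exact h0
      · exact h1
      · exact h2
      · exact h3
  have hex : ∀ P : (E →ₗ[ℚ] ℚ) → Prop, (∃ i, P (hh i)) ↔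
      (P a₁ ∨ P a₂ ∨ P (v - l • u) ∨ P (c • u - v)) := by
    intro P
    constructor
    · rintro ⟨i, h⟩
      fin_cases i
      · exact Or.inl h
      · exact Or.inr (Or.inl h)
      · exact Or.inr (Or.inr (Or.inl h))
      · exact Or.inr (Or.inr (Or.inr h))
    · rintro (h | h | h | h)
      · exact ⟨0, h⟩
      · exact ⟨1, h⟩
      · exact ⟨2, h⟩
      · exact ⟨3, h⟩
  have hKO : x₀ ∈ KO hh := (hall (fun f => 0 < f x₀)).2 ⟨ha₁x, ha₂x, hx1, hx2⟩
  have hball : Ball 3 (KC hh ∩ {x | a x = 0}) (KD hh ∩ {x | a x = 0}) := by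
    refine hSecB 2 E (Fin 4) hh a x₀ hE (hne a ha) hax hKO ?_
    intro x hx h
    obtain ⟨h1, _, h3, h4⟩ := (hall (fun f => f x = 0)).1 h
    simp only [LinearMap.sub_apply, LinearMap.smul_apply, smul_eq_mul] at h3 h4
    have h5 : (c - l) * u x = 0 := by linarith
    have h6 : u x = 0 := (mul_eq_zero.1 h5).resolve_left (sub_pos.2 hlc).ne'
    have h7 : v x = 0 := by rw [h6] at h3; linarith
    obtain ⟨k, hk⟩ := hspan x hx h6 h7
    rw [hk, map_smul, smul_eq_mul] at h1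
    have h8 : a₁ m ≠ 0 := by
      intro h8
      rw [h8] at ha₁p
      linarith
    rw [hk, (mul_eq_zero.1 h1).resolve_right h8, zero_smul]
  -- the open part is in K
  have hR : ∀ z, a z = 0 → 0 < a₁ z → 0 < a₂ z → 0 < (v - l • u) z → 0 < (c • u - v) z →
      z ∈ K := by
    intro z h0 h1 h2 h3 h4
    obtain ⟨z', hz', hvz⟩ := hGap E A u v l c t₀ z hfin hspn hlt htc hlow hup hnoray h3 h4
    have k0 : a z' = 0 := (ss_zero (Or.inl ha) hz').2 h0
    have k1 : 0 < a₁ z' := (ss_pos ha₁A hz').2 h1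
    have k2 : 0 < a₂ z' := (ss_pos ha₂A hz').2 h2
    have k5 : 0 < u z' := hu z' ((ss_pos (Or.inl hlow) hz').2 h3) ((ss_pos (Or.inl hup) hz').2 h4)
    obtain ⟨α, β, hα, e⟩ := hdec z' k0 hvz k5
    have e2 : z' = α • (x₀ + (β / α) • m) := by
      rw [smul_add, smul_smul, mul_div_cancel₀ _ hα.ne', e]
    have h5 : β / α < s := by
      rw [div_lt_iff₀ hα]
      rw [e, map_add, map_smul, map_smul, smul_eq_mul, smul_eq_mul] at k1
      by_contra h6
      push Not at h6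
      have h7 : a₁ m < 0 := by
        by_contra h8
        push Not at h8
        have : 0 ≤ s * a₁ m := mul_nonneg hs.le h8
        linarith
      have h8 : β * a₁ m ≤ s * α * a₁ m := mul_le_mul_of_nonpos_right h6 h7.le
      have h9 : a₁ x₀ = -(s * a₁ m) := by linarith
      rw [h9] at k1
      nlinarith
    have h6 : -r < β / α := by
      rw [lt_div_iff₀ hα]
      rw [e, map_add, map_smul, map_smul, smul_eq_mul, smul_eq_mul] at k2
      by_contra h6
      push Not at h6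
      have h7 : 0 < a₂ m := by
        by_contra h8
        push Not at h8
        have : 0 ≤ r * -a₂ m := mul_nonneg hr.le (by linarith)
        linarith
      have h8 : β * a₂ m ≤ -r * α * a₂ m := mul_le_mul_of_nonneg_right h6 h7.le
      have h9 : a₂ x₀ = r * a₂ m := by linarith
      rw [h9] at k2
      nlinarith
    have h7 : z' ∈ K := by
      rw [e2]
      exact (inv_smul hcon _ hα).2 (hin _ h6 h5)
    exact hinv _ _ hz' h7
  have hmemD : ∀ x, x ∈ KC hh ∩ {x | a x = 0} ↔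
      ((0 ≤ a₁ x ∧ 0 ≤ a₂ x ∧ 0 ≤ (v - l • u) x ∧ 0 ≤ (c • u - v) x) ∧ a x = 0) := by
    intro x
    exact and_congr (hall (fun f => 0 ≤ f x)) Iff.rfl
  have hmemC : ∀ x, x ∈ KD hh ∩ {x | a x = 0} ↔
      (((0 ≤ a₁ x ∧ 0 ≤ a₂ x ∧ 0 ≤ (v - l • u) x ∧ 0 ≤ (c • u - v) x) ∧
        (a₁ x = 0 ∨ a₂ x = 0 ∨ (v - l • u) x = 0 ∨ (c • u - v) x = 0)) ∧ a x = 0) := by
    intro x
    exact and_congr (and_congr (hall (fun f => 0 ≤ f x)) (hex (fun f => f x = 0))) Iff.rfl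
  -- D minus C
  have hDC : ∀ x, x ∈ KC hh ∩ {x | a x = 0} → x ∉ KD hh ∩ {x | a x = 0} → x ∈ K := by
    intro x h1 h2
    rw [hmemD] at h1
    rw [hmemC] at h2
    obtain ⟨⟨k1, k2, k3, k4⟩, k0⟩ := h1
    have h3 : ¬ (a₁ x = 0 ∨ a₂ x = 0 ∨ (v - l • u) x = 0 ∨ (c • u - v) x = 0) :=
      fun h => h2 ⟨⟨⟨k1, k2, k3, k4⟩, h⟩, k0⟩
    rw [not_or, not_or, not_or] at h3
    exact hR x k0 (lt_of_le_of_ne k1 (Ne.symm h3.1)) (lt_of_le_of_ne k2 (Ne.symm h3.2.1))
      (lt_of_le_of_ne k3 (Ne.symm h3.2.2.1)) (lt_of_le_of_ne k4 (Ne.symm h3.2.2.2))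
  -- C is in the boundary
  have hCT : ∀ x, x ∈ KD hh ∩ {x | a x = 0} → x ∈ cl K \ K := by
    intro x hx
    rw [hmemC] at hx
    obtain ⟨⟨⟨k1, k2, k3, k4⟩, k5⟩, k0⟩ := hx
    refine ⟨Or.inr ⟨x₀, hx₀, ?_⟩, ?_⟩
    · intro t h0 h1
      have e : ∀ f : E →ₗ[ℚ] ℚ, f (x + t • (x₀ - x)) = (1 - t) * f x + t * f x₀ := by
        intro f; simp only [map_add, map_smul, map_sub, smul_eq_mul]; ring
      have e2 : ∀ f : E →ₗ[ℚ] ℚ, 0 ≤ f x → 0 < f x₀ → 0 < f (x + t • (x₀ - x)) := by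
        intro f h2 h3
        rw [e]
        have h4 : 0 ≤ (1 - t) * f x := mul_nonneg (by linarith) h2
        have h5 : 0 < t * f x₀ := mul_pos h0 h3
        linarith
      exact hR _ (by rw [e, k0, hax]; ring) (e2 _ k1 ha₁x) (e2 _ k2 ha₂x) (e2 _ k3 hx1)
        (e2 _ k4 hx2)
    · intro hxK
      obtain ⟨h3, h4⟩ := hslab x hxK
      obtain ⟨z', hz', hvz⟩ := hGap E A u v l c t₀ x hfin hspn hlt htc hlow hup hnoray h3 h4
      have hz'K : z' ∈ K := hinv _ _ hz'.symm hxK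
      have l0 : a z' = 0 := (ss_zero (Or.inl ha) hz').2 k0
      have l5 : 0 < u z' := hu z' (hslab z' hz'K).1 (hslab z' hz'K).2
      obtain ⟨α, β, hα, e⟩ := hdec z' l0 hvz l5
      rcases k5 with k5 | k5 | k5 | k5
      · have l1 : a₁ z' = 0 := (ss_zero ha₁A hz').2 k5
        rw [e, map_add, map_smul, map_smul, smul_eq_mul, smul_eq_mul] at l1
        have h9 : a₁ x₀ = -(s * a₁ m) := by linarith
        have h10 : a₁ m ≠ 0 := by
          intro h8
          rw [h8] at ha₁p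
          linarith
        have h11 : (β - α * s) * a₁ m = 0 := by rw [h9] at l1; linarith
        have h12 : β = α * s := by
          have := (mul_eq_zero.1 h11).resolve_right h10
          linarith
        rw [e, h12, mul_smul, ← smul_add] at hz'K
        exact hsK ((inv_smul hcon _ hα).1 hz'K)
      · have l1 : a₂ z' = 0 := (ss_zero ha₂A hz').2 k5
        rw [e, map_add, map_smul, map_smul, smul_eq_mul, smul_eq_mul] at l1
        have h9 : a₂ x₀ = r * a₂ m := by linarith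
        have h10 : a₂ m ≠ 0 := by
          intro h8
          rw [h8] at ha₂p
          linarith
        have h11 : (β + α * r) * a₂ m = 0 := by rw [h9] at l1; linarith
        have h12 : β = α * -r := by
          have := (mul_eq_zero.1 h11).resolve_right h10
          linarith
        rw [e, h12, mul_smul, ← smul_add, neg_smul, ← smul_neg] at hz'K
        exact hrK ((inv_smul hcon _ hα).1 hz'K)
      · exact absurd k5 h3.ne'
      · exact absurd k5 h4.ne'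
  refine ⟨KC hh ∩ {x | a x = 0}, KD hh ∩ {x | a x = 0}, hball, hBdSph 1 E _ _ hball, ?_, ?_, ?_⟩
  · ext x
    constructor
    · rintro ⟨h1, h2⟩
      by_contra h3
      exact h2.2 (hDC x h1 h3)
    · intro h
      refine ⟨?_, hCT x h⟩
      rw [hmemC] at h
      rw [hmemD]
      exact ⟨h.1.1, h.2⟩
  · rintro x ⟨h1, h2⟩
    exact hDC x h1 h2
  · intro y hy x hx
    rw [hmemD] at hy ⊢
    obtain ⟨⟨k1, k2, k3, k4⟩, k0⟩ := hy
    exact ⟨⟨face_nonneg ha₁A hx k1, face_nonneg ha₂A hx k2, face_nonneg (Or.inl hlow) hx k3,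
      face_nonneg (Or.inl hup) hx k4⟩, face_zero (Or.inl ha) hx k0⟩

end Pool.Agent.Work.MP_552024_lc.PLS
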