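import Pool.Agent.Work.MP_552024_lc.PLS.S4

set_option autoImplicit false

/-! A regular set is a union of circles. -/

namespace Pool.Agent.Work.MP_552024_lc.PLS

namespace ACirc

variable {E : Type} [AddCommGroup E] [Module ℚ E]

/-- The cone over an edge. -/
def cone2 (r s : E) : Set E := {x | ∃ c d : ℚ, 0 ≤ c ∧ 0 ≤ d ∧ x = c • r + d • s}

/-- A half plane. -/
def HP (x p : E) : Set E := {v | ∃ a c : ℚ, 0 ≤ c ∧ v = a • x + c • p}

/-- `p` is not a multiple of `x`. -/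
def NM (x p : E) : Prop := ¬ ∃ a : ℚ, p = a • x

theorem cone2_comm (r s : E) : cone2 r s = cone2 s r := by
  ext x; constructor
  · rintro ⟨c, d, hc, hd, rfl⟩; exact ⟨d, c, hd, hc, add_comm _ _⟩
  · rintro ⟨c, d, hc, hd, rfl⟩; exact ⟨d, c, hd, hc, add_comm _ _⟩

theorem cone2_scale {r s : E} {k : ℚ} (hk : 0 < k) : cone2 (k • r) s = cone2 r s := by
  ext x; constructor
  · rintro ⟨c, d, hc, hd, rfl⟩
    exact ⟨c * k, d, by positivity, hd, by rw [mul_smul]⟩
  · rintro ⟨c, d, hc, hd, rfl⟩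
    refine ⟨c / k, d, by positivity, hd, ?_⟩
    rw [← mul_smul, div_mul_cancel₀ _ hk.ne']

theorem left_mem (r s : E) : r ∈ cone2 r s := ⟨1, 0, zero_le_one, le_rfl, by simp⟩
theorem right_mem (r s : E) : s ∈ cone2 r s := ⟨0, 1, le_rfl, zero_le_one, by simp⟩
theorem self_mem_ray (r : E) : r ∈ ray r := ⟨1, zero_le_one, by simp⟩
theorem zero_mem_ray (r : E) : (0 : E) ∈ ray r := ⟨0, le_rfl, by simp⟩

theorem ray_sub_left (r s : E) : ray r ⊆ cone2 r s := by
  rintro x ⟨c, hc, rfl⟩; exact ⟨c, 0, hc, le_rfl, by simp⟩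
theorem ray_sub_right (r s : E) : ray s ⊆ cone2 r s := by
  rintro x ⟨c, hc, rfl⟩; exact ⟨0, c, le_rfl, hc, by simp⟩

theorem ray_scale {r : E} {k : ℚ} (hk : 0 < k) : ray (k • r) = ray r := by
  ext x; constructor
  · rintro ⟨c, hc, rfl⟩; exact ⟨c * k, by positivity, by rw [mul_smul]⟩
  · rintro ⟨c, hc, rfl⟩
    refine ⟨c / k, by positivity, ?_⟩
    rw [← mul_smul, div_mul_cancel₀ _ hk.ne']

theorem hp_eq {r p s : E} {a c : ℚ} (hc : 0 < c) (h : p = a • r + c • s) : HP r p = HP r s := by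
  ext v; constructor
  · rintro ⟨a', c', hc', rfl⟩
    refine ⟨a' + c' * a, c' * c, by positivity, ?_⟩
    rw [h]; module
  · rintro ⟨a', c', hc', rfl⟩
    refine ⟨a' - c' / c * a, c' / c, by positivity, ?_⟩
    have h1 : c' • s = ((c' / c) * c) • s := by rw [div_mul_cancel₀ _ hc.ne']
    rw [h1, h]; module

/-- A nonproportional point of a half plane spans it. -/
theorem hp_eq_of_mem {r p s : E} (hs : NM r s) (h : s ∈ HP r p) : HP r s = HP r p := by
  obtain ⟨a, c, hc, he⟩ := h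
  rcases hc.eq_or_lt with h0 | h0
  · exact absurd ⟨a, by rw [he, ← h0]; simp⟩ hs
  · exact hp_eq h0 he

theorem mem_hp (r p : E) : p ∈ HP r p := ⟨0, 1, zero_le_one, by simp⟩
theorem smul_mem_hp (r p : E) (a : ℚ) : a • r ∈ HP r p := ⟨a, 0, le_rfl, by simp⟩

theorem hp_scale_left {r p : E} {k : ℚ} (hk : 0 < k) : HP (k • r) p = HP r p := by
  ext v; constructor
  · rintro ⟨a, c, hc, rfl⟩
    exact ⟨a * k, c, hc, by rw [mul_smul]⟩
  · rintro ⟨a, c, hc, rfl⟩
    exact ⟨a / k, c, hc, by rw [← mul_smul, div_mul_cancel₀ _ hk.ne']⟩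

theorem NM.symm {r s : E} (hr : r ≠ 0) (h : NM r s) : NM s r := by
  rintro ⟨a, ha⟩
  have h0 : a ≠ 0 := by
    rintro rfl
    exact hr (by rw [ha, zero_smul])
  exact h ⟨a⁻¹, by rw [ha, ← mul_smul, inv_mul_cancel₀ h0, one_smul]⟩

theorem NM.indep {r s : E} (hr : r ≠ 0) (h : NM r s) {a b : ℚ} (e : a • r + b • s = 0) :
    a = 0 ∧ b = 0 := by
  have hb : b = 0 := by
    by_contra hb
    refine h ⟨- (b⁻¹ * a), ?_⟩
    have h1 : b • s = (-a) • r := by
      rw [neg_smul, eq_neg_iff_add_eq_zero, add_comm]; exact e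
    have h2 : s = b⁻¹ • (b • s) := by rw [← mul_smul, inv_mul_cancel₀ hb, one_smul]
    rw [h2, h1, ← mul_smul]; congr 1; ring
  refine ⟨?_, hb⟩
  rw [hb, zero_smul, add_zero] at e
  exact (smul_eq_zero.1 e).resolve_right hr

theorem tg_cone_left (r s : E) : Tg r (cone2 r s) = HP r s := by
  ext v; constructor
  · rintro ⟨ε, hε, K⟩
    obtain ⟨c, d, hc, hd, he⟩ := K ε hε le_rfl
    refine ⟨(c - 1) / ε, d / ε, by positivity, ?_⟩
    have h1 : ε • v = (c - 1) • r + d • s := by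
      have : ε • v = (r + ε • v) - r := by abel
      rw [this, he]; module
    have h2 : v = ε⁻¹ • (ε • v) := by rw [← mul_smul, inv_mul_cancel₀ hε.ne', one_smul]
    rw [h2, h1, smul_add, ← mul_smul, ← mul_smul]
    congr 2 <;> ring
  · rintro ⟨a, c, hc, rfl⟩
    refine ⟨1 / (|a| + 1), by positivity, fun t h0 h1 => ⟨1 + t * a, t * c, ?_, by positivity, by module⟩⟩
    have h2 : t * (|a| + 1) ≤ 1 := by
      rwa [le_div_iff₀ (by positivity)] at h1
    nlinarith [neg_abs_le a]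

theorem tg_cone_right (r s : E) : Tg s (cone2 r s) = HP s r := by
  rw [cone2_comm]; exact tg_cone_left s r

theorem tg_cone_int (r s : E) {c d : ℚ} (hc : 0 < c) (hd : 0 < d) :
    Tg (c • r + d • s) (cone2 r s) = {v | ∃ a b : ℚ, v = a • r + b • s} := by
  ext v; constructor
  · rintro ⟨ε, hε, K⟩
    obtain ⟨c', d', _, _, he⟩ := K ε hε le_rfl
    refine ⟨(c' - c) / ε, (d' - d) / ε, ?_⟩
    have h1 : ε • v = (c' - c) • r + (d' - d) • s := by
      have : ε • v = (c • r + d • s + ε • v) - (c • r + d • s) := by abel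
      rw [this, he]; module
    have h2 : v = ε⁻¹ • (ε • v) := by rw [← mul_smul, inv_mul_cancel₀ hε.ne', one_smul]
    rw [h2, h1, smul_add, ← mul_smul, ← mul_smul]
    congr 2 <;> ring
  · rintro ⟨a, b, rfl⟩
    have key : ∀ c a t : ℚ, 0 < c → 0 < t → t ≤ c / (|a| + 1) → 0 ≤ c + t * a := by
      intro c a t hc h0 h1
      have h2 : t * (|a| + 1) ≤ c := by
        rwa [le_div_iff₀ (by positivity)] at h1
      nlinarith [neg_abs_le a]
    refine ⟨min (c / (|a| + 1)) (d / (|b| + 1)), by positivity, fun t h0 h1 =>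
      ⟨c + t * a, d + t * b, key _ _ _ hc h0 (h1.trans (min_le_left _ _)),
        key _ _ _ hd h0 (h1.trans (min_le_right _ _)), by module⟩⟩

/-- A cone over an edge is a ball. -/
theorem ball_cone {r s : E} (hr : r ≠ 0) (h : NM r s) (hp : Pol (cone2 r s)) :
    Ball 2 (cone2 r s) (ray r ∪ ray s) := by
  let F : (Fin 2 → ℚ) →ₗ[ℚ] E :=
    (LinearMap.proj 0).smulRight r + (LinearMap.proj 1).smulRight s
  have hF : ∀ v, F v = v 0 • r + v 1 • s := fun v => by simp [F]
  have hker : LinearMap.ker F = ⊥ := by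
    rw [LinearMap.ker_eq_bot']
    intro v hv
    rw [hF] at hv
    obtain ⟨h1, h2⟩ := h.indep hr hv
    ext i; fin_cases i
    · exact h1
    · exact h2
  have hinj : Function.Injective F := LinearMap.ker_eq_bot.1 hker
  obtain ⟨G, hG⟩ := LinearMap.exists_leftInverse_of_injective F hker
  have hGF : ∀ v, G (F v) = v := fun v => by
    have := congrArg (fun L => L v) hG
    simpa using this
  refine ⟨hp, ?_, F, G, ⟨plOn_linear F _, plOn_linear G _, ?_, ?_, fun v _ => hGF v, ?_⟩, ?_⟩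
  · exact Set.union_subset (ray_sub_left r s) (ray_sub_right r s)
  · intro v hv
    exact ⟨v 0, v 1, hv 0, hv 1, hF v⟩
  · rintro y ⟨c, d, hc, hd, rfl⟩
    have e : c • r + d • s = F ![c, d] := by rw [hF]; simp
    rw [e, hGF]
    intro i; fin_cases i
    · exact hc
    · exact hd
  · rintro y ⟨c, d, hc, hd, rfl⟩
    have e : c • r + d • s = F ![c, d] := by rw [hF]; simp
    rw [e, hGF]
  · intro v hv
    constructor
    · rintro ⟨_, i, hi⟩
      fin_cases i
      · right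
        refine ⟨v 1, hv 1, ?_⟩
        have hi : v 0 = 0 := hi
        rw [hF, hi]; simp
      · left
        refine ⟨v 0, hv 0, ?_⟩
        have hi : v 1 = 0 := hi
        rw [hF, hi]; simp
    · rintro (⟨c, hc, he⟩ | ⟨c, hc, he⟩)
      · refine ⟨hv, 1, ?_⟩
        have e : c • r = F ![c, 0] := by rw [hF]; simp
        rw [e] at he
        rw [hinj he]; simp
      · refine ⟨hv, 0, ?_⟩
        have e : c • s = F ![0, c] := by rw [hF]; simp
        rw [e] at he
        rw [hinj he]; simp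

/-- A ray is a ball. -/
theorem ball_ray {r : E} (hr : r ≠ 0) (hp : Pol (ray r)) : Ball 1 (ray r) {0} := by
  let F : (Fin 1 → ℚ) →ₗ[ℚ] E := (LinearMap.proj 0).smulRight r
  have hF : ∀ v, F v = v 0 • r := fun v => by simp [F]
  have hker : LinearMap.ker F = ⊥ := by
    rw [LinearMap.ker_eq_bot']
    intro v hv
    rw [hF] at hv
    ext i; fin_cases i
    exact (smul_eq_zero.1 hv).resolve_right hr
  have hinj : Function.Injective F := LinearMap.ker_eq_bot.1 hker
  obtain ⟨G, hG⟩ := LinearMap.exists_leftInverse_of_injective F hker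
  have hGF : ∀ v, G (F v) = v := fun v => by
    have := congrArg (fun L => L v) hG
    simpa using this
  have hFc : ∀ c : ℚ, c • r = F (fun _ => c) := fun c => by rw [hF]
  refine ⟨hp, ?_, F, G, ⟨plOn_linear F _, plOn_linear G _, ?_, ?_, fun v _ => hGF v, ?_⟩, ?_⟩
  · rintro x rfl; exact zero_mem_ray r
  · intro v hv
    exact ⟨v 0, hv 0, hF v⟩
  · rintro y ⟨c, hc, rfl⟩
    rw [hFc, hGF]
    intro i; exact hc
  · rintro y ⟨c, hc, rfl⟩
    rw [hFc, hGF]
  · intro v hv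
    constructor
    · rintro ⟨_, i, hi⟩
      fin_cases i
      have hi : v 0 = 0 := hi
      show F v = 0
      rw [hF, hi, zero_smul]
    · intro he
      have he : F v = 0 := he
      refine ⟨hv, 0, ?_⟩
      rw [← map_zero F] at he
      rw [hinj he]; rfl

theorem face_ray {A : Set (E →ₗ[ℚ] ℚ)} (hs : Spn A) {r : E} (hr : Ray A r) :
    face A r = ray r := by
  ext x; constructor
  · intro hx
    obtain ⟨c, hc⟩ := hr.2 x (fun a ha h0 => by
      rcases hx a ha with h | h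
      · exact h
      · rw [h0, sign_zero, sign_eq_zero_iff] at h; exact h)
    refine ⟨c, ?_, hc⟩
    by_contra hneg
    have hneg : c < 0 := not_le.1 hneg
    refine hr.1 (hs r (fun a ha => ?_))
    have e : a x = c * a r := by rw [hc, map_smul, smul_eq_mul]
    rcases hx a ha with h | h
    · rw [e] at h
      exact (mul_eq_zero.1 h).resolve_left hneg.ne
    · rw [e, sign_mul, sign_neg hneg] at h
      by_contra h0
      rcases lt_or_gt_of_ne h0 with h1 | h1
      · rw [sign_neg h1] at h; exact absurd h (by decide)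
      · rw [sign_pos h1] at h; exact absurd h (by decide)
  · rintro ⟨c, hc, rfl⟩ a ha
    rcases hc.eq_or_lt with h0 | h0
    · left; rw [← h0, zero_smul, map_zero]
    · right; rw [map_smul, smul_eq_mul, sign_mul, sign_pos h0, one_mul]

/-- An edge of `Y`. -/
structure Edg (A : Set (E →ₗ[ℚ] ℚ)) (Y : Set E) (r s : E) : Prop where
  rr : Ray A r
  rs : Ray A s
  nm : NM r s
  sub : cone2 r s ⊆ Y
  face : ∀ c d : ℚ, 0 < c → 0 < d → face A (c • r + d • s) = cone2 r s
  same : ∀ c d c' d' : ℚ, 0 < c → 0 < d → 0 < c' → 0 < d' →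
    SameSign A (c • r + d • s) (c' • r + d' • s)
  tg : ∀ c d : ℚ, 0 < c → 0 < d → Tg (c • r + d • s) Y = {v | ∃ a b : ℚ, v = a • r + b • s}

theorem Edg.symm {A : Set (E →ₗ[ℚ] ℚ)} {Y : Set E} {r s : E} (h : Edg A Y r s) :
    Edg A Y s r where
  rr := h.rs
  rs := h.rr
  nm := h.nm.symm h.rr.1
  sub := by rw [cone2_comm]; exact h.sub
  face := fun c d hc hd => by rw [add_comm, cone2_comm]; exact h.face d c hd hc
  same := fun c d c' d' hc hd hc' hd' => by
    rw [add_comm, add_comm (c' • s)]; exact h.same d c d' c' hd hc hd' hc'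
  tg := fun c d hc hd => by
    rw [add_comm, h.tg d c hd hc]
    ext v; constructor
    · rintro ⟨a, b, rfl⟩; exact ⟨b, a, add_comm _ _⟩
    · rintro ⟨a, b, rfl⟩; exact ⟨b, a, add_comm _ _⟩

theorem ray_smul {A : Set (E →ₗ[ℚ] ℚ)} {r : E} (h : Ray A r) {k : ℚ} (hk : k ≠ 0) :
    Ray A (k • r) := by
  refine ⟨smul_ne_zero hk h.1, fun y hy => ?_⟩
  obtain ⟨c, hc⟩ := h.2 y (fun a ha h0 => hy a ha (by rw [map_smul, h0, smul_zero]))
  exact ⟨c / k, by rw [← mul_smul, div_mul_cancel₀ _ hk]; exact hc⟩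

theorem Edg.scale {A : Set (E →ₗ[ℚ] ℚ)} {Y : Set E} {r s : E} (h : Edg A Y r s) {k : ℚ}
    (hk : 0 < k) : Edg A Y (k • r) s where
  rr := ray_smul h.rr hk.ne'
  rs := h.rs
  nm := by
    rintro ⟨a, ha⟩
    exact h.nm ⟨a * k, by rw [mul_smul]; exact ha⟩
  sub := by rw [cone2_scale hk]; exact h.sub
  face := fun c d hc hd => by
    rw [cone2_scale hk, ← mul_smul]; exact h.face _ d (by positivity) hd
  same := fun c d c' d' hc hd hc' hd' => by
    rw [← mul_smul, ← mul_smul]; exact h.same _ d _ d' (by positivity) hd (by positivity) hd'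
  tg := fun c d hc hd => by
    rw [← mul_smul, h.tg _ d (by positivity) hd]
    ext v; constructor
    · rintro ⟨a, b, rfl⟩
      exact ⟨a / k, b, by rw [← mul_smul, div_mul_cancel₀ _ hk.ne']⟩
    · rintro ⟨a, b, rfl⟩; exact ⟨a * k, b, by rw [mul_smul]⟩

/-- The situation of the proof. -/
structure Ctx (A : Set (E →ₗ[ℚ] ℚ)) (Y : Set E) (u : E →ₗ[ℚ] ℚ) : Prop where
  fin : A.Finite
  spn : Spn A
  cl : ClA A Y
  bdd : Bdd u Y
  reg : ∀ y ∈ Y, y ≠ 0 → Reg2 Y y
  edge : ∀ y ∈ Y, y ≠ 0 → ¬ Ray A y → ∃ r s : E, Edg A Y r s ∧ ∃ c d : ℚ, 0 < c ∧ 0 < d ∧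
    y = c • r + d • s

section Main

variable {A : Set (E →ₗ[ℚ] ℚ)} {Y : Set E} {u : E →ₗ[ℚ] ℚ}

theorem Ctx.nm (h : Ctx A Y u) {r s : E} (hr : r ∈ Y) (hs : s ∈ Y) (hr0 : r ≠ 0) (hs0 : s ≠ 0)
    (hn : s ∉ ray r) : NM r s := by
  rintro ⟨a, ha⟩
  refine hn ⟨a, ?_, ha⟩
  have h1 := h.bdd r hr hr0
  have h2 := h.bdd s hs hs0
  rw [ha, map_smul, smul_eq_mul] at h2
  by_contra h3
  have := mul_neg_of_neg_of_pos (not_le.1 h3) h1
  linarith

theorem Ctx.con (h : Ctx A Y u) : Con Y := h.cl.inv.con h.fin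

/-- The half planes of a germ. -/
theorem Ctx.planes (h : Ctx A Y u) {r p : E} (hr : r ∈ Y) (hr0 : r ≠ 0) (hp : NM r p)
    (hpT : p ∈ Tg r Y) : ∃ q, NM r q ∧ q ∉ HP r p ∧ Tg r Y = HP r p ∪ HP r q := by
  obtain ⟨p₀, q₀, h1, h2, h3, h4⟩ := h.reg r hr hr0
  have h4 : Tg r Y = HP r p₀ ∪ HP r q₀ := h4
  have h3 : q₀ ∉ HP r p₀ := h3
  rw [h4] at hpT
  rcases hpT with h5 | h5
  · have e := hp_eq_of_mem hp h5
    exact ⟨q₀, h2, by rw [e]; exact h3, by rw [e]; exact h4⟩
  · have e := hp_eq_of_mem hp h5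
    refine ⟨p₀, h1, ?_, by rw [e, Set.union_comm]; exact h4⟩
    rw [e]
    intro h6
    have e2 := hp_eq_of_mem h1 h6
    exact h3 (by rw [e2]; exact mem_hp _ _)

/-- The edge in a given direction. -/
theorem Ctx.edge_at (h : Ctx A Y u) {r q : E} (hR : Ray A r) (hq : NM r q)
    (hqT : q ∈ Tg r Y) : ∃ s, Edg A Y r s ∧ HP r s = HP r q := by
  obtain ⟨ε, hε, K⟩ := hqT
  obtain ⟨δ, hδ, L⟩ := small_signs h.fin r q
  have ht : 0 < min ε δ := lt_min hε hδ
  have hy := K _ ht (min_le_left _ _)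
  have hL := L _ ht (min_le_right _ _)
  generalize min ε δ = t at ht hy hL
  have htq : t⁻¹ • (t • q) = q := by rw [← mul_smul, inv_mul_cancel₀ ht.ne', one_smul]
  have hy0 : r + t • q ≠ 0 := by
    intro e
    refine hq ⟨- t⁻¹, ?_⟩
    have h1 : t • q = - r := by rw [eq_neg_iff_add_eq_zero, add_comm]; exact e
    rw [← htq, h1, smul_neg, neg_smul]
  have hnR : ¬ Ray A (r + t • q) := by
    intro hR'
    obtain ⟨c, hc⟩ := hR'.2 (r + (t / 2) • q) (fun a ha h0 => by
      obtain ⟨H1, H2⟩ := hL a ha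
      have h1 : a r = 0 := by
        by_contra h1
        have := H1 h1
        rw [h0, sign_zero, eq_comm, sign_eq_zero_iff] at this
        exact h1 this
      have h2 := H2 h1
      rw [h0, sign_zero, eq_comm, sign_eq_zero_iff] at h2
      rw [map_add, map_smul, h1, h2]; simp)
    by_cases hc2 : c = 1 / 2
    · apply hR.1
      have h1 : (1 / 2 : ℚ) • r = (r + (t / 2) • q) - (1 / 2 : ℚ) • (r + t • q) := by module
      rw [hc, hc2, sub_self] at h1
      exact (smul_eq_zero.1 h1).resolve_left (by norm_num)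
    · have h2 : c * t - t / 2 ≠ 0 := by
        intro h3
        apply hc2
        have h4 : t * (c - 1 / 2) = 0 := by linarith
        rcases mul_eq_zero.1 h4 with h5 | h5
        · exact absurd h5 ht.ne'
        · linarith
      refine hq ⟨(c * t - t / 2)⁻¹ * (1 - c), ?_⟩
      have h1 : (c * t - t / 2) • q = (1 - c) • r := by
        have h3 : (c * t - t / 2) • q - (1 - c) • r =
          c • (r + t • q) - (r + (t / 2) • q) := by module
        rw [hc, sub_self] at h3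
        exact sub_eq_zero.1 h3
      rw [mul_smul, ← h1, ← mul_smul, inv_mul_cancel₀ h2, one_smul]
  obtain ⟨r₁, s₁, hE, c, d, hc, hd, he⟩ := h.edge _ hy hy0 hnR
  have hrf : r ∈ cone2 r₁ s₁ := by
    rw [← hE.face c d hc hd, ← he]
    intro a ha
    by_cases h1 : a r = 0
    · exact Or.inl h1
    · exact Or.inr ((hL a ha).1 h1).symm
  have fin : ∀ (r₁ s₁ : E) (c d c' : ℚ), Edg A Y r₁ s₁ → 0 < c → 0 < d → 0 < c' →
      r + t • q = c • r₁ + d • s₁ → r = c' • r₁ → ∃ s, Edg A Y r s ∧ HP r s = HP r q := by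
    intro r₁ s₁ c d c' hE hc hd hc' he he'
    refine ⟨s₁, by rw [he']; exact hE.scale hc', ?_⟩
    refine (hp_eq (a := t⁻¹ * (c / c' - 1)) (c := t⁻¹ * d) (by positivity) ?_).symm
    have h1 : t • q = (c / c' - 1) • r + d • s₁ := by
      have h2 : t • q = (r + t • q) - r := by abel
      have h3 : c • r₁ = (c / c') • r := by
        rw [he', ← mul_smul, div_mul_cancel₀ _ hc'.ne']
      rw [h2, he, h3]; module
    rw [← htq, h1, smul_add, ← mul_smul, ← mul_smul]
  obtain ⟨c', d', hc', hd', he'⟩ := hrf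
  rcases hc'.eq_or_lt with h1 | h1
  · rcases hd'.eq_or_lt with h2 | h2
    · exact absurd (by rw [he', ← h1, ← h2]; simp) hR.1
    · refine fin s₁ r₁ d c d' hE.symm hd hc h2 (by rw [he, add_comm]) ?_
      rw [he', ← h1]; simp
  · rcases hd'.eq_or_lt with h2 | h2
    · refine fin r₁ s₁ c d c' hE hc hd h1 he ?_
      rw [he', ← h2]; simp
    · exfalso
      have hS : SameSign A r (r + t • q) := by
        have := hE.same c' d' c d h1 h2 hc hd
        rwa [← he, ← he'] at this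
      obtain ⟨k, hk⟩ := hR.2 (r + t • q) (fun a ha h0 => by
        have := hS a ha
        rw [h0, sign_zero, eq_comm, sign_eq_zero_iff] at this
        exact this)
      refine hq ⟨t⁻¹ * (k - 1), ?_⟩
      have h3 : t • q = (k - 1) • r := by
        have h2 : t • q = (r + t • q) - r := by abel
        rw [h2, hk]; module
      rw [← htq, h3, ← mul_smul]

theorem Edg.pol (h : Ctx A Y u) {r s : E} (hE : Edg A Y r s) : Pol (cone2 r s) := by
  rw [← hE.face 1 1 one_pos one_pos]; exact pol_face h.fin _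

theorem Edg.clA {r s : E} (hE : Edg A Y r s) : ClA A (cone2 r s) := by
  rw [← hE.face 1 1 one_pos one_pos]
  exact fun y hy x hx => face_trans hx hy

theorem Edg.sub_of_meet {B : Set E} (hB : ClA A B) {r s : E} (hE : Edg A Y r s) {c d : ℚ}
    (hc : 0 < c) (hd : 0 < d) (hm : c • r + d • s ∈ B) : cone2 r s ⊆ B := by
  rw [← hE.face c d hc hd]; exact hB _ hm

theorem meet_of_tg {B : Set E} {r s : E} (h : s ∈ Tg r B) :
    ∃ c d : ℚ, 0 < c ∧ 0 < d ∧ c • r + d • s ∈ B := by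
  obtain ⟨ε, hε, K⟩ := h
  exact ⟨1, ε, one_pos, hε, by rw [one_smul]; exact K ε hε le_rfl⟩

theorem Edg.not_meet {B : Set E} (hB : ClA A B) {r s : E} (hE : Edg A Y r s)
    (hs : s ∉ Tg r B) {c d : ℚ} (hc : 0 < c) (hd : 0 < d) : c • r + d • s ∉ B := by
  intro hm
  apply hs
  have := tg_mono (x := r) (hE.sub_of_meet hB hc hd hm)
  rw [tg_cone_left] at this
  exact this (mem_hp _ _)

/-- An arc in `Y`. -/
structure Arc (A : Set (E →ₗ[ℚ] ℚ)) (Y B : Set E) (r s : E) : Prop where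
  ball : Ball 2 B (ray r ∪ ray s)
  sub : B ⊆ Y
  cl : ClA A B
  rr : Ray A r
  rs : Ray A s
  ne : s ∉ ray r
  int : ∀ y ∈ B, y ∉ ray r → y ∉ ray s → Tg y B = Tg y Y
  tr : ∃ p, NM r p ∧ Tg r B = HP r p
  ts : ∃ p, NM s p ∧ Tg s B = HP s p

theorem Edg.arc (h : Ctx A Y u) {r s : E} (hE : Edg A Y r s) : Arc A Y (cone2 r s) r s where
  ball := ball_cone hE.rr.1 hE.nm (hE.pol h)
  sub := hE.sub
  cl := hE.clA
  rr := hE.rr
  rs := hE.rs
  ne := fun ⟨a, _, ha⟩ => hE.nm ⟨a, ha⟩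
  int := by
    rintro y ⟨c, d, hc, hd, rfl⟩ h1 h2
    rcases hc.eq_or_lt with h3 | h3
    · exact absurd ⟨d, hd, by rw [← h3]; simp⟩ h2
    rcases hd.eq_or_lt with h4 | h4
    · exact absurd ⟨c, hc, by rw [← h4]; simp⟩ h1
    rw [tg_cone_int r s h3 h4, hE.tg c d h3 h4]
  tr := ⟨s, hE.nm, tg_cone_left r s⟩
  ts := ⟨r, hE.nm.symm hE.rr.1, tg_cone_right r s⟩

theorem Ctx.vertex (h : Ctx A Y u) {B : Set E} {r s p : E} (hB : B ⊆ Y) (hcl : ClA A B)
    (hr : r ∈ Y) (hp : NM r p) (hT : Tg r B = HP r p) (hE : Edg A Y r s)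
    (hs : s ∉ HP r p) : Tg r (B ∪ cone2 r s) = Tg r Y := by
  have hpT : p ∈ Tg r Y := tg_mono hB (by rw [hT]; exact mem_hp _ _)
  obtain ⟨q, hq1, hq2, hq3⟩ := h.planes hr hE.rr.1 hp hpT
  have hsT : s ∈ Tg r Y := tg_mono hE.sub (by rw [tg_cone_left]; exact mem_hp _ _)
  rw [hq3] at hsT
  rw [tg_union (hcl.inv.con h.fin) (hE.pol h).con, hT, tg_cone_left, hq3,
    hp_eq_of_mem hE.nm (hsT.resolve_left hs)]

theorem tg_pt (hA : A.Finite) {S : Set E} (hS : InvA A S) (r : E) {k : ℚ} (hk : 0 < k) :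
    Tg (k • r) S = Tg r S :=
  tg_same hA hS (fun a _ => by rw [map_smul, smul_eq_mul, sign_mul, sign_pos hk, one_mul])

theorem ray_inter {r s : E} (h : s ∉ ray r) : ray s ∩ ray r = {0} := by
  ext y; constructor
  · rintro ⟨⟨k, hk, rfl⟩, l, hl, he⟩
    rcases hk.eq_or_lt with h0 | h0
    · rw [← h0, zero_smul]; rfl
    · refine absurd ⟨k⁻¹ * l, by positivity, ?_⟩ h
      rw [mul_smul, ← he, ← mul_smul, inv_mul_cancel₀ h0.ne', one_smul]
  · rintro rfl
    exact ⟨zero_mem_ray _, zero_mem_ray _⟩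

theorem sgv_same {x y : E} (h : sgv A x = sgv A y) : SameSign A x y := by
  intro a ha
  have := congrFun h a
  simpa [sgv, ha] using this

theorem sgv_eq {x y : E} (h : SameSign A x y) : sgv A x = sgv A y := by
  funext a
  by_cases ha : a ∈ A
  · simpa [sgv, ha] using h a ha
  · simp [sgv, ha]

theorem Ctx.not_ray (_h : Ctx A Y u) {r s : E} (hr : Ray A r) (h1 : s ∉ ray r) : r ∉ ray s := by
  rintro ⟨k, hk, he⟩
  rcases hk.eq_or_lt with h0 | h0
  · exact hr.1 (by rw [he, ← h0, zero_smul])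
  · refine h1 ⟨k⁻¹, by positivity, ?_⟩
    rw [he, ← mul_smul, inv_mul_cancel₀ h0.ne', one_smul]

/-- An arc is extended, or closed up to a circle. -/
theorem Ctx.step (h : Ctx A Y u) {B : Set E} {r s x : E} (hA : Arc A Y B r s) (hx : x ∈ B) :
    (∃ C ⊆ Y, Sph 2 C ∧ x ∈ C ∧ ∀ y ∈ C, y ≠ 0 → Tg y C = Tg y Y) ∨
    ∃ (B' : Set E) (r' s' : E), Arc A Y B' r' s' ∧ x ∈ B' ∧ sgv A '' B ⊂ sgv A '' B' := by
  have hrayr : ray r ⊆ B := Set.subset_union_left.trans hA.ball.2.1
  have hrays : ray s ⊆ B := Set.subset_union_right.trans hA.ball.2.1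
  have hrB : r ∈ B := hrayr (self_mem_ray r)
  have hsB : s ∈ B := hrays (self_mem_ray s)
  have hrY : r ∈ Y := hA.sub hrB
  have hsY : s ∈ Y := hA.sub hsB
  have hBcon : Con B := hA.cl.inv.con h.fin
  obtain ⟨p, hp, hT⟩ := hA.ts
  have hpT : p ∈ Tg s Y := tg_mono hA.sub (by rw [hT]; exact mem_hp _ _)
  obtain ⟨q, hq1, hq2, hq3⟩ := h.planes hsY hA.rs.1 hp hpT
  have hqT : q ∈ Tg s Y := by rw [hq3]; exact Or.inr (mem_hp _ _)
  obtain ⟨s', hE, hEq⟩ := h.edge_at hA.rs hq1 hqT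
  have hs' : s' ∉ HP s p := by
    intro h5
    have h6 := hp_eq_of_mem hE.nm h5
    apply hq2
    rw [← h6, hEq]; exact mem_hp _ _
  have hopen : ∀ c d : ℚ, 0 < c → 0 < d → c • s + d • s' ∉ B := fun c d hc hd =>
    hE.not_meet hA.cl (by rw [hT]; exact hs') hc hd
  have hinter : ∀ y ∈ B, y ∈ cone2 s s' → y ∈ ray s ∨ y ∈ ray s' := by
    rintro y hy ⟨c, d, hc, hd, rfl⟩
    rcases hc.eq_or_lt with h3 | h3
    · exact Or.inr ⟨d, hd, by rw [← h3]; simp⟩
    rcases hd.eq_or_lt with h4 | h4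
    · exact Or.inl ⟨c, hc, by rw [← h4]; simp⟩
    exact absurd hy (hopen c d h3 h4)
  have hsub : B ∪ cone2 s s' ⊆ Y := Set.union_subset hA.sub hE.sub
  have hcl : ClA A (B ∪ cone2 s s') := hA.cl.union hE.clA
  have hvs : Tg s (B ∪ cone2 s s') = Tg s Y := h.vertex hA.sub hA.cl hsY hp hT hE hs'
  have hrs : ∀ y ∈ ray s, y ≠ 0 → Tg y (B ∪ cone2 s s') = Tg y Y := by
    rintro y ⟨k, hk, rfl⟩ hy0
    have hk : 0 < k := lt_of_le_of_ne hk (by rintro rfl; exact hy0 (zero_smul _ _))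
    rw [tg_pt h.fin hcl.inv s hk, tg_pt h.fin h.cl.inv s hk, hvs]
  have hint : ∀ y ∈ B ∪ cone2 s s', y ∉ ray r → y ∉ ray s' →
      Tg y (B ∪ cone2 s s') = Tg y Y := by
    intro y hy h1 h2
    have hy0 : y ≠ 0 := by rintro rfl; exact h1 (zero_mem_ray _)
    by_cases h3 : y ∈ ray s
    · exact hrs y h3 hy0
    refine Set.Subset.antisymm (tg_mono hsub) ?_
    rcases hy with hy | hy
    · rw [← hA.int y hy h1 h3]; exact tg_mono Set.subset_union_left
    · rw [← (hE.arc h).int y hy h3 h2]; exact tg_mono Set.subset_union_right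
  have hsr : r ∉ ray s := h.not_ray hA.rr hA.ne
  by_cases hsB' : s' ∈ B
  · left
    have hs's : s' ∉ ray s := (hE.arc h).ne
    have hs'r : s' ∈ ray r := by
      by_contra hn
      have h1 : s ∈ Tg s' B := by
        rw [hA.int s' hsB' hn hs's]
        exact tg_mono hE.sub (by rw [tg_cone_right]; exact mem_hp _ _)
      obtain ⟨c, d, hc, hd, hm⟩ := meet_of_tg h1
      exact hopen d c hd hc (by rw [add_comm]; exact hm)
    obtain ⟨k, hk, hks⟩ := hs'r
    have hk : 0 < k := lt_of_le_of_ne hk (by rintro rfl; exact hE.rs.1 (by rw [hks, zero_smul]))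
    have hray : ray s' = ray r := by rw [hks]; exact ray_scale hk
    have hE' : Edg A Y r s := by
      have h1 := hE.symm.scale (inv_pos.2 hk)
      rwa [hks, ← mul_smul, inv_mul_cancel₀ hk.ne', one_smul] at h1
    have hcone : cone2 s s' = cone2 r s := by rw [cone2_comm, hks, cone2_scale hk]
    have hb := (hE'.arc h).ball
    have hBe : ray r ∪ ray s = B ∩ cone2 r s := by
      refine Set.Subset.antisymm ?_ ?_
      · rintro y (hy | hy)
        · exact ⟨hrayr hy, ray_sub_left r s hy⟩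
        · exact ⟨hrays hy, ray_sub_right r s hy⟩
      · rintro y ⟨h1, h2⟩
        rw [← hcone] at h2
        rcases hinter y h1 h2 with h3 | h3
        · exact Or.inr h3
        · rw [hray] at h3; exact Or.inl h3
    refine ⟨B ∪ cone2 s s', hsub, ⟨B, cone2 r s, ray r ∪ ray s, by rw [hcone], hBe,
      hA.ball, hb⟩, Or.inl hx, fun y hy hy0 => ?_⟩
    by_cases h1 : y ∈ ray r
    · obtain ⟨l, hl, rfl⟩ := h1
      have hl : 0 < l := lt_of_le_of_ne hl (by rintro rfl; exact hy0 (zero_smul _ _))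
      rw [tg_pt h.fin hcl.inv r hl, tg_pt h.fin h.cl.inv r hl, hcone]
      obtain ⟨p', hp', hT'⟩ := hA.tr
      refine h.vertex hA.sub hA.cl hrY hp' hT' hE' ?_
      intro h2
      rw [← hT'] at h2
      obtain ⟨c, d, hc, hd, hm⟩ := meet_of_tg h2
      refine hopen d (c / k) hd (by positivity) ?_
      rw [hks, ← mul_smul, div_mul_cancel₀ _ hk.ne', add_comm]; exact hm
    · exact hint y hy h1 (by rw [hray]; exact h1)
  · right
    have hBe : B ∩ cone2 s s' = ray s := by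
      refine Set.Subset.antisymm ?_ (Set.subset_inter hrays (ray_sub_left s s'))
      rintro y ⟨h1, h2⟩
      rcases hinter y h1 h2 with h3 | ⟨k, hk, rfl⟩
      · exact h3
      rcases hk.eq_or_lt with h0 | h0
      · rw [← h0, zero_smul]; exact zero_mem_ray _
      · exact absurd ((inv_smul hBcon s' h0).1 h1) hsB'
    have hpol : ∀ t : E, Ray A t → Pol (ray t) := fun t ht => by
      rw [← face_ray h.spn ht]; exact pol_face h.fin _
    have hre : r ∉ cone2 s s' := fun h1 => hsr (by rw [← hBe]; exact ⟨hrB, h1⟩)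
    refine ⟨B ∪ cone2 s s', r, s', ⟨?_, hsub, hcl, hA.rr, hE.rs, fun h1 => hsB' (hrayr h1),
      hint, ?_, ?_⟩, Or.inl hx, ?_⟩
    · refine unionLemma 1 B (cone2 s s') (ray s) (ray r) (ray s') {0} ?_ ?_
        (ball_ray hA.rs.1 (hpol s hA.rs)) (ball_ray hA.rr.1 (hpol r hA.rr))
        (ball_ray hE.rs.1 (hpol s' hE.rs)) (ray_inter hA.ne) ?_ hBe
      · rw [Set.union_comm]; exact hA.ball
      · exact (hE.arc h).ball
      · rw [Set.inter_comm]; exact ray_inter (hE.arc h).ne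
    · obtain ⟨p', hp', hT'⟩ := hA.tr
      refine ⟨p', hp', ?_⟩
      rw [tg_union hBcon (hE.pol h).con, hT', tg_eq_empty (hE.pol h) hre, Set.union_empty]
    · refine ⟨s, hE.nm.symm hE.rr.1, ?_⟩
      rw [tg_union hBcon (hE.pol h).con, tg_eq_empty hA.ball.1 hsB', tg_cone_right,
        Set.empty_union]
    · refine ⟨Set.image_mono Set.subset_union_left, fun h1 => ?_⟩
      have h2 : (1 : ℚ) • s + (1 : ℚ) • s' ∈ cone2 s s' :=
        ⟨1, 1, zero_le_one, zero_le_one, rfl⟩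
      obtain ⟨b, hb, hb2⟩ := h1 ⟨_, Or.inr h2, rfl⟩
      exact hopen 1 1 one_pos one_pos (hA.cl.inv _ _ (sgv_same hb2) hb)

theorem Ctx.first (h : Ctx A Y u) {x : E} (hx : x ∈ Y) (hx0 : x ≠ 0) :
    ∃ (B : Set E) (r s : E), Arc A Y B r s ∧ x ∈ B := by
  by_cases hR : Ray A x
  · obtain ⟨p, q, h1, -, -, h4⟩ := h.reg x hx hx0
    have hpT : p ∈ Tg x Y := by rw [h4]; exact Or.inl ⟨0, 1, zero_le_one, by simp⟩
    obtain ⟨s, hE, -⟩ := h.edge_at hR h1 hpT
    exact ⟨_, _, _, hE.arc h, left_mem _ _⟩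
  · obtain ⟨r, s, hE, c, d, hc, hd, he⟩ := h.edge x hx hx0 hR
    exact ⟨_, _, _, hE.arc h, c, d, hc.le, hd.le, he⟩

theorem Ctx.circle (h : Ctx A Y u) {x : E} (hx : x ∈ Y) (hx0 : x ≠ 0) :
    ∃ C ⊆ Y, Sph 2 C ∧ x ∈ C ∧ ∀ y ∈ C, y ≠ 0 → Tg y C = Tg y Y := by
  by_contra hno
  have hfin : (Set.range (sgv A)).Finite := by
    obtain ⟨B, hB, -, K⟩ := exists_reps h.fin (Set.univ : Set E)
    refine (hB.image (sgv A)).subset ?_
    rintro _ ⟨y, rfl⟩
    obtain ⟨b, hb, hb2⟩ := K y trivial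
    exact ⟨b, hb, sgv_eq hb2⟩
  have key : ∀ n : ℕ, ∃ (B : Set E) (r s : E), Arc A Y B r s ∧ x ∈ B ∧
      n ≤ (sgv A '' B).ncard := by
    intro n
    induction n with
    | zero =>
      obtain ⟨B, r, s, h1, h2⟩ := h.first hx hx0
      exact ⟨B, r, s, h1, h2, Nat.zero_le _⟩
    | succ n ih =>
      obtain ⟨B, r, s, h1, h2, h3⟩ := ih
      rcases h.step h1 h2 with h4 | ⟨B', r', s', h5, h6, h7⟩
      · exact absurd h4 hno
      · refine ⟨B', r', s', h5, h6, ?_⟩
        have := Set.ncard_lt_ncard h7 (hfin.subset (Set.image_subset_range _ _))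
        omega
  obtain ⟨B, r, s, -, -, h3⟩ := key ((Set.range (sgv A)).ncard + 1)
  have := Set.ncard_le_ncard (Set.image_subset_range (sgv A) B) hfin
  omega

end Main

end ACirc

open ACirc in
theorem I_Circ (hEdge : St_Edge) : St_Circ := by
  intro E _ _ _ Y u x hY hB hreg hx hx0
  obtain ⟨A₀, hA₀, hcl⟩ := hY.exists_cl
  obtain ⟨A₁, hA₁, hpt⟩ := exists_pointed E
  have hfin : (A₀ ∪ A₁ ∪ {u}).Finite := (hA₀.union hA₁).union (Set.finite_singleton u)
  have hspn : Spn (A₀ ∪ A₁ ∪ {u}) := fun y hy => hpt y (fun a ha => hy a (Or.inl (Or.inr ha)))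
  have hclA : ClA (A₀ ∪ A₁ ∪ {u}) Y := hcl.mono (fun a ha => Or.inl (Or.inl ha))
  have hu : u ∈ A₀ ∪ A₁ ∪ {u} := Or.inr rfl
  generalize A₀ ∪ A₁ ∪ {u} = A at hfin hspn hclA hu
  refine Ctx.circle (A := A) (u := u) ⟨hfin, hspn, hclA, hB, hreg, fun y hy hy0 hn => ?_⟩ hx hx0
  obtain ⟨r, s, hr, hs, hsr, hrs, hface, hsame, htg⟩ :=
    hEdge E Y A u hfin hspn hu hclA hB hreg y hy hy0 hn
  have hyc : y ∈ cone2 r s := by
    have := mem_face_self A y
    rw [hface] at this; exact this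
  have hcone : face A y = cone2 r s := hface
  have hsub : cone2 r s ⊆ Y := by rw [← hcone]; exact hclA y hy
  have hrY : r ∈ Y := hsub (left_mem r s)
  have hsY : s ∈ Y := hsub (right_mem r s)
  have hnm : NM r s := by
    rintro ⟨a, ha⟩
    refine hsr ⟨a, ?_, ha⟩
    have h1 := hB r hrY hr.1
    have h2 := hB s hsY hs.1
    rw [ha, map_smul, smul_eq_mul] at h2
    by_contra h3
    have := mul_neg_of_neg_of_pos (not_le.1 h3) h1
    linarith
  have hface' : ∀ z, SameSign A z y → face A z = face A y := fun z hz => by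
    refine Set.Subset.antisymm ?_ ?_
    · exact fun w hw => face_trans hw hz.mem_face
    · exact fun w hw => face_trans hw hz.symm.mem_face
  have hE : Edg A Y r s := ⟨hr, hs, hnm, hsub,
    fun c d hc hd => by rw [hface' _ (hsame _ ⟨c, d, hc, hd, rfl⟩), hcone],
    fun c d c' d' hc hd hc' hd' => (hsame _ ⟨c, d, hc, hd, rfl⟩).trans
      (hsame _ ⟨c', d', hc', hd', rfl⟩).symm,
    fun c d hc hd => by
      rw [tg_same hfin hclA.inv (hsame _ ⟨c, d, hc, hd, rfl⟩), htg]⟩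
  obtain ⟨c, d, hc, hd, he⟩ := hyc
  refine ⟨r, s, hE, c, d, ?_, ?_, he⟩
  · rcases hc.eq_or_lt with h0 | h0
    · exfalso
      apply hn
      have h1 : d ≠ 0 := by rintro rfl; exact hy0 (by rw [he, ← h0]; simp)
      rw [he, ← h0, zero_smul, zero_add]
      exact ray_smul hs h1
    · exact h0
  · rcases hd.eq_or_lt with h0 | h0
    · exfalso
      apply hn
      have h1 : c ≠ 0 := by rintro rfl; exact hy0 (by rw [he, ← h0]; simp)
      rw [he, ← h0, zero_smul, add_zero]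
      exact ray_smul hr h1
    · exact h0

end Pool.Agent.Work.MP_552024_lc.PLS
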