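import Pool.Agent.Work.MP_552024_lc.PLS.S4

set_option autoImplicit false

namespace Pool.Agent.Work.MP_552024_lc.PLS

theorem I_ClE : St_ClE := by
  intro E _ _ _ A T c E₁ E₂ hA hT hc hun hint hp1 hp2 y hy x hx
  by_cases hyc : y ∈ c
  · have : x ∈ c := hc y hyc hx
    rw [← hint] at this
    exact this.1
  · have hyT : y ∈ T := by rw [← hun]; exact Or.inl hy
    have hsub : ∀ z, SameSign A z y → z ∈ T ∧ z ∉ c := by
      intro z hz
      refine ⟨hT y hyT hz.mem_face, fun hzc => hyc (hc z hzc hz.symm.mem_face)⟩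
    have hconn := conn_cell (A := A) y
    have hS : {z | SameSign A z y} ⊆ E₁ := by
      rcases hconn.2 E₁ E₂ hp1 hp2 (fun z hz => by rw [hun]; exact (hsub z hz).1)
        (fun z hz h1 h2 => (hsub z hz).2 (by rw [← hint]; exact ⟨h1, h2⟩)) with h | h
      · exact h
      · exfalso
        apply hyc
        rw [← hint]
        exact ⟨hy, h (show SameSign A y y from fun _ _ => rfl)⟩
    apply hp1.cl_subset hS
    refine Or.inr ⟨y, (show SameSign A y y from fun _ _ => rfl), fun t h0 h1 => ?_⟩
    exact sameSign_segment hx h0 h1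

end Pool.Agent.Work.MP_552024_lc.PLS
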