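import Pool.Agent.Work.MP_552024_lc.PLS.S4

set_option autoImplicit false

namespace Pool.Agent.Work.MP_552024_lc.PLS

namespace AColC

variable {E : Type} [AddCommGroup E] [Module ℚ E] [FiniteDimensional ℚ E]

/-- germs of a component at a point of `T` -/
theorem germ_nonempty {X T : Set E} (hT : Pol T) (hX : Comp X Set.univ T) {x : E} (hx : x ∈ X)
    (hx0 : x ≠ 0) : (Tg x X \ Tg x T).Nonempty := by
  have hcon : Con (X \ T) := hX.pol.con.diff hT.con
  have h1 : Tg x (cl (X \ T)) = cl (Tg x (X \ T)) :=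
    tg_cl hcon (by rw [hX.cl_eq]; exact hx) hx0
  rw [hX.cl_eq, tg_diff hT.con] at h1
  by_contra hne
  rw [Set.not_nonempty_iff_eq_empty] at hne
  rw [hne, cl_empty] at h1
  have h2 : (1 : ℚ) • x ∈ Tg x X := self_mem_tg hX.pol.con hx 1
  rw [h1, one_smul] at h2
  exact hx0 h2

/-- the germ of a component on the side of `M` is the one of `M` -/
theorem germ_eq {X T M M' : Set E} (hT : Pol T) (hX : Comp X Set.univ T) (hXM : X ⊆ M) {x : E}
    (hx : x ∈ X) (hxT : x ∈ T) (hx0 : x ≠ 0) (hS : Sides (Tg x T) (Tg x M) (Tg x M')) :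
    Tg x X \ Tg x T = Tg x M \ Tg x T := by
  apply subset_antisymm
  · exact Set.sdiff_subset_sdiff_left (tg_mono hXM)
  have hZ : Con (Set.univ \ (T ∪ X)) := pol_univ.con.diff (hT.con.union hX.pol.con)
  have hF2 : Pol (({0} : Set E) ∪ Tg x (cl (Set.univ \ (T ∪ X)))) := by
    by_cases h : x ∈ cl (Set.univ \ (T ∪ X))
    · exact pol_zero.union (tg_pol hZ.pol_cl h)
    · rw [tg_eq_empty hZ.pol_cl h, Set.union_empty]
      exact pol_zero
  have hdis : ∀ v ∈ Tg x M \ Tg x T, v ∈ Tg x X →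
      v ∉ ({0} : Set E) ∪ Tg x (cl (Set.univ \ (T ∪ X))) := by
    rintro v ⟨_, hvT⟩ hvX (h | h)
    · rw [Set.mem_singleton_iff] at h
      subst h
      exact hvT (zero_mem_tg.2 hxT)
    · apply hvT
      refine tg_mono hX.rest ?_
      rw [tg_inter]
      exact ⟨h, hvX⟩
  rcases hS.1.conn.2 (Tg x X) (({0} : Set E) ∪ Tg x (cl (Set.univ \ (T ∪ X))))
      (tg_pol hX.pol hx) hF2 (by
        rintro v ⟨_, hvT⟩
        by_cases hvX : v ∈ Tg x X
        · exact Or.inl hvX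
        · right; right
          apply tg_mono (subset_cl _)
          rw [tg_diff (hT.con.union hX.pol.con), tg_univ, tg_union hT.con hX.pol.con]
          exact ⟨trivial, fun h => h.elim hvT hvX⟩) hdis with h1 | h1
  · exact fun v hv => ⟨h1 hv, hv.2⟩
  · exfalso
    obtain ⟨v, hvX, hvT⟩ := germ_nonempty hT hX hx hx0
    have hv : v ∈ Tg x M \ Tg x T := ⟨tg_mono hXM hvX, hvT⟩
    exact hdis v hv hvX (h1 hv)

theorem half (hConnP : St_ConnP) {n : ℕ} (hfr : Module.finrank ℚ E = n + 2) {T M M' : Set E}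
    (hM : Pol M) (hM' : Pol M') (hU : M ∪ M' = Set.univ) (hI : M ∩ M' = T)
    (hS : ∀ x ∈ T, x ≠ 0 → Sides (Tg x T) (Tg x M) (Tg x M')) (hconn : Conn (T \ {0})) :
    Comp M Set.univ T := by
  have hT : Pol T := hI ▸ hM.inter hM'
  have hTM : T ⊆ M := by rw [← hI]; exact Set.inter_subset_left
  obtain ⟨x₀, hx₀T, hx₀⟩ := hconn.1
  replace hx₀ : x₀ ≠ 0 := hx₀
  -- a component which meets `M \ T` lies in `M`
  have hside : ∀ X, Comp X Set.univ T → (∃ y ∈ X, y ∉ T ∧ y ∈ M) → X ⊆ M := by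
    rintro X hX ⟨y, hy, hyT, hyM⟩
    have h0 : ∀ z ∈ X \ T, z ∈ M → z ∉ M' := by
      rintro z ⟨_, hzT⟩ h1 h2
      exact hzT (hI ▸ ⟨h1, h2⟩)
    rcases hX.conn.2 M M' hM hM' (fun z _ => by rw [hU]; trivial) h0 with h1 | h1
    · rw [← hX.cl_eq]
      exact hM.cl_subset h1
    · exact absurd (h1 ⟨hy, hyT⟩) (h0 y ⟨hy, hyT⟩ hyM)
  -- components in `M` contain `T`
  have hTX : ∀ X, Comp X Set.univ T → X ⊆ M → T ⊆ X := by
    intro X hX hXM
    have hgT : ∀ x ∈ T, x ≠ 0 → x ∈ X → Tg x T ⊆ Tg x X := by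
      intro x hxT hx0 hx
      have h1 := germ_eq hT hX hXM hx hxT hx0 (hS x hxT hx0)
      have h2 : Tg x M ⊆ Tg x X := by
        rw [← (hS x hxT hx0).1.cl_eq, ← h1]
        exact (tg_pol hX.pol hx).cl_subset Set.sdiff_subset
      exact (tg_mono hTM).trans h2
    have hTXcon : Con (T \ X) := hT.con.diff hX.pol.con
    have hdis : ∀ x ∈ T \ {0}, x ∈ X → x ∉ cl (T \ X) := by
      rintro x ⟨hxT, hx0⟩ hx hxc
      replace hx0 : x ≠ 0 := hx0
      have h1 : Tg x (T \ X) = ∅ := by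
        rw [tg_diff hX.pol.con]
        exact Set.sdiff_eq_empty.2 (hgT x hxT hx0 hx)
      have h2 := tg_cl hTXcon hxc hx0
      rw [h1, cl_empty] at h2
      have h3 : (1 : ℚ) • x ∈ Tg x (cl (T \ X)) := self_mem_tg hTXcon.pol_cl.con hxc 1
      rw [h2, one_smul] at h3
      exact hx0 h3
    rcases hconn.2 X (cl (T \ X)) hX.pol hTXcon.pol_cl (by
        rintro x ⟨hxT, _⟩
        by_cases hx : x ∈ X
        · exact Or.inl hx
        · exact Or.inr (subset_cl _ ⟨hxT, hx⟩)) hdis with h1 | h1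
    · intro x hxT
      by_cases hx0 : x = 0
      · rw [hx0]; exact hX.pol.1
      · exact h1 ⟨hxT, hx0⟩
    · exfalso
      have h2 : ∀ x ∈ T, x ∈ X → x = 0 := by
        intro x hxT hx
        by_contra hx0
        exact hdis x ⟨hxT, hx0⟩ hx (h1 ⟨hxT, hx0⟩)
      have hXcon : Con (Set.univ \ X) := pol_univ.con.diff hX.pol.con
      have hZ : Con (Set.univ \ (T ∪ X)) := pol_univ.con.diff (hT.con.union hX.pol.con)
      have hdis2 : ∀ x ∈ {x : E | x ≠ 0}, x ∈ X → x ∉ cl (Set.univ \ X) := by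
        intro x hx0 hx hxc
        have hxT : x ∉ T := fun h => hx0 (h2 x h hx)
        have h3 : cl (Set.univ \ X) ⊆ cl (Set.univ \ (T ∪ X)) ∪ T := by
          refine (hZ.pol_cl.union hT).cl_subset ?_
          rintro y ⟨_, hy⟩
          by_cases hyT : y ∈ T
          · exact Or.inr hyT
          · exact Or.inl (subset_cl _ ⟨trivial, fun h => h.elim hyT hy⟩)
        rcases h3 hxc with h4 | h4
        · exact hxT (hX.rest ⟨h4, hx⟩)
        · exact hxT h4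
      rcases (hConnP n E hfr).2 X (cl (Set.univ \ X)) hX.pol hXcon.pol_cl (by
          intro x _
          by_cases hx : x ∈ X
          · exact Or.inl hx
          · exact Or.inr (subset_cl _ ⟨trivial, hx⟩)) hdis2 with h3 | h3
      · exact hx₀ (h2 x₀ hx₀T (h3 hx₀))
      · obtain ⟨y, hy, hyT⟩ := hX.nonempty
        have hy0 : y ≠ 0 := fun h => hyT (h ▸ hT.1)
        exact hdis2 y hy0 hy (h3 hy0)
  -- a common point
  obtain ⟨v, hv⟩ := (hS x₀ hx₀T hx₀).1.nonempty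
  have hpt : ∀ X, Con X → v ∈ Tg x₀ X \ Tg x₀ T → ∃ ε : ℚ, 0 < ε ∧
      ∀ s : ℚ, 0 < s → s ≤ ε → x₀ + s • v ∈ X \ T := by
    intro X _ h
    rw [← tg_diff hT.con] at h
    exact h
  obtain ⟨ε, hε, hvM⟩ := hpt M hM.con hv
  obtain ⟨𝓜, _, h𝓜, hcov⟩ := exists_components (pol_univ (E := E)) hT
  have hyM := hvM ε hε le_rfl
  obtain ⟨X, hX𝓜, hyX⟩ := hcov (x₀ + ε • v) ⟨trivial, hyM.2⟩
  have hX := (h𝓜 X).1 hX𝓜
  have hXM := hside X hX ⟨_, hyX, hyM.2, hyM.1⟩
  have huniq : ∀ X', Comp X' Set.univ T → X' ⊆ M → X' = X := by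
    intro X' hX' hXM'
    have h1 := germ_eq hT hX hXM (hTX X hX hXM hx₀T) hx₀T hx₀ (hS x₀ hx₀T hx₀)
    have h2 := germ_eq hT hX' hXM' (hTX X' hX' hXM' hx₀T) hx₀T hx₀ (hS x₀ hx₀T hx₀)
    obtain ⟨δ, hδ, k1⟩ := hpt X hX.pol.con (h1 ▸ hv)
    obtain ⟨δ', hδ', k2⟩ := hpt X' hX'.pol.con (h2 ▸ hv)
    exact hX'.eq_of_meet pol_univ hT hX ⟨x₀ + (min δ δ') • v,
      k2 _ (lt_min hδ hδ') (min_le_right _ _), k1 _ (lt_min hδ hδ') (min_le_left _ _)⟩
  have hMX : M ⊆ X := by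
    intro y hy
    by_cases hyT : y ∈ T
    · exact hTX X hX hXM hyT
    · obtain ⟨X', hX'𝓜, hyX'⟩ := hcov y ⟨trivial, hyT⟩
      have hX' := (h𝓜 X').1 hX'𝓜
      rw [← huniq X' hX' (hside X' hX' ⟨y, hyX', hyT, hy⟩)]
      exact hyX'
  rw [subset_antisymm hMX hXM]
  exact hX

end AColC

theorem I_ColC (hConnP : St_ConnP) : St_ColC := by
  intro n E _ _ _ T M M' hfr hM hM' hU hI hS hconn
  refine ⟨AColC.half hConnP hfr hM hM' hU hI hS hconn,
    AColC.half hConnP hfr hM' hM (by rw [Set.union_comm]; exact hU)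
      (by rw [Set.inter_comm]; exact hI) (fun x hx hx0 => ?_) hconn, hU, hI⟩
  obtain ⟨h1, h2, h3, h4⟩ := hS x hx hx0
  exact ⟨h2, h1, by rw [Set.union_comm]; exact h3, by rw [Set.inter_comm]; exact h4⟩

end Pool.Agent.Work.MP_552024_lc.PLS
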