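import Pool.Agent.Work.MP_552024_lc.PLS.S4

set_option autoImplicit false

/-! From a coloring of the chambers to the two closed sides. -/

namespace Pool.Agent.Work.MP_552024_lc.PLS

open SignType

namespace AColM

section Gen

variable {E : Type*} [AddCommGroup E] [Module ℚ E]

theorem chm_same {A : Set (E →ₗ[ℚ] ℚ)} {x y : E} (h : SameSign A x y) (hx : Chm A x) :
    Chm A y := by
  intro a ha h0
  have h1 := h a ha
  rw [h0, sign_zero, sign_eq_zero_iff] at h1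
  exact hx a ha h1

theorem same_of_chm {A : Set (E →ₗ[ℚ] ℚ)} {x y : E} (hx : Chm A x) (h : x ∈ face A y) :
    SameSign A x y := fun a ha => (h a ha).resolve_left (hx a ha)

/-- There is a chamber near every point. -/
theorem exChm {A : Set (E →ₗ[ℚ] ℚ)} (hA : A.Finite) (hne : ∀ b ∈ A, b ≠ 0) (x : E) :
    ∃ y, Chm A y ∧ x ∈ face A y := by
  have hB : ({a | a ∈ A ∧ 0 < a x} ∪ ((fun a => -a) '' {a | a ∈ A ∧ a x < 0}) :
      Set (E →ₗ[ℚ] ℚ)).Finite :=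
    (hA.subset (fun _ h => h.1)).union ((hA.subset (fun _ h => h.1)).image _)
  obtain ⟨q, hq1, hq2⟩ := exists_generic A hA hne hB x (by
    rintro b (hb | ⟨a, ha, rfl⟩)
    · exact hb.2
    · simp only [LinearMap.neg_apply]
      linarith [ha.2])
  refine ⟨q, hq2, fun a ha => ?_⟩
  rcases lt_trichotomy (a x) 0 with h | h | h
  · right
    have h1 : 0 < (-a) q := hq1 (-a) (Or.inr ⟨a, ⟨ha, h⟩, rfl⟩)
    rw [LinearMap.neg_apply] at h1
    rw [sign_neg h, sign_neg (by linarith)]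
  · exact Or.inl h
  · right
    rw [sign_pos h, sign_pos (hq1 a (Or.inl ⟨ha, h⟩))]

theorem seg_same {A : Set (E →ₗ[ℚ] ℚ)} {x y : E} (h : SameSign A x y) {t : ℚ} (h0 : 0 ≤ t)
    (h1 : t ≤ 1) : SameSign A (x + t • (y - x)) y := by
  rcases h0.eq_or_lt with h2 | h2
  · rw [← h2, zero_smul, add_zero]
    exact h
  · exact sameSign_segment h.mem_face h2 h1

theorem face_seg {A : Set (E →ₗ[ℚ] ℚ)} {x p y : E} (hp : x ∈ face A p) (hy : x ∈ face A y)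
    {t : ℚ} (h0 : 0 ≤ t) (h1 : t ≤ 1) : x ∈ face A (p + t • (y - p)) := by
  intro a ha
  by_cases hx : a x = 0
  · exact Or.inl hx
  · right
    have e1 := (hp a ha).resolve_left hx
    have e2 := (hy a ha).resolve_left hx
    have h3 : SameSign {a} p y := by
      rintro b rfl
      rw [← e1, e2]
    rw [seg_same h3 h0 h1 a rfl, e2]

/-- Chamber points in `c`. -/
def Pc (A : Set (E →ₗ[ℚ] ℚ)) (c : Set E) : Set E := {x | Chm A x ∧ x ∈ c}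

/-- Chamber points not in `c`. -/
def Pn (A : Set (E →ₗ[ℚ] ℚ)) (c : Set E) : Set E := {x | Chm A x ∧ x ∉ c}

theorem inv_Pc {A : Set (E →ₗ[ℚ] ℚ)} {c : Set E} (h : InvC A c) : InvA A (Pc A c) :=
  fun x y hxy hx => ⟨chm_same hxy hx.1, h x y hxy hx.1 hx.2⟩

theorem inv_Pn {A : Set (E →ₗ[ℚ] ℚ)} {c : Set E} (h : InvC A c) : InvA A (Pn A c) :=
  fun x y hxy hx => ⟨chm_same hxy hx.1, fun hy => hx.2 (h y x hxy.symm (chm_same hxy hx.1) hy)⟩

theorem faces_cl {A : Set (E →ₗ[ℚ] ℚ)} {S : Set E} (hA : A.Finite) (hS : InvA A S)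
    (hne : S.Nonempty) : ∀ z ∈ cl S, face A z ⊆ cl S := by
  intro z hz w hw
  rw [mem_cl_iff hA hS] at hz ⊢
  right
  rcases hz with rfl | ⟨y, hy, hzy⟩
  · obtain ⟨y, hy⟩ := hne
    refine ⟨y, hy, fun a ha => Or.inl ?_⟩
    rcases hw a ha with h | h
    · exact h
    · rw [map_zero, sign_zero, sign_eq_zero_iff] at h
      exact h
  · exact ⟨y, hy, face_trans hw hzy⟩

theorem cover {A : Set (E →ₗ[ℚ] ℚ)} {c : Set E} (hA : A.Finite) (hne : ∀ b ∈ A, b ≠ 0)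
    (hinv : InvC A c) (x : E) : x ∈ cl (Pc A c) ∪ cl (Pn A c) := by
  obtain ⟨y, hy, hxy⟩ := exChm hA hne x
  by_cases h : y ∈ c
  · left
    rw [mem_cl_iff hA (inv_Pc hinv)]
    exact Or.inr ⟨y, ⟨hy, h⟩, hxy⟩
  · right
    rw [mem_cl_iff hA (inv_Pn hinv)]
    exact Or.inr ⟨y, ⟨hy, h⟩, hxy⟩

theorem facet_same {A : Set (E →ₗ[ℚ] ℚ)} {z p p' : E} {b : E →ₗ[ℚ] ℚ} (F : Facet A z b)
    (hp : z ∈ face A p) (hp' : z ∈ face A p') (hs : sign (b p) = sign (b p')) :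
    SameSign A p p' := by
  intro a ha
  by_cases h0 : a z = 0
  · obtain ⟨k, rfl⟩ := F.2.2 a ha h0
    rw [LinearMap.smul_apply, LinearMap.smul_apply, smul_eq_mul, smul_eq_mul, sign_mul, sign_mul,
      hs]
  · rw [← (hp a ha).resolve_left h0, ← (hp' a ha).resolve_left h0]

theorem facet_side {A : Set (E →ₗ[ℚ] ℚ)} {z : E} {b : E →ₗ[ℚ] ℚ} (hA : A.Finite)
    (hne : ∀ b ∈ A, b ≠ 0) (F : Facet A z b) {u : E} (hu : b u ≠ 0) :
    ∃ p, z ∈ face A p ∧ Chm A p ∧ sign (b p) = sign (b u) := by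
  obtain ⟨ε, hε, H⟩ := small_signs hA z u
  have H' := H ε hε le_rfl
  refine ⟨z + ε • u, ?_, ?_, (H' b F.1).2 F.2.1⟩
  · intro a ha
    by_cases h0 : a z = 0
    · exact Or.inl h0
    · exact Or.inr ((H' a ha).1 h0).symm
  · intro a ha h
    by_cases h0 : a z = 0
    · have h1 := (H' a ha).2 h0
      rw [h, sign_zero, eq_comm, sign_eq_zero_iff] at h1
      obtain ⟨k, hk⟩ := F.2.2 a ha h0
      have hk0 : k ≠ 0 := by
        rintro rfl
        exact hne a ha (by rw [hk, zero_smul])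
      rw [hk, LinearMap.smul_apply, smul_eq_mul] at h1
      exact (mul_ne_zero hk0 hu) h1
    · have h1 := (H' a ha).1 h0
      rw [h, sign_zero, eq_comm, sign_eq_zero_iff] at h1
      exact h0 h1

/-- Both colors occur near a facet in `T`. -/
theorem facet_two {A : Set (E →ₗ[ℚ] ℚ)} {c T : Set E} {z : E} {b : E →ₗ[ℚ] ℚ} (hA : A.Finite)
    (hne : ∀ b ∈ A, b ≠ 0) (F : Facet A z b) (FA : FlipAt A c T z b) (hz : z ∈ T) :
    (∃ p ∈ Pc A c, z ∈ face A p) ∧ (∃ p ∈ Pn A c, z ∈ face A p) := by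
  obtain ⟨u, hu⟩ : ∃ u, b u ≠ 0 := by
    by_contra hcon
    push Not at hcon
    exact hne b F.1 (LinearMap.ext hcon)
  have h1 : 0 < b (b u • u) := by
    rw [map_smul, smul_eq_mul]
    exact mul_self_pos.2 hu
  have h2 : b (-(b u • u)) < 0 := by
    rw [map_neg]
    linarith
  obtain ⟨p, hp1, hp2, hp3⟩ := facet_side hA hne F h1.ne'
  obtain ⟨q, hq1, hq2, hq3⟩ := facet_side hA hne F h2.ne
  rw [sign_pos h1, sign_eq_one_iff] at hp3
  rw [sign_neg h2, sign_eq_neg_one_iff] at hq3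
  have hiff := (FA p q hp1 hq1 hp3 hq3).2 hz
  by_cases hpc : p ∈ c
  · exact ⟨⟨p, ⟨hp2, hpc⟩, hp1⟩, ⟨q, ⟨hq2, hiff.1 hpc⟩, hq1⟩⟩
  · have hqc : q ∈ c := by
      by_contra hqc
      exact hpc (hiff.2 hqc)
    exact ⟨⟨q, ⟨hq2, hqc⟩, hq1⟩, ⟨p, ⟨hp2, hpc⟩, hp1⟩⟩

theorem facet_up {A : Set (E →ₗ[ℚ] ℚ)} {T : Set E} {x z : E} {b : E →ₗ[ℚ] ℚ} (hA : A.Finite)
    (F : Facet (At A x) z b) (hz : z ∈ Tg x T) : ∃ q ∈ T, Facet A q b ∧ x ∈ face A q := by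
  obtain ⟨ε, hε, K⟩ := hz
  obtain ⟨δ, hδ, H⟩ := small_signs hA x z
  have hs : 0 < min ε δ := lt_min hε hδ
  have H' := H _ hs (min_le_right _ _)
  refine ⟨x + (min ε δ) • z, K _ hs (min_le_left _ _), ⟨F.1.1, ?_, ?_⟩, ?_⟩
  · rw [map_add, map_smul, F.1.2, F.2.1, smul_zero, add_zero]
  · intro a ha h0
    by_cases hx : a x = 0
    · have h1 : a z = 0 := by
        rw [map_add, hx, zero_add, map_smul, smul_eq_mul] at h0
        exact (mul_eq_zero.1 h0).resolve_left hs.ne'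
      exact F.2.2 a ⟨ha, hx⟩ h1
    · have h1 := (H' a ha).1 hx
      rw [h0, sign_zero, eq_comm, sign_eq_zero_iff] at h1
      exact absurd h1 hx
  · intro a ha
    by_cases h0 : a x = 0
    · exact Or.inl h0
    · exact Or.inr ((H' a ha).1 h0).symm

theorem chm_up {A : Set (E →ₗ[ℚ] ℚ)} {x v : E} (hA : A.Finite) (hv : Chm (At A x) v) :
    ∃ ε : ℚ, 0 < ε ∧ ∀ s : ℚ, 0 < s → s ≤ ε → Chm A (x + s • v) := by
  obtain ⟨ε, hε, H⟩ := small_signs hA x v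
  refine ⟨ε, hε, fun s h0 h1 a ha h => ?_⟩
  have H' := H s h0 h1 a ha
  rw [h, sign_zero] at H'
  by_cases hx : a x = 0
  · have h2 := H'.2 hx
    rw [eq_comm, sign_eq_zero_iff] at h2
    exact hv a ⟨ha, hx⟩ h2
  · have h2 := H'.1 hx
    rw [eq_comm, sign_eq_zero_iff] at h2
    exact hx h2

theorem no_chm {A : Set (E →ₗ[ℚ] ℚ)} {T : Set E} (hA : A.Finite) (hT : ∀ x, Chm A x → x ∉ T)
    (x v : E) (hv : Chm (At A x) v) : v ∉ Tg x T := by
  rintro ⟨ε, hε, K⟩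
  obtain ⟨δ, hδ, H⟩ := chm_up hA hv
  exact hT _ (H _ (lt_min hε hδ) (min_le_right _ _)) (K _ (lt_min hε hδ) (min_le_left _ _))

theorem cell_side {B : Set (E →ₗ[ℚ] ℚ)} {U N N' : Set E} (hN : Pol N) (hN' : Pol N')
    (hu : N ∪ N' = Set.univ) (hi : N ∩ N' = U) (hU : ∀ x, Chm B x → x ∉ U) {v : E}
    (hv : Chm B v) : {w | SameSign B w v} ⊆ N ∨ {w | SameSign B w v} ⊆ N' := by
  have hc : Conn {w | SameSign B w v} := conn_of_convex ⟨v, fun _ _ => rfl⟩ (by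
    intro x hx y hy t ht0 ht1
    exact SameSign.trans (seg_same (SameSign.trans hx (SameSign.symm hy)) ht0 ht1) hy)
  refine hc.2 N N' hN hN' (by rw [hu]; exact Set.subset_univ _) (fun x hx h1 h2 => ?_)
  have h3 : Chm B x := chm_same (SameSign.symm hx) hv
  exact hU x h3 (by rw [← hi]; exact ⟨h1, h2⟩)

theorem exChmN {B : Set (E →ₗ[ℚ] ℚ)} {U N N' : Set E} (hB : B.Finite) (hne : ∀ b ∈ B, b ≠ 0)
    (hN : Pol N) (hN' : Pol N')
    (hu : N ∪ N' = Set.univ) (hi : N ∩ N' = U) (hU : ∀ x, Chm B x → x ∉ U)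
    (hc : (N \ U).Nonempty) : ∃ v, Chm B v ∧ {w | SameSign B w v} ⊆ N := by
  obtain ⟨n0, hn, hnU⟩ := hc
  obtain ⟨v, hv, hf⟩ := exChm hB hne n0
  rcases cell_side hN hN' hu hi hU hv with h | h
  · exact ⟨v, hv, h⟩
  · exfalso
    apply hnU
    rw [← hi]
    exact ⟨hn, hN'.cl_subset h (Or.inr ⟨v, fun _ _ => rfl,
      fun t h0 h1 => sameSign_segment hf h0 h1⟩)⟩

/-- Identification of a side. -/
theorem side_eq {U N N' R R' Q : Set E} (hN : Pol N) (hclN : cl (N \ U) = N)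
    (hu : N ∪ N' = Set.univ) (h1 : N \ U ⊆ R) (h2 : N' \ U ⊆ R') (hR : Pol R)
    (hRR : R ∩ R' ⊆ U) (hQ : R = cl Q) (hQU : ∀ x ∈ Q, x ∉ U) : R = N := by
  apply subset_antisymm
  · rw [hQ]
    refine hN.cl_subset (fun q hq => ?_)
    have h3 : q ∈ N ∪ N' := by rw [hu]; trivial
    rcases h3 with h3 | h3
    · exact h3
    · exfalso
      have h4 : q ∈ R := by rw [hQ]; exact subset_cl _ hq
      exact hQU q hq (hRR ⟨h4, h2 ⟨h3, hQU q hq⟩⟩)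
  · rw [← hclN]
    exact hR.cl_subset h1

end Gen

section Main

variable {E : Type} [AddCommGroup E] [Module ℚ E] [FiniteDimensional ℚ E]

theorem key (hGen : St_Gen) {A : Set (E →ₗ[ℚ] ℚ)} {c T : Set E} (hA : A.Finite)
    (hne : ∀ b ∈ A, b ≠ 0) (hinv : InvC A c) (hfl : ∀ z b, Facet A z b → FlipAt A c T z b)
    {x₀ y₀ : E} (hx : x₀ ∈ Pc A c) (hy : y₀ ∈ Pn A c) :
    ∃ y₁, SameSign A y₁ y₀ ∧ ∃ t : ℚ, 0 ≤ t ∧ t ≤ 1 ∧ x₀ + t • (y₁ - x₀) ∈ T := by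
  obtain ⟨y₁, hy1, hf⟩ := hGen E A x₀ y₀ hA hx.1 hy.1
  refine ⟨y₁, hy1, ?_⟩
  have hy1' : y₁ ∈ Pn A c := inv_Pn hinv _ _ hy1.symm hy
  obtain ⟨t, ht0, ht1, h1, h2⟩ := segment_meets hA _ x₀ y₁ (cl (Pc A c)) (cl (Pn A c)) le_rfl
    (faces_cl hA (inv_Pc hinv) ⟨_, hx⟩) (faces_cl hA (inv_Pn hinv) ⟨_, hy⟩)
    (fun t _ _ => cover hA hne hinv _) (subset_cl _ hx) (subset_cl _ hy1')
  refine ⟨t, ht0, ht1, ?_⟩
  have hf' := hf t ht0 ht1
  generalize x₀ + t • (y₁ - x₀) = z at h1 h2 hf' ⊢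
  obtain ⟨p, hp, hzp⟩ : ∃ p ∈ Pc A c, z ∈ face A p := by
    rw [mem_cl_iff hA (inv_Pc hinv)] at h1
    rcases h1 with rfl | h1
    · exact ⟨x₀, hx, zero_mem_face A _⟩
    · exact h1
  obtain ⟨q, hq, hzq⟩ : ∃ q ∈ Pn A c, z ∈ face A q := by
    rw [mem_cl_iff hA (inv_Pn hinv)] at h2
    rcases h2 with rfl | h2
    · exact ⟨y₀, hy, zero_mem_face A _⟩
    · exact h2
  have hno : ¬ SameSign A p q := fun hpq => hq.2 (hinv p q hpq hp.1 hp.2)
  by_cases hch : Chm A z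
  · exact absurd ((same_of_chm hch hzp).symm.trans (same_of_chm hch hzq)) hno
  · unfold Chm at hch
    push Not at hch
    obtain ⟨b, hb, hbz⟩ := hch
    have F := hf' b hb hbz
    have FA := hfl z b F
    have hp0 := hp.1 b hb
    have hq0 := hq.1 b hb
    rcases lt_or_gt_of_ne hp0 with h3 | h3 <;> rcases lt_or_gt_of_ne hq0 with h4 | h4
    · exact absurd (facet_same F hzp hzq (by rw [sign_neg h3, sign_neg h4])) hno
    · exact (FA q p hzq hzp h4 h3).1 ⟨fun h => absurd h hq.2, fun h => absurd hp.2 h⟩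
    · exact (FA p q hzp hzq h3 h4).1 ⟨fun _ => hq.2, fun _ => hp.2⟩
    · exact absurd (facet_same F hzp hzq (by rw [sign_pos h3, sign_pos h4])) hno

theorem inter_sub (hGen : St_Gen) {A : Set (E →ₗ[ℚ] ℚ)} {c T : Set E} (hA : A.Finite)
    (hne : ∀ b ∈ A, b ≠ 0) (hcl : ClA A T) (hinv : InvC A c)
    (hfl : ∀ z b, Facet A z b → FlipAt A c T z b) (h0 : (0 : E) ∈ T) :
    cl (Pc A c) ∩ cl (Pn A c) ⊆ T := by
  rintro x ⟨h1, h2⟩
  by_cases hx0 : x = 0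
  · rw [hx0]; exact h0
  obtain ⟨p, hp, hxp⟩ := ((mem_cl_iff hA (inv_Pc hinv) x).1 h1).resolve_left hx0
  obtain ⟨q, hq, hxq⟩ := ((mem_cl_iff hA (inv_Pn hinv) x).1 h2).resolve_left hx0
  obtain ⟨y₁, hy1, t, ht0, ht1, hz⟩ := key hGen hA hne hinv hfl hp hq
  exact hcl _ hz (face_seg hxp (face_trans hxq hy1.symm.mem_face) ht0 ht1)

/-- A facet point in the common boundary of two sides. -/
theorem facet_pt (hGen : St_Gen) {B : Set (E →ₗ[ℚ] ℚ)} {U N N' : Set E} (hB : B.Finite)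
    (hne : ∀ b ∈ B, b ≠ 0) (hN : Pol N) (hN' : Pol N')
    (hu : N ∪ N' = Set.univ) (hi : N ∩ N' = U) (hU : ∀ x, Chm B x → x ∉ U)
    (hc : (N \ U).Nonempty) (hc' : (N' \ U).Nonempty) : ∃ z b, Facet B z b ∧ z ∈ U := by
  obtain ⟨v, hv, hvN⟩ := exChmN hB hne hN hN' hu hi hU hc
  obtain ⟨w, hw, hwN⟩ := exChmN hB hne hN' hN (by rw [Set.union_comm]; exact hu)
    (by rw [Set.inter_comm]; exact hi) hU hc'
  obtain ⟨w₁, hw1, hf⟩ := hGen E B v w hB hv hw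
  obtain ⟨_, B₁, hB₁, K₁⟩ := id hN
  obtain ⟨_, B₂, hB₂, K₂⟩ := id hN'
  obtain ⟨t, ht0, ht1, h1, h2⟩ := segment_meets (hB₁.union hB₂) _ v w₁ N N' le_rfl
    (fun z hz => (face_anti Set.subset_union_left z).trans (K₁ z hz))
    (fun z hz => (face_anti Set.subset_union_right z).trans (K₂ z hz))
    (fun t _ _ => by rw [hu]; trivial) (hvN (fun _ _ => rfl)) (hwN hw1)
  have hz : v + t • (w₁ - v) ∈ U := by rw [← hi]; exact ⟨h1, h2⟩
  have hch : ¬ Chm B (v + t • (w₁ - v)) := fun h => hU _ h hz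
  unfold Chm at hch
  push Not at hch
  obtain ⟨b, hb, hbz⟩ := hch
  exact ⟨_, b, hf t ht0 ht1 b hb hbz, hz⟩

theorem local_sides (hGen : St_Gen) {A : Set (E →ₗ[ℚ] ℚ)} {c T : Set E} (hA : A.Finite)
    (hne : ∀ b ∈ A, b ≠ 0) (hcl : ClA A T) (hinv : InvC A c)
    (hfl : ∀ z b, Facet A z b → FlipAt A c T z b) (hT : ∀ x, Chm A x → x ∉ T)
    (h0 : (0 : E) ∈ T) {x : E} (hx0 : x ≠ 0) {N N' : Set E}
    (hS : Sides (Tg x T) N N') :
    x ∈ cl (Pc A c) ∧ x ∈ cl (Pn A c) ∧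
      Sides (Tg x T) (Tg x (cl (Pc A c))) (Tg x (cl (Pn A c))) := by
  obtain ⟨hCN, hCN', hu, hi⟩ := id hS
  have hneB : ∀ b ∈ At A x, b ≠ 0 := fun b hb => hne b hb.1
  have hB := at_finite hA x
  have hU : ∀ v, Chm (At A x) v → v ∉ Tg x T := fun v hv => no_chm hA hT x v hv
  have hPc := (inv_Pc hinv).con hA
  have hPn := (inv_Pn hinv).con hA
  have hch : ∀ {S : Set E}, (∀ y ∈ S, Chm A y) → ∀ v ∈ Tg x S, Chm (At A x) v := by
    rintro S hS v ⟨ε, hε, K⟩ a ha h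
    refine hS _ (K ε hε le_rfl) a ha.1 ?_
    rw [map_add, map_smul, ha.2, h, smul_zero, add_zero]
  have hQU : ∀ v ∈ Tg x (Pc A c), v ∉ Tg x T := fun v hv => hU v (hch (fun y hy => hy.1) v hv)
  have hQU' : ∀ v ∈ Tg x (Pn A c), v ∉ Tg x T := fun v hv => hU v (hch (fun y hy => hy.1) v hv)
  obtain ⟨z, b, hF, hz⟩ := facet_pt hGen hB hneB hCN.1 hCN'.1 hu hi hU hCN.2.2.2.1.1
    hCN'.2.2.2.1.1
  obtain ⟨q, hq, hFq, hxq⟩ := facet_up hA hF hz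
  obtain ⟨⟨p, hp, hqp⟩, ⟨p', hp', hqp'⟩⟩ := facet_two hA hne hFq (hfl q b hFq) hq
  have hQ : p ∈ Tg x (Pc A c) := (tg_near hA (inv_Pc hinv) (face_trans hxq hqp)).2 hp
  have hQ' : p' ∈ Tg x (Pn A c) := (tg_near hA (inv_Pn hinv) (face_trans hxq hqp')).2 hp'
  have hsub : Tg x (Pc A c) ⊆ Tg x (cl (Pc A c)) := tg_mono (subset_cl _)
  have hsub' : Tg x (Pn A c) ⊆ Tg x (cl (Pn A c)) := tg_mono (subset_cl _)
  have hxM : x ∈ cl (Pc A c) := mem_of_tg_nonempty hPc.pol_cl ⟨p, hsub hQ⟩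
  have hxM' : x ∈ cl (Pn A c) := mem_of_tg_nonempty hPn.pol_cl ⟨p', hsub' hQ'⟩
  have hPM := tg_pol hPc.pol_cl hxM
  have hPM' := tg_pol hPn.pol_cl hxM'
  have hMM : Tg x (cl (Pc A c)) ∩ Tg x (cl (Pn A c)) ⊆ Tg x T := by
    rw [← tg_inter]
    exact tg_mono (inter_sub hGen hA hne hcl hinv hfl h0)
  have hcov : Tg x (cl (Pc A c)) ∪ Tg x (cl (Pn A c)) = Set.univ := by
    rw [← tg_union hPc.pol_cl.con hPn.pol_cl.con,
      Set.eq_univ_of_forall (fun y => cover hA hne hinv y), tg_univ]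
  have e := tg_cl hPc hxM hx0
  have e' := tg_cl hPn hxM' hx0
  refine ⟨hxM, hxM', ?_⟩
  have d := hCN.2.2.2.1.2 _ _ hPM hPM' (by rw [hcov]; exact Set.subset_univ _)
    (fun v hv h1 h2 => hv.2 (hMM ⟨h1, h2⟩))
  have d' := hCN'.2.2.2.1.2 _ _ hPM hPM' (by rw [hcov]; exact Set.subset_univ _)
    (fun v hv h1 h2 => hv.2 (hMM ⟨h1, h2⟩))
  have hu' : N' ∪ N = Set.univ := by rw [Set.union_comm]; exact hu
  have hMM' : Tg x (cl (Pn A c)) ∩ Tg x (cl (Pc A c)) ⊆ Tg x T := by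
    rw [Set.inter_comm]; exact hMM
  rcases d with d | d <;> rcases d' with d' | d'
  · exfalso
    have h3 : p' ∈ N ∪ N' := by rw [hu]; trivial
    have h4 : p' ∈ Tg x (cl (Pc A c)) := by
      rcases h3 with h3 | h3
      · exact d ⟨h3, hQU' _ hQ'⟩
      · exact d' ⟨h3, hQU' _ hQ'⟩
    exact hQU' _ hQ' (hMM ⟨h4, hsub' hQ'⟩)
  · have e1 := side_eq hCN.1 hCN.2.2.1 hu d d' hPM hMM e hQU
    have e2 := side_eq hCN'.1 hCN'.2.2.1 hu' d' d hPM' hMM' e' hQU'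
    rw [e1, e2]
    exact hS
  · have e1 := side_eq hCN'.1 hCN'.2.2.1 hu' d' d hPM hMM e hQU
    have e2 := side_eq hCN.1 hCN.2.2.1 hu d d' hPM' hMM' e' hQU'
    rw [e1, e2]
    exact ⟨hCN', hCN, hu', by rw [Set.inter_comm]; exact hi⟩
  · exfalso
    have h3 : p ∈ N ∪ N' := by rw [hu]; trivial
    have h4 : p ∈ Tg x (cl (Pn A c)) := by
      rcases h3 with h3 | h3
      · exact d ⟨h3, hQU _ hQ⟩
      · exact d' ⟨h3, hQU _ hQ⟩
    exact hQU _ hQ (hMM ⟨hsub hQ, h4⟩)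

end Main

end AColM

open AColM in
/-- From a coloring to closed sets. -/
theorem I_ColM (hGen : St_Gen) : St_ColM := by
  intro E _ _ _ T A c hA hne hcl hinv hfl hT hloc hex
  have h0 : (0 : E) ∈ T := by
    obtain ⟨x, hx, _⟩ := hex
    exact hcl x hx (zero_mem_face A x)
  have hPc := (inv_Pc hinv).con hA
  have hPn := (inv_Pn hinv).con hA
  refine ⟨cl (Pc A c), cl (Pn A c), hPc.pol_cl, hPn.pol_cl,
    Set.eq_univ_of_forall (fun y => cover hA hne hinv y), ?_, ?_⟩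
  · apply subset_antisymm
    · exact inter_sub hGen hA hne hcl hinv hfl h0
    · intro x hx
      by_cases hx0 : x = 0
      · rw [hx0]; exact ⟨zero_mem_cl _, zero_mem_cl _⟩
      · obtain ⟨N, N', hS⟩ := hloc x hx hx0
        have h := local_sides hGen hA hne hcl hinv hfl hT h0 hx0 hS
        exact ⟨h.1, h.2.1⟩
  · intro x hx hx0
    obtain ⟨N, N', hS⟩ := hloc x hx hx0
    exact (local_sides hGen hA hne hcl hinv hfl hT h0 hx0 hS).2.2

end Pool.Agent.Work.MP_552024_lc.PLS
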