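import Pool.Agent.Work.MP_552024_lc.PLS.S4

set_option autoImplicit false

/-! Item ColS: a sphere of codimension one has a coloring. -/

namespace Pool.Agent.Work.MP_552024_lc.PLS

namespace AColS

open SignType

section Gen

variable {E : Type*} [AddCommGroup E] [Module ℚ E]

/-- A closed polyhedral set is a union of faces for finitely many nonzero forms. -/
theorem exists_clA {T : Set E} (hT : Pol T) :
    ∃ A : Set (E →ₗ[ℚ] ℚ), A.Finite ∧ (∀ b ∈ A, b ≠ 0) ∧ ClA A T := by
  obtain ⟨_, A, hA, H⟩ := hT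
  refine ⟨A \ {0}, hA.subset Set.sdiff_subset, fun b hb => hb.2, fun y hy x hx => H y hy ?_⟩
  intro a ha
  by_cases h0 : a = 0
  · left; rw [h0]; rfl
  · exact hx a ⟨ha, h0⟩

theorem sph_pol {k : ℕ} {T : Set E} (h : Sph k T) : Pol T := by
  obtain ⟨D₁, D₂, U, hT, _, h1, h2⟩ := h
  rw [hT]; exact h1.1.union h2.1

theorem sameSign_at {A : Set (E →ₗ[ℚ] ℚ)} {q x y : E} (h : SameSign A x y) :
    SameSign (At A q) x y := fun a ha => h a ha.1

/-- A point next to a facet, off the kernel of the form of the facet, lies in a chamber. -/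
theorem chm_of_facet {A : Set (E →ₗ[ℚ] ℚ)} (h0 : ∀ b ∈ A, b ≠ 0) {z x : E} {b : E →ₗ[ℚ] ℚ}
    (hf : Facet A z b) (hzx : z ∈ face A x) (hb : b x ≠ 0) : Chm A x := by
  intro a ha hax
  rcases hzx a ha with h1 | h1
  · obtain ⟨k, hk⟩ := hf.2.2 a ha h1
    rw [hk, LinearMap.smul_apply, smul_eq_mul] at hax
    rcases mul_eq_zero.1 hax with h2 | h2
    · apply h0 a ha; rw [hk, h2, zero_smul]
    · exact hb h2
  · rw [hax, sign_zero, sign_eq_zero_iff] at h1
    obtain ⟨k, hk⟩ := hf.2.2 a ha h1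
    rw [hk, LinearMap.smul_apply, smul_eq_mul] at hax
    rcases mul_eq_zero.1 hax with h2 | h2
    · apply h0 a ha; rw [hk, h2, zero_smul]
    · exact hb h2

/-- Two points next to a facet on the same side of the form of the facet. -/
theorem sameSign_of_facet {A : Set (E →ₗ[ℚ] ℚ)} {z x y : E} {b : E →ₗ[ℚ] ℚ}
    (hf : Facet A z b) (hzx : z ∈ face A x) (hzy : z ∈ face A y) (hb : sign (b x) = sign (b y)) :
    SameSign A x y := by
  intro a ha
  by_cases h1 : a z = 0
  · obtain ⟨k, hk⟩ := hf.2.2 a ha h1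
    rw [hk, LinearMap.smul_apply, LinearMap.smul_apply, smul_eq_mul, smul_eq_mul, sign_mul,
      sign_mul, hb]
  · rw [← (hzx a ha).resolve_left h1, ← (hzy a ha).resolve_left h1]

end Gen

section Loc

variable {E : Type*} [AddCommGroup E] [Module ℚ E] [FiniteDimensional ℚ E]

variable {A : Set (E →ₗ[ℚ] ℚ)} {q : E} {S N : Set E}

/-- Sides are invariant. -/
theorem inv_side (hS : Pol S) (hinv : InvA A S) (hN : Comp N Set.univ S) :
    InvA A (N \ S) := by
  intro x y hxy hx
  have hsub : {v | SameSign A v y} ⊆ N := by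
    refine hN.sub_of_conn pol_univ hS (conn_cell (A := A) y) ?_ ⟨x, hxy, hx.1⟩
    intro v hv
    exact ⟨trivial, fun hvS => hx.2 (hinv v x (SameSign.trans hv hxy.symm) hvS)⟩
  refine ⟨hsub (fun _ _ => rfl), fun hyS => hx.2 (hinv y x hxy.symm hyS)⟩

/-- Points off `S` in a face relation lie on the same side. -/
theorem side_iff (hS : Pol S) (hinv : InvA A S) (hN : Comp N Set.univ S) {z x : E}
    (hzx : z ∈ face A x) (hz : z ∉ S) (hx : x ∉ S) : x ∈ N ↔ z ∈ N := by
  have hconn : Conn {v : E | ∃ t : ℚ, 0 ≤ t ∧ t ≤ 1 ∧ v = z + t • (x - z)} := by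
    refine conn_of_convex ⟨z, 0, le_rfl, zero_le_one, by simp⟩ ?_
    rintro u ⟨t₁, h1, h2, rfl⟩ v ⟨t₂, h3, h4, rfl⟩ t ht0 ht1
    refine ⟨t₁ + t * (t₂ - t₁), by nlinarith, by nlinarith, by module⟩
  have hoff : {v : E | ∃ t : ℚ, 0 ≤ t ∧ t ≤ 1 ∧ v = z + t • (x - z)} ⊆ Set.univ \ S := by
    rintro u ⟨t, h1, h2, rfl⟩
    refine ⟨trivial, fun hu => ?_⟩
    rcases h1.eq_or_lt with h3 | h3
    · rw [← h3, zero_smul, add_zero] at hu; exact hz hu
    · exact hx (hinv _ _ (sameSign_segment hzx h3 h2) hu)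
  have hzm : z ∈ {v : E | ∃ t : ℚ, 0 ≤ t ∧ t ≤ 1 ∧ v = z + t • (x - z)} :=
    ⟨0, le_rfl, zero_le_one, by simp⟩
  have hxm : x ∈ {v : E | ∃ t : ℚ, 0 ≤ t ∧ t ≤ 1 ∧ v = z + t • (x - z)} :=
    ⟨1, zero_le_one, le_rfl, by simp⟩
  constructor
  · intro h
    exact hN.sub_of_conn pol_univ hS hconn hoff ⟨x, hxm, h⟩ hzm
  · intro h
    exact hN.sub_of_conn pol_univ hS hconn hoff ⟨z, hzm, h⟩ hxm

/-- A side touching the facet contains one of the two neighbouring chambers. -/
theorem touch {T : Set E} (hA : A.Finite) (hT : InvA A T) (hS : Pol S) (hSdef : S = Tg q T)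
    (hinv : InvA (At A q) S) (hN : Comp N Set.univ S) {z x y : E} {b : E →ₗ[ℚ] ℚ}
    (hf : Facet A z b) (hqz : q ∈ face A z) (hzx : z ∈ face A x) (hzy : z ∈ face A y)
    (hbx : 0 < b x) (hby : b y < 0) (hz0 : z ≠ 0) (hzT : z ∈ T) (hzN : z ∈ N) :
    x ∈ N ∨ y ∈ N := by
  have hNinv : InvA (At A q) (N \ S) := inv_side hS hinv hN
  rw [← hN.cl_eq, mem_cl_iff (at_finite hA q) hNinv] at hzN
  rcases hzN with h | ⟨v, hv, hzv⟩
  · exact absurd h hz0
  obtain ⟨ε, hε, H⟩ := mem_face_small hA z v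
  have hzp : z ∈ face A (z + ε • v) := H ε hε le_rfl
  have hpv : SameSign (At A q) (z + ε • v) v := by
    intro a ha
    rcases hzv a ha with h1 | h1
    · rw [map_add, h1, zero_add, map_smul, smul_eq_mul, sign_mul, sign_pos hε, one_mul]
    · by_cases h2 : a z = 0
      · rw [map_add, h2, zero_add, map_smul, smul_eq_mul, sign_mul, sign_pos hε, one_mul]
      · rw [← (hzp a ha.1).resolve_left h2, h1]
  have hp : z + ε • v ∈ N \ S := hNinv v _ hpv.symm hv
  have hqp : q ∈ face A (z + ε • v) := face_trans hqz hzp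
  have hpT : z + ε • v ∉ T := by
    intro h
    apply hp.2
    rw [hSdef]
    exact (tg_near hA hT hqp).2 h
  have hcase : ∀ w : E, z ∈ face A w → sign (b (z + ε • v)) = sign (b w) → w ∈ N := by
    intro w hzw hbw
    have h1 : SameSign A (z + ε • v) w := sameSign_of_facet hf hzp hzw hbw
    exact (hNinv _ _ (sameSign_at h1) hp).1
  rcases lt_trichotomy (b (z + ε • v)) 0 with h | h | h
  · right
    exact hcase y hzy (by rw [sign_neg h, sign_neg hby])
  · exfalso
    apply hpT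
    refine hT z _ ?_ hzT
    exact sameSign_of_facet hf (mem_face_self A z) hzp (by rw [h, hf.2.1])
  · left
    exact hcase x hzx (by rw [sign_pos h, sign_pos hbx])

end Loc

end AColS

open AColS in
theorem I_ColS (hLocS : St_LocS) (hJB : St_JB) (hNoChm : St_NoChm) : St_ColS := by
  intro n hSch E _ _ _ T hfr hT
  obtain ⟨A, hA, hA0, hcl⟩ := exists_clA (sph_pol hT)
  have hTpol : Pol T := sph_pol hT
  have hinv : InvA A T := hcl.inv
  have hch : ∀ x, Chm A x → x ∉ T := hNoChm (n + 1) E T A hfr hT hA hinv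
  have hLC : LC A T := by
    intro q hq0
    by_cases hqT : q ∈ T
    · obtain ⟨N, N', hN, hN', hun, hint⟩ := hLocS n hSch E T q hfr hT hqT hq0
      have hSp : Pol (Tg q T) := tg_pol hTpol hqT
      have hSinv : InvA (At A q) (Tg q T) := tg_inv hA hinv
      have hSinvA : InvA A (Tg q T) := hSinv.mono (fun a ha => ha.1)
      refine ⟨N \ Tg q T, fun x y hxy _ hx => inv_side hSp hSinv hN x y hxy hx, ?_⟩
      intro z₀ b hf₀ hqz₀ x y hzx₀ hzy₀ hbx hby
      -- replace z₀ by a nonzero point of the same cell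
      obtain ⟨z, hz0, hzz, hqz⟩ : ∃ z : E, z ≠ 0 ∧ SameSign A z z₀ ∧ q ∈ face A z := by
        by_cases h0 : z₀ = 0
        · refine ⟨q, hq0, ?_, mem_face_self A q⟩
          intro a ha
          rcases hqz₀ a ha with h1 | h1
          · rw [h1, h0, LinearMap.map_zero]
          · exact h1
        · exact ⟨z₀, h0, fun _ _ => rfl, hqz₀⟩
      have hzx : z ∈ face A x := face_trans hzz.mem_face hzx₀
      have hzy : z ∈ face A y := face_trans hzz.mem_face hzy₀
      have hf : Facet A z b := by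
        refine ⟨hf₀.1, ?_, fun a ha haz => hf₀.2.2 a ha ?_⟩
        · have := hzz b hf₀.1
          rw [hf₀.2.1, sign_zero, sign_eq_zero_iff] at this
          exact this
        · have := hzz a ha
          rw [haz, sign_zero, eq_comm, sign_eq_zero_iff] at this
          exact this
      have hzT : z ∈ T ↔ z₀ ∈ T := ⟨hinv _ _ hzz, hinv _ _ hzz.symm⟩
      rw [← hzT]
      have hqx : q ∈ face A x := face_trans hqz hzx
      have hqy : q ∈ face A y := face_trans hqz hzy
      have hxT : x ∉ T := hch x (chm_of_facet hA0 hf hzx hbx.ne')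
      have hyT : y ∉ T := hch y (chm_of_facet hA0 hf hzy hby.ne)
      have hxS : x ∉ Tg q T := fun h => hxT ((tg_near hA hinv hqx).1 h)
      have hyS : y ∉ Tg q T := fun h => hyT ((tg_near hA hinv hqy).1 h)
      have hxc : x ∈ N \ Tg q T ↔ x ∈ N := ⟨fun h => h.1, fun h => ⟨h, hxS⟩⟩
      have hyc : y ∈ N \ Tg q T ↔ y ∈ N := ⟨fun h => h.1, fun h => ⟨h, hyS⟩⟩
      rw [hxc, hyc]
      by_cases hzTm : z ∈ T
      · have hzS : z ∈ Tg q T := (tg_near hA hinv hqz).2 hzTm
        have hzNN : z ∈ N ∩ N' := by rw [hint]; exact hzS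
        have h1 := touch hA hinv hSp rfl hSinv hN hf hqz hzx hzy hbx hby hz0 hzTm hzNN.1
        have h2 := touch hA hinv hSp rfl hSinv hN' hf hqz hzx hzy hbx hby hz0 hzTm hzNN.2
        have hxx : ¬ (x ∈ N ∧ x ∈ N') := fun h => hxS (by rw [← hint]; exact h)
        have hyy : ¬ (y ∈ N ∧ y ∈ N') := fun h => hyS (by rw [← hint]; exact h)
        tauto
      · have hzS : z ∉ Tg q T := fun h => hzTm ((tg_near hA hinv hqz).1 h)
        have h1 := side_iff hSp hSinvA hN hzx hzS hxS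
        have h2 := side_iff hSp hSinvA hN hzy hzS hyS
        tauto
    · refine ⟨∅, fun x y _ _ hx => hx, ?_⟩
      intro z b _ hqz x y _ _ _ _
      have hzT : z ∉ T := fun h => hqT (hcl z h hqz)
      have h1 : x ∉ (∅ : Set E) := fun h => h
      have h2 : y ∉ (∅ : Set E) := fun h => h
      tauto
  obtain ⟨c, hc, hflip⟩ := hJB n E A T hfr hA hA0 hinv hLC
  exact ⟨A, c, hA, hA0, hcl, hc, hflip⟩

end Pool.Agent.Work.MP_552024_lc.PLS
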