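import Pool.Agent.Work.MP_552024_lc.PLS.S4

set_option autoImplicit false

namespace Pool.Agent.Work.MP_552024_lc.PLS

namespace AConnB

theorem orth_diff (k : ℕ) : Orth (k + 1) \ dOrth (k + 1) = KO (crd (k + 1)) := by
  ext x
  constructor
  · rintro ⟨h1, h2⟩ i
    rcases (h1 i).eq_or_lt with h | h
    · exact absurd ⟨h1, i, h.symm⟩ h2
    · exact h
  · intro h
    refine ⟨fun i => le_of_lt (h i), ?_⟩
    rintro ⟨_, i, hi⟩
    exact absurd hi (ne_of_gt (h i))

theorem conn_orth (k : ℕ) : Conn (Orth (k + 1) \ dOrth (k + 1)) := by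
  rw [orth_diff]
  refine conn_of_convex ⟨_, one_mem_KO _⟩ ?_
  intro x hx y hy t h0 h2 i
  have hxi : 0 < crd (k + 1) i x := hx i
  have hyi : 0 < crd (k + 1) i y := hy i
  rw [map_add, map_smul, map_sub, smul_eq_mul]
  rcases h2.eq_or_lt with h3 | h3
  · rw [h3]; linarith
  · nlinarith [mul_nonneg h0 hyi.le, mul_pos (sub_pos.2 h3) hxi]

theorem cl_orth (k : ℕ) : cl (Orth (k + 1) \ dOrth (k + 1)) = Orth (k + 1) := by
  apply subset_antisymm
  · exact (pol_Orth _).cl_subset Set.sdiff_subset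
  · intro x hx
    right
    refine ⟨fun _ => 1, ?_, fun t h0 h1 => ?_⟩
    · rw [orth_diff]; exact one_mem_KO _
    · rw [orth_diff]
      intro i
      show 0 < x i + t * (1 - x i)
      have := hx i
      nlinarith

end AConnB

theorem I_ConnB : St_ConnB := by
  intro n E _ _ _ A T hB
  obtain ⟨hA, hTA, f, g, hfg, hbd⟩ := hB
  have hO : f '' Orth (n + 1) = A := by
    ext y
    constructor
    · rintro ⟨x, hx, rfl⟩; exact hfg.mapsf x hx
    · intro hy; exact ⟨g y, hfg.mapsg y hy, hfg.fg y hy⟩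
  have hdO : f '' dOrth (n + 1) = T := by
    ext y
    constructor
    · rintro ⟨x, hx, rfl⟩; exact (hbd x (dOrth_subset _ hx)).1 hx
    · intro hy
      have hyA := hTA hy
      refine ⟨g y, (hbd (g y) (hfg.mapsg y hyA)).2 ?_, hfg.fg y hyA⟩
      rw [hfg.fg y hyA]; exact hy
  have hd : A \ T = f '' (Orth (n + 1) \ dOrth (n + 1)) := by
    rw [hfg.image_diff subset_rfl (dOrth_subset _), hO, hdO]
  refine ⟨?_, ?_, ?_⟩
  · rw [hd]
    exact hfg.conn_image (pol_Orth _) Set.sdiff_subset (AConnB.conn_orth n)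
  · rw [hd, ← hfg.image_cl (pol_Orth _) hA Set.sdiff_subset
      ((pol_Orth _).con.diff (pol_dOrth _).con), AConnB.cl_orth, hO]
  · have h0 : (0 : Fin (n + 1) → ℚ) ∈ dOrth (n + 1) := ⟨fun _ => le_rfl, 0, rfl⟩
    have h1 := (hbd 0 (dOrth_subset _ h0)).1 h0
    rwa [hfg.plf.zero (dOrth_subset _ h0)] at h1

end Pool.Agent.Work.MP_552024_lc.PLS
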