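import Pool.Agent.Work.MP_552024_lc.PLS.S4

/-!
Item ConnB0: a ball without the apex is connected.
-/

set_option autoImplicit false

namespace Pool.Agent.Work.MP_552024_lc.PLS

namespace AConnB0

/-- The orthant without the apex is connected. -/
theorem conn_orth (n : ℕ) : Conn (Orth (n + 1) \ {0}) := by
  apply conn_of_convex
  · refine ⟨fun _ => 1, fun i => zero_le_one, fun h => ?_⟩
    have := congrFun h 0
    exact one_ne_zero this
  · rintro x ⟨hx, hx0⟩ y ⟨hy, hy0⟩ t ht0 ht1
    have hx : ∀ i, 0 ≤ x i := hx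
    have hy : ∀ i, 0 ≤ y i := hy
    have hval : ∀ i, (x + t • (y - x)) i = (1 - t) * x i + t * y i := by
      intro i
      simp only [Pi.add_apply, Pi.smul_apply, Pi.sub_apply, smul_eq_mul]; ring
    refine ⟨fun i => ?_, fun h0 => ?_⟩
    · show 0 ≤ (x + t • (y - x)) i
      rw [hval]
      exact add_nonneg (mul_nonneg (by linarith) (hx i)) (mul_nonneg ht0 (hy i))
    · have h0 : x + t • (y - x) = 0 := h0
      have h1 : ∀ i, (1 - t) * x i = 0 ∧ t * y i = 0 := by
        intro i
        have h2 : (1 - t) * x i + t * y i = 0 := by rw [← hval, h0]; rfl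
        have h3 : 0 ≤ (1 - t) * x i := mul_nonneg (by linarith) (hx i)
        have h4 : 0 ≤ t * y i := mul_nonneg ht0 (hy i)
        exact ⟨by linarith, by linarith⟩
      rcases eq_or_ne t 0 with h5 | h5
      · apply hx0
        show x = 0
        funext i
        have h6 := (h1 i).1
        rw [h5, sub_zero, one_mul] at h6
        exact h6
      · apply hy0
        show y = 0
        funext i
        exact (mul_eq_zero.1 (h1 i).2).resolve_left h5

end AConnB0

theorem I_ConnB0 : St_ConnB0 := by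
  intro n E _ _ _ A T hB
  obtain ⟨hA, _, f, g, hfg, _⟩ := hB
  have hO : Pol (Orth (n + 1)) := pol_Orth (n + 1)
  have hf0 : f 0 = 0 := hfg.plf.zero hO.1
  have hg0 : g 0 = 0 := hfg.plg.zero hA.1
  have himg : f '' (Orth (n + 1) \ {0}) = A \ {0} := by
    ext y
    constructor
    · rintro ⟨x, ⟨hx, hx0⟩, rfl⟩
      refine ⟨hfg.mapsf x hx, fun h => hx0 ?_⟩
      have h : f x = 0 := h
      show x = 0
      rw [← hfg.gf x hx, h, hg0]
    · rintro ⟨hy, hy0⟩
      refine ⟨g y, ⟨hfg.mapsg y hy, fun h => hy0 ?_⟩, hfg.fg y hy⟩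
      have h : g y = 0 := h
      show y = 0
      rw [← hfg.fg y hy, h, hf0]
  rw [← himg]
  exact hfg.conn_image hO Set.sdiff_subset (AConnB0.conn_orth n)

end Pool.Agent.Work.MP_552024_lc.PLS
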