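import Pool.Agent.Work.MP_552024_lc.PLS.S4

/-!
# MP_552024_lc: the punctured space is connected in dimension at least two
-/

set_option autoImplicit false

namespace Pool.Agent.Work.MP_552024_lc.PLS

namespace AConnP

variable {E : Type} [AddCommGroup E] [Module ℚ E]

lemma seg {F₁ F₂ : Set E} (h1 : Pol F₁) (h2 : Pol F₂) (hcov : {x : E | x ≠ 0} ⊆ F₁ ∪ F₂)
    (hdis : ∀ x ∈ {x : E | x ≠ 0}, x ∈ F₁ → x ∉ F₂) {x y : E}
    (hxy : ∀ t : ℚ, 0 ≤ t → t ≤ 1 → x + t • (y - x) ≠ 0) (hx : x ∈ F₁) : y ∈ F₁ := by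
  set s : Set E := {z | ∃ t : ℚ, 0 ≤ t ∧ t ≤ 1 ∧ z = x + t • (y - x)} with hs
  have hsc : Conn s := by
    refine conn_of_convex ⟨x, 0, le_rfl, zero_le_one, by simp⟩ ?_
    rintro u ⟨t, ht0, ht1, rfl⟩ v ⟨t', ht0', ht1', rfl⟩ r hr0 hr1
    refine ⟨t + r * (t' - t), by nlinarith, by nlinarith, ?_⟩
    module
  have hsub : ∀ z ∈ s, z ∈ {x : E | x ≠ 0} := by
    rintro z ⟨t, ht0, ht1, rfl⟩
    exact hxy t ht0 ht1
  have hxs : x ∈ s := ⟨0, le_rfl, zero_le_one, by simp⟩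
  have hys : y ∈ s := ⟨1, zero_le_one, le_rfl, by simp⟩
  rcases hsc.2 F₁ F₂ h1 h2 (fun z hz => hcov (hsub z hz))
    (fun z hz => hdis z (hsub z hz)) with h | h
  · exact h hys
  · exact absurd (h hxs) (hdis x (hsub x hxs) hx)

lemma all [FiniteDimensional ℚ E] {n : ℕ} (hn : Module.finrank ℚ E = n + 2)
    {F₁ F₂ : Set E} (h1 : Pol F₁) (h2 : Pol F₂) (hcov : {x : E | x ≠ 0} ⊆ F₁ ∪ F₂)
    (hdis : ∀ x ∈ {x : E | x ≠ 0}, x ∈ F₁ → x ∉ F₂) {x : E} (hx0 : x ≠ 0)
    (hx : x ∈ F₁) {y : E} (hy0 : y ≠ 0) : y ∈ F₁ := by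
  by_cases hs : ∀ t : ℚ, 0 ≤ t → t ≤ 1 → x + t • (y - x) ≠ 0
  · exact seg h1 h2 hcov hdis hs hx
  push Not at hs
  obtain ⟨t, _, _, ht⟩ := hs
  have ht' : t ≠ 0 := by
    rintro rfl
    apply hx0
    simpa using ht
  have hyx : y ∈ Submodule.span ℚ {x} := by
    rw [Submodule.mem_span_singleton]
    refine ⟨1 - t⁻¹, ?_⟩
    have h3 : t⁻¹ • (x + t • (y - x)) = 0 := by rw [ht, smul_zero]
    rw [smul_add, smul_smul, inv_mul_cancel₀ ht', one_smul] at h3
    have h4 : y = x - t⁻¹ • x := by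
      have := eq_neg_of_add_eq_zero_right h3
      rw [sub_eq_iff_eq_add] at this
      rw [this]
      abel
    rw [sub_smul, one_smul]
    exact h4.symm
  obtain ⟨z, hz⟩ : ∃ z : E, z ∉ Submodule.span ℚ {x} := by
    by_contra hcon
    push Not at hcon
    have h3 : Submodule.span ℚ {x} = ⊤ := (Submodule.eq_top_iff').2 hcon
    have h4 := finrank_span_singleton (K := ℚ) hx0
    rw [h3, finrank_top] at h4
    omega
  have e1 : z ∈ F₁ := by
    refine seg h1 h2 hcov hdis (fun r _ _ hr => ?_) hx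
    have hr0 : r ≠ 0 := by
      rintro rfl
      apply hx0
      simpa using hr
    apply hz
    rw [Submodule.mem_span_singleton]
    refine ⟨1 - r⁻¹, ?_⟩
    have h3 : r⁻¹ • (x + r • (z - x)) = 0 := by rw [hr, smul_zero]
    rw [smul_add, smul_smul, inv_mul_cancel₀ hr0, one_smul] at h3
    have h4 : z = x - r⁻¹ • x := by
      have := eq_neg_of_add_eq_zero_right h3
      rw [sub_eq_iff_eq_add] at this
      rw [this]
      abel
    rw [sub_smul, one_smul]
    exact h4.symm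
  refine seg h1 h2 hcov hdis (fun r _ _ hr => ?_) e1
  have hr0 : 1 - r ≠ 0 := by
    intro h
    have h5 : r = 1 := by linarith
    subst h5
    apply hy0
    simpa using hr
  apply hz
  have h6 : (1 - r) • z = - (r • y) := by
    have h7 : (1 - r) • z + r • y = z + r • (y - z) := by module
    rw [hr] at h7
    exact eq_neg_of_add_eq_zero_left h7
  have h8 : z = (1 - r)⁻¹ • (- (r • y)) := by
    rw [← h6, smul_smul, inv_mul_cancel₀ hr0, one_smul]
  rw [h8]
  exact Submodule.smul_mem _ _ (Submodule.neg_mem _ (Submodule.smul_mem _ _ hyx))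

end AConnP

open AConnP in
theorem I_ConnP : St_ConnP := by
  intro n E _ _ _ hn
  have hnt : Nontrivial E := Module.nontrivial_of_finrank_pos (R := ℚ) (by omega)
  obtain ⟨x, hx⟩ := exists_ne (0 : E)
  refine ⟨⟨x, hx⟩, fun F₁ F₂ h1 h2 hcov hdis => ?_⟩
  rcases hcov hx with h | h
  · exact Or.inl fun y hy => all hn h1 h2 hcov hdis hx h hy
  · refine Or.inr fun y hy => all hn h2 h1 (fun z hz => (hcov hz).symm) ?_ hx h hy
    exact fun z hz h3 h4 => hdis z hz h4 h3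

end Pool.Agent.Work.MP_552024_lc.PLS
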