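import Pool.Agent.Work.MP_552024_lc.PLS.S4

set_option autoImplicit false

namespace Pool.Agent.Work.MP_552024_lc.PLS

theorem I_ConnS (hSphIso : St_SphIso) (hSphQ : St_SphQ) (hConnP : St_ConnP) : St_ConnS := by
  intro k E _ _ _ T hT
  have h1 : Sph (k + 2) (Set.univ : Set (Fin (k + 2) → ℚ)) :=
    hSphQ (k + 1) (Fin (k + 2) → ℚ) (by simp)
  obtain ⟨f, g, h⟩ := hSphIso (k + 1) (Fin (k + 2) → ℚ) E Set.univ T h1 hT
  have hc : Conn ({x : Fin (k + 2) → ℚ | x ≠ 0}) := hConnP k (Fin (k + 2) → ℚ) (by simp)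
  have hpol : Pol (Set.univ : Set (Fin (k + 2) → ℚ)) :=
    ⟨Set.mem_univ _, ∅, Set.finite_empty, fun _ _ => Set.subset_univ _⟩
  have hf0 : f 0 = 0 := h.plf.zero (Set.mem_univ 0)
  have himg : f '' {x : Fin (k + 2) → ℚ | x ≠ 0} = T \ {0} := by
    ext y
    constructor
    · rintro ⟨x, hx, rfl⟩
      refine ⟨h.mapsf x (Set.mem_univ _), fun h0 => hx ?_⟩
      have h0' : f x = 0 := h0
      have e1 := h.gf x (Set.mem_univ _)
      have e2 := h.gf 0 (Set.mem_univ _)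
      rw [h0'] at e1
      rw [hf0] at e2
      rw [← e1, e2]
    · rintro ⟨hy, hy0⟩
      refine ⟨g y, fun h0 => hy0 ?_, h.fg y hy⟩
      have e := h.fg y hy
      rw [h0, hf0] at e
      exact e.symm
  rw [← himg]
  exact h.conn_image hpol (Set.subset_univ _) hc

end Pool.Agent.Work.MP_552024_lc.PLS
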