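import Pool.Agent.Work.MP_552024_lc.PLS.S4L

set_option autoImplicit false

/-! Item CutT: elementary consequences of a cut. -/

namespace Pool.Agent.Work.MP_552024_lc.PLS

namespace ACutT

theorem inter_eq {E : Type} [AddCommGroup E] [Module ℚ E] {T D C E₁ : Set E}
    (h1 : E₁ ⊆ T) (hdT : D ∩ T = C) (hD : C ⊆ D) (hE : C ⊆ E₁) : D ∩ E₁ = C := by
  apply subset_antisymm
  · rintro x ⟨hx, hx1⟩
    rw [← hdT]
    exact ⟨hx, h1 hx1⟩
  · exact fun x hx => ⟨hD hx, hE hx⟩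

end ACutT

open ACutT in
theorem I_CutT (hTheta : St_Theta) : St_CutT := by
  intro E _ _ _ T D C E₁ E₂ hfr h
  have e1 : D ∩ E₁ = C :=
    inter_eq (by rw [← h.uni]; exact Set.subset_union_left) h.dT h.ballD.2.1 h.ball1.2.1
  have e2 : D ∩ E₂ = C :=
    inter_eq (by rw [← h.uni]; exact Set.subset_union_right) h.dT h.ballD.2.1 h.ball2.2.1
  refine ⟨⟨E₁, D, C, rfl, by rw [Set.inter_comm, e1], h.ball1, h.ballD⟩,
    ⟨E₂, D, C, rfl, by rw [Set.inter_comm, e2], h.ball2, h.ballD⟩, fun h1 h2 => ?_, e1, e2⟩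
  have := hTheta 2 E D E₁ E₂ C hfr h.ballD h.ball1 h.ball2 e1 e2 h.int h1 h2
  rwa [h.uni] at this

end Pool.Agent.Work.MP_552024_lc.PLS
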