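import Pool.Agent.Work.MP_552024_lc.PLS.S4

set_option autoImplicit false

/-! Item Der: the derivative of a piecewise linear homeomorphism at a point. -/

namespace Pool.Agent.Work.MP_552024_lc.PLS

open SignType

namespace ADer

variable {E : Type*} [AddCommGroup E] [Module ℚ E]
variable {E' : Type*} [AddCommGroup E'] [Module ℚ E']

/-- `f (x + s v) = f x + s w` for small positive `s`. -/
def D (f : E → E') (x v : E) (w : E') : Prop :=
  ∃ ε : ℚ, 0 < ε ∧ ∀ s : ℚ, 0 < s → s ≤ ε → f (x + s • v) = f x + s • w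

theorem D.unique {f : E → E'} {x v : E} {w w' : E'} (h : D f x v w) (h' : D f x v w') :
    w = w' := by
  obtain ⟨ε, hε, H⟩ := h
  obtain ⟨δ, hδ, K⟩ := h'
  have hm : 0 < min ε δ := lt_min hε hδ
  have h1 := (H _ hm (min_le_left _ _)).symm.trans (K _ hm (min_le_right _ _))
  have h2 := add_left_cancel h1
  have h3 : (min ε δ)⁻¹ • (min ε δ • w) = (min ε δ)⁻¹ • (min ε δ • w') := by rw [h2]
  rwa [smul_smul, smul_smul, inv_mul_cancel₀ hm.ne', one_smul, one_smul] at h3

open Classical in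
/-- The derivative of `f` at `x` in the direction `v`. -/
noncomputable def der (f : E → E') (x v : E) : E' :=
  if h : ∃ w, D f x v w then h.choose else 0

theorem der_eq {f : E → E'} {x v : E} {w : E'} (h : D f x v w) : der f x v = w := by
  have h' : ∃ w, D f x v w := ⟨w, h⟩
  unfold der
  rw [dif_pos h']
  exact h'.choose_spec.unique h

theorem key {f : E → E'} {S : Set E} {A : Set (E →ₗ[ℚ] ℚ)} {Λ : Set (E →ₗ[ℚ] E')}
    (hA : A.Finite) (H : ∀ y ∈ S, ∃ L ∈ Λ, ∀ x ∈ S, x ∈ face A y → f x = L x) {x : E}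
    (hx : x ∈ S) {v : E} (hv : v ∈ Tg x S) :
    ∃ L ∈ Λ, ∀ v' ∈ Tg x S, v' ∈ face (At A x) v → D f x v' (L v') := by
  obtain ⟨ε, hε, K⟩ := hv
  obtain ⟨δ, hδ, H1⟩ := small_signs hA x v
  have hm : 0 < min ε δ := lt_min hε hδ
  have hy := K _ hm (min_le_left _ _)
  obtain ⟨L, hL, HL⟩ := H _ hy
  have hxf : x ∈ face A (x + min ε δ • v) := by
    intro a ha
    by_cases h5 : a x = 0
    · exact Or.inl h5
    · exact Or.inr ((H1 _ hm (min_le_right _ _) a ha).1 h5).symm
  have hfx : f x = L x := HL x hx hxf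
  refine ⟨L, hL, fun v' hv' hf => ?_⟩
  obtain ⟨ε', hε', K'⟩ := hv'
  obtain ⟨δ', hδ', H1'⟩ := small_signs hA x v'
  refine ⟨min ε' δ', lt_min hε' hδ', fun s h0 h1 => ?_⟩
  have hmem := K' s h0 (h1.trans (min_le_left _ _))
  have hs := h1.trans (min_le_right _ _)
  have hface : x + s • v' ∈ face A (x + min ε δ • v) := by
    intro a ha
    by_cases h5 : a x = 0
    · rcases hf a ⟨ha, h5⟩ with h6 | h6
      · left
        rw [map_add, map_smul, h5, h6, smul_zero, add_zero]
      · right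
        rw [(H1' s h0 hs a ha).2 h5, h6, (H1 _ hm (min_le_right _ _) a ha).2 h5]
    · right
      rw [(H1' s h0 hs a ha).1 h5, (H1 _ hm (min_le_right _ _) a ha).1 h5]
  rw [HL _ hmem hface, map_add, map_smul, hfx]

theorem D_der {f : E → E'} {S : Set E} (hf : PLOn f S) {x : E} (hx : x ∈ S) {v : E}
    (hv : v ∈ Tg x S) : D f x v (der f x v) := by
  obtain ⟨A, hA, Λ, _, H⟩ := hf
  obtain ⟨L, _, HL⟩ := key hA H hx hv
  have h := HL v hv (mem_face_self _ _)
  rwa [der_eq h]

theorem plOn_der {f : E → E'} {S : Set E} (hf : PLOn f S) {x : E} (hx : x ∈ S) :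
    PLOn (der f x) (Tg x S) := by
  obtain ⟨A, hA, Λ, hΛ, H⟩ := hf
  refine ⟨At A x, at_finite hA x, Λ, hΛ, fun v hv => ?_⟩
  obtain ⟨L, hL, HL⟩ := key hA H hx hv
  exact ⟨L, hL, fun v' hv' hf' => der_eq (HL v' hv' hf')⟩

theorem hom {f : E → E'} {S : Set E} (hf : PLOn f S) (hS : Con S) {y : E} (hy : y ∈ S) {c : ℚ}
    (hc : 0 < c) : f (c • y) = c • f y := by
  obtain ⟨A, hA, Λ, _, H⟩ := hf
  obtain ⟨L, _, HL⟩ := H y hy
  have h1 : c • y ∈ S := (inv_smul hS y hc).2 hy
  have h2 : c • y ∈ face A y := by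
    intro a _
    right
    rw [map_smul, smul_eq_mul, sign_mul, sign_pos hc, one_mul]
  rw [HL _ h1 h2, HL _ hy (mem_face_self _ _), map_smul]

theorem mapsTo {f : E → E'} {g : E' → E} {S : Set E} {T : Set E'} (h : PLInv f g S T) {x : E}
    (hx : x ∈ S) {v : E} (hv : v ∈ Tg x S) : der f x v ∈ Tg (f x) T := by
  obtain ⟨ε, hε, H⟩ := D_der h.plf hx hv
  obtain ⟨δ, hδ, K⟩ := hv
  refine ⟨min ε δ, lt_min hε hδ, fun s h0 h1 => ?_⟩
  rw [← H s h0 (h1.trans (min_le_left _ _))]
  exact h.mapsf _ (K s h0 (h1.trans (min_le_right _ _)))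

theorem D_inv {f : E → E'} {g : E' → E} {S : Set E} {T : Set E'} (h : PLInv f g S T) {x : E}
    (hx : x ∈ S) {v : E} (hv : v ∈ Tg x S) : D g (f x) (der f x v) v := by
  obtain ⟨ε, hε, H⟩ := D_der h.plf hx hv
  obtain ⟨δ, hδ, K⟩ := hv
  refine ⟨min ε δ, lt_min hε hδ, fun s h0 h1 => ?_⟩
  rw [← H s h0 (h1.trans (min_le_left _ _)), h.gf _ (K s h0 (h1.trans (min_le_right _ _))),
    h.gf _ hx]

theorem plInv_der {f : E → E'} {g : E' → E} {S : Set E} {T : Set E'} (h : PLInv f g S T) {x : E}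
    (hx : x ∈ S) : PLInv (der f x) (der g (f x)) (Tg x S) (Tg (f x) T) := by
  have hy : f x ∈ T := h.mapsf x hx
  refine ⟨plOn_der h.plf hx, plOn_der h.plg hy, fun v hv => mapsTo h hx hv, fun w hw => ?_,
    fun v hv => der_eq (D_inv h hx hv), fun w hw => ?_⟩
  · have h1 := mapsTo h.symm hy hw
    rwa [h.gf x hx] at h1
  · have h1 := D_inv h.symm hy hw
    rw [h.gf x hx] at h1
    exact der_eq h1

end ADer

open ADer in
theorem I_Der : St_Der := by
  intro E E' _ _ _ _ _ _ S T f g x h hS hT hx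
  refine ⟨der f x, der g (f x), plInv_der h hx, ?_, ?_, ?_⟩
  · intro v hv c
    obtain ⟨ε, hε, H⟩ := D_der h.plf hx hv
    obtain ⟨δ, hδ, K⟩ := hv
    apply der_eq
    have hc : 0 < 2 * (|c| + 1) := by positivity
    refine ⟨min (min ε δ / 2) (1 / (2 * (|c| + 1))),
      lt_min (by have := lt_min hε hδ; linarith) (by positivity), fun s h0 h1 => ?_⟩
    have h2 : s ≤ min ε δ / 2 := h1.trans (min_le_left _ _)
    have h3 : s ≤ 1 / (2 * (|c| + 1)) := h1.trans (min_le_right _ _)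
    have h4 : s * |c| ≤ 1 / 2 := by
      rw [le_div_iff₀ hc] at h3
      nlinarith [abs_nonneg c]
    have h5 : -(1 / 2) ≤ s * c := by
      have := neg_abs_le c
      nlinarith
    have h6 : 0 < 1 + s * c := by linarith
    have h7 : 0 < s / (1 + s * c) := div_pos h0 h6
    have h8 : s / (1 + s * c) ≤ min ε δ := by
      rw [div_le_iff₀ h6]
      have := lt_min hε hδ
      nlinarith
    have e1 : x + s • (v + c • x) = (1 + s * c) • (x + (s / (1 + s * c)) • v) := by
      rw [smul_add, smul_add, smul_smul, smul_smul, mul_div_cancel₀ _ h6.ne', add_smul, one_smul]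
      abel
    rw [e1, hom h.plf hS.con (K _ h7 (h8.trans (min_le_right _ _))) h6,
      H _ h7 (h8.trans (min_le_left _ _)), smul_add, smul_add, smul_smul, smul_smul,
      mul_div_cancel₀ _ h6.ne', add_smul, one_smul]
    abel
  · intro z w hzw v hv c
    obtain ⟨ε, hε, H⟩ := D_der h.plf hx hv
    obtain ⟨δ, hδ, K⟩ := hv
    apply der_eq
    refine ⟨min ε δ, lt_min hε hδ, fun s h0 h1 => ?_⟩
    have e1 : x + s • (v + c • z) = (x + s • v) + (s * c) • z := by
      rw [smul_add, smul_smul]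
      abel
    rw [e1, (hzw _ (K s h0 (h1.trans (min_le_right _ _))) (s * c)).2,
      H s h0 (h1.trans (min_le_left _ _)), smul_add, smul_smul]
    abel
  · intro U hU v hv
    obtain ⟨ε, hε, H⟩ := D_der h.plf hx hv
    obtain ⟨δ, hδ, K⟩ := hv
    constructor
    · rintro ⟨γ, hγ, M⟩
      refine ⟨min ε γ, lt_min hε hγ, fun s h0 h1 => ?_⟩
      rw [← H s h0 (h1.trans (min_le_left _ _))]
      exact Set.mem_image_of_mem f (M s h0 (h1.trans (min_le_right _ _)))
    · rintro ⟨γ, hγ, M⟩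
      refine ⟨min γ (min ε δ), lt_min hγ (lt_min hε hδ), fun s h0 h1 => ?_⟩
      have h2 := h1.trans (min_le_right _ _)
      have h3 := M s h0 (h1.trans (min_le_left _ _))
      rw [← H s h0 (h2.trans (min_le_left _ _))] at h3
      obtain ⟨u, hu, he⟩ := h3
      have h4 := h.gf _ (K s h0 (h2.trans (min_le_right _ _)))
      rw [← he, h.gf u (hU hu)] at h4
      rwa [← h4]

end Pool.Agent.Work.MP_552024_lc.PLS
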