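import Pool.Agent.Work.MP_552024_lc.PLS.S4

set_option autoImplicit false

/-! The bounded side of a sphere in a hyperplane. -/

namespace Pool.Agent.Work.MP_552024_lc.PLS

namespace ADisc

/-- A set which is star shaped is connected. -/
theorem conn_star {E : Type*} [AddCommGroup E] [Module ℚ E] {Z : Set E} (p : E) (hp : p ∈ Z)
    (h : ∀ x ∈ Z, ∀ t : ℚ, 0 ≤ t → t ≤ 1 → x + t • (p - x) ∈ Z) : Conn Z := by
  refine ⟨⟨p, hp⟩, fun F₁ F₂ h1 h2 hsub hdis => ?_⟩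
  have hseg : ∀ x ∈ Z, Conn {y : E | ∃ t : ℚ, 0 ≤ t ∧ t ≤ 1 ∧ y = x + t • (p - x)} := by
    intro x _
    apply conn_of_convex
    · exact ⟨x, 0, le_refl _, zero_le_one, by simp⟩
    · rintro a ⟨s, hs0, hs1, rfl⟩ b ⟨r, hr0, hr1, rfl⟩ t ht0 ht1
      refine ⟨s + t * (r - s), ?_, ?_, ?_⟩
      · nlinarith
      · nlinarith
      · module
  have key : ∀ (G₁ G₂ : Set E), Pol G₁ → Pol G₂ → Z ⊆ G₁ ∪ G₂ → (∀ x ∈ Z, x ∈ G₁ → x ∉ G₂) →
      p ∈ G₁ → Z ⊆ G₁ := by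
    intro G₁ G₂ hG1 hG2 hs hd hpG x hx
    have hsZ : {y : E | ∃ t : ℚ, 0 ≤ t ∧ t ≤ 1 ∧ y = x + t • (p - x)} ⊆ Z := by
      rintro y ⟨t, ht0, ht1, rfl⟩
      exact h x hx t ht0 ht1
    have hxm : x ∈ {y : E | ∃ t : ℚ, 0 ≤ t ∧ t ≤ 1 ∧ y = x + t • (p - x)} :=
      ⟨0, le_refl _, zero_le_one, by simp⟩
    have hpm : p ∈ {y : E | ∃ t : ℚ, 0 ≤ t ∧ t ≤ 1 ∧ y = x + t • (p - x)} :=
      ⟨1, zero_le_one, le_refl _, by simp⟩
    rcases (hseg x hx).2 G₁ G₂ hG1 hG2 (hsZ.trans hs) (fun y hy => hd y (hsZ hy)) with h3 | h3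
    · exact h3 hxm
    · exact absurd (h3 hpm) (hd p hp hpG)
  rcases hsub hp with h3 | h3
  · exact Or.inl (key F₁ F₂ h1 h2 hsub hdis h3)
  · refine Or.inr (key F₂ F₁ h2 h1 (by rw [Set.union_comm]; exact hsub) ?_ h3)
    intro x hx hx2 hx1
    exact hdis x hx hx1 hx2

/-- The bounded side, one of the two cases. -/
theorem half {E : Type*} [AddCommGroup E] [Module ℚ E] {n : ℕ} {C D D' : Set E}
    {h u : E →ₗ[ℚ] ℚ} (hU : D ∪ D' = {x | h x = 0}) (hI : D ∩ D' = C) (hB : Ball (n + 2) D C)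
    (hB' : Ball (n + 2) D' C) (hu : Bdd u C)
    (hZ : ∀ x, h x = 0 → u x ≤ 0 → x ≠ 0 → x ∈ D') :
    ∃ D D' : Set E, D ∪ D' = {x | h x = 0} ∧ D ∩ D' = C ∧
      Ball (n + 2) D C ∧ Ball (n + 2) D' C ∧ Bdd u D ∧ ∀ x, h x = 0 → u x ≤ 0 → x ∈ D' := by
  refine ⟨D, D', hU, hI, hB, hB', ?_, ?_⟩
  · intro x hx hx0
    have hhx : h x = 0 := by
      have : x ∈ D ∪ D' := Or.inl hx
      rw [hU] at this
      exact this
    by_contra hc
    have hx' : x ∈ D' := hZ x hhx (not_lt.mp hc) hx0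
    have hxC : x ∈ C := by
      rw [← hI]
      exact ⟨hx, hx'⟩
    exact hc (hu x hxC hx0)
  · intro x hhx hux
    by_cases hx0 : x = 0
    · rw [hx0]
      exact hB'.1.1
    · exact hZ x hhx hux hx0

end ADisc

theorem I_Disc (hSchH : St_SchH) (hConnB0 : St_ConnB0) : St_Disc := by
  intro n hS E _ _ _ C h u hfin hh hC hCh hu
  obtain ⟨D, D', hU, hI, hB, hB'⟩ := hSchH n hS E C h hfin hh hC hCh
  -- a nonzero point of `C`
  obtain ⟨z, hzC, hz0⟩ : ∃ z ∈ C, z ≠ 0 := by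
    obtain ⟨D₁, D₂, U, hT, _, hB1, _⟩ := hC
    obtain ⟨z, hz⟩ := (hConnB0 n E D₁ U hB1).1
    exact ⟨z, by rw [hT]; exact Or.inl hz.1, hz.2⟩
  have huz : 0 < u z := hu z hzC hz0
  have hhz : h z = 0 := hCh z hzC
  have hconn : Conn {x : E | h x = 0 ∧ u x ≤ 0 ∧ x ≠ 0} := by
    apply ADisc.conn_star (-z)
    · refine ⟨by simp [hhz], by simp [huz.le], by simpa using hz0⟩
    · rintro x ⟨hx1, hx2, hx3⟩ t ht0 ht1
      refine ⟨by simp [hx1, hhz], ?_, ?_⟩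
      · simp only [map_add, map_smul, map_sub, map_neg, smul_eq_mul]
        nlinarith
      · intro h0
        have h1 : u (x + t • (-z - x)) = 0 := by rw [h0, map_zero]
        simp only [map_add, map_smul, map_sub, map_neg, smul_eq_mul] at h1
        have h2 : (1 - t) * u x - t * u z = 0 := by linarith
        have h3 : (1 - t) * u x ≤ 0 := mul_nonpos_of_nonneg_of_nonpos (by linarith) hx2
        have h4 : t * u z ≤ 0 := by linarith
        have h5 : t ≤ 0 := by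
          by_contra hc
          have := mul_pos (not_le.mp hc) huz
          linarith
        have h6 : t = 0 := le_antisymm h5 ht0
        rw [h6, zero_smul, add_zero] at h0
        exact hx3 h0
  rcases hconn.2 D D' hB.1 hB'.1 (by rw [hU]; exact fun x hx => hx.1) (by
    rintro x ⟨_, hx2, hx3⟩ hxD hxD'
    have hxC : x ∈ C := by
      rw [← hI]
      exact ⟨hxD, hxD'⟩
    have := hu x hxC hx3
    linarith) with hsub | hsub
  · exact ADisc.half (by rw [Set.union_comm]; exact hU) (by rw [Set.inter_comm]; exact hI) hB' hB hu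
      (fun x h1 h2 h3 => hsub ⟨h1, h2, h3⟩)
  · exact ADisc.half hU hI hB hB' hu (fun x h1 h2 h3 => hsub ⟨h1, h2, h3⟩)

end Pool.Agent.Work.MP_552024_lc.PLS
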