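import Pool.Agent.Work.MP_552024_lc.PLS.S4

set_option autoImplicit false

/-! The structure of the edges of a regular set. -/

namespace Pool.Agent.Work.MP_552024_lc.PLS

namespace AEdge

variable {E : Type*} [AddCommGroup E] [Module ℚ E]

open SignType

theorem face_zero {A : Set (E →ₗ[ℚ] ℚ)} {x y : E} (h : x ∈ face A y) {a : E →ₗ[ℚ] ℚ} (ha : a ∈ A)
    (h0 : a y = 0) : a x = 0 := by
  rcases h a ha with h1 | h1
  · exact h1
  · rw [h0, sign_zero, sign_eq_zero_iff] at h1
    exact h1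

theorem face_pos {A : Set (E →ₗ[ℚ] ℚ)} {x y : E} (h : x ∈ face A y) {a : E →ₗ[ℚ] ℚ} (ha : a ∈ A)
    (h0 : 0 < a y) : 0 ≤ a x := by
  rcases h a ha with h1 | h1
  · exact h1.ge
  · rw [sign_pos h0, sign_eq_one_iff] at h1
    exact h1.le

theorem face_neg {A : Set (E →ₗ[ℚ] ℚ)} {x y : E} (h : x ∈ face A y) {a : E →ₗ[ℚ] ℚ} (ha : a ∈ A)
    (h0 : a y < 0) : a x ≤ 0 := by
  rcases h a ha with h1 | h1
  · exact h1.le
  · rw [sign_neg h0, sign_eq_neg_one_iff] at h1
    exact h1.le

/-- Two opposite vectors in a pair of half planes lie in different half planes. -/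
theorem tg_span {T : Set E} {y z p q : E} (hz : ∀ c : ℚ, z ≠ c • y) (hp : ¬ ∃ a : ℚ, p = a • y)
    (hq : ¬ ∃ a : ℚ, q = a • y)
    (hT : T = {v | ∃ a c : ℚ, 0 ≤ c ∧ v = a • y + c • p} ∪
      {v | ∃ a c : ℚ, 0 ≤ c ∧ v = a • y + c • q}) (h1 : z ∈ T) (h2 : -z ∈ T) :
    ∀ v ∈ T, ∃ a b : ℚ, v = a • y + b • z := by
  have key : ∀ p : E, (∃ a c : ℚ, 0 ≤ c ∧ z = a • y + c • p) → ∃ a b : ℚ, p = a • y + b • z := by
    rintro p ⟨a, c, _, h⟩
    have hc : c ≠ 0 := by
      rintro rfl
      rw [zero_smul, add_zero] at h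
      exact hz a h
    refine ⟨-(c⁻¹ * a), c⁻¹, ?_⟩
    rw [h, smul_add, smul_smul, smul_smul, inv_mul_cancel₀ hc, one_smul, neg_smul]
    abel
  have key' : ∀ p : E, (∃ a c : ℚ, 0 ≤ c ∧ -z = a • y + c • p) →
      ∃ a b : ℚ, p = a • y + b • z := by
    rintro p ⟨a, c, _, h⟩
    have hc : c ≠ 0 := by
      rintro rfl
      rw [zero_smul, add_zero] at h
      exact hz (-a) (by rw [neg_smul, ← h, neg_neg])
    refine ⟨-(c⁻¹ * a), -c⁻¹, ?_⟩
    have h3 : (-c⁻¹) • z = c⁻¹ • (-z) := by rw [neg_smul, smul_neg]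
    rw [h3, h, smul_add, smul_smul, smul_smul, inv_mul_cancel₀ hc, one_smul, neg_smul]
    abel
  have key2 : ∀ p : E, (¬ ∃ a : ℚ, p = a • y) → (∃ a c : ℚ, 0 ≤ c ∧ z = a • y + c • p) →
      (∃ a c : ℚ, 0 ≤ c ∧ -z = a • y + c • p) → False := by
    rintro p hp ⟨a, c, hc, h⟩ ⟨a', c', hc', h'⟩
    have hc0 : c ≠ 0 := by
      rintro rfl
      rw [zero_smul, add_zero] at h
      exact hz a h
    have hpos : 0 < c + c' := add_pos_of_pos_of_nonneg (lt_of_le_of_ne hc (Ne.symm hc0)) hc'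
    apply hp
    refine ⟨-((c + c')⁻¹ * (a + a')), ?_⟩
    have h3 : (a + a') • y + (c + c') • p = 0 := by
      have h4 : z + -z = (a + a') • y + (c + c') • p := by
        rw [h', h]
        module
      rw [← h4, add_neg_cancel]
    have h5 : (c + c') • p = -((a + a') • y) := by
      rw [eq_neg_iff_add_eq_zero, add_comm]
      exact h3
    calc p = (c + c')⁻¹ • ((c + c') • p) := by
          rw [smul_smul, inv_mul_cancel₀ hpos.ne', one_smul]
      _ = (-((c + c')⁻¹ * (a + a'))) • y := by rw [h5, smul_neg, smul_smul, neg_smul]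
  have hpq : (∃ a b : ℚ, p = a • y + b • z) ∧ ∃ a b : ℚ, q = a • y + b • z := by
    rw [hT] at h1 h2
    rcases h1 with h1 | h1 <;> rcases h2 with h2 | h2
    · exact (key2 p hp h1 h2).elim
    · exact ⟨key p h1, key' q h2⟩
    · exact ⟨key' p h2, key q h1⟩
    · exact (key2 q hq h1 h2).elim
  have fin : ∀ p v : E, (∃ a b : ℚ, p = a • y + b • z) →
      (∃ a c : ℚ, 0 ≤ c ∧ v = a • y + c • p) → ∃ a b : ℚ, v = a • y + b • z := by
    rintro p v ⟨a, b, h⟩ ⟨a', c, _, h'⟩
    refine ⟨a' + c * a, c * b, ?_⟩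
    rw [h', h]
    module
  intro v hv
  rw [hT] at hv
  rcases hv with hv | hv
  · exact fin p v hpq.1 hv
  · exact fin q v hpq.2 hv

/-- A point proportional to an edge is an edge. -/
theorem ray_of {A : Set (E →ₗ[ℚ] ℚ)} {t y : E} (ht : Ray A t) (hy : y ≠ 0)
    (h : ∃ c : ℚ, y = c • t) : Ray A y := by
  obtain ⟨c, rfl⟩ := h
  have hc : c ≠ 0 := by
    rintro rfl
    exact hy (zero_smul _ _)
  refine ⟨hy, fun w hw => ?_⟩
  obtain ⟨d, hd⟩ := ht.2 w (fun a ha hat => hw a ha (by rw [map_smul, hat, smul_zero]))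
  refine ⟨d * c⁻¹, ?_⟩
  rw [smul_smul, mul_assoc, inv_mul_cancel₀ hc, mul_one]
  exact hd

/-- Two nonproportional vectors of a plane span it. -/
theorem basis {y z r s : E} (hr : ∃ a b : ℚ, r = a • y + b • z) (hs : ∃ a b : ℚ, s = a • y + b • z)
    (hr0 : r ≠ 0) (hsr : ∀ c : ℚ, s ≠ c • r) :
    (∃ a b : ℚ, y = a • r + b • s) ∧ ∃ a b : ℚ, z = a • r + b • s := by
  obtain ⟨a1, b1, e1⟩ := hr
  obtain ⟨a2, b2, e2⟩ := hs
  have hD : a1 * b2 - a2 * b1 ≠ 0 := by
    intro hD
    have h1 : a1 • s = a2 • r := by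
      have : a1 • s - a2 • r = (a1 * b2 - a2 * b1) • z := by
        rw [e1, e2]
        module
      rw [hD, zero_smul, sub_eq_zero] at this
      exact this
    have h2 : b1 • s = b2 • r := by
      have : b1 • s - b2 • r = -((a1 * b2 - a2 * b1) • y) := by
        rw [e1, e2]
        module
      rw [hD, zero_smul, neg_zero, sub_eq_zero] at this
      exact this
    by_cases ha : a1 = 0
    · by_cases hb : b1 = 0
      · apply hr0
        rw [e1, ha, hb, zero_smul, zero_smul, add_zero]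
      · apply hsr (b1⁻¹ * b2)
        rw [mul_smul, ← h2, smul_smul, inv_mul_cancel₀ hb, one_smul]
    · apply hsr (a1⁻¹ * a2)
      rw [mul_smul, ← h1, smul_smul, inv_mul_cancel₀ ha, one_smul]
  constructor
  · refine ⟨(a1 * b2 - a2 * b1)⁻¹ * b2, -((a1 * b2 - a2 * b1)⁻¹ * b1), ?_⟩
    have h3 : b2 • r - b1 • s = (a1 * b2 - a2 * b1) • y := by
      rw [e1, e2]
      module
    calc y = (a1 * b2 - a2 * b1)⁻¹ • ((a1 * b2 - a2 * b1) • y) := by
          rw [smul_smul, inv_mul_cancel₀ hD, one_smul]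
      _ = _ := by
          rw [← h3]
          module
  · refine ⟨-((a1 * b2 - a2 * b1)⁻¹ * a2), (a1 * b2 - a2 * b1)⁻¹ * a1, ?_⟩
    have h3 : a1 • s - a2 • r = (a1 * b2 - a2 * b1) • z := by
      rw [e1, e2]
      module
    calc z = (a1 * b2 - a2 * b1)⁻¹ • ((a1 * b2 - a2 * b1) • z) := by
          rw [smul_smul, inv_mul_cancel₀ hD, one_smul]
      _ = _ := by
          rw [← h3]
          module

end AEdge

open AEdge in
theorem I_Edge (hRD : St_RD) : St_Edge := by
  intro E _ _ _ Y A u hA hS _ hY _ hReg y hyY hy0 hyR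
  classical
  -- the linear part at `y`
  have hz : ∃ z : E, (∀ a ∈ A, a y = 0 → a z = 0) ∧ ∀ c : ℚ, z ≠ c • y := by
    by_contra hcon
    push Not at hcon
    exact hyR ⟨hy0, fun w hw => hcon w hw⟩
  obtain ⟨z, hzL, hzy⟩ := hz
  have hLT : ∀ x : E, (∀ a ∈ A, a y = 0 → a x = 0) → x ∈ Tg y Y := by
    intro x hx
    refine tg_inv hA hY.inv 0 x ?_ (zero_mem_tg.2 hyY)
    rintro a ⟨ha, hay⟩
    rw [map_zero, hx a ha hay]
  obtain ⟨p, q, hp, hq, _, hT⟩ := hReg y hyY hy0
  have hspan : ∀ v ∈ Tg y Y, ∃ a b : ℚ, v = a • y + b • z :=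
    tg_span hzy hp hq hT (hLT z hzL)
      (hLT (-z) (fun a ha hay => by rw [map_neg, hzL a ha hay, neg_zero]))
  have hfL : ∀ x ∈ face A y, ∀ a ∈ A, a y = 0 → a x = 0 := fun x hx a ha hay =>
    face_zero hx ha hay
  -- edges in the face
  obtain ⟨S, c, hSc, hyS⟩ := hRD E A hA hS y
  have hne : S.Nonempty := by
    rw [Finset.nonempty_iff_ne_empty]
    rintro rfl
    exact hy0 (by rw [hyS, Finset.sum_empty])
  obtain ⟨r, hrS⟩ := hne
  obtain ⟨hrR, hrf, _⟩ := hSc r hrS
  have hs : ∃ s ∈ S, ∀ k : ℚ, s ≠ k • r := by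
    by_contra hcon
    push Not at hcon
    apply hyR
    refine ray_of hrR hy0 ?_
    choose! k hk using hcon
    refine ⟨∑ s ∈ S, c s * k s, ?_⟩
    rw [Finset.sum_smul]
    conv_lhs => rw [hyS]
    refine Finset.sum_congr rfl fun s hs => ?_
    rw [mul_smul, ← hk s hs]
  obtain ⟨s, hsS, hsr⟩ := hs
  obtain ⟨hsR, hsf, _⟩ := hSc s hsS
  have hrs : ∀ k : ℚ, r ≠ k • s := by
    intro k hk
    have hk0 : k ≠ 0 := by
      rintro rfl
      exact hrR.1 (by rw [hk, zero_smul])
    exact hsr k⁻¹ (by rw [hk, smul_smul, inv_mul_cancel₀ hk0, one_smul])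
  obtain ⟨hy2, hz2⟩ := basis (hspan r (hLT r (hfL r hrf))) (hspan s (hLT s (hfL s hsf))) hrR.1 hsr
  have hTrs : ∀ v ∈ Tg y Y, ∃ a b : ℚ, v = a • r + b • s := by
    intro v hv
    obtain ⟨a, b, h1⟩ := hspan v hv
    obtain ⟨a1, b1, h2⟩ := hy2
    obtain ⟨a2, b2, h3⟩ := hz2
    refine ⟨a * a1 + b * a2, a * b1 + b * b2, ?_⟩
    rw [h1]
    conv_lhs => rw [h2, h3]
    module
  obtain ⟨c0, d0, hcd⟩ := hy2
  -- separating forms
  have hsep : ∀ t w : E, Ray A t → t ∈ face A y → w ∈ face A y →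
      (∃ a b : ℚ, y = a • t + b • w) → ∃ b ∈ A, b t = 0 ∧ b w ≠ 0 ∧ b y ≠ 0 := by
    intro t w ht _ _ hyt
    by_contra hcon
    push Not at hcon
    apply hyR
    refine ray_of ht hy0 (ht.2 y fun b hb hbt => ?_)
    by_contra hby
    have hbw : b w ≠ 0 := by
      intro hbw
      apply hby
      obtain ⟨a1, a2, h⟩ := hyt
      rw [h, map_add, map_smul, map_smul, hbt, hbw, smul_zero, smul_zero, add_zero]
    exact hby (hcon b hb hbt hbw)
  obtain ⟨br, hbrA, hbr, hbrs, hbry⟩ := hsep r s hrR hrf hsf ⟨c0, d0, hcd⟩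
  obtain ⟨bs, hbsA, hbs, hbsr, hbsy⟩ := hsep s r hsR hsf hrf ⟨d0, c0, by rw [add_comm]; exact hcd⟩
  -- coefficients of points of the face
  have coef : ∀ (b : E →ₗ[ℚ] ℚ) (w x : E) (d : ℚ), b ∈ A → w ∈ face A y → x ∈ face A y →
      b w ≠ 0 → b y ≠ 0 → b x = d * b w → 0 ≤ d := by
    intro b w x d hb hw hx hbw hby hbx
    rcases lt_or_gt_of_ne hby with h | h
    · have h1 := lt_of_le_of_ne (face_neg hw hb h) hbw
      have h2 := face_neg hx hb h
      rw [hbx] at h2
      by_contra hd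
      exact absurd (mul_pos_of_neg_of_neg (not_le.1 hd) h1) (not_lt.2 h2)
    · have h1 := lt_of_le_of_ne (face_pos hw hb h) (Ne.symm hbw)
      have h2 := face_pos hx hb h
      rw [hbx] at h2
      by_contra hd
      exact absurd (mul_neg_of_neg_of_pos (not_le.1 hd) h1) (not_lt.2 h2)
  have e1 : ∀ c d : ℚ, br (c • r + d • s) = d * br s := by
    intro c d
    rw [map_add, map_smul, map_smul, hbr, smul_zero, zero_add, smul_eq_mul]
  have e2 : ∀ c d : ℚ, bs (c • r + d • s) = c * bs r := by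
    intro c d
    rw [map_add, map_smul, map_smul, hbs, smul_zero, add_zero, smul_eq_mul]
  have hd0 : 0 < d0 := by
    have h1 : br y = d0 * br s := by rw [← e1 c0 d0, ← hcd]
    have h2 := coef br s y d0 hbrA hsf (mem_face_self A y) hbrs hbry h1
    refine lt_of_le_of_ne h2 ?_
    rintro rfl
    exact hbry (by rw [h1, zero_mul])
  have hc0 : 0 < c0 := by
    have h1 : bs y = c0 * bs r := by rw [← e2 c0 d0, ← hcd]
    have h2 := coef bs r y c0 hbsA hrf (mem_face_self A y) hbsr hbsy h1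
    refine lt_of_le_of_ne h2 ?_
    rintro rfl
    exact hbsy (by rw [h1, zero_mul])
  have ey : ∀ a : E →ₗ[ℚ] ℚ, a y = c0 * a r + d0 * a s := by
    intro a
    conv_lhs => rw [hcd]
    rw [map_add, map_smul, map_smul, smul_eq_mul, smul_eq_mul]
  refine ⟨r, s, hrR, hsR, ?_, ?_, ?_, ?_, ?_⟩
  · rintro ⟨k, _, hk⟩
    exact hsr k hk
  · rintro ⟨k, _, hk⟩
    exact hrs k hk
  · ext x
    constructor
    · intro hx
      obtain ⟨c, d, hxcd⟩ := hTrs x (hLT x (hfL x hx))
      refine ⟨c, d, ?_, ?_, hxcd⟩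
      · exact coef bs r x c hbsA hrf hx hbsr hbsy (by rw [← e2 c d, ← hxcd])
      · exact coef br s x d hbrA hsf hx hbrs hbry (by rw [← e1 c d, ← hxcd])
    · rintro ⟨c, d, hc, hd, rfl⟩ a ha
      rw [map_add, map_smul, map_smul, smul_eq_mul, smul_eq_mul]
      rcases lt_trichotomy (a y) 0 with h | h | h
      · have h1 := face_neg hrf ha h
        have h2 := face_neg hsf ha h
        have h3 := mul_nonpos_of_nonneg_of_nonpos hc h1
        have h4 := mul_nonpos_of_nonneg_of_nonpos hd h2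
        rcases (add_nonpos h3 h4).lt_or_eq with h5 | h5
        · right
          rw [sign_neg h5, sign_neg h]
        · exact Or.inl h5
      · left
        rw [face_zero hrf ha h, face_zero hsf ha h, mul_zero, mul_zero, add_zero]
      · have h1 := face_pos hrf ha h
        have h2 := face_pos hsf ha h
        have h3 := mul_nonneg hc h1
        have h4 := mul_nonneg hd h2
        rcases (add_nonneg h3 h4).lt_or_eq with h5 | h5
        · right
          rw [sign_pos h5, sign_pos h]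
        · exact Or.inl h5.symm
  · rintro x ⟨c, d, hc, hd, rfl⟩ a ha
    rw [map_add, map_smul, map_smul, smul_eq_mul, smul_eq_mul]
    have hya := ey a
    rcases lt_trichotomy (a y) 0 with h | h | h
    · have h1 := face_neg hrf ha h
      have h2 := face_neg hsf ha h
      have h3 : c * a r + d * a s < 0 := by
        rcases h1.lt_or_eq with h5 | h5
        · have h6 := mul_neg_of_pos_of_neg hc h5
          have h7 := mul_nonpos_of_nonneg_of_nonpos hd.le h2
          linarith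
        · rcases h2.lt_or_eq with h6 | h6
          · have h7 := mul_neg_of_pos_of_neg hd h6
            rw [h5, mul_zero, zero_add]
            exact h7
          · rw [h5, h6, mul_zero, mul_zero, add_zero] at hya
            exact absurd hya h.ne
      rw [sign_neg h3, sign_neg h]
    · rw [face_zero hrf ha h, face_zero hsf ha h, mul_zero, mul_zero, add_zero, h]
    · have h1 := face_pos hrf ha h
      have h2 := face_pos hsf ha h
      have h3 : 0 < c * a r + d * a s := by
        rcases h1.lt_or_eq with h5 | h5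
        · have h6 := mul_pos hc h5
          have h7 := mul_nonneg hd.le h2
          linarith
        · rcases h2.lt_or_eq with h6 | h6
          · have h7 := mul_pos hd h6
            rw [← h5, mul_zero, zero_add]
            exact h7
          · rw [← h5, ← h6, mul_zero, mul_zero, add_zero] at hya
            exact absurd hya h.ne'
      rw [sign_pos h3, sign_pos h]
  · ext v
    constructor
    · exact hTrs v
    · rintro ⟨c, d, rfl⟩
      refine hLT _ fun a ha hay => ?_
      rw [map_add, map_smul, map_smul, face_zero hrf ha hay, face_zero hsf ha hay, smul_zero,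
        smul_zero, add_zero]

end Pool.Agent.Work.MP_552024_lc.PLS
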