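import Pool.Agent.Work.MP_552024_lc.PLS.S4

set_option autoImplicit false

/-! Item Gap: cells meet all the levels of a gap. -/

namespace Pool.Agent.Work.MP_552024_lc.PLS

namespace AGap

theorem sign_add (p q μ : ℚ) (hμ : 0 ≤ μ) (h : q = 0 ∨ SignType.sign q = SignType.sign p) :
    SignType.sign (p + μ * q) = SignType.sign p := by
  rcases h with h | h
  · rw [h, mul_zero, add_zero]
  · rcases lt_trichotomy p 0 with hp | hp | hp
    · rw [sign_neg hp] at h ⊢
      have hq : q < 0 := sign_eq_neg_one_iff.mp h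
      have h1 : μ * q ≤ 0 := mul_nonpos_of_nonneg_of_nonpos hμ hq.le
      exact sign_neg (by linarith)
    · rw [hp, sign_zero] at h ⊢
      have hq : q = 0 := sign_eq_zero_iff.mp h
      rw [hq, mul_zero, add_zero, sign_zero]
    · rw [sign_pos hp] at h ⊢
      have hq : 0 < q := sign_eq_one_iff.mp h
      have h1 : 0 ≤ μ * q := mul_nonneg hμ hq.le
      exact sign_pos (by linarith)

variable {E : Type} [AddCommGroup E] [Module ℚ E]

theorem sameSign_add (A : Set (E →ₗ[ℚ] ℚ)) (x r : E) (μ : ℚ) (hμ : 0 ≤ μ)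
    (hr : r ∈ face A x) : SameSign A (x + μ • r) x := by
  intro a ha
  rw [map_add, map_smul, smul_eq_mul]
  exact sign_add _ _ _ hμ (hr a ha)

theorem nonneg_of_face (A : Set (E →ₗ[ℚ] ℚ)) (x r : E) (hr : r ∈ face A x)
    (a : E →ₗ[ℚ] ℚ) (ha : a ∈ A) (hx : 0 < a x) : 0 ≤ a r := by
  rcases hr a ha with h | h
  · rw [h]
  · rw [sign_pos hx] at h
    exact (sign_eq_one_iff.mp h).le

theorem exists_pos (a : E →ₗ[ℚ] ℚ) (s : Finset E) (c : E → ℚ) (hc : ∀ r ∈ s, 0 < c r)
    (x : E) (hx : x = ∑ r ∈ s, c r • r) (h : 0 < a x) : ∃ r ∈ s, 0 < a r := by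
  by_contra hne
  push Not at hne
  have h1 : a x ≤ 0 := by
    rw [hx, map_sum]
    refine Finset.sum_nonpos fun r hr => ?_
    rw [map_smul, smul_eq_mul]
    exact mul_nonpos_of_nonneg_of_nonpos (hc r hr).le (hne r hr)
  linarith

end AGap

theorem I_Gap (hRD : St_RD) : St_Gap := by
  intro E _ _ _ A u v l c t x hA hS hlt htc hh hh' hno hx hx'
  obtain ⟨s, k, hs, hsum⟩ := hRD E A hA hS x
  have hk : ∀ r ∈ s, 0 < k r := fun r hr => (hs r hr).2.2
  obtain ⟨r1, hr1, hp1⟩ := AGap.exists_pos (v - l • u) s k hk x hsum hx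
  obtain ⟨r2, hr2, hp2⟩ := AGap.exists_pos (c • u - v) s k hk x hsum hx'
  have hf1 := (hs r1 hr1).2.1
  have hf2 := (hs r2 hr2).2.1
  have hz1 : (c • u - v) r1 = 0 := by
    have h1 := AGap.nonneg_of_face A x r1 hf1 _ hh' hx'
    by_contra hne
    exact hno r1 (hs r1 hr1).1 ⟨hp1, lt_of_le_of_ne h1 (Ne.symm hne)⟩
  have hz2 : (v - l • u) r2 = 0 := by
    have h1 := AGap.nonneg_of_face A x r2 hf2 _ hh hx
    by_contra hne
    exact hno r2 (hs r2 hr2).1 ⟨lt_of_le_of_ne h1 (Ne.symm hne), hp2⟩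
  simp only [LinearMap.sub_apply, LinearMap.smul_apply, smul_eq_mul] at hp1 hp2 hz1 hz2
  have hw1 : 0 < v r1 - t * u r1 := by
    have h1 : (c - l) * (v r1 - t * u r1) = (c - t) * (v r1 - l * u r1) := by
      have h2 : v r1 = c * u r1 := by linarith
      rw [h2]
      ring
    have h3 : 0 < (c - t) * (v r1 - l * u r1) := mul_pos (by linarith) hp1
    rw [← h1] at h3
    exact (mul_pos_iff_of_pos_left (by linarith)).mp h3
  have hw2 : v r2 - t * u r2 < 0 := by
    have h1 : (c - l) * (t * u r2 - v r2) = (t - l) * (c * u r2 - v r2) := by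
      have h2 : v r2 = l * u r2 := by linarith
      rw [h2]
      ring
    have h3 : 0 < (t - l) * (c * u r2 - v r2) := mul_pos (by linarith) hp2
    rw [← h1] at h3
    have h4 := (mul_pos_iff_of_pos_left (by linarith)).mp h3
    linarith
  rcases le_or_gt 0 (v x - t * u x) with hw | hw
  · refine ⟨x + ((v x - t * u x) / (t * u r2 - v r2)) • r2,
      AGap.sameSign_add A x r2 _ (div_nonneg hw (by linarith)) hf2, ?_⟩
    rw [map_add, map_smul, smul_eq_mul, map_add, map_smul, smul_eq_mul]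
    have h1 : t * u r2 - v r2 ≠ 0 := by linarith
    field_simp
    ring
  · refine ⟨x + ((t * u x - v x) / (v r1 - t * u r1)) • r1,
      AGap.sameSign_add A x r1 _ (div_nonneg (by linarith) hw1.le) hf1, ?_⟩
    rw [map_add, map_smul, smul_eq_mul, map_add, map_smul, smul_eq_mul]
    have h1 : v r1 - t * u r1 ≠ 0 := hw1.ne'
    field_simp
    ring

end Pool.Agent.Work.MP_552024_lc.PLS
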