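import Pool.Agent.Work.MP_552024_lc.PLS.S4

/-!
MP_552024_lc, block S4, item Gen: generic segments meet the hyperplanes one at a time.
-/

set_option autoImplicit false

namespace Pool.Agent.Work.MP_552024_lc.PLS

theorem I_Gen : St_Gen := by
  intro E _ _ _ A x₀ y₀ hA hx₀ hy₀
  -- the forms which vanish at a bad point
  let Φ : Set (E →ₗ[ℚ] ℚ) := {φ | φ ≠ 0 ∧ ∃ a ∈ A, ∃ b ∈ A, φ = a x₀ • b - b x₀ • a}
  have hΦ : Φ.Finite := by
    refine (hA.image2 (fun a b => a x₀ • b - b x₀ • a) hA).subset ?_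
    rintro φ ⟨_, a, ha, b, hb, rfl⟩
    exact ⟨a, ha, b, hb, rfl⟩
  let B : Set (E →ₗ[ℚ] ℚ) := (fun a => a y₀ • a) '' A
  have hB : B.Finite := hA.image _
  have hBp : ∀ b ∈ B, 0 < b y₀ := by
    rintro _ ⟨a, ha, rfl⟩
    show 0 < a y₀ • a y₀
    rw [smul_eq_mul]
    exact mul_self_pos.2 (hy₀ a ha)
  obtain ⟨y₁, h1, h2⟩ := exists_generic Φ hΦ (fun φ h => h.1) hB y₀ hBp
  refine ⟨y₁, ?_, ?_⟩
  · intro a ha
    have h3 : 0 < a y₀ * a y₁ := h1 _ ⟨a, ha, rfl⟩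
    rcases lt_or_gt_of_ne (hy₀ a ha) with h4 | h4
    · rw [sign_neg h4, sign_neg (by nlinarith)]
    · rw [sign_pos h4, sign_pos (by nlinarith)]
  · intro t ht0 _ b hb hbz
    refine ⟨hb, hbz, fun a ha haz => ?_⟩
    by_contra hcon
    push Not at hcon
    have e1 : ∀ c : E →ₗ[ℚ] ℚ, c (x₀ + t • (y₁ - x₀)) = (1 - t) * c x₀ + t * c y₁ := by
      intro c
      simp only [map_add, map_smul, map_sub, smul_eq_mul]
      ring
    rw [e1] at hbz haz
    have hb0 : b x₀ ≠ 0 := hx₀ b hb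
    have ht : t ≠ 0 := by
      rintro rfl
      apply hb0
      linarith
    have hne : a x₀ • b - b x₀ • a ≠ 0 := by
      intro h0
      apply hcon (a x₀ / b x₀)
      have h3 : b x₀ • a = a x₀ • b := (sub_eq_zero.1 h0).symm
      rw [div_eq_inv_mul, mul_smul, ← h3, smul_smul, inv_mul_cancel₀ hb0, one_smul]
    have h3 : (a x₀ • b - b x₀ • a) y₁ ≠ 0 := h2 _ ⟨hne, a, ha, b, hb, rfl⟩
    apply h3
    show a x₀ * b y₁ - b x₀ * a y₁ = 0
    have h4 : t * (a x₀ * b y₁ - b x₀ * a y₁) = 0 := by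
      linear_combination a x₀ * hbz - b x₀ * haz
    exact (mul_eq_zero.1 h4).resolve_left ht

end Pool.Agent.Work.MP_552024_lc.PLS
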