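import Pool.Agent.Work.MP_552024_lc.PLS.S4X

set_option autoImplicit false

/-! Item GenV: a generic second form. -/

namespace Pool.Agent.Work.MP_552024_lc.PLS

namespace AGenV

/-- the kernel of a form is nonzero in dimension 4 -/
theorem exists_ker {E : Type} [AddCommGroup E] [Module ℚ E] [FiniteDimensional ℚ E]
    (hd : Module.finrank ℚ E = 4) (u : E →ₗ[ℚ] ℚ) : ∃ z : E, z ≠ 0 ∧ u z = 0 := by
  by_contra hcon
  push Not at hcon
  have hinj : Function.Injective u := by
    rw [injective_iff_map_eq_zero]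
    intro z hz
    by_contra h
    exact hcon z h hz
  have h1 := LinearMap.finrank_le_finrank_of_injective hinj
  rw [hd, Module.finrank_self] at h1
  omega

/-- a form which does not vanish at finitely many nonzero vectors -/
theorem exists_form {E : Type} [AddCommGroup E] [Module ℚ E] (Z : Set E) (hZ : Z.Finite)
    (hne : ∀ z ∈ Z, z ≠ 0) : ∃ v : E →ₗ[ℚ] ℚ, ∀ z ∈ Z, v z ≠ 0 := by
  obtain ⟨v, -, hv⟩ := exists_generic (E := E →ₗ[ℚ] ℚ)
    ((fun z : E => (LinearMap.applyₗ z : (E →ₗ[ℚ] ℚ) →ₗ[ℚ] ℚ)) '' Z) (hZ.image _) (by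
      rintro _ ⟨z, hz, rfl⟩ h0
      apply hne z hz
      rw [← Module.forall_dual_apply_eq_zero_iff ℚ z]
      intro φ
      have := LinearMap.congr_fun h0 φ
      simpa using this) (B := ∅) Set.finite_empty (0 : E →ₗ[ℚ] ℚ)
    (fun b hb => absurd hb (Set.notMem_empty b))
  exact ⟨v, fun z hz => by simpa using hv _ ⟨z, hz, rfl⟩⟩

end AGenV

theorem I_GenV : St_GenV := by
  intro E _ _ _ B u hd hB _
  obtain ⟨R, hR, hRs, hRr⟩ := exists_reps hB {r | Ray B r ∧ 0 < u r}
  obtain ⟨z₀, hz₀, hz₀u⟩ := AGenV.exists_ker hd u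
  have hfin : (({z₀} : Set E) ∪
      (fun p : E × E => u p.2 • p.1 - u p.1 • p.2) '' (R ×ˢ R) \ {0}).Finite :=
    (Set.finite_singleton z₀).union (((hR.prod hR).image _).subset Set.diff_subset)
  obtain ⟨v, hv⟩ := AGenV.exists_form _ hfin (by
    rintro z (hz | hz)
    · rw [Set.mem_singleton_iff.1 hz]; exact hz₀
    · exact hz.2)
  refine ⟨v, ?_, ?_⟩
  · intro t ht
    apply hv z₀ (Or.inl rfl)
    rw [ht, LinearMap.smul_apply, hz₀u, smul_zero]
  · intro r r' hr hr' hur hur' he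
    have key : ∀ r, Ray B r → 0 < u r → ∃ b ∈ R, 0 < u b ∧ ∃ c : ℚ, 0 < c ∧ r = c • b := by
      intro r hr hur
      obtain ⟨b, hb, hbr⟩ := hRr r ⟨hr, hur⟩
      have hb' := hRs hb
      obtain ⟨c, hc⟩ := hb'.1.2 r (fun a ha h0 => by
        have h1 := hbr a ha
        rw [h0, sign_zero] at h1
        exact sign_eq_zero_iff.1 h1.symm)
      refine ⟨b, hb, hb'.2, c, ?_, hc⟩
      have h2 : u r = c * u b := by rw [hc, map_smul, smul_eq_mul]
      have h3 : 0 < u b := hb'.2
      by_contra hcon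
      push Not at hcon
      nlinarith
    obtain ⟨b, hb, hub, c, hc, hrc⟩ := key r hr hur
    obtain ⟨b', hb', hub', c', hc', hrc'⟩ := key r' hr' hur'
    have hz : u b' • b - u b • b' = 0 := by
      by_contra hcon
      apply hv (u b' • b - u b • b') (Or.inr ⟨⟨(b, b'), ⟨hb, hb'⟩, rfl⟩, hcon⟩)
      rw [hrc, hrc'] at he
      simp only [map_smul, smul_eq_mul] at he
      simp only [map_sub, map_smul, smul_eq_mul]
      have h1 : c * c' * (u b' * v b - u b * v b') = 0 := by linarith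
      rcases mul_eq_zero.1 h1 with h2 | h2
      · exact absurd h2 (mul_pos hc hc').ne'
      · exact h2
    have hb'eq : b' = (u b' / u b) • b := by
      have h1 : u b' • b = u b • b' := sub_eq_zero.1 hz
      rw [div_eq_inv_mul, mul_smul, h1, smul_smul, inv_mul_cancel₀ hub.ne', one_smul]
    have hbeq : b = c⁻¹ • r := by
      rw [hrc, smul_smul, inv_mul_cancel₀ hc.ne', one_smul]
    refine ⟨c' * (u b' / u b) * c⁻¹, by positivity, ?_⟩
    rw [mul_smul, ← hbeq, mul_smul, ← hb'eq]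
    exact hrc'

end Pool.Agent.Work.MP_552024_lc.PLS
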