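import Pool.Agent.Work.MP_552024_lc.PLS.S4

set_option autoImplicit false

namespace Pool.Agent.Work.MP_552024_lc.PLS

namespace AHS

variable {E : Type} [AddCommGroup E] [Module ℚ E]

theorem exists_e {b : E →ₗ[ℚ] ℚ} (hb : b ≠ 0) : ∃ e : E, b e = 1 := by
  obtain ⟨u, hu⟩ : ∃ u, b u ≠ 0 := by
    by_contra hc
    push Not at hc
    exact hb (LinearMap.ext hc)
  exact ⟨(b u)⁻¹ • u, by rw [map_smul, smul_eq_mul, inv_mul_cancel₀ hu]⟩

variable [FiniteDimensional ℚ E]

/-- the family of forms -/
noncomputable def fam (b : E →ₗ[ℚ] ℚ) (e : E) : Option (Fin (Module.finrank ℚ E)) → E →ₗ[ℚ] ℚ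
  | none => b
  | some i => (Module.finBasis ℚ E).coord i + (1 - (Module.finBasis ℚ E).coord i e) • b

theorem fam_e {b : E →ₗ[ℚ] ℚ} {e : E} (he : b e = 1)
    (i : Option (Fin (Module.finrank ℚ E))) : fam b e i e = 1 := by
  cases i with
  | none => exact he
  | some i =>
    show ((Module.finBasis ℚ E).coord i + (1 - (Module.finBasis ℚ E).coord i e) • b) e = 1
    rw [LinearMap.add_apply, LinearMap.smul_apply, he, smul_eq_mul]
    ring

theorem fam_ker {b : E →ₗ[ℚ] ℚ} {e x : E} (h : ∀ i, fam b e i x = 0) : x = 0 := by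
  have h0 : b x = 0 := h none
  apply (Module.finBasis ℚ E).ext_elem
  intro i
  have h1 : ((Module.finBasis ℚ E).coord i + (1 - (Module.finBasis ℚ E).coord i e) • b) x = 0 :=
    h (some i)
  rw [LinearMap.add_apply, LinearMap.smul_apply, h0, smul_zero, add_zero,
    Module.Basis.coord_apply] at h1
  rw [h1, map_zero, Finsupp.zero_apply]

theorem half {ι : Type} [Fintype ι] [Nonempty ι] {k : ℕ} (h : ι → E →ₗ[ℚ] ℚ) (b : E →ₗ[ℚ] ℚ)
    {p : E} (hp : p ∈ KO h) (hb : b p = 1) (hB : Ball k (KC h) (KD h)) :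
    Ball k {x : E | 0 ≤ b x} {x : E | b x = 0} := by
  have m1 : ∀ x t, rad h p (x + t • p) = rad h p x + t := rad_add h hp
  have b1 : ∀ x (t : ℚ), b (x + t • p) = b x + t := fun x t => by
    rw [map_add, map_smul, hb, smul_eq_mul, mul_one]
  have pl1 : ∀ S : Set E, PLOn (fun x => x + (b x - rad h p x) • p) S := fun S =>
    (plOn_id S).add (((plOn_linear b S).sub (plOn_rad h p S)).lin (LinearMap.toSpanSingleton ℚ E p))
  have pl2 : ∀ S : Set E, PLOn (fun x => x + (rad h p x - b x) • p) S := fun S =>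
    (plOn_id S).add (((plOn_rad h p S).sub (plOn_linear b S)).lin (LinearMap.toSpanSingleton ℚ E p))
  refine hB.transport (pol_halfspace b) (F := fun x => x + (rad h p x - b x) • p)
    (G := fun x => x + (b x - rad h p x) • p) ⟨pl2 _, pl1 _, ?_, ?_, ?_, ?_⟩ ?_ ?_
  · intro x hx
    show 0 ≤ b (x + (rad h p x - b x) • p)
    rw [b1]
    have := (radial_KC h hp).nonneg x hx
    linarith
  · intro x hx i
    have hx' : 0 ≤ b x := hx
    have h1 := rad_le h hp (x + (b x - rad h p x) • p) i
    rw [m1] at h1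
    have h2 : rad h p x + (b x - rad h p x) = b x := by ring
    rw [h2] at h1
    exact le_trans (mul_nonneg hx' (hp i).le) h1
  · intro x _
    show x + (rad h p x - b x) • p + (b (x + (rad h p x - b x) • p) -
      rad h p (x + (rad h p x - b x) • p)) • p = x
    rw [b1, m1, add_assoc, ← add_smul]
    have h2 : rad h p x - b x + (b x + (rad h p x - b x) - (rad h p x + (rad h p x - b x))) = 0 := by
      ring
    rw [h2, zero_smul, add_zero]
  · intro x _
    show x + (b x - rad h p x) • p + (rad h p (x + (b x - rad h p x) • p) -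
      b (x + (b x - rad h p x) • p)) • p = x
    rw [b1, m1, add_assoc, ← add_smul]
    have h2 : b x - rad h p x + (rad h p x + (b x - rad h p x) - (b x + (b x - rad h p x))) = 0 := by
      ring
    rw [h2, zero_smul, add_zero]
  · intro x hx
    have hx' : b x = 0 := hx
    exact hx'.ge
  · intro x hx
    show x ∈ KD h ↔ b (x + (rad h p x - b x) • p) = 0
    rw [rad_zero_iff h hp hx, b1]
    have h2 : b x + (rad h p x - b x) = rad h p x := by ring
    rw [h2]

end AHS

theorem I_HS : St_HS := by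
  intro n E _ _ _ b hn hb
  obtain ⟨e, he⟩ := AHS.exists_e hb
  have hp : e ∈ KO (AHS.fam b e) := fun i => by
    rw [AHS.fam_e he i]
    exact one_pos
  exact AHS.half (AHS.fam b e) b hp he
    (coneBall n E _ (AHS.fam b e) hn ⟨e, hp⟩ (fun x hx => AHS.fam_ker hx))

end Pool.Agent.Work.MP_552024_lc.PLS
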