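import Pool.Agent.Work.MP_552024_lc.PLS.P_JBa

/-!
MP_552024_lc, block S4, item JB: locally colorable cycles are colorable.
-/

set_option autoImplicit false

namespace Pool.Agent.Work.MP_552024_lc.PLS

namespace AJB

open SignType AJBa

variable {E : Type*} [AddCommGroup E] [Module ℚ E]

theorem chm_same {A : Set (E →ₗ[ℚ] ℚ)} {x y : E} (h : SameSign A x y) (hx : Chm A x) :
    Chm A y := fun d hd h0 => hx d hd (eq_zero_of_same h.symm hd h0)

theorem sign_mul_form {b a : E →ₗ[ℚ] ℚ} {k : ℚ} (hk : k ≠ 0) (hb : b = k • a) (x y : E)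
    (h : sign (b x) = sign (b y)) : sign (a x) = sign (a y) := by
  have e : ∀ v, a v = k⁻¹ * b v := by
    intro v
    rw [hb]
    show a v = k⁻¹ * (k * a v)
    rw [← mul_assoc, inv_mul_cancel₀ hk, one_mul]
  rw [e, e, sign_mul, sign_mul, h]

theorem zero_form {b a : E →ₗ[ℚ] ℚ} {k : ℚ} (hk : k ≠ 0) (hb : b = k • a) (x : E) :
    b x = 0 ↔ a x = 0 := by
  rw [hb]
  show k * a x = 0 ↔ a x = 0
  constructor
  · intro h
    exact (mul_eq_zero.1 h).resolve_left hk
  · intro h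
    rw [h, mul_zero]

/-- A form proportional to a form of `A` is superfluous. -/
theorem sameSign_insert {A : Set (E →ₗ[ℚ] ℚ)} {b a : E →ₗ[ℚ] ℚ} {k : ℚ} (hk : k ≠ 0)
    (hb : b = k • a) (hbA : b ∈ A) {x y : E} (h : SameSign A x y) : SameSign (insert a A) x y := by
  intro d hd
  rcases hd with rfl | hd
  · exact sign_mul_form hk hb x y (h b hbA)
  · exact h d hd

theorem face_insert {A : Set (E →ₗ[ℚ] ℚ)} {b a : E →ₗ[ℚ] ℚ} {k : ℚ} (hk : k ≠ 0)
    (hb : b = k • a) (hbA : b ∈ A) {x y : E} (h : x ∈ face A y) : x ∈ face (insert a A) y := by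
  intro d hd
  rcases hd with rfl | hd
  · rcases h b hbA with h1 | h1
    · exact Or.inl ((zero_form hk hb x).1 h1)
    · exact Or.inr (sign_mul_form hk hb x y h1)
  · exact h d hd

theorem chm_insert {A : Set (E →ₗ[ℚ] ℚ)} {b a : E →ₗ[ℚ] ℚ} {k : ℚ} (hk : k ≠ 0)
    (hb : b = k • a) (hbA : b ∈ A) {x : E} (h : Chm A x) : Chm (insert a A) x := by
  intro d hd
  rcases hd with rfl | hd
  · intro h0
    exact h b hbA ((zero_form hk hb x).2 h0)
  · exact h d hd

theorem at_insert_sub {A : Set (E →ₗ[ℚ] ℚ)} {a : E →ₗ[ℚ] ℚ} (q : E) :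
    At (insert a A) q ⊆ insert a (At A q) := by
  rintro d ⟨hd, h0⟩
  rcases hd with rfl | hd
  · exact Or.inl rfl
  · exact Or.inr ⟨hd, h0⟩

theorem facet_insert' {A : Set (E →ₗ[ℚ] ℚ)} {b a : E →ₗ[ℚ] ℚ} {k : ℚ} (hk : k ≠ 0)
    (hb : b = k • a) (hbA : b ∈ A) {z : E} {b' : E →ₗ[ℚ] ℚ} (h : Facet A z b') :
    Facet (insert a A) z b' := by
  refine ⟨Or.inr h.1, h.2.1, fun d hd h0 => ?_⟩
  rcases hd with rfl | hd
  · obtain ⟨k', hk'⟩ := h.2.2 b hbA ((zero_form hk hb z).2 h0)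
    refine ⟨k⁻¹ * k', ?_⟩
    rw [mul_smul, ← hk', hb, smul_smul, inv_mul_cancel₀ hk, one_smul]
  · exact h.2.2 d hd h0

/-- The step with a superfluous form. -/
theorem stepI {A : Set (E →ₗ[ℚ] ℚ)} {b a : E →ₗ[ℚ] ℚ} {k : ℚ} {w : Set E} (hk : k ≠ 0)
    (hb : b = k • a) (hbA : b ∈ A) (hw : InvA (insert a A) w) (hLC : LC (insert a A) w) :
    InvA A w ∧ LC A w := by
  refine ⟨fun x y hxy => hw x y (sameSign_insert hk hb hbA hxy), fun q hq => ?_⟩
  obtain ⟨c, hc, hcF⟩ := hLC q hq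
  refine ⟨c, ?_, ?_⟩
  · intro x y hxy hx
    have key : ∀ d ∈ At (insert a A) q, d ∈ At A q ∨ (d = a ∧ b ∈ At A q) := by
      rintro d ⟨hd, h0⟩
      rcases hd with rfl | hd
      · exact Or.inr ⟨rfl, hbA, (zero_form hk hb q).2 h0⟩
      · exact Or.inl ⟨hd, h0⟩
    refine hc x y ?_ ?_
    · intro d hd
      rcases key d hd with h1 | ⟨rfl, h1⟩
      · exact hxy d h1
      · exact sign_mul_form hk hb x y (hxy b h1)
    · intro d hd
      rcases key d hd with h1 | ⟨rfl, h1⟩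
      · exact hx d h1
      · intro h0
        exact hx b h1 ((zero_form hk hb x).2 h0)
  · intro z b' hz hqz x y hx hy h1 h2
    exact hcF z b' (facet_insert' hk hb hbA hz) (face_insert hk hb hbA hqz) x y
      (face_insert hk hb hbA hx) (face_insert hk hb hbA hy) h1 h2

theorem stepI' {A : Set (E →ₗ[ℚ] ℚ)} {b a : E →ₗ[ℚ] ℚ} {k : ℚ} {w c : Set E} (hk : k ≠ 0)
    (hb : b = k • a) (hbA : b ∈ A) (hc : InvC A c)
    (hcF : ∀ z b, Facet A z b → FlipAt A c w z b) :
    InvC (insert a A) c ∧ ∀ z b, Facet (insert a A) z b → FlipAt (insert a A) c w z b := by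
  have hsub : A ⊆ insert a A := fun d hd => Or.inr hd
  refine ⟨fun x y hxy hx => hc x y (fun d hd => hxy d (hsub hd)) (fun d hd => hx d (hsub hd)),
    ?_⟩
  rintro z b' ⟨hb', h0, hz⟩ x y hx hy h1 h2
  rcases hb' with rfl | hb'
  · have hFb : Facet A z b := by
      refine ⟨hbA, (zero_form hk hb z).2 h0, fun d hd hd0 => ?_⟩
      obtain ⟨k', hk'⟩ := hz d (hsub hd) hd0
      refine ⟨k' * k⁻¹, ?_⟩
      rw [hb, smul_smul, mul_assoc, inv_mul_cancel₀ hk, mul_one, ← hk']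
    have e : ∀ v, b v = k * b' v := fun v => by rw [hb]; rfl
    rcases lt_or_gt_of_ne hk with h3 | h3
    · have := hcF z b hFb y x (face_anti hsub _ hy) (face_anti hsub _ hx)
        (by rw [e]; exact mul_pos_of_neg_of_neg h3 h2)
        (by rw [e]; exact mul_neg_of_neg_of_pos h3 h1)
      rw [← this]
      tauto
    · exact hcF z b hFb x y (face_anti hsub _ hx) (face_anti hsub _ hy)
        (by rw [e]; exact mul_pos h3 h1) (by rw [e]; exact mul_neg_of_pos_of_neg h3 h2)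
  · exact hcF z b' ⟨hb', h0, fun d hd hd0 => hz d (hsub hd) hd0⟩ x y (face_anti hsub _ hx)
      (face_anti hsub _ hy) h1 h2

/-- The main step. -/
theorem stepII {A : Set (E →ₗ[ℚ] ℚ)} {a : E →ₗ[ℚ] ℚ} {w c1 : Set E}
    (hna : ∀ b ∈ A, ∀ k : ℚ, b ≠ k • a) (hA0 : ∀ b ∈ A, b ≠ 0) (ha0 : a ≠ 0)
    (hw : InvA (insert a A) w)
    (hJ : ∀ z z' b b', SameSign A z z' → a z ≠ 0 → a z' ≠ 0 → Facet A z b → Facet A z' b' →
      ((z ∈ w ↔ Flips (insert a A) (c0 A a w) z b) ↔
        (z' ∈ w ↔ Flips (insert a A) (c0 A a w) z' b')))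
    (hc1 : InvC A c1) (hcF : ∀ z b, Facet A z b → FlipAt A c1 (w1 A a w) z b) :
    ∃ c : Set E, InvC (insert a A) c ∧
      ∀ z b, Facet (insert a A) z b → FlipAt (insert a A) c w z b := by
  have hsub : A ⊆ insert a A := fun d hd => Or.inr hd
  have hc1' : ∀ x y, SameSign A x y → Chm A x → (x ∈ c1 ↔ y ∈ c1) := fun x y h hx =>
    ⟨hc1 x y h hx, hc1 y x h.symm (chm_same h hx)⟩
  refine ⟨{x | ¬ (x ∈ c1 ↔ x ∈ c0 A a w)}, ?_, ?_⟩
  · intro x y hxy hx h
    have e1 := hc1' x y (fun d hd => hxy d (hsub hd)) (fun d hd => hx d (hsub hd))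
    have e2 : x ∈ c0 A a w ↔ y ∈ c0 A a w := ⟨c0_inv A a w x y hxy, c0_inv A a w y x hxy.symm⟩
    show ¬ (y ∈ c1 ↔ y ∈ c0 A a w)
    rw [← e1, ← e2]
    exact h
  · rintro z b hz x y hx hy h1 h2
    obtain ⟨hb, hb0, hz'⟩ := hz
    rcases hb with rfl | hb
    · -- the facet lies in the kernel of `a`
      have hdz : ∀ d ∈ A, d z ≠ 0 := by
        intro d hd hd0
        obtain ⟨k, hk⟩ := hz' d (hsub hd) hd0
        exact hna d hd k hk
      have hsx : ∀ x, z ∈ face (insert b A) x → SameSign A z x := by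
        intro x hx d hd
        exact (hx d (hsub hd)).resolve_left (hdz d hd)
      have e1 : x ∈ c1 ↔ y ∈ c1 :=
        hc1' x y ((hsx x hx).symm.trans (hsx y hy)) (chm_same (hsx x hx) hdz)
      have e2 : y ∉ c0 A b w := by
        rintro ⟨h3, _⟩
        exact absurd h3 (not_lt.2 h2.le)
      have e3 : x ∈ c0 A b w ↔ z ∈ w := by
        constructor
        · rintro ⟨_, h, h3, h4, h5⟩
          refine hw h z ?_ h5
          intro d hd
          rcases hd with rfl | hd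
          · rw [h3, hb0]
          · exact (h4.trans (hsx x hx).symm) d hd
        · intro h3
          exact ⟨h1, z, hb0, hsx x hx, h3⟩
      show (¬ (x ∈ c1 ↔ x ∈ c0 A b w) ↔ ¬¬ (y ∈ c1 ↔ y ∈ c0 A b w)) ↔ z ∈ w
      rw [← e1, e3]
      tauto
    · have haz : a z ≠ 0 := by
        intro h0
        obtain ⟨k, hk⟩ := hz' a (Or.inl rfl) h0
        by_cases hk0 : k = 0
        · rw [hk0, zero_smul] at hk
          exact ha0 hk
        · exact hna b hb k⁻¹ (by rw [hk, smul_smul, inv_mul_cancel₀ hk0, one_smul])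
      have hFA : Facet A z b := ⟨hb, hb0, fun d hd hd0 => hz' d (hsub hd) hd0⟩
      have e1 := hcF z b hFA x y (face_anti hsub _ hx) (face_anti hsub _ hy) h1 h2
      have e2 : z ∈ w1 A a w ↔ ¬ (z ∈ w ↔ Flips (insert a A) (c0 A a w) z b) := by
        constructor
        · rintro ⟨z', b', h3, h4, h5, h6⟩ h7
          exact h6 ((hJ z z' b b' h3 haz h4 hFA h5).1 h7)
        · intro h3
          exact ⟨z, b, fun _ _ => rfl, haz, hFA, h3⟩
      have e3 := flips_iff (c0_inv A a w) (facet_insert hFA haz) hx hy h1 h2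
      rw [e2, e3] at e1
      show (¬ (x ∈ c1 ↔ x ∈ c0 A a w) ↔ ¬¬ (y ∈ c1 ↔ y ∈ c0 A a w)) ↔ z ∈ w
      clear e2 e3
      by_cases p1 : x ∈ c1 <;> by_cases p2 : y ∈ c1 <;> by_cases p3 : x ∈ c0 A a w <;>
        by_cases p4 : y ∈ c0 A a w <;> by_cases p5 : z ∈ w <;>
        simp [p1, p2, p3, p4, p5] at e1 ⊢

end AJB

theorem I_JB (hJa : St_JBa) (hJb : St_JBb) : St_JB := by
  intro n E _ _ _ A w hdim hfin hA0 hw hLC
  obtain ⟨N, hN⟩ : ∃ N, N = A.ncard := ⟨_, rfl⟩
  induction N using Nat.strong_induction_on generalizing A w with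
  | _ N ih =>
    subst hN
    by_cases hs : Spn A
    · -- a nonzero point
      have : Nontrivial E := Module.nontrivial_of_finrank_pos (R := ℚ) (by omega)
      obtain ⟨v, hv⟩ := exists_ne (0 : E)
      have hne : ∃ a, a ∈ A := by
        by_contra hcon
        push Not at hcon
        exact hv (hs v (fun a ha => absurd ha (hcon a)))
      obtain ⟨a, ha⟩ := hne
      obtain ⟨A', hA'⟩ : ∃ A', A' = A \ {a} := ⟨_, rfl⟩
      have hAe : A = insert a A' := by
        rw [hA', Set.insert_sdiff_singleton, Set.insert_eq_of_mem ha]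
      have hsub : A' ⊆ A := by rw [hA']; exact Set.sdiff_subset
      have hfin' : A'.Finite := hfin.subset hsub
      have hlt : A'.ncard < A.ncard := by
        apply Set.ncard_lt_ncard _ hfin
        rw [hA']
        exact Set.sdiff_singleton_ssubset.2 ha
      have ha0 := hA0 a ha
      have hA0' : ∀ b ∈ A', b ≠ 0 := fun b hb => hA0 b (hsub hb)
      by_cases hcase : ∃ b ∈ A', ∃ k : ℚ, b = k • a
      · obtain ⟨b, hb, k, hk⟩ := hcase
        have hk0 : k ≠ 0 := by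
          rintro rfl
          exact hA0' b hb (by rw [hk, zero_smul])
        rw [hAe] at hw hLC
        obtain ⟨h1, h2⟩ := AJB.stepI hk0 hk hb hw hLC
        obtain ⟨c, hc, hcF⟩ := ih _ hlt A' w hfin' hA0' h1 h2 rfl
        rw [hAe]
        exact ⟨c, AJB.stepI' hk0 hk hb hc hcF⟩
      · push Not at hcase
        rw [hAe] at hw hLC hs
        have hJ : JBh A' a w := ⟨hfin', hA0', ha0, hcase, hw, hLC, hs⟩
        obtain ⟨c1, hc1, hcF⟩ := ih _ hlt A' (w1 A' a w) hfin' hA0' (by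
          rintro x y hxy ⟨z', b, h1, h2⟩
          exact ⟨z', b, hxy.symm.trans h1, h2⟩) (hJb n E A' a w hdim hJ) rfl
        rw [hAe]
        exact AJB.stepII hcase hA0' ha0 hw (hJa n E A' a w hdim hJ) hc1 hcF
    · -- the forms have a common zero
      unfold Spn at hs
      push Not at hs
      obtain ⟨q, hq, hq0⟩ := hs
      obtain ⟨c, hc, hcF⟩ := hLC q hq0
      have hAt : At A q = A := by
        ext d
        exact ⟨fun h => h.1, fun h => ⟨h, hq d h⟩⟩
      rw [hAt] at hc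
      exact ⟨c, hc, fun z b hz => hcF z b hz (fun d hd => Or.inl (hq d hd))⟩

end Pool.Agent.Work.MP_552024_lc.PLS
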