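import Pool.Agent.Work.MP_552024_lc.PLS.S4

/-!
MP_552024_lc, block S4, item JBa: the modified cycle is well defined.
-/

set_option autoImplicit false

namespace Pool.Agent.Work.MP_552024_lc.PLS

namespace AJBa

open SignType

variable {E : Type*} [AddCommGroup E] [Module ℚ E]

/-- Points on the same side of a facet have the same signs. -/
theorem sameSign_side {A : Set (E →ₗ[ℚ] ℚ)} {z x y : E} {b : E →ₗ[ℚ] ℚ} (hz : Facet A z b)
    (hx : z ∈ face A x) (hy : z ∈ face A y) (h : sign (b x) = sign (b y)) : SameSign A x y := by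
  intro d hd
  by_cases h0 : d z = 0
  · obtain ⟨k, rfl⟩ := hz.2.2 d hd h0
    show sign (k • b x) = sign (k • b y)
    rw [smul_eq_mul, smul_eq_mul, sign_mul, sign_mul, h]
  · rw [← (hx d hd).resolve_left h0, ← (hy d hd).resolve_left h0]

theorem facet_insert {A : Set (E →ₗ[ℚ] ℚ)} {a b : E →ₗ[ℚ] ℚ} {z : E} (hz : Facet A z b)
    (ha : a z ≠ 0) : Facet (insert a A) z b := by
  refine ⟨Or.inr hz.1, hz.2.1, fun d hd h0 => ?_⟩
  rcases hd with rfl | hd
  · exact absurd h0 ha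
  · exact hz.2.2 d hd h0

theorem eq_zero_of_same {A : Set (E →ₗ[ℚ] ℚ)} {x y : E} (h : SameSign A x y) {d : E →ₗ[ℚ] ℚ}
    (hd : d ∈ A) (h0 : d x = 0) : d y = 0 := by
  have := h d hd
  rwa [h0, sign_zero, eq_comm, sign_eq_zero_iff] at this

theorem facet_same {A : Set (E →ₗ[ℚ] ℚ)} {b : E →ₗ[ℚ] ℚ} {z z' : E} (hz : Facet A z b)
    (h : SameSign A z z') : Facet A z' b :=
  ⟨hz.1, eq_zero_of_same h hz.1 hz.2.1,
    fun d hd h0 => hz.2.2 d hd (eq_zero_of_same h.symm hd h0)⟩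

theorem c0_inv (A : Set (E →ₗ[ℚ] ℚ)) (a : E →ₗ[ℚ] ℚ) (w : Set E) :
    InvA (insert a A) (c0 A a w) := by
  rintro x y hxy ⟨h1, h, h2, h3, h4⟩
  refine ⟨?_, h, h2, h3.trans (fun d hd => hxy d (Or.inr hd)), h4⟩
  have := hxy a (Or.inl rfl)
  rwa [sign_pos h1, eq_comm, sign_eq_one_iff] at this

theorem flips_iff {A : Set (E →ₗ[ℚ] ℚ)} {c : Set E} {z x y : E} {b : E →ₗ[ℚ] ℚ} (hc : InvA A c)
    (hz : Facet A z b) (hx : z ∈ face A x) (hy : z ∈ face A y) (hbx : 0 < b x) (hby : b y < 0) :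
    Flips A c z b ↔ (x ∈ c ↔ y ∉ c) := by
  constructor
  · rintro ⟨x', y', h1, h2, h3, h4, h5⟩
    have e1 : SameSign A x' x := sameSign_side hz h1 hx (by rw [sign_pos h3, sign_pos hbx])
    have e2 : SameSign A y' y := sameSign_side hz h2 hy (by rw [sign_neg h4, sign_neg hby])
    have i1 : x' ∈ c ↔ x ∈ c := ⟨hc _ _ e1, hc _ _ e1.symm⟩
    have i2 : y' ∈ c ↔ y ∈ c := ⟨hc _ _ e2, hc _ _ e2.symm⟩
    rw [← i1, ← i2]; exact h5
  · intro h; exact ⟨x, y, hx, hy, hbx, hby, h⟩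

theorem flips_form {A : Set (E →ₗ[ℚ] ℚ)} {c : Set E} {z : E} {b b' : E →ₗ[ℚ] ℚ}
    (h : Facet A z b) (h' : Facet A z b') (hb' : b' ≠ 0) (hF : Flips A c z b) :
    Flips A c z b' := by
  obtain ⟨k, hk⟩ := h.2.2 b' h'.1 h'.2.1
  obtain ⟨x, y, h1, h2, h3, h4, h5⟩ := hF
  have e : ∀ v, b' v = k * b v := fun v => by rw [hk]; rfl
  rcases lt_trichotomy k 0 with hk0 | hk0 | hk0
  · refine ⟨y, x, h2, h1, ?_, ?_, ?_⟩
    · rw [e]; exact mul_pos_of_neg_of_neg hk0 h4
    · rw [e]; exact mul_neg_of_neg_of_pos hk0 h3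
    · tauto
  · exact absurd (by rw [hk, hk0, zero_smul]) hb'
  · refine ⟨x, y, h1, h2, ?_, ?_, h5⟩
    · rw [e]; exact mul_pos hk0 h3
    · rw [e]; exact mul_neg_of_pos_of_neg hk0 h4

theorem flips_same {A : Set (E →ₗ[ℚ] ℚ)} {c : Set E} {z z' : E} {b : E →ₗ[ℚ] ℚ}
    (h : SameSign A z z') (hF : Flips A c z b) : Flips A c z' b := by
  obtain ⟨x, y, h1, h2, h3⟩ := hF
  exact ⟨x, y, face_trans h.symm.mem_face h1, face_trans h.symm.mem_face h2, h3⟩

theorem exists_dual {a b : E →ₗ[ℚ] ℚ} (ha : a ≠ 0) (h : ∀ k : ℚ, b ≠ k • a) :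
    ∃ m, a m = 0 ∧ b m = 1 := by
  obtain ⟨u, hu⟩ : ∃ u, a u ≠ 0 := by
    by_contra hcon
    push Not at hcon
    exact ha (LinearMap.ext hcon)
  obtain ⟨v, hv⟩ : ∃ v, b v ≠ (b u / a u) * a v := by
    by_contra hcon
    push Not at hcon
    exact h (b u / a u) (LinearMap.ext fun v => hcon v)
  have hr : b v - (b u / a u) * a v ≠ 0 := sub_ne_zero.2 hv
  refine ⟨(b v - (b u / a u) * a v)⁻¹ • (v - (a v / a u) • u), ?_, ?_⟩
  · simp only [map_smul, map_sub, smul_eq_mul]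
    rw [div_mul_cancel₀ _ hu, sub_self, mul_zero]
  · simp only [map_smul, map_sub, smul_eq_mul]
    have : b v - a v / a u * b u = b v - (b u / a u) * a v := by ring
    rw [this, inv_mul_cancel₀ hr]

theorem near {I : Set (E →ₗ[ℚ] ℚ)} (hI : I.Finite) (z v : E) :
    ∃ s : ℚ, 0 < s ∧ z ∈ face I (z + s • v) := by
  obtain ⟨ε, hε, H⟩ := mem_face_small hI z v
  exact ⟨ε, hε, H ε hε le_rfl⟩

theorem opp {n : ℕ} [FiniteDimensional ℚ E] {A : Set (E →ₗ[ℚ] ℚ)} {a b : E →ₗ[ℚ] ℚ} {w : Set E}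
    (hdim : Module.finrank ℚ E = n + 3) (hJ : JBh A a w) {z z' : E} (hzz : SameSign A z z')
    (hz : 0 < a z) (hz' : a z' < 0) (hF : Facet A z b) :
    ((z ∈ w ↔ Flips (insert a A) (c0 A a w) z b) ↔
      (z' ∈ w ↔ Flips (insert a A) (c0 A a w) z' b)) := by
  obtain ⟨hA, hA0, ha0, hna, hw, hLC, hspn⟩ := hJ
  have hF' : Facet A z' b := facet_same hF hzz
  have hbA : b ∈ A := hF.1
  have hb0 : b ≠ 0 := hA0 b hbA
  obtain ⟨m, hm1, hm2⟩ := exists_dual ha0 (hna b hbA)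
  have hna' : ∀ k : ℚ, a ≠ k • b := by
    intro k hk
    by_cases hk0 : k = 0
    · rw [hk0, zero_smul] at hk
      exact ha0 hk
    · exact hna b hbA k⁻¹ (by rw [hk, smul_smul, inv_mul_cancel₀ hk0, one_smul])
  obtain ⟨e, he1, he2⟩ := exists_dual hb0 hna'
  have hIfin : (insert a A).Finite := hA.insert a
  obtain ⟨q, hq⟩ : ∃ q, q = a z • z' - a z' • z := ⟨_, rfl⟩
  have hdq : ∀ d : E →ₗ[ℚ] ℚ, d q = a z * d z' - a z' * d z := by
    intro d
    rw [hq, map_sub, map_smul, map_smul, smul_eq_mul, smul_eq_mul]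
  have haq : a q = 0 := by
    rw [hdq]; ring
  have hqz : SameSign A q z := by
    intro d hd
    have h1 := hzz d hd
    rw [hdq]
    rcases lt_trichotomy (d z) 0 with h | h | h
    · rw [sign_neg h, eq_comm, sign_eq_neg_one_iff] at h1
      have h2 := mul_neg_of_pos_of_neg hz h1
      have h3 := mul_pos_of_neg_of_neg hz' h
      rw [sign_neg h, sign_neg (by linarith)]
    · rw [h, sign_zero, eq_comm, sign_eq_zero_iff] at h1
      rw [h, h1]
      simp
    · rw [sign_pos h, eq_comm, sign_eq_one_iff] at h1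
      have h2 := mul_pos hz h1
      have h3 := mul_neg_of_neg_of_pos hz' h
      rw [sign_pos h, sign_pos (by linarith)]
  have hq0 : q ≠ 0 := by
    intro h0
    have h1 : ∀ d ∈ A, ∃ k : ℚ, d = k • b := by
      intro d hd
      exact hF.2.2 d hd (eq_zero_of_same hqz hd (by rw [h0, map_zero]))
    have h2 : LinearMap.ker (a.prod b) ≠ ⊥ := by
      apply LinearMap.ker_ne_bot_of_finrank_lt
      rw [hdim, Module.finrank_prod, Module.finrank_self]
      omega
    obtain ⟨v, hv, hv0⟩ := Submodule.exists_mem_ne_zero_of_ne_bot h2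
    have hv' : (a v, b v) = ((0 : ℚ), (0 : ℚ)) := hv
    rw [Prod.mk.injEq] at hv'
    apply hv0
    refine hspn v (fun d hd => ?_)
    rcases hd with rfl | hd
    · exact hv'.1
    · obtain ⟨k, rfl⟩ := h1 d hd
      show k • b v = 0
      rw [hv'.2, smul_zero]
  have hbq : b q = 0 := eq_zero_of_same hqz.symm hbA hF.2.1
  obtain ⟨c, hc, hcF⟩ := hLC q hq0
  -- membership in `c` depends on the signs of `a` and `b`
  have hAt : ∀ d ∈ At (insert a A) q, d = a ∨ ∃ k : ℚ, k ≠ 0 ∧ d = k • b := by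
    rintro d ⟨hd, hd0⟩
    rcases hd with rfl | hd
    · exact Or.inl rfl
    · right
      obtain ⟨k, rfl⟩ := hF.2.2 d hd (eq_zero_of_same hqz hd hd0)
      refine ⟨k, ?_, rfl⟩
      rintro rfl
      exact hA0 _ hd (zero_smul _ _)
  have hQ1 : ∀ x y, sign (a x) = sign (a y) → sign (b x) = sign (b y) → a x ≠ 0 → b x ≠ 0 →
      x ∈ c → y ∈ c := by
    intro x y h1 h2 h3 h4
    refine hc x y ?_ ?_
    · intro d hd
      rcases hAt d hd with rfl | ⟨k, _, rfl⟩
      · exact h1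
      · show sign (k • b x) = sign (k • b y)
        rw [smul_eq_mul, smul_eq_mul, sign_mul, sign_mul, h2]
    · intro d hd
      rcases hAt d hd with rfl | ⟨k, hk, rfl⟩
      · exact h3
      · show k • b x ≠ 0
        rw [smul_eq_mul]
        exact mul_ne_zero hk h4
  have hQ : ∀ x y, sign (a x) = sign (a y) → sign (b x) = sign (b y) → a x ≠ 0 → b x ≠ 0 →
      a y ≠ 0 → b y ≠ 0 → (x ∈ c ↔ y ∈ c) := fun x y h1 h2 h3 h4 h5 h6 =>
    ⟨hQ1 x y h1 h2 h3 h4, hQ1 y x h1.symm h2.symm h5 h6⟩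
  have ev : ∀ (d : E →ₗ[ℚ] ℚ) (x v : E) (s : ℚ), d (x + s • v) = d x + s * d v := by
    intro d x v s
    rw [map_add, map_smul, smul_eq_mul]
  have evn : ∀ (d : E →ₗ[ℚ] ℚ) (x v : E) (s : ℚ), d (x + s • (-v)) = d x - s * d v := by
    intro d x v s
    rw [map_add, map_smul, smul_eq_mul, map_neg]; ring
  have hqfz : q ∈ face (insert a A) z := by
    intro d hd
    rcases hd with rfl | hd
    · exact Or.inl haq
    · exact Or.inr (hqz d hd)
  have hqfz' : q ∈ face (insert a A) z' := by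
    intro d hd
    rcases hd with rfl | hd
    · exact Or.inl haq
    · exact Or.inr (hqz.trans hzz d hd)
  have hψF : ∀ (v : E) (s : ℚ), a v = 0 → b v ≠ 0 → 0 < s → q ∈ face (insert a A) (q + s • v) →
      Facet (insert a A) (q + s • v) a := by
    intro v s hv1 hv2 hs hface
    refine ⟨Or.inl rfl, by rw [ev, haq, hv1, mul_zero, add_zero], fun d hd h0 => ?_⟩
    have h1 : d q = 0 := by
      rcases hface d hd with h1 | h1
      · exact h1
      · rwa [h0, sign_zero, sign_eq_zero_iff] at h1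
    rcases hAt d ⟨hd, h1⟩ with rfl | ⟨k, hk, rfl⟩
    · exact ⟨1, (one_smul _ _).symm⟩
    · exfalso
      have h2 : k * (s * b v) = 0 := by
        have h3 : (k • b) (q + s • v) = k * (b (q + s • v)) := rfl
        rw [h3, ev, hbq, zero_add] at h0
        exact h0
      rcases mul_eq_zero.1 h2 with h3 | h3
      · exact hk h3
      · rcases mul_eq_zero.1 h3 with h4 | h4
        · exact hs.ne' h4
        · exact hv2 h4
  have hc0 : ∀ x ψ, z ∈ face A x → z ∈ face A ψ → a ψ = 0 → 0 < a x →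
      sign (b x) = sign (b ψ) → (x ∈ c0 A a w ↔ ψ ∈ w) := by
    intro x ψ hx hψ ha hax hs
    have h1 : SameSign A x ψ := sameSign_side hF hx hψ hs
    constructor
    · rintro ⟨_, h, h2, h3, h4⟩
      refine hw h ψ ?_ h4
      intro d hd
      rcases hd with rfl | hd
      · rw [h2, ha]
      · exact (h3.trans h1) d hd
    · intro h
      exact ⟨hax, ψ, ha, h1.symm, h⟩
  obtain ⟨s1, hs1, f1⟩ := near hIfin z m
  obtain ⟨s2, hs2, f2⟩ := near hIfin z (-m)
  obtain ⟨s3, hs3, f3⟩ := near hIfin z' m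
  obtain ⟨s4, hs4, f4⟩ := near hIfin z' (-m)
  obtain ⟨s5, hs5, f5⟩ := near hIfin q m
  obtain ⟨s6, hs6, f6⟩ := near hIfin q (-m)
  obtain ⟨p, hp⟩ : ∃ p, p = q + s5 • m := ⟨_, rfl⟩
  obtain ⟨p', hp'⟩ : ∃ p', p' = q + s6 • (-m) := ⟨_, rfl⟩
  rw [← hp] at f5
  rw [← hp'] at f6
  have hpF : Facet (insert a A) p a := by
    rw [hp]
    exact hψF m s5 hm1 (by rw [hm2]; exact one_ne_zero) hs5 (by rw [← hp]; exact f5)
  have hpF' : Facet (insert a A) p' a := by
    rw [hp']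
    exact hψF (-m) s6 (by rw [map_neg, hm1, neg_zero])
      (by rw [map_neg, hm2]; exact neg_ne_zero.2 one_ne_zero) hs6 (by rw [← hp']; exact f6)
  have hap : a p = 0 := hpF.2.1
  have hap' : a p' = 0 := hpF'.2.1
  have hbp : 0 < b p := by rw [hp, ev, hbq, hm2]; linarith
  have hbp' : b p' < 0 := by rw [hp', evn, hbq, hm2]; linarith
  obtain ⟨s7, hs7, f7⟩ := near hIfin p e
  obtain ⟨s8, hs8, f8⟩ := near hIfin p (-e)
  obtain ⟨s9, hs9, f9⟩ := near hIfin p' e
  obtain ⟨s10, hs10, f10⟩ := near hIfin p' (-e)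
  have hbz : b z = 0 := hF.2.1
  have hbz' : b z' = 0 := hF'.2.1
  -- the four values
  have a1 : a (e + m) = 1 := by rw [map_add, he2, hm1, add_zero]
  have b1 : b (e + m) = 1 := by rw [map_add, he1, hm2, zero_add]
  have a2 : a (e - m) = 1 := by rw [map_sub, he2, hm1, sub_zero]
  have b2 : b (e - m) = -1 := by rw [map_sub, he1, hm2, zero_sub]
  have a3 : a (-e + m) = -1 := by rw [map_add, map_neg, he2, hm1, add_zero]
  have b3 : b (-e + m) = 1 := by rw [map_add, map_neg, he1, hm2, neg_zero, zero_add]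
  have a4 : a (-e - m) = -1 := by rw [map_sub, map_neg, he2, hm1, sub_zero]
  have b4 : b (-e - m) = -1 := by rw [map_sub, map_neg, he1, hm2, neg_zero, zero_sub]
  have Q1 : ∀ x, 0 < a x → 0 < b x → (x ∈ c ↔ e + m ∈ c) := fun x h1 h2 =>
    hQ x _ (by rw [a1, sign_pos h1, sign_pos one_pos]) (by rw [b1, sign_pos h2, sign_pos one_pos])
      h1.ne' h2.ne' (by rw [a1]; exact one_ne_zero) (by rw [b1]; exact one_ne_zero)
  have Q2 : ∀ x, 0 < a x → b x < 0 → (x ∈ c ↔ e - m ∈ c) := fun x h1 h2 =>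
    hQ x _ (by rw [a2, sign_pos h1, sign_pos one_pos])
      (by rw [b2, sign_neg h2, sign_neg (by norm_num)])
      h1.ne' h2.ne (by rw [a2]; exact one_ne_zero) (by rw [b2]; norm_num)
  have Q3 : ∀ x, a x < 0 → 0 < b x → (x ∈ c ↔ -e + m ∈ c) := fun x h1 h2 =>
    hQ x _ (by rw [a3, sign_neg h1, sign_neg (by norm_num)])
      (by rw [b3, sign_pos h2, sign_pos one_pos])
      h1.ne h2.ne' (by rw [a3]; norm_num) (by rw [b3]; exact one_ne_zero)
  have Q4 : ∀ x, a x < 0 → b x < 0 → (x ∈ c ↔ -e - m ∈ c) := fun x h1 h2 =>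
    hQ x _ (by rw [a4, sign_neg h1, sign_neg (by norm_num)])
      (by rw [b4, sign_neg h2, sign_neg (by norm_num)])
      h1.ne h2.ne (by rw [a4]; norm_num) (by rw [b4]; norm_num)
  have E1 : (e + m ∈ c ↔ e - m ∉ c) ↔ z ∈ w := by
    rw [← hcF z b (facet_insert hF hz.ne') hqfz _ _ f1 f2 (by rw [ev, hbz, hm2]; linarith)
      (by rw [evn, hbz, hm2]; linarith),
      Q1 (z + s1 • m) (by rw [ev, hm1]; linarith) (by rw [ev, hbz, hm2]; linarith),
      Q2 (z + s2 • (-m)) (by rw [evn, hm1]; linarith) (by rw [evn, hbz, hm2]; linarith)]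
  have E2 : (-e + m ∈ c ↔ -e - m ∉ c) ↔ z' ∈ w := by
    rw [← hcF z' b (facet_insert hF' hz'.ne) hqfz' _ _ f3 f4 (by rw [ev, hbz', hm2]; linarith)
      (by rw [evn, hbz', hm2]; linarith),
      Q3 (z' + s3 • m) (by rw [ev, hm1]; linarith) (by rw [ev, hbz', hm2]; linarith),
      Q4 (z' + s4 • (-m)) (by rw [evn, hm1]; linarith) (by rw [evn, hbz', hm2]; linarith)]
  have E3 : (e + m ∈ c ↔ -e + m ∉ c) ↔ p ∈ w := by
    rw [← hcF p a hpF f5 _ _ f7 f8 (by rw [ev, hap, he2]; linarith)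
      (by rw [evn, hap, he2]; linarith),
      Q1 (p + s7 • e) (by rw [ev, hap, he2]; linarith) (by rw [ev, he1]; linarith),
      Q3 (p + s8 • (-e)) (by rw [evn, hap, he2]; linarith) (by rw [evn, he1]; linarith)]
  have E4 : (e - m ∈ c ↔ -e - m ∉ c) ↔ p' ∈ w := by
    rw [← hcF p' a hpF' f6 _ _ f9 f10 (by rw [ev, hap', he2]; linarith)
      (by rw [evn, hap', he2]; linarith),
      Q2 (p' + s9 • e) (by rw [ev, hap', he2]; linarith) (by rw [ev, he1]; linarith),
      Q4 (p' + s10 • (-e)) (by rw [evn, hap', he2]; linarith) (by rw [evn, he1]; linarith)]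
  have hsub : A ⊆ insert a A := fun d hd => Or.inr hd
  have hzp : z ∈ face A p :=
    face_trans hqz.symm.mem_face (face_anti hsub _ f5)
  have hzp' : z ∈ face A p' :=
    face_trans hqz.symm.mem_face (face_anti hsub _ f6)
  have E5 : Flips (insert a A) (c0 A a w) z b ↔ (p ∈ w ↔ p' ∉ w) := by
    rw [flips_iff (c0_inv A a w) (facet_insert hF hz.ne') f1 f2
      (by rw [ev, hbz, hm2]; linarith) (by rw [evn, hbz, hm2]; linarith),
      hc0 (z + s1 • m) p (face_anti hsub _ f1) hzp hap (by rw [ev, hm1]; linarith)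
        (by rw [sign_pos hbp, sign_pos (by rw [ev, hbz, hm2]; linarith)]),
      hc0 (z + s2 • (-m)) p' (face_anti hsub _ f2) hzp' hap' (by rw [evn, hm1]; linarith)
        (by rw [sign_neg hbp', sign_neg (by rw [evn, hbz, hm2]; linarith)])]
  have E6 : ¬ Flips (insert a A) (c0 A a w) z' b := by
    rintro ⟨x, y, h1, h2, _, _, h5⟩
    have hneg : ∀ x, z' ∈ face (insert a A) x → x ∉ c0 A a w := by
      rintro x hx ⟨h6, _⟩
      rcases hx a (Or.inl rfl) with h7 | h7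
      · exact hz'.ne h7
      · rw [sign_pos h6, sign_eq_one_iff] at h7
        exact absurd h7 (not_lt.2 hz'.le)
    exact hneg x h1 (h5.2 (hneg y h2))
  have E7 : Flips (insert a A) (c0 A a w) z' b ↔ False := iff_false_intro E6
  rw [E5, E7, ← E1, ← E2, ← E3, ← E4]
  by_cases c1 : e + m ∈ c <;> by_cases c2 : e - m ∈ c <;> by_cases c3 : -e + m ∈ c <;>
    by_cases c4 : -e - m ∈ c <;> simp [c1, c2, c3, c4]

end AJBa

theorem I_JBa : St_JBa := by
  intro n E _ _ _ A a w hdim hJ z z' b b' hzz hz hz' hb hb'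
  have hA0 := hJ.2.1
  have hw := hJ.2.2.2.2.1
  -- replace `b'` by `b`
  have hbz' : Facet A z' b := AJBa.facet_same hb hzz
  have hff : Flips (insert a A) (c0 A a w) z' b' ↔ Flips (insert a A) (c0 A a w) z' b := by
    constructor
    · exact AJBa.flips_form (AJBa.facet_insert hb' hz') (AJBa.facet_insert hbz' hz')
        (hA0 b hb.1)
    · exact AJBa.flips_form (AJBa.facet_insert hbz' hz') (AJBa.facet_insert hb' hz')
        (hA0 b' hb'.1)
  rw [hff]
  rcases lt_or_gt_of_ne hz with h1 | h1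
  · rcases lt_or_gt_of_ne hz' with h2 | h2
    · have hs : SameSign (insert a A) z z' := by
        intro d hd
        rcases hd with rfl | hd
        · rw [sign_neg h1, sign_neg h2]
        · exact hzz d hd
      have e1 : z ∈ w ↔ z' ∈ w := ⟨hw _ _ hs, hw _ _ hs.symm⟩
      have e2 : Flips (insert a A) (c0 A a w) z b ↔ Flips (insert a A) (c0 A a w) z' b :=
        ⟨AJBa.flips_same hs, AJBa.flips_same hs.symm⟩
      rw [e1, e2]
    · exact (AJBa.opp hdim hJ hzz.symm h2 h1 hbz').symm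
  · rcases lt_or_gt_of_ne hz' with h2 | h2
    · exact AJBa.opp hdim hJ hzz h1 h2 hb
    · have hs : SameSign (insert a A) z z' := by
        intro d hd
        rcases hd with rfl | hd
        · rw [sign_pos h1, sign_pos h2]
        · exact hzz d hd
      have e1 : z ∈ w ↔ z' ∈ w := ⟨hw _ _ hs, hw _ _ hs.symm⟩
      have e2 : Flips (insert a A) (c0 A a w) z b ↔ Flips (insert a A) (c0 A a w) z' b :=
        ⟨AJBa.flips_same hs, AJBa.flips_same hs.symm⟩
      rw [e1, e2]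

end Pool.Agent.Work.MP_552024_lc.PLS
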