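import Pool.Agent.Work.MP_552024_lc.PLS.S4

set_option autoImplicit false

namespace Pool.Agent.Work.MP_552024_lc.PLS

namespace AJBb

open SignType

variable {E : Type*} [AddCommGroup E] [Module ℚ E] {A B : Set (E →ₗ[ℚ] ℚ)} {a : E →ₗ[ℚ] ℚ}
  {w c : Set E}

theorem c0_inv : InvA (insert a A) (c0 A a w) := by
  rintro x y hxy ⟨h0, h, h1, h2, h3⟩
  refine ⟨?_, h, h1, fun b hb => (h2 b hb).trans (hxy b (Set.mem_insert_of_mem _ hb)), h3⟩
  have h4 := hxy a (Set.mem_insert _ _)
  rw [sign_pos h0] at h4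
  exact sign_eq_one_iff.1 h4.symm

theorem inv_iff {x y : E} (hc : InvA B c) (h : SameSign B x y) : x ∈ c ↔ y ∈ c :=
  ⟨hc _ _ h, hc _ _ h.symm⟩

theorem ne_of_sign {u v : ℚ} (h : sign u = sign v) (hu : u ≠ 0) : v ≠ 0 := by
  intro h0
  rw [h0, sign_zero, sign_eq_zero_iff] at h
  exact hu h

theorem zero_of_sign {u v : ℚ} (h : sign u = sign v) (hu : u = 0) : v = 0 := by
  rw [hu, sign_zero] at h
  exact sign_eq_zero_iff.1 h.symm

theorem pos_of_sign {u v : ℚ} (h : sign u = sign v) (hu : 0 < u) : 0 < v := by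
  rw [sign_pos hu] at h
  exact sign_eq_one_iff.1 h.symm

theorem neg_of_sign {u v : ℚ} (h : sign u = sign v) (hu : u < 0) : v < 0 := by
  rw [sign_neg hu] at h
  exact sign_eq_neg_one_iff.1 h.symm

theorem chm_same {x y : E} (h : SameSign B x y) (hx : Chm B x) : Chm B y :=
  fun d hd => ne_of_sign (h d hd) (hx d hd)

theorem invC_iff {x y : E} (hc : InvC B c) (h : SameSign B x y) (hx : Chm B x) :
    x ∈ c ↔ y ∈ c := ⟨hc _ _ h hx, hc _ _ h.symm (chm_same h hx)⟩

theorem same_pos {z x x' : E} {b : E →ₗ[ℚ] ℚ} (hF : Facet B z b) (hx : z ∈ face B x)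
    (hx' : z ∈ face B x') (h : 0 < b x) (h' : 0 < b x') : SameSign B x x' := by
  intro d hd
  by_cases h0 : d z = 0
  · obtain ⟨k, rfl⟩ := hF.2.2 d hd h0
    simp only [LinearMap.smul_apply, smul_eq_mul, sign_mul, sign_pos h, sign_pos h']
  · rw [← (hx d hd).resolve_left h0, ← (hx' d hd).resolve_left h0]

theorem same_neg {z x x' : E} {b : E →ₗ[ℚ] ℚ} (hF : Facet B z b) (hx : z ∈ face B x)
    (hx' : z ∈ face B x') (h : b x < 0) (h' : b x' < 0) : SameSign B x x' := by
  intro d hd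
  by_cases h0 : d z = 0
  · obtain ⟨k, rfl⟩ := hF.2.2 d hd h0
    simp only [LinearMap.smul_apply, smul_eq_mul, sign_mul, sign_neg h, sign_neg h']
  · rw [← (hx d hd).resolve_left h0, ← (hx' d hd).resolve_left h0]

theorem flips_iff {z x y : E} {b : E →ₗ[ℚ] ℚ} (hF : Facet B z b) (hc : InvA B c)
    (hx : z ∈ face B x) (hy : z ∈ face B y) (h : 0 < b x) (h' : b y < 0) :
    Flips B c z b ↔ (x ∈ c ↔ y ∉ c) := by
  constructor
  · rintro ⟨x', y', hx', hy', h1, h2, h3⟩
    rw [inv_iff hc (same_pos hF hx hx' h h1), inv_iff hc (same_neg hF hy hy' h' h2)]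
    exact h3
  · intro h3
    exact ⟨x, y, hx, hy, h, h', h3⟩

theorem facet_same {z z' : E} {b : E →ₗ[ℚ] ℚ} (hF : Facet B z b) (h : SameSign B z z') :
    Facet B z' b :=
  ⟨hF.1, zero_of_sign (h b hF.1) hF.2.1, fun d hd h0 =>
    hF.2.2 d hd (zero_of_sign (h d hd).symm h0)⟩

theorem facet_insert {z : E} {b : E →ₗ[ℚ] ℚ} (hF : Facet A z b) (h : a z ≠ 0) :
    Facet (insert a A) z b := by
  refine ⟨Set.mem_insert_of_mem _ hF.1, hF.2.1, fun d hd h0 => ?_⟩
  rcases Set.mem_insert_iff.1 hd with rfl | hd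
  · exact absurd h0 h
  · exact hF.2.2 d hd h0

theorem near (hfin : A.Finite) {z z1 x : E} (hz1 : SameSign A z z1) (hx : z ∈ face A x) :
    ∃ x1, z1 ∈ face (insert a A) x1 ∧ SameSign A x1 x := by
  obtain ⟨ε, hε, H⟩ := small_signs (hfin.insert a) z1 x
  refine ⟨z1 + ε • x, fun d hd => ?_, fun d hd => ?_⟩
  · by_cases h0 : d z1 = 0
    · exact Or.inl h0
    · exact Or.inr ((H ε hε le_rfl d hd).1 h0).symm
  · by_cases h0 : d z1 = 0
    · exact (H ε hε le_rfl d (Set.mem_insert_of_mem _ hd)).2 h0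
    · rw [(H ε hε le_rfl d (Set.mem_insert_of_mem _ hd)).1 h0, ← hz1 d hd]
      exact (hx d hd).resolve_left (ne_of_sign (hz1 d hd).symm h0)

theorem chm_near (hne : ∀ b ∈ A, b ≠ 0) {z x : E} {b : E →ₗ[ℚ] ℚ} (hF : Facet A z b)
    (hx : z ∈ face A x) (h : b x ≠ 0) : Chm A x := by
  intro d hd
  by_cases h0 : d z = 0
  · obtain ⟨k, rfl⟩ := hF.2.2 d hd h0
    have hk : k ≠ 0 := by
      rintro rfl
      exact hne _ hd (zero_smul _ _)
    rw [LinearMap.smul_apply, smul_eq_mul]
    exact mul_ne_zero hk h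
  · exact ne_of_sign ((hx d hd).resolve_left h0) h0

/-- The flip property of `c'`. -/
theorem flip_core (hfin : A.Finite) (hne : ∀ b ∈ A, b ≠ 0)
    (hW : ∀ z z1 b, SameSign A z z1 → a z1 ≠ 0 → Facet A z1 b →
      (z ∈ w1 A a w ↔ ¬ (z1 ∈ w ↔ Flips (insert a A) (c0 A a w) z1 b)))
    {q : E} {c' : Set E}
    (hcF : ∀ z b, Facet (insert a A) z b → q ∈ face (insert a A) z →
      FlipAt (insert a A) c w z b)
    (hP : ∀ x1 x, q ∈ face (insert a A) x1 → Chm (insert a A) x1 → SameSign A x1 x →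
      (x ∈ c' ↔ ¬ (x1 ∈ c ↔ x1 ∈ c0 A a w)))
    {z : E} {b : E →ₗ[ℚ] ℚ} (hF : Facet A z b)
    (hz1 : ∃ z1, SameSign A z z1 ∧ a z1 ≠ 0 ∧ q ∈ face (insert a A) z1) :
    FlipAt A c' (w1 A a w) z b := by
  intro x y hx hy h h'
  obtain ⟨z1, hs, haz, hq⟩ := hz1
  obtain ⟨x1, hx1, hxx⟩ := near (a := a) hfin hs hx
  obtain ⟨y1, hy1, hyy⟩ := near (a := a) hfin hs hy
  have hF1 := facet_same hF hs
  have hF2 := facet_insert hF1 haz
  have hbx : 0 < b x1 := pos_of_sign (hxx b hF.1).symm h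
  have hby : b y1 < 0 := neg_of_sign (hyy b hF.1).symm h'
  have hcx : Chm (insert a A) x1 := by
    intro d hd
    rcases Set.mem_insert_iff.1 hd with rfl | hd
    · exact ne_of_sign ((hx1 d (Set.mem_insert _ _)).resolve_left haz) haz
    · exact chm_same hxx.symm (chm_near hne hF hx h.ne') d hd
  have hcy : Chm (insert a A) y1 := by
    intro d hd
    rcases Set.mem_insert_iff.1 hd with rfl | hd
    · exact ne_of_sign ((hy1 d (Set.mem_insert _ _)).resolve_left haz) haz
    · exact chm_same hyy.symm (chm_near hne hF hy h'.ne) d hd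
  have e1 := hcF z1 b hF2 hq x1 y1 hx1 hy1 hbx hby
  have e2 := flips_iff hF2 (c0_inv (w := w)) hx1 hy1 hbx hby
  rw [hW z z1 b hs haz hF1, hP x1 x (face_trans hq hx1) hcx hxx,
    hP y1 y (face_trans hq hy1) hcy hyy, e2, ← e1]
  by_cases u1 : x1 ∈ c <;> by_cases u2 : y1 ∈ c <;> by_cases u3 : x1 ∈ c0 A a w <;>
    by_cases u4 : y1 ∈ c0 A a w <;> simp [u1, u2, u3, u4]

/-- The key lemma for points with `a q = 0`. -/
theorem key1 (hfin : A.Finite) (hw : InvA (insert a A) w) {q : E} (haq : a q = 0)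
    (hcI : InvC (At (insert a A) q) c)
    (hcF : ∀ z b, Facet (insert a A) z b → q ∈ face (insert a A) z →
      FlipAt (insert a A) c w z b)
    {y y' : E} (hy : Chm (At (insert a A) q) y) (hy' : Chm (At (insert a A) q) y')
    (hs : SameSign (At A q) y y') (h : 0 < a y) (h' : a y' < 0) :
    (y ∈ c ↔ y ∈ Tg q (c0 A a w)) ↔ (y' ∈ c ↔ y' ∈ Tg q (c0 A a w)) := by
  have hA := hfin.insert a
  have hd0 : 0 < a y - a y' := by linarith
  set t : ℚ := a y / (a y - a y') with ht
  have ht0 : 0 < t := div_pos h hd0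
  have ht1 : t ≤ 1 := by
    rw [ht, div_le_one hd0]; linarith
  set p : E := y + t • (y' - y) with hp
  have hap : a p = 0 := by
    rw [hp, map_add, map_smul, map_sub, smul_eq_mul, ht]
    field_simp
    ring
  have hps : SameSign (At A q) p y' := sameSign_segment hs.mem_face ht0 ht1
  obtain ⟨ε, hε, H⟩ := small_signs hA q y
  obtain ⟨δ, hδ, H'⟩ := small_signs hA q y'
  obtain ⟨γ, hγ, H''⟩ := small_signs hA q p
  set s : ℚ := min ε (min δ γ) with hsd
  have hs0 : 0 < s := lt_min hε (lt_min hδ hγ)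
  have K := H s hs0 (min_le_left _ _)
  have K' := H' s hs0 ((min_le_right _ _).trans (min_le_left _ _))
  have K'' := H'' s hs0 ((min_le_right _ _).trans (min_le_right _ _))
  have ma : a ∈ insert a A := Set.mem_insert _ _
  have haψ : a (q + s • p) = 0 := by
    rw [map_add, map_smul, haq, hap, smul_zero, add_zero]
  -- signs of the forms of A
  have sx : ∀ d ∈ A, sign (d (q + s • p)) = sign (d (q + s • y)) := by
    intro d hd
    have hd' := Set.mem_insert_of_mem a hd
    by_cases h0 : d q = 0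
    · rw [(K'' d hd').2 h0, (K d hd').2 h0, hps d ⟨hd, h0⟩, hs d ⟨hd, h0⟩]
    · rw [(K'' d hd').1 h0, (K d hd').1 h0]
  have sx' : ∀ d ∈ A, sign (d (q + s • p)) = sign (d (q + s • y')) := by
    intro d hd
    have hd' := Set.mem_insert_of_mem a hd
    by_cases h0 : d q = 0
    · rw [(K'' d hd').2 h0, (K' d hd').2 h0, hps d ⟨hd, h0⟩]
    · rw [(K'' d hd').1 h0, (K' d hd').1 h0]
  have hF : Facet (insert a A) (q + s • p) a := by
    refine ⟨ma, haψ, fun d hd h0 => ?_⟩
    rcases Set.mem_insert_iff.1 hd with rfl | hdA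
    · exact ⟨1, (one_smul _ _).symm⟩
    · exfalso
      by_cases h1 : d q = 0
      · have h2 := (K'' d hd).2 h1
        rw [hps d ⟨hdA, h1⟩] at h2
        exact hy' d ⟨hd, h1⟩ (zero_of_sign h2 h0)
      · exact h1 (zero_of_sign ((K'' d hd).1 h1) h0)
  have fq : ∀ v : E, (∀ d ∈ insert a A, (d q ≠ 0 → sign (d (q + s • v)) = sign (d q))) →
      q ∈ face (insert a A) (q + s • v) := by
    intro v hv d hd
    by_cases h0 : d q = 0
    · exact Or.inl h0
    · exact Or.inr (hv d hd h0).symm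
  have fx : q + s • p ∈ face (insert a A) (q + s • y) := by
    intro d hd
    rcases Set.mem_insert_iff.1 hd with rfl | hdA
    · exact Or.inl haψ
    · exact Or.inr (sx d hdA)
  have fx' : q + s • p ∈ face (insert a A) (q + s • y') := by
    intro d hd
    rcases Set.mem_insert_iff.1 hd with rfl | hdA
    · exact Or.inl haψ
    · exact Or.inr (sx' d hdA)
  have hax : 0 < a (q + s • y) := pos_of_sign ((K a ma).2 haq).symm h
  have hax' : a (q + s • y') < 0 := neg_of_sign ((K' a ma).2 haq).symm h'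
  have e1 := hcF _ a hF (fq p fun d hd => (K'' d hd).1) _ _ fx fx' hax hax'
  have sy : SameSign (At (insert a A) q) y (q + s • y) := fun d hd => ((K d hd.1).2 hd.2).symm
  have sy' : SameSign (At (insert a A) q) y' (q + s • y') :=
    fun d hd => ((K' d hd.1).2 hd.2).symm
  have e2 : y ∈ c ↔ q + s • y ∈ c := invC_iff hcI sy hy
  have e3 : y' ∈ c ↔ q + s • y' ∈ c := invC_iff hcI sy' hy'
  have e4 : y ∈ Tg q (c0 A a w) ↔ q + s • y ∈ c0 A a w :=
    (inv_iff (tg_inv hA c0_inv) sy).trans (tg_near hA c0_inv (fq y fun d hd => (K d hd).1))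
  have e5 : y' ∈ Tg q (c0 A a w) ↔ q + s • y' ∈ c0 A a w :=
    (inv_iff (tg_inv hA c0_inv) sy').trans (tg_near hA c0_inv (fq y' fun d hd => (K' d hd).1))
  have e6 : q + s • y' ∉ c0 A a w := fun h1 => absurd h1.1 (not_lt.2 hax'.le)
  have e7 : q + s • y ∈ c0 A a w ↔ q + s • p ∈ w := by
    constructor
    · rintro ⟨_, g, hg1, hg2, hg3⟩
      refine hw g _ ?_ hg3
      intro d hd
      rcases Set.mem_insert_iff.1 hd with rfl | hdA
      · rw [hg1, haψ]
      · rw [hg2 d hdA, sx d hdA]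
    · intro h1
      exact ⟨hax, _, haψ, sx, h1⟩
  rw [e4, e5, e7, e2, e3, ← e1]
  tauto

theorem key (hfin : A.Finite) (hw : InvA (insert a A) w) {q : E} (haq : a q = 0)
    (hcI : InvC (At (insert a A) q) c)
    (hcF : ∀ z b, Facet (insert a A) z b → q ∈ face (insert a A) z →
      FlipAt (insert a A) c w z b)
    {y y' : E} (hy : Chm (At (insert a A) q) y) (hy' : Chm (At (insert a A) q) y')
    (hs : SameSign (At A q) y y') :
    (y ∈ c ↔ y ∈ Tg q (c0 A a w)) ↔ (y' ∈ c ↔ y' ∈ Tg q (c0 A a w)) := by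
  have ma : a ∈ At (insert a A) q := ⟨Set.mem_insert _ _, haq⟩
  have main : sign (a y) = sign (a y') →
      ((y ∈ c ↔ y ∈ Tg q (c0 A a w)) ↔ (y' ∈ c ↔ y' ∈ Tg q (c0 A a w))) := by
    intro h
    have h1 : SameSign (At (insert a A) q) y y' := by
      rintro d ⟨hd, hd0⟩
      rcases Set.mem_insert_iff.1 hd with rfl | hdA
      · exact h
      · exact hs d ⟨hdA, hd0⟩
    rw [invC_iff hcI h1 hy, inv_iff (tg_inv (hfin.insert a) c0_inv) h1]
  rcases lt_or_gt_of_ne (hy a ma) with h | h <;> rcases lt_or_gt_of_ne (hy' a ma) with h' | h'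
  · exact main (by rw [sign_neg h, sign_neg h'])
  · exact (key1 hfin hw haq hcI hcF hy' hy hs.symm h' h).symm
  · exact key1 hfin hw haq hcI hcF hy hy' hs h h'
  · exact main (by rw [sign_pos h, sign_pos h'])

theorem exists_n (ha : a ≠ 0) {b : E →ₗ[ℚ] ℚ} (hb : b ≠ 0) (hind : ∀ k : ℚ, b ≠ k • a) :
    ∃ n, b n = 0 ∧ a n ≠ 0 := by
  by_contra hcon
  push Not at hcon
  obtain ⟨u, hu⟩ : ∃ u, b u ≠ 0 := by
    by_contra h
    push Not at h
    exact hb (LinearMap.ext h)
  have h1 : ∀ x, a x = (a u / b u) * b x := by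
    intro x
    have h2 : b (x - (b x / b u) • u) = 0 := by
      rw [map_sub, map_smul, smul_eq_mul, div_mul_cancel₀ _ hu, sub_self]
    have h3 := hcon _ h2
    rw [map_sub, map_smul, smul_eq_mul, sub_eq_zero] at h3
    rw [h3]
    field_simp
  have hk : a u / b u ≠ 0 := by
    intro h0
    exact ha (LinearMap.ext fun x => by rw [h1 x, h0, zero_mul]; rfl)
  refine hind (a u / b u)⁻¹ (LinearMap.ext fun x => ?_)
  rw [LinearMap.smul_apply, smul_eq_mul, h1 x, inv_mul_cancel_left₀ hk]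

end AJBb

open AJBb in
theorem I_JBb (hJBa : St_JBa) : St_JBb := by
  intro n E _ _ _ A a w hn hJ q hq0
  obtain ⟨hfin, hne, ha, hind, hw, hLC, hSpn⟩ := id hJ
  have hA := hfin.insert a
  have hW : ∀ z z1 b, SameSign A z z1 → a z1 ≠ 0 → Facet A z1 b →
      (z ∈ w1 A a w ↔ ¬ (z1 ∈ w ↔ Flips (insert a A) (c0 A a w) z1 b)) := by
    intro z z1 b h1 h2 h3
    constructor
    · rintro ⟨z', b', h4, h5, h6, h7⟩
      rw [hJBa n E A a w hn hJ z1 z' b b' (h1.symm.trans h4) h2 h5 h3 h6]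
      exact h7
    · intro h4
      exact ⟨z1, b, h1, h2, h3, h4⟩
  obtain ⟨c, hcI, hcF⟩ := hLC q hq0
  by_cases haq : a q = 0
  · refine ⟨{x | ∃ y, SameSign (At A q) y x ∧ Chm (At (insert a A) q) y ∧
      ¬ (y ∈ c ↔ y ∈ Tg q (c0 A a w))}, ?_, ?_⟩
    · rintro x x' hxx _ ⟨y, h1, h2, h3⟩
      exact ⟨y, h1.trans hxx, h2, h3⟩
    · intro z b hF hqz
      refine flip_core hfin hne hW hcF ?_ hF ?_
      · intro x1 x hqx hcx hxx
        have e1 : x1 ∈ Tg q (c0 A a w) ↔ x1 ∈ c0 A a w := tg_near hA c0_inv hqx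
        have hcx' : Chm (At (insert a A) q) x1 := fun d hd => hcx d hd.1
        have hxx' : SameSign (At A q) x1 x := fun d hd => hxx d hd.1
        rw [← e1]
        constructor
        · rintro ⟨y, h1, h2, h3⟩
          rw [key hfin hw haq hcI hcF h2 hcx' (h1.trans hxx'.symm)] at h3
          exact h3
        · intro h3
          exact ⟨x1, hxx', hcx', h3⟩
      · by_cases haz : a z = 0
        · obtain ⟨m, hm1, hm2⟩ := exists_n ha (hne b hF.1) (hind b hF.1)
          obtain ⟨ε, hε, H⟩ := small_signs hA z m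
          have K := H ε hε le_rfl
          have hzz : SameSign A z (z + ε • m) := by
            intro d hd
            by_cases h0 : d z = 0
            · obtain ⟨k, rfl⟩ := hF.2.2 d hd h0
              rw [h0, map_add, h0, map_smul, LinearMap.smul_apply, hm1]
              simp
            · exact ((K d (Set.mem_insert_of_mem _ hd)).1 h0).symm
          refine ⟨z + ε • m, hzz, ne_of_sign ((K a (Set.mem_insert _ _)).2 haz).symm hm2, ?_⟩
          intro d hd
          rcases Set.mem_insert_iff.1 hd with rfl | hdA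
          · exact Or.inl haq
          · rw [← hzz d hdA]
            exact hqz d hdA
        · refine ⟨z, fun _ _ => rfl, haz, ?_⟩
          intro d hd
          rcases Set.mem_insert_iff.1 hd with rfl | hdA
          · exact Or.inl haq
          · exact hqz d hdA
  · have hat : ∀ d ∈ At (insert a A) q, d ∈ At A q := by
      rintro d ⟨hd, hd0⟩
      rcases Set.mem_insert_iff.1 hd with rfl | hdA
      · exact absurd hd0 haq
      · exact ⟨hdA, hd0⟩
    refine ⟨{x | ¬ (x ∈ c ↔ x ∈ Tg q (c0 A a w))}, ?_, ?_⟩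
    · intro x x' hxx hx h1
      have h2 : SameSign (At (insert a A) q) x x' := fun d hd => hxx d (hat d hd)
      have h3 : Chm (At (insert a A) q) x := fun d hd => hx d (hat d hd)
      rw [Set.mem_ofPred_eq, invC_iff hcI h2 h3, inv_iff (tg_inv hA c0_inv) h2] at h1
      exact h1
    · intro z b hF hqz
      refine flip_core hfin hne hW hcF ?_ hF ?_
      · intro x1 x hqx hcx hxx
        have e1 : x1 ∈ Tg q (c0 A a w) ↔ x1 ∈ c0 A a w := tg_near hA c0_inv hqx
        have h2 : SameSign (At (insert a A) q) x1 x := fun d hd => hxx d (hat d hd).1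
        have h3 : Chm (At (insert a A) q) x1 := fun d hd => hcx d hd.1
        rw [← e1, invC_iff hcI h2 h3, inv_iff (tg_inv hA c0_inv) h2]
        exact Iff.rfl
      · obtain ⟨ε, hε, H⟩ := small_signs hA q z
        have K := H ε hε le_rfl
        refine ⟨q + ε • z, ?_, ne_of_sign ((K a (Set.mem_insert _ _)).1 haq).symm haq, ?_⟩
        · intro d hd
          have hd' := Set.mem_insert_of_mem a hd
          by_cases h0 : d q = 0
          · exact ((K d hd').2 h0).symm
          · rw [(K d hd').1 h0]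
            exact ((hqz d hd).resolve_left h0).symm
        · intro d hd
          by_cases h0 : d q = 0
          · exact Or.inl h0
          · exact Or.inr ((K d hd).1 h0).symm

end Pool.Agent.Work.MP_552024_lc.PLS
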