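import Pool.Agent.Work.MP_552024_lc.PLS.S4

set_option autoImplicit false

namespace Pool.Agent.Work.MP_552024_lc.PLS

namespace AK3

theorem Sph.pol {E : Type*} [AddCommGroup E] [Module ℚ E] {k : ℕ} {T : Set E} (h : Sph k T) :
    Pol T := by
  obtain ⟨D₁, D₂, U, rfl, _, h₁, h₂⟩ := h
  exact h₁.1.union h₂.1

end AK3

open AK3 in
theorem I_K3 (hSphIso : St_SphIso) (hSphQ : St_SphQ) (hSphTr : St_SphTr) : St_K3 := by
  intro n hA E _ _ _ T C hT hC hCT
  have hfr : Module.finrank ℚ (Fin (n + 2) → ℚ) = (n + 1) + 1 := by simp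
  have hU : Sph (n + 2) (Set.univ : Set (Fin (n + 2) → ℚ)) := hSphQ (n + 1) _ hfr
  obtain ⟨f, g, hfg⟩ := hSphIso (n + 1) E (Fin (n + 2) → ℚ) T Set.univ hT hU
  have hTp : Pol T := Sph.pol hT
  have hCp : Pol C := Sph.pol hC
  have hC'p : Pol (f '' C) := hfg.pol_image pol_univ hCT hCp
  have hC' : Sph (n + 1) (f '' C) :=
    hSphTr n E (Fin (n + 2) → ℚ) C (f '' C) f g hC hC'p (hfg.restrict_image hCT)
  obtain ⟨A, A', hAA, hAC, hB, hB'⟩ := hA (Fin (n + 2) → ℚ) hfr (f '' C) hC'
  have hgf : PLInv g f Set.univ T := hfg.symm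
  have hgC : g '' (f '' C) = C := hfg.image_image hCT
  have key : ∀ B : Set (Fin (n + 2) → ℚ), Ball (n + 2) B (f '' C) → Ball (n + 2) (g '' B) C := by
    intro B hBall
    have hBp : Pol (g '' B) := hgf.pol_image hTp (Set.subset_univ B) hBall.1
    refine Ball.transport hBall hBp (hgf.restrict_image (Set.subset_univ B)) ?_ ?_
    · rw [← hgC]
      exact Set.image_mono hBall.2.1
    · intro x _
      have h := hgf.mem_image (Set.subset_univ (f '' C)) (Set.mem_univ x)
      rw [hgC] at h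
      exact h.symm
  refine ⟨g '' A, g '' A', ?_, ?_, key A hB, key A' hB'⟩
  · rw [← Set.image_union, hAA]
    apply subset_antisymm
    · exact hgf.image_subset (subset_refl _)
    · intro x hx
      exact ⟨f x, Set.mem_univ _, hfg.gf x hx⟩
  · rw [← hgf.image_inter (Set.subset_univ A) (Set.subset_univ A'), hAC, hgC]

end Pool.Agent.Work.MP_552024_lc.PLS
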