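import Pool.Agent.Work.MP_552024_lc.PLS.S4

set_option autoImplicit false

/-! Links of spheres are spheres. -/

namespace Pool.Agent.Work.MP_552024_lc.PLS

namespace ALS

theorem pol_sph {E : Type} [AddCommGroup E] [Module ℚ E] {k : ℕ} {T : Set E} (h : Sph k T) :
    Pol T := by
  obtain ⟨D₁, D₂, U, rfl, _, h1, h2⟩ := h
  exact h1.1.union h2.1

/-- A linear surjection with one dimensional kernel, with a section. -/
theorem exists_proj (k : ℕ) (y : Fin (k + 2) → ℚ) (hy : y ≠ 0) :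
    ∃ (p : (Fin (k + 2) → ℚ) →ₗ[ℚ] (Fin (k + 1) → ℚ))
      (q : (Fin (k + 1) → ℚ) →ₗ[ℚ] (Fin (k + 2) → ℚ)), (∀ z, p (q z) = z) ∧
      (∀ v, p v = 0 ↔ ∃ c : ℚ, v = c • y) := by
  have h1 : Module.finrank ℚ (Submodule.span ℚ {y}) = 1 := finrank_span_singleton hy
  have h2 := Submodule.finrank_quotient_add_finrank (Submodule.span ℚ {y})
  have h3 : Module.finrank ℚ ((Fin (k + 2) → ℚ) ⧸ Submodule.span ℚ {y}) =
      Module.finrank ℚ (Fin (k + 1) → ℚ) := by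
    rw [h1] at h2
    have h4 : Module.finrank ℚ (Fin (k + 2) → ℚ) = k + 2 := by simp
    have h5 : Module.finrank ℚ (Fin (k + 1) → ℚ) = k + 1 := by simp
    omega
  let e := LinearEquiv.ofFinrankEq _ _ h3
  let p : (Fin (k + 2) → ℚ) →ₗ[ℚ] (Fin (k + 1) → ℚ) :=
    e.toLinearMap.comp (Submodule.span ℚ {y}).mkQ
  have hsurj : Function.Surjective p :=
    e.surjective.comp (Submodule.mkQ_surjective _)
  obtain ⟨q, hq⟩ := p.exists_rightInverse_of_surjective (LinearMap.range_eq_top.2 hsurj)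
  refine ⟨p, q, fun z => ?_, fun v => ?_⟩
  · have := congrArg (fun L => L z) hq
    simpa using this
  · have h6 : p v = 0 ↔ (Submodule.span ℚ {y}).mkQ v = 0 := by
      show e ((Submodule.span ℚ {y}).mkQ v) = 0 ↔ _
      exact e.map_eq_zero_iff
    rw [h6, Submodule.mkQ_apply, Submodule.Quotient.mk_eq_zero, Submodule.mem_span_singleton]
    exact ⟨fun ⟨c, hc⟩ => ⟨c, hc.symm⟩, fun ⟨c, hc⟩ => ⟨c, hc.symm⟩⟩

end ALS

open ALS in
theorem I_LS (hDer : St_Der) (hSphIso : St_SphIso) (hSphQ : St_SphQ) (hSphTr : St_SphTr) :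
    St_LS := by
  intro k E F _ _ _ _ _ _ T x π σ hπσ hker hT hxT hx0
  have hTp : Pol T := pol_sph hT
  have hV : Sph (k + 2) (Set.univ : Set (Fin (k + 2) → ℚ)) :=
    hSphQ (k + 1) (Fin (k + 2) → ℚ) (by simp)
  have hUp : Pol (Set.univ : Set (Fin (k + 2) → ℚ)) := pol_sph hV
  have hW : Sph (k + 1) (Set.univ : Set (Fin (k + 1) → ℚ)) :=
    hSphQ k (Fin (k + 1) → ℚ) (by simp)
  obtain ⟨f, g, hfg⟩ := hSphIso (k + 1) E (Fin (k + 2) → ℚ) T Set.univ hT hV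
  have hy0 : f x ≠ 0 := by
    intro h0
    have h1 := hfg.gf x hxT
    rw [h0, hfg.plg.zero (Set.mem_univ _)] at h1
    exact hx0 h1.symm
  obtain ⟨φ, γ, hφγ, hφ, -, -⟩ :=
    hDer E (Fin (k + 2) → ℚ) T Set.univ f g x hfg hTp hUp hxT
  rw [tg_univ] at hφγ
  have hCon : Con T := by
    obtain ⟨_, A, hA, H⟩ := hTp
    exact (show ClA A T from H).inv.con hA
  have hγm : ∀ w, γ w ∈ Tg x T := fun w => hφγ.mapsg w (Set.mem_univ _)
  have hγ : ∀ w (c : ℚ), γ (w + c • f x) = γ w + c • x := by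
    intro w c
    have h1 : γ w + c • x ∈ Tg x T := (tg_add hCon _ c).2 (hγm w)
    have h2 := hφγ.gf _ h1
    rw [hφ _ (hγm w) c, hφγ.fg w (Set.mem_univ _)] at h2
    exact h2
  obtain ⟨p, q, hpq, hp⟩ := exists_proj k (f x) hy0
  have hπx : π x = 0 := (hker x).2 ⟨1, (one_smul ℚ x).symm⟩
  have hpx : p (f x) = 0 := (hp _).2 ⟨1, (one_smul ℚ _).symm⟩
  have hσπ : ∀ v, ∃ c : ℚ, σ (π v) = v + c • x := by
    intro v
    obtain ⟨c, hc⟩ := (hker (σ (π v) - v)).1 (by rw [map_sub, hπσ, sub_self])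
    exact ⟨c, by rw [← hc]; abel⟩
  have hqp : ∀ v, ∃ c : ℚ, q (p v) = v + c • f x := by
    intro v
    obtain ⟨c, hc⟩ := (hp (q (p v) - v)).1 (by rw [map_sub, hpq, sub_self])
    exact ⟨c, by rw [← hc]; abel⟩
  have hmem : π '' Tg x T = {z | z ∈ (Set.univ : Set F) ∧ σ z ∈ Tg x T} := by
    ext z; constructor
    · rintro ⟨v, hv, rfl⟩
      obtain ⟨c, hc⟩ := hσπ v
      refine ⟨trivial, ?_⟩
      rw [hc]
      exact (tg_add hCon _ c).2 hv
    · rintro ⟨_, hz⟩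
      exact ⟨σ z, hz, hπσ z⟩
  have hFp : Pol (Set.univ : Set F) := ⟨trivial, ∅, Set.finite_empty, fun _ _ _ _ => trivial⟩
  have hPol : Pol (π '' Tg x T) := by
    rw [hmem]
    exact (plOn_linear σ Set.univ).pol_preimage hFp (tg_pol hTp hxT)
  have hσm : ∀ z ∈ π '' Tg x T, σ z ∈ Tg x T := fun z hz => by
    rw [hmem] at hz; exact hz.2
  have hinv : PLInv (fun z => p (φ (σ z))) (fun w => π (γ (q w))) (π '' Tg x T)
      (Set.univ : Set (Fin (k + 1) → ℚ)) := by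
    refine ⟨(hφγ.plf.comp (plOn_linear σ _) hσm).lin p,
      (hφγ.plg.comp (plOn_linear q _) (fun _ _ => trivial)).lin π, fun _ _ => trivial,
      fun w _ => ⟨γ (q w), hγm _, rfl⟩, fun z hz => ?_, fun w _ => ?_⟩
    · show π (γ (q (p (φ (σ z))))) = z
      obtain ⟨c, hc⟩ := hqp (φ (σ z))
      rw [hc, hγ, hφγ.gf _ (hσm z hz), map_add, map_smul, hπx, smul_zero, add_zero, hπσ]
    · show p (φ (σ (π (γ (q w))))) = w
      obtain ⟨c, hc⟩ := hσπ (γ (q w))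
      rw [hc, hφ _ (hγm _) c, hφγ.fg _ (Set.mem_univ _), map_add, map_smul, hpx, smul_zero,
        add_zero, hpq]
  exact hSphTr k (Fin (k + 1) → ℚ) F Set.univ (π '' Tg x T) _ _ hW hPol hinv.symm

end Pool.Agent.Work.MP_552024_lc.PLS
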