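import Pool.Agent.Work.MP_552024_lc.PLS.S4

/-! Item LS2: the germ of a sphere at a point with a two dimensional linear part. -/

set_option autoImplicit false

namespace Pool.Agent.Work.MP_552024_lc.PLS

namespace ALS2

theorem sph_con {E : Type} [AddCommGroup E] [Module ℚ E] {k : ℕ} {T : Set E} (h : Sph k T) :
    Con T := by
  obtain ⟨D1, D2, U, hT, _, h1, h2⟩ := h
  rw [hT]
  exact (h1.1.union h2.1).con

/-- A quotient by a line with a section. -/
theorem quot (E : Type) [AddCommGroup E] [Module ℚ E] [FiniteDimensional ℚ E] (x : E) :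
    ∃ (σ : (E ⧸ Submodule.span ℚ {x}) →ₗ[ℚ] E),
      (∀ z, (Submodule.span ℚ {x}).mkQ (σ z) = z) ∧
      (∀ y, (Submodule.span ℚ {x}).mkQ y = 0 ↔ ∃ c : ℚ, y = c • x) := by
  obtain ⟨σ, hσ⟩ := LinearMap.exists_rightInverse_of_surjective (Submodule.span ℚ {x}).mkQ
    (Submodule.range_mkQ _)
  refine ⟨σ, fun z => ?_, fun y => ?_⟩
  · exact LinearMap.congr_fun hσ z
  · rw [Submodule.mkQ_apply, Submodule.Quotient.mk_eq_zero, Submodule.mem_span_singleton]
    constructor
    · rintro ⟨c, hc⟩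
      exact ⟨c, hc.symm⟩
    · rintro ⟨c, hc⟩
      exact ⟨c, hc.symm⟩

end ALS2

theorem I_LS2 (hLS : St_LS) (hSph1 : St_Sph1) : St_LS2 := by
  intro E _ _ _ T x e hT hxT hx he hinv
  have hconT : Con T := ALS2.sph_con hT
  obtain ⟨σ, hσ, hker⟩ := ALS2.quot E x
  generalize hπ : (Submodule.span ℚ {x}).mkQ = π at hσ hker
  have hL := hLS 1 E (E ⧸ Submodule.span ℚ {x}) T x π σ hσ hker hT hxT hx
  have hconL : Con (π '' Tg x T) := ALS2.sph_con hL
  have he' : π e ≠ 0 := fun h0 => he ((hker e).1 h0)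
  have h0T : (0 : E) ∈ Tg x T := zero_mem_tg.2 hxT
  have hLinv : ∀ w ∈ π '' Tg x T, ∀ c : ℚ, w + c • π e ∈ π '' Tg x T := by
    rintro w ⟨v, hv, rfl⟩ c
    exact ⟨v + c • e, hinv v hv c, by rw [map_add, map_smul]⟩
  have heL : π e ∈ π '' Tg x T := by
    have := hLinv 0 ⟨0, h0T, map_zero _⟩ 1
    rwa [zero_add, one_smul] at this
  have hTg : Tg (π e) (π '' Tg x T) = π '' Tg x T := by
    have key : ∀ (v : E ⧸ Submodule.span ℚ {x}) (s : ℚ), 0 < s →
        (π e + s • v ∈ π '' Tg x T ↔ v ∈ π '' Tg x T) := by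
      intro v s hs
      rw [← inv_smul hconL v hs]
      constructor
      · intro h
        have := hLinv _ h (-1)
        have e1 : π e + s • v + (-1 : ℚ) • π e = s • v := by module
        rwa [e1] at this
      · intro h
        have := hLinv _ h 1
        have e1 : s • v + (1 : ℚ) • π e = π e + s • v := by module
        rwa [e1] at this
    ext v
    constructor
    · rintro ⟨ε, hε, K⟩
      exact (key v ε hε).1 (K ε hε le_rfl)
    · intro h
      exact ⟨1, one_pos, fun s hs _ => (key v s hs).2 h⟩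
  obtain ⟨σ2, hσ2, hker2⟩ := ALS2.quot (E ⧸ Submodule.span ℚ {x}) (π e)
  generalize hπ2 : (Submodule.span ℚ {π e}).mkQ = π2 at hσ2 hker2
  have hL2 := hLS 0 _ _ (π '' Tg x T) (π e) π2 σ2 hσ2 hker2 hL heL he'
  rw [hTg] at hL2
  obtain ⟨p', q', hp', hq', hqp, hunion⟩ := (hSph1 _ _).1 hL2
  -- the kernel of the composition
  have hK : ∀ y : E, π2 (π y) = 0 ↔ ∃ a b : ℚ, y = a • x + b • e := by
    intro y
    rw [hker2]
    constructor
    · rintro ⟨b, hb⟩
      have h1 : π (y - b • e) = 0 := by rw [map_sub, map_smul, hb, sub_self]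
      obtain ⟨a, ha⟩ := (hker _).1 h1
      exact ⟨a, b, by rw [← ha]; abel⟩
    · rintro ⟨a, b, rfl⟩
      refine ⟨b, ?_⟩
      have h1 : π (a • x) = 0 := (hker _).2 ⟨a, rfl⟩
      rw [map_add, h1, zero_add, map_smul]
  have hlift : ∀ z, π2 (π (σ (σ2 z))) = z := by
    intro z
    rw [hσ, hσ2]
  have hray : ∀ (r' : (E ⧸ Submodule.span ℚ {x}) ⧸ Submodule.span ℚ {π e}) (v : E),
      π2 (π v) ∈ ray r' ↔ ∃ a b c : ℚ, 0 ≤ c ∧ v = a • x + b • e + c • σ (σ2 r') := by
    intro r' v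
    constructor
    · rintro ⟨c, hc, h⟩
      have h1 : π2 (π (v - c • σ (σ2 r'))) = 0 := by
        rw [map_sub, map_sub, map_smul, map_smul, hlift, h, sub_self]
      obtain ⟨a, b, hab⟩ := (hK _).1 h1
      exact ⟨a, b, c, hc, by rw [← hab]; abel⟩
    · rintro ⟨a, b, c, hc, rfl⟩
      refine ⟨c, hc, ?_⟩
      have h1 : π2 (π (a • x + b • e)) = 0 := (hK _).2 ⟨a, b, rfl⟩
      rw [map_add, map_add, h1, zero_add, map_smul, map_smul, hlift]
  have hmem : ∀ v : E, v ∈ Tg x T ↔ π2 (π v) ∈ π2 '' (π '' Tg x T) := by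
    intro v
    constructor
    · intro hv
      exact ⟨π v, ⟨v, hv, rfl⟩, rfl⟩
    · rintro ⟨w, hw, hwv⟩
      have h1 : π2 (π v - w) = 0 := by rw [map_sub, hwv, sub_self]
      obtain ⟨c, hc⟩ := (hker2 _).1 h1
      have h2 : π v ∈ π '' Tg x T := by
        have := hLinv w hw c
        have e1 : w + c • π e = π v := by rw [← hc]; abel
        rwa [e1] at this
      obtain ⟨v1, hv1, hv1v⟩ := h2
      have h3 : π (v - v1) = 0 := by rw [map_sub, hv1v, sub_self]
      obtain ⟨c', hc'⟩ := (hker _).1 h3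
      have h4 := (tg_add hconT v1 c').2 hv1
      have e2 : v1 + c' • x = v := by rw [← hc']; abel
      rwa [e2] at h4
  refine ⟨σ (σ2 p'), σ (σ2 q'), ?_, ?_, ?_, ?_⟩
  · intro h
    have := (hK _).2 h
    rw [hlift] at this
    exact hp' this
  · intro h
    have := (hK _).2 h
    rw [hlift] at this
    exact hq' this
  · intro h
    have := (hray p' _).2 h
    rw [hlift] at this
    exact hqp this
  · ext v
    rw [hmem v, hunion, Set.mem_union, Set.mem_union, hray p' v, hray q' v]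
    rfl

end Pool.Agent.Work.MP_552024_lc.PLS
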