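import Pool.Agent.Work.MP_552024_lc.PLS.S4

set_option autoImplicit false

/-! Item Last: last points on a segment. -/

namespace Pool.Agent.Work.MP_552024_lc.PLS

namespace ALast

theorem aff {α β t r : ℚ} (h1 : α + r * β ≠ 0)
    (h2 : SignType.sign (α + r * β) ≠ SignType.sign (α + t * β)) :
    (t ≤ -α / β ∧ -α / β < r) ∨ (r < -α / β ∧ -α / β ≤ t) := by
  have hβ : β ≠ 0 := by
    rintro rfl
    simp at h2
  set ρ := -α / β with hρ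
  have e : ∀ x : ℚ, α + x * β = β * (x - ρ) := by
    intro x
    rw [hρ]
    field_simp
    ring
  rw [e, e, sign_mul, sign_mul] at h2
  rw [e] at h1
  have h3 : SignType.sign (r - ρ) ≠ SignType.sign (t - ρ) := fun h => h2 (by rw [h])
  have h4 : r - ρ ≠ 0 := fun h => h1 (by rw [h, mul_zero])
  rcases lt_or_gt_of_ne h4 with h5 | h5
  · right
    refine ⟨by linarith, ?_⟩
    by_contra h6
    exact h3 (by rw [sign_neg h5, sign_neg (by linarith)])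
  · left
    refine ⟨?_, by linarith⟩
    by_contra h6
    exact h3 (by rw [sign_pos h5, sign_pos (by linarith)])

variable {E : Type} [AddCommGroup E] [Module ℚ E]

theorem mem_face' {A : Set (E →ₗ[ℚ] ℚ)} {p v : E} {R : Finset ℚ}
    (hR : ∀ a ∈ A, -(a p) / (a v) ∈ R) {t r : ℚ}
    (h : ∀ ρ ∈ R, ¬ (t ≤ ρ ∧ ρ < r) ∧ ¬ (r < ρ ∧ ρ ≤ t)) : p + r • v ∈ face A (p + t • v) := by
  intro a ha
  have e : ∀ x : ℚ, a (p + x • v) = a p + x * a v := by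
    intro x
    rw [map_add, map_smul, smul_eq_mul]
  rw [e, e]
  by_cases h1 : a p + r * a v = 0
  · exact Or.inl h1
  · right
    by_contra h2
    obtain ⟨h3, h4⟩ := h _ (hR a ha)
    rcases aff h1 h2 with h5 | h5
    · exact h3 h5
    · exact h4 h5

theorem next {R : Finset ℚ} (h1 : (1 : ℚ) ∈ R) {t : ℚ} (ht : t ≤ 1) :
    ∃ r ∈ R, t ≤ r ∧ r ≤ 1 ∧ ∀ ρ ∈ R, ¬ (t ≤ ρ ∧ ρ < r) ∧ ¬ (r < ρ ∧ ρ ≤ t) := by
  obtain ⟨r, hr, hmin⟩ := Finset.exists_min_image (R.filter (fun ρ => t ≤ ρ)) (fun ρ => ρ)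
    ⟨1, Finset.mem_filter.2 ⟨h1, ht⟩⟩
  rw [Finset.mem_filter] at hr
  refine ⟨r, hr.1, hr.2, hmin 1 (Finset.mem_filter.2 ⟨h1, ht⟩), fun ρ hρ => ⟨?_, ?_⟩⟩
  · rintro ⟨a, b⟩
    exact absurd (hmin ρ (Finset.mem_filter.2 ⟨hρ, a⟩)) (not_le.2 b)
  · rintro ⟨a, b⟩
    linarith [hr.2]

theorem prev {R : Finset ℚ} {t₁ t : ℚ} (h1 : t₁ ∈ R) (ht : t₁ ≤ t) :
    ∃ r ∈ R, t₁ ≤ r ∧ r ≤ t ∧ ∀ ρ ∈ R, ¬ (t ≤ ρ ∧ ρ < r) ∧ ¬ (r < ρ ∧ ρ ≤ t) := by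
  obtain ⟨r, hr, hmax⟩ := Finset.exists_max_image (R.filter (fun ρ => ρ ≤ t)) (fun ρ => ρ)
    ⟨t₁, Finset.mem_filter.2 ⟨h1, ht⟩⟩
  rw [Finset.mem_filter] at hr
  refine ⟨r, hr.1, hmax t₁ (Finset.mem_filter.2 ⟨h1, ht⟩), hr.2, fun ρ hρ => ⟨?_, ?_⟩⟩
  · rintro ⟨a, b⟩
    linarith [hr.2]
  · rintro ⟨a, b⟩
    exact absurd (hmax ρ (Finset.mem_filter.2 ⟨hρ, b⟩)) (not_le.2 a)

end ALast

open ALast in
theorem I_Last : St_Last := by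
  classical
  intro E _ _ _ X Y p₀ q₀ hX hY hp hq hXY
  obtain ⟨_, A, hA, hAX⟩ := hX
  obtain ⟨_, B, hB, hBY⟩ := hY
  set v : E := q₀ - p₀ with hv
  set R : Finset ℚ := insert 0 (insert 1 (hA.toFinset.image (fun a => -(a p₀) / (a v)) ∪
    hB.toFinset.image (fun a => -(a p₀) / (a v)))) with hR
  have h0R : (0 : ℚ) ∈ R := Finset.mem_insert_self _ _
  have h1R : (1 : ℚ) ∈ R := Finset.mem_insert_of_mem (Finset.mem_insert_self _ _)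
  have hRA : ∀ a ∈ A, -(a p₀) / (a v) ∈ R := fun a ha =>
    Finset.mem_insert_of_mem (Finset.mem_insert_of_mem (Finset.mem_union_left _
      (Finset.mem_image.2 ⟨a, hA.mem_toFinset.2 ha, rfl⟩)))
  have hRB : ∀ a ∈ B, -(a p₀) / (a v) ∈ R := fun a ha =>
    Finset.mem_insert_of_mem (Finset.mem_insert_of_mem (Finset.mem_union_right _
      (Finset.mem_image.2 ⟨a, hB.mem_toFinset.2 ha, rfl⟩)))
  have z0 : p₀ + (0 : ℚ) • v ∈ X := by rwa [zero_smul, add_zero]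
  have z1 : p₀ + (1 : ℚ) • v ∈ Y := by
    rw [one_smul, hv, add_sub_cancel]
    exact hq
  obtain ⟨t₁, ht₁, hmax⟩ := Finset.exists_max_image
    (R.filter (fun r => 0 ≤ r ∧ r ≤ 1 ∧ p₀ + r • v ∈ X)) (fun ρ => ρ)
    ⟨0, Finset.mem_filter.2 ⟨h0R, le_rfl, zero_le_one, z0⟩⟩
  rw [Finset.mem_filter] at ht₁
  obtain ⟨a1, a2, a3, a4⟩ := ht₁
  have a5 : t₁ < 1 := by
    rcases a3.lt_or_eq with h | h
    · exact h
    · rw [h] at a4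
      exact absurd z1 (hXY 1 zero_le_one le_rfl a4)
  obtain ⟨t₂, ht₂, hmin⟩ := Finset.exists_min_image
    (R.filter (fun r => t₁ < r ∧ r ≤ 1 ∧ p₀ + r • v ∈ Y)) (fun ρ => ρ)
    ⟨1, Finset.mem_filter.2 ⟨h1R, a5, le_rfl, z1⟩⟩
  rw [Finset.mem_filter] at ht₂
  obtain ⟨b1, b2, b3, b4⟩ := ht₂
  refine ⟨t₁, t₂, a2, b2, b3, Or.inl ⟨a4, b4⟩, fun t h1 h2 => ⟨fun h => ?_, fun h => ?_⟩⟩
  · obtain ⟨r, hr, c1, c2, c3⟩ := next h1R (t := t) (by linarith)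
    have h3 : p₀ + r • v ∈ X := hAX _ h (mem_face' hRA c3)
    have := hmax r (Finset.mem_filter.2 ⟨hr, by linarith, c2, h3⟩)
    linarith
  · obtain ⟨r, hr, c1, c2, c3⟩ := prev a1 h1.le
    have h3 : p₀ + r • v ∈ Y := hBY _ h (mem_face' hRB c3)
    rcases c1.lt_or_eq with h4 | h4
    · have := hmin r (Finset.mem_filter.2 ⟨hr, h4, by linarith, h3⟩)
      linarith
    · rw [← h4] at h3
      exact hXY t₁ a2 a3 a4 h3

end Pool.Agent.Work.MP_552024_lc.PLS
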