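import Pool.Agent.Work.MP_552024_lc.PLS.S4L

set_option autoImplicit false

namespace Pool.Agent.Work.MP_552024_lc.PLS

namespace ALocH

variable {E : Type} [AddCommGroup E] [Module ℚ E]

theorem plinv (h : E →ₗ[ℚ] ℚ) (r : E →ₗ[ℚ] (LinearMap.ker h))
    (hr : ∀ z : LinearMap.ker h, r z = z) :
    PLInv (fun z : LinearMap.ker h => (z : E)) (fun y => r y) (Set.univ) {x | h x = 0} where
  plf := plOn_linear (LinearMap.ker h).subtype _
  plg := plOn_linear r _
  mapsf := fun z _ => z.2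
  mapsg := fun _ _ => Set.mem_univ _
  gf := fun z _ => hr z
  fg := fun y hy => by
    have := hr ⟨y, hy⟩
    simp only at this
    rw [this]

theorem tg_image (h : E →ₗ[ℚ] ℚ) (S : Set E) (hS : ∀ y ∈ S, h y = 0) (x : LinearMap.ker h) :
    (fun z : LinearMap.ker h => (z : E)) '' (Tg x {z : LinearMap.ker h | (z : E) ∈ S}) =
      Tg (x : E) S := by
  ext v
  constructor
  · rintro ⟨w, ⟨e, he, hw⟩, rfl⟩
    exact ⟨e, he, fun s h0 h1 => hw s h0 h1⟩
  · rintro ⟨e, he, hv⟩
    have h1 := hS _ (hv e he le_rfl)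
    have hx : h (x : E) = 0 := x.2
    have hv0 : h v = 0 := by
      rw [map_add, map_smul, hx, zero_add, smul_eq_mul] at h1
      exact (mul_eq_zero.1 h1).resolve_left he.ne'
    exact ⟨⟨v, hv0⟩, ⟨e, he, fun s h0 h1 => hv s h0 h1⟩, rfl⟩

theorem finrank_ker [FiniteDimensional ℚ E] (h : E →ₗ[ℚ] ℚ) (hne : h ≠ 0) (hE : Module.finrank ℚ E = 4) :
    Module.finrank ℚ (LinearMap.ker h) = 0 + 3 := by
  have h1 := LinearMap.finrank_range_add_finrank_ker h
  have h2 : LinearMap.range h = ⊤ := by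
    rw [LinearMap.range_eq_top]
    exact LinearMap.surjective hne
  rw [h2, finrank_top, hE, Module.finrank_self] at h1
  omega

end ALocH

open ALocH in
theorem I_LocH (hJBS : St_JBS) (hSchA1 : St_SchA1) (hStdSides : St_StdSides) (hSphTr : St_SphTr) :
    St_LocH := by
  intro E _ _ _ C D D' h x hE hne hC hu hi hD hD' hx hx0
  have hDh : ∀ y ∈ D, h y = 0 := fun y hy => by
    have : y ∈ D ∪ D' := Or.inl hy
    rw [hu] at this; exact this
  have hDh' : ∀ y ∈ D', h y = 0 := fun y hy => by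
    have : y ∈ D ∪ D' := Or.inr hy
    rw [hu] at this; exact this
  have hCh : ∀ y ∈ C, h y = 0 := fun y hy => hDh y (hi ▸ hy).1
  obtain ⟨r, hr⟩ := LinearMap.exists_leftInverse_of_injective (LinearMap.ker h).subtype
    (Submodule.ker_subtype _)
  have hr' : ∀ z : LinearMap.ker h, r z = z := fun z => by
    have := LinearMap.congr_fun hr z
    simpa using this
  have hP := plinv h r hr'
  have hpol : ∀ S : Set E, Pol S → (∀ y ∈ S, h y = 0) →
      Pol {z : LinearMap.ker h | (z : E) ∈ S} ∧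
      PLInv (fun y => r y) (fun z : LinearMap.ker h => (z : E)) S
        {z : LinearMap.ker h | (z : E) ∈ S} := by
    intro S hS hS0
    have h1 : PLInv (fun y => r y) (fun z : LinearMap.ker h => (z : E)) S
        {z : LinearMap.ker h | (z : E) ∈ S} := by
      refine ⟨hP.plg.mono hS0, hP.plf.mono (Set.subset_univ _), ?_, ?_, ?_, ?_⟩
      · intro y hy
        have this : ((r y : LinearMap.ker h) : E) = y := hP.fg y (hS0 y hy)
        simp only [Set.mem_setOf_eq, this]
        exact hy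
      · intro z hz; exact hz
      · intro y hy; exact hP.fg y (hS0 y hy)
      · intro z _; exact hr' z
    refine ⟨?_, h1⟩
    have h2 := hP.plf.pol_preimage pol_univ hS
    simpa using h2
  have hCp : Pol C := hi ▸ hD.1.inter hD'.1
  obtain ⟨pC, iC⟩ := hpol C hCp hCh
  obtain ⟨pD, iD⟩ := hpol D hD.1 hDh
  obtain ⟨pD', iD'⟩ := hpol D' hD'.1 hDh'
  set CH : Set (LinearMap.ker h) := {z | (z : E) ∈ C} with hCH
  set DH : Set (LinearMap.ker h) := {z | (z : E) ∈ D} with hDH
  set DH' : Set (LinearMap.ker h) := {z | (z : E) ∈ D'} with hDH'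
  have sC : Sph 2 CH := hSphTr 1 E _ C CH _ _ hC pC iC
  have bD : Ball 3 DH CH := hD.transport pD iD (fun z hz => hD.2.1 hz) (fun y hy => by
    have this : ((r y : LinearMap.ker h) : E) = y := hP.fg y (hDh y hy)
    simp only [hCH, Set.mem_setOf_eq, this])
  have bD' : Ball 3 DH' CH := hD'.transport pD' iD' (fun z hz => hD'.2.1 hz) (fun y hy => by
    have this : ((r y : LinearMap.ker h) : E) = y := hP.fg y (hDh' y hy)
    simp only [hCH, Set.mem_setOf_eq, this])
  have hun : DH ∪ DH' = Set.univ := by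
    ext z
    simp only [Set.mem_univ, iff_true]
    have : (z : E) ∈ D ∪ D' := by rw [hu]; exact z.2
    exact this
  have hin : DH ∩ DH' = CH := by
    ext z
    have : (z : E) ∈ D ∩ D' ↔ (z : E) ∈ C := by rw [hi]
    exact this
  obtain ⟨c1, c2, -, -⟩ := hStdSides 2 _ CH DH DH' hun hin bD bD'
  obtain ⟨M, M', ⟨m1, m2, m3, m4⟩, hloc⟩ := hJBS 0 hSchA1 _ CH (finrank_ker h hne hE) sC
  have key : ∀ N : Set (LinearMap.ker h), Comp N Set.univ CH → N = DH ∨ N = DH' := by
    intro N hN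
    obtain ⟨y, hy⟩ := hN.nonempty
    have : y ∈ DH ∪ DH' := by rw [hun]; trivial
    rcases this with hyD | hyD
    · left; exact hN.eq_of_meet pol_univ pC c1 ⟨y, hy, hyD, hy.2⟩
    · right; exact hN.eq_of_meet pol_univ pC c2 ⟨y, hy, hyD, hy.2⟩
  have hMM : M ≠ M' := by
    rintro rfl
    obtain ⟨y, hy⟩ := m1.nonempty
    apply hy.2
    rw [← m4]; exact ⟨hy.1, hy.1⟩
  have hxh : h x = 0 := hCh x hx
  have hxH : (⟨x, hxh⟩ : LinearMap.ker h) ∈ CH := hx
  have hx0H : (⟨x, hxh⟩ : LinearMap.ker h) ≠ 0 := fun h0 => hx0 (congrArg Subtype.val h0)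
  obtain ⟨q1, q2, -, -⟩ := hloc _ hxH hx0H
  have hfin : Comp (Tg (⟨x, hxh⟩ : LinearMap.ker h) DH) Set.univ (Tg ⟨x, hxh⟩ CH) ∧
      Comp (Tg (⟨x, hxh⟩ : LinearMap.ker h) DH') Set.univ (Tg ⟨x, hxh⟩ CH) := by
    rcases key M m1 with e | e <;> rcases key M' m2 with e' | e'
    · exact absurd (e.trans e'.symm) hMM
    · rw [e] at q1; rw [e'] at q2; exact ⟨q1, q2⟩
    · rw [e] at q1; rw [e'] at q2; exact ⟨q2, q1⟩
    · exact absurd (e.trans e'.symm) hMM
  have himg : ∀ S : Set E, Pol S → (∀ y ∈ S, h y = 0) →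
      Comp (Tg (⟨x, hxh⟩ : LinearMap.ker h) {z | (z : E) ∈ S}) Set.univ (Tg ⟨x, hxh⟩ CH) →
      Comp (Tg x S) {x | h x = 0} (Tg x C) := by
    intro S hS hS0 hc
    have h1 := hP.comp_image pol_univ (pol_hyperplane h) pol_univ subset_rfl
      (tg_pol pC hxH) (Set.subset_univ _) hc
    rw [tg_image h S hS0, tg_image h C hCh] at h1
    have h2 : (fun z : LinearMap.ker h => (z : E)) '' Set.univ = {x | h x = 0} := by
      ext v
      constructor
      · rintro ⟨w, _, rfl⟩; exact w.2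
      · intro hv; exact ⟨⟨v, hv⟩, trivial, rfl⟩
    rw [h2] at h1
    exact h1
  exact ⟨himg D hD.1 hDh hfin.1, himg D' hD'.1 hDh' hfin.2⟩

end Pool.Agent.Work.MP_552024_lc.PLS
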