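import Pool.Agent.Work.MP_552024_lc.PLS.S4

set_option autoImplicit false

/-! Local sides of a sphere of codimension one. -/

namespace Pool.Agent.Work.MP_552024_lc.PLS

namespace ALocS

variable {E : Type*} [AddCommGroup E] [Module ℚ E]
variable {F : Type*} [AddCommGroup F] [Module ℚ F]

/-- Preimages of closed sets under linear maps are closed. -/
theorem pol_pre (π : E →ₗ[ℚ] F) {S : Set F} (hS : Pol S) : Pol (π ⁻¹' S) := by
  obtain ⟨h0, A, hA, H⟩ := hS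
  refine ⟨by rw [Set.mem_preimage, map_zero]; exact h0, (fun a => a.comp π) '' A,
    hA.image _, fun y hy x hx => ?_⟩
  refine H (π y) hy ?_
  intro a ha
  exact hx (a.comp π) ⟨a, ha, rfl⟩

theorem cl_pre_sub (π : E →ₗ[ℚ] F) (S : Set F) : cl (π ⁻¹' S) ⊆ π ⁻¹' (cl S) := by
  rintro x (rfl | ⟨y, hy, H⟩)
  · rw [Set.mem_preimage, map_zero]; exact zero_mem_cl S
  · refine Or.inr ⟨π y, hy, fun t h0 h1 => ?_⟩
    have := H t h0 h1
    rwa [Set.mem_preimage, map_add, map_smul, map_sub] at this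

theorem cl_pre (π : E →ₗ[ℚ] F) (σ : F →ₗ[ℚ] E) (hσ : ∀ z, π (σ z) = z) {S : Set F}
    (hS : Con S) (hne : S.Nonempty) : cl (π ⁻¹' S) = π ⁻¹' (cl S) := by
  refine subset_antisymm (cl_pre_sub π S) ?_
  intro x hx
  rcases hx with h | ⟨z, hz, H⟩
  · obtain ⟨z, hz⟩ := hne
    refine Or.inr ⟨x + σ z, ?_, fun t h0 _ => ?_⟩
    · rw [Set.mem_preimage, map_add, h, hσ, zero_add]; exact hz
    · rw [Set.mem_preimage, add_sub_cancel_left, map_add, h, zero_add, map_smul, hσ]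
      exact (inv_smul hS z h0).2 hz
  · refine Or.inr ⟨x + σ (z - π x), ?_, fun t h0 h1 => ?_⟩
    · rw [Set.mem_preimage, map_add, hσ, add_sub_cancel]; exact hz
    · rw [Set.mem_preimage, add_sub_cancel_left, map_add, map_smul, hσ]
      exact H t h0 h1

theorem conn_pre (π : E →ₗ[ℚ] F) (σ : F →ₗ[ℚ] E) (hσ : ∀ z, π (σ z) = z) {S : Set F}
    (hS : Conn S) : Conn (π ⁻¹' S) := by
  obtain ⟨⟨z₀, hz₀⟩, hC⟩ := hS
  have hmem : ∀ z ∈ S, σ z ∈ π ⁻¹' S := fun z hz => by rw [Set.mem_preimage, hσ]; exact hz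
  refine ⟨⟨σ z₀, hmem z₀ hz₀⟩, fun F₁ F₂ h₁ h₂ hcov hdis => ?_⟩
  have hfib : ∀ z ∈ S, {y | π y = z} ⊆ F₁ ∨ {y | π y = z} ⊆ F₂ := by
    intro z hz
    have hsub : {y | π y = z} ⊆ π ⁻¹' S := by
      intro y hy
      have hy' : π y = z := hy
      rw [Set.mem_preimage, hy']; exact hz
    have hconn : Conn {y | π y = z} := by
      refine conn_of_convex ⟨σ z, hσ z⟩ ?_
      intro a ha b hb t _ _
      have ha' : π a = z := ha
      have hb' : π b = z := hb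
      show π (a + t • (b - a)) = z
      rw [map_add, map_smul, map_sub, ha', hb', sub_self, smul_zero, add_zero]
    exact hconn.2 F₁ F₂ h₁ h₂ (hsub.trans hcov) (fun y hy => hdis y (hsub hy))
  have hS' := hC (σ ⁻¹' F₁) (σ ⁻¹' F₂) (pol_pre σ h₁) (pol_pre σ h₂)
    (fun z hz => hcov (hmem z hz)) (fun z hz => hdis _ (hmem z hz))
  rcases hS' with h | h
  · left
    intro y hy
    rcases hfib (π y) hy with h3 | h3
    · exact h3 rfl
    · exact absurd (h3 (hσ (π y))) (hdis _ (hmem _ hy) (h hy))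
  · right
    intro y hy
    rcases hfib (π y) hy with h3 | h3
    · exact absurd (h hy) (hdis _ (hmem _ hy) (h3 (hσ (π y))))
    · exact h3 rfl

theorem comp_pre (π : E →ₗ[ℚ] F) (σ : F →ₗ[ℚ] E) (hσ : ∀ z, π (σ z) = z) {M L : Set F}
    (hL : Pol L) (hM : Comp M Set.univ L) : Comp (π ⁻¹' M) Set.univ (π ⁻¹' L) := by
  obtain ⟨h1, _, h3, h4, h5⟩ := hM
  refine ⟨pol_pre π h1, Set.subset_univ _, ?_, ?_, ?_⟩
  · rw [← Set.preimage_sdiff, cl_pre π σ hσ (h1.con.diff hL.con) h4.1, h3]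
  · rw [← Set.preimage_sdiff]
    exact conn_pre π σ hσ h4
  · rintro x ⟨hx, hxM⟩
    refine h5 ⟨?_, hxM⟩
    have h6 : (Set.univ : Set E) \ (π ⁻¹' L ∪ π ⁻¹' M) = π ⁻¹' (Set.univ \ (L ∪ M)) := rfl
    rw [h6] at hx
    exact cl_pre_sub π _ hx

theorem sides_pre (π : E →ₗ[ℚ] F) (σ : F →ₗ[ℚ] E) (hσ : ∀ z, π (σ z) = z) {L M M' : Set F}
    (h : Sides L M M') : Sides (π ⁻¹' L) (π ⁻¹' M) (π ⁻¹' M') := by
  obtain ⟨h1, h2, h3, h4⟩ := h
  have hL : Pol L := by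
    rw [← h4]; exact h1.1.inter h2.1
  refine ⟨comp_pre π σ hσ hL h1, comp_pre π σ hσ hL h2, ?_, ?_⟩
  · rw [← Set.preimage_union, h3, Set.preimage_univ]
  · rw [← Set.preimage_inter, h4]

end ALocS

theorem I_LocS (hLS : St_LS) (hStdSides : St_StdSides) : St_LocS := by
  intro n hSch E _ _ _ T x hfr hT hx hx0
  have hTcon : Con T := by
    obtain ⟨D₁, D₂, U, hTe, _, hB₁, hB₂⟩ := hT
    rw [hTe]
    exact (hB₁.1.union hB₂.1).con
  let W : Submodule ℚ E := Submodule.span ℚ {x}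
  let π : E →ₗ[ℚ] (E ⧸ W) := W.mkQ
  obtain ⟨σ, hσ'⟩ := LinearMap.exists_rightInverse_of_surjective π (Submodule.range_mkQ W)
  have hσ : ∀ z, π (σ z) = z := fun z => by
    have := LinearMap.congr_fun hσ' z
    exact this
  have hker : ∀ y, π y = 0 ↔ ∃ c : ℚ, y = c • x := by
    intro y
    rw [show π y = W.mkQ y from rfl, Submodule.mkQ_apply, Submodule.Quotient.mk_eq_zero,
      Submodule.mem_span_singleton]
    exact ⟨fun ⟨c, hc⟩ => ⟨c, hc.symm⟩, fun ⟨c, hc⟩ => ⟨c, hc.symm⟩⟩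
  have hfrF : Module.finrank ℚ (E ⧸ W) = n + 1 + 1 := by
    have h1 := Submodule.finrank_quotient_add_finrank W
    have h2 : Module.finrank ℚ W = 1 := finrank_span_singleton hx0
    omega
  have hsph : Sph (n + 1) (π '' Tg x T) := hLS n E (E ⧸ W) T x π σ hσ hker hT hx hx0
  obtain ⟨A, A', hU, hI, hBA, hBA'⟩ := hSch (E ⧸ W) hfrF _ hsph
  have hsides := hStdSides (n + 1) (E ⧸ W) (π '' Tg x T) A A' hU hI hBA hBA'
  have hpre : π ⁻¹' (π '' Tg x T) = Tg x T := by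
    refine subset_antisymm ?_ (Set.subset_preimage_image _ _)
    rintro y ⟨v, hv, hvy⟩
    obtain ⟨c, hc⟩ := (hker (y - v)).1 (by rw [map_sub, hvy, sub_self])
    have : y = v + c • x := by rw [← hc]; abel
    rw [this]
    exact (tg_add hTcon v c).2 hv
  refine ⟨π ⁻¹' A, π ⁻¹' A', ?_⟩
  rw [← hpre]
  exact ALocS.sides_pre π σ hσ hsides

end Pool.Agent.Work.MP_552024_lc.PLS
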