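import Pool.Agent.Work.MP_552024_lc.PLS.S4L

set_option autoImplicit false

/-! Item LvCell: cells meet all the levels. -/

namespace Pool.Agent.Work.MP_552024_lc.PLS

theorem I_LvCell (hGap : St_Gap) (hLvRay : St_LvRay) : St_LvCell := by
  intro E _ _ _ T u v B L l c t x h hA hlt htc hx
  obtain ⟨hfin, hspn, -, -, hray, -, -⟩ := hLvRay E T u v B L h
  obtain ⟨hl, hc, hlc, hadj⟩ := hA
  refine hGap E (Bp B L u v) u v l c t x hfin hspn hlt htc
    (Or.inr ⟨l, hl, Or.inl rfl⟩) (Or.inr ⟨c, hc, Or.inr rfl⟩) ?_ ?_ ?_
  · rintro r hr ⟨h1, h2⟩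
    have e1 : (v - l • u) r = v r - l * u r := by simp
    have e2 : (c • u - v) r = c * u r - v r := by simp
    rw [e1] at h1
    rw [e2] at h2
    have h3 : 0 < (c - l) * u r := by
      have h4 : (c - l) * u r = (c * u r - v r) + (v r - l * u r) := by ring
      rw [h4]
      exact add_pos h2 h1
    have hu : 0 < u r := (pos_iff_pos_of_mul_pos h3).1 (by linarith)
    obtain ⟨m, hm, hm'⟩ := hray r hr hu
    rw [hm'] at h1 h2
    have h5 : l < m := by
      by_contra hcon
      have := mul_le_mul_of_nonneg_right (le_of_not_gt hcon) hu.le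
      linarith
    have h6 : m < c := by
      by_contra hcon
      have := mul_le_mul_of_nonneg_right (le_of_not_gt hcon) hu.le
      linarith
    rcases hadj m hm with h7 | h7 <;> linarith
  · have e1 : (v - l • u) x = v x - l * u x := by simp
    rw [e1]
    have := hx.1
    linarith
  · have e2 : (c • u - v) x = c * u x - v x := by simp
    rw [e2]
    have := hx.2
    linarith

end Pool.Agent.Work.MP_552024_lc.PLS
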