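import Pool.Agent.Work.MP_552024_lc.PLS.S4L

set_option autoImplicit false

/-! Item LvGap: a component of the complement of the special levels is an annulus. -/

namespace Pool.Agent.Work.MP_552024_lc.PLS

namespace ALvGap

variable {E : Type} [AddCommGroup E] [Module ℚ E]

theorem pol_ge (u v : E →ₗ[ℚ] ℚ) (l : ℚ) : Pol {x : E | l * u x ≤ v x} := by
  have e : {x : E | l * u x ≤ v x} = {x | 0 ≤ (v - l • u) x} := by
    ext x
    simp only [Set.mem_ofPred_eq, LinearMap.sub_apply, LinearMap.smul_apply, smul_eq_mul,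
      sub_nonneg]
  rw [e]
  exact pol_halfspace _

theorem pol_le (u v : E →ₗ[ℚ] ℚ) (l : ℚ) : Pol {x : E | v x ≤ l * u x} := by
  have e : {x : E | v x ≤ l * u x} = {x | 0 ≤ (l • u - v) x} := by
    ext x
    simp only [Set.mem_ofPred_eq, LinearMap.sub_apply, LinearMap.smul_apply, smul_eq_mul,
      sub_nonneg]
  rw [e]
  exact pol_halfspace _

theorem exists_le {s : Finset E} {c : E → ℚ} {u v : E →ₗ[ℚ] ℚ} {t : ℚ}
    (hs : s.Nonempty) (hc : ∀ r ∈ s, 0 < c r)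
    (h : v (∑ r ∈ s, c r • r) = t * u (∑ r ∈ s, c r • r)) : ∃ r ∈ s, v r ≤ t * u r := by
  by_contra hcon
  push Not at hcon
  have h1 : ∑ r ∈ s, c r * (t * u r) < ∑ r ∈ s, c r * v r :=
    Finset.sum_lt_sum_of_nonempty hs fun r hr => mul_lt_mul_of_pos_left (hcon r hr) (hc r hr)
  rw [map_sum, map_sum, Finset.mul_sum] at h
  simp only [map_smul, smul_eq_mul] at h
  have h2 : ∑ r ∈ s, c r * (t * u r) = ∑ r ∈ s, t * (c r * u r) :=
    Finset.sum_congr rfl fun r _ => by ring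
  rw [h2, ← h] at h1
  exact lt_irrefl _ h1

theorem exists_ge {s : Finset E} {c : E → ℚ} {u v : E →ₗ[ℚ] ℚ} {t : ℚ}
    (hs : s.Nonempty) (hc : ∀ r ∈ s, 0 < c r)
    (h : v (∑ r ∈ s, c r • r) = t * u (∑ r ∈ s, c r • r)) : ∃ r ∈ s, t * u r ≤ v r := by
  by_contra hcon
  push Not at hcon
  have h1 : ∑ r ∈ s, c r * v r < ∑ r ∈ s, c r * (t * u r) :=
    Finset.sum_lt_sum_of_nonempty hs fun r hr => mul_lt_mul_of_pos_left (hcon r hr) (hc r hr)
  rw [map_sum, map_sum, Finset.mul_sum] at h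
  simp only [map_smul, smul_eq_mul] at h
  have h2 : ∑ r ∈ s, c r * (t * u r) = ∑ r ∈ s, t * (c r * u r) :=
    Finset.sum_congr rfl fun r _ => by ring
  rw [h2, ← h] at h1
  exact lt_irrefl _ h1

end ALvGap

open ALvGap in
theorem I_LvGap (hRD : St_RD) (hLvRay : St_LvRay) : St_LvGap := by
  intro E _ _ _ T u v B L M hL hM
  obtain ⟨-, -, -, -, -, hLne, -⟩ := hLvRay E T u v B L hL
  have h0 : (0 : E) ∈ FF L u v := by
    obtain ⟨l, hl⟩ := hLne
    exact ⟨l, hl, by simp⟩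
  have hMT : M ⊆ T := hM.2.1
  have hconn : Conn (M \ FF L u v) := hM.2.2.2.1
  have hpos : ∀ x ∈ M \ FF L u v, 0 < u x := by
    rintro x ⟨hx1, hx2⟩
    refine hL.bdd x (hMT hx1) ?_
    rintro rfl
    exact hx2 h0
  obtain ⟨x, hx⟩ := hconn.1
  have hx0 : x ≠ 0 := by
    rintro rfl
    exact hx.2 h0
  have hux : 0 < u x := hpos x hx
  obtain ⟨s, c, hs, hxs⟩ := hRD E B hL.fin hL.spn x
  have hsne : s.Nonempty := by
    rw [Finset.nonempty_iff_ne_empty]
    rintro rfl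
    rw [Finset.sum_empty] at hxs
    exact hx0 hxs
  set t : ℚ := v x / u x with ht
  have htx : v x = t * u x := by rw [ht]; field_simp
  have hlev : ∀ r ∈ s, 0 < u r ∧ ∃ l ∈ L, v r = l * u r := by
    intro r hr
    obtain ⟨h1, h2, -⟩ := hs r hr
    have hrT : r ∈ T := hL.cla x (hMT hx.1) h2
    have hur : 0 < u r := hL.bdd r hrT h1.1
    exact ⟨hur, hL.ray r h1 hur⟩
  have htL : ∀ m ∈ L, m ≠ t := by
    rintro m hm rfl
    exact hx.2 ⟨_, hm, htx⟩
  have hsum : v (∑ r ∈ s, c r • r) = t * u (∑ r ∈ s, c r • r) := by rw [← hxs]; exact htx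
  obtain ⟨l, ⟨hlL, hlt⟩, hlmax⟩ : ∃ l ∈ {m ∈ L | m < t}, ∀ m ∈ {m ∈ L | m < t}, id m ≤ id l := by
    refine Set.exists_max_image _ id (hL.lam.subset (Set.sep_subset _ _)) ?_
    obtain ⟨r, hr, hr'⟩ := exists_le hsne (fun r hr => (hs r hr).2.2) hsum
    obtain ⟨hur, l, hl, hl'⟩ := hlev r hr
    refine ⟨l, hl, lt_of_le_of_ne ?_ (htL l hl)⟩
    rw [hl'] at hr'
    exact le_of_mul_le_mul_right hr' hur
  obtain ⟨k, ⟨hkL, hkt⟩, hkmin⟩ : ∃ k ∈ {m ∈ L | t < m}, ∀ m ∈ {m ∈ L | t < m}, id k ≤ id m := by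
    refine Set.exists_min_image _ id (hL.lam.subset (Set.sep_subset _ _)) ?_
    obtain ⟨r, hr, hr'⟩ := exists_ge hsne (fun r hr => (hs r hr).2.2) hsum
    obtain ⟨hur, l, hl, hl'⟩ := hlev r hr
    refine ⟨l, hl, lt_of_le_of_ne ?_ (htL l hl).symm⟩
    rw [hl'] at hr'
    exact le_of_mul_le_mul_right hr' hur
  have hadj : Adj L l k := by
    refine ⟨hlL, hkL, hlt.trans hkt, fun m hm => ?_⟩
    rcases lt_trichotomy m t with h | h | h
    · exact Or.inl (hlmax m ⟨hm, h⟩)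
    · exact absurd h (htL m hm)
    · exact Or.inr (hkmin m ⟨hm, h⟩)
  refine ⟨l, k, hM, hadj, ?_⟩
  have hdec := hconn.2 ({x : E | l * u x ≤ v x} ∩ {x : E | v x ≤ k * u x})
    ({x : E | v x ≤ l * u x} ∪ {x : E | k * u x ≤ v x}) ((pol_ge u v l).inter (pol_le u v k))
    ((pol_le u v l).union (pol_ge u v k)) ?_ ?_
  · rcases hdec with h | h
    · intro y hy
      obtain ⟨h1, h2⟩ := h hy
      have h1 : l * u y ≤ v y := h1
      have h2 : v y ≤ k * u y := h2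
      refine ⟨lt_of_le_of_ne h1 fun e => hy.2 ⟨l, hlL, e.symm⟩,
        lt_of_le_of_ne h2 fun e => hy.2 ⟨k, hkL, e⟩⟩
    · exfalso
      rcases h hx with h1 | h1
      · have h1 : v x ≤ l * u x := h1
        rw [htx] at h1
        exact absurd (le_of_mul_le_mul_right h1 hux) (not_le.2 hlt)
      · have h1 : k * u x ≤ v x := h1
        rw [htx] at h1
        exact absurd (le_of_mul_le_mul_right h1 hux) (not_le.2 hkt)
  · intro y hy
    by_cases h1 : l * u y ≤ v y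
    · by_cases h2 : v y ≤ k * u y
      · exact Or.inl ⟨h1, h2⟩
      · exact Or.inr (Or.inr (not_le.1 h2).le)
    · exact Or.inr (Or.inl (not_le.1 h1).le)
  · rintro y hy ⟨h1, h2⟩ (h3 | h3)
    · exact hy.2 ⟨l, hlL, le_antisymm h3 h1⟩
    · exact hy.2 ⟨k, hkL, le_antisymm h2 h3⟩

end Pool.Agent.Work.MP_552024_lc.PLS
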