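import Pool.Agent.Work.MP_552024_lc.PLS.S4L

set_option autoImplicit false

/-! The limits of an annulus at its ends are connected. -/

namespace Pool.Agent.Work.MP_552024_lc.PLS

namespace ALvLim

variable {E : Type*} [AddCommGroup E] [Module ℚ E]

open SignType

theorem mem_face_iff' {A : Set (E →ₗ[ℚ] ℚ)} {x z : E} :
    z ∈ face A x ↔ ∀ a ∈ A, (a x = 0 → a z = 0) ∧ 0 ≤ a z * a x := by
  constructor
  · intro h a ha
    rcases h a ha with h1 | h1
    · exact ⟨fun _ => h1, by rw [h1, zero_mul]⟩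
    · refine ⟨fun h2 => ?_, ?_⟩
      · rw [h2, sign_zero, sign_eq_zero_iff] at h1; exact h1
      · rcases lt_trichotomy (a x) 0 with h2 | h2 | h2
        · rw [sign_neg h2, sign_eq_neg_one_iff] at h1
          exact (mul_pos_of_neg_of_neg h1 h2).le
        · rw [h2, mul_zero]
        · rw [sign_pos h2, sign_eq_one_iff] at h1
          exact (mul_pos h1 h2).le
  · intro h a ha
    obtain ⟨h1, h2⟩ := h a ha
    by_cases h3 : a z = 0
    · exact Or.inl h3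
    · right
      have h4 : a x ≠ 0 := fun h5 => h3 (h1 h5)
      have h5 : 0 < a z * a x := lt_of_le_of_ne h2 (mul_ne_zero h3 h4).symm
      rcases pos_and_pos_or_neg_and_neg_of_mul_pos h5 with ⟨h6, h7⟩ | ⟨h6, h7⟩
      · rw [sign_pos h6, sign_pos h7]
      · rw [sign_neg h6, sign_neg h7]

theorem face_conv {A : Set (E →ₗ[ℚ] ℚ)} {x z w : E} (hz : z ∈ face A x) (hw : w ∈ face A x)
    {t : ℚ} (h0 : 0 ≤ t) (h1 : t ≤ 1) : z + t • (w - z) ∈ face A x := by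
  rw [mem_face_iff'] at hz hw ⊢
  intro a ha
  obtain ⟨a1, a2⟩ := hz a ha
  obtain ⟨b1, b2⟩ := hw a ha
  have e : a (z + t • (w - z)) = (1 - t) * a z + t * a w := by
    rw [map_add, map_smul, map_sub, smul_eq_mul]; ring
  rw [e]
  refine ⟨fun h => by rw [a1 h, b1 h]; ring, ?_⟩
  have h2 : ((1 - t) * a z + t * a w) * a x = (1 - t) * (a z * a x) + t * (a w * a x) := by ring
  rw [h2]
  exact add_nonneg (mul_nonneg (sub_nonneg.2 h1) a2) (mul_nonneg h0 b2)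

theorem face_nonneg {A : Set (E →ₗ[ℚ] ℚ)} {x z : E} (hz : z ∈ face A x) {a : E →ₗ[ℚ] ℚ}
    (ha : a ∈ A) (hx : 0 < a x) : 0 ≤ a z := by
  obtain ⟨_, h2⟩ := mem_face_iff'.1 hz a ha
  exact nonneg_of_mul_nonneg_left h2 hx

/-- Faces of a connected open part, seen at a level. -/
theorem key [FiniteDimensional ℚ E] {A : Set (E →ₗ[ℚ] ℚ)} (hA : A.Finite) {M F : Set E}
    {u v : E →ₗ[ℚ] ℚ} {e : ℚ} (hM : ClA A M) (hcl : cl (M \ F) = M) (hconn : Conn (M \ F))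
    (hinv : InvA A (M \ F)) (h0F : (0 : E) ∈ F)
    (hphi : ∀ x ∈ M \ F, ∃ z ∈ face A x, z ≠ 0 ∧ v z = e * u z)
    (hpos : ∀ z ∈ M, z ≠ 0 → 0 < u z) : Conn ((M ∩ Hl u v e) \ {0}) := by
  have hsub : ∀ x ∈ M \ F, ∀ z ∈ face A x, z ≠ 0 → v z = e * u z → z ∈ (M ∩ Hl u v e) \ {0} :=
    fun x hx z hz h0 h1 => ⟨⟨hM x hx.1 hz, h1⟩, h0⟩
  have hex : ∀ z ∈ (M ∩ Hl u v e) \ {0}, ∃ y ∈ M \ F, z ∈ face A y := by
    rintro z ⟨⟨h1, _⟩, h3⟩
    rw [← hcl, mem_cl_iff hA hinv] at h1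
    rcases h1 with h1 | h1
    · exact absurd h1 h3
    · exact h1
  have hPc : ∀ x ∈ M \ F, Conn {z | z ∈ face A x ∧ z ≠ 0 ∧ v z = e * u z} := by
    intro x hx
    obtain ⟨z, h1, h2, h3⟩ := hphi x hx
    refine conn_of_convex ⟨z, h1, h2, h3⟩ ?_
    rintro z ⟨a1, a2, a3⟩ w ⟨b1, b2, b3⟩ t h0 h1
    have h4 := face_conv a1 b1 h0 h1
    have e1 : u (z + t • (w - z)) = (1 - t) * u z + t * u w := by
      rw [map_add, map_smul, map_sub, smul_eq_mul]; ring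
    have e2 : v (z + t • (w - z)) = (1 - t) * v z + t * v w := by
      rw [map_add, map_smul, map_sub, smul_eq_mul]; ring
    have p1 := hpos z (hM x hx.1 a1) a2
    have p2 := hpos w (hM x hx.1 b1) b2
    refine ⟨h4, fun h5 => ?_, by rw [e1, e2, a3, b3]; ring⟩
    rw [h5, map_zero] at e1
    rcases h0.eq_or_lt with h6 | h6
    · rw [← h6] at e1; linarith
    · have q1 : 0 < t * u w := mul_pos h6 p2
      have q2 : 0 ≤ (1 - t) * u z := mul_nonneg (sub_nonneg.2 h1) p1.le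
      linarith
  obtain ⟨⟨x₀, hx₀⟩, hc⟩ := hconn
  refine ⟨?_, fun F₁ F₂ hF₁ hF₂ hcov hdis => ?_⟩
  · obtain ⟨z, h1, h2, h3⟩ := hphi x₀ hx₀
    exact ⟨z, hsub x₀ hx₀ z h1 h2 h3⟩
  -- the points whose limit is in `F`
  let G : Set E → Set E := fun K =>
    {x | x ∈ M \ F ∧ ∀ z ∈ face A x, z ≠ 0 → v z = e * u z → z ∈ K}
  have hGinv : ∀ K, InvA A (G K) := by
    rintro K x y hxy ⟨h1, h2⟩
    refine ⟨hinv x y hxy h1, fun z hz => h2 z (face_trans hz hxy.symm.mem_face)⟩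
  have hG : ∀ x ∈ M \ F, x ∈ G F₁ ∨ x ∈ G F₂ := by
    intro x hx
    have h2 := (hPc x hx).2 F₁ F₂ hF₁ hF₂ (fun z hz => hcov (hsub x hx z hz.1 hz.2.1 hz.2.2))
      (fun z hz => hdis z (hsub x hx z hz.1 hz.2.1 hz.2.2))
    rcases h2 with h2 | h2
    · exact Or.inl ⟨hx, fun z h3 h4 h5 => h2 ⟨h3, h4, h5⟩⟩
    · exact Or.inr ⟨hx, fun z h3 h4 h5 => h2 ⟨h3, h4, h5⟩⟩
  have hclG : ∀ K, ∀ x ∈ M \ F, x ∈ cl (G K) → x ∈ G K := by
    intro K x hx h
    rw [mem_cl_iff hA (hGinv K)] at h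
    rcases h with h | ⟨y, hy, h⟩
    · exact absurd (h ▸ h0F) hx.2
    · exact ⟨hx, fun z hz => hy.2 z (face_trans hz h)⟩
  have hfin : ∀ K, M \ F ⊆ cl (G K) → (M ∩ Hl u v e) \ {0} ⊆ K := by
    intro K h z hz
    obtain ⟨y, hy, hzy⟩ := hex z hz
    exact (hclG K y hy (h hy)).2 z hzy hz.2 hz.1.2
  rcases hc (cl (G F₁)) (cl (G F₂)) (((hGinv F₁).con hA).pol_cl) (((hGinv F₂).con hA).pol_cl)
    (fun x hx => (hG x hx).imp (fun h => subset_cl _ h) (fun h => subset_cl _ h))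
    (fun x hx h1 h2 => by
      obtain ⟨z, h3, h4, h5⟩ := hphi x hx
      exact hdis z (hsub x hx z h3 h4 h5) ((hclG F₁ x hx h1).2 z h3 h4 h5)
        ((hclG F₂ x hx h2).2 z h3 h4 h5)) with h | h
  · exact Or.inl (hfin F₁ h)
  · exact Or.inr (hfin F₂ h)

end ALvLim

open ALvLim in
theorem I_LvLim (hRD : St_RD) (hLvRay : St_LvRay) (hClC : St_ClC) : St_LvLim := by
  intro E _ _ _ T u v B L M l c hH hAn
  obtain ⟨hfin, hspn, hclT, hclF, hray, _, hpF⟩ := hLvRay E T u v B L hH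
  have hpT : Pol T := by
    obtain ⟨D₁, D₂, U, h1, _, h2, h3⟩ := hH.sph
    rw [h1]; exact h2.1.union h3.1
  obtain ⟨hcomp, ⟨hlL, hcL, hlc, hadj⟩, hgr⟩ := hAn
  have hM : ClA (Bp B L u v) M := hClC E (Bp B L u v) T (FF L u v) M hfin hclT hclF hpT hpF hcomp
  obtain ⟨_, hMT, hcl, hconn, _⟩ := id hcomp
  have hinv : InvA (Bp B L u v) (M \ FF L u v) := hM.inv.diff hclF.inv
  have h0F : (0 : E) ∈ FF L u v := hpF.1
  have hpos : ∀ z ∈ M, z ≠ 0 → 0 < u z := fun z hz h0 => hH.bdd z (hMT hz) h0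
  have hal : v - l • u ∈ Bp B L u v := Or.inr ⟨l, hlL, Or.inl rfl⟩
  have hac : c • u - v ∈ Bp B L u v := Or.inr ⟨c, hcL, Or.inr rfl⟩
  have hlev : ∀ x ∈ M \ FF L u v, ∀ r, Ray (Bp B L u v) r → r ∈ face (Bp B L u v) x →
      v r = l * u r ∨ v r = c * u r := by
    intro x hx r hr hrx
    obtain ⟨g1, g2⟩ := hgr hx
    have hur := hpos r (hM x hx.1 hrx) hr.1
    obtain ⟨m, hm, hvm⟩ := hray r hr hur
    have k1 := face_nonneg hrx hal (by
      show 0 < v x - l * u x; linarith)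
    have k2 := face_nonneg hrx hac (by
      show 0 < c * u x - v x; linarith)
    have k1 : 0 ≤ v r - l * u r := k1
    have k2 : 0 ≤ c * u r - v r := k2
    have j1 : l ≤ m := by
      by_contra h
      push Not at h
      have := mul_lt_mul_of_pos_right h hur
      linarith
    have j2 : m ≤ c := by
      by_contra h
      push Not at h
      have := mul_lt_mul_of_pos_right h hur
      linarith
    rcases hadj m hm with h | h
    · left; rw [hvm, le_antisymm h j1]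
    · right; rw [hvm, le_antisymm j2 h]
  have hphi : ∀ e e' : ℚ, (∀ y, (v y = l * u y ∨ v y = c * u y) → v y = e * u y ∨ v y = e' * u y) →
      (∀ x ∈ M \ FF L u v, v x ≠ e' * u x) → ∀ x ∈ M \ FF L u v,
      ∃ z ∈ face (Bp B L u v) x, z ≠ 0 ∧ v z = e * u z := by
    intro e e' hee hne x hx
    obtain ⟨s, cf, hs, hxs⟩ := hRD E (Bp B L u v) hfin hspn x
    by_contra hno
    push Not at hno
    apply hne x hx
    have h1 : ∀ r ∈ s, v r = e' * u r := by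
      intro r hr
      obtain ⟨r1, r2, _⟩ := hs r hr
      rcases hee r (hlev x hx r r1 r2) with h | h
      · exact absurd h (hno r r2 r1.1)
      · exact h
    rw [hxs, map_sum, map_sum, Finset.mul_sum]
    refine Finset.sum_congr rfl (fun r hr => ?_)
    rw [map_smul, map_smul, h1 r hr, smul_eq_mul, smul_eq_mul]
    ring
  refine ⟨key hfin hM hcl hconn hinv h0F (hphi l c (fun _ h => h) (fun x hx => (hgr hx).2.ne)) hpos,
    key hfin hM hcl hconn hinv h0F (hphi c l (fun _ h => h.symm)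
      (fun x hx => (hgr hx).1.ne')) hpos⟩

end Pool.Agent.Work.MP_552024_lc.PLS
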