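import Pool.Agent.Work.MP_552024_lc.PLS.S4L

set_option autoImplicit false

/-! Item LvMain: spheres without saddles are standard. -/

namespace Pool.Agent.Work.MP_552024_lc.PLS

namespace ALvMain

variable {E : Type} [AddCommGroup E] [Module ℚ E]

theorem cutD_symm {T D C E₁ E₂ : Set E} (h : CutD T D C E₁ E₂) : CutD T D C E₂ E₁ where
  uni := by rw [Set.union_comm]; exact h.uni
  int := by rw [Set.inter_comm]; exact h.int
  dT := h.dT
  ballD := h.ballD
  ball1 := h.ball2
  ball2 := h.ball1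
  sphC := h.sphC

theorem pol_of_sph {k : ℕ} {T : Set E} (h : Sph k T) : Pol T := by
  obtain ⟨D₁, D₂, U, hT, hU, h1, h2⟩ := h
  rw [hT]
  exact h1.1.union h2.1

end ALvMain

open ALvMain

theorem I_LvMain (hLvMk : St_LvMk) (hLvRay : St_LvRay) (hP1a : St_P1a) (hP1b : St_P1b)
    (hP1c : St_P1c) (hP1T : St_P1T) (hP2 : St_P2) (hCutT : St_CutT) (hK3 : St_K3)
    (hSchA2 : St_SchA2) (hLvCir : St_LvCir) (hBsd : St_Bsd) : St_LvMain := by
  intro E _ _ _ T u v hd hT hb hind hpp
  obtain ⟨B, L, hH⟩ := hLvMk E T u v hd hT hb hind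
  have claim : ∀ (n : ℕ) (T' : Set E) (Fs : Set (Set E)) (Us Ds : Set (Set E × ℚ)),
      Fs.ncard = n → Cl1 T u v L T' Fs Us Ds → Std 4 T' := by
    intro n
    induction n using Nat.strong_induction_on with
    | _ n ih =>
      intro T' Fs Us Ds hn hC
      rcases Fs.eq_empty_or_nonempty with hemp | hne
      · subst hemp
        obtain ⟨m, W, hW⟩ := hP1T E T u v B L T' Us Ds hH hC
        exact hP2 E T u v B L m T' W hH hW
      · obtain ⟨M, l, c, t, hM, hA, hlt, htc, hU, hD, hDT⟩ :=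
          hP1a E T u v B L T' Fs Us Ds hH hC hne
        have hsC : Sph 2 (M ∩ Hl u v t) := hLvCir E T u v B L M l c t hH hA hlt htc
        have hCT : M ∩ Hl u v t ⊆ T' := by
          rw [← hDT]; exact Set.inter_subset_right
        have hh : v - t • u ≠ 0 := fun h => hind t (sub_eq_zero.1 h)
        have hC0 : ∀ x ∈ M ∩ Hl u v t, (v - t • u) x = 0 := by
          intro x hx
          have h2 : v x = t * u x := hx.2
          simp [h2]
        have hCb : Bdd u (M ∩ Hl u v t) := fun x hx h0 => hC.bdd x (hCT hx) h0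
        obtain ⟨-, -, hBall, -, -, -⟩ := hBsd 1 hSchA2 E (M ∩ Hl u v t) (v - t • u) u
          (by simpa using hd) hh hsC hC0 hCb
        obtain ⟨E₁, E₂, hu, hi, hB1, hB2⟩ := hK3 1 hSchA2 E T' (M ∩ Hl u v t) hC.sph hsC hCT
        have hcut : CutD T' (bsd u (v - t • u) (M ∩ Hl u v t)) (M ∩ Hl u v t) E₁ E₂ :=
          { uni := hu
            int := hi
            dT := hDT
            ballD := hBall
            ball1 := hB1
            ball2 := hB2
            sphC := hsC }
        have key : ∀ E₁ E₂ : Set E,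
            CutD T' (bsd u (v - t • u) (M ∩ Hl u v t)) (M ∩ Hl u v t) E₁ E₂ →
            (M \ FF L u v) ∩ {x | t * u x < v x} ⊆ E₁ →
            (M \ FF L u v) ∩ {x | v x < t * u x} ⊆ E₂ → Std 4 T' := by
          intro E₁ E₂ hcut h1 h2
          obtain ⟨⟨F1, U1, D1, hc1, hn1⟩, F2, U2, D2, hc2, hn2⟩ :=
            hP1c E T u v B L T' Fs Us Ds M l c t E₁ E₂ hH hC hM hA hlt htc hU hD hcut h1 h2
          obtain ⟨-, -, h3, -, -⟩ := hCutT E T' _ _ E₁ E₂ hd hcut
          exact h3 (ih _ (hn ▸ hn1) _ F1 U1 D1 rfl hc1) (ih _ (hn ▸ hn2) _ F2 U2 D2 rfl hc2)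
        rcases hP1b E T u v B L T' Fs Us Ds M l c t _ E₁ E₂ hH hC hM hA hlt htc hU hD hcut with
          ⟨h1, h2⟩ | ⟨h1, h2⟩
        · exact key E₁ E₂ hcut h1 h2
        · exact key E₂ E₁ (cutD_symm hcut) h1 h2
  obtain ⟨-, -, -, -, -, -, hPF⟩ := hLvRay E T u v B L hH
  obtain ⟨𝓜, hfin, hmem, hcov⟩ := exists_components (pol_of_sph hT) hPF
  refine claim _ T 𝓜 ∅ ∅ rfl
    { sph := hT
      bdd := hb
      finF := hfin
      finU := Set.finite_empty
      finD := Set.finite_empty
      hF := fun M hM => (hmem M).1 hM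
      hU := fun p hp => absurd hp (Set.notMem_empty p)
      hD := fun p hp => absurd hp (Set.notMem_empty p)
      cov := ?_
      dFU := fun _ _ p hp => absurd hp (Set.notMem_empty p)
      dFD := fun _ _ p hp => absurd hp (Set.notMem_empty p)
      dUU := fun p hp => absurd hp (Set.notMem_empty p)
      dDD := fun p hp => absurd hp (Set.notMem_empty p)
      ord := fun p hp => absurd hp (Set.notMem_empty p)
      pp := fun x hx _ h0 => hpp x hx h0 }
  intro x
  constructor
  · intro hx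
    obtain ⟨M, hM, hxM⟩ := hcov x hx
    exact Or.inl ⟨M, hM, hxM, hx.2⟩
  · rintro (⟨M, hM, hx⟩ | ⟨p, hp, -⟩ | ⟨p, hp, -⟩)
    · exact ⟨((hmem M).1 hM).2.1 hx.1, hx.2⟩
    · exact absurd hp (Set.notMem_empty p)
    · exact absurd hp (Set.notMem_empty p)

end Pool.Agent.Work.MP_552024_lc.PLS
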