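import Pool.Agent.Work.MP_552024_lc.PLS.S4L

set_option autoImplicit false

/-! Item LvMk: the situation of the level argument exists. -/

namespace Pool.Agent.Work.MP_552024_lc.PLS

namespace ALvMk

variable {E : Type*} [AddCommGroup E] [Module ℚ E]

/-- Representatives of edges are multiples of the edges. -/
lemma rep {B : Set (E →ₗ[ℚ] ℚ)} {r r' : E} (hr : Ray B r) (hr' : Ray B r')
    (h : SameSign B r' r) : ∃ c : ℚ, c ≠ 0 ∧ r' = c • r := by
  obtain ⟨c, hc⟩ := hr.2 r' (fun a ha h0 => by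
    have h1 := h a ha
    rw [h0, sign_zero, sign_eq_zero_iff] at h1
    exact h1)
  refine ⟨c, ?_, hc⟩
  rintro rfl
  exact hr'.1 (by rw [hc, zero_smul])

end ALvMk

open ALvMk in
theorem I_LvMk : St_LvMk := by
  intro E _ _ _ T u v hd hT hb hv
  have hpol : Pol T := by
    obtain ⟨D₁, D₂, U, rfl, _, h1, h2⟩ := hT
    exact h1.1.union h2.1
  obtain ⟨B0, hB0, hcl⟩ := hpol.exists_cl
  obtain ⟨A1, hA1, hsp⟩ := exists_pointed E
  set B : Set (E →ₗ[ℚ] ℚ) := {b | b ∈ B0 ∪ A1 ∧ b ≠ 0} with hB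
  have hBf : B.Finite := (hB0.union hA1).subset fun b hb => hb.1
  obtain ⟨R, hR, hRs, hrep⟩ := exists_reps hBf {r | Ray B r}
  refine ⟨B, (fun y => v y / u y) '' R, ⟨hd, hT, hb, hBf, ?_, fun b hb => hb.2, ?_, hR.image _,
    ?_, hv⟩⟩
  · intro x hx
    refine hsp x fun a ha => ?_
    by_cases h0 : a = 0
    · rw [h0]; rfl
    · exact hx a ⟨Or.inr ha, h0⟩
  · intro y hy x hx
    refine hcl y hy fun a ha => ?_
    by_cases h0 : a = 0
    · left; rw [h0]; rfl
    · exact hx a ⟨Or.inl ha, h0⟩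
  · intro r hr hur
    obtain ⟨r', hr', hs⟩ := hrep r hr
    obtain ⟨c, hc, hcr⟩ := rep hr (hRs hr') hs
    refine ⟨v r' / u r', ⟨r', hr', rfl⟩, ?_⟩
    rw [hcr, map_smul, map_smul, smul_eq_mul, smul_eq_mul, mul_div_mul_left _ _ hc,
      div_mul_cancel₀ _ hur.ne']

end Pool.Agent.Work.MP_552024_lc.PLS
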