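import Pool.Agent.Work.MP_552024_lc.PLS.S4L

set_option autoImplicit false

/-! The capped pieces of an annulus. -/

namespace Pool.Agent.Work.MP_552024_lc.PLS

namespace ALvPc

variable {E : Type*} [AddCommGroup E] [Module ℚ E]

open SignType

/-- The union of two connected sets with a common point is connected. -/
theorem conn_union {S₁ S₂ : Set E} (h1 : Conn S₁) (h2 : Conn S₂) {p : E} (hp1 : p ∈ S₁)
    (hp2 : p ∈ S₂) : Conn (S₁ ∪ S₂) := by
  refine ⟨⟨p, Or.inl hp1⟩, fun F₁ F₂ hF₁ hF₂ hcov hdis => ?_⟩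
  have hd1 : ∀ x ∈ S₁, x ∈ F₁ → x ∉ F₂ := fun x hx => hdis x (Or.inl hx)
  have hd2 : ∀ x ∈ S₂, x ∈ F₁ → x ∉ F₂ := fun x hx => hdis x (Or.inr hx)
  rcases h1.2 F₁ F₂ hF₁ hF₂ (fun x hx => hcov (Or.inl hx)) hd1 with a | a <;>
    rcases h2.2 F₁ F₂ hF₁ hF₂ (fun x hx => hcov (Or.inr hx)) hd2 with b | b
  · exact Or.inl (Set.union_subset a b)
  · exact absurd (b hp2) (hd1 p hp1 (a hp1))
  · exact absurd (a hp1) (fun h => hd2 p hp2 (b hp2) h)
  · exact Or.inr (Set.union_subset a b)

theorem sph_pol {k : ℕ} {T : Set E} (h : Sph k T) : Pol T := by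
  obtain ⟨D₁, D₂, U, rfl, _, h1, h2⟩ := h
  exact h1.1.union h2.1

theorem pol_le (a : E →ₗ[ℚ] ℚ) : Pol {x | 0 ≤ a x} := by
  refine ⟨by simp, {a}, Set.finite_singleton a, fun y hy x hx => ?_⟩
  have hy' : 0 ≤ a y := hy
  show 0 ≤ a x
  rcases hx a rfl with h | h
  · exact h.ge
  · rcases hy'.eq_or_lt with h1 | h1
    · rw [← h1, sign_zero, sign_eq_zero_iff] at h
      exact h.ge
    · rw [sign_pos h1, sign_eq_one_iff] at h
      exact h.le

/-- Points of the closure where `g` is positive. -/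
theorem near {X Y : Set E} {g : E →ₗ[ℚ] ℚ} {z : E} (hz : z ∈ cl X) (hg : 0 < g z)
    (hY : ∀ x ∈ X, 0 ≤ g x → x ∈ Y) : z ∈ cl Y := by
  rcases hz with rfl | ⟨y, hy, H⟩
  · exact zero_mem_cl Y
  · have hpos : 0 < |g y - g z| + 1 := by positivity
    set s₀ : ℚ := min 1 (g z / (|g y - g z| + 1)) with hs₀
    have hs0 : 0 < s₀ := lt_min one_pos (div_pos hg hpos)
    have hs1 : s₀ ≤ 1 := min_le_left _ _
    have key : ∀ s : ℚ, 0 < s → s ≤ s₀ → z + s • (y - z) ∈ Y := by
      intro s h0 h1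
      refine hY _ (H s h0 (h1.trans hs1)) ?_
      have e : g (z + s • (y - z)) = g z + s * (g y - g z) := by
        simp only [map_add, map_smul, map_sub, smul_eq_mul]
      rw [e]
      have h2 : s ≤ g z / (|g y - g z| + 1) := h1.trans (min_le_right _ _)
      rw [le_div_iff₀ hpos] at h2
      have h3 : -(g y - g z) ≤ |g y - g z| := neg_le_abs _
      nlinarith
    refine Or.inr ⟨z + s₀ • (y - z), key s₀ hs0 le_rfl, fun s h0 h1 => ?_⟩
    have e : z + s • (z + s₀ • (y - z) - z) = z + (s * s₀) • (y - z) := by module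
    rw [e]
    exact key _ (mul_pos h0 hs0) (by nlinarith)

end ALvPc

open ALvPc in
theorem I_LvPc (hLvSlice : St_LvSlice) (hLvCir : St_LvCir) (hLvRay : St_LvRay) (hBsd : St_Bsd)
    (hSchA2 : St_SchA2) (hConnS : St_ConnS) (hConnB0 : St_ConnB0) (hClC : St_ClC) : St_LvPc := by
  intro E _ _ _ T u v B L M l c t hH hA hlt htc
  obtain ⟨hAf, _, hAT, hAF, _, hLne, hFp⟩ := hLvRay E T u v B L hH
  have hTp : Pol T := sph_pol hH.sph
  have hcomp := hA.comp
  have hgr := hA.gr
  obtain ⟨hlL, hcL, hlc, hadj⟩ := hA.adj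
  have hMcl : ClA (Bp B L u v) M := hClC E (Bp B L u v) T (FF L u v) M hAf hAT hAF hTp hFp hcomp
  have hXinv : InvA (Bp B L u v) (M \ FF L u v) := hMcl.inv.diff hAF.inv
  have h0F : (0 : E) ∈ FF L u v := hFp.1
  have hMT : M ⊆ T := hcomp.sub
  have hu : ∀ x ∈ M, x ≠ 0 → 0 < u x := fun x hx hx0 => hH.bdd x (hMT hx) hx0
  have huX : ∀ x ∈ M \ FF L u v, 0 < u x := fun x hx =>
    hu x hx.1 (fun h => hx.2 (h ▸ h0F))
  -- sections
  have hsec : ∀ s : ℚ, l < s → s < c →
      (M \ FF L u v) ∩ Hl u v s = (M ∩ Hl u v s) \ {0} := by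
    intro s hs1 hs2
    ext x
    constructor
    · rintro ⟨⟨hxM, hxF⟩, hxs⟩
      exact ⟨⟨hxM, hxs⟩, fun h => hxF (by rw [Set.mem_singleton_iff.1 h]; exact h0F)⟩
    · rintro ⟨⟨hxM, hxs⟩, hx0⟩
      refine ⟨⟨hxM, ?_⟩, hxs⟩
      rintro ⟨m, hm, hxm⟩
      have hux := hu x hxM (fun h => hx0 h)
      have hxs' : v x = s * u x := hxs
      have hms : m = s := by
        have : m * u x = s * u x := by rw [← hxm, hxs']
        exact mul_right_cancel₀ hux.ne' this
      rcases hadj m hm with h | h <;> linarith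
  have hcirc : ∀ s : ℚ, l < s → s < c → Conn ((M \ FF L u v) ∩ Hl u v s) := by
    intro s hs1 hs2
    rw [hsec s hs1 hs2]
    exact hConnS 0 E _ (hLvCir E T u v B L M l c s hH hA hs1 hs2)
  -- slices
  have hslice : ∀ (s : ℚ) (I : Set ℚ), l < s → s < c → s ∈ I →
      (∀ a ∈ I, ∀ b ∈ I, ∀ r, a ≤ r → r ≤ b → r ∈ I) →
      Conn ((M \ FF L u v) ∩ {x | v x / u x ∈ I}) := fun s I hs1 hs2 hsI hI =>
    hLvSlice E T u v B L (M \ FF L u v) l c s I hH hA.adj hs1 hs2 hXinv hgr hsI hI
      (hcirc s hs1 hs2)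
  -- the bounded side
  set C := M ∩ Hl u v t with hC
  have hCs : Sph 2 C := hLvCir E T u v B L M l c t hH hA hlt htc
  have hhne : v - t • u ≠ 0 := fun h => hH.ind t (sub_eq_zero.1 h)
  have hCh : ∀ x ∈ C, (v - t • u) x = 0 := by
    intro x hx
    have : v x = t * u x := hx.2
    rw [LinearMap.sub_apply, LinearMap.smul_apply, smul_eq_mul, this, sub_self]
  have hCb : Bdd u C := fun x hx hx0 => hu x hx.1 hx0
  obtain ⟨hb1, hb2, hb3, hb4, hb5, hb6⟩ := hBsd 1 hSchA2 E C (v - t • u) u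
    (by rw [hH.dim]) hhne hCs hCh hCb
  set D := bsd u (v - t • u) C with hD
  have hDconn : Conn (D \ {0}) := hConnB0 2 E D C hb3
  have hDp : Pol D := hb3.1
  have hCD : C ⊆ D := hb3.2.1
  have hDlev : ∀ x ∈ D, v x = t * u x := by
    intro x hx
    have h1 : (v - t • u) x = 0 := by
      have : x ∈ {x | (v - t • u) x = 0} := hb1 ▸ Or.inl hx
      exact this
    rw [LinearMap.sub_apply, LinearMap.smul_apply, smul_eq_mul] at h1
    linarith
  obtain ⟨p, hp⟩ := (hcirc t hlt htc).1
  have hpC : p ∈ C := ⟨hp.1.1, hp.2⟩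
  have hp0 : p ≠ 0 := fun h => hp.1.2 (h ▸ h0F)
  have hpD : p ∈ D \ {0} := ⟨hCD hpC, hp0⟩
  have hpl : v p = t * u p := hp.2
  -- the levels of M
  have hMlev : ∀ x ∈ M, l * u x ≤ v x ∧ v x ≤ c * u x := by
    have hP : Pol ({x : E | 0 ≤ (v - l • u) x} ∩ {x | 0 ≤ (c • u - v) x}) :=
      (pol_le _).inter (pol_le _)
    intro x hx
    rw [← hcomp.cl_eq] at hx
    have h1 := hP.cl_subset (s := M \ FF L u v) (fun y hy => by
      have h2 := hgr hy
      have h3 : l * u y < v y := h2.1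
      have h4 : v y < c * u y := h2.2
      refine ⟨?_, ?_⟩
      · show 0 ≤ (v - l • u) y
        rw [LinearMap.sub_apply, LinearMap.smul_apply, smul_eq_mul]; linarith
      · show 0 ≤ (c • u - v) y
        rw [LinearMap.sub_apply, LinearMap.smul_apply, smul_eq_mul]; linarith) hx
    have h5 : 0 ≤ (v - l • u) x := h1.1
    have h6 : 0 ≤ (c • u - v) x := h1.2
    rw [LinearMap.sub_apply, LinearMap.smul_apply, smul_eq_mul] at h5 h6
    exact ⟨by linarith, by linarith⟩
  have hFlev : ∀ x ∈ M, x ∈ FF L u v → v x = l * u x ∨ v x = c * u x := by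
    intro x hx hxF
    by_cases hx0 : x = 0
    · left; rw [hx0, map_zero, map_zero, mul_zero]
    have hux := hu x hx hx0
    obtain ⟨h1, h2⟩ := hMlev x hx
    obtain ⟨m, hm, hxm⟩ := hxF
    rw [hxm] at h1 h2 ⊢
    have h3 : l ≤ m := le_of_mul_le_mul_right h1 hux
    have h4 : m ≤ c := le_of_mul_le_mul_right h2 hux
    rcases hadj m hm with h | h
    · left; rw [le_antisymm h h3]
    · right; rw [le_antisymm h4 h]
  have hslU : (M \ FF L u v) ∩ {x | v x ≤ t * u x} =
      (M \ FF L u v) ∩ {x | v x / u x ∈ {τ : ℚ | τ ≤ t}} := by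
    ext x
    refine and_congr_right fun hx => ?_
    show v x ≤ t * u x ↔ v x / u x ≤ t
    rw [div_le_iff₀ (huX x hx)]
  have hslD : (M \ FF L u v) ∩ {x | t * u x ≤ v x} =
      (M \ FF L u v) ∩ {x | v x / u x ∈ {τ : ℚ | t ≤ τ}} := by
    ext x
    refine and_congr_right fun hx => ?_
    show t * u x ≤ v x ↔ t ≤ v x / u x
    rw [le_div_iff₀ (huX x hx)]
  have hslU' : (M \ FF L u v) ∩ {x | t * u x < v x} =
      (M \ FF L u v) ∩ {x | v x / u x ∈ {τ : ℚ | t < τ}} := by
    ext x
    refine and_congr_right fun hx => ?_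
    show t * u x < v x ↔ t < v x / u x
    rw [lt_div_iff₀ (huX x hx)]
  have hslD' : (M \ FF L u v) ∩ {x | v x < t * u x} =
      (M \ FF L u v) ∩ {x | v x / u x ∈ {τ : ℚ | τ < t}} := by
    ext x
    refine and_congr_right fun hx => ?_
    show v x < t * u x ↔ v x / u x < t
    rw [div_lt_iff₀ (huX x hx)]
  refine ⟨?_, ?_, ?_, ?_, ?_, ?_, ?_, ?_⟩
  · refine conn_union ?_ hDconn ⟨hp.1, hpl.le⟩ hpD
    rw [hslU]
    exact hslice t _ hlt htc (le_refl t) (fun a _ b hb r _ hr => le_trans hr hb)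
  · refine conn_union ?_ hDconn ⟨hp.1, hpl.ge⟩ hpD
    rw [hslD]
    exact hslice t _ hlt htc (le_refl t) (fun a ha b _ r hr _ => le_trans ha hr)
  · rintro x (⟨hx, hxt⟩ | ⟨hxD, hx0⟩)
    · exact ⟨(hgr hx).1, hxt⟩
    · have h1 := hDlev x hxD
      have h2 := hb5 x hxD hx0
      refine ⟨?_, h1.le⟩
      rw [h1]
      exact mul_lt_mul_of_pos_right hlt h2
  · rintro x (⟨hx, hxt⟩ | ⟨hxD, hx0⟩)
    · exact ⟨hxt, (hgr hx).2⟩
    · have h1 := hDlev x hxD
      have h2 := hb5 x hxD hx0
      refine ⟨h1.ge, ?_⟩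
      rw [h1]
      exact mul_lt_mul_of_pos_right htc h2
  · apply subset_antisymm
    · have hP : Pol ((M ∩ {x | 0 ≤ (t • u - v) x}) ∪ D) :=
        (hcomp.pol.inter (pol_le _)).union hDp
      have h1 : cl (Up u v (FF L u v) M t) ⊆ (M ∩ {x | 0 ≤ (t • u - v) x}) ∪ D := by
        apply hP.cl_subset
        rintro x (⟨hx, hxt⟩ | ⟨hxD, _⟩)
        · left
          refine ⟨hx.1, ?_⟩
          have hxt' : v x ≤ t * u x := hxt
          show 0 ≤ (t • u - v) x
          rw [LinearMap.sub_apply, LinearMap.smul_apply, smul_eq_mul]; linarith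
        · exact Or.inr hxD
      intro x hx
      rcases h1 hx with ⟨hxM, hxt⟩ | hxD
      · have hxt' : 0 ≤ (t • u - v) x := hxt
        rw [LinearMap.sub_apply, LinearMap.smul_apply, smul_eq_mul] at hxt'
        by_cases hxF : x ∈ FF L u v
        · right
          refine ⟨hxM, ?_⟩
          show v x = l * u x
          by_cases hx0 : x = 0
          · rw [hx0, map_zero, map_zero, mul_zero]
          have hux := hu x hxM hx0
          rcases hFlev x hxM hxF with h | h
          · exact h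
          · exfalso
            rw [h] at hxt'
            nlinarith
        · left; left
          exact ⟨⟨hxM, hxF⟩, by show v x ≤ t * u x; linarith⟩
      · by_cases hx0 : x = 0
        · right
          rw [hx0]
          exact ⟨hcomp.pol.1, by show v 0 = l * u 0; rw [map_zero, map_zero, mul_zero]⟩
        · exact Or.inl (Or.inr ⟨hxD, hx0⟩)
    · rintro x (hx | ⟨hxM, hxl⟩)
      · exact subset_cl _ hx
      · by_cases hx0 : x = 0
        · rw [hx0]; exact zero_mem_cl _
        have hux := hu x hxM hx0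
        have hxl' : v x = l * u x := hxl
        refine near (X := M \ FF L u v) (g := t • u - v) (by rw [hcomp.cl_eq]; exact hxM) ?_ ?_
        · rw [LinearMap.sub_apply, LinearMap.smul_apply, smul_eq_mul, hxl']; nlinarith
        · intro y hy hgy
          rw [LinearMap.sub_apply, LinearMap.smul_apply, smul_eq_mul] at hgy
          exact Or.inl ⟨hy, by show v y ≤ t * u y; linarith⟩
  · apply subset_antisymm
    · have hP : Pol ((M ∩ {x | 0 ≤ (v - t • u) x}) ∪ D) :=
        (hcomp.pol.inter (pol_le _)).union hDp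
      have h1 : cl (Dn u v (FF L u v) M t) ⊆ (M ∩ {x | 0 ≤ (v - t • u) x}) ∪ D := by
        apply hP.cl_subset
        rintro x (⟨hx, hxt⟩ | ⟨hxD, _⟩)
        · left
          refine ⟨hx.1, ?_⟩
          have hxt' : t * u x ≤ v x := hxt
          show 0 ≤ (v - t • u) x
          rw [LinearMap.sub_apply, LinearMap.smul_apply, smul_eq_mul]; linarith
        · exact Or.inr hxD
      intro x hx
      rcases h1 hx with ⟨hxM, hxt⟩ | hxD
      · have hxt' : 0 ≤ (v - t • u) x := hxt
        rw [LinearMap.sub_apply, LinearMap.smul_apply, smul_eq_mul] at hxt'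
        by_cases hxF : x ∈ FF L u v
        · right
          refine ⟨hxM, ?_⟩
          show v x = c * u x
          by_cases hx0 : x = 0
          · rw [hx0, map_zero, map_zero, mul_zero]
          have hux := hu x hxM hx0
          rcases hFlev x hxM hxF with h | h
          · exfalso
            rw [h] at hxt'
            nlinarith
          · exact h
        · left; left
          exact ⟨⟨hxM, hxF⟩, by show t * u x ≤ v x; linarith⟩
      · by_cases hx0 : x = 0
        · right
          rw [hx0]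
          exact ⟨hcomp.pol.1, by show v 0 = c * u 0; rw [map_zero, map_zero, mul_zero]⟩
        · exact Or.inl (Or.inr ⟨hxD, hx0⟩)
    · rintro x (hx | ⟨hxM, hxl⟩)
      · exact subset_cl _ hx
      · by_cases hx0 : x = 0
        · rw [hx0]; exact zero_mem_cl _
        have hux := hu x hxM hx0
        have hxl' : v x = c * u x := hxl
        refine near (X := M \ FF L u v) (g := v - t • u) (by rw [hcomp.cl_eq]; exact hxM) ?_ ?_
        · rw [LinearMap.sub_apply, LinearMap.smul_apply, smul_eq_mul, hxl']; nlinarith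
        · intro y hy hgy
          rw [LinearMap.sub_apply, LinearMap.smul_apply, smul_eq_mul] at hgy
          exact Or.inl ⟨hy, by show t * u y ≤ v y; linarith⟩
  · rw [hslU']
    refine hslice ((t + c) / 2) _ (by linarith) (by linarith) (by show t < (t + c) / 2; linarith)
      (fun a ha b _ r hr _ => lt_of_lt_of_le ha hr)
  · rw [hslD']
    refine hslice ((l + t) / 2) _ (by linarith) (by linarith) (by show (l + t) / 2 < t; linarith)
      (fun a _ b hb r _ hr => lt_of_le_of_lt hr hb)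

end Pool.Agent.Work.MP_552024_lc.PLS
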