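import Pool.Agent.Work.MP_552024_lc.PLS.S4L

set_option autoImplicit false

namespace Pool.Agent.Work.MP_552024_lc.PLS

namespace ALvRay

open SignType

variable {E : Type} [AddCommGroup E] [Module ℚ E]

theorem bp_finite {B : Set (E →ₗ[ℚ] ℚ)} {L : Set ℚ} (hB : B.Finite) (hL : L.Finite)
    (u v : E →ₗ[ℚ] ℚ) : (Bp B L u v).Finite := by
  refine (hB.union ((hL.image (fun l => v - l • u)).union (hL.image (fun l => l • u - v)))).subset
    ?_
  rintro a (ha | ⟨l, hl, ha | ha⟩)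
  · exact Or.inl ha
  · exact Or.inr (Or.inl ⟨l, hl, ha.symm⟩)
  · exact Or.inr (Or.inr ⟨l, hl, ha.symm⟩)

theorem sub_bp (B : Set (E →ₗ[ℚ] ℚ)) (L : Set ℚ) (u v : E →ₗ[ℚ] ℚ) : B ⊆ Bp B L u v :=
  Set.subset_union_left

theorem cla_ff (B : Set (E →ₗ[ℚ] ℚ)) (L : Set ℚ) (u v : E →ₗ[ℚ] ℚ) :
    ClA (Bp B L u v) (FF L u v) := by
  rintro y ⟨l, hl, hy⟩ x hx
  refine ⟨l, hl, ?_⟩
  have h1 : (v - l • u) y = 0 := by
    rw [LinearMap.sub_apply, LinearMap.smul_apply, smul_eq_mul, hy, sub_self]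
  have h2 : (v - l • u) x = 0 := by
    rcases hx (v - l • u) (Or.inr ⟨l, hl, Or.inl rfl⟩) with h3 | h3
    · exact h3
    · rw [h1, sign_zero, sign_eq_zero_iff] at h3
      exact h3
  rw [LinearMap.sub_apply, LinearMap.smul_apply, smul_eq_mul] at h2
  linarith

end ALvRay

theorem I_LvRay (hRD : St_RD) (hConnS : St_ConnS) : St_LvRay := by
  intro E _ _ _ T u v B L hL
  have hne : L.Nonempty := by
    obtain ⟨⟨x, hxT, hx0⟩, _⟩ := hConnS 1 E T hL.sph
    obtain ⟨s, c, hs, hx⟩ := hRD E B hL.fin hL.spn x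
    have hsn : s.Nonempty := by
      rw [Finset.nonempty_iff_ne_empty]
      rintro rfl
      rw [Finset.sum_empty] at hx
      exact hx0 hx
    obtain ⟨r, hr⟩ := hsn
    obtain ⟨h1, h2, _⟩ := hs r hr
    obtain ⟨l, hl, _⟩ := hL.ray r h1 (hL.bdd r (hL.cla x hxT h2) h1.1)
    exact ⟨l, hl⟩
  have hfin := ALvRay.bp_finite hL.fin hL.lam u v
  have hFF := ALvRay.cla_ff B L u v
  refine ⟨hfin, fun x hx => hL.spn x (fun a ha => hx a (ALvRay.sub_bp B L u v ha)),
    hL.cla.mono (ALvRay.sub_bp B L u v), hFF, ?_, hne, ?_⟩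
  · intro r hr hu
    by_contra hc
    push Not at hc
    have hB : Ray B r := by
      refine ⟨hr.1, fun y hy => hr.2 y ?_⟩
      rintro a (ha | ⟨l, hl, rfl | rfl⟩) har
      · exact hy a ha har
      · exfalso
        refine hc l hl ?_
        rw [LinearMap.sub_apply, LinearMap.smul_apply, smul_eq_mul] at har
        linarith
      · exfalso
        refine hc l hl ?_
        rw [LinearMap.sub_apply, LinearMap.smul_apply, smul_eq_mul] at har
        linarith
    obtain ⟨l, hl, h⟩ := hL.ray r hB hu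
    exact hc l hl h
  · refine hFF.pol hfin ?_
    obtain ⟨l, hl⟩ := hne
    exact ⟨l, hl, by rw [map_zero, map_zero, mul_zero]⟩

end Pool.Agent.Work.MP_552024_lc.PLS
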