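import Pool.Agent.Work.MP_552024_lc.PLS.S4L

/-!
Item LvReg: non-special levels are regular.
-/

set_option autoImplicit false

namespace Pool.Agent.Work.MP_552024_lc.PLS

theorem I_LvReg (hRD : St_RD) (hRegT : St_RegT) : St_LvReg := by
  intro E _ _ _ T u v B L t x hyp ht hx hx0 hvx
  have hset : Hl u v t = {y | (v - t • u) y = 0} := by
    ext y
    simp only [Hl, Set.mem_setOf_eq, LinearMap.sub_apply, LinearMap.smul_apply, smul_eq_mul,
      sub_eq_zero]
  have hhx : (v - t • u) x = 0 := by
    simp only [LinearMap.sub_apply, LinearMap.smul_apply, smul_eq_mul, sub_eq_zero]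
    exact hvx
  by_cases hcase : ∃ e, (∀ a ∈ At B x, a e = 0) ∧ (v - t • u) e ≠ 0
  · obtain ⟨e, he, he2⟩ := hcase
    rw [hset]
    refine hRegT E T x e (v - t • u) hyp.sph hx hx0 hhx he2 ?_
    intro w hw c
    refine tg_inv hyp.fin hyp.cla.inv w (w + c • e) ?_ hw
    intro a ha
    rw [map_add, map_smul, he a ha, smul_zero, add_zero]
  · exfalso
    obtain ⟨s, c, hs, hsum⟩ := hRD E B hyp.fin hyp.spn x
    have hne : s.Nonempty := by
      rw [Finset.nonempty_iff_ne_empty]
      intro h0
      apply hx0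
      rw [hsum, h0, Finset.sum_empty]
    obtain ⟨r, hr⟩ := hne
    obtain ⟨hr1, hr2, _⟩ := hs r hr
    have hN : ∀ a ∈ At B x, a r = 0 := by
      rintro a ⟨ha, hax⟩
      rcases hr2 a ha with h1 | h1
      · exact h1
      · rw [hax, sign_zero] at h1
        exact sign_eq_zero_iff.1 h1
    have hh : (v - t • u) r = 0 := by
      by_contra h1
      exact hcase ⟨r, hN, h1⟩
    have hrT : r ∈ T := hyp.cla x hx hr2
    have hur : 0 < u r := hyp.bdd r hrT hr1.1
    obtain ⟨l, hl, hvl⟩ := hyp.ray r hr1 hur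
    have hvt : v r = t * u r := by
      simpa only [LinearMap.sub_apply, LinearMap.smul_apply, smul_eq_mul, sub_eq_zero] using hh
    have htl : t = l := by
      rw [hvl] at hvt
      exact (mul_right_cancel₀ hur.ne' hvt).symm
    rw [htl] at ht
    exact ht hl

end Pool.Agent.Work.MP_552024_lc.PLS
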