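import Pool.Agent.Work.MP_552024_lc.PLS.S4L

set_option autoImplicit false

/-! Connectedness of slices. -/

namespace Pool.Agent.Work.MP_552024_lc.PLS

namespace ALvSlice

open SignType

variable {E : Type} [AddCommGroup E] [Module ℚ E]

theorem gr_pos {u v : E →ₗ[ℚ] ℚ} {l c : ℚ} (hlc : l < c) {x : E} (hx : x ∈ Gr u v l c) :
    0 < u x := by
  have h1 : l * u x < v x := hx.1
  have h2 : v x < c * u x := hx.2
  nlinarith

/-- Points of a segment between points with equal signs. -/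
theorem seg_sign {A : Set (E →ₗ[ℚ] ℚ)} {x y : E} (h : SameSign A y x) {r : ℚ} (h0 : 0 ≤ r)
    (h1 : r ≤ 1) : SameSign A x (x + r • (y - x)) :=
  (sameSign_convex (fun _ _ => rfl) h h0 h1).symm

/-- The mediant lies between the two levels. -/
theorem mediant {a b p q r : ℚ} (hp : 0 < p) (hq : 0 < q) (h0 : 0 ≤ r) (h1 : r ≤ 1)
    (hab : a ≤ b) :
    a ≤ ((1 - r) * (a * p) + r * (b * q)) / ((1 - r) * p + r * q) ∧
      ((1 - r) * (a * p) + r * (b * q)) / ((1 - r) * p + r * q) ≤ b := by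
  have hd : 0 < (1 - r) * p + r * q := by
    rcases h0.eq_or_lt with rfl | h5
    · linarith
    · have h6 := mul_pos h5 hq
      have h7 := mul_nonneg (by linarith : 0 ≤ 1 - r) hp.le
      linarith
  have h6 : 0 ≤ r * q * (b - a) := mul_nonneg (mul_nonneg h0 hq.le) (by linarith)
  have h7 : 0 ≤ (1 - r) * p * (b - a) :=
    mul_nonneg (mul_nonneg (by linarith) hp.le) (by linarith)
  constructor
  · rw [le_div_iff₀ hd]; nlinarith
  · rw [div_le_iff₀ hd]; nlinarith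

theorem lev_mem {u v : E →ₗ[ℚ] ℚ} {I : Set ℚ}
    (hI : ∀ a ∈ I, ∀ b ∈ I, ∀ r, a ≤ r → r ≤ b → r ∈ I) {x y : E} (hx : 0 < u x) (hy : 0 < u y)
    (hxI : v x / u x ∈ I) (hyI : v y / u y ∈ I) {r : ℚ} (h0 : 0 ≤ r) (h1 : r ≤ 1) :
    v (x + r • (y - x)) / u (x + r • (y - x)) ∈ I := by
  have e : ∀ a : E →ₗ[ℚ] ℚ, a (x + r • (y - x)) = (1 - r) * a x + r * a y := by
    intro a; simp only [map_add, map_smul, map_sub, smul_eq_mul]; ring
  have e1 : v x = v x / u x * u x := by field_simp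
  have e2 : v y = v y / u y * u y := by field_simp
  rw [e, e]
  rcases le_total (v x / u x) (v y / u y) with hle | hle
  · obtain ⟨m1, m2⟩ := mediant hx hy h0 h1 hle
    rw [← e1, ← e2] at m1 m2
    exact hI _ hxI _ hyI _ m1 m2
  · obtain ⟨m1, m2⟩ := mediant hy hx (by linarith : 0 ≤ 1 - r) (by linarith) hle
    rw [← e1, ← e2] at m1 m2
    have e3 : ((1 - (1 - r)) * v y + (1 - r) * v x) / ((1 - (1 - r)) * u y + (1 - r) * u x) =
        ((1 - r) * v x + r * v y) / ((1 - r) * u x + r * u y) := by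
      congr 1 <;> ring
    rw [e3] at m1 m2
    exact hI _ hyI _ hxI _ m1 m2

theorem seg_conn (x y : E) : Conn {z : E | ∃ r : ℚ, 0 ≤ r ∧ r ≤ 1 ∧ z = x + r • (y - x)} := by
  refine conn_of_convex ⟨x, 0, le_rfl, zero_le_one, by simp⟩ ?_
  rintro _ ⟨a, ha0, ha1, rfl⟩ _ ⟨b, hb0, hb1, rfl⟩ t h0 h1
  refine ⟨a + t * (b - a), by nlinarith, by nlinarith, ?_⟩
  module

end ALvSlice

open ALvSlice in
theorem I_LvSlice (hLvCell : St_LvCell) : St_LvSlice := by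
  intro E _ _ _ T u v B L X l c t I hH hadj hlt htc hX hXG htI hI hconn
  have hlc : l < c := hlt.trans htc
  have hpos : ∀ x ∈ X, 0 < u x := fun x hx => gr_pos hlc (hXG hx)
  have hsub : X ∩ Hl u v t ⊆ X ∩ {x | v x / u x ∈ I} := by
    rintro x ⟨hx, hxt⟩
    refine ⟨hx, ?_⟩
    have h1 : v x = t * u x := hxt
    have h2 : v x / u x = t := by
      rw [h1]; exact mul_div_cancel_right₀ t (hpos x hx).ne'
    change v x / u x ∈ I
    rw [h2]; exact htI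
  have key : ∀ F F' : Set E, Pol F → Pol F' → X ∩ {x | v x / u x ∈ I} ⊆ F ∪ F' →
      (∀ x ∈ X ∩ {x | v x / u x ∈ I}, x ∈ F → x ∉ F') → X ∩ Hl u v t ⊆ F →
      X ∩ {x | v x / u x ∈ I} ⊆ F := by
    rintro F F' hF hF' hcov hdis hXF x ⟨hx, hxI⟩
    obtain ⟨y, hyx, hyt⟩ := hLvCell E T u v B L l c t x hH hadj hlt htc (hXG hx)
    have hy : y ∈ X := hX x y hyx.symm hx
    have hyI := (hsub ⟨hy, hyt⟩).2
    have hseg : {z : E | ∃ r : ℚ, 0 ≤ r ∧ r ≤ 1 ∧ z = x + r • (y - x)} ⊆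
        X ∩ {x | v x / u x ∈ I} := by
      rintro z ⟨r, h0, h1, rfl⟩
      exact ⟨hX x _ (seg_sign hyx h0 h1) hx, lev_mem hI (hpos x hx) (hpos y hy) hxI hyI h0 h1⟩
    have hxs : x ∈ {z : E | ∃ r : ℚ, 0 ≤ r ∧ r ≤ 1 ∧ z = x + r • (y - x)} :=
      ⟨0, le_rfl, zero_le_one, by simp⟩
    have hys : y ∈ {z : E | ∃ r : ℚ, 0 ≤ r ∧ r ≤ 1 ∧ z = x + r • (y - x)} :=
      ⟨1, zero_le_one, le_rfl, by simp⟩
    rcases (seg_conn x y).2 F F' hF hF' (hseg.trans hcov) (fun z hz => hdis z (hseg hz)) with h | h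
    · exact h hxs
    · exact absurd (h hys) (hdis y (hseg hys) (hXF ⟨hy, hyt⟩))
  refine ⟨hconn.1.mono hsub, fun F₁ F₂ hF₁ hF₂ hcov hdis => ?_⟩
  rcases hconn.2 F₁ F₂ hF₁ hF₂ (hsub.trans hcov) (fun x hx => hdis x (hsub hx)) with h | h
  · exact Or.inl (key F₁ F₂ hF₁ hF₂ hcov hdis h)
  · refine Or.inr (key F₂ F₁ hF₂ hF₁ (by rw [Set.union_comm]; exact hcov) ?_ h)
    intro x hx h2 h1
    exact hdis x hx h1 h2

end Pool.Agent.Work.MP_552024_lc.PLS
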