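import Pool.Agent.Work.MP_552024_lc.PLS.S4L

set_option autoImplicit false

/-! Item LvTub: properties of the tube inside an annulus. -/

namespace Pool.Agent.Work.MP_552024_lc.PLS

open SignType

namespace ALvTub

variable {E : Type} [AddCommGroup E] [Module ℚ E]

theorem form_apply (u v : E →ₗ[ℚ] ℚ) (t : ℚ) (x : E) : (v - t • u) x = v x - t * u x := by
  simp

theorem sph_pol {k : ℕ} {T : Set E} (h : Sph k T) : Pol T := by
  obtain ⟨D₁, D₂, U, rfl, _, h1, h2⟩ := h
  exact h1.1.union h2.1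

theorem pol_hl (u v : E →ₗ[ℚ] ℚ) (t : ℚ) :
    ClA {v - t • u} (Hl u v t) := by
  intro y hy x hx
  have h1 := hx (v - t • u) rfl
  have h2 : (v - t • u) y = 0 := by rw [form_apply]; have : v y = t * u y := hy; linarith
  have h3 : (v - t • u) x = 0 := by
    rcases h1 with h1 | h1
    · exact h1
    · rwa [h2, sign_zero, sign_eq_zero_iff] at h1
  rw [form_apply] at h3
  show v x = t * u x
  linarith

theorem gr_pos {u v : E →ₗ[ℚ] ℚ} {l c : ℚ} (hlc : l < c) {x : E} (hx : x ∈ Gr u v l c) :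
    0 < u x := by
  have h1 : l * u x < c * u x := hx.1.trans hx.2
  nlinarith

theorem gr_lvl {u v : E →ₗ[ℚ] ℚ} {l c : ℚ} (hlc : l < c) {x : E} (hx : x ∈ Gr u v l c) :
    l < v x / u x ∧ v x / u x < c ∧ v x = v x / u x * u x := by
  have h := gr_pos hlc hx
  refine ⟨?_, ?_, ?_⟩
  · rw [lt_div_iff₀ h]; exact hx.1
  · rw [div_lt_iff₀ h]; exact hx.2
  · rw [div_mul_cancel₀ _ h.ne']

theorem mem_gr {u v : E →ₗ[ℚ] ℚ} {l c t : ℚ} (hlt : l < t) (htc : t < c) {x : E}
    (hx : v x = t * u x) (hu : 0 < u x) : x ∈ Gr u v l c := by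
  constructor
  · rw [hx]; exact mul_lt_mul_of_pos_right hlt hu
  · rw [hx]; exact mul_lt_mul_of_pos_right htc hu

/-- The region is open. -/
theorem gr_up {A : Set (E →ₗ[ℚ] ℚ)} {u v : E →ₗ[ℚ] ℚ} {l c : ℚ} (hl : v - l • u ∈ A)
    (hc : v - c • u ∈ A) {x y : E} (h : x ∈ face A y) (hx : x ∈ Gr u v l c) :
    y ∈ Gr u v l c := by
  constructor
  · have h1 := h _ hl
    have h2 : 0 < (v - l • u) x := by rw [form_apply]; linarith [hx.1]
    rcases h1 with h1 | h1
    · exact absurd h1 h2.ne'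
    · rw [sign_pos h2, eq_comm, sign_eq_one_iff, form_apply] at h1
      linarith
  · have h1 := h _ hc
    have h2 : (v - c • u) x < 0 := by rw [form_apply]; linarith [hx.2]
    rcases h1 with h1 | h1
    · exact absurd h1 h2.ne
    · rw [sign_neg h2, eq_comm, sign_eq_neg_one_iff, form_apply] at h1
      linarith

/-- Points in the closure of the region. -/
theorem face_gr {A : Set (E →ₗ[ℚ] ℚ)} {u v : E →ₗ[ℚ] ℚ} {l c : ℚ} (hl : v - l • u ∈ A)
    (hc : v - c • u ∈ A) {x z : E} (h : z ∈ face A x) (hx : x ∈ Gr u v l c) :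
    l * u z ≤ v z ∧ v z ≤ c * u z := by
  constructor
  · have h2 : 0 < (v - l • u) x := by rw [form_apply]; linarith [hx.1]
    rcases h _ hl with h1 | h1
    · rw [form_apply] at h1; linarith
    · rw [sign_pos h2, sign_eq_one_iff, form_apply] at h1
      linarith
  · have h2 : (v - c • u) x < 0 := by rw [form_apply]; linarith [hx.2]
    rcases h _ hc with h1 | h1
    · rw [form_apply] at h1; linarith
    · rw [sign_neg h2, sign_eq_neg_one_iff, form_apply] at h1
      linarith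

theorem conn_seg (p q : E) : Conn {z : E | ∃ s : ℚ, 0 ≤ s ∧ s ≤ 1 ∧ z = p + s • (q - p)} := by
  refine conn_of_convex ⟨p, 0, le_rfl, zero_le_one, by simp⟩ ?_
  rintro x ⟨a, ha0, ha1, rfl⟩ y ⟨b, hb0, hb1, rfl⟩ t h0 h1
  refine ⟨a + t * (b - a), ?_, ?_, by module⟩
  · nlinarith [mul_nonneg h0 hb0, mul_nonneg (sub_nonneg.2 h1) ha0]
  · nlinarith [mul_nonneg h0 (sub_nonneg.2 hb1), mul_nonneg (sub_nonneg.2 h1) (sub_nonneg.2 ha1)]

/-- A connected set off the circle lies on one side. -/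
theorem side {b o C H S : Set E} (hb : Pol b) (ho : Pol o) (h1 : b ∪ o = H) (h2 : b ∩ o = C)
    (hS : Conn S) (hSH : S ⊆ H) (hSC : ∀ x ∈ S, x ∉ C) {s : E} (hs : s ∈ S) (hsb : s ∈ b) :
    S ⊆ b := by
  rcases hS.2 b o hb ho (by rw [h1]; exact hSH) (fun x hx hxb hxo => hSC x hx (h2 ▸ ⟨hxb, hxo⟩))
    with h | h
  · exact h
  · exact absurd (h2 ▸ ⟨hsb, h hs⟩ : s ∈ C) (hSC s hs)

end ALvTub

open ALvTub

theorem I_LvTub (hBsd : St_Bsd) (hSchA2 : St_SchA2) (hLvCir : St_LvCir) (hLvCell : St_LvCell)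
    (hLvRay : St_LvRay) (hConnB : St_ConnB) (hClC : St_ClC) : St_LvTub := by
  intro E _ _ _ T u v B L M l c hH hM
  obtain ⟨hAf, _, hAT, hAF, _, _, hFpol⟩ := hLvRay E T u v B L hH
  set A : Set (E →ₗ[ℚ] ℚ) := Bp B L u v with hA
  have hlL : l ∈ L := hM.adj.1
  have hcL : c ∈ L := hM.adj.2.1
  have hlc : l < c := hM.adj.2.2.1
  have hl : v - l • u ∈ A := Or.inr ⟨l, hlL, Or.inl rfl⟩
  have hc : v - c • u ∈ A := Or.inr ⟨c, hcL, Or.inl rfl⟩
  have hTpol : Pol T := sph_pol hH.sph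
  have hAM : ClA A M := hClC E A T (FF L u v) M hAf hAT hAF hTpol hFpol hM.comp
  have hMpol : Pol M := hM.comp.pol
  have hMT : M ⊆ T := hM.comp.sub
  -- the sections
  let C : ℚ → Set E := fun t => M ∩ Hl u v t
  let b : ℚ → Set E := fun t => bsd u (v - t • u) (C t)
  let o : ℚ → Set E := fun t => osd u (v - t • u) (C t)
  have hker : ∀ t, {x : E | (v - t • u) x = 0} = Hl u v t := by
    intro t; ext x
    simp only [Set.mem_ofPred_eq, form_apply, Hl]
    constructor <;> intro h <;> linarith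
  have hbs : ∀ t, l < t → t < c → b t ∪ o t = Hl u v t ∧ b t ∩ o t = C t ∧ Ball 3 (b t) (C t) ∧
      Ball 3 (o t) (C t) ∧ Bdd u (b t) ∧ ∀ x ∈ Hl u v t, u x ≤ 0 → x ∈ o t := by
    intro t h1 h2
    have hC : Sph 2 (C t) := hLvCir E T u v B L M l c t hH hM h1 h2
    have h3 := hBsd 1 hSchA2 E (C t) (v - t • u) u hH.dim
      (fun h0 => hH.ind t (sub_eq_zero.1 h0)) hC
      (fun x hx => by rw [form_apply]; have : v x = t * u x := hx.2; linarith)
      (fun x hx => hH.bdd x (hMT hx.1))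
    obtain ⟨e1, e2, e3, e4, e5, e6⟩ := h3
    refine ⟨by rw [← hker]; exact e1, e2, e3, e4, e5, fun x hx hu => e6 x ?_ hu⟩
    rw [form_apply]; have : v x = t * u x := hx; linarith
  have hbl : ∀ t, b t ⊆ Hl u v t := by
    intro t x hx
    have : (v - t • u) x = 0 := hx.1
    rw [form_apply] at this
    show v x = t * u x
    linarith
  have h0C : ∀ t, l < t → t < c → (0 : E) ∈ C t := fun t h1 h2 =>
    (sph_pol (hLvCir E T u v B L M l c t hH hM h1 h2)).1
  -- the region
  let R : Set E := {x | x ∈ Gr u v l c ∧ x ∉ M}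
  have hRinv : ∀ x y, SameSign A x y → x ∈ R → y ∈ R := by
    intro x y hxy hx
    exact ⟨gr_up hl hc hxy.mem_face hx.1, fun hy => hx.2 (hAM y hy hxy.mem_face)⟩
  have hRC : ∀ x ∈ R, ∀ t, x ∉ C t := fun x hx t h => hx.2 h.1
  have hRmk : ∀ t, l < t → t < c → ∀ x ∈ Hl u v t, 0 < u x → x ∉ C t → x ∈ R :=
    fun t h1 h2 x hx hu hxC => ⟨mem_gr h1 h2 hx hu, fun hxM => hxC ⟨hxM, hx⟩⟩
  -- cells
  have hcell : ∀ t, l < t → t < c → ∀ x ∈ R, ∀ y, SameSign A y x → y ∈ b t →
      ∀ z, SameSign A z x → z ∈ Hl u v t → z ∈ b t := by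
    intro t h1 h2 x hx y hy hyb z hz hzt
    obtain ⟨e1, e2, e3, e4, _, _⟩ := hbs t h1 h2
    have hconn : Conn {w : E | SameSign A w x ∧ w ∈ Hl u v t} := by
      refine conn_of_convex ⟨z, hz, hzt⟩ ?_
      rintro p ⟨hp1, hp2⟩ q ⟨hq1, hq2⟩ s h0 h1
      refine ⟨sameSign_convex hp1 hq1 h0 h1, ?_⟩
      have hp2' : v p = t * u p := hp2
      have hq2' : v q = t * u q := hq2
      show v (p + s • (q - p)) = t * u (p + s • (q - p))
      simp only [map_add, map_smul, map_sub, smul_eq_mul, hp2', hq2']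
      ring
    exact side e3.1 e4.1 e1 e2 hconn (fun w hw => hw.2)
      (fun w hw => hRC w (hRinv x w (SameSign.symm hw.1) hx) t) (s := y) ⟨hy, hbl t hyb⟩ hyb ⟨hz, hzt⟩
  let X : ℚ → Set E := fun t => {x | x ∈ R ∧ ∃ y, SameSign A y x ∧ y ∈ b t}
  have hXinv : ∀ t, InvA A (X t) := by
    rintro t x y hxy ⟨hx, z, hz, hzb⟩
    exact ⟨hRinv x y hxy hx, z, hz.trans hxy, hzb⟩
  have hXlvl : ∀ t, l < t → t < c → ∀ x ∈ X t, x ∈ Hl u v t → x ∈ b t := by
    rintro t h1 h2 x ⟨hx, y, hy, hyb⟩ hxt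
    exact hcell t h1 h2 x hx y hy hyb x (fun _ _ => rfl) hxt
  -- adjacency
  have hadj : ∀ t, l < t → t < c → ∀ x ∈ R, ∀ x' ∈ R, x' ∈ face A x → (x ∈ X t ↔ x' ∈ X t) := by
    intro t h1 h2 x hx x' hx' hf
    obtain ⟨e1, e2, e3, e4, _, _⟩ := hbs t h1 h2
    obtain ⟨z', hz', hz't⟩ := hLvCell E T u v B L l c t x' hH hM.adj h1 h2 hx'.1
    obtain ⟨d, hd, hdt⟩ := hLvCell E T u v B L l c t x hH hM.adj h1 h2 hx.1
    have hz'R : z' ∈ R := hRinv x' z' (SameSign.symm hz') hx'
    have hdR : d ∈ R := hRinv x d (SameSign.symm hd) hx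
    have hfd : z' ∈ face A d :=
      face_trans hz'.mem_face (face_trans hf (SameSign.symm hd).mem_face)
    have hsegR : ∀ w ∈ {w : E | ∃ s : ℚ, 0 ≤ s ∧ s ≤ 1 ∧ w = z' + s • (d - z')},
        w ∈ R ∧ w ∈ Hl u v t := by
      rintro w ⟨s, h0, h1, rfl⟩
      refine ⟨?_, ?_⟩
      · rcases h0.eq_or_lt with rfl | h0
        · simpa using hz'R
        · exact hRinv d _ (SameSign.symm (sameSign_segment hfd h0 h1)) hdR
      · show v (z' + s • (d - z')) = t * u (z' + s • (d - z'))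
        simp only [map_add, map_smul, map_sub, smul_eq_mul, hdt, hz't]
        ring
    have hiff : z' ∈ b t ↔ d ∈ b t := by
      constructor
      · intro hz'b
        exact side e3.1 e4.1 e1 e2 (conn_seg z' d) (fun w hw => (hsegR w hw).2)
          (fun w hw => hRC w (hsegR w hw).1 t) (s := z') ⟨0, le_rfl, zero_le_one, by simp⟩ hz'b
          ⟨1, zero_le_one, le_rfl, by simp⟩
      · intro hdb
        exact side e3.1 e4.1 e1 e2 (conn_seg z' d) (fun w hw => (hsegR w hw).2)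
          (fun w hw => hRC w (hsegR w hw).1 t) (s := d) ⟨1, zero_le_one, le_rfl, by simp⟩ hdb
          ⟨0, le_rfl, zero_le_one, by simp⟩
    constructor
    · rintro ⟨_, y, hy, hyb⟩
      exact ⟨hx', z', hz', hiff.2 (hcell t h1 h2 x hx y hy hyb d hd hdt)⟩
    · rintro ⟨_, y, hy, hyb⟩
      exact ⟨hx, d, hd, hiff.1 (hcell t h1 h2 x' hx' y hy hyb z' hz' hz't)⟩
  -- unboundedness
  have hunb : ∀ t, l < t → t < c → ∀ x ∈ X t, ∀ z, z ∈ face A x → z ≠ 0 → 0 < u z := by
    intro t h1 h2 x hx z hz hz0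
    obtain ⟨e1, e2, e3, e4, e5, _⟩ := hbs t h1 h2
    obtain ⟨g1, g2⟩ := face_gr hl hc hz hx.1.1
    have hnn : 0 ≤ u z := by
      have : l * u z ≤ c * u z := g1.trans g2
      nlinarith
    rcases hnn.eq_or_lt with hu0 | hpos
    · exfalso
      have hvz : v z = 0 := by
        rw [← hu0] at g1 g2
        linarith
      obtain ⟨d, hd, hdt⟩ := hLvCell E T u v B L l c t x hH hM.adj h1 h2 hx.1.1
      obtain ⟨hxR, y, hy, hyb⟩ := hx
      have hzd : z ∈ face A d := face_trans hz (SameSign.symm hd).mem_face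
      have hray : ∀ s : ℚ, 0 < s → d + s • z ∈ b t := by
        intro s hs
        refine hcell t h1 h2 x hxR y hy hyb _ ?_ ?_
        · refine SameSign.trans ?_ hd
          intro a ha
          rw [map_add, map_smul, smul_eq_mul]
          rcases hzd a ha with h | h
          · rw [h, mul_zero, add_zero]
          · rcases lt_trichotomy (a d) 0 with h3 | h3 | h3
            · rw [sign_neg h3] at h ⊢
              rw [sign_eq_neg_one_iff] at h ⊢
              nlinarith
            · rw [h3, sign_zero] at h ⊢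
              rw [sign_eq_zero_iff] at h ⊢
              rw [h]; ring
            · rw [sign_pos h3] at h ⊢
              rw [sign_eq_one_iff] at h ⊢
              nlinarith
        · show v (d + s • z) = t * u (d + s • z)
          simp only [map_add, map_smul, smul_eq_mul, hdt, hvz, ← hu0]
          ring
      have hzcl : z ∈ cl (b t) := by
        have hmem : ∀ r : ℚ, 0 < r → z + r • d ∈ b t := by
          intro r hr
          have h5 : z + r • d = r • (d + r⁻¹ • z) := by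
            rw [smul_add, smul_smul, mul_inv_cancel₀ hr.ne', one_smul, add_comm]
          rw [h5, inv_smul e3.1.con _ hr]
          exact hray _ (inv_pos.2 hr)
        refine Or.inr ⟨z + (1 : ℚ) • d, hmem 1 one_pos, fun r h0 _ => ?_⟩
        have h5 : z + r • (z + (1 : ℚ) • d - z) = z + r • d := by
          rw [one_smul, add_sub_cancel_left]
        rw [h5]
        exact hmem r h0
      rw [e3.1.cl_eq] at hzcl
      have := e5 z hzcl hz0
      rw [← hu0] at this
      exact lt_irrefl _ this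
    · exact hpos
  -- the forms with the level added
  have hinv' : ∀ (t : ℚ) (S : Set E), InvA A S → InvA (insert (v - t • u) A) S := fun t S hS =>
    hS.mono (Set.subset_insert _ _)
  have hHlinv : ∀ t : ℚ, InvA (insert (v - t • u) A) (Hl u v t) := fun t =>
    (pol_hl u v t).inv.mono (Set.singleton_subset_iff.2 (Set.mem_insert _ _))
  have hfin' : ∀ t : ℚ, (insert (v - t • u) A).Finite := fun t => hAf.insert _
  -- the claim
  have hclaim : ∀ t t', l < t → t < c → l < t' → t' < c → ∀ p ∈ X t, p ∈ Hl u v t' →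
      p ∈ b t' := by
    intro t t' h1 h2 h1' h2' p hp hpt
    obtain ⟨e1, e2, e3, e4, e5, e6⟩ := hbs t' h1' h2'
    by_contra hpb
    have hCinv : InvA (insert (v - t' • u) A) (C t') := (hinv' t' M hAM.inv).inter (hHlinv t')
    have hS1 : InvA (insert (v - t' • u) A) (X t ∩ Hl u v t') :=
      (hinv' t' _ (hXinv t)).inter (hHlinv t')
    have hS2 : InvA (insert (v - t' • u) A) (Hl u v t' \ (C t' ∪ X t)) :=
      (hHlinv t').diff (hCinv.union (hinv' t' _ (hXinv t)))
    have hOconn : Conn (o t' \ C t') := (hConnB 2 E (o t') (C t') e4).1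
    have hOHl : o t' ⊆ Hl u v t' := by rw [← e1]; exact Set.subset_union_right
    have hF1 : ∀ z ∈ cl (X t ∩ Hl u v t'), z ≠ 0 → ∃ y ∈ X t, z ∈ face A y := by
      intro z hz hz0
      rw [mem_cl_iff (hfin' t') hS1] at hz
      rcases hz with hz | ⟨y, hy, hf⟩
      · exact absurd hz hz0
      · exact ⟨y, hy.1, face_anti (Set.subset_insert _ _) y hf⟩
    have hdis : ∀ z ∈ o t' \ C t', z ∈ cl (X t ∩ Hl u v t') →
        z ∉ cl (Hl u v t' \ (C t' ∪ X t)) := by
      intro z hz hz1 hz2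
      have hz0 : z ≠ 0 := by
        rintro rfl
        exact hz.2 (h0C t' h1' h2')
      obtain ⟨y, hy, hf⟩ := hF1 z hz1 hz0
      have huz : 0 < u z := hunb t h1 h2 y hy z hf hz0
      have hzR : z ∈ R := hRmk t' h1' h2' z (hOHl hz.1) huz hz.2
      have hzX : z ∈ X t := (hadj t h1 h2 y hy.1 z hzR hf).1 hy
      rw [mem_cl_iff (hfin' t') hS2] at hz2
      rcases hz2 with hz2 | ⟨y2, hy2, hf2⟩
      · exact hz0 hz2
      · have hf2' := face_anti (Set.subset_insert (v - t' • u) A) y2 hf2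
        have hy2g : y2 ∈ Gr u v l c := gr_up hl hc hf2' hzR.1
        have hy2R : y2 ∈ R := ⟨hy2g, fun hm => hy2.2 (Or.inl ⟨hm, hy2.1⟩)⟩
        exact hy2.2 (Or.inr ((hadj t h1 h2 y2 hy2R z hzR hf2').2 hzX))
    have hpo : p ∈ o t' \ C t' := by
      refine ⟨?_, hRC p hp.1 t'⟩
      have : p ∈ b t' ∪ o t' := by rw [e1]; exact hpt
      exact this.resolve_left hpb
    have hp1 : p ∈ cl (X t ∩ Hl u v t') := subset_cl _ ⟨hp, hpt⟩
    rcases hOconn.2 _ _ (Con.pol_cl ⟨_, hfin' t', hS1⟩) (Con.pol_cl ⟨_, hfin' t', hS2⟩)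
      (by
        intro z hz
        by_cases hzX : z ∈ X t
        · exact Or.inl (subset_cl _ ⟨hzX, hOHl hz.1⟩)
        · exact Or.inr (subset_cl _ ⟨hOHl hz.1, fun h => h.elim hz.2 hzX⟩)) hdis with h | h
    · -- a nonzero point of the hyperplane with `u ≤ 0`
      obtain ⟨w, hw0, hwk⟩ : ∃ w : E, w ≠ 0 ∧ (v - t' • u) w = 0 := by
        by_contra hcon
        push Not at hcon
        have hinj : Function.Injective (v - t' • u) := by
          rw [injective_iff_map_eq_zero]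
          intro a ha
          by_contra ha0
          exact hcon a ha0 ha
        have h7 := LinearMap.finrank_le_finrank_of_injective hinj
        rw [hH.dim, Module.finrank_self] at h7
        omega
      have key : ∀ w : E, w ≠ 0 → (v - t' • u) w = 0 → u w ≤ 0 → False := by
        intro w hw0 hwk hwu
        have hwH : w ∈ Hl u v t' := by
          rw [form_apply] at hwk
          show v w = t' * u w
          linarith
        have hwo : w ∈ o t' := e6 w hwH hwu
        have hwC : w ∉ C t' := by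
          intro hwC
          have := hH.bdd w (hMT hwC.1) hw0
          linarith
        obtain ⟨y, hy, hf⟩ := hF1 w (h ⟨hwo, hwC⟩) hw0
        have := hunb t h1 h2 y hy w hf hw0
        linarith
      rcases le_total (u w) 0 with hu | hu
      · exact key w hw0 hwk hu
      · exact key (-w) (neg_ne_zero.2 hw0) (by rw [map_neg, hwk, neg_zero])
          (by rw [map_neg]; linarith)
    · exact hdis p hpo hp1 (h hpo)
  have hXsub : ∀ t t', l < t → t < c → l < t' → t' < c → X t ⊆ X t' := by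
    intro t t' h1 h2 h1' h2' x hx
    obtain ⟨y, hy, hyt⟩ := hLvCell E T u v B L l c t' x hH hM.adj h1' h2' hx.1.1
    exact ⟨hx.1, y, hy, hclaim t t' h1 h2 h1' h2' y (hXinv t x y (SameSign.symm hy) hx) hyt⟩
  have hTub : ∀ t, l < t → t < c → Tub u v M l c = X t := by
    intro t h1 h2
    ext x
    constructor
    · rintro ⟨hxG, hxM, hxb⟩
      obtain ⟨g1, g2, g3⟩ := gr_lvl hlc hxG
      exact hXsub _ t g1 g2 h1 h2 ⟨⟨hxG, hxM⟩, x, fun _ _ => rfl, hxb⟩
    · intro hx
      obtain ⟨g1, g2, g3⟩ := gr_lvl hlc hx.1.1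
      exact ⟨hx.1.1, hx.1.2, hclaim t _ h1 h2 g1 g2 x hx g3⟩
  have ht0 : l < (l + c) / 2 := by linarith
  have ht1 : (l + c) / 2 < c := by linarith
  have hT0 := hTub _ ht0 ht1
  have hcl : ∀ x ∈ cl (Tub u v M l c), x ≠ 0 → ∃ y ∈ X ((l + c) / 2), x ∈ face A y := by
    intro x hx hx0
    rw [hT0, mem_cl_iff hAf (hXinv _)] at hx
    exact hx.resolve_left hx0
  refine ⟨by rw [hT0]; exact hXinv _, ?_, ?_, ?_, ?_⟩
  · intro x hxG hxM hxcl
    have hx0 : x ≠ 0 := by
      rintro rfl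
      have := gr_pos hlc hxG
      simp at this
    obtain ⟨y, hy, hf⟩ := hcl x hxcl hx0
    rw [hT0]
    exact (hadj _ ht0 ht1 y hy.1 x ⟨hxG, hxM⟩ hf).1 hy
  · intro x hx y hf
    rw [hT0] at hx ⊢
    have hyR : y ∈ R := ⟨gr_up hl hc hf hx.1.1, fun hy => hx.1.2 (hAM y hy hf)⟩
    exact (hadj _ ht0 ht1 y hyR x hx.1 hf).2 hx
  · intro x hx hx0
    obtain ⟨y, hy, hf⟩ := hcl x hx hx0
    exact hunb _ ht0 ht1 y hy x hf hx0
  · intro t h1 h2
    obtain ⟨e1, e2, e3, e4, e5, e6⟩ := hbs t h1 h2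
    ext x
    constructor
    · rintro ⟨hx, hxt⟩
      rw [hTub t h1 h2] at hx
      exact ⟨hXlvl t h1 h2 x hx hxt, hRC x hx.1 t⟩
    · rintro ⟨hxb, hxC⟩
      have hxt : x ∈ Hl u v t := hbl t hxb
      have hx0 : x ≠ 0 := by
        rintro rfl
        exact hxC (h0C t h1 h2)
      refine ⟨?_, hxt⟩
      rw [hTub t h1 h2]
      exact ⟨hRmk t h1 h2 x hxt (e5 x hxb hx0) hxC, x, fun _ _ => rfl, hxb⟩

end Pool.Agent.Work.MP_552024_lc.PLS
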