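import Pool.Agent.Work.MP_552024_lc.PLS.S4

set_option autoImplicit false

namespace Pool.Agent.Work.MP_552024_lc.PLS

namespace ANC

variable {E : Type*} [AddCommGroup E] [Module ℚ E]

theorem ball_pol {k : ℕ} {C S : Set E} (h : Ball k C S) : Pol C := h.1

theorem sph_pol {k : ℕ} {T : Set E} (h : Sph k T) : Pol T := by
  obtain ⟨D₁, D₂, U, rfl, _, h1, h2⟩ := h
  exact h1.1.union h2.1

theorem ball_nonzero {k : ℕ} {C S : Set E} (h : Ball (k + 1) C S) : ∃ x ∈ C, x ≠ 0 := by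
  obtain ⟨hP, hS, f, g, hI, _⟩ := h
  have h1 : (fun _ => 1 : Fin (k + 1) → ℚ) ∈ Orth (k + 1) := fun i => zero_le_one
  refine ⟨f (fun _ => 1), hI.mapsf _ h1, fun h2 => ?_⟩
  have h3 := hI.gf _ h1
  rw [h2, hI.plg.zero hP.1] at h3
  have h4 := congrFun h3 0
  simp at h4

theorem sph_nonzero {k : ℕ} {T : Set E} (h : Sph (k + 1) T) : ∃ x ∈ T, x ≠ 0 := by
  obtain ⟨D₁, D₂, U, rfl, _, h1, h2⟩ := h
  obtain ⟨x, hx, hx0⟩ := ball_nonzero h1
  exact ⟨x, Or.inl hx, hx0⟩

/-- One dimensional case. -/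
theorem base (hSph1 : St_Sph1) (E : Type) [AddCommGroup E] [Module ℚ E] [FiniteDimensional ℚ E]
    (T : Set E) (hd : Module.finrank ℚ E = 1) (hT : Sph 1 T) : T = Set.univ := by
  obtain ⟨p, q, hp, hq, hqp, rfl⟩ := (hSph1 E T).1 hT
  have h1 := (finrank_eq_one_iff_of_nonzero' p hp).1 hd
  obtain ⟨c, hc⟩ := h1 q
  have hc0 : c < 0 := by
    by_contra h
    push Not at h
    exact hqp ⟨c, h, hc.symm⟩
  refine Set.eq_univ_of_forall fun x => ?_
  obtain ⟨a, ha⟩ := h1 x
  rcases le_total 0 a with h2 | h2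
  · exact Or.inl ⟨a, h2, ha.symm⟩
  · refine Or.inr ⟨a / c, div_nonneg_of_nonpos h2 hc0.le, ?_⟩
    rw [← ha, ← hc, smul_smul, div_mul_cancel₀ _ hc0.ne]

end ANC

theorem I_NC (hLS : St_LS) (hSph1 : St_Sph1) (hConnP : St_ConnP) : St_NC := by
  intro n
  induction n with
  | zero =>
    intro E _ _ _ T hd hT
    exact ANC.base hSph1 E T hd hT
  | succ n ih =>
    intro E _ _ _ T hd hT
    have hPT := ANC.sph_pol hT
    have hCT := hPT.con
    have huniv : ∀ x ∈ T, x ≠ 0 → Tg x T = Set.univ := by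
      intro x hx hx0
      set W : Submodule ℚ E := Submodule.span ℚ {x} with hW
      obtain ⟨σ, hσ⟩ := LinearMap.exists_rightInverse_of_surjective W.mkQ
        (LinearMap.range_eq_top.2 W.mkQ_surjective)
      have hσ' : ∀ z, W.mkQ (σ z) = z := fun z => LinearMap.congr_fun hσ z
      have hker : ∀ y, W.mkQ y = 0 ↔ ∃ c : ℚ, y = c • x := by
        intro y
        rw [Submodule.mkQ_apply, Submodule.Quotient.mk_eq_zero, hW, Submodule.mem_span_singleton]
        exact ⟨fun ⟨c, hc⟩ => ⟨c, hc.symm⟩, fun ⟨c, hc⟩ => ⟨c, hc.symm⟩⟩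
      have hF : Module.finrank ℚ (E ⧸ W) = n + 1 := by
        have h1 := Submodule.finrank_quotient_add_finrank W
        rw [hW, finrank_span_singleton hx0, ← hW] at h1
        omega
      have h2 := hLS n E (E ⧸ W) T x W.mkQ σ hσ' hker hT hx hx0
      have h3 := ih (E ⧸ W) _ hF h2
      refine Set.eq_univ_of_forall fun v => ?_
      have h4 : W.mkQ v ∈ W.mkQ '' Tg x T := by rw [h3]; trivial
      obtain ⟨w, hw, hwv⟩ := h4
      obtain ⟨c, hc⟩ := (hker (v - w)).1 (by rw [map_sub, hwv, sub_self])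
      have h5 : v = w + c • x := by rw [← hc]; abel
      rw [h5]
      exact (tg_add hCT w c).2 hw
    have hdisj : ∀ x ∈ T, x ≠ 0 → x ∉ cl Tᶜ := by
      intro x hx hx0 hcl
      rcases hcl with h1 | ⟨y, _, H⟩
      · exact hx0 h1
      · have h2 : y - x ∈ Tg x T := by rw [huniv x hx hx0]; trivial
        obtain ⟨ε, hε, K⟩ := h2
        exact H (min ε 1) (lt_min hε one_pos) (min_le_right _ _)
          (K (min ε 1) (lt_min hε one_pos) (min_le_left _ _))
    obtain ⟨_, hconn⟩ := hConnP n E hd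
    have h1 := hconn T (cl Tᶜ) hPT hCT.compl.pol_cl (fun x _ => by
      by_cases hx : x ∈ T
      · exact Or.inl hx
      · exact Or.inr (subset_cl _ hx)) (fun x hx0 hx => hdisj x hx hx0)
    rcases h1 with h2 | h2
    · refine Set.eq_univ_of_forall fun x => ?_
      by_cases hx : x = 0
      · rw [hx]; exact hPT.1
      · exact h2 hx
    · obtain ⟨p, hp, hp0⟩ := ANC.sph_nonzero hT
      exact absurd (h2 hp0) (hdisj p hp hp0)

end Pool.Agent.Work.MP_552024_lc.PLS
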