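import Pool.Agent.Work.MP_552024_lc.PLS.S4

set_option autoImplicit false

namespace Pool.Agent.Work.MP_552024_lc.PLS

theorem I_NCp (hNC : St_NC) (hSphIso : St_SphIso) (hSphQ : St_SphQ) (hSphTr : St_SphTr) :
    St_NCp := by
  intro n E _ _ _ X Y hX hY hXY
  have hfin : Module.finrank ℚ (Fin (n + 1) → ℚ) = n + 1 := by simp
  have hQ : Sph (n + 1) (Set.univ : Set (Fin (n + 1) → ℚ)) := hSphQ n _ hfin
  obtain ⟨f, g, h⟩ := hSphIso n E (Fin (n + 1) → ℚ) Y Set.univ hY hQ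
  have hpX : Pol X := by
    obtain ⟨D₁, D₂, U, rfl, -, h1, h2⟩ := hX
    exact h1.1.union h2.1
  have hpi : Pol (f '' X) := h.pol_image pol_univ hXY hpX
  have hs : Sph (n + 1) (f '' X) :=
    hSphTr n E (Fin (n + 1) → ℚ) X (f '' X) f g hX hpi (h.restrict_image hXY)
  have huniv : f '' X = Set.univ := hNC n _ _ hfin hs
  refine Set.Subset.antisymm hXY fun y hy => ?_
  have h1 : f y ∈ f '' X := by rw [huniv]; exact Set.mem_univ _
  exact (h.mem_image hXY hy).1 h1

end Pool.Agent.Work.MP_552024_lc.PLS
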