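import Pool.Agent.Work.MP_552024_lc.PLS.S4

set_option autoImplicit false

/-! Item NF: normal form for a standard sphere. -/

namespace Pool.Agent.Work.MP_552024_lc.PLS

namespace ANF

/-- The parametrization of a ball by another ball of the same dimension. -/
theorem ball_iso {E E' : Type*} [AddCommGroup E] [Module ℚ E] [AddCommGroup E'] [Module ℚ E']
    {k : ℕ} {B S : Set E} {B' S' : Set E'} (h : Ball k B S) (h' : Ball k B' S') :
    ∃ (φ : E → E') (ψ : E' → E), PLInv φ ψ B B' ∧ (∀ x ∈ B, (x ∈ S ↔ φ x ∈ S')) := by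
  obtain ⟨-, -, f, g, hfg, hi⟩ := h
  obtain ⟨-, -, f', g', hfg', hi'⟩ := h'
  refine ⟨_, _, hfg.symm.trans hfg', fun x hx => ?_⟩
  show x ∈ S ↔ f' (g x) ∈ S'
  rw [← hi' _ (hfg.mapsg x hx), hi _ (hfg.mapsg x hx), hfg.fg x hx]

end ANF

open ANF in
theorem I_NF (hHS : St_HS) : St_NF := by
  intro n E _ _ _ T A A' _ hcov hint hA hA'
  obtain ⟨b, hb⟩ : ∃ b : (Fin (n + 1) → ℚ) →ₗ[ℚ] ℚ, ∀ x, b x = x 0 :=
    ⟨LinearMap.proj 0, fun _ => rfl⟩
  have hb0 : b ≠ 0 := by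
    intro h
    have h1 := hb (fun _ => 1)
    rw [h] at h1
    exact zero_ne_one h1
  have hP := hHS n (Fin (n + 1) → ℚ) b (by simp) hb0
  have hN := hHS n (Fin (n + 1) → ℚ) (-b) (by simp) (neg_ne_zero.2 hb0)
  have e0 : {x : Fin (n + 1) → ℚ | (-b) x = 0} = {x | b x = 0} := by
    ext x
    simp
  rw [e0] at hN
  obtain ⟨φ, ψ, hφ, hφT⟩ := ball_iso hA hN
  have hr : PLInv φ ψ T {x : Fin (n + 1) → ℚ | b x = 0} := hφ.restrict hA.2.1 hN.2.1 hφT
  obtain ⟨Φ, Ψ, hΦ, h1, h2, h3⟩ := ball_ext hA' hP hr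
  obtain ⟨F, G, hFG, g1, g2, -, -⟩ := hφ.paste hΦ hA.1 hA'.1 hN.1 hP.1 (by
      intro x hx hx'
      have hxT : x ∈ T := by
        rw [← hint]
        exact ⟨hx, hx'⟩
      exact (h1 x hxT).symm) (by
      intro y hy hy'
      have hy1 : 0 ≤ (-b) y := hy
      have hy2 : 0 ≤ b y := hy'
      rw [LinearMap.neg_apply] at hy1
      have hyW : b y = 0 := le_antisymm (by linarith) hy2
      exact (h2 y hyW).symm)
  have hu : {x : Fin (n + 1) → ℚ | 0 ≤ (-b) x} ∪ {x | 0 ≤ b x} = Set.univ := by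
    ext x
    refine ⟨fun _ => trivial, fun _ => ?_⟩
    rcases le_total 0 (b x) with h | h
    · exact Or.inr h
    · left
      show 0 ≤ (-b) x
      rw [LinearMap.neg_apply]
      linarith
  rw [hcov, hu] at hFG
  have i1 : ∀ x ∈ A, F x 0 ≤ 0 := by
    intro x hx
    rw [g1 x hx, ← hb (φ x)]
    have h4 : 0 ≤ (-b) (φ x) := hφ.mapsf x hx
    rw [LinearMap.neg_apply] at h4
    linarith
  have i2 : ∀ x ∈ A', 0 ≤ F x 0 := by
    intro x hx
    rw [g2 x hx, ← hb (Φ x)]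
    exact hΦ.mapsf x hx
  have i3 : ∀ x, x ∈ A ∨ x ∈ A' := by
    intro x
    have : x ∈ A ∪ A' := by
      rw [hcov]
      trivial
    exact this
  refine ⟨F, G, hFG, fun x => ⟨i1 x, fun h => ?_⟩, fun x => ⟨i2 x, fun h => ?_⟩⟩
  · rcases i3 x with hx | hx
    · exact hx
    · have h5 : b (Φ x) = 0 := by
        rw [hb, ← g2 x hx]
        exact le_antisymm h (i2 x hx)
      exact hA.2.1 ((h3 x hx).2 h5)
  · rcases i3 x with hx | hx
    · have h5 : b (φ x) = 0 := by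
        rw [hb, ← g1 x hx]
        exact le_antisymm (i1 x hx) h
      exact hA'.2.1 ((hφT x hx).2 h5)
    · exact hx

end Pool.Agent.Work.MP_552024_lc.PLS
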