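import Pool.Agent.Work.MP_552024_lc.PLS.S4

set_option autoImplicit false

namespace Pool.Agent.Work.MP_552024_lc.PLS

namespace ANF2

/-- Apply a map to the coordinates other than the first one. -/
def sus (k : ℕ) (f : (Fin k → ℚ) → (Fin k → ℚ)) (y : Fin (k + 1) → ℚ) : Fin (k + 1) → ℚ :=
  zcr k y • ev k + emb k (f (tl k y))

theorem zcr_emb {k : ℕ} (x : Fin k → ℚ) : zcr k (emb k x) = 0 := emb_zero x

theorem tl_ev (k : ℕ) : tl k (ev k) = 0 := by
  ext i; exact tcr_ev k i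

theorem zcr_sus {k : ℕ} (f : (Fin k → ℚ) → (Fin k → ℚ)) (y : Fin (k + 1) → ℚ) :
    zcr k (sus k f y) = zcr k y := by
  unfold sus
  rw [map_add, map_smul, zcr_ev, zcr_emb, add_zero, smul_eq_mul, mul_one]

theorem tl_sus {k : ℕ} (f : (Fin k → ℚ) → (Fin k → ℚ)) (y : Fin (k + 1) → ℚ) :
    tl k (sus k f y) = f (tl k y) := by
  unfold sus
  rw [map_add, map_smul, tl_ev, tl_emb, smul_zero, zero_add]

theorem eq_zcr_tl {k : ℕ} (y : Fin (k + 1) → ℚ) : zcr k y • ev k + emb k (tl k y) = y := by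
  ext i
  rcases Fin.eq_zero_or_eq_succ i with rfl | ⟨j, rfl⟩
  · show zcr k y * ev k 0 + emb k (tl k y) 0 = y 0
    rw [emb_zero, add_zero]
    have h1 : ev k 0 = 1 := zcr_ev k
    rw [h1, mul_one]; rfl
  · show zcr k y * ev k j.succ + emb k (tl k y) j.succ = y j.succ
    rw [emb_succ]
    have h1 : ev k j.succ = 0 := tcr_ev k j
    rw [h1, mul_zero, zero_add]; rfl

theorem plOn_sus {k : ℕ} {f : (Fin k → ℚ) → (Fin k → ℚ)} (hf : PLOn f Set.univ) :
    PLOn (sus k f) Set.univ := by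
  have h1 : PLOn (fun y : Fin (k + 1) → ℚ => zcr k y • ev k) Set.univ :=
    (plOn_linear (zcr k) Set.univ).lin (LinearMap.toSpanSingleton ℚ _ (ev k))
  have h2 : PLOn (fun y : Fin (k + 1) → ℚ => f (tl k y)) Set.univ :=
    hf.comp (plOn_linear (tl k) Set.univ) (fun _ _ => trivial)
  exact h1.add (h2.lin (emb k))

theorem sus_sus {k : ℕ} {f g : (Fin k → ℚ) → (Fin k → ℚ)} (h : ∀ x, g (f x) = x)
    (y : Fin (k + 1) → ℚ) : sus k g (sus k f y) = y := by
  show zcr k (sus k f y) • ev k + emb k (g (tl k (sus k f y))) = y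
  rw [zcr_sus, tl_sus, h, eq_zcr_tl]

theorem plInv_sus {k : ℕ} {f g : (Fin k → ℚ) → (Fin k → ℚ)}
    (h : PLInv f g Set.univ Set.univ) : PLInv (sus k f) (sus k g) Set.univ Set.univ :=
  ⟨plOn_sus h.plf, plOn_sus h.plg, fun _ _ => trivial, fun _ _ => trivial,
    fun x _ => sus_sus (fun z => h.gf z trivial) x,
    fun x _ => sus_sus (fun z => h.fg z trivial) x⟩

end ANF2

open ANF2 in
theorem I_NF2 (hNF : St_NF) : St_NF2 := by
  intro n E _ _ _ A A' D E₁ c hfr hAA hAA' hA hA' hD hE hDE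
  obtain ⟨f, g, hfg, hfA, hfA'⟩ := hNF (n + 1) E (E₁ ∪ D) A A' hfr hAA hAA' hA hA'
  have hf0 : ∀ x, f x 0 = 0 ↔ x ∈ E₁ ∪ D := by
    intro x
    rw [← hAA']
    constructor
    · intro h; exact ⟨(hfA x).2 h.le, (hfA' x).2 h.ge⟩
    · rintro ⟨h1, h2⟩; exact le_antisymm ((hfA x).1 h1) ((hfA' x).1 h2)
  set F : E → (Fin (n + 1) → ℚ) := fun x => tl (n + 1) (f x) with hF
  set G : (Fin (n + 1) → ℚ) → E := fun y => g (emb (n + 1) y) with hG
  have hplF : PLOn F Set.univ := hfg.plf.lin (tl (n + 1))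
  have hplG : PLOn G Set.univ :=
    hfg.plg.comp (plOn_linear (emb (n + 1)) Set.univ) (fun _ _ => trivial)
  have hfG : ∀ y, f (G y) = emb (n + 1) y := fun y => hfg.fg _ trivial
  have hFG : ∀ y, F (G y) = y := by
    intro y
    show tl (n + 1) (f (G y)) = y
    rw [hfG, tl_emb]
  have hGF : ∀ x, f x 0 = 0 → G (F x) = x := by
    intro x hx
    show g (emb (n + 1) (tl (n + 1) (f x))) = x
    rw [emb_tl (show zcr (n + 1) (f x) = 0 from hx)]
    exact hfg.gf x trivial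
  have hG0 : ∀ y, G y ∈ E₁ ∪ D := by
    intro y
    rw [← hf0, hfG]; exact emb_zero y
  have pre : ∀ S : Set E, Pol S → Pol {y | G y ∈ S} := by
    intro S hS
    have h1 := hplG.pol_preimage pol_univ hS
    have h2 : {x | x ∈ Set.univ ∧ G x ∈ S} = {y | G y ∈ S} := by
      ext y; simp
    rwa [h2] at h1
  have ball : ∀ S : Set E, S ⊆ E₁ ∪ D → Ball (n + 1) S c → Ball (n + 1) {y | G y ∈ S} {y | G y ∈ c} := by
    intro S hS hB
    have hfS : ∀ x ∈ S, G (F x) = x := fun x hx => hGF x ((hf0 x).2 (hS hx))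
    refine hB.transport (pre S hB.1) (F := F) (G := G)
      ⟨hplF.mono (Set.subset_univ _), hplG.mono (Set.subset_univ _), ?_, fun y hy => hy,
        hfS, fun y _ => hFG y⟩ (fun y hy => hB.2.1 hy) ?_
    · intro x hx
      show G (F x) ∈ S
      rw [hfS x hx]; exact hx
    · intro x hx
      show x ∈ c ↔ G (F x) ∈ c
      rw [hfS x hx]
  obtain ⟨f2, g2, hfg2, hD2, hE2⟩ := hNF n (Fin (n + 1) → ℚ) {y | G y ∈ c} {y | G y ∈ D}
    {y | G y ∈ E₁} (by simp) (by
      ext y; constructor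
      · intro _; trivial
      · intro _
        rcases hG0 y with h | h
        · exact Or.inr h
        · exact Or.inl h) (by
      ext y; constructor
      · rintro ⟨h1, h2⟩
        show G y ∈ c
        rw [← hDE]; exact ⟨h1, h2⟩
      · intro h
        have h : G y ∈ D ∩ E₁ := by rw [hDE]; exact h
        exact h)
    (ball D (fun x hx => Or.inr hx) hD) (ball E₁ (fun x hx => Or.inl hx) hE)
  have hfin := hfg.trans (plInv_sus hfg2)
  have h0 : ∀ x, sus (n + 1) f2 (f x) 0 = f x 0 := fun x => zcr_sus f2 (f x)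
  have h1 : ∀ x, sus (n + 1) f2 (f x) 1 = f2 (F x) 0 := fun x =>
    congrFun (tl_sus f2 (f x)) 0
  refine ⟨_, _, hfin, ?_, ?_, ?_, ?_⟩
  · intro x
    show x ∈ A ↔ sus (n + 1) f2 (f x) 0 ≤ 0
    rw [h0]; exact hfA x
  · intro x
    show x ∈ A' ↔ 0 ≤ sus (n + 1) f2 (f x) 0
    rw [h0]; exact hfA' x
  · intro x
    show x ∈ D ↔ sus (n + 1) f2 (f x) 0 = 0 ∧ sus (n + 1) f2 (f x) 1 ≤ 0
    rw [h0, h1, ← hD2]
    constructor
    · intro hx
      have h2 : f x 0 = 0 := (hf0 x).2 (Or.inr hx)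
      refine ⟨h2, ?_⟩
      show G (F x) ∈ D
      rw [hGF x h2]; exact hx
    · rintro ⟨h2, h3⟩
      have h3 : G (F x) ∈ D := h3
      rwa [hGF x h2] at h3
  · intro x
    show x ∈ E₁ ↔ sus (n + 1) f2 (f x) 0 = 0 ∧ 0 ≤ sus (n + 1) f2 (f x) 1
    rw [h0, h1, ← hE2]
    constructor
    · intro hx
      have h2 : f x 0 = 0 := (hf0 x).2 (Or.inl hx)
      refine ⟨h2, ?_⟩
      show G (F x) ∈ E₁
      rw [hGF x h2]; exact hx
    · rintro ⟨h2, h3⟩
      have h3 : G (F x) ∈ E₁ := h3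
      rwa [hGF x h2] at h3

end Pool.Agent.Work.MP_552024_lc.PLS
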