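import Pool.Agent.Work.MP_552024_lc.PLS.S4X

set_option autoImplicit false

/-! The special points of a generic sphere. -/

namespace Pool.Agent.Work.MP_552024_lc.PLS

namespace ANH

/-- Adding a positive multiple of a vector of the closed cone does not change the signs. -/
theorem sign_add {p q t : ℚ} (ht : 0 ≤ t) (h : q = 0 ∨ SignType.sign q = SignType.sign p) :
    SignType.sign (p + t * q) = SignType.sign p := by
  rcases h with h | h
  · rw [h, mul_zero, add_zero]
  · rcases lt_trichotomy p 0 with hp | hp | hp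
    · rw [sign_neg hp] at h
      have hq : q < 0 := sign_eq_neg_one_iff.mp h
      rw [sign_neg hp, sign_neg]
      nlinarith [mul_nonneg ht (neg_nonneg.mpr hq.le)]
    · rw [hp, sign_zero] at h
      have hq : q = 0 := sign_eq_zero_iff.mp h
      rw [hp, hq]
      simp
    · rw [sign_pos hp] at h
      have hq : 0 < q := sign_eq_one_iff.mp h
      rw [sign_pos hp, sign_pos]
      nlinarith [mul_nonneg ht hq.le]

/-- A vanishing positive combination with a nonzero value has values of both signs. -/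
theorem both {E : Type} [AddCommGroup E] [Module ℚ E] (g : E →ₗ[ℚ] ℚ) (s : Finset E) (c : E → ℚ)
    (hc : ∀ r ∈ s, 0 < c r) (h0 : g (∑ r ∈ s, c r • r) = 0) (hn : ∃ r ∈ s, g r ≠ 0) :
    ∃ r ∈ s, g r < 0 := by
  by_contra hcon
  push Not at hcon
  obtain ⟨r, hr, hgr⟩ := hn
  rw [map_sum] at h0
  have h1 := (Finset.sum_eq_zero_iff_of_nonneg (fun i hi => by
    rw [map_smul, smul_eq_mul]
    exact mul_nonneg (hc i hi).le (hcon i hi))).mp h0 r hr
  rw [map_smul, smul_eq_mul] at h1
  rcases mul_eq_zero.mp h1 with h | h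
  · exact absurd h (hc r hr).ne'
  · exact hgr h

end ANH

theorem I_NH (hRD : St_RD) : St_NH := by
  classical
  intro E _ _ _ T B u v w hdim hsph hbdd hfin hspn hcla hind hgen hwT hw
  have huw : 0 < u w := hbdd w hwT hw.1
  refine ⟨hdim, hsph, hbdd, hwT, hw.1, at_finite hfin w, fun b hb => hb.2,
    fun y hy => hw.2 y (fun a ha haw => hy a ⟨ha, haw⟩), tg_clA hfin hcla, ?_, hind⟩
  intro x hx hxw
  by_cases halt : ∀ y ∈ face (At B w) x, lev u v w y = 0 → ∃ c : ℚ, y = c • w
  · exact Or.inr halt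
  left
  push Not at halt
  obtain ⟨y, hy, hgy, hyw⟩ := halt
  obtain ⟨ε1, hε1, H1⟩ := small_signs hfin w x
  obtain ⟨ε2, hε2, H2⟩ := small_signs hfin w y
  obtain ⟨ε3, hε3, H3⟩ := hx
  set s : ℚ := min ε1 (min ε2 ε3) with hs
  have hs0 : 0 < s := lt_min hε1 (lt_min hε2 hε3)
  have hs1 : s ≤ ε1 := min_le_left _ _
  have hs2 : s ≤ ε2 := (min_le_right _ _).trans (min_le_left _ _)
  have hs3 : s ≤ ε3 := (min_le_right _ _).trans (min_le_right _ _)
  have hzf : w + s • y ∈ face B (w + s • x) := by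
    intro b hb
    by_cases hbw : b w = 0
    · rcases hy b ⟨hb, hbw⟩ with h | h
      · left
        rw [map_add, map_smul, hbw, h, smul_zero, add_zero]
      · right
        rw [(H2 s hs0 hs2 b hb).2 hbw, (H1 s hs0 hs1 b hb).2 hbw]
        exact h
    · right
      rw [(H2 s hs0 hs2 b hb).1 hbw, (H1 s hs0 hs1 b hb).1 hbw]
  have hxT : w + s • x ∈ T := H3 s hs0 hs3
  have hzT : w + s • y ∈ T := hcla _ hxT hzf
  obtain ⟨S, c, hS, hsum⟩ := hRD E B hfin hspn (w + s • y)
  have hgw : lev u v w w = 0 := by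
    simp only [lev, LinearMap.sub_apply, LinearMap.smul_apply, smul_eq_mul]
    ring
  have hgz : lev u v w (w + s • y) = 0 := by
    rw [map_add, map_smul, hgw, hgy, smul_zero, add_zero]
  have hrT : ∀ r ∈ S, r ∈ T := fun r hr => hcla _ hzT (hS r hr).2.1
  have hne : ∃ r ∈ S, lev u v w r ≠ 0 := by
    by_contra hcon
    push Not at hcon
    have hray : ∀ r ∈ S, ∃ k : ℚ, r = k • w := by
      intro r hr
      have h1 := hcon r hr
      simp only [lev, LinearMap.sub_apply, LinearMap.smul_apply, smul_eq_mul] at h1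
      obtain ⟨k, _, hk⟩ := hgen w r hw (hS r hr).1 huw (hbdd r (hrT r hr) (hS r hr).1.1)
        (by linarith)
      exact ⟨k, hk⟩
    have hmul : ∃ k : ℚ, w + s • y = k • w := by
      rw [hsum]
      clear hsum
      have : ∀ S' : Finset E, S' ⊆ S → ∃ k : ℚ, ∑ r ∈ S', c r • r = k • w := by
        intro S' hS'
        induction S' using Finset.induction_on with
        | empty => exact ⟨0, by simp⟩
        | insert a S'' ha ih =>
          obtain ⟨k, hk⟩ := ih ((Finset.subset_insert a S'').trans hS')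
          obtain ⟨k', hk'⟩ := hray a (hS' (Finset.mem_insert_self a S''))
          refine ⟨c a * k' + k, ?_⟩
          rw [Finset.sum_insert ha, hk, add_smul, mul_smul, ← hk']
      exact this S (Finset.Subset.refl S)
    obtain ⟨k, hk⟩ := hmul
    apply hyw ((k - 1) / s)
    have h1 : s • y = (k - 1) • w := by
      rw [sub_smul, one_smul, ← hk]
      abel
    rw [div_eq_inv_mul, mul_smul, ← h1, smul_smul, inv_mul_cancel₀ hs0.ne', one_smul]
  have hneg : ∃ r ∈ S, lev u v w r < 0 :=
    ANH.both (lev u v w) S c (fun r hr => (hS r hr).2.2) (by rw [← hsum]; exact hgz) hne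
  have hpos : ∃ r ∈ S, 0 < lev u v w r := by
    obtain ⟨r, hr, hr0⟩ := ANH.both (-lev u v w) S c (fun r hr => (hS r hr).2.2)
      (by rw [← hsum, LinearMap.neg_apply, hgz, neg_zero])
      (by
        obtain ⟨r, hr, hr0⟩ := hne
        exact ⟨r, hr, by rw [LinearMap.neg_apply]; exact neg_ne_zero.mpr hr0⟩)
    exact ⟨r, hr, by rw [LinearMap.neg_apply] at hr0; linarith⟩
  have key : ∀ r ∈ S, ∀ t : ℚ, 0 ≤ t → SameSign (At B w) (x + t • r) x := by
    intro r hr t ht a ha
    have h1 : r ∈ face B (w + s • x) := face_trans (hS r hr).2.1 hzf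
    rw [map_add, map_smul, smul_eq_mul]
    apply ANH.sign_add ht
    rcases h1 a ha.1 with h | h
    · exact Or.inl h
    · right
      rw [h, (H1 s hs0 hs1 a ha.1).2 ha.2]
  obtain ⟨r2, hr2, hg2⟩ := hneg
  obtain ⟨r1, hr1, hg1⟩ := hpos
  refine ⟨x + ((|lev u v w x| + 1) / (-lev u v w r2)) • r2,
    x + ((|lev u v w x| + 1) / (lev u v w r1)) • r1,
    key r2 hr2 _ (div_nonneg (by positivity) (by linarith)),
    key r1 hr1 _ (div_nonneg (by positivity) hg1.le), ?_, ?_⟩
  · rw [map_add, map_smul, smul_eq_mul]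
    have h1 : (|lev u v w x| + 1) / (-lev u v w r2) * lev u v w r2 = -(|lev u v w x| + 1) := by
      rw [div_neg, neg_mul, div_mul_cancel₀ _ hg2.ne]
    rw [h1]
    have := le_abs_self (lev u v w x)
    linarith
  · rw [map_add, map_smul, smul_eq_mul]
    have h1 : (|lev u v w x| + 1) / (lev u v w r1) * lev u v w r1 = |lev u v w x| + 1 :=
      div_mul_cancel₀ _ hg1.ne'
    rw [h1]
    have := neg_abs_le (lev u v w x)
    linarith

end Pool.Agent.Work.MP_552024_lc.PLS
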