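import Pool.Agent.Work.MP_552024_lc.PLS.S4L

set_option autoImplicit false

namespace Pool.Agent.Work.MP_552024_lc.PLS

namespace ANeg

variable {E : Type} [AddCommGroup E] [Module ℚ E]

/-- The negated levels. -/
def nL (L : Set ℚ) : Set ℚ := (fun l => -l) '' L

theorem mem_nL {L : Set ℚ} {l : ℚ} : l ∈ nL L ↔ -l ∈ L := by
  constructor
  · rintro ⟨m, hm, rfl⟩
    simpa using hm
  · intro h
    exact ⟨-l, h, neg_neg l⟩

theorem FF_neg (L : Set ℚ) (u v : E →ₗ[ℚ] ℚ) : FF (nL L) u (-v) = FF L u v := by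
  ext x
  constructor
  · rintro ⟨l, hl, h⟩
    refine ⟨-l, mem_nL.1 hl, ?_⟩
    rw [LinearMap.neg_apply] at h
    linarith
  · rintro ⟨l, hl, h⟩
    refine ⟨-l, mem_nL.2 (by rwa [neg_neg]), ?_⟩
    rw [LinearMap.neg_apply]
    linarith

theorem Hl_neg (u v : E →ₗ[ℚ] ℚ) (t : ℚ) : Hl u (-v) (-t) = Hl u v t := by
  ext x
  show (-v) x = -t * u x ↔ v x = t * u x
  rw [LinearMap.neg_apply]
  constructor <;> intro h <;> linarith

theorem PP_neg {S : Set E} {l : E →ₗ[ℚ] ℚ} (h : PP S l) : PP S (-l) := by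
  have e : {x : E | (-l) x = 0} = {x | l x = 0} := by
    ext x
    show (-l) x = 0 ↔ l x = 0
    rw [LinearMap.neg_apply, neg_eq_zero]
  intro M hM
  rw [e]
  exact h M hM

theorem bsd_neg (u h : E →ₗ[ℚ] ℚ) (C : Set E) : bsd u (-h) C = bsd u h C := by
  unfold bsd
  simp only [LinearMap.neg_apply, neg_eq_zero]

theorem sub_neg' (u v : E →ₗ[ℚ] ℚ) (t : ℚ) : -v - (-t) • u = -(v - t • u) := by
  rw [neg_smul, neg_sub]
  abel

theorem Up_neg (u v : E →ₗ[ℚ] ℚ) (F M : Set E) (t : ℚ) :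
    Up u (-v) F M (-t) = Dn u v F M t := by
  unfold Up Dn
  rw [sub_neg', bsd_neg, Hl_neg]
  congr 2
  ext x
  show (-v) x ≤ -t * u x ↔ t * u x ≤ v x
  rw [LinearMap.neg_apply]
  constructor <;> intro h <;> linarith

theorem Dn_neg (u v : E →ₗ[ℚ] ℚ) (F M : Set E) (t : ℚ) :
    Dn u (-v) F M (-t) = Up u v F M t := by
  unfold Up Dn
  rw [sub_neg', bsd_neg, Hl_neg]
  congr 2
  ext x
  show -t * u x ≤ (-v) x ↔ v x ≤ t * u x
  rw [LinearMap.neg_apply]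
  constructor <;> intro h <;> linarith

theorem Pc_neg (u v : E →ₗ[ℚ] ℚ) (L : Set ℚ) (m : ℚ) (p : Set E × ℚ) :
    Pc u (-v) (nL L) (-m) (p.1, -p.2) = Pc u v L m p := by
  unfold Pc
  simp only [FF_neg, Up_neg, Dn_neg]
  ext x
  constructor
  · rintro (⟨h1, h2⟩ | ⟨h1, h2⟩)
    · exact Or.inr ⟨neg_lt_neg_iff.1 h1, h2⟩
    · exact Or.inl ⟨neg_lt_neg_iff.1 h1, h2⟩
  · rintro (⟨h1, h2⟩ | ⟨h1, h2⟩)
    · exact Or.inr ⟨neg_lt_neg_iff.2 h1, h2⟩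
    · exact Or.inl ⟨neg_lt_neg_iff.2 h1, h2⟩

theorem Adj_neg {L : Set ℚ} {l c : ℚ} (h : Adj L l c) : Adj (nL L) (-c) (-l) := by
  obtain ⟨h1, h2, h3, h4⟩ := h
  refine ⟨mem_nL.2 (by rwa [neg_neg]), mem_nL.2 (by rwa [neg_neg]), neg_lt_neg h3, ?_⟩
  intro m hm
  rcases h4 (-m) (mem_nL.1 hm) with h5 | h5
  · right; linarith
  · left; linarith

theorem Gr_neg (u v : E →ₗ[ℚ] ℚ) (l c : ℚ) : Gr u (-v) (-c) (-l) = Gr u v l c := by
  ext x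
  show (-c * u x < (-v) x ∧ (-v) x < -l * u x) ↔ (l * u x < v x ∧ v x < c * u x)
  rw [LinearMap.neg_apply]
  constructor
  · rintro ⟨h1, h2⟩
    exact ⟨by linarith, by linarith⟩
  · rintro ⟨h1, h2⟩
    exact ⟨by linarith, by linarith⟩

theorem AnnH_neg {T : Set E} {u v : E →ₗ[ℚ] ℚ} {L : Set ℚ} {M : Set E} {l c : ℚ}
    (h : AnnH T u v L M l c) : AnnH T u (-v) (nL L) M (-c) (-l) := by
  refine ⟨?_, Adj_neg h.adj, ?_⟩
  · rw [FF_neg]; exact h.comp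
  · rw [FF_neg, Gr_neg]; exact h.gr

theorem LvH_neg {T : Set E} {u v : E →ₗ[ℚ] ℚ} {B : Set (E →ₗ[ℚ] ℚ)} {L : Set ℚ}
    (h : LvH T u v B L) : LvH T u (-v) B (nL L) where
  dim := h.dim
  sph := h.sph
  bdd := h.bdd
  fin := h.fin
  spn := h.spn
  ne := h.ne
  cla := h.cla
  lam := h.lam.image _
  ray := by
    intro r hr hu
    obtain ⟨l, hl, h1⟩ := h.ray r hr hu
    refine ⟨-l, mem_nL.2 (by rwa [neg_neg]), ?_⟩
    rw [LinearMap.neg_apply, h1]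
    ring
  ind := by
    intro t ht
    apply h.ind (-t)
    rw [neg_smul, ← ht, neg_neg]

end ANeg

open ANeg

theorem I_Neg : St_Neg := by
  intro E _ _ _ T₀ u v B L m T W hL hC
  refine ⟨nL L, (fun p : Set E × ℚ => (p.1, -p.2)) '' W, LvH_neg hL, ?_, ?_⟩
  · refine ⟨hC.sph, hC.bdd, mem_nL.2 (by rw [neg_neg]; exact hC.mem), hC.fin.image _,
      ?_, ?_, ?_, ?_, ?_⟩
    · rintro _ ⟨p, hp, rfl⟩
      rcases hC.hW p hp with ⟨c, h1, h2, h3⟩ | ⟨l, h1, h2, h3⟩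
      · exact Or.inr ⟨-c, AnnH_neg h1, neg_lt_neg h3, neg_lt_neg h2⟩
      · exact Or.inl ⟨-l, AnnH_neg h1, neg_lt_neg h3, neg_lt_neg h2⟩
    · intro x
      rw [Hl_neg, hC.cov x]
      constructor
      · rintro ⟨p, hp, hx⟩
        exact ⟨_, ⟨p, hp, rfl⟩, by rw [Pc_neg]; exact hx⟩
      · rintro ⟨_, ⟨p, hp, rfl⟩, hx⟩
        rw [Pc_neg] at hx
        exact ⟨p, hp, hx⟩
    · rintro _ ⟨p, hp, rfl⟩ _ ⟨q, hq, rfl⟩ hpq x hx
      rw [Pc_neg] at hx ⊢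
      exact hC.dis p hp q hq (fun h => hpq (by rw [h])) x hx
    · intro x hx hxm hx0
      rw [Hl_neg] at hxm
      rw [sub_neg']
      exact PP_neg (hC.pp x hx hxm hx0)
    · obtain ⟨x, hx, hxm, hx0⟩ := hC.meet
      exact ⟨x, hx, by rw [Hl_neg]; exact hxm, hx0⟩
  · apply Set.ncard_image_of_injective
    rintro ⟨a, b⟩ ⟨c, d⟩ h
    simp only [Prod.mk.injEq, neg_inj] at h
    rw [h.1, h.2]

end Pool.Agent.Work.MP_552024_lc.PLS
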