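import Pool.Agent.Work.MP_552024_lc.PLS.S4L

set_option autoImplicit false

/-! Item Nest: two disjoint circles in a plane. -/

namespace Pool.Agent.Work.MP_552024_lc.PLS

namespace ANest

variable {E : Type} [AddCommGroup E] [Module ℚ E]

/-- A connected set with the apex removed lies in one of the two sides. -/
lemma side {X D O C : Set E} (hX : Conn (X \ {0})) (hD : Pol D) (hO : Pol O)
    (hcov : ∀ x ∈ X, x ∈ D ∪ O) (hint : D ∩ O = C) (hdis : ∀ x ∈ X, x ∈ C → x = 0) :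
    X ⊆ D ∨ X ⊆ O := by
  have h := hX.2 D O hD hO (fun x hx => hcov x hx.1) (fun x hx h1 h2 =>
    hx.2 (hdis x hx.1 (hint ▸ ⟨h1, h2⟩)))
  rcases h with h | h
  · left
    intro x hx
    by_cases h0 : x = 0
    · rw [h0]; exact hD.1
    · exact h ⟨hx, h0⟩
  · right
    intro x hx
    by_cases h0 : x = 0
    · rw [h0]; exact hO.1
    · exact h ⟨hx, h0⟩

/-- The nested case. -/
lemma nested {h u : E →ₗ[ℚ] ℚ} {C C' D O D' O' : Set E} {y : E} (hy : y ≠ 0) (hhy : h y = 0)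
    (huy : u y ≤ 0) (hD : Pol D) (_hO : Pol O) (hD' : Pol D') (hO' : Pol O')
    (hun : D ∪ O = {x | h x = 0}) (hun' : D' ∪ O' = {x | h x = 0}) (hint : D ∩ O = C)
    (hint' : D' ∩ O' = C') (hcO : Conn (O \ {0})) (hb' : Bdd u D')
    (hlast : ∀ x, h x = 0 → u x ≤ 0 → x ∈ O) (hCC : C ∩ C' ⊆ {0}) (hs : C' ⊆ D) :
    C' ⊆ D ∧ D' ⊆ D ∧ C ∩ D' ⊆ {0} := by
  have hOC' : ∀ x ∈ O, x ∈ C' → x = 0 := fun x hx hx' =>
    hCC ⟨hint ▸ ⟨hs hx', hx⟩, hx'⟩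
  have hcov : ∀ x ∈ O, x ∈ D' ∪ O' := fun x hx => by
    rw [hun', ← hun]; exact Or.inr hx
  have hOO' : O ⊆ O' := by
    rcases side hcO hD' hO' hcov hint' hOC' with h1 | h1
    · exact absurd (hb' y (h1 (hlast y hhy huy)) hy) (not_lt.mpr huy)
    · exact h1
  have hmiss : ∀ x ∈ O, x ∈ D' → x = 0 := fun x hx hx' =>
    hOC' x hx (hint' ▸ ⟨hx', hOO' hx⟩)
  refine ⟨hs, fun x hx => ?_, fun x hx => ?_⟩
  · have h1 : x ∈ D ∪ O := by
      rw [hun, ← hun']; exact Or.inl hx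
    rcases h1 with h1 | h1
    · exact h1
    · rw [hmiss x h1 hx]; exact hD.1
  · have h1 : x ∈ D ∩ O := hint ▸ hx.1
    exact hmiss x h1.2 hx.2

lemma exists_neg [FiniteDimensional ℚ E] (h u : E →ₗ[ℚ] ℚ) (hd : Module.finrank ℚ E = 4) :
    ∃ y : E, y ≠ 0 ∧ h y = 0 ∧ u y ≤ 0 := by
  have h1 : (h.prod u).ker ≠ ⊥ := by
    intro h0
    have h2 := LinearMap.finrank_le_finrank_of_injective (LinearMap.ker_eq_bot.mp h0)
    rw [hd, Module.finrank_prod, Module.finrank_self] at h2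
    omega
  obtain ⟨y, hy, hy0⟩ := Submodule.exists_mem_ne_zero_of_ne_bot h1
  have h3 : (h y, u y) = (0, 0) := hy
  rw [Prod.mk.injEq] at h3
  exact ⟨y, hy0, h3.1, h3.2.le⟩

end ANest

open ANest in
theorem I_Nest (hBsd : St_Bsd) (hSchA2 : St_SchA2) (hConnS : St_ConnS) (hConnB0 : St_ConnB0) :
    St_Nest := by
  intro E _ _ _ C C' h u hd hh hC hC' hhC hhC' hb hb' hCC
  obtain ⟨a1, a2, a3, a4, a5, a6⟩ := hBsd 1 hSchA2 E C h u hd hh hC hhC hb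
  obtain ⟨b1, b2, b3, b4, b5, b6⟩ := hBsd 1 hSchA2 E C' h u hd hh hC' hhC' hb'
  obtain ⟨y, hy, hhy, huy⟩ := exists_neg h u hd
  have cC := hConnS 0 E C hC
  have cC' := hConnS 0 E C' hC'
  have cD := hConnB0 2 E _ _ a3
  have cO := hConnB0 2 E _ _ a4
  have cO' := hConnB0 2 E _ _ b4
  have hCC' : C' ∩ C ⊆ {0} := by rwa [Set.inter_comm]
  rcases side cC' a3.1 a4.1 (fun x hx => by rw [a1]; exact hhC' x hx) a2
    (fun x hx hx' => hCC ⟨hx', hx⟩) with h1 | h1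
  · exact Or.inl (nested hy hhy huy a3.1 a4.1 b3.1 b4.1 a1 b1 a2 b2 cO b5 a6 hCC h1)
  rcases side cC b3.1 b4.1 (fun x hx => by rw [b1]; exact hhC x hx) b2
    (fun x hx hx' => hCC ⟨hx, hx'⟩) with h2 | h2
  · exact Or.inr (Or.inl (nested hy hhy huy b3.1 b4.1 a3.1 a4.1 b1 a1 b2 a2 cO' a5 b6 hCC' h2))
  right; right
  have hDC' : ∀ x ∈ bsd u h C, x ∈ C' → x = 0 := fun x hx hx' =>
    hCC ⟨a2 ▸ ⟨hx, h1 hx'⟩, hx'⟩
  rcases side cD b3.1 b4.1 (fun x hx => by rw [b1, ← a1]; exact Or.inl hx) b2 hDC' with h3 | h3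
  · exfalso
    obtain ⟨z, hz, hz0⟩ := cC.1
    have hzD : z ∈ bsd u h C ∩ osd u h C := by rw [a2]; exact hz
    have hz' : z ∈ C' := by rw [← b2]; exact ⟨h3 hzD.1, h2 hz⟩
    exact hz0 (hCC ⟨hz, hz'⟩)
  · intro x hx
    exact hDC' x hx.1 (b2 ▸ ⟨hx.2, h3 hx.1⟩)

end Pool.Agent.Work.MP_552024_lc.PLS
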