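import Pool.Agent.Work.MP_552024_lc.PLS.S4

/-!
# Item NoChm: spheres of smaller dimension contain no chamber
-/

set_option autoImplicit false

namespace Pool.Agent.Work.MP_552024_lc.PLS

theorem I_NoChm : St_NoChm := by
  intro n E _ _ _ T A hdim hSph hA hinv x hx hxT
  obtain ⟨D₁, D₂, U, hT, -, hB1, hB2⟩ := hSph
  have hcov : CovLE T (n + 1) := by
    rw [hT]
    exact hB1.covLE.union hB2.covLE
  obtain ⟨F, hF, hd, hc⟩ := hcov
  obtain ⟨q, hq1, hq2⟩ := exists_generic' F hF (by
    intro W hW hW2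
    have h1 := hd W hW
    rw [hW2, finrank_top, hdim] at h1
    omega) (B := (fun a : E →ₗ[ℚ] ℚ => if 0 < a x then a else -a) '' A) (hA.image _) x (by
    rintro _ ⟨a, ha, rfl⟩
    simp only
    split_ifs with h
    · exact h
    · have h1 : a x < 0 := lt_of_le_of_ne (not_lt.1 h) (hx a ha)
      rw [LinearMap.neg_apply]
      linarith)
  have hsame : SameSign A x q := by
    intro a ha
    have h1 := hq1 _ ⟨a, ha, rfl⟩
    simp only at h1
    split_ifs at h1 with h
    · rw [sign_pos h, sign_pos h1]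
    · have h2 : a x < 0 := lt_of_le_of_ne (not_lt.1 h) (hx a ha)
      rw [LinearMap.neg_apply] at h1
      rw [sign_neg h2, sign_neg (by linarith)]
  obtain ⟨W, hW, hqW⟩ := hc q (hinv x q hsame hxT)
  exact hq2 W hW hqW

end Pool.Agent.Work.MP_552024_lc.PLS
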