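import Pool.Agent.Work.MP_552024_lc.PLS.S4

set_option autoImplicit false

/-! A bounded sphere of codimension one is not contained in a hyperplane. -/

namespace Pool.Agent.Work.MP_552024_lc.PLS

theorem I_NotFlat (hNC : St_NC) (hSphTr : St_SphTr) : St_NotFlat := by
  intro n E _ _ _ T a u hd ha hT haT hB
  have hfr : Module.finrank ℚ (LinearMap.ker a) = n + 1 := by
    have h1 := Module.Dual.finrank_ker_add_one_of_ne_zero ha
    omega
  generalize hH : LinearMap.ker a = H at hfr
  have hmem : ∀ x, x ∈ H ↔ a x = 0 := fun x => by rw [← hH, LinearMap.mem_ker]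
  have hTp : Pol T := by
    obtain ⟨D₁, D₂, U, rfl, _, h1, h2⟩ := hT
    exact h1.1.union h2.1
  obtain ⟨π, hπ⟩ := LinearMap.exists_leftInverse_of_injective H.subtype
    (LinearMap.ker_eq_bot.2 Subtype.val_injective)
  have hπ' : ∀ x : H, π x.1 = x := fun x => LinearMap.congr_fun hπ x
  have hπ2 : ∀ x ∈ T, (π x).1 = x := by
    intro x hx
    have : π x = ⟨x, (hmem x).2 (haT x hx)⟩ := hπ' ⟨x, (hmem x).2 (haT x hx)⟩
    rw [this]
  have hpol : Pol {y : H | y ∈ (Set.univ : Set H) ∧ H.subtype y ∈ T} :=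
    (plOn_linear H.subtype Set.univ).pol_preimage pol_univ hTp
  have hS : Sph (n + 1) {y : H | y ∈ (Set.univ : Set H) ∧ H.subtype y ∈ T} := by
    refine hSphTr n E H T _ (fun x => π x) (fun y => y.1) hT hpol
      ⟨plOn_linear π _, plOn_linear H.subtype _, ?_, ?_, ?_, ?_⟩
    · intro x hx
      refine ⟨trivial, ?_⟩
      show (π x).1 ∈ T
      rw [hπ2 x hx]; exact hx
    · rintro y ⟨_, hy⟩; exact hy
    · intro x hx; exact hπ2 x hx
    · intro y _; exact hπ' y
  have huniv := hNC n H _ hfr hS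
  have : Nontrivial H := Module.nontrivial_of_finrank_pos (R := ℚ) (by omega)
  obtain ⟨y, hy⟩ := exists_ne (0 : H)
  have h1 : ∀ z : H, z.1 ∈ T := by
    intro z
    have : z ∈ {y : H | y ∈ (Set.univ : Set H) ∧ H.subtype y ∈ T} := by rw [huniv]; trivial
    exact this.2
  have hy' : y.1 ≠ 0 := fun h => hy (Subtype.ext h)
  have h2 := hB y.1 (h1 y) hy'
  have h3 := hB (-y).1 (h1 (-y)) (by
    show -y.1 ≠ 0
    exact neg_ne_zero.2 hy')
  have h4 : ((-y : H) : E) = -(y : E) := rfl
  rw [h4, map_neg] at h3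
  linarith

end Pool.Agent.Work.MP_552024_lc.PLS
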