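import Pool.Agent.Work.MP_552024_lc.PLS.S4L

set_option autoImplicit false

namespace Pool.Agent.Work.MP_552024_lc.PLS

namespace AP1a

/-- A number above the first finite set and below the second one. -/
theorem choose_level (S₁ S₂ : Set ℚ) (h1 : S₁.Finite) (h2 : S₂.Finite) (l c : ℚ) (hlc : l < c)
    (a1 : ∀ x ∈ S₁, x < c) (a2 : ∀ x ∈ S₂, l < x) (a3 : ∀ x ∈ S₁, ∀ y ∈ S₂, x < y) :
    ∃ t : ℚ, l < t ∧ t < c ∧ (∀ x ∈ S₁, x < t) ∧ (∀ y ∈ S₂, t < y) := by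
  obtain ⟨a, ha, hmax⟩ := Set.exists_max_image (insert l S₁) id (h1.insert l)
    ⟨l, Set.mem_insert l S₁⟩
  obtain ⟨b, hb, hmin⟩ := Set.exists_min_image (insert c S₂) id (h2.insert c)
    ⟨c, Set.mem_insert c S₂⟩
  have hab : a < b := by
    rcases Set.mem_insert_iff.1 ha with rfl | ha
    · rcases Set.mem_insert_iff.1 hb with rfl | hb
      · exact hlc
      · exact a2 b hb
    · rcases Set.mem_insert_iff.1 hb with rfl | hb
      · exact a1 a ha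
      · exact a3 a ha b hb
  refine ⟨(a + b) / 2, ?_, ?_, ?_, ?_⟩
  · have : l ≤ a := hmax l (Set.mem_insert l S₁)
    linarith
  · have : b ≤ c := hmin c (Set.mem_insert c S₂)
    linarith
  · intro x hx
    have : x ≤ a := hmax x (Set.mem_insert_of_mem _ hx)
    linarith
  · intro y hy
    have : b ≤ y := hmin y (Set.mem_insert_of_mem _ hy)
    linarith

/-- Two adjacent pairs whose open intervals share a point are equal. -/
theorem adj_unique {L : Set ℚ} {l c l' c' t : ℚ} (h : Adj L l c) (h' : Adj L l' c') (h1 : l < t)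
    (h2 : t < c) (h3 : l' < t) (h4 : t < c') : l' = l ∧ c' = c := by
  obtain ⟨hl, hc, _, hm⟩ := h
  obtain ⟨hl', hc', _, hm'⟩ := h'
  constructor
  · rcases hm l' hl' with a | a
    · rcases hm' l hl with b | b
      · linarith
      · linarith
    · linarith
  · rcases hm c' hc' with a | a
    · linarith
    · rcases hm' c hc with b | b
      · linarith
      · linarith

end AP1a

theorem I_P1a (hLvGap : St_LvGap) (hLvRay : St_LvRay) (hLvCir : St_LvCir) (hBsd : St_Bsd)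
    (hNest : St_Nest) (hSchA2 : St_SchA2) (hConnS : St_ConnS) (hLvPc : St_LvPc) : St_P1a := by
  intro E _ _ _ T₀ u v B L T Fs Us Ds H Cl hne
  obtain ⟨M0, hM0⟩ := hne
  obtain ⟨l, c, A0⟩ := hLvGap E T₀ u v B L M0 H (Cl.hF M0 hM0)
  have hadj := A0.adj
  obtain ⟨t, hlt, htc, hU, hD⟩ := AP1a.choose_level
    (Prod.snd '' {p | p ∈ Us ∧ l < p.2 ∧ p.2 < c}) (Prod.snd '' {p | p ∈ Ds ∧ l < p.2 ∧ p.2 < c})
    ((Cl.finU.subset fun p hp => hp.1).image _) ((Cl.finD.subset fun p hp => hp.1).image _)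
    l c hadj.2.2.1 (by rintro _ ⟨p, hp, rfl⟩; exact hp.2.2) (by rintro _ ⟨p, hp, rfl⟩; exact hp.2.1)
    (by
      rintro _ ⟨p, hp, rfl⟩ _ ⟨q, hq, rfl⟩
      exact Cl.ord p hp.1 q hq.1 l c hadj hp.2.1 hp.2.2 hq.2.1 hq.2.2)
  have hU' : ∀ p ∈ Us, l < p.2 → p.2 < c → p.2 < t := fun p hp a b =>
    hU p.2 ⟨p, ⟨hp, a, b⟩, rfl⟩
  have hD' : ∀ p ∈ Ds, l < p.2 → p.2 < c → t < p.2 := fun p hp a b =>
    hD p.2 ⟨p, ⟨hp, a, b⟩, rfl⟩
  -- the level form
  set h : E →ₗ[ℚ] ℚ := v - t • u with hh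
  have hlev : ∀ x : E, h x = 0 ↔ v x = t * u x := by
    intro x
    rw [hh, LinearMap.sub_apply, LinearMap.smul_apply, smul_eq_mul, sub_eq_zero]
  have hh0 : h ≠ 0 := fun e => H.ind t (sub_eq_zero.1 e)
  have htL : t ∉ L := fun htL => by
    rcases hadj.2.2.2 t htL with a | a <;> linarith
  have hT₀pol : Pol T₀ := by
    obtain ⟨D₁, D₂, U, e, _, h1, h2⟩ := H.sph
    rw [e]; exact h1.1.union h2.1
  have hTpol : Pol T := by
    obtain ⟨D₁, D₂, U, e, _, h1, h2⟩ := Cl.sph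
    rw [e]; exact h1.1.union h2.1
  -- points of level t
  have hFF : ∀ x : E, v x = t * u x → 0 < u x → x ∉ FF L u v := by
    rintro x hx hu ⟨l', hl', e⟩
    rw [hx] at e
    have : t = l' := mul_right_cancel₀ hu.ne' e
    exact htL (this ▸ hl')
  -- the family of the annuli
  set Fs' : Set (Set E) := {M | M ∈ Fs ∧ AnnH T₀ u v L M l c} with hFs'
  have hfin : Fs'.Finite := Cl.finF.subset fun M hM => hM.1
  obtain ⟨M, hM, hmin⟩ := hfin.exists_minimalFor (fun M => bsd u h (M ∩ Hl u v t)) Fs'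
    ⟨M0, hM0, A0⟩
  -- the circles
  have hC : ∀ M ∈ Fs', Sph 2 (M ∩ Hl u v t) ∧ (∀ x ∈ M ∩ Hl u v t, h x = 0) ∧
      Bdd u (M ∩ Hl u v t) ∧ M ∩ Hl u v t ⊆ T := by
    intro M hM
    have hMT : M ⊆ T₀ := (Cl.hF M hM.1).sub
    refine ⟨hLvCir E T₀ u v B L M l c t H hM.2 hlt htc, fun x hx => (hlev x).2 hx.2,
      fun x hx hx0 => H.bdd x (hMT hx.1) hx0, fun x hx => ?_⟩
    by_cases hx0 : x = 0
    · rw [hx0]; exact hTpol.1
    · have hu := H.bdd x (hMT hx.1) hx0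
      exact ((Cl.cov x).2 (Or.inl ⟨M, hM.1, hx.1, hFF x hx.2 hu⟩)).1
  refine ⟨M, l, c, t, hM.1, hM.2, hlt, htc, hU', hD', ?_⟩
  obtain ⟨hS, hz, hb, hCT⟩ := hC M hM
  obtain ⟨_, b2, _, _, _, _⟩ := hBsd 1 hSchA2 E (M ∩ Hl u v t) h u H.dim hh0 hS hz hb
  have hCb : M ∩ Hl u v t ⊆ bsd u h (M ∩ Hl u v t) := by
    intro x hx
    rw [← b2] at hx
    exact hx.1
  apply subset_antisymm
  swap
  · exact fun x hx => ⟨hCb hx, hCT hx⟩
  rintro z ⟨hzb, hzT⟩
  by_contra hzC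
  have hzl : v z = t * u z := (hlev z).1 hzb.1
  have hz0 : z ≠ 0 := by
    rintro rfl
    exact hzC ⟨(Cl.hF M hM.1).pol.1, by show v 0 = t * u 0; simp⟩
  have hu : 0 < u z := Cl.bdd z hzT hz0
  rcases (Cl.cov z).1 ⟨hzT, hFF z hzl hu⟩ with ⟨M', hM', hzM'⟩ | ⟨p, hp, hzp⟩ | ⟨p, hp, hzp⟩
  · obtain ⟨l', c', A'⟩ := hLvGap E T₀ u v B L M' H (Cl.hF M' hM')
    have hg := A'.gr hzM'
    have g1 : l' < t := by
      have : l' * u z < t * u z := by rw [← hzl]; exact hg.1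
      exact lt_of_mul_lt_mul_right this hu.le
    have g2 : t < c' := by
      have : t * u z < c' * u z := by rw [← hzl]; exact hg.2
      exact lt_of_mul_lt_mul_right this hu.le
    obtain ⟨rfl, rfl⟩ := AP1a.adj_unique hadj A'.adj hlt htc g1 g2
    have hM'F : M' ∈ Fs' := ⟨hM', A'⟩
    obtain ⟨hS', hz', hb', hCT'⟩ := hC M' hM'F
    have hzC' : z ∈ M' ∩ Hl u v t := ⟨hzM'.1, hzl⟩
    obtain ⟨_, b2', _, _, _, _⟩ := hBsd 1 hSchA2 E (M' ∩ Hl u v t) h u H.dim hh0 hS' hz' hb'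
    have hCb' : M' ∩ Hl u v t ⊆ bsd u h (M' ∩ Hl u v t) := by
      intro x hx
      rw [← b2'] at hx
      exact hx.1
    have hdis : (M ∩ Hl u v t) ∩ (M' ∩ Hl u v t) ⊆ {0} := by
      rintro x ⟨hx, hx'⟩
      by_contra hx0
      have hux := hb x hx hx0
      have hxF := hFF x hx.2 hux
      have hpolF : Pol (FF L u v) := (hLvRay E T₀ u v B L H).2.2.2.2.2.2
      have e : M = M' := (Cl.hF M hM.1).eq_of_meet hT₀pol hpolF (Cl.hF M' hM')
        ⟨x, ⟨hx.1, hxF⟩, hx'.1, hxF⟩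
      exact hzC (e ▸ hzC')
    rcases hNest E (M ∩ Hl u v t) (M' ∩ Hl u v t) h u H.dim hh0 hS hS' hz hz' hb hb' hdis with
      ⟨_, n2, n3⟩ | ⟨_, _, n3⟩ | n3
    · have hle := hmin hM'F n2
      obtain ⟨y, hy, hy0⟩ := (hConnS 0 E (M ∩ Hl u v t) hS).1
      exact hy0 (n3 ⟨hy, hle (hCb hy)⟩)
    · exact hz0 (n3 ⟨hzC', hzb⟩)
    · exact hz0 (n3 ⟨hzb, hCb' hzC'⟩)
  · obtain ⟨l', c', A', p1, p2⟩ := Cl.hU p hp
    obtain ⟨_, _, q1, _⟩ := hLvPc E T₀ u v B L p.1 l' c' p.2 H A' p1 p2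
    have hg := q1 hzp
    have g1 : l' < t := by
      have : l' * u z < t * u z := by rw [← hzl]; exact hg.1
      exact lt_of_mul_lt_mul_right this hu.le
    have g2 : t ≤ p.2 := by
      have : t * u z ≤ p.2 * u z := by rw [← hzl]; exact hg.2
      exact le_of_mul_le_mul_right this hu
    obtain ⟨rfl, rfl⟩ := AP1a.adj_unique hadj A'.adj hlt htc g1 (lt_of_le_of_lt g2 p2)
    exact absurd (hU' p hp p1 p2) (not_lt.2 g2)
  · obtain ⟨l', c', A', p1, p2⟩ := Cl.hD p hp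
    obtain ⟨_, _, _, q1, _⟩ := hLvPc E T₀ u v B L p.1 l' c' p.2 H A' p1 p2
    have hg := q1 hzp
    have g1 : t < c' := by
      have : t * u z < c' * u z := by rw [← hzl]; exact hg.2
      exact lt_of_mul_lt_mul_right this hu.le
    have g2 : p.2 ≤ t := by
      have : p.2 * u z ≤ t * u z := by rw [← hzl]; exact hg.1
      exact le_of_mul_le_mul_right this hu
    obtain ⟨rfl, rfl⟩ := AP1a.adj_unique hadj A'.adj hlt htc (lt_of_lt_of_le p1 g2) g1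
    exact absurd (hD' p hp p1 p2) (not_lt.2 g2)

end Pool.Agent.Work.MP_552024_lc.PLS
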