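import Pool.Agent.Work.MP_552024_lc.PLS.S4L

set_option autoImplicit false

namespace Pool.Agent.Work.MP_552024_lc.PLS

namespace AP1b

theorem sph_pol {E : Type*} [AddCommGroup E] [Module ℚ E] {k : ℕ} {T : Set E} (h : Sph k T) :
    Pol T := by
  obtain ⟨D₁, D₂, U, rfl, _, h1, h2⟩ := h
  exact h1.1.union h2.1

theorem pol_le {E : Type*} [AddCommGroup E] [Module ℚ E] (p q : E →ₗ[ℚ] ℚ) (t : ℚ) :
    Pol {x | p x ≤ t * q x} := by
  have h : {x | p x ≤ t * q x} = {x | 0 ≤ (t • q - p) x} := by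
    ext x
    show p x ≤ t * q x ↔ 0 ≤ (t • q - p) x
    rw [LinearMap.sub_apply, LinearMap.smul_apply, smul_eq_mul, sub_nonneg]
  rw [h]
  exact pol_halfspace _

theorem pol_ge {E : Type*} [AddCommGroup E] [Module ℚ E] (p q : E →ₗ[ℚ] ℚ) (t : ℚ) :
    Pol {x | t * q x ≤ p x} := by
  have h : {x | t * q x ≤ p x} = {x | 0 ≤ (p - t • q) x} := by
    ext x
    show t * q x ≤ p x ↔ 0 ≤ (p - t • q) x
    rw [LinearMap.sub_apply, LinearMap.smul_apply, smul_eq_mul, sub_nonneg]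
  rw [h]
  exact pol_halfspace _

theorem pol_Hl {E : Type*} [AddCommGroup E] [Module ℚ E] (u v : E →ₗ[ℚ] ℚ) (t : ℚ) :
    Pol (Hl u v t) := by
  have h : Hl u v t = {x | (v - t • u) x = 0} := by
    ext x
    show v x = t * u x ↔ (v - t • u) x = 0
    rw [LinearMap.sub_apply, LinearMap.smul_apply, smul_eq_mul, sub_eq_zero]
  rw [h]
  exact pol_hyperplane _

theorem bsd_Hl {E : Type*} [AddCommGroup E] [Module ℚ E] {u v : E →ₗ[ℚ] ℚ} {t : ℚ} {C : Set E}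
    {x : E} (h : x ∈ bsd u (v - t • u) C) : x ∈ Hl u v t := by
  have h1 : (v - t • u) x = 0 := h.1
  rw [LinearMap.sub_apply, LinearMap.smul_apply, smul_eq_mul, sub_eq_zero] at h1
  exact h1

/-- The two halves of the annulus do not both lie in the same piece. -/
theorem core (hLvRay : St_LvRay) (hConnB : St_ConnB) (E : Type) [AddCommGroup E] [Module ℚ E]
    [FiniteDimensional ℚ E] (T₀ : Set E) (u v : E →ₗ[ℚ] ℚ) (B : Set (E →ₗ[ℚ] ℚ)) (L : Set ℚ)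
    (T : Set E) (Fs : Set (Set E)) (Us Ds : Set (Set E × ℚ)) (M : Set E) (l c t : ℚ)
    (E₁ E₂ : Set E) (hLv : LvH T₀ u v B L) (hCl : Cl1 T₀ u v L T Fs Us Ds) (hM : M ∈ Fs)
    (hA : AnnH T₀ u v L M l c) (hlt : l < t) (htc : t < c)
    (hUs : ∀ p ∈ Us, l < p.2 → p.2 < c → p.2 < t) (hDs : ∀ p ∈ Ds, l < p.2 → p.2 < c → t < p.2)
    (uni : E₁ ∪ E₂ = T) (int : E₁ ∩ E₂ = M ∩ Hl u v t) (ball2 : Ball 3 E₂ (M ∩ Hl u v t))
    (hP : (M \ FF L u v) ∩ {x | t * u x < v x} ⊆ E₁)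
    (hQ : (M \ FF L u v) ∩ {x | v x < t * u x} ⊆ E₁)
    (hPn : ((M \ FF L u v) ∩ {x | t * u x < v x}).Nonempty)
    (hQn : ((M \ FF L u v) ∩ {x | v x < t * u x}).Nonempty) : False := by
  obtain ⟨-, -, -, -, -, -, hFp⟩ := hLvRay E T₀ u v B L hLv
  have hT₀ : Pol T₀ := sph_pol hLv.sph
  have hMc := hCl.hF M hM
  -- a point of the annulus at the level `t`
  obtain ⟨z, hzM, hzF, hzt⟩ : ∃ z, z ∈ M ∧ z ∉ FF L u v ∧ v z = t * u z := by
    by_contra hcon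
    push Not at hcon
    rcases hMc.conn.2 {x | t * u x ≤ v x} {x | v x ≤ t * u x} (pol_ge _ _ _) (pol_le _ _ _)
      (fun x _ => (le_total (t * u x) (v x)).imp id id)
      (fun x hx h1 h2 => hcon x hx.1 hx.2 (le_antisymm h2 h1)) with h | h
    · obtain ⟨x, hx, hx'⟩ := hQn
      have h1 : t * u x ≤ v x := h hx
      have h2 : v x < t * u x := hx'
      exact absurd h1 (not_le.2 h2)
    · obtain ⟨x, hx, hx'⟩ := hPn
      have h1 : v x ≤ t * u x := h hx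
      have h2 : t * u x < v x := hx'
      exact absurd h1 (not_le.2 h2)
  have hz0 : z ≠ 0 := by
    rintro rfl
    exact hzF hFp.1
  have huz : 0 < u z := hLv.bdd z (hMc.sub hzM) hz0
  -- `E₂ \ C` is disjoint from the annulus
  have hdis : ∀ x ∈ E₂ \ (M ∩ Hl u v t), x ∉ M \ FF L u v := by
    rintro x ⟨hx, hxC⟩ hxM
    rcases lt_trichotomy (v x) (t * u x) with h | h | h
    · exact hxC (int ▸ ⟨hQ ⟨hxM, h⟩, hx⟩)
    · exact hxC ⟨hxM.1, h⟩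
    · exact hxC (int ▸ ⟨hP ⟨hxM, h⟩, hx⟩)
  let S : Set (Set E) := {FF L u v} ∪ (Fs \ {M}) ∪
    ((fun p : Set E × ℚ => p.1 ∩ {x | v x ≤ p.2 * u x}) '' Us) ∪
    ((fun p : Set E × ℚ => Hl u v p.2) '' (Us ∪ Ds)) ∪
    ((fun p : Set E × ℚ => p.1 ∩ {x | p.2 * u x ≤ v x}) '' Ds)
  have hSf : S.Finite :=
    ((((Set.finite_singleton _).union (hCl.finF.sdiff)).union (hCl.finU.image _)).union
      ((hCl.finU.union hCl.finD).image _)).union (hCl.finD.image _)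
  have hSp : ∀ s ∈ S, Pol s := by
    rintro s ((((h | h) | ⟨p, hp, rfl⟩) | ⟨p, hp, rfl⟩) | ⟨p, hp, rfl⟩)
    · rw [Set.mem_singleton_iff.1 h]
      exact hFp
    · exact (hCl.hF s h.1).pol
    · obtain ⟨l', c', h1, _⟩ := hCl.hU p hp
      exact h1.comp.pol.inter (pol_le _ _ _)
    · exact pol_Hl _ _ _
    · obtain ⟨l', c', h1, _⟩ := hCl.hD p hp
      exact h1.comp.pol.inter (pol_ge _ _ _)
  have hsub : E₂ \ (M ∩ Hl u v t) ⊆ {0} ∪ ⋃₀ S := by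
    intro x hx
    right
    by_cases hxF : x ∈ FF L u v
    · exact ⟨_, Or.inl (Or.inl (Or.inl (Or.inl rfl))), hxF⟩
    · have hxT : x ∈ T := uni ▸ Or.inr hx.1
      rcases (hCl.cov x).1 ⟨hxT, hxF⟩ with ⟨M', hM', hxM'⟩ | ⟨p, hp, hxp⟩ | ⟨p, hp, hxp⟩
      · refine ⟨M', Or.inl (Or.inl (Or.inl (Or.inr ⟨hM', ?_⟩))), hxM'.1⟩
        rintro rfl
        exact hdis x hx hxM'
      · rcases hxp with hxp | hxp
        · exact ⟨_, Or.inl (Or.inl (Or.inr ⟨p, hp, rfl⟩)), hxp.1.1, hxp.2⟩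
        · exact ⟨_, Or.inl (Or.inr ⟨p, Or.inl hp, rfl⟩), bsd_Hl hxp.1⟩
      · rcases hxp with hxp | hxp
        · exact ⟨_, Or.inr ⟨p, hp, rfl⟩, hxp.1.1, hxp.2⟩
        · exact ⟨_, Or.inl (Or.inr ⟨p, Or.inr hp, rfl⟩), bsd_Hl hxp.1⟩
  have hz2 : z ∈ E₂ := by
    have h1 : z ∈ E₁ ∩ E₂ := int ▸ ⟨hzM, hzt⟩
    exact h1.2
  have hzcl : z ∈ cl (E₂ \ (M ∩ Hl u v t)) := by
    rw [(hConnB 2 E E₂ (M ∩ Hl u v t) ball2).2.1]
    exact hz2
  have hzS := (pol_sUnion hSf hSp).cl_subset hsub hzcl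
  rcases hzS with h | ⟨s, ((((h | h) | ⟨p, hp, rfl⟩) | ⟨p, hp, rfl⟩) | ⟨p, hp, rfl⟩), hzs⟩
  · exact hz0 h
  · rw [Set.mem_singleton_iff.1 h] at hzs
    exact hzF hzs
  · exact h.2 (Comp.eq_of_meet hT₀ hFp (hCl.hF s h.1) hMc ⟨z, ⟨hzs, hzF⟩, hzM, hzF⟩)
  · exact hCl.dFU M hM p hp z ⟨hzM, hzF⟩ (Or.inl ⟨⟨hzs.1, hzF⟩, hzs.2⟩)
  · have h1 : v z = p.2 * u z := hzs
    have h2 : p.2 = t := by
      have h3 : (p.2 - t) * u z = 0 := by rw [sub_mul, ← h1, ← hzt, sub_self]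
      rcases mul_eq_zero.1 h3 with h4 | h4
      · linarith
      · exact absurd h4 huz.ne'
    rcases hp with hp | hp
    · have := hUs p hp (by rw [h2]; exact hlt) (by rw [h2]; exact htc)
      linarith
    · have := hDs p hp (by rw [h2]; exact hlt) (by rw [h2]; exact htc)
      linarith
  · exact hCl.dFD M hM p hp z ⟨hzM, hzF⟩ (Or.inl ⟨⟨hzs.1, hzF⟩, hzs.2⟩)

end AP1b

open AP1b in
theorem I_P1b (hLvPc : St_LvPc) (hLvRay : St_LvRay) (hConnB : St_ConnB) : St_P1b := by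
  intro E _ _ _ T₀ u v B L T Fs Us Ds M l c t D E₁ E₂ hLv hCl hM hA hlt htc hUs hDs hC
  obtain ⟨-, -, -, -, -, -, hcP, hcQ⟩ := hLvPc E T₀ u v B L M l c t hLv hA hlt htc
  have hMT : M \ FF L u v ⊆ E₁ ∪ E₂ := by
    intro x hx
    rw [hC.uni]
    exact ((hCl.cov x).2 (Or.inl ⟨M, hM, hx⟩)).1
  have hside : ∀ X : Set E, Conn X → X ⊆ M \ FF L u v → (∀ x ∈ X, x ∉ Hl u v t) →
      X ⊆ E₁ ∨ X ⊆ E₂ := by
    intro X hX hXM hXt
    refine hX.2 E₁ E₂ hC.ball1.1 hC.ball2.1 (hXM.trans hMT) (fun x hx h1 h2 => ?_)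
    have h3 : x ∈ M ∩ Hl u v t := hC.int ▸ ⟨h1, h2⟩
    exact hXt x hx h3.2
  have hP := hside _ hcP (fun x hx => hx.1) (fun x hx h => (ne_of_gt hx.2) h)
  have hQ := hside _ hcQ (fun x hx => hx.1) (fun x hx h => (ne_of_lt hx.2) h)
  rcases hP with hP | hP <;> rcases hQ with hQ | hQ
  · exact (core hLvRay hConnB E T₀ u v B L T Fs Us Ds M l c t E₁ E₂ hLv hCl hM hA hlt htc hUs hDs
      hC.uni hC.int hC.ball2 hP hQ hcP.1 hcQ.1).elim
  · exact Or.inl ⟨hP, hQ⟩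
  · exact Or.inr ⟨hP, hQ⟩
  · exact (core hLvRay hConnB E T₀ u v B L T Fs Us Ds M l c t E₂ E₁ hLv hCl hM hA hlt htc hUs hDs
      (by rw [Set.union_comm]; exact hC.uni) (by rw [Set.inter_comm]; exact hC.int) hC.ball1
      hP hQ hcP.1 hcQ.1).elim

end Pool.Agent.Work.MP_552024_lc.PLS
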