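import Pool.Agent.Work.MP_552024_lc.PLS.S4L

set_option autoImplicit false

/-! Item P1c: the cut pieces are in the class. -/

namespace Pool.Agent.Work.MP_552024_lc.PLS

namespace AP1c

section

variable {E : Type} [AddCommGroup E] [Module ℚ E]

/-- A connected piece off the cut lies on one side. -/
theorem side {T C X E₁ E₂ : Set E} (h1 : Pol E₁) (h2 : Pol E₂) (hu : E₁ ∪ E₂ = T)
    (hi : E₁ ∩ E₂ = C) (hX : Conn X) (hXT : X ⊆ T) (hXC : ∀ x ∈ X, x ∉ C) :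
    X ⊆ E₁ ∨ X ⊆ E₂ := by
  apply hX.2 E₁ E₂ h1 h2 (by rw [hu]; exact hXT)
  intro x hx h3 h4
  exact hXC x hx (by rw [← hi]; exact ⟨h3, h4⟩)

theorem sph_pol {k : ℕ} {T : Set E} (h : Sph k T) : Pol T := by
  obtain ⟨D₁, D₂, U, rfl, -, h1, h2⟩ := h
  exact h1.1.union h2.1

variable [FiniteDimensional ℚ E]

/-- One of the two pieces of the cut, capped, is in the class. -/
theorem half {T₀ : Set E} {u v : E →ₗ[ℚ] ℚ} {B : Set (E →ₗ[ℚ] ℚ)} {L : Set ℚ} {T : Set E}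
    {Fs : Set (Set E)} {Us Ds : Set (Set E × ℚ)} {M : Set E} {l c t : ℚ} {D K K' : Set E}
    (hLvPc : St_LvPc) (hLv : LvH T₀ u v B L) (hF : Pol (FF L u v))
    (hCl : Cl1 T₀ u v L T Fs Us Ds) (hM : M ∈ Fs) (hAnn : AnnH T₀ u v L M l c) (hlt : l < t)
    (htc : t < c) (hK : Pol K) (hK' : Pol K') (hD : Pol D) (hu : K ∪ K' = T)
    (hi : K ∩ K' = M ∩ Hl u v t) (hDT : D ∩ T = M ∩ Hl u v t) (hDl : ∀ x ∈ D, v x = t * u x)
    (hDb : Bdd u D) (hsph : Sph 3 (K ∪ D))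
    (AU AD : Set (Set E × ℚ)) (hAU : ∀ p ∈ AU, p = (M, t)) (hAD : ∀ p ∈ AD, p = (M, t))
    (xU : ∀ p ∈ AU, ∀ x ∈ Up u v (FF L u v) p.1 p.2,
      (x ∈ M \ FF L u v ∧ x ∈ K) ∨ (x ∈ D ∧ x ≠ 0))
    (xD : ∀ p ∈ AD, ∀ x ∈ Dn u v (FF L u v) p.1 p.2,
      (x ∈ M \ FF L u v ∧ x ∈ K) ∨ (x ∈ D ∧ x ≠ 0))
    (xC : ∀ x, ((x ∈ M \ FF L u v ∧ x ∈ K) ∨ (x ∈ D ∧ x ≠ 0)) →
      (∃ p ∈ AU, x ∈ Up u v (FF L u v) p.1 p.2) ∨ (∃ p ∈ AD, x ∈ Dn u v (FF L u v) p.1 p.2))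
    (hor : AU = ∅ ∨ AD = ∅) (ordU : ∀ p ∈ Us, l < p.2 → p.2 < c → p.2 < t)
    (ordD : ∀ p ∈ Ds, l < p.2 → p.2 < c → t < p.2) :
    ∃ Fs' Us' Ds', Cl1 T₀ u v L (K ∪ D) Fs' Us' Ds' ∧ Fs'.ncard < Fs.ncard := by
  have hT0 : Pol T₀ := sph_pol hLv.sph
  have hKT : K ⊆ T := by rw [← hu]; exact Set.subset_union_left
  -- points of the disc are off the special levels
  have fL : ∀ x ∈ D, x ≠ 0 → x ∉ FF L u v := by
    rintro x hx hx0 ⟨l', hl', e⟩
    have h1 := hDl x hx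
    have h2 := hDb x hx hx0
    have h3 : l' = t := by
      rw [h1] at e
      exact (mul_right_cancel₀ h2.ne' e).symm
    rcases hAnn.adj.2.2.2 l' hl' with h4 | h4 <;> linarith
  have f0 : (0 : E) ∈ FF L u v := hF.1
  have pF : ∀ M' ∈ Fs, ∀ x ∈ M' \ FF L u v, x ∈ T \ FF L u v := fun M' hM' x hx =>
    (hCl.cov x).2 (Or.inl ⟨M', hM', hx⟩)
  have pU : ∀ p ∈ Us, ∀ x ∈ Up u v (FF L u v) p.1 p.2, x ∈ T \ FF L u v := fun p hp x hx =>
    (hCl.cov x).2 (Or.inr (Or.inl ⟨p, hp, hx⟩))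
  have pD : ∀ p ∈ Ds, ∀ x ∈ Dn u v (FF L u v) p.1 p.2, x ∈ T \ FF L u v := fun p hp x hx =>
    (hCl.cov x).2 (Or.inr (Or.inr ⟨p, hp, hx⟩))
  have cF : ∀ M' ∈ Fs, M' ≠ M → ∀ x ∈ M' \ FF L u v, x ∉ M \ FF L u v := by
    intro M' hM' hne x hx hx'
    exact hne ((hCl.hF M' hM').eq_of_meet hT0 hF (hCl.hF M hM) ⟨x, hx, hx'⟩)
  have sF : ∀ M' ∈ Fs, M' ≠ M → M' \ FF L u v ⊆ K ∨ M' \ FF L u v ⊆ K' := by
    intro M' hM' hne
    refine side hK hK' hu hi (hCl.hF M' hM').conn (fun x hx => (pF M' hM' x hx).1) ?_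
    intro x hx hxC
    exact cF M' hM' hne x hx ⟨hxC.1, hx.2⟩
  have sU : ∀ p ∈ Us, Up u v (FF L u v) p.1 p.2 ⊆ K ∨ Up u v (FF L u v) p.1 p.2 ⊆ K' := by
    intro p hp
    obtain ⟨l', c', h1, h2, h3⟩ := hCl.hU p hp
    refine side hK hK' hu hi (hLvPc E T₀ u v B L p.1 l' c' p.2 hLv h1 h2 h3).1
      (fun x hx => (pU p hp x hx).1) ?_
    intro x hx hxC
    exact hCl.dFU M hM p hp x ⟨hxC.1, (pU p hp x hx).2⟩ hx
  have sD : ∀ p ∈ Ds, Dn u v (FF L u v) p.1 p.2 ⊆ K ∨ Dn u v (FF L u v) p.1 p.2 ⊆ K' := by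
    intro p hp
    obtain ⟨l', c', h1, h2, h3⟩ := hCl.hD p hp
    refine side hK hK' hu hi (hLvPc E T₀ u v B L p.1 l' c' p.2 hLv h1 h2 h3).2.1
      (fun x hx => (pD p hp x hx).1) ?_
    intro x hx hxC
    exact hCl.dFD M hM p hp x ⟨hxC.1, (pD p hp x hx).2⟩ hx
  -- points of the new pieces
  have newM : ∀ x, (x ∈ M \ FF L u v ∧ x ∈ K) ∨ (x ∈ D ∧ x ≠ 0) → x ∈ T →
      x ∈ M \ FF L u v := by
    rintro x (h1 | ⟨h1, h2⟩) hxT
    · exact h1.1
    · have h3 : x ∈ M ∩ Hl u v t := by rw [← hDT]; exact ⟨h1, hxT⟩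
      exact ⟨h3.1, fL x h1 h2⟩
  have newK : ∀ x, (x ∈ M \ FF L u v ∧ x ∈ K) ∨ (x ∈ D ∧ x ≠ 0) →
      x ∈ (K ∪ D) \ FF L u v := by
    rintro x (h1 | ⟨h1, h2⟩)
    · exact ⟨Or.inl h1.2, h1.1.2⟩
    · exact ⟨Or.inr h1, fL x h1 h2⟩
  -- levels of adjacent pairs
  have adjEq : ∀ l' c', Adj L l' c' → l' < t → t < c' → l' = l ∧ c' = c := by
    intro l' c' h1 h2 h3
    obtain ⟨a1, a2, a3, a4⟩ := h1
    obtain ⟨b1, b2, b3, b4⟩ := hAnn.adj
    constructor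
    · rcases a4 l b1 with h4 | h4
      · rcases b4 l' a1 with h5 | h5
        · exact le_antisymm h5 h4
        · linarith
      · linarith
    · rcases a4 c b2 with h4 | h4
      · linarith
      · rcases b4 c' a2 with h5 | h5
        · linarith
        · exact le_antisymm h4 h5
  refine ⟨{M' | M' ∈ Fs ∧ M' ≠ M ∧ M' \ FF L u v ⊆ K},
    {p | (p ∈ Us ∧ Up u v (FF L u v) p.1 p.2 ⊆ K) ∨ p ∈ AU},
    {p | (p ∈ Ds ∧ Dn u v (FF L u v) p.1 p.2 ⊆ K) ∨ p ∈ AD}, ?_, ?_⟩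
  · have hfU : AU.Finite := (Set.finite_singleton (M, t)).subset hAU
    have hfD : AD.Finite := (Set.finite_singleton (M, t)).subset hAD
    refine ⟨hsph, ?_, hCl.finF.subset (fun _ h => h.1), ?_, ?_, fun M' h => hCl.hF M' h.1, ?_, ?_,
      ?_, ?_, ?_, ?_, ?_, ?_, ?_⟩
    · rintro x (hx | hx) hx0
      · exact hCl.bdd x (hKT hx) hx0
      · exact hDb x hx hx0
    · refine (hCl.finU.union hfU).subset ?_
      rintro p (hp | hp)
      · exact Or.inl hp.1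
      · exact Or.inr hp
    · refine (hCl.finD.union hfD).subset ?_
      rintro p (hp | hp)
      · exact Or.inl hp.1
      · exact Or.inr hp
    · rintro p (hp | hp)
      · exact hCl.hU p hp.1
      · rw [hAU p hp]
        exact ⟨l, c, hAnn, hlt, htc⟩
    · rintro p (hp | hp)
      · exact hCl.hD p hp.1
      · rw [hAD p hp]
        exact ⟨l, c, hAnn, hlt, htc⟩
    · -- cov
      intro x
      constructor
      · rintro ⟨hx, hxF⟩
        have hx0 : x ≠ 0 := fun h => hxF (h ▸ f0)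
        have viaX : ((x ∈ M \ FF L u v ∧ x ∈ K) ∨ (x ∈ D ∧ x ≠ 0)) →
            (∃ M' ∈ {M' | M' ∈ Fs ∧ M' ≠ M ∧ M' \ FF L u v ⊆ K}, x ∈ M' \ FF L u v) ∨
            (∃ p ∈ {p | (p ∈ Us ∧ Up u v (FF L u v) p.1 p.2 ⊆ K) ∨ p ∈ AU},
              x ∈ Up u v (FF L u v) p.1 p.2) ∨
            (∃ p ∈ {p | (p ∈ Ds ∧ Dn u v (FF L u v) p.1 p.2 ⊆ K) ∨ p ∈ AD},
              x ∈ Dn u v (FF L u v) p.1 p.2) := by
          intro h
          rcases xC x h with ⟨p, hp, hxp⟩ | ⟨p, hp, hxp⟩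
          · exact Or.inr (Or.inl ⟨p, Or.inr hp, hxp⟩)
          · exact Or.inr (Or.inr ⟨p, Or.inr hp, hxp⟩)
        rcases hx with hx | hx
        · have hnot : x ∈ K' → x ∈ M ∩ Hl u v t := fun h => by
            rw [← hi]
            exact ⟨hx, h⟩
          rcases (hCl.cov x).1 ⟨hKT hx, hxF⟩ with ⟨M', hM', hxM'⟩ | ⟨p, hp, hxp⟩ | ⟨p, hp, hxp⟩
          · by_cases hMM : M' = M
            · rw [hMM] at hxM'
              exact viaX (Or.inl ⟨hxM', hx⟩)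
            · rcases sF M' hM' hMM with h1 | h1
              · exact Or.inl ⟨M', ⟨hM', hMM, h1⟩, hxM'⟩
              · exact absurd ⟨(hnot (h1 hxM')).1, hxF⟩ (cF M' hM' hMM x hxM')
          · rcases sU p hp with h1 | h1
            · exact Or.inr (Or.inl ⟨p, Or.inl ⟨hp, h1⟩, hxp⟩)
            · exact absurd hxp (hCl.dFU M hM p hp x ⟨(hnot (h1 hxp)).1, hxF⟩)
          · rcases sD p hp with h1 | h1
            · exact Or.inr (Or.inr ⟨p, Or.inl ⟨hp, h1⟩, hxp⟩)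
            · exact absurd hxp (hCl.dFD M hM p hp x ⟨(hnot (h1 hxp)).1, hxF⟩)
        · exact viaX (Or.inr ⟨hx, hx0⟩)
      · rintro (⟨M', hM', hxM'⟩ | ⟨p, hp, hxp⟩ | ⟨p, hp, hxp⟩)
        · exact ⟨Or.inl (hM'.2.2 hxM'), hxM'.2⟩
        · rcases hp with hp | hp
          · exact ⟨Or.inl (hp.2 hxp), (pU p hp.1 x hxp).2⟩
          · exact newK x (xU p hp x hxp)
        · rcases hp with hp | hp
          · exact ⟨Or.inl (hp.2 hxp), (pD p hp.1 x hxp).2⟩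
          · exact newK x (xD p hp x hxp)
    · -- dFU
      rintro M' hM' p (hp | hp) x hx hxp
      · exact hCl.dFU M' hM'.1 p hp.1 x hx hxp
      · exact cF M' hM'.1 hM'.2.1 x hx (newM x (xU p hp x hxp) (pF M' hM'.1 x hx).1)
    · -- dFD
      rintro M' hM' p (hp | hp) x hx hxp
      · exact hCl.dFD M' hM'.1 p hp.1 x hx hxp
      · exact cF M' hM'.1 hM'.2.1 x hx (newM x (xD p hp x hxp) (pF M' hM'.1 x hx).1)
    · -- dUU
      rintro p (hp | hp) q (hq | hq) hne x hx hxq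
      · exact hCl.dUU p hp.1 q hq.1 hne x hx hxq
      · exact hCl.dFU M hM p hp.1 x (newM x (xU q hq x hxq) (pU p hp.1 x hx).1) hx
      · exact hCl.dFU M hM q hq.1 x (newM x (xU p hp x hx) (pU q hq.1 x hxq).1) hxq
      · exact hne ((hAU p hp).trans (hAU q hq).symm)
    · -- dDD
      rintro p (hp | hp) q (hq | hq) hne x hx hxq
      · exact hCl.dDD p hp.1 q hq.1 hne x hx hxq
      · exact hCl.dFD M hM p hp.1 x (newM x (xD q hq x hxq) (pD p hp.1 x hx).1) hx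
      · exact hCl.dFD M hM q hq.1 x (newM x (xD p hp x hx) (pD q hq.1 x hxq).1) hxq
      · exact hne ((hAD p hp).trans (hAD q hq).symm)
    · -- ord
      rintro p (hp | hp) q (hq | hq) l' c' hadj h1 h2 h3 h4
      · exact hCl.ord p hp.1 q hq.1 l' c' hadj h1 h2 h3 h4
      · have hq' := hAD q hq
        rw [hq'] at h3 h4 ⊢
        obtain ⟨rfl, rfl⟩ := adjEq l' c' hadj h3 h4
        exact ordU p hp.1 h1 h2
      · have hp' := hAU p hp
        rw [hp'] at h1 h2 ⊢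
        obtain ⟨rfl, rfl⟩ := adjEq l' c' hadj h1 h2
        exact ordD q hq.1 h3 h4
      · rcases hor with h | h
        · rw [h] at hp
          exact absurd hp (Set.notMem_empty _)
        · rw [h] at hq
          exact absurd hq (Set.notMem_empty _)
    · -- pp
      intro x hx hxF hx0
      have hxD : x ∉ D := fun h => fL x h hx0 hxF
      have hxK : x ∈ K := hx.resolve_right hxD
      have hxK' : x ∉ K' := by
        intro h
        have h1 : x ∈ M ∩ Hl u v t := by rw [← hi]; exact ⟨hxK, h⟩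
        rw [← hDT] at h1
        exact hxD h1.1
      have e1 : Tg x (K ∪ D) = Tg x K := by
        rw [tg_union hK.con hD.con, tg_eq_empty hD hxD, Set.union_empty]
      have e2 : Tg x T = Tg x K := by
        rw [← hu, tg_union hK.con hK'.con, tg_eq_empty hK' hxK', Set.union_empty]
      rw [e1, ← e2]
      exact hCl.pp x (hKT hxK) hxF hx0
  · apply Set.ncard_lt_ncard _ hCl.finF
    rw [Set.ssubset_iff_of_subset (fun _ h => h.1)]
    exact ⟨M, hM, fun h => h.2.1 rfl⟩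

end

end AP1c

open AP1c in
theorem I_P1c (hLvPc : St_LvPc) (hCutT : St_CutT) (hLvRay : St_LvRay) (hBsd : St_Bsd)
    (hSchA2 : St_SchA2) : St_P1c := by
  intro E _ _ _ T₀ u v B L T Fs Us Ds M l c t E₁ E₂ hLv hCl hM hAnn hlt htc ordU ordD hcut hE1 hE2
  have hF : Pol (FF L u v) := (hLvRay E T₀ u v B L hLv).2.2.2.2.2.2
  obtain ⟨hs1, hs2, -, -, -⟩ := hCutT E T _ _ E₁ E₂ hLv.dim hcut
  have hCT : M ∩ Hl u v t ⊆ T := by
    rw [← hcut.dT]
    exact Set.inter_subset_right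
  have hlev : ∀ x, (v - t • u) x = 0 ↔ v x = t * u x := by
    intro x
    rw [LinearMap.sub_apply, LinearMap.smul_apply, smul_eq_mul, sub_eq_zero]
  have hne : v - t • u ≠ 0 := fun h => hLv.ind t (sub_eq_zero.1 h)
  obtain ⟨-, -, -, -, hDb, -⟩ := hBsd 1 hSchA2 E (M ∩ Hl u v t) (v - t • u) u hLv.dim hne
    hcut.sphC (fun x hx => (hlev x).2 hx.2) (fun x hx => hCl.bdd x (hCT hx))
  have hDl : ∀ x ∈ bsd u (v - t • u) (M ∩ Hl u v t), v x = t * u x := fun x hx =>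
    (hlev x).1 hx.1
  have hK1 : Pol E₁ := hcut.ball1.1
  have hK2 : Pol E₂ := hcut.ball2.1
  have hD : Pol (bsd u (v - t • u) (M ∩ Hl u v t)) := hcut.ballD.1
  have hC1 : ∀ x ∈ M ∩ Hl u v t, x ∈ E₁ ∧ x ∈ E₂ := by
    intro x hx
    rw [← hcut.int] at hx
    exact hx
  have hC2 : ∀ x ∈ E₁, x ∈ E₂ → v x = t * u x := by
    intro x h1 h2
    have h3 : x ∈ M ∩ Hl u v t := by rw [← hcut.int]; exact ⟨h1, h2⟩
    exact h3.2
  constructor
  · refine half hLvPc hLv hF hCl hM hAnn hlt htc hK1 hK2 hD hcut.uni hcut.int hcut.dT hDl hDb hs1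
      ∅ {(M, t)} (fun p hp => absurd hp (Set.notMem_empty _)) (fun p hp => hp)
      (fun p hp => absurd hp (Set.notMem_empty _)) ?_ ?_ (Or.inl rfl) ordU ordD
    · rintro p rfl x (⟨hx, hx'⟩ | ⟨hx, hx'⟩)
      · have hx' : t * u x ≤ v x := hx'
        left
        refine ⟨hx, ?_⟩
        rcases hx'.lt_or_eq with h1 | h1
        · exact hE1 ⟨hx, h1⟩
        · exact (hC1 x ⟨hx.1, h1.symm⟩).1
      · exact Or.inr ⟨hx, hx'⟩
    · rintro x (⟨hx, hx'⟩ | ⟨hx, hx'⟩)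
      · right
        refine ⟨(M, t), rfl, Or.inl ⟨hx, ?_⟩⟩
        show t * u x ≤ v x
        by_contra h1
        have h2 : v x < t * u x := not_le.1 h1
        have h3 := hC2 x hx' (hE2 ⟨hx, h2⟩)
        exact absurd h3 h2.ne
      · exact Or.inr ⟨(M, t), rfl, Or.inr ⟨hx, hx'⟩⟩
  · refine half hLvPc hLv hF hCl hM hAnn hlt htc hK2 hK1 hD (by rw [Set.union_comm]; exact hcut.uni)
      (by rw [Set.inter_comm]; exact hcut.int) hcut.dT hDl hDb hs2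
      {(M, t)} ∅ (fun p hp => hp) (fun p hp => absurd hp (Set.notMem_empty _)) ?_
      (fun p hp => absurd hp (Set.notMem_empty _)) ?_ (Or.inr rfl) ordU ordD
    · rintro p rfl x (⟨hx, hx'⟩ | ⟨hx, hx'⟩)
      · have hx' : v x ≤ t * u x := hx'
        left
        refine ⟨hx, ?_⟩
        rcases hx'.lt_or_eq with h1 | h1
        · exact hE2 ⟨hx, h1⟩
        · exact (hC1 x ⟨hx.1, h1⟩).2
      · exact Or.inr ⟨hx, hx'⟩
    · rintro x (⟨hx, hx'⟩ | ⟨hx, hx'⟩)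
      · left
        refine ⟨(M, t), rfl, Or.inl ⟨hx, ?_⟩⟩
        show v x ≤ t * u x
        by_contra h1
        have h2 : t * u x < v x := not_le.1 h1
        have h3 := hC2 x (hE1 ⟨hx, h2⟩) hx'
        exact absurd h3 h2.ne'
      · exact Or.inl ⟨(M, t), rfl, Or.inr ⟨hx, hx'⟩⟩

end Pool.Agent.Work.MP_552024_lc.PLS
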