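import Pool.Agent.Work.MP_552024_lc.PLS.S4L

set_option autoImplicit false

/-! Item P2: spheres around one level are standard. -/

namespace Pool.Agent.Work.MP_552024_lc.PLS

theorem I_P2 (hP2S : St_P2S) (hP2F1 : St_P2F1) (hP2F3 : St_P2F3) (hNeg : St_Neg)
    (hCutT : St_CutT) : St_P2 := by
  intro E _ _ _ T₀ u v B L m T W hL hC
  have key : ∀ (n : ℕ) (T : Set E) (W : Set (Set E × ℚ)), Cl2 T₀ u v L m T W →
      W.ncard = n → Std 4 T := by
    intro n
    induction n using Nat.strong_induction_on with
    | _ n ih =>
      intro T W hC hn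
      by_cases hb : ∃ D, Comp D (Hl u v m) (T ∩ Hl u v m) ∧ Bdd u D
      · obtain ⟨D, hD, hDb⟩ := hb
        obtain ⟨E₁, E₂, hcut, ⟨W₁, hW₁, hn₁⟩, ⟨W₂, hW₂, hn₂⟩⟩ :=
          hP2S E T₀ u v B L m T W D hL hC hD hDb
        have s1 : Std 4 (E₁ ∪ D) := ih W₁.ncard (by omega) _ W₁ hW₁ rfl
        have s2 : Std 4 (E₂ ∪ D) := ih W₂.ncard (by omega) _ W₂ hW₂ rfl
        exact (hCutT E T D (D ∩ T) E₁ E₂ hL.dim hcut).2.2.1 s1 s2
      · have hset : {x : E | (v - m • u) x = 0} = Hl u v m := by
          ext x
          simp only [Hl, Set.mem_setOf_eq, LinearMap.sub_apply, LinearMap.smul_apply,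
            smul_eq_mul]
          constructor
          · intro h; linarith
          · intro h; linarith
        obtain ⟨M, M', hs, hbM, hside, hsub, hconn⟩ := hP2F1 E T (v - m • u) u hL.dim hC.sph
          hC.bdd
          (by
            intro t ht
            apply hL.ind (t + m)
            rw [add_smul, ← ht]
            abel)
          (by
            intro D hD hDb
            rw [hset] at hD
            exact hb ⟨D, hD, hDb⟩)
        rw [hset] at hsub hconn
        rcases hside with hside | hside
        · refine hP2F3 E T₀ u v B L m T W M M' hL hC hs hbM ?_ hsub hconn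
          intro x hx
          have h1 := hside x hx
          simp only [LinearMap.sub_apply, LinearMap.smul_apply, smul_eq_mul] at h1
          linarith
        · obtain ⟨L', W', hL', hC', _⟩ := hNeg E T₀ u v B L m T W hL hC
          have hset' : Hl u (-v) (-m) = Hl u v m := by
            ext x
            simp only [Hl, Set.mem_setOf_eq, LinearMap.neg_apply, neg_mul, neg_inj]
          refine hP2F3 E T₀ u (-v) B L' (-m) T W' M M' hL' hC' hs hbM ?_ ?_ ?_
          · intro x hx
            have h1 := hside x hx
            simp only [LinearMap.sub_apply, LinearMap.smul_apply, smul_eq_mul] at h1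
            simp only [LinearMap.neg_apply]
            linarith
          · rw [hset']; exact hsub
          · rw [hset']; exact hconn
  exact key W.ncard T W hC rfl

end Pool.Agent.Work.MP_552024_lc.PLS
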