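import Pool.Agent.Work.MP_552024_lc.PLS.S4L

set_option autoImplicit false

namespace Pool.Agent.Work.MP_552024_lc.PLS

namespace AP2F1

variable {E : Type} [AddCommGroup E] [Module ℚ E]

theorem conn_seg (x y : E) : Conn {z | ∃ t : ℚ, 0 ≤ t ∧ t ≤ 1 ∧ z = x + t • (y - x)} := by
  apply conn_of_convex
  · exact ⟨x, 0, le_rfl, zero_le_one, by simp⟩
  · rintro _ ⟨a, ha0, ha1, rfl⟩ _ ⟨b, hb0, hb1, rfl⟩ t ht0 ht1
    refine ⟨a + t * (b - a), ?_, ?_, ?_⟩
    · nlinarith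
    · nlinarith
    · module

theorem conn_star {s : Set E} {x₀ : E} (h0 : x₀ ∈ s)
    (h : ∀ y ∈ s, ∀ t : ℚ, 0 ≤ t → t ≤ 1 → x₀ + t • (y - x₀) ∈ s) : Conn s := by
  refine ⟨⟨x₀, h0⟩, fun F₁ F₂ hF₁ hF₂ hcov hdis => ?_⟩
  have key : ∀ y ∈ s, (x₀ ∈ F₁ ∧ y ∈ F₁) ∨ (x₀ ∈ F₂ ∧ y ∈ F₂) := by
    intro y hy
    have hsub : {z | ∃ t : ℚ, 0 ≤ t ∧ t ≤ 1 ∧ z = x₀ + t • (y - x₀)} ⊆ s := by
      rintro _ ⟨t, a, b, rfl⟩
      exact h y hy t a b
    have m0 : x₀ ∈ {z | ∃ t : ℚ, 0 ≤ t ∧ t ≤ 1 ∧ z = x₀ + t • (y - x₀)} :=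
      ⟨0, le_rfl, zero_le_one, by simp⟩
    have m1 : y ∈ {z | ∃ t : ℚ, 0 ≤ t ∧ t ≤ 1 ∧ z = x₀ + t • (y - x₀)} :=
      ⟨1, zero_le_one, le_rfl, by module⟩
    rcases (conn_seg x₀ y).2 F₁ F₂ hF₁ hF₂ (hsub.trans hcov) (fun x hx => hdis x (hsub hx)) with
      h1 | h1
    · exact Or.inl ⟨h1 m0, h1 m1⟩
    · exact Or.inr ⟨h1 m0, h1 m1⟩
  by_cases hx : x₀ ∈ F₁
  · left
    intro y hy
    rcases key y hy with h1 | h1
    · exact h1.2
    · exact absurd h1.1 (hdis _ h0 hx)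
  · right
    intro y hy
    rcases key y hy with h1 | h1
    · exact absurd h1.1 hx
    · exact h1.2

end AP2F1

open AP2F1 in
theorem I_P2F1 (hJBS : St_JBS) (hSchA2 : St_SchA2) (hConnS : St_ConnS) : St_P2F1 := by
  intro E _ _ _ T h u hE hT hb hhu hD
  obtain ⟨N, N', ⟨n1, n2, n3, n4⟩, -⟩ := hJBS 1 hSchA2 E T hE hT
  have hTp : Pol T := n4 ▸ n1.pol.inter n2.pol
  -- a nonzero point of `T`
  obtain ⟨p, hpT, hp0⟩ := (hConnS 1 E T hT).1
  have hup : 0 < u p := hb p hpT (fun e => hp0 e)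
  -- the half space
  have hS : Conn ({x : E | u x ≤ 0} \ {0}) := by
    refine conn_star (x₀ := -p) ⟨?_, ?_⟩ ?_
    · simp only [Set.mem_ofPred_eq, map_neg]; linarith
    · intro e
      apply hp0
      have e' : -p = 0 := e
      exact neg_eq_zero.1 e'
    · rintro y ⟨hy, hy0⟩ t ht0 ht1
      have hy' : u y ≤ 0 := hy
      have e1 : u (-p + t • (y - -p)) = (1 - t) * (-u p) + t * u y := by
        simp only [map_add, map_smul, map_sub, map_neg, smul_eq_mul]; ring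
      rcases eq_or_lt_of_le ht1 with rfl | ht
      · have : (-p + (1 : ℚ) • (y - -p)) = y := by module
        rw [this]; exact ⟨hy, hy0⟩
      · have hneg : u (-p + t • (y - -p)) < 0 := by
          rw [e1]; nlinarith
        refine ⟨hneg.le, fun e => ?_⟩
        have e' : -p + t • (y - -p) = 0 := e
        rw [e', map_zero] at hneg
        exact lt_irrefl _ hneg
  have hST : ({x : E | u x ≤ 0} \ {0}) ⊆ Set.univ \ T := by
    rintro x ⟨hx, hx0⟩
    refine ⟨trivial, fun hxT => ?_⟩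
    have := hb x hxT (fun e => hx0 e)
    have hx' : u x ≤ 0 := hx
    linarith
  have hmain : ∀ M M' : Set E, Comp M Set.univ T → Comp M' Set.univ T → M ∪ M' = Set.univ →
      M ∩ M' = T → ({x : E | u x ≤ 0} \ {0}) ⊆ M' →
      ∃ M M' : Set E, Sides T M M' ∧ Bdd u M ∧
      ((∀ x ∈ M \ T, 0 < h x) ∨ (∀ x ∈ M \ T, h x < 0)) ∧
      {x | h x = 0} ⊆ M' ∧ Conn ({x | h x = 0} \ T) := by
    intro M M' m1 m2 m3 m4 hSM
    have hbM : Bdd u M := by
      intro x hx hx0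
      by_contra hc
      have : x ∈ M' := hSM ⟨not_lt.1 hc, hx0⟩
      have hxT : x ∈ T := m4 ▸ ⟨hx, this⟩
      exact hc (hb x hxT hx0)
    -- a point of the kernel with negative value of `u`
    have hh0 : h ≠ 0 := by
      have := hhu 0
      rwa [zero_smul] at this
    obtain ⟨e, he⟩ : ∃ e, h e ≠ 0 := by
      by_contra hc
      push Not at hc
      exact hh0 (LinearMap.ext hc)
    have hz : ∃ z, h z = 0 ∧ u z < 0 := by
      by_contra hc
      push Not at hc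
      have h1 : ∀ z, h z = 0 → u z = 0 := by
        intro z hz
        have a1 := hc z hz
        have a2 := hc (-z) (by rw [map_neg, hz, neg_zero])
        rw [map_neg] at a2
        linarith
      have h2 : ∀ x, u x * h e = h x * u e := by
        intro x
        have := h1 (h e • x - h x • e) (by
          simp only [map_sub, map_smul, smul_eq_mul]; ring)
        simp only [map_sub, map_smul, smul_eq_mul] at this
        linarith
      have h3 : u e ≠ 0 := by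
        intro h0
        have := h2 p
        rw [h0, mul_zero] at this
        rcases mul_eq_zero.1 this with h4 | h4
        · linarith
        · exact he h4
      apply hhu (h e / u e)
      ext x
      simp only [LinearMap.smul_apply, smul_eq_mul]
      field_simp
      linarith [h2 x]
    obtain ⟨z, hzh, hzu⟩ := hz
    have hZ : Conn ({x : E | h x = 0 ∧ u x ≤ 0} \ {0}) := by
      refine conn_star (x₀ := z) ⟨⟨hzh, hzu.le⟩, ?_⟩ ?_
      · intro e
        have e' : z = 0 := e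
        rw [e', map_zero] at hzu
        exact lt_irrefl _ hzu
      · rintro y ⟨⟨hy1, hy⟩, hy0⟩ t ht0 ht1
        have e1 : u (z + t • (y - z)) = (1 - t) * (u z) + t * u y := by
          simp only [map_add, map_smul, map_sub, smul_eq_mul]; ring
        have e2 : h (z + t • (y - z)) = 0 := by
          simp only [map_add, map_smul, map_sub, smul_eq_mul, hzh, hy1]; ring
        rcases eq_or_lt_of_le ht1 with rfl | ht
        · have : (z + (1 : ℚ) • (y - z)) = y := by module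
          rw [this]; exact ⟨⟨hy1, hy⟩, hy0⟩
        · have hneg : u (z + t • (y - z)) < 0 := by
            rw [e1]; nlinarith
          refine ⟨⟨e2, hneg.le⟩, fun e => ?_⟩
          have e' : z + t • (y - z) = 0 := e
          rw [e', map_zero] at hneg
          exact lt_irrefl _ hneg
    have hZS : ({x : E | h x = 0 ∧ u x ≤ 0} \ {0}) ⊆ ({x : E | u x ≤ 0} \ {0}) := by
      rintro x ⟨⟨_, hx⟩, hx0⟩; exact ⟨hx, hx0⟩
    have hzZ : z ∈ ({x : E | h x = 0 ∧ u x ≤ 0} \ {0}) := by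
      refine ⟨⟨hzh, hzu.le⟩, ?_⟩
      intro e
      have e' : z = 0 := e
      rw [e', map_zero] at hzu
      exact lt_irrefl _ hzu
    have hCp : Pol {x : E | h x = 0} := pol_hyperplane h
    have hGp : Pol (T ∩ {x : E | h x = 0}) := hTp.inter hCp
    have hZC : ({x : E | h x = 0 ∧ u x ≤ 0} \ {0}) ⊆ {x : E | h x = 0} \ (T ∩ {x : E | h x = 0}) :=
      fun x hx => ⟨hx.1.1, fun hxG => (hST (hZS hx)).2 hxG.1⟩
    obtain ⟨𝓜, -, h𝓜, hcov⟩ := exists_components hCp hGp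
    obtain ⟨D₀, hD₀, hzD⟩ := hcov z (hZC hzZ)
    have cD₀ := (h𝓜 D₀).1 hD₀
    have hZD : ({x : E | h x = 0 ∧ u x ≤ 0} \ {0}) ⊆ D₀ :=
      cD₀.sub_of_conn hCp hGp hZ hZC ⟨z, hzZ, hzD⟩
    have hall : ∀ D, Comp D {x : E | h x = 0} (T ∩ {x : E | h x = 0}) → D = D₀ := by
      intro D cD
      have := hD D cD
      unfold Bdd at this
      push Not at this
      obtain ⟨x, hxD, hx0, hxu⟩ := this
      have hxZ : x ∈ ({x : E | h x = 0 ∧ u x ≤ 0} \ {0}) := ⟨⟨cD.sub hxD, hxu⟩, hx0⟩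
      exact cD.eq_of_meet hCp hGp cD₀ ⟨x, ⟨hxD, (hZC hxZ).2⟩, ⟨hZD hxZ, (hZC hxZ).2⟩⟩
    have heq : {x : E | h x = 0} \ T = D₀ \ (T ∩ {x : E | h x = 0}) := by
      ext x
      constructor
      · rintro ⟨hx, hxT⟩
        obtain ⟨D, hDm, hxD⟩ := hcov x ⟨hx, fun hxG => hxT hxG.1⟩
        have := hall D ((h𝓜 D).1 hDm)
        rw [this] at hxD
        exact ⟨hxD, fun hxG => hxT hxG.1⟩
      · rintro ⟨hx, hxG⟩
        exact ⟨cD₀.sub hx, fun hxT => hxG ⟨hxT, cD₀.sub hx⟩⟩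
    have hconn : Conn ({x : E | h x = 0} \ T) := by rw [heq]; exact cD₀.conn
    have hHM : {x : E | h x = 0} ⊆ M' := by
      have h1 : {x : E | h x = 0} \ T ⊆ M' :=
        m2.sub_of_conn pol_univ hTp hconn (fun x hx => ⟨trivial, hx.2⟩)
          ⟨z, ⟨hzh, fun hzT => (hZC hzZ).2 ⟨hzT, hzh⟩⟩, hSM (hZS hzZ)⟩
      intro x hx
      by_cases hxT : x ∈ T
      · rw [← m4] at hxT; exact hxT.2
      · exact h1 ⟨hx, hxT⟩
    have hdis : ∀ x ∈ M \ T, h x ≠ 0 := by
      intro x hx h0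
      apply hx.2
      rw [← m4]
      exact ⟨hx.1, hHM h0⟩
    refine ⟨M, M', ⟨m1, m2, m3, m4⟩, hbM, ?_, hHM, hconn⟩
    have hneg : Pol {x : E | h x ≤ 0} := by
      have h1 := pol_halfspace (-h)
      have h2 : {x : E | 0 ≤ (-h) x} = {x : E | h x ≤ 0} := by
        ext x
        simp
      rwa [h2] at h1
    rcases m1.conn.2 {x : E | 0 ≤ h x} {x : E | h x ≤ 0} (pol_halfspace h) hneg
      (fun x _ => le_total 0 (h x)) (fun x hx ha hb => hdis x hx (le_antisymm hb ha)) with hs | hs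
    · left
      intro x hx
      exact lt_of_le_of_ne (hs hx) (hdis x hx).symm
    · right
      intro x hx
      exact lt_of_le_of_ne (hs hx) (hdis x hx)
  have hx0 : -p ∈ ({x : E | u x ≤ 0} \ {0}) := by
    refine ⟨?_, ?_⟩
    · simp only [Set.mem_ofPred_eq, map_neg]; linarith
    · intro e
      apply hp0
      have e' : -p = 0 := e
      exact neg_eq_zero.1 e'
  have : -p ∈ N ∪ N' := by rw [n3]; trivial
  rcases this with hN | hN
  · exact hmain N' N n2 n1 (by rw [Set.union_comm, n3]) (by rw [Set.inter_comm, n4])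
      (n1.sub_of_conn pol_univ hTp hS hST ⟨-p, hx0, hN⟩)
  · exact hmain N N' n1 n2 n3 n4 (n2.sub_of_conn pol_univ hTp hS hST ⟨-p, hx0, hN⟩)

end Pool.Agent.Work.MP_552024_lc.PLS
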