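import Pool.Agent.Work.MP_552024_lc.PLS.S4L

set_option autoImplicit false

/-! Item P2F2: an innermost piece. -/

namespace Pool.Agent.Work.MP_552024_lc.PLS

namespace AP2F2

variable {E : Type} [AddCommGroup E] [Module ℚ E]

theorem sph_ne {C : Set E} (h : Sph 2 C) : ∃ x ∈ C, x ≠ 0 := by
  obtain ⟨D₁, D₂, U, rfl, rfl, hb, _⟩ := h
  obtain ⟨hp, _, f, g, hfg, _⟩ := hb
  by_contra hcon
  push Not at hcon
  have h1 : ∀ x ∈ Orth 2, f x = 0 := fun x hx => hcon _ (Or.inl (hfg.mapsf x hx))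
  have h2 : (0 : Fin 2 → ℚ) ∈ Orth 2 := fun i => le_rfl
  have h3 : (1 : Fin 2 → ℚ) ∈ Orth 2 := fun i => zero_le_one
  have h4 := hfg.gf _ h2
  have h5 := hfg.gf _ h3
  rw [h1 _ h2] at h4
  rw [h1 _ h3] at h5
  have h6 := congrFun (h4.symm.trans h5) 0
  simp at h6

theorem adj_uniq {L : Set ℚ} {m c c' : ℚ} (h : Adj L m c) (h' : Adj L m c') : c = c' := by
  obtain ⟨_, h1, h2, h3⟩ := h
  obtain ⟨_, h1', h2', h3'⟩ := h'
  have h4 : c ≤ c' := (h3 c' h1').resolve_left (not_le.2 h2')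
  have h5 : c' ≤ c := (h3' c h1).resolve_left (not_le.2 h2)
  exact le_antisymm h4 h5

theorem not_FF {L : Set ℚ} {u v : E →ₗ[ℚ] ℚ} {m c : ℚ} (h : Adj L m c) {z : E} (hu : 0 < u z)
    (hz : z ∈ Gr u v m c) : z ∉ FF L u v := by
  rintro ⟨l, hl, hl2⟩
  obtain ⟨h1, h2⟩ := hz
  rcases h.2.2.2 l hl with h3 | h3
  · nlinarith
  · nlinarith

theorem bp_fin {B : Set (E →ₗ[ℚ] ℚ)} {L : Set ℚ} {u v : E →ₗ[ℚ] ℚ} (hB : B.Finite)
    (hL : L.Finite) : (Bp B L u v).Finite := by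
  refine hB.union ?_
  have h1 : ({a | ∃ l ∈ L, a = v - l • u ∨ a = l • u - v} : Set (E →ₗ[ℚ] ℚ)) ⊆
      (fun l : ℚ => v - l • u) '' L ∪ (fun l : ℚ => l • u - v) '' L := by
    rintro a ⟨l, hl, rfl | rfl⟩
    · exact Or.inl ⟨l, hl, rfl⟩
    · exact Or.inr ⟨l, hl, rfl⟩
  exact ((hL.image _).union (hL.image _)).subset h1

end AP2F2

open AP2F2 in
theorem I_P2F2 (hNotFlat : St_NotFlat) (hLvCir : St_LvCir) (hNest : St_Nest)
    (hLvTub : St_LvTub) (hLvPc : St_LvPc) : St_P2F2 := by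
  intro E _ _ _ T₀ u v B L m T W hL h2 hup
  -- all pieces are upper pieces
  have hA : ∀ p ∈ W, ∃ c, AnnH T₀ u v L p.1 m c ∧ m < p.2 ∧ p.2 < c := by
    intro p hp
    rcases h2.hW p hp with h | ⟨l, h3, h4, h5⟩
    · exact h
    · exfalso
      obtain ⟨_, hD, _, hD2, _⟩ := hLvPc E T₀ u v B L p.1 l m p.2 hL h3 h4 h5
      obtain ⟨x, hx⟩ := hD.1
      have h6 : x ∈ T \ Hl u v m := (h2.cov x).2 ⟨p, hp, Or.inr ⟨h5, hx⟩⟩
      have h7 := hup x h6.1
      have h8 := (hD2 hx).2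
      linarith
  -- there is a piece
  have hWne : W.Nonempty := by
    by_contra hcon
    rw [Set.not_nonempty_iff_eq_empty] at hcon
    have h3 : ∀ x ∈ T, (v - m • u) x = 0 := by
      intro x hx
      by_contra h4
      have h5 : x ∉ Hl u v m := by
        intro h6
        apply h4
        simp only [LinearMap.sub_apply, LinearMap.smul_apply, smul_eq_mul]
        have h7 : v x = m * u x := h6
        linarith
      obtain ⟨p, hp, _⟩ := (h2.cov x).1 ⟨hx, h5⟩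
      rw [hcon] at hp
      exact hp
    have h4 : v - m • u ≠ 0 := sub_ne_zero.2 (hL.ind m)
    exact hNotFlat 2 E T (v - m • u) u hL.dim h4 h2.sph h3 h2.bdd
  -- the common upper level
  obtain ⟨c, hc, hAc⟩ : ∃ c, Adj L m c ∧ ∀ p ∈ W, AnnH T₀ u v L p.1 m c ∧ m < p.2 ∧ p.2 < c := by
    obtain ⟨p0, hp0⟩ := hWne
    obtain ⟨c, h3, h4, h5⟩ := hA p0 hp0
    refine ⟨c, h3.adj, ?_⟩
    intro p hp
    obtain ⟨c', h6, h7, h8⟩ := hA p hp
    have h9 := adj_uniq h3.adj h6.adj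
    subst h9
    exact ⟨h6, h7, h8⟩
  -- a low level
  obtain ⟨t, ht1, ht2⟩ : ∃ t, m < t ∧ ∀ p ∈ W, t < p.2 := by
    obtain ⟨p1, hp1, hmin⟩ := h2.fin.exists_minimalFor (fun p : Set E × ℚ => p.2) W hWne
    have h3 := (hAc p1 hp1).2.1
    refine ⟨(m + p1.2) / 2, by linarith, ?_⟩
    intro p hp
    have h4 : p1.2 ≤ p.2 := by
      by_contra h5
      have h6 := hmin hp (le_of_lt (not_le.1 h5))
      exact h5 h6
    linarith
  have htc : t < c := by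
    obtain ⟨p0, hp0⟩ := hWne
    linarith [ht2 p0 hp0, (hAc p0 hp0).2.2]
  have hh : v - t • u ≠ 0 := sub_ne_zero.2 (hL.ind t)
  have hcir : ∀ p ∈ W, Sph 2 (p.1 ∩ Hl u v t) := fun p hp =>
    hLvCir E T₀ u v B L p.1 m c t hL (hAc p hp).1 ht1 htc
  have hbddC : ∀ p ∈ W, Bdd u (p.1 ∩ Hl u v t) := fun p hp x hx hx0 =>
    hL.bdd x ((hAc p hp).1.comp.2.1 hx.1) hx0
  have hhC : ∀ p ∈ W, ∀ x ∈ p.1 ∩ Hl u v t, (v - t • u) x = 0 := by
    intro p hp x hx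
    have h3 : v x = t * u x := hx.2
    simp only [LinearMap.sub_apply, LinearMap.smul_apply, smul_eq_mul]
    linarith
  have hUp : ∀ p ∈ W, ∀ x ∈ p.1 ∩ Hl u v t, x ≠ 0 → x ∈ Up u v (FF L u v) p.1 p.2 := by
    intro p hp x hx hx0
    have h3 : v x = t * u x := hx.2
    have h4 := hbddC p hp x hx hx0
    have h5 := ht2 p hp
    refine Or.inl ⟨⟨hx.1, ?_⟩, ?_⟩
    · exact not_FF hc h4 ⟨by nlinarith, by nlinarith⟩
    · show v x ≤ p.2 * u x
      nlinarith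
  have hPc : ∀ p ∈ W, ∀ x ∈ Up u v (FF L u v) p.1 p.2, x ∈ Pc u v L m p := fun p hp x hx =>
    Or.inl ⟨(hAc p hp).2.1, hx⟩
  have hdisC : ∀ p ∈ W, ∀ q ∈ W, p ≠ q → (p.1 ∩ Hl u v t) ∩ (q.1 ∩ Hl u v t) ⊆ {0} := by
    intro p hp q hq hpq x hx
    by_contra hx0
    exact h2.dis p hp q hq hpq x (hPc p hp x (hUp p hp x hx.1 hx0))
      (hPc q hq x (hUp q hq x hx.2 hx0))
  -- a minimal bounded side
  obtain ⟨p, hp, hmin⟩ := h2.fin.exists_minimalFor
    (fun p : Set E × ℚ => bsd u (v - t • u) (p.1 ∩ Hl u v t)) W hWne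
  obtain ⟨hann, hp1, hp2⟩ := hAc p hp
  refine ⟨p, hp, c, hann, hp1, hp2, ?_⟩
  intro x hx hx2 hxT
  obtain ⟨hT1, hT2, hT3, hT4, hT5⟩ := hLvTub E T₀ u v B L p.1 m c hL hann
  have hBf : (Bp B L u v).Finite := bp_fin hL.fin hL.lam
  set Y : Set E := {x | x ∈ Tub u v p.1 m c ∧ v x < p.2 * u x} with hY
  have hA'f : (Bp B L u v ∪ {v - p.2 • u}).Finite := hBf.union (Set.finite_singleton _)
  have hYinv : InvA (Bp B L u v ∪ {v - p.2 • u}) Y := by
    intro a b hab ha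
    refine ⟨hT1 a b (fun f hf => hab f (Or.inl hf)) ha.1, ?_⟩
    have h3 := hab (v - p.2 • u) (Or.inr rfl)
    have h4 : (v - p.2 • u) a < 0 := by
      simp only [LinearMap.sub_apply, LinearMap.smul_apply, smul_eq_mul]
      linarith [ha.2]
    rw [sign_neg h4] at h3
    have h5 := sign_eq_neg_one_iff.1 h3.symm
    simp only [LinearMap.sub_apply, LinearMap.smul_apply, smul_eq_mul] at h5
    linarith
  have hYcon : Con Y := hYinv.con hA'f
  -- points of `Up p` are not in `Y`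
  have hpY : ∀ z ∈ Up u v (FF L u v) p.1 p.2, z ∉ Y := by
    rintro z (hz | hz) hzY
    · exact hzY.1.2.1 hz.1.1
    · have h3 := hz.1.1
      simp only [LinearMap.sub_apply, LinearMap.smul_apply, smul_eq_mul] at h3
      linarith [hzY.2]
  have hxY : x ∈ Y := ⟨hx, hx2⟩
  have hxm : x ∉ Hl u v m := by
    intro h3
    have h4 : v x = m * u x := h3
    have h5 := hx.1.1
    linarith
  obtain ⟨q, hq, hxq⟩ := (h2.cov x).1 ⟨hxT, hxm⟩
  obtain ⟨hqann, hq1, hq2⟩ := hAc q hq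
  have hxUq : x ∈ Up u v (FF L u v) q.1 q.2 := by
    rcases hxq with h3 | h3
    · exact h3.2
    · exact absurd h3.1 (not_lt.2 (le_of_lt hq1))
  have hpq : p ≠ q := by
    rintro rfl
    exact hpY x hxUq hxY
  obtain ⟨hQ1, _, hQ3, _⟩ := hLvPc E T₀ u v B L q.1 m c q.2 hL hqann hq1 hq2
  -- closed in `Up q`
  have claim1 : ∀ z ∈ Up u v (FF L u v) q.1 q.2, z ∈ cl Y → z ∈ Y := by
    intro z hz hzc
    have hzT : z ∈ T \ Hl u v m := (h2.cov z).2 ⟨q, hq, hPc q hq z hz⟩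
    obtain ⟨hz1, hz2⟩ := hQ3 hz
    have hz0 : z ≠ 0 := by
      rintro rfl
      simp at hz1
    have hzu : 0 < u z := h2.bdd z hzT.1 hz0
    rw [mem_cl_iff hA'f hYinv] at hzc
    obtain ⟨y, hy, hzy⟩ := hzc.resolve_left hz0
    have hzy' : z ∈ face (Bp B L u v) y := fun a ha => hzy a (Or.inl ha)
    have hzct : z ∈ cl (Tub u v p.1 m c) :=
      (mem_cl_iff hBf hT1 z).2 (Or.inr ⟨y, hy.1, hzy'⟩)
    have hzG : z ∈ Gr u v m c := ⟨hz1, by nlinarith⟩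
    have hzle : v z ≤ p.2 * u z := by
      have h3 : (v - p.2 • u) y < 0 := by
        simp only [LinearMap.sub_apply, LinearMap.smul_apply, smul_eq_mul]
        linarith [hy.2]
      have h4 : (v - p.2 • u) z ≤ 0 := by
        rcases hzy (v - p.2 • u) (Or.inr rfl) with h5 | h5
        · exact le_of_eq h5
        · rw [sign_neg h3] at h5
          exact le_of_lt (sign_eq_neg_one_iff.1 h5)
      simp only [LinearMap.sub_apply, LinearMap.smul_apply, smul_eq_mul] at h4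
      linarith
    have hzp : z ∉ p.1 := by
      intro h3
      have h4 : z ∈ Up u v (FF L u v) p.1 p.2 :=
        Or.inl ⟨⟨h3, not_FF hc hzu hzG⟩, hzle⟩
      exact h2.dis p hp q hq hpq z (hPc p hp z h4) (hPc q hq z hz)
    have hzTub : z ∈ Tub u v p.1 m c := hT2 z hzG hzp hzct
    refine ⟨hzTub, lt_of_le_of_ne hzle ?_⟩
    intro h3
    have h4 : z ∈ Tub u v p.1 m c ∩ Hl u v p.2 := ⟨hzTub, h3⟩
    rw [hT5 p.2 hp1 hp2] at h4
    have h5 : z ∈ Up u v (FF L u v) p.1 p.2 := Or.inr ⟨h4.1, hz0⟩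
    exact h2.dis p hp q hq hpq z (hPc p hp z h5) (hPc q hq z hz)
  -- open
  have claim2 : ∀ z ∈ Y, z ∉ cl Yᶜ := by
    intro z hz hzc
    have hz0 : z ≠ 0 := by
      rintro rfl
      have := hz.2
      simp at this
    rw [mem_cl_iff hA'f hYinv.compl] at hzc
    obtain ⟨y, hy, hzy⟩ := hzc.resolve_left hz0
    apply hy
    refine ⟨hT3 z hz.1 y (fun a ha => hzy a (Or.inl ha)), ?_⟩
    have h3 : (v - p.2 • u) z < 0 := by
      simp only [LinearMap.sub_apply, LinearMap.smul_apply, smul_eq_mul]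
      linarith [hz.2]
    rcases hzy (v - p.2 • u) (Or.inr rfl) with h5 | h5
    · exact absurd h5 (ne_of_lt h3)
    · rw [sign_neg h3] at h5
      have h6 := sign_eq_neg_one_iff.1 h5.symm
      simp only [LinearMap.sub_apply, LinearMap.smul_apply, smul_eq_mul] at h6
      linarith
  have hsub : Up u v (FF L u v) q.1 q.2 ⊆ Y := by
    rcases hQ1.2 (cl Y) (cl Yᶜ) hYcon.pol_cl hYcon.compl.pol_cl
      (fun z _ => by
        by_cases h3 : z ∈ Y
        · exact Or.inl (subset_cl _ h3)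
        · exact Or.inr (subset_cl _ h3))
      (fun z hz hzc => claim2 z (claim1 z hz hzc)) with h3 | h3
    · exact fun z hz => claim1 z hz (h3 hz)
    · exact absurd (h3 hxUq) (claim2 x hxY)
  -- the circle of `q` is inside the circle of `p`
  have hCp0 : (0 : E) ∈ p.1 ∩ Hl u v t := ⟨hann.comp.1.1, by simp [Hl]⟩
  have hsubb : ∀ r ∈ W, r.1 ∩ Hl u v t ⊆ bsd u (v - t • u) (r.1 ∩ Hl u v t) :=
    fun r hr z hz => ⟨hhC r hr z hz, Or.inl hz⟩
  have hCq : q.1 ∩ Hl u v t ⊆ bsd u (v - t • u) (p.1 ∩ Hl u v t) := by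
    intro z hz
    by_cases hz0 : z = 0
    · subst hz0
      exact hsubb p hp hCp0
    · have h3 := hsub (hUp q hq z hz hz0)
      have h4 : z ∈ Tub u v p.1 m c ∩ Hl u v t := ⟨h3.1, hz.2⟩
      rw [hT5 t ht1 htc] at h4
      exact h4.1
  obtain ⟨w, hw, hw0⟩ := sph_ne (hcir q hq)
  obtain ⟨w', hw', hw0'⟩ := sph_ne (hcir p hp)
  rcases hNest E (p.1 ∩ Hl u v t) (q.1 ∩ Hl u v t) (v - t • u) u hL.dim hh (hcir p hp)
    (hcir q hq) (hhC p hp) (hhC q hq) (hbddC p hp) (hbddC q hq) (hdisC p hp q hq hpq) with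
    ⟨_, h4, h5⟩ | ⟨_, _, h5⟩ | h5
  · have h6 := hmin hq h4
    exact hw0' (h5 ⟨hw', h6 (hsubb p hp hw')⟩)
  · exact hw0 (h5 ⟨hw, hCq hw⟩)
  · exact hw0 (h5 ⟨hCq hw, hsubb q hq hw⟩)

end Pool.Agent.Work.MP_552024_lc.PLS
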