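import Pool.Agent.Work.MP_552024_lc.PLS.S4L

set_option autoImplicit false

/-! Item P2F3: the final step in the upper case. -/

namespace Pool.Agent.Work.MP_552024_lc.PLS

namespace AP2F3

variable {E : Type} [AddCommGroup E] [Module ℚ E]

theorem clopen [FiniteDimensional ℚ E] {A : Set (E →ₗ[ℚ] ℚ)} (hA : A.Finite) {X Y : Set E}
    (hX : InvA A X) (hY : InvA A Y) (h0 : (0 : E) ∉ X) (hc : Conn X)
    (hcl : ∀ x ∈ X, x ∈ cl Y → x ∈ Y)
    (hop : ∀ x ∈ X, x ∈ Y → ∀ y ∈ X, x ∈ face A y → y ∈ Y) :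
    X ⊆ Y ∨ ∀ x ∈ X, x ∉ Y := by
  have hXY : InvA A (X \ Y) := hX.diff hY
  have hdis : ∀ x ∈ X, x ∈ cl Y → x ∉ cl (X \ Y) := by
    intro x hx h1 h2
    rw [mem_cl_iff hA hXY] at h2
    rcases h2 with h2 | ⟨y, hy, hf⟩
    · rw [h2] at hx; exact h0 hx
    · exact hy.2 (hop x hx (hcl x hx h1) y hy.1 hf)
  have hcov : X ⊆ cl Y ∪ cl (X \ Y) := by
    intro x hx
    by_cases h1 : x ∈ Y
    · exact Or.inl (subset_cl _ h1)
    · exact Or.inr (subset_cl _ ⟨hx, h1⟩)
  rcases hc.2 (cl Y) (cl (X \ Y)) (hY.con hA).pol_cl (hXY.con hA).pol_cl hcov hdis with h1 | h1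
  · exact Or.inl (fun x hx => hcl x hx (h1 hx))
  · exact Or.inr (fun x hx hy => hdis x hx (subset_cl _ hy) (h1 hx))

theorem inv_cl {A : Set (E →ₗ[ℚ] ℚ)} (hA : A.Finite) (hs : Spn A) {Y : Set E} (hY : InvA A Y) :
    InvA A (cl Y) := by
  intro x y hxy hx
  rw [mem_cl_iff hA hY] at hx ⊢
  rcases hx with hx | ⟨z, hz, hf⟩
  · left
    apply hs
    intro a ha
    have h1 := hxy a ha
    rw [hx, map_zero, sign_zero] at h1
    exact sign_eq_zero_iff.1 h1.symm
  · exact Or.inr ⟨z, hz, face_trans hxy.symm.mem_face hf⟩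

theorem face_pos {A : Set (E →ₗ[ℚ] ℚ)} {x y : E} (hf : x ∈ face A y) {a : E →ₗ[ℚ] ℚ}
    (ha : a ∈ A) (hx : 0 < a x) : 0 < a y := by
  rcases hf a ha with h1 | h1
  · rw [h1] at hx; exact absurd hx (lt_irrefl _)
  · rw [sign_pos hx] at h1
    exact sign_eq_one_iff.1 h1.symm

/-- a nonzero point in the kernels of two forms -/
theorem exists_ker2 [FiniteDimensional ℚ E] (a b : E →ₗ[ℚ] ℚ) (hd : 3 ≤ Module.finrank ℚ E) :
    ∃ x : E, x ≠ 0 ∧ a x = 0 ∧ b x = 0 := by
  let f : E →ₗ[ℚ] ℚ × ℚ := a.prod b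
  have h1 : ¬ Function.Injective f := by
    intro hi
    have := LinearMap.finrank_le_finrank_of_injective hi
    rw [Module.finrank_prod, Module.finrank_self] at this
    omega
  rw [injective_iff_map_eq_zero] at h1
  push Not at h1
  obtain ⟨x, hx, hx0⟩ := h1
  have h2 := Prod.ext_iff.1 hx
  exact ⟨x, hx0, h2.1, h2.2⟩

end AP2F3

open AP2F3 in
theorem I_P2F3 (hP2F2 : St_P2F2) (hLvTub : St_LvTub) (hLvSlice : St_LvSlice) (hLvPc : St_LvPc)
    (hLvCir : St_LvCir) (hLvRay : St_LvRay) (hBsd : St_Bsd) (hSchA2 : St_SchA2)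
    (hConnB : St_ConnB) (hSlab : St_Slab) (hClC : St_ClC) : St_P2F3 := by
  intro E _ _ _ T₀ u v B L m T W M M' h c2 hS hbM hpos hHl hHc
  obtain ⟨hM, hM', hMM, hMT⟩ := hS
  have hTM : T ⊆ M := by rw [← hMT]; exact Set.inter_subset_left
  have hTM' : T ⊆ M' := by rw [← hMT]; exact Set.inter_subset_right
  have hTpol : Pol T := by rw [← hMT]; exact hM.pol.inter hM'.pol
  have hT0 : (0 : E) ∈ T := hTpol.1
  have hT₀pol : Pol T₀ := by
    obtain ⟨D₁, D₂, U, e, -, k1, k2⟩ := h.sph
    rw [e]; exact k1.1.union k2.1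
  have hle : ∀ x ∈ T, m * u x ≤ v x := by
    intro x hx
    have h1 : cl (M \ T) ⊆ {x | 0 ≤ (v - m • u) x} := by
      apply (pol_halfspace (v - m • u)).cl_subset
      intro y hy
      have := hpos y hy
      simp only [Set.mem_ofPred_eq, LinearMap.sub_apply, LinearMap.smul_apply, smul_eq_mul]
      linarith
    rw [hM.cl_eq] at h1
    have h2 := h1 (hTM hx)
    simp only [Set.mem_ofPred_eq, LinearMap.sub_apply, LinearMap.smul_apply, smul_eq_mul] at h2
    linarith
  obtain ⟨fBp, sBp, cT0, cFF, rayB, Lne, polFF⟩ := hLvRay E T₀ u v B L h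
  obtain ⟨p, hpW, c, hann, hmt, htc, hfree⟩ := hP2F2 E T₀ u v B L m T W h c2 hle
  obtain ⟨tub1, tub2, tub3, tub4, tub5⟩ := hLvTub E T₀ u v B L p.1 m c h hann
  obtain ⟨mL, cL, hmc, hadj⟩ := hann.adj
  have hugr : ∀ x ∈ Gr u v m c, 0 < u x := by
    rintro x ⟨h1, h2⟩
    by_contra hc
    push Not at hc
    nlinarith
  have htubgr : Tub u v p.1 m c ⊆ Gr u v m c := fun x hx => hx.1
  have hN : ClA (Bp B L u v) p.1 :=
    hClC E (Bp B L u v) T₀ (FF L u v) p.1 fBp cT0 cFF hT₀pol polFF hann.comp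
  -- the tube part
  set Y : Set E := {x | x ∈ Tub u v p.1 m c ∧ v x < p.2 * u x} with hYdef
  have hYT : ∀ x ∈ Y, x ∉ T := fun x hx => hfree x hx.1 hx.2
  have hYconn : Conn Y := by
    have hm0 : m < (m + p.2) / 2 := by linarith
    have h0t : (m + p.2) / 2 < p.2 := by linarith
    have h0c : (m + p.2) / 2 < c := by linarith
    have hcir := hLvCir E T₀ u v B L p.1 m c ((m + p.2) / 2) h hann hm0 h0c
    have hbd : Bdd u (p.1 ∩ Hl u v ((m + p.2) / 2)) := fun x hx =>
      h.bdd x (hann.comp.sub hx.1)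
    have hb := hBsd 1 hSchA2 E (p.1 ∩ Hl u v ((m + p.2) / 2)) (v - ((m + p.2) / 2) • u) u
      h.dim (sub_ne_zero.2 (h.ind _)) hcir (by
        rintro x ⟨_, hx⟩
        have : v x = ((m + p.2) / 2) * u x := hx
        rw [LinearMap.sub_apply, LinearMap.smul_apply, smul_eq_mul, this, sub_self]) hbd
    have hsec : Conn (Tub u v p.1 m c ∩ Hl u v ((m + p.2) / 2)) := by
      rw [tub5 _ hm0 h0c]
      exact (hConnB 2 E _ _ hb.2.2.1).1
    have h5 := hLvSlice E T₀ u v B L (Tub u v p.1 m c) m c ((m + p.2) / 2) {τ | τ < p.2} h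
      hann.adj hm0 h0c tub1 htubgr h0t (fun a _ b hb r _ hr => lt_of_le_of_lt hr hb) hsec
    have e : (Tub u v p.1 m c ∩ {x | v x / u x ∈ {τ : ℚ | τ < p.2}}) = Y := by
      ext x
      constructor
      · rintro ⟨h6, h7⟩
        refine ⟨h6, ?_⟩
        have h8 : v x / u x < p.2 := h7
        rwa [div_lt_iff₀ (hugr x (htubgr h6))] at h8
      · rintro ⟨h6, h7⟩
        refine ⟨h6, ?_⟩
        change v x / u x < p.2
        rwa [div_lt_iff₀ (hugr x (htubgr h6))]
    rwa [e] at h5
  have hYtub : Y ⊆ Tub u v p.1 m c := fun x hx => hx.1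
  have hbY : Bdd u (cl Y) := fun x hx hx0 => tub4 x (cl_mono hYtub hx) hx0
  have hYm : ∀ x ∈ cl Y, m * u x ≤ v x := by
    intro x hx
    have h1 : cl Y ⊆ {x | 0 ≤ (v - m • u) x} := by
      apply (pol_halfspace (v - m • u)).cl_subset
      intro y hy
      have := (htubgr (hYtub hy)).1
      simp only [Set.mem_ofPred_eq, LinearMap.sub_apply, LinearMap.smul_apply, smul_eq_mul]
      linarith
    have h2 := h1 hx
    simp only [Set.mem_ofPred_eq, LinearMap.sub_apply, LinearMap.smul_apply, smul_eq_mul] at h2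
    linarith
  have hYt : ∀ x ∈ cl Y, v x ≤ p.2 * u x := by
    intro x hx
    have h1 : cl Y ⊆ {x | 0 ≤ (p.2 • u - v) x} := by
      apply (pol_halfspace (p.2 • u - v)).cl_subset
      intro y hy
      have := hy.2
      simp only [Set.mem_ofPred_eq, LinearMap.sub_apply, LinearMap.smul_apply, smul_eq_mul]
      linarith
    have h2 := h1 hx
    simp only [Set.mem_ofPred_eq, LinearMap.sub_apply, LinearMap.smul_apply, smul_eq_mul] at h2
    linarith
  -- Up is in T
  have hUpT : Up u v (FF L u v) p.1 p.2 ⊆ T := by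
    intro x hx
    have h1 : x ∈ T \ Hl u v m := (c2.cov x).2 ⟨p, hpW, Or.inl ⟨hmt, hx⟩⟩
    exact h1.1
  have hNm : p.1 ∩ Hl u v m ⊆ T := by
    have h1 := (hLvPc E T₀ u v B L p.1 m c p.2 h hann hmt htc).2.2.2.2.1
    have h2 := hTpol.cl_subset hUpT
    rw [h1] at h2
    exact Set.subset_union_right.trans h2
  -- (A)
  have hAA : ∀ z ∈ cl Y, z ≠ 0 → m * u z < v z → z ∉ Y → z ∈ T := by
    intro z hz hz0 hmz hzY
    have hu := hbY z hz hz0
    have hvt := hYt z hz
    have hgr : z ∈ Gr u v m c := ⟨hmz, by nlinarith⟩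
    by_cases hzN : z ∈ p.1
    · apply hUpT
      left
      refine ⟨⟨hzN, ?_⟩, hvt⟩
      rintro ⟨l, hl, hvl⟩
      rcases hadj l hl with h3 | h3
      · have h4 := hgr.1
        rw [hvl] at h4
        nlinarith
      · have h4 := hgr.2
        rw [hvl] at h4
        nlinarith
    · have hzt : z ∈ Tub u v p.1 m c := tub2 z hgr hzN (cl_mono hYtub hz)
      have hvt2 : v z = p.2 * u z := by
        rcases lt_or_eq_of_le hvt with h3 | h3
        · exact absurd ⟨hzt, h3⟩ hzY
        · exact h3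
      have h4 : z ∈ Tub u v p.1 m c ∩ Hl u v p.2 := ⟨hzt, hvt2⟩
      rw [tub5 p.2 hmt htc] at h4
      exact hUpT (Or.inr ⟨h4.1, hz0⟩)
  -- forms
  obtain ⟨AT, fAT, cAT⟩ := hTpol.exists_cl
  obtain ⟨AM, fAM, cAM⟩ := hM.pol.exists_cl
  obtain ⟨AM', fAM', cAM'⟩ := hM'.pol.exists_cl
  set Bq : Set (E →ₗ[ℚ] ℚ) := Bp B L u v ∪ {p.2 • u - v} with hBq
  set A0 : Set (E →ₗ[ℚ] ℚ) := Bq ∪ ({u} ∪ (AT ∪ (AM ∪ AM'))) with hA0
  have fBq : Bq.Finite := fBp.union (Set.finite_singleton _)
  have fA0 : A0.Finite := fBq.union ((Set.finite_singleton _).union (fAT.union (fAM.union fAM')))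
  have iBq : Bp B L u v ⊆ Bq := Set.subset_union_left
  have iA0 : Bq ⊆ A0 := Set.subset_union_left
  have ipA0 : Bp B L u v ⊆ A0 := iBq.trans iA0
  have mtu : p.2 • u - v ∈ Bq := Or.inr rfl
  have muu : u ∈ A0 := Or.inr (Or.inl rfl)
  have mvm : v - m • u ∈ Bp B L u v := Or.inr ⟨m, mL, Or.inl rfl⟩
  have mcv : c • u - v ∈ Bp B L u v := Or.inr ⟨c, cL, Or.inr rfl⟩
  have sBq : Spn Bq := fun x hx => sBp x (fun a ha => hx a (iBq ha))
  have sA0 : Spn A0 := fun x hx => sBp x (fun a ha => hx a (ipA0 ha))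
  have iT : InvA A0 T := cAT.inv.mono (fun a ha => Or.inr (Or.inr (Or.inl ha)))
  have iM : InvA A0 M := cAM.inv.mono (fun a ha => Or.inr (Or.inr (Or.inr (Or.inl ha))))
  have iM' : InvA A0 M' := cAM'.inv.mono (fun a ha => Or.inr (Or.inr (Or.inr (Or.inr ha))))
  have ev : ∀ (s : ℚ) (x : E), (v - s • u) x = v x - s * u x := fun s x => by
    rw [LinearMap.sub_apply, LinearMap.smul_apply, smul_eq_mul]
  have ev' : ∀ (s : ℚ) (x : E), (s • u - v) x = s * u x - v x := fun s x => by
    rw [LinearMap.sub_apply, LinearMap.smul_apply, smul_eq_mul]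
  -- Y is open
  have hYopen : ∀ x ∈ Y, ∀ y, x ∈ face Bq y → y ∈ Y := by
    rintro x ⟨hx1, hx2⟩ y hf
    refine ⟨tub3 x hx1 y (face_anti iBq y hf), ?_⟩
    have h1 : 0 < (p.2 • u - v) y := face_pos hf mtu (by rw [ev']; linarith)
    rw [ev'] at h1; linarith
  have hYinvq : InvA Bq Y := fun x y hxy hx => hYopen x hx y hxy.mem_face
  have hYinv : InvA A0 Y := hYinvq.mono iA0
  have h0Y : (0 : E) ∉ Y := by
    intro h1
    have := (htubgr h1.1).1
    rw [map_zero, map_zero, mul_zero] at this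
    exact lt_irrefl _ this
  -- a point outside
  obtain ⟨x0, hx0, hvx0, hux0⟩ := exists_ker2 v u (by rw [h.dim]; norm_num)
  have hx0T : x0 ∉ T := fun h1 => by
    have := c2.bdd x0 h1 hx0
    rw [hux0] at this; exact lt_irrefl _ this
  have hx0Y : x0 ∉ cl Y := fun h1 => by
    have := hbY x0 h1 hx0
    rw [hux0] at this; exact lt_irrefl _ this
  -- (B)
  have hkey : ∀ z ∈ Hl u v m \ T, z ∈ cl Y → ∀ z' ∈ Hl u v m \ T, z ∈ face A0 z' → z' ∈ cl Y := by
    intro z hz hzc z' hz' hf
    have hz0 : z ≠ 0 := fun h1 => hz.2 (h1 ▸ hT0)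
    have huz := hbY z hzc hz0
    have hvz : v z = m * u z := hz.1
    have hvz' : v z' = m * u z' := hz'.1
    have hzN : z ∉ p.1 := fun h1 => hz.2 (hNm ⟨h1, hz.1⟩)
    let U : Set E := {y | z ∈ face A0 y ∧ m * u y < v y}
    have hUu : ∀ y ∈ U, 0 < u y := fun y hy => face_pos hy.1 muu huz
    have hUgr : ∀ y ∈ U, y ∈ Gr u v m c := by
      intro y hy
      refine ⟨hy.2, ?_⟩
      have h1 : 0 < (c • u - v) y := face_pos hy.1 (ipA0 mcv) (by rw [ev', hvz]; nlinarith)
      rw [ev'] at h1; linarith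
    have hUN : ∀ y ∈ U, y ∉ p.1 := fun y hy h1 => hzN (hN y h1 (face_anti ipA0 y hy.1))
    have hUinv : InvA A0 U := by
      rintro y y' hyy ⟨h1, h2⟩
      refine ⟨face_trans h1 hyy.mem_face, ?_⟩
      have h3 : 0 < (v - m • u) y' := face_pos hyy.mem_face (ipA0 mvm) (by rw [ev]; linarith)
      rw [ev] at h3; linarith
    have h0U : (0 : E) ∉ U := fun h1 => by
      have := h1.2
      rw [map_zero, map_zero, mul_zero] at this
      exact lt_irrefl _ this
    obtain ⟨y1, hy1Y, hy1f⟩ : ∃ y ∈ Y, z ∈ face A0 y := by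
      rw [mem_cl_iff fA0 hYinv] at hzc
      rcases hzc with h1 | h1
      · exact absurd h1 hz0
      · exact h1
    have hy1U : y1 ∈ U := ⟨hy1f, (htubgr hy1Y.1).1⟩
    have hUconn : Conn U := by
      apply conn_of_convex ⟨y1, hy1U⟩
      rintro a ⟨ha1, ha2⟩ b ⟨hb1, hb2⟩ s hs0 hs1
      constructor
      · intro k hk
        rcases ha1 k hk with h1 | h1
        · exact Or.inl h1
        rcases hb1 k hk with h2 | h2
        · exact Or.inl h2
        right
        have e : k (a + s • (b - a)) = (1 - s) * k a + s * k b := by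
          simp only [map_add, map_smul, map_sub, smul_eq_mul]; ring
        rw [e]
        rcases lt_trichotomy (k z) 0 with h3 | h3 | h3
        · rw [sign_neg h3] at h1 h2 ⊢
          have h4 : k a < 0 := sign_eq_neg_one_iff.1 h1.symm
          have h5 : k b < 0 := sign_eq_neg_one_iff.1 h2.symm
          refine (sign_eq_neg_one_iff.2 ?_).symm
          rcases eq_or_lt_of_le hs0 with h6 | h6
          · rw [← h6]; linarith
          · nlinarith
        · rw [h3, sign_zero] at h1 h2 ⊢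
          have h4 : k a = 0 := sign_eq_zero_iff.1 h1.symm
          have h5 : k b = 0 := sign_eq_zero_iff.1 h2.symm
          rw [h4, h5, mul_zero, mul_zero, add_zero, sign_zero]
        · rw [sign_pos h3] at h1 h2 ⊢
          have h4 : 0 < k a := sign_eq_one_iff.1 h1.symm
          have h5 : 0 < k b := sign_eq_one_iff.1 h2.symm
          refine (sign_eq_one_iff.2 ?_).symm
          rcases eq_or_lt_of_le hs0 with h6 | h6
          · rw [← h6]; linarith
          · nlinarith
      · have e1 : u (a + s • (b - a)) = (1 - s) * u a + s * u b := by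
          simp only [map_add, map_smul, map_sub, smul_eq_mul]; ring
        have e2 : v (a + s • (b - a)) = (1 - s) * v a + s * v b := by
          simp only [map_add, map_smul, map_sub, smul_eq_mul]; ring
        rw [e1, e2]
        rcases eq_or_lt_of_le hs0 with h6 | h6
        · rw [← h6]; linarith
        · nlinarith
    have hUT : U ⊆ Tub u v p.1 m c := by
      rcases clopen fA0 hUinv (tub1.mono ipA0) h0U hUconn
        (fun x hx hxc => tub2 x (hUgr x hx) (hUN x hx) hxc)
        (fun x _ hxt y _ hf => tub3 x hxt y (face_anti ipA0 y hf)) with h1 | h1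
      · exact h1
      · exact absurd hy1Y.1 (h1 y1 hy1U)
    -- a direction
    obtain ⟨w, hw⟩ : ∃ w, 0 < (v - m • u) w := by
      have h1 : v - m • u ≠ 0 := sub_ne_zero.2 (h.ind m)
      obtain ⟨w, hw⟩ := DFunLike.ne_iff.1 h1
      rw [LinearMap.zero_apply] at hw
      rcases lt_or_gt_of_ne hw with h2 | h2
      · exact ⟨-w, by rw [map_neg]; linarith⟩
      · exact ⟨w, h2⟩
    obtain ⟨ε, hε, hsm⟩ := mem_face_small fA0 z' w
    rcases small_signs fA0 z' w with ⟨ε', hε', hsm'⟩
    right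
    have hin : ∀ r : ℚ, 0 < r → r ≤ min ε ε' → z' + r • w ∈ Y := by
      intro r hr0 hr1
      have hf2 : z' ∈ face A0 (z' + r • w) := by
        intro a ha
        by_cases h1 : a z' = 0
        · exact Or.inl h1
        · exact Or.inr ((hsm' r hr0 (hr1.trans (min_le_right _ _)) a ha).1 h1).symm
      have hf3 : z ∈ face A0 (z' + r • w) := face_trans hf hf2
      have hU : z' + r • w ∈ U := by
        refine ⟨hf3, ?_⟩
        have h1 : (v - m • u) (z' + r • w) = r * (v - m • u) w := by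
          rw [map_add, map_smul, smul_eq_mul, ev, hvz', sub_self, zero_add]
        have h2 : 0 < (v - m • u) (z' + r • w) := by rw [h1]; positivity
        rw [ev] at h2; linarith
      refine ⟨hUT hU, ?_⟩
      have h1 : 0 < (p.2 • u - v) (z' + r • w) :=
        face_pos hf3 (iA0 mtu) (by rw [ev', hvz]; nlinarith)
      rw [ev'] at h1; linarith
    have hmin : 0 < min ε ε' := lt_min hε hε'
    refine ⟨z' + (min ε ε') • w, hin _ hmin le_rfl, fun r hr0 hr1 => ?_⟩
    have e : z' + r • (z' + (min ε ε') • w - z') = z' + (r * min ε ε') • w := by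
      rw [add_sub_cancel_left, smul_smul]
    rw [e]
    exact hin _ (mul_pos hr0 hmin) (by nlinarith)
  have hBB : ∀ z ∈ cl Y, v z = m * u z → z ∈ T := by
    intro z hz hvz
    by_contra hzT
    have iH : InvA A0 (Hl u v m) := by
      intro x y hxy hx
      have hx' : v x = m * u x := hx
      have h1 := hxy _ (ipA0 mvm)
      have h2 : (v - m • u) x = 0 := by rw [ev, hx', sub_self]
      rw [h2, sign_zero] at h1
      have h3 : (v - m • u) y = 0 := sign_eq_zero_iff.1 h1.symm
      rw [ev] at h3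
      change v y = m * u y
      linarith
    rcases clopen fA0 (iH.diff iT) (inv_cl fA0 sA0 hYinv) (fun h1 => h1.2 hT0) hHc
      (fun x _ hxc => by rwa [cl_cl (hYinv.con fA0)] at hxc)
      (fun x hx hxc y hy hf => hkey x hx hxc y hy hf) with h1 | h1
    · apply hx0Y
      apply h1
      refine ⟨?_, hx0T⟩
      change v x0 = m * u x0
      rw [hvx0, hux0, mul_zero]
    · exact h1 z ⟨hvz, hzT⟩ hz
  -- (C)
  have hclY : cl Y ⊆ Y ∪ T := by
    intro z hz
    by_cases hz0 : z = 0
    · rw [hz0]; exact Or.inr hT0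
    by_cases hzY : z ∈ Y
    · exact Or.inl hzY
    right
    rcases lt_or_eq_of_le (hYm z hz) with h1 | h1
    · exact hAA z hz hz0 h1 hzY
    · exact hBB z hz h1.symm
  have hcM : M \ T ⊆ Y ∨ ∀ x ∈ M \ T, x ∉ Y :=
    clopen fA0 (iM.diff iT) hYinv (fun h1 => h1.2 hT0) hM.conn
      (fun x hx hxc => (hclY hxc).resolve_right hx.2)
      (fun x _ hxY y _ hf => hYopen x hxY y (face_anti iA0 y hf))
  have hcM' : M' \ T ⊆ Y ∨ ∀ x ∈ M' \ T, x ∉ Y :=
    clopen fA0 (iM'.diff iT) hYinv (fun h1 => h1.2 hT0) hM'.conn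
      (fun x hx hxc => (hclY hxc).resolve_right hx.2)
      (fun x _ hxY y _ hf => hYopen x hxY y (face_anti iA0 y hf))
  have hM'Y : ∀ x ∈ M' \ T, x ∉ Y := by
    rcases hcM' with h1 | h1
    · exfalso
      have hx0M : x0 ∉ M := fun h2 => by
        have := hbM x0 h2 hx0
        rw [hux0] at this; exact lt_irrefl _ this
      have hx0M' : x0 ∈ M' := by
        have : x0 ∈ M ∪ M' := by rw [hMM]; trivial
        exact this.resolve_left hx0M
      exact hx0Y (subset_cl _ (h1 ⟨hx0M', hx0T⟩))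
    · exact h1
  have hYM : Y ⊆ M \ T := by
    intro x hx
    have hxT := hYT x hx
    refine ⟨?_, hxT⟩
    by_contra hxM
    have : x ∈ M ∪ M' := by rw [hMM]; trivial
    exact hM'Y x ⟨this.resolve_left hxM, hxT⟩ hx
  have hMY : M \ T ⊆ Y := by
    rcases hcM with h1 | h1
    · exact h1
    · exfalso
      obtain ⟨y0, hy0⟩ := hYconn.1
      exact h1 y0 (hYM hy0) hy0
  have hYe : Y = M \ T := subset_antisymm hYM hMY
  have hclYe : cl Y = M := by rw [hYe, hM.cl_eq]
  have hdiff : cl Y \ Y = T := by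
    rw [hclYe, hYe]
    ext x
    constructor
    · rintro ⟨h1, h2⟩
      by_contra h3
      exact h2 ⟨h1, h3⟩
    · intro h1
      exact ⟨hTM h1, fun h2 => h2.2 h1⟩
  have hfin : Std 4 (cl Y \ Y) := by
    refine hSlab E Bq u v m p.2 Y h.dim ?_
    exact
      { fin := fBq
        spn := sBq
        ne := by
          rintro a ((ha | ⟨l, _, rfl | rfl⟩) | rfl)
          · exact h.ne a ha
          · exact sub_ne_zero.2 (h.ind l)
          · exact sub_ne_zero.2 (Ne.symm (h.ind l))
          · exact sub_ne_zero.2 (Ne.symm (h.ind p.2))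
        lt := hmt
        low := iBq mvm
        up := mtu
        inv := hYinvq
        opn := ⟨h0Y, Bq, fBq, fun y hy x hx hxY => hy (hYopen x hxY y hx)⟩
        conn := hYconn
        slab := by
          intro x hx
          rw [ev, ev']
          have h1 := (htubgr hx.1).1
          have h2 := hx.2
          constructor <;> linarith
        bdd := hbY
        sph := by rw [hdiff]; exact c2.sph
        noray := by
          rintro r hr ⟨h1, h2⟩
          rw [ev] at h1
          rw [ev'] at h2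
          have hur : 0 < u r := by
            by_contra hc
            push Not at hc
            nlinarith
          have hrB : Ray (Bp B L u v) r := by
            refine ⟨hr.1, fun y hy => hr.2 y ?_⟩
            rintro a (ha | rfl) h3
            · exact hy a ha h3
            · rw [ev'] at h3; linarith
          obtain ⟨l, hl, hvl⟩ := rayB r hrB hur
          rcases hadj l hl with h3 | h3
          · nlinarith
          · nlinarith }
  rwa [hdiff] at hfin

end Pool.Agent.Work.MP_552024_lc.PLS
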