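import Pool.Agent.Work.MP_552024_lc.PLS.S4L

set_option autoImplicit false

/-! The cut at a special level. -/

namespace Pool.Agent.Work.MP_552024_lc.PLS

namespace AP2S

theorem hl_eq {E : Type*} [AddCommGroup E] [Module ℚ E] (u v : E →ₗ[ℚ] ℚ) (m : ℚ) :
    {x : E | (v - m • u) x = 0} = Hl u v m := by
  ext x
  simp only [Set.mem_ofPred_eq, Hl, LinearMap.sub_apply, LinearMap.smul_apply, smul_eq_mul]
  exact sub_eq_zero

theorem CutD.swap {E : Type} [AddCommGroup E] [Module ℚ E] {T D C E₁ E₂ : Set E}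
    (h : CutD T D C E₁ E₂) : CutD T D C E₂ E₁ :=
  ⟨by rw [Set.union_comm]; exact h.uni, by rw [Set.inter_comm]; exact h.int, h.dT, h.ballD,
    h.ball2, h.ball1, h.sphC⟩

/-- The pieces are connected and off the level. -/
theorem pc_conn (hLvPc : St_LvPc) {E : Type} [AddCommGroup E] [Module ℚ E]
    [FiniteDimensional ℚ E] {T₀ : Set E} {u v : E →ₗ[ℚ] ℚ} {B : Set (E →ₗ[ℚ] ℚ)} {L : Set ℚ}
    {m : ℚ} {T : Set E} {W : Set (Set E × ℚ)} (hL : LvH T₀ u v B L) (hC : Cl2 T₀ u v L m T W)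
    {p : Set E × ℚ} (hp : p ∈ W) :
    Conn (Pc u v L m p) ∧ ∀ x ∈ Pc u v L m p, x ∉ Hl u v m := by
  rcases hC.hW p hp with ⟨c, hA, h1, h2⟩ | ⟨l, hA, h1, h2⟩
  · have e : Pc u v L m p = Up u v (FF L u v) p.1 p.2 := by
      ext x
      simp only [Pc, Set.mem_ofPred_eq]
      constructor
      · rintro (⟨_, h⟩ | ⟨h, _⟩)
        · exact h
        · exact absurd h (not_lt.mpr h1.le)
      · intro h
        exact Or.inl ⟨h1, h⟩
    obtain ⟨k1, _, k3, _⟩ := hLvPc E T₀ u v B L p.1 m c p.2 hL hA h1 h2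
    rw [e]
    refine ⟨k1, fun x hx hm => ?_⟩
    have := (k3 hx).1
    rw [Hl, Set.mem_ofPred_eq] at hm
    rw [hm] at this
    exact lt_irrefl _ this
  · have e : Pc u v L m p = Dn u v (FF L u v) p.1 p.2 := by
      ext x
      simp only [Pc, Set.mem_ofPred_eq]
      constructor
      · rintro (⟨h, _⟩ | ⟨_, h⟩)
        · exact absurd h (not_lt.mpr h2.le)
        · exact h
      · intro h
        exact Or.inr ⟨h2, h⟩
    obtain ⟨_, k2, _, k4, _⟩ := hLvPc E T₀ u v B L p.1 l m p.2 hL hA h1 h2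
    rw [e]
    refine ⟨k2, fun x hx hm => ?_⟩
    have := (k4 hx).2
    rw [Hl, Set.mem_ofPred_eq] at hm
    rw [hm] at this
    exact lt_irrefl _ this

/-- One of the two cut spheres. -/
theorem half (hPlP : St_PlP) (hCutT : St_CutT) (hLvPc : St_LvPc) (hNotFlat : St_NotFlat)
    {E : Type} [AddCommGroup E] [Module ℚ E] [FiniteDimensional ℚ E] {T₀ : Set E}
    {u v : E →ₗ[ℚ] ℚ} {B : Set (E →ₗ[ℚ] ℚ)} {L : Set ℚ} {m : ℚ} {T : Set E}
    {W : Set (Set E × ℚ)} {D M M' E₁ E₂ : Set E} (hL : LvH T₀ u v B L)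
    (hC : Cl2 T₀ u v L m T W) (hP : PlH T M M' (v - m • u) u D)
    (hCut : CutD T D (D ∩ T) E₁ E₂) :
    ∃ W', Cl2 T₀ u v L m (E₁ ∪ D) W' ∧ W'.ncard < W.ncard := by
  have hDm : D ⊆ Hl u v m := by
    rw [← hl_eq]
    exact hP.comp.2.1
  have hCm : ∀ x, x ∈ E₁ → x ∈ E₂ → x ∈ Hl u v m := by
    intro x h1 h2
    have : x ∈ D ∩ T := by
      rw [← hCut.int]
      exact ⟨h1, h2⟩
    exact hDm this.1
  have hE1T : E₁ ⊆ T := by
    rw [← hCut.uni]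
    exact Set.subset_union_left
  have hE2T : E₂ ⊆ T := by
    rw [← hCut.uni]
    exact Set.subset_union_right
  obtain ⟨s1, s2, _, _, _⟩ := hCutT E T D (D ∩ T) E₁ E₂ hL.dim hCut
  have hside : ∀ p ∈ W, Pc u v L m p ⊆ E₁ ∨ Pc u v L m p ⊆ E₂ := by
    intro p hp
    obtain ⟨k1, k2⟩ := pc_conn hLvPc hL hC hp
    refine k1.2 E₁ E₂ hCut.ball1.1 hCut.ball2.1 ?_ ?_
    · intro x hx
      rw [hCut.uni]
      exact ((hC.cov x).mpr ⟨p, hp, hx⟩).1
    · intro x hx h1 h2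
      exact k2 x hx (hCm x h1 h2)
  have hbd : ∀ X : Set E, X ⊆ T → Bdd u (X ∪ D) := by
    rintro X hX x (hx | hx) hx0
    · exact hC.bdd x (hX hx) hx0
    · exact hP.bddD x hx hx0
  refine ⟨{p | p ∈ W ∧ Pc u v L m p ⊆ E₁}, ?_, ?_⟩
  · refine ⟨s1, hbd E₁ hE1T, hC.mem, hC.fin.subset fun p hp => hp.1,
      fun p hp => hC.hW p hp.1, ?_, fun p hp q hq => hC.dis p hp.1 q hq.1, ?_, ?_⟩
    · intro x
      constructor
      · rintro ⟨hx | hx, hxm⟩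
        · obtain ⟨p, hp, hxp⟩ := (hC.cov x).mp ⟨hE1T hx, hxm⟩
          rcases hside p hp with h | h
          · exact ⟨p, ⟨hp, h⟩, hxp⟩
          · exact absurd (hCm x hx (h hxp)) hxm
        · exact absurd (hDm hx) hxm
      · rintro ⟨p, ⟨hp, hpE⟩, hxp⟩
        exact ⟨Or.inl (hpE hxp), (pc_conn hLvPc hL hC hp).2 x hxp⟩
    · intro x hx hxm hx0
      refine hPlP E T M M' (v - m • u) u D E₁ E₂ hP hCut x hx ?_ hx0
      have : x ∈ {x : E | (v - m • u) x = 0} := by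
        rw [hl_eq]
        exact hxm
      exact this
    · obtain ⟨x, hxD, hxT⟩ := hP.comp.2.2.2.1.1
      have hxT' : x ∉ T := fun h => hxT ⟨h, hP.comp.2.1 hxD⟩
      refine ⟨x, Or.inr hxD, hDm hxD, ?_⟩
      rintro rfl
      apply hxT'
      rw [← hP.sides.2.2.2]
      exact ⟨hP.sides.1.1.1, hP.sides.2.1.1.1⟩
  · apply Set.ncard_lt_ncard _ hC.fin
    refine ⟨fun p hp => hp.1, fun hsub => ?_⟩
    -- `E₂` is not flat
    have hnf : ∃ x ∈ E₂, x ∉ Hl u v m := by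
      by_contra hcon
      push Not at hcon
      refine hNotFlat 2 E (E₂ ∪ D) (v - m • u) u hL.dim hP.hne s2 ?_ (hbd E₂ hE2T)
      intro x hx
      have hxm : x ∈ Hl u v m := by
        rcases hx with hx | hx
        · exact hcon x hx
        · exact hDm hx
      rw [← hl_eq] at hxm
      exact hxm
    obtain ⟨x, hx2, hxm⟩ := hnf
    obtain ⟨p, hp, hxp⟩ := (hC.cov x).mp ⟨hE2T hx2, hxm⟩
    exact hxm (hCm x ((hsub hp).2 hxp) hx2)

/-- The statement once the side of the disc is chosen. -/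
theorem main (hPlC : St_PlC) (hPlP : St_PlP) (hK3 : St_K3) (hCutT : St_CutT)
    (hLvPc : St_LvPc) (hNotFlat : St_NotFlat) (hSchA2 : St_SchA2)
    {E : Type} [AddCommGroup E] [Module ℚ E] [FiniteDimensional ℚ E] {T₀ : Set E}
    {u v : E →ₗ[ℚ] ℚ} {B : Set (E →ₗ[ℚ] ℚ)} {L : Set ℚ} {m : ℚ} {T : Set E}
    {W : Set (Set E × ℚ)} {D M M' : Set E} (hL : LvH T₀ u v B L)
    (hC : Cl2 T₀ u v L m T W) (hP : PlH T M M' (v - m • u) u D) :
    ∃ E₁ E₂ : Set E, CutD T D (D ∩ T) E₁ E₂ ∧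
      (∃ W', Cl2 T₀ u v L m (E₁ ∪ D) W' ∧ W'.ncard < W.ncard) ∧
      (∃ W', Cl2 T₀ u v L m (E₂ ∪ D) W' ∧ W'.ncard < W.ncard) := by
  obtain ⟨b1, b2, _⟩ := hPlC E T M M' (v - m • u) u D hP
  obtain ⟨E₁, E₂, e1, e2, e3, e4⟩ := hK3 1 hSchA2 E T (D ∩ T) hC.sph b2 Set.inter_subset_right
  have hCut : CutD T D (D ∩ T) E₁ E₂ := ⟨e1, e2, rfl, b1, e3, e4, b2⟩
  exact ⟨E₁, E₂, hCut, half hPlP hCutT hLvPc hNotFlat hL hC hP hCut,
    half hPlP hCutT hLvPc hNotFlat hL hC hP (CutD.swap hCut)⟩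

end AP2S

theorem I_P2S (hPlC : St_PlC) (hPlP : St_PlP) (hP2Z : St_P2Z) (hJBS : St_JBS) (hK3 : St_K3)
    (hCutT : St_CutT) (hLvPc : St_LvPc) (hNotFlat : St_NotFlat) (hSchA2 : St_SchA2) :
    St_P2S := by
  intro E _ _ _ T₀ u v B L m T W D hL hC hD hbD
  obtain ⟨M, M', hS, hloc⟩ := hJBS 1 hSchA2 E T hL.dim hC.sph
  have hZ := hP2Z E T₀ u v B L m T W hL hC
  have hne : v - m • u ≠ 0 := sub_ne_zero.mpr (hL.ind m)
  have hcomp : Comp D {x | (v - m • u) x = 0} (T ∩ {x | (v - m • u) x = 0}) := by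
    rw [AP2S.hl_eq]
    exact hD
  have hconn : Conn ((T ∩ {x | (v - m • u) x = 0}) \ {0}) := by
    rw [AP2S.hl_eq]
    exact hZ
  have hpp : ∀ x ∈ T, (v - m • u) x = 0 → x ≠ 0 → PP (Tg x T) (v - m • u) := by
    intro x hx hx1 hx0
    refine hC.pp x hx ?_ hx0
    have : x ∈ {x : E | (v - m • u) x = 0} := hx1
    rw [AP2S.hl_eq] at this
    exact this
  have hDT : D \ (T ∩ Hl u v m) = D \ T := by
    ext x
    constructor
    · rintro ⟨h1, h2⟩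
      exact ⟨h1, fun h => h2 ⟨h, hD.2.1 h1⟩⟩
    · rintro ⟨h1, h2⟩
      exact ⟨h1, fun h => h2 h.1⟩
  have hc : Conn (D \ T) := by
    rw [← hDT]
    exact hD.2.2.2.1
  have hside : D \ T ⊆ M ∨ D \ T ⊆ M' := by
    refine hc.2 M M' hS.1.1 hS.2.1.1 ?_ ?_
    · rw [hS.2.2.1]
      exact Set.subset_univ _
    · intro x hx h1 h2
      apply hx.2
      rw [← hS.2.2.2]
      exact ⟨h1, h2⟩
  rcases hside with hs | hs
  · exact AP2S.main hPlC hPlP hK3 hCutT hLvPc hNotFlat hSchA2 (M := M) (M' := M') hL hC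
      ⟨hL.dim, hC.sph, hC.bdd, hS, hloc, hne, hconn, hpp, hcomp, hbD, fun x hx => ⟨hs hx, hx.2⟩⟩
  · have swap : ∀ {X Y Z : Set E}, Sides X Y Z → Sides X Z Y := by
      intro X Y Z h
      exact ⟨h.2.1, h.1, by rw [Set.union_comm]; exact h.2.2.1,
        by rw [Set.inter_comm]; exact h.2.2.2⟩
    exact AP2S.main hPlC hPlP hK3 hCutT hLvPc hNotFlat hSchA2 (M := M') (M' := M) hL hC
      ⟨hL.dim, hC.sph, hC.bdd, swap hS, fun x hx hx0 => swap (hloc x hx hx0), hne, hconn, hpp,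
        hcomp, hbD, fun x hx => ⟨hs hx, hx.2⟩⟩

end Pool.Agent.Work.MP_552024_lc.PLS
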