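import Pool.Agent.Work.MP_552024_lc.PLS.S4L

set_option autoImplicit false

namespace Pool.Agent.Work.MP_552024_lc.PLS

namespace AP2Z

variable {E : Type} [AddCommGroup E] [Module ℚ E]

theorem pol_sph {k : ℕ} {T : Set E} (h : Sph k T) : Pol T := by
  obtain ⟨D₁, D₂, U, rfl, _, h1, h2⟩ := h
  exact h1.1.union h2.1

theorem pol_Hl (u v : E →ₗ[ℚ] ℚ) (t : ℚ) : Pol (Hl u v t) := by
  have : Hl u v t = {x | (v - t • u) x = 0} := by
    ext x
    simp [Hl, sub_eq_zero]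
  rw [this]
  exact pol_hyperplane _

theorem con_sU {S : Set (Set E)} (hS : S.Finite) (h : ∀ s ∈ S, Con s) : Con (⋃₀ S) := by
  induction S, hS using Set.Finite.induction_on with
  | empty =>
    rw [Set.sUnion_empty]
    exact ⟨∅, Set.finite_empty, fun x y _ hx => hx.elim⟩
  | @insert a S _ _ ih =>
    rw [Set.sUnion_insert]
    exact (h a (Set.mem_insert _ _)).union (ih (fun s hs => h s (Set.mem_insert_of_mem _ hs)))

theorem con_FF {L : Set ℚ} (hL : L.Finite) (u v : E →ₗ[ℚ] ℚ) : Con (FF L u v) := by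
  have : FF L u v = ⋃₀ ((fun l => Hl u v l) '' L) := by
    ext x
    simp [FF, Hl]
  rw [this]
  refine con_sU (hL.image _) ?_
  rintro _ ⟨l, _, rfl⟩
  exact (pol_Hl u v l).con

theorem con_bsd [FiniteDimensional ℚ E] (u h : E →ₗ[ℚ] ℚ) {C : Set E} (hC : Pol C) :
    Con (bsd u h C) := by
  have hH : Pol {x : E | h x = 0} := pol_hyperplane h
  obtain ⟨𝓜, hfin, hM, hcov⟩ := exists_components hH hC
  have key : bsd u h C = {x : E | h x = 0} ∩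
      (C ∪ (⋃₀ ((fun M : Set E => M \ C) '' {M | M ∈ 𝓜 ∧ ∃ y ∈ M \ C, u y ≤ 0}))ᶜ) := by
    ext x
    constructor
    · rintro ⟨hx, hx'⟩
      refine ⟨hx, ?_⟩
      rcases hx' with hx' | hx'
      · exact Or.inl hx'
      · right
        rintro ⟨_, ⟨M, ⟨hM1, y, hy, huy⟩, rfl⟩, hxM⟩
        have hcomp := (hM M).1 hM1
        exact hx' ⟨M \ C, hcomp.2.2.2.1, hxM, fun z hz => ⟨hcomp.2.1 hz.1, hz.2⟩, y, hy, huy⟩
    · rintro ⟨hx, hx'⟩
      refine ⟨hx, ?_⟩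
      by_cases hxC : x ∈ C
      · exact Or.inl hxC
      right
      rintro ⟨G, hG, hxG, hGs, y, hy, huy⟩
      obtain ⟨M, hM1, hxM⟩ := hcov x ⟨hx, hxC⟩
      have hsub : G ⊆ M := Comp.sub_of_conn hH hC ((hM M).1 hM1) hG (fun z hz => hGs z hz)
        ⟨x, hxG, hxM⟩
      rcases hx' with h1 | h1
      · exact hxC h1
      · exact h1 ⟨M \ C, ⟨M, ⟨hM1, y, ⟨hsub hy, (hGs y hy).2⟩, huy⟩, rfl⟩, hxM, hxC⟩
  rw [key]
  refine hH.con.inter (hC.con.union (Con.compl (con_sU ?_ ?_)))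
  · exact (hfin.subset (fun M hM => hM.1)).image _
  · rintro _ ⟨M, hM1, rfl⟩
    exact ((hM M).1 hM1.1).1.con.diff hC.con

theorem con_le (u v : E →ₗ[ℚ] ℚ) (c : ℚ) : Con {x : E | v x ≤ c * u x} := by
  have : {x : E | v x ≤ c * u x} = {x | 0 ≤ (c • u - v) x} := by
    ext x
    simp
  rw [this]
  exact (pol_halfspace _).con

theorem con_ge (u v : E →ₗ[ℚ] ℚ) (c : ℚ) : Con {x : E | c * u x ≤ v x} := by
  have : {x : E | c * u x ≤ v x} = {x | 0 ≤ (v - c • u) x} := by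
    ext x
    simp
  rw [this]
  exact (pol_halfspace _).con

theorem con_Up [FiniteDimensional ℚ E] (u v : E →ₗ[ℚ] ℚ) {F M : Set E} (hF : Con F)
    (hM : Pol M) (c : ℚ) : Con (Up u v F M c) :=
  ((hM.con.diff hF).inter (con_le u v c)).union
    ((con_bsd u _ (hM.inter (pol_Hl u v c))).diff pol_zero.con)

theorem con_Dn [FiniteDimensional ℚ E] (u v : E →ₗ[ℚ] ℚ) {F M : Set E} (hF : Con F)
    (hM : Pol M) (c : ℚ) : Con (Dn u v F M c) :=
  ((hM.con.diff hF).inter (con_ge u v c)).union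
    ((con_bsd u _ (hM.inter (pol_Hl u v c))).diff pol_zero.con)

end AP2Z

open AP2Z in
theorem I_P2Z (hLvPc : St_LvPc) (hLvLim : St_LvLim) (hConnS : St_ConnS) : St_P2Z := by
  intro E _ _ _ T₀ u v B L m T W hlv h2
  have hT : Pol T := pol_sph h2.sph
  have hFF := con_FF hlv.lam u v
  -- properties of the pieces
  have hp : ∀ p ∈ W, Con (Pc u v L m p) ∧
      cl (Pc u v L m p) = Pc u v L m p ∪ (p.1 ∩ Hl u v m) ∧ Conn ((p.1 ∩ Hl u v m) \ {0}) := by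
    intro p hpW
    rcases h2.hW p hpW with ⟨c, hA, h3, h4⟩ | ⟨l, hA, h3, h4⟩
    · have e : Pc u v L m p = Up u v (FF L u v) p.1 p.2 := by
        ext x
        constructor
        · rintro (h | h)
          · exact h.2
          · exact absurd h.1 (not_lt.2 h3.le)
        · intro h
          exact Or.inl ⟨h3, h⟩
      have h5 := hLvPc E T₀ u v B L p.1 m c p.2 hlv hA h3 h4
      rw [e]
      exact ⟨con_Up u v hFF hA.comp.1 _, h5.2.2.2.2.1, (hLvLim E T₀ u v B L p.1 m c hlv hA).1⟩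
    · have e : Pc u v L m p = Dn u v (FF L u v) p.1 p.2 := by
        ext x
        constructor
        · rintro (h | h)
          · exact absurd h.1 (not_lt.2 h4.le)
          · exact h.2
        · intro h
          exact Or.inr ⟨h4, h⟩
      have h5 := hLvPc E T₀ u v B L p.1 l m p.2 hlv hA h3 h4
      rw [e]
      exact ⟨con_Dn u v hFF hA.comp.1 _, h5.2.2.2.2.2.1, (hLvLim E T₀ u v B L p.1 l m hlv hA).2⟩
  have hPcT : ∀ p ∈ W, Pc u v L m p ⊆ T \ Hl u v m := fun p hpW x hx =>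
    (h2.cov x).2 ⟨p, hpW, hx⟩
  have hclT : ∀ p ∈ W, cl (Pc u v L m p) ⊆ T := fun p hpW =>
    hT.cl_subset (fun x hx => (hPcT p hpW hx).1)
  have hZp : ∀ p ∈ W, (p.1 ∩ Hl u v m) \ {0} ⊆ (T ∩ Hl u v m) \ {0} := by
    intro p hpW x hx
    refine ⟨⟨hclT p hpW ?_, hx.1.2⟩, hx.2⟩
    rw [(hp p hpW).2.1]
    exact Or.inr hx.1
  refine ⟨?_, ?_⟩
  · obtain ⟨x, hx1, hx2, hx3⟩ := h2.meet
    exact ⟨x, ⟨hx1, hx2⟩, hx3⟩
  intro F₁ F₂ hF1 hF2 hcov hdis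
  -- the two closed sets
  let G : Set E → Set E := fun F =>
    (T ∩ Hl u v m ∩ F) ∪ ({0} ∪ ⋃₀ ((fun p => cl (Pc u v L m p)) '' {p | p ∈ W ∧
      (p.1 ∩ Hl u v m) \ {0} ⊆ F}))
  have hGpol : ∀ F : Set E, Pol F → Pol (G F) := by
    intro F hF
    refine ((hT.inter (pol_Hl u v m)).inter hF).union (pol_sUnion ?_ ?_)
    · exact (h2.fin.subset (fun p hpp => hpp.1)).image _
    · rintro _ ⟨p, hpp, rfl⟩
      exact (hp p hpp.1).1.pol_cl
  -- points of the level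
  have hGl : ∀ F : Set E, ∀ x, x ≠ 0 → x ∈ Hl u v m → x ∈ G F → x ∈ F := by
    intro F x hx0 hxH hxG
    rcases hxG with h | h | ⟨_, ⟨p, hpp, rfl⟩, h⟩
    · exact h.2
    · exact absurd h hx0
    · have h' : x ∈ Pc u v L m p ∪ (p.1 ∩ Hl u v m) := by
        rw [← (hp p hpp.1).2.1]
        exact h
      rcases h' with h' | h'
      · exact absurd hxH (hPcT p hpp.1 h').2
      · exact hpp.2 ⟨h', hx0⟩
  -- the other points
  have hGo : ∀ F : Set E, ∀ x, x ≠ 0 → x ∉ Hl u v m → x ∈ G F →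
      ∃ p ∈ W, (p.1 ∩ Hl u v m) \ {0} ⊆ F ∧ x ∈ Pc u v L m p := by
    intro F x hx0 hxH hxG
    rcases hxG with h | h | ⟨_, ⟨p, hpp, rfl⟩, h⟩
    · exact absurd h.1.2 hxH
    · exact absurd h hx0
    · have h' : x ∈ Pc u v L m p ∪ (p.1 ∩ Hl u v m) := by
        rw [← (hp p hpp.1).2.1]
        exact h
      rcases h' with h' | h'
      · exact ⟨p, hpp.1, hpp.2, h'⟩
      · exact absurd h'.2 hxH
  have hZF : ∀ p ∈ W, (p.1 ∩ Hl u v m) \ {0} ⊆ F₁ ∨ (p.1 ∩ Hl u v m) \ {0} ⊆ F₂ :=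
    fun p hpW => (hp p hpW).2.2.2 F₁ F₂ hF1 hF2 ((hZp p hpW).trans hcov)
      (fun x hx => hdis x (hZp p hpW hx))
  have hmain := (hConnS 1 E T h2.sph).2 (G F₁) (G F₂) (hGpol F₁ hF1) (hGpol F₂ hF2) ?_ ?_
  · rcases hmain with h | h
    · exact Or.inl (fun x hx => hGl F₁ x hx.2 hx.1.2 (h ⟨hx.1.1, hx.2⟩))
    · exact Or.inr (fun x hx => hGl F₂ x hx.2 hx.1.2 (h ⟨hx.1.1, hx.2⟩))
  · intro x hx
    by_cases hxH : x ∈ Hl u v m
    · rcases hcov ⟨⟨hx.1, hxH⟩, hx.2⟩ with h | h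
      · exact Or.inl (Or.inl ⟨⟨hx.1, hxH⟩, h⟩)
      · exact Or.inr (Or.inl ⟨⟨hx.1, hxH⟩, h⟩)
    · obtain ⟨p, hpW, hxp⟩ := (h2.cov x).1 ⟨hx.1, hxH⟩
      rcases hZF p hpW with h | h
      · exact Or.inl (Or.inr (Or.inr ⟨_, ⟨p, ⟨hpW, h⟩, rfl⟩, subset_cl _ hxp⟩))
      · exact Or.inr (Or.inr (Or.inr ⟨_, ⟨p, ⟨hpW, h⟩, rfl⟩, subset_cl _ hxp⟩))
  · intro x hx h1 h3
    by_cases hxH : x ∈ Hl u v m
    · exact hdis x ⟨⟨hx.1, hxH⟩, hx.2⟩ (hGl F₁ x hx.2 hxH h1) (hGl F₂ x hx.2 hxH h3)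
    · obtain ⟨p, hpW, hp1, hp2⟩ := hGo F₁ x hx.2 hxH h1
      obtain ⟨q, hqW, hq1, hq2⟩ := hGo F₂ x hx.2 hxH h3
      by_cases hpq : p = q
      · subst hpq
        obtain ⟨z, hz⟩ := (hp p hpW).2.2.1
        exact hdis z (hZp p hpW hz) (hp1 hz) (hq1 hz)
      · exact h2.dis p hpW q hqW hpq x hp2 hq2

end Pool.Agent.Work.MP_552024_lc.PLS
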