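import Pool.Agent.Work.MP_552024_lc.PLS.S4X

set_option autoImplicit false

/-! Item PPgen: the other points of a generic sphere. -/

namespace Pool.Agent.Work.MP_552024_lc.PLS

namespace APPgen

open SignType

variable {E : Type} [AddCommGroup E] [Module ℚ E]

/-- The form of the level. -/
theorem lev_apply (u v : E →ₗ[ℚ] ℚ) (x y : E) : lev u v x y = u x * v y - v x * u y := by
  simp only [lev, LinearMap.sub_apply, LinearMap.smul_apply, smul_eq_mul]

/-- A nonzero multiple of a ray is a ray. -/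
theorem ray_smul {A : Set (E →ₗ[ℚ] ℚ)} {r : E} (hr : Ray A r) {D : ℚ} (hD : D ≠ 0) :
    Ray A (D • r) := by
  refine ⟨smul_ne_zero hD hr.1, fun y hy => ?_⟩
  obtain ⟨c, hc⟩ := hr.2 y fun a ha h0 => hy a ha (by rw [map_smul, h0, smul_zero])
  refine ⟨c / D, ?_⟩
  rw [smul_smul, div_mul_cancel₀ c hD]
  exact hc

/-- Some generator is not on the level of `x`. -/
theorem exists_off {B : Set (E →ₗ[ℚ] ℚ)} {u v : E →ₗ[ℚ] ℚ} {x : E}
    (hg : ∀ r r', Ray B r → Ray B r' → 0 < u r → 0 < u r' → v r * u r' = v r' * u r → r' ∈ ray r)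
    (hux : 0 < u x) (hx0 : x ≠ 0) (hnr : ¬ Ray B x) {s : Finset E} {c : E → ℚ}
    (hs : ∀ r ∈ s, Ray B r ∧ 0 < u r) (hx : x = ∑ r ∈ s, c r • r) :
    ∃ e ∈ s, lev u v x e ≠ 0 := by
  by_contra hcon
  push Not at hcon
  have hne : s.Nonempty := by
    rcases s.eq_empty_or_nonempty with h | h
    · rw [h, Finset.sum_empty] at hx
      exact absurd hx hx0
    · exact h
  obtain ⟨r₀, hr₀⟩ := hne
  have hmul : ∀ r ∈ s, ∃ d : ℚ, r = d • r₀ := by
    intro r hr
    have h1 := hcon r hr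
    have h2 := hcon r₀ hr₀
    rw [lev_apply] at h1 h2
    have h3 : v r₀ * u r = v r * u r₀ := by
      have h4 : u x * (v r₀ * u r - v r * u r₀) = 0 := by
        linear_combination (u r) * h2 - (u r₀) * h1
      rcases mul_eq_zero.1 h4 with h5 | h5
      · exact absurd h5 hux.ne'
      · linarith
    obtain ⟨d, _, hd⟩ := hg r₀ r (hs r₀ hr₀).1 (hs r hr).1 (hs r₀ hr₀).2 (hs r hr).2 h3
    exact ⟨d, hd⟩
  have hexD : ∃ D : ℚ, x = D • r₀ := by
    choose! d hd using hmul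
    refine ⟨∑ r ∈ s, c r * d r, ?_⟩
    rw [Finset.sum_smul]
    calc x = ∑ r ∈ s, c r • r := hx
      _ = ∑ r ∈ s, (c r * d r) • r₀ :=
        Finset.sum_congr rfl fun r hr => by rw [mul_smul, ← hd r hr]
  obtain ⟨D, hD⟩ := hexD
  have hD0 : D ≠ 0 := by
    rintro rfl
    rw [zero_smul] at hD
    exact hx0 hD
  exact hnr (hD ▸ ray_smul (hs r₀ hr₀).1 hD0)

/-- The germ is invariant under translation along the face of `x`. -/
theorem tg_add_face {B : Set (E →ₗ[ℚ] ℚ)} (hB : B.Finite) {T : Set E} (hT : ClA B T) {x e : E}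
    (he : e ∈ face B x) : ∀ w ∈ Tg x T, ∀ c : ℚ, w + c • e ∈ Tg x T := by
  intro w hw c
  refine tg_inv hB hT.inv w (w + c • e) ?_ hw
  rintro a ⟨ha, hax⟩
  have h0 : a e = 0 := by
    rcases he a ha with h | h
    · exact h
    · rw [hax, sign_zero, sign_eq_zero_iff] at h
      exact h
  rw [map_add, map_smul, h0, smul_zero, add_zero]

end APPgen

open APPgen in
/-- The other points of a generic sphere. -/
theorem I_PPgen (hRD : St_RD) (hTD : St_TD) : St_PPgen := by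
  intro E _ _ _ T B u v x _ _ hbd hB hspn hT hg hxT hx0 hnr
  obtain ⟨s, c, hs, hx⟩ := hRD E B hB hspn x
  have hux : 0 < u x := hbd x hxT hx0
  have hsu : ∀ r ∈ s, Ray B r ∧ 0 < u r := fun r hr =>
    ⟨(hs r hr).1, hbd r (hT x hxT (hs r hr).2.1) (hs r hr).1.1⟩
  obtain ⟨e, hes, hle⟩ := exists_off hg hux hx0 hnr hsu hx
  have h0T : (0 : E) ∈ T := hT x hxT fun a _ => Or.inl (map_zero a)
  have hpol : Pol (Tg x T) := tg_pol (hT.pol hB h0T) hxT
  intro M hM
  exact hTD E (Tg x T) M (lev u v x) e hpol (tg_add_face hB hT (hs e hes).2.1) hle hM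

end Pool.Agent.Work.MP_552024_lc.PLS
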