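import Pool.Agent.Work.MP_552024_lc.PLS.S4L

set_option autoImplicit false

namespace Pool.Agent.Work.MP_552024_lc.PLS

namespace APlA

variable {E : Type} [AddCommGroup E] [Module ℚ E]

theorem sph_pol {k : ℕ} {T : Set E} (h : Sph k T) : Pol T := by
  obtain ⟨D₁, D₂, U, rfl, _, h1, h2⟩ := h
  exact h1.1.union h2.1

theorem tg_hyp (h : E →ₗ[ℚ] ℚ) {x : E} (hx : h x = 0) : Tg x {y | h y = 0} = {y | h y = 0} := by
  ext v
  constructor
  · rintro ⟨ε, hε, H⟩
    have h1 : h (x + ε • v) = 0 := H ε hε le_rfl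
    rw [map_add, hx, zero_add, map_smul, smul_eq_mul] at h1
    exact (mul_eq_zero.1 h1).resolve_left hε.ne'
  · intro hv
    have hv' : h v = 0 := hv
    refine ⟨1, one_pos, fun s _ _ => ?_⟩
    show h (x + s • v) = 0
    rw [map_add, hx, zero_add, map_smul, hv', smul_zero]

theorem main [FiniteDimensional ℚ E] {T M D : Set E} {h : E →ₗ[ℚ] ℚ} {x : E} (hT : Pol T)
    (hD : Comp D {y | h y = 0} (T ∩ {y | h y = 0})) (hDM : D \ T ⊆ M \ T) (hxD : x ∈ D)
    (hxT : x ∈ T) (hx0 : x ≠ 0)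
    (hK : (Tg x M \ Tg x T) ∩ {y | h y = 0} = ∅ ∨ Conn ((Tg x M \ Tg x T) ∩ {y | h y = 0})) :
    Tg x D \ Tg x T = (Tg x M \ Tg x T) ∩ {y | h y = 0} ∧
      Tg x D = cl ((Tg x M \ Tg x T) ∩ {y | h y = 0}) := by
  have hH : Pol {y | h y = 0} := pol_hyperplane h
  have hDH : D ⊆ {y | h y = 0} := hD.sub
  have hx : h x = 0 := hDH hxD
  have hHg : Tg x {y | h y = 0} = {y | h y = 0} := tg_hyp h hx
  have e0 : D \ (T ∩ {y | h y = 0}) = D \ T := by
    ext y
    constructor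
    · rintro ⟨h1, h2⟩
      exact ⟨h1, fun h3 => h2 ⟨h3, hDH h1⟩⟩
    · rintro ⟨h1, h2⟩
      exact ⟨h1, fun h3 => h2 h3.1⟩
  have e1 : cl (D \ T) = D := by
    rw [← e0]; exact hD.cl_eq
  have hDT : Con (D \ T) := hD.pol.con.diff hT.con
  have hxc : x ∈ cl (D \ T) := by rw [e1]; exact hxD
  have e2 : Tg x D = cl (Tg x D \ Tg x T) := by
    have h1 := tg_cl hDT hxc hx0
    rw [e1, tg_diff hT.con] at h1
    exact h1
  have ne : (Tg x D \ Tg x T).Nonempty := by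
    rcases hxc with h1 | ⟨y, _, hy⟩
    · exact absurd h1 hx0
    · refine ⟨y - x, ?_⟩
      rw [← tg_diff hT.con]
      exact ⟨1, one_pos, fun s h0 h1 => hy s h0 h1⟩
  have s1 : Tg x D \ Tg x T ⊆ (Tg x M \ Tg x T) ∩ {y | h y = 0} := by
    intro v hv
    constructor
    · rw [← tg_diff hT.con] at hv ⊢
      exact tg_mono hDM hv
    · have h1 := tg_mono hDH hv.1
      rw [hHg] at h1
      exact h1
  have hKc : Conn ((Tg x M \ Tg x T) ∩ {y | h y = 0}) := by
    rcases hK with h1 | h1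
    · obtain ⟨v, hv⟩ := ne
      have h2 := s1 hv
      rw [h1] at h2
      exact h2.elim
    · exact h1
  have hRc : Con ({y | h y = 0} \ ((T ∩ {y | h y = 0}) ∪ D)) :=
    hH.con.diff ((hT.con.inter hH.con).union hD.pol.con)
  have s2 : (Tg x M \ Tg x T) ∩ {y | h y = 0} ⊆ Tg x D := by
    have hTg : Tg x ({y | h y = 0} \ ((T ∩ {y | h y = 0}) ∪ D)) =
        Tg x {y | h y = 0} \ (Tg x (T ∩ {y | h y = 0}) ∪ Tg x D) := by
      rw [tg_diff ((hT.con.inter hH.con).union hD.pol.con), tg_union (hT.con.inter hH.con)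
        hD.pol.con]
    have dis : ∀ y ∈ (Tg x M \ Tg x T) ∩ {y | h y = 0}, y ∈ Tg x D →
        y ∉ cl (Tg x ({y | h y = 0} \ ((T ∩ {y | h y = 0}) ∪ D))) := by
      intro y hy hyD hyc
      have hy0 : y ≠ 0 := by
        rintro rfl
        exact hy.1.2 (zero_mem_tg.2 hxT)
      have hne : (Tg x ({y | h y = 0} \ ((T ∩ {y | h y = 0}) ∪ D))).Nonempty := by
        rcases hyc with h1 | ⟨z, hz, _⟩
        · exact absurd h1 hy0
        · exact ⟨z, hz⟩
      have hxR : x ∈ cl ({y | h y = 0} \ ((T ∩ {y | h y = 0}) ∪ D)) :=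
        mem_of_tg_nonempty hRc.pol_cl (hne.mono (tg_mono (subset_cl _)))
      rw [← tg_cl hRc hxR hx0] at hyc
      have h1 : y ∈ Tg x (cl ({y | h y = 0} \ ((T ∩ {y | h y = 0}) ∪ D)) ∩ D) := by
        rw [tg_inter]
        exact ⟨hyc, hyD⟩
      have h2 := tg_mono hD.rest h1
      rw [tg_inter] at h2
      exact hy.1.2 h2.1
    have cov : (Tg x M \ Tg x T) ∩ {y | h y = 0} ⊆
        Tg x D ∪ cl (Tg x ({y | h y = 0} \ ((T ∩ {y | h y = 0}) ∪ D))) := by
      intro y hy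
      by_cases hyD : y ∈ Tg x D
      · exact Or.inl hyD
      · right
        apply subset_cl
        rw [hTg]
        refine ⟨?_, ?_⟩
        · rw [hHg]; exact hy.2
        · rintro (h1 | h1)
          · rw [tg_inter] at h1
            exact hy.1.2 h1.1
          · exact hyD h1
    rcases hKc.2 (Tg x D) (cl (Tg x ({y | h y = 0} \ ((T ∩ {y | h y = 0}) ∪ D))))
      (tg_pol hD.pol hxD) (tg_con hRc).pol_cl cov dis with h1 | h1
    · exact h1
    · obtain ⟨v, hv⟩ := ne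
      exact absurd (h1 (s1 hv)) (dis v (s1 hv) hv.1)
  have e3 : Tg x D \ Tg x T = (Tg x M \ Tg x T) ∩ {y | h y = 0} :=
    subset_antisymm s1 fun y hy => ⟨s2 hy, hy.1.2⟩
  refine ⟨e3, ?_⟩
  rw [← e3]
  exact e2

end APlA

theorem I_PlA : St_PlA := by
  intro E _ _ _ T M M' h u D x H hxD hxT hx0
  have hx : h x = 0 := H.comp.sub hxD
  exact APlA.main (APlA.sph_pol H.sph) H.comp H.side hxD hxT hx0
    (H.pp x hxT hx hx0 (Tg x M) (H.loc x hxT hx0).1)

end Pool.Agent.Work.MP_552024_lc.PLS
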