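import Pool.Agent.Work.MP_552024_lc.PLS.S4L

set_option autoImplicit false

/-! Item PlB: regularity of the boundary of a component. -/

namespace Pool.Agent.Work.MP_552024_lc.PLS

namespace APlB

open SignType

theorem pol_pre {E E' : Type*} [AddCommGroup E] [Module ℚ E] [AddCommGroup E'] [Module ℚ E']
    (π : E →ₗ[ℚ] E') {F : Set E'} (hF : Pol F) : Pol {y | π y ∈ F} := by
  obtain ⟨h0, A, hA, H⟩ := hF
  refine ⟨by change π 0 ∈ F; rw [map_zero]; exact h0, (fun a => a.comp π) '' A, hA.image _, ?_⟩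
  intro y hy z hz
  refine H (π y) hy (fun a ha => ?_)
  exact hz (a.comp π) ⟨a, ha, rfl⟩

theorem pol_ray {E : Type*} [AddCommGroup E] [Module ℚ E] [FiniteDimensional ℚ E] {x : E}
    (hx : x ≠ 0) : Pol (ray x) := by
  obtain ⟨A, hA, H⟩ := exists_pointed E
  obtain ⟨f, hf⟩ : ∃ f : E →ₗ[ℚ] ℚ, f x = 1 := by
    have h1 : ∃ a ∈ A, a x ≠ 0 := by
      by_contra hc
      push Not at hc
      exact hx (H x hc)
    obtain ⟨a, _, ha⟩ := h1
    exact ⟨(a x)⁻¹ • a, by rw [LinearMap.smul_apply, smul_eq_mul, inv_mul_cancel₀ ha]⟩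
  refine ⟨⟨0, le_rfl, by rw [zero_smul]⟩, insert f ((fun a => a - a x • f) '' A),
    (hA.image _).insert _, ?_⟩
  rintro y ⟨c, hc, rfl⟩ w hw
  refine ⟨f w, ?_, ?_⟩
  · rcases hw f (Set.mem_insert _ _) with h1 | h1
    · exact h1.ge
    · rw [map_smul, hf, smul_eq_mul, mul_one] at h1
      rcases hc.eq_or_lt with h2 | h2
      · rw [← h2, sign_zero, sign_eq_zero_iff] at h1
        exact h1.ge
      · rw [sign_pos h2, sign_eq_one_iff] at h1
        exact h1.le
  · have h2 : w - f w • x = 0 := by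
      refine H _ (fun a ha => ?_)
      have h3 : (a - a x • f) w = 0 := by
        rcases hw (a - a x • f) (Set.mem_insert_of_mem _ ⟨a, ha, rfl⟩) with h1 | h1
        · exact h1
        · have h4 : (a - a x • f) (c • x) = 0 := by
            rw [map_smul, LinearMap.sub_apply, LinearMap.smul_apply, hf, smul_eq_mul, smul_eq_mul,
              mul_one, sub_self, mul_zero]
          rw [h4, sign_zero, sign_eq_zero_iff] at h1
          exact h1
      rw [LinearMap.sub_apply, LinearMap.smul_apply, smul_eq_mul] at h3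
      rw [map_sub, map_smul, smul_eq_mul]
      linarith
    exact sub_eq_zero.1 h2

theorem setup {E : Type} [AddCommGroup E] [Module ℚ E] [FiniteDimensional ℚ E]
    (hdim : Module.finrank ℚ E = 4) (h : E →ₗ[ℚ] ℚ) (hne : h ≠ 0) (x : E) (hx : h x = 0)
    (hx0 : x ≠ 0) :
    ∃ (π : E →ₗ[ℚ] (Fin 2 → ℚ)) (τ : (Fin 2 → ℚ) →ₗ[ℚ] E), (∀ z, h (τ z) = 0) ∧
      (∀ z, π (τ z) = z) ∧ π x = 0 ∧ ∀ y, h y = 0 → ∃ a : ℚ, y = a • x + τ (π y) := by
  have hK3 : Module.finrank ℚ (LinearMap.ker h) = 3 := by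
    have := Module.Dual.finrank_ker_add_one_of_ne_zero hne
    omega
  let x' : LinearMap.ker h := ⟨x, hx⟩
  have hx'0 : x' ≠ 0 := fun hh => hx0 (congrArg Subtype.val hh)
  obtain ⟨C, hC⟩ := Submodule.exists_isCompl (Submodule.span ℚ {x'})
  have hC2 : Module.finrank ℚ C = 2 := by
    have h1 := Submodule.finrank_add_eq_of_isCompl hC
    rw [finrank_span_singleton hx'0, hK3] at h1
    omega
  let e : C ≃ₗ[ℚ] (Fin 2 → ℚ) := (Module.finBasisOfFinrankEq ℚ C hC2).equivFun
  obtain ⟨q, hq1, hq2⟩ : ∃ q : LinearMap.ker h →ₗ[ℚ] C, (∀ c : C, q c = c) ∧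
      ∀ y, q y = 0 ↔ y ∈ Submodule.span ℚ {x'} :=
    ⟨Submodule.projectionOnto C _ hC.symm, fun c => Submodule.projectionOnto_apply_left _ c,
      fun y => Submodule.projectionOnto_apply_eq_zero_iff _⟩
  obtain ⟨π, hπ⟩ := LinearMap.exists_extend (e.toLinearMap ∘ₗ q)
  have hπ' : ∀ y : LinearMap.ker h, π y.1 = e (q y) := fun y => LinearMap.congr_fun hπ y
  refine ⟨π, (LinearMap.ker h).subtype ∘ₗ C.subtype ∘ₗ e.symm.toLinearMap, fun z => ?_,
    fun z => ?_, ?_, fun y hy => ?_⟩
  · exact (C.subtype (e.symm z)).2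
  · change π (((e.symm z : C) : LinearMap.ker h) : E) = z
    rw [hπ', hq1, LinearEquiv.apply_symm_apply]
  · have h1 := hπ' x'
    have h2 : q x' = 0 := by
      rw [hq2]
      exact Submodule.mem_span_singleton_self x'
    rw [h2, map_zero] at h1
    exact h1
  · obtain ⟨y', rfl⟩ : ∃ y' : LinearMap.ker h, y'.1 = y := ⟨⟨y, hy⟩, rfl⟩
    have h2 : y' - (q y' : LinearMap.ker h) ∈ Submodule.span ℚ {x'} := by
      rw [← hq2, map_sub, hq1, sub_self]
    obtain ⟨a, ha⟩ := Submodule.mem_span_singleton.1 h2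
    refine ⟨a, ?_⟩
    change y'.1 = a • x + (((e.symm (π y'.1) : C) : LinearMap.ker h) : E)
    rw [hπ', LinearEquiv.symm_apply_apply]
    have h5 : a • x = y'.1 - (q y' : LinearMap.ker h).1 := congrArg Subtype.val ha
    rw [h5, sub_add_cancel]

/-- In the plane: the complement of the line spanned by `p` is not connected, seen from a point
of the ray of `p`. -/
theorem caseB {E : Type} [AddCommGroup E] [Module ℚ E] [FiniteDimensional ℚ E]
    (h : E →ₗ[ℚ] ℚ) (π : E →ₗ[ℚ] (Fin 2 → ℚ)) (τ : (Fin 2 → ℚ) →ₗ[ℚ] E)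
    (hτ : ∀ z, h (τ z) = 0) (hπτ : ∀ z, π (τ z) = z) (p : Fin 2 → ℚ) (hp : p ≠ 0) (s : ℚ)
    (hs : 0 < s) (y1 : E) (hy1 : π y1 = s • p) (hy1h : h y1 = 0) (K K1 : Set E)
    (hK : ∀ y, h y = 0 → (y ∈ K ↔ π y ∉ ray p)) (hK1 : K1 = Tg y1 K ∩ {y | h y = 0}) :
    K1.Nonempty ∧ ¬ Conn K1 := by
  -- the form with kernel spanned by `p`
  let φ : (Fin 2 → ℚ) →ₗ[ℚ] ℚ := p 0 • LinearMap.proj 1 - p 1 • LinearMap.proj 0
  have hφ : ∀ z : Fin 2 → ℚ, φ z = p 0 * z 1 - p 1 * z 0 := fun z => rfl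
  have hφp : φ p = 0 := by rw [hφ]; ring
  have hφray : ∀ w ∈ ray p, φ w = 0 := by
    rintro w ⟨c, _, rfl⟩
    rw [map_smul, hφp, smul_zero]
  have hker : ∀ z, φ z = 0 → ∃ c : ℚ, z = c • p := by
    intro z hz
    rw [hφ] at hz
    by_cases h0 : p 0 = 0
    · have h1 : p 1 ≠ 0 := by
        intro h1
        apply hp
        funext i
        fin_cases i
        · exact h0
        · exact h1
      rw [h0, zero_mul, zero_sub, neg_eq_zero, mul_eq_zero] at hz
      have hz0 := hz.resolve_left h1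
      refine ⟨z 1 / p 1, ?_⟩
      funext i
      fin_cases i
      · change z 0 = z 1 / p 1 * p 0
        rw [h0, hz0, mul_zero]
      · change z 1 = z 1 / p 1 * p 1
        field_simp
    · refine ⟨z 0 / p 0, ?_⟩
      funext i
      fin_cases i
      · change z 0 = z 0 / p 0 * p 0
        field_simp
      · change z 1 = z 0 / p 0 * p 1
        field_simp
        linarith
  -- description of `K1`
  have hmem : ∀ v, h v = 0 → (v ∈ K1 ↔ φ (π v) ≠ 0) := by
    intro v hv
    have hline : ∀ r : ℚ, h (y1 + r • v) = 0 := fun r => by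
      rw [map_add, map_smul, hy1h, hv, smul_zero, add_zero]
    rw [hK1]
    constructor
    · rintro ⟨⟨ε, hε, H⟩, _⟩ h0
      obtain ⟨c, hc⟩ := hker _ h0
      have hpos : 0 < 1 + |c| := by positivity
      have h1 := H (min ε (s / (1 + |c|))) (lt_min hε (by positivity)) (min_le_left _ _)
      rw [hK _ (hline _)] at h1
      apply h1
      refine ⟨s + min ε (s / (1 + |c|)) * c, ?_, ?_⟩
      · have h2 : min ε (s / (1 + |c|)) ≤ s / (1 + |c|) := min_le_right _ _
        have h3 : 0 < min ε (s / (1 + |c|)) := lt_min hε (by positivity)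
        rw [le_div_iff₀ hpos] at h2
        have h4 : -|c| ≤ c := neg_abs_le c
        nlinarith
      · rw [map_add, map_smul, hy1, hc, add_smul, mul_smul]
    · intro h0
      refine ⟨⟨1, one_pos, fun r hr _ => ?_⟩, hv⟩
      rw [hK _ (hline _)]
      intro h1
      have h2 := hφray _ h1
      rw [map_add, map_smul, hy1, map_add, map_smul, map_smul, hφp, smul_zero, zero_add,
        smul_eq_mul] at h2
      exact (mul_ne_zero hr.ne' h0) h2
  have hK1h : ∀ v ∈ K1, h v = 0 := by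
    intro v hv
    rw [hK1] at hv
    exact hv.2
  -- a vector on which `φ` is positive
  obtain ⟨z, hz⟩ : ∃ z : Fin 2 → ℚ, 0 < φ z := by
    refine ⟨fun i => if i = 0 then - p 1 else p 0, ?_⟩
    rw [hφ]
    change 0 < p 0 * p 0 - p 1 * (- p 1)
    by_cases h0 : p 0 = 0
    · have h1 : p 1 ≠ 0 := by
        intro h1
        apply hp
        funext i
        fin_cases i
        · exact h0
        · exact h1
      have : 0 < p 1 * p 1 := mul_self_pos.2 h1
      rw [h0]; linarith
    · have h1 : 0 < p 0 * p 0 := mul_self_pos.2 h0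
      have h2 : 0 ≤ p 1 * p 1 := mul_self_nonneg _
      linarith
  have hz1 : τ z ∈ K1 := by
    rw [hmem _ (hτ z), hπτ]; exact hz.ne'
  have hz2 : τ (-z) ∈ K1 := by
    rw [hmem _ (hτ _), hπτ, map_neg]
    exact neg_ne_zero.2 hz.ne'
  refine ⟨⟨_, hz1⟩, fun hconn => ?_⟩
  have hpolF : ∀ ψ : (Fin 2 → ℚ) →ₗ[ℚ] ℚ, Pol {y : E | 0 ≤ ψ (π y)} := by
    intro ψ
    refine ⟨by change 0 ≤ ψ (π 0); rw [map_zero, map_zero], {ψ.comp π}, Set.finite_singleton _, ?_⟩
    intro y hy w hw
    rcases hw (ψ.comp π) rfl with h1 | h1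
    · exact h1.ge
    · change 0 ≤ ψ (π y) at hy
      change sign (ψ (π w)) = sign (ψ (π y)) at h1
      change 0 ≤ ψ (π w)
      rcases hy.eq_or_lt with h2 | h2
      · rw [← h2, sign_zero, sign_eq_zero_iff] at h1
        exact h1.ge
      · rw [sign_pos h2, sign_eq_one_iff] at h1
        exact h1.le
  rcases hconn.2 {y | 0 ≤ φ (π y)} {y | 0 ≤ (-φ) (π y)} (hpolF φ) (hpolF (-φ)) (by
      intro y _
      rcases le_total 0 (φ (π y)) with h1 | h1
      · exact Or.inl h1
      · right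
        change 0 ≤ (-φ) (π y)
        rw [LinearMap.neg_apply]
        linarith) (by
      intro y hy h1 h2
      change 0 ≤ φ (π y) at h1
      change 0 ≤ (-φ) (π y) at h2
      rw [LinearMap.neg_apply] at h2
      exact (hmem y (hK1h y hy)).1 hy (le_antisymm (by linarith) h1)) with h1 | h1
  · have h2 := h1 hz2
    change 0 ≤ φ (π (τ (-z))) at h2
    rw [hπτ, map_neg] at h2
    linarith
  · have h2 := h1 hz1
    change 0 ≤ (-φ) (π (τ z)) at h2
    rw [hπτ, LinearMap.neg_apply] at h2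
    linarith

end APlB

open APlB in
theorem I_PlB (hPlA : St_PlA) (hPF : St_PF) (hConnP : St_ConnP) : St_PlB := by
  intro E _ _ _ T M M' h u D x hP hxD hxT hx0
  have hTeq : M ∩ M' = T := hP.sides.2.2.2
  have hMp : Pol M := hP.sides.1.pol
  have hM'p : Pol M' := hP.sides.2.1.pol
  have hTp : Pol T := by rw [← hTeq]; exact hMp.inter hM'p
  have hDp : Pol D := hP.comp.pol
  have hxh : h x = 0 := hP.comp.sub hxD
  have hHp : Pol {y : E | h y = 0} := by
    refine ⟨map_zero h, {h}, Set.finite_singleton _, ?_⟩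
    intro y hy w hw
    rcases hw h rfl with h1 | h1
    · exact h1
    · change h y = 0 at hy
      rw [hy, sign_zero, sign_eq_zero_iff] at h1
      exact h1
  obtain ⟨π, τ, hτ, hπτ, hπx, hdec⟩ := setup hP.dim h hP.hne x hxh hx0
  obtain ⟨hA1, hA2⟩ := hPlA E T M M' h u D x hP hxD hxT hx0
  have hloc := hP.loc x hxT hx0
  obtain ⟨K, hK⟩ : ∃ K : Set E, K = (Tg x M \ Tg x T) ∩ {y | h y = 0} := ⟨_, rfl⟩
  rw [← hK] at hA1 hA2
  -- `K` is connected
  have hKc : Conn K := by
    rcases hP.pp x hxT hxh hx0 (Tg x M) hloc.1 with h1 | h1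
    · exfalso
      have h2 : (1 : ℚ) • x ∈ Tg x D := self_mem_tg hDp.con hxD 1
      rw [hA2, hK, h1, cl_empty, one_smul] at h2
      exact hx0 h2
    · rw [hK]; exact h1
  have hKh : ∀ y ∈ K, h y = 0 := by
    intro y hy
    rw [hK] at hy
    exact hy.2
  have hKadd : ∀ (y : E) (c : ℚ), y ∈ K → y + c • x ∈ K := by
    intro y c hy
    rw [hK] at hy ⊢
    refine ⟨⟨(tg_add hMp.con y c).2 hy.1.1, fun h1 => hy.1.2 ((tg_add hTp.con y c).1 h1)⟩, ?_⟩
    change h (y + c • x) = 0
    rw [map_add, map_smul, hxh, smul_zero, add_zero]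
    exact hy.2
  have hKx : ∀ c : ℚ, c • x ∈ cl K := by
    intro c
    rw [← hA2]
    exact self_mem_tg hDp.con hxD c
  -- the section of `K`
  obtain ⟨k, hkdef⟩ : ∃ k : Set (Fin 2 → ℚ), k = {z | τ z ∈ K} := ⟨_, rfl⟩
  have hk : ∀ y, h y = 0 → (y ∈ K ↔ π y ∈ k) := by
    intro y hy
    obtain ⟨a, ha⟩ := hdec y hy
    rw [hkdef]
    constructor
    · intro h1
      have h2 := hKadd y (-a) h1
      have h3 : y + (-a) • x = τ (π y) := by
        rw [neg_smul, ← sub_eq_add_neg, sub_eq_iff_eq_add', ← ha]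
      rw [h3] at h2
      exact h2
    · intro h1
      have h2 := hKadd _ a h1
      rw [add_comm, ← ha] at h2
      exact h2
  have hkc : Pol kᶜ := by
    have h1 : kᶜ = {z | τ z ∈ Tg x M'} := by
      ext z
      rw [hkdef]
      change ¬ (τ z ∈ K) ↔ τ z ∈ Tg x M'
      rw [hK]
      have hu : τ z ∈ Tg x M ∪ Tg x M' := by rw [hloc.2.2.1]; trivial
      have hi : τ z ∈ Tg x T ↔ τ z ∈ Tg x M ∧ τ z ∈ Tg x M' := by
        rw [← hloc.2.2.2]; rfl
      constructor
      · intro h1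
        by_contra h2
        exact h1 ⟨⟨hu.resolve_right h2, fun h3 => h2 (hi.1 h3).2⟩, hτ z⟩
      · rintro h1 ⟨⟨h2, h3⟩, _⟩
        exact h3 (hi.2 ⟨h2, h1⟩)
    rw [h1]
    have hxM' : x ∈ M' := by rw [← hTeq] at hxT; exact hxT.2
    exact pol_pre τ (tg_pol hM'p hxM')
  have hkconn : Conn k := by
    obtain ⟨⟨y0, hy0⟩, hcon⟩ := hKc
    refine ⟨⟨π y0, (hk y0 (hKh y0 hy0)).1 hy0⟩, fun F₁ F₂ hF₁ hF₂ hcov hdis => ?_⟩
    have hback : ∀ z ∈ k, τ z ∈ K := by
      intro z hz
      rw [hkdef] at hz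
      exact hz
    rcases hcon {y | π y ∈ F₁} {y | π y ∈ F₂} (pol_pre π hF₁) (pol_pre π hF₂)
      (fun y hy => hcov ((hk y (hKh y hy)).1 hy))
      (fun y hy h1 h2 => hdis _ ((hk y (hKh y hy)).1 hy) h1 h2) with h1 | h1
    · left
      intro z hz
      have h2 := h1 (hback z hz)
      change π (τ z) ∈ F₁ at h2
      rwa [hπτ] at h2
    · right
      intro z hz
      have h2 := h1 (hback z hz)
      change π (τ z) ∈ F₂ at h2
      rwa [hπτ] at h2
  have hclh : ∀ y ∈ cl K, h y = 0 := fun y hy => hHp.cl_subset hKh hy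
  have hcl : ∀ y, h y = 0 → (y ∈ cl K ↔ π y ∈ cl k) := by
    intro y hy
    constructor
    · rintro (h1 | ⟨w, hw, H⟩)
      · left
        rw [h1, map_zero]
      · right
        refine ⟨π w, (hk w (hKh w hw)).1 hw, fun t h0 h1 => ?_⟩
        have h2 := H t h0 h1
        have h3 := (hk _ (hKh _ h2)).1 h2
        rw [map_add, map_smul, map_sub] at h3
        exact h3
    · rintro (h1 | ⟨z, hz, H⟩)
      · obtain ⟨a, ha⟩ := hdec y hy
        rw [h1, map_zero, add_zero] at ha
        rw [ha]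
        exact hKx a
      · right
        have hw : ∀ t : ℚ, h (y + t • τ (z - π y)) = 0 := fun t => by
          rw [map_add, map_smul, hy, hτ, smul_zero, add_zero]
        refine ⟨y + τ (z - π y), ?_, fun t h0 h1 => ?_⟩
        · have h2 := hw 1
          rw [one_smul] at h2
          rw [hk _ h2, map_add, hπτ, add_sub_cancel]
          exact hz
        · rw [add_sub_cancel_left, hk _ (hw t), map_add, map_smul, hπτ]
          exact H t h0 h1
  have hS : ∀ y, y ∈ Tg x (D ∩ T) ↔ h y = 0 ∧ π y ∈ cl k \ k := by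
    intro y
    have h1 : y ∈ Tg x (D ∩ T) ↔ y ∈ cl K ∧ y ∉ K := by
      rw [tg_inter]
      constructor
      · rintro ⟨h1, h2⟩
        refine ⟨by rw [← hA2]; exact h1, fun h3 => ?_⟩
        rw [← hA1] at h3
        exact h3.2 h2
      · rintro ⟨h1, h2⟩
        rw [← hA2] at h1
        rw [← hA1] at h2
        refine ⟨h1, ?_⟩
        by_contra h3
        exact h2 ⟨h1, h3⟩
    rw [h1]
    constructor
    · rintro ⟨h2, h3⟩
      have h4 := hclh y h2
      exact ⟨h4, (hcl y h4).1 h2, fun h5 => h3 ((hk y h4).2 h5)⟩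
    · rintro ⟨h2, h3, h4⟩
      exact ⟨(hcl y h2).2 h3, fun h5 => h4 ((hk y h2).1 h5)⟩
  rcases hPF (Fin 2 → ℚ) k (by simp) hkc hkconn with h1 | ⟨p, hp, h1, h2⟩ |
      ⟨p, q, hp, hq, hqp, h1⟩
  · -- case (a)
    exfalso
    have h0k : (0 : Fin 2 → ℚ) ∉ k := by
      have h2 : (0 : Fin 2 → ℚ) ∈ cl k \ k := by rw [h1]; rfl
      exact h2.2
    have hall : ∀ z : Fin 2 → ℚ, z ≠ 0 → z ∈ k := by
      have hC := hConnP 0 (Fin 2 → ℚ) (by simp)
      have hkcon : Con k := by
        have := hkc.con.compl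
        rwa [compl_compl] at this
      rcases hC.2 (cl k) kᶜ hkcon.pol_cl hkc (by
          intro z _
          by_cases h2 : z ∈ k
          · exact Or.inl (subset_cl _ h2)
          · exact Or.inr h2) (by
          intro z hz h2 h3
          have h4 : z ∈ cl k \ k := ⟨h2, h3⟩
          rw [h1] at h4
          exact hz h4) with h2 | h2
      · intro z hz
        by_contra h3
        have h4 : z ∈ cl k \ k := ⟨h2 hz, h3⟩
        rw [h1] at h4
        exact hz h4
      · exfalso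
        obtain ⟨z, hz⟩ := hkconn.1
        exact h2 (show z ∈ {z : Fin 2 → ℚ | z ≠ 0} from fun h3 => h0k (h3 ▸ hz)) hz
    -- the germ of `T ∩ H` is the line of `x`
    have hline : ∀ y, y ∈ Tg x T → h y = 0 → ∃ a : ℚ, y = a • x := by
      intro y hyT hyh
      obtain ⟨a, ha⟩ := hdec y hyh
      have h2 : y ∉ K := by
        rw [hK]
        exact fun h3 => h3.1.2 hyT
      rw [hk y hyh] at h2
      have h3 : π y = 0 := by
        by_contra h4
        exact h2 (hall _ h4)
      rw [h3, map_zero, add_zero] at ha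
      exact ⟨a, ha⟩
    have hrp : Pol (ray x) := pol_ray hx0
    have hPp : Pol (T ∩ {y | h y = 0}) := hTp.inter hHp
    have hPray : (T ∩ {y | h y = 0}) \ {0} ⊆ ray x := by
      have hcon : Con ((T ∩ {y | h y = 0}) \ ray x) := hPp.con.diff hrp.con
      have hdis : ∀ y ∈ (T ∩ {y | h y = 0}) \ {0}, y ∈ ray x →
          y ∉ cl ((T ∩ {y | h y = 0}) \ ray x) := by
        rintro y ⟨_, hy0⟩ ⟨c, hc, rfl⟩ h2
        obtain ⟨A, hA, HA⟩ := hPp.con
        obtain ⟨B, hB, HB⟩ := hrp.con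
        have hAB : (A ∪ B).Finite := hA.union hB
        have iA : InvA (A ∪ B) (T ∩ {y | h y = 0}) :=
          InvA.mono (A := A) HA Set.subset_union_left
        have iB : InvA (A ∪ B) (ray x) := InvA.mono (A := B) HB Set.subset_union_right
        have hc0 : 0 < c := by
          rcases hc.eq_or_lt with h3 | h3
          · exact absurd (show c • x ∈ ({0} : Set E) by rw [← h3, zero_smul]; rfl) hy0
          · exact h3
        rw [mem_cl_iff hAB (iA.diff iB)] at h2
        rcases h2 with h2 | ⟨w, ⟨hw1, hw2⟩, hw3⟩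
        · exact hy0 h2
        · have hxw : x ∈ face (A ∪ B) w := by
            intro a ha
            rcases hw3 a ha with h3 | h3
            · left
              rw [map_smul, smul_eq_mul] at h3
              exact (mul_eq_zero.1 h3).resolve_left hc0.ne'
            · right
              rw [map_smul, smul_eq_mul, sign_mul, sign_pos hc0, one_mul] at h3
              exact h3
          have h3 := (tg_near hAB iA hxw).2 hw1
          rw [tg_inter] at h3
          obtain ⟨a, ha⟩ := hline w h3.1 hw1.2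
          have h4 : a • x ∈ Tg x (ray x) :=
            self_mem_tg hrp.con ⟨1, zero_le_one, (one_smul ℚ x).symm⟩ a
          rw [← ha] at h4
          exact hw2 ((tg_near hAB iB hxw).1 h4)
      rcases hP.conn.2 (ray x) (cl ((T ∩ {y | h y = 0}) \ ray x)) hrp hcon.pol_cl (by
          intro y hy
          by_cases h2 : y ∈ ray x
          · exact Or.inl h2
          · exact Or.inr (subset_cl _ ⟨hy.1, h2⟩)) hdis with h2 | h2
      · exact h2
      · exfalso
        have h3 : x ∈ (T ∩ {y | h y = 0}) \ {0} := ⟨⟨hxT, hxh⟩, hx0⟩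
        exact hdis x h3 ⟨1, zero_le_one, (one_smul ℚ x).symm⟩ (h2 h3)
    have hPray' : ∀ z, z ∈ T → h z = 0 → ∃ c : ℚ, 0 ≤ c ∧ z = c • x := by
      intro z hz hzh
      by_cases h2 : z = 0
      · exact ⟨0, le_rfl, by rw [h2, zero_smul]⟩
      · exact hPray ⟨⟨hz, hzh⟩, h2⟩
    obtain ⟨y, hyD, hyT⟩ := hP.comp.nonempty
    have hyh : h y = 0 := hP.comp.sub hyD
    have hyray : ∀ c : ℚ, 0 ≤ c → y ≠ c • x := by
      intro c hc hyc
      apply hyT
      refine ⟨?_, hyh⟩
      rcases hc.eq_or_lt with h3 | h3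
      · rw [hyc, ← h3, zero_smul]
        exact hTp.1
      · rw [hyc]
        exact (inv_smul hTp.con x h3).2 hxT
    have hseg : Conn {z : E | ∃ t : ℚ, 0 ≤ t ∧ t ≤ 1 ∧ z = y + t • (-x - y)} := by
      refine conn_of_convex ⟨y, 0, le_rfl, zero_le_one, by rw [zero_smul, add_zero]⟩ ?_
      rintro a ⟨t, t0, t1, rfl⟩ b ⟨r, r0, r1, rfl⟩ c c0 c1
      refine ⟨t + c * (r - t), by nlinarith, by nlinarith, by module⟩
    have hsub : {z : E | ∃ t : ℚ, 0 ≤ t ∧ t ≤ 1 ∧ z = y + t • (-x - y)} ⊆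
        {z | h z = 0} \ (T ∩ {z | h z = 0}) := by
      rintro z ⟨t, t0, t1, rfl⟩
      have hz : h (y + t • (-x - y)) = 0 := by
        rw [map_add, map_smul, map_sub, map_neg, hxh, hyh]; simp
      refine ⟨hz, ?_⟩
      rintro ⟨hzT, _⟩
      obtain ⟨c, hc, hzc⟩ := hPray' _ hzT hz
      rcases t1.eq_or_lt with h3 | h3
      · rw [h3] at hzc
        have h4 : (c + 1) • x = 0 := by
          have h5 : y + (1 : ℚ) • (-x - y) = -x := by module
          rw [h5] at hzc
          rw [add_smul, ← hzc, one_smul, neg_add_cancel]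
        rcases smul_eq_zero.1 h4 with h5 | h5
        · linarith
        · exact hx0 h5
      · have h4 : 0 < 1 - t := by linarith
        apply hyray ((c + t) / (1 - t)) (div_nonneg (by linarith) h4.le)
        have h5 : (1 - t) • y = (c + t) • x := by
          have h6 : (1 - t) • y = (y + t • (-x - y)) + t • x := by module
          rw [h6, hzc]; module
        have h7 : y = (1 - t)⁻¹ • ((1 - t) • y) := by
          rw [smul_smul, inv_mul_cancel₀ h4.ne', one_smul]
        rw [h7, h5, smul_smul, div_eq_inv_mul]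
    have hD := hP.comp.sub_of_conn hHp hPp hseg hsub
      ⟨y, ⟨0, le_rfl, zero_le_one, by rw [zero_smul, add_zero]⟩, hyD⟩
    have h3 : -x ∈ D := hD ⟨1, zero_le_one, le_rfl, by module⟩
    have h4 := hP.bddD (-x) h3 (neg_ne_zero.2 hx0)
    have h5 := hP.bdd x hxT hx0
    rw [map_neg] at h4
    linarith
  · -- case (b)
    exfalso
    have hKray : ∀ y, h y = 0 → (y ∈ K ↔ π y ∉ ray p) := by
      intro y hy
      rw [hk y hy]
      constructor
      · intro h3 h4
        rw [← h1] at h4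
        exact h4.2 h3
      · intro h3
        exact (h2 _).resolve_right h3
    obtain ⟨A, hA, HA⟩ := hTp.con
    obtain ⟨B, hB, HB⟩ := hMp.con
    have hAB : (A ∪ B).Finite := hA.union hB
    have iT : InvA (A ∪ B) T := InvA.mono (A := A) HA Set.subset_union_left
    have iM : InvA (A ∪ B) M := InvA.mono (A := B) HB Set.subset_union_right
    obtain ⟨ε, hε, H⟩ := mem_face_small hAB x (τ p)
    have h3 : τ p ∈ Tg x (D ∩ T) := by
      rw [hS, hπτ, h1]
      exact ⟨hτ p, 1, zero_le_one, (one_smul ℚ p).symm⟩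
    obtain ⟨ε', hε', H'⟩ := h3
    have hs : 0 < min ε ε' := lt_min hε hε'
    have hface := H _ hs (min_le_left _ _)
    have hmem := H' _ hs (min_le_right _ _)
    obtain ⟨s, hsdef⟩ : ∃ s : ℚ, s = min ε ε' := ⟨_, rfl⟩
    rw [← hsdef] at hs hface hmem
    obtain ⟨y1, hy1def⟩ : ∃ y1 : E, y1 = x + s • τ p := ⟨_, rfl⟩
    rw [← hy1def] at hface hmem
    have hy1T : y1 ∈ T := hmem.2
    have hy1h : h y1 = 0 := hP.comp.sub hmem.1
    have hπy1 : π y1 = s • p := by
      rw [hy1def, map_add, map_smul, hπx, hπτ, zero_add]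
    have hy10 : y1 ≠ 0 := by
      intro h4
      rw [h4, map_zero] at hπy1
      rcases smul_eq_zero.1 hπy1.symm with h5 | h5
      · exact hs.ne' h5
      · exact hp h5
    have hloc1 := hP.loc y1 hy1T hy10
    have hK1 : (Tg y1 M \ Tg y1 T) ∩ {y | h y = 0} = Tg y1 K ∩ {y | h y = 0} := by
      have h4 : Tg y1 K = (Tg y1 M \ Tg y1 T) ∩ Tg y1 {y | h y = 0} := by
        rw [hK, tg_inter, tg_diff (tg_con hTp.con), tg_tg hAB iM hface, tg_tg hAB iT hface]
      rw [h4]
      ext v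
      constructor
      · rintro ⟨h5, h6⟩
        refine ⟨⟨h5, 1, one_pos, fun r _ _ => ?_⟩, h6⟩
        change h v = 0 at h6
        change h (y1 + r • v) = 0
        rw [map_add, map_smul, hy1h, h6, smul_zero, add_zero]
      · rintro ⟨⟨h5, _⟩, h6⟩
        exact ⟨h5, h6⟩
    obtain ⟨hne1, hnc⟩ := caseB h π τ hτ hπτ p hp s hs y1 hπy1 hy1h K _ hKray hK1
    rcases hP.pp y1 hy1T hy1h hy10 (Tg y1 M) hloc1.1 with h4 | h4
    · rw [h4] at hne1
      exact Set.not_nonempty_empty hne1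
    · exact hnc h4
  · -- case (c)
    refine ⟨τ p, τ q, ?_, ?_, ?_, ?_⟩
    · rintro ⟨a, ha⟩
      have h2 := congrArg π ha
      rw [hπτ, map_smul, hπx, smul_zero] at h2
      exact hp h2
    · rintro ⟨a, ha⟩
      have h2 := congrArg π ha
      rw [hπτ, map_smul, hπx, smul_zero] at h2
      exact hq h2
    · rintro ⟨a, c, hc, ha⟩
      have h2 := congrArg π ha
      rw [hπτ, map_add, map_smul, map_smul, hπx, smul_zero, zero_add, hπτ] at h2
      exact hqp ⟨c, hc, h2⟩
    · ext y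
      rw [hS, h1]
      constructor
      · rintro ⟨hy, hr⟩
        obtain ⟨a, ha⟩ := hdec y hy
        rcases hr with ⟨c, hc, h2⟩ | ⟨c, hc, h2⟩
        · left
          rw [h2, map_smul] at ha
          exact ⟨a, c, hc, ha⟩
        · right
          rw [h2, map_smul] at ha
          exact ⟨a, c, hc, ha⟩
      · rintro (⟨a, c, hc, rfl⟩ | ⟨a, c, hc, rfl⟩)
        · refine ⟨by rw [map_add, map_smul, map_smul, hxh, hτ, smul_zero, smul_zero, add_zero],
            Or.inl ⟨c, hc, ?_⟩⟩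
          rw [map_add, map_smul, map_smul, hπx, smul_zero, zero_add, hπτ]
        · refine ⟨by rw [map_add, map_smul, map_smul, hxh, hτ, smul_zero, smul_zero, add_zero],
            Or.inr ⟨c, hc, ?_⟩⟩
          rw [map_add, map_smul, map_smul, hπx, smul_zero, zero_add, hπτ]

end Pool.Agent.Work.MP_552024_lc.PLS
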