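import Pool.Agent.Work.MP_552024_lc.PLS.S4L

/-!
# MP_552024_lc: components of the complement in a level are discs
-/

set_option autoImplicit false

namespace Pool.Agent.Work.MP_552024_lc.PLS

namespace APlC

lemma sph_pol {E : Type*} [AddCommGroup E] [Module ℚ E] {k : ℕ} {T : Set E} (hT : Sph k T) :
    Pol T := by
  obtain ⟨D₁, D₂, U, rfl, _, h1, h2⟩ := hT
  exact h1.1.union h2.1

variable {E : Type} [AddCommGroup E] [Module ℚ E] [FiniteDimensional ℚ E]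

/-- The punctured hyperplane is connected. -/
lemma connH (hConnP : St_ConnP) (h : E →ₗ[ℚ] ℚ) (hd : Module.finrank ℚ E = 4) (hne : h ≠ 0) :
    Conn ({x : E | h x = 0} \ {0}) := by
  have hfr : Module.finrank ℚ (LinearMap.ker h) = 1 + 2 := by
    have h1 := Module.Dual.finrank_ker_add_one_of_ne_zero hne
    omega
  have h1 := hConnP 1 (LinearMap.ker h) hfr
  refine ⟨?_, ?_⟩
  · obtain ⟨x, hx⟩ := h1.1
    exact ⟨x.1, x.2, fun h2 => hx (Subtype.ext h2)⟩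
  · intro F₁ F₂ hF₁ hF₂ hcov hdis
    have p1 : Pol {y : LinearMap.ker h | y ∈ Set.univ ∧ (LinearMap.ker h).subtype y ∈ F₁} :=
      (plOn_linear _ Set.univ).pol_preimage pol_univ hF₁
    have p2 : Pol {y : LinearMap.ker h | y ∈ Set.univ ∧ (LinearMap.ker h).subtype y ∈ F₂} :=
      (plOn_linear _ Set.univ).pol_preimage pol_univ hF₂
    have hmem : ∀ x : LinearMap.ker h, x ≠ 0 → x.1 ∈ ({x : E | h x = 0} \ {0} : Set E) :=
      fun x hx => ⟨x.2, fun h2 => hx (Subtype.ext h2)⟩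
    rcases h1.2 _ _ p1 p2 (by
        intro x hx
        rcases hcov (hmem x hx) with h3 | h3
        · exact Or.inl ⟨trivial, h3⟩
        · exact Or.inr ⟨trivial, h3⟩) (by
        rintro x hx ⟨_, h3⟩ ⟨_, h4⟩
        exact hdis _ (hmem x hx) h3 h4) with h3 | h3
    · left
      intro x hx
      exact (h3 (a := ⟨x, hx.1⟩) (fun h4 => hx.2 (congrArg Subtype.val h4))).2
    · right
      intro x hx
      exact (h3 (a := ⟨x, hx.1⟩) (fun h4 => hx.2 (congrArg Subtype.val h4))).2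

/-- A hyperplane contains a nonzero point where `u` is not positive. -/
lemma exists_nonpos (h u : E →ₗ[ℚ] ℚ) (hd : Module.finrank ℚ E = 4) (hne : h ≠ 0) :
    ∃ z : E, z ≠ 0 ∧ h z = 0 ∧ u z ≤ 0 := by
  have hfr : Module.finrank ℚ (LinearMap.ker h) = 3 := by
    have h1 := Module.Dual.finrank_ker_add_one_of_ne_zero hne
    omega
  have h1 : LinearMap.ker h ≠ ⊥ := by
    intro h2
    rw [h2, finrank_bot] at hfr
    omega
  obtain ⟨z, hz, hz0⟩ := (Submodule.ne_bot_iff _).1 h1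
  rw [LinearMap.mem_ker] at hz
  rcases le_total (u z) 0 with h2 | h2
  · exact ⟨z, hz0, hz, h2⟩
  · exact ⟨-z, neg_ne_zero.2 hz0, by rw [map_neg, hz, neg_zero], by rw [map_neg]; linarith⟩

lemma key (hPlA : St_PlA) (hLocH : St_LocH) (hConnB : St_ConnB) {T M M' : Set E}
    {h u : E →ₗ[ℚ] ℚ} {D C P P' : Set E} (H : PlH T M M' h u D) (hCs : Sph 2 C)
    (hCY : C ⊆ D ∩ T) (hx₀ : ∃ x ∈ C, x ≠ 0)
    (htg : ∀ y ∈ C, y ≠ 0 → Tg y C = Tg y (D ∩ T)) (hun : P ∪ P' = {x | h x = 0})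
    (hint : P ∩ P' = C) (hB : Ball 3 P C) (hB' : Ball 3 P' C) (hDP : D ⊆ P) :
    D = P ∧ D ∩ T = C := by
  have hT : Pol T := sph_pol H.sph
  have hC : Pol C := sph_pol hCs
  have hHH : Pol {x : E | h x = 0} := pol_hyperplane h
  have hD : Pol D := H.comp.pol
  have hP : Pol P := hB.1
  have hP' : Pol P' := hB'.1
  have hDH : D ⊆ {x : E | h x = 0} := H.comp.sub
  -- the germs of `P` and `D` agree on the circle
  have hPD : ∀ x ∈ C, x ≠ 0 → Tg x P ⊆ Tg x D := by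
    intro x hxC hx0
    have hxD : x ∈ D := (hCY hxC).1
    have hxT : x ∈ T := (hCY hxC).2
    obtain ⟨hc1, _⟩ := hLocH E C P P' h x H.dim H.hne hCs hun hint hB hB' hxC hx0
    obtain ⟨hK, hclK⟩ := hPlA E T M M' h u D x H hxD hxT hx0
    obtain ⟨hs1, hs2, hs3, hs4⟩ := H.loc x hxT hx0
    have hTC : Tg x C = Tg x D ∩ Tg x T := by rw [htg x hxC hx0, tg_inter]
    have hMM : ∀ y, y ∈ Tg x M \ Tg x T ↔ y ∉ Tg x M' := by
      intro y
      constructor
      · rintro ⟨h1, h2⟩ h3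
        exact h2 (hs4 ▸ ⟨h1, h3⟩)
      · intro h1
        have h2 : y ∈ Tg x M ∪ Tg x M' := hs3 ▸ trivial
        refine ⟨h2.resolve_right h1, fun h3 => h1 ?_⟩
        rw [← hs4] at h3
        exact h3.2
    -- `K` is nonempty
    have hKne : (Tg x D \ Tg x T).Nonempty := by
      by_contra hemp
      rw [Set.not_nonempty_iff_eq_empty] at hemp
      rw [← hK, hemp, cl_empty] at hclK
      have h1 : (1 : ℚ) • x ∈ Tg x D := self_mem_tg hD.con hxD 1
      rw [hclK, one_smul] at h1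
      exact hx0 h1
    have hcov : Tg x P \ Tg x C ⊆ Tg x D ∪ Tg x M' := by
      rintro y ⟨hy, _⟩
      by_cases h1 : y ∈ Tg x M'
      · exact Or.inr h1
      · left
        have h2 : y ∈ (Tg x M \ Tg x T) ∩ {y | h y = 0} :=
          ⟨(hMM y).2 h1, hc1.sub hy⟩
        rw [← hK] at h2
        exact h2.1
    have hdis : ∀ y ∈ Tg x P \ Tg x C, y ∈ Tg x D → y ∉ Tg x M' := by
      rintro y ⟨_, hyC⟩ hyD hyM'
      have h1 : y ∈ Tg x T := by
        by_contra h2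
        have h3 : y ∈ Tg x D \ Tg x T := ⟨hyD, h2⟩
        rw [hK] at h3
        exact (hMM y).1 h3.1 hyM'
      exact hyC (hTC ▸ ⟨hyD, h1⟩)
    rcases hc1.conn.2 _ _ (tg_pol hD hxD) hs2.pol hcov hdis with h1 | h1
    · rw [← hc1.cl_eq]
      exact (tg_pol hD hxD).cl_subset h1
    · exfalso
      obtain ⟨k, hk⟩ := hKne
      have h2 : k ∈ Tg x P \ Tg x C :=
        ⟨tg_mono hDP hk.1, fun h3 => hk.2 ((tg_mono (fun y hy => (hCY hy).2)) h3)⟩
      have h3 := h1 h2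
      rw [hK] at hk
      exact (hMM k).1 hk.1 h3
  -- nothing of `Z` inside `P` off `C`
  have hZ : ∀ y ∈ T, y ∈ P → y ∈ C := by
    have hcon : Con ((T ∩ {x | h x = 0}) ∩ (P \ C)) :=
      (hT.inter hHH).con.inter (hP.con.diff hC.con)
    have hCP' : C ⊆ P' := by rw [← hint]; exact Set.inter_subset_right
    have hcov : (T ∩ {x | h x = 0}) \ {0} ⊆ cl ((T ∩ {x | h x = 0}) ∩ (P \ C)) ∪ P' := by
      rintro y ⟨hy, _⟩
      by_cases h1 : y ∈ P'
      · exact Or.inr h1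
      · left
        have h2 : y ∈ P ∪ P' := by rw [hun]; exact hy.2
        exact subset_cl _ ⟨hy, h2.resolve_right h1, fun h3 => h1 (hCP' h3)⟩
    have hdis : ∀ y ∈ (T ∩ {x | h x = 0}) \ {0}, y ∈ cl ((T ∩ {x | h x = 0}) ∩ (P \ C)) →
        y ∉ P' := by
      rintro y ⟨hy, hy0⟩ hyc hyP'
      have hy0' : y ≠ 0 := hy0
      have hyP : y ∈ P := hP.cl_subset (fun z hz => hz.2.1) hyc
      have hyC : y ∈ C := by rw [← hint]; exact ⟨hyP, hyP'⟩
      have h1 : (1 : ℚ) • y ∈ Tg y (cl ((T ∩ {x | h x = 0}) ∩ (P \ C))) :=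
        self_mem_tg hcon.pol_cl.con hyc 1
      rw [tg_cl hcon hyc hy0', one_smul] at h1
      have h2 : Tg y ((T ∩ {x | h x = 0}) ∩ (P \ C)) = ∅ := by
        rw [Set.eq_empty_iff_forall_notMem]
        intro z hz
        rw [tg_inter, tg_diff hC.con, tg_inter] at hz
        obtain ⟨⟨hz1, _⟩, hz2, hz3⟩ := hz
        apply hz3
        rw [htg y hyC hy0', tg_inter]
        exact ⟨hPD y hyC hy0' hz2, hz1⟩
      rw [h2, cl_empty] at h1
      exact hy0' h1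
    obtain ⟨x₀, hx₀C, hx₀0⟩ := hx₀
    have hx₀Z : x₀ ∈ (T ∩ {x | h x = 0}) \ {0} :=
      ⟨⟨(hCY hx₀C).2, hDH (hCY hx₀C).1⟩, hx₀0⟩
    intro y hyT hyP
    by_cases hy0 : y = 0
    · rw [hy0]; exact hC.1
    rcases H.conn.2 _ _ hcon.pol_cl hP' hcov hdis with h1 | h1
    · exact absurd (hCP' hx₀C) (hdis x₀ hx₀Z (h1 hx₀Z))
    · rw [← hint]
      refine ⟨hyP, h1 ⟨⟨hyT, ?_⟩, hy0⟩⟩
      rw [← hun]; exact Or.inl hyP
  obtain ⟨hcB, hclB, _⟩ := hConnB 2 E P C hB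
  have hsub : P \ C ⊆ D := by
    refine H.comp.sub_of_conn hHH (hT.inter hHH) hcB ?_ ?_
    · rintro y ⟨hyP, hyC⟩
      refine ⟨?_, fun h1 => hyC (hZ y h1.1 hyP)⟩
      rw [← hun]; exact Or.inl hyP
    · obtain ⟨d, hd, hdn⟩ := H.comp.nonempty
      refine ⟨d, ⟨hDP hd, fun h1 => hdn ⟨(hCY h1).2, hDH hd⟩⟩, hd⟩
  have hDeq : D = P := by
    apply subset_antisymm hDP
    rw [← hclB]
    exact hD.cl_subset hsub
  refine ⟨hDeq, subset_antisymm ?_ hCY⟩
  rintro y ⟨hyD, hyT⟩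
  exact hZ y hyT (hDP hyD)

end APlC

theorem I_PlC (hPlA : St_PlA) (hPlB : St_PlB) (hCirc : St_Circ) (hDisc : St_Disc)
    (hLocH : St_LocH) (hSchA2 : St_SchA2) (hConnP : St_ConnP) (hConnB : St_ConnB) : St_PlC := by
  intro E _ _ _ T M M' h u D H
  have hT : Pol T := APlC.sph_pol H.sph
  have hHH : Pol {x : E | h x = 0} := pol_hyperplane h
  have hD : Pol D := H.comp.pol
  have hDH : D ⊆ {x : E | h x = 0} := H.comp.sub
  have hcH := APlC.connH hConnP h H.dim H.hne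
  obtain ⟨z, hz0, hhz, huz⟩ := APlC.exists_nonpos h u H.dim H.hne
  -- a nonzero point of `D ∩ T`
  obtain ⟨x₀, hx₀, hx₀0⟩ : ∃ x ∈ D ∩ T, x ≠ 0 := by
    by_contra hcon
    push Not at hcon
    have hc : Con ({x | h x = 0} \ ((T ∩ {x | h x = 0}) ∪ D)) :=
      hHH.con.diff ((hT.inter hHH).con.union hD.con)
    have hdis : ∀ y ∈ {x | h x = 0} \ {0}, y ∈ D →
        y ∉ cl ({x | h x = 0} \ ((T ∩ {x | h x = 0}) ∪ D)) ∪ (T ∩ {x | h x = 0}) := by
      rintro y ⟨_, hy0⟩ hyD hyc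
      have h1 : y ∈ T ∩ {x | h x = 0} := hyc.elim (fun h2 => H.comp.rest ⟨h2, hyD⟩) id
      exact hy0 (hcon y ⟨hyD, h1.1⟩)
    rcases hcH.2 D _ hD (hc.pol_cl.union (hT.inter hHH)) (by
        rintro y ⟨hy, hy0⟩
        by_cases h1 : y ∈ D
        · exact Or.inl h1
        right
        by_cases h2 : y ∈ T
        · exact Or.inr ⟨h2, hy⟩
        · exact Or.inl (subset_cl _ ⟨hy, fun h3 => h3.elim (fun h4 => h2 h4.1) h1⟩)) hdis
      with h1 | h1
    · have h2 := H.bddD z (h1 ⟨hhz, hz0⟩) hz0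
      linarith
    · obtain ⟨d, hd, hdn⟩ := H.comp.nonempty
      have hd0 : d ≠ 0 := fun h2 => hdn ⟨h2 ▸ hT.1, hDH hd⟩
      exact hdis d ⟨hDH hd, hd0⟩ hd (h1 ⟨hDH hd, hd0⟩)
  have hY : Pol (D ∩ T) := hD.inter hT
  have hYb : Bdd u (D ∩ T) := fun y hy => H.bdd y hy.2
  obtain ⟨C, hCY, hCs, hx₀C, htg⟩ := hCirc E (D ∩ T) u x₀ hY hYb
    (fun y hy hy0 => hPlB E T M M' h u D y H hy.1 hy.2 hy0) hx₀ hx₀0
  have hCH : ∀ x ∈ C, h x = 0 := fun x hx => hDH (hCY hx).1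
  have hCb : Bdd u C := fun x hx => hYb x (hCY hx)
  obtain ⟨D1, D1', hun, hint, hb1, hb1', hbd, hun'⟩ :=
    hDisc 1 hSchA2 E C h u H.dim H.hne hCs hCH hCb
  have hint' : D1' ∩ D1 = C := by rw [Set.inter_comm]; exact hint
  have hun2 : D1' ∪ D1 = {x | h x = 0} := by rw [Set.union_comm]; exact hun
  have hmain : D = D1 ∧ D ∩ T = C := by
    rcases H.comp.conn.2 D1 D1' hb1.1 hb1'.1 (by
        rw [hun]
        exact fun y hy => hDH hy.1) (by
        rintro y ⟨hyD, hyn⟩ hy1 hy2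
        have hyC : y ∈ C := by rw [← hint]; exact ⟨hy1, hy2⟩
        exact hyn ⟨(hCY hyC).2, hDH hyD⟩) with h1 | h1
    · have h2 : D ⊆ D1 := by rw [← H.comp.cl_eq]; exact hb1.1.cl_subset h1
      exact APlC.key hPlA hLocH hConnB H hCs hCY ⟨x₀, hx₀C, hx₀0⟩ htg hun hint hb1 hb1' h2
    · exfalso
      have h2 : D ⊆ D1' := by rw [← H.comp.cl_eq]; exact hb1'.1.cl_subset h1
      obtain ⟨h3, _⟩ := APlC.key hPlA hLocH hConnB H hCs hCY ⟨x₀, hx₀C, hx₀0⟩ htg hun2 hint'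
        hb1' hb1 h2
      have h4 : z ∈ D := by rw [h3]; exact hun' z hhz huz
      have h5 := H.bddD z h4 hz0
      linarith
  obtain ⟨hDe, hYe⟩ := hmain
  rw [hYe]
  refine ⟨by rw [hDe]; exact hb1, hCs, ?_⟩
  intro x hxC hx0
  obtain ⟨_, hc2⟩ := hLocH E C D1 D1' h x H.dim H.hne hCs hun hint hb1 hb1' hxC hx0
  have h1 : {y | h y = 0} \ Tg x D = Tg x D1' \ Tg x C := by
    have hTH : Tg x {y | h y = 0} = {y | h y = 0} := by
      ext v
      constructor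
      · rintro ⟨ε, hε, K⟩
        have h2 : h (x + ε • v) = 0 := K ε hε le_rfl
        rw [map_add, hCH x hxC, zero_add, map_smul, smul_eq_mul] at h2
        exact (mul_eq_zero.1 h2).resolve_left hε.ne'
      · intro hv
        refine ⟨1, one_pos, fun s _ _ => ?_⟩
        show h (x + s • v) = 0
        rw [map_add, hCH x hxC, zero_add, map_smul, show h v = 0 from hv, smul_zero]
    rw [hDe, ← hTH, ← hun, tg_union hb1.1.con hb1'.1.con, ← hint, tg_inter]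
    ext y
    constructor
    · rintro ⟨h2 | h2, h3⟩
      · exact absurd h2 h3
      · exact ⟨h2, fun h4 => h3 h4.1⟩
    · rintro ⟨h2, h3⟩
      exact ⟨Or.inr h2, fun h4 => h3 ⟨h4, h2⟩⟩
  rw [h1]
  exact hc2.conn

end Pool.Agent.Work.MP_552024_lc.PLS
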