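import Pool.Agent.Work.MP_552024_lc.PLS.S4L

set_option autoImplicit false

namespace Pool.Agent.Work.MP_552024_lc.PLS

namespace APlP

variable {E : Type} [AddCommGroup E] [Module ℚ E]

theorem tg_hyp (h : E →ₗ[ℚ] ℚ) {x : E} (hx : h x = 0) : Tg x {y | h y = 0} = {y | h y = 0} := by
  ext v
  constructor
  · rintro ⟨ε, hε, H⟩
    have h1 : h (x + ε • v) = 0 := H ε hε le_rfl
    rw [map_add, hx, zero_add, map_smul, smul_eq_mul] at h1
    exact (mul_eq_zero.1 h1).resolve_left hε.ne'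
  · intro hv
    have hv' : h v = 0 := hv
    refine ⟨1, one_pos, fun s _ _ => ?_⟩
    show h (x + s • v) = 0
    rw [map_add, hx, zero_add, map_smul, hv', smul_zero]

/-- Connectedness of the open part outside the disc. -/
theorem key {O K' e1 e2 : Set E} (hO : Conn O) (he1 : Pol e1) (he2 : Pol e2)
    (hcov : O ⊆ K' ∪ (e1 ∪ e2)) (hKO : K' ⊆ O) (hK : K' = ∅ ∨ Conn K')
    (hK1 : ∀ y ∈ K', y ∉ e1 ∪ e2) (hdis : ∀ y ∈ O, y ∈ e1 → y ∉ e2) :
    O \ e1 = ∅ ∨ Conn (O \ e1) := by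
  rcases hK with hK | hK
  · subst hK
    rcases hO.2 e1 e2 he1 he2 (fun y hy => (hcov hy).resolve_left (fun h => h.elim)) hdis with h | h
    · left
      ext y
      constructor
      · rintro ⟨h1, h2⟩; exact (h2 (h h1)).elim
      · exact fun h => h.elim
    · right
      have : O \ e1 = O := by
        ext y
        constructor
        · exact fun h1 => h1.1
        · exact fun h1 => ⟨h1, fun h2 => hdis y h1 h2 (h h1)⟩
      rwa [this]
  · right
    obtain ⟨k, hk⟩ := hK.1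
    have hKe : K' ⊆ O \ e1 := fun y hy => ⟨hKO hy, fun h => hK1 y hy (Or.inl h)⟩
    refine ⟨⟨k, hKe hk⟩, ?_⟩
    have claim : ∀ F₁ F₂ : Set E, Pol F₁ → Pol F₂ → O \ e1 ⊆ F₁ ∪ F₂ →
        (∀ x ∈ O \ e1, x ∈ F₁ → x ∉ F₂) → K' ⊆ F₁ → O \ e1 ⊆ F₁ := by
      intro F₁ F₂ hF₁ hF₂ hc hd hK1'
      -- the closed sets `e1 ∪ F₁` and `e2 ∩ F₂` cover `O`
      rcases hO.2 (e1 ∪ F₁) (e2 ∩ F₂) (he1.union hF₁) (he2.inter hF₂) (by
          intro y hy
          by_cases hy1 : y ∈ e1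
          · exact Or.inl (Or.inl hy1)
          · rcases hc ⟨hy, hy1⟩ with h1 | h1
            · exact Or.inl (Or.inr h1)
            · rcases hcov hy with h2 | h2 | h2
              · exact Or.inl (Or.inr (hK1' h2))
              · exact absurd h2 hy1
              · exact Or.inr ⟨h2, h1⟩) (by
          rintro y hy (h1 | h1) ⟨h2, h3⟩
          · exact hdis y hy h1 h2
          · by_cases hy1 : y ∈ e1
            · exact hdis y hy hy1 h2
            · exact hd y ⟨hy, hy1⟩ h1 h3) with h | h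
      · rintro y ⟨h1, h2⟩
        exact (h h1).resolve_left h2
      · exact absurd (h (hKO hk)).1 (fun h1 => hK1 k hk (Or.inr h1))
    intro F₁ F₂ hF₁ hF₂ hc hd
    rcases hK.2 F₁ F₂ hF₁ hF₂ (hKe.trans hc) (fun x hx => hd x (hKe hx)) with h | h
    · exact Or.inl (claim F₁ F₂ hF₁ hF₂ hc hd h)
    · exact Or.inr (claim F₂ F₁ hF₂ hF₁ (by rwa [Set.union_comm])
        (fun x hx h1 h2 => hd x hx h2 h1) h)

end APlP

open APlP

theorem I_PlP (hPlC : St_PlC) (hPlA : St_PlA) : St_PlP := by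
  intro E _ _ _ T M M' h u D E₁ E₂ hH hC x hx hhx hx0
  obtain ⟨hball, hsph, hconn⟩ := hPlC E T M M' h u D hH
  obtain ⟨D₁, D₂, U, hT12, _, hB1, hB2⟩ := hH.sph
  have hTp : Pol T := by rw [hT12]; exact hB1.1.union hB2.1
  have hD := hH.comp
  have hDp : Pol D := hD.pol
  have hDH : D ⊆ {y | h y = 0} := hD.sub
  have hE1 : Pol E₁ := hC.ball1.1
  have hE2 : Pol E₂ := hC.ball2.1
  have hHp : Pol {y | h y = 0} := pol_hyperplane h
  have hHx : Tg x {y | h y = 0} = {y | h y = 0} := tg_hyp h hhx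
  have hMsub := hH.sides
  have hTx : Tg x T = Tg x E₁ ∪ Tg x E₂ := by
    rw [← hC.uni, tg_union hE1.con hE2.con]
  have hT1 : Tg x (E₁ ∪ D) = Tg x E₁ ∪ Tg x D := tg_union hE1.con hDp.con
  by_cases hxD : x ∈ D
  swap
  · have hx1 : x ∈ E₁ := hx.resolve_right hxD
    have hx2 : x ∉ E₂ := fun h2 => by
      have : x ∈ D ∩ T := by rw [← hC.int]; exact ⟨hx1, h2⟩
      exact hxD this.1
    rw [hT1, tg_eq_empty hDp hxD, Set.union_empty]
    have h3 : Tg x T = Tg x E₁ := by rw [hTx, tg_eq_empty hE2 hx2, Set.union_empty]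
    rw [← h3]
    exact hH.pp x (by rw [← hC.uni]; exact Or.inl hx1) hhx hx0
  by_cases hxT : x ∈ T
  swap
  · have hx1 : x ∉ E₁ := fun h1 => hxT (by rw [← hC.uni]; exact Or.inl h1)
    have hRc : Con ({y | h y = 0} \ ((T ∩ {y | h y = 0}) ∪ D)) :=
      hHp.con.diff ((hTp.con.inter hHp.con).union hDp.con)
    have hR : Tg x ({y | h y = 0} \ ((T ∩ {y | h y = 0}) ∪ D)) = ∅ := by
      by_contra hne
      have h1 := mem_of_tg_nonempty hRc.pol_cl
        ((Set.nonempty_iff_ne_empty.2 hne).mono (tg_mono (subset_cl _)))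
      exact hxT (hD.rest ⟨h1, hxD⟩).1
    have hDx : Tg x D = {y | h y = 0} := by
      rw [tg_diff ((hTp.con.inter hHp.con).union hDp.con),
        tg_union (hTp.con.inter hHp.con) hDp.con, tg_inter, tg_eq_empty hTp hxT, hHx,
        Set.empty_inter, Set.empty_union, Set.sdiff_eq_empty] at hR
      have h2 := tg_mono (x := x) hDH
      rw [hHx] at h2
      exact subset_antisymm h2 hR
    rw [hT1, tg_eq_empty hE1 hx1, Set.empty_union, hDx]
    intro N hN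
    left
    ext y
    constructor
    · rintro ⟨⟨_, h1⟩, h2⟩; exact (h1 h2).elim
    · exact fun h => h.elim
  -- the main case
  have hloc := hH.loc x hxT hx0
  obtain ⟨hcM, hcM', huni, hint⟩ := hloc
  obtain ⟨hA1, hA2⟩ := hPlA E T M M' h u D x hH hxD hxT hx0
  have hpp := hH.pp x hxT hhx hx0
  have hCx : Tg x D ∩ Tg x T = Tg x (D ∩ T) := (tg_inter x D T).symm
  have hEE : Tg x E₁ ∩ Tg x E₂ = Tg x (D ∩ T) := by rw [← tg_inter, hC.int]
  have hO : Conn ({y | h y = 0} \ Tg x D) := hconn x ⟨hxD, hxT⟩ hx0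
  have hE1x : x ∈ E₁ := by
    have : x ∈ E₁ ∩ E₂ := by rw [hC.int]; exact ⟨hxD, hxT⟩
    exact this.1
  have hE2x : x ∈ E₂ := by
    have : x ∈ E₁ ∩ E₂ := by rw [hC.int]; exact ⟨hxD, hxT⟩
    exact this.2
  have hDT1 : Tg x D ∩ Tg x T ⊆ Tg x E₁ := by
    rw [hCx, ← hEE]; exact Set.inter_subset_left
  have hres := key (O := {y | h y = 0} \ Tg x D)
    (K' := (Tg x M' \ Tg x T) ∩ {y | h y = 0}) (e1 := Tg x E₁) (e2 := Tg x E₂)
    hO (tg_pol hE1 hE1x) (tg_pol hE2 hE2x) (by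
      rintro y ⟨h1, h2⟩
      by_cases hyT : y ∈ Tg x T
      · right; rwa [← hTx]
      · left
        refine ⟨⟨?_, hyT⟩, h1⟩
        have h3 : y ∈ Tg x M ∪ Tg x M' := by rw [huni]; trivial
        rcases h3 with h3 | h3
        · have h4 : y ∈ Tg x D \ Tg x T := by rw [hA1]; exact ⟨⟨h3, hyT⟩, h1⟩
          exact absurd h4.1 h2
        · exact h3) (by
      rintro y ⟨⟨h1, h2⟩, h3⟩
      refine ⟨h3, fun h4 => ?_⟩
      have h5 : y ∈ (Tg x M \ Tg x T) ∩ {y | h y = 0} := by rw [← hA1]; exact ⟨h4, h2⟩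
      exact h2 (by rw [← hint]; exact ⟨h5.1.1, h1⟩)) (hpp _ hcM') (by
      rintro y ⟨⟨_, h2⟩, _⟩ h3
      rw [← hTx] at h3; exact h2 h3) (by
      rintro y ⟨_, h2⟩ h3 h4
      apply h2
      have h5 : y ∈ Tg x E₁ ∩ Tg x E₂ := ⟨h3, h4⟩
      rw [hEE, ← hCx] at h5
      exact h5.1)
  have hG : {y | h y = 0} \ Tg x (E₁ ∪ D) = ({y | h y = 0} \ Tg x D) \ Tg x E₁ := by
    rw [hT1]
    ext y
    constructor
    · rintro ⟨h1, h2⟩
      exact ⟨⟨h1, fun h3 => h2 (Or.inr h3)⟩, fun h3 => h2 (Or.inl h3)⟩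
    · rintro ⟨⟨h1, h2⟩, h3⟩
      exact ⟨h1, fun h4 => h4.elim h3 h2⟩
  rw [← hG] at hres
  intro N hN
  by_cases hne : ((N \ Tg x (E₁ ∪ D)) ∩ {y | h y = 0}).Nonempty
  swap
  · exact Or.inl (Set.not_nonempty_iff_eq_empty.1 hne)
  right
  obtain ⟨z, ⟨hz1, hz2⟩, hz3⟩ := hne
  have hGc : Conn ({y | h y = 0} \ Tg x (E₁ ∪ D)) := by
    rcases hres with h1 | h1
    · have : z ∈ {y | h y = 0} \ Tg x (E₁ ∪ D) := ⟨hz3, hz2⟩
      rw [h1] at this; exact this.elim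
    · exact h1
  have hsub : {y | h y = 0} \ Tg x (E₁ ∪ D) ⊆ N :=
    Comp.sub_of_conn pol_univ (tg_pol (hE1.union hDp) (Or.inl hE1x)) hN hGc
      (fun y hy => ⟨trivial, hy.2⟩) ⟨z, ⟨hz3, hz2⟩, hz1⟩
  have heq : (N \ Tg x (E₁ ∪ D)) ∩ {y | h y = 0} = {y | h y = 0} \ Tg x (E₁ ∪ D) := by
    ext y
    constructor
    · rintro ⟨⟨_, h2⟩, h3⟩; exact ⟨h3, h2⟩
    · intro hy; exact ⟨⟨hsub hy, hy.2⟩, hy.1⟩
  rw [heq]
  exact hGc

end Pool.Agent.Work.MP_552024_lc.PLS
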