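import Pool.Agent.Work.MP_552024_lc.PLS.S4

/-! MP_552024_lc, item RD: every point is a positive combination of edges in its closed face. -/

set_option autoImplicit false

namespace Pool.Agent.Work.MP_552024_lc.PLS

namespace ARD

variable {E : Type*} [AddCommGroup E] [Module ℚ E]

/-- positive combinations of elements of `Q`. -/
def PC (Q : E → Prop) (x : E) : Prop :=
  ∃ (s : Finset E) (c : E → ℚ), (∀ r ∈ s, Q r ∧ 0 < c r) ∧ x = ∑ r ∈ s, c r • r

theorem PC.add {Q : E → Prop} {x y : E} (hx : PC Q x) (hy : PC Q y) : PC Q (x + y) := by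
  classical
  obtain ⟨s, c, hs, rfl⟩ := hx
  obtain ⟨t, d, ht, rfl⟩ := hy
  refine ⟨s ∪ t, fun r => (if r ∈ s then c r else 0) + (if r ∈ t then d r else 0), ?_, ?_⟩
  · intro r hr
    by_cases h1 : r ∈ s
    · refine ⟨(hs r h1).1, ?_⟩
      by_cases h2 : r ∈ t
      · simp only [h1, h2, if_true]
        exact add_pos (hs r h1).2 (ht r h2).2
      · simp only [h1, h2, if_true, if_false, add_zero]
        exact (hs r h1).2
    · have h2 : r ∈ t := by
        rcases Finset.mem_union.1 hr with h | h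
        · exact absurd h h1
        · exact h
      refine ⟨(ht r h2).1, ?_⟩
      simp only [h1, h2, if_true, if_false, zero_add]
      exact (ht r h2).2
  · simp only [add_smul, Finset.sum_add_distrib, ite_smul, zero_smul, Finset.sum_ite_mem]
    rw [Finset.union_inter_cancel_left, Finset.union_inter_cancel_right]

theorem PC.smul {Q : E → Prop} {x : E} (hx : PC Q x) {k : ℚ} (hk : 0 < k) : PC Q (k • x) := by
  obtain ⟨s, c, hs, rfl⟩ := hx
  refine ⟨s, fun r => k * c r, fun r hr => ⟨(hs r hr).1, mul_pos hk (hs r hr).2⟩, ?_⟩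
  rw [Finset.smul_sum]
  exact Finset.sum_congr rfl fun r _ => by rw [mul_smul]

theorem PC.mono {Q Q' : E → Prop} (h : ∀ r, Q r → Q' r) {x : E} (hx : PC Q x) : PC Q' x := by
  obtain ⟨s, c, hs, hx⟩ := hx
  exact ⟨s, c, fun r hr => ⟨h r (hs r hr).1, (hs r hr).2⟩, hx⟩

theorem sign_mul_nonneg (u v : ℚ) (hv : 0 ≤ v) : u * v = 0 ∨ SignType.sign (u * v) =
    SignType.sign u := by
  rcases hv.eq_or_lt with h | h
  · left; rw [← h, mul_zero]
  · right; rw [sign_mul, sign_pos h, mul_one]

theorem main (A : Set (E →ₗ[ℚ] ℚ)) (hA : A.Finite) (hS : Spn A) :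
    ∀ (n : ℕ) (x : E), {a ∈ A | a x ≠ 0}.ncard = n → PC (fun r => Ray A r ∧ r ∈ face A x) x := by
  intro n
  induction n using Nat.strong_induction_on with
  | _ n ih =>
    intro x hn
    by_cases hx0 : x = 0
    · exact ⟨∅, fun _ => 0, fun r hr => absurd hr (Finset.notMem_empty r), by simp [hx0]⟩
    by_cases hR : Ray A x
    · exact ⟨{x}, fun _ => 1, fun r hr => by
        rw [Finset.mem_singleton] at hr
        subst hr
        exact ⟨⟨hR, mem_face_self _ _⟩, one_pos⟩, by simp⟩
    have hy : ∃ y : E, (∀ a ∈ A, a x = 0 → a y = 0) ∧ ∀ c : ℚ, y ≠ c • x := by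
      by_contra hcon
      push Not at hcon
      exact hR ⟨hx0, hcon⟩
    obtain ⟨y, hy, hyc⟩ := hy
    have hSf : {a ∈ A | a x ≠ 0}.Finite := hA.subset (Set.sep_subset _ _)
    have hSne : {a ∈ A | a x ≠ 0}.Nonempty := by
      by_contra hcon
      rw [Set.not_nonempty_iff_eq_empty] at hcon
      refine hx0 (hS x fun a ha => ?_)
      by_contra h0
      have : a ∈ ({a ∈ A | a x ≠ 0} : Set (E →ₗ[ℚ] ℚ)) := ⟨ha, h0⟩
      rw [hcon] at this
      exact this
    obtain ⟨aM, haM, hM⟩ := Set.exists_max_image _ (fun a : E →ₗ[ℚ] ℚ => a y / a x) hSf hSne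
    obtain ⟨am, ham, hm⟩ := Set.exists_min_image _ (fun a : E →ₗ[ℚ] ℚ => a y / a x) hSf hSne
    set M : ℚ := aM y / aM x with hMdef
    set m : ℚ := am y / am x with hmdef
    -- the two points
    have e1 : ∀ a ∈ A, a (M • x - y) = a x * (M - a y / a x) := by
      intro a ha
      by_cases h : a x = 0
      · rw [map_sub, map_smul, h, hy a ha h]; simp
      · rw [map_sub, map_smul, smul_eq_mul]; field_simp
    have e2 : ∀ a ∈ A, a (y - m • x) = a x * (a y / a x - m) := by
      intro a ha
      by_cases h : a x = 0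
      · rw [map_sub, map_smul, h, hy a ha h]; simp
      · rw [map_sub, map_smul, smul_eq_mul]; field_simp
    have f1 : (M • x - y) ∈ face A x := by
      intro a ha
      rw [e1 a ha]
      by_cases h : a x = 0
      · left; rw [h, zero_mul]
      · exact sign_mul_nonneg _ _ (sub_nonneg.2 (hM a ⟨ha, h⟩))
    have f2 : (y - m • x) ∈ face A x := by
      intro a ha
      rw [e2 a ha]
      by_cases h : a x = 0
      · left; rw [h, zero_mul]
      · exact sign_mul_nonneg _ _ (sub_nonneg.2 (hm a ⟨ha, h⟩))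
    have hlt : m < M := by
      by_contra hcon
      rw [not_lt] at hcon
      refine hyc M ?_
      have h0 : y - M • x = 0 := by
        refine hS _ fun a ha => ?_
        by_cases h : a x = 0
        · rw [map_sub, map_smul, h, hy a ha h]; simp
        · have h1 := hM a ⟨ha, h⟩
          have h2 := hm a ⟨ha, h⟩
          have h3 : a y / a x = M := le_antisymm h1 (hcon.trans h2)
          rw [map_sub, map_smul, smul_eq_mul, ← h3]
          field_simp
          ring
      exact sub_eq_zero.1 h0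
    -- counting
    have c1 : {a ∈ A | a (M • x - y) ≠ 0}.ncard < n := by
      rw [← hn]
      refine Set.ncard_lt_ncard ⟨?_, ?_⟩ hSf
      · rintro a ⟨ha, h⟩
        refine ⟨ha, fun h0 => h ?_⟩
        rw [e1 a ha, h0, zero_mul]
      · intro hcon
        have := (hcon haM).2
        exact this (by rw [e1 aM haM.1, ← hMdef, sub_self, mul_zero])
    have c2 : {a ∈ A | a (y - m • x) ≠ 0}.ncard < n := by
      rw [← hn]
      refine Set.ncard_lt_ncard ⟨?_, ?_⟩ hSf
      · rintro a ⟨ha, h⟩
        refine ⟨ha, fun h0 => h ?_⟩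
        rw [e2 a ha, h0, zero_mul]
      · intro hcon
        have := (hcon ham).2
        exact this (by rw [e2 am ham.1, ← hmdef, sub_self, mul_zero])
    have p1 := (ih _ c1 _ rfl).mono (Q' := fun r => Ray A r ∧ r ∈ face A x)
      fun r hr => ⟨hr.1, face_trans hr.2 f1⟩
    have p2 := (ih _ c2 _ rfl).mono (Q' := fun r => Ray A r ∧ r ∈ face A x)
      fun r hr => ⟨hr.1, face_trans hr.2 f2⟩
    have hk : 0 < (M - m)⁻¹ := inv_pos.2 (sub_pos.2 hlt)
    have p3 := (p1.add p2).smul hk
    have hxe : (M - m)⁻¹ • ((M • x - y) + (y - m • x)) = x := by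
      have h1 : (M • x - y) + (y - m • x) = (M - m) • x := by rw [sub_smul]; abel
      rw [h1, smul_smul, inv_mul_cancel₀ (sub_pos.2 hlt).ne', one_smul]
    rwa [hxe] at p3

end ARD

theorem I_RD : St_RD := by
  intro E _ _ _ A hA hS x
  obtain ⟨s, c, hs, hx⟩ := ARD.main A hA hS _ x rfl
  exact ⟨s, c, fun r hr => ⟨(hs r hr).1.1, (hs r hr).1.2, (hs r hr).2⟩, hx⟩

end Pool.Agent.Work.MP_552024_lc.PLS
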