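import Pool.Agent.Work.MP_552024_lc.PLS.S4

set_option autoImplicit false

/-! Item Refl: reduction of the Schoenflies theorem to spheres in a half space, by a piecewise
linear inversion. -/

namespace Pool.Agent.Work.MP_552024_lc.PLS

namespace ARefl

open SignType

variable {E : Type} [AddCommGroup E] [Module ℚ E]

/-- A finite arrangement with nonzero forms, for which `T` is a union of faces. -/
theorem arr [FiniteDimensional ℚ E] {T : Set E} (hT : Pol T) :
    ∃ A : Set (E →ₗ[ℚ] ℚ), A.Finite ∧ (∀ a ∈ A, a ≠ 0) ∧ ClA A T ∧ Spn A := by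
  obtain ⟨A₀, hA₀, hcl⟩ := hT.exists_cl
  obtain ⟨B, hB, hsp⟩ := exists_pointed E
  refine ⟨(A₀ ∪ B) \ {0}, (hA₀.union hB).subset Set.sdiff_subset, ?_, ?_, ?_⟩
  · intro a ha h
    exact ha.2 h
  · intro y hy x hx
    refine hcl y hy (fun a ha => ?_)
    by_cases h0 : a = 0
    · left; rw [h0]; rfl
    · exact hx a ⟨Or.inl ha, h0⟩
  · intro x hx
    refine hsp x (fun a ha => ?_)
    by_cases h0 : a = 0
    · rw [h0]; rfl
    · exact hx a ⟨Or.inr ha, h0⟩

section fam
variable {ι : Type} [Fintype ι] [Nonempty ι] (h : ι → E →ₗ[ℚ] ℚ) (p : E)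

/-- The smaller cone. -/
noncomputable def hs : ι → E →ₗ[ℚ] ℚ := fun a =>
  h a - (1 / 2 * (h a p / (∑ b, h b) p)) • ∑ b, h b

theorem hs_apply (a : ι) (x : E) :
    hs h p a x = h a x - 1 / 2 * (h a p / (∑ b, h b) p) * (∑ b, h b) x := by
  unfold hs
  rw [LinearMap.sub_apply, LinearMap.smul_apply, smul_eq_mul]

variable {h p}

theorem s_pos (hp : p ∈ KO h) : 0 < (∑ b, h b) p := by
  rw [LinearMap.sum_apply]
  exact Finset.sum_pos (fun i _ => hp i) Finset.univ_nonempty

theorem hs_p (hp : p ∈ KO h) : p ∈ KO (hs h p) := by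
  intro a
  rw [hs_apply, mul_assoc, div_mul_cancel₀ _ (s_pos hp).ne']
  have := hp a
  linarith

theorem hs_KO (hp : p ∈ KO h) (hsp : ∀ x, (∀ i, h i x = 0) → x = 0) {x : E}
    (hx : x ∈ KC (hs h p)) (h0 : x ≠ 0) : x ∈ KO h := by
  have hs := s_pos hp
  have h1 : ∀ a, 1 / 2 * (h a p / (∑ b, h b) p) * (∑ b, h b) x ≤ h a x := by
    intro a
    have := hx a
    rw [hs_apply] at this
    linarith
  have h2 : 1 / 2 * (∑ b, h b) x ≤ (∑ b, h b) x := by
    have e1 : (∑ b, h b) x = ∑ a, h a x := LinearMap.sum_apply _ _ _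
    have e2 : 1 / 2 * (∑ b, h b) x =
        ∑ a, 1 / 2 * (h a p / (∑ b, h b) p) * (∑ b, h b) x := by
      rw [← Finset.sum_mul, ← Finset.mul_sum, ← Finset.sum_div, ← LinearMap.sum_apply,
        div_self hs.ne', mul_one]
    rw [e2]
    conv_rhs => rw [e1]
    exact Finset.sum_le_sum (fun a _ => h1 a)
  have h3 : 0 ≤ (∑ b, h b) x := by linarith
  have h4 : ∀ a, 0 ≤ h a x := by
    intro a
    refine le_trans ?_ (h1 a)
    have := (hp a).le
    positivity
  have h5 : 0 < (∑ b, h b) x := by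
    rcases h3.lt_or_eq with h6 | h6
    · exact h6
    · exfalso
      apply h0
      apply hsp
      rw [LinearMap.sum_apply] at h6
      intro i
      exact (Finset.sum_eq_zero_iff_of_nonneg (fun a _ => h4 a)).1 h6.symm i (Finset.mem_univ i)
  intro a
  refine lt_of_lt_of_le ?_ (h1 a)
  have := hp a
  positivity

/-- The inversion. -/
noncomputable def rho (h : ι → E →ₗ[ℚ] ℚ) (p x : E) : E := x + (-2 * rad h p x) • p

theorem rad_rho (hp : p ∈ KO h) (x : E) : rad h p (rho h p x) = - rad h p x := by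
  unfold rho
  rw [rad_add h hp]
  ring

theorem rho_rho (hp : p ∈ KO h) (x : E) : rho h p (rho h p x) = x := by
  have e : rho h p (rho h p x) = rho h p x + (-2 * rad h p (rho h p x)) • p := rfl
  rw [e, rad_rho hp]
  unfold rho
  rw [add_assoc, ← add_smul]
  have : -2 * rad h p x + -2 * -rad h p x = 0 := by ring
  rw [this, zero_smul, add_zero]

theorem rho_pl (h : ι → E →ₗ[ℚ] ℚ) (p : E) : PLOn (rho h p) Set.univ := by
  have h1 : PLOn (fun x => (-2 : ℚ) • rad h p x) Set.univ := (plOn_rad h p _).smul _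
  have h2 := h1.lin (LinearMap.toSpanSingleton ℚ E p)
  have h3 := (plOn_id (Set.univ : Set E)).add h2
  refine h3.congr (fun x _ => ?_)
  unfold rho
  rw [LinearMap.toSpanSingleton_apply, smul_eq_mul]

theorem rho_inv (hp : p ∈ KO h) : PLInv (rho h p) (rho h p) Set.univ Set.univ :=
  ⟨rho_pl h p, rho_pl h p, fun _ _ => trivial, fun _ _ => trivial, fun x _ => rho_rho hp x,
    fun x _ => rho_rho hp x⟩

end fam

end ARefl

open ARefl SignType in
theorem I_Refl (hNoChm : St_NoChm) (hStdTr : St_StdTr) (hSphTr : St_SphTr) : St_Refl := by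
  intro n E _ _ _ hdim hB T hT
  classical
  have hPol : Pol T := by
    obtain ⟨D₁, D₂, U, rfl, -, h1, h2⟩ := hT
    exact h1.1.union h2.1
  obtain ⟨A, hA, hne, hcl, hsp⟩ := arr hPol
  obtain ⟨p, -, hp⟩ := exists_generic A hA hne (B := ∅) Set.finite_empty (0 : E)
    (fun b hb => absurd hb (Set.notMem_empty b))
  have hpT : p ∉ T := hNoChm n E T A hdim hT hA hcl.inv p hp
  haveI : Fintype A := hA.fintype
  haveI hnon : Nonempty A := by
    by_contra hemp
    rw [not_nonempty_iff] at hemp
    have hz : ∀ x : E, x = 0 := fun x => hsp x (fun a ha => (hemp.false ⟨a, ha⟩).elim)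
    haveI : Subsingleton E := ⟨fun x y => (hz x).trans (hz y).symm⟩
    have : Module.finrank ℚ E = 0 := Module.finrank_zero_of_subsingleton
    omega
  obtain ⟨h, hh⟩ : ∃ h : A → E →ₗ[ℚ] ℚ, ∀ a : A,
      h a = if 0 < (a : E →ₗ[ℚ] ℚ) p then (a : E →ₗ[ℚ] ℚ) else -(a : E →ₗ[ℚ] ℚ) :=
    ⟨_, fun _ => rfl⟩
  have hKp : p ∈ KO h := by
    intro a
    rw [hh a]
    split_ifs with h1
    · exact h1
    · rw [LinearMap.neg_apply]
      have := hp a a.2
      rcases lt_or_gt_of_ne this with h2 | h2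
      · linarith
      · exact absurd h2 h1
  have hhsp : ∀ x, (∀ i, h i x = 0) → x = 0 := by
    intro x hx
    apply hsp
    intro a ha
    have := hx ⟨a, ha⟩
    rw [hh] at this
    split_ifs at this with h1
    · exact this
    · rw [LinearMap.neg_apply, neg_eq_zero] at this
      exact this
  have hKO : ∀ x ∈ KO h, x ∉ T := by
    intro x hx hxT
    refine hpT (hcl.inv x p (fun a ha => ?_) hxT)
    have h1 := hx ⟨a, ha⟩
    have h2 := hp a ha
    rw [hh] at h1
    split_ifs at h1 with h3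
    · rw [sign_pos h1, sign_pos h3]
    · have h4 : a p < 0 := lt_of_le_of_ne (not_lt.1 h3) h2
      rw [LinearMap.neg_apply] at h1
      have h5 : a x < 0 := by
        have h1 : 0 < - a x := h1
        linarith
      rw [sign_neg h4, sign_neg h5]
  have hp' := hs_p hKp
  have hinv := rho_inv hp'
  have hPol' : Pol (rho (hs h p) p '' T) := hinv.pol_image pol_univ (Set.subset_univ T) hPol
  have hSph' : Sph (n + 1) (rho (hs h p) p '' T) :=
    hSphTr n E E T _ _ _ hT hPol' (hinv.restrict_image (Set.subset_univ T))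
  have hbdd : Bdd (∑ a, hs h p a) (rho (hs h p) p '' T) := by
    rintro y ⟨x, hx, rfl⟩ hy
    have hx0 : x ≠ 0 := by
      rintro rfl
      apply hy
      obtain ⟨i, hi⟩ := exists_rad_eq (hs h p) hp' 0
      rw [map_zero] at hi
      have h1 : rad (hs h p) p 0 = 0 := by
        rcases mul_eq_zero.1 hi with h2 | h2
        · exact h2
        · exact absurd h2 (hp' i).ne'
      unfold rho
      rw [h1, mul_zero, zero_smul, add_zero]
    have hnK : x ∉ KC (hs h p) := fun hc => hKO x (hs_KO hKp hhsp hc hx0) hx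
    have h1 : ∃ a, hs h p a x < 0 := by
      by_contra hcon
      push Not at hcon
      exact hnK hcon
    obtain ⟨a, ha⟩ := h1
    have h2 := rad_le (hs h p) hp' x a
    have h3 : rad (hs h p) p x < 0 := by
      by_contra hcon
      push Not at hcon
      have := mul_nonneg hcon (hp' a).le
      linarith
    have h4 : ∀ b, 0 < hs h p b (rho (hs h p) p x) := by
      intro b
      refine lt_of_lt_of_le ?_ (rad_le (hs h p) hp' _ b)
      rw [rad_rho hp']
      exact mul_pos (by linarith) (hp' b)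
    rw [LinearMap.sum_apply]
    exact Finset.sum_pos (fun b _ => h4 b) Finset.univ_nonempty
  have hStd := hB _ _ hSph' hbdd
  exact hStdTr (n + 1) E E T _ _ _ hinv
    (fun x => (hinv.mem_image (Set.subset_univ T) (Set.mem_univ x)).symm) hStd

end Pool.Agent.Work.MP_552024_lc.PLS
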