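import Pool.Agent.Work.MP_552024_lc.PLS.S4L

set_option autoImplicit false

namespace Pool.Agent.Work.MP_552024_lc.PLS

namespace ARegT

variable {E : Type} [AddCommGroup E] [Module ℚ E]

theorem tg_ker (T : Set E) (x : E) (h : E →ₗ[ℚ] ℚ) (hx : h x = 0) (v : E) :
    v ∈ Tg x (T ∩ {y | h y = 0}) ↔ v ∈ Tg x T ∧ h v = 0 := by
  constructor
  · rintro ⟨ε, hε, H⟩
    refine ⟨⟨ε, hε, fun s h0 h1 => (H s h0 h1).1⟩, ?_⟩
    have h2 : h (x + ε • v) = 0 := (H ε hε le_rfl).2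
    rw [map_add, hx, zero_add, map_smul, smul_eq_mul] at h2
    exact (mul_eq_zero.1 h2).resolve_left hε.ne'
  · rintro ⟨⟨ε, hε, H⟩, hv⟩
    refine ⟨ε, hε, fun s h0 h1 => ⟨H s h0 h1, ?_⟩⟩
    show h (x + s • v) = 0
    rw [map_add, hx, zero_add, map_smul, hv, smul_zero]

theorem half (x e p : E) (h : E →ₗ[ℚ] ℚ) (hx : h x = 0) (he : h e ≠ 0) (v : E) :
    ((∃ a b c : ℚ, 0 ≤ c ∧ v = a • x + b • e + c • p) ∧ h v = 0) ↔
      ∃ a c : ℚ, 0 ≤ c ∧ v = a • x + c • (p - (h p / h e) • e) := by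
  constructor
  · rintro ⟨⟨a, b, c, hc, rfl⟩, hv⟩
    refine ⟨a, c, hc, ?_⟩
    simp only [map_add, map_smul, hx, smul_eq_mul, mul_zero, zero_add] at hv
    have hb : b = -(c * (h p / h e)) := by
      field_simp
      linarith
    rw [hb]
    module
  · rintro ⟨a, c, hc, rfl⟩
    refine ⟨⟨a, -(c * (h p / h e)), c, hc, ?_⟩, ?_⟩
    · module
    · simp only [map_add, map_sub, map_smul, hx, smul_eq_mul, mul_zero, zero_add]
      have : h p / h e * h e = h p := div_mul_cancel₀ _ he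
      rw [this, sub_self, mul_zero]

end ARegT

open ARegT in
theorem I_RegT (hLS2 : St_LS2) : St_RegT := by
  intro E _ _ _ T x e h hT hxT hx0 hx he hinv
  obtain ⟨p, q, hp, hq, hpq, hTg⟩ := hLS2 E T x e hT hxT hx0
    (by rintro ⟨c, hc⟩; exact he (by rw [hc, map_smul, hx, smul_zero])) hinv
  refine ⟨p - (h p / h e) • e, q - (h q / h e) • e, ?_, ?_, ?_, ?_⟩
  · rintro ⟨a, ha⟩
    exact hp ⟨a, h p / h e, by rw [← ha]; abel⟩
  · rintro ⟨a, ha⟩
    exact hq ⟨a, h q / h e, by rw [← ha]; abel⟩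
  · rintro ⟨a, c, hc, ha⟩
    refine hpq ⟨a, h q / h e - c * (h p / h e), c, hc, ?_⟩
    calc q = (q - (h q / h e) • e) + (h q / h e) • e := by abel
      _ = (a • x + c • (p - (h p / h e) • e)) + (h q / h e) • e := by rw [ha]
      _ = a • x + (h q / h e - c * (h p / h e)) • e + c • p := by module
  · ext v
    rw [tg_ker T x h hx, hTg]
    constructor
    · rintro ⟨h1 | h1, h2⟩
      · exact Or.inl ((half x e p h hx he v).1 ⟨h1, h2⟩)
      · exact Or.inr ((half x e q h hx he v).1 ⟨h1, h2⟩)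
    · rintro (h1 | h1)
      · have := (half x e p h hx he v).2 h1
        exact ⟨Or.inl this.1, this.2⟩
      · have := (half x e q h hx he v).2 h1
        exact ⟨Or.inr this.1, this.2⟩

end Pool.Agent.Work.MP_552024_lc.PLS
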