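import Pool.Agent.Work.MP_552024_lc.PLS.S4

set_option autoImplicit false

namespace Pool.Agent.Work.MP_552024_lc.PLS

theorem I_SchA1 (hRefl : St_Refl) (hCV : St_CV) (hSph1 : St_Sph1) : St_SchA1 := by
  intro E _ _ _ hE T hT
  refine hRefl 0 E hE ?_ T hT
  clear hT T
  intro T u hT hu
  obtain ⟨p, q, hp, hq, hqp, hTe⟩ := (hSph1 E T).1 hT
  have hpT : p ∈ T := by
    rw [hTe]
    exact Or.inl ⟨1, zero_le_one, (one_smul ℚ p).symm⟩
  have hqT : q ∈ T := by
    rw [hTe]
    exact Or.inr ⟨1, zero_le_one, (one_smul ℚ q).symm⟩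
  have up : 0 < u p := hu p hpT hp
  have uq : 0 < u q := hu q hqT hq
  have hli : LinearIndependent ℚ ![p, q] := by
    rw [LinearIndependent.pair_iff]
    intro s t hst
    by_cases ht : t = 0
    · subst ht
      rw [zero_smul, add_zero, smul_eq_zero] at hst
      exact ⟨hst.resolve_right hp, rfl⟩
    · exfalso
      have h1 : q = (-(t⁻¹ * s)) • p := by
        have h2 : t • q = -(s • p) := by
          rw [eq_neg_iff_add_eq_zero, add_comm]
          exact hst
        have h3 : q = t⁻¹ • (t • q) := by rw [smul_smul, inv_mul_cancel₀ ht, one_smul]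
        rw [h3, h2, smul_neg, smul_smul, neg_smul]
      have h4 : u q = (-(t⁻¹ * s)) * u p := by
        conv_lhs => rw [h1]
        rw [map_smul, smul_eq_mul]
      by_cases h5 : 0 ≤ -(t⁻¹ * s)
      · exact hqp ⟨_, h5, h1⟩
      · have h6 : (-(t⁻¹ * s)) * u p < 0 := mul_neg_of_neg_of_pos (not_le.1 h5) up
        linarith
  have hcard : Fintype.card (Fin 2) = Module.finrank ℚ E := by
    rw [hE]
    rfl
  set b := basisOfLinearIndependentOfCardEqFinrank hli hcard with hb
  have hb0 : b 0 = p := by
    rw [hb, coe_basisOfLinearIndependentOfCardEqFinrank]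
    rfl
  have hb1 : b 1 = q := by
    rw [hb, coe_basisOfLinearIndependentOfCardEqFinrank]
    rfl
  have hx : ∀ x : E, x = b.coord 0 x • p + b.coord 1 x • q := by
    intro x
    have h := b.sum_repr x
    rw [Fin.sum_univ_two, hb0, hb1] at h
    exact h.symm
  have hc : ∀ c d : ℚ, b.coord 0 (c • p + d • q) = c ∧ b.coord 1 (c • p + d • q) = d := by
    intro c d
    rw [← hb0, ← hb1]
    constructor
    · simp [map_add, map_smul, Module.Basis.coord_apply, Module.Basis.repr_self]
    · simp [map_add, map_smul, Module.Basis.coord_apply, Module.Basis.repr_self]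
  have hKD : KD (fun i : Fin 2 => b.coord i) = T := by
    rw [hTe]
    ext x
    constructor
    · rintro ⟨h1, i, hi⟩
      have h10 : 0 ≤ b.coord 0 x := h1 0
      have h11 : 0 ≤ b.coord 1 x := h1 1
      have hxx := hx x
      fin_cases i
      · right
        refine ⟨b.coord 1 x, h11, ?_⟩
        have hi' : b.coord 0 x = 0 := hi
        rw [hi', zero_smul, zero_add] at hxx
        exact hxx
      · left
        refine ⟨b.coord 0 x, h10, ?_⟩
        have hi' : b.coord 1 x = 0 := hi
        rw [hi', zero_smul, add_zero] at hxx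
        exact hxx
    · rintro (⟨c, hc0, rfl⟩ | ⟨c, hc0, rfl⟩)
      · have h := hc c 0
        rw [zero_smul, add_zero] at h
        refine ⟨?_, 1, h.2⟩
        intro i
        fin_cases i
        · exact le_of_le_of_eq hc0 h.1.symm
        · exact le_of_eq h.2.symm
      · have h := hc 0 c
        rw [zero_smul, zero_add] at h
        refine ⟨?_, 0, h.1⟩
        intro i
        fin_cases i
        · exact le_of_eq h.1.symm
        · exact le_of_le_of_eq hc0 h.2.symm
  have hfin := hCV 1 E (Fin 2) (fun i : Fin 2 => b.coord i) hE ⟨p + q, ?_⟩ ?_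
  · rw [hKD] at hfin
    exact hfin
  · intro i
    have h := hc 1 1
    rw [one_smul, one_smul] at h
    fin_cases i
    · exact lt_of_lt_of_eq one_pos h.1.symm
    · exact lt_of_lt_of_eq one_pos h.2.symm
  · intro x h
    have h0 : b.coord 0 x = 0 := h 0
    have h1 : b.coord 1 x = 0 := h 1
    rw [hx x, h0, h1, zero_smul, zero_smul, add_zero]

end Pool.Agent.Work.MP_552024_lc.PLS
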