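import Pool.Agent.Work.MP_552024_lc.PLS.S4

set_option autoImplicit false

namespace Pool.Agent.Work.MP_552024_lc.PLS

theorem I_SchH (hSphTr : St_SphTr) : St_SchH := by
  intro n hSch E _ _ _ C h₀ hd hne hC hC0
  have hfr : Module.finrank ℚ (LinearMap.ker h₀) = n + 2 := by
    have h1 := Module.Dual.finrank_ker_add_one_of_ne_zero hne
    omega
  generalize hH : LinearMap.ker h₀ = H at hfr
  have hmem : ∀ x, x ∈ H ↔ h₀ x = 0 := fun x => by rw [← hH, LinearMap.mem_ker]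
  obtain ⟨π, hπ⟩ := LinearMap.exists_leftInverse_of_injective H.subtype
    (LinearMap.ker_eq_bot.2 Subtype.val_injective)
  have hπ' : ∀ x : H, π x.1 = x := fun x => LinearMap.congr_fun hπ x
  have hπ0 : ∀ x : E, h₀ x = 0 → (π x).1 = x := by
    intro x hx
    have : π x = ⟨x, (hmem x).2 hx⟩ := hπ' ⟨x, (hmem x).2 hx⟩
    rw [this]
  have hCp : Pol C := by
    obtain ⟨D₁, D₂, U, hT, _, h1, h2⟩ := hC
    rw [hT]
    exact h1.1.union h2.1
  obtain ⟨C', hC'⟩ : ∃ C' : Set H, C' = {y | y ∈ Set.univ ∧ H.subtype y ∈ C} := ⟨_, rfl⟩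
  have hm' : ∀ y : H, y ∈ C' ↔ y.1 ∈ C := by
    intro y; rw [hC']; exact ⟨fun hh => hh.2, fun hh => ⟨trivial, hh⟩⟩
  have hC'p : Pol C' := by
    rw [hC']
    exact (plOn_linear H.subtype Set.univ).pol_preimage pol_univ hCp
  have hinv : PLInv π (fun x : H => x.1) C C' := by
    refine ⟨plOn_linear π _, plOn_linear H.subtype _, ?_, ?_, ?_, ?_⟩
    · intro x hx
      rw [hm', hπ0 x (hC0 x hx)]
      exact hx
    · intro y hy
      exact (hm' y).1 hy
    · intro x hx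
      exact hπ0 x (hC0 x hx)
    · intro y _
      exact hπ' y
  have hS' : Sph (n + 1) C' := hSphTr n E H C C' π _ hC hC'p hinv
  obtain ⟨A, A', hun, hint, hA, hA'⟩ := hSch H hfr C' hS'
  have key : ∀ B : Set H, Ball (n + 1 + 1) B C' → C' ⊆ B →
      Ball (n + 2) {x | x ∈ {x | h₀ x = 0} ∧ π x ∈ B} C := by
    intro B hB hsub
    refine hB.transport (F := fun x => x.1) (G := π)
      ((plOn_linear π _).pol_preimage (pol_hyperplane h₀) hB.1)
      ⟨plOn_linear H.subtype _, plOn_linear π _, ?_, ?_, ?_, ?_⟩ ?_ ?_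
    · intro x hx
      refine ⟨(hmem _).1 x.2, ?_⟩
      show π x.1 ∈ B
      rw [hπ' x]; exact hx
    · rintro y ⟨_, hy⟩; exact hy
    · intro x _; exact hπ' x
    · rintro y ⟨hy, _⟩; exact hπ0 y hy
    · intro x hx
      refine ⟨hC0 x hx, hsub ?_⟩
      rw [hm', hπ0 x (hC0 x hx)]
      exact hx
    · intro x _
      exact hm' x
  refine ⟨_, _, ?_, ?_, key A hA (by rw [← hint]; exact Set.inter_subset_left),
    key A' hA' (by rw [← hint]; exact Set.inter_subset_right)⟩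
  · ext x
    constructor
    · rintro (⟨hx, _⟩ | ⟨hx, _⟩) <;> exact hx
    · intro hx
      have : π x ∈ A ∪ A' := by rw [hun]; trivial
      exact this.imp (fun hh => ⟨hx, hh⟩) (fun hh => ⟨hx, hh⟩)
  · ext x
    constructor
    · rintro ⟨⟨hx, h1⟩, ⟨_, h2⟩⟩
      have : π x ∈ C' := by rw [← hint]; exact ⟨h1, h2⟩
      rw [hm', hπ0 x hx] at this
      exact this
    · intro hx
      have h3 : π x ∈ A ∩ A' := by
        rw [hint, hm', hπ0 x (hC0 x hx)]
        exact hx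
      exact ⟨⟨hC0 x hx, h3.1⟩, ⟨hC0 x hx, h3.2⟩⟩

end Pool.Agent.Work.MP_552024_lc.PLS
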