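import Pool.Agent.Work.MP_552024_lc.PLS.S4

/-!
# Item SchPof
-/

set_option autoImplicit false

namespace Pool.Agent.Work.MP_552024_lc.PLS

namespace ASchPof

variable {E : Type*} [AddCommGroup E] [Module ℚ E]

theorem pol_half {B : Set (E →ₗ[ℚ] ℚ)} (hB : B.Finite) : Pol {x : E | ∀ b ∈ B, 0 ≤ b x} := by
  refine ⟨fun b _ => by simp, B, hB, ?_⟩
  intro y hy x hx b hb
  rcases hx b hb with h | h
  · rw [h]
  · have h1 : 0 ≤ b y := hy b hb
    have h2 : (0 : SignType) ≤ SignType.sign (b y) := sign_nonneg_iff.2 h1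
    rw [← h] at h2
    exact sign_nonneg_iff.1 h2

theorem key [FiniteDimensional ℚ E] {n : ℕ} {K A : Set E} (hKc : Pol Kᶜ) (hK : Conn K)
    (hA : Comp A Set.univ (cl K \ K)) (hB : Ball n A (cl K \ K)) (h : K ⊆ A) :
    Ball n (cl K) (cl K \ K) := by
  have hKcon : Con K := by
    have := hKc.con.compl
    rwa [compl_compl] at this
  have hcl : Pol (cl K) := hKcon.pol_cl
  have h1 := hA.conn.2 (cl K) Kᶜ hcl hKc
    (by
      intro x _
      by_cases hx : x ∈ K
      · exact Or.inl (subset_cl K hx)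
      · exact Or.inr hx)
    (by
      intro x hx h2 h3
      exact hx.2 ⟨h2, h3⟩)
  rcases h1 with h1 | h1
  · have h2 : A ⊆ cl K := by
      have := hcl.cl_subset h1
      rwa [hA.cl_eq] at this
    have h3 : cl K ⊆ A := hA.pol.cl_subset h
    rwa [subset_antisymm h2 h3] at hB
  · exfalso
    obtain ⟨x, hx⟩ := hK.1
    exact h1 ⟨h hx, fun hT => hT.2 hx⟩ hx

end ASchPof

open ASchPof in
theorem I_SchPof (hStdSides : St_StdSides) : St_SchPof := by
  intro k hyp K B hB hpt hKB hKc hK hS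
  set u : (Fin (k + 2) → ℚ) →ₗ[ℚ] ℚ := ∑ b ∈ hB.toFinset, b with hu
  have hpos : ∀ x ∈ cl K, ∀ b ∈ B, 0 ≤ b x :=
    (pol_half hB).cl_subset (fun x hx b hb => (hKB hx b hb).le)
  have hbdd : Bdd u (cl K \ K) := by
    intro x hx hx0
    have h1 := hpos x hx.1
    have h2 : u x = ∑ b ∈ hB.toFinset, b x := by
      rw [hu, LinearMap.sum_apply]
    have h3 : 0 ≤ u x := by
      rw [h2]
      exact Finset.sum_nonneg (fun b hb => h1 b (hB.mem_toFinset.1 hb))
    rcases h3.eq_or_lt with h4 | h4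
    · exfalso
      apply hx0
      apply hpt x h1
      intro b hb
      have h5 := (Finset.sum_eq_zero_iff_of_nonneg
        (fun b hb => h1 b (hB.mem_toFinset.1 hb))).1 (h2.symm.trans h4.symm) b
        (hB.mem_toFinset.2 hb)
      exact h5.le
    · exact h4
  obtain ⟨A, A', hun, hin, hb1, hb2⟩ := hyp (cl K \ K) u hS hbdd
  obtain ⟨hc1, hc2, _, _⟩ := hStdSides (k + 1) (Fin (k + 2) → ℚ) (cl K \ K) A A' hun hin hb1 hb2
  have hcov := hK.2 A A' hc1.pol hc2.pol (by rw [hun]; exact Set.subset_univ _)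
    (by
      intro x hx h1 h2
      have : x ∈ A ∩ A' := ⟨h1, h2⟩
      rw [hin] at this
      exact this.2 hx)
  rcases hcov with h | h
  · exact key hKc hK hc1 hb1 h
  · exact key hKc hK hc2 hb2 h

end Pool.Agent.Work.MP_552024_lc.PLS
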