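import Pool.Agent.Work.MP_552024_lc.PLS.S4

set_option autoImplicit false

namespace Pool.Agent.Work.MP_552024_lc.PLS

theorem I_SecB : St_SecB := by
  intro n E _ _ _ ι _ _ h h₀ w hd hne hw₀ hw hp
  have hfr : Module.finrank ℚ (LinearMap.ker h₀) = n + 1 := by
    have h1 := Module.Dual.finrank_ker_add_one_of_ne_zero hne
    omega
  generalize hH : LinearMap.ker h₀ = H at hfr
  have hmem : ∀ x, x ∈ H ↔ h₀ x = 0 := fun x => by rw [← hH, LinearMap.mem_ker]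
  let h' : ι → H →ₗ[ℚ] ℚ := fun i => (h i).comp H.subtype
  have hball := coneBall n H ι h' hfr ⟨⟨w, (hmem w).2 hw₀⟩, fun i => hw i⟩ (fun x hx => by
    have := hp x.1 ((hmem _).1 x.2) (fun i => hx i)
    exact Subtype.ext this)
  obtain ⟨π, hπ⟩ := LinearMap.exists_leftInverse_of_injective H.subtype
    (LinearMap.ker_eq_bot.2 Subtype.val_injective)
  have hπ' : ∀ x : H, π x.1 = x := fun x => LinearMap.congr_fun hπ x
  refine hball.transport (F := fun x => x.1) (G := π) ((pol_KC h).inter (pol_hyperplane h₀))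
    ⟨plOn_linear H.subtype _, plOn_linear π _, ?_, ?_, ?_, ?_⟩ ?_ ?_
  · intro x hx
    exact ⟨fun i => hx i, (hmem _).1 x.2⟩
  · rintro y ⟨hy, hy0⟩ i
    have : π y = ⟨y, (hmem y).2 hy0⟩ := hπ' ⟨y, (hmem y).2 hy0⟩
    rw [this]; exact hy i
  · intro x _; exact hπ' x
  · rintro y ⟨hy, hy0⟩
    have : π y = ⟨y, (hmem y).2 hy0⟩ := hπ' ⟨y, (hmem y).2 hy0⟩
    show (π y).1 = y
    rw [this]
  · rintro x ⟨hx, hx0⟩; exact ⟨hx.1, hx0⟩
  · intro x hx
    constructor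
    · rintro ⟨h1, h2⟩; exact ⟨⟨h1, h2⟩, (hmem _).1 x.2⟩
    · rintro ⟨⟨h1, h2⟩, _⟩; exact ⟨h1, h2⟩

end Pool.Agent.Work.MP_552024_lc.PLS
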