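import Pool.Agent.Work.MP_552024_lc.PLS.S4

set_option autoImplicit false

namespace Pool.Agent.Work.MP_552024_lc.PLS

open SignType

namespace ASlab

section General

variable {E : Type*} [AddCommGroup E] [Module ℚ E]

/-- An invariant closed set is a union of closed faces. -/
theorem clA_of_inv {A : Set (E →ₗ[ℚ] ℚ)} {S : Set E} (hinv : InvA A S) (hpol : Pol S) :
    ClA A S := by
  obtain ⟨_, B, hB, H⟩ := hpol
  intro y hy z hz
  obtain ⟨ε, hε, K⟩ := exists_small hB z y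
  have h1 : SameSign A (z + (min ε 1) • (y - z)) y :=
    sameSign_segment hz (lt_min hε one_pos) (min_le_right _ _)
  exact H _ (hinv _ _ h1.symm hy) (K _ (lt_min hε one_pos) (min_le_left _ _)).1

/-- The closure of an invariant set is a union of closed faces. -/
theorem clA_cl {A : Set (E →ₗ[ℚ] ℚ)} (hA : A.Finite) (hs : Spn A) {S : Set E}
    (hinv : InvA A S) : ClA A (cl S) := by
  intro y hy z hz
  rw [mem_cl_iff hA hinv] at hy ⊢
  rcases hy with rfl | ⟨w, hw, hyw⟩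
  · left
    apply hs
    intro a ha
    rcases hz a ha with h | h
    · exact h
    · rw [map_zero, sign_zero, sign_eq_zero_iff] at h; exact h
  · exact Or.inr ⟨w, hw, face_trans hz hyw⟩

/-- Near every point there is a chamber. -/
theorem exists_chm {A : Set (E →ₗ[ℚ] ℚ)} (hA : A.Finite) (hne : ∀ a ∈ A, a ≠ 0) (y : E) :
    ∃ z, Chm A z ∧ y ∈ face A z := by
  obtain ⟨q, h1, h2⟩ := exists_generic A hA hne
    (B := (fun a : E →ₗ[ℚ] ℚ => (a y) • a) '' {a | a ∈ A ∧ a y ≠ 0})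
    ((hA.subset (fun a h => h.1)).image _) y (by
      rintro _ ⟨a, ⟨_, ha⟩, rfl⟩
      show 0 < (a y) • a y
      rw [smul_eq_mul]
      exact mul_self_pos.2 ha)
  refine ⟨q, h2, fun a ha => ?_⟩
  by_cases hay : a y = 0
  · exact Or.inl hay
  · right
    have h3 : 0 < (a y) * a q := h1 _ ⟨a, ⟨ha, hay⟩, rfl⟩
    rcases lt_or_gt_of_ne hay with h4 | h4
    · have h5 : a q < 0 := by
        by_contra h6
        push Not at h6
        nlinarith [mul_nonneg (neg_nonneg.2 h4.le) h6]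
      rw [sign_neg h4, sign_neg h5]
    · have h5 : 0 < a q := by
        by_contra h6
        push Not at h6
        nlinarith [mul_nonneg h4.le (neg_nonneg.2 h6)]
      rw [sign_pos h4, sign_pos h5]

theorem range_sgv_finite {A : Set (E →ₗ[ℚ] ℚ)} (hA : A.Finite) :
    (Set.range (sgv A)).Finite := by
  classical
  have : Finite A := hA
  refine (Set.finite_range (fun (φ : A → SignType) (a : E →ₗ[ℚ] ℚ) =>
    if h : a ∈ A then φ ⟨a, h⟩ else 0)).subset ?_
  rintro _ ⟨x, rfl⟩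
  refine ⟨fun a => sign (a.1 x), ?_⟩
  funext a
  unfold sgv
  by_cases h : a ∈ A
  · simp [h]
  · simp [h]

theorem sameSign_of_sgv {A : Set (E →ₗ[ℚ] ℚ)} {x y : E} (h : sgv A x = sgv A y) :
    SameSign A x y := by
  intro a ha
  have := congrFun h a
  unfold sgv at this
  rwa [if_pos ha, if_pos ha] at this

/-- The number of chambers decreases. -/
theorem nch_lt {A : Set (E →ₗ[ℚ] ℚ)} (hA : A.Finite) {K L : Set E} (hLK : L ⊆ K)
    (hL : InvA A L) {z : E} (hz : z ∈ K) (hzc : Chm A z) (hzL : z ∉ L) : nch A L < nch A K := by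
  unfold nch
  apply Set.ncard_lt_ncard
  · refine ⟨?_, ?_⟩
    · rintro σ ⟨x, hx, hc, rfl⟩
      exact ⟨x, hLK hx, hc, rfl⟩
    · intro h
      obtain ⟨x, hx, _, he⟩ := h ⟨z, hz, hzc, rfl⟩
      exact hzL (hL _ _ (sameSign_of_sgv he.symm) hx)
  · refine (range_sgv_finite hA).subset ?_
    rintro σ ⟨x, _, _, rfl⟩
    exact ⟨x, rfl⟩

theorem sides_swap {T M M' : Set E} (h : Sides T M M') : Sides T M' M := by
  obtain ⟨h1, h2, h3, h4⟩ := h
  exact ⟨h2, h1, by rw [Set.union_comm, h3], by rw [Set.inter_comm, h4]⟩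

theorem sub_left {T M M' : Set E} (h : Sides T M M') : T ⊆ M := by
  rw [← h.2.2.2]; exact Set.inter_subset_left

theorem sub_right {T M M' : Set E} (h : Sides T M M') : T ⊆ M' := by
  rw [← h.2.2.2]; exact Set.inter_subset_right

theorem diff_eq {T M M' : Set E} (h : Sides T M M') : M \ T = M'ᶜ := by
  ext x
  constructor
  · rintro ⟨h1, h2⟩ h3
    exact h2 (by rw [← h.2.2.2]; exact ⟨h1, h3⟩)
  · intro h1
    have h2 : x ∈ M ∪ M' := by rw [h.2.2.1]; trivial
    refine ⟨h2.resolve_right h1, fun h3 => h1 (sub_right h h3)⟩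

theorem conn_side {T M M' K : Set E} (h : Sides T M M') (hK : Conn K) (hd : ∀ x ∈ K, x ∉ T) :
    K ⊆ M ∨ K ⊆ M' := by
  refine hK.2 M M' h.1.pol h.2.1.pol ?_ ?_
  · intro x _; rw [h.2.2.1]; trivial
  · intro x hx h1 h2
    exact hd x hx (by rw [← h.2.2.2]; exact ⟨h1, h2⟩)

theorem conn_side' {T M M' K : Set E} (h : Sides T M M') (hK : Conn K) (hd : ∀ x ∈ K, x ∉ T) :
    ∃ N N' : Set E, Sides T N N' ∧ K ⊆ N := by
  rcases conn_side h hK hd with h1 | h1
  · exact ⟨M, M', h, h1⟩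
  · exact ⟨M', M, sides_swap h, h1⟩

/-- An open connected set is a side of its boundary. -/
theorem side_K [FiniteDimensional ℚ E] {M M' K : Set E} (h : Sides (cl K \ K) M M')
    (hK : Conn K) (ho : Pol Kᶜ) (hKM : K ⊆ M) : M \ (cl K \ K) = K ∧ M = cl K := by
  have hcon : Con K := by rw [← compl_compl K]; exact ho.con.compl
  have h1 : M \ (cl K \ K) = K := by
    apply subset_antisymm
    · rcases h.1.conn.2 (cl K) Kᶜ hcon.pol_cl ho (fun x _ => by
          by_cases hx : x ∈ K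
          · exact Or.inl (subset_cl K hx)
          · exact Or.inr hx) (fun x hx h2 h3 => hx.2 ⟨h2, h3⟩) with h2 | h2
      · intro x hx
        by_contra hxK
        exact hx.2 ⟨h2 hx, hxK⟩
      · obtain ⟨x, hx⟩ := hK.1
        exact absurd hx (h2 ⟨hKM hx, fun h3 => h3.2 hx⟩)
    · intro x hx
      exact ⟨hKM hx, fun h3 => h3.2 hx⟩
  refine ⟨h1, ?_⟩
  rw [← h.1.cl_eq, h1]

end General

/-- The interior of a ball is nonempty. -/
theorem ball_nonempty {E : Type*} [AddCommGroup E] [Module ℚ E] {k : ℕ} {C S : Set E}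
    (h : Ball (k + 1) C S) : (C \ S).Nonempty := by
  obtain ⟨_, _, f, g, hfg, hbd⟩ := h
  have h1 : (fun _ => 1 : Fin (k + 1) → ℚ) ∈ Orth (k + 1) := fun _ => zero_le_one
  refine ⟨f (fun _ => 1), hfg.mapsf _ h1, fun h2 => ?_⟩
  obtain ⟨_, i, hi⟩ := (hbd _ h1).2 h2
  exact one_ne_zero hi

theorem clE_both (hClE : St_ClE) {E : Type} [AddCommGroup E] [Module ℚ E]
    [FiniteDimensional ℚ E] {A : Set (E →ₗ[ℚ] ℚ)} {T c E₁ E₂ : Set E} (hA : A.Finite)
    (hT : ClA A T) (hc : ClA A c) (hu : E₁ ∪ E₂ = T) (hi : E₁ ∩ E₂ = c) (h1 : Pol E₁)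
    (h2 : Pol E₂) : ClA A E₁ ∧ ClA A E₂ :=
  ⟨hClE E A T c E₁ E₂ hA hT hc hu hi h1 h2,
    hClE E A T c E₂ E₁ hA hT hc (by rw [Set.union_comm, hu]) (by rw [Set.inter_comm, hi]) h2 h1⟩

/-- One piece of the cut. -/
theorem piece (hJBS : St_JBS) (hSchA2 : St_SchA2) (hClM : St_ClM)
    {E : Type} [AddCommGroup E] [Module ℚ E] [FiniteDimensional ℚ E] {A : Set (E →ₗ[ℚ] ℚ)}
    {u v : E →ₗ[ℚ] ℚ} {l c : ℚ} {K M' D C E₁ : Set E} (hfr : Module.finrank ℚ E = 4)
    (h : SlabH A u v l c K) (hM' : Sides (cl K \ K) (cl K) M')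
    (hD : Ball 3 D C) (hE : Ball 3 E₁ C) (hDT : D ∩ (cl K \ K) = C)
    (hDK : D \ C ⊆ K) (hClD : ClA A D) (hE1 : E₁ ⊆ cl K \ K) (hClE1 : ClA A E₁) :
    ∃ L : Set E, SlabH A u v l c L ∧ nch A L < nch A K ∧ cl L \ L = E₁ ∪ D := by
  have hCD : C ⊆ D := hD.2.1
  have hCE : C ⊆ E₁ := hE.2.1
  have hEDC : E₁ ∩ D = C := by
    apply subset_antisymm
    · rintro x ⟨h1, h2⟩
      rw [← hDT]; exact ⟨h2, hE1 h1⟩
    · intro x hx; exact ⟨hCE hx, hCD hx⟩
  have hS : Sph 3 (E₁ ∪ D) := ⟨E₁, D, C, rfl, hEDC.symm, hE, hD⟩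
  have hcon : Con K := h.inv.con h.fin
  have h0K : (0 : E) ∉ K := h.opn.1
  have hClc : ClA A Kᶜ := clA_of_inv h.inv.compl h.opn
  have hTi : E₁ ∪ D ⊆ cl K := by
    rintro x (hx | hx)
    · exact (hE1 hx).1
    · by_cases hxC : x ∈ C
      · exact (hE1 (hCE hxC)).1
      · exact subset_cl K (hDK ⟨hx, hxC⟩)
  -- the outside
  have hO : M' \ (cl K \ K) = (cl K)ᶜ := diff_eq (sides_swap hM')
  have hOc : Conn (cl K)ᶜ := by rw [← hO]; exact hM'.2.1.conn
  have hOcl : cl (cl K)ᶜ = M' := by rw [← hO]; exact hM'.2.1.cl_eq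
  obtain ⟨M₀, M₀', hM0, -⟩ := hJBS 1 hSchA2 E (E₁ ∪ D) hfr hS
  obtain ⟨N', N, hN', hON⟩ := conn_side' hM0 hOc (fun x hx hxT => hx (hTi hxT))
  have hN : Sides (E₁ ∪ D) N N' := sides_swap hN'
  have hLc : N \ (E₁ ∪ D) = N'ᶜ := diff_eq hN
  have hTN : cl K \ K ⊆ N' := by
    have h1 : cl K \ K ⊆ M' := sub_right hM'
    refine h1.trans ?_
    rw [← hOcl]
    exact hN.2.1.pol.cl_subset hON
  have hLK : N \ (E₁ ∪ D) ⊆ K := by
    rw [hLc]
    intro x hx
    have h1 : x ∈ cl K := by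
      by_contra h2
      exact hx (hON h2)
    by_contra h2
    exact hx (hTN ⟨h1, h2⟩)
  have hClTi : ClA A (E₁ ∪ D) := hClE1.union hClD
  have hClN : ClA A N := hClM E A (E₁ ∪ D) N h.fin hClTi hN.1
  have hClN' : ClA A N' := hClM E A (E₁ ∪ D) N' h.fin hClTi hN.2.1
  have hinv : InvA A (N \ (E₁ ∪ D)) := by rw [hLc]; exact hClN'.inv.compl
  have hcl : cl (N \ (E₁ ∪ D)) = N := hN.1.cl_eq
  have hbd : cl (N \ (E₁ ∪ D)) \ (N \ (E₁ ∪ D)) = E₁ ∪ D := by
    rw [hcl]
    ext x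
    constructor
    · rintro ⟨h1, h2⟩
      by_contra h3
      exact h2 ⟨h1, h3⟩
    · intro hx
      exact ⟨sub_left hN hx, fun h2 => h2.2 hx⟩
  refine ⟨N \ (E₁ ∪ D), ?_, ?_, hbd⟩
  · exact
      { fin := h.fin
        spn := h.spn
        ne := h.ne
        lt := h.lt
        low := h.low
        up := h.up
        inv := hinv
        opn := by rw [hLc, compl_compl]; exact hN.2.1.pol
        conn := hN.1.conn
        slab := fun x hx => h.slab x (hLK hx)
        bdd := fun x hx => h.bdd x (cl_mono hLK hx)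
        sph := by rw [hbd]; exact hS
        noray := h.noray }
  · obtain ⟨x, hxD, hxC⟩ := ball_nonempty hD
    have hxK : x ∈ K := hDK ⟨hxD, hxC⟩
    have hx0 : x ≠ 0 := fun h1 => h0K (h1 ▸ hxK)
    have hxN' : x ∈ cl (N' \ (E₁ ∪ D)) := by
      rw [hN.2.1.cl_eq]; exact sub_right hN (Or.inr hxD)
    rw [mem_cl_iff h.fin (hClN'.inv.diff hClTi.inv)] at hxN'
    obtain ⟨y, hy, hxy⟩ := hxN'.resolve_left hx0
    have hyN : y ∉ N := fun h1 => hy.2 (by rw [← hN.2.2.2]; exact ⟨h1, hy.1⟩)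
    have hyK : y ∈ K := by
      by_contra h1
      exact hClc y h1 hxy hxK
    obtain ⟨z, hz, hyz⟩ := exists_chm h.fin h.ne y
    have hzK : z ∈ K := by
      by_contra h1
      exact hClc z h1 hyz hyK
    have hzN : z ∉ N := fun h1 => hyN (hClN z h1 hyz)
    exact nch_lt h.fin hLK hinv hzK hz (fun h1 => hzN h1.1)

end ASlab

open ASlab in
theorem I_Slab (hSlabB : St_SlabB) (hChord : St_Chord) (hJBS : St_JBS) (hK3 : St_K3)
    (hTheta : St_Theta) (hSchA2 : St_SchA2) (hClM : St_ClM) (hClE : St_ClE) : St_Slab := by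
  intro E _ _ _ A u v l c K hfr hH
  have key : ∀ (n : ℕ) (K : Set E), nch A K = n → SlabH A u v l c K → Std 4 (cl K \ K) := by
    intro n
    induction n using Nat.strong_induction_on with
    | _ n ih =>
      intro K hn h
      by_cases hch : ∀ x ∈ K, Chm A x
      · exact hSlabB E A u v l c K hfr h hch
      · push Not at hch
        obtain ⟨x₀, hx₀, hnc⟩ := hch
        unfold Chm at hnc
        push Not at hnc
        obtain ⟨a, ha, hax⟩ := hnc
        obtain ⟨D, C, hD, hC, hDT, hDK, hClD⟩ := hChord E A u v l c K x₀ a hfr h hx₀ ha hax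
        have hCT : C ⊆ cl K \ K := by rw [← hDT]; exact Set.inter_subset_right
        obtain ⟨E₁, E₂, hu, hi, hB1, hB2⟩ := hK3 1 hSchA2 E (cl K \ K) C h.sph hC hCT
        have hClT : ClA A (cl K \ K) := by
          rw [Set.sdiff_eq]
          exact (clA_cl h.fin h.spn h.inv).inter (clA_of_inv h.inv.compl h.opn)
        have hClC : ClA A C := by rw [← hDT]; exact hClD.inter hClT
        obtain ⟨hCl1, hCl2⟩ := clE_both hClE h.fin hClT hClC hu hi hB1.1 hB2.1
        have hE1 : E₁ ⊆ cl K \ K := by rw [← hu]; exact Set.subset_union_left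
        have hE2 : E₂ ⊆ cl K \ K := by rw [← hu]; exact Set.subset_union_right
        obtain ⟨M₀, M₀', hM0, -⟩ := hJBS 1 hSchA2 E (cl K \ K) hfr h.sph
        obtain ⟨M, M', hM, hKM⟩ := conn_side' hM0 h.conn (fun x hx hxT => hxT.2 hx)
        obtain ⟨-, hMK⟩ := side_K hM h.conn h.opn hKM
        rw [hMK] at hM
        obtain ⟨L₁, hL1, hn1, hb1⟩ := piece hJBS hSchA2 hClM hfr h hM hD hB1 hDT hDK hClD hE1 hCl1
        obtain ⟨L₂, hL2, hn2, hb2⟩ := piece hJBS hSchA2 hClM hfr h hM hD hB2 hDT hDK hClD hE2 hCl2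
        have hs1 : Std 4 (E₁ ∪ D) := by
          rw [← hb1]; exact ih _ (by rw [← hn]; exact hn1) L₁ rfl hL1
        have hs2 : Std 4 (E₂ ∪ D) := by
          rw [← hb2]; exact ih _ (by rw [← hn]; exact hn2) L₂ rfl hL2
        have hDE : ∀ F : Set E, Ball 3 F C → F ⊆ cl K \ K → D ∩ F = C := by
          intro F hF hFT
          apply subset_antisymm
          · rintro x ⟨h1, h2⟩
            rw [← hDT]; exact ⟨h1, hFT h2⟩
          · intro x hx; exact ⟨hD.2.1 hx, hF.2.1 hx⟩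
        have := hTheta 2 E D E₁ E₂ C hfr hD hB1 hB2 (hDE E₁ hB1 hE1) (hDE E₂ hB2 hE2) hi hs1 hs2
        rwa [hu] at this
  exact key _ K rfl hH

end Pool.Agent.Work.MP_552024_lc.PLS
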