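import Pool.Agent.Work.MP_552024_lc.PLS.Cad

set_option autoImplicit false

namespace Pool.Agent.Work.MP_552024_lc.PLS

/-! Chambers as families of forms. -/

section fam

variable {E : Type} [AddCommGroup E] [Module ℚ E]

/-- The family of forms of `B` oriented to be positive at `z`. -/
def fam (B : Set (E →ₗ[ℚ] ℚ)) (z : E) : B → E →ₗ[ℚ] ℚ := fun b => (b.1 z) • b.1

theorem fam_apply (B : Set (E →ₗ[ℚ] ℚ)) (z x : E) (b : B) : fam B z b x = b.1 z * b.1 x := rfl

theorem mul_nonneg_iff_sign {a b : ℚ} (ha : a ≠ 0) :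
    0 ≤ a * b ↔ b = 0 ∨ SignType.sign b = SignType.sign a := by
  rcases lt_or_gt_of_ne ha with h | h
  · rw [sign_neg h, sign_eq_neg_one_iff]
    constructor
    · intro h1
      rcases lt_trichotomy b 0 with h2 | h2 | h2
      · exact Or.inr h2
      · exact Or.inl h2
      · nlinarith
    · rintro (h1 | h1)
      · rw [h1, mul_zero]
      · exact (mul_pos_of_neg_of_neg h h1).le
  · rw [sign_pos h, sign_eq_one_iff]
    constructor
    · intro h1
      rcases lt_trichotomy b 0 with h2 | h2 | h2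
      · nlinarith
      · exact Or.inl h2
      · exact Or.inr h2
    · rintro (h1 | h1)
      · rw [h1, mul_zero]
      · exact (mul_pos h h1).le

theorem mul_pos_iff_sign {a b : ℚ} (ha : a ≠ 0) :
    0 < a * b ↔ SignType.sign b = SignType.sign a := by
  rcases lt_or_gt_of_ne ha with h | h
  · rw [sign_neg h, sign_eq_neg_one_iff]
    constructor
    · intro h1
      rcases lt_trichotomy b 0 with h2 | h2 | h2
      · exact h2
      · rw [h2, mul_zero] at h1; exact absurd h1 (lt_irrefl _)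
      · nlinarith
    · exact fun h1 => mul_pos_of_neg_of_neg h h1
  · rw [sign_pos h, sign_eq_one_iff]
    constructor
    · intro h1
      rcases lt_trichotomy b 0 with h2 | h2 | h2
      · nlinarith
      · rw [h2, mul_zero] at h1; exact absurd h1 (lt_irrefl _)
      · exact h2
    · exact fun h1 => mul_pos h h1

theorem KC_fam {B : Set (E →ₗ[ℚ] ℚ)} {z : E} (hz : ∀ b ∈ B, b z ≠ 0) :
    KC (fam B z) = face B z := by
  ext x
  constructor
  · intro h b hb
    exact (mul_nonneg_iff_sign (hz b hb)).1 (h ⟨b, hb⟩)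
  · rintro h ⟨b, hb⟩
    exact (mul_nonneg_iff_sign (hz b hb)).2 (h b hb)

theorem KO_fam {B : Set (E →ₗ[ℚ] ℚ)} {z : E} (hz : ∀ b ∈ B, b z ≠ 0) {x : E} :
    x ∈ KO (fam B z) ↔ SameSign B x z := by
  constructor
  · intro h b hb
    exact (mul_pos_iff_sign (hz b hb)).1 (h ⟨b, hb⟩)
  · rintro h ⟨b, hb⟩
    exact (mul_pos_iff_sign (hz b hb)).2 (h b hb)

theorem KD_fam {B : Set (E →ₗ[ℚ] ℚ)} {z : E} (hz : ∀ b ∈ B, b z ≠ 0) {x : E} :
    x ∈ KD (fam B z) ↔ x ∈ face B z ∧ ∃ b ∈ B, b x = 0 := by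
  rw [← KC_fam hz]
  constructor
  · rintro ⟨h, ⟨b, hb⟩, h2⟩
    rw [fam_apply] at h2
    exact ⟨h, b, hb, (mul_eq_zero.1 h2).resolve_left (hz b hb)⟩
  · rintro ⟨h, b, hb, h2⟩
    exact ⟨h, ⟨b, hb⟩, by rw [fam_apply, h2, mul_zero]⟩

/-- The part of the boundary of a chamber on one side of a hyperplane. -/
theorem side_ball {k : ℕ} [FiniteDimensional ℚ E] {ι : Type} [Fintype ι] [Nonempty ι]
    (h : ι → E →ₗ[ℚ] ℚ) (hd : Module.finrank ℚ E = k + 2) (hp : ∀ x, (∀ i, h i x = 0) → x = 0)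
    (h₀ : E →ₗ[ℚ] ℚ) {w : E} (hw : w ∈ KO h) (hw₀ : h₀ w = 0) (hne : h₀ ≠ 0) :
    Ball (k + 1) (KD h ∩ {x | 0 ≤ h₀ x}) (KD h ∩ {x | h₀ x = 0}) := by
  have hb := section_ball (coneBall k) h hd hp h₀ hw hw₀ hne
  obtain ⟨u, hu⟩ := exists_neg_pt hne
  obtain ⟨p, hp1, hp2⟩ := exists_KO_neg h h₀ hw hw₀ hu
  obtain ⟨α, β, hαβ, _, h3, h4⟩ := proj_side h h₀ hp1 hp2
  refine hb.transport ((pol_KD h).inter (pol_halfspace h₀)) hαβ.symm ?_ ?_
  · rintro x ⟨h5, h6⟩
    have h6 : h₀ x = 0 := h6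
    exact ⟨h5, show 0 ≤ h₀ x from h6.ge⟩
  · rintro x ⟨hx, hx0⟩
    have hβx : β x ∈ KD h ∩ {x | 0 ≤ h₀ x} := hαβ.mapsg x ⟨hx, hx0⟩
    have h7 := h4 _ hβx
    rw [hαβ.fg x ⟨hx, hx0⟩] at h7
    constructor
    · rintro ⟨h8, _⟩
      exact ⟨hβx.1, h7.2 h8⟩
    · rintro ⟨_, h8⟩
      exact ⟨h7.1 h8, hx0⟩

theorem side_ball' {k : ℕ} [FiniteDimensional ℚ E] {ι : Type} [Fintype ι] [Nonempty ι]
    (h : ι → E →ₗ[ℚ] ℚ) (hd : Module.finrank ℚ E = k + 2) (hp : ∀ x, (∀ i, h i x = 0) → x = 0)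
    (h₀ : E →ₗ[ℚ] ℚ) {w : E} (hw : w ∈ KO h) (hw₀ : h₀ w = 0) (hne : h₀ ≠ 0) :
    Ball (k + 1) (KD h ∩ {x | h₀ x ≤ 0}) (KD h ∩ {x | h₀ x = 0}) := by
  have := side_ball h hd hp (-h₀) hw (by rw [LinearMap.neg_apply, hw₀, neg_zero])
    (neg_ne_zero.2 hne)
  have e1 : {x | 0 ≤ (-h₀) x} = {x | h₀ x ≤ 0} := by
    ext x; simp [LinearMap.neg_apply]
  have e2 : {x | (-h₀) x = 0} = {x | h₀ x = 0} := by
    ext x; simp [LinearMap.neg_apply]
  rwa [e1, e2] at this

end fam

section good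

variable {E : Type} [AddCommGroup E] [Module ℚ E] [FiniteDimensional ℚ E]

theorem sign_eq_of_face {B : Set (E →ₗ[ℚ] ℚ)} {x z : E} (hx : x ∈ face B z)
    (hr : ∀ b ∈ B, b x ≠ 0) : SameSign B x z := fun b hb => (hx b hb).resolve_left (hr b hb)

theorem ne_zero_of_sameSign {B : Set (E →ₗ[ℚ] ℚ)} {x z : E} (h : SameSign B x z)
    (hz : ∀ b ∈ B, b z ≠ 0) : ∀ b ∈ B, b x ≠ 0 := by
  intro b hb h0
  have := h b hb
  rw [h0, sign_zero, eq_comm, sign_eq_zero_iff] at this
  exact hz b hb this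

/-- Cutting a chamber by a family of graphs. -/
theorem good_graphs {k : ℕ} (hd : Module.finrank ℚ E = k + 2) {B H : Set (E →ₗ[ℚ] ℚ)}
    (hB : B.Finite) (hH : H.Finite) (hpt : ∀ x, (∀ b ∈ B, b x = 0) → x = 0)
    (hdif : ∀ h ∈ H, ∀ h' ∈ H, h ≠ h' → ∃ g ∈ B, ∃ c : ℚ, c ≠ 0 ∧ h - h' = c • g)
    (hne : ∀ h ∈ H, h ≠ 0) {z : E} (hz : ∀ b ∈ B, b z ≠ 0) {F G : Set E} (hF : Pol F) (hG : Pol G)
    (hMF : ∀ x ∈ face B z, (x ∈ F ↔ ∃ b ∈ B, b x = 0))
    (hMG : ∀ x ∈ face B z, (x ∈ G ↔ x = 0 ∨ ∃ h ∈ H, h x = 0)) :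
    Good (Ball (k + 1)) (face B z) F G := by
  classical
  have hMp : Pol (face B z) := pol_face hB z
  have hBne : B.Nonempty := by
    obtain ⟨b, hb, _⟩ := (hMF 0 (zero_mem_face B z)).1 hF.1
    exact ⟨b, hb⟩
  -- regular points
  have hreg : ∀ x ∈ face B z, x ∉ F → ∀ b ∈ B, b x ≠ 0 := fun x hx hxF b hb h0 =>
    hxF ((hMF x hx).2 ⟨b, hb, h0⟩)
  have hregK : ∀ x ∈ face B z, x ∉ F → SameSign B x z := fun x hx hxF =>
    sign_eq_of_face hx (hreg x hx hxF)
  have hregF : ∀ x, SameSign B x z → x ∉ F := fun x hx hxF => by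
    obtain ⟨b, hb, h0⟩ := (hMF x hx.mem_face).1 hxF
    exact ne_zero_of_sameSign hx hz b hb h0
  -- differences
  have hdne : ∀ h ∈ H, ∀ h' ∈ H, h ≠ h' → ∀ x, SameSign B x z → h x ≠ h' x := by
    intro h hh h' hh' hn x hx h0
    obtain ⟨g, hg, c, hc, hgc⟩ := hdif h hh h' hh' hn
    have h1 : (h - h') x = c * g x := by rw [hgc]; rfl
    rw [LinearMap.sub_apply, h0, sub_self] at h1
    exact ne_zero_of_sameSign hx hz g hg ((mul_eq_zero.1 h1.symm).resolve_left hc)
  -- sign of `h' x` at a point of `h = 0`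
  have hds : ∀ h ∈ H, ∀ h' ∈ H, h ≠ h' → ∀ x ∈ face B z, ∀ y, SameSign B y z → h x = 0 →
      h' x = 0 ∨ SignType.sign (h' x) = SignType.sign (h' y - h y) := by
    intro h hh h' hh' hn x hx y hy h0
    obtain ⟨g, hg, c, hc, hgc⟩ := hdif h' hh' h hh hn.symm
    have h1 : ∀ u, h' u - h u = c * g u := fun u => by
      have : (h' - h) u = c * g u := by rw [hgc]; rfl
      rwa [LinearMap.sub_apply] at this
    have h2 := h1 x
    rw [h0, sub_zero] at h2
    rw [h1 y, h2]
    rcases hx g hg with h3 | h3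
    · left; rw [h3, mul_zero]
    · right; rw [sign_mul, sign_mul, h3, hy g hg]
  have hdz : ∀ h ∈ H, ∀ h' ∈ H, h ≠ h' → ∀ x ∈ face B z, h x = 0 → h' x = 0 →
      ∃ b ∈ B, b x = 0 := by
    intro h hh h' hh' hn x hx h0 h0'
    obtain ⟨g, hg, c, hc, hgc⟩ := hdif h' hh' h hh hn.symm
    have h1 : (h' - h) x = c * g x := by rw [hgc]; rfl
    rw [LinearMap.sub_apply, h0, h0', sub_self] at h1
    exact ⟨g, hg, (mul_eq_zero.1 h1.symm).resolve_left hc⟩
  -- the walls
  have hwall : ∀ w, Comp w (G ∩ face B z) F ↔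
      ∃ h ∈ H, ∃ z', SameSign B z' z ∧ h z' = 0 ∧ w = face B z ∩ {x | h x = 0} := by
    intro w
    have hclK : ∀ h ∈ H, ∀ z', SameSign B z' z → h z' = 0 →
        cl {x | SameSign B x z ∧ h x = 0} = face B z ∩ {x | h x = 0} := by
      intro h hh z' hz' hz0
      apply subset_antisymm
      · exact (hMp.inter (pol_hyperplane h)).cl_subset (fun x hx => ⟨hx.1.mem_face, hx.2⟩)
      · rintro x ⟨hx, hx0⟩
        right
        refine ⟨z', ⟨hz', hz0⟩, fun t h0 h1 => ⟨?_, ?_⟩⟩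
        · exact (sameSign_segment (face_trans hx hz'.symm.mem_face) h0 h1).trans hz'
        · have hx0 : h x = 0 := hx0
          rw [map_add, map_smul, map_sub, hx0, hz0, sub_zero, smul_zero, add_zero]
    rw [comp_iff_of_partition (hG.inter hMp) hF
      (𝓞 := (fun h : E →ₗ[ℚ] ℚ => {x | SameSign B x z ∧ h x = 0}) ''
        {h ∈ H | ∃ z', SameSign B z' z ∧ h z' = 0})
      ((hH.subset (fun h hh => hh.1)).image _)
      (by
        rintro _ ⟨h, ⟨hh, z', hz', hz0⟩, rfl⟩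
        exact (con_cell hB z).inter (pol_hyperplane h).con)
      (by
        rintro _ ⟨h, ⟨hh, z', hz', hz0⟩, rfl⟩
        refine conn_of_convex ⟨z', hz', hz0⟩ ?_
        rintro x ⟨hx, hx0⟩ y ⟨hy, hy0⟩ t h0 h1
        exact ⟨sameSign_convex hx hy h0 h1, by
          rw [map_add, map_smul, map_sub, hx0, hy0, sub_zero, smul_zero, add_zero]⟩)
      (by
        rintro x ⟨hxG, hxM⟩ hxF
        rcases (hMG x hxM).1 hxG with h0 | ⟨h, hh, h0⟩
        · exact absurd (h0 ▸ hF.1) hxF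
        · exact ⟨_, ⟨h, ⟨hh, x, hregK x hxM hxF, h0⟩, rfl⟩, hregK x hxM hxF, h0⟩)
      (by
        rintro _ ⟨h, ⟨hh, z', hz', hz0⟩, rfl⟩ x ⟨hx, hx0⟩
        exact ⟨⟨(hMG x hx.mem_face).2 (Or.inr ⟨h, hh, hx0⟩), hx.mem_face⟩, hregF x hx⟩)
      (by
        rintro _ ⟨h, ⟨hh, z', hz', hz0⟩, rfl⟩ x ⟨hx, hxF⟩
        have hx' : x ∈ cl {x | SameSign B x z ∧ h x = 0} := hx
        rw [hclK h hh z' hz' hz0] at hx'
        exact ⟨hregK x hx'.1 hxF, hx'.2⟩)
      (by
        rintro _ ⟨h, ⟨hh, z', hz', hz0⟩, rfl⟩ _ ⟨h', ⟨hh', z'', hz'', hz0'⟩, rfl⟩ ⟨x, hx, hx'⟩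
        by_cases hn : h = h'
        · rw [hn]
        · exact absurd (hx.2.trans hx'.2.symm) (hdne h hh h' hh' hn x hx.1)) w]
    constructor
    · rintro ⟨_, ⟨h, ⟨hh, z', hz', hz0⟩, rfl⟩, rfl⟩
      exact ⟨h, hh, z', hz', hz0, hclK h hh z' hz' hz0⟩
    · rintro ⟨h, hh, z', hz', hz0, rfl⟩
      exact ⟨_, ⟨h, ⟨hh, z', hz', hz0⟩, rfl⟩, (hclK h hh z' hz' hz0).symm⟩
  -- the cells of the next level
  have hBH : (B ∪ H).Finite := hB.union hH
  have hcellFG : ∀ x ∈ face B z, (x ∈ F ∪ G ↔ ∃ b ∈ B ∪ H, b x = 0) := by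
    intro x hx
    constructor
    · rintro (h1 | h1)
      · obtain ⟨b, hb, h2⟩ := (hMF x hx).1 h1
        exact ⟨b, Or.inl hb, h2⟩
      · rcases (hMG x hx).1 h1 with h2 | ⟨h, hh, h2⟩
        · obtain ⟨b, hb⟩ := hBne
          exact ⟨b, Or.inl hb, by rw [h2, map_zero]⟩
        · exact ⟨h, Or.inr hh, h2⟩
    · rintro ⟨b, hb | hb, h2⟩
      · exact Or.inl ((hMF x hx).2 ⟨b, hb, h2⟩)
      · exact Or.inr ((hMG x hx).2 (Or.inr ⟨b, hb, h2⟩))
  have hcell : ∀ m, Comp m (face B z) (F ∪ G) ↔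
      ∃ y, y ∈ face B z ∧ y ∉ F ∪ G ∧ m = face (B ∪ H) y := by
    intro m
    exact arr_comp hBH hMp (hF.union hG) hcellFG
      (fun x hx _ y hy => face_trans (face_anti Set.subset_union_left x hy) hx) m
  haveI : Finite B := hB
  haveI : Fintype B := Fintype.ofFinite B
  haveI : Nonempty B := hBne.to_subtype
  constructor
  · intro w hw
    obtain ⟨h, hh, z', hz', hz0, rfl⟩ := (hwall w).1 hw
    have hzr' : ∀ b ∈ B, b z' ≠ 0 := ne_zero_of_sameSign hz' hz
    have hface : face B z' = face B z :=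
      subset_antisymm (fun x hx => face_trans hx hz'.mem_face)
        (fun x hx => face_trans hx hz'.symm.mem_face)
    have hKC : KC (fam B z') = face B z := by rw [KC_fam hzr', hface]
    have hKO : z' ∈ KO (fam B z') := (KO_fam hzr').2 (fun _ _ => rfl)
    have hKD : ∀ x, x ∈ KD (fam B z') ↔ x ∈ face B z ∩ F := by
      intro x
      rw [KD_fam hzr', hface]
      constructor
      · rintro ⟨h1, h2⟩; exact ⟨h1, (hMF x h1).2 h2⟩
      · rintro ⟨h1, h2⟩; exact ⟨h1, (hMF x h1).1 h2⟩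
    have hpt' : ∀ x, (∀ i, fam B z' i x = 0) → x = 0 := by
      intro x hx
      apply hpt
      intro b hb
      have := hx ⟨b, hb⟩
      rw [fam_apply] at this
      exact (mul_eq_zero.1 this).resolve_left (hzr' b hb)
    have hh0 := hne h hh
    -- points on the two sides
    obtain ⟨u, hu⟩ := exists_neg_pt hh0
    obtain ⟨zm, hzm, hzm0⟩ := exists_KO_neg (fam B z') h hKO hz0 hu
    obtain ⟨zp, hzp, hzp0⟩ := exists_KO_neg (fam B z') (-h) hKO
      (by rw [LinearMap.neg_apply, hz0, neg_zero]) (u := -u) (by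
        rw [LinearMap.neg_apply, map_neg, neg_neg]; exact hu)
    rw [LinearMap.neg_apply, neg_neg_iff_pos] at hzp0
    have hzm1 : SameSign B zm z := ((KO_fam hzr').1 hzm).trans hz'
    have hzp1 : SameSign B zp z := ((KO_fam hzr').1 hzp).trans hz'
    -- description of the components of the complement of the wall
    have hcomp : ∀ m, Comp m (face B z) (F ∪ (face B z ∩ {x | h x = 0})) ↔
        ∃ y, y ∈ face B z ∧ y ∉ F ∪ (face B z ∩ {x | h x = 0}) ∧ m = face (B ∪ {h}) y := by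
      intro m
      refine arr_comp (hB.union (Set.finite_singleton h)) hMp
        (hF.union (hMp.inter (pol_hyperplane h))) ?_
        (fun x hx _ y hy => face_trans (face_anti Set.subset_union_left x hy) hx) m
      intro x hx
      constructor
      · rintro (h1 | h1)
        · obtain ⟨b, hb, h2⟩ := (hMF x hx).1 h1
          exact ⟨b, Or.inl hb, h2⟩
        · exact ⟨h, Or.inr rfl, h1.2⟩
      · rintro ⟨b, hb | hb, h2⟩
        · exact Or.inl ((hMF x hx).2 ⟨b, hb, h2⟩)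
        · exact Or.inr ⟨hx, by rw [← Set.mem_singleton_iff.1 hb]; exact h2⟩
    have hfp : ∀ y, SameSign B y z → 0 < h y →
        face (B ∪ {h}) y = face B z ∩ {x | 0 ≤ h x} := by
      intro y hy h0
      ext x; constructor
      · intro hx
        refine ⟨face_trans (face_anti Set.subset_union_left y hx) hy.mem_face, ?_⟩
        rcases hx h (Or.inr rfl) with h1 | h1
        · exact h1.ge
        · rw [sign_pos h0, sign_eq_one_iff] at h1; exact h1.le
      · rintro ⟨hx, hx0⟩ b (hb | hb)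
        · rcases hx b hb with h1 | h1
          · exact Or.inl h1
          · exact Or.inr (h1.trans (hy b hb).symm)
        · rw [Set.mem_singleton_iff.1 hb]
          rcases (show 0 ≤ h x from hx0).eq_or_lt with h1 | h1
          · exact Or.inl h1.symm
          · right; rw [sign_pos h0, sign_pos h1]
    have hfm : ∀ y, SameSign B y z → h y < 0 →
        face (B ∪ {h}) y = face B z ∩ {x | h x ≤ 0} := by
      intro y hy h0
      ext x; constructor
      · intro hx
        refine ⟨face_trans (face_anti Set.subset_union_left y hx) hy.mem_face, ?_⟩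
        rcases hx h (Or.inr rfl) with h1 | h1
        · exact h1.le
        · rw [sign_neg h0, sign_eq_neg_one_iff] at h1; exact h1.le
      · rintro ⟨hx, hx0⟩ b (hb | hb)
        · rcases hx b hb with h1 | h1
          · exact Or.inl h1
          · exact Or.inr (h1.trans (hy b hb).symm)
        · rw [Set.mem_singleton_iff.1 hb]
          rcases (show h x ≤ 0 from hx0).eq_or_lt with h1 | h1
          · exact Or.inl h1
          · right; rw [sign_neg h0, sign_neg h1]
    have hzpn : zp ∉ F ∪ (face B z ∩ {x | h x = 0}) := by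
      rintro (h1 | h1)
      · exact hregF zp hzp1 h1
      · exact hzp0.ne' h1.2
    have hzmn : zm ∉ F ∪ (face B z ∩ {x | h x = 0}) := by
      rintro (h1 | h1)
      · exact hregF zm hzm1 h1
      · exact hzm0.ne h1.2
    have hwF : (face B z ∩ {x | h x = 0}) ∩ F = KD (fam B z') ∩ {x | h x = 0} := by
      ext x
      constructor
      · rintro ⟨⟨h1, h2⟩, h3⟩; exact ⟨(hKD x).2 ⟨h1, h3⟩, h2⟩
      · rintro ⟨h1, h2⟩
        have := (hKD x).1 h1
        exact ⟨⟨this.1, h2⟩, this.2⟩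
    -- the one-sided statement, for both signs at once
    have hside : ∀ (h₁ : E →ₗ[ℚ] ℚ), (h₁ = h ∨ h₁ = -h) →
        Side (Ball (k + 1)) (face B z) F G (face B z ∩ {x | h x = 0})
          (face B z ∩ {x | 0 ≤ h₁ x}) := by
      intro h₁ hh₁
      have hz1 : ∀ x, h₁ x = 0 ↔ h x = 0 := by
        intro x
        rcases hh₁ with rfl | rfl
        · rfl
        · rw [LinearMap.neg_apply, neg_eq_zero]
      have hh₁0 : h₁ ≠ 0 := by
        rcases hh₁ with rfl | rfl
        · exact hh0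
        · exact neg_ne_zero.2 hh0
      set B' : Set (E →ₗ[ℚ] ℚ) := B ∪ (H \ {h}) with hB'
      have hB'f : B'.Finite := hB.union (hH.subset Set.sdiff_subset)
      have hz'r : ∀ b ∈ B', b z' ≠ 0 := by
        rintro b (hb | ⟨hb, hbh⟩)
        · exact hzr' b hb
        · intro h0
          exact hdne h hh b hb (fun e => hbh e.symm) z' hz' (hz0.trans h0.symm)
      haveI : Finite B' := hB'f
      haveI : Fintype B' := Fintype.ofFinite B'
      haveI : Nonempty B' := ⟨⟨hBne.some, Or.inl hBne.some_mem⟩⟩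
      have hKO' : z' ∈ KO (fam B' z') := (KO_fam hz'r).2 (fun _ _ => rfl)
      have hpt'' : ∀ x, (∀ i, fam B' z' i x = 0) → x = 0 := by
        intro x hx
        apply hpt
        intro b hb
        have := hx ⟨b, Or.inl hb⟩
        rw [fam_apply] at this
        exact (mul_eq_zero.1 this).resolve_left (hz'r b (Or.inl hb))
      have hfaceB' : ∀ x, x ∈ face B' z' → x ∈ face B z := fun x hx =>
        face_trans (face_anti Set.subset_union_left z' hx) hz'.mem_face
      -- a point of the cell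
      obtain ⟨u₁, hu₁⟩ := exists_neg_pt (neg_ne_zero.2 hh₁0)
      obtain ⟨z₁, hz₁, hz₁0⟩ := exists_KO_neg (fam B' z') (-h₁) hKO'
        (by rw [LinearMap.neg_apply, (hz1 z').2 hz0, neg_zero]) hu₁
      rw [LinearMap.neg_apply, neg_neg_iff_pos] at hz₁0
      have hz₁s : SameSign B' z₁ z' := (KO_fam hz'r).1 hz₁
      have hz₁B : SameSign B z₁ z := SameSign.trans (fun b hb => hz₁s b (Or.inl hb)) hz'
      have hz₁r : ∀ b ∈ B ∪ H, b z₁ ≠ 0 := by
        rintro b (hb | hb)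
        · exact ne_zero_of_sameSign hz₁B hz b hb
        · by_cases hbh : b = h
          · rw [hbh]; intro h0; exact hz₁0.ne' ((hz1 z₁).2 h0)
          · exact ne_zero_of_sameSign hz₁s hz'r b (Or.inr ⟨hb, hbh⟩)
      have hz₁FG : z₁ ∉ F ∪ G := by
        intro h1
        obtain ⟨b, hb, h2⟩ := (hcellFG z₁ hz₁B.mem_face).1 h1
        exact hz₁r b hb h2
      -- description of the cell
      have hm : face (B ∪ H) z₁ = face B' z' ∩ {x | 0 ≤ h₁ x} := by
        have hs1 : SignType.sign (h₁ z₁) = 1 := sign_pos hz₁0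
        ext x; constructor
        · intro hx
          refine ⟨?_, ?_⟩
          · rintro b (hb | ⟨hb, hbh⟩)
            · rcases hx b (Or.inl hb) with h1 | h1
              · exact Or.inl h1
              · exact Or.inr (h1.trans (hz₁s b (Or.inl hb)))
            · rcases hx b (Or.inr hb) with h1 | h1
              · exact Or.inl h1
              · exact Or.inr (h1.trans (hz₁s b (Or.inr ⟨hb, hbh⟩)))
          · show 0 ≤ h₁ x
            rcases hx h (Or.inr hh) with h1 | h1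
            · exact ((hz1 x).2 h1).ge
            · rcases hh₁ with rfl | rfl
              · rw [hs1, sign_eq_one_iff] at h1; exact h1.le
              · rw [LinearMap.neg_apply, neg_pos] at hz₁0
                rw [sign_neg hz₁0, sign_eq_neg_one_iff] at h1
                rw [LinearMap.neg_apply]; linarith
        · rintro ⟨hx, hx0⟩ b (hb | hb)
          · rcases hx b (Or.inl hb) with h1 | h1
            · exact Or.inl h1
            · exact Or.inr (h1.trans (hz₁s b (Or.inl hb)).symm)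
          · by_cases hbh : b = h
            · rw [hbh]
              have hx0 : 0 ≤ h₁ x := hx0
              rcases hx0.eq_or_lt with h1 | h1
              · exact Or.inl ((hz1 x).1 h1.symm)
              · right
                rcases hh₁ with rfl | rfl
                · rw [hs1, sign_pos h1]
                · rw [LinearMap.neg_apply, neg_pos] at hz₁0 h1
                  rw [sign_neg hz₁0, sign_neg h1]
            · rcases hx b (Or.inr ⟨hb, hbh⟩) with h1 | h1
              · exact Or.inl h1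
              · exact Or.inr (h1.trans (hz₁s b (Or.inr ⟨hb, hbh⟩)).symm)
      -- the wall lies in the cell
      have hwm : ∀ x, x ∈ face B z → h x = 0 → x ∈ face B' z' := by
        rintro x hx h0 b (hb | ⟨hb, hbh⟩)
        · rcases hx b hb with h1 | h1
          · exact Or.inl h1
          · exact Or.inr (h1.trans (hz' b hb).symm)
        · have := hds h hh b hb (fun e => hbh e.symm) x hx z' hz' h0
          rwa [hz0, sub_zero] at this
      have hVF : ∀ x, x ∈ face B z → h x = 0 → ((∃ b ∈ B', b x = 0) ↔ x ∈ F) := by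
        intro x hx h0
        constructor
        · rintro ⟨b, hb | ⟨hb, hbh⟩, h1⟩
          · exact (hMF x hx).2 ⟨b, hb, h1⟩
          · exact (hMF x hx).2 (hdz h hh b hb (fun e => hbh e.symm) x hx h0 h1)
        · intro h1
          obtain ⟨b, hb, h2⟩ := (hMF x hx).1 h1
          exact ⟨b, Or.inl hb, h2⟩
      refine ⟨face (B ∪ H) z₁, (hcell _).2 ⟨z₁, hz₁B.mem_face, hz₁FG, rfl⟩, ?_, ?_, ?_, ?_⟩
      · rw [hm]
        rintro x ⟨h1, h2⟩
        exact ⟨hfaceB' x h1, h2⟩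
      · intro h1
        apply hregF z' hz'
        apply h1
        refine ⟨⟨hz'.mem_face, hz0⟩, ?_⟩
        rw [hm]
        exact ⟨mem_face_self _ _, ((hz1 z').2 hz0).ge⟩
      · refine ⟨KD (fam B' z') ∩ {x | 0 ≤ h₁ x}, (pol_KD _).inter (pol_halfspace _), ?_, ?_, ?_⟩
        · rw [hm]
          ext x; constructor
          · rintro ⟨⟨h1, h2⟩, h3⟩
            obtain ⟨b, hb, h4⟩ := (hcellFG x (hfaceB' x h1)).1 h3
            by_cases hbh : b = h
            · left; rw [hbh] at h4; exact ⟨hfaceB' x h1, h4⟩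
            · right
              refine ⟨(KD_fam hz'r).2 ⟨h1, b, ?_, h4⟩, h2⟩
              rcases hb with hb | hb
              · exact Or.inl hb
              · exact Or.inr ⟨hb, hbh⟩
          · rintro (⟨h1, h2⟩ | ⟨h1, h2⟩)
            · have h2 : h x = 0 := h2
              exact ⟨⟨hwm x h1 h2, ((hz1 x).2 h2).ge⟩,
                Or.inr ((hMG x h1).2 (Or.inr ⟨h, hh, h2⟩))⟩
            · obtain ⟨h3, b, hb, h4⟩ := (KD_fam hz'r).1 h1
              refine ⟨⟨h3, h2⟩, (hcellFG x (hfaceB' x h3)).2 ⟨b, ?_, h4⟩⟩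
              rcases hb with hb | hb
              · exact Or.inl hb
              · exact Or.inr hb.1
        · ext x; constructor
          · rintro ⟨⟨h1, h2⟩, h3, _⟩
            exact ⟨⟨h1, h2⟩, (hVF x h1 h2).1 ((KD_fam hz'r).1 h3).2⟩
          · rintro ⟨⟨h1, h2⟩, h3⟩
            have h2 : h x = 0 := h2
            exact ⟨⟨h1, h2⟩, (KD_fam hz'r).2 ⟨hwm x h1 h2, (hVF x h1 h2).2 h3⟩,
              ((hz1 x).2 h2).ge⟩
        · have hb := side_ball (fam B' z') hd hpt'' h₁ hKO' ((hz1 z').2 hz0) hh₁0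
          have e1 : KD (fam B' z') ∩ {x | h₁ x = 0} = (face B z ∩ {x | h x = 0}) ∩ F := by
            ext x; constructor
            · rintro ⟨h1, h2⟩
              have h2 : h x = 0 := (hz1 x).1 h2
              obtain ⟨h3, h4⟩ := (KD_fam hz'r).1 h1
              exact ⟨⟨hfaceB' x h3, h2⟩, (hVF x (hfaceB' x h3) h2).1 h4⟩
            · rintro ⟨⟨h1, h2⟩, h3⟩
              have h2 : h x = 0 := h2
              exact ⟨(KD_fam hz'r).2 ⟨hwm x h1 h2, (hVF x h1 h2).2 h3⟩, (hz1 x).2 h2⟩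
          rwa [e1] at hb
      · intro m' hm' hm'x hm'w
        obtain ⟨z₂, hz₂, hz₂n, rfl⟩ := (hcell m').1 hm'
        rw [Set.not_subset] at hm'w
        obtain ⟨y, ⟨⟨hyM, hy0⟩, hym⟩, hyF⟩ := hm'w
        have hy0 : h y = 0 := hy0
        have hyB : SameSign B y z := hregK y hyM hyF
        have hz₂r : ∀ b ∈ B ∪ H, b z₂ ≠ 0 := fun b hb h0 =>
          hz₂n ((hcellFG z₂ hz₂).2 ⟨b, hb, h0⟩)
        have hz₂B : SameSign B z₂ z := sign_eq_of_face hz₂ (fun b hb => hz₂r b (Or.inl hb))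
        have hss : SameSign (B ∪ H) z₂ z₁ := by
          rintro b (hb | hb)
          · exact (hz₂B b hb).trans (hz₁B b hb).symm
          · by_cases hbh : b = h
            · have h5 : 0 ≤ h₁ z₂ := (hm'x (mem_face_self _ _)).2
              have h6 : 0 < h₁ z₂ := lt_of_le_of_ne h5 (fun e =>
                hz₂r h (Or.inr hh) ((hz1 z₂).1 e.symm))
              rw [hbh]
              rcases hh₁ with rfl | rfl
              · rw [sign_pos h6, sign_pos hz₁0]
              · rw [LinearMap.neg_apply, neg_pos] at h6 hz₁0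
                rw [sign_neg h6, sign_neg hz₁0]
            · have h5 : b y ≠ 0 := by
                intro h6
                exact hdne h hh b hb (fun e => hbh e.symm) y hyB (hy0.trans h6.symm)
              have h6 := (hym b (Or.inr hb)).resolve_left h5
              have h7 := (hds h hh b hb (fun e => hbh e.symm) y hyM z' hz' hy0).resolve_left h5
              rw [hz0, sub_zero] at h7
              rw [← h6, h7]
              exact (hz₁s b (Or.inr ⟨hb, hbh⟩)).symm
        exact subset_antisymm (fun x hx => face_trans hx hss.mem_face)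
          (fun x hx => face_trans hx hss.symm.mem_face)
    refine ⟨face B z ∩ {x | 0 ≤ h x}, face B z ∩ {x | h x ≤ 0}, ?_, ?_, ?_, ?_, ?_, ?_, ?_, ?_,
      ?_, ?_⟩
    · rw [hcomp]; exact ⟨zp, hzp1.mem_face, hzpn, (hfp zp hzp1 hzp0).symm⟩
    · rw [hcomp]; exact ⟨zm, hzm1.mem_face, hzmn, (hfm zm hzm1 hzm0).symm⟩
    · intro h1
      have h2 : zp ∈ face B z ∩ {x | h x ≤ 0} := by
        rw [← h1]; exact ⟨hzp1.mem_face, hzp0.le⟩
      exact absurd h2.2 (not_le.2 hzp0)
    · intro m hm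
      obtain ⟨y, hy, hyn, rfl⟩ := (hcomp m).1 hm
      have hyF : y ∉ F := fun h1 => hyn (Or.inl h1)
      have hy0 : h y ≠ 0 := fun h1 => hyn (Or.inr ⟨hy, h1⟩)
      rcases lt_or_gt_of_ne hy0 with h1 | h1
      · exact Or.inr (hfm y (hregK y hy hyF) h1)
      · exact Or.inl (hfp y (hregK y hy hyF) h1)
    · ext x; constructor
      · rintro ⟨⟨h1, h2⟩, _, h3⟩
        exact ⟨h1, le_antisymm h3 h2⟩
      · rintro ⟨h1, h2⟩
        have h2 : h x = 0 := h2
        exact ⟨⟨h1, h2.ge⟩, h1, h2.le⟩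
    · have := section_ball (coneBall k) (fam B z') hd hpt' h hKO hz0 hh0
      rwa [hKC, ← hwF] at this
    · have := side_ball (fam B z') hd hpt' h hKO hz0 hh0
      rw [← hwF] at this
      convert this using 1
      ext x; constructor
      · rintro ⟨⟨h1, h2⟩, h3⟩; exact ⟨(hKD x).2 ⟨h1, h3⟩, h2⟩
      · rintro ⟨h1, h2⟩; exact ⟨⟨((hKD x).1 h1).1, h2⟩, ((hKD x).1 h1).2⟩
    · have := side_ball' (fam B z') hd hpt' h hKO hz0 hh0
      rw [← hwF] at this
      convert this using 1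
      ext x; constructor
      · rintro ⟨⟨h1, h2⟩, h3⟩; exact ⟨(hKD x).2 ⟨h1, h3⟩, h2⟩
      · rintro ⟨h1, h2⟩; exact ⟨⟨((hKD x).1 h1).1, h2⟩, ((hKD x).1 h1).2⟩
    · exact hside h (Or.inl rfl)
    · have := hside (-h) (Or.inr rfl)
      have e1 : {x | 0 ≤ (-h) x} = {x | h x ≤ 0} := by
        ext x; simp [LinearMap.neg_apply]
      rwa [e1] at this
  · intro m w₁ w₂ w₃ hm hw₁ hw₂ hw₃ h1 h2 h3
    obtain ⟨z₂, hz₂, hz₂n, rfl⟩ := (hcell m).1 hm
    obtain ⟨a₁, ha₁, _, _, _, rfl⟩ := (hwall w₁).1 hw₁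
    obtain ⟨a₂, ha₂, _, _, _, rfl⟩ := (hwall w₂).1 hw₂
    obtain ⟨a₃, ha₃, _, _, _, rfl⟩ := (hwall w₃).1 hw₃
    have hz₂r : ∀ b ∈ B ∪ H, b z₂ ≠ 0 := fun b hb h0 =>
      hz₂n ((hcellFG z₂ hz₂).2 ⟨b, hb, h0⟩)
    have hz₂B : SameSign B z₂ z := sign_eq_of_face hz₂ (fun b hb => hz₂r b (Or.inl hb))
    have key : ∀ a ∈ H, ∀ b ∈ H, a ≠ b → ¬ ((face B z ∩ {x | a x = 0}) ∩ face (B ∪ H) z₂ ⊆ F) →
        SignType.sign (b z₂) = SignType.sign (b z₂ - a z₂) := by
      intro a ha b hb hab hn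
      rw [Set.not_subset] at hn
      obtain ⟨y, ⟨⟨hyM, hy0⟩, hym⟩, hyF⟩ := hn
      have hy0 : a y = 0 := hy0
      have hyB : SameSign B y z := hregK y hyM hyF
      have h5 : b y ≠ 0 := fun h6 => hdne a ha b hb hab y hyB (hy0.trans h6.symm)
      have h6 := (hym b (Or.inr hb)).resolve_left h5
      have h7 := (hds a ha b hb hab y hyM z₂ hz₂B hy0).resolve_left h5
      rw [← h6, h7]
    by_contra hcon
    push Not at hcon
    obtain ⟨n1, n2, n3⟩ := hcon
    have m1 : a₁ ≠ a₂ := fun e => n1 (by rw [e])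
    have m2 : a₂ ≠ a₃ := fun e => n2 (by rw [e])
    have m3 : a₁ ≠ a₃ := fun e => n3 (by rw [e])
    have p : ∀ a ∈ H, ∀ b ∈ H, a ≠ b → ¬ ((face B z ∩ {x | a x = 0}) ∩ face (B ∪ H) z₂ ⊆ F) →
        ¬ ((face B z ∩ {x | b x = 0}) ∩ face (B ∪ H) z₂ ⊆ F) →
        (0 < a z₂ ∧ b z₂ < 0) ∨ (a z₂ < 0 ∧ 0 < b z₂) := by
      intro a ha b hb hab hna hnb
      have q1 := key a ha b hb hab hna
      have q2 := key b hb a ha hab.symm hnb
      have r1 := hz₂r a (Or.inr ha)
      have r2 := hz₂r b (Or.inr hb)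
      rcases lt_or_gt_of_ne r1 with s1 | s1
      · rcases lt_or_gt_of_ne r2 with s2 | s2
        · rw [sign_neg s2, eq_comm, sign_eq_neg_one_iff] at q1
          rw [sign_neg s1, eq_comm, sign_eq_neg_one_iff] at q2
          linarith
        · exact Or.inr ⟨s1, s2⟩
      · rcases lt_or_gt_of_ne r2 with s2 | s2
        · exact Or.inl ⟨s1, s2⟩
        · rw [sign_pos s2, eq_comm, sign_eq_one_iff] at q1
          rw [sign_pos s1, eq_comm, sign_eq_one_iff] at q2
          linarith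
    have p12 := p a₁ ha₁ a₂ ha₂ m1 h1 h2
    have p23 := p a₂ ha₂ a₃ ha₃ m2 h2 h3
    have p13 := p a₁ ha₁ a₃ ha₃ m3 h1 h3
    rcases p12 with ⟨s1, s2⟩ | ⟨s1, s2⟩ <;> rcases p23 with ⟨s3, s4⟩ | ⟨s3, s4⟩ <;>
      rcases p13 with ⟨s5, s6⟩ | ⟨s5, s6⟩ <;> linarith

end good

end Pool.Agent.Work.MP_552024_lc.PLS
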