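import Pool.Agent.Work.MP_552024_lc.PLS.S4
import Pool.Agent.Work.MP_552024_lc.PLS.Fam

set_option autoImplicit false

/-! Item SlabB: the slab lemma for a single chamber. -/

namespace Pool.Agent.Work.MP_552024_lc.PLS

namespace ASlabB

variable {E : Type} [AddCommGroup E] [Module ℚ E]

theorem sameSign_of_face {A : Set (E →ₗ[ℚ] ℚ)} {x y : E} (hx : Chm A x) (h : x ∈ face A y) :
    SameSign A x y := fun a ha => (h a ha).resolve_left (hx a ha)

theorem single {A : Set (E →ₗ[ℚ] ℚ)} [FiniteDimensional ℚ E] (hA : A.Finite) (hne : A.Nonempty)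
    {K : Set E} (hinv : InvA A K) (hK : Conn K) (hch : ∀ x ∈ K, Chm A x) {x0 : E} (hx0 : x0 ∈ K)
    {x : E} : x ∈ K ↔ SameSign A x x0 := by
  have hzero : (0 : E) ∉ K := by
    intro h
    obtain ⟨a, ha⟩ := hne
    exact hch 0 h a ha (map_zero a)
  have hsub : InvA A (K \ {x | SameSign A x x0}) := by
    intro y z hyz hy
    exact ⟨hinv y z hyz hy.1, fun h => hy.2 (hyz.trans h)⟩
  have hcl : ∀ y ∈ K, y ∈ cl (K \ {x | SameSign A x x0}) → ¬ SameSign A y x0 := by
    intro y hy hyc hs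
    rcases (mem_cl_iff hA hsub y).1 hyc with h | ⟨z, hz, hyz⟩
    · exact hzero (h ▸ hy)
    · exact hz.2 ((sameSign_of_face (hch y hy) hyz).symm.trans hs)
  constructor
  · intro hx
    have h1 : K ⊆ face A x0 ∪ cl (K \ {x | SameSign A x x0}) := by
      intro y hy
      by_cases hs : SameSign A y x0
      · exact Or.inl hs.mem_face
      · exact Or.inr (subset_cl _ ⟨hy, hs⟩)
    have h2 : ∀ y ∈ K, y ∈ face A x0 → y ∉ cl (K \ {x | SameSign A x x0}) := fun y hy hy1 hy2 =>
      hcl y hy hy2 (sameSign_of_face (hch y hy) hy1)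
    rcases hK.2 _ _ (pol_face hA x0) ((hsub.con hA).pol_cl) h1 h2 with h | h
    · exact sameSign_of_face (hch x hx) (h hx)
    · exact absurd (fun a _ => rfl) (hcl x0 hx0 (h hx0))
  · intro h
    exact hinv x0 x h.symm hx0

end ASlabB

theorem I_SlabB (hCV : St_CV) : St_SlabB := by
  intro E _ _ _ A u v l c K hd hS hch
  obtain ⟨x0, hx0⟩ := hS.conn.1
  have hne : A.Nonempty := ⟨_, hS.low⟩
  have hz : ∀ b ∈ A, b x0 ≠ 0 := hch x0 hx0
  have hK : ∀ x, x ∈ K ↔ SameSign A x x0 := fun x =>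
    ASlabB.single hS.fin hne hS.inv hS.conn hch hx0
  have : Fintype A := hS.fin.fintype
  have : Nonempty A := hne.to_subtype
  have hcl : cl K = face A x0 := by
    ext x
    rw [mem_cl_iff hS.fin hS.inv]
    constructor
    · rintro (h | ⟨y, hy, hxy⟩)
      · rw [h]; exact zero_mem_face A x0
      · exact face_trans hxy ((hK y).1 hy).mem_face
    · intro h
      exact Or.inr ⟨x0, hx0, h⟩
  have hKD : cl K \ K = KD (fam A x0) := by
    ext x
    rw [KD_fam hz, hcl]
    constructor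
    · rintro ⟨h1, h2⟩
      refine ⟨h1, ?_⟩
      by_contra hc
      push Not at hc
      exact h2 ((hK x).2 (ASlabB.sameSign_of_face hc h1))
    · rintro ⟨h1, b, hb, h2⟩
      exact ⟨h1, fun h3 => hch x h3 b hb h2⟩
  rw [hKD]
  refine hCV 3 E A (fam A x0) hd ⟨x0, (KO_fam hz).2 (fun a _ => rfl)⟩ ?_
  intro x hx
  refine hS.spn x (fun a ha => ?_)
  have := hx ⟨a, ha⟩
  rw [fam_apply] at this
  exact (mul_eq_zero.1 this).resolve_left (hz a ha)

end Pool.Agent.Work.MP_552024_lc.PLS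

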