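import Pool.Agent.Work.MP_552024_lc.PLS.S4

set_option autoImplicit false

namespace Pool.Agent.Work.MP_552024_lc.PLS

theorem I_Slope (hRD : St_RD) : St_Slope := by
  classical
  intro E _ _ _ X a b hX ha hab
  obtain ⟨-, A0, hA0, hcl⟩ := hX
  obtain ⟨A1, hA1, hsp⟩ := exists_pointed E
  have hAf : (A0 ∪ A1).Finite := hA0.union hA1
  have hS : Spn (A0 ∪ A1) := fun x hx => hsp x fun c hc => hx c (Or.inr hc)
  obtain ⟨R, hR, -, hrep⟩ := exists_reps hAf (Set.univ : Set E)
  obtain ⟨M0, hM0⟩ := (hR.image (fun r => b r / a r)).bddAbove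
  have hM0' : ∀ r ∈ R, b r / a r ≤ M0 := fun r hr => hM0 ⟨r, hr, rfl⟩
  have hface : ∀ x ∈ X, face (A0 ∪ A1) x ⊆ X := fun x hx y hy =>
    hcl x hx fun c hc => hy c (Or.inl hc)
  have hray : ∀ r, Ray (A0 ∪ A1) r → r ∈ X → b r ≤ max M0 1 * a r := by
    intro r hr hrX
    rcases (ha r hrX).eq_or_lt with h0 | hpos
    · rw [← h0, mul_zero]
      exact hab r hrX h0.symm
    · obtain ⟨r', hr'R, hss⟩ := hrep r (Set.mem_univ r)
      obtain ⟨c, hc⟩ := hr.2 r' (by
        intro e he he0
        have := hss e he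
        rw [he0, sign_zero, sign_eq_zero_iff] at this
        exact this)
      have hcpos : 0 < c := by
        have hne : ∃ e ∈ A0 ∪ A1, e r ≠ 0 := by
          by_contra hcon
          push Not at hcon
          exact hr.1 (hS r hcon)
        obtain ⟨e, he, hne⟩ := hne
        have h1 := hss e he
        rw [hc, map_smul, smul_eq_mul] at h1
        rcases lt_or_gt_of_ne hne with hlt | hgt
        · rw [sign_neg hlt, sign_eq_neg_one_iff] at h1
          by_contra hcn
          push Not at hcn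
          exact absurd h1 (not_lt.2 (mul_nonneg_of_nonpos_of_nonpos hcn hlt.le))
        · rw [sign_pos hgt, sign_eq_one_iff] at h1
          by_contra hcn
          push Not at hcn
          exact absurd h1 (not_lt.2 (mul_nonpos_of_nonpos_of_nonneg hcn hgt.le))
      have h2 := hM0' r' hr'R
      rw [hc, map_smul, map_smul, smul_eq_mul, smul_eq_mul, mul_div_mul_left _ _ hcpos.ne',
        div_le_iff₀ hpos] at h2
      exact h2.trans (mul_le_mul_of_nonneg_right (le_max_left _ _) hpos.le)
  refine ⟨max M0 1, lt_of_lt_of_le one_pos (le_max_right _ _), fun x hx => ?_⟩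
  obtain ⟨s, c, hs, hxs⟩ := hRD E (A0 ∪ A1) hAf hS x
  rw [hxs, map_sum, map_sum, Finset.mul_sum]
  refine Finset.sum_le_sum fun r hr => ?_
  obtain ⟨h1, h2, h3⟩ := hs r hr
  have h4 := hray r h1 (hface x hx h2)
  rw [map_smul, map_smul, smul_eq_mul, smul_eq_mul]
  have h5 := mul_le_mul_of_nonneg_left h4 h3.le
  calc c r * b r ≤ c r * (max M0 1 * a r) := h5
    _ = max M0 1 * (c r * a r) := by ring

end Pool.Agent.Work.MP_552024_lc.PLS
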