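import Pool.Agent.Work.MP_552024_lc.PLS.S4

/-!
Item Sph1: spheres of dimension one are pairs of rays.
-/

set_option autoImplicit false

namespace Pool.Agent.Work.MP_552024_lc.PLS

namespace ASph1

variable {E : Type*} [AddCommGroup E] [Module ℚ E]

theorem zero_mem_ray (p : E) : (0 : E) ∈ ray p := ⟨0, le_rfl, by simp⟩

theorem self_mem_ray (p : E) : p ∈ ray p := ⟨1, zero_le_one, by simp⟩

/-- A ball of dimension one is a ray. -/
theorem ball_ray {D S : Set E} (h : Ball 1 D S) : ∃ p : E, p ≠ 0 ∧ D = ray p ∧ S = {0} := by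
  obtain ⟨_, hS, f, g, hfg, hb⟩ := h
  obtain ⟨A, _, Λ, _, hL⟩ := hfg.plf
  let e : Fin 1 → ℚ := fun _ => 1
  have he : e ∈ Orth 1 := fun _ => zero_le_one
  obtain ⟨L, _, hL2⟩ := hL e he
  have hx : ∀ x : Fin 1 → ℚ, x = x 0 • e := by
    intro x
    funext i
    have hi : i = 0 := Subsingleton.elim _ _
    subst hi
    simp [e]
  have hf : ∀ x ∈ Orth 1, f x = x 0 • L e := by
    intro x hx0
    have h1 : x ∈ face A e := by
      intro a _
      have h2 : a x = x 0 * a e := by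
        conv_lhs => rw [hx x]
        rw [map_smul, smul_eq_mul]
      rcases (hx0 0).lt_or_eq with h3 | h3
      · right
        rw [h2, sign_mul, sign_pos h3, one_mul]
      · left
        rw [h2, ← h3, zero_mul]
    rw [hL2 x hx0 h1]
    conv_lhs => rw [hx x]
    rw [map_smul]
  have h0 : (0 : Fin 1 → ℚ) ∈ Orth 1 := fun _ => le_rfl
  have hf0 : f 0 = 0 := by
    rw [hf 0 h0]; simp
  have hfe : f e = L e := by
    rw [hf e he]; simp [e]
  have hp : L e ≠ 0 := by
    intro h1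
    have h2 : e = 0 := by
      rw [← hfg.gf e he, hfe, h1, ← hf0, hfg.gf 0 h0]
    have h3 := congrFun h2 0
    simp [e] at h3
  refine ⟨L e, hp, ?_, ?_⟩
  · apply Set.Subset.antisymm
    · intro y hy
      refine ⟨g y 0, (hfg.mapsg y hy) 0, ?_⟩
      rw [← hf (g y) (hfg.mapsg y hy), hfg.fg y hy]
    · rintro y ⟨c, hc, rfl⟩
      have h1 : (fun _ => c : Fin 1 → ℚ) ∈ Orth 1 := fun _ => hc
      have h2 := hfg.mapsf _ h1
      rw [hf _ h1] at h2
      exact h2
  · apply Set.Subset.antisymm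
    · intro y hy
      have h1 := hfg.fg y (hS hy)
      have h2 := hfg.mapsg y (hS hy)
      have h3 : g y ∈ dOrth 1 := by
        rw [hb (g y) h2, h1]; exact hy
      obtain ⟨_, i, hi⟩ := h3
      have hi0 : i = 0 := Subsingleton.elim _ _
      rw [hi0] at hi
      have h4 : y = 0 := by
        rw [← h1, hf (g y) h2, hi, zero_smul]
      exact h4
    · intro y hy
      have h1 : y = 0 := hy
      rw [h1, ← hf0]
      exact (hb 0 h0).1 ⟨fun _ => le_rfl, 0, rfl⟩

theorem pol_ray [FiniteDimensional ℚ E] {p : E} (b : E →ₗ[ℚ] ℚ) (hb : b p = 1) : Pol (ray p) := by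
  refine ⟨zero_mem_ray p, ?_⟩
  let B := Module.finBasis ℚ E
  let pr : E →ₗ[ℚ] E := LinearMap.id - b.smulRight p
  have hpr : ∀ x, pr x = x - b x • p := fun x => by simp [pr]
  refine ⟨insert b (Set.range (fun i => (B.coord i).comp pr)), (Set.finite_range _).insert _, ?_⟩
  rintro y ⟨c, hc, rfl⟩ x hx
  have hy : pr (c • p) = 0 := by
    rw [hpr, map_smul, hb]; simp
  have hxp : pr x = 0 := by
    have h1 : ∀ i, B.coord i (pr x) = 0 := by
      intro i
      have h2 := hx ((B.coord i).comp pr) (Set.mem_insert_of_mem _ ⟨i, rfl⟩)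
      rcases h2 with h2 | h2
      · exact h2
      · rw [LinearMap.comp_apply, LinearMap.comp_apply, hy, map_zero, sign_zero] at h2
        exact sign_eq_zero_iff.1 h2
    exact B.forall_coord_eq_zero_iff.1 h1
  have hbx : 0 ≤ b x := by
    rcases hx b (Set.mem_insert _ _) with h2 | h2
    · rw [h2]
    · rw [map_smul, hb, smul_eq_mul, mul_one] at h2
      have h3 : 0 ≤ SignType.sign c := sign_nonneg_iff.2 hc
      rw [← h2] at h3
      exact sign_nonneg_iff.1 h3
  refine ⟨b x, hbx, ?_⟩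
  rw [hpr] at hxp
  exact sub_eq_zero.1 hxp

/-- A ray is a ball of dimension one. -/
theorem ray_ball [FiniteDimensional ℚ E] {p : E} (hp : p ≠ 0) : Ball 1 (ray p) {0} := by
  obtain ⟨b, hb⟩ : ∃ b : E →ₗ[ℚ] ℚ, b p = 1 := by
    have h1 : ¬ ∀ φ : Module.Dual ℚ E, φ p = 0 := by
      rw [Module.forall_dual_apply_eq_zero_iff]; exact hp
    rw [not_forall] at h1
    obtain ⟨φ, hφ⟩ := h1
    refine ⟨(φ p)⁻¹ • φ, ?_⟩
    rw [LinearMap.smul_apply, smul_eq_mul, inv_mul_cancel₀ hφ]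
  refine ⟨pol_ray b hb, ?_, (LinearMap.proj 0 : (Fin 1 → ℚ) →ₗ[ℚ] ℚ).smulRight p,
    LinearMap.pi (fun _ => b), ⟨plOn_linear _ _, plOn_linear _ _, ?_, ?_, ?_, ?_⟩, ?_⟩
  · intro x hx
    have h1 : x = 0 := hx
    rw [h1]; exact zero_mem_ray p
  · intro x hx
    exact ⟨x 0, hx 0, by simp⟩
  · rintro y ⟨c, hc, rfl⟩ i
    simp [hb, hc]
  · intro x _
    funext i
    have hi : i = 0 := Subsingleton.elim _ _
    subst hi
    simp [hb]
  · rintro y ⟨c, hc, rfl⟩
    simp [hb]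
  · intro x hx
    constructor
    · rintro ⟨_, i, hi⟩
      have hi0 : i = 0 := Subsingleton.elim _ _
      rw [hi0] at hi
      simp [hi]
    · intro h1
      have h2 : x 0 • p = 0 := by simpa using h1
      rcases smul_eq_zero.1 h2 with h3 | h3
      · exact ⟨hx, 0, h3⟩
      · exact absurd h3 hp

theorem ray_inter {p q : E} (hq : q ≠ 0) (h : q ∉ ray p) : ray p ∩ ray q = {0} := by
  apply Set.Subset.antisymm
  · rintro x ⟨⟨c, hc, hx⟩, ⟨d, hd, hx2⟩⟩
    rcases hd.lt_or_eq with h1 | h1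
    · exfalso
      apply h
      refine ⟨d⁻¹ * c, by positivity, ?_⟩
      rw [mul_smul, ← hx, hx2, smul_smul, inv_mul_cancel₀ h1.ne', one_smul]
    · rw [hx2, ← h1, zero_smul]; rfl
  · intro x hx
    have h1 : x = 0 := hx
    rw [h1]
    exact ⟨zero_mem_ray p, zero_mem_ray q⟩

end ASph1

open ASph1 in
theorem I_Sph1 : St_Sph1 := by
  intro E _ _ _ T
  constructor
  · rintro ⟨D₁, D₂, U, hT, hU, h1, h2⟩
    obtain ⟨p, hp, hD1, hU1⟩ := ball_ray h1
    obtain ⟨q, hq, hD2, _⟩ := ball_ray h2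
    refine ⟨p, q, hp, hq, ?_, ?_⟩
    · intro h3
      have h4 : q ∈ U := by
        rw [hU, hD1, hD2]; exact ⟨h3, self_mem_ray q⟩
      rw [hU1] at h4
      exact hq h4
    · rw [hT, hD1, hD2]
  · rintro ⟨p, q, hp, hq, hqp, hT⟩
    refine ⟨ray p, ray q, {0}, hT, (ray_inter hq hqp).symm, ray_ball hp, ray_ball hq⟩

end Pool.Agent.Work.MP_552024_lc.PLS
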