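import Pool.Agent.Work.MP_552024_lc.PLS.S4

/-!
MP_552024_lc, block S4, item SphIso: two spheres of the same dimension are piecewise linearly
isomorphic.
-/

set_option autoImplicit false

namespace Pool.Agent.Work.MP_552024_lc.PLS

theorem I_SphIso : St_SphIso := by
  intro k E E' _ _ _ _ _ _ T T' hT hT'
  obtain ⟨D₁, D₂, U, rfl, hU, hB1, hB2⟩ := hT
  obtain ⟨D₁', D₂', U', rfl, hU', hB1', hB2'⟩ := hT'
  have hB1c := hB1
  have hB1c' := hB1'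
  obtain ⟨hP, hs, f, g, hfg, hi⟩ := hB1c
  obtain ⟨hP', hs', f', g', hfg', hi'⟩ := hB1c'
  have hφ : PLInv (fun x => f' (g x)) (fun x => f (g' x)) D₁ D₁' := hfg.symm.trans hfg'
  have hiff : ∀ x ∈ D₁, (x ∈ U ↔ f' (g x) ∈ U') := by
    intro x hx
    rw [← hi' _ (hfg.mapsg x hx), hi _ (hfg.mapsg x hx), hfg.fg x hx]
  have hres := hφ.restrict hs hs' hiff
  obtain ⟨Φ, Ψ, hΦ, h1, h2, _⟩ := ball_ext hB2 hB2' hres
  obtain ⟨F, G, hFG, _⟩ := hφ.paste hΦ hP hB2.1 hP' hB2'.1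
    (fun x hx hx' => (h1 x (by rw [hU]; exact ⟨hx, hx'⟩)).symm)
    (fun y hy hy' => (h2 y (by rw [hU']; exact ⟨hy, hy'⟩)).symm)
  exact ⟨F, G, hFG⟩

end Pool.Agent.Work.MP_552024_lc.PLS
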