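import Pool.Agent.Work.MP_552024_lc.PLS.S4

set_option autoImplicit false

/-!
# MP_552024_lc, project S4: the whole space is a sphere
-/

namespace Pool.Agent.Work.MP_552024_lc.PLS

theorem I_SphQ (hHS : St_HS) : St_SphQ := by
  intro n E _ _ _ hfin
  have hnt : Nontrivial E := Module.nontrivial_of_finrank_pos (R := ℚ) (by omega)
  obtain ⟨x, hx⟩ := exists_ne (0 : E)
  obtain ⟨b, hb⟩ := Module.Projective.exists_dual_ne_zero ℚ hx
  have hb0 : b ≠ 0 := by
    rintro rfl
    exact hb rfl
  have h1 := hHS n E b hfin hb0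
  have h2 := hHS n E (-b) hfin (neg_ne_zero.2 hb0)
  refine ⟨{x : E | 0 ≤ b x}, {x : E | 0 ≤ (-b) x}, {x : E | b x = 0}, ?_, ?_, h1, ?_⟩
  · ext y
    simp only [Set.mem_univ, Set.mem_union, Set.mem_ofPred_eq, LinearMap.neg_apply, Left.nonneg_neg_iff,
      true_iff]
    exact le_total 0 (b y)
  · ext y
    simp only [Set.mem_inter_iff, Set.mem_ofPred_eq, LinearMap.neg_apply, Left.nonneg_neg_iff]
    constructor
    · intro h
      exact ⟨h.ge, h.le⟩
    · rintro ⟨h, h'⟩
      exact le_antisymm h' h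
  · have h3 : {x : E | (-b) x = 0} = {x : E | b x = 0} := by
      ext y
      simp [LinearMap.neg_apply]
    rw [← h3]
    exact h2

end Pool.Agent.Work.MP_552024_lc.PLS
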