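import Pool.Agent.Work.MP_552024_lc.PLS.S4

set_option autoImplicit false

/-! Item StdSides: the two balls of a standard sphere are its closed sides. -/

namespace Pool.Agent.Work.MP_552024_lc.PLS

namespace AStdSides

theorem comp {n : ℕ} (hConnB : St_ConnB) {E : Type} [AddCommGroup E] [Module ℚ E]
    [FiniteDimensional ℚ E] {T A A' : Set E} (h1 : A ∪ A' = Set.univ) (h2 : A ∩ A' = T)
    (hA : Ball (n + 1) A T) (hA' : Ball (n + 1) A' T) : Comp A Set.univ T := by
  obtain ⟨c1, c2, -⟩ := hConnB n E A T hA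
  refine ⟨hA.1, Set.subset_univ _, c2, c1, ?_⟩
  rintro x ⟨hx, hxA⟩
  have hsub : Set.univ \ (T ∪ A) ⊆ A' := by
    rintro y ⟨-, hy⟩
    have hy' : y ∈ A ∪ A' := by rw [h1]; trivial
    rcases hy' with hy' | hy'
    · exact absurd (Or.inr hy') hy
    · exact hy'
  have hx' : x ∈ A' := (hA'.1.cl_subset hsub) hx
  rw [← h2]
  exact ⟨hxA, hx'⟩

end AStdSides

theorem I_StdSides (hConnB : St_ConnB) : St_StdSides := by
  intro n E _ _ _ T A A' h1 h2 hA hA'
  refine ⟨AStdSides.comp hConnB h1 h2 hA hA', ?_, h1, h2⟩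
  exact AStdSides.comp hConnB (by rw [Set.union_comm]; exact h1) (by rw [Set.inter_comm]; exact h2)
    hA' hA

end Pool.Agent.Work.MP_552024_lc.PLS
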