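import Pool.Agent.Work.MP_552024_lc.PLS.S4

set_option autoImplicit false

/-! Item StdTr: standardness is invariant under piecewise linear homeomorphisms. -/

namespace Pool.Agent.Work.MP_552024_lc.PLS

namespace AStdTr

variable {E E' : Type} [AddCommGroup E] [Module ℚ E] [FiniteDimensional ℚ E]
  [AddCommGroup E'] [Module ℚ E'] [FiniteDimensional ℚ E']

theorem ball_pre {n : ℕ} {T : Set E} {T' : Set E'} {f : E → E'} {g : E' → E}
    (h : PLInv f g (Set.univ : Set E) (Set.univ : Set E')) (hT : ∀ x, x ∈ T ↔ f x ∈ T')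
    {B : Set E'} (hB : Ball n B T') : Ball n {x | f x ∈ B} T := by
  have h1 : Pol {x | f x ∈ B} := by
    have h2 := h.plf.pol_preimage pol_univ hB.1
    have h3 : {x | x ∈ (Set.univ : Set E) ∧ f x ∈ B} = {x | f x ∈ B} := by
      ext x
      exact ⟨fun hx => hx.2, fun hx => ⟨trivial, hx⟩⟩
    rwa [h3] at h2
  have hfg : ∀ y, f (g y) = y := fun y => h.fg y trivial
  refine hB.transport h1 (F := g) (G := f) (h.symm.restrict (Set.subset_univ _)
    (Set.subset_univ _) fun y _ => ?_) (fun x hx => hB.2.1 ((hT x).1 hx)) fun y _ => ?_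
  · change y ∈ B ↔ f (g y) ∈ B
    rw [hfg]
  · rw [hT (g y), hfg]

end AStdTr

theorem I_StdTr : St_StdTr := by
  intro n E E' _ _ _ _ _ _ T T' f g h hT hstd
  obtain ⟨A, A', hun, hin, hA, hA'⟩ := hstd
  refine ⟨{x | f x ∈ A}, {x | f x ∈ A'}, ?_, ?_, AStdTr.ball_pre h hT hA,
    AStdTr.ball_pre h hT hA'⟩
  · ext x
    have h1 : f x ∈ A ∪ A' := by
      rw [hun]
      trivial
    exact ⟨fun _ => trivial, fun _ => h1⟩
  · ext x
    rw [hT x, ← hin]
    exact Iff.rfl

end Pool.Agent.Work.MP_552024_lc.PLS
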