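import Pool.Agent.Work.MP_552024_lc.PLS.CompLem

set_option autoImplicit false

namespace Pool.Agent.Work.MP_552024_lc.PLS

/-- The statement of the union lemma for balls (proved elsewhere). -/
def UnionLemma (E : Type*) [AddCommGroup E] [Module ℚ E] (k : ℕ) : Prop :=
  ∀ B X W V V' T : Set E, Ball (k + 1) B (W ∪ V) → Ball (k + 1) X (W ∪ V') → Ball k W T →
    Ball k V T → Ball k V' T → W ∩ V = T → W ∩ V' = T → B ∩ X = W →
    Ball (k + 1) (B ∪ X) (V ∪ V')

variable {E : Type*} [AddCommGroup E] [Module ℚ E] [FiniteDimensional ℚ E]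

theorem pol_sUnion {S : Set (Set E)} (hS : S.Finite) (h : ∀ s ∈ S, Pol s) :
    Pol ({0} ∪ ⋃₀ S) := by
  induction S, hS using Set.Finite.induction_on with
  | empty => simpa using pol_zero
  | @insert a S _ _ ih =>
    have h1 := ih (fun s hs => h s (Set.mem_insert_of_mem _ hs))
    have h2 := (h a (Set.mem_insert _ _)).union h1
    have e : ({0} : Set E) ∪ ⋃₀ insert a S = a ∪ ({0} ∪ ⋃₀ S) := by
      rw [Set.sUnion_insert]
      ext x; simp only [Set.mem_union]; tauto
    rw [e]; exact h2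

/-- A component of `C \ F` contains each connected subset of `C \ F` that meets it. -/
theorem Comp.sub_of_conn {M C F s : Set E} (hC : Pol C) (hF : Pol F) (h : Comp M C F)
    (hs : Conn s) (hsC : s ⊆ C \ F) (hne : (s ∩ M).Nonempty) : s ⊆ M := by
  have hcon : Con (C \ (F ∪ M)) := hC.con.diff (hF.con.union h.pol.con)
  rcases hs.2 M (cl (C \ (F ∪ M))) h.pol hcon.pol_cl (by
      intro x hx
      by_cases hxM : x ∈ M
      · exact Or.inl hxM
      · exact Or.inr (subset_cl _ ⟨(hsC hx).1, fun hh => hh.elim (hsC hx).2 hxM⟩)) (by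
      intro x hx hxM hxc
      exact (hsC hx).2 (h.rest ⟨hxc, hxM⟩)) with h1 | h1
  · exact h1
  · obtain ⟨x, hx, hxM⟩ := hne
    exact absurd (h.rest ⟨h1 hx, hxM⟩) (hsC hx).2

omit [FiniteDimensional ℚ E] in
/-- Interior points are not in the closure of the rest. -/
theorem Comp.not_mem_cl {M C F : Set E} (h : Comp M C F) {x : E} (hx : x ∈ M) (hxF : x ∉ F) :
    x ∉ cl (C \ (F ∪ M)) := fun hc => hxF (h.rest ⟨hc, hx⟩)

/-- The gluing step. -/
theorem ball_of_good {k : ℕ} (hU : UnionLemma E k)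
    {M C F G : Set E} (hF : Pol F) (hG : Pol G) (hM : Comp M C F)
    (hgood : Good (Ball k) M F G)
    (hcell : ∀ m, Comp m M (F ∪ G) → Ball (k + 1) m (m ∩ (F ∪ G))) :
    Ball (k + 1) M (M ∩ F) := by
  obtain ⟨hw, htwo⟩ := hgood
  have hMp := hM.pol
  have hFG : Pol (F ∪ G) := hF.union hG
  have hGM : Pol (G ∩ M) := hG.inter hMp
  have h0F : (0 : E) ∈ F := hF.1
  obtain ⟨𝓒, h𝓒f, h𝓒, h𝓒cov⟩ := exists_components hMp hFG
  obtain ⟨𝓦, h𝓦f, h𝓦, h𝓦cov⟩ := exists_components hGM hF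
  -- basic facts about walls
  have hwF : ∀ w, Comp w (G ∩ M) F → Pol (F ∪ w) := fun w hw => hF.union hw.pol
  have hwG : ∀ w, Comp w (G ∩ M) F → w ⊆ F ∪ G := fun w hwc p hp => Or.inr (hwc.sub hp).1
  have hwall_disj : ∀ w w', Comp w (G ∩ M) F → Comp w' (G ∩ M) F → w ≠ w' →
      ∀ p, p ∈ w → p ∈ w' → p ∈ F := by
    intro w w' h h' hne p hp hp'
    by_contra hpF
    exact hne (h.eq_of_meet hGM hF h' ⟨p, ⟨hp, hpF⟩, hp', hpF⟩)
  have hwall_of : ∀ p ∈ M, p ∈ G → p ∉ F → ∃ w, Comp w (G ∩ M) F ∧ p ∈ w := by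
    intro p hpM hpG hpF
    obtain ⟨w, hw', hpw⟩ := h𝓦cov p ⟨⟨hpG, hpM⟩, hpF⟩
    exact ⟨w, (h𝓦 w).1 hw', hpw⟩
  have hcell_of : ∀ p ∈ M, p ∉ F ∪ G → ∃ m, Comp m M (F ∪ G) ∧ p ∈ m := by
    intro p hpM hp
    obtain ⟨m, hm, hpm⟩ := h𝓒cov p ⟨hpM, hp⟩
    exact ⟨m, (h𝓒 m).1 hm, hpm⟩
  -- cells and sides
  have hcell_side : ∀ w z m, Comp w (G ∩ M) F → Comp z M (F ∪ w) → Comp m M (F ∪ G) →
      ∀ q ∈ m, q ∉ F ∪ G → q ∈ z → m ⊆ z := by
    intro w z m hwc hz hm q hq hqFG hqz
    have h1 : m \ (F ∪ G) ⊆ z := hz.sub_of_conn hMp (hwF w hwc) hm.conn (by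
      rintro p ⟨hp, hpFG⟩
      exact ⟨hm.sub hp, fun h => hpFG (h.elim Or.inl (fun h => hwG w hwc h))⟩) ⟨q, ⟨hq, hqFG⟩, hqz⟩
    rw [← hm.cl_eq]
    exact hz.pol.cl_subset h1
  -- a point of a wall is in a cell of the given side
  have hadj : ∀ w z, Comp w (G ∩ M) F → Comp z M (F ∪ w) → w ⊆ z → ∀ p ∈ w, p ∉ F →
      ∃ m, Comp m M (F ∪ G) ∧ m ⊆ z ∧ p ∈ m := by
    intro w z hwc hz hwz p hp hpF
    have hcov : z \ (F ∪ w) ⊆ ({0} ∪ ⋃₀ {m ∈ 𝓒 | m ⊆ z}) ∪ ({0} ∪ ⋃₀ {w' ∈ 𝓦 | w' ≠ w}) := by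
      rintro q ⟨hq, hqn⟩
      have hqF : q ∉ F := fun h => hqn (Or.inl h)
      have hqM := hz.sub hq
      by_cases hqG : q ∈ G
      · obtain ⟨w', hw', hqw'⟩ := hwall_of q hqM hqG hqF
        right; right
        exact ⟨w', ⟨(h𝓦 w').2 hw', fun h => hqn (Or.inr (h ▸ hqw'))⟩, hqw'⟩
      · have hqFG : q ∉ F ∪ G := fun h => h.elim hqF hqG
        obtain ⟨m, hm, hqm⟩ := hcell_of q hqM hqFG
        left; right
        exact ⟨m, ⟨(h𝓒 m).2 hm, hcell_side w z m hwc hz hm q hqm hqFG hq⟩, hqm⟩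
    have hP1 : Pol ({0} ∪ ⋃₀ {m ∈ 𝓒 | m ⊆ z}) :=
      pol_sUnion (h𝓒f.subset (Set.sep_subset _ _)) (fun s hs => ((h𝓒 s).1 hs.1).pol)
    have hP2 : Pol ({0} ∪ ⋃₀ {w' ∈ 𝓦 | w' ≠ w}) :=
      pol_sUnion (h𝓦f.subset (Set.sep_subset _ _)) (fun s hs => ((h𝓦 s).1 hs.1).pol)
    have hpz : p ∈ cl (z \ (F ∪ w)) := by rw [hz.cl_eq]; exact hwz hp
    have hp0 : p ≠ 0 := fun h => hpF (h ▸ h0F)
    rcases (hP1.union hP2).cl_subset hcov hpz with (h | ⟨m, ⟨hm, hmz⟩, hpm⟩) | (h | ⟨w', ⟨hw', hne⟩, hpw'⟩)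
    · exact absurd h hp0
    · exact ⟨m, (h𝓒 m).1 hm, hmz, hpm⟩
    · exact absurd h hp0
    · exact absurd (hwall_disj w' w ((h𝓦 w').1 hw') hwc hne p hpw' hp) hpF
  -- the closure of things outside a cell does not meet the open cell
  have hcell_open : ∀ m, Comp m M (F ∪ G) → ∀ S : Set E, Con S → S ⊆ M → (∀ q ∈ S, q ∉ m) →
      ∀ p ∈ m, p ∉ F ∪ G → p ∉ cl S := by
    intro m hm S hS hSM hSm p hp hpn hpc
    have h1 : S ⊆ cl (M \ ((F ∪ G) ∪ m)) ∪ (F ∪ G) := by
      intro q hq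
      by_cases hqn : q ∈ F ∪ G
      · exact Or.inr hqn
      · left
        exact subset_cl _ ⟨hSM hq, fun h => h.elim hqn (hSm q hq)⟩
    have hcon : Con (M \ ((F ∪ G) ∪ m)) := hMp.con.diff (hFG.con.union hm.pol.con)
    rcases (hcon.pol_cl.union hFG).cl_subset h1 hpc with h2 | h2
    · exact hm.not_mem_cl hp hpn h2
    · exact hpn h2
  -- the main claim
  have main : ∀ n : ℕ, ∀ w x, Comp w (G ∩ M) F → Comp x M (F ∪ w) →
      {m ∈ 𝓒 | m ⊆ x}.ncard ≤ n → Ball (k + 1) x (x ∩ (F ∪ w)) := by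
    intro n
    induction n with
    | zero =>
      intro w x hwc hx hn
      exfalso
      obtain ⟨x₁, y₁, hx₁, hy₁, hne, hall, hxy, hb1, hb2, hb3, hs1, hs2⟩ := hw w hwc
      have hside : ∃ m, Comp m M (F ∪ G) ∧ m ⊆ x := by
        rcases hall x hx with rfl | rfl
        · obtain ⟨m, hm, hmx, _⟩ := hs1; exact ⟨m, hm, hmx⟩
        · obtain ⟨m, hm, hmx, _⟩ := hs2; exact ⟨m, hm, hmx⟩
      obtain ⟨m, hm, hmx⟩ := hside
      have hfin : {m ∈ 𝓒 | m ⊆ x}.Finite := h𝓒f.subset (Set.sep_subset _ _)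
      have : {m ∈ 𝓒 | m ⊆ x} = ∅ := by
        rw [← Set.ncard_eq_zero hfin]; omega
      have h1 : m ∈ {m ∈ 𝓒 | m ⊆ x} := ⟨(h𝓒 m).2 hm, hmx⟩
      rw [this] at h1; exact h1
    | succ n ih =>
      intro w x hwc hx hn
      have hwp := hwF w hwc
      have hxp := hx.pol
      -- the data at w
      have hdata : Side (Ball k) M F G w x ∧ w ⊆ x := by
        obtain ⟨x₁, y₁, hx₁, hy₁, hne, hall, hxy, hb1, hb2, hb3, hs1, hs2⟩ := hw w hwc
        rcases hall x hx with rfl | rfl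
        · exact ⟨hs1, by rw [← hxy]; exact Set.inter_subset_left⟩
        · exact ⟨hs2, by rw [← hxy]; exact Set.inter_subset_right⟩
      obtain ⟨⟨m, hm, hmx, hmw, _, huniq⟩, hwx⟩ := hdata
      -- K' = m \ (F ∪ G) is contained in X = x \ (F ∪ w)
      have hK'X : m \ (F ∪ G) ⊆ x \ (F ∪ w) := by
        rintro p ⟨hp, hpFG⟩
        exact ⟨hmx hp, fun h => hpFG (h.elim Or.inl (fun h => hwG w hwc h))⟩
      obtain ⟨q₀, hq₀, hq₀n⟩ := hm.nonempty
      have hXcon : Con (x \ (F ∪ w)) := hxp.con.diff hwp.con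
      by_cases hB : ∃ w₁, Comp w₁ (G ∩ M) F ∧ w₁ ≠ w ∧ ¬ (w₁ ∩ m ⊆ F)
      · -- case B
        obtain ⟨w₁, hw₁, hw₁w, hw₁m⟩ := hB
        have hw₁p := hwF w₁ hw₁
        -- choose the names of the sides so that m ⊆ b
        obtain ⟨a, b, ha, hb, hab, hall, hβw, hβa, hsb, hmb⟩ :
            ∃ a b, Comp a M (F ∪ w₁) ∧ Comp b M (F ∪ w₁) ∧ a ∩ b = w₁ ∧
              (∀ z, Comp z M (F ∪ w₁) → z = a ∨ z = b) ∧ Ball k w₁ (w₁ ∩ F) ∧
              Ball k (a ∩ F) (w₁ ∩ F) ∧ Side (Ball k) M F G w₁ b ∧ m ⊆ b := by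
          obtain ⟨x₁, y₁, hx₁, hy₁, hne, hall, hxy, hb1, hb2, hb3, hs1, hs2⟩ := hw w₁ hw₁
          obtain ⟨𝓢, _, h𝓢, h𝓢cov⟩ := exists_components hMp hw₁p
          obtain ⟨z, hz, hqz⟩ := h𝓢cov q₀ ⟨hm.sub hq₀, fun h => hq₀n (h.elim Or.inl
            (fun h => hwG w₁ hw₁ h))⟩
          have hzc := (h𝓢 z).1 hz
          have hmz := hcell_side w₁ z m hw₁ hzc hm q₀ hq₀ hq₀n hqz
          rcases hall z hzc with rfl | rfl
          · exact ⟨y₁, z, hy₁, hx₁, by rw [Set.inter_comm]; exact hxy,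
              fun u hu => (hall u hu).symm, hb1, hb3, hs1, hmz⟩
          · exact ⟨x₁, z, hx₁, hy₁, hxy, hall, hb1, hb2, hs2, hmz⟩
        have hwa : w₁ ⊆ a := by rw [← hab]; exact Set.inter_subset_left
        have hwb : w₁ ⊆ b := by rw [← hab]; exact Set.inter_subset_right
        -- B1
        have hB1 : w ⊆ b := by
          rw [Set.not_subset] at hmw
          obtain ⟨p, hp, hpF⟩ := hmw
          have : w \ F ⊆ b := hb.sub_of_conn hMp hw₁p hwc.conn (by
            rintro q ⟨hq, hqF⟩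
            exact ⟨(hwc.sub hq).2, fun h => h.elim hqF
              (fun h => hqF (hwall_disj w₁ w hw₁ hwc hw₁w q h hq))⟩) ⟨p, ⟨hp.1, hpF⟩, hmb hp.2⟩
          rw [← hwc.cl_eq]; exact hb.pol.cl_subset this
        -- B2
        have hB2 : w₁ ⊆ x := by
          rw [Set.not_subset] at hw₁m
          obtain ⟨p, hp, hpF⟩ := hw₁m
          have : w₁ \ F ⊆ x := hx.sub_of_conn hMp hwp hw₁.conn (by
            rintro q ⟨hq, hqF⟩
            exact ⟨(hw₁.sub hq).2, fun h => h.elim hqF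
              (fun h => hqF (hwall_disj w₁ w hw₁ hwc hw₁w q hq h))⟩) ⟨p, ⟨hp.1, hpF⟩, hmx hp.2⟩
          rw [← hw₁.cl_eq]; exact hxp.cl_subset this
        have haw : ∀ p ∈ a, p ∈ w → p ∈ F := by
          intro p hpa hpw
          have : p ∈ w₁ := by rw [← hab]; exact ⟨hpa, hB1 hpw⟩
          exact hwall_disj w₁ w hw₁ hwc hw₁w p this hpw
        -- B3
        have hB3 : a ⊆ x := by
          obtain ⟨𝓢, _, h𝓢, h𝓢cov⟩ := exists_components hMp hwp
          have hsub : a \ (F ∪ w₁) ⊆ M \ (F ∪ w) := by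
            rintro q ⟨hq, hqn⟩
            exact ⟨ha.sub hq, fun h => h.elim (fun h => hqn (Or.inl h))
              (fun h => hqn (Or.inl (haw q hq h)))⟩
          obtain ⟨q, hq⟩ := ha.nonempty
          obtain ⟨z, hz, hqz⟩ := h𝓢cov q (hsub hq)
          have hzc := (h𝓢 z).1 hz
          have haz : a ⊆ z := by
            rw [← ha.cl_eq]
            exact hzc.pol.cl_subset (hzc.sub_of_conn hMp hwp ha.conn hsub ⟨q, hq, hqz⟩)
          obtain ⟨p, hp, hpF⟩ := hw₁.nonempty
          have hpn : p ∉ F ∪ w := fun h => h.elim hpF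
            (fun h => hpF (hwall_disj w₁ w hw₁ hwc hw₁w p hp h))
          have : z = x := hzc.eq_of_meet hMp hwp hx ⟨p, ⟨haz (hwa hp), hpn⟩, hB2 hp, hpn⟩
          rw [← this]; exact haz
        -- uniqueness in b
        obtain ⟨mb, hmbc, hmbb, hmbw, ⟨V, hVp, hVeq, hVw, hVβ⟩, hmbuniq⟩ := hsb
        have hmmb : m = mb := hmbuniq m hm hmb hw₁m
        -- B5
        have hB5 : w₁ ⊆ m := by
          have : w₁ \ F ⊆ m := by
            rintro p ⟨hp, hpF⟩
            obtain ⟨m', hm', hm'b, hpm'⟩ := hadj w₁ b hw₁ hb hwb p hp hpF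
            have h1 : m' = mb := hmbuniq m' hm' hm'b (fun h => hpF (h ⟨hp, hpm'⟩))
            rw [hmmb, ← h1]; exact hpm'
          rw [← hw₁.cl_eq]; exact hm.pol.cl_subset this
        have hma : m ∩ a = w₁ := by
          apply subset_antisymm
          · rintro p ⟨hp, hpa⟩
            rw [← hab]; exact ⟨hpa, hmb hp⟩
          · intro p hp; exact ⟨hB5 hp, hwa hp⟩
        -- walls touching m
        have hwm : ∀ w', Comp w' (G ∩ M) F → ∀ p ∈ w', p ∈ m → p ∉ F → w' = w ∨ w' = w₁ := by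
          intro w' hw' p hp hpm hpF
          rcases htwo m w w₁ w' hm hwc hw₁ hw' hmw hw₁m (fun h => hpF (h ⟨hp, hpm⟩)) with h | h | h
          · exact absurd h.symm hw₁w
          · exact Or.inr h.symm
          · exact Or.inl h.symm
        -- B4
        have hScon : Con ((x \ (F ∪ w)) \ (m ∪ a)) := hXcon.diff (hm.pol.con.union ha.pol.con)
        have hB4 : x ⊆ m ∪ a := by
          have hdis : ∀ p ∈ x \ (F ∪ w), p ∈ m ∪ a → p ∉ cl ((x \ (F ∪ w)) \ (m ∪ a)) := by
            have hw₁case : ∀ p ∈ w₁, p ∉ F → p ∉ cl ((x \ (F ∪ w)) \ (m ∪ a)) := by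
              intro p hp hpF hpc
              have hcov : (x \ (F ∪ w)) \ (m ∪ a) ⊆
                  ({0} ∪ ⋃₀ {m' ∈ 𝓒 | m' ≠ m ∧ m' ⊆ b}) ∪ ({0} ∪ ⋃₀ {w' ∈ 𝓦 | w' ≠ w₁}) := by
                rintro q ⟨⟨hq, hqn⟩, hqma⟩
                have hqF : q ∉ F := fun h => hqn (Or.inl h)
                have hqM := hx.sub hq
                by_cases hqG : q ∈ G
                · obtain ⟨w', hw', hqw'⟩ := hwall_of q hqM hqG hqF
                  right; right
                  exact ⟨w', ⟨(h𝓦 w').2 hw', fun h => hqma (Or.inr (hwa (h ▸ hqw')))⟩, hqw'⟩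
                · have hqFG : q ∉ F ∪ G := fun h => h.elim hqF hqG
                  obtain ⟨m', hm', hqm'⟩ := hcell_of q hqM hqFG
                  obtain ⟨𝓢, _, h𝓢, h𝓢cov⟩ := exists_components hMp hw₁p
                  have hqw₁ : q ∉ F ∪ w₁ := fun h => h.elim hqF (fun h => hqma (Or.inr (hwa h)))
                  obtain ⟨z, hz, hqz⟩ := h𝓢cov q ⟨hqM, hqw₁⟩
                  have hzc := (h𝓢 z).1 hz
                  have hzb : z = b := by
                    rcases hall z hzc with rfl | rfl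
                    · exact absurd (Or.inr hqz) hqma
                    · rfl
                  left; right
                  refine ⟨m', ⟨(h𝓒 m').2 hm', fun h => hqma (Or.inl (h ▸ hqm')), ?_⟩, hqm'⟩
                  rw [← hzb]
                  exact hcell_side w₁ z m' hw₁ hzc hm' q hqm' hqFG hqz
              have hP1 : Pol ({0} ∪ ⋃₀ {m' ∈ 𝓒 | m' ≠ m ∧ m' ⊆ b}) :=
                pol_sUnion (h𝓒f.subset (Set.sep_subset _ _)) (fun s hs => ((h𝓒 s).1 hs.1).pol)
              have hP2 : Pol ({0} ∪ ⋃₀ {w' ∈ 𝓦 | w' ≠ w₁}) :=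
                pol_sUnion (h𝓦f.subset (Set.sep_subset _ _)) (fun s hs => ((h𝓦 s).1 hs.1).pol)
              have hp0 : p ≠ 0 := fun h => hpF (h ▸ h0F)
              rcases (hP1.union hP2).cl_subset hcov hpc with
                (h | ⟨m', ⟨hm', hne, hm'b⟩, hpm'⟩) | (h | ⟨w', ⟨hw', hne⟩, hpw'⟩)
              · exact absurd h hp0
              · have h1 := hmbuniq m' ((h𝓒 m').1 hm') hm'b (fun h => hpF (h ⟨hp, hpm'⟩))
                exact hne (h1.trans hmmb.symm)
              · exact absurd h hp0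
              · exact absurd (hwall_disj w' w₁ ((h𝓦 w').1 hw') hw₁ hne p hpw' hp) hpF
            rintro p ⟨hp, hpn⟩ hpma
            have hpF : p ∉ F := fun h => hpn (Or.inl h)
            by_cases hpw₁ : p ∈ w₁
            · exact hw₁case p hpw₁ hpF
            rcases hpma with hpm | hpa
            · by_cases hpG : p ∈ G
              · obtain ⟨w', hw', hpw'⟩ := hwall_of p (hx.sub hp) hpG hpF
                rcases hwm w' hw' p hpw' hpm hpF with rfl | rfl
                · exact absurd (Or.inr hpw') hpn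
                · exact absurd hpw' hpw₁
              · exact hcell_open m hm _ hScon (fun q hq => hx.sub hq.1.1)
                  (fun q hq h => hq.2 (Or.inl h)) p hpm (fun h => h.elim hpF hpG)
            · intro hpc
              have h1 : (x \ (F ∪ w)) \ (m ∪ a) ⊆ M \ ((F ∪ w₁) ∪ a) := by
                rintro q ⟨⟨hq, hqn⟩, hqma⟩
                refine ⟨hx.sub hq, ?_⟩
                rintro ((h | h) | h)
                · exact hqn (Or.inl h)
                · exact hqma (Or.inr (hwa h))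
                · exact hqma (Or.inr h)
              exact ha.not_mem_cl hpa (fun h => h.elim hpF hpw₁) (cl_mono h1 hpc)
          rcases hx.conn.2 (m ∪ a) (cl ((x \ (F ∪ w)) \ (m ∪ a))) (hm.pol.union ha.pol)
            hScon.pol_cl (by
              intro p hp
              by_cases h : p ∈ m ∪ a
              · exact Or.inl h
              · exact Or.inr (subset_cl _ ⟨hp, h⟩)) hdis with h1 | h1
          · rw [← hx.cl_eq]; exact (hm.pol.union ha.pol).cl_subset h1
          · exact absurd (h1 (hK'X ⟨hq₀, hq₀n⟩))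
              (hdis q₀ (hK'X ⟨hq₀, hq₀n⟩) (Or.inl hq₀))
        have hxeq : x = m ∪ a := subset_antisymm hB4 (Set.union_subset hmx hB3)
        -- induction hypothesis for a
        have hcard : {m' ∈ 𝓒 | m' ⊆ a}.ncard ≤ n := by
          have hfin : {m' ∈ 𝓒 | m' ⊆ x}.Finite := h𝓒f.subset (Set.sep_subset _ _)
          have hmem : m ∈ {m' ∈ 𝓒 | m' ⊆ x} := ⟨(h𝓒 m).2 hm, hmx⟩
          have hsub : {m' ∈ 𝓒 | m' ⊆ a} ⊆ {m' ∈ 𝓒 | m' ⊆ x} \ {m} := by
            rintro m' ⟨hm', hm'a⟩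
            refine ⟨⟨hm', hm'a.trans hB3⟩, ?_⟩
            rintro rfl
            have : q₀ ∈ w₁ := by rw [← hma]; exact ⟨hq₀, hm'a hq₀⟩
            exact hq₀n (hwG w₁ hw₁ this)
          have h3 := Set.ncard_le_ncard hsub (hfin.subset Set.sdiff_subset)
          have h4 := Set.ncard_sdiff_singleton_add_one hmem hfin
          omega
        have hIH := ih w₁ a hw₁ ha hcard
        have e1 : a ∩ (F ∪ w₁) = w₁ ∪ (a ∩ F) := by
          ext p; constructor
          · rintro ⟨hp, h | h⟩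
            · exact Or.inr ⟨hp, h⟩
            · exact Or.inl h
          · rintro (h | ⟨hp, h⟩)
            · exact ⟨hwa h, Or.inr h⟩
            · exact ⟨hp, Or.inl h⟩
        rw [e1] at hIH
        have hBm := hcell m hm
        have hVeq' : m ∩ (F ∪ G) = w₁ ∪ V := by rw [hmmb]; exact hVeq
        rw [hVeq'] at hBm
        have hfin := hU m a w₁ V (a ∩ F) (w₁ ∩ F) hBm hIH hβw hVβ hβa hVw (by
          ext p; constructor
          · rintro ⟨h1, h2, h3⟩; exact ⟨h1, h3⟩
          · rintro ⟨h1, h3⟩; exact ⟨h1, hwa h1, h3⟩) hma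
        rw [← hxeq] at hfin
        have e2 : V ∪ (a ∩ F) = x ∩ (F ∪ w) := by
          apply subset_antisymm
          · rintro p (hp | ⟨hpa, hpF⟩)
            · have hpm : p ∈ m ∩ (F ∪ G) := by rw [hVeq']; exact Or.inr hp
              refine ⟨hmx hpm.1, ?_⟩
              by_cases hpF : p ∈ F
              · exact Or.inl hpF
              · have hpG : p ∈ G := hpm.2.resolve_left hpF
                obtain ⟨w', hw', hpw'⟩ := hwall_of p (hm.sub hpm.1) hpG hpF
                rcases hwm w' hw' p hpw' hpm.1 hpF with rfl | rfl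
                · exact Or.inr hpw'
                · have h5 : p ∈ w' ∩ V := ⟨hpw', hp⟩
                  rw [hVw] at h5
                  exact Or.inl h5.2
            · exact ⟨hB3 hpa, Or.inl hpF⟩
          · rintro p ⟨hp, hpF | hpw⟩
            · rw [hxeq] at hp
              rcases hp with hpm | hpa
              · have : p ∈ w₁ ∪ V := by rw [← hVeq']; exact ⟨hpm, Or.inl hpF⟩
                rcases this with h | h
                · exact Or.inr ⟨hwa h, hpF⟩
                · exact Or.inl h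
              · exact Or.inr ⟨hpa, hpF⟩
            · by_cases hpF : p ∈ F
              · rw [hxeq] at hp
                rcases hp with hpm | hpa
                · have : p ∈ w₁ ∪ V := by rw [← hVeq']; exact ⟨hpm, Or.inl hpF⟩
                  rcases this with h | h
                  · exact Or.inr ⟨hwa h, hpF⟩
                  · exact Or.inl h
                · exact Or.inr ⟨hpa, hpF⟩
              · have hpa : p ∉ a := fun h => hpF (haw p h hpw)
                rw [hxeq] at hp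
                have hpm := hp.resolve_right hpa
                have : p ∈ w₁ ∪ V := by
                  rw [← hVeq']; exact ⟨hpm, hwG w hwc hpw⟩
                rcases this with h | h
                · exact absurd (hwa h) hpa
                · exact Or.inl h
        rw [← e2]; exact hfin
      · -- case A
        have hB' : ∀ w₁, Comp w₁ (G ∩ M) F → ∀ p ∈ w₁, p ∈ m → p ∉ F → w₁ = w := by
          intro w₁ hw₁ p hp hpm hpF
          by_contra hne
          exact hB ⟨w₁, hw₁, hne, fun h => hpF (h ⟨hp, hpm⟩)⟩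
        have hScon : Con ((x \ (F ∪ w)) \ m) := hXcon.diff hm.pol.con
        have hdis : ∀ p ∈ x \ (F ∪ w), p ∈ m → p ∉ cl ((x \ (F ∪ w)) \ m) := by
          rintro p ⟨hp, hpn⟩ hpm
          have hpF : p ∉ F := fun h => hpn (Or.inl h)
          by_cases hpG : p ∈ G
          · obtain ⟨w', hw', hpw'⟩ := hwall_of p (hx.sub hp) hpG hpF
            have := hB' w' hw' p hpw' hpm hpF
            exact absurd (Or.inr (this ▸ hpw')) hpn
          · exact hcell_open m hm _ hScon (fun q hq => hx.sub hq.1.1)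
              (fun q hq => hq.2) p hpm (fun h => h.elim hpF hpG)
        have hxm : x = m := by
          apply subset_antisymm _ hmx
          rcases hx.conn.2 m (cl ((x \ (F ∪ w)) \ m)) hm.pol hScon.pol_cl (by
              intro p hp
              by_cases h : p ∈ m
              · exact Or.inl h
              · exact Or.inr (subset_cl _ ⟨hp, h⟩)) hdis with h1 | h1
          · rw [← hx.cl_eq]; exact hm.pol.cl_subset h1
          · exact absurd (h1 (hK'X ⟨hq₀, hq₀n⟩)) (hdis q₀ (hK'X ⟨hq₀, hq₀n⟩) hq₀)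
        have e : x ∩ (F ∪ w) = m ∩ (F ∪ G) := by
          rw [hxm]
          apply subset_antisymm
          · rintro p ⟨hp, h | h⟩
            · exact ⟨hp, Or.inl h⟩
            · exact ⟨hp, hwG w hwc h⟩
          · rintro p ⟨hp, h⟩
            refine ⟨hp, ?_⟩
            by_cases hpF : p ∈ F
            · exact Or.inl hpF
            · obtain ⟨w', hw', hpw'⟩ := hwall_of p (hm.sub hp) (h.resolve_left hpF) hpF
              have := hB' w' hw' p hpw' hp hpF
              exact Or.inr (this ▸ hpw')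
        rw [e, hxm]
        exact hcell m hm
  -- conclusion
  rcases Set.eq_empty_or_nonempty 𝓦 with hemp | ⟨w, hw𝓦⟩
  · have hGMF : G ∩ M ⊆ F := by
      intro p hp
      by_contra hpF
      obtain ⟨w, hw', _⟩ := h𝓦cov p ⟨hp, hpF⟩
      rw [hemp] at hw'; exact hw'
    have e : M \ (F ∪ G) = M \ F := by
      ext p; constructor
      · rintro ⟨hp, hpn⟩; exact ⟨hp, fun h => hpn (Or.inl h)⟩
      · rintro ⟨hp, hpF⟩; exact ⟨hp, fun h => h.elim hpF (fun h => hpF (hGMF ⟨h, hp⟩))⟩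
    have hcompM : Comp M M (F ∪ G) := by
      refine ⟨hMp, subset_rfl, ?_, ?_, ?_⟩
      · rw [e]; exact hM.cl_eq
      · rw [e]; exact hM.conn
      · have : M \ ((F ∪ G) ∪ M) = ∅ := by
          ext p; simp only [Set.mem_sdiff, Set.mem_union, Set.mem_empty_iff_false, iff_false]
          tauto
        rw [this, cl_empty]
        rintro p ⟨rfl, _⟩
        exact Or.inl h0F
    have := hcell M hcompM
    have e' : M ∩ (F ∪ G) = M ∩ F := by
      ext p; constructor
      · rintro ⟨hp, h | h⟩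
        · exact ⟨hp, h⟩
        · exact ⟨hp, hGMF ⟨h, hp⟩⟩
      · rintro ⟨hp, h⟩; exact ⟨hp, Or.inl h⟩
    rw [e'] at this; exact this
  · have hwc := (h𝓦 w).1 hw𝓦
    obtain ⟨x, y, hx, hy, hne, hall, hxy, hβw, hβx, hβy, hs1, hs2⟩ := hw w hwc
    have hBx := main _ w x hwc hx le_rfl
    have hBy := main _ w y hwc hy le_rfl
    have hwx : w ⊆ x := by rw [← hxy]; exact Set.inter_subset_left
    have hwy : w ⊆ y := by rw [← hxy]; exact Set.inter_subset_right
    have e1 : ∀ z : Set E, w ⊆ z → z ∩ (F ∪ w) = w ∪ (z ∩ F) := by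
      intro z hz
      ext p; constructor
      · rintro ⟨hp, h | h⟩
        · exact Or.inr ⟨hp, h⟩
        · exact Or.inl h
      · rintro (h | ⟨hp, h⟩)
        · exact ⟨hz h, Or.inr h⟩
        · exact ⟨hp, Or.inl h⟩
    rw [e1 x hwx] at hBx
    rw [e1 y hwy] at hBy
    have e2 : ∀ z : Set E, w ⊆ z → w ∩ (z ∩ F) = w ∩ F := by
      intro z hz
      ext p; constructor
      · rintro ⟨h1, h2, h3⟩; exact ⟨h1, h3⟩
      · rintro ⟨h1, h3⟩; exact ⟨h1, hz h1, h3⟩
    have hfin := hU x y w (x ∩ F) (y ∩ F) (w ∩ F) hBx hBy hβw hβx hβy (e2 x hwx) (e2 y hwy) hxy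
    have hMxy : M = x ∪ y := by
      apply subset_antisymm _ (Set.union_subset hx.sub hy.sub)
      have : M \ F ⊆ x ∪ y := by
        rintro p ⟨hp, hpF⟩
        by_cases hpw : p ∈ w
        · exact Or.inl (hwx hpw)
        · obtain ⟨𝓢, _, h𝓢, h𝓢cov⟩ := exists_components hMp (hwF w hwc)
          obtain ⟨z, hz, hpz⟩ := h𝓢cov p ⟨hp, fun h => h.elim hpF hpw⟩
          rcases hall z ((h𝓢 z).1 hz) with rfl | rfl
          · exact Or.inl hpz
          · exact Or.inr hpz
      rw [← hM.cl_eq]; exact (hx.pol.union hy.pol).cl_subset this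
    rw [hMxy, Set.union_inter_distrib_right]
    exact hfin

end Pool.Agent.Work.MP_552024_lc.PLS
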