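import Pool.Agent.Work.MP_552024_lc.PLS.S4
import Pool.Agent.Work.MP_552024_lc.PLS.Glue

set_option autoImplicit false

/-! Transversal invariance: a component of the complement of an `e`-invariant set meets a
transversal hyperplane in a connected set. -/

namespace Pool.Agent.Work.MP_552024_lc.PLS

namespace ATD

theorem inv_comp {E : Type} [AddCommGroup E] [Module ℚ E] [FiniteDimensional ℚ E] {S M : Set E}
    {e : E} (hS : Pol S) (hinv : ∀ v ∈ S, ∀ c : ℚ, v + c • e ∈ S) (hM : Comp M Set.univ S) :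
    ∀ v ∈ M \ S, ∀ c : ℚ, v + c • e ∈ M \ S := by
  intro v hv c
  have hline : ∀ c : ℚ, v + c • e ∉ S := by
    intro c hc
    apply hv.2
    have h := hinv _ hc (-c)
    rwa [neg_smul, add_neg_cancel_right] at h
  have hconn : Conn {x : E | ∃ c : ℚ, x = v + c • e} := by
    apply conn_of_convex
    · exact ⟨v, 0, by simp⟩
    · rintro x ⟨a, rfl⟩ y ⟨b, rfl⟩ t _ _
      refine ⟨a + t * (b - a), ?_⟩
      module
  have hsub : {x : E | ∃ c : ℚ, x = v + c • e} ⊆ M := by
    apply hM.sub_of_conn pol_univ hS hconn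
    · rintro x ⟨a, rfl⟩
      exact ⟨Set.mem_univ _, hline a⟩
    · exact ⟨v, ⟨0, by simp⟩, hv.1⟩
  exact ⟨hsub ⟨c, rfl⟩, hline c⟩

end ATD

theorem I_TD : St_TD := by
  intro E _ _ _ S M l e hS hinv hle hM
  have hG := ATD.inv_comp hS hinv hM
  set pr : E →ₗ[ℚ] E := LinearMap.id - ((l e)⁻¹ • l).smulRight e with hpr
  have hprx : ∀ x, pr x = x + (-((l e)⁻¹ * l x)) • e := by
    intro x
    simp only [hpr, LinearMap.sub_apply, LinearMap.id_apply, LinearMap.smulRight_apply,
      LinearMap.smul_apply, smul_eq_mul]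
    module
  have hprl : ∀ x, l (pr x) = 0 := by
    intro x
    rw [hprx, map_add, map_smul, smul_eq_mul]
    field_simp
    ring
  have hprG : ∀ x ∈ M \ S, pr x ∈ M \ S := by
    intro x hx
    rw [hprx]
    exact hG x hx _
  have hprid : ∀ x, l x = 0 → pr x = x := by
    intro x hx
    rw [hprx, hx, mul_zero, neg_zero, zero_smul, add_zero]
  rcases Set.eq_empty_or_nonempty ((M \ S) ∩ {x | l x = 0}) with hE | hE
  · exact Or.inl hE
  · right
    refine ⟨hE, fun F₁ F₂ hF₁ hF₂ hcov hdis => ?_⟩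
    have h1 := (plOn_linear pr Set.univ).pol_preimage pol_univ hF₁
    have h2 := (plOn_linear pr Set.univ).pol_preimage pol_univ hF₂
    rcases hM.conn.2 _ _ h1 h2 (by
        intro x hx
        rcases hcov ⟨hprG x hx, hprl x⟩ with h | h
        · exact Or.inl ⟨Set.mem_univ _, h⟩
        · exact Or.inr ⟨Set.mem_univ _, h⟩) (by
        intro x hx hx1 hx2
        exact hdis (pr x) ⟨hprG x hx, hprl x⟩ hx1.2 hx2.2) with h | h
    · left
      intro x hx
      have h3 := (h hx.1).2
      rwa [hprid x hx.2] at h3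
    · right
      intro x hx
      have h3 := (h hx.1).2
      rwa [hprid x hx.2] at h3

end Pool.Agent.Work.MP_552024_lc.PLS
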