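import Pool.Agent.Work.MP_552024_lc.PLS.S4

set_option autoImplicit false

/-! The coordinate form of the theta lemma. -/

namespace Pool.Agent.Work.MP_552024_lc.PLS

namespace AThE

variable {E : Type*} [AddCommGroup E] [Module ℚ E]

theorem comb_pos {a b t : ℚ} (ha : 0 ≤ a) (hb : 0 < b) (h0 : 0 < t) (h1 : t ≤ 1) :
    0 < a + t * (b - a) := by
  have h2 : 0 ≤ (1 - t) * a := mul_nonneg (sub_nonneg.2 h1) ha
  have h3 : 0 < t * b := mul_pos h0 hb
  have h4 : a + t * (b - a) = (1 - t) * a + t * b := by ring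
  rw [h4]; exact add_pos_of_nonneg_of_pos h2 h3

theorem form_pos (p : E →ₗ[ℚ] ℚ) {x y : E} {t : ℚ} (ha : 0 ≤ p x) (hb : 0 < p y) (h0 : 0 < t)
    (h1 : t ≤ 1) : 0 < p (x + t • (y - x)) := by
  rw [map_add, map_smul, map_sub, smul_eq_mul]
  exact comb_pos ha hb h0 h1

/-- The open wedge is connected, hence on one side. -/
theorem wedge_side (p q : E →ₗ[ℚ] ℚ) {y : E} (hp : 0 < p y) (hq : 0 < q y) {A A' : Set E}
    (hA : Pol A) (hA' : Pol A') (hU : A ∪ A' = Set.univ)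
    (hd : ∀ x, 0 < p x → 0 < q x → x ∈ A → x ∉ A') :
    (∀ x, 0 < p x → 0 < q x → x ∈ A) ∨ (∀ x, 0 < p x → 0 < q x → x ∈ A') := by
  have hc : Conn {x | 0 < p x ∧ 0 < q x} := by
    refine conn_of_convex ⟨y, hp, hq⟩ ?_
    rintro x ⟨h1, h2⟩ z ⟨h3, h4⟩ t h0 ht1
    rcases h0.eq_or_lt with rfl | h0
    · rw [zero_smul, add_zero]; exact ⟨h1, h2⟩
    · exact ⟨form_pos p h1.le h3 h0 ht1, form_pos q h2.le h4 h0 ht1⟩
  rcases hc.2 A A' hA hA' (by rw [hU]; exact Set.subset_univ _)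
    (fun x hx => hd x hx.1 hx.2) with h | h
  · exact Or.inl (fun x h1 h2 => h ⟨h1, h2⟩)
  · exact Or.inr (fun x h1 h2 => h ⟨h1, h2⟩)

/-- The closed wedge is in the closure of the open one. -/
theorem wedge_closed (p q : E →ₗ[ℚ] ℚ) {y : E} (hp : 0 < p y) (hq : 0 < q y) {A : Set E}
    (hA : Pol A) (h : ∀ x, 0 < p x → 0 < q x → x ∈ A) (x : E) (h1 : 0 ≤ p x) (h2 : 0 ≤ q x) :
    x ∈ A := by
  rw [← hA.cl_eq]
  exact Or.inr ⟨y, h y hp hq, fun t h0 ht => h _ (form_pos p h1 hp h0 ht)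
    (form_pos q h2 hq h0 ht)⟩

/-! ### Maps of the plane -/

def φ (z : ℚ × ℚ) : ℚ × ℚ := (-z.1 + 2 * max z.2 0, -2 * z.1 + 2 * max z.2 0 + max z.2 (-z.2))

def ψ (z : ℚ × ℚ) : ℚ × ℚ := (-min z.1 (z.2 - z.1) + max (2 * z.1 - z.2) 0, 2 * z.1 - z.2)

def RB : Set (ℚ × ℚ) := {z | z.1 ≤ max z.2 0}

def RW : Set (ℚ × ℚ) := {z | 0 ≤ z.1 ∧ z.1 ≤ z.2}

theorem plOn_fst (s : Set (ℚ × ℚ)) : PLOn (fun z : ℚ × ℚ => z.1) s :=
  plOn_linear (LinearMap.fst ℚ ℚ ℚ) s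

theorem plOn_snd (s : Set (ℚ × ℚ)) : PLOn (fun z : ℚ × ℚ => z.2) s :=
  plOn_linear (LinearMap.snd ℚ ℚ ℚ) s

theorem plOn_zero (s : Set (ℚ × ℚ)) : PLOn (fun _ : ℚ × ℚ => (0 : ℚ)) s :=
  (plOn_linear (0 : ℚ × ℚ →ₗ[ℚ] ℚ) s).congr (fun _ _ => rfl)

theorem plOn_φ (s : Set (ℚ × ℚ)) : PLOn φ s := by
  have h1 := ((plOn_fst s).neg).add (((plOn_snd s).max (plOn_zero s)).smul 2)
  have h2 := (((plOn_fst s).smul (-2)).add (((plOn_snd s).max (plOn_zero s)).smul 2)).add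
    ((plOn_snd s).max (plOn_snd s).neg)
  exact (h1.prod h2).congr (fun x _ => rfl)

theorem plOn_ψ (s : Set (ℚ × ℚ)) : PLOn ψ s := by
  have h0 := ((plOn_fst s).smul 2).sub (plOn_snd s)
  have h1 := (((plOn_fst s).min ((plOn_snd s).sub (plOn_fst s))).neg).add
    (h0.max (plOn_zero s))
  exact (h1.prod h0).congr (fun x _ => rfl)

theorem inv_φψ : PLInv φ ψ RB RW := by
  refine ⟨plOn_φ _, plOn_ψ _, ?_, ?_, ?_, ?_⟩
  · rintro ⟨s, t⟩ h
    have h : s ≤ max t 0 := h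
    show 0 ≤ -s + 2 * max t 0 ∧ -s + 2 * max t 0 ≤ -2 * s + 2 * max t 0 + max t (-t)
    rcases le_total t 0 with h1 | h1
    · rw [max_eq_right h1, max_eq_right (by linarith)] at *
      constructor <;> linarith
    · rw [max_eq_left h1] at *
      rw [max_eq_left (by linarith)]
      constructor <;> linarith
  · rintro ⟨s, t⟩ ⟨h1, h2⟩
    have h1 : 0 ≤ s := h1
    have h2 : s ≤ t := h2
    show -min s (t - s) + max (2 * s - t) 0 ≤ max (2 * s - t) 0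
    have : 0 ≤ min s (t - s) := le_min h1 (by linarith)
    linarith
  · rintro ⟨s, t⟩ h
    have h : s ≤ max t 0 := h
    have e1 : φ (s, t) = (-s + 2 * max t 0, -2 * s + 2 * max t 0 + max t (-t)) := rfl
    rw [e1]
    rcases le_total t 0 with h1 | h1
    · rw [max_eq_right h1, max_eq_right (by linarith)] at *
      show (-min (-s + 2 * 0) (-2 * s + 2 * 0 + -t - (-s + 2 * 0)) +
        max (2 * (-s + 2 * 0) - (-2 * s + 2 * 0 + -t)) 0, _) = _
      rw [min_eq_left (by linarith), max_eq_right (by linarith)]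
      ext
      · show -(-s + 2 * 0) + 0 = s; ring
      · show 2 * (-s + 2 * 0) - (-2 * s + 2 * 0 + -t) = t; ring
    · rw [max_eq_left h1] at *
      rw [max_eq_left (by linarith)]
      show (-min (-s + 2 * t) (-2 * s + 2 * t + t - (-s + 2 * t)) +
        max (2 * (-s + 2 * t) - (-2 * s + 2 * t + t)) 0, _) = _
      rw [min_eq_right (by linarith), max_eq_left (by linarith)]
      ext
      · show -(-2 * s + 2 * t + t - (-s + 2 * t)) + (2 * (-s + 2 * t) - (-2 * s + 2 * t + t)) = s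
        ring
      · show 2 * (-s + 2 * t) - (-2 * s + 2 * t + t) = t; ring
  · rintro ⟨s, t⟩ ⟨h1, h2⟩
    have h1 : 0 ≤ s := h1
    have h2 : s ≤ t := h2
    have e1 : ψ (s, t) = (-min s (t - s) + max (2 * s - t) 0, 2 * s - t) := rfl
    rw [e1]
    rcases le_total (2 * s - t) 0 with h3 | h3
    · rw [min_eq_left (by linarith), max_eq_right h3]
      show (-(-s + 0) + 2 * max (2 * s - t) 0,
        -2 * (-s + 0) + 2 * max (2 * s - t) 0 + max (2 * s - t) (-(2 * s - t))) = _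
      rw [max_eq_right h3, max_eq_right (by linarith)]
      ext
      · show -(-s + 0) + 2 * 0 = s; ring
      · show -2 * (-s + 0) + 2 * 0 + -(2 * s - t) = t; ring
    · rw [min_eq_right (by linarith), max_eq_left h3]
      show (-(-(t - s) + (2 * s - t)) + 2 * max (2 * s - t) 0,
        -2 * (-(t - s) + (2 * s - t)) + 2 * max (2 * s - t) 0 +
          max (2 * s - t) (-(2 * s - t))) = _
      rw [max_eq_left h3, max_eq_left (by linarith)]
      ext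
      · show -(-(t - s) + (2 * s - t)) + 2 * (2 * s - t) = s; ring
      · show -2 * (-(t - s) + (2 * s - t)) + 2 * (2 * s - t) + (2 * s - t) = t; ring

/-! ### Lifting maps of the plane -/

def lft (κ : E →ₗ[ℚ] ℚ × ℚ) (ι : ℚ × ℚ →ₗ[ℚ] E) (f : ℚ × ℚ → ℚ × ℚ) (x : E) : E :=
  x + ι (f (κ x) - κ x)

theorem lft_val {κ : E →ₗ[ℚ] ℚ × ℚ} {ι : ℚ × ℚ →ₗ[ℚ] E} (h : ∀ z, κ (ι z) = z)
    (f : ℚ × ℚ → ℚ × ℚ) (x : E) : κ (lft κ ι f x) = f (κ x) := by
  rw [lft, map_add, h, add_sub_cancel]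

theorem lft_lft {κ : E →ₗ[ℚ] ℚ × ℚ} {ι : ℚ × ℚ →ₗ[ℚ] E} (h : ∀ z, κ (ι z) = z)
    (f g : ℚ × ℚ → ℚ × ℚ) (x : E) (hx : g (f (κ x)) = κ x) :
    lft κ ι g (lft κ ι f x) = x := by
  have e : lft κ ι g (lft κ ι f x) = lft κ ι f x + ι (g (f (κ x)) - f (κ x)) := by
    rw [lft, lft_val h]
  rw [e, hx, lft, add_assoc, ← map_add, sub_add_sub_cancel, sub_self, map_zero, add_zero]

theorem lft_id {κ : E →ₗ[ℚ] ℚ × ℚ} {ι : ℚ × ℚ →ₗ[ℚ] E}
    (f : ℚ × ℚ → ℚ × ℚ) (x : E) (hx : f (κ x) = κ x) : lft κ ι f x = x := by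
  rw [lft, hx, sub_self, map_zero, add_zero]

theorem lft_inv {κ : E →ₗ[ℚ] ℚ × ℚ} {ι : ℚ × ℚ →ₗ[ℚ] E} (h : ∀ z, κ (ι z) = z)
    {f g : ℚ × ℚ → ℚ × ℚ} {R R' : Set (ℚ × ℚ)} (hfg : PLInv f g R R') :
    PLInv (lft κ ι f) (lft κ ι g) {x | κ x ∈ R} {x | κ x ∈ R'} := by
  refine ⟨?_, ?_, fun x hx => ?_, fun x hx => ?_, fun x hx => ?_, fun x hx => ?_⟩
  · exact (plOn_id _).add (((hfg.plf.comp (plOn_linear κ _) (fun _ h => h)).sub
      (plOn_linear κ _)).lin ι)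
  · exact (plOn_id _).add (((hfg.plg.comp (plOn_linear κ _) (fun _ h => h)).sub
      (plOn_linear κ _)).lin ι)
  · show κ _ ∈ R'
    rw [lft_val h]; exact hfg.mapsf _ hx
  · show κ _ ∈ R
    rw [lft_val h]; exact hfg.mapsg _ hx
  · exact lft_lft h f g x (hfg.gf _ hx)
  · exact lft_lft h g f x (hfg.fg _ hx)

theorem φ_id {z : ℚ × ℚ} (h : 0 ≤ z.2) (h' : z.1 = z.2) : φ z = z := by
  obtain ⟨s, t⟩ := z
  have h : 0 ≤ t := h
  have h' : s = t := h'
  subst h'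
  show (-s + 2 * max s 0, -2 * s + 2 * max s 0 + max s (-s)) = _
  rw [max_eq_left h, max_eq_left (by linarith)]
  ext
  · show -s + 2 * s = s; ring
  · show -2 * s + 2 * s + s = s; ring

theorem ψ_id {z : ℚ × ℚ} (h : 0 ≤ z.2) (h' : z.1 = z.2) : ψ z = z := by
  have h1 : z ∈ RB := by
    show z.1 ≤ max z.2 0
    rw [h']; exact le_max_left _ _
  have h2 := inv_φψ.gf z h1
  rwa [φ_id h h'] at h2

theorem pol_le (p q : E →ₗ[ℚ] ℚ) : Pol {x | p x ≤ q x} := by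
  have h : {x | p x ≤ q x} = {x | 0 ≤ (q - p) x} := by
    ext x; show p x ≤ q x ↔ 0 ≤ (q - p) x
    rw [LinearMap.sub_apply, sub_nonneg]
  rw [h]; exact pol_halfspace _

theorem core {n : ℕ} {E : Type} [AddCommGroup E] [Module ℚ E] [FiniteDimensional ℚ E]
    (κ : E →ₗ[ℚ] ℚ × ℚ) (ι : ℚ × ℚ →ₗ[ℚ] E) (hκ : ∀ z, κ (ι z) = z) (E₂ A₂ A₂' : Set E)
    (b1 : Ball (n + 2) {x | (κ x).1 ≤ 0}
      ({x | (κ x).1 = 0 ∧ (κ x).2 ≤ 0} ∪ {x | (κ x).1 = 0 ∧ 0 ≤ (κ x).2}))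
    (bD : Ball (n + 1) {x | (κ x).1 = 0 ∧ (κ x).2 ≤ 0} {x | (κ x).1 = 0 ∧ (κ x).2 = 0})
    (bE : Ball (n + 1) {x | (κ x).1 = 0 ∧ 0 ≤ (κ x).2} {x | (κ x).1 = 0 ∧ (κ x).2 = 0})
    (b2 : Ball (n + 1) E₂ {x | (κ x).1 = 0 ∧ (κ x).2 = 0})
    (hsl : ∀ x ∈ E₂, 2 * (κ x).2 ≤ (κ x).1 ∧ -(2 * (κ x).2) ≤ (κ x).1)
    (hU : A₂ ∪ A₂' = Set.univ) (hI : A₂ ∩ A₂' = E₂ ∪ {x | (κ x).1 = 0 ∧ (κ x).2 ≤ 0})
    (hB : Ball (n + 2) A₂ (E₂ ∪ {x | (κ x).1 = 0 ∧ (κ x).2 ≤ 0}))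
    (hB' : Ball (n + 2) A₂' (E₂ ∪ {x | (κ x).1 = 0 ∧ (κ x).2 ≤ 0}))
    (hpos : ∀ x ∈ A₂, 0 ≤ (κ x).1)
    (hcl : cl (A₂ \ (E₂ ∪ {x | (κ x).1 = 0 ∧ (κ x).2 ≤ 0})) = A₂) :
    Std (n + 2) ({x | (κ x).1 = 0 ∧ 0 ≤ (κ x).2} ∪ E₂) := by
  set s : E →ₗ[ℚ] ℚ := (LinearMap.fst ℚ ℚ ℚ).comp κ with hs
  set u : E →ₗ[ℚ] ℚ := (LinearMap.snd ℚ ℚ ℚ).comp κ with hu
  have es : ∀ x, (κ x).1 = s x := fun _ => rfl
  have eu : ∀ x, (κ x).2 = u x := fun _ => rfl
  have esι : ∀ a b : ℚ, s (ι (a, b)) = a := fun a b => by rw [← es, hκ]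
  have euι : ∀ a b : ℚ, u (ι (a, b)) = b := fun a b => by rw [← eu, hκ]
  simp only [es, eu] at b1 bD bE b2 hsl hI hB hB' hpos hcl ⊢
  set D : Set E := {x | s x = 0 ∧ u x ≤ 0} with hD
  set E₁ : Set E := {x | s x = 0 ∧ 0 ≤ u x} with hE₁
  set c : Set E := {x | s x = 0 ∧ u x = 0} with hc
  have hcE : c ⊆ E₂ := b2.2.1
  have hpA : Pol A₂ := hB.1
  have hpA' : Pol A₂' := hB'.1
  have hE₂A : E₂ ⊆ A₂ ∩ A₂' := by rw [hI]; exact Set.subset_union_left
  have hDA : D ⊆ A₂ ∩ A₂' := by rw [hI]; exact Set.subset_union_right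
  have hpos2 : ∀ x ∈ E₂, 0 ≤ s x := fun x hx => hpos x (hE₂A hx).1
  have hE₂c : ∀ x ∈ E₂, s x ≤ 0 → x ∈ c := by
    intro x hx h
    obtain ⟨h1, h2⟩ := hsl x hx
    have h3 := hpos2 x hx
    exact ⟨le_antisymm h h3, by linarith⟩
  have hor : ∀ x, x ∈ A₂ ∨ x ∈ A₂' := fun x => by
    have : x ∈ A₂ ∪ A₂' := by rw [hU]; trivial
    exact this
  -- the lower half space
  have hA1 : ∀ x, s x ≤ 0 → x ∈ A₂' := by
    intro x hx
    refine wedge_closed (-s) (-s) (y := ι (-1, 0)) ?_ ?_ hpA' ?_ x ?_ ?_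
    · rw [LinearMap.neg_apply, esι]; norm_num
    · rw [LinearMap.neg_apply, esι]; norm_num
    · intro z hz _
      rw [LinearMap.neg_apply] at hz
      rcases hor z with h | h
      · have := hpos z h
        linarith
      · exact h
    · rw [LinearMap.neg_apply]; linarith
    · rw [LinearMap.neg_apply]; linarith
  -- the upper wedge
  have hWp : ∀ x, 0 ≤ s x → s x ≤ u x → x ∈ A₂' := by
    have hp : 0 < s (ι (1, 2)) := by rw [esι]; norm_num
    have hq : 0 < (u - s) (ι (1, 2)) := by rw [LinearMap.sub_apply, esι, euι]; norm_num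
    have hdis : ∀ x, 0 < s x → 0 < (u - s) x → x ∈ A₂ → x ∉ A₂' := by
      intro x h1 h2 h3 h4
      rw [LinearMap.sub_apply] at h2
      have h5 : x ∈ E₂ ∪ D := by rw [← hI]; exact ⟨h3, h4⟩
      rcases h5 with h5 | h5
      · have := (hsl x h5).1
        linarith
      · have := h5.1
        linarith
    have key : ∀ x, 0 < s x → 0 < (u - s) x → x ∈ A₂' := by
      rcases wedge_side s (u - s) hp hq hpA hpA' hU hdis with h | h
      · exfalso
        have h1 := wedge_closed s (u - s) hp hq hpA h (ι (0, 1)) (by rw [esι])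
          (by rw [LinearMap.sub_apply, esι, euι]; norm_num)
        have h2 := hA1 (ι (0, 1)) (by rw [esι])
        have h3 : ι (0, 1) ∈ E₂ ∪ D := by rw [← hI]; exact ⟨h1, h2⟩
        rcases h3 with h3 | h3
        · have h4 := (hE₂c _ h3 (by rw [esι])).2
          rw [euι] at h4
          norm_num at h4
        · have h4 := h3.2
          rw [euι] at h4
          norm_num at h4
      · exact h
    intro x h1 h2
    exact wedge_closed s (u - s) hp hq hpA' key x h1 (by rw [LinearMap.sub_apply]; linarith)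
  -- the lower wedge
  have hWm : ∀ x, 0 < s x → s x < -u x → x ∈ A₂ := by
    have hp : 0 < s (ι (1, -2)) := by rw [esι]; norm_num
    have hq : 0 < (-u - s) (ι (1, -2)) := by
      rw [LinearMap.sub_apply, LinearMap.neg_apply, esι, euι]; norm_num
    have hdis : ∀ x, 0 < s x → 0 < (-u - s) x → x ∈ A₂ → x ∉ A₂' := by
      intro x h1 h2 h3 h4
      rw [LinearMap.sub_apply, LinearMap.neg_apply] at h2
      have h5 : x ∈ E₂ ∪ D := by rw [← hI]; exact ⟨h3, h4⟩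
      rcases h5 with h5 | h5
      · have := (hsl x h5).2
        linarith
      · have := h5.1
        linarith
    have key : ∀ x, 0 < s x → 0 < (-u - s) x → x ∈ A₂ := by
      rcases wedge_side s (-u - s) hp hq hpA hpA' hU hdis with h | h
      · exact h
      · exfalso
        have hz : ι (0, -1) ∈ cl (A₂ \ (E₂ ∪ D)) := by
          rw [hcl]
          exact (hDA (show ι (0, -1) ∈ D from ⟨esι _ _, by rw [euι]; norm_num⟩)).1
        rcases hz with hz | ⟨y, hy, hyt⟩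
        · have h1 := euι 0 (-1)
          rw [hz, map_zero] at h1
          norm_num at h1
        · obtain ⟨ε, hε, H⟩ := small_signs (A := {u, u + s})
            ((Set.finite_singleton _).insert _) (ι (0, -1)) (y - ι (0, -1))
          have h0 : 0 < min ε 1 := lt_min hε one_pos
          obtain ⟨⟨h1, h2⟩⟩ : Nonempty (_ ∧ _) := ⟨hyt (min ε 1) h0 (min_le_right _ _)⟩
          have h3 := (H (min ε 1) h0 (min_le_left _ _) u (by simp)).1 (by rw [euι]; norm_num)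
          have h4 := (H (min ε 1) h0 (min_le_left _ _) (u + s) (by simp)).1
            (by rw [LinearMap.add_apply, euι, esι]; norm_num)
          set w := ι (0, -1) + min ε 1 • (y - ι (0, -1)) with hw
          rw [euι, sign_neg (by norm_num : (-1 : ℚ) < 0), sign_eq_neg_one_iff] at h3
          rw [LinearMap.add_apply, LinearMap.add_apply, euι, esι,
            sign_neg (by norm_num : (-1 : ℚ) + 0 < 0), sign_eq_neg_one_iff] at h4
          have h5 := hpos w h1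
          have h6 : s w ≠ 0 := fun h7 => h2 (Or.inr ⟨h7, h3.le⟩)
          have h7 : 0 < s w := lt_of_le_of_ne h5 (Ne.symm h6)
          have h8 : 0 < (-u - s) w := by
            rw [LinearMap.sub_apply, LinearMap.neg_apply]; linarith
          exact hdis w h7 h8 h1 (h w h7 h8)
    intro x h1 h2
    exact key x h1 (by rw [LinearMap.sub_apply, LinearMap.neg_apply]; linarith)
  -- the pieces
  set A₃ : Set E := A₂' ∩ ({x | 0 ≤ s x} ∩ {x | 0 ≤ (u + s) x}) with hA₃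
  have hpA₃ : Pol A₃ := hpA'.inter ((pol_halfspace s).inter (pol_halfspace (u + s)))
  set A₄ : Set E := A₃ ∩ {x | 0 ≤ (s - u) x} with hA₄
  have hpA₄ : Pol A₄ := hpA₃.inter (pol_halfspace (s - u))
  have mA₃ : ∀ x, x ∈ A₃ ↔ x ∈ A₂' ∧ 0 ≤ s x ∧ 0 ≤ u x + s x := fun _ => Iff.rfl
  have mA₄ : ∀ x, x ∈ A₄ ↔ (x ∈ A₂' ∧ 0 ≤ s x ∧ 0 ≤ u x + s x) ∧ 0 ≤ s x - u x :=
    fun _ => Iff.rfl
  set B₁ : Set E := {x | κ x ∈ RB} with hB₁
  set W : Set E := {x | κ x ∈ RW} with hW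
  have mB : ∀ x, x ∈ B₁ ↔ s x ≤ max (u x) 0 := fun _ => Iff.rfl
  have mW : ∀ x, x ∈ W ↔ 0 ≤ s x ∧ s x ≤ u x := fun _ => Iff.rfl
  have mB2 : ∀ x, x ∈ B₁ ↔ (s x ≤ 0 ∨ x ∈ W) := by
    intro x
    rw [mB, mW, le_max_iff]
    constructor
    · rintro (h | h)
      · rcases le_total (s x) 0 with h1 | h1
        · exact Or.inl h1
        · exact Or.inr ⟨h1, h⟩
      · exact Or.inl h
    · rintro (h | ⟨_, h⟩)
      · exact Or.inr h
      · exact Or.inl h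
  have hpW : Pol W := by
    have : W = {x | 0 ≤ s x} ∩ {x | 0 ≤ (u - s) x} := by
      ext x
      rw [mW]
      show _ ↔ 0 ≤ s x ∧ 0 ≤ (u - s) x
      rw [LinearMap.sub_apply, sub_nonneg]
    rw [this]; exact (pol_halfspace _).inter (pol_halfspace _)
  have hpB : Pol B₁ := by
    have : B₁ = {x | s x ≤ 0} ∪ W := by
      ext x; rw [mB2]; rfl
    rw [this]; exact b1.1.union hpW
  have hWA : W ⊆ A₂' := fun x hx => hWp x hx.1 hx.2
  have hBA : B₁ ⊆ A₂' := by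
    intro x hx
    rcases (mB2 x).1 hx with h | h
    · exact hA1 x h
    · exact hWA h
  have eA' : B₁ ∪ A₄ = A₂' := by
    ext x; constructor
    · rintro (h | h)
      · exact hBA h
      · exact h.1.1
    · intro h
      by_cases h1 : x ∈ B₁
      · exact Or.inl h1
      · rw [mB2, mW] at h1
        push Not at h1
        obtain ⟨h1, h2⟩ := h1
        have h2 := h2 h1.le
        refine Or.inr ((mA₄ x).2 ⟨⟨h, h1.le, ?_⟩, by linarith⟩)
        by_contra h3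
        push Not at h3
        have h4 := hWm x h1 (by linarith)
        have h5 : x ∈ E₂ ∪ D := by rw [← hI]; exact ⟨h4, h⟩
        rcases h5 with h5 | h5
        · have := (hsl x h5).2
          linarith
        · have := h5.1
          linarith
  have eA₃ : W ∪ A₄ = A₃ := by
    ext x; constructor
    · rintro (h | h)
      · obtain ⟨h1, h2⟩ := (mW x).1 h
        exact (mA₃ x).2 ⟨hWA h, h1, by linarith⟩
      · exact h.1
    · intro h
      rcases le_total (s x) (u x) with h1 | h1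
      · exact Or.inl ⟨h.2.1, h1⟩
      · exact Or.inr ((mA₄ x).2 ⟨h, by linarith⟩)
  -- the piecewise linear map
  have hBU : ∀ x ∈ B₁, x ∈ A₄ → 0 ≤ u x ∧ s x = u x := by
    intro x h1 h2
    rw [mA₄] at h2
    rcases (mB2 x).1 h1 with h | h
    · have h3 : s x = 0 := le_antisymm h h2.1.2.1
      have h4 := h2.1.2.2
      have h5 := h2.2
      exact ⟨by linarith, by linarith⟩
    · rw [mW] at h
      exact ⟨h.1.trans h.2, le_antisymm h.2 (by linarith)⟩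
  have hWU : ∀ x ∈ W, x ∈ A₄ → 0 ≤ u x ∧ s x = u x :=
    fun x h1 h2 => hBU x ((mB2 x).2 (Or.inr h1)) h2
  obtain ⟨F, G, hFG, hF1, hF2, -, -⟩ := (lft_inv hκ inv_φψ).paste (PLInv.refl A₄) hpB hpA₄ hpW
    hpA₄ (fun x h1 h2 => lft_id φ x (φ_id (hBU x h1 h2).1 (hBU x h1 h2).2))
    (fun x h1 h2 => lft_id ψ x (ψ_id (hWU x h1 h2).1 (hWU x h1 h2).2))
  change PLInv F G (B₁ ∪ A₄) (W ∪ A₄) at hFG
  rw [eA', eA₃] at hFG
  have hE₂W : ∀ x ∈ E₂, x ∈ B₁ → x ∈ c := by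
    intro x h1 h2
    obtain ⟨h3, h4⟩ := hsl x h1
    rcases (mB2 x).1 h2 with h | h
    · exact hE₂c x h1 h
    · rw [mW] at h
      exact hE₂c x h1 (by linarith)
  have hcU : ∀ x ∈ c, lft κ ι φ x = x := by
    intro x hx
    exact lft_id φ x (φ_id (show 0 ≤ u x from hx.2.ge) (show s x = u x by rw [hx.1, hx.2]))
  refine ⟨{x | s x ≤ 0} ∪ A₂, A₃, ?_, ?_, ?_, ?_⟩
  · refine Set.eq_univ_of_forall (fun x => ?_)
    rcases hor x with h | h
    · exact Or.inl (Or.inr h)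
    · rw [← eA'] at h
      rcases h with h | h
      · rcases (mB2 x).1 h with h | h
        · exact Or.inl (Or.inl h)
        · exact Or.inr (by rw [← eA₃]; exact Or.inl h)
      · exact Or.inr h.1
  · ext x; constructor
    · rintro ⟨h1 | h1, h2⟩
      · have h1 : s x ≤ 0 := h1
        have h3 : s x = 0 := le_antisymm h1 h2.2.1
        have h4 := ((mA₃ x).1 h2).2.2
        exact Or.inl ⟨h3, by linarith⟩
      · have h5 : x ∈ E₂ ∪ D := by rw [← hI]; exact ⟨h1, h2.1⟩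
        rcases h5 with h5 | h5
        · exact Or.inr h5
        · have h4 := ((mA₃ x).1 h2).2.2
          have h6 := h5.1
          exact Or.inl ⟨h6, by linarith⟩
    · rintro (h | h)
      · have h1 := h.1
        have h2 := h.2
        exact ⟨Or.inl (show s x ≤ 0 from h1.le), (mA₃ x).2 ⟨hA1 x h1.le, h1.ge, by linarith⟩⟩
      · obtain ⟨h3, h4⟩ := hsl x h
        have h5 := hpos2 x h
        exact ⟨Or.inr (hE₂A h).1, (mA₃ x).2 ⟨(hE₂A h).2, h5, by linarith⟩⟩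
  · rw [Set.union_comm E₂ D] at hB
    refine unionLemma (n + 1) _ _ D E₁ E₂ c b1 hB bD bE b2 ?_ ?_ ?_
    · ext x; constructor
      · rintro ⟨h1, h2⟩; exact ⟨h1.1, le_antisymm h1.2 h2.2⟩
      · rintro ⟨h1, h2⟩; exact ⟨⟨h1, h2.le⟩, ⟨h1, h2.ge⟩⟩
    · ext x; constructor
      · rintro ⟨h1, h2⟩; exact hE₂c x h2 h1.1.le
      · intro h; exact ⟨⟨h.1, h.2.le⟩, hcE h⟩
    · ext x; constructor
      · rintro ⟨h1, h2⟩
        have h5 : x ∈ E₂ ∪ D := by rw [← hI]; exact ⟨h2, hA1 x h1⟩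
        rcases h5 with h5 | h5
        · have h6 := hE₂c x h5 h1
          exact ⟨h6.1, h6.2.le⟩
        · exact h5
      · intro h; exact ⟨h.1.le, (hDA h).1⟩
  · refine hB'.transport hpA₃ hFG ?_ ?_
    · rintro x (h | h)
      · have h1 := h.1
        have h2 := h.2
        exact (mA₃ x).2 ⟨hA1 x h1.le, h1.ge, by linarith⟩
      · obtain ⟨h3, h4⟩ := hsl x h
        have h5 := hpos2 x h
        exact (mA₃ x).2 ⟨(hE₂A h).2, h5, by linarith⟩
    · intro x hx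
      rw [← eA'] at hx
      rcases hx with hx | hx
      · rw [hF1 x hx]
        have hκx := lft_val hκ φ x
        have hsx : s (lft κ ι φ x) = -s x + 2 * max (u x) 0 := congrArg Prod.fst hκx
        have hux : u (lft κ ι φ x) = -2 * s x + 2 * max (u x) 0 + max (u x) (-u x) :=
          congrArg Prod.snd hκx
        have hxB := (mB x).1 hx
        constructor
        · rintro (h | h)
          · have h1 := hE₂W x h hx
            rw [hcU x h1]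
            exact Or.inr h
          · left
            have h1 := h.1
            have h2 := h.2
            rw [max_eq_right h2, h1] at hsx
            rw [max_eq_right h2, max_eq_right (by linarith), h1] at hux
            exact ⟨by rw [hsx]; norm_num, by rw [hux]; linarith⟩
        · intro h
          right
          have hzero : s (lft κ ι φ x) = 0 := by
            rcases h with h | h
            · exact h.1
            · have hm : lft κ ι φ x ∈ B₁ := (mB2 _).2 (Or.inr ((lft_inv hκ inv_φψ).mapsf x hx))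
              exact (hE₂W _ h hm).1
          rw [hzero] at hsx
          have h3 : 0 ≤ max (u x) 0 := le_max_right _ _
          have h4 : u x ≤ max (u x) 0 := le_max_left _ _
          exact ⟨by linarith, by linarith⟩
      · rw [hF2 x hx]
        have hx' := (mA₄ x).1 hx
        have hx1 := hx'.1.2.2
        have hx2 := hx'.2
        constructor
        · rintro (h | h)
          · exact Or.inr h
          · have h1 := h.1
            have h2 := h.2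
            exact Or.inr (hcE ⟨h1, by linarith⟩)
        · rintro (h | h)
          · have h1 := h.1
            have h2 := h.2
            exact Or.inl (hcE ⟨h1, by linarith⟩)
          · exact Or.inl h

theorem half_ball (hHS : St_HS) (n : ℕ) (c : ℚ) (hc : c ≠ 0) :
    Ball (n + 1) {x : Fin (n + 2) → ℚ | x 0 = 0 ∧ 0 ≤ c * x 1}
      {x : Fin (n + 2) → ℚ | x 0 = 0 ∧ x 1 = 0} := by
  set b : (Fin (n + 1) → ℚ) →ₗ[ℚ] ℚ := c • LinearMap.proj 0 with hb0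
  have eb : ∀ x, b x = c * x 0 := fun x => rfl
  have hb : b ≠ 0 := by
    intro h
    have h1 := eb (fun _ => 1)
    rw [h] at h1
    have h2 : (0 : ℚ) = c * 1 := h1
    rw [mul_one] at h2
    exact hc h2.symm
  have h1 := hHS n (Fin (n + 1) → ℚ) b (by simp) hb
  have e1 : ∀ x : Fin (n + 1) → ℚ, emb (n + 1) x 1 = x 0 := fun x => emb_succ x 0
  have hpol : Pol {x : Fin (n + 2) → ℚ | x 0 = 0 ∧ 0 ≤ c * x 1} :=
    (pol_hyperplane (LinearMap.proj 0 : (Fin (n + 2) → ℚ) →ₗ[ℚ] ℚ)).inter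
      (pol_halfspace (c • (LinearMap.proj 1 : (Fin (n + 2) → ℚ) →ₗ[ℚ] ℚ)))
  refine h1.transport (F := emb (n + 1)) (G := tl (n + 1))
    hpol
    ⟨plOn_linear _ _, plOn_linear _ _, fun x hx => ?_, fun y hy => ?_, fun x _ => tl_emb x,
      fun y hy => emb_tl hy.1⟩ ?_ ?_
  · refine ⟨emb_zero x, ?_⟩
    rw [e1]; exact hx
  · exact hy.2
  · rintro x ⟨h2, h3⟩
    exact ⟨h2, by rw [h3, mul_zero]⟩
  · intro x _
    show b x = 0 ↔ emb (n + 1) x 0 = 0 ∧ emb (n + 1) x 1 = 0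
    rw [e1, emb_zero, eb]
    constructor
    · intro h; exact ⟨rfl, (mul_eq_zero.1 h).resolve_left hc⟩
    · rintro ⟨_, h⟩; rw [h, mul_zero]

end AThE

open AThE in
theorem I_ThE (hSlope : St_Slope) (hHS : St_HS) (hConnB : St_ConnB) : St_ThE := by
  intro n E₂ A₂ A₂' b2 hp h01 hU hI hB hB' hpos
  obtain ⟨M₁, hM₁, H₁⟩ := hSlope (Fin (n + 2) → ℚ) E₂ (LinearMap.proj 0) (LinearMap.proj 1)
    b2.1 hp (fun x hx h => (h01 x hx h).le)
  obtain ⟨M₂, hM₂, H₂⟩ := hSlope (Fin (n + 2) → ℚ) E₂ (LinearMap.proj 0) (-LinearMap.proj 1)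
    b2.1 hp (fun x hx h => by
      show -(x 1) ≤ 0
      rw [h01 x hx h, neg_zero])
  have H₁ : ∀ x ∈ E₂, x 1 ≤ M₁ * x 0 := H₁
  have H₂ : ∀ x ∈ E₂, -(x 1) ≤ M₂ * x 0 := H₂
  set M : ℚ := M₁ + M₂ with hM
  have hM0 : 0 < M := add_pos hM₁ hM₂
  set e : ℚ := (2 * M)⁻¹ with he
  have he0 : 0 < e := inv_pos.2 (by linarith)
  have heM : 2 * e * M = 1 := by rw [he]; field_simp
  have hle : ∀ t : ℚ, e * t ≤ 0 ↔ t ≤ 0 := fun t => by
    constructor
    · intro h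
      by_contra h1
      push Not at h1
      exact absurd (mul_pos he0 h1) (not_lt.2 h)
    · exact fun h => mul_nonpos_of_nonneg_of_nonpos he0.le h
  have hge : ∀ t : ℚ, 0 ≤ e * t ↔ 0 ≤ t := fun t => mul_nonneg_iff_of_pos_left he0
  have heq : ∀ t : ℚ, e * t = 0 ↔ t = 0 := fun t => by
    rw [mul_eq_zero]; exact or_iff_right he0.ne'
  let κ : (Fin (n + 2) → ℚ) →ₗ[ℚ] ℚ × ℚ :=
    (LinearMap.proj 0 : (Fin (n + 2) → ℚ) →ₗ[ℚ] ℚ).prod (e • LinearMap.proj 1)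
  let ι : ℚ × ℚ →ₗ[ℚ] (Fin (n + 2) → ℚ) :=
    (LinearMap.toSpanSingleton ℚ (Fin (n + 2) → ℚ) (Pi.single 0 1)).comp (LinearMap.fst ℚ ℚ ℚ) +
    (LinearMap.toSpanSingleton ℚ (Fin (n + 2) → ℚ) (Pi.single 1 e⁻¹)).comp (LinearMap.snd ℚ ℚ ℚ)
  have k1 : ∀ x, (κ x).1 = x 0 := fun _ => rfl
  have k2 : ∀ x, (κ x).2 = e * x 1 := fun _ => rfl
  have hκ : ∀ z, κ (ι z) = z := by
    rintro ⟨a, b⟩
    have i0 : ∀ j, ι (a, b) j = a * (Pi.single 0 1 : Fin (n + 2) → ℚ) j +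
      b * (Pi.single 1 e⁻¹ : Fin (n + 2) → ℚ) j := fun _ => rfl
    ext
    · rw [k1, i0, Pi.single_eq_same, Pi.single_eq_of_ne (by simp)]
      ring
    · rw [k2, i0, Pi.single_eq_same, Pi.single_eq_of_ne (by simp)]
      field_simp
      ring
  have sD : {x : Fin (n + 2) → ℚ | x 0 = 0 ∧ x 1 ≤ 0} = {x | (κ x).1 = 0 ∧ (κ x).2 ≤ 0} := by
    ext x
    show x 0 = 0 ∧ x 1 ≤ 0 ↔ x 0 = 0 ∧ e * x 1 ≤ 0
    rw [hle]
  have sE : {x : Fin (n + 2) → ℚ | x 0 = 0 ∧ 0 ≤ x 1} = {x | (κ x).1 = 0 ∧ 0 ≤ (κ x).2} := by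
    ext x
    show x 0 = 0 ∧ 0 ≤ x 1 ↔ x 0 = 0 ∧ 0 ≤ e * x 1
    rw [hge]
  have sc : {x : Fin (n + 2) → ℚ | x 0 = 0 ∧ x 1 = 0} = {x | (κ x).1 = 0 ∧ (κ x).2 = 0} := by
    ext x
    show x 0 = 0 ∧ x 1 = 0 ↔ x 0 = 0 ∧ e * x 1 = 0
    rw [heq]
  have bE := half_ball hHS n 1 one_ne_zero
  have bD := half_ball hHS n (-1) (by norm_num)
  have sE' : {x : Fin (n + 2) → ℚ | x 0 = 0 ∧ 0 ≤ 1 * x 1} = {x | x 0 = 0 ∧ 0 ≤ x 1} := by
    ext x
    show x 0 = 0 ∧ 0 ≤ 1 * x 1 ↔ x 0 = 0 ∧ 0 ≤ x 1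
    rw [one_mul]
  have sD' : {x : Fin (n + 2) → ℚ | x 0 = 0 ∧ 0 ≤ -1 * x 1} = {x | x 0 = 0 ∧ x 1 ≤ 0} := by
    ext x
    show x 0 = 0 ∧ 0 ≤ -1 * x 1 ↔ x 0 = 0 ∧ x 1 ≤ 0
    rw [neg_one_mul, neg_nonneg]
  rw [sE', sE, sc] at bE
  rw [sD', sD, sc] at bD
  rw [sc] at b2
  rw [sD] at hI hB hB'
  rw [sE]
  have hb : -(LinearMap.proj 0 : (Fin (n + 2) → ℚ) →ₗ[ℚ] ℚ) ≠ 0 := by
    intro h
    have h1 : (-(LinearMap.proj 0 : (Fin (n + 2) → ℚ) →ₗ[ℚ] ℚ)) (fun _ => 1) = -1 := rfl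
    rw [h] at h1
    have h2 : (0 : ℚ) = -1 := h1
    norm_num at h2
  have b1 := hHS (n + 1) (Fin (n + 2) → ℚ) (-(LinearMap.proj 0)) (by simp) hb
  have s1 : {x : Fin (n + 2) → ℚ | 0 ≤ (-(LinearMap.proj 0 : (Fin (n + 2) → ℚ) →ₗ[ℚ] ℚ)) x} =
      {x | (κ x).1 ≤ 0} := by
    ext x
    show 0 ≤ -(x 0) ↔ x 0 ≤ 0
    rw [neg_nonneg]
  have s2 : {x : Fin (n + 2) → ℚ | (-(LinearMap.proj 0 : (Fin (n + 2) → ℚ) →ₗ[ℚ] ℚ)) x = 0} =
      {x | (κ x).1 = 0 ∧ (κ x).2 ≤ 0} ∪ {x | (κ x).1 = 0 ∧ 0 ≤ (κ x).2} := by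
    ext x
    show -(x 0) = 0 ↔ (x 0 = 0 ∧ (κ x).2 ≤ 0) ∨ (x 0 = 0 ∧ 0 ≤ (κ x).2)
    rw [neg_eq_zero]
    constructor
    · intro h
      rcases le_total (κ x).2 0 with h1 | h1
      · exact Or.inl ⟨h, h1⟩
      · exact Or.inr ⟨h, h1⟩
    · rintro (h | h) <;> exact h.1
  rw [s1, s2] at b1
  refine core κ ι hκ E₂ A₂ A₂' b1 bD bE b2 ?_ hU hI hB hB' hpos
    (hConnB (n + 1) _ A₂ _ hB).2.1
  intro x hx
  rw [k1, k2]
  have h0 := hp x hx
  have h1 : x 1 ≤ M * x 0 := (H₁ x hx).trans (by rw [hM]; nlinarith)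
  have h2 : -(x 1) ≤ M * x 0 := (H₂ x hx).trans (by rw [hM]; nlinarith)
  have h3 : 2 * e * (M * x 0) = x 0 := by rw [← mul_assoc, heM, one_mul]
  have h4 : 2 * e * x 1 ≤ 2 * e * (M * x 0) := mul_le_mul_of_nonneg_left h1 (by linarith)
  have h5 : 2 * e * -(x 1) ≤ 2 * e * (M * x 0) := mul_le_mul_of_nonneg_left h2 (by linarith)
  rw [h3] at h4 h5
  exact ⟨by linarith, by linarith⟩

end Pool.Agent.Work.MP_552024_lc.PLS
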