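import Pool.Agent.Work.MP_552024_lc.PLS.S4

set_option autoImplicit false

/-! Item Theta: the theta lemma from its coordinate form. -/

namespace Pool.Agent.Work.MP_552024_lc.PLS

namespace ATheta

section Tools

variable {E : Type*} [AddCommGroup E] [Module ℚ E]
variable {E' : Type*} [AddCommGroup E'] [Module ℚ E']

theorem pol_pre {f : E → E'} {g : E' → E} (h : PLInv f g (Set.univ : Set E) (Set.univ : Set E'))
    {X : Set E} (hX : Pol X) : Pol {y : E' | g y ∈ X} := by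
  have h1 := h.plg.pol_preimage pol_univ hX
  have h2 : {y : E' | y ∈ Set.univ ∧ g y ∈ X} = {y : E' | g y ∈ X} := by
    ext y
    exact ⟨fun hy => hy.2, fun hy => ⟨trivial, hy⟩⟩
  rw [h2] at h1
  exact h1

theorem ball_pre {k : ℕ} {f : E → E'} {g : E' → E}
    (h : PLInv f g (Set.univ : Set E) (Set.univ : Set E')) {C S : Set E} (hB : Ball k C S) :
    Ball k {y : E' | g y ∈ C} {y : E' | g y ∈ S} := by
  refine hB.transport (pol_pre h hB.1) (F := f) (G := g)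
    (h.restrict (Set.subset_univ _) (Set.subset_univ _) (fun x _ => ?_))
    (fun y hy => hB.2.1 hy) (fun x _ => ?_)
  · change x ∈ C ↔ g (f x) ∈ C
    rw [h.gf x trivial]
  · change x ∈ S ↔ g (f x) ∈ S
    rw [h.gf x trivial]

end Tools

theorem pol_half {n : ℕ} : Pol {x : Fin (n + 2) → ℚ | 0 ≤ x 0} :=
  pol_halfspace (LinearMap.proj 0 : (Fin (n + 2) → ℚ) →ₗ[ℚ] ℚ)

theorem conn_neg {n : ℕ} : Conn {x : Fin (n + 2) → ℚ | x 0 < 0} := by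
  refine conn_of_convex ⟨fun _ => -1, by change (-1 : ℚ) < 0; norm_num⟩ ?_
  intro x hx y hy t h0 h1
  change x 0 < 0 at hx
  change y 0 < 0 at hy
  change x 0 + t * (y 0 - x 0) < 0
  have h2 : x 0 + t * (y 0 - x 0) = (1 - t) * x 0 + t * y 0 := by ring
  rw [h2]
  rcases h0.lt_or_eq with h3 | h3
  · have h4 : t * y 0 < 0 := mul_neg_of_pos_of_neg h3 hy
    have h5 : (1 - t) * x 0 ≤ 0 := mul_nonpos_of_nonneg_of_nonpos (by linarith) hx.le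
    linarith
  · rw [← h3]
    linarith

/-- The main step: `E₂` lies in `A'`, the sides of `E₁ ∪ D` are `A` and `A'`. -/
theorem main (hNF2 : St_NF2) (hThE : St_ThE) (hConnB : St_ConnB) (hStdTr : St_StdTr)
    (n : ℕ) (E : Type) [AddCommGroup E] [Module ℚ E] [FiniteDimensional ℚ E]
    (D E₁ E₂ c A A' : Set E) (hd : Module.finrank ℚ E = n + 2) (hD : Ball (n + 1) D c)
    (hE1 : Ball (n + 1) E₁ c) (hE2 : Ball (n + 1) E₂ c) (h1 : D ∩ E₁ = c) (h2 : D ∩ E₂ = c)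
    (h3 : E₁ ∩ E₂ = c) (hu : A ∪ A' = Set.univ) (hi : A ∩ A' = E₁ ∪ D)
    (hA : Ball (n + 2) A (E₁ ∪ D)) (hA' : Ball (n + 2) A' (E₁ ∪ D)) (hS : Std (n + 2) (E₂ ∪ D))
    (hsub : E₂ ⊆ A') : Std (n + 2) (E₁ ∪ E₂) := by
  obtain ⟨f, g, hfg, fA, fA', fD, fE⟩ := hNF2 n E A A' D E₁ c hd hu hi hA hA' hD hE1 h1
  have fg : ∀ y, f (g y) = y := fun y => hfg.fg y trivial
  have gf : ∀ x, g (f x) = x := fun x => hfg.gf x trivial
  have fc : ∀ x, x ∈ c ↔ f x 0 = 0 ∧ f x 1 = 0 := by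
    intro x
    rw [← h1, Set.mem_inter_iff, fD, fE]
    constructor
    · rintro ⟨⟨a1, a2⟩, _, a3⟩
      exact ⟨a1, le_antisymm a2 a3⟩
    · rintro ⟨a1, a2⟩
      exact ⟨⟨a1, a2.le⟩, a1, a2.ge⟩
  have hc' : {y : Fin (n + 2) → ℚ | g y ∈ c} = {x | x 0 = 0 ∧ x 1 = 0} := by
    ext y
    change g y ∈ c ↔ _
    rw [fc, fg]
    rfl
  have hD' : {y : Fin (n + 2) → ℚ | g y ∈ E₂ ∪ D} =
      {y | g y ∈ E₂} ∪ {x | x 0 = 0 ∧ x 1 ≤ 0} := by
    ext y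
    change (g y ∈ E₂ ∨ g y ∈ D) ↔ (g y ∈ E₂ ∨ (y 0 = 0 ∧ y 1 ≤ 0))
    rw [fD, fg]
  have hb2 := ball_pre hfg hE2
  rw [hc'] at hb2
  have hpos : ∀ y ∈ {y : Fin (n + 2) → ℚ | g y ∈ E₂}, 0 ≤ y 0 := by
    intro y hy
    have := (fA' (g y)).1 (hsub hy)
    rwa [fg] at this
  have hzero : ∀ y ∈ {y : Fin (n + 2) → ℚ | g y ∈ E₂}, y 0 = 0 → y 1 = 0 := by
    intro y hy hy0
    have hy1 : g y ∈ A := (fA _).2 (by rw [fg, hy0])
    have hy2 : g y ∈ E₁ ∪ D := hi ▸ (⟨hy1, hsub hy⟩ : g y ∈ A ∩ A')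
    have hy3 : g y ∈ c := by
      rcases hy2 with h | h
      · rw [← h3]
        exact ⟨h, hy⟩
      · rw [← h2]
        exact ⟨h, hy⟩
    have := ((fc _).1 hy3).2
    rwa [fg] at this
  -- the sides of the second sphere
  obtain ⟨B, B', hBu, hBi, hB, hB'⟩ := hS
  have key : ∀ B B' : Set E, B ∪ B' = Set.univ → B ∩ B' = E₂ ∪ D → Ball (n + 2) B (E₂ ∪ D) →
      Ball (n + 2) B' (E₂ ∪ D) → {x : Fin (n + 2) → ℚ | x 0 < 0} ⊆ {y | g y ∈ B'} →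
      Std (n + 2) (E₁ ∪ E₂) := by
    intro B B' hBu hBi hB hB' hneg
    have hbB := ball_pre hfg hB
    have hbB' := ball_pre hfg hB'
    rw [hD'] at hbB hbB'
    have hun : {y : Fin (n + 2) → ℚ | g y ∈ B} ∪ {y | g y ∈ B'} = Set.univ := by
      ext y
      refine ⟨fun _ => trivial, fun _ => ?_⟩
      have : g y ∈ B ∪ B' := hBu ▸ trivial
      exact this
    have hin : {y : Fin (n + 2) → ℚ | g y ∈ B} ∩ {y | g y ∈ B'} =
        {y | g y ∈ E₂} ∪ {x | x 0 = 0 ∧ x 1 ≤ 0} := by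
      rw [← hD', ← hBi]
      rfl
    have hBpos : ∀ y ∈ {y : Fin (n + 2) → ℚ | g y ∈ B}, 0 ≤ y 0 := by
      have hcl := (hConnB (n + 1) (Fin (n + 2) → ℚ) _ _ hbB).2.1
      intro y hy
      rw [← hcl] at hy
      refine pol_half.cl_subset ?_ hy
      rintro z ⟨hz1, hz2⟩
      change 0 ≤ z 0
      by_contra hz3
      push Not at hz3
      apply hz2
      rw [← hin]
      exact ⟨hz1, hneg hz3⟩
    have hstd := hThE n _ _ _ hb2 hpos hzero hun hin hbB hbB' hBpos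
    refine hStdTr (n + 1) E (Fin (n + 2) → ℚ) (E₁ ∪ E₂) _ f g hfg (fun x => ?_) hstd
    change (x ∈ E₁ ∨ x ∈ E₂) ↔ ((f x 0 = 0 ∧ 0 ≤ f x 1) ∨ g (f x) ∈ E₂)
    rw [gf, fE]
  have hdis : ∀ x ∈ {x : Fin (n + 2) → ℚ | x 0 < 0}, x ∈ {y | g y ∈ B} → x ∉ {y | g y ∈ B'} := by
    intro x hx hx1 hx2
    have hx3 : x ∈ {y : Fin (n + 2) → ℚ | g y ∈ E₂ ∪ D} := by
      rw [← hBi]
      exact ⟨hx1, hx2⟩
    rw [hD'] at hx3
    change x 0 < 0 at hx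
    rcases hx3 with h | h
    · exact absurd (hpos x h) (not_le.2 hx)
    · exact absurd h.1 hx.ne
  have hcov : {x : Fin (n + 2) → ℚ | x 0 < 0} ⊆ {y | g y ∈ B} ∪ {y | g y ∈ B'} := by
    intro x _
    have : g x ∈ B ∪ B' := hBu ▸ trivial
    exact this
  rcases conn_neg.2 _ _ (pol_pre hfg hB.1) (pol_pre hfg hB'.1) hcov hdis with h | h
  · exact key B' B (by rw [Set.union_comm]; exact hBu) (by rw [Set.inter_comm]; exact hBi)
      hB' hB h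
  · exact key B B' hBu hBi hB hB' h

end ATheta

theorem I_Theta (hNF2 : St_NF2) (hThE : St_ThE) (hConnB : St_ConnB) (hStdTr : St_StdTr) :
    St_Theta := by
  intro n E _ _ _ D E₁ E₂ c hd hD hE1 hE2 h1 h2 h3 hS1 hS2
  obtain ⟨A, A', hu, hi, hA, hA'⟩ := hS1
  obtain ⟨hconn, hcl, _⟩ := hConnB n E E₂ c hE2
  have hdis : ∀ x ∈ E₂ \ c, x ∈ A → x ∉ A' := by
    rintro x ⟨hx1, hx2⟩ hx3 hx4
    have hx5 : x ∈ E₁ ∪ D := hi ▸ (⟨hx3, hx4⟩ : x ∈ A ∩ A')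
    apply hx2
    rcases hx5 with h | h
    · rw [← h3]
      exact ⟨h, hx1⟩
    · rw [← h2]
      exact ⟨h, hx1⟩
  have hcov : E₂ \ c ⊆ A ∪ A' := by
    intro x _
    rw [hu]
    trivial
  rcases hconn.2 A A' hA.1 hA'.1 hcov hdis with h | h
  · have hsub : E₂ ⊆ A := hcl ▸ hA.1.cl_subset h
    exact ATheta.main hNF2 hThE hConnB hStdTr n E D E₁ E₂ c A' A hd hD hE1 hE2 h1 h2 h3
      (by rw [Set.union_comm]; exact hu) (by rw [Set.inter_comm]; exact hi) hA' hA hS2 hsub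
  · have hsub : E₂ ⊆ A' := hcl ▸ hA'.1.cl_subset h
    exact ATheta.main hNF2 hThE hConnB hStdTr n E D E₁ E₂ c A A' hd hD hE1 hE2 h1 h2 h3
      hu hi hA hA' hS2 hsub

end Pool.Agent.Work.MP_552024_lc.PLS
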