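import Pool.Agent.Work.MP_552024_lc.PLS.P_Base
import Pool.Agent.Work.MP_552024_lc.PLS.P_BdSph
import Pool.Agent.Work.MP_552024_lc.PLS.P_Box
import Pool.Agent.Work.MP_552024_lc.PLS.P_Bsd
import Pool.Agent.Work.MP_552024_lc.PLS.P_BxB
import Pool.Agent.Work.MP_552024_lc.PLS.P_BxDl
import Pool.Agent.Work.MP_552024_lc.PLS.P_BxE
import Pool.Agent.Work.MP_552024_lc.PLS.P_BxPS
import Pool.Agent.Work.MP_552024_lc.PLS.P_BxPT
import Pool.Agent.Work.MP_552024_lc.PLS.P_BxQ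
import Pool.Agent.Work.MP_552024_lc.PLS.P_BxS
import Pool.Agent.Work.MP_552024_lc.PLS.P_BxSide
import Pool.Agent.Work.MP_552024_lc.PLS.P_BxStd
import Pool.Agent.Work.MP_552024_lc.PLS.P_BxT
import Pool.Agent.Work.MP_552024_lc.PLS.P_BxTh
import Pool.Agent.Work.MP_552024_lc.PLS.P_BxX
import Pool.Agent.Work.MP_552024_lc.PLS.P_CV
import Pool.Agent.Work.MP_552024_lc.PLS.P_Chord
import Pool.Agent.Work.MP_552024_lc.PLS.P_Circ
import Pool.Agent.Work.MP_552024_lc.PLS.P_ClC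
import Pool.Agent.Work.MP_552024_lc.PLS.P_ClE
import Pool.Agent.Work.MP_552024_lc.PLS.P_ClM
import Pool.Agent.Work.MP_552024_lc.PLS.P_ColC
import Pool.Agent.Work.MP_552024_lc.PLS.P_ColM
import Pool.Agent.Work.MP_552024_lc.PLS.P_ColS
import Pool.Agent.Work.MP_552024_lc.PLS.P_ConnB
import Pool.Agent.Work.MP_552024_lc.PLS.P_ConnB0
import Pool.Agent.Work.MP_552024_lc.PLS.P_ConnP
import Pool.Agent.Work.MP_552024_lc.PLS.P_ConnS
import Pool.Agent.Work.MP_552024_lc.PLS.P_Cut3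
import Pool.Agent.Work.MP_552024_lc.PLS.P_CutT
import Pool.Agent.Work.MP_552024_lc.PLS.P_Der
import Pool.Agent.Work.MP_552024_lc.PLS.P_Disc
import Pool.Agent.Work.MP_552024_lc.PLS.P_Edge
import Pool.Agent.Work.MP_552024_lc.PLS.P_Gap
import Pool.Agent.Work.MP_552024_lc.PLS.P_Gen
import Pool.Agent.Work.MP_552024_lc.PLS.P_GenV
import Pool.Agent.Work.MP_552024_lc.PLS.P_HS
import Pool.Agent.Work.MP_552024_lc.PLS.P_JB
import Pool.Agent.Work.MP_552024_lc.PLS.P_JBS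
import Pool.Agent.Work.MP_552024_lc.PLS.P_JBa
import Pool.Agent.Work.MP_552024_lc.PLS.P_JBb
import Pool.Agent.Work.MP_552024_lc.PLS.P_K3
import Pool.Agent.Work.MP_552024_lc.PLS.P_LS
import Pool.Agent.Work.MP_552024_lc.PLS.P_LS2
import Pool.Agent.Work.MP_552024_lc.PLS.P_Last
import Pool.Agent.Work.MP_552024_lc.PLS.P_LocH
import Pool.Agent.Work.MP_552024_lc.PLS.P_LocS
import Pool.Agent.Work.MP_552024_lc.PLS.P_LvCell
import Pool.Agent.Work.MP_552024_lc.PLS.P_LvCir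
import Pool.Agent.Work.MP_552024_lc.PLS.P_LvGap
import Pool.Agent.Work.MP_552024_lc.PLS.P_LvLim
import Pool.Agent.Work.MP_552024_lc.PLS.P_LvMain
import Pool.Agent.Work.MP_552024_lc.PLS.P_LvMk
import Pool.Agent.Work.MP_552024_lc.PLS.P_LvPc
import Pool.Agent.Work.MP_552024_lc.PLS.P_LvRay
import Pool.Agent.Work.MP_552024_lc.PLS.P_LvReg
import Pool.Agent.Work.MP_552024_lc.PLS.P_LvSlice
import Pool.Agent.Work.MP_552024_lc.PLS.P_LvTub
import Pool.Agent.Work.MP_552024_lc.PLS.P_Main4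
import Pool.Agent.Work.MP_552024_lc.PLS.P_NC
import Pool.Agent.Work.MP_552024_lc.PLS.P_NCp
import Pool.Agent.Work.MP_552024_lc.PLS.P_NF
import Pool.Agent.Work.MP_552024_lc.PLS.P_NF2
import Pool.Agent.Work.MP_552024_lc.PLS.P_NH
import Pool.Agent.Work.MP_552024_lc.PLS.P_Neg
import Pool.Agent.Work.MP_552024_lc.PLS.P_Nest
import Pool.Agent.Work.MP_552024_lc.PLS.P_NoChm
import Pool.Agent.Work.MP_552024_lc.PLS.P_NotFlat
import Pool.Agent.Work.MP_552024_lc.PLS.P_P1T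
import Pool.Agent.Work.MP_552024_lc.PLS.P_P1a
import Pool.Agent.Work.MP_552024_lc.PLS.P_P1b
import Pool.Agent.Work.MP_552024_lc.PLS.P_P1c
import Pool.Agent.Work.MP_552024_lc.PLS.P_P2
import Pool.Agent.Work.MP_552024_lc.PLS.P_P2F1
import Pool.Agent.Work.MP_552024_lc.PLS.P_P2F2
import Pool.Agent.Work.MP_552024_lc.PLS.P_P2F3
import Pool.Agent.Work.MP_552024_lc.PLS.P_P2S
import Pool.Agent.Work.MP_552024_lc.PLS.P_P2Z
import Pool.Agent.Work.MP_552024_lc.PLS.P_PF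
import Pool.Agent.Work.MP_552024_lc.PLS.P_PPgen
import Pool.Agent.Work.MP_552024_lc.PLS.P_PlA
import Pool.Agent.Work.MP_552024_lc.PLS.P_PlB
import Pool.Agent.Work.MP_552024_lc.PLS.P_PlC
import Pool.Agent.Work.MP_552024_lc.PLS.P_PlP
import Pool.Agent.Work.MP_552024_lc.PLS.P_RD
import Pool.Agent.Work.MP_552024_lc.PLS.P_Refl
import Pool.Agent.Work.MP_552024_lc.PLS.P_RegT
import Pool.Agent.Work.MP_552024_lc.PLS.P_SchA1
import Pool.Agent.Work.MP_552024_lc.PLS.P_SchA2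
import Pool.Agent.Work.MP_552024_lc.PLS.P_SchH
import Pool.Agent.Work.MP_552024_lc.PLS.P_SchPof
import Pool.Agent.Work.MP_552024_lc.PLS.P_SecB
import Pool.Agent.Work.MP_552024_lc.PLS.P_Slab
import Pool.Agent.Work.MP_552024_lc.PLS.P_SlabB
import Pool.Agent.Work.MP_552024_lc.PLS.P_Slope
import Pool.Agent.Work.MP_552024_lc.PLS.P_Sph1
import Pool.Agent.Work.MP_552024_lc.PLS.P_SphIso
import Pool.Agent.Work.MP_552024_lc.PLS.P_SphQ
import Pool.Agent.Work.MP_552024_lc.PLS.P_SphTr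
import Pool.Agent.Work.MP_552024_lc.PLS.P_StdSides
import Pool.Agent.Work.MP_552024_lc.PLS.P_StdTr
import Pool.Agent.Work.MP_552024_lc.PLS.P_TD
import Pool.Agent.Work.MP_552024_lc.PLS.P_ThE
import Pool.Agent.Work.MP_552024_lc.PLS.P_Theta

set_option autoImplicit false

/-! The PL Schoenflies theorem in dimensions at most four (cone dimension). -/

namespace Pool.Agent.Work.MP_552024_lc.PLS

theorem schP_le_four : ∀ j, 2 ≤ j → j ≤ 4 → SchP j := by
  have hGenV : St_GenV := I_GenV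
  have hRD : St_RD := I_RD
  have hNH : St_NH := I_NH hRD
  have hTD : St_TD := I_TD
  have hPPgen : St_PPgen := I_PPgen hRD hTD
  have hNoChm : St_NoChm := I_NoChm
  have hBxS : St_BxS := I_BxS hNoChm
  have hSlope : St_Slope := I_Slope hRD
  have hBxDl : St_BxDl := I_BxDl hSlope
  have hBxE : St_BxE := I_BxE
  have hBxQ : St_BxQ := I_BxQ
  have hDer : St_Der := I_Der
  have hSphIso : St_SphIso := I_SphIso
  have hHS : St_HS := I_HS
  have hSphQ : St_SphQ := I_SphQ hHS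
  have hSphTr : St_SphTr := I_SphTr
  have hLS : St_LS := I_LS hDer hSphIso hSphQ hSphTr
  have hBdSph : St_BdSph := I_BdSph
  have hConnB : St_ConnB := I_ConnB
  have hBxB : St_BxB := I_BxB hLS hSphTr hSphIso hBdSph hConnB
  have hBxStd : St_BxStd := I_BxStd hBxB
  have hK3 : St_K3 := I_K3 hSphIso hSphQ hSphTr
  have hNF : St_NF := I_NF hHS
  have hNF2 : St_NF2 := I_NF2 hNF
  have hThE : St_ThE := I_ThE hSlope hHS hConnB
  have hStdTr : St_StdTr := I_StdTr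
  have hTheta : St_Theta := I_Theta hNF2 hThE hConnB hStdTr
  have hCutT : St_CutT := I_CutT hTheta
  have hClM : St_ClM := I_ClM
  have hBxTh : St_BxTh := I_BxTh hBxB hBxStd hK3 hCutT hClM hConnB
  have hStdSides : St_StdSides := I_StdSides hConnB
  have hLocS : St_LocS := I_LocS hLS hStdSides
  have hJBa : St_JBa := I_JBa
  have hJBb : St_JBb := I_JBb hJBa
  have hJB : St_JB := I_JB hJBa hJBb
  have hColS : St_ColS := I_ColS hLocS hJB hNoChm
  have hGen : St_Gen := I_Gen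
  have hColM : St_ColM := I_ColM hGen
  have hConnP : St_ConnP := I_ConnP
  have hColC : St_ColC := I_ColC hConnP
  have hConnS : St_ConnS := I_ConnS hSphIso hSphQ hConnP
  have hJBS : St_JBS := I_JBS hColS hColM hColC hConnS hLocS hNoChm
  have hBxSide : St_BxSide := I_BxSide hBxTh hJBS hBxB hClM hConnB
  have hBxX : St_BxX := I_BxX hNoChm
  have hBxPS : St_BxPS := I_BxPS hBxX hTD hBxQ
  have hBxPT : St_BxPT := I_BxPT hBxX hTD hBxQ
  have hBox : St_Box := I_Box hBxS hBxDl hBxE hBxQ hBxTh hBxSide hBxPS hBxPT hJBS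
  have hBxT : St_BxT := I_BxT
  have hLvMk : St_LvMk := I_LvMk
  have hLvRay : St_LvRay := I_LvRay hRD hConnS
  have hLvGap : St_LvGap := I_LvGap hRD hLvRay
  have hEdge : St_Edge := I_Edge hRD
  have hCirc : St_Circ := I_Circ hEdge
  have hSph1 : St_Sph1 := I_Sph1
  have hLS2 : St_LS2 := I_LS2 hLS hSph1
  have hRegT : St_RegT := I_RegT hLS2
  have hLvReg : St_LvReg := I_LvReg hRD hRegT
  have hGap : St_Gap := I_Gap hRD
  have hLvCell : St_LvCell := I_LvCell hGap hLvRay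
  have hClC : St_ClC := I_ClC
  have hLvCir : St_LvCir := I_LvCir hCirc hLvReg hLvCell hLvRay hConnS hClC
  have hSchH : St_SchH := I_SchH hSphTr
  have hConnB0 : St_ConnB0 := I_ConnB0
  have hDisc : St_Disc := I_Disc hSchH hConnB0
  have hBsd : St_Bsd := I_Bsd hDisc hConnB
  have hRefl : St_Refl := I_Refl hNoChm hStdTr hSphTr
  have hCV : St_CV := I_CV
  have hSchA1 : St_SchA1 := I_SchA1 hRefl hCV hSph1
  have hLast : St_Last := I_Last
  have hCut3 : St_Cut3 := I_Cut3 hK3 hSchA1 hLast hConnB0 hSph1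
  have hNC : St_NC := I_NC hLS hSph1 hConnP
  have hNotFlat : St_NotFlat := I_NotFlat hNC hSphTr
  have hNCp : St_NCp := I_NCp hNC hSphIso hSphQ hSphTr
  have hBase : St_Base := I_Base hNotFlat hNoChm hCV hNCp hBdSph
  have hClE : St_ClE := I_ClE
  have hSchA2 : St_SchA2 := I_SchA2 hCut3 hTheta hBase hNotFlat hRefl hClE hK3 hSchA1
  have hNest : St_Nest := I_Nest hBsd hSchA2 hConnS hConnB0
  have hLvSlice : St_LvSlice := I_LvSlice hLvCell
  have hLvPc : St_LvPc := I_LvPc hLvSlice hLvCir hLvRay hBsd hSchA2 hConnS hConnB0 hClC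
  have hP1a : St_P1a := I_P1a hLvGap hLvRay hLvCir hBsd hNest hSchA2 hConnS hLvPc
  have hP1b : St_P1b := I_P1b hLvPc hLvRay hConnB
  have hP1c : St_P1c := I_P1c hLvPc hCutT hLvRay hBsd hSchA2
  have hLvLim : St_LvLim := I_LvLim hRD hLvRay hClC
  have hP1T : St_P1T := I_P1T hLvPc hLvLim hConnS
  have hPlA : St_PlA := I_PlA
  have hPF : St_PF := I_PF
  have hPlB : St_PlB := I_PlB hPlA hPF hConnP
  have hLocH : St_LocH := I_LocH hJBS hSchA1 hStdSides hSphTr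
  have hPlC : St_PlC := I_PlC hPlA hPlB hCirc hDisc hLocH hSchA2 hConnP hConnB
  have hPlP : St_PlP := I_PlP hPlC hPlA
  have hP2Z : St_P2Z := I_P2Z hLvPc hLvLim hConnS
  have hP2S : St_P2S := I_P2S hPlC hPlP hP2Z hJBS hK3 hCutT hLvPc hNotFlat hSchA2
  have hP2F1 : St_P2F1 := I_P2F1 hJBS hSchA2 hConnS
  have hLvTub : St_LvTub := I_LvTub hBsd hSchA2 hLvCir hLvCell hLvRay hConnB hClC
  have hP2F2 : St_P2F2 := I_P2F2 hNotFlat hLvCir hNest hLvTub hLvPc
  have hSlabB : St_SlabB := I_SlabB hCV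
  have hSecB : St_SecB := I_SecB
  have hChord : St_Chord := I_Chord hGap hSecB hBdSph
  have hSlab : St_Slab := I_Slab hSlabB hChord hJBS hK3 hTheta hSchA2 hClM hClE
  have hP2F3 : St_P2F3 := I_P2F3 hP2F2 hLvTub hLvSlice hLvPc hLvCir hLvRay hBsd hSchA2 hConnB hSlab hClC
  have hNeg : St_Neg := I_Neg
  have hP2 : St_P2 := I_P2 hP2S hP2F1 hP2F3 hNeg hCutT
  have hLvMain : St_LvMain := I_LvMain hLvMk hLvRay hP1a hP1b hP1c hP1T hP2 hCutT hK3 hSchA2 hLvCir hBsd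
  have hMain4 : St_Main4 := I_Main4 hGenV hNH hPPgen hBox hBxT hLvMain hSchA2
  have hSchPof : St_SchPof := I_SchPof hStdSides
  intro j h2 h4
  obtain rfl | rfl | rfl : j = 2 ∨ j = 3 ∨ j = 4 := by omega
  · refine hSchPof 0 (fun T u hT _ => ?_)
    exact hSchA1 (Fin 2 → ℚ) (by simp) T hT
  · refine hSchPof 1 (fun T u hT _ => ?_)
    exact hSchA2 (Fin 3 → ℚ) (by simp) T hT
  · refine hSchPof 2 (fun T u hT hu => ?_)
    exact hMain4 (Fin 4 → ℚ) T u (by simp) hT hu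

end Pool.Agent.Work.MP_552024_lc.PLS
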