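import Pool.Agent.Work.MP_552024_lc.PLS.Model

set_option autoImplicit false

namespace Pool.Agent.Work.MP_552024_lc.PLS

/-! Dimension of polyhedral sets, through coverings by subspaces. -/

variable {E : Type*} [AddCommGroup E] [Module ℚ E]
variable {E' : Type*} [AddCommGroup E'] [Module ℚ E']

/-- `D` is covered by finitely many subspaces of dimension at most `d`. -/
def CovLE (D : Set E) (d : ℕ) : Prop :=
  ∃ F : Set (Submodule ℚ E), F.Finite ∧ (∀ W ∈ F, Module.finrank ℚ W ≤ d) ∧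
    ∀ x ∈ D, ∃ W ∈ F, x ∈ W

theorem CovLE.mono {D D' : Set E} {d : ℕ} (h : CovLE D' d) (hD : D ⊆ D') : CovLE D d := by
  obtain ⟨F, h1, h2, h3⟩ := h
  exact ⟨F, h1, h2, fun x hx => h3 x (hD hx)⟩

theorem CovLE.union {D D' : Set E} {d : ℕ} (h : CovLE D d) (h' : CovLE D' d) :
    CovLE (D ∪ D') d := by
  obtain ⟨F, h1, h2, h3⟩ := h
  obtain ⟨F', h1', h2', h3'⟩ := h'
  refine ⟨F ∪ F', h1.union h1', ?_, ?_⟩
  · rintro W (hW | hW)
    · exact h2 W hW
    · exact h2' W hW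
  · rintro x (hx | hx)
    · obtain ⟨W, hW, hxW⟩ := h3 x hx
      exact ⟨W, Or.inl hW, hxW⟩
    · obtain ⟨W, hW, hxW⟩ := h3' x hx
      exact ⟨W, Or.inr hW, hxW⟩

theorem CovLE.image [FiniteDimensional ℚ E] {f : E → E'} {s : Set E} {d : ℕ} (hf : PLOn f s)
    (h : CovLE s d) : CovLE (f '' s) d := by
  obtain ⟨A, _, Λ, hΛ, H⟩ := hf
  obtain ⟨F, h1, h2, h3⟩ := h
  refine ⟨Set.image2 (fun L W => Submodule.map L W) Λ F, hΛ.image2 _ h1, ?_, ?_⟩
  · rintro _ ⟨L, _, W, hW, rfl⟩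
    exact (Submodule.finrank_map_le L W).trans (h2 W hW)
  · rintro _ ⟨x, hx, rfl⟩
    obtain ⟨L, hL, HL⟩ := H x hx
    obtain ⟨W, hW, hxW⟩ := h3 x hx
    refine ⟨_, ⟨L, hL, W, hW, rfl⟩, ?_⟩
    rw [HL x hx (mem_face_self A x)]
    exact Submodule.mem_map_of_mem hxW

/-- Generic points. -/
theorem exists_generic (Φ : Set (E →ₗ[ℚ] ℚ)) (hΦ : Φ.Finite) (hne : ∀ φ ∈ Φ, φ ≠ 0)
    {B : Set (E →ₗ[ℚ] ℚ)} (hB : B.Finite) (p : E) (hp : ∀ b ∈ B, 0 < b p) :
    ∃ q, (∀ b ∈ B, 0 < b q) ∧ ∀ φ ∈ Φ, φ q ≠ 0 := by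
  induction Φ, hΦ using Set.Finite.induction_on with
  | empty => exact ⟨p, hp, fun φ h => h.elim⟩
  | @insert φ Φ _ hΦ ih =>
    obtain ⟨q, hq1, hq2⟩ := ih (fun φ h => hne φ (Set.mem_insert_of_mem _ h))
    by_cases h0 : φ q = 0
    · have hφ : φ ≠ 0 := hne φ (Set.mem_insert _ _)
      obtain ⟨u, hu⟩ : ∃ u, φ u ≠ 0 := by
        by_contra hcon
        push Not at hcon
        exact hφ (LinearMap.ext hcon)
      obtain ⟨ε, hε, H⟩ := exists_small (hB.union hΦ) q (q + u)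
      obtain ⟨H1, _⟩ := H ε hε le_rfl
      rw [add_sub_cancel_left] at H1
      refine ⟨q + ε • u, ?_, ?_⟩
      · intro b hb
        rcases H1 b (Or.inl hb) with h1 | h1
        · exact absurd h1 (hq1 b hb).ne'
        · rw [sign_pos (hq1 b hb), eq_comm, sign_eq_one_iff] at h1; exact h1
      · intro ψ hψ
        rcases Set.mem_insert_iff.1 hψ with rfl | hψ
        · rw [map_add, h0, zero_add, map_smul, smul_eq_mul]
          exact mul_ne_zero hε.ne' hu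
        · intro h2
          rcases H1 ψ (Or.inr hψ) with h1 | h1
          · exact hq2 ψ hψ h1
          · rw [h2, sign_zero, sign_eq_zero_iff] at h1
            exact hq2 ψ hψ h1
    · refine ⟨q, hq1, fun ψ hψ => ?_⟩
      rcases Set.mem_insert_iff.1 hψ with rfl | hψ
      · exact h0
      · exact hq2 ψ hψ

/-- Generic points off finitely many proper subspaces. -/
theorem exists_generic' (F : Set (Submodule ℚ E)) (hF : F.Finite) (hne : ∀ W ∈ F, W ≠ ⊤)
    {B : Set (E →ₗ[ℚ] ℚ)} (hB : B.Finite) (p : E) (hp : ∀ b ∈ B, 0 < b p) :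
    ∃ q, (∀ b ∈ B, 0 < b q) ∧ ∀ W ∈ F, q ∉ W := by
  have h1 : ∀ W ∈ F, ∃ φ : E →ₗ[ℚ] ℚ, φ ≠ 0 ∧ ∀ x ∈ W, φ x = 0 := by
    intro W hW
    obtain ⟨φ, h1, h2⟩ := Submodule.exists_le_ker_of_lt_top W (lt_top_iff_ne_top.2 (hne W hW))
    exact ⟨φ, h1, fun x hx => h2 hx⟩
  choose! φ hφ1 hφ2 using h1
  obtain ⟨q, hq1, hq2⟩ := exists_generic (φ '' F) (hF.image _)
    (by rintro _ ⟨W, hW, rfl⟩; exact hφ1 W hW) hB p hp
  exact ⟨q, hq1, fun W hW hqW => hq2 _ ⟨W, hW, rfl⟩ (hφ2 W hW q hqW)⟩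

theorem covLE_Orth {k d : ℕ} (h : CovLE (Orth k) d) : k ≤ d := by
  by_contra hcon
  push Not at hcon
  obtain ⟨F, h1, h2, h3⟩ := h
  obtain ⟨q, hq1, hq2⟩ := exists_generic' F h1 (by
    intro W hW h4
    have h5 := h2 W hW
    rw [h4, finrank_top, Module.finrank_fin_fun] at h5
    omega) (Set.finite_range (crd k)) (fun _ => 1) (by
    rintro _ ⟨i, rfl⟩
    exact one_pos)
  obtain ⟨W, hW, hqW⟩ := h3 q (fun i => (hq1 (crd k i) ⟨i, rfl⟩).le)
  exact hq2 W hW hqW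

theorem Ball.covLE {k : ℕ} {C S : Set E} (h : Ball k C S) : CovLE C k := by
  obtain ⟨hC, hS, f, g, hfg, hi⟩ := h
  have h1 : CovLE (Orth k) k :=
    ⟨{⊤}, Set.finite_singleton _, by
      rintro W hW
      rw [Set.mem_singleton_iff.1 hW, finrank_top, Module.finrank_fin_fun], fun x _ => ⟨⊤, rfl, trivial⟩⟩
  have h2 := h1.image hfg.plf
  refine h2.mono (fun y hy => ⟨g y, hfg.mapsg y hy, hfg.fg y hy⟩)

theorem Ball.le_of_covLE [FiniteDimensional ℚ E] {k d : ℕ} {C S : Set E} (h : Ball k C S)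
    (hd : CovLE C d) : k ≤ d := by
  obtain ⟨hC, hS, f, g, hfg, hi⟩ := h
  apply covLE_Orth
  have h2 := hd.image hfg.plg
  refine h2.mono (fun x hx => ⟨f x, hfg.mapsf x hx, hfg.gf x hx⟩)

/-- The dimension lemma. -/
theorem dim_eq {j k : ℕ} (K : Set (Fin j → ℚ)) (B : Set ((Fin j → ℚ) →ₗ[ℚ] ℚ)) (hB : B.Finite)
    (hpt : ∀ x, (∀ b ∈ B, 0 ≤ b x) → (∀ b ∈ B, b x ≤ 0) → x = 0)
    (hKB : K ⊆ {x | ∀ b ∈ B, 0 < b x}) (hK : Pol Kᶜ) (hne : K.Nonempty)
    (hS : Sph k (cl K \ K)) : j = k + 1 := by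
  obtain ⟨p, hp⟩ := hne
  have h0K : (0 : Fin j → ℚ) ∉ K := hK.1
  have hKcon : Con K := by
    have := hK.con.compl
    rwa [compl_compl] at this
  have hj : j ≠ 0 := by
    rintro rfl
    exact h0K ((Subsingleton.elim p 0) ▸ hp)
  obtain ⟨D₁, D₂, U, hT, hU, hD₁, hD₂⟩ := hS
  have hD₁T : D₁ ⊆ cl K \ K := by rw [hT]; exact Set.subset_union_left
  -- the upper bound
  have hle : k ≤ j - 1 := by
    apply hD₁.le_of_covLE
    refine CovLE.mono ?_ hD₁T
    obtain ⟨_, 𝓐, h𝓐, hA⟩ := id hK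
    refine ⟨(fun a => LinearMap.ker a) '' {a ∈ 𝓐 | a ≠ 0},
      (h𝓐.subset (fun a ha => ha.1)).image _, ?_, ?_⟩
    · rintro _ ⟨a, ⟨_, ha0⟩, rfl⟩
      have := Module.Dual.finrank_ker_add_one_of_ne_zero ha0
      rw [Module.finrank_fin_fun] at this
      show Module.finrank ℚ (LinearMap.ker a) ≤ j - 1
      omega
    · rintro x ⟨hx, hxK⟩
      by_contra hcon
      push Not at hcon
      have hnz : ∀ a ∈ 𝓐, a ≠ 0 → a x ≠ 0 := fun a ha ha0 h1 =>
        hcon _ ⟨a, ⟨ha, ha0⟩, rfl⟩ h1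
      have hface := hA x hxK
      rcases hx with rfl | ⟨y, hy, hseg⟩
      · apply hface (a := p) ?_ hp
        intro a ha
        by_cases ha0 : a = 0
        · left; rw [ha0]; rfl
        · exact absurd (map_zero a) (hnz a ha ha0)
      · obtain ⟨ε, hε, hsm⟩ := exists_small h𝓐 x y
        set t := min ε 1 with ht
        have ht0 : 0 < t := lt_min hε one_pos
        obtain ⟨h1, _⟩ := hsm t ht0 (min_le_left _ _)
        apply hface ?_ (hseg t ht0 (min_le_right _ _))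
        intro a ha
        by_cases ha0 : a = 0
        · left; rw [ha0]; rfl
        · rcases h1 a ha with h3 | h3
          · exact absurd h3 (hnz a ha ha0)
          · exact Or.inr h3.symm
  -- the lower bound
  by_contra hne
  have hlt : k + 1 < j := by omega
  have hcov : CovLE (cl K \ K) k := by
    rw [hT]; exact hD₁.covLE.union hD₂.covLE
  obtain ⟨F, h1, h2, h3⟩ := hcov
  have hBne : B.Nonempty := by
    by_contra hcon
    rw [Set.not_nonempty_iff_eq_empty] at hcon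
    have := hpt p (by rw [hcon]; exact fun b hb => hb.elim) (by rw [hcon]; exact fun b hb => hb.elim)
    exact h0K (this ▸ hp)
  obtain ⟨b₀, hb₀⟩ := hBne
  obtain ⟨q, hq1, hq2⟩ := exists_generic' ((fun W => W ⊔ Submodule.span ℚ {p}) '' F)
    (h1.image _) (by
      rintro _ ⟨W, hW, rfl⟩ h4
      have h5 : Module.finrank ℚ (W ⊔ Submodule.span ℚ {p} : Submodule ℚ (Fin j → ℚ)) ≤ k + 1 := by
        refine (Submodule.finrank_add_le_finrank_add_finrank _ _).trans ?_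
        have := h2 W hW
        have h6 := finrank_span_le_card (R := ℚ) ({p} : Set (Fin j → ℚ))
        simp only [Set.toFinset_singleton, Finset.card_singleton] at h6
        omega
      have h4 : W ⊔ Submodule.span ℚ {p} = ⊤ := h4
      rw [h4, finrank_top, Module.finrank_fin_fun] at h5
      omega) (B := (fun b => -b) '' B) (hB.image _) (-p) (by
      rintro _ ⟨b, hb, rfl⟩
      show 0 < (-b) (-p)
      rw [LinearMap.neg_apply, map_neg, neg_neg]
      exact hKB hp b hb)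
  have hq3 : b₀ q < 0 := by
    have := hq1 _ ⟨b₀, hb₀, rfl⟩
    rw [LinearMap.neg_apply] at this
    linarith
  have hclK : cl K ⊆ {x | 0 ≤ b₀ x} :=
    (pol_halfspace b₀).cl_subset (fun x hx => (hKB hx b₀ hb₀).le)
  set s : Set (Fin j → ℚ) := {x | ∃ t : ℚ, 0 ≤ t ∧ t ≤ 1 ∧ x = p + t • (q - p)} with hs
  have hsc : Conn s := by
    refine conn_of_convex ⟨p, 0, le_rfl, zero_le_one, by simp⟩ ?_
    rintro x ⟨t, ht0, ht1, rfl⟩ y ⟨t', ht0', ht1', rfl⟩ r hr0 hr1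
    refine ⟨t + r * (t' - t), by nlinarith, by nlinarith, ?_⟩
    module
  have hex : ∃ x ∈ s, x ∈ cl K ∧ x ∉ K := by
    by_contra hcon
    push Not at hcon
    rcases hsc.2 (cl K) Kᶜ hKcon.pol_cl hK
      (fun x _ => by
        by_cases h5 : x ∈ K
        · exact Or.inl (subset_cl _ h5)
        · exact Or.inr h5)
      (fun x hx hx1 hx2 => hx2 (hcon x hx hx1)) with h5 | h5
    · have h6 : q ∈ cl K := h5 ⟨1, zero_le_one, le_rfl, by simp⟩
      exact absurd (hclK h6) (not_le.2 hq3)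
    · exact h5 (show p ∈ s from ⟨0, le_rfl, zero_le_one, by simp⟩) hp
  obtain ⟨x, ⟨t, ht0, ht1, rfl⟩, hx1, hx2⟩ := hex
  have ht : t ≠ 0 := by
    rintro rfl
    apply hx2; simpa using hp
  obtain ⟨W, hW, hxW⟩ := h3 _ ⟨hx1, hx2⟩
  apply hq2 _ ⟨W, hW, rfl⟩
  have h7 : q = (t⁻¹ • (p + t • (q - p))) + ((1 - t⁻¹) • p) := by
    have : t⁻¹ * t = 1 := inv_mul_cancel₀ ht
    rw [smul_add, smul_smul, this]
    module
  rw [h7]
  exact Submodule.add_mem_sup (W.smul_mem _ hxW)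
    (Submodule.smul_mem _ _ (Submodule.mem_span_singleton_self p))

end Pool.Agent.Work.MP_552024_lc.PLS
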