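import Pool.Agent.Work.MP_552024_lc.PLS.Zsets
import Pool.Agent.Work.MP_552024_lc.PLS.Dim

set_option autoImplicit false

namespace Pool.Agent.Work.MP_552024_lc.PLS

open Pool.Agent.MP552024

/-! The dimension of the model of a group whose relator has a zero set of dimension at most `d`. -/

theorem moment_top {k : ℕ} (W : Submodule ℝ (Fin k → ℝ))
    (h : Set.Infinite {m : ℕ | (fun i : Fin k => (m : ℝ) ^ (i : ℕ)) ∈ W}) : W = ⊤ := by
  classical
  by_contra hcon
  obtain ⟨φ, hφ, hW⟩ := Submodule.exists_le_ker_of_lt_top W (lt_top_iff_ne_top.2 hcon)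
  apply hφ
  set c : Fin k → ℝ := fun i => φ (Pi.single i 1) with hc
  have hx : ∀ x : Fin k → ℝ, φ x = ∑ i, x i * c i := by
    intro x
    conv_lhs => rw [pi_eq_sum_univ' x]
    rw [map_sum]
    exact Finset.sum_congr rfl (fun i _ => by rw [map_smul, smul_eq_mul])
  set p : Polynomial ℝ := ∑ i : Fin k, Polynomial.C (c i) * Polynomial.X ^ (i : ℕ) with hp
  have hp0 : p = 0 := by
    refine Polynomial.eq_zero_of_infinite_isRoot p ?_
    refine (h.image (f := fun m : ℕ => (m : ℝ)) (Nat.cast_injective.injOn)).mono ?_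
    rintro _ ⟨m, hm, rfl⟩
    have h1 := hW hm
    rw [LinearMap.mem_ker, hx] at h1
    show Polynomial.eval _ p = 0
    rw [hp, Polynomial.eval_finsetSum, ← h1]
    refine Finset.sum_congr rfl (fun i _ => ?_)
    simp only [Polynomial.eval_mul, Polynomial.eval_C, Polynomial.eval_pow, Polynomial.eval_X]
    ring
  have hci : ∀ i, c i = 0 := by
    intro i
    have h1 : p.coeff i = c i := by
      rw [hp, Polynomial.finsetSum_coeff, Finset.sum_eq_single i]
      · simp
      · intro j _ hj
        rw [Polynomial.coeff_C_mul_X_pow, if_neg]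
        intro h; exact hj (Fin.ext h.symm)
      · intro h; exact absurd (Finset.mem_univ _) h
    rw [← h1, hp0]; simp
  refine LinearMap.ext (fun x => ?_)
  rw [hx]
  simp [hci]

theorem face_card {n : ℕ} {f : (Fin n → ℝ) → ℝ} {G : Type} [AddCommGroup G] [Lattice G]
    {ψ : ((Fin n → ℝ) → ℝ) → G} (hP : Pres n f G ψ) (M : Mdl G) (t : M.V → Fin n → ℤ)
    (hQ : QTracks f ψ M t) {d : ℕ}
    (hD : ∃ F : Set (Submodule ℝ (Fin n → ℝ)), F.Finite ∧ (∀ W ∈ F, Module.finrank ℝ W ≤ d) ∧
      ∀ x, f x = 0 → ∃ W ∈ F, x ∈ W) (s : Finset M.V) (hs : M.Δ.face (s : Set M.V)) :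
    s.card ≤ d := by
  classical
  obtain ⟨hQ1, hQ2⟩ := hQ
  obtain ⟨F, hF, hF2, hF3⟩ := hD
  have hinj : ∀ z ∈ M.Δ.Z, ∀ z' ∈ M.Δ.Z,
      (∀ l, ∑ v, (t v l : ℝ) * z v = ∑ v, (t v l : ℝ) * z' v) → z = z' := by
    intro z hz z' hz' h
    funext v
    obtain ⟨g, hg⟩ := M.chart.hat v
    obtain ⟨a, ha, rfl⟩ := hP.2.1 g
    rw [← hg z hz, ← hg z' hz', hQ1 a ha z hz, hQ1 a ha z' hz']
    congr 1
    funext l
    exact h l
  set k := s.card with hk
  let e : s ≃ Fin k := s.equivFin
  -- extension by zero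
  let ext : (Fin k → ℝ) → M.V → ℝ := fun x v => if h : v ∈ s then x (e ⟨v, h⟩) else 0
  have hextZ : ∀ x : Fin k → ℝ, (∀ i, 0 ≤ x i) → ext x ∈ M.Δ.Z := by
    intro x hx
    refine Cx.mem_Z (fun v => ?_) _ hs (fun v hv => ?_)
    · show 0 ≤ dite _ _ _
      split_ifs
      · exact hx _
      · exact le_rfl
    · by_contra hcon
      apply hv
      show dite _ _ _ = _
      exact dif_neg (fun h => hcon (Finset.mem_coe.2 h))
  let L : (Fin k → ℝ) →ₗ[ℝ] (Fin n → ℝ) :=
    { toFun := fun x l => ∑ v, (t v l : ℝ) * ext x v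
      map_add' := by
        intro x y
        funext l
        simp only [Pi.add_apply]
        rw [← Finset.sum_add_distrib]
        refine Finset.sum_congr rfl (fun v _ => ?_)
        simp only [ext]
        split_ifs
        · simp only [Pi.add_apply]; ring
        · ring
      map_smul' := by
        intro r x
        funext l
        simp only [Pi.smul_apply, RingHom.id_apply, smul_eq_mul]
        rw [Finset.mul_sum]
        refine Finset.sum_congr rfl (fun v _ => ?_)
        simp only [ext]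
        split_ifs
        · simp only [Pi.smul_apply, smul_eq_mul]; ring
        · ring }
  have hL : ∀ x l, L x l = ∑ v, (t v l : ℝ) * ext x v := fun x l => rfl
  have hLinj : ∀ x, L x = 0 → x = 0 := by
    intro x hx
    set A := ∑ i, |x i| + 1 with hA
    have hApos : 0 < A := by positivity
    have h1 : ∀ i, 0 ≤ (1 : ℝ) + A⁻¹ * x i := by
      intro i
      have h2 : |x i| ≤ A := by
        have : |x i| ≤ ∑ i, |x i| :=
          Finset.single_le_sum (f := fun i => |x i|) (fun i _ => abs_nonneg _) (Finset.mem_univ i)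
        linarith
      have h3 : -A ≤ x i := by have := neg_abs_le (x i); linarith
      have h4 : A⁻¹ * (-A) ≤ A⁻¹ * x i := mul_le_mul_of_nonneg_left h3 (inv_pos.2 hApos).le
      have h5 : A⁻¹ * (-A) = -1 := by field_simp
      linarith
    have h2 := hinj (ext (fun i => 1 + A⁻¹ * x i)) (hextZ _ h1) (ext (fun _ => 1))
      (hextZ _ (fun _ => zero_le_one)) (fun l => by
        have h3 : L (fun i => 1 + A⁻¹ * x i) = L (fun _ => 1) + A⁻¹ • L x := by
          rw [← map_smul, ← map_add]
          congr 1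
        rw [hx, smul_zero, add_zero] at h3
        exact congrFun h3 l)
    funext i
    have h3 := congrFun h2 (e.symm i).1
    have h4 : ∀ y : Fin k → ℝ, ext y (e.symm i).1 = y i := by
      intro y
      refine (dif_pos (e.symm i).2).trans ?_
      exact congrArg y (e.apply_symm_apply i)
    have h6 := (h4 (fun i => 1 + A⁻¹ * x i)).symm.trans (h3.trans (h4 (fun _ => 1)))
    have h5 : A⁻¹ * x i = 0 := by
      have h7 : (1 : ℝ) + A⁻¹ * x i = 1 := h6
      linarith
    exact (mul_eq_zero.1 h5).resolve_left (inv_pos.2 hApos).ne'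
  have hcurve : ∀ m : ℕ, ∃ W ∈ F, L (fun i : Fin k => (m : ℝ) ^ (i : ℕ)) ∈ W := by
    intro m
    refine hF3 _ ?_
    exact hQ2 _ (hextZ (fun i : Fin k => (m : ℝ) ^ (i : ℕ)) (fun i => by positivity))
  choose W hW hW2 using hcurve
  have : Finite F := hF
  obtain ⟨W0, hW0⟩ := Finite.exists_infinite_fiber (fun s : ℕ => (⟨W s, hW s⟩ : F))
  have hinf : Set.Infinite {m : ℕ | (fun i : Fin k => (m : ℝ) ^ (i : ℕ)) ∈
      Submodule.comap L W0.1} := by
    have h1 : Set.Infinite ((fun s : ℕ => (⟨W s, hW s⟩ : F)) ⁻¹' {W0}) := Set.infinite_coe_iff.1 hW0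
    refine h1.mono ?_
    intro m hm
    have h2 : W m = W0.1 := congrArg Subtype.val hm
    show L _ ∈ W0.1
    rw [← h2]
    exact hW2 m
  have htop := moment_top _ hinf
  have h5 : Module.finrank ℝ (Fin k → ℝ) ≤ Module.finrank ℝ W0.1 := by
    refine LinearMap.finrank_le_finrank_of_injective (f := L.codRestrict W0.1 (fun x => ?_)) ?_
    · have : x ∈ Submodule.comap L W0.1 := by rw [htop]; trivial
      exact this
    · rw [← LinearMap.ker_eq_bot, LinearMap.ker_eq_bot']
      intro x hx
      exact hLinj x (congrArg Subtype.val hx)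
  rw [Module.finrank_fin_fun] at h5
  exact h5.trans (hF2 _ W0.2)

theorem cov_Qset {n : ℕ} {f : (Fin n → ℝ) → ℝ} {G : Type} [AddCommGroup G] [Lattice G]
    {ψ : ((Fin n → ℝ) → ℝ) → G} (hP : Pres n f G ψ) (M : Mdl G) (t : M.V → Fin n → ℤ)
    (hQ : QTracks f ψ M t) {d : ℕ}
    (hD : ∃ F : Set (Submodule ℝ (Fin n → ℝ)), F.Finite ∧ (∀ W ∈ F, Module.finrank ℝ W ≤ d) ∧
      ∀ x, f x = 0 → ∃ W ∈ F, x ∈ W) : CovLE (Qset M) d := by
  classical
  let E' : ∀ s : Finset M.V, (s → ℚ) →ₗ[ℚ] (M.V → ℚ) := fun s =>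
    { toFun := fun y v => if h : v ∈ s then y ⟨v, h⟩ else 0
      map_add' := by
        intro x y; funext v
        simp only [Pi.add_apply]
        split_ifs
        · rfl
        · rw [add_zero]
      map_smul' := by
        intro r x; funext v
        simp only [Pi.smul_apply, RingHom.id_apply, smul_eq_mul]
        split_ifs
        · rfl
        · rw [mul_zero] }
  refine ⟨(fun s : Finset M.V => LinearMap.range (E' s)) '' {s | M.Δ.face (s : Set M.V)},
    (Set.toFinite _).image _, ?_, ?_⟩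
  · rintro _ ⟨s, hs, rfl⟩
    refine (LinearMap.finrank_range_le (E' s)).trans ?_
    rw [Module.finrank_fintype_fun_eq_card, Fintype.card_coe]
    exact face_card hP M t hQ hD s hs
  · intro x hx
    obtain ⟨h1, h2⟩ := hx
    refine ⟨_, ⟨Finset.univ.filter (fun v => x v ≠ 0), ?_, rfl⟩, ?_⟩
    · show M.Δ.face _
      convert h2 using 1
      ext v
      simp [castR]
    · refine ⟨fun v => x v.1, ?_⟩
      funext v
      by_cases h : v ∈ Finset.univ.filter (fun v => x v ≠ 0)
      · exact dif_pos h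
      · refine (dif_neg h).trans ?_
        simp only [Finset.mem_filter, Finset.mem_univ, true_and, ne_eq, not_not] at h
        exact h.symm

end Pool.Agent.Work.MP_552024_lc.PLS
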