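import Pool.Agent.Work.MP_552024_lc.PLS.Dim

set_option autoImplicit false

namespace Pool.Agent.Work.MP_552024_lc.PLS

/-! Sets satisfying the formula are balls, given the Schoenflies property. -/

/-- Components of components. -/
theorem comp_comp {E : Type*} [AddCommGroup E] [Module ℚ E] [FiniteDimensional ℚ E]
    {M C F G m : Set E} (hC : Pol C) (hF : Pol F) (hG : Pol G) (hM : Comp M C F)
    (hm : Comp m M (F ∪ G)) : Comp m C (F ∪ G) := by
  refine ⟨hm.pol, hm.sub.trans hM.sub, hm.cl_eq, hm.conn, ?_⟩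
  rintro x ⟨hx, hxm⟩
  by_contra hxn
  have h1 : C \ (F ∪ G ∪ m) ⊆ (C \ (F ∪ M)) ∪ (M \ (F ∪ G ∪ m)) := by
    rintro y ⟨hy, hyn⟩
    by_cases hyM : y ∈ M
    · exact Or.inr ⟨hyM, hyn⟩
    · left
      refine ⟨hy, ?_⟩
      rintro (h2 | h2)
      · exact hyn (Or.inl (Or.inl h2))
      · exact hyM h2
  have h2 := cl_mono h1 hx
  rw [cl_union (hC.con.diff (hF.con.union hM.pol.con))
    (hM.pol.con.diff ((hF.con.union hG.con).union hm.pol.con))] at h2
  rcases h2 with h2 | h2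
  · exact hM.not_mem_cl (hm.sub hxm) (fun h3 => hxn (Or.inl h3)) h2
  · exact hxn (hm.rest ⟨h2, hxm⟩)

/-- Treelike decompositions into balls. -/
theorem lev_ball {E : Type} [AddCommGroup E] [Module ℚ E] [FiniteDimensional ℚ E] {k : ℕ}
    {C A : Set E} (hC : Pol C)
    (hfin : ∀ F M, Pol F → Comp M C F → M ∩ A ⊆ F → (∃ D₁ D₂, Pol D₁ ∧ Pol D₂ ∧ M ∩ F = D₁ ∪ D₂ ∧
      Ball (k + 1) D₁ (D₁ ∩ D₂) ∧ Ball (k + 1) D₂ (D₁ ∩ D₂)) → Ball (k + 2) M (M ∩ F)) (j : ℕ) :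
    ∀ F, Pol F → Lev (Ball (k + 1)) C A j F → ∀ M, Comp M C F → Ball (k + 2) M (M ∩ F) := by
  induction j with
  | zero =>
    intro F hF hL M hM
    obtain ⟨h1, h2⟩ := hL M hM
    exact hfin F M hF hM h1 h2
  | succ j ih =>
    rintro F hF ⟨G, hG, hGC, hgood, hL⟩ M hM
    refine ball_of_good (unionLemma (k + 1)) hF hG hM (hgood M hM) ?_
    intro m hm
    exact ih (F ∪ G) (hF.union hG) hL m (comp_comp hC hF hG hM hm)

section final

variable {E : Type} [AddCommGroup E] [Module ℚ E] [FiniteDimensional ℚ E]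

/-- The union of the non-maximal faces of `C`. -/
def Skel (C : Set E) (𝓑 : Set (E →ₗ[ℚ] ℚ)) : Set E :=
  {x | x ∈ C ∧ ∃ y ∈ C, x ∈ face 𝓑 y ∧ ¬ SameSign 𝓑 x y}

theorem pol_skel {C : Set E} {𝓑 : Set (E →ₗ[ℚ] ℚ)} (hC : Pol C) (hB : 𝓑.Finite)
    (hCB : ∀ y ∈ C, face 𝓑 y ⊆ C) (hpt : ∀ x : E, (∀ a ∈ 𝓑, a x = 0) → x = 0)
    (hne : ∃ y ∈ C, y ≠ 0) : Pol (Skel C 𝓑) := by
  refine ⟨⟨hC.1, ?_⟩, 𝓑, hB, ?_⟩
  · obtain ⟨y, hy, hy0⟩ := hne
    refine ⟨y, hy, zero_mem_face _ _, fun h => hy0 (hpt y fun a ha => ?_)⟩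
    have := h a ha
    rw [map_zero, sign_zero, eq_comm, sign_eq_zero_iff] at this
    exact this
  · rintro x ⟨hx, y, hy, hxy, hns⟩ x' hx'
    refine ⟨hCB x hx hx', y, hy, face_trans hx' hxy, fun hs => hns ?_⟩
    intro a ha
    rcases hxy a ha with h1 | h1
    · have h2 : a x' = 0 := by
        rcases hx' a ha with h3 | h3
        · exact h3
        · rw [h1, sign_zero, sign_eq_zero_iff] at h3; exact h3
      have h4 := hs a ha
      rw [h2, sign_zero] at h4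
      rw [h1, sign_zero, ← h4]
    · exact h1

theorem cl_skel {C : Set E} {𝓑 : Set (E →ₗ[ℚ] ℚ)} (hC : Pol C) (hB : 𝓑.Finite)
    (hCB : ∀ y ∈ C, face 𝓑 y ⊆ C) : cl (C \ Skel C 𝓑) = C := by
  apply subset_antisymm
  · exact hC.cl_subset Set.sdiff_subset
  · intro x hx
    -- choose a face above `x` with the largest number of nonzero forms
    have hfin : ∀ y : E, {a ∈ 𝓑 | a y ≠ 0}.Finite := fun y => hB.subset (fun a ha => ha.1)
    have hbd : ∀ y : E, {a ∈ 𝓑 | a y ≠ 0}.ncard ≤ 𝓑.ncard := fun y =>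
      Set.ncard_le_ncard (fun a ha => ha.1) hB
    have hex : ∃ n, ∃ y ∈ C, x ∈ face 𝓑 y ∧ 𝓑.ncard - {a ∈ 𝓑 | a y ≠ 0}.ncard = n :=
      ⟨_, x, hx, mem_face_self _ _, rfl⟩
    classical
    obtain ⟨y, hy, hxy, hn⟩ := Nat.find_spec hex
    have hmin : ∀ y' ∈ C, x ∈ face 𝓑 y' →
        {a ∈ 𝓑 | a y' ≠ 0}.ncard ≤ {a ∈ 𝓑 | a y ≠ 0}.ncard := by
      intro y' hy' hxy'
      have := Nat.find_min' hex ⟨y', hy', hxy', rfl⟩
      have h1 := hbd y'
      have h2 := hbd y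
      omega
    right
    refine ⟨y, ⟨hy, ?_⟩, ?_⟩
    · rintro ⟨_, y', hy', hyy', hns⟩
      have h3 := hmin y' hy' (face_trans hxy hyy')
      have h4 : {a ∈ 𝓑 | a y ≠ 0} ⊆ {a ∈ 𝓑 | a y' ≠ 0} := by
        rintro a ⟨ha, ha0⟩
        refine ⟨ha, fun h5 => ?_⟩
        rcases hyy' a ha with h6 | h6
        · exact ha0 h6
        · rw [h5, sign_zero, sign_eq_zero_iff] at h6
          exact ha0 h6
      have h5 : {a ∈ 𝓑 | a y ≠ 0} = {a ∈ 𝓑 | a y' ≠ 0} :=
        Set.eq_of_subset_of_ncard_le h4 h3 (hfin y')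
      apply hns
      intro a ha
      rcases hyy' a ha with h6 | h6
      · rw [h6, sign_zero, eq_comm, sign_eq_zero_iff]
        by_contra h7
        have : a ∈ {a ∈ 𝓑 | a y ≠ 0} := by rw [h5]; exact ⟨ha, h7⟩
        exact this.2 h6
      · exact h6
    · intro t h0 h1
      have hs := sameSign_segment hxy h0 h1
      refine ⟨hCB y hy hs.mem_face, ?_⟩
      rintro ⟨_, y', hy', hyy', hns⟩
      have hyy'' : y ∈ face 𝓑 y' := face_trans hs.symm.mem_face hyy'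
      have h3 := hmin y' hy' (face_trans hxy hyy'')
      have h4 : {a ∈ 𝓑 | a y ≠ 0} ⊆ {a ∈ 𝓑 | a y' ≠ 0} := by
        rintro a ⟨ha, ha0⟩
        refine ⟨ha, fun h5 => ?_⟩
        rcases hyy'' a ha with h6 | h6
        · exact ha0 h6
        · rw [h5, sign_zero, sign_eq_zero_iff] at h6
          exact ha0 h6
      have h5 : {a ∈ 𝓑 | a y ≠ 0} = {a ∈ 𝓑 | a y' ≠ 0} :=
        Set.eq_of_subset_of_ncard_le h4 h3 (hfin y')
      apply hns
      refine hs.trans ?_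
      intro a ha
      rcases hyy'' a ha with h6 | h6
      · rw [h6, sign_zero, eq_comm, sign_eq_zero_iff]
        by_contra h7
        have : a ∈ {a ∈ 𝓑 | a y ≠ 0} := by rw [h5]; exact ⟨ha, h7⟩
        exact this.2 h6
      · exact h6

/-- The cells of the last level are balls. -/
theorem final_cell {k : ℕ} (hS : SchP (k + 2)) {C : Set E} {𝓑 : Set (E →ₗ[ℚ] ℚ)} (hC : Pol C)
    (hB : 𝓑.Finite) (hCB : ∀ y ∈ C, face 𝓑 y ⊆ C) (hpt : ∀ x : E, (∀ a ∈ 𝓑, a x = 0) → x = 0)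
    (F M : Set E) (hF : Pol F) (hM : Comp M C F) (hMA : M ∩ Skel C 𝓑 ⊆ F)
    (hD : ∃ D₁ D₂, Pol D₁ ∧ Pol D₂ ∧ M ∩ F = D₁ ∪ D₂ ∧
      Ball (k + 1) D₁ (D₁ ∩ D₂) ∧ Ball (k + 1) D₂ (D₁ ∩ D₂)) : Ball (k + 2) M (M ∩ F) := by
  obtain ⟨z, hzM, hzF⟩ := hM.nonempty
  have hzC : z ∈ C := hM.sub hzM
  have hz0 : z ≠ 0 := fun h => hzF (h ▸ hF.1)
  -- `z` lies in a maximal face
  have hmax : ∀ y ∈ C, z ∈ face 𝓑 y → SameSign 𝓑 z y := by
    intro y hy hzy
    by_contra hns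
    exact hzF (hMA ⟨hzM, hzC, y, hy, hzy, hns⟩)
  have hK : ∀ x ∈ M \ F, SameSign 𝓑 x z := by
    have hP2 : Pol {x | x ∈ C ∧ ¬ SameSign 𝓑 x z} := by
      refine ⟨⟨hC.1, fun h => hz0 (hpt z fun a ha => ?_)⟩, 𝓑, hB, ?_⟩
      · have := h a ha
        rw [map_zero, sign_zero, eq_comm, sign_eq_zero_iff] at this
        exact this
      · rintro x ⟨hx, hns⟩ x' hx'
        refine ⟨hCB x hx hx', fun hs => hns ?_⟩
        exact (hmax x hx (face_trans hs.symm.mem_face hx')).symm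
    have hdis : ∀ x ∈ M \ F, x ∈ face 𝓑 z → x ∉ {x | x ∈ C ∧ ¬ SameSign 𝓑 x z} := by
      rintro x ⟨hxM, hxF⟩ hxz ⟨hxC, hns⟩
      exact hxF (hMA ⟨hxM, hxC, z, hzC, hxz, hns⟩)
    rcases hM.conn.2 _ _ (pol_face hB z) hP2 (by
      intro x hx
      by_cases h1 : SameSign 𝓑 x z
      · exact Or.inl h1.mem_face
      · exact Or.inr ⟨hM.sub hx.1, h1⟩) hdis with h1 | h1
    · intro x hx
      by_contra hns
      exact hdis x hx (h1 hx) ⟨hM.sub hx.1, hns⟩
    · exact absurd (fun _ _ => rfl) (h1 ⟨hzM, hzF⟩).2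
  have hKs : M \ F ⊆ face 𝓑 z := fun x hx => (hK x hx).mem_face
  have hMs : M ⊆ face 𝓑 z := by
    rw [← hM.cl_eq]; exact (pol_face hB z).cl_subset hKs
  -- the span
  let L : Submodule ℚ E :=
    { carrier := {x | ∀ a ∈ 𝓑, a z = 0 → a x = 0}
      add_mem' := by
        intro x y hx hy a ha h0
        rw [map_add, hx a ha h0, hy a ha h0, add_zero]
      zero_mem' := fun a _ _ => map_zero a
      smul_mem' := by
        intro c x hx a ha h0
        rw [map_smul, hx a ha h0, smul_zero] }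
  have hfL : ∀ x ∈ face 𝓑 z, x ∈ L := by
    intro x hx a ha h0
    rcases hx a ha with h1 | h1
    · exact h1
    · rw [h0, sign_zero, sign_eq_zero_iff] at h1; exact h1
  obtain ⟨j, hj⟩ : ∃ j, Module.finrank ℚ L = j := ⟨_, rfl⟩
  have e : L ≃ₗ[ℚ] (Fin j → ℚ) := LinearEquiv.ofFinrankEq L (Fin j → ℚ) (by
    rw [Module.finrank_fin_fun, hj])
  let ι : (Fin j → ℚ) →ₗ[ℚ] E := L.subtype ∘ₗ e.symm.toLinearMap
  have hιinj : Function.Injective ι := by
    intro u v huv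
    exact e.symm.injective (Subtype.ext huv)
  obtain ⟨ρ, hρ⟩ := LinearMap.exists_leftInverse_of_injective ι
    (LinearMap.ker_eq_bot.2 hιinj)
  have hρι : ∀ u, ρ (ι u) = u := fun u => LinearMap.congr_fun hρ u
  have hιL : ∀ u, ι u ∈ L := fun u => (e.symm u).2
  have hιρ : ∀ x ∈ L, ι (ρ x) = x := by
    intro x hx
    have h1 : ι (e ⟨x, hx⟩) = x := by
      show ((e.symm (e ⟨x, hx⟩)) : E) = x
      rw [LinearEquiv.symm_apply_apply]
    rw [← h1, hρι]
  set s' : Set (Fin j → ℚ) := {u | ι u ∈ face 𝓑 z} with hs'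
  have hs'p : Pol s' := by
    have := (plOn_linear ι Set.univ).pol_preimage pol_univ (pol_face hB z)
    convert this using 1
    ext u; simp [hs']
  have hinv : PLInv ρ ι (face 𝓑 z) s' :=
    ⟨plOn_linear _ _, plOn_linear _ _, fun x hx => by
      show ι (ρ x) ∈ face 𝓑 z
      rw [hιρ x (hfL x hx)]; exact hx, fun u hu => hu, fun x hx => hιρ x (hfL x hx),
      fun u _ => hρι u⟩
  have hfp := pol_face hB z
  have hKcon : Con (M \ F) := hM.pol.con.diff hF.con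
  set K' : Set (Fin j → ℚ) := ρ '' (M \ F) with hK'
  have hmemK' : ∀ u, u ∈ K' ↔ ι u ∈ M \ F := by
    intro u; constructor
    · rintro ⟨x, hx, rfl⟩
      rw [hιρ x (hfL x (hKs hx))]; exact hx
    · intro hu; exact ⟨ι u, hu, hρι u⟩
  have hclK' : cl K' = ρ '' M := by
    rw [hK', ← hinv.image_cl hfp hs'p hKs hKcon, hM.cl_eq]
  have hbd : cl K' \ K' = ρ '' (M ∩ F) := by
    rw [hclK', hK', ← hinv.image_diff hMs (Set.sdiff_subset.trans hMs), Set.sdiff_sdiff_right_self]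
  have hconn : Conn K' := hinv.conn_image hfp hKs hM.conn
  -- the forms
  set B' : Set ((Fin j → ℚ) →ₗ[ℚ] ℚ) := (fun a : E →ₗ[ℚ] ℚ => (a z) • (a.comp ι)) ''
    {a ∈ 𝓑 | a z ≠ 0} with hB'
  have hB'f : B'.Finite := (hB.subset (fun a ha => ha.1)).image _
  have hB'pt : ∀ x, (∀ b ∈ B', 0 ≤ b x) → (∀ b ∈ B', b x ≤ 0) → x = 0 := by
    intro u h1 h2
    apply hιinj
    rw [map_zero]
    apply hpt
    intro a ha
    by_cases h0 : a z = 0
    · exact hιL u a ha h0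
    · have h3 := h1 _ ⟨a, ⟨ha, h0⟩, rfl⟩
      have h4 := h2 _ ⟨a, ⟨ha, h0⟩, rfl⟩
      have h5 : a z * a (ι u) = 0 := le_antisymm h4 h3
      exact (mul_eq_zero.1 h5).resolve_left h0
  have hB'K : K' ⊆ {x | ∀ b ∈ B', 0 < b x} := by
    rintro u hu _ ⟨a, ⟨ha, h0⟩, rfl⟩
    show 0 < a z * a (ι u)
    exact (mul_pos_iff_sign h0).2 (hK _ ((hmemK' u).1 hu) a ha)
  have hB'ne : B'.Nonempty := by
    by_contra hcon
    rw [Set.not_nonempty_iff_eq_empty] at hcon
    apply hz0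
    apply hpt
    intro a ha
    by_contra h0
    have : (a z) • (a.comp ι) ∈ B' := ⟨a, ⟨ha, h0⟩, rfl⟩
    rw [hcon] at this
    exact this.elim
  -- the complement is closed
  have hK'c : Pol K'ᶜ := by
    have hR : Pol ((C ∩ F) ∪ cl (C \ (F ∪ M))) :=
      (hC.inter hF).union (hC.con.diff (hF.con.union hM.pol.con)).pol_cl
    have h1 : Pol {u | ι u ∈ face 𝓑 z ∩ ((C ∩ F) ∪ cl (C \ (F ∪ M)))} := by
      have := (plOn_linear ι Set.univ).pol_preimage pol_univ (hfp.inter hR)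
      convert this using 1
      ext u; simp
    have hfin : Finite B' := hB'f
    have hnon : Nonempty B' := hB'ne.to_subtype
    have h2 : Pol (⋃ b : B', {u | 0 ≤ (-(b : (Fin j → ℚ) →ₗ[ℚ] ℚ)) u}) :=
      pol_iUnion (fun b => pol_halfspace _)
    convert h1.union h2 using 1
    ext u
    constructor
    · intro hu
      by_cases hs : SameSign 𝓑 (ι u) z
      · left
        refine ⟨hs.mem_face, ?_⟩
        by_contra hn
        apply hu
        rw [hmemK']
        have huC : ι u ∈ C := hCB z hzC hs.mem_face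
        have h3 : ι u ∉ F := fun h4 => hn (Or.inl ⟨huC, h4⟩)
        refine ⟨?_, h3⟩
        by_contra h4
        apply hn
        right
        apply subset_cl
        refine ⟨huC, ?_⟩
        rintro (h5 | h5)
        · exact h3 h5
        · exact h4 h5
      · right
        rw [Set.mem_iUnion]
        have : ∃ a ∈ 𝓑, ¬ (SignType.sign (a (ι u)) = SignType.sign (a z)) := by
          by_contra hcon
          push Not at hcon
          exact hs hcon
        obtain ⟨a, ha, hne⟩ := this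
        have h0 : a z ≠ 0 := by
          intro h0
          apply hne
          rw [h0, hιL u a ha h0]
        refine ⟨⟨_, a, ⟨ha, h0⟩, rfl⟩, ?_⟩
        show 0 ≤ -(a z * a (ι u))
        have := mt (mul_pos_iff_sign h0).1 hne
        linarith
    · rintro (⟨_, hu⟩ | hu)
      · intro huK
        have h3 := (hmemK' u).1 huK
        rcases hu with hu | hu
        · exact h3.2 hu.2
        · exact hM.not_mem_cl h3.1 h3.2 hu
      · intro huK
        rw [Set.mem_iUnion] at hu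
        obtain ⟨b, hb⟩ := hu
        have h3 := hB'K huK b.1 b.2
        have hb : 0 ≤ -(b.1 u) := hb
        linarith
  -- the boundary is a sphere
  have hSph : Sph (k + 1) (cl K' \ K') := by
    obtain ⟨D₁, D₂, hD₁, hD₂, hMF, hb1, hb2⟩ := hD
    have hD₁s : D₁ ⊆ face 𝓑 z := fun x hx => hMs (by
      have : x ∈ M ∩ F := by rw [hMF]; exact Or.inl hx
      exact this.1)
    have hD₂s : D₂ ⊆ face 𝓑 z := fun x hx => hMs (by
      have : x ∈ M ∩ F := by rw [hMF]; exact Or.inr hx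
      exact this.1)
    have hIs : D₁ ∩ D₂ ⊆ face 𝓑 z := Set.inter_subset_left.trans hD₁s
    refine ⟨ρ '' D₁, ρ '' D₂, ρ '' (D₁ ∩ D₂), ?_, hinv.image_inter hD₁s hD₂s, ?_, ?_⟩
    · rw [hbd, hMF, Set.image_union]
    · exact hb1.transport (hinv.pol_image hs'p hD₁s hD₁) (hinv.restrict_image hD₁s)
        (Set.image_mono Set.inter_subset_left)
        (fun x hx => (hinv.mem_image hIs (hD₁s hx)).symm)
    · exact hb2.transport (hinv.pol_image hs'p hD₂s hD₂) (hinv.restrict_image hD₂s)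
        (Set.image_mono Set.inter_subset_right)
        (fun x hx => (hinv.mem_image hIs (hD₂s hx)).symm)
  have hdim := dim_eq K' B' hB'f hB'pt hB'K hK'c hconn.1 hSph
  have hbig : Ball (k + 2) (cl K') (cl K' \ K') := by
    clear_value K' B' s'
    subst hdim
    exact hS K' B' hB'f hB'pt hB'K hK'c hconn hSph
  rw [hbd, hclK'] at hbig
  have hMF : M ∩ F ⊆ face 𝓑 z := Set.inter_subset_left.trans hMs
  exact hbig.transport hM.pol (hinv.restrict_image hMs).symm Set.inter_subset_left (by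
    rintro _ ⟨x, hx, rfl⟩
    rw [hinv.mem_image hMF (hMs hx), hιρ x (hfL x (hMs hx))])

end final

/-- One-dimensional balls. -/
theorem ball_of_BB_one {E : Type} [AddCommGroup E] [Module ℚ E] [FiniteDimensional ℚ E]
    {C S : Set E} (h : BB 1 C S) : Ball 1 C S := by
  obtain ⟨rfl, hC, hne, hmin⟩ := h
  have h1 : ∃ v ∈ C, v ≠ 0 := by
    by_contra hcon
    push Not at hcon
    apply hne
    ext x; exact ⟨fun hx => hcon x hx, fun hx => by rw [Set.mem_singleton_iff.1 hx]; exact hC.1⟩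
  obtain ⟨v, hv, hv0⟩ := h1
  obtain ⟨ℓ, hℓ⟩ : ∃ ℓ : E →ₗ[ℚ] ℚ, ℓ v = 1 := by
    obtain ⟨ℓ', hℓ'⟩ : ∃ ℓ' : E →ₗ[ℚ] ℚ, ℓ' v ≠ 0 := by
      by_contra hcon
      push Not at hcon
      exact hv0 ((Module.forall_dual_apply_eq_zero_iff ℚ v).1 hcon)
    exact ⟨(ℓ' v)⁻¹ • ℓ', by rw [LinearMap.smul_apply, smul_eq_mul, inv_mul_cancel₀ hℓ']⟩
  set R : Set E := {x | 0 ≤ ℓ x} ∩ {x | x - ℓ x • v = 0} with hR
  have hRp : Pol R := by
    refine (pol_halfspace ℓ).inter ?_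
    have := (plOn_linear (LinearMap.id - ℓ.smulRight v : E →ₗ[ℚ] E) Set.univ).pol_preimage
      pol_univ pol_zero
    convert this using 1
    ext x; simp
  have hRC : R ⊆ C := by
    rintro x ⟨hx0, hx⟩
    have hx : x - ℓ x • v = 0 := hx
    have hx0 : 0 ≤ ℓ x := hx0
    have hx' : x = ℓ x • v := sub_eq_zero.1 hx
    obtain ⟨_, A, _, hA⟩ := hC
    apply hA v hv
    intro a _
    rcases hx0.eq_or_lt with h0 | h0
    · left; rw [hx', ← h0, zero_smul, map_zero]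
    · right; rw [hx', map_smul, smul_eq_mul, sign_mul, sign_pos h0, one_mul]
  have hvR : v ∈ R := ⟨by show 0 ≤ ℓ v; rw [hℓ]; exact zero_le_one, by
    show v - ℓ v • v = 0
    rw [hℓ, one_smul, sub_self]⟩
  have hRC' : R = C := by
    rcases hmin R hRp hRC with h2 | h2
    · rw [h2] at hvR; exact absurd hvR hv0
    · exact h2
  refine ⟨hC, ?_, (LinearMap.proj (0 : Fin 1) : (Fin 1 → ℚ) →ₗ[ℚ] ℚ).smulRight v,
    LinearMap.pi (fun _ => ℓ), ?_, ?_⟩
  · intro x hx; rw [Set.mem_singleton_iff.1 hx]; exact hC.1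
  · refine ⟨plOn_linear _ _, plOn_linear _ _, ?_, ?_, ?_, ?_⟩
    · intro x hx
      rw [← hRC']
      have h3 : ℓ (x 0 • v) = x 0 := by rw [map_smul, hℓ, smul_eq_mul, mul_one]
      refine ⟨?_, ?_⟩
      · show 0 ≤ ℓ (x 0 • v)
        rw [h3]; exact hx 0
      · show x 0 • v - ℓ (x 0 • v) • v = 0
        rw [h3, sub_self]
    · intro y hy i
      rw [← hRC'] at hy
      exact hy.1
    · intro x _
      ext i
      rw [Subsingleton.elim i 0]
      show ℓ (x 0 • v) = x 0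
      rw [map_smul, hℓ, smul_eq_mul, mul_one]
    · intro y hy
      rw [← hRC'] at hy
      show ℓ y • v = y
      exact (sub_eq_zero.1 hy.2).symm
  · intro x hx
    show x ∈ dOrth 1 ↔ x 0 • v = 0
    constructor
    · rintro ⟨_, i, hi⟩
      rw [Subsingleton.elim i 0] at hi
      rw [hi, zero_smul]
    · intro h3
      refine ⟨hx, 0, ?_⟩
      rcases smul_eq_zero.1 h3 with h4 | h4
      · exact h4
      · exact absurd h4 hv0

/-- Theorem B. -/
theorem ball_of_BB (k : ℕ) : (∀ j, 2 ≤ j → j ≤ k + 1 → SchP j) →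
    ∀ {E : Type} [AddCommGroup E] [Module ℚ E] [FiniteDimensional ℚ E]
    {C S : Set E}, BB (k + 1) C S → Ball (k + 1) C S := by
  induction k with
  | zero => intro _ E _ _ _ C S h; exact ball_of_BB_one h
  | succ k ih =>
    intro hSch E _ _ _ C S h
    obtain ⟨hC, hS, hSC, hcomp, hlev⟩ := h
    obtain ⟨_, A₀, hA₀, hCA₀⟩ := id hC
    obtain ⟨A₁, hA₁, hpt₁⟩ := exists_pointed E
    have hB : (A₀ ∪ A₁).Finite := hA₀.union hA₁
    have hCB : ∀ y ∈ C, face (A₀ ∪ A₁) y ⊆ C := fun y hy =>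
      (face_anti Set.subset_union_left y).trans (hCA₀ y hy)
    have hpt : ∀ x : E, (∀ a ∈ A₀ ∪ A₁, a x = 0) → x = 0 := fun x hx =>
      hpt₁ x (fun a ha => hx a (Or.inr ha))
    have hne : ∃ y ∈ C, y ≠ 0 := by
      obtain ⟨y, hy, hyS⟩ := hcomp.nonempty
      exact ⟨y, hy, fun h0 => hyS (h0 ▸ hS.1)⟩
    have hL := hlev (Skel C (A₀ ∪ A₁)) (pol_skel hC hB hCB hpt hne) (fun x hx => hx.1)
      (cl_skel hC hB hCB)
    have hL' := hL.mono (fun C' S' h' => ih (fun j h1 h2 => hSch j h1 (by omega)) h')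
    have := lev_ball hC (fun F M hF hM hMA hD =>
      final_cell (hSch (k + 2) (by omega) le_rfl) hC hB hCB hpt F M hF hM hMA hD)
      (k + 1) S hS hL' C hcomp
    rwa [Set.inter_eq_right.2 hSC] at this

end Pool.Agent.Work.MP_552024_lc.PLS
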