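import Pool.Agent.Work.MP_552024_lc.PLS.DefBB
import Pool.Agent.Work.MP_552024_lc.PLS.ThmB

set_option autoImplicit false

namespace Pool.Agent.Work.MP_552024_lc.PLS

open Pool.Agent.MP552024

/-! Elementary equivalence gives a piecewise linear isomorphism. -/

theorem transfer {G H : Type} [AddCommGroup G] [Lattice G] [IsOrderedAddMonoid G]
    [AddCommGroup H] [Lattice H] [IsOrderedAddMonoid H]
    (hT : @FirstOrder.Language.completeTheory L2 G (str G) =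
      @FirstOrder.Language.completeTheory L2 H (str H)) (M : Mdl G) (N : Mdl H) {ι : Type}
    [Finite ι] {p : Pr ι} (hp : LD p)
    (h : ∃ c : ι → Set (M.V → ℚ), Val (Qset M) c ∧ p M.V (Qset M) c) :
    ∃ c : ι → Set (N.V → ℚ), Val (Qset N) c ∧ p N.V (Qset N) c := by
  obtain ⟨P, hP, hPp⟩ := hp
  obtain ⟨c, hc, hpc⟩ := h
  have h1 : ∀ i, ∃ a : G, 0 ≤ a ∧ Zset M a = c i := fun i => exists_Zset M (hc.2 i).1 (hc.2 i).2
  choose a ha hac using h1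
  have hs : ∃ s : ι → G, (∀ i, 0 ≤ s i) ∧ P ⟨G⟩ s := by
    refine ⟨a, ha, (hPp ⟨G⟩ M a ha).2 ?_⟩
    have : (fun i => Zset M (a i)) = c := funext hac
    rw [this]; exact hpc
  have hD : Dfn (fun K (s : ι → K.K) => (∀ i, 0 ≤ s i) ∧ P K s) :=
    (Dfn.fall (fun i => Dfn.le DT.zero (DT.var i))).and hP
  obtain ⟨φ, hφ⟩ := Dfn.exs hD
  have hG := hφ ⟨G⟩ default
  have hH := hφ ⟨H⟩ default
  have h1 : φ ∈ @FirstOrder.Language.completeTheory L2 G (str G) := by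
    refine (@FirstOrder.Language.mem_completeTheory L2 G (str G) φ).2 ?_
    exact hG.2 hs
  rw [hT] at h1
  obtain ⟨s, hs0, hs⟩ := hH.1 ((@FirstOrder.Language.mem_completeTheory L2 H (str H) φ).1 h1)
  exact ⟨fun i => Zset N (s i), ⟨pol_Qset N, fun i => ⟨pol_Zset N _, Zset_sub N _⟩⟩,
    (hPp ⟨H⟩ N s hs0).1 hs⟩

theorem plinv_of_theory {G H : Type} [AddCommGroup G] [Lattice G] [IsOrderedAddMonoid G]
    [AddCommGroup H] [Lattice H] [IsOrderedAddMonoid H]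
    (hT : @FirstOrder.Language.completeTheory L2 G (str G) =
      @FirstOrder.Language.completeTheory L2 H (str H)) (M : Mdl G) (N : Mdl H) (d : ℕ)
    (hSch : ∀ j, 2 ≤ j → j ≤ d → SchP j) (hd : CovLE (Qset M) d) :
    ∃ f : (M.V → ℚ) → (N.V → ℚ), ∃ g : (N.V → ℚ) → (M.V → ℚ), PLInv f g (Qset M) (Qset N) := by
  obtain ⟨ι, _, _, i0, dd, c, hi0, hc, hcQ⟩ := exists_cells (pol_Qset M)
  have hcs : ∀ i, c i ⊆ Qset M := fun i => by rw [← hcQ]; exact Set.subset_iUnion c i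
  have hdd : ∀ i, i ≠ i0 → dd i ≤ d := by
    intro i hi
    obtain ⟨_, h2⟩ := hc.cell i hi
    exact Ball.le_of_covLE h2 (hd.mono (hcs i))
  have hBB : Cells i0 dd (fun k => BB k) c := by
    refine ⟨hc.pol, hc.zero, hc.inter, fun i hi => ?_⟩
    obtain ⟨h1, h2⟩ := hc.cell i hi
    refine ⟨h1, ?_⟩
    obtain ⟨k, hk⟩ : ∃ k, dd i = k + 1 := ⟨dd i - 1, by omega⟩
    rw [hk] at h2 ⊢
    exact BB_of_ball k h2
  obtain ⟨c', hc', hC', hQ'⟩ := transfer hT M N (LD.cells i0 hi0 dd)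
    ⟨c, ⟨pol_Qset M, fun i => ⟨hc.pol i, hcs i⟩⟩, hBB, hcQ.ge⟩
  have hball : Cells i0 dd (fun k => Ball k) c' := by
    refine ⟨hC'.pol, hC'.zero, hC'.inter, fun i hi => ?_⟩
    obtain ⟨h1, h2⟩ := hC'.cell i hi
    refine ⟨h1, ?_⟩
    have h3 := hdd i hi
    obtain ⟨k, hk⟩ : ∃ k, dd i = k + 1 := ⟨dd i - 1, by omega⟩
    rw [hk] at h2 h3 ⊢
    exact ball_of_BB k (fun j hj hjk => hSch j hj (hjk.trans h3)) h2
  have hU : ⋃ i, c' i = Qset N := subset_antisymm (Set.iUnion_subset (fun i => (hc'.2 i).2)) hQ'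
  obtain ⟨f, g, hfg⟩ := assemble hi0 hc hball
  rw [hcQ, hU] at hfg
  exact ⟨f, g, hfg⟩

end Pool.Agent.Work.MP_552024_lc.PLS
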