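import Pool.Agent.Work.MP_552024_lc.PLS.Bey3

set_option autoImplicit false

namespace Pool.Agent.Work.MP_552024_lc.PLS

open Pool.Agent.MP552024

/-! Piecewise linear isomorphic models have isomorphic groups. -/

theorem isClosed_Z {V : Type} [Fintype V] (Δ : Cx V) : IsClosed Δ.Z := by
  classical
  have h1 : Δ.Z = ⋃ s ∈ {s : Finset V | Δ.face (s : Set V)},
      {z : V → ℝ | (∀ i, 0 ≤ z i) ∧ ∀ i, i ∉ s → z i = 0} := by
    ext z
    simp only [Set.mem_iUnion, Set.mem_ofPred_eq, exists_prop]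
    constructor
    · rintro ⟨h1, h2⟩
      refine ⟨Finset.univ.filter (fun i => z i ≠ 0), ?_, h1, fun i hi => by simpa using hi⟩
      convert h2 using 1
      ext i; simp
    · rintro ⟨s, hs, h1, h2⟩
      exact ⟨h1, Δ.down _ _ (fun i hi => by
        by_contra hcon
        exact hi (h2 i (fun h => hcon (Finset.mem_coe.2 h)))) hs⟩
  rw [h1]
  refine Set.Finite.isClosed_biUnion (Set.toFinite _) (fun s _ => ?_)
  have h2 : {z : V → ℝ | (∀ i, 0 ≤ z i) ∧ ∀ i, i ∉ s → z i = 0} =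
      (⋂ i, {z : V → ℝ | 0 ≤ z i}) ∩ ⋂ i, ⋂ (_ : i ∉ s), {z : V → ℝ | z i = 0} := by
    ext z; simp
  rw [h2]
  refine IsClosed.inter (isClosed_iInter (fun i => ?_)) (isClosed_iInter (fun i =>
    isClosed_iInter (fun _ => ?_)))
  · exact isClosed_le continuous_const (continuous_apply i)
  · exact isClosed_eq (continuous_apply i) continuous_const

/-- density of the rational points -/
theorem mem_of_rat {V : Type} [Fintype V] {Δ : Cx V} {C : Set (V → ℝ)} (hC : IsClosed C)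
    (h : ∀ x ∈ StK ℚ Δ, castR x ∈ C) {z : V → ℝ} (hz : z ∈ Δ.Z) : z ∈ C := by
  classical
  rw [← hC.closure_eq, Metric.mem_closure_iff]
  intro ε hε
  have h1 : ∀ i, ∃ r : ℚ, 0 ≤ r ∧ |z i - (r : ℝ)| < ε ∧ (z i = 0 → r = 0) := by
    intro i
    by_cases hi : z i = 0
    · exact ⟨0, le_rfl, by simpa [hi] using hε, fun _ => rfl⟩
    · have hpos : 0 < z i := lt_of_le_of_ne (hz.1 i) (Ne.symm hi)
      obtain ⟨r, hr1, hr2⟩ := exists_rat_btwn (show z i < z i + ε by linarith)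
      refine ⟨r, ?_, ?_, fun h => absurd h hi⟩
      · have : (0 : ℝ) < r := hpos.trans hr1
        exact_mod_cast this.le
      · rw [abs_lt]; constructor <;> linarith
  choose r hr0 hr1 hr2 using h1
  refine ⟨castR r, h r ⟨hr0, Δ.down _ _ (fun i hi h => hi (hr2 i h)) hz.2⟩, ?_⟩
  rw [dist_pi_lt_iff hε]
  intro i
  rw [Real.dist_eq]
  exact hr1 i

theorem LP_ev_eq {G : Type} [AddCommGroup G] [Lattice G] (M : Mdl G) (g : G) :
    ∃ b ∈ LP M.V, ∀ z ∈ M.Δ.Z, M.ev g z = b z := M.chart.mem g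

/-- the realised group has a chart on the complex -/
theorem chart_of_unim {H : Type} [AddCommGroup H] [Lattice H] [IsOrderedAddMonoid H] (N : Mdl H)
    {V : Type} [Fintype V] {Δ : Cx V} {w : V → N.V → ℤ} (h : Rlz (Qset N) Δ w)
    (hu : Unim Δ w) : ∃ ev' : H → (V → ℝ) → ℝ, IsChart Δ ev' := by
  classical
  obtain ⟨g, hg⟩ := h.inv
  -- coordinates of the inverse
  have h1 : ∀ i, ∃ k : H, ∀ x ∈ Qset N, N.ev k (castR x) = (g x i : ℝ) := by
    intro i
    refine exists_elt N (h := fun x => g x i) ?_ ?_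
    · exact hg.plg.lin (LinearMap.proj i : (V → ℚ) →ₗ[ℚ] ℚ)
    · intro x hx hxi
      exact hu _ (hg.mapsg x hx) (by rw [hg.fg x hx]; exact hxi) i
  choose k hk using h1
  choose b hb hkb using (fun i => N.chart.mem (k i))
  have hbx : ∀ i, ∀ x ∈ Qset N, b i (castR x) = (g x i : ℝ) := fun i x hx => by
    rw [← hkb i _ hx, hk i x hx]
  let T : (V → ℝ) → N.V → ℝ := fun z u => ∑ v, (w v u : ℝ) * z v
  have hT : ∀ x, T (castR x) = castR (Wm w x) := by
    intro x
    funext u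
    show ∑ v, (w v u : ℝ) * castR x v = ((∑ v, x v * (w v u : ℚ) : ℚ) : ℝ)
    push_cast
    exact Finset.sum_congr rfl (fun v _ => by rw [mul_comm]; rfl)
  have hTLP : ∀ u, (fun z => T z u) ∈ LP V := fun u => LP_lin _
  have hTc : Continuous T := continuous_pi (fun u => LP_cont (hTLP u))
  let R : (N.V → ℝ) → V → ℝ := fun z i => b i z
  have hRc : Continuous R := continuous_pi (fun i => LP_cont (hb i))
  have hR : ∀ x ∈ Qset N, R (castR x) = castR (g x) := fun x hx => funext (fun i => hbx i x hx)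
  have hQ : Qset N = StK ℚ N.Δ := Qset_eq N
  refine ⟨_, N.chart.transport T R hTLP hb ?_ ?_ ?_ ?_⟩
  · intro z hz
    refine mem_of_rat (C := T ⁻¹' N.Δ.Z) ((isClosed_Z N.Δ).preimage hTc) (fun x hx => ?_) hz
    show T (castR x) ∈ N.Δ.Z
    rw [hT]
    exact hg.mapsf x hx
  · intro z hz
    refine mem_of_rat (C := R ⁻¹' Δ.Z) ((isClosed_Z Δ).preimage hRc) (fun x hx => ?_) hz
    rw [← hQ] at hx
    show R (castR x) ∈ Δ.Z
    rw [hR x hx]
    exact (mem_StK_iff _ _).1 (hg.mapsg x hx)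
  · intro z hz
    refine mem_of_rat (C := {z | R (T z) = z}) (isClosed_eq (hRc.comp hTc) continuous_id)
      (fun x hx => ?_) hz
    show R (T (castR x)) = castR x
    rw [hT, hR _ (hg.mapsf x hx), hg.gf x hx]
  · intro z hz
    refine mem_of_rat (C := {z | T (R z) = z}) (isClosed_eq (hTc.comp hRc) continuous_id)
      (fun x hx => ?_) hz
    rw [← hQ] at hx
    show T (R (castR x)) = castR x
    rw [hR x hx, hT, hg.fg x hx]

/-- primitive positive multiples -/
theorem exists_primitive {U : Type} [Fintype U] {x : U → ℚ} (hx : x ≠ 0) :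
    ∃ (r : ℚ) (w : U → ℤ), 0 < r ∧ (∀ u, r * x u = w u) ∧
      ∀ s : ℚ, 0 < s → s < 1 → ¬ IsInt (fun u => s * (w u : ℚ)) := by
  classical
  obtain ⟨i, hi⟩ : ∃ i, x i ≠ 0 := by
    by_contra hcon
    push Not at hcon
    exact hx (funext hcon)
  let P : ℕ → Prop := fun n => ∃ (r : ℚ) (w : U → ℤ), 0 < r ∧ (∀ u, r * x u = w u) ∧
    (w i).natAbs = n
  have hP : ∃ n, P n := by
    refine ⟨_, ((∏ u, (x u).den : ℕ) : ℚ), fun u => (((∏ u, (x u).den : ℕ) / (x u).den : ℕ) : ℤ) *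
      (x u).num, ?_, ?_, rfl⟩
    · exact_mod_cast Finset.prod_pos (fun u _ => (x u).pos)
    · intro u
      obtain ⟨m, hm⟩ : (x u).den ∣ ∏ u, (x u).den := Finset.dvd_prod_of_mem _ (Finset.mem_univ u)
      beta_reduce
      rw [hm, Nat.mul_div_cancel_left _ (x u).pos]
      push_cast
      have h2 : ((x u).den : ℚ) * x u = (x u).num := by rw [mul_comm]; exact Rat.mul_den_eq_num _
      rw [← h2]; ring
  obtain ⟨r, w, hr, hw, hn⟩ := Nat.find_spec hP
  refine ⟨r, w, hr, hw, fun s hs0 hs1 hint => ?_⟩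
  choose w' hw' using hint
  have h1 : P (w' i).natAbs := by
    refine ⟨s * r, w', mul_pos hs0 hr, fun u => ?_, rfl⟩
    rw [mul_assoc, hw u]; exact hw' u
  have h2 : Nat.find hP ≤ (w' i).natAbs := Nat.find_min' hP h1
  rw [← hn] at h2
  have h3 : (w i : ℚ) ≠ 0 := by rw [← hw i]; exact mul_ne_zero hr.ne' hi
  have h4 : |(w' i : ℚ)| < |(w i : ℚ)| := by
    rw [← hw' i, abs_mul, abs_of_pos hs0]
    have := abs_pos.2 h3
    nlinarith
  have h5 : |w' i| < |w i| := by exact_mod_cast h4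
  have h6 : (w' i).natAbs < (w i).natAbs := by
    rw [← Int.natCast_natAbs, ← Int.natCast_natAbs] at h5
    exact_mod_cast h5
  omega

theorem beynon {G H : Type} [AddCommGroup G] [Lattice G] [IsOrderedAddMonoid G]
    [AddCommGroup H] [Lattice H] [IsOrderedAddMonoid H] (M : Mdl G) (N : Mdl H)
    {f : (M.V → ℚ) → (N.V → ℚ)} {g : (N.V → ℚ) → (M.V → ℚ)} (hfg : PLInv f g (Qset M) (Qset N)) :
    ∃ e : G ≃+ H, ∀ a b : G, e a ≤ e b ↔ a ≤ b := by
  classical
  obtain ⟨K, _, T, g', hT, hTi, hTf, _⟩ := exists_refine M hfg.plf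
  have h0 : f 0 = 0 := hfg.plf.zero (pol_Qset M).1
  have hne : ∀ i, f (T (Pi.single i 1)) ≠ 0 := by
    intro i hi
    have h1 := hT.mapsf _ (Qset_single K i)
    have h2 : T (Pi.single i 1) = 0 := by
      rw [← hfg.gf _ h1, hi, ← h0, hfg.gf 0 (pol_Qset M).1]
    have h3 : (Pi.single i 1 : K.V → ℚ) = 0 := by
      rw [← hT.gf _ (Qset_single K i), h2, ← map_zero T, hT.gf 0 (pol_Qset K).1]
    have h4 := congrFun h3 i
    simp at h4
  choose r w hr hw hprim using (fun i => exists_primitive (hne i))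
  have hS : PLInv (fun (z : K.V → ℚ) i => r i * z i) (fun z i => (r i)⁻¹ * z i) (StK ℚ K.Δ)
      (StK ℚ K.Δ) := by
    have hmem : ∀ (c : K.V → ℚ), (∀ i, 0 < c i) → ∀ z ∈ StK ℚ K.Δ,
        (fun i => c i * z i) ∈ StK ℚ K.Δ := by
      intro c hc z hz
      refine ⟨fun i => mul_nonneg (hc i).le (hz.1 i), K.Δ.down _ _ ?_ hz.2⟩
      intro i hi h
      apply hi
      show c i * z i = 0
      rw [h, mul_zero]
    have hpl : ∀ (c : K.V → ℚ), PLOn (fun (z : K.V → ℚ) i => c i * z i) (StK ℚ K.Δ) := by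
      intro c
      refine PLOn.pi (fun i => ?_)
      exact ((plOn_linear (LinearMap.proj i : (K.V → ℚ) →ₗ[ℚ] ℚ) _).smul (c i)).congr
        (fun x _ => rfl)
    refine ⟨hpl r, hpl (fun i => (r i)⁻¹), hmem r hr, hmem _ (fun i => inv_pos.2 (hr i)), ?_, ?_⟩
    · intro z _
      funext i
      show (r i)⁻¹ * (r i * z i) = z i
      rw [← mul_assoc, inv_mul_cancel₀ (hr i).ne', one_mul]
    · intro z _
      funext i
      show r i * ((r i)⁻¹ * z i) = z i
      rw [← mul_assoc, mul_inv_cancel₀ (hr i).ne', one_mul]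
  have hK : Qset K = StK ℚ K.Δ := Qset_eq K
  rw [hK] at hT hTf
  have hR : Rlz (Qset N) K.Δ w := by
    refine ⟨⟨_, (hS.trans (hT.trans hfg)).congr (fun z hz => ?_)⟩, hprim⟩
    funext u
    rw [hTf _ (hS.mapsf z hz), Finset.sum_apply, Wm_apply]
    refine Finset.sum_congr rfl (fun i _ => ?_)
    rw [Pi.smul_apply, smul_eq_mul, ← hw i u]
    ring
  set m : ℕ := ∑ s : Set K.V, (Gs w s).ncard with hm
  have hle : ∀ s, K.Δ.face s → (Gs w s).ncard ≤ m := fun s _ =>
    Finset.single_le_sum (f := fun s : Set K.V => (Gs w s).ncard) (fun _ _ => Nat.zero_le _)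
      (Finset.mem_univ s)
  obtain ⟨V', _, Δ', w', h1, ⟨ev, h2⟩, h3⟩ := desing
    (fun (V : Type) (Δ : Cx V) => ∃ ev : G → (V → ℝ) → ℝ, IsChart Δ ev)
    (fun V Δ τ hτ h2 ⟨ev, hev⟩ => chart_star hev τ hτ h2) m _ K.V K.Δ w hR ⟨_, K.chart⟩ hle le_rfl
  obtain ⟨ev', h4⟩ := chart_of_unim N h1 h3
  exact iso_of_charts h2 h4

end Pool.Agent.Work.MP_552024_lc.PLS
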