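import Pool.Agent.Work.MP_552024_lc.PLS.Transp

set_option autoImplicit false

namespace Pool.Agent.Work.MP_552024_lc.PLS

variable {E : Type*} [AddCommGroup E] [Module ℚ E] [FiniteDimensional ℚ E]

theorem con_sUnion {S : Set (Set E)} (hS : S.Finite) (h : ∀ s ∈ S, Con s) : Con (⋃₀ S) := by
  induction S, hS using Set.Finite.induction_on with
  | empty =>
    rw [Set.sUnion_empty]
    exact ⟨∅, Set.finite_empty, fun x y _ hx => hx.elim⟩
  | @insert a S _ _ ih =>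
    rw [Set.sUnion_insert]
    exact (h a (Set.mem_insert _ _)).union (ih (fun s hs => h s (Set.mem_insert_of_mem _ hs)))

theorem mem_cl_sUnion {S : Set (Set E)} (hS : S.Finite) (h : ∀ s ∈ S, Con s) {x : E}
    (hx : x ∈ cl (⋃₀ S)) : x = 0 ∨ ∃ s ∈ S, x ∈ cl s := by
  induction S, hS using Set.Finite.induction_on with
  | empty =>
    rw [Set.sUnion_empty, cl_empty] at hx
    exact Or.inl hx
  | @insert a S _ hS ih =>
    rw [Set.sUnion_insert, cl_union (h a (Set.mem_insert _ _))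
      (con_sUnion hS (fun s hs => h s (Set.mem_insert_of_mem _ hs)))] at hx
    rcases hx with hx | hx
    · exact Or.inr ⟨a, Set.mem_insert _ _, hx⟩
    · rcases ih (fun s hs => h s (Set.mem_insert_of_mem _ hs)) hx with h1 | ⟨s, hs, h1⟩
      · exact Or.inl h1
      · exact Or.inr ⟨s, Set.mem_insert_of_mem _ hs, h1⟩

/-- A finite partition of `C \ F` into connected relatively closed sets gives the components. -/
theorem comp_iff_of_partition {C F : Set E} (hC : Pol C) (hF : Pol F) {𝓞 : Set (Set E)}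
    (hfin : 𝓞.Finite) (hcon : ∀ O ∈ 𝓞, Con O) (hconn : ∀ O ∈ 𝓞, Conn O)
    (hcover : ∀ x, x ∈ C → x ∉ F → ∃ O ∈ 𝓞, x ∈ O) (hsub : ∀ O ∈ 𝓞, O ⊆ C \ F)
    (hclosed : ∀ O ∈ 𝓞, cl O \ F ⊆ O)
    (hdisj : ∀ O ∈ 𝓞, ∀ O' ∈ 𝓞, (O ∩ O').Nonempty → O = O') (M : Set E) :
    Comp M C F ↔ ∃ O ∈ 𝓞, M = cl O := by
  have key : ∀ O ∈ 𝓞, Comp (cl O) C F := by
    intro O hO
    have h1 : cl O \ F = O :=
      subset_antisymm (hclosed O hO) (fun x hx => ⟨subset_cl _ hx, (hsub O hO hx).2⟩)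
    refine ⟨(hcon O hO).pol_cl, hC.cl_subset (fun x hx => (hsub O hO hx).1), by rw [h1],
      by rw [h1]; exact hconn O hO, ?_⟩
    rintro x ⟨hx, hxO⟩
    by_contra hxF
    have hxO' : x ∈ O := hclosed O hO ⟨hxO, hxF⟩
    have h2 : C \ (F ∪ cl O) ⊆ ⋃₀ (𝓞 \ {O}) := by
      rintro y ⟨hyC, hyn⟩
      obtain ⟨O', hO', hyO'⟩ := hcover y hyC (fun hh => hyn (Or.inl hh))
      refine ⟨O', ⟨hO', ?_⟩, hyO'⟩
      rintro rfl
      exact hyn (Or.inr (subset_cl _ hyO'))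
    rcases mem_cl_sUnion (hfin.subset Set.sdiff_subset) (fun s hs => hcon s hs.1)
      (cl_mono h2 hx) with h3 | ⟨O', ⟨hO', hne⟩, h3⟩
    · exact hxF (h3 ▸ hF.1)
    · exact hne (hdisj O' hO' O hO ⟨x, hclosed O' hO' ⟨h3, hxF⟩, hxO'⟩)
  constructor
  · intro hM
    obtain ⟨x, hx, hxF⟩ := hM.nonempty
    obtain ⟨O, hO, hxO⟩ := hcover x (hM.sub hx) hxF
    exact ⟨O, hO, hM.eq_of_meet hC hF (key O hO) ⟨x, ⟨hx, hxF⟩, subset_cl _ hxO, hxF⟩⟩
  · rintro ⟨O, hO, rfl⟩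
    exact key O hO

theorem cl_cell {B : Set (E →ₗ[ℚ] ℚ)} (hB : B.Finite) (z : E) :
    cl {x | SameSign B x z} = face B z := by
  ext x
  rw [mem_cl_iff hB (s := {x | SameSign B x z}) (fun x y hxy hx => hxy.symm.trans hx)]
  constructor
  · rintro (rfl | ⟨y, hy, hxy⟩)
    · exact zero_mem_face _ _
    · exact face_trans hxy (SameSign.mem_face hy)
  · intro hx
    exact Or.inr ⟨z, fun a _ => rfl, hx⟩

theorem con_cell {B : Set (E →ₗ[ℚ] ℚ)} (hB : B.Finite) (z : E) : Con {x | SameSign B x z} :=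
  ⟨B, hB, fun _ _ hxy hx => hxy.symm.trans hx⟩

/-- Components of a union of chambers. -/
theorem arr_comp {B : Set (E →ₗ[ℚ] ℚ)} (hB : B.Finite) {C F : Set E} (hC : Pol C) (hF : Pol F)
    (h1 : ∀ x ∈ C, (x ∈ F ↔ ∃ b ∈ B, b x = 0)) (h2 : ∀ x ∈ C, x ∉ F → face B x ⊆ C) (M : Set E) :
    Comp M C F ↔ ∃ z, z ∈ C ∧ z ∉ F ∧ M = face B z := by
  obtain ⟨R, hR, hRs, hRr⟩ := exists_reps hB (C \ F)
  have hcell : ∀ z ∈ C \ F, ∀ x, x ∈ face B z → x ∉ F → SameSign B x z := by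
    intro z hz x hx hxF b hb
    rcases hx b hb with h3 | h3
    · exact absurd ((h1 x (h2 z hz.1 hz.2 hx)).2 ⟨b, hb, h3⟩) hxF
    · exact h3
  have hsame : ∀ z ∈ C \ F, ∀ x, SameSign B x z → x ∈ C \ F := by
    intro z hz x hx
    have hxC : x ∈ C := h2 z hz.1 hz.2 (SameSign.mem_face hx)
    refine ⟨hxC, fun hxF => ?_⟩
    obtain ⟨b, hb, hb0⟩ := (h1 x hxC).1 hxF
    have h3 := hx b hb
    rw [hb0, sign_zero] at h3
    exact hz.2 ((h1 z hz.1).2 ⟨b, hb, sign_eq_zero_iff.1 h3.symm⟩)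
  rw [comp_iff_of_partition hC hF (𝓞 := (fun z => {x | SameSign B x z}) '' R) (hR.image _)
    (by rintro _ ⟨z, hz, rfl⟩; exact con_cell hB z)
    (by rintro _ ⟨z, hz, rfl⟩; exact conn_cell z)
    (by
      intro x hx hxF
      obtain ⟨b, hb, hbx⟩ := hRr x ⟨hx, hxF⟩
      exact ⟨_, ⟨b, hb, rfl⟩, hbx.symm⟩)
    (by rintro _ ⟨z, hz, rfl⟩ x hx; exact hsame z (hRs hz) x hx)
    (by
      rintro _ ⟨z, hz, rfl⟩ x ⟨hx, hxF⟩
      have hx' : x ∈ face B z := by rw [← cl_cell hB z]; exact hx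
      exact hcell z (hRs hz) x hx' hxF)
    (by
      rintro _ ⟨z, hz, rfl⟩ _ ⟨z', hz', rfl⟩ ⟨x, hx, hx'⟩
      have h3 : SameSign B z z' := (SameSign.symm hx).trans hx'
      ext y
      exact ⟨fun hy => SameSign.trans hy h3, fun hy => SameSign.trans hy h3.symm⟩) M]
  constructor
  · rintro ⟨_, ⟨z, hz, rfl⟩, rfl⟩
    exact ⟨z, (hRs hz).1, (hRs hz).2, cl_cell hB z⟩
  · rintro ⟨z, hzC, hzF, rfl⟩
    obtain ⟨b, hb, hbz⟩ := hRr z ⟨hzC, hzF⟩
    refine ⟨_, ⟨b, hb, rfl⟩, ?_⟩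
    show face B z = cl {x | SameSign B x b}
    rw [cl_cell hB b]
    apply subset_antisymm
    · exact fun x hx => face_trans hx hbz.symm.mem_face
    · exact fun x hx => face_trans hx hbz.mem_face

end Pool.Agent.Work.MP_552024_lc.PLS
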