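import Pool.Agent.Work.MP_552024_lc.PLS.ThmB

set_option autoImplicit false

namespace Pool.Agent.Work.MP_552024_lc.PLS

/-! Cell systems and their comparison. -/

section assemble

variable {E : Type*} [AddCommGroup E] [Module ℚ E] [FiniteDimensional ℚ E]
variable {E' : Type*} [AddCommGroup E'] [Module ℚ E'] [FiniteDimensional ℚ E']

/-- A system of cells indexed by a finite poset, with cells `(c i, boundary)` related by `β`. -/
structure Cells {ι : Type} [PartialOrder ι] (i0 : ι) (d : ι → ℕ)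
    (β : ℕ → Set E → Set E → Prop) (c : ι → Set E) : Prop where
  pol : ∀ i, Pol (c i)
  zero : c i0 = {0}
  inter : ∀ i j, c i ∩ c j = ⋃ k ∈ {k | k ≤ i ∧ k ≤ j}, c k
  cell : ∀ i, i ≠ i0 → d i ≠ 0 ∧ β (d i) (c i) (⋃ k ∈ {k | k < i}, c k)

theorem Cells.mono {ι : Type} [PartialOrder ι] {i0 : ι} {d : ι → ℕ}
    {β : ℕ → Set E → Set E → Prop} {c : ι → Set E} (h : Cells i0 d β c) {i j : ι} (hij : i ≤ j) :
    c i ⊆ c j := by
  have := h.inter j j
  intro x hx
  have h1 : x ∈ ⋃ k ∈ {k | k ≤ j ∧ k ≤ j}, c k := Set.mem_biUnion (x := i) ⟨hij, hij⟩ hx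
  rw [← this] at h1
  exact h1.1

theorem Cells.pol_biUnion {ι : Type} [PartialOrder ι] {i0 : ι} {d : ι → ℕ}
    {β : ℕ → Set E → Set E → Prop} {c : ι → Set E} (h : Cells i0 d β c) (s : Finset ι)
    (hs : i0 ∈ s) : Pol (⋃ i ∈ s, c i) := by
  have h1 := pol_sUnion (S := c '' (s : Set ι)) (s.finite_toSet.image _)
    (by rintro _ ⟨i, _, rfl⟩; exact h.pol i)
  convert h1 using 1
  ext x
  simp only [Set.mem_iUnion, Set.mem_union, Set.mem_singleton_iff, Set.mem_sUnion, Set.mem_image,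
    Finset.mem_coe, exists_prop]
  constructor
  · rintro ⟨i, hi, hx⟩; exact Or.inr ⟨c i, ⟨i, hi, rfl⟩, hx⟩
  · rintro (hx | ⟨_, ⟨i, hi, rfl⟩, hx⟩)
    · exact ⟨i0, hs, by rw [h.zero]; exact hx⟩
    · exact ⟨i, hi, hx⟩

/-- Two systems of balls with the same combinatorial type have homeomorphic unions. -/
theorem assemble {ι : Type} [PartialOrder ι] [Finite ι] {i0 : ι} (hi0 : ∀ i, i0 ≤ i) {d : ι → ℕ}
    {c : ι → Set E} {c' : ι → Set E'} (h : Cells i0 d (fun k => Ball k) c)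
    (h' : Cells i0 d (fun k => Ball k) c') :
    ∃ f : E → E', ∃ g : E' → E, PLInv f g (⋃ i, c i) (⋃ i, c' i) := by
  classical
  have : Fintype ι := Fintype.ofFinite ι
  have key : ∀ n, ∀ s : Finset ι, s.card = n → IsLowerSet (s : Set ι) → i0 ∈ s →
      ∃ f : E → E', ∃ g : E' → E, PLInv f g (⋃ i ∈ s, c i) (⋃ i ∈ s, c' i) ∧
        ∀ i ∈ s, ∀ x ∈ ⋃ i ∈ s, c i, (x ∈ c i ↔ f x ∈ c' i) := by
    intro n
    induction n with
    | zero =>
      intro s hs _ h0
      rw [Finset.card_eq_zero] at hs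
      rw [hs] at h0
      exact absurd h0 (Finset.notMem_empty _)
    | succ n ih =>
      intro s hs hlow h0
      by_cases hone : s = {i0}
      · subst hone
        have e1 : (⋃ i ∈ ({i0} : Finset ι), c i) = {0} := by simp [h.zero]
        have e2 : (⋃ i ∈ ({i0} : Finset ι), c' i) = {0} := by simp [h'.zero]
        rw [e1, e2]
        refine ⟨(0 : E →ₗ[ℚ] E'), (0 : E' →ₗ[ℚ] E), ⟨plOn_linear _ _, plOn_linear _ _,
          fun _ _ => rfl, fun _ _ => rfl, fun x hx => ?_, fun x hx => ?_⟩, ?_⟩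
        · rw [Set.mem_singleton_iff.1 hx]; rfl
        · rw [Set.mem_singleton_iff.1 hx]; rfl
        · intro i hi x hx
          rw [Finset.mem_singleton] at hi
          subst hi
          rw [h.zero, h'.zero]
          constructor
          · intro _; rfl
          · intro _; exact hx
      · -- a maximal element of s
        obtain ⟨m, hm⟩ : ∃ m, Maximal (fun x => x ∈ s) m := s.exists_maximal ⟨i0, h0⟩
        have hms : m ∈ s := hm.1
        have hmax : ∀ j ∈ s, m ≤ j → j = m := fun j hj hmj => le_antisymm (hm.2 hj hmj) hmj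
        have hm0 : m ≠ i0 := by
          rintro rfl
          apply hone
          ext j
          rw [Finset.mem_singleton]
          exact ⟨fun hj => hmax j hj (hi0 j), fun hj => hj ▸ h0⟩
        set s' := s.erase m with hs'
        have hs'c : s'.card = n := by rw [hs', Finset.card_erase_of_mem hms, hs]; rfl
        have hs'low : IsLowerSet (s' : Set ι) := by
          intro a b hba ha
          rw [Finset.mem_coe, hs', Finset.mem_erase] at ha ⊢
          refine ⟨?_, hlow hba ha.2⟩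
          rintro rfl
          exact ha.1 (hmax a ha.2 hba)
        have h0' : i0 ∈ s' := Finset.mem_erase.2 ⟨hm0.symm, h0⟩
        obtain ⟨f, g, hfg, hiff⟩ := ih s' hs'c hs'low h0'
        -- boundaries
        have hlt : ∀ k, k < m → k ∈ s' := fun k hk =>
          Finset.mem_erase.2 ⟨hk.ne, hlow hk.le hms⟩
        have hbd : ∀ x, x ∈ (⋃ i ∈ s', c i) → (x ∈ c m ↔ x ∈ ⋃ k ∈ {k | k < m}, c k) := by
          intro x hx
          constructor
          · intro hxm
            obtain ⟨i, hi, hxi⟩ := Set.mem_iUnion₂.1 hx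
            have h1 : x ∈ c m ∩ c i := ⟨hxm, hxi⟩
            rw [h.inter m i] at h1
            obtain ⟨k, hk, hxk⟩ := Set.mem_iUnion₂.1 h1
            refine Set.mem_biUnion (x := k) ?_ hxk
            refine lt_of_le_of_ne hk.1 ?_
            rintro rfl
            have h2 := Finset.mem_erase.1 hi
            exact h2.1 (hmax i h2.2 hk.2)
          · intro hx'
            obtain ⟨k, hk, hxk⟩ := Set.mem_iUnion₂.1 hx'
            exact h.mono (le_of_lt hk) hxk
        have hbd' : ∀ x, x ∈ (⋃ i ∈ s', c' i) → (x ∈ c' m ↔ x ∈ ⋃ k ∈ {k | k < m}, c' k) := by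
          intro x hx
          constructor
          · intro hxm
            obtain ⟨i, hi, hxi⟩ := Set.mem_iUnion₂.1 hx
            have h1 : x ∈ c' m ∩ c' i := ⟨hxm, hxi⟩
            rw [h'.inter m i] at h1
            obtain ⟨k, hk, hxk⟩ := Set.mem_iUnion₂.1 h1
            refine Set.mem_biUnion (x := k) ?_ hxk
            refine lt_of_le_of_ne hk.1 ?_
            rintro rfl
            have h2 := Finset.mem_erase.1 hi
            exact h2.1 (hmax i h2.2 hk.2)
          · intro hx'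
            obtain ⟨k, hk, hxk⟩ := Set.mem_iUnion₂.1 hx'
            exact h'.mono (le_of_lt hk) hxk
        have hsub : (⋃ k ∈ {k | k < m}, c k) ⊆ ⋃ i ∈ s', c i := by
          intro x hx
          obtain ⟨k, hk, hxk⟩ := Set.mem_iUnion₂.1 hx
          exact Set.mem_biUnion (hlt k hk) hxk
        have hsub' : (⋃ k ∈ {k | k < m}, c' k) ⊆ ⋃ i ∈ s', c' i := by
          intro x hx
          obtain ⟨k, hk, hxk⟩ := Set.mem_iUnion₂.1 hx
          exact Set.mem_biUnion (hlt k hk) hxk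
        have hr : PLInv f g (⋃ k ∈ {k | k < m}, c k) (⋃ k ∈ {k | k < m}, c' k) := by
          refine hfg.restrict hsub hsub' ?_
          intro x hx
          constructor
          · intro hx'
            obtain ⟨k, hk, hxk⟩ := Set.mem_iUnion₂.1 hx'
            exact Set.mem_biUnion (x := k) hk ((hiff k (hlt k hk) x hx).1 hxk)
          · intro hx'
            obtain ⟨k, hk, hxk⟩ := Set.mem_iUnion₂.1 hx'
            exact Set.mem_biUnion (x := k) hk ((hiff k (hlt k hk) x hx).2 hxk)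
        obtain ⟨hd0, hb⟩ := h.cell m hm0
        obtain ⟨_, hb'⟩ := h'.cell m hm0
        have : NeZero (d m) := ⟨hd0⟩
        obtain ⟨Φ, Ψ, hΦ, hΦ1, hΨ1, hΦ2⟩ := ball_ext hb hb' hr
        obtain ⟨F, G, hFG, hF1, hF2, hG1, hG2⟩ := hfg.paste hΦ (h.pol_biUnion s' h0') (h.pol m)
          (h'.pol_biUnion s' h0') (h'.pol m)
          (fun x hx hxm => (hΦ1 x ((hbd x hx).1 hxm)).symm)
          (fun y hy hym => (hΨ1 y ((hbd' y hy).1 hym)).symm)
        have eU : (⋃ i ∈ s, c i) = (⋃ i ∈ s', c i) ∪ c m := by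
          ext x
          simp only [Set.mem_iUnion, Set.mem_union, exists_prop]
          constructor
          · rintro ⟨i, hi, hx⟩
            by_cases him : i = m
            · exact Or.inr (him ▸ hx)
            · exact Or.inl ⟨i, Finset.mem_erase.2 ⟨him, hi⟩, hx⟩
          · rintro (⟨i, hi, hx⟩ | hx)
            · exact ⟨i, (Finset.mem_erase.1 hi).2, hx⟩
            · exact ⟨m, hms, hx⟩
        have eU' : (⋃ i ∈ s, c' i) = (⋃ i ∈ s', c' i) ∪ c' m := by
          ext x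
          simp only [Set.mem_iUnion, Set.mem_union, exists_prop]
          constructor
          · rintro ⟨i, hi, hx⟩
            by_cases him : i = m
            · exact Or.inr (him ▸ hx)
            · exact Or.inl ⟨i, Finset.mem_erase.2 ⟨him, hi⟩, hx⟩
          · rintro (⟨i, hi, hx⟩ | hx)
            · exact ⟨i, (Finset.mem_erase.1 hi).2, hx⟩
            · exact ⟨m, hms, hx⟩
        refine ⟨F, G, by rw [eU, eU']; exact hFG, ?_⟩
        -- the equivalences
        have hmain : ∀ i ∈ s, ∀ x ∈ (⋃ i ∈ s', c i), (x ∈ c i ↔ F x ∈ c' i) := by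
          intro i hi x hx
          rw [hF1 x hx]
          by_cases him : i = m
          · rw [him, hbd x hx, hbd' (f x) (hfg.mapsf x hx)]
            constructor
            · intro hx'
              exact hr.mapsf x hx'
            · intro hx'
              obtain ⟨k, hk, hxk⟩ := Set.mem_iUnion₂.1 hx'
              exact Set.mem_biUnion (x := k) hk ((hiff k (hlt k hk) x hx).2 hxk)
          · exact hiff i (Finset.mem_erase.2 ⟨him, hi⟩) x hx
        intro i hi x hx
        rw [eU] at hx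
        by_cases hx' : x ∈ ⋃ i ∈ s', c i
        · exact hmain i hi x hx'
        · have hxm : x ∈ c m := hx.resolve_left hx'
          by_cases him : i = m
          · rw [him]
            exact ⟨fun _ => by rw [hF2 x hxm]; exact hΦ.mapsf x hxm, fun _ => hxm⟩
          · have his' : i ∈ s' := Finset.mem_erase.2 ⟨him, hi⟩
            constructor
            · intro hxi
              exact absurd (Set.mem_biUnion (x := i) his' hxi) hx'
            · intro hFx
              exfalso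
              rw [hF2 x hxm] at hFx
              have h1 : Φ x ∈ ⋃ i ∈ s', c' i := Set.mem_biUnion (x := i) his' hFx
              have h2 := (hbd' _ h1).1 (hΦ.mapsf x hxm)
              exact hx' (hsub ((hΦ2 x hxm).2 h2))
  obtain ⟨f, g, hfg, _⟩ := key _ Finset.univ rfl (by
    rw [Finset.coe_univ]; exact isLowerSet_univ) (Finset.mem_univ _)
  refine ⟨f, g, ?_⟩
  simpa using hfg

end assemble

section faces

variable {E : Type} [AddCommGroup E] [Module ℚ E] [FiniteDimensional ℚ E]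

/-- Faces of a pointed arrangement are balls. -/
theorem ball_face {𝓐 : Set (E →ₗ[ℚ] ℚ)} (h𝓐 : 𝓐.Finite)
    (hpt : ∀ x : E, (∀ a ∈ 𝓐, a x = 0) → x = 0) {y : E} (hy : y ≠ 0) :
    ∃ k, Ball (k + 1) (face 𝓐 y) {x | x ∈ face 𝓐 y ∧ ∃ a ∈ 𝓐, a y ≠ 0 ∧ a x = 0} := by
  let L : Submodule ℚ E :=
    { carrier := {x | ∀ a ∈ 𝓐, a y = 0 → a x = 0}
      add_mem' := by
        intro u v hu hv a ha h0
        rw [map_add, hu a ha h0, hv a ha h0, add_zero]
      zero_mem' := fun a _ _ => map_zero a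
      smul_mem' := by
        intro c u hu a ha h0
        rw [map_smul, hu a ha h0, smul_zero] }
  have hyL : y ∈ L := fun a _ h0 => h0
  have hnt : Nontrivial L := ⟨⟨y, hyL⟩, 0, fun h => hy (congrArg Subtype.val h)⟩
  have hfr : 0 < Module.finrank ℚ L := Module.finrank_pos
  obtain ⟨k, hk⟩ : ∃ k, Module.finrank ℚ L = k + 1 := ⟨Module.finrank ℚ L - 1, by omega⟩
  obtain ⟨a₀, ha₀, ha₀y⟩ : ∃ a ∈ 𝓐, a y ≠ 0 := by
    by_contra hcon
    push Not at hcon
    exact hy (hpt y hcon)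
  have : Finite {a // a ∈ 𝓐 ∧ a y ≠ 0} := h𝓐.subset (fun a ha => ha.1)
  have : Fintype {a // a ∈ 𝓐 ∧ a y ≠ 0} := Fintype.ofFinite _
  have : Nonempty {a // a ∈ 𝓐 ∧ a y ≠ 0} := ⟨⟨a₀, ha₀, ha₀y⟩⟩
  set h : {a // a ∈ 𝓐 ∧ a y ≠ 0} → L →ₗ[ℚ] ℚ := fun a => (a.1 y) • (a.1.comp L.subtype) with hh
  have happ : ∀ (a : {a // a ∈ 𝓐 ∧ a y ≠ 0}) (x : L), h a x = a.1 y * a.1 x := fun _ _ => rfl
  have hball := coneBall k L _ h hk ⟨⟨y, hyL⟩, fun a => by
    rw [happ]; exact mul_self_pos.2 a.2.2⟩ (by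
      intro x hx
      apply Subtype.ext
      apply hpt
      intro a ha
      by_cases h0 : a y = 0
      · exact x.2 a ha h0
      · have := hx ⟨a, ha, h0⟩
        rw [happ] at this
        exact (mul_eq_zero.1 this).resolve_left h0)
  obtain ⟨ρ, hρ⟩ := LinearMap.exists_leftInverse_of_injective L.subtype
    (LinearMap.ker_eq_bot.2 L.injective_subtype)
  have hρ' : ∀ u : L, ρ (u : E) = u := fun u => LinearMap.congr_fun hρ u
  have hfL : ∀ x ∈ face 𝓐 y, x ∈ L := by
    intro x hx a ha h0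
    rcases hx a ha with h1 | h1
    · exact h1
    · rw [h0, sign_zero, sign_eq_zero_iff] at h1; exact h1
  have hKC : ∀ u : L, u ∈ KC h ↔ (u : E) ∈ face 𝓐 y := by
    intro u; constructor
    · intro hu a ha
      by_cases h0 : a y = 0
      · exact Or.inl (u.2 a ha h0)
      · exact (mul_nonneg_iff_sign h0).1 (hu ⟨a, ha, h0⟩)
    · rintro hu ⟨a, ha, h0⟩
      exact (mul_nonneg_iff_sign h0).2 (hu a ha)
  refine ⟨k, hball.transport (pol_face h𝓐 y) (F := L.subtype) (G := ρ) ?_ (fun x hx => hx.1) ?_⟩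
  · refine ⟨plOn_linear _ _, plOn_linear _ _, fun u hu => (hKC u).1 hu, fun x hx => ?_,
      fun u _ => hρ' u, fun x hx => ?_⟩
    · have h1 : ρ x = ⟨x, hfL x hx⟩ := hρ' ⟨x, hfL x hx⟩
      rw [h1, hKC]; exact hx
    · have h1 : ρ x = ⟨x, hfL x hx⟩ := hρ' ⟨x, hfL x hx⟩
      rw [h1]; rfl
  · intro u hu
    constructor
    · rintro ⟨h1, ⟨a, ha, h0⟩, h2⟩
      refine ⟨(hKC u).1 h1, a, ha, h0, ?_⟩
      rw [happ] at h2
      exact (mul_eq_zero.1 h2).resolve_left h0
    · rintro ⟨h1, a, ha, h0, h2⟩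
      refine ⟨(hKC u).2 h1, ⟨a, ha, h0⟩, ?_⟩
      rw [happ]
      show a y * a (u : E) = 0
      rw [show a (u : E) = 0 from h2, mul_zero]

/-- Every polyhedral set is the union of a cell system. -/
theorem exists_cells {P : Set E} (hP : Pol P) :
    ∃ (ι : Type) (_ : PartialOrder ι) (_ : Finite ι) (i0 : ι) (d : ι → ℕ) (c : ι → Set E),
      (∀ i, i0 ≤ i) ∧ Cells i0 d (fun k => Ball k) c ∧ ⋃ i, c i = P := by
  obtain ⟨_, A₀, hA₀, hPA₀⟩ := id hP
  obtain ⟨A₁, hA₁, hpt₁⟩ := exists_pointed E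
  set 𝓐 := A₀ ∪ A₁ with h𝓐
  have h𝓐f : 𝓐.Finite := hA₀.union hA₁
  have hPA : ∀ y ∈ P, face 𝓐 y ⊆ P := fun y hy =>
    (face_anti Set.subset_union_left y).trans (hPA₀ y hy)
  have hpt : ∀ x : E, (∀ a ∈ 𝓐, a x = 0) → x = 0 := fun x hx =>
    hpt₁ x (fun a ha => hx a (Or.inr ha))
  set 𝓕 : Set (Set E) := {F | ∃ y ∈ P, F = face 𝓐 y} with h𝓕
  have h𝓕f : 𝓕.Finite := by
    obtain ⟨R, hR, hRs, hRr⟩ := exists_reps h𝓐f P
    refine (hR.image (fun y => face 𝓐 y)).subset ?_
    rintro _ ⟨y, hy, rfl⟩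
    obtain ⟨b, hb, hby⟩ := hRr y hy
    exact ⟨b, hb, subset_antisymm (fun x hx => face_trans hx hby.mem_face)
      (fun x hx => face_trans hx hby.symm.mem_face)⟩
  have hface0 : face 𝓐 (0 : E) = {0} := by
    ext x; constructor
    · intro hx
      apply hpt
      intro a ha
      rcases hx a ha with h1 | h1
      · exact h1
      · rw [map_zero, sign_zero, sign_eq_zero_iff] at h1; exact h1
    · intro hx; rw [Set.mem_singleton_iff.1 hx]; exact zero_mem_face _ _
  have h0mem : ({0} : Set E) ∈ 𝓕 := ⟨0, hP.1, hface0.symm⟩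
  have hbdry : ∀ y ∈ P, (⋃ k ∈ {k : 𝓕 | k.1 ⊂ face 𝓐 y}, (k.1 : Set E)) =
      {x | x ∈ face 𝓐 y ∧ ∃ a ∈ 𝓐, a y ≠ 0 ∧ a x = 0} := by
    intro y hy
    ext x
    constructor
    · intro hx
      obtain ⟨⟨_, y', hy', rfl⟩, hlt, hx⟩ := Set.mem_iUnion₂.1 hx
      refine ⟨hlt.1 hx, ?_⟩
      by_contra hcon
      push Not at hcon
      apply hlt.2
      have hx' : x ∈ face 𝓐 y := hlt.1 hx
      have hs : SameSign 𝓐 x y := by
        intro a ha
        rcases hx' a ha with h1 | h1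
        · by_cases h2 : a y = 0
          · rw [h1, h2]
          · exact absurd h1 (hcon a ha h2)
        · exact h1
      exact fun u hu => face_trans hu (face_trans hs.symm.mem_face hx)
    · rintro ⟨hx, a, ha, hay, hax⟩
      refine Set.mem_biUnion (x := (⟨face 𝓐 x, x, hPA y hy hx, rfl⟩ : 𝓕)) ?_ (mem_face_self _ _)
      refine ⟨fun u hu => face_trans hu hx, fun hh => ?_⟩
      have h1 := hh (mem_face_self 𝓐 y)
      rcases h1 a ha with h2 | h2
      · exact hay h2
      · rw [hax, sign_zero, sign_eq_zero_iff] at h2; exact hay h2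
  have hdim : ∀ i : 𝓕, ∃ k : ℕ, i.1 ≠ {0} → k ≠ 0 ∧ Ball k i.1 (⋃ j ∈ {j : 𝓕 | j.1 ⊂ i.1}, j.1) := by
    rintro ⟨_, y, hy, rfl⟩
    by_cases h0 : y = 0
    · refine ⟨0, fun h1 => absurd ?_ h1⟩
      show face 𝓐 y = {0}
      rw [h0, hface0]
    · obtain ⟨k, hk⟩ := ball_face h𝓐f hpt h0
      refine ⟨k + 1, fun _ => ⟨by omega, ?_⟩⟩
      show Ball (k + 1) (face 𝓐 y) (⋃ j ∈ {j : 𝓕 | j.1 ⊂ face 𝓐 y}, j.1)
      rw [hbdry y hy]; exact hk
  choose d hd using hdim
  refine ⟨𝓕, inferInstance, h𝓕f, ⟨{0}, h0mem⟩, d, fun i => i.1, ?_, ⟨?_, rfl, ?_, ?_⟩, ?_⟩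
  · rintro ⟨_, y, hy, rfl⟩
    show ({0} : Set E) ⊆ face 𝓐 y
    intro x hx
    rw [Set.mem_singleton_iff.1 hx]; exact zero_mem_face _ _
  · rintro ⟨_, y, hy, rfl⟩
    exact pol_face h𝓐f y
  · rintro ⟨_, y, hy, rfl⟩ ⟨_, y', hy', rfl⟩
    ext x; constructor
    · rintro ⟨hx, hx'⟩
      refine Set.mem_biUnion (x := (⟨face 𝓐 x, x, hPA y hy hx, rfl⟩ : 𝓕)) ⟨?_, ?_⟩
        (mem_face_self _ _)
      · exact fun u hu => face_trans hu hx
      · exact fun u hu => face_trans hu hx'
    · intro hx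
      obtain ⟨k, ⟨h1, h2⟩, hxk⟩ := Set.mem_iUnion₂.1 hx
      exact ⟨h1 hxk, h2 hxk⟩
  · intro i hi
    refine hd i (fun h => hi (Subtype.ext h))
  · ext x; constructor
    · intro hx
      obtain ⟨⟨_, y, hy, rfl⟩, hx⟩ := Set.mem_iUnion.1 hx
      exact hPA y hy hx
    · intro hx
      exact Set.mem_iUnion.2 ⟨⟨face 𝓐 x, x, hx, rfl⟩, mem_face_self _ _⟩

end faces

end Pool.Agent.Work.MP_552024_lc.PLS
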