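import Pool.Agent.Work.MP_552024_lc.PLS.Radial
import Pool.Agent.Work.MP_552024_lc.PLS.Glue

set_option autoImplicit false

namespace Pool.Agent.Work.MP_552024_lc.PLS


variable {E : Type*} [AddCommGroup E] [Module ℚ E]
variable {E' : Type*} [AddCommGroup E'] [Module ℚ E']

/-- coordinate forms -/
def crd (k : ℕ) : Fin k → (Fin k → ℚ) →ₗ[ℚ] ℚ := fun i => LinearMap.proj i

theorem Orth_eq (k : ℕ) : Orth k = KC (crd k) := rfl
theorem dOrth_eq (k : ℕ) : dOrth k = KD (crd k) := rfl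

theorem one_mem_KO (k : ℕ) : (fun _ => 1 : Fin k → ℚ) ∈ KO (crd k) := fun _ => one_pos

theorem dOrth_subset (k : ℕ) : dOrth k ⊆ Orth k := fun _ h => h.1

theorem pol_Orth (k : ℕ) : Pol (Orth k) := by
  rw [Orth_eq]; exact pol_KC _

theorem pol_dOrth (k : ℕ) [NeZero k] : Pol (dOrth k) := by
  rw [dOrth_eq]
  have : Nonempty (Fin k) := ⟨0⟩
  exact pol_KD _

theorem ball_Orth (k : ℕ) : Ball k (Orth k) (dOrth k) :=
  ⟨pol_Orth k, dOrth_subset k, _, _, PLInv.refl _, fun _ _ => Iff.rfl⟩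

/-- Boundary of a ball is closed. -/
theorem Ball.pol_bd {k : ℕ} [NeZero k] {C S : Set E} (h : Ball k C S) : Pol S := by
  obtain ⟨hC, hS, f, g, hfg, hiff⟩ := h
  have := hfg.plg.pol_preimage hC (pol_dOrth k)
  convert this using 1
  ext y; constructor
  · intro hy
    refine ⟨hS hy, ?_⟩
    rw [hiff _ (hfg.mapsg y (hS hy)), hfg.fg y (hS hy)]; exact hy
  · rintro ⟨hy, hgy⟩
    rw [hiff _ (hfg.mapsg y hy), hfg.fg y hy] at hgy; exact hgy

/-- Transport of balls. -/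
theorem Ball.transport {k : ℕ} {C S : Set E} {C' S' : Set E'} (h : Ball k C S) (hC' : Pol C')
    {F : E → E'} {G : E' → E} (hFG : PLInv F G C C') (hS' : S' ⊆ C')
    (hiff : ∀ x ∈ C, (x ∈ S ↔ F x ∈ S')) : Ball k C' S' := by
  obtain ⟨hC, hS, f, g, hfg, hi⟩ := h
  refine ⟨hC', hS', _, _, hfg.trans hFG, fun x hx => ?_⟩
  rw [hi x hx, hiff _ (hfg.mapsf x hx)]

/-- Homeomorphisms of the boundaries of balls extend. -/
theorem ball_ext {k : ℕ} [NeZero k] {B S : Set E} {B' S' : Set E'} (h : Ball k B S)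
    (h' : Ball k B' S') {φ : E → E'} {ψ : E' → E} (hφ : PLInv φ ψ S S') :
    ∃ Φ : E → E', ∃ Ψ : E' → E, PLInv Φ Ψ B B' ∧ (∀ x ∈ S, Φ x = φ x) ∧ (∀ y ∈ S', Ψ y = ψ y) ∧
      (∀ x ∈ B, (x ∈ S ↔ Φ x ∈ S')) := by
  have : Nonempty (Fin k) := ⟨0⟩
  obtain ⟨hB, hS, f, g, hfg, hi⟩ := h
  obtain ⟨hB', hS', f', g', hfg', hi'⟩ := h'
  have r1 : PLInv f g (dOrth k) S := hfg.restrict (dOrth_subset k) hS hi
  have r2 : PLInv f' g' (dOrth k) S' := hfg'.restrict (dOrth_subset k) hS' hi'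
  have r3 := (r1.trans hφ).trans r2.symm
  have hrad : Radial (Orth k) (dOrth k) (fun _ => 1) (rad (crd k) (fun _ => 1)) :=
    radial_KC (crd k) (one_mem_KO k)
  obtain ⟨Φ, Ψ, hΦ, h1, h2, h3⟩ := hrad.ext hrad r3
  refine ⟨_, _, (hfg.symm.trans hΦ).trans hfg', ?_, ?_, ?_⟩
  · intro x hx
    show f' (Φ (g x)) = φ x
    have hgx : g x ∈ dOrth k := r1.mapsg x hx
    rw [h1 _ hgx, hfg.fg x (hS hx), r2.fg _ (hφ.mapsf x hx)]
  · intro y hy
    show f (Ψ (g' y)) = ψ y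
    have hgy : g' y ∈ dOrth k := r2.mapsg y hy
    rw [h2 _ hgy, r2.fg y hy, r1.fg _ (hφ.mapsg y hy)]
  · intro x hx
    show x ∈ S ↔ f' (Φ (g x)) ∈ S'
    rw [← hi' _ (hΦ.mapsf _ (hfg.mapsg x hx)), ← h3 _ (hfg.mapsg x hx), hi _ (hfg.mapsg x hx),
      hfg.fg x hx]

theorem rad_add {ι : Type*} [Fintype ι] [Nonempty ι] (h : ι → E →ₗ[ℚ] ℚ) {p : E} (hp : p ∈ KO h)
    (x : E) (t : ℚ) : rad h p (x + t • p) = rad h p x + t := by
  have key : ∀ i, h i (x + t • p) = h i x + t * h i p := fun i => by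
    rw [map_add, map_smul, smul_eq_mul]
  apply le_antisymm
  · obtain ⟨i, hi⟩ := exists_rad_eq h hp x
    have h1 := rad_le h hp (x + t • p) i
    rw [key i] at h1
    have : rad h p (x + t • p) * h i p ≤ (rad h p x + t) * h i p := by rw [add_mul, hi]; exact h1
    exact le_of_mul_le_mul_right this (hp i)
  · obtain ⟨i, hi⟩ := exists_rad_eq h hp (x + t • p)
    rw [key i] at hi
    have h1 := rad_le h hp x i
    have : (rad h p x + t) * h i p ≤ rad h p (x + t • p) * h i p := by rw [add_mul, hi]; linarith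
    exact le_of_mul_le_mul_right this (hp i)

theorem rad_congr {ι : Type*} [Fintype ι] [Nonempty ι] (h : ι → E →ₗ[ℚ] ℚ) (p : E)
    {x y : E} (hxy : ∀ i, h i x = h i y) : rad h p x = rad h p y := by
  unfold rad
  simp only [hxy]

theorem rad_zero_iff {ι : Type*} [Fintype ι] [Nonempty ι] (h : ι → E →ₗ[ℚ] ℚ) {p : E}
    (hp : p ∈ KO h) {x : E} (hx : x ∈ KC h) : x ∈ KD h ↔ rad h p x = 0 :=
  (radial_KC h hp).mem_iff hx

/-- Points near an open cone point. -/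
theorem exists_KO_neg {ι : Type*} [Finite ι] (h : ι → E →ₗ[ℚ] ℚ) (h₀ : E →ₗ[ℚ] ℚ) {w u : E}
    (hw : w ∈ KO h) (hw₀ : h₀ w = 0) (hu : h₀ u < 0) : ∃ p ∈ KO h, h₀ p < 0 := by
  obtain ⟨ε, hε, H⟩ := exists_small (A := Set.range h) (Set.finite_range h) w (w + u)
  obtain ⟨H1, _⟩ := H ε hε le_rfl
  refine ⟨w + ε • (w + u - w), fun i => ?_, ?_⟩
  · rcases H1 (h i) ⟨i, rfl⟩ with h1 | h1
    · exact absurd h1 (hw i).ne'
    · rw [sign_pos (hw i), eq_comm, sign_eq_one_iff] at h1; exact h1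
  · rw [map_add, map_smul, smul_eq_mul, add_sub_cancel_left, hw₀, zero_add]
    exact mul_neg_of_pos_of_neg hε hu

/-- The statement that convex cones of dimension `k + 1` are balls. -/
def ConeBall (k : ℕ) : Prop :=
  ∀ (E : Type) [AddCommGroup E] [Module ℚ E] [FiniteDimensional ℚ E] (ι : Type) [Fintype ι]
    [Nonempty ι] (h : ι → E →ₗ[ℚ] ℚ), Module.finrank ℚ E = k + 1 → (KO h).Nonempty →
    (∀ x, (∀ i, h i x = 0) → x = 0) → Ball (k + 1) (KC h) (KD h)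

/-- The section of a cone by a hyperplane is a ball. -/
theorem section_ball {k : ℕ} (hk : ConeBall k) {E : Type} [AddCommGroup E] [Module ℚ E]
    [FiniteDimensional ℚ E] {ι : Type} [Fintype ι] [Nonempty ι] (h : ι → E →ₗ[ℚ] ℚ)
    (hd : Module.finrank ℚ E = k + 2) (hp : ∀ x, (∀ i, h i x = 0) → x = 0)
    (h₀ : E →ₗ[ℚ] ℚ) {w : E} (hw : w ∈ KO h) (hw₀ : h₀ w = 0) (hne : h₀ ≠ 0) :
    Ball (k + 1) (KC h ∩ {x | h₀ x = 0}) (KD h ∩ {x | h₀ x = 0}) := by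
  have hfr : Module.finrank ℚ (LinearMap.ker h₀) = k + 1 := by
    have h1 := Module.Dual.finrank_ker_add_one_of_ne_zero hne
    omega
  generalize hH : LinearMap.ker h₀ = H at hfr
  have hmem : ∀ x, x ∈ H ↔ h₀ x = 0 := fun x => by rw [← hH, LinearMap.mem_ker]
  let h' : ι → H →ₗ[ℚ] ℚ := fun i => (h i).comp H.subtype
  have hball := hk H ι h' hfr ⟨⟨w, (hmem w).2 hw₀⟩, fun i => hw i⟩ (fun x hx => by
    have := hp x.1 (fun i => hx i)
    exact Subtype.ext this)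
  obtain ⟨π, hπ⟩ := LinearMap.exists_leftInverse_of_injective H.subtype
    (LinearMap.ker_eq_bot.2 Subtype.val_injective)
  have hπ' : ∀ x : H, π x.1 = x := fun x => LinearMap.congr_fun hπ x
  refine hball.transport (F := fun x => x.1) (G := π) ((pol_KC h).inter (pol_hyperplane h₀))
    ⟨plOn_linear H.subtype _, plOn_linear π _, ?_, ?_, ?_, ?_⟩ ?_ ?_
  · intro x hx
    exact ⟨fun i => hx i, (hmem _).1 x.2⟩
  · rintro y ⟨hy, hy0⟩ i
    have : π y = ⟨y, (hmem y).2 hy0⟩ := hπ' ⟨y, (hmem y).2 hy0⟩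
    rw [this]; exact hy i
  · intro x _; exact hπ' x
  · rintro y ⟨hy, hy0⟩
    have : π y = ⟨y, (hmem y).2 hy0⟩ := hπ' ⟨y, (hmem y).2 hy0⟩
    show (π y).1 = y
    rw [this]
  · rintro x ⟨hx, hx0⟩; exact ⟨hx.1, hx0⟩
  · intro x hx
    constructor
    · rintro ⟨h1, h2⟩; exact ⟨⟨h1, h2⟩, (hmem _).1 x.2⟩
    · rintro ⟨⟨h1, h2⟩, _⟩; exact ⟨h1, h2⟩

theorem exists_form_vanishing {E : Type} [AddCommGroup E] [Module ℚ E]
    [FiniteDimensional ℚ E] {k : ℕ} (hd : Module.finrank ℚ E = k + 2) (w : E) :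
    ∃ h₀ : E →ₗ[ℚ] ℚ, h₀ w = 0 ∧ h₀ ≠ 0 := by
  have hS : Submodule.span ℚ ({w} : Set E) ≠ ⊤ := by
    intro h
    have h1 : Module.finrank ℚ (Submodule.span ℚ ({w} : Set E)) = k + 2 := by
      rw [h, finrank_top, hd]
    have h2 := finrank_span_le_card (R := ℚ) ({w} : Set E)
    simp only [Set.toFinset_singleton, Finset.card_singleton] at h2
    omega
  obtain ⟨f, hf, hf'⟩ := Submodule.exists_le_ker_of_lt_top _ (lt_top_iff_ne_top.2 hS)
  exact ⟨f, hf' (Submodule.subset_span rfl), hf⟩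

theorem exists_neg_pt {E : Type*} [AddCommGroup E] [Module ℚ E] {h₀ : E →ₗ[ℚ] ℚ} (h : h₀ ≠ 0) :
    ∃ u, h₀ u < 0 := by
  by_contra hc
  push Not at hc
  apply h
  ext x
  have h1 := hc x
  have h2 := hc (-x)
  rw [map_neg] at h2
  show h₀ x = 0
  linarith

/-- All convex cones of the same dimension have isomorphic boundaries; they are balls. -/
theorem coneBall (k : ℕ) : ConeBall k := by
  induction k with
  | zero =>
    intro E _ _ _ ι _ _ h hd ⟨p, hp⟩ hpt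
    have hR := radial_KC h hp
    obtain ⟨i₀⟩ := ‹Nonempty ι›
    have h0D : (0 : E) ∈ KD h := ⟨fun i => by simp, i₀, by simp⟩
    have hp0 : p ≠ 0 := by
      rintro rfl
      have := hp i₀
      rw [map_zero] at this; exact lt_irrefl _ this
    have hmul : ∀ x : E, ∃ c : ℚ, x = c • p := by
      intro x
      obtain ⟨c, hc⟩ := (finrank_eq_one_iff_of_nonzero' p hp0).1 hd x
      exact ⟨c, hc.symm⟩
    have hval : ∀ c : ℚ, 0 ≤ c → rad h p (c • p) = c := fun c hc => by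
      have := hR.val 0 h0D c hc
      rwa [zero_add] at this
    have hpos : ∀ x ∈ KC h, ∃ c : ℚ, 0 ≤ c ∧ x = c • p := by
      intro x hx
      obtain ⟨c, rfl⟩ := hmul x
      refine ⟨c, ?_, rfl⟩
      have h1 := hx i₀
      rw [map_smul, smul_eq_mul] at h1
      by_contra hc
      exact absurd h1 (not_le.2 (mul_neg_of_neg_of_pos (not_le.1 hc) (hp i₀)))
    refine ⟨pol_KC h, fun x hx => hx.1, fun v => v 0 • p, fun x _ => rad h p x,
      ⟨?_, ?_, ?_, ?_, ?_, ?_⟩, ?_⟩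
    · exact plOn_linear ((LinearMap.toSpanSingleton ℚ E p).comp (crd (0 + 1) 0)) _
    · exact (plOn_rad h p _).lin (LinearMap.pi (fun _ => LinearMap.id))
    · intro v hv i
      show 0 ≤ h i (v 0 • p)
      rw [map_smul, smul_eq_mul]
      exact mul_nonneg (hv 0) (hp i).le
    · intro x hx _
      exact hR.nonneg x hx
    · intro v hv
      ext j
      have hj : j = 0 := Fin.fin_one_eq_zero j
      rw [hj]
      exact hval _ (hv 0)
    · intro x hx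
      obtain ⟨c, hc, rfl⟩ := hpos x hx
      show rad h p (c • p) • p = c • p
      rw [hval c hc]
    · intro v hv
      constructor
      · rintro ⟨_, j, hj⟩
        have hj0 : j = 0 := Fin.fin_one_eq_zero j
        rw [hj0] at hj
        show v 0 • p ∈ KD h
        rw [hj, zero_smul]; exact h0D
      · rintro ⟨_, i, hi⟩
        refine ⟨hv, 0, ?_⟩
        have hi : h i (v 0 • p) = 0 := hi
        rw [map_smul, smul_eq_mul] at hi
        rcases mul_eq_zero.1 hi with h1 | h1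
        · exact h1
        · exact absurd h1 (hp i).ne'
  | succ k ih =>
    -- structure of the boundary
    have str : ∀ (E : Type) [AddCommGroup E] [Module ℚ E] [FiniteDimensional ℚ E] (ι : Type)
        [Fintype ι] [Nonempty ι] (h : ι → E →ₗ[ℚ] ℚ), Module.finrank ℚ E = k + 2 →
        (KO h).Nonempty → (∀ x, (∀ i, h i x = 0) → x = 0) →
        ∃ (W T V V' : Set E) (α β α' β' : E → E), Ball (k + 1) W T ∧ KD h = V ∪ V' ∧
          V ∩ V' = T ∧ Pol V ∧ Pol V' ∧ PLInv α β V W ∧ PLInv α' β' V' W ∧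
          (∀ x ∈ T, α x = x ∧ β x = x ∧ α' x = x ∧ β' x = x) ∧
          (∀ x ∈ V, (x ∈ T ↔ α x ∈ T)) ∧ (∀ x ∈ V', (x ∈ T ↔ α' x ∈ T)) := by
      intro E _ _ _ ι _ _ h hd ⟨w, hw⟩ hpt
      obtain ⟨h₀, hw₀, hne⟩ := exists_form_vanishing hd w
      obtain ⟨u, hu⟩ := exists_neg_pt hne
      obtain ⟨u', hu'⟩ := exists_neg_pt (h₀ := -h₀) (neg_ne_zero.2 hne)
      obtain ⟨p, hp, hp₀⟩ := exists_KO_neg h h₀ hw hw₀ hu
      obtain ⟨p', hp', hp'₀⟩ := exists_KO_neg h (-h₀) hw (by simp [hw₀]) hu'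
      obtain ⟨α, β, h1, h2, h3, h4⟩ := proj_side h h₀ hp hp₀
      obtain ⟨α', β', h1', h2', h3', h4'⟩ := proj_side h (-h₀) hp' hp'₀
      have e1 : {x : E | (-h₀) x = 0} = {x | h₀ x = 0} := by ext x; simp
      rw [e1] at h1'
      refine ⟨KC h ∩ {x | h₀ x = 0}, KD h ∩ {x | h₀ x = 0}, KD h ∩ {x | 0 ≤ h₀ x},
        KD h ∩ {x | 0 ≤ (-h₀) x}, α, β, α', β', section_ball ih h hd hpt h₀ hw hw₀ hne, ?_, ?_,
        (pol_KD h).inter (pol_halfspace _), (pol_KD h).inter (pol_halfspace _), h1, h1', ?_, ?_, ?_⟩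
      · ext x; constructor
        · intro hx
          rcases le_total 0 (h₀ x) with h5 | h5
          · exact Or.inl ⟨hx, h5⟩
          · exact Or.inr ⟨hx, by show 0 ≤ (-h₀) x; rw [LinearMap.neg_apply]; linarith⟩
        · rintro (hx | hx) <;> exact hx.1
      · ext x; constructor
        · rintro ⟨⟨hx, h5⟩, _, h6⟩
          have h5 : 0 ≤ h₀ x := h5
          have h6 : 0 ≤ (-h₀) x := h6
          rw [LinearMap.neg_apply] at h6
          exact ⟨hx, by show h₀ x = 0; linarith⟩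
        · rintro ⟨hx, h5⟩
          have h5 : h₀ x = 0 := h5
          exact ⟨⟨hx, by show 0 ≤ h₀ x; rw [h5]⟩, hx, by
            show 0 ≤ (-h₀) x; rw [LinearMap.neg_apply, h5, neg_zero]⟩
      · rintro x ⟨hx, hx0⟩
        have hx0 : h₀ x = 0 := hx0
        exact ⟨h2 x hx0, h3 x hx, h2' x (by rw [LinearMap.neg_apply, hx0, neg_zero]), h3' x hx⟩
      · rintro x ⟨hx, hx0⟩
        have h5 := h4 x ⟨hx, hx0⟩
        have h6 := (h1.mapsf x ⟨hx, hx0⟩).2
        constructor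
        · rintro ⟨_, h7⟩; exact ⟨h5.1 h7, h6⟩
        · rintro ⟨h7, _⟩; exact ⟨hx, h5.2 h7⟩
      · rintro x ⟨hx, hx0⟩
        have h5 := h4' x ⟨hx, hx0⟩
        have h6 := (h1'.mapsf x ⟨hx, hx0⟩).2
        constructor
        · rintro ⟨_, h7⟩
          exact ⟨h5.1 (by rw [LinearMap.neg_apply]; have h7 : h₀ x = 0 := h7; rw [h7, neg_zero]), h6⟩
        · rintro ⟨h7, _⟩
          have := h5.2 h7
          rw [LinearMap.neg_apply, neg_eq_zero] at this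
          exact ⟨hx, this⟩
    intro E _ _ _ ι _ _ h hd hne hpt
    obtain ⟨p, hp⟩ := hne
    obtain ⟨W, T, V, V', α, β, α', β', hW, hKD, hVV', hVp, hV'p, hα, hα', hT, hTα, hTα'⟩ :=
      str E ι h hd ⟨p, hp⟩ hpt
    obtain ⟨W₀, T₀, V₀, V₀', α₀, β₀, α₀', β₀', hW₀, hKD₀, hVV₀', hVp₀, hV'p₀, hα₀, hα₀', hT₀,
      hTα₀, hTα₀'⟩ := str (Fin (k + 2) → ℚ) (Fin (k + 2)) (crd (k + 2)) (by simp)
        ⟨_, one_mem_KO (k + 2)⟩ (fun x hx => funext hx)
    have hTW : T ⊆ W := hW.2.1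
    have hTW₀ : T₀ ⊆ W₀ := hW₀.2.1
    obtain ⟨_, _, f, g, hfg, hi⟩ := hW
    obtain ⟨_, _, f₀, g₀, hfg₀, hi₀⟩ := hW₀
    have hψ := hfg₀.symm.trans hfg
    set ψ : (Fin (k + 2) → ℚ) → E := fun x => f (g₀ x) with hψd
    set ψ' : E → (Fin (k + 2) → ℚ) := fun z => f₀ (g z) with hψ'd
    have hψT : ∀ x ∈ W₀, (x ∈ T₀ ↔ ψ x ∈ T) := by
      intro x hx
      show x ∈ T₀ ↔ f (g₀ x) ∈ T
      rw [← hi _ (hfg₀.mapsg x hx), hi₀ _ (hfg₀.mapsg x hx), hfg₀.fg x hx]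
    have hψ'T : ∀ y ∈ W, (y ∈ T ↔ ψ' y ∈ T₀) := by
      intro y hy
      rw [hψT _ (hψ.mapsg y hy), hψ.fg y hy]
    have hTV : T ⊆ V := by rw [← hVV']; exact Set.inter_subset_left
    have hTV' : T ⊆ V' := by rw [← hVV']; exact Set.inter_subset_right
    obtain ⟨F, G, hFG, -, -, -, -⟩ := ((hα₀.trans hψ).trans hα.symm).paste
      ((hα₀'.trans hψ).trans hα'.symm) hVp₀ hV'p₀ hVp hV'p (by
        intro x hx hx'
        have hxT : x ∈ T₀ := by rw [← hVV₀']; exact ⟨hx, hx'⟩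
        have hψx : ψ x ∈ T := (hψT x (hTW₀ hxT)).1 hxT
        obtain ⟨a1, a2, a3, a4⟩ := hT₀ x hxT
        obtain ⟨b1, b2, b3, b4⟩ := hT _ hψx
        show β (ψ (α₀ x)) = β' (ψ (α₀' x))
        rw [a1, a3, b2, b4]) (by
        intro y hy hy'
        have hyT : y ∈ T := by rw [← hVV']; exact ⟨hy, hy'⟩
        have hψy : ψ' y ∈ T₀ := (hψ'T y (hTW hyT)).1 hyT
        obtain ⟨a1, a2, a3, a4⟩ := hT y hyT
        obtain ⟨b1, b2, b3, b4⟩ := hT₀ _ hψy
        show β₀ (ψ' (α y)) = β₀' (ψ' (α' y))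
        rw [a1, a3, b2, b4])
    rw [← hKD₀, ← hKD] at hFG
    obtain ⟨Φ, Ψ, h1, -, -, h4⟩ := (radial_KC (crd (k + 2)) (one_mem_KO (k + 2))).ext
      (radial_KC h hp) hFG
    exact ⟨pol_KC h, fun x hx => hx.1, Φ, Ψ, h1, h4⟩

end Pool.Agent.Work.MP_552024_lc.PLS
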