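import Pool.Agent.Work.MP_552024_lc.PLS.Formula

set_option autoImplicit false

namespace Pool.Agent.Work.MP_552024_lc.PLS

variable {E : Type*} [AddCommGroup E] [Module ℚ E]
variable {E' : Type*} [AddCommGroup E'] [Module ℚ E']

open SignType

theorem mem_face_self (A : Set (E →ₗ[ℚ] ℚ)) (y : E) : y ∈ face A y := fun _ _ => Or.inr rfl

theorem zero_mem_face (A : Set (E →ₗ[ℚ] ℚ)) (y : E) : (0 : E) ∈ face A y :=
  fun _ _ => Or.inl (by simp)

theorem face_trans {A : Set (E →ₗ[ℚ] ℚ)} {x y z : E} (h : x ∈ face A y) (h' : y ∈ face A z) :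
    x ∈ face A z := by
  intro a ha
  rcases h a ha with h1 | h1
  · exact Or.inl h1
  · rcases h' a ha with h2 | h2
    · left
      rw [h2, sign_zero, sign_eq_zero_iff] at h1
      exact h1
    · exact Or.inr (h1.trans h2)

theorem face_anti {A B : Set (E →ₗ[ℚ] ℚ)} (h : A ⊆ B) (y : E) : face B y ⊆ face A y :=
  fun _ hx a ha => hx a (h ha)

theorem SameSign.symm {A : Set (E →ₗ[ℚ] ℚ)} {x y : E} (h : SameSign A x y) : SameSign A y x :=
  fun a ha => (h a ha).symm

theorem SameSign.trans {A : Set (E →ₗ[ℚ] ℚ)} {x y z : E} (h : SameSign A x y)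
    (h' : SameSign A y z) : SameSign A x z := fun a ha => (h a ha).trans (h' a ha)

theorem SameSign.mem_face {A : Set (E →ₗ[ℚ] ℚ)} {x y : E} (h : SameSign A x y) :
    x ∈ face A y := fun a ha => Or.inr (h a ha)

/-- The half open segment from a point of the closed face of `y` to `y` has the signs of `y`. -/
theorem sameSign_segment {A : Set (E →ₗ[ℚ] ℚ)} {x y : E} (h : x ∈ face A y) {t : ℚ}
    (h0 : 0 < t) (h1 : t ≤ 1) : SameSign A (x + t • (y - x)) y := by
  intro a ha
  have e : a (x + t • (y - x)) = (1 - t) * a x + t * a y := by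
    simp only [map_add, map_smul, map_sub, smul_eq_mul]; ring
  rw [e]
  have ht : 0 ≤ 1 - t := by linarith
  rcases h a ha with h2 | h2
  · rw [h2, mul_zero, zero_add]
    rcases lt_trichotomy (a y) 0 with h3 | h3 | h3
    · rw [sign_neg h3, sign_neg (mul_neg_of_pos_of_neg h0 h3)]
    · rw [h3, mul_zero]
    · rw [sign_pos h3, sign_pos (mul_pos h0 h3)]
  · rcases lt_trichotomy (a y) 0 with h3 | h3 | h3
    · rw [sign_neg h3] at h2 ⊢
      rw [sign_eq_neg_one_iff] at h2 ⊢
      nlinarith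
    · rw [h3, sign_zero] at h2 ⊢
      rw [sign_eq_zero_iff] at h2 ⊢
      rw [h2]; ring
    · rw [sign_pos h3] at h2 ⊢
      rw [sign_eq_one_iff] at h2 ⊢
      nlinarith

/-- For small `t` the point `x + t (y - x)` has `x` in its closed face. -/
theorem exists_small {A : Set (E →ₗ[ℚ] ℚ)} (hA : A.Finite) (x y : E) :
    ∃ ε : ℚ, 0 < ε ∧ ∀ t : ℚ, 0 < t → t ≤ ε → x ∈ face A (x + t • (y - x)) ∧
      SameSign A (x + t • (y - x)) (x + ε • (y - x)) := by
  induction A, hA using Set.Finite.induction_on with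
  | empty => exact ⟨1, one_pos, fun t _ _ => ⟨fun a ha => absurd ha (by simp), fun a ha => absurd ha (by simp)⟩⟩
  | @insert a A _ _ ih =>
    obtain ⟨ε, hε, H⟩ := ih
    have key : ∃ δ : ℚ, 0 < δ ∧ δ ≤ ε ∧ ∀ t : ℚ, 0 < t → t ≤ δ →
        (a x = 0 ∨ sign (a x) = sign (a (x + t • (y - x)))) ∧
        sign (a (x + t • (y - x))) = sign (a (x + δ • (y - x))) := by
      have e : ∀ t : ℚ, a (x + t • (y - x)) = a x + t * (a y - a x) := by
        intro t; simp only [map_add, map_smul, map_sub, smul_eq_mul]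
      simp only [e]
      rcases lt_trichotomy (a x) 0 with h3 | h3 | h3
      · refine ⟨min ε (-(a x) / (2 * (|a y - a x| + 1))), ?_, min_le_left _ _, ?_⟩
        · apply lt_min hε
          apply div_pos (by linarith)
          positivity
        · have hneg : ∀ t : ℚ, 0 < t → t ≤ min ε (-(a x) / (2 * (|a y - a x| + 1))) →
              a x + t * (a y - a x) < 0 := by
            intro t h0 h1
            have h2 := le_trans h1 (min_le_right _ _)
            rw [le_div_iff₀ (by positivity)] at h2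
            have h4 : a y - a x ≤ |a y - a x| := le_abs_self _
            have h5 : 0 ≤ |a y - a x| := abs_nonneg _
            nlinarith
          intro t h0 h1
          have hn := hneg t h0 h1
          have hn' := hneg _ (lt_of_lt_of_le h0 h1) le_rfl
          rw [sign_neg hn, sign_neg h3, sign_neg hn']
          exact ⟨Or.inr rfl, rfl⟩
      · refine ⟨ε, hε, le_rfl, fun t h0 h1 => ⟨Or.inl h3, ?_⟩⟩
        rw [h3]
        simp only [zero_add, sub_zero]
        rw [sign_mul, sign_mul, sign_pos h0, sign_pos hε]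
      · refine ⟨min ε ((a x) / (2 * (|a y - a x| + 1))), ?_, min_le_left _ _, ?_⟩
        · apply lt_min hε
          apply div_pos (by linarith)
          positivity
        · have hneg : ∀ t : ℚ, 0 < t → t ≤ min ε ((a x) / (2 * (|a y - a x| + 1))) →
              0 < a x + t * (a y - a x) := by
            intro t h0 h1
            have h2 := le_trans h1 (min_le_right _ _)
            rw [le_div_iff₀ (by positivity)] at h2
            have h4 : -(a y - a x) ≤ |a y - a x| := neg_le_abs _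
            have h5 : 0 ≤ |a y - a x| := abs_nonneg _
            nlinarith
          intro t h0 h1
          have hn := hneg t h0 h1
          have hn' := hneg _ (lt_of_lt_of_le h0 h1) le_rfl
          rw [sign_pos hn, sign_pos h3, sign_pos hn']
          exact ⟨Or.inr rfl, rfl⟩
    obtain ⟨δ, hδ, hδε, H'⟩ := key
    refine ⟨δ, hδ, fun t h0 h1 => ⟨?_, ?_⟩⟩
    · intro b hb
      rcases Set.mem_insert_iff.1 hb with rfl | hb
      · exact (H' t h0 h1).1
      · exact (H t h0 (h1.trans hδε)).1 b hb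
    · intro b hb
      rcases Set.mem_insert_iff.1 hb with rfl | hb
      · exact (H' t h0 h1).2
      · exact ((H t h0 (h1.trans hδε)).2 b hb).trans ((H δ hδ hδε).2 b hb).symm

theorem Pol.con {s : Set E} (h : Pol s) : Con s := by
  obtain ⟨_, A, hA, H⟩ := h
  exact ⟨A, hA, fun x y hxy hx => H x hx (fun a ha => Or.inr (hxy a ha).symm)⟩

theorem Pol.union {s t : Set E} (hs : Pol s) (ht : Pol t) : Pol (s ∪ t) := by
  obtain ⟨h0, A, hA, H⟩ := hs
  obtain ⟨_, B, hB, K⟩ := ht
  refine ⟨Or.inl h0, A ∪ B, hA.union hB, ?_⟩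
  rintro y (hy | hy)
  · exact (face_anti Set.subset_union_left y).trans ((H y hy).trans Set.subset_union_left)
  · exact (face_anti Set.subset_union_right y).trans ((K y hy).trans Set.subset_union_right)

theorem Pol.inter {s t : Set E} (hs : Pol s) (ht : Pol t) : Pol (s ∩ t) := by
  obtain ⟨h0, A, hA, H⟩ := hs
  obtain ⟨k0, B, hB, K⟩ := ht
  refine ⟨⟨h0, k0⟩, A ∪ B, hA.union hB, ?_⟩
  rintro y ⟨hy, hy'⟩
  exact Set.subset_inter ((face_anti Set.subset_union_left y).trans (H y hy))
    ((face_anti Set.subset_union_right y).trans (K y hy'))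

theorem pol_univ : Pol (Set.univ : Set E) :=
  ⟨trivial, ∅, Set.finite_empty, fun _ _ => Set.subset_univ _⟩

theorem pol_face {A : Set (E →ₗ[ℚ] ℚ)} (hA : A.Finite) (y : E) : Pol (face A y) :=
  ⟨zero_mem_face A y, A, hA, fun _ hz _ hx => face_trans hx hz⟩

theorem Con.union {s t : Set E} (hs : Con s) (ht : Con t) : Con (s ∪ t) := by
  obtain ⟨A, hA, H⟩ := hs
  obtain ⟨B, hB, K⟩ := ht
  refine ⟨A ∪ B, hA.union hB, fun x y hxy hx => ?_⟩
  rcases hx with hx | hx
  · exact Or.inl (H x y (fun a ha => hxy a (Or.inl ha)) hx)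
  · exact Or.inr (K x y (fun a ha => hxy a (Or.inr ha)) hx)

theorem Con.inter {s t : Set E} (hs : Con s) (ht : Con t) : Con (s ∩ t) := by
  obtain ⟨A, hA, H⟩ := hs
  obtain ⟨B, hB, K⟩ := ht
  exact ⟨A ∪ B, hA.union hB, fun x y hxy hx => ⟨H x y (fun a ha => hxy a (Or.inl ha)) hx.1,
    K x y (fun a ha => hxy a (Or.inr ha)) hx.2⟩⟩

theorem Con.compl {s : Set E} (hs : Con s) : Con sᶜ := by
  obtain ⟨A, hA, H⟩ := hs
  exact ⟨A, hA, fun x y hxy hx hy => hx (H y x hxy.symm hy)⟩

theorem Con.diff {s t : Set E} (hs : Con s) (ht : Con t) : Con (s \ t) := hs.inter ht.compl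

theorem subset_cl (s : Set E) : s ⊆ cl s := by
  intro x hx
  refine Or.inr ⟨x, hx, fun t _ _ => ?_⟩
  simpa using hx

theorem cl_mono {s t : Set E} (h : s ⊆ t) : cl s ⊆ cl t := by
  rintro x (rfl | ⟨y, hy, H⟩)
  · exact Or.inl rfl
  · exact Or.inr ⟨y, h hy, fun r h0 h1 => h (H r h0 h1)⟩

/-- The closure of a constructible set in terms of faces. -/
theorem mem_cl_iff {A : Set (E →ₗ[ℚ] ℚ)} (hA : A.Finite) {s : Set E}
    (hs : ∀ x y, SameSign A x y → x ∈ s → y ∈ s) (x : E) :
    x ∈ cl s ↔ x = 0 ∨ ∃ y ∈ s, x ∈ face A y := by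
  constructor
  · rintro (rfl | ⟨y, hy, H⟩)
    · exact Or.inl rfl
    · obtain ⟨ε, hε, K⟩ := exists_small hA x y
      right
      exact ⟨x + (min ε 1) • (y - x), H _ (lt_min hε one_pos) (min_le_right _ _),
        (K _ (lt_min hε one_pos) (min_le_left _ _)).1⟩
  · rintro (rfl | ⟨y, hy, H⟩)
    · exact Or.inl rfl
    · exact Or.inr ⟨y, hy, fun t h0 h1 => hs y _ (sameSign_segment H h0 h1).symm hy⟩

/-- A finite set of forms without common zeros. -/
theorem exists_pointed (E : Type*) [AddCommGroup E] [Module ℚ E] [FiniteDimensional ℚ E] :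
    ∃ A : Set (E →ₗ[ℚ] ℚ), A.Finite ∧ ∀ x : E, (∀ a ∈ A, a x = 0) → x = 0 := by
  let b := Module.finBasis ℚ E
  refine ⟨Set.range (fun i => b.coord i), Set.finite_range _, fun x hx => ?_⟩
  exact b.ext_elem (fun i => by simpa using hx _ ⟨i, rfl⟩)

theorem pol_zero [FiniteDimensional ℚ E] : Pol ({0} : Set E) := by
  obtain ⟨A, hA, H⟩ := exists_pointed E
  refine ⟨rfl, A, hA, ?_⟩
  rintro y rfl x hx
  refine H x (fun a ha => ?_)
  rcases hx a ha with h | h
  · exact h
  · rw [map_zero, sign_zero, sign_eq_zero_iff] at h; exact h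

theorem Con.pol_cl [FiniteDimensional ℚ E] {s : Set E} (hs : Con s) : Pol (cl s) := by
  obtain ⟨A, hA, H⟩ := hs
  rcases Set.eq_empty_or_nonempty s with rfl | ⟨z, hz⟩
  · have : cl (∅ : Set E) = {0} := by
      ext x; simp [cl]
    rw [this]; exact pol_zero
  refine ⟨Or.inl rfl, A, hA, fun y hy x hx => ?_⟩
  rw [mem_cl_iff hA H] at hy ⊢
  rcases hy with rfl | ⟨z, hz, hyz⟩
  · right
    exact ⟨z, hz, fun a ha => Or.inl (by
      rcases hx a ha with h | h
      · exact h
      · rw [map_zero, sign_zero, sign_eq_zero_iff] at h; exact h)⟩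
  · exact Or.inr ⟨z, hz, face_trans hx hyz⟩

/-- Closed polyhedral sets contain the closure of each of their subsets. -/
theorem Pol.cl_subset {s F : Set E} (hF : Pol F) (h : s ⊆ F) : cl s ⊆ F := by
  obtain ⟨h0, A, hA, H⟩ := hF
  rintro x (rfl | ⟨y, _, K⟩)
  · exact h0
  · obtain ⟨ε, hε, L⟩ := exists_small hA x y
    have h1 := K (min ε 1) (lt_min hε one_pos) (min_le_right _ _)
    exact H _ (h h1) (L _ (lt_min hε one_pos) (min_le_left _ _)).1

theorem Pol.cl_eq {F : Set E} (hF : Pol F) : cl F = F :=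
  subset_antisymm (hF.cl_subset subset_rfl) (subset_cl F)

theorem cl_empty : cl (∅ : Set E) = {0} := by
  ext x; simp [cl]

theorem cl_cl [FiniteDimensional ℚ E] {s : Set E} (hs : Con s) : cl (cl s) = cl s :=
  hs.pol_cl.cl_eq

theorem zero_mem_cl (s : Set E) : (0 : E) ∈ cl s := Or.inl rfl

theorem cl_union [FiniteDimensional ℚ E] {s t : Set E} (hs : Con s) (ht : Con t) :
    cl (s ∪ t) = cl s ∪ cl t :=
  subset_antisymm
    ((hs.pol_cl.union ht.pol_cl).cl_subset (Set.union_subset_union (subset_cl s) (subset_cl t)))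
    (Set.union_subset (cl_mono Set.subset_union_left) (cl_mono Set.subset_union_right))

end Pool.Agent.Work.MP_552024_lc.PLS
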