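import Pool.Agent.Work.MP_552024_lc.PLS.Zsets
import Pool.Agent.Work.MP_552024_lc.B7
import Pool.Agent.Work.MP_552024_lc.B9

set_option autoImplicit false

namespace Pool.Agent.Work.MP_552024_lc.PLS

open Pool.Agent.MP552024

/-! Piecewise linear maps become linear on the cones of a refinement. -/

section gen

variable {E : Type*} [AddCommGroup E] [Module ℚ E] {E' : Type*} [AddCommGroup E'] [Module ℚ E']

theorem PLOn.sum {ι : Type*} (s : Finset ι) {f : ι → E → E'} {t : Set E}
    (h : ∀ i, PLOn (f i) t) : PLOn (fun x => ∑ i ∈ s, f i x) t := by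
  classical
  induction s using Finset.induction_on with
  | empty => exact (plOn_linear (0 : E →ₗ[ℚ] E') t).congr (fun x _ => by simp)
  | insert a s ha ih =>
    exact ((h a).add ih).congr (fun x _ => by rw [Finset.sum_insert ha])

theorem PLOn.pi {ι : Type*} [Fintype ι] {f : ι → E → ℚ} {t : Set E}
    (h : ∀ i, PLOn (f i) t) : PLOn (fun x i => f i x) t := by
  classical
  have h1 : ∀ i, PLOn (fun x => (LinearMap.single ℚ (fun _ : ι => ℚ) i) (f i x)) t :=
    fun i => (h i).lin _
  refine (PLOn.sum Finset.univ h1).congr (fun x _ => ?_)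
  funext j
  rw [Finset.sum_apply, Finset.sum_eq_single j]
  · simp
  · intro i _ hi
    simp [hi.symm]
  · intro h; exact absurd (Finset.mem_univ _) h

end gen

theorem castR_single {V : Type} [DecidableEq V] (i : V) :
    castR (Pi.single i (1 : ℚ)) = pt i := by
  funext j
  unfold castR pt
  by_cases h : j = i
  · subst h; simp
  · simp [h]

theorem castR_inj {V : Type} {x y : V → ℚ} (h : castR x = castR y) : x = y := by
  funext i
  have := congrFun h i
  unfold castR at this
  exact_mod_cast this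

theorem Qset_single {G : Type} [AddCommGroup G] [Lattice G] (M : Mdl G) [DecidableEq M.V]
    (i : M.V) : Pi.single i (1 : ℚ) ∈ Qset M := by
  show castR _ ∈ M.Δ.Z
  rw [castR_single]; exact Cx.pt_mem i

/-- values of elements at rational points -/
theorem ev_rat {G : Type} [AddCommGroup G] [Lattice G] (M : Mdl G) (g : G) :
    ∃ b : (M.V → ℚ) → ℚ, PLOn b (Qset M) ∧ ∀ x ∈ Qset M, M.ev g (castR x) = (b x : ℝ) := by
  obtain ⟨a, ha, h⟩ := M.chart.mem g
  obtain ⟨b, hb, hab⟩ := LP_pl ha
  exact ⟨b, hb.mono (Set.subset_univ _), fun x hx => by rw [h _ hx, hab]⟩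

theorem exists_refine {G : Type} [AddCommGroup G] [Lattice G] [IsOrderedAddMonoid G] (M : Mdl G)
    {E' : Type*} [AddCommGroup E'] [Module ℚ E'] {f : (M.V → ℚ) → E'} (hf : PLOn f (Qset M)) :
    ∃ (N : Mdl G) (_ : DecidableEq N.V) (T : (N.V → ℚ) →ₗ[ℚ] (M.V → ℚ))
      (g' : (M.V → ℚ) → (N.V → ℚ)),
      PLInv T g' (Qset N) (Qset M) ∧ (∀ i v, ∃ k : ℤ, T (Pi.single i 1) v = k) ∧
      (∀ z ∈ Qset N, f (T z) = ∑ i, z i • f (T (Pi.single i 1))) ∧
      ∀ g : G, ∀ z ∈ Qset N, N.ev g (castR z) = M.ev g (castR (T z)) := by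
  classical
  obtain ⟨A, hA, Λ, hΛ, H⟩ := hf
  have hlin : S_linall := prfB9 prfB7
  have : Finite A := hA
  have h1 : ∀ a : A, ∃ D : ℕ, 0 < D ∧ ∃ c : M.V → ℤ, (∀ x, (D : ℚ) * a.1 x = ∑ i, (c i : ℚ) * x i) :=
    fun a => form_int a.1
  choose D hD c hc using h1
  choose ga hga using (fun a : A => M.exists_lin (c a))
  obtain ⟨N, hMN, hN⟩ := hlin G M (A × Bool) (fun p => if p.2 then ga p.1 else ga p.1 ⊔ 0)
  obtain ⟨T0, hT1, hT2, hT3⟩ := hMN.map
  choose hv hhv using (fun v : M.V => M.exists_lin (Pi.single v 1))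
  choose t ht using (fun v : M.V => hMN.lin (hhv v))
  have hhv' : ∀ v, ∀ z ∈ M.Δ.Z, M.ev (hv v) z = z v := by
    intro v z hz
    rw [hhv v z hz, Finset.sum_eq_single v]
    · simp
    · intro u _ hu; simp [hu]
    · intro h; exact absurd (Finset.mem_univ _) h
  let T : (N.V → ℚ) →ₗ[ℚ] (M.V → ℚ) :=
    { toFun := fun z v => ∑ i, (t v i : ℚ) * z i
      map_add' := by
        intro x y; funext v
        simp only [Pi.add_apply, mul_add, Finset.sum_add_distrib]
      map_smul' := by
        intro r x; funext v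
        simp only [Pi.smul_apply, smul_eq_mul, RingHom.id_apply, Finset.mul_sum]
        exact Finset.sum_congr rfl (fun i _ => by ring) }
  have hT0 : ∀ z ∈ N.Δ.Z, ∀ v, T0 z v = ∑ i, (t v i : ℝ) * z i := by
    intro z hz v
    rw [← hhv' v _ (hT1 z hz), ← hT3 _ z hz, ht v z hz]
  have hT : ∀ z ∈ Qset N, castR (T z) = T0 (castR z) := by
    intro z hz
    funext v
    rw [hT0 _ hz v]
    show (((∑ i, (t v i : ℚ) * z i : ℚ)) : ℝ) = _
    push_cast
    rfl
  have hTQ : ∀ z ∈ Qset N, T z ∈ Qset M := by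
    intro z hz
    show castR (T z) ∈ M.Δ.Z
    rw [hT z hz]; exact hT1 _ hz
  have hev : ∀ g : G, ∀ z ∈ Qset N, N.ev g (castR z) = M.ev g (castR (T z)) := by
    intro g z hz
    rw [hT z hz]; exact hT3 g _ hz
  choose hk hhk using (fun i : N.V => N.chart.hat i)
  choose b hb hhb using (fun i : N.V => ev_rat M (hk i))
  have hTs : ∀ i v, T (Pi.single i 1) v = t v i := by
    intro i v
    show ∑ j, (t v j : ℚ) * (Pi.single i (1 : ℚ) : N.V → ℚ) j = t v i
    rw [Finset.sum_eq_single i]
    · simp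
    · intro u _ hu; simp [hu]
    · intro h; exact absurd (Finset.mem_univ _) h
  refine ⟨N, inferInstance, T, fun x i => b i x, ⟨plOn_linear T _, PLOn.pi hb, hTQ, ?_, ?_, ?_⟩,
    fun i v => ⟨t v i, hTs i v⟩, ?_, hev⟩
  · intro x hx
    obtain ⟨z, hz, hzx⟩ := hT2 _ hx
    have h2 : castR (fun i => b i x) = z := by
      funext i
      show ((b i x : ℚ) : ℝ) = z i
      rw [← hhb i x hx, ← hzx, ← hT3 _ z hz, hhk i z hz]
    show castR _ ∈ N.Δ.Z
    rw [h2]; exact hz
  · intro z hz
    apply castR_inj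
    funext i
    show ((b i (T z) : ℚ) : ℝ) = _
    rw [← hhb i _ (hTQ z hz), ← hev _ z hz, hhk i _ hz]
  · intro x hx
    obtain ⟨z, hz, hzx⟩ := hT2 _ hx
    have h2 : castR (fun i => b i x) = z := by
      funext i
      show ((b i x : ℚ) : ℝ) = z i
      rw [← hhb i x hx, ← hzx, ← hT3 _ z hz, hhk i z hz]
    have h3 : (fun i => b i x) ∈ Qset N := by
      show castR _ ∈ N.Δ.Z
      rw [h2]; exact hz
    apply castR_inj
    rw [hT _ h3, h2, hzx]
  · intro z hz
    obtain ⟨L, _, hL⟩ := H (T z) (hTQ z hz)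
    have h2 : f (T z) = L (T z) := hL _ (hTQ z hz) (mem_face_self A _)
    -- the vertices of the support lie in the face of `T z`
    have h3 : ∀ i, z i ≠ 0 → T (Pi.single i 1) ∈ face A (T z) := by
      intro i hi a ha
      obtain ⟨d, hd⟩ := hN (⟨a, ha⟩, true)
      obtain ⟨e, he⟩ := hN (⟨a, ha⟩, false)
      simp only [if_true] at hd
      simp only [Bool.false_eq_true, if_false] at he
      -- values of the form
      have h4 : ∀ y ∈ Qset N, ((D ⟨a, ha⟩ : ℚ) * a (T y) : ℚ) = ∑ j, (d j : ℚ) * y j := by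
        intro y hy
        have h5 := hd _ hy
        rw [hev _ y hy, hga ⟨a, ha⟩ _ (hTQ y hy)] at h5
        have h6 : ((((D ⟨a, ha⟩ : ℚ) * a (T y) : ℚ)) : ℝ) = ((∑ j, (d j : ℚ) * y j : ℚ) : ℝ) := by
          rw [hc ⟨a, ha⟩]
          push_cast
          exact h5
        exact_mod_cast h6
      have hs : ∀ j, ((D ⟨a, ha⟩ : ℚ) * a (T (Pi.single j 1)) : ℚ) = d j := by
        intro j
        rw [h4 _ (Qset_single N j), Finset.sum_eq_single j]
        · simp
        · intro u _ hu; simp [hu]
        · intro h; exact absurd (Finset.mem_univ _) h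
      have h5 : ∀ j, e j = max (d j) 0 := by
        intro j
        have h6 := he.pt j
        rw [N.chart.sup _ _ _ (Cx.pt_mem j), hd.pt j, N.chart.zero (Cx.pt_mem j)] at h6
        exact_mod_cast h6.symm
      have h6 : max (∑ j, (d j : ℚ) * z j) 0 = ∑ j, ((max (d j) 0 : ℤ) : ℚ) * z j := by
        have h7 := he _ hz
        rw [N.chart.sup _ _ _ hz, hd _ hz, N.chart.zero hz] at h7
        have h8 : ((max (∑ j, (d j : ℚ) * z j) 0 : ℚ) : ℝ) =
            ((∑ j, ((max (d j) 0 : ℤ) : ℚ) * z j : ℚ) : ℝ) := by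
          push_cast
          rw [show (∑ j, (d j : ℝ) * (z j : ℝ)) = ∑ j, (d j : ℝ) * castR z j from rfl, h7]
          refine Finset.sum_congr rfl (fun j _ => ?_)
          rw [h5 j]; push_cast; rfl
        exact_mod_cast h8
      have hz0 : ∀ j, 0 ≤ z j := fun j => by
        have := hz.1 j
        unfold castR at this
        exact_mod_cast this
      have hDpos : (0 : ℚ) < D ⟨a, ha⟩ := by exact_mod_cast hD ⟨a, ha⟩
      have hTz := h4 z hz
      have hsi := hs i
      have hzi : 0 < z i := lt_of_le_of_ne (hz0 i) (Ne.symm hi)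
      rcases lt_trichotomy (d i) 0 with h7 | h7 | h7
      · right
        have h8 : (d i : ℚ) < 0 := by exact_mod_cast h7
        have h9 : a (T (Pi.single i 1)) < 0 := by nlinarith
        rw [sign_neg h9]
        symm
        rw [sign_eq_neg_one_iff]
        have h10 : ∑ j, (d j : ℚ) * z j < 0 := by
          by_contra hcon
          push Not at hcon
          rw [max_eq_left hcon] at h6
          have h11 : ∑ j, (d j : ℚ) * z j < ∑ j, ((max (d j) 0 : ℤ) : ℚ) * z j := by
            refine Finset.sum_lt_sum (fun j _ => ?_) ⟨i, Finset.mem_univ _, ?_⟩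
            · refine mul_le_mul_of_nonneg_right ?_ (hz0 j)
              exact_mod_cast le_max_left (d j) 0
            · refine mul_lt_mul_of_pos_right ?_ hzi
              rw [max_eq_right h7.le]; exact_mod_cast h7
          linarith
        nlinarith
      · left
        have h8 : (d i : ℚ) = 0 := by exact_mod_cast h7
        rw [h8] at hsi
        exact (mul_eq_zero.1 hsi).resolve_left hDpos.ne'
      · right
        have h8 : (0 : ℚ) < d i := by exact_mod_cast h7
        have h9 : 0 < a (T (Pi.single i 1)) := by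
          by_contra hcon
          push Not at hcon
          nlinarith
        rw [sign_pos h9]
        symm
        rw [sign_eq_one_iff]
        have h10 : 0 < ∑ j, (d j : ℚ) * z j := by
          by_contra hcon
          push Not at hcon
          rw [max_eq_right hcon] at h6
          have h11 : 0 < ∑ j, ((max (d j) 0 : ℤ) : ℚ) * z j := by
            refine Finset.sum_pos' (fun j _ => ?_) ⟨i, Finset.mem_univ _, ?_⟩
            · refine mul_nonneg ?_ (hz0 j)
              exact_mod_cast le_max_right (d j) 0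
            · refine mul_pos ?_ hzi
              rw [max_eq_left h7.le]; exact h8
          linarith
        by_contra hcon
        push Not at hcon
        nlinarith
    have h4 : ∀ i, z i • f (T (Pi.single i 1)) = z i • L (T (Pi.single i 1)) := by
      intro i
      by_cases hi : z i = 0
      · rw [hi, zero_smul, zero_smul]
      · rw [hL _ (hTQ _ (Qset_single N i)) (h3 i hi)]
    rw [h2, Finset.sum_congr rfl (fun i _ => h4 i)]
    conv_lhs => rw [pi_eq_sum_univ' z, map_sum, map_sum]
    exact Finset.sum_congr rfl (fun i _ => by rw [map_smul, map_smul])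

/-- piecewise linear functions with integral values at integral points are elements -/
theorem exists_elt {G : Type} [AddCommGroup G] [Lattice G] [IsOrderedAddMonoid G] (M : Mdl G)
    {h : (M.V → ℚ) → ℚ} (hh : PLOn h (Qset M))
    (hi : ∀ x ∈ Qset M, (∀ v, ∃ k : ℤ, x v = k) → ∃ k : ℤ, h x = k) :
    ∃ g : G, ∀ x ∈ Qset M, M.ev g (castR x) = (h x : ℝ) := by
  obtain ⟨N, _, T, g', hT, hTi, hTf, hev⟩ := exists_refine M hh
  have h1 : ∀ i, ∃ k : ℤ, h (T (Pi.single i 1)) = k := fun i =>
    hi _ (hT.mapsf _ (Qset_single N i)) (hTi i)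
  choose c hc using h1
  obtain ⟨g, hg⟩ := N.exists_lin c
  refine ⟨g, fun x hx => ?_⟩
  have hz := hT.mapsg x hx
  have h2 := hT.fg x hx
  rw [← h2, ← hev g _ hz, hg _ hz, hTf _ hz]
  push_cast
  refine Finset.sum_congr rfl (fun i _ => ?_)
  rw [hc i, smul_eq_mul]
  push_cast
  rw [mul_comm]
  rfl

end Pool.Agent.Work.MP_552024_lc.PLS
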