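import Pool.Agent.Work.MP_552024_lc.PLS.Bey1

set_option autoImplicit false

namespace Pool.Agent.Work.MP_552024_lc.PLS

open Pool.Agent.MP552024

/-! Stellar subdivisions of complexes and of their realisations. -/

/-- the realisation over an ordered field -/
def StK (K : Type) [Field K] [LinearOrder K] {V : Type} (Δ : Cx V) : Set (V → K) :=
  {x | (∀ i, 0 ≤ x i) ∧ Δ.face {i | x i ≠ 0}}

theorem mem_StK_iff {V : Type} (Δ : Cx V) (x : V → ℚ) : x ∈ StK ℚ Δ ↔ castR x ∈ Δ.Z := by
  have e : {i | castR x i ≠ 0} = {i | x i ≠ 0} := by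
    ext i; simp [castR]
  constructor
  · rintro ⟨h1, h2⟩
    refine ⟨fun i => ?_, ?_⟩
    · show (0 : ℝ) ≤ ((x i : ℚ) : ℝ)
      exact_mod_cast h1 i
    · rw [e]; exact h2
  · rintro ⟨h1, h2⟩
    refine ⟨fun i => ?_, ?_⟩
    · have : (0 : ℝ) ≤ ((x i : ℚ) : ℝ) := h1 i
      exact_mod_cast this
    · rw [e] at h2; exact h2

theorem Qset_eq {G : Type} [AddCommGroup G] [Lattice G] (M : Mdl G) : Qset M = StK ℚ M.Δ := by
  ext x; exact (mem_StK_iff _ x).symm

/-- stellar subdivision -/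
def starCx {V : Type} (Δ : Cx V) (τ : Finset V) (hτ : Δ.face (τ : Set V))
    (h2 : ∃ i ∈ τ, ∃ j ∈ τ, i ≠ j) : Cx (Option V) where
  face s := ¬ (∀ i ∈ τ, some i ∈ s) ∧ Δ.face ({v | some v ∈ s} ∪ {v | none ∈ s ∧ v ∈ τ})
  down := by
    rintro s t hts ⟨h1, h3⟩
    refine ⟨fun h => h1 (fun i hi => hts (h i hi)), Δ.down _ _ ?_ h3⟩
    rintro v (hv | hv)
    · exact Or.inl (hts hv)
    · exact Or.inr ⟨hts hv.1, hv.2⟩
  vert := by
    rintro (_ | v)
    · refine ⟨?_, Δ.down _ _ ?_ hτ⟩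
      · intro h
        obtain ⟨i, hi, _⟩ := h2
        have := h i hi
        simp at this
      · rintro w (hw | hw)
        · simp at hw
        · exact hw.2
    · refine ⟨?_, Δ.down _ _ ?_ (Δ.vert v)⟩
      · intro h
        obtain ⟨i, hi, j, hj, hij⟩ := h2
        have h3 := h i hi
        have h4 := h j hj
        simp only [Set.mem_singleton_iff, Option.some.injEq] at h3 h4
        exact hij (h3.trans h4.symm)
      · rintro w (hw | hw)
        · simpa using hw
        · simp at hw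
  empt := by
    obtain ⟨i, hi, _⟩ := h2
    refine ⟨fun h => ?_, Δ.down _ _ ?_ Δ.empt⟩
    · exact absurd (h i hi) (by simp)
    · rintro w (hw | hw)
      · simp at hw
      · simp at hw

section gen

variable {K : Type} [Field K] [LinearOrder K] [IsStrictOrderedRing K] {V : Type}

/-- from the subdivided realisation to the old one -/
def sT (q : V → K) (z : Option V → K) : V → K := fun l => z (some l) + q l * z none

/-- the inverse -/
noncomputable def sR (τ : Finset V) (hne : τ.Nonempty) (q : V → K) (z : V → K) : Option V → K :=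
  fun o => match o with
    | none => τ.inf' hne (fun v => z v / q v)
    | some l => z l - q l * τ.inf' hne (fun v => z v / q v)

variable {Δ : Cx V} {τ : Finset V} {hτ : Δ.face (τ : Set V)} {h2 : ∃ i ∈ τ, ∃ j ∈ τ, i ≠ j}
  {q : V → K}

theorem sT_mem (hq : ∀ v ∈ τ, 0 < q v) (hq0 : ∀ v ∉ τ, q v = 0) {z : Option V → K}
    (hz : z ∈ StK K (starCx Δ τ hτ h2)) : sT q z ∈ StK K Δ := by
  obtain ⟨h1, _, h3⟩ := hz
  have hqn : ∀ v, 0 ≤ q v := fun v => by
    by_cases hv : v ∈ τ
    · exact (hq v hv).le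
    · exact (hq0 v hv).ge
  refine ⟨fun l => add_nonneg (h1 _) (mul_nonneg (hqn l) (h1 _)), Δ.down _ _ ?_ h3⟩
  intro l hl
  by_contra hcon
  simp only [Set.mem_union, Set.mem_ofPred_eq, ne_eq, not_or, not_and, not_not] at hcon
  apply hl
  show z (some l) + q l * z none = 0
  rw [hcon.1]
  by_cases h4 : z none = 0
  · rw [h4]; ring
  · rw [hq0 l (hcon.2 h4)]; ring

theorem sR_mem (hne : τ.Nonempty) (hq : ∀ v ∈ τ, 0 < q v) (hq0 : ∀ v ∉ τ, q v = 0) {z : V → K}
    (hz : z ∈ StK K Δ) : sR τ hne q z ∈ StK K (starCx Δ τ hτ h2) := by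
  obtain ⟨h1, h3⟩ := hz
  set m := τ.inf' hne (fun v => z v / q v) with hm
  have hm0 : 0 ≤ m := Finset.le_inf' _ _ (fun v hv => div_nonneg (h1 v) (hq v hv).le)
  have hml : ∀ v ∈ τ, q v * m ≤ z v := by
    intro v hv
    have h4 : m ≤ z v / q v := Finset.inf'_le (fun v => z v / q v) hv
    rw [le_div_iff₀ (hq v hv)] at h4
    rw [mul_comm]; exact h4
  refine ⟨?_, ?_, Δ.down _ _ ?_ h3⟩
  · rintro (_ | l)
    · exact hm0
    · show 0 ≤ z l - q l * m
      by_cases hl : l ∈ τ
      · exact sub_nonneg.2 (hml l hl)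
      · rw [hq0 l hl]; simpa using h1 l
  · intro h
    obtain ⟨i, hi, hmi⟩ := Finset.exists_mem_eq_inf' hne (fun v => z v / q v)
    apply h i hi
    show z i - q i * m = 0
    rw [hm, hmi]
    have := (hq i hi).ne'
    field_simp
    ring
  · rintro l (hl | ⟨hl1, hl2⟩)
    · intro h4
      apply hl
      show z l - q l * m = 0
      by_cases h5 : l ∈ τ
      · have h6 := hml l h5
        rw [h4] at h6
        have h7 : q l * m = 0 := le_antisymm h6 (mul_nonneg (hq l h5).le hm0)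
        rw [h4, h7, sub_zero]
      · rw [h4, hq0 l h5]; ring
    · intro h4
      have h6 := hml l hl2
      rw [h4] at h6
      have h7 : q l * m = 0 := le_antisymm h6 (mul_nonneg (hq l hl2).le hm0)
      exact hl1 ((mul_eq_zero.1 h7).resolve_left (hq l hl2).ne')

theorem sR_sT (hne : τ.Nonempty) (hq : ∀ v ∈ τ, 0 < q v) {z : Option V → K}
    (hz : z ∈ StK K (starCx Δ τ hτ h2)) : sR τ hne q (sT q z) = z := by
  obtain ⟨h1, h3, _⟩ := hz
  have hm : τ.inf' hne (fun v => sT q z v / q v) = z none := by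
    apply le_antisymm
    · push Not at h3
      obtain ⟨i, hi, h4⟩ := h3
      have h5 : z (some i) = 0 := by
        by_contra h; exact h4 h
      refine (Finset.inf'_le (fun v => sT q z v / q v) hi).trans ?_
      show (z (some i) + q i * z none) / q i ≤ z none
      rw [h5, zero_add, mul_div_cancel_left₀ _ (hq i hi).ne']
    · refine Finset.le_inf' _ _ (fun v hv => ?_)
      show z none ≤ (z (some v) + q v * z none) / q v
      rw [le_div_iff₀ (hq v hv)]
      have := h1 (some v)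
      linarith [mul_comm (q v) (z none)]
  funext o
  rcases o with _ | l
  · exact hm
  · show sT q z l - q l * τ.inf' hne (fun v => sT q z v / q v) = z (some l)
    rw [hm]
    show z (some l) + q l * z none - q l * z none = z (some l)
    ring

omit [IsStrictOrderedRing K] in
theorem sT_sR (hne : τ.Nonempty) (z : V → K) : sT q (sR τ hne q z) = z := by
  funext l
  show z l - q l * τ.inf' hne (fun v => z v / q v) + q l * τ.inf' hne (fun v => z v / q v) = z l
  ring

end gen

theorem LP_inf' {V W : Type} (τ : Finset V) (hne : τ.Nonempty) (f : V → (W → ℝ) → ℝ)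
    (hf : ∀ v, f v ∈ LP W) : (fun z => τ.inf' hne (fun v => f v z)) ∈ LP W := by
  classical
  induction hne using Finset.Nonempty.cons_induction with
  | singleton a => simpa using hf a
  | cons a s has hs ih =>
    have := LP_min (hf a) ih
    simpa only [Finset.inf'_cons hs] using this

/-- charts of stellar subdivisions -/
theorem chart_star {G : Type} [AddCommGroup G] [Lattice G] {V : Type} {Δ : Cx V}
    {ev : G → (V → ℝ) → ℝ} (hc : IsChart Δ ev) (τ : Finset V) (hτ : Δ.face (τ : Set V))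
    (h2 : ∃ i ∈ τ, ∃ j ∈ τ, i ≠ j) :
    ∃ ev' : G → (Option V → ℝ) → ℝ, IsChart (starCx Δ τ hτ h2) ev' := by
  classical
  have hne : τ.Nonempty := let ⟨i, hi, _⟩ := h2; ⟨i, hi⟩
  set q : V → ℝ := fun v => if v ∈ τ then 1 else 0 with hq
  have hq1 : ∀ v ∈ τ, 0 < q v := fun v hv => by simp [hq, hv]
  have hq0 : ∀ v ∉ τ, q v = 0 := fun v hv => by simp [hq, hv]
  have hinf : (fun z : V → ℝ => τ.inf' hne (fun v => z v / q v)) ∈ LP V := by
    have h3 := LP_inf' τ hne (fun v => fun z : V → ℝ => z v) (fun v => LP_coord v)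
    convert h3 using 1
    funext z
    refine Finset.inf'_congr hne rfl (fun v hv => ?_)
    simp [hq, hv]
  refine ⟨_, hc.transport (sT q) (sR τ hne q) (fun v => ?_) (fun o => ?_)
    (fun z hz => sT_mem hq1 hq0 hz) (fun z hz => sR_mem hne hq1 hq0 hz)
    (fun z hz => sR_sT (h2 := h2) hne hq1 hz) (fun z _ => sT_sR hne z)⟩
  · by_cases hv : v ∈ τ
    · have := LP_add (LP_coord (some v)) (LP_coord (none : Option V))
      simpa [sT, hq, hv] using this
    · simpa [sT, hq, hv] using (LP_coord (some v))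
  · rcases o with _ | l
    · exact hinf
    · by_cases hl : l ∈ τ
      · have := LP_sub (LP_coord l) hinf
        simpa [sR, hq, hl] using this
      · simpa [sR, hq, hl] using (LP_coord l)

/-- rational stellar subdivisions -/
theorem plinv_star {V : Type} [Fintype V] {Δ : Cx V} (τ : Finset V) (hτ : Δ.face (τ : Set V))
    (h2 : ∃ i ∈ τ, ∃ j ∈ τ, i ≠ j) (q : V → ℚ) (hq : ∀ v ∈ τ, 0 < q v)
    (hq0 : ∀ v ∉ τ, q v = 0) :
    ∃ g, PLInv (sT q) g (StK ℚ (starCx Δ τ hτ h2)) (StK ℚ Δ) := by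
  classical
  have hne : τ.Nonempty := let ⟨i, hi, _⟩ := h2; ⟨i, hi⟩
  have hcoord : ∀ (W : Type) (o : W) (t : Set (W → ℚ)), PLOn (fun z : W → ℚ => z o) t :=
    fun W o t => plOn_linear (LinearMap.proj o : (W → ℚ) →ₗ[ℚ] ℚ) t
  have hinf : ∀ t : Set (V → ℚ), PLOn (fun z : V → ℚ => τ.inf' hne (fun v => z v / q v)) t := by
    intro t
    refine PLOn.inf' hne (f := fun v (z : V → ℚ) => z v / q v) (fun v _ => ?_)
    refine ((hcoord V v t).smul (q v)⁻¹).congr (fun x _ => ?_)
    rw [smul_eq_mul, div_eq_inv_mul]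
  refine ⟨sR τ hne q, PLOn.pi (fun l => ?_), PLOn.pi (fun o => ?_), fun z hz => sT_mem hq hq0 hz,
    fun z hz => sR_mem hne hq hq0 hz, fun z hz => sR_sT hne hq hz, fun z _ => sT_sR hne z⟩
  · exact ((hcoord (Option V) (some l) _).add ((hcoord (Option V) none _).smul (q l))).congr
      (fun x _ => rfl)
  · rcases o with _ | l
    · exact hinf _
    · exact ((hcoord V l _).sub ((hinf _).smul (q l))).congr (fun x _ => rfl)

theorem PLInv.congr {E E' : Type*} [AddCommGroup E] [Module ℚ E] [AddCommGroup E'] [Module ℚ E']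
    {f f' : E → E'} {g : E' → E} {s : Set E} {t : Set E'} (h : PLInv f g s t)
    (hf : ∀ x ∈ s, f' x = f x) : PLInv f' g s t :=
  ⟨h.plf.congr hf, h.plg, fun x hx => by rw [hf x hx]; exact h.mapsf x hx, h.mapsg,
    fun x hx => by rw [hf x hx]; exact h.gf x hx,
    fun y hy => by rw [hf _ (h.mapsg y hy)]; exact h.fg y hy⟩

/-- the linear map with columns `w` -/
def Wm {V U : Type} [Fintype V] (w : V → U → ℤ) : (V → ℚ) →ₗ[ℚ] (U → ℚ) where
  toFun x u := ∑ v, x v * (w v u : ℚ)
  map_add' x y := by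
    funext u
    simp only [Pi.add_apply, add_mul, Finset.sum_add_distrib]
  map_smul' r x := by
    funext u
    simp only [Pi.smul_apply, smul_eq_mul, RingHom.id_apply, Finset.mul_sum]
    exact Finset.sum_congr rfl (fun i _ => by ring)

theorem Wm_apply {V U : Type} [Fintype V] (w : V → U → ℤ) (x : V → ℚ) (u : U) :
    Wm w x u = ∑ v, x v * (w v u : ℚ) := rfl

/-- integral vectors -/
def IsInt {U : Type} (x : U → ℚ) : Prop := ∀ u, ∃ k : ℤ, x u = k

/-- integral realisations with primitive vertices -/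
structure Rlz {V U : Type} [Fintype V] (Q : Set (U → ℚ)) (Δ : Cx V) (w : V → U → ℤ) : Prop where
  inv : ∃ g, PLInv (Wm w) g (StK ℚ Δ) Q
  prim : ∀ v (r : ℚ), 0 < r → r < 1 → ¬ IsInt (fun u => r * (w v u : ℚ))

theorem Rlz.star {V U : Type} [Fintype V] {Q : Set (U → ℚ)} {Δ : Cx V} {w : V → U → ℤ}
    (h : Rlz Q Δ w) (τ : Finset V) (hτ : Δ.face (τ : Set V))
    (h2 : ∃ i ∈ τ, ∃ j ∈ τ, i ≠ j) (q : V → ℚ) (hq : ∀ v ∈ τ, 0 < q v)
    (hq0 : ∀ v ∉ τ, q v = 0) (w0 : U → ℤ) (hw0 : ∀ u, Wm w q u = w0 u)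
    (hp : ∀ r : ℚ, 0 < r → r < 1 → ¬ IsInt (fun u => r * (w0 u : ℚ))) :
    Rlz Q (starCx Δ τ hτ h2) (fun o : Option V => o.elim w0 w) := by
  obtain ⟨g, hg⟩ := h.inv
  obtain ⟨g', hg'⟩ := plinv_star τ hτ h2 q hq hq0
  refine ⟨⟨_, (hg'.trans hg).congr (fun z _ => ?_)⟩, ?_⟩
  · funext u
    rw [Wm_apply, Wm_apply, Fintype.sum_option]
    simp only [Option.elim_none, Option.elim_some]
    rw [← hw0 u, Wm_apply, Finset.mul_sum, ← Finset.sum_add_distrib]
    refine Finset.sum_congr rfl (fun v _ => ?_)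
    simp only [sT]
    ring
  · rintro (_ | v)
    · exact hp
    · exact h.prim v

end Pool.Agent.Work.MP_552024_lc.PLS
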