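import Pool.Agent.Work.MP_552024_lc.PLS.Bey2

set_option autoImplicit false

namespace Pool.Agent.Work.MP_552024_lc.PLS

open Pool.Agent.MP552024

/-! Desingularisation. -/

/-- the lattice points of the half-open parallelepiped -/
def Gs {V U : Type} [Fintype V] (w : V → U → ℤ) (s : Set V) : Set (V → ℚ) :=
  {q | (∀ v, 0 ≤ q v ∧ q v < 1) ∧ (∀ v, v ∉ s → q v = 0) ∧ IsInt (Wm w q)}

theorem Gs_zero {V U : Type} [Fintype V] (w : V → U → ℤ) (s : Set V) : (0 : V → ℚ) ∈ Gs w s :=
  ⟨fun v => by simp, fun v _ => rfl, fun u => ⟨0, by simp [map_zero]⟩⟩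

theorem Gs_mem_St {V U : Type} [Fintype V] {w : V → U → ℤ} {s : Set V} {Δ : Cx V}
    (hs : Δ.face s) {q : V → ℚ} (hq : q ∈ Gs w s) : q ∈ StK ℚ Δ :=
  ⟨fun v => (hq.1 v).1, Δ.down _ _ (fun v hv => by
    by_contra hcon; exact hv (hq.2.1 v hcon)) hs⟩

theorem Gs_finite {V U : Type} [Fintype V] [Fintype U] {Q : Set (U → ℚ)} {Δ : Cx V}
    {w : V → U → ℤ} (h : Rlz Q Δ w) {s : Set V} (hs : Δ.face s) : (Gs w s).Finite := by
  classical
  obtain ⟨g, hg⟩ := h.inv
  set B : ℤ := ∑ v, ∑ u, |w v u| with hB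
  have hfin : (Set.Icc (fun _ : U => -B) (fun _ : U => B)).Finite := Set.finite_Icc _ _
  have h1 : ∀ q ∈ Gs w s, ∃ y : U → ℤ, Wm w q = fun u => (y u : ℚ) := by
    intro q hq
    choose y hy using hq.2.2
    exact ⟨y, funext hy⟩
  choose! y hy using h1
  refine Set.Finite.of_injOn (f := y) (t := Set.Icc (fun _ : U => -B) (fun _ : U => B)) ?_ ?_ hfin
  · intro q hq
    have hb : ∀ u, |(y q u : ℚ)| ≤ B := by
      intro u
      have h2 : (y q u : ℚ) = ∑ v, q v * (w v u : ℚ) := by
        rw [← Wm_apply, hy q hq]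
      rw [h2]
      refine (Finset.abs_sum_le_sum_abs _ _).trans ?_
      rw [hB]
      push_cast
      refine Finset.sum_le_sum (fun v _ => ?_)
      rw [abs_mul, abs_of_nonneg (hq.1 v).1]
      have h3 : |(w v u : ℚ)| ≤ ∑ u, |(w v u : ℚ)| :=
        Finset.single_le_sum (f := fun u => |(w v u : ℚ)|) (fun _ _ => abs_nonneg _)
          (Finset.mem_univ u)
      have h4 : q v * |(w v u : ℚ)| ≤ 1 * |(w v u : ℚ)| :=
        mul_le_mul_of_nonneg_right (hq.1 v).2.le (abs_nonneg _)
      linarith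
    constructor
    · intro u
      have := (abs_le.1 (hb u)).1
      exact_mod_cast this
    · intro u
      have := (abs_le.1 (hb u)).2
      exact_mod_cast this
  · intro q hq q' hq' hqq
    have h2 : Wm w q = Wm w q' := by rw [hy q hq, hy q' hq', hqq]
    rw [← hg.gf q (Gs_mem_St hs hq), ← hg.gf q' (Gs_mem_St hs hq'), h2]

/-- restriction to the old vertices -/
theorem Gs_old {V U : Type} [Fintype V] [Fintype U] (w : V → U → ℤ) (w0 : U → ℤ)
    (s : Set (Option V)) (hs : none ∉ s) :
    (Gs (fun o : Option V => o.elim w0 w) s).ncard = (Gs w {v | some v ∈ s}).ncard := by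
  classical
  have e : ∀ p : Option V → ℚ, p none = 0 →
      Wm (fun o : Option V => o.elim w0 w) p = Wm w (fun v => p (some v)) := by
    intro p hp
    funext u
    rw [Wm_apply, Wm_apply, Fintype.sum_option, hp]
    simp only [Option.elim_none, Option.elim_some, zero_mul, zero_add]
  refine Set.ncard_congr (fun p _ v => p (some v)) ?_ ?_ ?_
  · intro p hp
    refine ⟨fun v => hp.1 _, fun v hv => hp.2.1 _ hv, ?_⟩
    have := hp.2.2
    rwa [e p (hp.2.1 _ hs)] at this
  · intro p p' hp hp' hpp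
    funext o
    rcases o with _ | v
    · rw [hp.2.1 _ hs, hp'.2.1 _ hs]
    · exact congrFun hpp v
  · intro q hq
    refine ⟨fun o => o.elim 0 q, ⟨?_, ?_, ?_⟩, rfl⟩
    · rintro (_ | v)
      · simp
      · exact hq.1 v
    · rintro (_ | v) hv
      · rfl
      · exact hq.2.1 v hv
    · rw [e _ rfl]; exact hq.2.2

theorem fract_inj {a b c : ℚ} (ha : 0 ≤ a) (ha1 : a < 1) (hb : 0 ≤ b) (hb1 : b < 1)
    (h : Int.fract (a + c) = Int.fract (b + c)) : a = b := by
  obtain ⟨z, hz⟩ := Int.fract_eq_fract.1 h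
  have h1 : a - b = z := by linarith
  have h2 : z = 0 := by
    have h3 : (z : ℚ) < 1 := by linarith
    have h4 : (-1 : ℚ) < z := by linarith
    have h5 : z < 1 := by exact_mod_cast h3
    have h6 : -1 < z := by exact_mod_cast h4
    omega
  rw [h2] at h1
  simp at h1
  linarith

theorem Gs_new {V U : Type} [Fintype V] [Fintype U] {Q : Set (U → ℚ)} {Δ : Cx V}
    {w : V → U → ℤ} (h : Rlz Q Δ w) (τ : Finset V) (q : V → ℚ) (hq : ∀ v ∈ τ, 0 < q v)
    (hq0 : ∀ v ∉ τ, q v = 0) (hq1 : ∀ v, q v < 1) (w0 : U → ℤ) (hw0 : ∀ u, Wm w q u = w0 u)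
    (s : Set (Option V)) (hsτ : ¬ ∀ i ∈ τ, some i ∈ s) (hρ : Δ.face ({v | some v ∈ s} ∪ τ)) :
    (Gs (fun o : Option V => o.elim w0 w) s).ncard < (Gs w ({v | some v ∈ s} ∪ τ)).ncard := by
  classical
  push Not at hsτ
  obtain ⟨v0, hv0, hv0s⟩ := hsτ
  set F : (Option V → ℚ) → V → ℚ := fun p v => Int.fract (p (some v) + q v * p none) with hF
  have hqn : ∀ v, 0 ≤ q v := fun v => by
    by_cases hv : v ∈ τ
    · exact (hq v hv).le
    · exact (hq0 v hv).ge
  -- the coordinate `v0`
  have hc : ∀ p ∈ Gs (fun o : Option V => o.elim w0 w) s, F p v0 = q v0 * p none := by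
    intro p hp
    have h1 : p (some v0) = 0 := hp.2.1 _ hv0s
    show Int.fract (p (some v0) + q v0 * p none) = _
    rw [h1, zero_add]
    refine Int.fract_eq_self.2 ⟨mul_nonneg (hqn _) (hp.1 _).1, ?_⟩
    have h2 := (hp.1 none).2
    have h3 := (hp.1 none).1
    nlinarith [hq1 v0, hqn v0]
  have hinj : Set.InjOn F (Gs (fun o : Option V => o.elim w0 w) s) := by
    intro p hp p' hp' hpp
    have h1 : p none = p' none := by
      have h2 := congrFun hpp v0
      rw [hc p hp, hc p' hp'] at h2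
      exact mul_left_cancel₀ (hq v0 hv0).ne' h2
    funext o
    rcases o with _ | v
    · exact h1
    · have h2 : Int.fract (p (some v) + q v * p none) = Int.fract (p' (some v) + q v * p' none) :=
        congrFun hpp v
      rw [← h1] at h2
      exact fract_inj (hp.1 _).1 (hp.1 _).2 (hp'.1 _).1 (hp'.1 _).2 h2
  rw [← hinj.ncard_image]
  refine Set.ncard_lt_ncard ?_ (Gs_finite h hρ)
  constructor
  · rintro _ ⟨p, hp, rfl⟩
    refine ⟨fun v => ⟨Int.fract_nonneg _, Int.fract_lt_one _⟩, fun v hv => ?_, ?_⟩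
    · simp only [Set.mem_union, Set.mem_ofPred_eq, Finset.mem_coe, not_or] at hv
      show Int.fract (p (some v) + q v * p none) = 0
      rw [hp.2.1 _ hv.1, hq0 v hv.2]
      simp
    · intro u
      obtain ⟨k, hk⟩ := hp.2.2 u
      refine ⟨k - ∑ v, ⌊p (some v) + q v * p none⌋ * w v u, ?_⟩
      rw [Wm_apply, Fintype.sum_option] at hk
      simp only [Option.elim_none, Option.elim_some] at hk
      rw [← hw0 u, Wm_apply, Finset.mul_sum, ← Finset.sum_add_distrib] at hk
      rw [Wm_apply]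
      push_cast
      rw [← hk, ← Finset.sum_sub_distrib]
      refine Finset.sum_congr rfl (fun v _ => ?_)
      show Int.fract (p (some v) + q v * p none) * _ = _
      rw [Int.fract]
      ring
  · intro hsub
    have hqG : q ∈ Gs w ({v | some v ∈ s} ∪ (τ : Set V)) := by
      refine ⟨fun v => ⟨hqn v, hq1 v⟩, fun v hv => hq0 v (fun h' => hv (Or.inr h')), fun u =>
        ⟨w0 u, hw0 u⟩⟩
    obtain ⟨p, hp, hpq⟩ := hsub hqG
    have h1 := hc p hp
    rw [hpq] at h1
    have h2 := (hp.1 none).2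
    have h3 := hq v0 hv0
    nlinarith

/-- unimodular realisations -/
def Unim {V U : Type} [Fintype V] (Δ : Cx V) (w : V → U → ℤ) : Prop :=
  ∀ x ∈ StK ℚ Δ, IsInt (Wm w x) → IsInt x

theorem unim_of_card {V U : Type} [Fintype V] [Fintype U] {Q : Set (U → ℚ)} {Δ : Cx V}
    {w : V → U → ℤ} (h : Rlz Q Δ w) (h1 : ∀ s, Δ.face s → (Gs w s).ncard ≤ 1) : Unim Δ w := by
  classical
  intro x hx hxi
  set s : Set V := {v | x v ≠ 0} with hs
  have hG : (fun v => Int.fract (x v)) ∈ Gs w s := by
    refine ⟨fun v => ⟨Int.fract_nonneg _, Int.fract_lt_one _⟩, fun v hv => ?_, fun u => ?_⟩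
    · have : x v = 0 := by
        by_contra hcon; exact hv hcon
      show Int.fract (x v) = 0
      rw [this]; simp
    · obtain ⟨k, hk⟩ := hxi u
      refine ⟨k - ∑ v, ⌊x v⌋ * w v u, ?_⟩
      rw [Wm_apply] at hk ⊢
      push_cast
      rw [← hk, ← Finset.sum_sub_distrib]
      refine Finset.sum_congr rfl (fun v _ => ?_)
      rw [Int.fract]; ring
  have h2 := (Set.ncard_le_one (Gs_finite h hx.2)).1 (h1 s hx.2) _ hG _ (Gs_zero w s)
  intro v
  have h3 : Int.fract (x v) = 0 := congrFun h2 v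
  exact ⟨⌊x v⌋, by rw [Int.fract] at h3; linarith⟩

/-- the good subdivision point -/
theorem exists_point {V U : Type} [Fintype V] [Fintype U] {Q : Set (U → ℚ)} {Δ : Cx V}
    {w : V → U → ℤ} (h : Rlz Q Δ w) {s : Set V} (hs : Δ.face s) (h1 : 1 < (Gs w s).ncard) :
    ∃ (τ : Finset V) (q : V → ℚ) (w0 : U → ℤ), (τ : Set V) ⊆ s ∧ (∃ i ∈ τ, ∃ j ∈ τ, i ≠ j) ∧
      (∀ v ∈ τ, 0 < q v) ∧ (∀ v ∉ τ, q v = 0) ∧ (∀ v, q v < 1) ∧ (∀ u, Wm w q u = w0 u) ∧
      ∀ r : ℚ, 0 < r → r < 1 → ¬ IsInt (fun u => r * (w0 u : ℚ)) := by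
  classical
  have hfin := Gs_finite h hs
  have hne : (Gs w s \ {0}).Nonempty := by
    by_contra hcon
    rw [Set.not_nonempty_iff_eq_empty, Set.sdiff_eq_empty] at hcon
    have := Set.ncard_le_ncard hcon
    rw [Set.ncard_singleton] at this
    omega
  obtain ⟨q, ⟨hqG, hq0⟩, hmin⟩ := Set.exists_min_image (Gs w s \ {0}) (fun q => ∑ v, q v)
    hfin.sdiff hne
  choose w0 hw0 using hqG.2.2
  have hpos : ∀ v, q v ≠ 0 → 0 < q v := fun v hv => lt_of_le_of_ne (hqG.1 v).1 (Ne.symm hv)
  obtain ⟨i, hi⟩ : ∃ i, q i ≠ 0 := by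
    by_contra hcon
    push Not at hcon
    exact hq0 (funext hcon)
  refine ⟨Finset.univ.filter (fun v => q v ≠ 0), q, w0, ?_, ?_, ?_, ?_, fun v => (hqG.1 v).2, hw0,
    ?_⟩
  · intro v hv
    simp only [Finset.coe_filter, Finset.mem_univ, true_and, Set.mem_ofPred_eq] at hv
    by_contra hcon
    exact hv (hqG.2.1 v hcon)
  · by_contra hcon
    push Not at hcon
    have h2 : ∀ j, j ≠ i → q j = 0 := by
      intro j hj
      by_contra hj0
      exact hj (hcon j (by simp [hj0]) i (by simp [hi]))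
    refine h.prim i (q i) (hpos i hi) (hqG.1 i).2 (fun u => ?_)
    obtain ⟨k, hk⟩ := hqG.2.2 u
    refine ⟨k, ?_⟩
    rw [Wm_apply, Finset.sum_eq_single i] at hk
    · exact hk
    · intro j _ hj; rw [h2 j hj, zero_mul]
    · intro h; exact absurd (Finset.mem_univ _) h
  · intro v hv
    simp only [Finset.mem_filter, Finset.mem_univ, true_and] at hv
    exact hpos v hv
  · intro v hv
    simpa using hv
  · intro r hr0 hr1 hint
    have h2 : (fun v => r * q v) ∈ Gs w s \ {0} := by
      refine ⟨⟨fun v => ⟨mul_nonneg hr0.le (hqG.1 v).1, ?_⟩, fun v hv => ?_, fun u => ?_⟩, ?_⟩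
      · have := (hqG.1 v).1
        have := (hqG.1 v).2
        nlinarith
      · show r * q v = 0
        rw [hqG.2.1 v hv, mul_zero]
      · obtain ⟨k, hk⟩ := hint u
        refine ⟨k, ?_⟩
        refine Eq.trans ?_ hk
        show Wm w (fun v => r * q v) u = r * (w0 u : ℚ)
        rw [← hw0 u, Wm_apply, Wm_apply, Finset.mul_sum]
        exact Finset.sum_congr rfl (fun v _ => by ring)
      · intro h3
        have h4 : r * q i = 0 := congrFun h3 i
        exact hi ((mul_eq_zero.1 h4).resolve_left hr0.ne')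
    have h3 : ∑ v, q v ≤ ∑ v, r * q v := hmin _ h2
    rw [← Finset.mul_sum] at h3
    have h4 : 0 < ∑ v, q v :=
      Finset.sum_pos' (fun v _ => (hqG.1 v).1) ⟨i, Finset.mem_univ _, hpos i hi⟩
    nlinarith

theorem desing {U : Type} [Fintype U] {Q : Set (U → ℚ)} (Pr : ∀ V : Type, Cx V → Prop)
    (hPr : ∀ (V : Type) (Δ : Cx V) (τ : Finset V) (hτ : Δ.face (τ : Set V))
      (h2 : ∃ i ∈ τ, ∃ j ∈ τ, i ≠ j), Pr V Δ → Pr (Option V) (starCx Δ τ hτ h2)) (m : ℕ) :
    ∀ (c : ℕ) (V : Type) [Fintype V] (Δ : Cx V) (w : V → U → ℤ), Rlz Q Δ w → Pr V Δ →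
      (∀ s, Δ.face s → (Gs w s).ncard ≤ m) → {s | Δ.face s ∧ (Gs w s).ncard = m}.ncard ≤ c →
      ∃ (V' : Type) (_ : Fintype V') (Δ' : Cx V') (w' : V' → U → ℤ), Rlz Q Δ' w' ∧ Pr V' Δ' ∧
        Unim Δ' w' := by
  classical
  induction m with
  | zero =>
    intro c V _ Δ w h hP h1 _
    exact ⟨V, _, Δ, w, h, hP, unim_of_card h (fun s hs => (h1 s hs).trans (by omega))⟩
  | succ m ihm =>
    intro c
    induction c with
    | zero =>
      intro V _ Δ w h hP h1 h2
      have h3 : ∀ s, Δ.face s → (Gs w s).ncard ≤ m := by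
        intro s hs
        have h4 := h1 s hs
        by_contra hcon
        have h5 : s ∈ {s | Δ.face s ∧ (Gs w s).ncard = m + 1} := ⟨hs, by omega⟩
        have h6 := Set.ncard_pos (Set.toFinite {s | Δ.face s ∧ (Gs w s).ncard = m + 1})
        have := h6.2 ⟨s, h5⟩
        omega
      exact ihm _ V Δ w h hP h3 le_rfl
    | succ c ihc =>
      intro V _ Δ w h hP h1 h2
      rcases Nat.eq_zero_or_pos m with hm | hm
      · exact ⟨V, _, Δ, w, h, hP, unim_of_card h (fun s hs => (h1 s hs).trans (by omega))⟩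
      by_cases hex : ∃ s, Δ.face s ∧ (Gs w s).ncard = m + 1
      · obtain ⟨s, hs, hsm⟩ := hex
        obtain ⟨τ, q, w0, hτs, ht2, hq, hq0, hq1, hw0, hp⟩ := exists_point h hs (by omega)
        have hτ : Δ.face (τ : Set V) := Δ.down _ _ hτs hs
        have hnew : ∀ s' : Set (Option V), (starCx Δ τ hτ ht2).face s' → none ∈ s' →
            (Gs (fun o : Option V => o.elim w0 w) s').ncard < m + 1 := by
          rintro s' ⟨h3, h4⟩ hn
          have h5 : Δ.face ({v | some v ∈ s'} ∪ (τ : Set V)) := by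
            refine Δ.down _ _ ?_ h4
            rintro v (hv | hv)
            · exact Or.inl hv
            · exact Or.inr ⟨hn, hv⟩
          exact lt_of_lt_of_le (Gs_new h τ q hq hq0 hq1 w0 hw0 s' h3 h5) (h1 _ h5)
        have hold : ∀ s' : Set (Option V), (starCx Δ τ hτ ht2).face s' → none ∉ s' →
            Δ.face {v | some v ∈ s'} := by
          rintro s' ⟨h3, h4⟩ hn
          exact Δ.down _ _ (fun v hv => Or.inl hv) h4
        refine ihc (Option V) (starCx Δ τ hτ ht2) (fun o => o.elim w0 w)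
          (h.star τ hτ ht2 q hq hq0 w0 hw0 hp) (hPr V Δ τ hτ ht2 hP) ?_ ?_
        · intro s' hs'
          by_cases hn : none ∈ s'
          · exact (hnew s' hs' hn).le
          · rw [Gs_old w w0 s' hn]
            exact h1 _ (hold s' hs' hn)
        · have h3 : ((fun s' : Set (Option V) => {v | some v ∈ s'}) ''
              {s' | (starCx Δ τ hτ ht2).face s' ∧
                (Gs (fun o : Option V => o.elim w0 w) s').ncard = m + 1}) ⊆
              {s | Δ.face s ∧ (Gs w s).ncard = m + 1} \ {s} := by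
            rintro _ ⟨s', ⟨hs', hs'm⟩, rfl⟩
            have hn : none ∉ s' := fun hn => by
              have := hnew s' hs' hn
              omega
            refine ⟨⟨hold s' hs' hn, by rw [← Gs_old w w0 s' hn]; exact hs'm⟩, ?_⟩
            intro heq
            rw [Set.mem_singleton_iff] at heq
            apply hs'.1
            intro i hi
            have : i ∈ (fun s' : Set (Option V) => {v | some v ∈ s'}) s' := by
              rw [heq]; exact hτs hi
            exact this
          have h4 : Set.InjOn (fun s' : Set (Option V) => {v | some v ∈ s'})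
              {s' | (starCx Δ τ hτ ht2).face s' ∧
                (Gs (fun o : Option V => o.elim w0 w) s').ncard = m + 1} := by
            rintro s' ⟨hs', hs'm⟩ s'' ⟨hs'', hs''m⟩ heq
            have hn : none ∉ s' := fun hn => by
              have := hnew s' hs' hn
              omega
            have hn' : none ∉ s'' := fun hn => by
              have := hnew s'' hs'' hn
              omega
            ext o
            rcases o with _ | v
            · simp [hn, hn']
            · have : v ∈ {v | some v ∈ s'} ↔ v ∈ {v | some v ∈ s''} := by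
                have h5 : {v | some v ∈ s'} = {v | some v ∈ s''} := heq
                rw [h5]
              exact this
          rw [← h4.ncard_image]
          have h5 := Set.ncard_le_ncard h3 (Set.toFinite _)
          have h6 : ({s | Δ.face s ∧ (Gs w s).ncard = m + 1} \ {s}).ncard + 1 =
              {s | Δ.face s ∧ (Gs w s).ncard = m + 1}.ncard :=
            Set.ncard_sdiff_singleton_add_one ⟨hs, hsm⟩ (Set.toFinite _)
          omega
      · push Not at hex
        have h3 : ∀ s, Δ.face s → (Gs w s).ncard ≤ m := by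
          intro s hs
          have h4 := h1 s hs
          have h5 := hex s hs
          omega
        exact ihm _ V Δ w h hP h3 le_rfl

end Pool.Agent.Work.MP_552024_lc.PLS
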