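import Pool.Agent.Work.MP_552024_lc.PLS.ArrComp

set_option autoImplicit false

namespace Pool.Agent.Work.MP_552024_lc.PLS

/-- Coordinate vectors indexed by natural numbers. -/
def ee (n : ℕ) (i : ℕ) : Fin n → ℚ := fun j => if (j : ℕ) = i then 1 else 0

abbrev Frm (n : ℕ) := (Fin n → ℚ) →ₗ[ℚ] ℚ

theorem form_expand {n : ℕ} (b : Frm n) (x : Fin n → ℚ) :
    b x = ∑ j : Fin n, x j * b (ee n j) := by
  have h1 : x = ∑ j : Fin n, x j • ee n (j : ℕ) := by
    ext i
    simp only [ee, Finset.sum_apply, Pi.smul_apply, smul_eq_mul, mul_ite, mul_one, mul_zero]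
    rw [Finset.sum_eq_single i]
    · simp
    · intro j _ hj
      rw [if_neg]
      exact fun hh => hj (Fin.ext hh.symm)
    · simp
  conv_lhs => rw [h1]
  rw [map_sum]
  simp only [map_smul, smul_eq_mul]

/-- A system of normalised forms closed under normalised differences. -/
structure CAD {k : ℕ} (H : ℕ → Set (Frm (k + 1))) (l : ℕ) : Prop where
  fin : ∀ i, (H i).Finite
  rng : ∀ i, ∀ h ∈ H i, i < l
  mon : ∀ i, ∀ h ∈ H i, h (ee (k + 1) i) = 1
  dif : ∀ i, ∀ h ∈ H i, ∀ h' ∈ H i, h ≠ h' →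
    (∃ c : ℚ, c ≠ 0 ∧ ∀ x, (h - h') x = c * x 0) ∨
      ∃ j, j < i ∧ ∃ g ∈ H j, ∃ c : ℚ, c ≠ 0 ∧ h - h' = c • g

/-- Every form in `B` is represented. -/
def RepB {k : ℕ} (H : ℕ → Set (Frm (k + 1))) (B : Set (Frm (k + 1))) : Prop :=
  ∀ b ∈ B, b ≠ 0 → (∃ c : ℚ, c ≠ 0 ∧ ∀ x, b x = c * x 0) ∨
      ∃ j, ∃ g ∈ H j, ∃ c : ℚ, c ≠ 0 ∧ b = c • g

theorem exists_cad (k l : ℕ) : ∀ B : Set (Frm (k + 1)), B.Finite →
    (∀ b ∈ B, ∀ j, l + 1 ≤ j → b (ee (k + 1) j) = 0) →
    ∃ H : ℕ → Set (Frm (k + 1)), CAD H (l + 1) ∧ RepB H B ∧ H 0 = ∅ := by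
  induction l with
  | zero =>
    intro B hB hsup
    refine ⟨fun _ => ∅, ⟨fun _ => Set.finite_empty, fun i h hh => hh.elim,
      fun i h hh => hh.elim, fun i h hh => hh.elim⟩, ?_, rfl⟩
    intro b hb hb0
    left
    have hx : ∀ x, b x = b (ee (k + 1) 0) * x 0 := by
      intro x
      rw [form_expand b x, Finset.sum_eq_single 0]
      · simp [mul_comm]
      · intro j _ hj
        rw [hsup b hb (j : ℕ) (by
          have : (j : ℕ) ≠ 0 := fun hh => hj (Fin.ext hh)
          omega), mul_zero]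
      · simp
    refine ⟨b (ee (k + 1) 0), fun hh => hb0 ?_, hx⟩
    apply LinearMap.ext
    intro x
    rw [hx x, hh, zero_mul]; rfl
  | succ l ih =>
    intro B hB hsup
    set N : Set (Frm (k + 1)) :=
      (fun b : Frm (k + 1) => (b (ee (k + 1) (l + 1)))⁻¹ • b) '' {b ∈ B | b (ee (k + 1) (l + 1)) ≠ 0}
      with hN
    have hNf : N.Finite := (hB.subset (fun b hb => hb.1)).image _
    have hN1 : ∀ h ∈ N, h (ee (k + 1) (l + 1)) = 1 := by
      rintro _ ⟨b, ⟨hb, hb0⟩, rfl⟩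
      show (b (ee (k + 1) (l + 1)))⁻¹ • b (ee (k + 1) (l + 1)) = 1
      rw [smul_eq_mul]; exact inv_mul_cancel₀ hb0
    have hN2 : ∀ h ∈ N, ∀ j, l + 2 ≤ j → h (ee (k + 1) j) = 0 := by
      rintro _ ⟨b, ⟨hb, hb0⟩, rfl⟩ j hj
      show (b (ee (k + 1) (l + 1)))⁻¹ • b (ee (k + 1) j) = 0
      rw [hsup b hb j hj, smul_zero]
    set B' : Set (Frm (k + 1)) := {b ∈ B | b (ee (k + 1) (l + 1)) = 0} ∪
      Set.image2 (fun h h' => h - h') N N with hB'
    have hB'f : B'.Finite := (hB.subset (fun b hb => hb.1)).union (hNf.image2 _ hNf)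
    obtain ⟨H', hH', hrep, hH0⟩ := ih B' hB'f (by
      rintro b (⟨hb, hb0⟩ | ⟨h, hh, h', hh', rfl⟩) j hj
      · rcases Nat.eq_or_lt_of_le hj with h1 | h1
        · rw [← h1]; exact hb0
        · exact hsup b hb j h1
      · show h (ee (k + 1) j) - h' (ee (k + 1) j) = 0
        rcases Nat.eq_or_lt_of_le hj with h1 | h1
        · rw [← h1, hN1 h hh, hN1 h' hh', sub_self]
        · rw [hN2 h hh j h1, hN2 h' hh' j h1, sub_self])
    refine ⟨fun i => if i = l + 1 then N else H' i, ⟨?_, ?_, ?_, ?_⟩, ?_, ?_⟩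
    · intro i; split_ifs
      · exact hNf
      · exact hH'.fin i
    · intro i h hh; split_ifs at hh with h1
      · omega
      · have := hH'.rng i h hh; omega
    · intro i h hh; split_ifs at hh with h1
      · rw [h1]; exact hN1 h hh
      · exact hH'.mon i h hh
    · intro i h hh h' hh' hne
      split_ifs at hh hh' with h1
      · have h2 : h - h' ∈ B' := Or.inr ⟨h, hh, h', hh', rfl⟩
        rcases hrep _ h2 (sub_ne_zero.2 hne) with h3 | ⟨j, g, hg, c, hc, h3⟩
        · exact Or.inl h3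
        · have h4 := hH'.rng j g hg
          refine Or.inr ⟨j, by omega, g, ?_, c, hc, h3⟩
          show g ∈ if j = l + 1 then N else H' j
          rw [if_neg (by omega)]; exact hg
      · rcases hH'.dif i h hh h' hh' hne with h3 | ⟨j, hj, g, hg, c, hc, h3⟩
        · exact Or.inl h3
        · have h4 := hH'.rng j g hg
          refine Or.inr ⟨j, hj, g, ?_, c, hc, h3⟩
          show g ∈ if j = l + 1 then N else H' j
          rw [if_neg (by omega)]; exact hg
    · intro b hb hb0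
      by_cases h1 : b (ee (k + 1) (l + 1)) = 0
      · rcases hrep b (Or.inl ⟨hb, h1⟩) hb0 with h3 | ⟨j, g, hg, c, hc, h3⟩
        · exact Or.inl h3
        · have h4 := hH'.rng j g hg
          refine Or.inr ⟨j, g, ?_, c, hc, h3⟩
          show g ∈ if j = l + 1 then N else H' j
          rw [if_neg (by omega)]; exact hg
      · refine Or.inr ⟨l + 1, (b (ee (k + 1) (l + 1)))⁻¹ • b, ?_, b (ee (k + 1) (l + 1)), h1, ?_⟩
        · show _ ∈ if l + 1 = l + 1 then N else H' (l + 1)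
          rw [if_pos rfl]
          exact ⟨b, ⟨hb, h1⟩, rfl⟩
        · rw [smul_smul, mul_inv_cancel₀ h1, one_smul]
    · show (if 0 = l + 1 then N else H' 0) = ∅
      rw [if_neg (by omega)]; exact hH0

end Pool.Agent.Work.MP_552024_lc.PLS
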