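import Pool.Agent.Work.MP_552024_lc.PLS.ConnLem

set_option autoImplicit false

namespace Pool.Agent.Work.MP_552024_lc.PLS

variable {E : Type*} [AddCommGroup E] [Module ℚ E]

theorem sameSign_convex {A : Set (E →ₗ[ℚ] ℚ)} {x y z : E} (hx : SameSign A x z)
    (hy : SameSign A y z) {t : ℚ} (h0 : 0 ≤ t) (h1 : t ≤ 1) : SameSign A (x + t • (y - x)) z := by
  rcases h0.eq_or_lt with rfl | h0
  · simpa using hx
  · exact (sameSign_segment (hx.trans hy.symm).mem_face h0 h1).trans hy

/-- Sign cells intersected with an invariant set are connected. -/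
theorem conn_cell {A : Set (E →ₗ[ℚ] ℚ)} (z : E) : Conn {x | SameSign A x z} :=
  conn_of_convex ⟨z, fun _ _ => rfl⟩ (fun _ hx _ hy _ h0 h1 => sameSign_convex hx hy h0 h1)

namespace Comp

variable {M M' C F : Set E}

theorem pol (h : Comp M C F) : Pol M := h.1
theorem sub (h : Comp M C F) : M ⊆ C := h.2.1
theorem cl_eq (h : Comp M C F) : cl (M \ F) = M := h.2.2.1
theorem conn (h : Comp M C F) : Conn (M \ F) := h.2.2.2.1
theorem nonempty (h : Comp M C F) : (M \ F).Nonempty := h.2.2.2.1.1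
theorem rest (h : Comp M C F) : cl (C \ (F ∪ M)) ∩ M ⊆ F := h.2.2.2.2

/-- Two components that meet are equal. -/
theorem eq_of_meet [FiniteDimensional ℚ E] (hC : Pol C) (hF : Pol F) (h : Comp M C F)
    (h' : Comp M' C F) (hne : ((M \ F) ∩ (M' \ F)).Nonempty) : M = M' := by
  have key : ∀ {M M' : Set E}, Comp M C F → Comp M' C F → ((M \ F) ∩ (M' \ F)).Nonempty →
      M ⊆ M' := by
    intro M M' h h' hne
    have hcon : Con (C \ (F ∪ M')) := hC.con.diff (hF.con.union h'.pol.con)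
    have := h.conn.2 M' (cl (C \ (F ∪ M'))) h'.pol hcon.pol_cl (by
      intro x hx
      by_cases hxM : x ∈ M'
      · exact Or.inl hxM
      · exact Or.inr (subset_cl _ ⟨h.sub hx.1, fun hh => hh.elim hx.2 hxM⟩)) (by
      intro x hx hxM hxc
      exact hx.2 (h'.rest ⟨hxc, hxM⟩))
    rcases this with h1 | h1
    · rw [← h.cl_eq]
      exact h'.pol.cl_subset h1
    · obtain ⟨x, hx, hx'⟩ := hne
      exact absurd (h'.rest ⟨h1 hx, hx'.1⟩) hx'.2
  exact subset_antisymm (key h h' hne) (key h' h (by rwa [Set.inter_comm]))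

end Comp

/-- The relation generating the components. -/
def adj (A : Set (E →ₗ[ℚ] ℚ)) (O : Set E) (x y : E) : Prop := x ∈ O ∧ y ∈ O ∧ x ∈ face A y

/-- Each point of `C \ F` lies in a component, and there are only finitely many components. -/
theorem exists_components [FiniteDimensional ℚ E] {C F : Set E} (hC : Pol C) (hF : Pol F) :
    ∃ 𝓜 : Set (Set E), 𝓜.Finite ∧ (∀ M, M ∈ 𝓜 ↔ Comp M C F) ∧
      ∀ x ∈ C \ F, ∃ M ∈ 𝓜, x ∈ M := by
  obtain ⟨h0, A, hA, H⟩ := hC
  obtain ⟨k0, B, hB, K⟩ := hF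
  have hC : Pol C := ⟨h0, A, hA, H⟩
  have hF : Pol F := ⟨k0, B, hB, K⟩
  set D := A ∪ B with hD
  have hDf : D.Finite := hA.union hB
  have HC : ∀ y ∈ C, face D y ⊆ C := fun y hy => (face_anti Set.subset_union_left y).trans (H y hy)
  have HF : ∀ y ∈ F, face D y ⊆ F := fun y hy => (face_anti Set.subset_union_right y).trans (K y hy)
  set O := C \ F with hO
  let R : E → E → Prop := fun x y => Relation.EqvGen (adj D O) x y
  let cls : E → Set E := fun b => {x | x ∈ O ∧ R b x}
  have hadj : ∀ x y, x ∈ O → y ∈ O → x ∈ face D y → R x y := fun x y hx hy h =>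
    Relation.EqvGen.rel _ _ ⟨hx, hy, h⟩
  have hsame : ∀ x y, x ∈ O → SameSign D x y → y ∈ O ∧ R x y := by
    intro x y hx hxy
    have hy : y ∈ O := ⟨HC x hx.1 hxy.symm.mem_face, fun hy => hx.2 (HF y hy hxy.mem_face)⟩
    exact ⟨hy, hadj x y hx hy hxy.mem_face⟩
  have hinv : ∀ b x y, SameSign D x y → x ∈ cls b → y ∈ cls b := by
    rintro b x y hxy ⟨hx, hbx⟩
    obtain ⟨hy, h⟩ := hsame x y hx hxy
    exact ⟨hy, Relation.EqvGen.trans _ _ _ hbx h⟩
  have hconcls : ∀ b, Con (cls b) := fun b => ⟨D, hDf, hinv b⟩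
  -- relatively closed
  have hclosed : ∀ b, ∀ x ∈ O, x ∈ cl (cls b) → x ∈ cls b := by
    intro b x hx hxc
    rw [mem_cl_iff hDf (hinv b)] at hxc
    rcases hxc with rfl | ⟨y, hy, hxy⟩
    · exact absurd k0 hx.2
    · exact ⟨hx, Relation.EqvGen.trans _ _ _ hy.2 (Relation.EqvGen.symm _ _ (hadj x y hx hy.1 hxy))⟩
  have hclO : ∀ b, cl (cls b) \ F = cls b := by
    intro b
    apply subset_antisymm
    · rintro x ⟨hx, hxF⟩
      have hxC : x ∈ C := hC.cl_subset (fun y hy => hy.1.1) hx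
      exact hclosed b x ⟨hxC, hxF⟩ hx
    · intro x hx
      exact ⟨subset_cl _ hx, hx.1.2⟩
  have hcomp : ∀ b ∈ O, Comp (cl (cls b)) C F := by
    intro b hb
    refine ⟨(hconcls b).pol_cl, hC.cl_subset (fun y hy => hy.1.1), ?_, ?_, ?_⟩
    · rw [hclO b]
    · rw [hclO b]
      refine ⟨⟨b, hb, Relation.EqvGen.refl b⟩, ?_⟩
      intro F₁ F₂ hF₁ hF₂ hcov hdis
      -- the statement is constant along the relation
      have hcell : ∀ x ∈ cls b, ({y | SameSign D y x} ⊆ F₁) ∨ ({y | SameSign D y x} ⊆ F₂) := by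
        intro x hx
        exact (conn_cell (A := D) x).2 F₁ F₂ hF₁ hF₂
          (fun y hy => hcov (hinv b x y (SameSign.symm hy) hx))
          (fun y hy => hdis y (hinv b x y (SameSign.symm hy) hx))
      have hstep : ∀ x y, x ∈ cls b → y ∈ cls b → x ∈ face D y → (x ∈ F₁ ↔ y ∈ F₁) := by
        intro x y hx hy hxy
        have hxcl : ∀ G : Set E, Pol G → {z | SameSign D z y} ⊆ G → x ∈ G := by
          intro G hG hyG
          have : x ∈ cl {z | SameSign D z y} :=
            (mem_cl_iff hDf (fun u v huv hu => SameSign.trans huv.symm hu) x).2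
              (Or.inr ⟨y, fun _ _ => rfl, hxy⟩)
          exact hG.cl_subset hyG this
        rcases hcell y hy with h1 | h1
        · have h2 := hxcl F₁ hF₁ h1
          exact ⟨fun _ => h1 (fun _ _ => rfl), fun _ => h2⟩
        · have h2 := hxcl F₂ hF₂ h1
          have h3 : y ∈ F₂ := h1 (fun _ _ => rfl)
          constructor
          · intro h4; exact absurd h2 (hdis x hx h4)
          · intro h4; exact absurd h3 (hdis y hy h4)
      have hgen : ∀ x y, Relation.EqvGen (adj D O) x y → (x ∈ cls b ↔ y ∈ cls b) ∧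
          (x ∈ cls b → (x ∈ F₁ ↔ y ∈ F₁)) := by
        intro x y h
        induction h with
        | rel x y h =>
          have h1 : x ∈ cls b ↔ y ∈ cls b := by
            constructor
            · rintro ⟨h2, h3⟩
              exact ⟨h.2.1, Relation.EqvGen.trans _ _ _ h3 (Relation.EqvGen.rel _ _ h)⟩
            · rintro ⟨h2, h3⟩
              exact ⟨h.1, Relation.EqvGen.trans _ _ _ h3 (Relation.EqvGen.symm _ _
                (Relation.EqvGen.rel _ _ h))⟩
          exact ⟨h1, fun h2 => hstep x y h2 (h1.1 h2) h.2.2⟩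
        | refl x => exact ⟨Iff.rfl, fun _ => Iff.rfl⟩
        | symm x y _ ih => exact ⟨ih.1.symm, fun h => (ih.2 (ih.1.2 h)).symm⟩
        | trans x y z _ _ ih1 ih2 =>
          exact ⟨ih1.1.trans ih2.1, fun h => (ih1.2 h).trans (ih2.2 (ih1.1.1 h))⟩
      have hb' : b ∈ cls b := ⟨hb, Relation.EqvGen.refl b⟩
      rcases hcov hb' with h1 | h1
      · left
        intro x hx
        exact ((hgen b x hx.2).2 hb').1 h1
      · right
        intro x hx
        by_contra hc
        have h2 := (hcov hx).resolve_right hc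
        exact hdis b hb' (((hgen b x hx.2).2 hb').2 h2) h1
    · rintro x ⟨hx, hxM⟩
      by_contra hxF
      have hxc : x ∈ cls b := by rw [← hclO b]; exact ⟨hxM, hxF⟩
      have hinv' : ∀ u v, SameSign D u v → u ∈ C \ (F ∪ cl (cls b)) → v ∈ C \ (F ∪ cl (cls b)) := by
        rintro u v huv ⟨hu, hu'⟩
        obtain ⟨hv, _⟩ := hsame u v ⟨hu, fun h => hu' (Or.inl h)⟩ huv
        refine ⟨hv.1, fun h => ?_⟩
        rcases h with h | h
        · exact hv.2 h
        · have hvc : v ∈ cls b := by rw [← hclO b]; exact ⟨h, hv.2⟩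
          exact hu' (Or.inr (subset_cl _ (hinv b v u huv.symm hvc)))
      rw [mem_cl_iff hDf hinv'] at hx
      rcases hx with rfl | ⟨y, hy, hxy⟩
      · exact hxF k0
      · apply hy.2
        right
        exact subset_cl _ ⟨⟨hy.1, fun h => hy.2 (Or.inl h)⟩, Relation.EqvGen.trans _ _ _ hxc.2
          (hadj x y hxc.1 ⟨hy.1, fun h => hy.2 (Or.inl h)⟩ hxy)⟩
  obtain ⟨T, hT, hTO, hTrep⟩ := exists_reps hDf O
  refine ⟨(fun b => cl (cls b)) '' T, hT.image _, ?_, ?_⟩
  · intro M
    constructor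
    · rintro ⟨b, hb, rfl⟩
      exact hcomp b (hTO hb)
    · intro hM
      obtain ⟨x, hxM, hxF⟩ := hM.nonempty
      obtain ⟨b, hb, hbx⟩ := hTrep x ⟨hM.sub hxM, hxF⟩
      refine ⟨b, hb, ?_⟩
      have hbO := hTO hb
      apply (hcomp b hbO).eq_of_meet hC hF hM
      refine ⟨x, ?_, hxM, hxF⟩
      rw [hclO b]
      exact hinv b b x hbx ⟨hbO, Relation.EqvGen.refl b⟩
  · intro x hx
    obtain ⟨b, hb, hbx⟩ := hTrep x hx
    exact ⟨_, ⟨b, hb, rfl⟩, subset_cl _ (hinv b b x hbx ⟨hTO hb, Relation.EqvGen.refl b⟩)⟩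

end Pool.Agent.Work.MP_552024_lc.PLS
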