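import Pool.Agent.Work.MP_552024_lc.PLS.Basic

set_option autoImplicit false

namespace Pool.Agent.Work.MP_552024_lc.PLS

variable {E : Type*} [AddCommGroup E] [Module ℚ E]

open SignType

/-- Finitely many representatives of the sign classes of a set. -/
theorem exists_reps {A : Set (E →ₗ[ℚ] ℚ)} (hA : A.Finite) (s : Set E) :
    ∃ B : Set E, B.Finite ∧ B ⊆ s ∧ ∀ y ∈ s, ∃ b ∈ B, SameSign A b y := by
  classical
  have : Finite A := hA
  let φ : E → (A → SignType) := fun y a => sign (a.1 y)
  obtain ⟨B, hB, hbij⟩ := Set.exists_subset_bijOn s φ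
  refine ⟨B, ?_, hB, fun y hy => ?_⟩
  · exact Set.Finite.of_injOn hbij.mapsTo hbij.injOn (Set.toFinite _)
  · obtain ⟨b, hb, hby⟩ := hbij.surjOn ⟨y, hy, rfl⟩
    exact ⟨b, hb, fun a ha => congrFun hby ⟨a, ha⟩⟩

theorem segment_meets {A : Set (E →ₗ[ℚ] ℚ)} (hA : A.Finite) (n : ℕ) :
    ∀ (x y : E) (F₁ F₂ : Set E), {a ∈ A | a x * a y < 0}.ncard ≤ n →
      (∀ z ∈ F₁, face A z ⊆ F₁) → (∀ z ∈ F₂, face A z ⊆ F₂) →
      (∀ t : ℚ, 0 ≤ t → t ≤ 1 → x + t • (y - x) ∈ F₁ ∪ F₂) → x ∈ F₁ → y ∈ F₂ →
      ∃ t : ℚ, 0 ≤ t ∧ t ≤ 1 ∧ x + t • (y - x) ∈ F₁ ∧ x + t • (y - x) ∈ F₂ := by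
  induction n with
  | zero =>
    intro x y F₁ F₂ hn h1 h2 hcov hx hy
    have hemp : {a ∈ A | a x * a y < 0} = ∅ := by
      rw [← Set.ncard_eq_zero (hA.subset (Set.sep_subset _ _))]; omega
    have hm : ∀ a ∈ A, (a x = 0 ∨ sign (a x) = sign (a (x + (1/2 : ℚ) • (y - x)))) ∧
        (a y = 0 ∨ sign (a y) = sign (a (x + (1/2 : ℚ) • (y - x)))) := by
      intro a ha
      have h3 : 0 ≤ a x * a y := by
        by_contra hc
        have : a ∈ {a ∈ A | a x * a y < 0} := ⟨ha, not_le.1 hc⟩
        rw [hemp] at this; exact this
      have e : a (x + (1/2 : ℚ) • (y - x)) = (a x + a y) / 2 := by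
        simp only [map_add, map_smul, map_sub, smul_eq_mul]; ring
      rw [e]
      rcases lt_trichotomy (a x) 0 with h4 | h4 | h4 <;>
        rcases lt_trichotomy (a y) 0 with h5 | h5 | h5
      · have h6 : (a x + a y) / 2 < 0 := by linarith
        rw [sign_neg h4, sign_neg h5, sign_neg h6]; simp
      · have h6 : (a x + a y) / 2 < 0 := by linarith
        rw [sign_neg h4, sign_neg h6]; simp [h5]
      · exact absurd h3 (not_le.2 (mul_neg_of_neg_of_pos h4 h5))
      · have h6 : (a x + a y) / 2 < 0 := by linarith
        rw [sign_neg h5, sign_neg h6]; simp [h4]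
      · simp [h4, h5]
      · have h6 : 0 < (a x + a y) / 2 := by linarith
        rw [sign_pos h5, sign_pos h6]; simp [h4]
      · exact absurd h3 (not_le.2 (mul_neg_of_pos_of_neg h4 h5))
      · have h6 : 0 < (a x + a y) / 2 := by linarith
        rw [sign_pos h4, sign_pos h6]; simp [h5]
      · have h6 : 0 < (a x + a y) / 2 := by linarith
        rw [sign_pos h4, sign_pos h5, sign_pos h6]; simp
    rcases hcov (1/2) (by norm_num) (by norm_num) with h | h
    · refine ⟨1, by norm_num, le_rfl, ?_, ?_⟩
      · simpa using h1 _ h (fun a ha => (hm a ha).2)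
      · simpa using hy
    · refine ⟨0, le_rfl, by norm_num, ?_, ?_⟩
      · simpa using hx
      · simpa using h2 _ h (fun a ha => (hm a ha).1)
  | succ n ih =>
    intro x y F₁ F₂ hn h1 h2 hcov hx hy
    rcases Set.eq_empty_or_nonempty {a ∈ A | a x * a y < 0} with hemp | ⟨a, ha, hneg⟩
    · exact ih x y F₁ F₂ (by rw [hemp]; simp) h1 h2 hcov hx hy
    · -- the root
      have hne : a x - a y ≠ 0 := by
        intro h
        have : a x = a y := by linarith
        rw [this] at hneg
        exact absurd hneg (not_lt.2 (mul_self_nonneg _))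
      set r : ℚ := a x / (a x - a y) with hr
      have hr01 : 0 < r ∧ r < 1 := by
        rcases lt_trichotomy (a x) 0 with h4 | h4 | h4
        · have h5 : 0 < a y := by
            by_contra hc
            exact absurd hneg (not_lt.2 (mul_nonneg_of_nonpos_of_nonpos h4.le (not_lt.1 hc)))
          constructor
          · exact div_pos_of_neg_of_neg h4 (by linarith)
          · rw [hr, div_lt_one_of_neg (by linarith)]; linarith
        · rw [h4, zero_mul] at hneg; exact absurd hneg (lt_irrefl _)
        · have h5 : a y < 0 := by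
            by_contra hc
            exact absurd hneg (not_lt.2 (mul_nonneg h4.le (not_lt.1 hc)))
          constructor
          · exact div_pos h4 (by linarith)
          · rw [hr, div_lt_one (by linarith)]; linarith
      set z : E := x + r • (y - x) with hz
      have haz : a z = 0 := by
        rw [hz]
        simp only [map_add, map_smul, map_sub, smul_eq_mul]
        rw [hr]; field_simp; ring
      have hconv : ∀ b : E →ₗ[ℚ] ℚ, b z = (1 - r) * b x + r * b y := by
        intro b; rw [hz]; simp only [map_add, map_smul, map_sub, smul_eq_mul]; ring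
      have hlt : ∀ u v : E, ({b ∈ A | b u * b v < 0} ⊆ {b ∈ A | b x * b y < 0} \ {a}) →
          {b ∈ A | b u * b v < 0}.ncard ≤ n := by
        intro u v huv
        have hfin : {b ∈ A | b x * b y < 0}.Finite := hA.subset (Set.sep_subset _ _)
        have h3 := Set.ncard_le_ncard huv (hfin.subset Set.sdiff_subset)
        have h4 := Set.ncard_sdiff_singleton_add_one (s := {b ∈ A | b x * b y < 0})
          (a := a) ⟨ha, hneg⟩ hfin
        omega
      rcases hcov r hr01.1.le hr01.2.le with h | h
      · -- z ∈ F₁ : use [z, y]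
        have hs := hlt z y (by
          rintro b ⟨hb, hb'⟩
          refine ⟨⟨hb, ?_⟩, ?_⟩
          · rw [hconv b] at hb'
            rcases lt_trichotomy (b y) 0 with h5 | h5 | h5
            · have : 0 < (1 - r) * b x + r * b y := by
                by_contra hc
                exact absurd hb' (not_lt.2 (mul_nonneg_of_nonpos_of_nonpos (not_lt.1 hc) h5.le))
              have h6 : 0 < b x := by
                have := mul_pos_of_neg_of_neg h5 (by linarith [hr01.1] : -r < 0)
                by_contra hc
                nlinarith [hr01.1, hr01.2]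
              exact mul_neg_of_pos_of_neg h6 h5
            · rw [h5, mul_zero] at hb'; exact absurd hb' (lt_irrefl _)
            · have : (1 - r) * b x + r * b y < 0 := by
                by_contra hc
                exact absurd hb' (not_lt.2 (mul_nonneg (not_lt.1 hc) h5.le))
              have h6 : b x < 0 := by
                by_contra hc
                nlinarith [hr01.1, hr01.2]
              exact mul_neg_of_neg_of_pos h6 h5
          · rintro rfl
            rw [haz, zero_mul] at hb'; exact lt_irrefl _ hb')
        obtain ⟨t, ht0, ht1, ht⟩ := ih z y F₁ F₂ hs h1 h2 (by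
          intro t ht0 ht1
          have := hcov (r + t * (1 - r)) (by nlinarith [hr01.1, hr01.2]) (by nlinarith [hr01.1, hr01.2])
          have e : z + t • (y - z) = x + (r + t * (1 - r)) • (y - x) := by
            rw [hz]; module
          rw [e]; exact this) h hy
        refine ⟨r + t * (1 - r), by nlinarith [hr01.1, hr01.2], by nlinarith [hr01.1, hr01.2], ?_⟩
        have e : z + t • (y - z) = x + (r + t * (1 - r)) • (y - x) := by
          rw [hz]; module
        rw [← e]; exact ht
      · have hs := hlt x z (by
          rintro b ⟨hb, hb'⟩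
          refine ⟨⟨hb, ?_⟩, ?_⟩
          · rw [hconv b] at hb'
            rcases lt_trichotomy (b x) 0 with h5 | h5 | h5
            · have : 0 < (1 - r) * b x + r * b y := by
                by_contra hc
                exact absurd hb' (not_lt.2 (mul_nonneg_of_nonpos_of_nonpos h5.le (not_lt.1 hc)))
              have h6 : 0 < b y := by
                by_contra hc
                nlinarith [hr01.1, hr01.2]
              exact mul_neg_of_neg_of_pos h5 h6
            · rw [h5, zero_mul] at hb'; exact absurd hb' (lt_irrefl _)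
            · have : (1 - r) * b x + r * b y < 0 := by
                by_contra hc
                exact absurd hb' (not_lt.2 (mul_nonneg h5.le (not_lt.1 hc)))
              have h6 : b y < 0 := by
                by_contra hc
                nlinarith [hr01.1, hr01.2]
              exact mul_neg_of_pos_of_neg h5 h6
          · rintro rfl
            rw [haz, mul_zero] at hb'; exact lt_irrefl _ hb')
        obtain ⟨t, ht0, ht1, ht⟩ := ih x z F₁ F₂ hs h1 h2 (by
          intro t ht0 ht1
          have := hcov (t * r) (by nlinarith [hr01.1, hr01.2]) (by nlinarith [hr01.1, hr01.2])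
          have e : x + t • (z - x) = x + (t * r) • (y - x) := by
            rw [hz]; module
          rw [e]; exact this) hx h
        refine ⟨t * r, by nlinarith [hr01.1, hr01.2], by nlinarith [hr01.1, hr01.2], ?_⟩
        have e : x + t • (z - x) = x + (t * r) • (y - x) := by
          rw [hz]; module
        rw [← e]; exact ht

/-- Nonempty convex sets are connected. -/
theorem conn_of_convex {s : Set E} (hne : s.Nonempty)
    (h : ∀ x ∈ s, ∀ y ∈ s, ∀ t : ℚ, 0 ≤ t → t ≤ 1 → x + t • (y - x) ∈ s) : Conn s := by
  refine ⟨hne, fun F₁ F₂ hF₁ hF₂ hcov hdis => ?_⟩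
  obtain ⟨_, A, hA, H⟩ := hF₁
  obtain ⟨_, B, hB, K⟩ := hF₂
  by_contra hc
  push Not at hc
  obtain ⟨h1, h2⟩ := hc
  rw [Set.not_subset] at h1 h2
  obtain ⟨y, hy, hy1⟩ := h1
  obtain ⟨x, hx, hx2⟩ := h2
  obtain ⟨t, ht0, ht1, hta, htb⟩ := segment_meets (hA.union hB) _ x y F₁ F₂ le_rfl
    (fun z hz => (face_anti Set.subset_union_left z).trans (H z hz))
    (fun z hz => (face_anti Set.subset_union_right z).trans (K z hz))
    (fun t h0 h1 => hcov (h x hx y hy t h0 h1))
    ((hcov hx).resolve_right hx2) ((hcov hy).resolve_left hy1)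
  exact hdis _ (h x hx y hy t ht0 ht1) hta htb

end Pool.Agent.Work.MP_552024_lc.PLS
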