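import Pool.Agent.Work.MP_552024_lc.PLS.Defin

set_option autoImplicit false

namespace Pool.Agent.Work.MP_552024_lc.PLS

open Pool.Agent.MP552024

/-! Definability of the formula for balls. -/

section

variable {α : Type}

theorem LD.comp {μ γ φ : Tm α} (hμ : LT μ) (hγ : LT γ) (hφ : LT φ) :
    LD (fun V _ Q v => Comp (μ V Q v) (γ V Q v) (φ V Q v)) := by
  have h1 := LD.eq (hμ.cld hφ) hμ
  have h2 := LD.sub hμ hγ
  have h3 := (LD.sub hμ hφ).not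
  have h4 : LD (fun V _ Q v => ∀ s, Pol s → s ⊆ Q → ∀ t, Pol t → t ⊆ Q →
      (μ V Q v ⊆ φ V Q v ∪ (s ∪ t) → μ V Q v ∩ (s ∩ t) ⊆ φ V Q v →
        μ V Q v ⊆ φ V Q v ∪ s ∨ μ V Q v ⊆ φ V Q v ∪ t)) := by
    refine LD.all (q := fun V _ Q v s => ∀ t, Pol t → t ⊆ Q →
      (μ V Q v ⊆ φ V Q v ∪ (s ∪ t) → μ V Q v ∩ (s ∩ t) ⊆ φ V Q v →
        μ V Q v ⊆ φ V Q v ∪ s ∨ μ V Q v ⊆ φ V Q v ∪ t)) ?_
    refine LD.all (q := fun V _ Q (w : α ⊕ Unit → Set (V → ℚ)) t =>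
      (μ V Q (fun a => w (Sum.inl a)) ⊆ φ V Q (fun a => w (Sum.inl a)) ∪ (w (Sum.inr ()) ∪ t) →
        μ V Q (fun a => w (Sum.inl a)) ∩ (w (Sum.inr ()) ∩ t) ⊆ φ V Q (fun a => w (Sum.inl a)) →
        μ V Q (fun a => w (Sum.inl a)) ⊆ φ V Q (fun a => w (Sum.inl a)) ∪ w (Sum.inr ()) ∨
          μ V Q (fun a => w (Sum.inl a)) ⊆ φ V Q (fun a => w (Sum.inl a)) ∪ t)) ?_
    exact (LD.sub hμ.lift.lift (hφ.lift.lift.union
      ((LT.var (Sum.inl (Sum.inr ()))).union LT.last))).imp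
      ((LD.sub (hμ.lift.lift.inter ((LT.var (Sum.inl (Sum.inr ()))).inter LT.last))
        hφ.lift.lift).imp
      ((LD.sub hμ.lift.lift (hφ.lift.lift.union (LT.var (Sum.inl (Sum.inr ()))))).or
        (LD.sub hμ.lift.lift (hφ.lift.lift.union LT.last))))
  have h5 := LD.sub ((hγ.cld (hφ.union hμ)).inter hμ) hφ
  refine ((h1.and h2).and (h3.and (h4.and h5))).congr (fun V _ Q v hv => ?_)
  obtain ⟨m1, m2⟩ := hμ.valid V Q v hv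
  obtain ⟨c1, c2⟩ := hγ.valid V Q v hv
  obtain ⟨f1, f2⟩ := hφ.valid V Q v hv
  constructor
  · rintro ⟨⟨k1, k2⟩, k3, k4, k5⟩
    refine ⟨m1, k2, k1, ⟨?_, ?_⟩, k5⟩
    · obtain ⟨x, hx, hxf⟩ := Set.not_subset.1 k3
      exact ⟨x, hx, hxf⟩
    · intro F₁ F₂ hF₁ hF₂ hcov hdis
      rcases k4 (F₁ ∩ Q) (hF₁.inter hv.1) Set.inter_subset_right (F₂ ∩ Q) (hF₂.inter hv.1)
        Set.inter_subset_right (by
          intro x hx
          by_cases hxf : x ∈ φ V Q v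
          · exact Or.inl hxf
          · rcases hcov ⟨hx, hxf⟩ with h | h
            · exact Or.inr (Or.inl ⟨h, m2 hx⟩)
            · exact Or.inr (Or.inr ⟨h, m2 hx⟩)) (by
          rintro x ⟨hx, ⟨hx1, _⟩, hx2, _⟩
          by_contra hxf
          exact hdis x ⟨hx, hxf⟩ hx1 hx2) with h | h
      · left
        rintro x ⟨hx, hxf⟩
        exact ((h hx).resolve_left hxf).1
      · right
        rintro x ⟨hx, hxf⟩
        exact ((h hx).resolve_left hxf).1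
  · rintro ⟨k1, k2, k3, ⟨k4, k5⟩, k6⟩
    refine ⟨⟨k3, k2⟩, ?_, ?_, k6⟩
    · intro h
      obtain ⟨x, hx, hxf⟩ := k4
      exact hxf (h hx)
    · intro s hs _ t ht _ hcov hdis
      rcases k5 s t hs ht (by
        rintro x ⟨hx, hxf⟩
        exact (hcov hx).resolve_left hxf) (by
        rintro x ⟨hx, hxf⟩ hxs hxt
        exact hxf (hdis ⟨hx, hxs, hxt⟩)) with h | h
      · left
        intro x hx
        by_cases hxf : x ∈ φ V Q v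
        · exact Or.inl hxf
        · exact Or.inr (h ⟨hx, hxf⟩)
      · right
        intro x hx
        by_cases hxf : x ∈ φ V Q v
        · exact Or.inl hxf
        · exact Or.inr (h ⟨hx, hxf⟩)

/-- definable binary relations -/
def LDβ (β : ∀ (V : Type), Set (V → ℚ) → Set (V → ℚ) → Prop) : Prop :=
  ∀ (α : Type) (σ τ : Tm α), LT σ → LT τ → LD (fun V _ Q v => β V (σ V Q v) (τ V Q v))

theorem LD.side {β : ∀ (V : Type), Set (V → ℚ) → Set (V → ℚ) → Prop} (hβ : LDβ β)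
    {μ φ γ ω ξ : Tm α} (hμ : LT μ) (hφ : LT φ) (hγ : LT γ) (hω : LT ω) (hξ : LT ξ) :
    LD (fun V _ Q v => Side (β V) (μ V Q v) (φ V Q v) (γ V Q v) (ω V Q v) (ξ V Q v)) := by
  have h1 : LD (fun V _ Q v => ∃ m, Pol m ∧ m ⊆ Q ∧
      (Comp m (μ V Q v) (φ V Q v ∪ γ V Q v) ∧ (m ⊆ ξ V Q v ∧ (¬ (ω V Q v ∩ m ⊆ φ V Q v) ∧
      ((∃ W, Pol W ∧ W ⊆ Q ∧ (m ∩ (φ V Q v ∪ γ V Q v) = ω V Q v ∪ W ∧
        (ω V Q v ∩ W = ω V Q v ∩ φ V Q v ∧ β V W (ω V Q v ∩ φ V Q v)))) ∧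
      ∀ m', Pol m' → m' ⊆ Q → (Comp m' (μ V Q v) (φ V Q v ∪ γ V Q v) → m' ⊆ ξ V Q v →
        ¬ (ω V Q v ∩ m' ⊆ φ V Q v) → m' = m)))))) := by
    refine LD.ex (q := fun V _ Q v m => (Comp m (μ V Q v) (φ V Q v ∪ γ V Q v) ∧
      (m ⊆ ξ V Q v ∧ (¬ (ω V Q v ∩ m ⊆ φ V Q v) ∧
      ((∃ W, Pol W ∧ W ⊆ Q ∧ (m ∩ (φ V Q v ∪ γ V Q v) = ω V Q v ∪ W ∧
        (ω V Q v ∩ W = ω V Q v ∩ φ V Q v ∧ β V W (ω V Q v ∩ φ V Q v)))) ∧
      ∀ m', Pol m' → m' ⊆ Q → (Comp m' (μ V Q v) (φ V Q v ∪ γ V Q v) → m' ⊆ ξ V Q v →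
        ¬ (ω V Q v ∩ m' ⊆ φ V Q v) → m' = m)))))) ?_
    refine (LD.comp LT.last hμ.lift (hφ.lift.union hγ.lift)).and
      ((LD.sub LT.last hξ.lift).and ((LD.sub (hω.lift.inter LT.last) hφ.lift).not.and
        (LD.and ?_ ?_)))
    · refine LD.ex (q := fun V _ Q (w : α ⊕ Unit → Set (V → ℚ)) W =>
        (w (Sum.inr ()) ∩ (φ V Q (fun a => w (Sum.inl a)) ∪ γ V Q (fun a => w (Sum.inl a))) =
          ω V Q (fun a => w (Sum.inl a)) ∪ W ∧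
        (ω V Q (fun a => w (Sum.inl a)) ∩ W =
          ω V Q (fun a => w (Sum.inl a)) ∩ φ V Q (fun a => w (Sum.inl a)) ∧
          β V W (ω V Q (fun a => w (Sum.inl a)) ∩ φ V Q (fun a => w (Sum.inl a)))))) ?_
      refine (LD.eq ((LT.var (Sum.inl (Sum.inr ()))).inter (hφ.lift.lift.union hγ.lift.lift))
        (hω.lift.lift.union LT.last)).and ((LD.eq (hω.lift.lift.inter LT.last)
          (hω.lift.lift.inter hφ.lift.lift)).and ?_)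
      exact hβ _ _ _ LT.last (hω.lift.lift.inter hφ.lift.lift)
    · refine LD.all (q := fun V _ Q (w : α ⊕ Unit → Set (V → ℚ)) m' =>
        (Comp m' (μ V Q (fun a => w (Sum.inl a)))
          (φ V Q (fun a => w (Sum.inl a)) ∪ γ V Q (fun a => w (Sum.inl a))) →
          m' ⊆ ξ V Q (fun a => w (Sum.inl a)) →
        ¬ (ω V Q (fun a => w (Sum.inl a)) ∩ m' ⊆ φ V Q (fun a => w (Sum.inl a))) →
          m' = w (Sum.inr ()))) ?_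
      exact (LD.comp LT.last hμ.lift.lift (hφ.lift.lift.union hγ.lift.lift)).imp
        ((LD.sub LT.last hξ.lift.lift).imp ((LD.sub (hω.lift.lift.inter LT.last)
          hφ.lift.lift).not.imp (LD.eq LT.last (LT.var (Sum.inl (Sum.inr ()))))))
  refine h1.congr (fun V _ Q v hv => ?_)
  obtain ⟨m1, m2⟩ := hμ.valid V Q v hv
  obtain ⟨w1, w2⟩ := hω.valid V Q v hv
  constructor
  · rintro ⟨m, _, _, k1, k2, k3, ⟨W, k4, _, k5, k6, k7⟩, k8⟩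
    exact ⟨m, k1, k2, k3, ⟨W, k4, k5, k6, k7⟩, fun m' a1 a2 a3 =>
      k8 m' a1.pol (a1.sub.trans m2) a1 a2 a3⟩
  · rintro ⟨m, k1, k2, k3, ⟨W, k4, k5, k6, k7⟩, k8⟩
    have hmQ : m ⊆ Q := k1.sub.trans m2
    have hWQ : W ⊆ Q := by
      intro x hx
      have : x ∈ m ∩ (φ V Q v ∪ γ V Q v) := by rw [k5]; exact Or.inr hx
      exact hmQ this.1
    exact ⟨m, k1.pol, hmQ, k1, k2, k3, ⟨W, k4, hWQ, k5, k6, k7⟩, fun m' _ _ a1 a2 a3 =>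
      k8 m' a1 a2 a3⟩

theorem LD.good {β : ∀ (V : Type), Set (V → ℚ) → Set (V → ℚ) → Prop} (hβ : LDβ β)
    {μ φ γ : Tm α} (hμ : LT μ) (hφ : LT φ) (hγ : LT γ) :
    LD (fun V _ Q v => Good (β V) (μ V Q v) (φ V Q v) (γ V Q v)) := by
  have h1 : LD (fun V _ Q v => ∀ w, Pol w → w ⊆ Q → (Comp w (γ V Q v ∩ μ V Q v) (φ V Q v) →
      ∃ x, Pol x ∧ x ⊆ Q ∧ ∃ y, Pol y ∧ y ⊆ Q ∧
      ((Comp x (μ V Q v) (φ V Q v ∪ w) ∧ Comp y (μ V Q v) (φ V Q v ∪ w)) ∧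
        ((¬ (x = y) ∧ ∀ z, Pol z → z ⊆ Q → (Comp z (μ V Q v) (φ V Q v ∪ w) → (z = x ∨ z = y))) ∧
        (x ∩ y = w ∧ ((β V w (w ∩ φ V Q v) ∧ (β V (x ∩ φ V Q v) (w ∩ φ V Q v) ∧
          β V (y ∩ φ V Q v) (w ∩ φ V Q v))) ∧
        (Side (β V) (μ V Q v) (φ V Q v) (γ V Q v) w x ∧
          Side (β V) (μ V Q v) (φ V Q v) (γ V Q v) w y))))))) := by
    refine LD.all (q := fun V _ Q v w => (Comp w (γ V Q v ∩ μ V Q v) (φ V Q v) →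
      ∃ x, Pol x ∧ x ⊆ Q ∧ ∃ y, Pol y ∧ y ⊆ Q ∧
      ((Comp x (μ V Q v) (φ V Q v ∪ w) ∧ Comp y (μ V Q v) (φ V Q v ∪ w)) ∧
        ((¬ (x = y) ∧ ∀ z, Pol z → z ⊆ Q → (Comp z (μ V Q v) (φ V Q v ∪ w) → (z = x ∨ z = y))) ∧
        (x ∩ y = w ∧ ((β V w (w ∩ φ V Q v) ∧ (β V (x ∩ φ V Q v) (w ∩ φ V Q v) ∧
          β V (y ∩ φ V Q v) (w ∩ φ V Q v))) ∧
        (Side (β V) (μ V Q v) (φ V Q v) (γ V Q v) w x ∧
          Side (β V) (μ V Q v) (φ V Q v) (γ V Q v) w y))))))) ?_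
    refine (LD.comp LT.last (hγ.lift.inter hμ.lift) hφ.lift).imp ?_
    refine LD.ex (q := fun V _ Q (u : α ⊕ Unit → Set (V → ℚ)) x => ∃ y, Pol y ∧ y ⊆ Q ∧
      ((Comp x (μ V Q (fun a => u (Sum.inl a))) (φ V Q (fun a => u (Sum.inl a)) ∪ u (Sum.inr ())) ∧
        Comp y (μ V Q (fun a => u (Sum.inl a))) (φ V Q (fun a => u (Sum.inl a)) ∪ u (Sum.inr ()))) ∧
        ((¬ (x = y) ∧ ∀ z, Pol z → z ⊆ Q → (Comp z (μ V Q (fun a => u (Sum.inl a)))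
          (φ V Q (fun a => u (Sum.inl a)) ∪ u (Sum.inr ())) → (z = x ∨ z = y))) ∧
        (x ∩ y = u (Sum.inr ()) ∧ ((β V (u (Sum.inr ())) (u (Sum.inr ()) ∩ φ V Q (fun a => u (Sum.inl a))) ∧
          (β V (x ∩ φ V Q (fun a => u (Sum.inl a))) (u (Sum.inr ()) ∩ φ V Q (fun a => u (Sum.inl a))) ∧
          β V (y ∩ φ V Q (fun a => u (Sum.inl a))) (u (Sum.inr ()) ∩ φ V Q (fun a => u (Sum.inl a))))) ∧
        (Side (β V) (μ V Q (fun a => u (Sum.inl a))) (φ V Q (fun a => u (Sum.inl a)))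
            (γ V Q (fun a => u (Sum.inl a))) (u (Sum.inr ())) x ∧
          Side (β V) (μ V Q (fun a => u (Sum.inl a))) (φ V Q (fun a => u (Sum.inl a)))
            (γ V Q (fun a => u (Sum.inl a))) (u (Sum.inr ())) y)))))) ?_
    refine LD.ex (q := fun V _ Q (u : (α ⊕ Unit) ⊕ Unit → Set (V → ℚ)) y =>
      ((Comp (u (Sum.inr ())) (μ V Q (fun a => u (Sum.inl (Sum.inl a))))
        (φ V Q (fun a => u (Sum.inl (Sum.inl a))) ∪ u (Sum.inl (Sum.inr ()))) ∧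
        Comp y (μ V Q (fun a => u (Sum.inl (Sum.inl a))))
        (φ V Q (fun a => u (Sum.inl (Sum.inl a))) ∪ u (Sum.inl (Sum.inr ())))) ∧
        ((¬ (u (Sum.inr ()) = y) ∧ ∀ z, Pol z → z ⊆ Q →
          (Comp z (μ V Q (fun a => u (Sum.inl (Sum.inl a))))
          (φ V Q (fun a => u (Sum.inl (Sum.inl a))) ∪ u (Sum.inl (Sum.inr ()))) →
            (z = u (Sum.inr ()) ∨ z = y))) ∧
        (u (Sum.inr ()) ∩ y = u (Sum.inl (Sum.inr ())) ∧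
          ((β V (u (Sum.inl (Sum.inr ())))
            (u (Sum.inl (Sum.inr ())) ∩ φ V Q (fun a => u (Sum.inl (Sum.inl a)))) ∧
          (β V (u (Sum.inr ()) ∩ φ V Q (fun a => u (Sum.inl (Sum.inl a))))
            (u (Sum.inl (Sum.inr ())) ∩ φ V Q (fun a => u (Sum.inl (Sum.inl a)))) ∧
          β V (y ∩ φ V Q (fun a => u (Sum.inl (Sum.inl a))))
            (u (Sum.inl (Sum.inr ())) ∩ φ V Q (fun a => u (Sum.inl (Sum.inl a)))))) ∧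
        (Side (β V) (μ V Q (fun a => u (Sum.inl (Sum.inl a)))) (φ V Q (fun a => u (Sum.inl (Sum.inl a))))
            (γ V Q (fun a => u (Sum.inl (Sum.inl a)))) (u (Sum.inl (Sum.inr ()))) (u (Sum.inr ())) ∧
          Side (β V) (μ V Q (fun a => u (Sum.inl (Sum.inl a)))) (φ V Q (fun a => u (Sum.inl (Sum.inl a))))
            (γ V Q (fun a => u (Sum.inl (Sum.inl a)))) (u (Sum.inl (Sum.inr ()))) y)))))) ?_
    have hμ3 := hμ.lift.lift.lift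
    have hφ3 := hφ.lift.lift.lift
    have hγ3 := hγ.lift.lift.lift
    have vw : LT (fun V _ Q (u : ((α ⊕ Unit) ⊕ Unit) ⊕ Unit → Set (V → ℚ)) =>
      u (Sum.inl (Sum.inl (Sum.inr ())))) := LT.var _
    have vx : LT (fun V _ Q (u : ((α ⊕ Unit) ⊕ Unit) ⊕ Unit → Set (V → ℚ)) =>
      u (Sum.inl (Sum.inr ()))) := LT.var _
    have vy : LT (fun V _ Q (u : ((α ⊕ Unit) ⊕ Unit) ⊕ Unit → Set (V → ℚ)) =>
      u (Sum.inr ())) := LT.var _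
    refine ((LD.comp vx hμ3 (hφ3.union vw)).and (LD.comp vy hμ3 (hφ3.union vw))).and
      (((LD.eq vx vy).not.and ?_).and ((LD.eq (vx.inter vy) vw).and
      (((hβ _ _ _ vw (vw.inter hφ3)).and ((hβ _ _ _ (vx.inter hφ3) (vw.inter hφ3)).and
        (hβ _ _ _ (vy.inter hφ3) (vw.inter hφ3)))).and
        ((LD.side hβ hμ3 hφ3 hγ3 vw vx).and (LD.side hβ hμ3 hφ3 hγ3 vw vy)))))
    refine LD.all (q := fun V _ Q (u : ((α ⊕ Unit) ⊕ Unit) ⊕ Unit → Set (V → ℚ)) z =>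
      (Comp z (μ V Q (fun a => u (Sum.inl (Sum.inl (Sum.inl a)))))
          (φ V Q (fun a => u (Sum.inl (Sum.inl (Sum.inl a)))) ∪ u (Sum.inl (Sum.inl (Sum.inr ())))) →
            (z = u (Sum.inl (Sum.inr ())) ∨ z = u (Sum.inr ())))) ?_
    exact (LD.comp LT.last hμ3.lift (hφ3.lift.union vw.lift)).imp
      ((LD.eq LT.last vx.lift).or (LD.eq LT.last vy.lift))
  have h2 : LD (fun V _ Q v => ∀ m, Pol m → m ⊆ Q → ∀ w₁, Pol w₁ → w₁ ⊆ Q →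
      ∀ w₂, Pol w₂ → w₂ ⊆ Q → ∀ w₃, Pol w₃ → w₃ ⊆ Q →
      (Comp m (μ V Q v) (φ V Q v ∪ γ V Q v) → Comp w₁ (γ V Q v ∩ μ V Q v) (φ V Q v) →
      Comp w₂ (γ V Q v ∩ μ V Q v) (φ V Q v) → Comp w₃ (γ V Q v ∩ μ V Q v) (φ V Q v) →
      ¬ (w₁ ∩ m ⊆ φ V Q v) → ¬ (w₂ ∩ m ⊆ φ V Q v) → ¬ (w₃ ∩ m ⊆ φ V Q v) →
      (w₁ = w₂ ∨ (w₂ = w₃ ∨ w₁ = w₃)))) := by
    refine LD.all (q := fun V _ Q v m => ∀ w₁, Pol w₁ → w₁ ⊆ Q →
      ∀ w₂, Pol w₂ → w₂ ⊆ Q → ∀ w₃, Pol w₃ → w₃ ⊆ Q →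
      (Comp m (μ V Q v) (φ V Q v ∪ γ V Q v) → Comp w₁ (γ V Q v ∩ μ V Q v) (φ V Q v) →
      Comp w₂ (γ V Q v ∩ μ V Q v) (φ V Q v) → Comp w₃ (γ V Q v ∩ μ V Q v) (φ V Q v) →
      ¬ (w₁ ∩ m ⊆ φ V Q v) → ¬ (w₂ ∩ m ⊆ φ V Q v) → ¬ (w₃ ∩ m ⊆ φ V Q v) →
      (w₁ = w₂ ∨ (w₂ = w₃ ∨ w₁ = w₃)))) ?_
    refine LD.all (q := fun V _ Q (u : α ⊕ Unit → Set (V → ℚ)) w₁ =>
      ∀ w₂, Pol w₂ → w₂ ⊆ Q → ∀ w₃, Pol w₃ → w₃ ⊆ Q →
      (Comp (u (Sum.inr ())) (μ V Q (fun a => u (Sum.inl a)))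
        (φ V Q (fun a => u (Sum.inl a)) ∪ γ V Q (fun a => u (Sum.inl a))) →
      Comp w₁ (γ V Q (fun a => u (Sum.inl a)) ∩ μ V Q (fun a => u (Sum.inl a))) (φ V Q (fun a => u (Sum.inl a))) →
      Comp w₂ (γ V Q (fun a => u (Sum.inl a)) ∩ μ V Q (fun a => u (Sum.inl a))) (φ V Q (fun a => u (Sum.inl a))) →
      Comp w₃ (γ V Q (fun a => u (Sum.inl a)) ∩ μ V Q (fun a => u (Sum.inl a))) (φ V Q (fun a => u (Sum.inl a))) →
      ¬ (w₁ ∩ u (Sum.inr ()) ⊆ φ V Q (fun a => u (Sum.inl a))) →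
      ¬ (w₂ ∩ u (Sum.inr ()) ⊆ φ V Q (fun a => u (Sum.inl a))) →
      ¬ (w₃ ∩ u (Sum.inr ()) ⊆ φ V Q (fun a => u (Sum.inl a))) →
      (w₁ = w₂ ∨ (w₂ = w₃ ∨ w₁ = w₃)))) ?_
    refine LD.all (q := fun V _ Q (u : (α ⊕ Unit) ⊕ Unit → Set (V → ℚ)) w₂ =>
      ∀ w₃, Pol w₃ → w₃ ⊆ Q →
      (Comp (u (Sum.inl (Sum.inr ()))) (μ V Q (fun a => u (Sum.inl (Sum.inl a))))
        (φ V Q (fun a => u (Sum.inl (Sum.inl a))) ∪ γ V Q (fun a => u (Sum.inl (Sum.inl a)))) →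
      Comp (u (Sum.inr ())) (γ V Q (fun a => u (Sum.inl (Sum.inl a))) ∩ μ V Q (fun a => u (Sum.inl (Sum.inl a))))
        (φ V Q (fun a => u (Sum.inl (Sum.inl a)))) →
      Comp w₂ (γ V Q (fun a => u (Sum.inl (Sum.inl a))) ∩ μ V Q (fun a => u (Sum.inl (Sum.inl a))))
        (φ V Q (fun a => u (Sum.inl (Sum.inl a)))) →
      Comp w₃ (γ V Q (fun a => u (Sum.inl (Sum.inl a))) ∩ μ V Q (fun a => u (Sum.inl (Sum.inl a))))
        (φ V Q (fun a => u (Sum.inl (Sum.inl a)))) →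
      ¬ (u (Sum.inr ()) ∩ u (Sum.inl (Sum.inr ())) ⊆ φ V Q (fun a => u (Sum.inl (Sum.inl a)))) →
      ¬ (w₂ ∩ u (Sum.inl (Sum.inr ())) ⊆ φ V Q (fun a => u (Sum.inl (Sum.inl a)))) →
      ¬ (w₃ ∩ u (Sum.inl (Sum.inr ())) ⊆ φ V Q (fun a => u (Sum.inl (Sum.inl a)))) →
      (u (Sum.inr ()) = w₂ ∨ (w₂ = w₃ ∨ u (Sum.inr ()) = w₃)))) ?_
    refine LD.all (q := fun V _ Q (u : ((α ⊕ Unit) ⊕ Unit) ⊕ Unit → Set (V → ℚ)) w₃ =>
      (Comp (u (Sum.inl (Sum.inl (Sum.inr ())))) (μ V Q (fun a => u (Sum.inl (Sum.inl (Sum.inl a)))))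
        (φ V Q (fun a => u (Sum.inl (Sum.inl (Sum.inl a)))) ∪ γ V Q (fun a => u (Sum.inl (Sum.inl (Sum.inl a))))) →
      Comp (u (Sum.inl (Sum.inr ())))
        (γ V Q (fun a => u (Sum.inl (Sum.inl (Sum.inl a)))) ∩ μ V Q (fun a => u (Sum.inl (Sum.inl (Sum.inl a)))))
        (φ V Q (fun a => u (Sum.inl (Sum.inl (Sum.inl a))))) →
      Comp (u (Sum.inr ()))
        (γ V Q (fun a => u (Sum.inl (Sum.inl (Sum.inl a)))) ∩ μ V Q (fun a => u (Sum.inl (Sum.inl (Sum.inl a)))))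
        (φ V Q (fun a => u (Sum.inl (Sum.inl (Sum.inl a))))) →
      Comp w₃
        (γ V Q (fun a => u (Sum.inl (Sum.inl (Sum.inl a)))) ∩ μ V Q (fun a => u (Sum.inl (Sum.inl (Sum.inl a)))))
        (φ V Q (fun a => u (Sum.inl (Sum.inl (Sum.inl a))))) →
      ¬ (u (Sum.inl (Sum.inr ())) ∩ u (Sum.inl (Sum.inl (Sum.inr ()))) ⊆
        φ V Q (fun a => u (Sum.inl (Sum.inl (Sum.inl a))))) →
      ¬ (u (Sum.inr ()) ∩ u (Sum.inl (Sum.inl (Sum.inr ()))) ⊆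
        φ V Q (fun a => u (Sum.inl (Sum.inl (Sum.inl a))))) →
      ¬ (w₃ ∩ u (Sum.inl (Sum.inl (Sum.inr ()))) ⊆
        φ V Q (fun a => u (Sum.inl (Sum.inl (Sum.inl a))))) →
      (u (Sum.inl (Sum.inr ())) = u (Sum.inr ()) ∨ (u (Sum.inr ()) = w₃ ∨
        u (Sum.inl (Sum.inr ())) = w₃)))) ?_
    have hμ4 := hμ.lift.lift.lift.lift
    have hφ4 := hφ.lift.lift.lift.lift
    have hγ4 := hγ.lift.lift.lift.lift
    have vm : LT (fun V _ Q (u : (((α ⊕ Unit) ⊕ Unit) ⊕ Unit) ⊕ Unit → Set (V → ℚ)) =>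
      u (Sum.inl (Sum.inl (Sum.inl (Sum.inr ()))))) := LT.var _
    have v1 : LT (fun V _ Q (u : (((α ⊕ Unit) ⊕ Unit) ⊕ Unit) ⊕ Unit → Set (V → ℚ)) =>
      u (Sum.inl (Sum.inl (Sum.inr ())))) := LT.var _
    have v2 : LT (fun V _ Q (u : (((α ⊕ Unit) ⊕ Unit) ⊕ Unit) ⊕ Unit → Set (V → ℚ)) =>
      u (Sum.inl (Sum.inr ()))) := LT.var _
    have v3 : LT (fun V _ Q (u : (((α ⊕ Unit) ⊕ Unit) ⊕ Unit) ⊕ Unit → Set (V → ℚ)) =>
      u (Sum.inr ())) := LT.var _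
    exact (LD.comp vm hμ4 (hφ4.union hγ4)).imp ((LD.comp v1 (hγ4.inter hμ4) hφ4).imp
      ((LD.comp v2 (hγ4.inter hμ4) hφ4).imp ((LD.comp v3 (hγ4.inter hμ4) hφ4).imp
      ((LD.sub (v1.inter vm) hφ4).not.imp ((LD.sub (v2.inter vm) hφ4).not.imp
      ((LD.sub (v3.inter vm) hφ4).not.imp ((LD.eq v1 v2).or ((LD.eq v2 v3).or
        (LD.eq v1 v3)))))))))
  refine (h1.and h2).congr (fun V _ Q v hv => ?_)
  obtain ⟨m1, m2⟩ := hμ.valid V Q v hv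
  have hGM : γ V Q v ∩ μ V Q v ⊆ Q := Set.inter_subset_right.trans m2
  constructor
  · rintro ⟨k1, k2⟩
    refine ⟨fun w hw => ?_, fun m w₁ w₂ w₃ hm h1 h2 h3 =>
      k2 m hm.pol (hm.sub.trans m2) w₁ h1.pol (h1.sub.trans hGM) w₂ h2.pol (h2.sub.trans hGM)
        w₃ h3.pol (h3.sub.trans hGM) hm h1 h2 h3⟩
    obtain ⟨x, _, _, y, _, _, ⟨a1, a2⟩, ⟨a3, a4⟩, a5, ⟨a6, a7, a8⟩, a9, a10⟩ :=
      k1 w hw.pol (hw.sub.trans hGM) hw
    exact ⟨x, y, a1, a2, a3, fun z hz => a4 z hz.pol (hz.sub.trans m2) hz, a5, a6, a7, a8, a9, a10⟩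
  · rintro ⟨k1, k2⟩
    refine ⟨fun w _ _ hw => ?_, fun m _ _ w₁ _ _ w₂ _ _ w₃ _ _ => k2 m w₁ w₂ w₃⟩
    obtain ⟨x, y, a1, a2, a3, a4, a5, a6, a7, a8, a9, a10⟩ := k1 w hw
    exact ⟨x, a1.pol, a1.sub.trans m2, y, a2.pol, a2.sub.trans m2, ⟨a1, a2⟩,
      ⟨a3, fun z _ _ hz => a4 z hz⟩, a5, ⟨a6, a7, a8⟩, a9, a10⟩

theorem LD.lev {β : ∀ (V : Type), Set (V → ℚ) → Set (V → ℚ) → Prop} (hβ : LDβ β) (j : ℕ) :
    ∀ {α : Type} {γ κ φ : Tm α}, LT γ → LT κ → LT φ →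
    LD (fun V _ Q v => Lev (β V) (γ V Q v) (κ V Q v) j (φ V Q v)) := by
  induction j with
  | zero =>
    intro α γ κ φ hγ hκ hφ
    have h1 : LD (fun V _ Q v => ∀ M, Pol M → M ⊆ Q → (Comp M (γ V Q v) (φ V Q v) →
        (M ∩ κ V Q v ⊆ φ V Q v ∧ ∃ D₁, Pol D₁ ∧ D₁ ⊆ Q ∧ ∃ D₂, Pol D₂ ∧ D₂ ⊆ Q ∧
        (M ∩ φ V Q v = D₁ ∪ D₂ ∧ (β V D₁ (D₁ ∩ D₂) ∧ β V D₂ (D₁ ∩ D₂)))))) := by
      refine LD.all (q := fun V _ Q v M => (Comp M (γ V Q v) (φ V Q v) →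
        (M ∩ κ V Q v ⊆ φ V Q v ∧ ∃ D₁, Pol D₁ ∧ D₁ ⊆ Q ∧ ∃ D₂, Pol D₂ ∧ D₂ ⊆ Q ∧
        (M ∩ φ V Q v = D₁ ∪ D₂ ∧ (β V D₁ (D₁ ∩ D₂) ∧ β V D₂ (D₁ ∩ D₂)))))) ?_
      refine (LD.comp LT.last hγ.lift hφ.lift).imp ((LD.sub (LT.last.inter hκ.lift) hφ.lift).and ?_)
      refine LD.ex (q := fun V _ Q (u : α ⊕ Unit → Set (V → ℚ)) D₁ => ∃ D₂, Pol D₂ ∧ D₂ ⊆ Q ∧
        (u (Sum.inr ()) ∩ φ V Q (fun a => u (Sum.inl a)) = D₁ ∪ D₂ ∧
          (β V D₁ (D₁ ∩ D₂) ∧ β V D₂ (D₁ ∩ D₂)))) ?_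
      refine LD.ex (q := fun V _ Q (u : (α ⊕ Unit) ⊕ Unit → Set (V → ℚ)) D₂ =>
        (u (Sum.inl (Sum.inr ())) ∩ φ V Q (fun a => u (Sum.inl (Sum.inl a))) = u (Sum.inr ()) ∪ D₂ ∧
          (β V (u (Sum.inr ())) (u (Sum.inr ()) ∩ D₂) ∧ β V D₂ (u (Sum.inr ()) ∩ D₂)))) ?_
      have vM : LT (fun V _ Q (u : ((α ⊕ Unit) ⊕ Unit) ⊕ Unit → Set (V → ℚ)) =>
        u (Sum.inl (Sum.inl (Sum.inr ())))) := LT.var _
      have v1 : LT (fun V _ Q (u : ((α ⊕ Unit) ⊕ Unit) ⊕ Unit → Set (V → ℚ)) =>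
        u (Sum.inl (Sum.inr ()))) := LT.var _
      have v2 : LT (fun V _ Q (u : ((α ⊕ Unit) ⊕ Unit) ⊕ Unit → Set (V → ℚ)) =>
        u (Sum.inr ())) := LT.var _
      exact (LD.eq (vM.inter hφ.lift.lift.lift) (v1.union v2)).and
        ((hβ _ _ _ v1 (v1.inter v2)).and (hβ _ _ _ v2 (v1.inter v2)))
    refine h1.congr (fun V _ Q v hv => ?_)
    obtain ⟨c1, c2⟩ := hγ.valid V Q v hv
    constructor
    · intro h M hM
      obtain ⟨a1, D₁, a2, _, D₂, a3, _, a4, a5, a6⟩ := h M hM.pol (hM.sub.trans c2) hM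
      exact ⟨a1, D₁, D₂, a2, a3, a4, a5, a6⟩
    · intro h M _ _ hM
      obtain ⟨a1, D₁, D₂, a2, a3, a4, a5, a6⟩ := h M hM
      have hMQ : M ∩ φ V Q v ⊆ Q := Set.inter_subset_left.trans (hM.sub.trans c2)
      rw [a4] at hMQ
      exact ⟨a1, D₁, a2, Set.subset_union_left.trans hMQ, D₂, a3,
        Set.subset_union_right.trans hMQ, a4, a5, a6⟩
  | succ j ih =>
    intro α γ κ φ hγ hκ hφ
    have h1 : LD (fun V _ Q v => ∃ G, Pol G ∧ G ⊆ Q ∧ (G ⊆ γ V Q v ∧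
        ((∀ M, Pol M → M ⊆ Q → (Comp M (γ V Q v) (φ V Q v) → Good (β V) M (φ V Q v) G)) ∧
        Lev (β V) (γ V Q v) (κ V Q v) j (φ V Q v ∪ G)))) := by
      refine LD.ex (q := fun V _ Q v G => (G ⊆ γ V Q v ∧
        ((∀ M, Pol M → M ⊆ Q → (Comp M (γ V Q v) (φ V Q v) → Good (β V) M (φ V Q v) G)) ∧
        Lev (β V) (γ V Q v) (κ V Q v) j (φ V Q v ∪ G)))) ?_
      refine (LD.sub LT.last hγ.lift).and (LD.and ?_ ?_)
      · refine LD.all (q := fun V _ Q (u : α ⊕ Unit → Set (V → ℚ)) M =>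
          (Comp M (γ V Q (fun a => u (Sum.inl a))) (φ V Q (fun a => u (Sum.inl a))) →
            Good (β V) M (φ V Q (fun a => u (Sum.inl a))) (u (Sum.inr ())))) ?_
        exact (LD.comp LT.last hγ.lift.lift hφ.lift.lift).imp
          (LD.good hβ LT.last hφ.lift.lift (LT.var _))
      · exact ih hγ.lift hκ.lift (hφ.lift.union LT.last)
    refine h1.congr (fun V _ Q v hv => ?_)
    obtain ⟨c1, c2⟩ := hγ.valid V Q v hv
    constructor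
    · rintro ⟨G, a1, _, a2, a3, a4⟩
      exact ⟨G, a1, a2, fun M hM => a3 M hM.pol (hM.sub.trans c2) hM, a4⟩
    · rintro ⟨G, a1, a2, a3, a4⟩
      exact ⟨G, a1, a2.trans c2, a2, fun M _ _ hM => a3 M hM, a4⟩

theorem LDβ_BB (k : ℕ) : LDβ (fun V => BB (E := V → ℚ) (k + 1)) := by
  induction k with
  | zero =>
    intro α σ τ hσ hτ
    have h1 : LD (fun V _ Q v => (τ V Q v = {0} ∧ (¬ (σ V Q v = {0}) ∧
        ∀ D, Pol D → D ⊆ Q → (D ⊆ σ V Q v → (D = {0} ∨ D = σ V Q v))))) := by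
      refine (LD.eq hτ LT.zero).and ((LD.eq hσ LT.zero).not.and ?_)
      refine LD.all (q := fun V _ Q v D => (D ⊆ σ V Q v → (D = {0} ∨ D = σ V Q v))) ?_
      exact (LD.sub LT.last hσ.lift).imp ((LD.eq LT.last LT.zero).or (LD.eq LT.last hσ.lift))
    refine h1.congr (fun V _ Q v hv => ?_)
    obtain ⟨c1, c2⟩ := hσ.valid V Q v hv
    constructor
    · rintro ⟨a1, a2, a3⟩
      exact ⟨a1, c1, a2, fun D hD hDs => a3 D hD (hDs.trans c2) hDs⟩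
    · rintro ⟨a1, _, a2, a3⟩
      exact ⟨a1, a2, fun D hD _ hDs => a3 D hD hDs⟩
  | succ k ih =>
    intro α σ τ hσ hτ
    have h1 : LD (fun V _ Q v => (τ V Q v ⊆ σ V Q v ∧ (Comp (σ V Q v) (σ V Q v) (τ V Q v) ∧
        ∀ A, Pol A → A ⊆ Q → (A ⊆ σ V Q v → cl (σ V Q v \ A) = σ V Q v →
          Lev (BB (E := V → ℚ) (k + 1)) (σ V Q v) A (k + 1) (τ V Q v))))) := by
      refine (LD.sub hτ hσ).and ((LD.comp hσ hσ hτ).and ?_)
      refine LD.all (q := fun V _ Q v A => (A ⊆ σ V Q v → cl (σ V Q v \ A) = σ V Q v →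
          Lev (BB (E := V → ℚ) (k + 1)) (σ V Q v) A (k + 1) (τ V Q v))) ?_
      exact (LD.sub LT.last hσ.lift).imp ((LD.eq (hσ.lift.cld LT.last) hσ.lift).imp
        (LD.lev ih (k + 1) hσ.lift LT.last hτ.lift))
    refine h1.congr (fun V _ Q v hv => ?_)
    obtain ⟨c1, c2⟩ := hσ.valid V Q v hv
    obtain ⟨d1, d2⟩ := hτ.valid V Q v hv
    constructor
    · rintro ⟨a1, a2, a3⟩
      exact ⟨c1, d1, a1, a2, fun A hA hAs => a3 A hA (hAs.trans c2) hAs⟩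
    · rintro ⟨_, _, a1, a2, a3⟩
      exact ⟨a1, a2, fun A hA _ hAs => a3 A hA hAs⟩

theorem LT.biUnion {ι : Type} (s : Finset ι) (τ : ι → Tm α) (h : ∀ i, LT (τ i)) :
    LT (fun V _ Q v => ({0} : Set (V → ℚ)) ∪ ⋃ i ∈ s, τ i V Q v) := by
  classical
  induction s using Finset.induction_on with
  | empty =>
    have h0 := LT.zero (α := α)
    constructor
    · exact h0.dfn.congr (fun V _ Q v _ => by simp)
    · intro V _ Q v hv; simpa using h0.valid V Q v hv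
  | insert a s _ ih =>
    have h0 := (h a).union ih
    constructor
    · refine h0.dfn.congr (fun V _ Q v _ => ?_)
      rw [Finset.set_biUnion_insert, ← Set.union_assoc, ← Set.union_assoc, Set.union_comm {0}]
    · intro V _ Q v hv
      have h1 := h0.valid V Q v hv
      have e : τ a V Q v ∪ (({0} : Set (V → ℚ)) ∪ ⋃ i ∈ s, τ i V Q v) =
          {0} ∪ ⋃ i ∈ insert a s, τ i V Q v := by
        rw [Finset.set_biUnion_insert, ← Set.union_assoc, ← Set.union_assoc, Set.union_comm {0}]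
      rw [e] at h1
      exact h1

/-- Definability of cell systems. -/
theorem LD.cells {ι : Type} [PartialOrder ι] [Finite ι] (i0 : ι) (hi0 : ∀ i, i0 ≤ i) (d : ι → ℕ) :
    LD (fun V _ Q (c : ι → Set (V → ℚ)) => Cells i0 d (fun k => BB (E := V → ℚ) k) c ∧
      Q ⊆ ⋃ i, c i) := by
  classical
  have : Fintype ι := Fintype.ofFinite ι
  have h1 : LD (fun V _ Q (c : ι → Set (V → ℚ)) => c i0 = {0}) := LD.eq (LT.var i0) LT.zero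
  have h2 : LD (fun V _ Q (c : ι → Set (V → ℚ)) => ∀ i j, c i ∩ c j =
      ({0} : Set (V → ℚ)) ∪ ⋃ k ∈ Finset.univ.filter (fun k => k ≤ i ∧ k ≤ j), c k) :=
    LD.fall (fun i => LD.fall (fun j => LD.eq ((LT.var i).inter (LT.var j))
      (LT.biUnion _ (fun k => fun V _ Q c => c k) (fun k => LT.var k))))
  have h3 : LD (fun V _ Q (c : ι → Set (V → ℚ)) => ∀ i, i ≠ i0 → d i ≠ 0 ∧ BB (E := V → ℚ) (d i)
      (c i) (({0} : Set (V → ℚ)) ∪ ⋃ k ∈ Finset.univ.filter (fun k => k < i), c k)) := by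
    refine LD.fall (fun i => LD.ext ?_)
    rcases Nat.eq_zero_or_pos (d i) with h0 | h0
    · rw [h0]; exact LD.bot.congr (fun V _ Q v _ => by simp)
    · obtain ⟨k, hk⟩ : ∃ k, d i = k + 1 := ⟨d i - 1, by omega⟩
      rw [hk]
      refine (LDβ_BB k ι _ _ (LT.var i) (LT.biUnion (Finset.univ.filter (fun k => k < i))
        (fun k => fun V _ Q c => c k) (fun k => LT.var k))).congr (fun V _ Q v _ => ?_)
      exact ⟨fun h => ⟨by omega, h⟩, fun h => h.2⟩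
  have h4 : LD (fun V _ Q (c : ι → Set (V → ℚ)) => Q ⊆
      ({0} : Set (V → ℚ)) ∪ ⋃ k ∈ (Finset.univ : Finset ι), c k) :=
    LD.full (LT.biUnion _ (fun k => fun V _ Q c => c k) (fun k => LT.var k))
  refine (h1.and (h2.and (h3.and h4))).congr (fun V _ Q c hc => ?_)
  have hz : ∀ i, (0 : V → ℚ) ∈ c i := fun i => (hc.2 i).1.1
  have e2 : ∀ i j, (({0} : Set (V → ℚ)) ∪ ⋃ k ∈ Finset.univ.filter (fun k => k ≤ i ∧ k ≤ j), c k) =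
      ⋃ k ∈ {k | k ≤ i ∧ k ≤ j}, c k := by
    intro i j
    ext x
    simp only [Set.mem_union, Set.mem_singleton_iff, Set.mem_iUnion, Finset.mem_filter,
      Finset.mem_univ, true_and, exists_prop]
    constructor
    · rintro (rfl | h)
      · exact ⟨i0, ⟨hi0 i, hi0 j⟩, hz i0⟩
      · exact h
    · exact fun h => Or.inr h
  have e3 : ∀ i, i ≠ i0 → (({0} : Set (V → ℚ)) ∪ ⋃ k ∈ Finset.univ.filter (fun k => k < i), c k) =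
      ⋃ k ∈ {k | k < i}, c k := by
    intro i hi
    ext x
    simp only [Set.mem_union, Set.mem_singleton_iff, Set.mem_iUnion, Finset.mem_filter,
      Finset.mem_univ, true_and, exists_prop]
    constructor
    · rintro (rfl | h)
      · exact ⟨i0, lt_of_le_of_ne (hi0 i) hi.symm, hz i0⟩
      · exact h
    · exact fun h => Or.inr h
  have e4 : (({0} : Set (V → ℚ)) ∪ ⋃ k ∈ (Finset.univ : Finset ι), c k) = ⋃ i, c i := by
    ext x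
    simp only [Set.mem_union, Set.mem_singleton_iff, Set.mem_iUnion, Finset.mem_univ, exists_prop,
      true_and]
    constructor
    · rintro (rfl | h)
      · exact ⟨i0, hz i0⟩
      · exact h
    · exact fun h => Or.inr h
  constructor
  · rintro ⟨a1, a2, a3, a4⟩
    refine ⟨⟨fun i => (hc.2 i).1, a1, fun i j => by rw [a2, e2], fun i hi => ?_⟩, by rwa [e4] at a4⟩
    have := a3 i hi
    rwa [e3 i hi] at this
  · rintro ⟨⟨_, a1, a2, a3⟩, a4⟩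
    refine ⟨a1, fun i j => by rw [a2, e2], fun i hi => ?_, by rwa [e4]⟩
    have := a3 i hi
    rwa [← e3 i hi] at this

end

end Pool.Agent.Work.MP_552024_lc.PLS
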