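import Pool.Agent.Work.MP_552024_lc.PLS.Zsets
import Pool.Agent.Work.MP_552024_lc.B7
import Pool.Agent.Work.MP_552024_lc.B9

set_option autoImplicit false

namespace Pool.Agent.Work.MP_552024_lc.PLS

open Pool.Agent.MP552024

/-! Definability in lattice-ordered groups of predicates about closed sets. -/

/-- predicates about closed subsets of a closed set -/
abbrev Pr (α : Type) := ∀ (V : Type) [Fintype V], Set (V → ℚ) → (α → Set (V → ℚ)) → Prop

/-- operations -/
abbrev Tm (α : Type) := ∀ (V : Type) [Fintype V], Set (V → ℚ) → (α → Set (V → ℚ)) → Set (V → ℚ)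

/-- `p` is uniformly definable -/
def LD {α : Type} (p : Pr α) : Prop :=
  ∃ P : ∀ K : OG, (α → K.K) → Prop, Dfn P ∧ ∀ (K : OG) (M : Mdl K.K) (v : α → K.K),
    (∀ i, 0 ≤ v i) → (P K v ↔ p M.V (Qset M) (fun i => Zset M (v i)))

/-- valid assignments -/
def Val {α V : Type} (Q : Set (V → ℚ)) (v : α → Set (V → ℚ)) : Prop :=
  Pol Q ∧ ∀ i, Pol (v i) ∧ v i ⊆ Q

section closure

variable {α β : Type}

theorem LD.congr {p q : Pr α} (h : LD p)
    (hpq : ∀ (V : Type) [Fintype V] (Q : Set (V → ℚ)) (v : α → Set (V → ℚ)), Val Q v →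
      (p V Q v ↔ q V Q v)) : LD q := by
  obtain ⟨P, hP, hPp⟩ := h
  exact ⟨P, hP, fun K M v hv => (hPp K M v hv).trans
    (hpq M.V (Qset M) _ ⟨pol_Qset M, fun i => ⟨pol_Zset M _, Zset_sub M _⟩⟩)⟩

theorem LD.comap {p : Pr α} (h : LD p) (f : α → β) : LD (fun V _ Q v => p V Q (fun a => v (f a))) := by
  obtain ⟨P, hP, hPp⟩ := h
  exact ⟨fun K v => P K (fun a => v (f a)), hP.comap f, fun K M v hv =>
    hPp K M _ (fun i => hv (f i))⟩

theorem LD.sub_var (i j : α) : LD (fun V _ Q v => v i ⊆ v j) := by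
  refine ⟨fun K v => Inc (v j) (v i), Dfn.inc (DT.var j) (DT.var i), fun K M v hv => ?_⟩
  exact (Zset_le_iff (prfB9 prfB7) M (hv j) (hv i)).symm

theorem LD.not {p : Pr α} (h : LD p) : LD (fun V _ Q v => ¬ p V Q v) := by
  obtain ⟨P, hP, hPp⟩ := h
  exact ⟨fun K v => ¬ P K v, hP.not, fun K M v hv => not_congr (hPp K M v hv)⟩

theorem LD.and {p q : Pr α} (h : LD p) (h' : LD q) : LD (fun V _ Q v => p V Q v ∧ q V Q v) := by
  obtain ⟨P, hP, hPp⟩ := h
  obtain ⟨R, hR, hRq⟩ := h'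
  exact ⟨fun K v => P K v ∧ R K v, hP.and hR, fun K M v hv =>
    and_congr (hPp K M v hv) (hRq K M v hv)⟩

theorem LD.or {p q : Pr α} (h : LD p) (h' : LD q) : LD (fun V _ Q v => p V Q v ∨ q V Q v) := by
  obtain ⟨P, hP, hPp⟩ := h
  obtain ⟨R, hR, hRq⟩ := h'
  exact ⟨fun K v => P K v ∨ R K v, hP.or hR, fun K M v hv =>
    or_congr (hPp K M v hv) (hRq K M v hv)⟩

theorem LD.imp {p q : Pr α} (h : LD p) (h' : LD q) : LD (fun V _ Q v => p V Q v → q V Q v) := by
  obtain ⟨P, hP, hPp⟩ := h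
  obtain ⟨R, hR, hRq⟩ := h'
  exact ⟨fun K v => P K v → R K v, hP.imp hR, fun K M v hv =>
    imp_congr (hPp K M v hv) (hRq K M v hv)⟩

theorem LD.top : LD (fun V _ Q (v : α → Set (V → ℚ)) => True) :=
  ⟨fun _ _ => True, Dfn.top, fun _ _ _ _ => Iff.rfl⟩

theorem LD.bot : LD (fun V _ Q (v : α → Set (V → ℚ)) => False) :=
  (LD.top.not).congr (fun V _ Q v _ => by simp)

theorem LD.fall {γ : Type} [Finite γ] {p : γ → Pr α} (h : ∀ c, LD (p c)) :
    LD (fun V _ Q v => ∀ c, p c V Q v) := by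
  choose P hP hPp using h
  exact ⟨fun K v => ∀ c, P c K v, Dfn.fall hP, fun K M v hv =>
    forall_congr' (fun c => hPp c K M v hv)⟩

theorem LD.ext {r : Prop} {p : Pr α} (h : LD p) : LD (fun V _ Q v => r → p V Q v) := by
  obtain ⟨P, hP, hPp⟩ := h
  exact ⟨fun K v => r → P K v, Dfn.ext hP, fun K M v hv => imp_congr Iff.rfl (hPp K M v hv)⟩

/-- quantification over closed subsets of `Q` -/
theorem LD.all {q : ∀ (V : Type) [Fintype V], Set (V → ℚ) → (α → Set (V → ℚ)) →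
      Set (V → ℚ) → Prop}
    (h : LD (fun V _ Q (w : α ⊕ Unit → Set (V → ℚ)) =>
      q V Q (fun a => w (Sum.inl a)) (w (Sum.inr ())))) :
    LD (fun V _ Q v => ∀ s, Pol s → s ⊆ Q → q V Q v s) := by
  obtain ⟨P, hP, hPp⟩ := h
  refine ⟨fun K v => ∀ x : K.K, 0 ≤ x → P K (Sum.elim v (fun _ => x)), ?_, ?_⟩
  · refine Dfn.all (Q := fun K v x => 0 ≤ x → P K (Sum.elim v (fun _ => x))) ?_
    refine Dfn.imp (Dfn.le DT.zero (DT.var _)) ?_
    refine hP.congr (fun K v => ?_)
    have : v = Sum.elim (fun a => v (Sum.inl a)) (fun _ => v (Sum.inr ())) := by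
      ext i; rcases i with i | i <;> rfl
    rw [← this]
  · intro K M v hv
    constructor
    · intro h s hs hsQ
      obtain ⟨x, hx, hxs⟩ := exists_Zset M hs hsQ
      have := (hPp K M (Sum.elim v (fun _ => x)) (by
        rintro (i | i)
        · exact hv i
        · exact hx)).1 (h x hx)
      simpa only [Sum.elim_inl, Sum.elim_inr, hxs] using this
    · intro h x hx
      refine (hPp K M (Sum.elim v (fun _ => x)) (by
        rintro (i | i)
        · exact hv i
        · exact hx)).2 ?_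
      exact h (Zset M x) (pol_Zset M x) (Zset_sub M x)

theorem LD.ex {q : ∀ (V : Type) [Fintype V], Set (V → ℚ) → (α → Set (V → ℚ)) →
      Set (V → ℚ) → Prop}
    (h : LD (fun V _ Q (w : α ⊕ Unit → Set (V → ℚ)) =>
      q V Q (fun a => w (Sum.inl a)) (w (Sum.inr ())))) :
    LD (fun V _ Q v => ∃ s, Pol s ∧ s ⊆ Q ∧ q V Q v s) := by
  have := (LD.all (q := fun V _ Q v s => ¬ q V Q v s) h.not).not
  refine this.congr (fun V _ Q v _ => ?_)
  push Not
  rfl

/-- definable operations -/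
structure LT (τ : Tm α) : Prop where
  dfn : LD (fun V _ Q (w : α ⊕ Unit → Set (V → ℚ)) =>
    w (Sum.inr ()) = τ V Q (fun a => w (Sum.inl a)))
  valid : ∀ (V : Type) [Fintype V] (Q : Set (V → ℚ)) (v : α → Set (V → ℚ)), Val Q v →
    Pol (τ V Q v) ∧ τ V Q v ⊆ Q

theorem LD.bind {τ : Tm α} (hτ : LT τ) {q : ∀ (V : Type) [Fintype V], Set (V → ℚ) →
      (α → Set (V → ℚ)) → Set (V → ℚ) → Prop}
    (h : LD (fun V _ Q (w : α ⊕ Unit → Set (V → ℚ)) =>
      q V Q (fun a => w (Sum.inl a)) (w (Sum.inr ())))) :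
    LD (fun V _ Q v => q V Q v (τ V Q v)) := by
  refine (LD.all (q := fun V _ Q v s => s = τ V Q v → q V Q v s) (hτ.dfn.imp h)).congr
    (fun V _ Q v hv => ?_)
  obtain ⟨h1, h2⟩ := hτ.valid V Q v hv
  constructor
  · intro h; exact h _ h1 h2 rfl
  · rintro h s _ _ rfl; exact h

theorem LT.comap {τ : Tm α} (h : LT τ) (f : α → β) :
    LT (fun V _ Q v => τ V Q (fun a => v (f a))) where
  dfn := h.dfn.comap (Sum.map f id)
  valid := fun V _ Q v hv => h.valid V Q _ ⟨hv.1, fun i => hv.2 (f i)⟩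

theorem LT.lift {τ : Tm α} (h : LT τ) :
    LT (fun V _ Q (w : α ⊕ Unit → Set (V → ℚ)) => τ V Q (fun a => w (Sum.inl a))) :=
  h.comap Sum.inl

theorem LT.var (a : α) : LT (fun V _ Q v => v a) where
  dfn := ((LD.sub_var (Sum.inr ()) (Sum.inl a)).and (LD.sub_var (Sum.inl a) (Sum.inr ()))).congr
    (fun V _ Q v _ => ⟨fun h => subset_antisymm h.1 h.2, fun h => ⟨h.le, h.ge⟩⟩)
  valid := fun V _ Q v hv => hv.2 a

theorem LD.sub {σ τ : Tm α} (hσ : LT σ) (hτ : LT τ) : LD (fun V _ Q v => σ V Q v ⊆ τ V Q v) := by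
  refine LD.bind hτ (q := fun V _ Q v s => σ V Q v ⊆ s) ?_
  refine LD.bind hσ.lift (q := fun V _ Q (v : α ⊕ Unit → Set (V → ℚ)) s => s ⊆ v (Sum.inr ())) ?_
  exact LD.sub_var _ _

theorem LD.eq {σ τ : Tm α} (hσ : LT σ) (hτ : LT τ) : LD (fun V _ Q v => σ V Q v = τ V Q v) :=
  ((LD.sub hσ hτ).and (LD.sub hτ hσ)).congr
    (fun V _ Q v _ => ⟨fun h => subset_antisymm h.1 h.2, fun h => ⟨h.le, h.ge⟩⟩)

/-- the last variable -/
theorem LT.last : LT (fun V _ Q (w : α ⊕ Unit → Set (V → ℚ)) => w (Sum.inr ())) := LT.var _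

theorem LT.union {σ τ : Tm α} (hσ : LT σ) (hτ : LT τ) : LT (fun V _ Q v => σ V Q v ∪ τ V Q v) where
  dfn := by
    have := ((LD.sub hσ.lift LT.last).and (LD.sub hτ.lift LT.last)).and
      (LD.all (q := fun V _ Q (w : α ⊕ Unit → Set (V → ℚ)) d =>
        σ V Q (fun a => w (Sum.inl a)) ⊆ d → τ V Q (fun a => w (Sum.inl a)) ⊆ d →
          w (Sum.inr ()) ⊆ d)
        ((LD.sub hσ.lift.lift LT.last).imp ((LD.sub hτ.lift.lift LT.last).imp
          (LD.sub (LT.var (Sum.inl (Sum.inr ()))) LT.last))))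
    refine this.congr (fun V _ Q w hw => ?_)
    have hv : Val Q (fun a => w (Sum.inl a)) := ⟨hw.1, fun i => hw.2 _⟩
    obtain ⟨h1, h2⟩ := hσ.valid V Q _ hv
    obtain ⟨h3, h4⟩ := hτ.valid V Q _ hv
    constructor
    · rintro ⟨⟨h5, h6⟩, h7⟩
      exact subset_antisymm (h7 _ (h1.union h3) (Set.union_subset h2 h4) Set.subset_union_left
        Set.subset_union_right) (Set.union_subset h5 h6)
    · intro h
      rw [h]
      exact ⟨⟨Set.subset_union_left, Set.subset_union_right⟩,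
        fun d _ _ h5 h6 => Set.union_subset h5 h6⟩
  valid := fun V _ Q v hv => ⟨(hσ.valid V Q v hv).1.union (hτ.valid V Q v hv).1,
    Set.union_subset (hσ.valid V Q v hv).2 (hτ.valid V Q v hv).2⟩

theorem LT.inter {σ τ : Tm α} (hσ : LT σ) (hτ : LT τ) : LT (fun V _ Q v => σ V Q v ∩ τ V Q v) where
  dfn := by
    have := ((LD.sub LT.last hσ.lift).and (LD.sub LT.last hτ.lift)).and
      (LD.all (q := fun V _ Q (w : α ⊕ Unit → Set (V → ℚ)) d =>
        d ⊆ σ V Q (fun a => w (Sum.inl a)) → d ⊆ τ V Q (fun a => w (Sum.inl a)) →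
          d ⊆ w (Sum.inr ()))
        ((LD.sub LT.last hσ.lift.lift).imp ((LD.sub LT.last hτ.lift.lift).imp
          (LD.sub LT.last (LT.var (Sum.inl (Sum.inr ())))))))
    refine this.congr (fun V _ Q w hw => ?_)
    have hv : Val Q (fun a => w (Sum.inl a)) := ⟨hw.1, fun i => hw.2 _⟩
    obtain ⟨h1, h2⟩ := hσ.valid V Q _ hv
    obtain ⟨h3, h4⟩ := hτ.valid V Q _ hv
    constructor
    · rintro ⟨⟨h5, h6⟩, h7⟩
      exact subset_antisymm (Set.subset_inter h5 h6)
        (h7 _ (h1.inter h3) (Set.inter_subset_left.trans h2) Set.inter_subset_left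
        Set.inter_subset_right)
    · intro h
      rw [h]
      exact ⟨⟨Set.inter_subset_left, Set.inter_subset_right⟩,
        fun d _ _ h5 h6 => Set.subset_inter h5 h6⟩
  valid := fun V _ Q v hv => ⟨(hσ.valid V Q v hv).1.inter (hτ.valid V Q v hv).1,
    Set.inter_subset_left.trans (hσ.valid V Q v hv).2⟩

/-- the closure of a difference -/
theorem LT.cld {σ τ : Tm α} (hσ : LT σ) (hτ : LT τ) :
    LT (fun V _ Q v => cl (σ V Q v \ τ V Q v)) where
  dfn := by
    have := (LD.sub hσ.lift (hτ.lift.union LT.last)).and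
      (LD.all (q := fun V _ Q (w : α ⊕ Unit → Set (V → ℚ)) d =>
        σ V Q (fun a => w (Sum.inl a)) ⊆ τ V Q (fun a => w (Sum.inl a)) ∪ d →
          w (Sum.inr ()) ⊆ d)
        ((LD.sub hσ.lift.lift (hτ.lift.lift.union LT.last)).imp
          (LD.sub (LT.var (Sum.inl (Sum.inr ()))) LT.last)))
    refine this.congr (fun V _ Q w hw => ?_)
    have hv : Val Q (fun a => w (Sum.inl a)) := ⟨hw.1, fun i => hw.2 _⟩
    obtain ⟨h1, h2⟩ := hσ.valid V Q _ hv
    obtain ⟨h3, h4⟩ := hτ.valid V Q _ hv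
    have hcon := h1.con.diff h3.con
    constructor
    · rintro ⟨h5, h6⟩
      apply subset_antisymm
      · refine h6 _ hcon.pol_cl (h1.cl_subset Set.sdiff_subset |>.trans h2) ?_
        intro x hx
        by_cases hxt : x ∈ τ V Q (fun a => w (Sum.inl a))
        · exact Or.inl hxt
        · exact Or.inr (subset_cl _ ⟨hx, hxt⟩)
      · refine (hw.2 (Sum.inr ())).1.cl_subset ?_
        rintro x ⟨hx, hxt⟩
        exact (h5 hx).resolve_left hxt
    · intro h
      rw [h]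
      constructor
      · intro x hx
        by_cases hxt : x ∈ τ V Q (fun a => w (Sum.inl a))
        · exact Or.inl hxt
        · exact Or.inr (subset_cl _ ⟨hx, hxt⟩)
      · intro d hd _ h5
        refine hd.cl_subset ?_
        rintro x ⟨hx, hxt⟩
        exact (h5 hx).resolve_left hxt
  valid := fun V _ Q v hv => ⟨((hσ.valid V Q v hv).1.con.diff (hτ.valid V Q v hv).1.con).pol_cl,
    ((hσ.valid V Q v hv).1.cl_subset Set.sdiff_subset).trans (hσ.valid V Q v hv).2⟩

theorem LT.zero : LT (fun V _ Q (_ : α → Set (V → ℚ)) => ({0} : Set (V → ℚ))) where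
  dfn := by
    have := LD.all (α := α ⊕ Unit) (q := fun V _ Q (w : α ⊕ Unit → Set (V → ℚ)) d =>
        w (Sum.inr ()) ⊆ d) (LD.sub (LT.var (Sum.inl (Sum.inr ()))) LT.last)
    refine this.congr (fun V _ Q w hw => ?_)
    constructor
    · intro h
      apply subset_antisymm
      · exact h _ pol_zero (by intro x hx; rw [Set.mem_singleton_iff.1 hx]; exact hw.1.1)
      · intro x hx
        rw [Set.mem_singleton_iff.1 hx]; exact (hw.2 (Sum.inr ())).1.1
    · intro h
      rw [h]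
      intro d hd _ x hx
      rw [Set.mem_singleton_iff.1 hx]; exact hd.1
  valid := fun V _ Q v hv => ⟨pol_zero, by
    intro x hx; rw [Set.mem_singleton_iff.1 hx]; exact hv.1.1⟩

/-- being everything -/
theorem LD.full {σ : Tm α} (hσ : LT σ) : LD (fun V _ Q v => Q ⊆ σ V Q v) := by
  have := LD.all (q := fun V _ Q (w : α → Set (V → ℚ)) d => d ⊆ σ V Q w)
    (LD.sub LT.last hσ.lift)
  refine this.congr (fun V _ Q w hw => ?_)
  exact ⟨fun h => h Q hw.1 subset_rfl, fun h d _ hd => hd.trans h⟩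

end closure

end Pool.Agent.Work.MP_552024_lc.PLS
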