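import Mathlib

/-!
Rational polyhedral cone geometry, without topology.

All sets live in a rational vector space `E` and are invariant under multiplication by positive
rationals (they are cones over sets of the sphere).  `Pol s`: `s` is a closed polyhedral set
(finite union of closed rational polyhedral cones).  Base points: dimension `k` here is the cone
dimension, so a `Ball k` is the cone over a ball of dimension `k - 1`.
-/

set_option autoImplicit false

namespace Pool.Agent.Work.MP_552024_lc.PLS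

variable {E : Type*} [AddCommGroup E] [Module ℚ E]
variable {E' : Type*} [AddCommGroup E'] [Module ℚ E']

/-- Two points have the same signs for all forms in `A`. -/
def SameSign (A : Set (E →ₗ[ℚ] ℚ)) (x y : E) : Prop :=
  ∀ a ∈ A, SignType.sign (a x) = SignType.sign (a y)

/-- The closed face of `y` with respect to the set of forms `A`. -/
def face (A : Set (E →ₗ[ℚ] ℚ)) (y : E) : Set E :=
  {x | ∀ a ∈ A, a x = 0 ∨ SignType.sign (a x) = SignType.sign (a y)}

/-- Closed polyhedral (conical) set. -/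
def Pol (s : Set E) : Prop :=
  (0 : E) ∈ s ∧ ∃ A : Set (E →ₗ[ℚ] ℚ), A.Finite ∧ ∀ y ∈ s, face A y ⊆ s

/-- Constructible (conical) set: membership is decided by the signs of finitely many forms. -/
def Con (s : Set E) : Prop :=
  ∃ A : Set (E →ₗ[ℚ] ℚ), A.Finite ∧ ∀ x y, SameSign A x y → x ∈ s → y ∈ s

/-- Closure (with the apex `0` added). -/
def cl (s : Set E) : Set E :=
  {x | x = 0 ∨ ∃ y ∈ s, ∀ t : ℚ, 0 < t → t ≤ 1 → x + t • (y - x) ∈ s}

/-- Connectedness with respect to closed polyhedral sets. -/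
def Conn (s : Set E) : Prop :=
  s.Nonempty ∧ ∀ F₁ F₂ : Set E, Pol F₁ → Pol F₂ → s ⊆ F₁ ∪ F₂ →
    (∀ x ∈ s, x ∈ F₁ → x ∉ F₂) → s ⊆ F₁ ∨ s ⊆ F₂

/-- `M` is the closure of a connected component `M \ F` of `C \ F`. -/
def Comp (M C F : Set E) : Prop :=
  Pol M ∧ M ⊆ C ∧ cl (M \ F) = M ∧ Conn (M \ F) ∧ cl (C \ (F ∪ M)) ∩ M ⊆ F

/-- The standard orthant. -/
def Orth (k : ℕ) : Set (Fin k → ℚ) := {x | ∀ i, 0 ≤ x i}

/-- The boundary of the standard orthant. -/
def dOrth (k : ℕ) : Set (Fin k → ℚ) := {x | (∀ i, 0 ≤ x i) ∧ ∃ i, x i = 0}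

/-- `f` is piecewise linear (and homogeneous) on `s`. -/
def PLOn (f : E → E') (s : Set E) : Prop :=
  ∃ A : Set (E →ₗ[ℚ] ℚ), A.Finite ∧ ∃ Λ : Set (E →ₗ[ℚ] E'), Λ.Finite ∧
    ∀ y ∈ s, ∃ L ∈ Λ, ∀ x ∈ s, x ∈ face A y → f x = L x

/-- `f` and `g` are mutually inverse piecewise linear bijections between `s` and `t`. -/
structure PLInv (f : E → E') (g : E' → E) (s : Set E) (t : Set E') : Prop where
  plf : PLOn f s
  plg : PLOn g t
  mapsf : ∀ x ∈ s, f x ∈ t
  mapsg : ∀ y ∈ t, g y ∈ s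
  gf : ∀ x ∈ s, g (f x) = x
  fg : ∀ y ∈ t, f (g y) = y

/-- `(C, S)` is a ball with boundary. -/
def Ball (k : ℕ) (C S : Set E) : Prop :=
  Pol C ∧ S ⊆ C ∧ ∃ (f : (Fin k → ℚ) → E) (g : E → (Fin k → ℚ)), PLInv f g (Orth k) C ∧
    ∀ x ∈ Orth k, (x ∈ dOrth k ↔ f x ∈ S)

/-- `T` is a sphere: union of two balls along their common boundary. -/
def Sph (k : ℕ) (T : Set E) : Prop :=
  ∃ D₁ D₂ U : Set E, T = D₁ ∪ D₂ ∧ U = D₁ ∩ D₂ ∧ Ball k D₁ U ∧ Ball k D₂ U

end Pool.Agent.Work.MP_552024_lc.PLS
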