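import Pool.Agent.Work.MP_552024_lc.PLS.Defs

set_option autoImplicit false

namespace Pool.Agent.Work.MP_552024_lc.PLS

variable {E : Type*} [AddCommGroup E] [Module ℚ E]

/-- The condition at the wall `w` on the side `x`: exactly one cell `m` of the next level lies in
`x` and touches `w`, and the rest of its boundary is a ball. -/
def Side (β : Set E → Set E → Prop) (M F G w x : Set E) : Prop :=
  ∃ m, Comp m M (F ∪ G) ∧ m ⊆ x ∧ ¬ (w ∩ m ⊆ F) ∧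
    (∃ V, Pol V ∧ m ∩ (F ∪ G) = w ∪ V ∧ w ∩ V = w ∩ F ∧ β V (w ∩ F)) ∧
    ∀ m', Comp m' M (F ∪ G) → m' ⊆ x → ¬ (w ∩ m' ⊆ F) → m' = m

/-- The walls `w` (components of `(G ∩ M) \ F`) cut the cell `M` into pieces in a treelike way. -/
def Good (β : Set E → Set E → Prop) (M F G : Set E) : Prop :=
  (∀ w, Comp w (G ∩ M) F →
    ∃ x y, Comp x M (F ∪ w) ∧ Comp y M (F ∪ w) ∧ x ≠ y ∧
      (∀ z, Comp z M (F ∪ w) → z = x ∨ z = y) ∧ x ∩ y = w ∧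
      β w (w ∩ F) ∧ β (x ∩ F) (w ∩ F) ∧ β (y ∩ F) (w ∩ F) ∧
      Side β M F G w x ∧ Side β M F G w y) ∧
  (∀ m w₁ w₂ w₃, Comp m M (F ∪ G) → Comp w₁ (G ∩ M) F → Comp w₂ (G ∩ M) F →
    Comp w₃ (G ∩ M) F → ¬ (w₁ ∩ m ⊆ F) → ¬ (w₂ ∩ m ⊆ F) → ¬ (w₃ ∩ m ⊆ F) →
    w₁ = w₂ ∨ w₂ = w₃ ∨ w₁ = w₃)

/-- `Lev β C A j F`: with `j` further levels of walls the components of `C \ F` are cut into cells
that avoid `A` and have spherical boundary. -/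
def Lev (β : Set E → Set E → Prop) (C A : Set E) : ℕ → Set E → Prop
  | 0, F => ∀ M, Comp M C F → M ∩ A ⊆ F ∧
      ∃ D₁ D₂, Pol D₁ ∧ Pol D₂ ∧ M ∩ F = D₁ ∪ D₂ ∧ β D₁ (D₁ ∩ D₂) ∧ β D₂ (D₁ ∩ D₂)
  | j + 1, F => ∃ G, Pol G ∧ G ⊆ C ∧ (∀ M, Comp M C F → Good β M F G) ∧ Lev β C A j (F ∪ G)

/-- The first order description of balls. -/
def BB : ℕ → Set E → Set E → Prop
  | 0 => fun _ _ => False
  | 1 => fun C S => S = {0} ∧ Pol C ∧ C ≠ {0} ∧ ∀ D, Pol D → D ⊆ C → D = {0} ∨ D = C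
  | k + 2 => fun C S => Pol C ∧ Pol S ∧ S ⊆ C ∧ Comp C C S ∧
      ∀ A, Pol A → A ⊆ C → cl (C \ A) = C → Lev (BB (k + 1)) C A (k + 1) S

/-- The Schoenflies property in (cone) dimension `k`. -/
def SchP (k : ℕ) : Prop :=
  ∀ (K : Set (Fin k → ℚ)) (B : Set ((Fin k → ℚ) →ₗ[ℚ] ℚ)), B.Finite →
    (∀ x, (∀ b ∈ B, 0 ≤ b x) → (∀ b ∈ B, b x ≤ 0) → x = 0) →
    K ⊆ {x | ∀ b ∈ B, 0 < b x} → Pol Kᶜ → Conn K → Sph (k - 1) (cl K \ K) →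
    Ball k (cl K) (cl K \ K)

end Pool.Agent.Work.MP_552024_lc.PLS
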