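import Pool.Agent.Work.MP_552024_lc.PLS.Dim

set_option autoImplicit false

/-! Germs (tangent cones) of polyhedral sets at a point. -/

namespace Pool.Agent.Work.MP_552024_lc.PLS

variable {E : Type*} [AddCommGroup E] [Module ℚ E]

open SignType

/-- The germ (tangent cone) of `S` at `x`. -/
def Tg (x : E) (S : Set E) : Set E := {v | ∃ ε : ℚ, 0 < ε ∧ ∀ s : ℚ, 0 < s → s ≤ ε → x + s • v ∈ S}

/-- Membership in `S` is decided by the signs of the forms in `A`. -/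
def InvA (A : Set (E →ₗ[ℚ] ℚ)) (S : Set E) : Prop := ∀ x y, SameSign A x y → x ∈ S → y ∈ S

/-- `S` is a union of closed faces of `A`. -/
def ClA (A : Set (E →ₗ[ℚ] ℚ)) (S : Set E) : Prop := ∀ y ∈ S, face A y ⊆ S

/-- The forms of `A` vanishing at `x`. -/
def At (A : Set (E →ₗ[ℚ] ℚ)) (x : E) : Set (E →ₗ[ℚ] ℚ) := {a | a ∈ A ∧ a x = 0}

theorem ClA.inv {A : Set (E →ₗ[ℚ] ℚ)} {S : Set E} (h : ClA A S) : InvA A S :=
  fun x _ hxy hx => h x hx hxy.symm.mem_face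

theorem InvA.con {A : Set (E →ₗ[ℚ] ℚ)} {S : Set E} (hA : A.Finite) (h : InvA A S) : Con S :=
  ⟨A, hA, h⟩

theorem ClA.pol {A : Set (E →ₗ[ℚ] ℚ)} {S : Set E} (hA : A.Finite) (h : ClA A S)
    (h0 : (0 : E) ∈ S) : Pol S := ⟨h0, A, hA, h⟩

theorem InvA.compl {A : Set (E →ₗ[ℚ] ℚ)} {S : Set E} (h : InvA A S) : InvA A Sᶜ :=
  fun x y hxy hx hy => hx (h y x hxy.symm hy)

theorem InvA.inter {A : Set (E →ₗ[ℚ] ℚ)} {S T : Set E} (h : InvA A S) (h' : InvA A T) :
    InvA A (S ∩ T) := fun x y hxy hx => ⟨h x y hxy hx.1, h' x y hxy hx.2⟩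

theorem InvA.union {A : Set (E →ₗ[ℚ] ℚ)} {S T : Set E} (h : InvA A S) (h' : InvA A T) :
    InvA A (S ∪ T) := fun x y hxy hx => hx.imp (h x y hxy) (h' x y hxy)

theorem InvA.diff {A : Set (E →ₗ[ℚ] ℚ)} {S T : Set E} (h : InvA A S) (h' : InvA A T) :
    InvA A (S \ T) := h.inter h'.compl

theorem InvA.mono {A B : Set (E →ₗ[ℚ] ℚ)} {S : Set E} (h : InvA A S) (hAB : A ⊆ B) : InvA B S :=
  fun x y hxy hx => h x y (fun a ha => hxy a (hAB ha)) hx

theorem ClA.mono {A B : Set (E →ₗ[ℚ] ℚ)} {S : Set E} (h : ClA A S) (hAB : A ⊆ B) : ClA B S :=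
  fun y hy => (face_anti hAB y).trans (h y hy)

theorem ClA.inter {A : Set (E →ₗ[ℚ] ℚ)} {S T : Set E} (h : ClA A S) (h' : ClA A T) :
    ClA A (S ∩ T) := fun y hy => Set.subset_inter (h y hy.1) (h' y hy.2)

theorem ClA.union {A : Set (E →ₗ[ℚ] ℚ)} {S T : Set E} (h : ClA A S) (h' : ClA A T) :
    ClA A (S ∪ T) := by
  rintro y (hy | hy)
  · exact (h y hy).trans Set.subset_union_left
  · exact (h' y hy).trans Set.subset_union_right

/-- A common finite set of forms for finitely many constructible sets can be obtained from this. -/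
theorem Con.exists_inv {S : Set E} (h : Con S) : ∃ A : Set (E →ₗ[ℚ] ℚ), A.Finite ∧ InvA A S := h

theorem Pol.exists_cl {S : Set E} (h : Pol S) : ∃ A : Set (E →ₗ[ℚ] ℚ), A.Finite ∧ ClA A S := h.2

theorem at_finite {A : Set (E →ₗ[ℚ] ℚ)} (hA : A.Finite) (x : E) : (At A x).Finite :=
  hA.subset (fun _ h => h.1)

/-- Near `x` the signs of `x + s v` are those of `x`, or of `v` for forms vanishing at `x`. -/
theorem small_signs {A : Set (E →ₗ[ℚ] ℚ)} (hA : A.Finite) (x v : E) :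
    ∃ ε : ℚ, 0 < ε ∧ ∀ s : ℚ, 0 < s → s ≤ ε → ∀ a ∈ A,
      (a x ≠ 0 → sign (a (x + s • v)) = sign (a x)) ∧
      (a x = 0 → sign (a (x + s • v)) = sign (a v)) := by
  obtain ⟨ε, hε, H⟩ := exists_small hA x (x + v)
  refine ⟨ε, hε, fun s h0 h1 a ha => ⟨fun hx => ?_, fun hx => ?_⟩⟩
  · obtain ⟨H1, _⟩ := H s h0 h1
    rw [add_sub_cancel_left] at H1
    rcases H1 a ha with h2 | h2
    · exact absurd h2 hx
    · exact h2.symm
  · rw [map_add, hx, zero_add, map_smul, smul_eq_mul, sign_mul, sign_pos h0, one_mul]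

theorem mem_face_small {A : Set (E →ₗ[ℚ] ℚ)} (hA : A.Finite) (x v : E) :
    ∃ ε : ℚ, 0 < ε ∧ ∀ s : ℚ, 0 < s → s ≤ ε → x ∈ face A (x + s • v) := by
  obtain ⟨ε, hε, H⟩ := small_signs hA x v
  refine ⟨ε, hε, fun s h0 h1 a ha => ?_⟩
  by_cases h2 : a x = 0
  · exact Or.inl h2
  · exact Or.inr ((H s h0 h1 a ha).1 h2).symm

/-- Two points near `x` with the same signs relative to `At A x`. -/
theorem sameSign_near {A : Set (E →ₗ[ℚ] ℚ)} {x y z : E} (hy : x ∈ face A y) (hz : x ∈ face A z)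
    (h : SameSign (At A x) y z) : SameSign A y z := by
  intro a ha
  by_cases h2 : a x = 0
  · exact h a ⟨ha, h2⟩
  · rw [← (hy a ha).resolve_left h2, ← (hz a ha).resolve_left h2]

theorem at_sub {A : Set (E →ₗ[ℚ] ℚ)} (x y : E) (c d : ℚ) (hd : 0 < d) :
    SameSign (At A x) (c • x + d • y) y := by
  rintro a ⟨_, hax⟩
  rw [map_add, map_smul, hax, smul_zero, zero_add, map_smul, smul_eq_mul, sign_mul, sign_pos hd,
    one_mul]

theorem tg_inv {A : Set (E →ₗ[ℚ] ℚ)} (hA : A.Finite) {x : E} {S : Set E} (hS : InvA A S) :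
    InvA (At A x) (Tg x S) := by
  rintro v w hvw ⟨ε, hε, H⟩
  obtain ⟨δ, hδ, H1⟩ := small_signs hA x v
  obtain ⟨γ, hγ, H2⟩ := small_signs hA x w
  refine ⟨min ε (min δ γ), lt_min hε (lt_min hδ hγ), fun s h0 h1 => ?_⟩
  have h2 := (le_min_iff.1 h1).1
  have h3 := (le_min_iff.1 (le_min_iff.1 h1).2).1
  have h4 := (le_min_iff.1 (le_min_iff.1 h1).2).2
  refine hS _ _ ?_ (H s h0 h2)
  intro a ha
  by_cases h5 : a x = 0
  · rw [(H1 s h0 h3 a ha).2 h5, (H2 s h0 h4 a ha).2 h5]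
    exact hvw a ⟨ha, h5⟩
  · rw [(H1 s h0 h3 a ha).1 h5, (H2 s h0 h4 a ha).1 h5]

theorem tg_con {x : E} {S : Set E} (hS : Con S) : Con (Tg x S) := by
  obtain ⟨A, hA, H⟩ := hS
  exact ⟨At A x, at_finite hA x, tg_inv hA H⟩

/-- Points near `x`. -/
theorem tg_near {A : Set (E →ₗ[ℚ] ℚ)} (hA : A.Finite) {x y : E} {S : Set E} (hS : InvA A S)
    (h : x ∈ face A y) : y ∈ Tg x S ↔ y ∈ S := by
  have key : ∀ s : ℚ, 0 < s → s ≤ 1 → SameSign A (x + s • (y - x)) y := fun s h0 h1 =>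
    sameSign_segment h h0 h1
  have h2 : SameSign (At A x) (y - x) y := by
    have := at_sub (A := A) x y (-1) 1 one_pos
    simp only [neg_smul, one_smul] at this
    rwa [neg_add_eq_sub] at this
  constructor
  · intro h3
    obtain ⟨ε, hε, H⟩ := tg_inv hA hS y (y - x) h2.symm h3
    have h5 := H (min ε 1) (lt_min hε one_pos) (min_le_left _ _)
    exact hS _ _ (key _ (lt_min hε one_pos) (min_le_right _ _)) h5
  · intro h3
    refine tg_inv hA hS (y - x) y h2 ⟨1, one_pos, fun s h0 h1 => ?_⟩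
    exact hS _ _ (key s h0 h1).symm h3

theorem tg_compl {x : E} {S : Set E} (hS : Con S) : Tg x Sᶜ = (Tg x S)ᶜ := by
  obtain ⟨A, hA, H⟩ := hS
  ext v
  obtain ⟨δ, hδ, H1⟩ := exists_small hA x (x + v)
  rw [add_sub_cancel_left] at H1
  constructor
  · rintro ⟨ε, hε, K⟩ ⟨ε', hε', K'⟩
    exact K (min ε ε') (lt_min hε hε') (min_le_left _ _)
      (K' (min ε ε') (lt_min hε hε') (min_le_right _ _))
  · intro h
    have h2 : x + δ • v ∉ S := by
      intro h3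
      exact h ⟨δ, hδ, fun s h0 h1 => H _ _ (H1 s h0 h1).2.symm h3⟩
    exact ⟨δ, hδ, fun s h0 h1 h3 => h2 (H _ _ (H1 s h0 h1).2 h3)⟩

theorem tg_inter (x : E) (S T : Set E) : Tg x (S ∩ T) = Tg x S ∩ Tg x T := by
  ext v; constructor
  · rintro ⟨ε, hε, K⟩
    exact ⟨⟨ε, hε, fun s h0 h1 => (K s h0 h1).1⟩, ⟨ε, hε, fun s h0 h1 => (K s h0 h1).2⟩⟩
  · rintro ⟨⟨ε, hε, K⟩, ⟨ε', hε', K'⟩⟩
    exact ⟨min ε ε', lt_min hε hε', fun s h0 h1 => ⟨K s h0 (h1.trans (min_le_left _ _)),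
      K' s h0 (h1.trans (min_le_right _ _))⟩⟩

theorem tg_mono {x : E} {S T : Set E} (h : S ⊆ T) : Tg x S ⊆ Tg x T := by
  rintro v ⟨ε, hε, K⟩
  exact ⟨ε, hε, fun s h0 h1 => h (K s h0 h1)⟩

theorem tg_univ (x : E) : Tg x (Set.univ : Set E) = Set.univ :=
  Set.eq_univ_of_forall (fun _ => ⟨1, one_pos, fun _ _ _ => trivial⟩)

theorem tg_empty (x : E) : Tg x (∅ : Set E) = ∅ := by
  ext v; constructor
  · rintro ⟨ε, hε, K⟩; exact K ε hε le_rfl
  · exact fun h => h.elim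

theorem tg_diff {x : E} {S T : Set E} (hT : Con T) : Tg x (S \ T) = Tg x S \ Tg x T := by
  rw [Set.sdiff_eq, tg_inter, tg_compl hT]; rfl

theorem tg_union {x : E} {S T : Set E} (hS : Con S) (hT : Con T) :
    Tg x (S ∪ T) = Tg x S ∪ Tg x T := by
  have h1 : (S ∪ T) = (Sᶜ ∩ Tᶜ)ᶜ := by rw [Set.compl_inter, compl_compl, compl_compl]
  rw [h1, tg_compl (hS.compl.inter hT.compl), tg_inter, tg_compl hS, tg_compl hT,
    Set.compl_inter, compl_compl, compl_compl]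

/-- The germ is invariant under translations along `x`. -/
theorem tg_add {x : E} {S : Set E} (hS : Con S) (v : E) (c : ℚ) :
    v + c • x ∈ Tg x S ↔ v ∈ Tg x S := by
  obtain ⟨A, hA, H⟩ := hS
  have h1 : SameSign (At A x) (v + c • x) v := by
    rintro a ⟨_, hax⟩
    rw [map_add, map_smul, hax, smul_zero, add_zero]
  exact ⟨tg_inv hA H _ _ h1, tg_inv hA H _ _ h1.symm⟩

theorem tg_smul {x : E} {S : Set E} (hS : Con S) (v : E) {c : ℚ} (hc : 0 < c) :
    c • v ∈ Tg x S ↔ v ∈ Tg x S := by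
  obtain ⟨A, hA, H⟩ := hS
  have h1 : SameSign (At A x) (c • v) v := by
    rintro a _
    rw [map_smul, smul_eq_mul, sign_mul, sign_pos hc, one_mul]
  exact ⟨tg_inv hA H _ _ h1, tg_inv hA H _ _ h1.symm⟩

theorem inv_smul {S : Set E} (hS : Con S) (v : E) {c : ℚ} (hc : 0 < c) : c • v ∈ S ↔ v ∈ S := by
  obtain ⟨A, hA, H⟩ := hS
  have h1 : SameSign A (c • v) v := by
    rintro a _
    rw [map_smul, smul_eq_mul, sign_mul, sign_pos hc, one_mul]
  exact ⟨H _ _ h1, H _ _ h1.symm⟩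

theorem self_mem_tg {x : E} {S : Set E} (hS : Con S) (hx : x ∈ S) (c : ℚ) : c • x ∈ Tg x S := by
  have h0 : (0 : E) ∈ Tg x S := ⟨1, one_pos, fun s _ _ => by rwa [smul_zero, add_zero]⟩
  have := (tg_add hS 0 c).2 h0
  rwa [zero_add] at this

theorem zero_mem_tg {x : E} {S : Set E} : (0 : E) ∈ Tg x S ↔ x ∈ S := by
  constructor
  · rintro ⟨ε, hε, K⟩
    have := K ε hε le_rfl
    rwa [smul_zero, add_zero] at this
  · intro hx
    exact ⟨1, one_pos, fun s _ _ => by rwa [smul_zero, add_zero]⟩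

theorem tg_clA {A : Set (E →ₗ[ℚ] ℚ)} (hA : A.Finite) {x : E} {S : Set E} (hS : ClA A S) :
    ClA (At A x) (Tg x S) := by
  rintro v ⟨ε, hε, K⟩ w hw
  obtain ⟨δ, hδ, H1⟩ := small_signs hA x v
  obtain ⟨γ, hγ, H2⟩ := small_signs hA x w
  refine ⟨min ε (min δ γ), lt_min hε (lt_min hδ hγ), fun s h0 h1 => ?_⟩
  have h2 := (le_min_iff.1 h1).1
  have h3 := (le_min_iff.1 (le_min_iff.1 h1).2).1
  have h4 := (le_min_iff.1 (le_min_iff.1 h1).2).2
  refine hS _ (K s h0 h2) ?_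
  intro a ha
  by_cases h5 : a x = 0
  · rcases hw a ⟨ha, h5⟩ with h6 | h6
    · left; rw [map_add, map_smul, h5, h6, smul_zero, add_zero]
    · right; rw [(H1 s h0 h3 a ha).2 h5, (H2 s h0 h4 a ha).2 h5]; exact h6
  · right; rw [(H1 s h0 h3 a ha).1 h5, (H2 s h0 h4 a ha).1 h5]

theorem tg_pol {x : E} {S : Set E} (hS : Pol S) (hx : x ∈ S) : Pol (Tg x S) := by
  obtain ⟨_, A, hA, H⟩ := hS
  exact ⟨zero_mem_tg.2 hx, At A x, at_finite hA x, tg_clA hA H⟩

/-- A closed set without germ at `x` does not contain `x`. -/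
theorem mem_of_tg_nonempty {x : E} {S : Set E} (hS : Pol S) (h : (Tg x S).Nonempty) : x ∈ S := by
  obtain ⟨_, A, hA, H⟩ := hS
  obtain ⟨v, ε, hε, K⟩ := h
  obtain ⟨δ, hδ, H1⟩ := mem_face_small hA x v
  exact H _ (K (min ε δ) (lt_min hε hδ) (min_le_left _ _))
    (H1 _ (lt_min hε hδ) (min_le_right _ _))

theorem tg_eq_empty {x : E} {S : Set E} (hS : Pol S) (h : x ∉ S) : Tg x S = ∅ := by
  by_contra hne
  exact h (mem_of_tg_nonempty hS (Set.nonempty_iff_ne_empty.2 hne))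

/-- The germ at a point near `x`. -/
theorem tg_tg {A : Set (E →ₗ[ℚ] ℚ)} (hA : A.Finite) {x y : E} {S : Set E} (hS : InvA A S)
    (h : x ∈ face A y) : Tg y (Tg x S) = Tg y S := by
  have hat : At (At A x) y ⊆ At A y := fun a ha => ⟨ha.1.1, ha.2⟩
  have key : ∀ v, ∃ ε : ℚ, 0 < ε ∧ ∀ s : ℚ, 0 < s → s ≤ ε → x ∈ face A (y + s • v) := by
    intro v
    obtain ⟨ε, hε, H⟩ := mem_face_small hA y v
    exact ⟨ε, hε, fun s h0 h1 => face_trans h (H s h0 h1)⟩
  ext v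
  obtain ⟨ε, hε, H⟩ := key v
  constructor
  · rintro ⟨δ, hδ, K⟩
    exact ⟨min ε δ, lt_min hε hδ, fun s h0 h1 =>
      (tg_near hA hS (H s h0 (h1.trans (min_le_left _ _)))).1 (K s h0 (h1.trans (min_le_right _ _)))⟩
  · rintro ⟨δ, hδ, K⟩
    exact ⟨min ε δ, lt_min hε hδ, fun s h0 h1 =>
      (tg_near hA hS (H s h0 (h1.trans (min_le_left _ _)))).2 (K s h0 (h1.trans (min_le_right _ _)))⟩

/-- Points in the same cell have the same germs. -/
theorem tg_same {A : Set (E →ₗ[ℚ] ℚ)} (hA : A.Finite) {x y : E} {S : Set E} (hS : InvA A S)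
    (h : SameSign A x y) : Tg x S = Tg y S := by
  have key : ∀ x y : E, SameSign A x y → Tg x S ⊆ Tg y S := by
    rintro x y h v ⟨ε, hε, K⟩
    obtain ⟨δ, hδ, H1⟩ := small_signs hA x v
    obtain ⟨γ, hγ, H2⟩ := small_signs hA y v
    refine ⟨min ε (min δ γ), lt_min hε (lt_min hδ hγ), fun s h0 h1 => ?_⟩
    have h2 := (le_min_iff.1 h1).1
    have h3 := (le_min_iff.1 (le_min_iff.1 h1).2).1
    have h4 := (le_min_iff.1 (le_min_iff.1 h1).2).2
    refine hS _ _ ?_ (K s h0 h2)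
    intro a ha
    have e := h a ha
    by_cases h5 : a x = 0
    · have h6 : a y = 0 := by rw [h5, sign_zero, eq_comm, sign_eq_zero_iff] at e; exact e
      rw [(H1 s h0 h3 a ha).2 h5, (H2 s h0 h4 a ha).2 h6]
    · have h6 : a y ≠ 0 := by
        intro h6; rw [h6, sign_zero, sign_eq_zero_iff] at e; exact h5 e
      rw [(H1 s h0 h3 a ha).1 h5, (H2 s h0 h4 a ha).1 h6, e]
  exact subset_antisymm (key x y h) (key y x h.symm)

/-- Germs and closures. -/
theorem tg_cl [FiniteDimensional ℚ E] {x : E} {S : Set E} (hS : Con S) (hx : x ∈ cl S)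
    (hx0 : x ≠ 0) : Tg x (cl S) = cl (Tg x S) := by
  obtain ⟨A, hA, H⟩ := hS
  apply subset_antisymm
  · intro v hv
    obtain ⟨ε, hε, K⟩ := hv
    rw [mem_cl_iff (at_finite hA x) (tg_inv hA H)]
    by_cases hv0 : v = 0
    · exact Or.inl hv0
    right
    obtain ⟨δ, hδ, H1⟩ := small_signs hA x v
    obtain ⟨s, hs0, hs1, hsne⟩ : ∃ s : ℚ, 0 < s ∧ s ≤ min ε δ ∧ x + s • v ≠ 0 := by
      have hm : 0 < min ε δ := lt_min hε hδ
      by_cases h2 : x + (min ε δ) • v = 0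
      · refine ⟨min ε δ / 2, by positivity, by linarith, fun h3 => hx0 ?_⟩
        have h4 : x = (2 : ℚ) • (x + (min ε δ / 2) • v) - (x + (min ε δ) • v) := by module
        rw [h4, h3, h2, smul_zero, sub_zero]
      · exact ⟨min ε δ, hm, le_rfl, h2⟩
    have hsδ : s ≤ δ := hs1.trans (min_le_right _ _)
    have h1 := K s hs0 (hs1.trans (min_le_left _ _))
    have hface : x ∈ face A (x + s • v) := by
      intro a ha
      by_cases h5 : a x = 0
      · exact Or.inl h5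
      · exact Or.inr ((H1 s hs0 hsδ a ha).1 h5).symm
    rw [mem_cl_iff hA H] at h1
    rcases h1 with h1 | ⟨y, hy, hfy⟩
    · exact absurd h1 hsne
    · refine ⟨y, (tg_near hA H (face_trans hface hfy)).2 hy, ?_⟩
      rintro a ⟨ha, hax⟩
      rcases hfy a ha with h2 | h2
      · left
        rw [map_add, hax, zero_add, map_smul, smul_eq_mul] at h2
        rcases mul_eq_zero.1 h2 with h3 | h3
        · exact absurd h3 hs0.ne'
        · exact h3
      · right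
        rw [map_add, hax, zero_add, map_smul, smul_eq_mul, sign_mul, sign_pos hs0, one_mul] at h2
        exact h2
  · obtain ⟨_, B, hB, HB⟩ : Pol (cl S) := Con.pol_cl ⟨A, hA, H⟩
    refine (tg_pol ⟨zero_mem_cl S, B, hB, HB⟩ hx).cl_subset (tg_mono (subset_cl S))

end Pool.Agent.Work.MP_552024_lc.PLS
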