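import Pool.Agent.Work.MP_552024_lc.B7
import Pool.Agent.Work.MP_552024_lc.B9
import Pool.Agent.Work.MP_552024_lc.C1
import Pool.Agent.Work.MP_552024_lc.C2
import Pool.Agent.Work.MP_552024_lc.PLS.Bey4
import Pool.Agent.Work.MP_552024_lc.PLS.Transfer
import Pool.Agent.Work.MP_552024_lc.PLS.Dimn

set_option autoImplicit false

/-! Elementary equivalence implies isomorphism, given the Schoenflies property in the dimensions
at most `d`. -/

namespace Pool.Agent.Work.MP_552024_lc.PLS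

open Pool.Agent.MP552024

theorem iso_of_theory (d : ℕ) (hSch : ∀ j, 2 ≤ j → j ≤ d → SchP j) (G H : Type)
    [AddCommGroup G] [Lattice G] [IsOrderedAddMonoid G]
    [AddCommGroup H] [Lattice H] [IsOrderedAddMonoid H]
    (n : ℕ) (f : (Fin n → ℝ) → ℝ) (hf : f ∈ LP (Fin n)) (ψ : ((Fin n → ℝ) → ℝ) → G)
    (hP : Pres n f G ψ)
    (hd : ∃ F : Set (Submodule ℝ (Fin n → ℝ)), F.Finite ∧ (∀ W ∈ F, Module.finrank ℝ W ≤ d) ∧
      ∀ x, f x = 0 → ∃ W ∈ F, x ∈ W)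
    (m : ℕ) (f' : (Fin m → ℝ) → ℝ) (hf' : f' ∈ LP (Fin m)) (ψ' : ((Fin m → ℝ) → ℝ) → H)
    (hP' : Pres m f' H ψ')
    (hT : @FirstOrder.Language.completeTheory L2 G (str G) =
      @FirstOrder.Language.completeTheory L2 H (str H)) :
    ∃ e : G ≃+ H, ∀ a b : G, e a ≤ e b ↔ a ≤ b := by
  have hlin : S_linall := prfB9 prfB7
  have hq : S_quot := prfC2 prfC1 prfC1b hlin
  obtain ⟨M, t, ht⟩ := hq n f hf G ψ hP
  obtain ⟨N, t', ht'⟩ := hq m f' hf' H ψ' hP'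
  have hcov : CovLE (Qset M) d := cov_Qset hP M t ht hd
  obtain ⟨φ, γ, hφγ⟩ := plinv_of_theory hT M N d hSch hcov
  exact beynon M N hφγ

end Pool.Agent.Work.MP_552024_lc.PLS
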