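import Pool.Agent.Work.MP_552024_lc.PLS.Fam

set_option autoImplicit false

namespace Pool.Agent.Work.MP_552024_lc.PLS

/-! Balls satisfy the formula. -/

/-- The forms of the first `l` levels. -/
def Bl {k : ℕ} (H : ℕ → Set (Frm (k + 1))) (l : ℕ) : Set (Frm (k + 1)) :=
  Set.range (crd (k + 1)) ∪ {h | ∃ j, j ≤ l ∧ h ∈ H j}

/-- The walls of the first `l` levels. -/
def Fl {k : ℕ} (H : ℕ → Set (Frm (k + 1))) (l : ℕ) : Set (Fin (k + 1) → ℚ) :=
  {x | x ∈ Orth (k + 1) ∧ ∃ b ∈ Bl H l, b x = 0}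

/-- The walls of level `l`. -/
def Gl {k : ℕ} (H : ℕ → Set (Frm (k + 1))) (l : ℕ) : Set (Fin (k + 1) → ℚ) :=
  {x | x ∈ Orth (k + 1) ∧ (x = 0 ∨ ∃ b ∈ H l, b x = 0)}

theorem Bl_finite {k : ℕ} {H : ℕ → Set (Frm (k + 1))} (hH : ∀ i, (H i).Finite) (l : ℕ) :
    (Bl H l).Finite := by
  refine (Set.finite_range _).union ?_
  have : {h | ∃ j, j ≤ l ∧ h ∈ H j} = ⋃ j ∈ Set.Iic l, H j := by
    ext h; simp
  rw [this]
  exact (Set.finite_Iic l).biUnion (fun j _ => hH j)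

theorem pol_zeros {E : Type*} [AddCommGroup E] [Module ℚ E] [FiniteDimensional ℚ E]
    {B : Set (E →ₗ[ℚ] ℚ)} (hB : B.Finite) : Pol {x | x = 0 ∨ ∃ b ∈ B, b x = 0} := by
  induction B, hB using Set.Finite.induction_on with
  | empty => convert pol_zero (E := E) using 1; ext x; simp
  | @insert a B _ _ ih =>
    convert ih.union (pol_hyperplane a) using 1
    ext x
    constructor
    · rintro (h | ⟨b, hb | hb, h⟩)
      · exact Or.inl (Or.inl h)
      · exact Or.inr (by rw [hb] at h; exact h)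
      · exact Or.inl (Or.inr ⟨b, hb, h⟩)
    · rintro ((h | ⟨b, hb, h⟩) | h)
      · exact Or.inl h
      · exact Or.inr ⟨b, Or.inr hb, h⟩
      · exact Or.inr ⟨a, Or.inl rfl, h⟩

theorem crd_mem_Bl {k : ℕ} (H : ℕ → Set (Frm (k + 1))) (l : ℕ) (i : Fin (k + 1)) :
    crd (k + 1) i ∈ Bl H l := Or.inl ⟨i, rfl⟩

theorem Fl_eq {k : ℕ} (H : ℕ → Set (Frm (k + 1))) (l : ℕ) :
    Fl H l = Orth (k + 1) ∩ {x | x = 0 ∨ ∃ b ∈ Bl H l, b x = 0} := by
  ext x; constructor
  · rintro ⟨h1, h2⟩; exact ⟨h1, Or.inr h2⟩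
  · rintro ⟨h1, h2 | h2⟩
    · exact ⟨h1, crd (k + 1) 0, crd_mem_Bl H l 0, by rw [h2, map_zero]⟩
    · exact ⟨h1, h2⟩

theorem pol_Fl {k : ℕ} {H : ℕ → Set (Frm (k + 1))} (hH : ∀ i, (H i).Finite) (l : ℕ) :
    Pol (Fl H l) := by
  rw [Fl_eq]; exact (pol_Orth _).inter (pol_zeros (Bl_finite hH l))

theorem pol_Gl {k : ℕ} {H : ℕ → Set (Frm (k + 1))} (hH : ∀ i, (H i).Finite) (l : ℕ) :
    Pol (Gl H l) := (pol_Orth _).inter (pol_zeros (hH l))

theorem Fl_succ {k : ℕ} (H : ℕ → Set (Frm (k + 1))) (l : ℕ) :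
    Fl H l ∪ Gl H (l + 1) = Fl H (l + 1) := by
  ext x; constructor
  · rintro (⟨h1, b, hb, h2⟩ | ⟨h1, h2 | ⟨b, hb, h2⟩⟩)
    · refine ⟨h1, b, ?_, h2⟩
      rcases hb with hb | ⟨j, hj, hb⟩
      · exact Or.inl hb
      · exact Or.inr ⟨j, by omega, hb⟩
    · exact ⟨h1, crd (k + 1) 0, crd_mem_Bl H _ 0, by rw [h2, map_zero]⟩
    · exact ⟨h1, b, Or.inr ⟨l + 1, le_rfl, hb⟩, h2⟩
  · rintro ⟨h1, b, hb, h2⟩
    rcases hb with hb | ⟨j, hj, hb⟩
    · exact Or.inl ⟨h1, b, Or.inl hb, h2⟩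
    · rcases Nat.lt_or_ge l j with h3 | h3
      · have : j = l + 1 := by omega
        rw [this] at hb
        exact Or.inr ⟨h1, Or.inr ⟨b, hb, h2⟩⟩
      · exact Or.inl ⟨h1, b, Or.inr ⟨j, h3, hb⟩, h2⟩

theorem face_sub_Orth {k : ℕ} (H : ℕ → Set (Frm (k + 1))) (l : ℕ) {z : Fin (k + 1) → ℚ}
    (hz : z ∈ Orth (k + 1)) : face (Bl H l) z ⊆ Orth (k + 1) := by
  intro x hx i
  rcases hx (crd (k + 1) i) (crd_mem_Bl H l i) with h | h
  · exact (show crd (k + 1) i x = 0 from h).ge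
  · rcases (hz i).eq_or_lt with h1 | h1
    · have h2 : crd (k + 1) i z = 0 := h1.symm
      rw [h2, sign_zero, sign_eq_zero_iff] at h
      exact (show crd (k + 1) i x = 0 from h).ge
    · have h2 : 0 < crd (k + 1) i z := h1
      rw [sign_pos h2, sign_eq_one_iff] at h
      exact (show 0 < crd (k + 1) i x from h).le

theorem comp_Fl {k : ℕ} {H : ℕ → Set (Frm (k + 1))} (hH : ∀ i, (H i).Finite) (l : ℕ)
    (M : Set (Fin (k + 1) → ℚ)) : Comp M (Orth (k + 1)) (Fl H l) ↔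
      ∃ z, z ∈ Orth (k + 1) ∧ z ∉ Fl H l ∧ M = face (Bl H l) z :=
  arr_comp (Bl_finite hH l) (pol_Orth _) (pol_Fl hH l)
    (fun x hx => ⟨fun h => h.2, fun h => ⟨hx, h⟩⟩) (fun _ hx _ => face_sub_Orth H l hx) M

theorem lev_cad {k : ℕ} {H : ℕ → Set (Frm (k + 2))} {L : ℕ} (hH : CAD H L) (hH0 : H 0 = ∅)
    {A : Set (Fin (k + 2) → ℚ)} (hA : A ⊆ Fl H (k + 1)) (j : ℕ) :
    ∀ l, l + j = k + 1 → Lev (Ball (k + 1)) (Orth (k + 2)) A j (Fl H l) := by
  have hfr : Module.finrank ℚ (Fin (k + 2) → ℚ) = k + 2 := by simp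
  have hptl : ∀ l x, (∀ b ∈ Bl H l, b x = 0) → x = 0 := by
    intro l x hx
    ext i
    exact hx _ (crd_mem_Bl H l i)
  induction j with
  | zero =>
    intro l hl M hM
    obtain ⟨z, hz, hzF, rfl⟩ := (comp_Fl hH.fin l M).1 hM
    have hl : l = k + 1 := by omega
    subst hl
    refine ⟨fun x hx => hA hx.2, ?_⟩
    have hreg : ∀ b ∈ Bl H (k + 1), b z ≠ 0 := fun b hb h0 => hzF ⟨hz, b, hb, h0⟩
    have : Finite (Bl H (k + 1)) := Bl_finite hH.fin _
    have : Fintype (Bl H (k + 1)) := Fintype.ofFinite _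
    have : Nonempty (Bl H (k + 1)) := ⟨⟨_, crd_mem_Bl H (k + 1) 0⟩⟩
    obtain ⟨h₀, h1, h2⟩ := exists_form_vanishing hfr z
    have hKO : z ∈ KO (fam (Bl H (k + 1)) z) := (KO_fam hreg).2 (fun _ _ => rfl)
    have hpt' : ∀ x, (∀ i, fam (Bl H (k + 1)) z i x = 0) → x = 0 := by
      intro x hx
      apply hptl (k + 1)
      intro b hb
      have := hx ⟨b, hb⟩
      rw [fam_apply] at this
      exact (mul_eq_zero.1 this).resolve_left (hreg b hb)
    have b1 := side_ball (fam (Bl H (k + 1)) z) hfr hpt' h₀ hKO h1 h2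
    have b2 := side_ball' (fam (Bl H (k + 1)) z) hfr hpt' h₀ hKO h1 h2
    refine ⟨_, _, b1.1, b2.1, ?_, ?_, ?_⟩
    · ext x
      have hKD := KD_fam hreg (x := x)
      constructor
      · rintro ⟨h3, h4⟩
        have h5 : x ∈ KD (fam (Bl H (k + 1)) z) := hKD.2 ⟨h3, h4.2⟩
        rcases le_total 0 (h₀ x) with h6 | h6
        · exact Or.inl ⟨h5, h6⟩
        · exact Or.inr ⟨h5, h6⟩
      · rintro (⟨h3, _⟩ | ⟨h3, _⟩)
        · exact ⟨(hKD.1 h3).1, face_sub_Orth H _ hz (hKD.1 h3).1, (hKD.1 h3).2⟩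
        · exact ⟨(hKD.1 h3).1, face_sub_Orth H _ hz (hKD.1 h3).1, (hKD.1 h3).2⟩
    · convert b1 using 1
      ext x; constructor
      · rintro ⟨⟨h3, h4⟩, _, h5⟩; exact ⟨h3, le_antisymm h5 h4⟩
      · rintro ⟨h3, h4⟩
        have h4 : h₀ x = 0 := h4
        exact ⟨⟨h3, h4.ge⟩, h3, h4.le⟩
    · convert b2 using 1
      ext x; constructor
      · rintro ⟨⟨h3, h4⟩, _, h5⟩; exact ⟨h3, le_antisymm h5 h4⟩
      · rintro ⟨h3, h4⟩
        have h4 : h₀ x = 0 := h4
        exact ⟨⟨h3, h4.ge⟩, h3, h4.le⟩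
  | succ j ih =>
    intro l hl
    refine ⟨Gl H (l + 1), pol_Gl hH.fin _, fun x hx => hx.1, ?_, ?_⟩
    · intro M hM
      obtain ⟨z, hz, hzF, rfl⟩ := (comp_Fl hH.fin l M).1 hM
      have hreg : ∀ b ∈ Bl H l, b z ≠ 0 := fun b hb h0 => hzF ⟨hz, b, hb, h0⟩
      refine good_graphs hfr (Bl_finite hH.fin l) (hH.fin (l + 1)) (hptl l) ?_ ?_ hreg
        (pol_Fl hH.fin l) (pol_Gl hH.fin (l + 1)) ?_ ?_
      · intro h hh h' hh' hne
        rcases hH.dif (l + 1) h hh h' hh' hne with ⟨c, hc, h1⟩ | ⟨j', hj', g, hg, c, hc, h1⟩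
        · refine ⟨crd (k + 2) 0, crd_mem_Bl H l 0, c, hc, ?_⟩
          apply LinearMap.ext
          intro x
          exact h1 x
        · exact ⟨g, Or.inr ⟨j', by omega, hg⟩, c, hc, h1⟩
      · intro h hh h0
        have := hH.mon _ h hh
        rw [h0] at this
        exact zero_ne_one this
      · intro x hx
        exact ⟨fun h => h.2, fun h => ⟨face_sub_Orth H l hz hx, h⟩⟩
      · intro x hx
        exact ⟨fun h => h.2, fun h => ⟨face_sub_Orth H l hz hx, h⟩⟩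
    · rw [Fl_succ]
      exact ih (l + 1) (by omega)

theorem comp_Orth (k : ℕ) : Comp (Orth (k + 1)) (Orth (k + 1)) (dOrth (k + 1)) := by
  have hne : Nonempty (Fin (k + 1)) := ⟨0⟩
  have h1 : Orth (k + 1) \ dOrth (k + 1) = KO (crd (k + 1)) := by
    ext x; constructor
    · rintro ⟨h1, h2⟩ i
      exact lt_of_le_of_ne (h1 i) (fun h => h2 ⟨h1, i, h.symm⟩)
    · intro h
      exact ⟨fun i => (h i).le, fun h2 => by obtain ⟨_, i, hi⟩ := h2; exact (h i).ne' hi⟩
  refine ⟨pol_Orth _, subset_rfl, ?_, ?_, ?_⟩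
  · apply subset_antisymm
    · exact (pol_Orth _).cl_subset Set.sdiff_subset
    · intro x hx
      right
      refine ⟨fun _ => 1, ?_, fun t h0 h1 => ?_⟩
      · rw [‹Orth (k + 1) \ dOrth (k + 1) = KO (crd (k + 1))›]; exact one_mem_KO _
      · rw [‹Orth (k + 1) \ dOrth (k + 1) = KO (crd (k + 1))›]
        intro i
        show 0 < x i + t * (1 - x i)
        have := hx i
        nlinarith
  · rw [h1]
    refine conn_of_convex ⟨_, one_mem_KO _⟩ ?_
    intro x hx y hy t h0 h2 i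
    have hxi : 0 < crd (k + 1) i x := hx i
    have hyi : 0 < crd (k + 1) i y := hy i
    rw [map_add, map_smul, map_sub, smul_eq_mul]
    rcases h2.eq_or_lt with h3 | h3
    · rw [h3]; linarith
    · nlinarith [mul_nonneg h0 hyi.le, mul_pos (sub_pos.2 h3) hxi]
  · rintro x ⟨hx, _⟩
    have : Orth (k + 1) \ (dOrth (k + 1) ∪ Orth (k + 1)) = ∅ := by
      ext y; constructor
      · rintro ⟨h2, h3⟩; exact absurd (Or.inr h2) h3
      · exact fun h => h.elim
    rw [this, cl_empty] at hx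
    rw [hx]
    exact ⟨fun _ => le_rfl, 0, rfl⟩

/-- The standard ball satisfies the formula. -/
theorem BB_Orth (k : ℕ) (ih : ∀ C S : Set (Fin (k + 2) → ℚ), Ball (k + 1) C S → BB (k + 1) C S) :
    BB (k + 2) (Orth (k + 2)) (dOrth (k + 2)) := by
  refine ⟨pol_Orth _, pol_dOrth _, dOrth_subset _, comp_Orth _, ?_⟩
  intro A hA hAO hcl
  obtain ⟨_, 𝓐, h𝓐, hA'⟩ := id hA
  set 𝓐' := 𝓐 ∪ Set.range (crd (k + 2)) with h𝓐'
  have h𝓐f : 𝓐'.Finite := h𝓐.union (Set.finite_range _)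
  obtain ⟨H, hH, hrep, hH0⟩ := exists_cad (k + 1) (k + 1) 𝓐' h𝓐f (by
    intro b _ j hj
    have : ee (k + 1 + 1) j = 0 := by
      ext i
      show (if (i : ℕ) = j then (1 : ℚ) else 0) = 0
      rw [if_neg]; have := i.2; omega
    rw [this, map_zero])
  have hAF : A ⊆ Fl H (k + 1) := by
    intro y hy
    by_contra hyF
    have hyO : y ∈ Orth (k + 2) := hAO hy
    have hyr : ∀ b ∈ Bl H (k + 1), b y ≠ 0 := fun b hb h0 => hyF ⟨hyO, b, hb, h0⟩
    have hall : ∀ a ∈ 𝓐', a ≠ 0 → a y ≠ 0 := by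
      intro a ha ha0 h0
      rcases hrep a ha ha0 with ⟨c, hc, h1⟩ | ⟨j, g, hg, c, hc, h1⟩
      · rw [h1 y] at h0
        exact hyr _ (crd_mem_Bl H _ 0) ((mul_eq_zero.1 h0).resolve_left hc)
      · have h2 := hH.rng j g hg
        rw [h1] at h0
        exact hyr g (Or.inr ⟨j, by omega, hg⟩) ((mul_eq_zero.1 h0).resolve_left hc)
    -- `y` is in the closure of the complement of `A`
    have hycl : y ∈ cl (Orth (k + 2) \ A) := by rw [hcl]; exact hyO
    rcases hycl with h0 | ⟨z, hz, hseg⟩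
    · apply hyr _ (crd_mem_Bl H _ 0)
      rw [h0, map_zero]
    · obtain ⟨ε, hε, hsm⟩ := exists_small h𝓐f y z
      set t := min ε 1 with ht
      have ht0 : 0 < t := lt_min hε one_pos
      obtain ⟨h1, _⟩ := hsm t ht0 (min_le_left _ _)
      have h2 := hseg t ht0 (min_le_right _ _)
      apply h2.2
      apply hA' y hy
      intro a ha
      by_cases ha0 : a = 0
      · left; rw [ha0]; rfl
      · rcases h1 a (Or.inl ha) with h3 | h3
        · exact absurd h3 (hall a (Or.inl ha) ha0)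
        · exact Or.inr h3.symm
  have hlev := lev_cad hH hH0 hAF (k + 1) 0 (by omega)
  have h0 : Fl H 0 = dOrth (k + 2) := by
    ext x; constructor
    · rintro ⟨h1, b, hb | ⟨j, hj, hb⟩, h2⟩
      · obtain ⟨i, rfl⟩ := hb
        exact ⟨h1, i, h2⟩
      · have : j = 0 := by omega
        rw [this, hH0] at hb
        exact hb.elim
    · rintro ⟨h1, i, h2⟩
      exact ⟨h1, crd (k + 2) i, crd_mem_Bl H _ i, h2⟩
  rw [h0] at hlev
  exact hlev.mono ih

/-- Theorem A: balls satisfy the formula. -/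
theorem BB_of_ball (k : ℕ) : ∀ {E : Type} [AddCommGroup E] [Module ℚ E] [FiniteDimensional ℚ E]
    {C S : Set E}, Ball (k + 1) C S → BB (k + 1) C S := by
  have hmain : ∀ k, BB (k + 1) (Orth (k + 1)) (dOrth (k + 1)) →
      ∀ {E : Type} [AddCommGroup E] [Module ℚ E] [FiniteDimensional ℚ E]
      {C S : Set E}, Ball (k + 1) C S → BB (k + 1) C S := by
    intro k h0 E _ _ _ C S h
    obtain ⟨hC, hS, f, g, hfg, hi⟩ := h
    have h1 := BB.image (k + 1) hfg (pol_Orth _) hC (Orth (k + 1)) (dOrth (k + 1)) subset_rfl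
      (dOrth_subset _) h0
    have e1 : f '' Orth (k + 1) = C := by
      rw [hfg.image_eq subset_rfl]
      ext y; exact ⟨fun h => h.1, fun h => ⟨h, hfg.mapsg y h⟩⟩
    have e2 : f '' dOrth (k + 1) = S := by
      rw [hfg.image_eq (dOrth_subset _)]
      ext y; constructor
      · rintro ⟨hy, hgy⟩
        rw [hi _ (hfg.mapsg y hy), hfg.fg y hy] at hgy; exact hgy
      · intro hy
        refine ⟨hS hy, ?_⟩
        rw [hi _ (hfg.mapsg y (hS hy)), hfg.fg y (hS hy)]; exact hy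
    rwa [e1, e2] at h1
  induction k with
  | zero =>
    intro E _ _ _ C S h
    have hsub : ∀ i j : Fin (0 + 1), i = j := fun i j => Fin.ext (by omega)
    apply hmain 0 _ h
    refine ⟨?_, pol_Orth _, ?_, ?_⟩
    · ext x; constructor
      · rintro ⟨_, i, hi⟩
        rw [Set.mem_singleton_iff]
        ext j; rw [hsub j i]; exact hi
      · intro hx
        rw [Set.mem_singleton_iff] at hx
        rw [hx]; exact ⟨fun _ => le_rfl, 0, rfl⟩
    · intro h1
      have h2 : (fun _ => 1 : Fin 1 → ℚ) ∈ Orth (0 + 1) := fun _ => zero_le_one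
      rw [h1, Set.mem_singleton_iff] at h2
      have := congrFun h2 0
      norm_num at this
    · intro D hD hDO
      by_cases h1 : D = {0}
      · exact Or.inl h1
      · right
        have h2 : ∃ y ∈ D, y ≠ 0 := by
          by_contra hcon
          push Not at hcon
          apply h1
          ext x; exact ⟨fun hx => hcon x hx, fun hx => by rw [hx]; exact hD.1⟩
        obtain ⟨y, hy, hy0⟩ := h2
        obtain ⟨_, 𝓐, _, hA⟩ := hD
        have hy1 : 0 < y 0 := by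
          refine lt_of_le_of_ne (hDO hy 0) (fun h => hy0 ?_)
          ext j; rw [hsub j 0]; exact h.symm
        apply subset_antisymm hDO
        intro x hx
        have hx0 : 0 ≤ x 0 := hx 0
        have hxy : x = (x 0 / y 0) • y := by
          ext j; rw [hsub j 0]
          show x 0 = x 0 / y 0 * y 0
          rw [div_mul_cancel₀ _ hy1.ne']
        rcases hx0.eq_or_lt with h3 | h3
        · rw [hxy, ← h3, zero_div, zero_smul]
          exact hA y hy (zero_mem_face _ _)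
        · apply hA y hy
          intro a _
          right
          rw [hxy, map_smul, smul_eq_mul, sign_mul, sign_pos (div_pos h3 hy1), one_mul]
  | succ k ih =>
    intro E _ _ _ C S h
    exact hmain (k + 1) (BB_Orth k (fun C S h => ih h)) h

end Pool.Agent.Work.MP_552024_lc.PLS
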