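import Pool.Agent.Work.MP_552024_lc.PLS.CompLem

set_option autoImplicit false

namespace Pool.Agent.Work.MP_552024_lc.PLS

variable {E : Type*} [AddCommGroup E] [Module ℚ E]
variable {E' : Type*} [AddCommGroup E'] [Module ℚ E']
variable {E'' : Type*} [AddCommGroup E''] [Module ℚ E'']

open SignType

theorem PLOn.mono {f : E → E'} {s t : Set E} (h : PLOn f t) (hst : s ⊆ t) : PLOn f s := by
  obtain ⟨A, hA, Λ, hΛ, H⟩ := h
  refine ⟨A, hA, Λ, hΛ, fun y hy => ?_⟩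
  obtain ⟨L, hL, K⟩ := H y (hst hy)
  exact ⟨L, hL, fun x hx => K x (hst hx)⟩

theorem PLOn.congr {f g : E → E'} {s : Set E} (h : PLOn f s) (hfg : ∀ x ∈ s, g x = f x) :
    PLOn g s := by
  obtain ⟨A, hA, Λ, hΛ, H⟩ := h
  refine ⟨A, hA, Λ, hΛ, fun y hy => ?_⟩
  obtain ⟨L, hL, K⟩ := H y hy
  exact ⟨L, hL, fun x hx hxy => (hfg x hx).trans (K x hx hxy)⟩

theorem plOn_linear (L : E →ₗ[ℚ] E') (s : Set E) : PLOn L s :=
  ⟨∅, Set.finite_empty, {L}, Set.finite_singleton L, fun _ _ => ⟨L, rfl, fun _ _ _ => rfl⟩⟩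

theorem plOn_id (s : Set E) : PLOn (fun x => x) s := plOn_linear (LinearMap.id) s

theorem PLOn.comp {f : E → E'} {g : E' → E''} {s : Set E} {t : Set E'} (hg : PLOn g t)
    (hf : PLOn f s) (hst : ∀ x ∈ s, f x ∈ t) : PLOn (fun x => g (f x)) s := by
  obtain ⟨A, hA, Λ, hΛ, H⟩ := hf
  obtain ⟨B, hB, Λ', hΛ', K⟩ := hg
  refine ⟨A ∪ Set.image2 (fun b L => b.comp L) B Λ, hA.union (hB.image2 _ hΛ),
    Set.image2 (fun L' L => L'.comp L) Λ' Λ, hΛ'.image2 _ hΛ, fun y hy => ?_⟩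
  obtain ⟨L, hL, HL⟩ := H y hy
  obtain ⟨L', hL', HL'⟩ := K (f y) (hst y hy)
  refine ⟨L'.comp L, ⟨L', hL', L, hL, rfl⟩, fun x hx hxy => ?_⟩
  have hfx : f x = L x := HL x hx (face_anti Set.subset_union_left y hxy)
  have hfy : f y = L y := HL y hy (mem_face_self A y)
  have : f x ∈ face B (f y) := by
    intro b hb
    rw [hfx, hfy]
    exact hxy (b.comp L) (Or.inr ⟨b, hb, L, hL, rfl⟩)
  show g (f x) = L' (L x)
  rw [HL' (f x) (hst x hx) this, hfx]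

/-- Two piecewise linear functions can be given by a common set of forms. -/
theorem PLOn.prod {f : E → E'} {g : E → E''} {s : Set E} (hf : PLOn f s) (hg : PLOn g s) :
    PLOn (fun x => (f x, g x)) s := by
  obtain ⟨A, hA, Λ, hΛ, H⟩ := hf
  obtain ⟨B, hB, Λ', hΛ', K⟩ := hg
  refine ⟨A ∪ B, hA.union hB, Set.image2 (fun L L' => L.prod L') Λ Λ', hΛ.image2 _ hΛ',
    fun y hy => ?_⟩
  obtain ⟨L, hL, HL⟩ := H y hy
  obtain ⟨L', hL', HL'⟩ := K y hy
  refine ⟨L.prod L', ⟨L, hL, L', hL', rfl⟩, fun x hx hxy => ?_⟩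
  show (f x, g x) = (L x, L' x)
  rw [HL x hx (face_anti Set.subset_union_left y hxy),
    HL' x hx (face_anti Set.subset_union_right y hxy)]

theorem PLOn.add {f g : E → E'} {s : Set E} (hf : PLOn f s) (hg : PLOn g s) :
    PLOn (fun x => f x + g x) s :=
  (plOn_linear (LinearMap.fst ℚ E' E' + LinearMap.snd ℚ E' E') Set.univ).comp (hf.prod hg)
    (fun _ _ => trivial)

theorem PLOn.smul {f : E → E'} {s : Set E} (c : ℚ) (hf : PLOn f s) :
    PLOn (fun x => c • f x) s :=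
  (plOn_linear (c • (LinearMap.id : E' →ₗ[ℚ] E')) Set.univ).comp hf (fun _ _ => trivial)

theorem PLOn.sub {f g : E → E'} {s : Set E} (hf : PLOn f s) (hg : PLOn g s) :
    PLOn (fun x => f x - g x) s :=
  (plOn_linear (LinearMap.fst ℚ E' E' - LinearMap.snd ℚ E' E') Set.univ).comp (hf.prod hg)
    (fun _ _ => trivial)

theorem PLOn.lin {f : E → E'} {s : Set E} (L : E' →ₗ[ℚ] E'') (hf : PLOn f s) :
    PLOn (fun x => L (f x)) s :=
  (plOn_linear L Set.univ).comp hf (fun _ _ => trivial)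

theorem plOn_min : PLOn (fun p : ℚ × ℚ => min p.1 p.2) Set.univ := by
  refine ⟨{LinearMap.fst ℚ ℚ ℚ - LinearMap.snd ℚ ℚ ℚ}, Set.finite_singleton _,
    {LinearMap.fst ℚ ℚ ℚ, LinearMap.snd ℚ ℚ ℚ}, by simp, fun y _ => ?_⟩
  rcases lt_trichotomy y.1 y.2 with h | h | h
  · refine ⟨LinearMap.fst ℚ ℚ ℚ, by simp, fun x _ hx => ?_⟩
    have h1 := hx _ rfl
    simp only [LinearMap.sub_apply, LinearMap.fst_apply, LinearMap.snd_apply] at h1 ⊢
    rw [sign_neg (by linarith : y.1 - y.2 < 0), sign_eq_neg_one_iff] at h1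
    apply min_eq_left
    rcases h1 with h1 | h1 <;> linarith
  · refine ⟨LinearMap.fst ℚ ℚ ℚ, by simp, fun x _ hx => ?_⟩
    have h1 := hx _ rfl
    simp only [LinearMap.sub_apply, LinearMap.fst_apply, LinearMap.snd_apply] at h1 ⊢
    rw [h, sub_self, sign_zero, sign_eq_zero_iff] at h1
    apply min_eq_left
    rcases h1 with h1 | h1 <;> linarith
  · refine ⟨LinearMap.snd ℚ ℚ ℚ, by simp, fun x _ hx => ?_⟩
    have h1 := hx _ rfl
    simp only [LinearMap.sub_apply, LinearMap.fst_apply, LinearMap.snd_apply] at h1 ⊢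
    rw [sign_pos (by linarith : 0 < y.1 - y.2), sign_eq_one_iff] at h1
    apply min_eq_right
    rcases h1 with h1 | h1 <;> linarith

theorem PLOn.min {f g : E → ℚ} {s : Set E} (hf : PLOn f s) (hg : PLOn g s) :
    PLOn (fun x => min (f x) (g x)) s :=
  plOn_min.comp (hf.prod hg) (fun _ _ => trivial)

theorem PLOn.neg {f : E → E'} {s : Set E} (hf : PLOn f s) : PLOn (fun x => - f x) s :=
  hf.lin (-(LinearMap.id : E' →ₗ[ℚ] E'))

theorem PLOn.max {f g : E → ℚ} {s : Set E} (hf : PLOn f s) (hg : PLOn g s) :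
    PLOn (fun x => max (f x) (g x)) s := by
  have := (hf.neg.min hg.neg).neg
  refine this.congr (fun x _ => ?_)
  rw [min_neg_neg, neg_neg]

/-- Pasting over two closed pieces. -/
theorem PLOn.union {f : E → E'} {s t : Set E} (hs : Pol s) (ht : Pol t) (hf : PLOn f s)
    (hg : PLOn f t) : PLOn f (s ∪ t) := by
  obtain ⟨A, hA, Λ, hΛ, H⟩ := hf
  obtain ⟨B, hB, Λ', hΛ', K⟩ := hg
  obtain ⟨_, A', hA', H'⟩ := hs
  obtain ⟨_, B', hB', K'⟩ := ht
  refine ⟨(A ∪ B) ∪ (A' ∪ B'), (hA.union hB).union (hA'.union hB'), Λ ∪ Λ', hΛ.union hΛ', ?_⟩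
  rintro y (hy | hy)
  · obtain ⟨L, hL, HL⟩ := H y hy
    refine ⟨L, Or.inl hL, fun x _ hxy => HL x (H' y hy ?_) ?_⟩
    · exact face_anti (fun a ha => Or.inr (Or.inl ha)) y hxy
    · exact face_anti (fun a ha => Or.inl (Or.inl ha)) y hxy
  · obtain ⟨L, hL, HL⟩ := K y hy
    refine ⟨L, Or.inr hL, fun x _ hxy => HL x (K' y hy ?_) ?_⟩
    · exact face_anti (fun a ha => Or.inr (Or.inr ha)) y hxy
    · exact face_anti (fun a ha => Or.inl (Or.inr ha)) y hxy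

theorem PLOn.zero {f : E → E'} {s : Set E} (hf : PLOn f s) (h0 : (0 : E) ∈ s) : f 0 = 0 := by
  obtain ⟨A, hA, Λ, hΛ, H⟩ := hf
  obtain ⟨L, _, HL⟩ := H 0 h0
  rw [HL 0 h0 (mem_face_self A 0), map_zero]

/-- Preimages of closed sets are closed. -/
theorem PLOn.pol_preimage {f : E → E'} {s : Set E} {t : Set E'} (hf : PLOn f s) (hs : Pol s)
    (ht : Pol t) : Pol {x | x ∈ s ∧ f x ∈ t} := by
  have h0 := hf.zero hs.1
  obtain ⟨A, hA, Λ, hΛ, H⟩ := hf
  obtain ⟨hs0, A', hA', H'⟩ := hs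
  obtain ⟨ht0, B, hB, K⟩ := ht
  refine ⟨⟨hs0, by rw [h0]; exact ht0⟩, (A ∪ A') ∪ Set.image2 (fun b L => b.comp L) B Λ,
    (hA.union hA').union (hB.image2 _ hΛ), ?_⟩
  rintro y ⟨hy, hfy⟩ x hxy
  have hx : x ∈ s := H' y hy (face_anti (fun a ha => Or.inl (Or.inr ha)) y hxy)
  refine ⟨hx, K _ hfy ?_⟩
  obtain ⟨L, hL, HL⟩ := H y hy
  intro b hb
  rw [HL x hx (face_anti (fun a ha => Or.inl (Or.inl ha)) y hxy), HL y hy (mem_face_self A y)]
  exact hxy (b.comp L) (Or.inr ⟨b, hb, L, hL, rfl⟩)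

theorem PLOn.con_preimage {f : E → E'} {s : Set E} {t : Set E'} (hf : PLOn f s) (hs : Con s)
    (ht : Con t) : Con {x | x ∈ s ∧ f x ∈ t} := by
  obtain ⟨A, hA, Λ, hΛ, H⟩ := hf
  obtain ⟨A', hA', H'⟩ := hs
  obtain ⟨B, hB, K⟩ := ht
  refine ⟨(A ∪ A') ∪ Set.image2 (fun b L => b.comp L) B Λ,
    (hA.union hA').union (hB.image2 _ hΛ), ?_⟩
  rintro x y hxy ⟨hx, hfx⟩
  have hy : y ∈ s := H' x y (fun a ha => hxy a (Or.inl (Or.inr ha))) hx
  refine ⟨hy, K _ _ ?_ hfx⟩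
  obtain ⟨L, hL, HL⟩ := H x hx
  intro b hb
  rw [HL x hx (mem_face_self A x), HL y hy (fun a ha => Or.inr (hxy a (Or.inl (Or.inl ha))).symm)]
  exact hxy (b.comp L) (Or.inr ⟨b, hb, L, hL, rfl⟩)

namespace PLInv

variable {f : E → E'} {g : E' → E} {s : Set E} {t : Set E'}

theorem symm (h : PLInv f g s t) : PLInv g f t s :=
  ⟨h.plg, h.plf, h.mapsg, h.mapsf, h.fg, h.gf⟩

theorem refl (s : Set E) : PLInv (fun x => x) (fun x => x) s s :=
  ⟨plOn_id s, plOn_id s, fun _ h => h, fun _ h => h, fun _ _ => rfl, fun _ _ => rfl⟩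

theorem trans {f' : E' → E''} {g' : E'' → E'} {u : Set E''} (h : PLInv f g s t)
    (h' : PLInv f' g' t u) : PLInv (fun x => f' (f x)) (fun z => g (g' z)) s u :=
  ⟨h'.plf.comp h.plf h.mapsf, h.plg.comp h'.plg h'.mapsg, fun x hx => h'.mapsf _ (h.mapsf x hx),
    fun z hz => h.mapsg _ (h'.mapsg z hz),
    fun x hx => by rw [h'.gf _ (h.mapsf x hx), h.gf x hx],
    fun z hz => by rw [h.fg _ (h'.mapsg z hz), h'.fg z hz]⟩

/-- Restriction to a pair of corresponding subsets. -/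
theorem restrict (h : PLInv f g s t) {u : Set E} {v : Set E'} (hu : u ⊆ s) (hv : v ⊆ t)
    (huv : ∀ x ∈ s, (x ∈ u ↔ f x ∈ v)) : PLInv f g u v :=
  ⟨h.plf.mono hu, h.plg.mono hv, fun x hx => (huv x (hu hx)).1 hx,
    fun y hy => (huv _ (h.mapsg y (hv hy))).2 (by rw [h.fg y (hv hy)]; exact hy),
    fun x hx => h.gf x (hu hx), fun y hy => h.fg y (hv hy)⟩

/-- The image of a subset. -/
theorem image_eq (h : PLInv f g s t) {u : Set E} (hu : u ⊆ s) :
    f '' u = {y | y ∈ t ∧ g y ∈ u} := by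
  ext y; constructor
  · rintro ⟨x, hx, rfl⟩
    exact ⟨h.mapsf x (hu hx), by rw [h.gf x (hu hx)]; exact hx⟩
  · rintro ⟨hy, hgy⟩
    exact ⟨g y, hgy, h.fg y hy⟩

theorem image_subset (h : PLInv f g s t) {u : Set E} (hu : u ⊆ s) : f '' u ⊆ t := by
  rw [h.image_eq hu]; exact fun y hy => hy.1

theorem restrict_image (h : PLInv f g s t) {u : Set E} (hu : u ⊆ s) : PLInv f g u (f '' u) :=
  h.restrict hu (h.image_subset hu) (fun x hx => ⟨fun hxu => ⟨x, hxu, rfl⟩, by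
    rintro ⟨z, hz, hzx⟩
    have : z = x := by rw [← h.gf z (hu hz), ← h.gf x hx, hzx]
    exact this ▸ hz⟩)

theorem mem_image (h : PLInv f g s t) {u : Set E} (hu : u ⊆ s) {x : E} (hx : x ∈ s) :
    f x ∈ f '' u ↔ x ∈ u := by
  rw [h.image_eq hu]
  constructor
  · rintro ⟨_, h2⟩; rwa [h.gf x hx] at h2
  · intro h2; exact ⟨h.mapsf x hx, by rwa [h.gf x hx]⟩

theorem pol_image (h : PLInv f g s t) (ht : Pol t) {u : Set E} (hu : u ⊆ s) (hup : Pol u) :
    Pol (f '' u) := by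
  rw [h.image_eq hu]; exact h.plg.pol_preimage ht hup

theorem con_image (h : PLInv f g s t) (ht : Con t) {u : Set E} (hu : u ⊆ s) (hup : Con u) :
    Con (f '' u) := by
  rw [h.image_eq hu]; exact h.plg.con_preimage ht hup

theorem image_image (h : PLInv f g s t) {u : Set E} (hu : u ⊆ s) : g '' (f '' u) = u := by
  rw [Set.image_image]
  ext x; constructor
  · rintro ⟨z, hz, rfl⟩
    show g (f z) ∈ u
    rw [h.gf z (hu hz)]; exact hz
  · intro hx; exact ⟨x, hx, h.gf x (hu hx)⟩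

theorem image_diff (h : PLInv f g s t) {u v : Set E} (hu : u ⊆ s) (hv : v ⊆ s) :
    f '' (u \ v) = f '' u \ f '' v := by
  ext y; constructor
  · rintro ⟨x, ⟨hx, hxv⟩, rfl⟩
    exact ⟨⟨x, hx, rfl⟩, fun hh => hxv ((h.mem_image hv (hu hx)).1 hh)⟩
  · rintro ⟨⟨x, hx, rfl⟩, hv'⟩
    exact ⟨x, ⟨hx, fun hh => hv' ⟨x, hh, rfl⟩⟩, rfl⟩

theorem image_inter (h : PLInv f g s t) {u v : Set E} (hu : u ⊆ s) (hv : v ⊆ s) :
    f '' (u ∩ v) = f '' u ∩ f '' v := by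
  ext y; constructor
  · rintro ⟨x, ⟨hx, hxv⟩, rfl⟩
    exact ⟨⟨x, hx, rfl⟩, ⟨x, hxv, rfl⟩⟩
  · rintro ⟨⟨x, hx, rfl⟩, hv'⟩
    exact ⟨x, ⟨hx, (h.mem_image hv (hu hx)).1 hv'⟩, rfl⟩

/-- Closure commutes with piecewise linear bijections. -/
theorem image_cl [FiniteDimensional ℚ E] [FiniteDimensional ℚ E'] (h : PLInv f g s t)
    (hs : Pol s) (ht : Pol t) {u : Set E} (hu : u ⊆ s) (huc : Con u) :
    f '' (cl u) = cl (f '' u) := by
  have hclu : cl u ⊆ s := hs.cl_subset hu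
  have hfu : f '' u ⊆ t := h.image_subset hu
  apply subset_antisymm
  · -- use g
    have h1 : u ⊆ g '' (cl (f '' u)) := by
      rw [h.symm.image_eq (ht.cl_subset hfu)]
      exact fun x hx => ⟨hu hx, subset_cl _ ⟨x, hx, rfl⟩⟩
    have h2 : cl u ⊆ g '' (cl (f '' u)) :=
      (h.symm.pol_image hs (ht.cl_subset hfu) (h.con_image ht.con hu huc).pol_cl).cl_subset h1
    have h3 := Set.image_mono (f := f) h2
    rwa [h.symm.image_image (ht.cl_subset hfu)] at h3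
  · exact (h.pol_image ht hclu huc.pol_cl).cl_subset (Set.image_mono (subset_cl u))

theorem conn_image (h : PLInv f g s t) (hs : Pol s) {u : Set E} (hu : u ⊆ s)
    (huc : Conn u) : Conn (f '' u) := by
  refine ⟨huc.1.image f, fun F₁ F₂ hF₁ hF₂ hcov hdis => ?_⟩
  have h1 := h.plf.pol_preimage hs hF₁
  have h2 := h.plf.pol_preimage hs hF₂
  rcases huc.2 _ _ h1 h2 (by
      intro x hx
      rcases hcov ⟨x, hx, rfl⟩ with h3 | h3
      · exact Or.inl ⟨hu hx, h3⟩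
      · exact Or.inr ⟨hu hx, h3⟩) (by
      rintro x hx ⟨_, h3⟩ ⟨_, h4⟩
      exact hdis _ ⟨x, hx, rfl⟩ h3 h4) with h3 | h3
  · left; rintro _ ⟨x, hx, rfl⟩; exact (h3 hx).2
  · right; rintro _ ⟨x, hx, rfl⟩; exact (h3 hx).2

theorem comp_image [FiniteDimensional ℚ E] [FiniteDimensional ℚ E'] (h : PLInv f g s t)
    (hs : Pol s) (ht : Pol t) {M C F : Set E} (hC : Pol C) (hCs : C ⊆ s) (hF : Pol F) (hFs : F ⊆ s)
    (hM : Comp M C F) : Comp (f '' M) (f '' C) (f '' F) := by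
  have hMs : M ⊆ s := hM.sub.trans hCs
  refine ⟨h.pol_image ht hMs hM.pol, Set.image_mono hM.sub, ?_, ?_, ?_⟩
  · rw [← h.image_diff hMs hFs, ← h.image_cl hs ht (Set.sdiff_subset.trans hMs)
      (hM.pol.con.diff hF.con), hM.cl_eq]
  · rw [← h.image_diff hMs hFs]
    exact h.conn_image hs (Set.sdiff_subset.trans hMs) hM.conn
  · have hFM : F ∪ M ⊆ s := Set.union_subset hFs hMs
    rw [← Set.image_union, ← h.image_diff hCs hFM,
      ← h.image_cl hs ht (Set.sdiff_subset.trans hCs) (hC.con.diff (hF.con.union hM.pol.con)),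
      ← h.image_inter (hs.cl_subset (Set.sdiff_subset.trans hCs)) hMs]
    exact Set.image_mono hM.rest

end PLInv

end Pool.Agent.Work.MP_552024_lc.PLS
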