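import Pool.Agent.Work.MP_552024_lc.PLS.S4

set_option autoImplicit false

/-! Item Base: a sphere that crosses no hyperplane of its arrangement is standard. -/

namespace Pool.Agent.Work.MP_552024_lc.PLS

theorem I_Base (hNotFlat : St_NotFlat) (hNoChm : St_NoChm) (hCV : St_CV) (hNCp : St_NCp)
    (hBdSph : St_BdSph) : St_Base := by
  classical
  intro n E _ _ _ T A u hd hT hbdd hA hspn hcl hside
  let ι := {a : E →ₗ[ℚ] ℚ // a ∈ A ∧ a ≠ 0}
  have hfin : Finite ι := Set.Finite.to_subtype (s := {a : E →ₗ[ℚ] ℚ | a ∈ A ∧ a ≠ 0})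
    (hA.subset (fun a ha => ha.1))
  letI : Fintype ι := Fintype.ofFinite ι
  haveI hnt : Nontrivial E := Module.nontrivial_of_finrank_pos (R := ℚ) (by omega)
  have hne : Nonempty ι := by
    obtain ⟨x, hx⟩ := exists_ne (0 : E)
    by_contra hc
    apply hx
    apply hspn
    intro a ha
    by_contra h1
    apply hc
    refine ⟨⟨a, ha, ?_⟩⟩
    rintro rfl
    exact h1 rfl
  let h : ι → E →ₗ[ℚ] ℚ := fun a => if (∀ x ∈ T, 0 ≤ a.1 x) then a.1 else -a.1
  have hnn : ∀ (a : ι), ∀ x ∈ T, 0 ≤ h a x := by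
    intro a x hx
    by_cases hc : ∀ x ∈ T, 0 ≤ a.1 x
    · simp only [h, if_pos hc]
      exact hc x hx
    · simp only [h, if_neg hc]
      rcases hside a.1 a.2.1 with h1 | h1
      · exact absurd h1 hc
      · rw [LinearMap.neg_apply]
        have := h1 x hx
        linarith
  have hz : ∀ (a : ι) (x : E), h a x = 0 ↔ a.1 x = 0 := by
    intro a x
    by_cases hc : ∀ x ∈ T, 0 ≤ a.1 x
    · simp only [h, if_pos hc]
    · simp only [h, if_neg hc, LinearMap.neg_apply, neg_eq_zero]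
  have hn0 : ∀ a : ι, h a ≠ 0 := by
    intro a h0
    apply a.2.2
    ext x
    rw [LinearMap.zero_apply, ← hz a x, h0, LinearMap.zero_apply]
  have hex : ∀ a : ι, ∃ x ∈ T, 0 < h a x := by
    intro a
    by_contra hc
    push Not at hc
    exact hNotFlat n E T (h a) u hd (hn0 a) hT
      (fun x hx => le_antisymm (hc x hx) (hnn a x hx)) hbdd
  choose X hXT hX using hex
  have hKO : (KO h).Nonempty := by
    refine ⟨∑ a, X a, fun b => ?_⟩
    rw [map_sum]
    exact Finset.sum_pos' (fun a _ => hnn b _ (hXT a)) ⟨b, Finset.mem_univ b, hX b⟩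
  have hker : ∀ x, (∀ i, h i x = 0) → x = 0 := by
    intro x hx
    apply hspn
    intro a ha
    by_cases h0 : a = 0
    · rw [h0, LinearMap.zero_apply]
    · exact (hz ⟨a, ha, h0⟩ x).1 (hx ⟨a, ha, h0⟩)
  have hTD : T ⊆ KD h := by
    intro x hx
    refine ⟨fun i => hnn i x hx, ?_⟩
    by_contra hc
    push Not at hc
    have hA' : ({a : E →ₗ[ℚ] ℚ | a ∈ A ∧ a ≠ 0}).Finite := hA.subset (fun a ha => ha.1)
    have hinv : InvA {a : E →ₗ[ℚ] ℚ | a ∈ A ∧ a ≠ 0} T := by
      intro y z hyz hy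
      refine hcl.inv y z ?_ hy
      intro a ha
      by_cases h0 : a = 0
      · rw [h0, LinearMap.zero_apply, LinearMap.zero_apply]
      · exact hyz a ⟨ha, h0⟩
    refine hNoChm n E T {a : E →ₗ[ℚ] ℚ | a ∈ A ∧ a ≠ 0} hd hT hA' hinv x ?_ hx
    intro a ha h0
    exact hc ⟨a, ha⟩ ((hz ⟨a, ha⟩ x).2 h0)
  have hB : Ball (n + 2) (KC h) (KD h) := coneBall (n + 1) E ι h hd hKO hker
  have hS : Sph (n + 1) (KD h) := hBdSph n E (KC h) (KD h) hB
  have hTe : T = KD h := hNCp n E T (KD h) hT hS hTD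
  rw [hTe]
  exact hCV (n + 1) E ι h hd hKO hker

end Pool.Agent.Work.MP_552024_lc.PLS
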