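import Pool.Agent.Work.MP_552024_lc.PLS.S4X

set_option autoImplicit false

/-!
# Elementary properties of the box
-/

namespace Pool.Agent.Work.MP_552024_lc.PLS

namespace ABxQ

variable {E : Type} [AddCommGroup E] [Module ℚ E]

theorem qf_forall (u g : E →ₗ[ℚ] ℚ) (s : Fin 3 → E →ₗ[ℚ] ℚ) (δ η : ℚ) (x : E)
    (P : ℚ → Prop) : (∀ i, P (qf u g s δ η i x)) ↔
      P (δ * η * u x - g x) ∧ P (δ * η * u x + g x) ∧ P (η * u x - s 0 x) ∧
        P (η * u x - s 1 x) ∧ P (η * u x - s 2 x) := by
  constructor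
  · intro h
    exact ⟨h 0, h 1, h 2, h 3, h 4⟩
  · rintro ⟨h0, h1, h2, h3, h4⟩ i
    fin_cases i
    · exact h0
    · exact h1
    · exact h2
    · exact h3
    · exact h4

theorem forall3 (P : Fin 3 → Prop) : (∀ i, P i) ↔ P 0 ∧ P 1 ∧ P 2 := by
  constructor
  · intro h
    exact ⟨h 0, h 1, h 2⟩
  · rintro ⟨h0, h1, h2⟩ i
    fin_cases i
    · exact h0
    · exact h1
    · exact h2

theorem lev_self (u v : E →ₗ[ℚ] ℚ) (w : E) : lev u v w w = 0 := by
  unfold lev
  simp only [LinearMap.sub_apply, LinearMap.smul_apply, smul_eq_mul]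
  ring

end ABxQ

open ABxQ in
theorem I_BxQ : St_BxQ := by
  intro E _ _ _ u v w s δ η huw hsw hsum hbas hδ hη
  have hg := lev_self u v w
  have hsx : ∀ x, s 0 x + s 1 x + s 2 x = 0 := fun x => by
    have := congrArg (fun f : E →ₗ[ℚ] ℚ => f x) hsum
    simpa using this
  have hKC : ∀ x, x ∈ KC (qf u (lev u v w) s δ η) ↔
      (|lev u v w x| ≤ δ * η * u x ∧ ∀ i, s i x ≤ η * u x) := by
    intro x
    rw [forall3, abs_le]
    refine (qf_forall u (lev u v w) s δ η x (fun r => 0 ≤ r)).trans ?_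
    constructor
    · rintro ⟨h0, h1, h2, h3, h4⟩
      exact ⟨⟨by linarith, by linarith⟩, by linarith, by linarith, by linarith⟩
    · rintro ⟨⟨h0, h1⟩, h2, h3, h4⟩
      exact ⟨by linarith, by linarith, by linarith, by linarith, by linarith⟩
  have hKO : ∀ x, x ∈ KO (qf u (lev u v w) s δ η) ↔
      (|lev u v w x| < δ * η * u x ∧ ∀ i, s i x < η * u x) := by
    intro x
    rw [forall3, abs_lt]
    refine (qf_forall u (lev u v w) s δ η x (fun r => 0 < r)).trans ?_
    constructor
    · rintro ⟨h0, h1, h2, h3, h4⟩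
      exact ⟨⟨by linarith, by linarith⟩, by linarith, by linarith, by linarith⟩
    · rintro ⟨⟨h0, h1⟩, h2, h3, h4⟩
      exact ⟨by linarith, by linarith, by linarith, by linarith, by linarith⟩
  refine ⟨?_, ?_, ?_, hKC, hKO⟩
  · rw [hKO, hg, abs_zero]
    exact ⟨by positivity, fun i => by rw [hsw i]; positivity⟩
  · intro x hx
    obtain ⟨h0, h1, h2, h3, h4⟩ := (qf_forall u (lev u v w) s δ η x (fun r => r = 0)).1 hx
    have hu : u x = 0 := by
      have : δ * η * u x = 0 := by linarith
      rcases mul_eq_zero.1 this with h | h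
      · exact absurd h (by positivity)
      · exact h
    rw [hu] at h0 h1 h2 h3 h4
    exact hbas x hu (by linarith) (by linarith) (by linarith)
  · intro x hx hx0
    obtain ⟨h1, h2⟩ := (hKC x).1 hx
    have a0 := h2 0
    have a1 := h2 1
    have a2 := h2 2
    have hs := hsx x
    have hu : 0 ≤ u x := by
      have : 0 ≤ η * u x := by linarith
      exact nonneg_of_mul_nonneg_right this hη
    rcases hu.eq_or_lt with h | h
    · exfalso
      rw [← h] at h1 a0 a1 a2
      simp only [mul_zero] at h1 a0 a1 a2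
      have h3 : lev u v w x = 0 := abs_eq_zero.1 (le_antisymm h1 (abs_nonneg _))
      exact hx0 (hbas x h.symm h3 (by linarith) (by linarith))
    · exact h

end Pool.Agent.Work.MP_552024_lc.PLS
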