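import Pool.Agent.Work.MP_552024_lc.PLS.S4L

set_option autoImplicit false

namespace Pool.Agent.Work.MP_552024_lc.PLS

theorem I_ClC : St_ClC := by
  intro E _ _ _ A C F M hA hC hF hCp hFp hM
  have hinv : ∀ x y, SameSign A x y → x ∈ M \ F → y ∈ M \ F := by
    intro x y hxy hx
    have hcell : {z | SameSign A z x} ⊆ C \ F := by
      intro z hz
      exact ⟨hC x (hM.sub hx.1) (SameSign.mem_face hz),
        fun hzF => hx.2 (hF z hzF (SameSign.symm hz).mem_face)⟩
    have hsub := Comp.sub_of_conn hCp hFp hM (conn_cell (A := A) x) hcell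
      ⟨x, (show SameSign A x x from fun _ _ => rfl), hx.1⟩
    exact ⟨hsub hxy.symm, (hcell (show SameSign A y x from hxy.symm)).2⟩
  intro y hy x hx
  rw [← hM.cl_eq, mem_cl_iff hA hinv] at hy
  rw [← hM.cl_eq, mem_cl_iff hA hinv]
  right
  rcases hy with hy | ⟨w, hw, hyw⟩
  · obtain ⟨w, hw⟩ := hM.nonempty
    refine ⟨w, hw, fun a ha => Or.inl ?_⟩
    rcases hx a ha with h | h
    · exact h
    · rw [hy, map_zero, sign_zero, sign_eq_zero_iff] at h
      exact h
  · exact ⟨w, hw, face_trans hx hyw⟩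

end Pool.Agent.Work.MP_552024_lc.PLS
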