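import Pool.Agent.Work.MP_552024_lc.PLS.S4

set_option autoImplicit false

namespace Pool.Agent.Work.MP_552024_lc.PLS

namespace ACut3

open SignType

variable {E : Type} [AddCommGroup E] [Module ℚ E]

/-- A connected set meeting both sides of a hyperplane meets the hyperplane. -/
theorem zero_of_conn {S : Set E} (hS : Conn S) (a : E →ₗ[ℚ] ℚ) {x y : E} (hx : x ∈ S)
    (hy : y ∈ S) (hax : 0 < a x) (hay : a y < 0) : ∃ p ∈ S, a p = 0 := by
  by_contra hc
  push Not at hc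
  have h1 := hS.2 {x : E | 0 ≤ a x} {x : E | 0 ≤ (-a) x} (pol_halfspace a) (pol_halfspace (-a))
    (by
      intro z _
      rcases le_total 0 (a z) with h | h
      · exact Or.inl h
      · right
        show 0 ≤ (-a) z
        rw [LinearMap.neg_apply]; linarith)
    (by
      intro z hz h2 h3
      have h2 : 0 ≤ a z := h2
      have h3 : 0 ≤ (-a) z := h3
      rw [LinearMap.neg_apply] at h3
      exact hc z hz (by linarith))
  rcases h1 with h1 | h1
  · have h2 : 0 ≤ a y := h1 hy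
    linarith
  · have h2 : 0 ≤ (-a) x := h1 hx
    rw [LinearMap.neg_apply] at h2
    linarith

theorem ray_sub {T : Set E} (hT : Pol T) {p : E} (hp : p ∈ T) : ray p ⊆ T := by
  rintro x ⟨c, hc, rfl⟩
  rcases hc.eq_or_lt with h | h
  · rw [← h, zero_smul]; exact hT.1
  · exact (inv_smul hT.con p h).2 hp

/-- A form of `A` vanishing at `p` but not at `q` exists if the segment leaves `T` at `p`. -/
theorem exists_form {T : Set E} {A : Set (E →ₗ[ℚ] ℚ)} (hA : A.Finite) (hCl : ClA A T) {p q : E}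
    (hp : p ∈ T) (gap : ∀ s : ℚ, 0 < s → s < 1 → p + s • (q - p) ∉ T) :
    ∃ b ∈ A, b p = 0 ∧ b q ≠ 0 := by
  by_contra hc
  push Not at hc
  obtain ⟨ε, hε, H⟩ := small_signs hA p (q - p)
  have h0 : 0 < min ε (1 / 2) := lt_min hε (by norm_num)
  have h1 : min ε (1 / 2) ≤ ε := min_le_left _ _
  have h2 : min ε (1 / 2 : ℚ) < 1 := lt_of_le_of_lt (min_le_right _ _) (by norm_num)
  refine gap _ h0 h2 (hCl p hp ?_)
  intro b hb
  obtain ⟨H1, H2⟩ := H _ h0 h1 b hb
  by_cases h3 : b p = 0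
  · left
    rw [map_add, map_smul, map_sub, h3, hc b hb h3]
    simp
  · exact Or.inr (H1 h3)

theorem sign_aux {r s t : ℚ} (h : s = 0 ∨ sign s = sign t) (h' : 0 ≤ r * t) : 0 ≤ r * s := by
  rcases h with h | h
  · rw [h, mul_zero]
  · rw [← sign_nonneg_iff, sign_mul] at h' ⊢
    rw [h]; exact h'

/-- The plane `a = 0` is spanned by `p` and `q`. -/
theorem plane [FiniteDimensional ℚ E] (hd : Module.finrank ℚ E = 3) {a u : E →ₗ[ℚ] ℚ}
    (ha : a ≠ 0) {p q : E} (hap : a p = 0) (haq : a q = 0) (hup : u p = 1) (huq : u q = 1)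
    (hpq : p ≠ q) {x : E} (hx : a x = 0) : ∃ c d : ℚ, x = c • p + d • q := by
  have hfr : Module.finrank ℚ (LinearMap.ker a) = 2 := by
    have h1 := Module.Dual.finrank_ker_add_one_of_ne_zero ha
    omega
  have hli : LinearIndependent ℚ ![(⟨p, hap⟩ : LinearMap.ker a), ⟨q, haq⟩] := by
    rw [LinearIndependent.pair_iff]
    intro s t hst
    have h1 : s • p + t • q = 0 := congrArg Subtype.val hst
    have h2 : s + t = 0 := by
      have := congrArg u h1
      rw [map_add, map_smul, map_smul, hup, huq, map_zero] at this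
      simpa using this
    have h3 : s • (p - q) = 0 := by
      have h4 : t = -s := by linarith
      rw [h4] at h1
      rw [smul_sub, sub_eq_add_neg, ← neg_smul]; exact h1
    rcases smul_eq_zero.1 h3 with h4 | h4
    · exact ⟨h4, by linarith⟩
    · exact absurd (sub_eq_zero.1 h4) hpq
  have hsp := hli.span_eq_top_of_card_eq_finrank (by rw [hfr]; rfl)
  have hm : (⟨x, hx⟩ : LinearMap.ker a) ∈ Submodule.span ℚ
      (Set.range ![(⟨p, hap⟩ : LinearMap.ker a), ⟨q, haq⟩]) := by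
    rw [hsp]; trivial
  rw [Matrix.range_cons, Matrix.range_cons, Matrix.range_empty, Set.union_empty,
    Set.singleton_union, Submodule.mem_span_pair] at hm
  obtain ⟨c, d, h⟩ := hm
  exact ⟨c, d, (congrArg Subtype.val h).symm⟩

theorem core (hSph1 : St_Sph1) [FiniteDimensional ℚ E] (hd : Module.finrank ℚ E = 3) {T : Set E}
    {A : Set (E →ₗ[ℚ] ℚ)} {u a : E →ₗ[ℚ] ℚ} (hA : A.Finite) (hCl : ClA A T) (hT : Pol T)
    (haA : a ∈ A) (ha : a ≠ 0) {p q : E} (hp : p ∈ T) (hq : q ∈ T) (hap : a p = 0)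
    (haq : a q = 0) (hup : u p = 1) (huq : u q = 1) (hpq : p ≠ q)
    (gap : ∀ s : ℚ, 0 < s → s < 1 → p + s • (q - p) ∉ T) :
    ∃ D c : Set E, Ball 2 D c ∧ Sph 1 c ∧ D ∩ T = c ∧ ClA A D ∧ (∀ x ∈ D, a x = 0) ∧ Bdd u D ∧
      ∀ b : E →ₗ[ℚ] ℚ, (∀ x ∈ T, 0 ≤ b x) → ∀ x ∈ D, 0 ≤ b x := by
  have gap' : ∀ s : ℚ, 0 < s → s < 1 → q + s • (p - q) ∉ T := by
    intro s h0 h1
    have h2 := gap (1 - s) (by linarith) (by linarith)
    have h3 : p + (1 - s) • (q - p) = q + s • (p - q) := by module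
    rwa [h3] at h2
  obtain ⟨bp, hbpA, hbpp, hbpq⟩ := exists_form hA hCl hp gap
  obtain ⟨bq, hbqA, hbqq, hbqp⟩ := exists_form hA hCl hq gap'
  have hp0 : p ≠ 0 := by rintro rfl; rw [map_zero] at hup; norm_num at hup
  have hq0 : q ≠ 0 := by rintro rfl; rw [map_zero] at huq; norm_num at huq
  have hqr : q ∉ ray p := by
    rintro ⟨c, _, h⟩
    have h1 := congrArg u h
    rw [map_smul, hup, huq, smul_eq_mul, mul_one] at h1
    rw [← h1, one_smul] at h
    exact hpq h.symm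
  -- the two dimensional cone
  set D : Set E := {x | ∃ c d : ℚ, 0 ≤ c ∧ 0 ≤ d ∧ x = c • p + d • q} with hD
  have evp : ∀ c d : ℚ, bp (c • p + d • q) = d * bp q := fun c d => by
    rw [map_add, map_smul, map_smul, hbpp, smul_eq_mul, smul_eq_mul, mul_zero, zero_add]
  have evq : ∀ c d : ℚ, bq (c • p + d • q) = c * bq p := fun c d => by
    rw [map_add, map_smul, map_smul, hbqq, smul_eq_mul, smul_eq_mul, mul_zero, add_zero]
  have evu : ∀ c d : ℚ, u (c • p + d • q) = c + d := fun c d => by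
    rw [map_add, map_smul, map_smul, hup, huq, smul_eq_mul, smul_eq_mul, mul_one, mul_one]
  have eva : ∀ c d : ℚ, a (c • p + d • q) = 0 := fun c d => by
    rw [map_add, map_smul, map_smul, hap, haq, smul_zero, smul_zero, add_zero]
  have hDiff : ∀ x, x ∈ D ↔ a x = 0 ∧ 0 ≤ bp q * bp x ∧ 0 ≤ bq p * bq x := by
    intro x
    constructor
    · rintro ⟨c, d, hc, hd, rfl⟩
      refine ⟨eva c d, ?_, ?_⟩
      · rw [evp]; nlinarith [mul_nonneg hd (mul_self_nonneg (bp q))]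
      · rw [evq]; nlinarith [mul_nonneg hc (mul_self_nonneg (bq p))]
    · rintro ⟨h1, h2, h3⟩
      obtain ⟨c, d, rfl⟩ := plane hd ha hap haq hup huq hpq h1
      rw [evp] at h2
      rw [evq] at h3
      have h4 : 0 < bp q * bp q := mul_self_pos.2 hbpq
      have h5 : 0 < bq p * bq p := mul_self_pos.2 hbqp
      refine ⟨c, d, ?_, ?_, rfl⟩
      · have h6 : 0 ≤ c * (bq p * bq p) := by
          have h7 : bq p * (c * bq p) = c * (bq p * bq p) := by ring
          rwa [h7] at h3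
        exact nonneg_of_mul_nonneg_left h6 h5
      · have h6 : 0 ≤ d * (bp q * bp q) := by
          have h7 : bp q * (d * bp q) = d * (bp q * bp q) := by ring
          rwa [h7] at h2
        exact nonneg_of_mul_nonneg_left h6 h4
  have hClD : ClA A D := by
    intro y hy x hx
    rw [hDiff] at hy ⊢
    obtain ⟨h1, h2, h3⟩ := hy
    refine ⟨?_, sign_aux (hx bp hbpA) h2, sign_aux (hx bq hbqA) h3⟩
    rcases hx a haA with h4 | h4
    · exact h4
    · rw [h1, sign_zero, sign_eq_zero_iff] at h4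
      exact h4
  have h0D : (0 : E) ∈ D := ⟨0, 0, le_rfl, le_rfl, by simp⟩
  have hPolD : Pol D := hClD.pol hA h0D
  have hrp : ray p ⊆ D := by
    rintro x ⟨c, hc, rfl⟩
    exact ⟨c, 0, hc, le_rfl, by simp⟩
  have hrq : ray q ⊆ D := by
    rintro x ⟨c, hc, rfl⟩
    exact ⟨0, c, le_rfl, hc, by simp⟩
  have hcD : ray p ∪ ray q ⊆ D := Set.union_subset hrp hrq
  -- the chart
  let L : (Fin 2 → ℚ) →ₗ[ℚ] E :=
    (LinearMap.toSpanSingleton ℚ E p).comp (crd 2 0) +
      (LinearMap.toSpanSingleton ℚ E q).comp (crd 2 1)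
  let M : E →ₗ[ℚ] (Fin 2 → ℚ) := LinearMap.pi ![(bq p)⁻¹ • bq, (bp q)⁻¹ • bp]
  have hL : ∀ x, L x = x 0 • p + x 1 • q := fun x => rfl
  have hM0 : ∀ x, M x 0 = (bq p)⁻¹ * bq x := fun x => rfl
  have hM1 : ∀ x, M x 1 = (bp q)⁻¹ * bp x := fun x => rfl
  have hM0' : ∀ c d : ℚ, M (c • p + d • q) 0 = c := fun c d => by
    rw [hM0, evq]; field_simp
  have hM1' : ∀ c d : ℚ, M (c • p + d • q) 1 = d := fun c d => by
    rw [hM1, evp]; field_simp
  refine ⟨D, ray p ∪ ray q, ⟨hPolD, hcD, L, M, ⟨plOn_linear L _, plOn_linear M _, ?_, ?_, ?_, ?_⟩,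
    ?_⟩, (hSph1 E _).2 ⟨p, q, hp0, hq0, hqr, rfl⟩, ?_, hClD, ?_, ?_, ?_⟩
  · intro x hx
    exact ⟨x 0, x 1, hx 0, hx 1, hL x⟩
  · rintro x ⟨c, d, hc, hd, rfl⟩ i
    fin_cases i
    · show 0 ≤ M (c • p + d • q) 0
      rw [hM0']; exact hc
    · show 0 ≤ M (c • p + d • q) 1
      rw [hM1']; exact hd
  · intro x _
    rw [hL]
    funext i
    fin_cases i
    · exact hM0' _ _
    · exact hM1' _ _
  · rintro x ⟨c, d, hc, hd, rfl⟩
    rw [hL, hM0', hM1']
  · intro x hx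
    rw [hL]
    constructor
    · rintro ⟨_, i, hi⟩
      fin_cases i
      · right
        have hi : x 0 = 0 := hi
        exact ⟨x 1, hx 1, by rw [hi, zero_smul, zero_add]⟩
      · left
        have hi : x 1 = 0 := hi
        exact ⟨x 0, hx 0, by rw [hi, zero_smul, add_zero]⟩
    · rintro (⟨c, hc, h⟩ | ⟨c, hc, h⟩)
      · have h1 := congrArg bp h
        rw [evp, map_smul, hbpp, smul_zero] at h1
        exact ⟨hx, 1, (mul_eq_zero.1 h1).resolve_right hbpq⟩
      · have h1 := congrArg bq h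
        rw [evq, map_smul, hbqq, smul_zero] at h1
        exact ⟨hx, 0, (mul_eq_zero.1 h1).resolve_right hbqp⟩
  · apply subset_antisymm
    · rintro x ⟨⟨c, d, hc, hd, rfl⟩, hxT⟩
      rcases hc.eq_or_lt with h1 | h1
      · right
        exact ⟨d, hd, by rw [← h1, zero_smul, zero_add]⟩
      rcases hd.eq_or_lt with h2 | h2
      · left
        exact ⟨c, hc, by rw [← h2, zero_smul, add_zero]⟩
      exfalso
      have h3 : 0 < c + d := add_pos h1 h2
      refine gap (d / (c + d)) (div_pos h2 h3) (by rw [div_lt_one h3]; linarith) ?_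
      have h4 : p + (d / (c + d)) • (q - p) = (c + d)⁻¹ • (c • p + d • q) := by
        have h5 : c + d ≠ 0 := h3.ne'
        rw [smul_add, smul_smul, smul_smul, smul_sub]
        have h6 : (c + d)⁻¹ * c = 1 - d / (c + d) := by field_simp; ring
        have h7 : (c + d)⁻¹ * d = d / (c + d) := by field_simp
        rw [h6, h7, sub_smul, one_smul]
        abel
      rw [h4]
      exact (inv_smul hT.con _ (inv_pos.2 h3)).2 hxT
    · exact Set.subset_inter hcD (Set.union_subset (ray_sub hT hp) (ray_sub hT hq))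
  · rintro x ⟨c, d, _, _, rfl⟩
    exact eva c d
  · rintro x ⟨c, d, hc, hd, rfl⟩ hx
    rw [evu]
    rcases hc.eq_or_lt with h1 | h1
    · rcases hd.eq_or_lt with h2 | h2
      · exact absurd (by rw [← h1, ← h2]; simp) hx
      · linarith
    · linarith
  · rintro b hb x ⟨c, d, hc, hd, rfl⟩
    rw [map_add, map_smul, map_smul, smul_eq_mul, smul_eq_mul]
    exact add_nonneg (mul_nonneg hc (hb p hp)) (mul_nonneg hd (hb q hq))

end ACut3

theorem I_Cut3 (hK3 : St_K3) (hSchA1 : St_SchA1) (hLast : St_Last) (hConnB0 : St_ConnB0)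
    (hSph1 : St_Sph1) : St_Cut3 := by
  intro E _ _ _ T A u a hd hT hBdd hA _ hCl _ haA ⟨xp, hxpT, hxp⟩ ⟨xm, hxmT, hxm⟩
  have h0T : (0 : E) ∈ T := by
    obtain ⟨D₁, D₂, U, rfl, _, hB, _⟩ := hT
    exact Or.inl hB.1.1
  have hTP : Pol T := hCl.pol hA h0T
  have ha0 : a ≠ 0 := by
    rintro rfl
    exact lt_irrefl _ hxp
  have hxp0 : xp ≠ 0 := by rintro rfl; rw [map_zero] at hxp; exact lt_irrefl _ hxp
  have hxm0 : xm ≠ 0 := by rintro rfl; rw [map_zero] at hxm; exact lt_irrefl _ hxm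
  have hxmr : xm ∉ ray xp := by
    rintro ⟨c, hc, h⟩
    rw [h, map_smul, smul_eq_mul] at hxm
    exact absurd hxm (not_lt.2 (mul_nonneg hc hxp.le))
  have hC0 : Sph 1 (ray xp ∪ ray xm) := (hSph1 E _).2 ⟨xp, xm, hxp0, hxm0, hxmr, rfl⟩
  obtain ⟨X, Y, hXY, hXY', hX, hY⟩ := hK3 0 hSchA1 E T (ray xp ∪ ray xm) hT hC0
    (Set.union_subset (ACut3.ray_sub hTP hxpT) (ACut3.ray_sub hTP hxmT))
  have hXT : X ⊆ T := by rw [← hXY]; exact Set.subset_union_left
  have hYT : Y ⊆ T := by rw [← hXY]; exact Set.subset_union_right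
  have hxpr : xp ∈ ray xp := ⟨1, zero_le_one, by rw [one_smul]⟩
  have hxmr' : xm ∈ ray xm := ⟨1, zero_le_one, by rw [one_smul]⟩
  have hxpXY : xp ∈ X ∩ Y := by rw [hXY']; exact Or.inl hxpr
  have hxmXY : xm ∈ X ∩ Y := by rw [hXY']; exact Or.inr hxmr'
  have hXP : Pol X := hX.1
  have hYP : Pol Y := hY.1
  -- the two zeros of `a`
  have zer : ∀ Z : Set E, Ball 2 Z (ray xp ∪ ray xm) → Z ⊆ T → xp ∈ Z → xm ∈ Z → Pol Z →
      ∃ p ∈ Z, a p = 0 ∧ u p = 1 := by
    intro Z hZ hZT h1 h2 hZP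
    obtain ⟨p, ⟨hpZ, hp0⟩, hp⟩ := ACut3.zero_of_conn (hConnB0 1 E Z _ hZ) a (x := xp) (y := xm)
      ⟨h1, hxp0⟩ ⟨h2, hxm0⟩ hxp hxm
    have hup : 0 < u p := hBdd p (hZT hpZ) hp0
    refine ⟨(u p)⁻¹ • p, (inv_smul hZP.con p (inv_pos.2 hup)).2 hpZ, ?_, ?_⟩
    · rw [map_smul, hp, smul_zero]
    · rw [map_smul, smul_eq_mul, inv_mul_cancel₀ hup.ne']
  obtain ⟨p₀, hp₀X, hap₀, hup₀⟩ := zer X hX hXT hxpXY.1 hxmXY.1 hXP
  obtain ⟨q₀, hq₀Y, haq₀, huq₀⟩ := zer Y hY hYT hxpXY.2 hxmXY.2 hYP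
  have evu : ∀ t : ℚ, u (p₀ + t • (q₀ - p₀)) = 1 := fun t => by
    rw [map_add, map_smul, map_sub, hup₀, huq₀, sub_self, smul_zero, add_zero]
  have eva : ∀ t : ℚ, a (p₀ + t • (q₀ - p₀)) = 0 := fun t => by
    rw [map_add, map_smul, map_sub, hap₀, haq₀, sub_self, smul_zero, add_zero]
  have disj : ∀ z : E, a z = 0 → u z = 1 → z ∈ X → z ∉ Y := by
    intro z h1 h2 h3 h4
    have h5 : z ∈ ray xp ∪ ray xm := by rw [← hXY']; exact ⟨h3, h4⟩
    rcases h5 with ⟨c, _, rfl⟩ | ⟨c, _, rfl⟩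
    · rw [map_smul, smul_eq_mul] at h1
      rw [(mul_eq_zero.1 h1).resolve_right hxp.ne', zero_smul, map_zero] at h2
      norm_num at h2
    · rw [map_smul, smul_eq_mul] at h1
      rw [(mul_eq_zero.1 h1).resolve_right hxm.ne, zero_smul, map_zero] at h2
      norm_num at h2
  have hne : p₀ ≠ q₀ := by
    intro h
    exact disj p₀ hap₀ hup₀ hp₀X (by rw [h]; exact hq₀Y)
  obtain ⟨t₁, t₂, _, h12, _, hpq, hgap⟩ := hLast E X Y p₀ q₀ hXP hYP hp₀X hq₀Y
    (fun t _ _ => disj _ (eva t) (evu t))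
  have hpT : p₀ + t₁ • (q₀ - p₀) ∈ T := by
    rcases hpq with h | h
    · exact hXT h.1
    · exact hYT h.1
  have hqT : p₀ + t₂ • (q₀ - p₀) ∈ T := by
    rcases hpq with h | h
    · exact hYT h.2
    · exact hXT h.2
  refine ACut3.core hSph1 hd hA hCl hTP haA ha0 hpT hqT (eva t₁) (eva t₂) (evu t₁) (evu t₂) ?_ ?_
  · intro h
    have h1 : (t₂ - t₁) • (q₀ - p₀) = 0 := by
      rw [sub_smul, sub_eq_zero]
      exact (add_left_cancel h).symm
    rcases smul_eq_zero.1 h1 with h2 | h2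
    · linarith
    · exact hne (sub_eq_zero.1 h2).symm
  · intro s h0 h1
    have h2 : p₀ + t₁ • (q₀ - p₀) + s • (p₀ + t₂ • (q₀ - p₀) - (p₀ + t₁ • (q₀ - p₀))) =
        p₀ + (t₁ + s * (t₂ - t₁)) • (q₀ - p₀) := by module
    rw [h2, ← hXY]
    have h3 := hgap (t₁ + s * (t₂ - t₁)) (by nlinarith) (by nlinarith)
    rintro (h4 | h4)
    · exact h3.1 h4
    · exact h3.2 h4

end Pool.Agent.Work.MP_552024_lc.PLS
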