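import Pool.Agent.Work.MP_552024_lc.PLS.S4

set_option autoImplicit false

namespace Pool.Agent.Work.MP_552024_lc.PLS

theorem I_JBS (hColS : St_ColS) (hColM : St_ColM) (hColC : St_ColC) (hConnS : St_ConnS)
    (hLocS : St_LocS) (hNoChm : St_NoChm) : St_JBS := by
  intro n hSch E _ _ _ T hd hT
  obtain ⟨A, c, hA, hne, hcl, hinv, hflip⟩ := hColS n hSch E T hd hT
  have hconn := hConnS n E T hT
  obtain ⟨x, hx⟩ := hconn.1
  obtain ⟨M, M', hM, hM', hun, hint, hloc⟩ := hColM E T A c hA hne hcl hinv hflip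
    (hNoChm (n + 1) E T A hd hT hA hcl.inv)
    (fun x hx hx0 => hLocS n hSch E T x hd hT hx hx0) ⟨x, hx.1, hx.2⟩
  exact ⟨M, M', hColC (n + 1) E T M M' hd hM hM' hun hint hloc hconn, hloc⟩

end Pool.Agent.Work.MP_552024_lc.PLS
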