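import Pool.Agent.Work.MP_552024_lc.PLS.S4L

set_option autoImplicit false

/-! The sections of an annulus are circles. -/

namespace Pool.Agent.Work.MP_552024_lc.PLS

namespace ALvCir

variable {E : Type*} [AddCommGroup E] [Module ℚ E]

theorem pol_of_sph {k : ℕ} {T : Set E} (h : Sph k T) : Pol T := by
  obtain ⟨D₁, D₂, U, rfl, -, h1, h2⟩ := h
  exact h1.1.union h2.1

theorem pol_Hl (u v : E →ₗ[ℚ] ℚ) (t : ℚ) : Pol (Hl u v t) := by
  have h := pol_hyperplane (v - t • u)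
  have e : Hl u v t = {x | (v - t • u) x = 0} := by
    ext x
    simp [Hl, sub_eq_zero]
  rw [e]
  exact h

theorem Hl_comb {u v : E →ₗ[ℚ] ℚ} {t : ℚ} {x y : E} (hx : x ∈ Hl u v t) (hy : y ∈ Hl u v t)
    (s : ℚ) : x + s • (y - x) ∈ Hl u v t := by
  change v x = t * u x at hx
  change v y = t * u y at hy
  change v (x + s • (y - x)) = t * u (x + s • (y - x))
  simp only [map_add, map_smul, map_sub, smul_eq_mul, hx, hy]
  ring

end ALvCir

open ALvCir in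
theorem I_LvCir (hCirc : St_Circ) (hLvReg : St_LvReg) (hLvCell : St_LvCell) (hLvRay : St_LvRay)
    (hConnS : St_ConnS) (hClC : St_ClC) : St_LvCir := by
  intro E _ _ _ T u v B L M l c t H N hlt htc
  obtain ⟨hPf, -, hPT, hPF, -, hLne, hFpol⟩ := hLvRay E T u v B L H
  have hTpol : Pol T := pol_of_sph H.sph
  have htL : t ∉ L := by
    intro h
    rcases N.adj.2.2.2 t h with h1 | h1 <;> linarith
  have hMcl : ClA (Bp B L u v) M := hClC E _ T (FF L u v) M hPf hPT hPF hTpol hFpol N.comp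
  have hMinv : InvA (Bp B L u v) M := hMcl.inv
  have hFinv : InvA (Bp B L u v) (FF L u v) := hPF.inv
  have h0F : (0 : E) ∈ FF L u v := hFpol.1
  have hMpol : Pol M := N.comp.pol
  -- points of T on the level t
  have hTt : ∀ z ∈ T, z ∈ Hl u v t → z ≠ 0 → z ∉ FF L u v := by
    rintro z hz hzt hz0 ⟨m, hm, hzm⟩
    have h1 := H.bdd z hz hz0
    have h2 : v z = t * u z := hzt
    have h3 : (t - m) * u z = 0 := by rw [sub_mul, ← h2, ← hzm, sub_self]
    rcases mul_eq_zero.1 h3 with h4 | h4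
    · have : t = m := by linarith
      exact htL (this ▸ hm)
    · exact absurd h4 h1.ne'
  obtain ⟨x1, hx1⟩ := N.comp.nonempty
  obtain ⟨y, hyx, hyt⟩ := hLvCell E T u v B L l c t x1 H N.adj hlt htc (N.gr hx1)
  have hyM : y ∈ M := hMinv _ _ hyx.symm hx1.1
  have hyF : y ∉ FF L u v := fun h => hx1.2 (hFinv _ _ hyx h)
  have hy0 : y ≠ 0 := fun h => hyF (h ▸ h0F)
  have hYpol : Pol (T ∩ Hl u v t) := hTpol.inter (pol_Hl u v t)
  obtain ⟨C, hCY, hCs, hyC, hCg⟩ := hCirc E (T ∩ Hl u v t) u y hYpol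
    (fun x hx h0 => H.bdd x hx.1 h0)
    (fun x hx h0 => hLvReg E T u v B L t x H htL hx.1 h0 hx.2)
    ⟨N.comp.sub hyM, hyt⟩ hy0
  have hCpol : Pol C := pol_of_sph hCs
  have hCc : Conn (C \ {0}) := hConnS 0 E C hCs
  have hCM0 : C \ {0} ⊆ M := by
    refine Comp.sub_of_conn hTpol hFpol N.comp hCc ?_ ⟨y, ⟨hyC, hy0⟩, hyM⟩
    rintro z ⟨hz, hz0⟩
    exact ⟨(hCY hz).1, hTt z (hCY hz).1 (hCY hz).2 hz0⟩
  have hCM : C ⊆ M := by
    intro z hz
    by_cases h0 : z = 0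
    · rw [h0]; exact hMpol.1
    · exact hCM0 ⟨hz, h0⟩
  -- (i)
  have hi : ∀ z ∈ C, z ≠ 0 → z ∉ cl ((T ∩ Hl u v t) \ C) := by
    rintro z hz hz0 (h | ⟨w, hw, K⟩)
    · exact hz0 h
    · have h1 : w - z ∈ Tg z (T ∩ Hl u v t) := ⟨1, one_pos, fun s h0 h1 => (K s h0 h1).1⟩
      rw [← hCg z hz hz0] at h1
      obtain ⟨ε, hε, K'⟩ := h1
      exact (K (min ε 1) (lt_min hε one_pos) (min_le_right _ _)).2
        (K' (min ε 1) (lt_min hε one_pos) (min_le_left _ _))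
  have hKY : ∀ x ∈ M \ FF L u v, ∀ z, SameSign (Bp B L u v) z x → z ∈ Hl u v t →
      z ∈ T ∩ Hl u v t ∧ z ≠ 0 := by
    intro x hx z hz hzt
    have h1 : z ∈ M := hMinv _ _ hz.symm hx.1
    have h2 : z ∉ FF L u v := fun h => hx.2 (hFinv _ _ hz h)
    exact ⟨⟨N.comp.sub h1, hzt⟩, fun h => h2 (h ▸ h0F)⟩
  have hKne : ∀ x ∈ M \ FF L u v, ∃ z, SameSign (Bp B L u v) z x ∧ z ∈ Hl u v t :=
    fun x hx => hLvCell E T u v B L l c t x H N.adj hlt htc (N.gr hx)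
  -- (ii)
  have hii : ∀ x ∈ M \ FF L u v, ∀ z, SameSign (Bp B L u v) z x → z ∈ C →
      ∀ w, SameSign (Bp B L u v) w x → w ∈ Hl u v t → w ∈ C := by
    intro x hx z hz hzC w hw hwt
    have hconn : Conn ({z | SameSign (Bp B L u v) z x} ∩ Hl u v t) := by
      refine conn_of_convex ⟨w, hw, hwt⟩ ?_
      rintro a ⟨ha, hat⟩ b ⟨hb, hbt⟩ s hs0 hs1
      refine ⟨?_, Hl_comb hat hbt s⟩
      rcases hs0.eq_or_lt with h0 | h0
      · subst h0
        rw [zero_smul, add_zero]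
        exact ha
      · exact (sameSign_segment (ha.trans hb.symm).mem_face h0 hs1).trans hb
    rcases hconn.2 C (cl ((T ∩ Hl u v t) \ C)) hCpol (hYpol.con.diff hCpol.con).pol_cl
      (by
        rintro a ⟨ha, hat⟩
        by_cases haC : a ∈ C
        · exact Or.inl haC
        · exact Or.inr (subset_cl _ ⟨(hKY x hx a ha hat).1, haC⟩))
      (by
        rintro a ⟨ha, hat⟩ haC
        exact hi a haC (hKY x hx a ha hat).2) with h1 | h1
    · exact h1 ⟨hw, hwt⟩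
    · exact absurd (h1 ⟨hz, (hCY hzC).2⟩) (hi z hzC (hKY x hx z hz (hCY hzC).2).2)
  -- (iii)
  have hiii : ∀ x ∈ M \ FF L u v, ∀ x' ∈ M \ FF L u v, x' ∈ face (Bp B L u v) x →
      ((∃ z ∈ C, SameSign (Bp B L u v) z x) ↔ (∃ z ∈ C, SameSign (Bp B L u v) z x')) := by
    intro x hx x' hx' hf
    obtain ⟨d, hd, hdt⟩ := hKne x hx
    obtain ⟨z', hz', hzt'⟩ := hKne x' hx'
    have hseg : ∀ s : ℚ, 0 < s → s ≤ 1 →
        SameSign (Bp B L u v) (z' + s • (d - z')) x ∧ z' + s • (d - z') ∈ Hl u v t := by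
      intro s h0 h1
      have hf' : z' ∈ face (Bp B L u v) d :=
        face_trans hz'.mem_face (face_trans hf hd.symm.mem_face)
      exact ⟨(sameSign_segment hf' h0 h1).trans hd, Hl_comb hzt' hdt s⟩
    constructor
    · rintro ⟨z, hzC, hz⟩
      refine ⟨z', ?_, hz'⟩
      have h1 : z' ∈ cl C := Or.inr ⟨d, hii x hx z hz hzC d hd hdt, fun s h0 h1 =>
        hii x hx z hz hzC _ (hseg s h0 h1).1 (hseg s h0 h1).2⟩
      rwa [hCpol.cl_eq] at h1
    · rintro ⟨z, hzC, hz⟩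
      have hz'C : z' ∈ C := hii x' hx' z hz hzC z' hz' hzt'
      by_contra hcon
      push Not at hcon
      refine hi z' hz'C (hKY x' hx' z' hz' hzt').2 (Or.inr ⟨d, ?_, ?_⟩)
      · exact ⟨(hKY x hx d hd hdt).1, fun hdC => hcon d hdC hd⟩
      · intro s h0 h1
        exact ⟨(hKY x hx _ (hseg s h0 h1).1 (hseg s h0 h1).2).1,
          fun hC => hcon _ hC (hseg s h0 h1).1⟩
  -- the clopen set
  set U : Set E := {x | x ∈ M \ FF L u v ∧ ∃ z ∈ C, SameSign (Bp B L u v) z x} with hU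
  have hUinv : InvA (Bp B L u v) U := by
    rintro a b hab ⟨ha, z, hz, hza⟩
    exact ⟨⟨hMinv _ _ hab ha.1, fun h => ha.2 (hFinv _ _ hab.symm h)⟩, z, hz, hza.trans hab⟩
  have hMFinv : InvA (Bp B L u v) (M \ FF L u v) := hMinv.diff hFinv
  have hVinv : InvA (Bp B L u v) ((M \ FF L u v) \ U) := hMFinv.diff hUinv
  have hclU : ∀ x ∈ M \ FF L u v, x ∈ cl U → x ∈ U := by
    intro x hx hxc
    rw [mem_cl_iff hPf hUinv] at hxc
    rcases hxc with h | ⟨y1, hy1, hf⟩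
    · exact absurd (h ▸ h0F) hx.2
    · exact ⟨hx, (hiii y1 hy1.1 x hx hf).1 hy1.2⟩
  have hclV : ∀ x ∈ M \ FF L u v, x ∈ cl ((M \ FF L u v) \ U) → x ∉ U := by
    intro x hx hxc hxU
    rw [mem_cl_iff hPf hVinv] at hxc
    rcases hxc with h | ⟨y1, hy1, hf⟩
    · exact absurd (h ▸ h0F) hx.2
    · exact hy1.2 ⟨hy1.1, (hiii y1 hy1.1 x hx hf).2 hxU.2⟩
  have hall : M \ FF L u v ⊆ U := by
    rcases N.comp.conn.2 (cl U) (cl ((M \ FF L u v) \ U)) (hUinv.con hPf).pol_cl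
      (hVinv.con hPf).pol_cl
      (by
        intro x hx
        by_cases hxU : x ∈ U
        · exact Or.inl (subset_cl _ hxU)
        · exact Or.inr (subset_cl _ ⟨hx, hxU⟩))
      (fun x hx h1 h2 => hclV x hx h2 (hclU x hx h1)) with h1 | h1
    · exact fun x hx => hclU x hx (h1 hx)
    · exact absurd ⟨hx1, y, hyC, hyx⟩ (hclV x1 hx1 (h1 hx1))
  have heq : M ∩ Hl u v t = C := by
    apply subset_antisymm
    · rintro z ⟨hz, hzt⟩
      by_cases h0 : z = 0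
      · rw [h0]; exact hCpol.1
      · have hzF := hTt z (N.comp.sub hz) hzt h0
        obtain ⟨-, w, hw, hwz⟩ := hall ⟨hz, hzF⟩
        exact hii z ⟨hz, hzF⟩ w hwz hw z (fun _ _ => rfl) hzt
    · exact fun z hz => ⟨hCM hz, (hCY hz).2⟩
  rw [heq]
  exact hCs

end Pool.Agent.Work.MP_552024_lc.PLS
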