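import Pool.Agent.Work.MP_552024_lc.PLS.S4X

set_option autoImplicit false

namespace Pool.Agent.Work.MP_552024_lc.PLS

namespace AMain4

open SignType

variable {E : Type} [AddCommGroup E] [Module ℚ E]

theorem sph_pol {k : ℕ} {T : Set E} (h : Sph k T) : Pol T := by
  obtain ⟨D₁, D₂, U, rfl, _, h₁, h₂⟩ := h
  exact h₁.1.union h₂.1

/-- A finite pointed arrangement for which `T` is a union of faces. -/
theorem arr [FiniteDimensional ℚ E] {T : Set E} (hT : Pol T) :
    ∃ A : Set (E →ₗ[ℚ] ℚ), A.Finite ∧ ClA A T ∧ Spn A := by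
  obtain ⟨A₀, hA₀, hcl⟩ := hT.exists_cl
  obtain ⟨B, hB, hsp⟩ := exists_pointed E
  refine ⟨A₀ ∪ B, hA₀.union hB, hcl.mono Set.subset_union_left, ?_⟩
  intro x hx
  exact hsp x (fun a ha => hx a (Or.inr ha))

theorem face_ray {A : Set (E →ₗ[ℚ] ℚ)} (hs : Spn A) {r x : E} (hr : Ray A r)
    (hx : x ∈ face A r) : x ∈ ray r := by
  obtain ⟨c, hc⟩ := hr.2 x (fun a ha h0 => by
    rcases hx a ha with h | h
    · exact h
    · rw [h0, sign_zero, sign_eq_zero_iff] at h; exact h)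
  refine ⟨c, ?_, hc⟩
  by_contra hneg
  have hneg : c < 0 := not_le.1 hneg
  refine hr.1 (hs r (fun a ha => ?_))
  have e : a x = c * a r := by rw [hc, map_smul, smul_eq_mul]
  rcases hx a ha with h | h
  · rw [e] at h
    exact (mul_eq_zero.1 h).resolve_left hneg.ne
  · rw [e, sign_mul, sign_neg hneg] at h
    by_contra h0
    rcases lt_or_gt_of_ne h0 with h1 | h1
    · rw [sign_neg h1] at h; exact absurd h (by decide)
    · rw [sign_pos h1] at h; exact absurd h (by decide)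

theorem sign_ray {A : Set (E →ₗ[ℚ] ℚ)} {r x : E} (hx : x ∈ ray r) (h0 : x ≠ 0) :
    SameSign A r x := by
  obtain ⟨c, hc, rfl⟩ := hx
  have hc : 0 < c := by
    rcases hc.eq_or_lt with h | h
    · exact absurd (by rw [← h, zero_smul]) h0
    · exact h
  intro a _
  rw [map_smul, smul_eq_mul, sign_mul, sign_pos hc, one_mul]

/-- Representatives of the edges in `T`. -/
theorem reps {A : Set (E →ₗ[ℚ] ℚ)} (hA : A.Finite) (hs : Spn A) (T : Set E) :
    ∃ W : Set E, W.Finite ∧ (∀ y ∈ W, y ∈ T ∧ Ray A y) ∧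
      (∀ y ∈ W, ∀ y' ∈ W, y' ∈ ray y → y' = y) ∧
      ∀ x ∈ T, Ray A x → ∃ y ∈ W, x ∈ ray y := by
  classical
  have : Finite A := hA
  let φ : E → (A → SignType) := fun y a => sign (a.1 y)
  obtain ⟨W, hW, hbij⟩ := Set.exists_subset_bijOn {x | x ∈ T ∧ Ray A x} φ
  refine ⟨W, Set.Finite.of_injOn hbij.mapsTo hbij.injOn (Set.toFinite _), hW, ?_, ?_⟩
  · intro y hy y' hy' h
    have hss : SameSign A y y' := sign_ray h (hW hy').2.1
    exact hbij.injOn hy' hy (funext fun a => (hss a.1 a.2).symm)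
  · intro x hx hr
    obtain ⟨b, hb, hbx⟩ := hbij.surjOn ⟨x, ⟨hx, hr⟩, rfl⟩
    refine ⟨b, hb, face_ray hs (hW hb).2 ?_⟩
    have hss : SameSign A x b := fun a ha => (congrFun hbx ⟨a, ha⟩).symm
    exact hss.mem_face

end AMain4

theorem I_Main4 (hGenV : St_GenV) (hNH : St_NH) (hPPgen : St_PPgen) (hBox : St_Box)
    (hBxT : St_BxT) (hLvMain : St_LvMain) (hSchA2 : St_SchA2) : St_Main4 := by
  intro E _ _ _ T u hdim hT hu
  obtain ⟨B, hB, hcl, hspn⟩ := AMain4.arr (AMain4.sph_pol hT)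
  obtain ⟨v, hv, hgen⟩ := hGenV E B u hdim hB hspn
  obtain ⟨W₀, hW₀, h1, h2, h3⟩ := AMain4.reps hB hspn T
  have key : ∀ W : Set E, W.Finite → (∀ y ∈ W, y ∈ T ∧ Ray B y) →
      (∀ y ∈ W, ∀ y' ∈ W, y' ∈ ray y → y' = y) →
      ∀ T' : Set E, Sph 3 T' → Bdd u T' → (∀ y ∈ W, y ∈ T' ∧ Tg y T' = Tg y T) →
      (∀ x ∈ T', x ≠ 0 → (∃ y ∈ W, x ∈ ray y) ∨ PP (Tg x T') (lev u v x)) → Std 4 T' := by
    intro W hW
    induction W, hW using Set.Finite.induction_on with
    | empty =>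
      intro _ _ T' hT' hu' _ hx
      refine hLvMain E T' u v hdim hT' hu' hv (fun x hxT h0 => ?_)
      rcases hx x hxT h0 with ⟨y, hy, _⟩ | h
      · exact absurd hy (Set.notMem_empty y)
      · exact h
    | insert hw hWf ih =>
      rename_i w W'
      intro hr hd T' hT' hu' hloc hx
      have hwi : w ∈ insert w W' := Set.mem_insert w W'
      have hH := hNH E T B u v w hdim hT hu hB hspn hcl hv hgen (hr w hwi).1 (hr w hwi).2
      have hH' := hBxT E T T' u v w (At B w) hH hT' hu' (hloc w hwi).1 (hloc w hwi).2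
      obtain ⟨T'', s1, s2, s3, s4, s5⟩ := hBox E T' u v w (At B w) W' hSchA2 hH' hWf
        (fun y hy => by
          have hyi : y ∈ insert w W' := Set.mem_insert_of_mem w hy
          refine ⟨(hloc y hyi).1, (hr y hyi).2.1, fun h => ?_⟩
          have := hd w hwi y hyi h
          exact hw (this ▸ hy))
      refine s3 (ih (fun y hy => hr y (Set.mem_insert_of_mem w hy))
        (fun y hy y' hy' => hd y (Set.mem_insert_of_mem w hy) y' (Set.mem_insert_of_mem w hy'))
        T'' s1 s2 (fun y hy => ⟨(s4 y hy).1, (s4 y hy).2.trans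
          (hloc y (Set.mem_insert_of_mem w hy)).2⟩) (fun x hxT h0 => ?_))
      rcases s5 x hxT h0 with ⟨a1, a2, a3⟩ | h
      · rcases hx x a1 h0 with ⟨y, hy, hxy⟩ | h
        · rcases Set.mem_insert_iff.1 hy with rfl | hy
          · exact absurd hxy a2
          · exact Or.inl ⟨y, hy, hxy⟩
        · rw [a3]
          exact Or.inr h
      · exact Or.inr h
  refine key W₀ hW₀ h1 h2 T hT hu (fun y hy => ⟨(h1 y hy).1, rfl⟩) (fun x hx h0 => ?_)
  by_cases hr : Ray B x
  · exact Or.inl (h3 x hx hr)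
  · exact Or.inr (hPPgen E T B u v x hdim hT hu hB hspn hcl hgen hx h0 hr)

end Pool.Agent.Work.MP_552024_lc.PLS
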