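import Pool.Agent.Work.MP_552024_lc.PLS.S4L

set_option autoImplicit false

/-! Item P1T: a sphere of the class `Cl1` without full annuli lies around one special level. -/

namespace Pool.Agent.Work.MP_552024_lc.PLS

namespace AP1T

section Fin

/-- The predecessor of `l` in a finite set with an element below `l`. -/
theorem exists_pred {L : Set ℚ} (hL : L.Finite) {l m : ℚ} (hl : l ∈ L) (hm : m ∈ L) (h : m < l) :
    ∃ l', Adj L l' l ∧ m ≤ l' := by
  have hfin : {a | a ∈ L ∧ a < l}.Finite := hL.subset (fun a ha => ha.1)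
  obtain ⟨a, ha, hmax⟩ := Set.exists_max_image {a | a ∈ L ∧ a < l} id hfin ⟨m, hm, h⟩
  refine ⟨a, ⟨ha.1, hl, ha.2, fun b hb => ?_⟩, hmax m ⟨hm, h⟩⟩
  rcases lt_or_ge b l with h1 | h1
  · exact Or.inl (hmax b ⟨hb, h1⟩)
  · exact Or.inr h1

/-- The successor of `l` in a finite set with an element above `l`. -/
theorem exists_succ {L : Set ℚ} (hL : L.Finite) {l m : ℚ} (hl : l ∈ L) (hm : m ∈ L) (h : l < m) :
    ∃ c, Adj L l c ∧ c ≤ m := by
  have hfin : {a | a ∈ L ∧ l < a}.Finite := hL.subset (fun a ha => ha.1)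
  obtain ⟨a, ha, hmin⟩ := Set.exists_min_image {a | a ∈ L ∧ l < a} id hfin ⟨m, hm, h⟩
  refine ⟨a, ⟨hl, ha.1, ha.2, fun b hb => ?_⟩, hmin m ⟨hm, h⟩⟩
  rcases lt_or_ge l b with h1 | h1
  · exact Or.inr (hmin b ⟨hb, h1⟩)
  · exact Or.inl h1

/-- Overlapping gaps are equal. -/
theorem adj_eq {L : Set ℚ} {l c l' c' t : ℚ} (h : Adj L l c) (h' : Adj L l' c') (h1 : l < t)
    (h2 : t < c) (h3 : l' < t) (h4 : t < c') : l = l' ∧ c = c' := by
  obtain ⟨hl, hc, hlc, H⟩ := h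
  obtain ⟨hl', hc', hlc', H'⟩ := h'
  constructor
  · apply le_antisymm
    · rcases H' l hl with h5 | h5
      · exact h5
      · linarith
    · rcases H l' hl' with h5 | h5
      · exact h5
      · linarith
  · apply le_antisymm
    · rcases H c' hc' with h5 | h5
      · linarith
      · exact h5
    · rcases H' c hc with h5 | h5
      · linarith
      · exact h5

/-- A value between two finite sets inside a gap. -/
theorem exists_free {l c : ℚ} (hlc : l < c) {α : Type*} {Us Ds : Set (α × ℚ)} (hU : Us.Finite)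
    (hD : Ds.Finite)
    (ord : ∀ p ∈ Us, ∀ q ∈ Ds, l < p.2 → p.2 < c → l < q.2 → q.2 < c → p.2 < q.2) :
    ∃ t, l < t ∧ t < c ∧ (∀ p ∈ Us, l < p.2 → p.2 < c → p.2 < t) ∧
      (∀ p ∈ Ds, l < p.2 → p.2 < c → t < p.2) := by
  classical
  have hA : (insert l {a | l < a ∧ a < c ∧ ∃ p ∈ Us, p.2 = a}).Finite := by
    refine Set.Finite.insert _ ((hU.image Prod.snd).subset ?_)
    rintro a ⟨_, _, p, hp, rfl⟩
    exact ⟨p, hp, rfl⟩
  have hB : (insert c {a | l < a ∧ a < c ∧ ∃ p ∈ Ds, p.2 = a}).Finite := by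
    refine Set.Finite.insert _ ((hD.image Prod.snd).subset ?_)
    rintro a ⟨_, _, p, hp, rfl⟩
    exact ⟨p, hp, rfl⟩
  obtain ⟨t, h1, h2⟩ := Order.exists_between_finsets hA.toFinset hB.toFinset (by
    intro x hx y hy
    rw [Set.Finite.mem_toFinset] at hx hy
    rcases hx with rfl | ⟨hx1, hx2, p, hp, hpx⟩
    · rcases hy with rfl | ⟨hy1, _, _⟩
      · exact hlc
      · exact hy1
    · rcases hy with rfl | ⟨hy1, hy2, q, hq, hqy⟩
      · exact hx2
      · have := ord p hp q hq (by rw [hpx]; exact hx1) (by rw [hpx]; exact hx2)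
          (by rw [hqy]; exact hy1) (by rw [hqy]; exact hy2)
        rwa [hpx, hqy] at this)
  refine ⟨t, h1 l (by rw [Set.Finite.mem_toFinset]; exact Or.inl rfl),
    h2 c (by rw [Set.Finite.mem_toFinset]; exact Or.inl rfl), fun p hp h3 h4 => ?_,
    fun p hp h3 h4 => ?_⟩
  · exact h1 _ (by rw [Set.Finite.mem_toFinset]; exact Or.inr ⟨h3, h4, p, hp, rfl⟩)
  · exact h2 _ (by rw [Set.Finite.mem_toFinset]; exact Or.inr ⟨h3, h4, p, hp, rfl⟩)

end Fin

theorem sph_pol {E : Type*} [AddCommGroup E] [Module ℚ E] {k : ℕ} {T : Set E} (h : Sph k T) :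
    Pol T := by
  obtain ⟨D₁, D₂, U, rfl, _, h1, h2⟩ := h
  exact h1.1.union h2.1

theorem pol_le {E : Type*} [AddCommGroup E] [Module ℚ E] (u v : E →ₗ[ℚ] ℚ) (t : ℚ) :
    Pol {x | v x ≤ t * u x} := by
  have h := pol_halfspace (t • u - v)
  convert h using 1
  ext x
  simp only [Set.mem_ofPred_eq, LinearMap.sub_apply, LinearMap.smul_apply, smul_eq_mul,
    sub_nonneg]

theorem pol_ge {E : Type*} [AddCommGroup E] [Module ℚ E] (u v : E →ₗ[ℚ] ℚ) (t : ℚ) :
    Pol {x | t * u x ≤ v x} := by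
  have h := pol_halfspace (v - t • u)
  convert h using 1
  ext x
  simp only [Set.mem_ofPred_eq, LinearMap.sub_apply, LinearMap.smul_apply, smul_eq_mul,
    sub_nonneg]

end AP1T

theorem I_P1T (hLvPc : St_LvPc) (hLvLim : St_LvLim) (hConnS : St_ConnS) : St_P1T := by
  intro E _ _ _ T₀ u v B L T Us Ds hLv h1
  have hTpol : Pol T := AP1T.sph_pol h1.sph
  have hTconn : Conn (T \ {0}) := hConnS 1 E T h1.sph
  have hpos : ∀ x ∈ T, x ≠ 0 → 0 < u x := fun x hx hx0 => h1.bdd x hx hx0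
  -- the pieces are in `T` off `FF`
  have hUpT : ∀ p ∈ Us, ∀ x ∈ Up u v (FF L u v) p.1 p.2, x ∈ T \ FF L u v := fun p hp x hx =>
    (h1.cov x).2 (Or.inr (Or.inl ⟨p, hp, hx⟩))
  have hDnT : ∀ p ∈ Ds, ∀ x ∈ Dn u v (FF L u v) p.1 p.2, x ∈ T \ FF L u v := fun p hp x hx =>
    (h1.cov x).2 (Or.inr (Or.inr ⟨p, hp, hx⟩))
  have h0FF : ∀ l ∈ L, (0 : E) ∈ FF L u v := fun l hl => ⟨l, hl, by simp⟩
  -- levels of the pieces
  have hUpL : ∀ p ∈ Us, ∀ l c, AnnH T₀ u v L p.1 l c → l < p.2 → p.2 < c →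
      ∀ x ∈ Up u v (FF L u v) p.1 p.2, l * u x < v x ∧ v x ≤ p.2 * u x :=
    fun p hp l c ha hl hc x hx => (hLvPc E T₀ u v B L p.1 l c p.2 hLv ha hl hc).2.2.1 hx
  have hDnL : ∀ p ∈ Ds, ∀ l c, AnnH T₀ u v L p.1 l c → l < p.2 → p.2 < c →
      ∀ x ∈ Dn u v (FF L u v) p.1 p.2, p.2 * u x ≤ v x ∧ v x < c * u x :=
    fun p hp l c ha hl hc x hx => (hLvPc E T₀ u v B L p.1 l c p.2 hLv ha hl hc).2.2.2.1 hx
  -- free levels
  have hfree : ∀ l c, Adj L l c → ∃ t, l < t ∧ t < c ∧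
      (∀ p ∈ Us, l < p.2 → p.2 < c → p.2 < t) ∧ (∀ p ∈ Ds, l < p.2 → p.2 < c → t < p.2) ∧
      ((∀ x ∈ T, x ≠ 0 → v x < t * u x) ∨ (∀ x ∈ T, x ≠ 0 → t * u x < v x)) := by
    intro l c hlc
    obtain ⟨t, ht1, ht2, htU, htD⟩ := AP1T.exists_free hlc.2.2.1 h1.finU h1.finD
      (fun p hp q hq h2 h3 h4 h5 => h1.ord p hp q hq l c hlc h2 h3 h4 h5)
    refine ⟨t, ht1, ht2, htU, htD, ?_⟩
    have hno : ∀ x ∈ T, x ≠ 0 → v x ≠ t * u x := by
      intro x hx hx0 hvx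
      have hux := hpos x hx hx0
      have hxF : x ∉ FF L u v := by
        rintro ⟨m, hm, hvm⟩
        have hmt : m = t := by
          have : m * u x = t * u x := by rw [← hvm, hvx]
          exact mul_right_cancel₀ hux.ne' this
        rcases hlc.2.2.2 m hm with h2 | h2 <;> linarith
      rcases (h1.cov x).1 ⟨hx, hxF⟩ with ⟨M, hM, _⟩ | ⟨p, hp, hxp⟩ | ⟨p, hp, hxp⟩
      · exact hM
      · obtain ⟨l', c', ha, hl', hc'⟩ := h1.hU p hp
        obtain ⟨h3, h4⟩ := hUpL p hp l' c' ha hl' hc' x hxp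
        rw [hvx] at h3 h4
        have h5 : l' < t := lt_of_mul_lt_mul_right h3 hux.le
        have h6 : t ≤ p.2 := le_of_mul_le_mul_right h4 hux
        obtain ⟨rfl, rfl⟩ := AP1T.adj_eq hlc ha.adj ht1 ht2 h5 (by linarith)
        have := htU p hp hl' hc'
        linarith
      · obtain ⟨l', c', ha, hl', hc'⟩ := h1.hD p hp
        obtain ⟨h3, h4⟩ := hDnL p hp l' c' ha hl' hc' x hxp
        rw [hvx] at h3 h4
        have h5 : t < c' := lt_of_mul_lt_mul_right h4 hux.le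
        have h6 : p.2 ≤ t := le_of_mul_le_mul_right h3 hux
        obtain ⟨rfl, rfl⟩ := AP1T.adj_eq hlc ha.adj ht1 ht2 (by linarith) h5
        have := htD p hp hl' hc'
        linarith
    rcases hTconn.2 _ _ (AP1T.pol_le u v t) (AP1T.pol_ge u v t)
      (fun x _ => (le_total (v x) (t * u x)).imp id id)
      (fun x hx h2 h3 => hno x hx.1 (fun h => hx.2 h) (le_antisymm h2 h3)) with h2 | h2
    · left
      intro x hx hx0
      exact lt_of_le_of_ne (h2 ⟨hx, hx0⟩) (hno x hx hx0)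
    · right
      intro x hx hx0
      exact lt_of_le_of_ne (h2 ⟨hx, hx0⟩) (hno x hx hx0).symm
  -- two points of `T` on different sides of a gap
  have hsep : ∀ l c, Adj L l c → ∀ x ∈ T, x ≠ 0 → ∀ y ∈ T, y ≠ 0 → v x ≤ l * u x →
      c * u y ≤ v y → False := by
    intro l c hlc x hx hx0 y hy hy0 hvx hvy
    obtain ⟨t, ht1, ht2, -, -, h2⟩ := hfree l c hlc
    have hux := hpos x hx hx0
    have huy := hpos y hy hy0
    rcases h2 with h2 | h2
    · have h3 := h2 y hy hy0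
      have h4 : t * u y < c * u y := mul_lt_mul_of_pos_right ht2 huy
      linarith
    · have h3 := h2 x hx hx0
      have h4 : l * u x < t * u x := mul_lt_mul_of_pos_right ht1 hux
      linarith
  -- a point of `T` of special level
  obtain ⟨x0, hx0T, hx00, m, hmL, hvx0⟩ : ∃ x0 ∈ T, x0 ≠ 0 ∧ ∃ m ∈ L, v x0 = m * u x0 := by
    rcases Set.eq_empty_or_nonempty Us with hUe | ⟨p, hp⟩
    · rcases Set.eq_empty_or_nonempty Ds with hDe | ⟨p, hp⟩
      · obtain ⟨x, hx⟩ := hTconn.1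
        by_cases hxF : x ∈ FF L u v
        · exact ⟨x, hx.1, fun h => hx.2 h, hxF⟩
        · exfalso
          rcases (h1.cov x).1 ⟨hx.1, hxF⟩ with ⟨M, hM, _⟩ | ⟨p, hp, _⟩ | ⟨p, hp, _⟩
          · exact hM
          · rw [hUe] at hp; exact hp
          · rw [hDe] at hp; exact hp
      · obtain ⟨l, c, ha, hl, hc⟩ := h1.hD p hp
        obtain ⟨x, hx⟩ := (hLvLim E T₀ u v B L p.1 l c hLv ha).2.1
        have h2 := (hLvPc E T₀ u v B L p.1 l c p.2 hLv ha hl hc).2.2.2.2.2.1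
        have h3 : x ∈ cl (Dn u v (FF L u v) p.1 p.2) := by rw [h2]; exact Or.inr hx.1
        exact ⟨x, hTpol.cl_subset (fun y hy => (hDnT p hp y hy).1) h3, fun h => hx.2 h, c,
          ha.adj.2.1, hx.1.2⟩
    · obtain ⟨l, c, ha, hl, hc⟩ := h1.hU p hp
      obtain ⟨x, hx⟩ := (hLvLim E T₀ u v B L p.1 l c hLv ha).1.1
      have h2 := (hLvPc E T₀ u v B L p.1 l c p.2 hLv ha hl hc).2.2.2.2.1
      have h3 : x ∈ cl (Up u v (FF L u v) p.1 p.2) := by rw [h2]; exact Or.inr hx.1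
      exact ⟨x, hTpol.cl_subset (fun y hy => (hUpT p hp y hy).1) h3, fun h => hx.2 h, l,
        ha.adj.1, hx.1.2⟩
  have hux0 := hpos x0 hx0T hx00
  -- nonempty pieces
  have hUpN : ∀ p ∈ Us, ∀ l c, AnnH T₀ u v L p.1 l c → l < p.2 → p.2 < c →
      ∃ y ∈ T, y ≠ 0 ∧ l * u y < v y ∧ v y ≤ p.2 * u y := by
    intro p hp l c ha hl hc
    obtain ⟨y, hy⟩ := (hLvPc E T₀ u v B L p.1 l c p.2 hLv ha hl hc).1.1
    refine ⟨y, (hUpT p hp y hy).1, ?_, hUpL p hp l c ha hl hc y hy⟩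
    rintro rfl
    exact (hUpT p hp 0 hy).2 (h0FF m hmL)
  have hDnN : ∀ p ∈ Ds, ∀ l c, AnnH T₀ u v L p.1 l c → l < p.2 → p.2 < c →
      ∃ y ∈ T, y ≠ 0 ∧ p.2 * u y ≤ v y ∧ v y < c * u y := by
    intro p hp l c ha hl hc
    obtain ⟨y, hy⟩ := (hLvPc E T₀ u v B L p.1 l c p.2 hLv ha hl hc).2.1.1
    refine ⟨y, (hDnT p hp y hy).1, ?_, hDnL p hp l c ha hl hc y hy⟩
    rintro rfl
    exact (hDnT p hp 0 hy).2 (h0FF m hmL)
  -- the gaps of the pieces are adjacent to `m`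
  have hUm : ∀ p ∈ Us, ∀ l c, AnnH T₀ u v L p.1 l c → l < p.2 → p.2 < c → l = m := by
    intro p hp l c ha hl hc
    obtain ⟨y, hyT, hy0, hy1, hy2⟩ := hUpN p hp l c ha hl hc
    have huy := hpos y hyT hy0
    rcases ha.adj.2.2.2 m hmL with h2 | h2
    · rcases h2.eq_or_lt with h3 | h3
      · exact h3.symm
      · exfalso
        obtain ⟨l', hl', hml'⟩ := AP1T.exists_pred hLv.lam ha.adj.1 hmL h3
        refine hsep l' l hl' x0 hx0T hx00 y hyT hy0 ?_ hy1.le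
        rw [hvx0]
        exact mul_le_mul_of_nonneg_right hml' hux0.le
    · exfalso
      obtain ⟨t, ht1, ht2, htU, -, h3⟩ := hfree l c ha.adj
      have h4 := htU p hp hl hc
      rcases h3 with h3 | h3
      · have h5 := h3 x0 hx0T hx00
        rw [hvx0] at h5
        have h6 : m < t := lt_of_mul_lt_mul_right h5 hux0.le
        linarith
      · have h5 := h3 y hyT hy0
        have h6 : p.2 * u y < t * u y := mul_lt_mul_of_pos_right h4 huy
        linarith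
  have hDm : ∀ p ∈ Ds, ∀ l c, AnnH T₀ u v L p.1 l c → l < p.2 → p.2 < c → c = m := by
    intro p hp l c ha hl hc
    obtain ⟨y, hyT, hy0, hy1, hy2⟩ := hDnN p hp l c ha hl hc
    have huy := hpos y hyT hy0
    rcases ha.adj.2.2.2 m hmL with h2 | h2
    · exfalso
      obtain ⟨t, ht1, ht2, -, htD, h3⟩ := hfree l c ha.adj
      have h4 := htD p hp hl hc
      rcases h3 with h3 | h3
      · have h5 := h3 y hyT hy0
        have h6 : t * u y < p.2 * u y := mul_lt_mul_of_pos_right h4 huy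
        linarith
      · have h5 := h3 x0 hx0T hx00
        rw [hvx0] at h5
        have h6 : t < m := lt_of_mul_lt_mul_right h5 hux0.le
        linarith
    · rcases h2.eq_or_lt with h3 | h3
      · exact h3
      · exfalso
        obtain ⟨c', hc', hmc'⟩ := AP1T.exists_succ hLv.lam ha.adj.2.1 hmL h3
        refine hsep c c' hc' y hyT hy0 x0 hx0T hx00 hy2.le ?_
        rw [hvx0]
        exact mul_le_mul_of_nonneg_right hmc' hux0.le
  -- no other special level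
  have hlev : ∀ x ∈ T, x ≠ 0 → x ∈ FF L u v → v x = m * u x := by
    rintro x hx hx0 ⟨m', hm', hvx⟩
    have hux := hpos x hx hx0
    rcases lt_trichotomy m' m with h2 | h2 | h2
    · exfalso
      obtain ⟨l', hl', hml'⟩ := AP1T.exists_pred hLv.lam hmL hm' h2
      refine hsep l' m hl' x hx hx0 x0 hx0T hx00 ?_ hvx0.ge
      rw [hvx]
      exact mul_le_mul_of_nonneg_right hml' hux.le
    · rw [hvx, h2]
    · exfalso
      obtain ⟨c', hc', hmc'⟩ := AP1T.exists_succ hLv.lam hmL hm' h2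
      refine hsep m c' hc' x0 hx0T hx00 x hx hx0 hvx0.le ?_
      rw [hvx]
      exact mul_le_mul_of_nonneg_right hmc' hux.le
  have hHF : ∀ x, x ∈ Hl u v m → x ∈ FF L u v := fun x hx => ⟨m, hmL, hx⟩
  have hUlt : ∀ p ∈ Us, m < p.2 ∧ ∃ c, AnnH T₀ u v L p.1 m c ∧ m < p.2 ∧ p.2 < c := by
    intro p hp
    obtain ⟨l, c, ha, hl, hc⟩ := h1.hU p hp
    obtain rfl := hUm p hp l c ha hl hc
    exact ⟨hl, c, ha, hl, hc⟩
  have hDlt : ∀ p ∈ Ds, p.2 < m ∧ ∃ l, AnnH T₀ u v L p.1 l m ∧ l < p.2 ∧ p.2 < m := by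
    intro p hp
    obtain ⟨l, c, ha, hl, hc⟩ := h1.hD p hp
    obtain rfl := hDm p hp l c ha hl hc
    exact ⟨hc, l, ha, hl, hc⟩
  -- which pieces occur
  have hPcU : ∀ p ∈ Us ∪ Ds, m < p.2 → p ∈ Us := by
    rintro p (hp | hp) h2
    · exact hp
    · exact absurd h2 (not_lt.2 (hDlt p hp).1.le)
  have hPcD : ∀ p ∈ Us ∪ Ds, p.2 < m → p ∈ Ds := by
    rintro p (hp | hp) h2
    · exact absurd h2 (not_lt.2 (hUlt p hp).1.le)
    · exact hp
  have hUpm : ∀ p ∈ Us, ∀ x ∈ Up u v (FF L u v) p.1 p.2, m * u x < v x := by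
    intro p hp x hx
    obtain ⟨_, c, ha, hl, hc⟩ := hUlt p hp
    exact (hUpL p hp m c ha hl hc x hx).1
  have hDnm : ∀ p ∈ Ds, ∀ x ∈ Dn u v (FF L u v) p.1 p.2, v x < m * u x := by
    intro p hp x hx
    obtain ⟨_, l, ha, hl, hc⟩ := hDlt p hp
    exact (hDnL p hp l m ha hl hc x hx).2
  refine ⟨m, Us ∪ Ds, ⟨h1.sph, h1.bdd, hmL, h1.finU.union h1.finD, ?_, ?_, ?_, ?_, ?_⟩⟩
  · rintro p (hp | hp)
    · exact Or.inl (hUlt p hp).2
    · exact Or.inr (hDlt p hp).2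
  · intro x
    constructor
    · rintro ⟨hxT, hxH⟩
      have hx0 : x ≠ 0 := by
        rintro rfl
        apply hxH
        show v 0 = m * u 0
        simp
      have hxF : x ∉ FF L u v := fun h => hxH (hlev x hxT hx0 h)
      rcases (h1.cov x).1 ⟨hxT, hxF⟩ with ⟨M, hM, _⟩ | ⟨p, hp, hxp⟩ | ⟨p, hp, hxp⟩
      · exact absurd hM (Set.notMem_empty M)
      · exact ⟨p, Or.inl hp, Or.inl ⟨(hUlt p hp).1, hxp⟩⟩
      · exact ⟨p, Or.inr hp, Or.inr ⟨(hDlt p hp).1, hxp⟩⟩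
    · rintro ⟨p, hp, ⟨h2, h3⟩ | ⟨h2, h3⟩⟩
      · have h4 := hUpT p (hPcU p hp h2) x h3
        exact ⟨h4.1, fun h => h4.2 (hHF x h)⟩
      · have h4 := hDnT p (hPcD p hp h2) x h3
        exact ⟨h4.1, fun h => h4.2 (hHF x h)⟩
  · rintro p hp q hq hpq x (⟨h2, h3⟩ | ⟨h2, h3⟩) (⟨h4, h5⟩ | ⟨h4, h5⟩)
    · exact h1.dUU p (hPcU p hp h2) q (hPcU q hq h4) hpq x h3 h5
    · have h6 := hUpm p (hPcU p hp h2) x h3
      have h7 := hDnm q (hPcD q hq h4) x h5
      linarith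
    · have h6 := hDnm p (hPcD p hp h2) x h3
      have h7 := hUpm q (hPcU q hq h4) x h5
      linarith
    · exact h1.dDD p (hPcD p hp h2) q (hPcD q hq h4) hpq x h3 h5
  · intro x hx hxH hx0
    have hux := hpos x hx hx0
    have h2 := h1.pp x hx (hHF x hxH) hx0
    have h3 : {y | lev u v x y = 0} = {y | (v - m • u) y = 0} := by
      ext y
      have hvx : v x = m * u x := hxH
      have h4 : lev u v x y = u x * (v - m • u) y := by
        simp only [lev, LinearMap.sub_apply, LinearMap.smul_apply, smul_eq_mul, hvx]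
        ring
      simp only [Set.mem_ofPred_eq]
      rw [h4, mul_eq_zero]
      exact ⟨fun h => h.resolve_left hux.ne', Or.inr⟩
    intro M hM
    rw [← h3]
    exact h2 M hM
  · exact ⟨x0, hx0T, hvx0, hx00⟩

end Pool.Agent.Work.MP_552024_lc.PLS
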