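import Pool.Agent.Work.MP_552024_lc.PLS.S4

set_option autoImplicit false

namespace Pool.Agent.Work.MP_552024_lc.PLS

namespace APF

variable {F : Type*} [AddCommGroup F] [Module ℚ F]

/-- Coordinates in the plane. -/
theorem coords [FiniteDimensional ℚ F] (hF : Module.finrank ℚ F = 2) {p q : F}
    (h : ∀ s t : ℚ, s • p + t • q = 0 → s = 0 ∧ t = 0) :
    ∃ a b : F →ₗ[ℚ] ℚ, (∀ x, x = a x • p + b x • q) ∧ a p = 1 ∧ b p = 0 ∧ a q = 0 ∧
      b q = 1 := by
  have hli : LinearIndependent ℚ ![p, q] := LinearIndependent.pair_iff.2 h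
  let B := basisOfLinearIndependentOfCardEqFinrank hli (by simp [hF])
  have hB : (B : Fin 2 → F) = ![p, q] := coe_basisOfLinearIndependentOfCardEqFinrank _ _
  have hB0 : B 0 = p := by rw [hB]; rfl
  have hB1 : B 1 = q := by rw [hB]; rfl
  refine ⟨B.coord 0, B.coord 1, fun x => ?_, ?_, ?_, ?_, ?_⟩
  · have h1 := B.sum_repr x
    rw [Fin.sum_univ_two, hB0, hB1] at h1
    exact h1.symm
  · rw [← hB0]; simp
  · rw [← hB0]; simp
  · rw [← hB1]; simp
  · rw [← hB1]; simp

theorem zero_mem_ray (p : F) : (0 : F) ∈ ray p := ⟨0, le_rfl, by rw [zero_smul]⟩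

/-- Three closed sets which meet outside of `k`. -/
theorem three {k F₁ F₂ F₃ : Set F} (hk : Conn k) (h1 : Pol F₁) (h2 : Pol F₂) (h3 : Pol F₃)
    (hcov : ∀ x, x ∈ F₁ ∨ x ∈ F₂ ∨ x ∈ F₃) (h12 : ∀ x, x ∈ F₁ → x ∈ F₂ → x ∉ k)
    (h13 : ∀ x, x ∈ F₁ → x ∈ F₃ → x ∉ k) (h23 : ∀ x, x ∈ F₂ → x ∈ F₃ → x ∉ k)
    {x₁ x₂ x₃ : F} (m1 : x₁ ∈ cl k) (m2 : x₂ ∈ cl k) (m3 : x₃ ∈ cl k) (n1 : x₁ ∉ F₁)
    (n2 : x₂ ∉ F₂) (n3 : x₃ ∉ F₃) : False := by
  rcases hk.2 F₁ (F₂ ∪ F₃) h1 (h2.union h3) (fun x _ => hcov x) (by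
    rintro x hx hx1 (hx2 | hx3)
    · exact h12 x hx1 hx2 hx
    · exact h13 x hx1 hx3 hx) with h | h
  · exact n1 (h1.cl_subset h m1)
  · rcases hk.2 F₂ F₃ h2 h3 h (fun x hx hx2 hx3 => h23 x hx2 hx3 hx) with h' | h'
    · exact n2 (h2.cl_subset h' m2)
    · exact n3 (h3.cl_subset h' m3)

section Main

variable [FiniteDimensional ℚ F] {k : Set F} (hF : Module.finrank ℚ F = 2) (hkc : Pol kᶜ)
  (hk : Conn k)

include hkc

theorem kcon : Con k := by
  have h := hkc.con.compl
  rwa [compl_compl] at h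

theorem ycon : Con (cl k \ k) := (kcon hkc).pol_cl.con.diff (kcon hkc)

theorem zmem : (0 : F) ∈ cl k \ k := ⟨zero_mem_cl k, hkc.1⟩

theorem ynk {p x : F} (hp : p ∈ cl k \ k) {c : ℚ} (hc : 0 ≤ c) (h : x = c • p) : x ∉ k := by
  rw [h]
  rcases hc.eq_or_lt with h1 | h1
  · rw [← h1, zero_smul]; exact hkc.1
  · intro h2
    exact hp.2 ((inv_smul (kcon hkc) p h1).1 h2)

theorem ysm {p : F} (hp : p ∈ cl k \ k) {c : ℚ} (hc : 0 ≤ c) : c • p ∈ cl k \ k := by
  rcases hc.eq_or_lt with h1 | h1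
  · rw [← h1, zero_smul]; exact zmem hkc
  · exact (inv_smul (ycon hkc) p h1).2 hp

include hF hk

/-- The case of a point between the two others. -/
theorem case1 {p q : F} (h : ∀ s t : ℚ, s • p + t • q = 0 → s = 0 ∧ t = 0)
    (hp : p ∈ cl k \ k) (hq : q ∈ cl k \ k) (hr : p + q ∈ cl k \ k) : False := by
  obtain ⟨a, b, hab, hap, hbp, haq, hbq⟩ := coords hF h
  refine three (F₁ := {x | 0 ≤ b x} ∩ {x | 0 ≤ (a - b) x})
    (F₂ := {x | 0 ≤ a x} ∩ {x | 0 ≤ (b - a) x}) (F₃ := {x | 0 ≤ (-a) x} ∪ {x | 0 ≤ (-b) x})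
    hk ((pol_halfspace b).inter (pol_halfspace (a - b)))
    ((pol_halfspace a).inter (pol_halfspace (b - a)))
    ((pol_halfspace (-a)).union (pol_halfspace (-b))) ?_ ?_ ?_ ?_ hq.1 hp.1 hr.1 ?_ ?_ ?_
  · intro x
    simp only [Set.mem_inter_iff, Set.mem_union, Set.mem_ofPred_eq, LinearMap.sub_apply,
      LinearMap.neg_apply]
    rcases le_or_gt (a x) 0 with h1 | h1
    · exact Or.inr (Or.inr (Or.inl (by linarith)))
    rcases le_or_gt (b x) 0 with h2 | h2
    · exact Or.inr (Or.inr (Or.inr (by linarith)))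
    rcases le_total (a x) (b x) with h3 | h3
    · exact Or.inr (Or.inl ⟨h1.le, by linarith⟩)
    · exact Or.inl ⟨h2.le, by linarith⟩
  · rintro x ⟨h1, h2⟩ ⟨h3, h4⟩
    simp only [Set.mem_ofPred_eq, LinearMap.sub_apply] at h1 h2 h3 h4
    have h5 : a x = b x := by linarith
    refine ynk hkc hr h3 ?_
    conv_lhs => rw [hab x]
    rw [← h5, smul_add]
  · rintro x ⟨h1, h2⟩ h3
    simp only [Set.mem_ofPred_eq, LinearMap.sub_apply, Set.mem_union, LinearMap.neg_apply]
      at h1 h2 h3
    have h5 : b x = 0 := by rcases h3 with h3 | h3 <;> linarith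
    refine ynk hkc hp (by linarith : 0 ≤ a x) ?_
    conv_lhs => rw [hab x]
    rw [h5, zero_smul, add_zero]
  · rintro x ⟨h1, h2⟩ h3
    simp only [Set.mem_ofPred_eq, LinearMap.sub_apply, Set.mem_union, LinearMap.neg_apply]
      at h1 h2 h3
    have h5 : a x = 0 := by rcases h3 with h3 | h3 <;> linarith
    refine ynk hkc hq (by linarith : 0 ≤ b x) ?_
    conv_lhs => rw [hab x]
    rw [h5, zero_smul, zero_add]
  · simp only [Set.mem_inter_iff, Set.mem_ofPred_eq, LinearMap.sub_apply, haq, hbq]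
    norm_num
  · simp only [Set.mem_inter_iff, Set.mem_ofPred_eq, LinearMap.sub_apply, hap, hbp]
    norm_num
  · simp only [Set.mem_union, Set.mem_ofPred_eq, LinearMap.neg_apply, map_add, hap, hbp, haq, hbq]
    norm_num

/-- The case of three rays not in a half plane. -/
theorem case2 {p q : F} (h : ∀ s t : ℚ, s • p + t • q = 0 → s = 0 ∧ t = 0)
    (hp : p ∈ cl k \ k) (hq : q ∈ cl k \ k) (hr : -(p + q) ∈ cl k \ k) : False := by
  obtain ⟨a, b, hab, hap, hbp, haq, hbq⟩ := coords hF h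
  refine three (F₁ := {x | 0 ≤ a x} ∩ {x | 0 ≤ b x})
    (F₂ := {x | 0 ≤ (-a) x} ∩ {x | 0 ≤ (b - a) x}) (F₃ := {x | 0 ≤ (-b) x} ∩ {x | 0 ≤ (a - b) x})
    hk ((pol_halfspace a).inter (pol_halfspace b))
    ((pol_halfspace (-a)).inter (pol_halfspace (b - a)))
    ((pol_halfspace (-b)).inter (pol_halfspace (a - b))) ?_ ?_ ?_ ?_ hr.1 hp.1 hq.1 ?_ ?_ ?_
  · intro x
    simp only [Set.mem_inter_iff, Set.mem_ofPred_eq, LinearMap.sub_apply,
      LinearMap.neg_apply]
    rcases le_or_gt 0 (a x) with h1 | h1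
    · rcases le_or_gt 0 (b x) with h2 | h2
      · exact Or.inl ⟨h1, h2⟩
      · exact Or.inr (Or.inr ⟨by linarith, by linarith⟩)
    rcases le_total (a x) (b x) with h3 | h3
    · exact Or.inr (Or.inl ⟨by linarith, by linarith⟩)
    · exact Or.inr (Or.inr ⟨by linarith, by linarith⟩)
  · rintro x ⟨h1, h2⟩ ⟨h3, h4⟩
    simp only [Set.mem_ofPred_eq, LinearMap.sub_apply, LinearMap.neg_apply] at h1 h2 h3 h4
    have h5 : a x = 0 := by linarith
    refine ynk hkc hq h2 ?_
    conv_lhs => rw [hab x]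
    rw [h5, zero_smul, zero_add]
  · rintro x ⟨h1, h2⟩ ⟨h3, h4⟩
    simp only [Set.mem_ofPred_eq, LinearMap.sub_apply, LinearMap.neg_apply] at h1 h2 h3 h4
    have h5 : b x = 0 := by linarith
    refine ynk hkc hp h1 ?_
    conv_lhs => rw [hab x]
    rw [h5, zero_smul, add_zero]
  · rintro x ⟨h1, h2⟩ ⟨h3, h4⟩
    simp only [Set.mem_ofPred_eq, LinearMap.sub_apply, LinearMap.neg_apply] at h1 h2 h3 h4
    have h5 : a x = b x := by linarith
    refine ynk hkc hr h1 ?_
    conv_lhs => rw [hab x]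
    rw [← h5, smul_neg, neg_smul, neg_neg, smul_add]
  · simp only [Set.mem_inter_iff, Set.mem_ofPred_eq, map_neg, map_add, hap, hbp, haq, hbq]
    norm_num
  · simp only [Set.mem_inter_iff, Set.mem_ofPred_eq, LinearMap.neg_apply, hap]
    norm_num
  · simp only [Set.mem_inter_iff, Set.mem_ofPred_eq, LinearMap.neg_apply, hbq]
    norm_num

/-- The case of two opposite rays. -/
theorem case3 {p q : F} (h : ∀ s t : ℚ, s • p + t • q = 0 → s = 0 ∧ t = 0)
    (hp : p ∈ cl k \ k) (hq : q ∈ cl k \ k) (hr : -p ∈ cl k \ k) : False := by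
  obtain ⟨a, b, hab, hap, hbp, haq, hbq⟩ := coords hF h
  refine three (F₁ := {x | 0 ≤ (-b) x})
    (F₂ := {x | 0 ≤ b x} ∩ {x | 0 ≤ a x}) (F₃ := {x | 0 ≤ b x} ∩ {x | 0 ≤ (-a) x})
    hk (pol_halfspace (-b))
    ((pol_halfspace b).inter (pol_halfspace a))
    ((pol_halfspace b).inter (pol_halfspace (-a))) ?_ ?_ ?_ ?_ hq.1 hr.1 hp.1 ?_ ?_ ?_
  · intro x
    simp only [Set.mem_inter_iff, Set.mem_ofPred_eq, LinearMap.neg_apply]
    rcases le_or_gt (b x) 0 with h1 | h1
    · exact Or.inl (by linarith)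
    rcases le_total (a x) 0 with h3 | h3
    · exact Or.inr (Or.inr ⟨h1.le, by linarith⟩)
    · exact Or.inr (Or.inl ⟨h1.le, h3⟩)
  · rintro x h1 ⟨h3, h4⟩
    simp only [Set.mem_ofPred_eq, LinearMap.neg_apply] at h1 h3 h4
    have h5 : b x = 0 := by linarith
    refine ynk hkc hp h4 ?_
    conv_lhs => rw [hab x]
    rw [h5, zero_smul, add_zero]
  · rintro x h1 ⟨h3, h4⟩
    simp only [Set.mem_ofPred_eq, LinearMap.neg_apply] at h1 h3 h4
    have h5 : b x = 0 := by linarith
    refine ynk hkc hr h4 ?_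
    conv_lhs => rw [hab x]
    rw [h5, zero_smul, add_zero, smul_neg, neg_smul, neg_neg]
  · rintro x ⟨h1, h2⟩ ⟨h3, h4⟩
    simp only [Set.mem_ofPred_eq, LinearMap.neg_apply] at h1 h2 h3 h4
    have h5 : a x = 0 := by linarith
    refine ynk hkc hq h1 ?_
    conv_lhs => rw [hab x]
    rw [h5, zero_smul, zero_add]
  · simp only [Set.mem_ofPred_eq, LinearMap.neg_apply, hbq]
    norm_num
  · simp only [Set.mem_inter_iff, Set.mem_ofPred_eq, map_neg, hap, hbp]
    norm_num
  · simp only [Set.mem_inter_iff, Set.mem_ofPred_eq, LinearMap.neg_apply, hap]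
    norm_num

/-- Three different rays are impossible. -/
theorem nothree {p q r : F} (hp : p ∈ cl k \ k) (hq : q ∈ cl k \ k) (hr : r ∈ cl k \ k)
    (hp0 : p ≠ 0) (hqp : q ∉ ray p) (hrp : r ∉ ray p) (hrq : r ∉ ray q) : False := by
  by_cases hpq : ∃ c : ℚ, q = c • p
  · obtain ⟨c, rfl⟩ := hpq
    have hc : c < 0 := by
      by_contra h
      exact hqp ⟨c, not_lt.1 h, rfl⟩
    have hli : ∀ s t : ℚ, s • p + t • r = 0 → s = 0 ∧ t = 0 := by
      intro s t h
      have ht : t = 0 := by
        by_contra ht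
        have h1 : r = (-s / t) • p := by
          have h2 : t • r = (-s) • p := by
            rw [neg_smul]; exact eq_neg_of_add_eq_zero_right h
          rw [div_eq_inv_mul, mul_smul, ← h2, smul_smul, inv_mul_cancel₀ ht, one_smul]
        rcases le_or_gt 0 (-s / t) with h3 | h3
        · exact hrp ⟨_, h3, h1⟩
        · refine hrq ⟨(-s / t) / c, (div_pos_of_neg_of_neg h3 hc).le, ?_⟩
          rw [smul_smul, div_mul_cancel₀ _ hc.ne]
          exact h1
      refine ⟨?_, ht⟩
      rw [ht, zero_smul, add_zero] at h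
      exact (smul_eq_zero.1 h).resolve_right hp0
    refine case3 hF hkc hk hli hp hr ?_
    have h1 : -p = (-c)⁻¹ • (c • p) := by
      rw [smul_smul, inv_neg, neg_mul, inv_mul_cancel₀ hc.ne, neg_smul, one_smul]
    rw [h1]
    exact ysm hkc hq (inv_nonneg.2 (by linarith))
  · have hli : ∀ s t : ℚ, s • p + t • q = 0 → s = 0 ∧ t = 0 := by
      intro s t h
      have ht : t = 0 := by
        by_contra ht
        refine hpq ⟨-s / t, ?_⟩
        have h2 : t • q = (-s) • p := by
          rw [neg_smul]; exact eq_neg_of_add_eq_zero_right h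
        rw [div_eq_inv_mul, mul_smul, ← h2, smul_smul, inv_mul_cancel₀ ht, one_smul]
      refine ⟨?_, ht⟩
      rw [ht, zero_smul, add_zero] at h
      exact (smul_eq_zero.1 h).resolve_right hp0
    obtain ⟨a, b, hab, hap, hbp, haq, hbq⟩ := coords hF hli
    have hr' := hab r
    generalize a r = α at hr'
    generalize b r = β at hr'
    have ea : ∀ s t : ℚ, s • p + t • q = 0 → s = 0 ∧ t = 0 := hli
    rcases lt_trichotomy α 0 with h1 | h1 | h1
    · rcases lt_trichotomy β 0 with h2 | h2 | h2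
      · -- the opposite cone
        refine case2 hF hkc hk (p := (-α) • p) (q := (-β) • q) (fun s t h => ?_)
          (ysm hkc hp (by linarith)) (ysm hkc hq (by linarith)) ?_
        · rw [smul_smul, smul_smul] at h
          obtain ⟨h3, h4⟩ := hli _ _ h
          exact ⟨(mul_eq_zero.1 h3).resolve_right (by linarith),
            (mul_eq_zero.1 h4).resolve_right (by linarith)⟩
        · have h3 : -((-α) • p + (-β) • q) = r := by rw [hr']; module
          rw [h3]; exact hr
      · -- opposite to the first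
        subst h2
        rw [zero_smul, add_zero] at hr'
        refine case3 hF hkc hk hli hp hq ?_
        have h3 : -p = (-α)⁻¹ • r := by
          rw [hr', smul_smul, inv_neg, neg_mul, inv_mul_cancel₀ h1.ne, neg_smul, one_smul]
        rw [h3]
        exact ysm hkc hr (inv_nonneg.2 (by linarith))
      · -- the second is between
        refine case1 hF hkc hk (p := r) (q := (-α) • p) (fun s t h => ?_) hr
          (ysm hkc hp (by linarith)) ?_
        · have h3 : (s * α + t * (-α)) • p + (s * β) • q = 0 := by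
            rw [← h, hr']; module
          obtain ⟨h4, h5⟩ := hli _ _ h3
          have h6 : s = 0 := (mul_eq_zero.1 h5).resolve_right h2.ne'
          rw [h6, zero_mul, zero_add] at h4
          exact ⟨h6, (mul_eq_zero.1 h4).resolve_right (by linarith)⟩
        · have h3 : r + (-α) • p = β • q := by rw [hr']; module
          rw [h3]; exact ysm hkc hq h2.le
    · subst h1
      rw [zero_smul, zero_add] at hr'
      have h2 : β < 0 := by
        by_contra h
        exact hrq ⟨β, not_lt.1 h, hr'⟩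
      refine case3 hF hkc hk (p := q) (q := p) (fun s t h => ?_) hq hp ?_
      · rw [add_comm] at h
        exact (hli _ _ h).symm
      · have h3 : -q = (-β)⁻¹ • r := by
          rw [hr', smul_smul, inv_neg, neg_mul, inv_mul_cancel₀ h2.ne, neg_smul, one_smul]
        rw [h3]
        exact ysm hkc hr (inv_nonneg.2 (by linarith))
    · rcases lt_trichotomy β 0 with h2 | h2 | h2
      · -- the first is between
        refine case1 hF hkc hk (p := r) (q := (-β) • q) (fun s t h => ?_) hr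
          (ysm hkc hq (by linarith)) ?_
        · have h3 : (s * α) • p + (s * β + t * (-β)) • q = 0 := by
            rw [← h, hr']; module
          obtain ⟨h4, h5⟩ := hli _ _ h3
          have h6 : s = 0 := (mul_eq_zero.1 h4).resolve_right h1.ne'
          rw [h6, zero_mul, zero_add] at h5
          exact ⟨h6, (mul_eq_zero.1 h5).resolve_right (by linarith)⟩
        · have h3 : r + (-β) • q = α • p := by rw [hr']; module
          rw [h3]; exact ysm hkc hp h1.le
      · subst h2
        rw [zero_smul, add_zero] at hr'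
        exact hrp ⟨α, h1.le, hr'⟩
      · -- the third is between
        refine case1 hF hkc hk (p := α • p) (q := β • q) (fun s t h => ?_)
          (ysm hkc hp h1.le) (ysm hkc hq h2.le) (by rw [← hr']; exact hr)
        rw [smul_smul, smul_smul] at h
        obtain ⟨h3, h4⟩ := hli _ _ h
        exact ⟨(mul_eq_zero.1 h3).resolve_right h1.ne',
          (mul_eq_zero.1 h4).resolve_right h2.ne'⟩

omit hkc hk in
/-- The plane without a ray is connected. -/
theorem conn_ray {p : F} (hp0 : p ≠ 0) : Conn ({x : F | x ∉ ray p}) := by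
  obtain ⟨q, hq⟩ : ∃ q : F, ∀ c : ℚ, c • p ≠ q := by
    by_contra h
    push Not at h
    have := finrank_le_one p h
    omega
  have hli : ∀ s t : ℚ, s • p + t • q = 0 → s = 0 ∧ t = 0 := by
    intro s t h
    have ht : t = 0 := by
      by_contra ht
      refine hq (-s / t) ?_
      have h2 : t • q = (-s) • p := by
        rw [neg_smul]; exact eq_neg_of_add_eq_zero_right h
      rw [div_eq_inv_mul, mul_smul, ← h2, smul_smul, inv_mul_cancel₀ ht, one_smul]
    refine ⟨?_, ht⟩
    rw [ht, zero_smul, add_zero] at h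
    exact (smul_eq_zero.1 h).resolve_right hp0
  obtain ⟨a, b, hab, hap, hbp, haq, hbq⟩ := coords hF hli
  have hray : ∀ x, x ∈ ray p ↔ b x = 0 ∧ 0 ≤ a x := by
    intro x
    constructor
    · rintro ⟨c, hc, rfl⟩
      rw [map_smul, map_smul, hap, hbp]
      exact ⟨by simp, by simpa using hc⟩
    · rintro ⟨h1, h2⟩
      refine ⟨a x, h2, ?_⟩
      conv_lhs => rw [hab x]
      rw [h1, zero_smul, add_zero]
  have hcv : ∀ e : F →ₗ[ℚ] ℚ, e p = 0 → (e = b ∨ e = -b) →
      Conn ({x : F | 0 < e x ∨ (e x = 0 ∧ a x < 0)}) := by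
    intro e he _
    refine conn_of_convex ⟨-p, Or.inr ⟨by rw [map_neg, he, neg_zero], by
      rw [map_neg, hap]; norm_num⟩⟩ ?_
    intro x hx y hy t h0 h1
    have e1 : ∀ l : F →ₗ[ℚ] ℚ, l (x + t • (y - x)) = (1 - t) * l x + t * l y := by
      intro l
      simp only [map_add, map_smul, map_sub, smul_eq_mul]; ring
    simp only [Set.mem_ofPred_eq] at hx hy ⊢
    rw [e1 e, e1 a]
    have h2 : 0 ≤ 1 - t := by linarith
    have hx' : 0 ≤ e x := by rcases hx with h | h; exacts [h.le, h.1.ge]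
    have hy' : 0 ≤ e y := by rcases hy with h | h; exacts [h.le, h.1.ge]
    rcases (add_nonneg (mul_nonneg h2 hx') (mul_nonneg h0 hy')).eq_or_lt with h3 | h3
    · right
      refine ⟨h3.symm, ?_⟩
      have h4 : (1 - t) * e x = 0 := by
        have := mul_nonneg h0 hy'
        have := mul_nonneg h2 hx'
        linarith
      have h5 : t * e y = 0 := by linarith
      rcases mul_eq_zero.1 h4 with h6 | h6
      · have ht : t = 1 := by linarith
        rw [ht] at h5 ⊢
        rw [one_mul] at h5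
        rcases hy with h | h
        · linarith
        · linarith [h.2]
      · rcases hx with h | h
        · linarith
        · rcases mul_eq_zero.1 h5 with h7 | h7
          · rw [h7]; linarith [h.2]
          · rcases hy with h' | h'
            · linarith
            · rcases h0.eq_or_lt with h8 | h8
              · rw [← h8]; linarith [h.2]
              · nlinarith [h.2, h'.2, mul_nonneg h2 (neg_nonneg.2 h.2.le),
                  mul_pos h8 (neg_pos.2 h'.2)]
    · exact Or.inl h3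
  have c1 := hcv b hbp (Or.inl rfl)
  have c2 := hcv (-b) (by rw [LinearMap.neg_apply, hbp, neg_zero]) (Or.inr rfl)
  have hm : -p ∈ {x : F | x ∉ ray p} := by
    intro h
    have := ((hray _).1 h).2
    rw [map_neg, hap] at this
    norm_num at this
  have s1 : {x : F | 0 < b x ∨ (b x = 0 ∧ a x < 0)} ⊆ {x : F | x ∉ ray p} := by
    rintro x (h | h) h'
    · exact h.ne' ((hray x).1 h').1
    · exact absurd ((hray x).1 h').2 (not_le.2 h.2)
  have s2 : {x : F | 0 < (-b) x ∨ ((-b) x = 0 ∧ a x < 0)} ⊆ {x : F | x ∉ ray p} := by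
    rintro x (h | h) h'
    · rw [LinearMap.neg_apply, ((hray x).1 h').1] at h
      norm_num at h
    · exact absurd ((hray x).1 h').2 (not_le.2 h.2)
  have s3 : {x : F | x ∉ ray p} ⊆ {x : F | 0 < b x ∨ (b x = 0 ∧ a x < 0)} ∪
      {x : F | 0 < (-b) x ∨ ((-b) x = 0 ∧ a x < 0)} := by
    intro x hx
    simp only [Set.mem_union, Set.mem_ofPred_eq, LinearMap.neg_apply] at hx ⊢
    rcases lt_trichotomy (b x) 0 with h | h | h
    · exact Or.inr (Or.inl (by linarith))
    · refine Or.inl (Or.inr ⟨h, ?_⟩)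
      by_contra h'
      exact hx ((hray x).2 ⟨h, not_lt.1 h'⟩)
    · exact Or.inl (Or.inl h)
  have m1 : -p ∈ {x : F | 0 < b x ∨ (b x = 0 ∧ a x < 0)} :=
    Or.inr ⟨by rw [map_neg, hbp, neg_zero], by rw [map_neg, hap]; norm_num⟩
  have m2 : -p ∈ {x : F | 0 < (-b) x ∨ ((-b) x = 0 ∧ a x < 0)} :=
    Or.inr ⟨by rw [map_neg, LinearMap.neg_apply, hbp, neg_zero, neg_zero], by
      rw [map_neg, hap]; norm_num⟩
  refine ⟨⟨-p, hm⟩, fun G₁ G₂ hG₁ hG₂ hcov hdis => ?_⟩
  rcases c1.2 G₁ G₂ hG₁ hG₂ (s1.trans hcov) (fun x hx => hdis x (s1 hx)) with h | h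
  · rcases c2.2 G₁ G₂ hG₁ hG₂ (s2.trans hcov) (fun x hx => hdis x (s2 hx)) with h' | h'
    · exact Or.inl (s3.trans (Set.union_subset h h'))
    · exact absurd (h' m2) (hdis _ hm (h m1))
  · rcases c2.2 G₁ G₂ hG₁ hG₂ (s2.trans hcov) (fun x hx => hdis x (s2 hx)) with h' | h'
    · exact absurd (h m1) (hdis _ hm (h' m2))
    · exact Or.inr (s3.trans (Set.union_subset h h'))

end Main

end APF

open APF in
theorem I_PF : St_PF := by
  intro F _ _ _ k hF hkc hk
  have hraysub : ∀ p ∈ cl k \ k, ray p ⊆ cl k \ k := by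
    rintro p hp x ⟨c, hc, rfl⟩
    exact ysm hkc hp hc
  by_cases h1 : ∃ p ∈ cl k \ k, p ≠ 0
  · obtain ⟨p, hp, hp0⟩ := h1
    right
    by_cases h2 : ∃ q ∈ cl k \ k, q ∉ ray p
    · obtain ⟨q, hq, hqp⟩ := h2
      right
      have hq0 : q ≠ 0 := by
        rintro rfl
        exact hqp (zero_mem_ray p)
      refine ⟨p, q, hp0, hq0, hqp, subset_antisymm ?_
        (Set.union_subset (hraysub p hp) (hraysub q hq))⟩
      intro r hr
      by_contra h3
      rw [Set.mem_union, not_or] at h3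
      exact nothree hF hkc hk hp hq hr hp0 hqp h3.1 h3.2
    · left
      push Not at h2
      have hY : cl k \ k = ray p := subset_antisymm h2 (hraysub p hp)
      refine ⟨p, hp0, hY, fun y => ?_⟩
      by_cases hy : y ∈ ray p
      · exact Or.inr hy
      left
      rcases (conn_ray hF hp0).2 (cl k) kᶜ (kcon hkc).pol_cl hkc (fun x _ => by
        by_cases hx : x ∈ k
        · exact Or.inl (subset_cl k hx)
        · exact Or.inr hx) (by
        intro x hx hx1 hx2
        refine hx ?_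
        rw [← hY]
        exact ⟨hx1, hx2⟩) with h | h
      · by_contra hyk
        refine hy ?_
        rw [← hY]
        exact ⟨h hy, hyk⟩
      · exfalso
        obtain ⟨x, hx⟩ := hk.1
        have hxr : x ∉ ray p := by
          rw [← hY]
          exact fun h' => h'.2 hx
        exact h hxr hx
  · left
    push Not at h1
    exact subset_antisymm (fun x hx => h1 x hx) (by
      rintro x rfl
      exact zmem hkc)

end Pool.Agent.Work.MP_552024_lc.PLS
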