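import Pool.Agent.Work.MP_552024_lc.PLS.S4

set_option autoImplicit false

/-! The Schoenflies theorem for circles (from the cut lemma and the theta lemma). -/

namespace Pool.Agent.Work.MP_552024_lc.PLS

namespace ASchA2

variable {E : Type} [AddCommGroup E] [Module ℚ E]

open SignType

theorem sph_pol {k : ℕ} {T : Set E} (h : Sph k T) : Pol T := by
  obtain ⟨D₁, D₂, U, rfl, _, h1, h2⟩ := h
  exact h1.1.union h2.1

theorem sgv_finite {A : Set (E →ₗ[ℚ] ℚ)} (hA : A.Finite) (s : Set ((E →ₗ[ℚ] ℚ) → SignType))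
    (hs : ∀ σ ∈ s, ∃ x : E, σ = sgv A x) : s.Finite := by
  classical
  have : Finite A := hA
  refine (Set.finite_range (fun (τ : A → SignType) (b : E →ₗ[ℚ] ℚ) =>
    if h : b ∈ A then τ ⟨b, h⟩ else 0)).subset ?_
  intro σ hσ
  obtain ⟨x, rfl⟩ := hs σ hσ
  refine ⟨fun b => sign (b.1 x), ?_⟩
  funext b
  by_cases hb : b ∈ A
  · simp [sgv, hb]
  · simp [sgv, hb]

theorem sameSign_of_sgv {A : Set (E →ₗ[ℚ] ℚ)} {x y : E} (h : sgv A x = sgv A y) :
    SameSign A x y := by
  intro b hb
  have := congrFun h b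
  simpa [sgv, hb] using this

theorem nof_lt {A : Set (E →ₗ[ℚ] ℚ)} {a : E →ₗ[ℚ] ℚ} {T T' : Set E} (hA : A.Finite)
    (hsub : ∀ x ∈ T', a x ≠ 0 → x ∈ T) (hex : ∃ x ∈ T, a x ≠ 0 ∧ x ∉ T') (hInv : InvA A T') :
    nof A a T' < nof A a T := by
  unfold nof
  refine Set.ncard_lt_ncard ?_ (sgv_finite hA _ ?_)
  · refine (Set.ssubset_iff_of_subset ?_).2 ?_
    · rintro σ ⟨x, hx, hax, rfl⟩
      exact ⟨x, hsub x hx hax, hax, rfl⟩
    · obtain ⟨x, hx, hax, hx'⟩ := hex
      refine ⟨sgv A x, ⟨x, hx, hax, rfl⟩, ?_⟩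
      rintro ⟨y, hy, _, hxy⟩
      exact hx' (hInv y x (sameSign_of_sgv hxy).symm hy)
  · rintro σ ⟨x, _, _, rfl⟩
    exact ⟨x, rfl⟩

/-- `T` lies on one side of `b`. -/
def NCr (T : Set E) (b : E →ₗ[ℚ] ℚ) : Prop := (∀ x ∈ T, 0 ≤ b x) ∨ (∀ x ∈ T, b x ≤ 0)

theorem claim [FiniteDimensional ℚ E] (hCut3 : St_Cut3) (hTheta : St_Theta) (hBase : St_Base)
    (hNotFlat : St_NotFlat) (hClE : St_ClE) (hK3 : St_K3) (hSchA1 : St_SchA1)
    (hE : Module.finrank ℚ E = 3) (A : Set (E →ₗ[ℚ] ℚ)) (hA : A.Finite) (hS : Spn A)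
    (u : E →ₗ[ℚ] ℚ) (hu : u ∈ A) (C : Set (E →ₗ[ℚ] ℚ)) (hC : C.Finite) (hCA : C ⊆ A) :
    ∀ T : Set E, Sph 2 T → Bdd u T → ClA A T → (∀ b ∈ A, b ∉ C → NCr T b) → Std 3 T := by
  induction C, hC using Set.Finite.induction_on with
  | empty =>
    intro T hT hb hcl hnc
    exact hBase 1 E T A u hE hT hb hA hS hcl (fun a ha => hnc a ha (by simp))
  | @insert a C _ _ ih =>
    have ih' := ih (fun b hb => hCA (Set.mem_insert_of_mem _ hb))
    have haA : a ∈ A := hCA (Set.mem_insert _ _)
    suffices H : ∀ N : ℕ, ∀ T : Set E, nof A a T = N → Sph 2 T → Bdd u T → ClA A T →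
        (∀ b ∈ A, b ∉ insert a C → NCr T b) → Std 3 T from
      fun T h1 h2 h3 h4 => H _ T rfl h1 h2 h3 h4
    intro N
    induction N using Nat.strong_induction_on with
    | _ N IH =>
      intro T hN hT hb hcl hnc
      by_cases hcr : NCr T a
      · refine ih' T hT hb hcl (fun b hbA hbC => ?_)
        by_cases hba : b = a
        · rw [hba]; exact hcr
        · exact hnc b hbA (by simp [hba, hbC])
      · have hcr' := hcr
        unfold NCr at hcr'
        push Not at hcr'
        obtain ⟨⟨x₁, hx₁, hax₁⟩, ⟨x₂, hx₂, hax₂⟩⟩ := hcr'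
        obtain ⟨D, c, hD, hc, hDT, hDA, hDa, hDu, hDb⟩ :=
          hCut3 E T A u a hE hT hb hA hS hcl hu haA ⟨x₂, hx₂, hax₂⟩ ⟨x₁, hx₁, hax₁⟩
        have ha0 : a ≠ 0 := by
          rintro rfl
          simp at hax₂
        have hcT : c ⊆ T := by rw [← hDT]; exact Set.inter_subset_right
        have hcD : c ⊆ D := by rw [← hDT]; exact Set.inter_subset_left
        have hcA : ClA A c := by rw [← hDT]; exact hDA.inter hcl
        obtain ⟨E₁, E₂, hU, hI, hB1, hB2⟩ := hK3 0 hSchA1 E T c hT hc hcT
        have hdis : ∀ X : Set E, X ⊆ T → c ⊆ X → D ∩ X = c := by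
          intro X hX hcX
          apply subset_antisymm
          · rintro x ⟨hxD, hxX⟩
            rw [← hDT]
            exact ⟨hxD, hX hxX⟩
          · exact Set.subset_inter hcD hcX
        have hsphU : ∀ X : Set E, X ⊆ T → c ⊆ X → Ball 2 X c → Sph 2 (X ∪ D) := by
          intro X hX hcX hBX
          refine ⟨X, D, c, rfl, ?_, hBX, hD⟩
          rw [Set.inter_comm]
          exact (hdis X hX hcX).symm
        have hbddU : ∀ X : Set E, X ⊆ T → Bdd u (X ∪ D) := by
          rintro X hX x (hx | hx) hx0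
          · exact hb x (hX hx) hx0
          · exact hDu x hx hx0
        have key : ∀ X Y : Set E, X ∪ Y = T → X ∩ Y = c → Ball 2 X c → Ball 2 Y c →
            Std 3 (X ∪ D) := by
          intro X Y hXY hXYc hBX hBY
          have hXT : X ⊆ T := by rw [← hXY]; exact Set.subset_union_left
          have hYT : Y ⊆ T := by rw [← hXY]; exact Set.subset_union_right
          have hcX : c ⊆ X := by rw [← hXYc]; exact Set.inter_subset_left
          have hcY : c ⊆ Y := by rw [← hXYc]; exact Set.inter_subset_right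
          have hXA : ClA A X := hClE E A T c X Y hA hcl hcA hXY hXYc hBX.1 hBY.1
          have hTA : ClA A (X ∪ D) := hXA.union hDA
          have hYa : ∃ x ∈ Y, a x ≠ 0 := by
            by_contra hcon
            push Not at hcon
            refine hNotFlat 1 E (Y ∪ D) a u hE ha0 (hsphU Y hYT hcY hBY) ?_ (hbddU Y hYT)
            rintro x (hx | hx)
            · exact hcon x hx
            · exact hDa x hx
          refine IH (nof A a (X ∪ D)) ?_ (X ∪ D) rfl (hsphU X hXT hcX hBX) (hbddU X hXT) hTA ?_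
          · rw [← hN]
            refine nof_lt hA ?_ ?_ hTA.inv
            · rintro x (hx | hx) hax
              · exact hXT hx
              · exact absurd (hDa x hx) hax
            · obtain ⟨x, hx, hax⟩ := hYa
              refine ⟨x, hYT hx, hax, ?_⟩
              rintro (h | h)
              · have : x ∈ c := by rw [← hXYc]; exact ⟨h, hx⟩
                exact hax (hDa x (hcD this))
              · exact hax (hDa x h)
          · intro b hbA hbC
            rcases hnc b hbA hbC with h | h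
            · left
              rintro x (hx | hx)
              · exact h x (hXT hx)
              · exact hDb b h x hx
            · right
              rintro x (hx | hx)
              · exact h x (hXT hx)
              · have := hDb (-b) (fun y hy => by
                  have := h y hy
                  simpa using this) x hx
                simpa using this
        have hc1 : c ⊆ E₁ := by rw [← hI]; exact Set.inter_subset_left
        have hc2 : c ⊆ E₂ := by rw [← hI]; exact Set.inter_subset_right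
        have h1T : E₁ ⊆ T := by rw [← hU]; exact Set.subset_union_left
        have h2T : E₂ ⊆ T := by rw [← hU]; exact Set.subset_union_right
        have hres := hTheta 1 E D E₁ E₂ c hE hD hB1 hB2 (hdis E₁ h1T hc1) (hdis E₂ h2T hc2) hI
          (key E₁ E₂ hU hI hB1 hB2)
          (key E₂ E₁ (by rw [Set.union_comm]; exact hU) (by rw [Set.inter_comm]; exact hI) hB2 hB1)
        rw [hU] at hres
        exact hres

end ASchA2

open ASchA2 in
/-- The Schoenflies theorem for circles. -/
theorem I_SchA2 (hCut3 : St_Cut3) (hTheta : St_Theta) (hBase : St_Base) (hNotFlat : St_NotFlat)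
    (hRefl : St_Refl) (hClE : St_ClE) (hK3 : St_K3) (hSchA1 : St_SchA1) : St_SchA2 := by
  intro E _ _ _ hE T hT
  refine hRefl 1 E hE ?_ T hT
  clear hT T
  intro T u hT hb
  obtain ⟨_, A₀, hA₀, hcl₀⟩ := sph_pol hT
  let B := Module.finBasis ℚ E
  let A : Set (E →ₗ[ℚ] ℚ) := A₀ ∪ (insert u (Set.range B.coord))
  have hA : A.Finite := hA₀.union ((Set.finite_range _).insert _)
  have hS : Spn A := by
    intro x hx
    refine (B.forall_coord_eq_zero_iff).1 (fun i => ?_)
    exact hx _ (Or.inr (Or.inr ⟨i, rfl⟩))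
  have hu : u ∈ A := Or.inr (Or.inl rfl)
  have hcl : ClA A T := ClA.mono (A := A₀) hcl₀ Set.subset_union_left
  exact claim hCut3 hTheta hBase hNotFlat hClE hK3 hSchA1 hE A hA hS u hu A hA subset_rfl T hT hb
    hcl (fun b hb hb' => absurd hb hb')

end Pool.Agent.Work.MP_552024_lc.PLS
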