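import Pool.Agent.Work.MP_552024_lc.PLS.S4

set_option autoImplicit false

namespace Pool.Agent.Work.MP_552024_lc.PLS

theorem I_SphTr : St_SphTr := by
  intro k E E' _ _ _ _ _ _ T T' f g hT hT' hfg
  obtain ⟨D1, D2, U, hTU, hU, h1, h2⟩ := hT
  have hD1 : D1 ⊆ T := hTU ▸ Set.subset_union_left
  have hD2 : D2 ⊆ T := hTU ▸ Set.subset_union_right
  have hUT : U ⊆ T := by
    rw [hU]; exact fun x hx => hD1 hx.1
  have hfT : f '' T = T' := by
    rw [hfg.image_eq subset_rfl]
    ext y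
    exact ⟨fun hy => hy.1, fun hy => ⟨hy, hfg.mapsg y hy⟩⟩
  refine ⟨f '' D1, f '' D2, f '' U, ?_, ?_, ?_, ?_⟩
  · rw [← hfT, hTU, Set.image_union]
  · rw [hU, hfg.image_inter hD1 hD2]
  · refine h1.transport (hfg.pol_image hT' hD1 h1.1) (hfg.restrict_image hD1) ?_ ?_
    · exact Set.image_mono h1.2.1
    · intro x hx
      exact (hfg.mem_image hUT (hD1 hx)).symm
  · refine h2.transport (hfg.pol_image hT' hD2 h2.1) (hfg.restrict_image hD2) ?_ ?_
    · exact Set.image_mono h2.2.1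
    · intro x hx
      exact (hfg.mem_image hUT (hD2 hx)).symm

end Pool.Agent.Work.MP_552024_lc.PLS
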