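import Pool.Agent.Work.MP_552024_lc.PLS.PL

set_option autoImplicit false

namespace Pool.Agent.Work.MP_552024_lc.PLS

variable {E : Type*} [AddCommGroup E] [Module ℚ E]
variable {E' : Type*} [AddCommGroup E'] [Module ℚ E']

open SignType

/-- Pasting of piecewise linear bijections. -/
theorem PLInv.paste {f f' : E → E'} {g g' : E' → E} {s s' : Set E} {t t' : Set E'}
    (h : PLInv f g s t) (h' : PLInv f' g' s' t') (hs : Pol s) (hs' : Pol s') (ht : Pol t)
    (ht' : Pol t') (hf : ∀ x ∈ s, x ∈ s' → f x = f' x) (hg : ∀ y ∈ t, y ∈ t' → g y = g' y) :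
    ∃ F : E → E', ∃ G : E' → E, PLInv F G (s ∪ s') (t ∪ t') ∧ (∀ x ∈ s, F x = f x) ∧
      (∀ x ∈ s', F x = f' x) ∧ (∀ y ∈ t, G y = g y) ∧ (∀ y ∈ t', G y = g' y) := by
  classical
  let F : E → E' := fun x => if x ∈ s then f x else f' x
  let G : E' → E := fun y => if y ∈ t then g y else g' y
  have F1 : ∀ x ∈ s, F x = f x := fun x hx => if_pos hx
  have F2 : ∀ x ∈ s', F x = f' x := by
    intro x hx
    by_cases h1 : x ∈ s
    · rw [F1 x h1, hf x h1 hx]
    · exact if_neg h1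
  have G1 : ∀ y ∈ t, G y = g y := fun y hy => if_pos hy
  have G2 : ∀ y ∈ t', G y = g' y := by
    intro y hy
    by_cases h1 : y ∈ t
    · rw [G1 y h1, hg y h1 hy]
    · exact if_neg h1
  refine ⟨F, G, ⟨?_, ?_, ?_, ?_, ?_, ?_⟩, F1, F2, G1, G2⟩
  · exact (h.plf.congr F1).union hs hs' (h'.plf.congr F2)
  · exact (h.plg.congr G1).union ht ht' (h'.plg.congr G2)
  · rintro x (hx | hx)
    · rw [F1 x hx]; exact Or.inl (h.mapsf x hx)
    · rw [F2 x hx]; exact Or.inr (h'.mapsf x hx)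
  · rintro y (hy | hy)
    · rw [G1 y hy]; exact Or.inl (h.mapsg y hy)
    · rw [G2 y hy]; exact Or.inr (h'.mapsg y hy)
  · rintro x (hx | hx)
    · rw [F1 x hx, G1 _ (h.mapsf x hx), h.gf x hx]
    · rw [F2 x hx, G2 _ (h'.mapsf x hx), h'.gf x hx]
  · rintro y (hy | hy)
    · rw [G1 y hy, F1 _ (h.mapsg y hy), h.fg y hy]
    · rw [G2 y hy, F2 _ (h'.mapsg y hy), h'.fg y hy]

/-- `B` is the cone over `S` with apex direction `p`. -/
structure Radial (B S : Set E) (p : E) (m : E → ℚ) : Prop where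
  plm : PLOn m B
  nonneg : ∀ x ∈ B, 0 ≤ m x
  sub : ∀ x ∈ B, x - m x • p ∈ S
  add : ∀ v ∈ S, ∀ t : ℚ, 0 ≤ t → v + t • p ∈ B
  val : ∀ v ∈ S, ∀ t : ℚ, 0 ≤ t → m (v + t • p) = t

namespace Radial

variable {B S : Set E} {p : E} {m : E → ℚ} {B' S' : Set E'} {p' : E'} {m' : E' → ℚ}

theorem subset (h : Radial B S p m) : S ⊆ B := fun v hv => by
  simpa using h.add v hv 0 le_rfl

theorem m_zero (h : Radial B S p m) {v : E} (hv : v ∈ S) : m v = 0 := by
  simpa using h.val v hv 0 le_rfl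

theorem mem_iff (h : Radial B S p m) {x : E} (hx : x ∈ B) : x ∈ S ↔ m x = 0 := by
  constructor
  · exact h.m_zero
  · intro h0
    have := h.sub x hx
    rwa [h0, zero_smul, sub_zero] at this

theorem extAux (h : Radial B S p m) (h' : Radial B' S' p' m') (φ : E → E') (hφ : PLOn φ S)
    (hmaps : ∀ x ∈ S, φ x ∈ S') :
    PLOn (fun x => φ (x - m x • p) + m x • p') B ∧
    (∀ x ∈ B, φ (x - m x • p) + m x • p' ∈ B') ∧
    (∀ x ∈ B, m' (φ (x - m x • p) + m x • p') = m x) := by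
  refine ⟨?_, ?_, ?_⟩
  · have h1 : PLOn (fun x => m x • p) B :=
      h.plm.lin (LinearMap.toSpanSingleton ℚ E p)
    have h2 : PLOn (fun x => m x • p') B :=
      h.plm.lin (LinearMap.toSpanSingleton ℚ E' p')
    exact (hφ.comp ((plOn_id B).sub h1) h.sub).add h2
  · intro x hx
    exact h'.add _ (hmaps _ (h.sub x hx)) _ (h.nonneg x hx)
  · intro x hx
    exact h'.val _ (hmaps _ (h.sub x hx)) _ (h.nonneg x hx)

/-- Extension of a piecewise linear bijection of the bases to the cones. -/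
theorem ext (h : Radial B S p m) (h' : Radial B' S' p' m') {φ : E → E'} {ψ : E' → E}
    (hφ : PLInv φ ψ S S') :
    ∃ Φ : E → E', ∃ Ψ : E' → E, PLInv Φ Ψ B B' ∧ (∀ x ∈ S, Φ x = φ x) ∧ (∀ y ∈ S', Ψ y = ψ y) ∧
      (∀ x ∈ B, (x ∈ S ↔ Φ x ∈ S')) := by
  obtain ⟨a1, a2, a3⟩ := extAux h h' φ hφ.plf hφ.mapsf
  obtain ⟨b1, b2, b3⟩ := extAux h' h ψ hφ.plg hφ.mapsg
  refine ⟨fun x => φ (x - m x • p) + m x • p', fun y => ψ (y - m' y • p') + m' y • p,
    ⟨a1, b1, a2, b2, ?_, ?_⟩, ?_, ?_, ?_⟩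
  · intro x hx
    show ψ (φ (x - m x • p) + m x • p' - m' (φ (x - m x • p) + m x • p') • p') +
      m' (φ (x - m x • p) + m x • p') • p = x
    rw [a3 x hx, add_sub_cancel_right, hφ.gf _ (h.sub x hx), sub_add_cancel]
  · intro y hy
    show φ (ψ (y - m' y • p') + m' y • p - m (ψ (y - m' y • p') + m' y • p) • p) +
      m (ψ (y - m' y • p') + m' y • p) • p' = y
    rw [b3 y hy, add_sub_cancel_right, hφ.fg _ (h'.sub y hy), sub_add_cancel]
  · intro x hx
    show φ (x - m x • p) + m x • p' = φ x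
    rw [h.m_zero hx, zero_smul, zero_smul, sub_zero, add_zero]
  · intro y hy
    show ψ (y - m' y • p') + m' y • p = ψ y
    rw [h'.m_zero hy, zero_smul, zero_smul, sub_zero, add_zero]
  · intro x hx
    rw [h.mem_iff hx, h'.mem_iff (a2 x hx), a3 x hx]

end Radial

theorem PLOn.inf' {ι : Type*} {s : Finset ι} (hs : s.Nonempty) {f : ι → E → ℚ} {S : Set E}
    (h : ∀ i ∈ s, PLOn (f i) S) : PLOn (fun x => s.inf' hs (fun i => f i x)) S := by
  classical
  induction hs using Finset.Nonempty.cons_induction with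
  | singleton a => simpa using h a (by simp)
  | cons a s ha hs ih =>
    have h1 := ih (fun i hi => h i (by simp [hi]))
    have h2 := h a (by simp)
    refine (h2.min h1).congr (fun x _ => ?_)
    rw [Finset.inf'_cons hs]

section Family

variable {ι : Type*} [Fintype ι] [Nonempty ι]

/-- open, closed cone and boundary given by a family of forms -/
def KO (h : ι → E →ₗ[ℚ] ℚ) : Set E := {x | ∀ i, 0 < h i x}
def KC (h : ι → E →ₗ[ℚ] ℚ) : Set E := {x | ∀ i, 0 ≤ h i x}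
def KD (h : ι → E →ₗ[ℚ] ℚ) : Set E := {x | (∀ i, 0 ≤ h i x) ∧ ∃ i, h i x = 0}

/-- the radial function -/
noncomputable def rad (h : ι → E →ₗ[ℚ] ℚ) (p : E) (x : E) : ℚ :=
  Finset.univ.inf' Finset.univ_nonempty (fun i => h i x / h i p)

theorem plOn_rad (h : ι → E →ₗ[ℚ] ℚ) (p : E) (S : Set E) : PLOn (rad h p) S := by
  refine PLOn.inf' _ (fun i _ => ?_)
  have : PLOn (fun x => (h i p)⁻¹ • h i x) S := (plOn_linear (h i) S).smul _
  refine this.congr (fun x _ => ?_)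
  rw [smul_eq_mul]; ring

theorem rad_le (h : ι → E →ₗ[ℚ] ℚ) {p : E} (hp : p ∈ KO h) (x : E) (i : ι) :
    rad h p x * h i p ≤ h i x := by
  have h1 : rad h p x ≤ h i x / h i p := Finset.inf'_le _ (Finset.mem_univ i)
  rwa [le_div_iff₀ (hp i)] at h1

theorem exists_rad_eq (h : ι → E →ₗ[ℚ] ℚ) {p : E} (hp : p ∈ KO h) (x : E) :
    ∃ i, rad h p x * h i p = h i x := by
  obtain ⟨i, _, hi⟩ := Finset.exists_mem_eq_inf' Finset.univ_nonempty (fun i => h i x / h i p)
  refine ⟨i, ?_⟩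
  have : rad h p x = h i x / h i p := hi
  rw [this, div_mul_cancel₀]
  exact (hp i).ne'

theorem radial_KC (h : ι → E →ₗ[ℚ] ℚ) {p : E} (hp : p ∈ KO h) :
    Radial (KC h) (KD h) p (rad h p) where
  plm := plOn_rad h p _
  nonneg := by
    intro x hx
    obtain ⟨i, hi⟩ := exists_rad_eq h hp x
    by_contra hc
    have := mul_neg_of_neg_of_pos (not_le.1 hc) (hp i)
    rw [hi] at this
    exact absurd (hx i) (not_le.2 this)
  sub := by
    intro x hx
    refine ⟨fun i => ?_, ?_⟩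
    · rw [map_sub, map_smul, smul_eq_mul]
      linarith [rad_le h hp x i]
    · obtain ⟨i, hi⟩ := exists_rad_eq h hp x
      refine ⟨i, ?_⟩
      rw [map_sub, map_smul, smul_eq_mul]; linarith
  add := by
    intro v hv t ht i
    rw [map_add, map_smul, smul_eq_mul]
    have := hv.1 i
    have := mul_nonneg ht (hp i).le
    linarith
  val := by
    intro v hv t ht
    obtain ⟨j, hj⟩ := hv.2
    have key : ∀ i, h i (v + t • p) = h i v + t * h i p := fun i => by
      rw [map_add, map_smul, smul_eq_mul]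
    apply le_antisymm
    · have h1 := rad_le h hp (v + t • p) j
      rw [key j, hj, zero_add] at h1
      exact le_of_mul_le_mul_right h1 (hp j)
    · obtain ⟨i, hi⟩ := exists_rad_eq h hp (v + t • p)
      rw [key i] at hi
      have h1 := hv.1 i
      exact le_of_mul_le_mul_right (by linarith) (hp i)

theorem pol_halfspace (h : E →ₗ[ℚ] ℚ) : Pol {x | 0 ≤ h x} := by
  refine ⟨by simp, {h}, Set.finite_singleton h, fun y hy x hx => ?_⟩
  rcases hx h rfl with h1 | h1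
  · exact h1.ge
  · show 0 ≤ h x
    have hy : 0 ≤ h y := hy
    rcases hy.eq_or_lt with h2 | h2
    · rw [← h2, sign_zero, sign_eq_zero_iff] at h1; exact h1.ge
    · rw [sign_pos h2, sign_eq_one_iff] at h1; exact h1.le

theorem pol_hyperplane (h : E →ₗ[ℚ] ℚ) : Pol {x | h x = 0} := by
  have := (pol_halfspace h).inter (pol_halfspace (-h))
  convert this using 1
  ext x
  simp only [Set.mem_ofPred_eq, Set.mem_inter_iff, LinearMap.neg_apply]
  constructor
  · intro h1; rw [h1]; simp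
  · rintro ⟨h1, h2⟩; linarith

theorem pol_iInter {κ : Type*} [Finite κ] {s : κ → Set E} (h : ∀ i, Pol (s i)) :
    Pol (⋂ i, s i) := by
  classical
  choose h0 A hA H using h
  refine ⟨Set.mem_iInter.2 h0, ⋃ i, A i, Set.finite_iUnion hA, fun y hy x hx => ?_⟩
  rw [Set.mem_iInter] at hy ⊢
  intro i
  exact H i y (hy i) (face_anti (Set.subset_iUnion A i) y hx)

theorem pol_iUnion {κ : Type*} [Finite κ] [Nonempty κ] {s : κ → Set E} (h : ∀ i, Pol (s i)) :
    Pol (⋃ i, s i) := by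
  classical
  choose h0 A hA H using h
  refine ⟨Set.mem_iUnion.2 ⟨Classical.arbitrary κ, h0 _⟩, ⋃ i, A i, Set.finite_iUnion hA,
    fun y hy x hx => ?_⟩
  rw [Set.mem_iUnion] at hy ⊢
  obtain ⟨i, hi⟩ := hy
  exact ⟨i, H i y hi (face_anti (Set.subset_iUnion A i) y hx)⟩

omit [Nonempty ι] in
theorem pol_KC (h : ι → E →ₗ[ℚ] ℚ) : Pol (KC h) := by
  have : KC h = ⋂ i, {x | 0 ≤ h i x} := by ext x; simp [KC]
  rw [this]; exact pol_iInter (fun i => pol_halfspace _)

theorem pol_KD (h : ι → E →ₗ[ℚ] ℚ) : Pol (KD h) := by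
  have : KD h = KC h ∩ ⋃ i, {x | h i x = 0} := by ext x; simp [KD, KC]
  rw [this]; exact (pol_KC h).inter (pol_iUnion (fun i => pol_hyperplane _))

/-- Linear projection of the part of the boundary on one side of a hyperplane. -/
theorem proj_side (h : ι → E →ₗ[ℚ] ℚ) (h₀ : E →ₗ[ℚ] ℚ) {p : E} (hp : p ∈ KO h)
    (hp₀ : h₀ p < 0) :
    ∃ α β : E → E, PLInv α β (KD h ∩ {x | 0 ≤ h₀ x}) (KC h ∩ {x | h₀ x = 0}) ∧
      (∀ x, h₀ x = 0 → α x = x) ∧ (∀ x ∈ KD h, β x = x) ∧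
      (∀ x ∈ KD h ∩ {x | 0 ≤ h₀ x}, (h₀ x = 0 ↔ α x ∈ KD h)) := by
  have hR := radial_KC h hp
  have e1 : ∀ x i, h i (x - (h₀ x / h₀ p) • p) = h i x - (h₀ x / h₀ p) * h i p := fun x i => by
    rw [map_sub, map_smul, smul_eq_mul]
  have e2 : ∀ x, h₀ (x - (h₀ x / h₀ p) • p) = 0 := fun x => by
    rw [map_sub, map_smul, smul_eq_mul, div_mul_cancel₀ _ hp₀.ne, sub_self]
  have e3 : ∀ x, 0 ≤ h₀ x → h₀ x / h₀ p ≤ 0 := fun x hx => div_nonpos_of_nonneg_of_nonpos hx hp₀.le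
  refine ⟨fun x => x - (h₀ x / h₀ p) • p, fun x => x - rad h p x • p, ⟨?_, ?_, ?_, ?_, ?_, ?_⟩,
    ?_, ?_, ?_⟩
  · have : PLOn (fun x => x - ((h₀ p)⁻¹ • h₀ x) • p) (KD h ∩ {x | 0 ≤ h₀ x}) :=
      (plOn_id _).sub (((plOn_linear h₀ _).smul _).lin (LinearMap.toSpanSingleton ℚ E p))
    refine this.congr (fun x _ => ?_)
    rw [smul_eq_mul, div_eq_inv_mul]
  · exact (plOn_id _).sub ((plOn_rad h p _).lin (LinearMap.toSpanSingleton ℚ E p))
  · rintro x ⟨hx, hx0⟩
    refine ⟨fun i => ?_, e2 x⟩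
    show 0 ≤ h i (x - (h₀ x / h₀ p) • p)
    rw [e1 x i]
    have := mul_nonpos_of_nonpos_of_nonneg (e3 x hx0) (hp i).le
    linarith [hx.1 i]
  · rintro y ⟨hy, hy0⟩
    refine ⟨hR.sub y hy, ?_⟩
    show 0 ≤ h₀ (y - rad h p y • p)
    rw [map_sub, map_smul, smul_eq_mul]
    have h1 : h₀ y = 0 := hy0
    have := mul_nonpos_of_nonneg_of_nonpos (hR.nonneg y hy) hp₀.le
    linarith
  · rintro x ⟨hx, hx0⟩
    show x - (h₀ x / h₀ p) • p - rad h p (x - (h₀ x / h₀ p) • p) • p = x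
    have : x - (h₀ x / h₀ p) • p = x + (-(h₀ x / h₀ p)) • p := by rw [neg_smul, sub_eq_add_neg]
    rw [this, hR.val x hx _ (by linarith [e3 x hx0]), neg_smul]; abel
  · rintro y ⟨hy, hy0⟩
    show y - rad h p y • p - (h₀ (y - rad h p y • p) / h₀ p) • p = y
    have h1 : h₀ y = 0 := hy0
    rw [map_sub, map_smul, smul_eq_mul, h1, zero_sub, neg_div, mul_div_assoc,
      div_self hp₀.ne, mul_one, neg_smul]
    abel
  · intro x hx
    show x - (h₀ x / h₀ p) • p = x
    rw [hx, zero_div, zero_smul, sub_zero]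
  · intro x hx
    show x - rad h p x • p = x
    rw [hR.m_zero hx, zero_smul, sub_zero]
  · rintro x ⟨hx, hx0⟩
    show h₀ x = 0 ↔ x - (h₀ x / h₀ p) • p ∈ KD h
    constructor
    · intro h1
      rw [h1, zero_div, zero_smul, sub_zero]; exact hx
    · intro h1
      have h2 : x - (h₀ x / h₀ p) • p = x + (-(h₀ x / h₀ p)) • p := by
        rw [neg_smul, sub_eq_add_neg]
      rw [h2] at h1
      have h3 := hR.val x hx _ (by linarith [e3 x hx0] : 0 ≤ -(h₀ x / h₀ p))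
      rw [hR.m_zero h1] at h3
      have h4 : h₀ x / h₀ p = 0 := by linarith
      rcases div_eq_zero_iff.1 h4 with h5 | h5
      · exact h5
      · exact absurd h5 hp₀.ne

end Family

end Pool.Agent.Work.MP_552024_lc.PLS
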