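import Pool.Agent.Work.MP_552024_lc.PLS.Germ

set_option autoImplicit false

/-! Statements for the block on standard spheres (PL Schoenflies theorem in dimension 4).
Each `St_X` is the statement of one item. -/

namespace Pool.Agent.Work.MP_552024_lc.PLS

section Defs

variable {E : Type*} [AddCommGroup E] [Module ℚ E]

/-- The forms in `A` have no common zero. -/
def Spn (A : Set (E →ₗ[ℚ] ℚ)) : Prop := ∀ x : E, (∀ a ∈ A, a x = 0) → x = 0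

/-- `x` spans an edge (one dimensional cell) of `A`. -/
def Ray (A : Set (E →ₗ[ℚ] ℚ)) (x : E) : Prop :=
  x ≠ 0 ∧ ∀ y : E, (∀ a ∈ A, a x = 0 → a y = 0) → ∃ c : ℚ, y = c • x

/-- `x` lies in a chamber of `A`. -/
def Chm (A : Set (E →ₗ[ℚ] ℚ)) (x : E) : Prop := ∀ a ∈ A, a x ≠ 0

/-- The ray spanned by `p`. -/
def ray (p : E) : Set E := {x | ∃ c : ℚ, 0 ≤ c ∧ x = c • p}

/-- `S` lies in the open half space of `u`, up to `0`. -/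
def Bdd (u : E →ₗ[ℚ] ℚ) (S : Set E) : Prop := ∀ x ∈ S, x ≠ 0 → 0 < u x

/-- `T` is standard: its two sides are balls. -/
def Std (n : ℕ) (T : Set E) : Prop :=
  ∃ A A' : Set E, A ∪ A' = Set.univ ∧ A ∩ A' = T ∧ Ball n A T ∧ Ball n A' T

/-- `M` and `M'` are the closed sides of `T`. -/
def Sides (T M M' : Set E) : Prop :=
  Comp M Set.univ T ∧ Comp M' Set.univ T ∧ M ∪ M' = Set.univ ∧ M ∩ M' = T

end Defs

/-- All spheres of codimension one in dimension `n + 1` are standard. -/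
def SchA (n : ℕ) : Prop :=
  ∀ (E : Type) [AddCommGroup E] [Module ℚ E] [FiniteDimensional ℚ E],
    Module.finrank ℚ E = n + 1 → ∀ T : Set E, Sph n T → Std (n + 1) T

/-! ### Basic tools -/

/-- Every point is a positive combination of edges in its closed face. -/
def St_RD : Prop :=
  ∀ (E : Type) [AddCommGroup E] [Module ℚ E] [FiniteDimensional ℚ E] (A : Set (E →ₗ[ℚ] ℚ)),
    A.Finite → Spn A → ∀ x : E, ∃ (s : Finset E) (c : E → ℚ),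
      (∀ r ∈ s, Ray A r ∧ r ∈ face A x ∧ 0 < c r) ∧ x = ∑ r ∈ s, c r • r

/-- Half spaces are balls. -/
def St_HS : Prop :=
  ∀ (n : ℕ) (E : Type) [AddCommGroup E] [Module ℚ E] [FiniteDimensional ℚ E]
    (b : E →ₗ[ℚ] ℚ), Module.finrank ℚ E = n + 1 → b ≠ 0 →
    Ball (n + 1) {x : E | 0 ≤ b x} {x : E | b x = 0}

/-- Boundaries of convex cones are standard. -/
def St_CV : Prop :=
  ∀ (n : ℕ) (E : Type) [AddCommGroup E] [Module ℚ E] [FiniteDimensional ℚ E]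
    (ι : Type) [Fintype ι] [Nonempty ι] (h : ι → E →ₗ[ℚ] ℚ), Module.finrank ℚ E = n + 1 →
    (KO h).Nonempty → (∀ x, (∀ i, h i x = 0) → x = 0) → Std (n + 1) (KD h)

def St_SphIso : Prop :=
  ∀ (k : ℕ) (E E' : Type) [AddCommGroup E] [Module ℚ E] [FiniteDimensional ℚ E]
    [AddCommGroup E'] [Module ℚ E'] [FiniteDimensional ℚ E'] (T : Set E) (T' : Set E'),
    Sph (k + 1) T → Sph (k + 1) T' → ∃ (f : E → E') (g : E' → E), PLInv f g T T'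

def St_SphTr : Prop :=
  ∀ (k : ℕ) (E E' : Type) [AddCommGroup E] [Module ℚ E] [FiniteDimensional ℚ E]
    [AddCommGroup E'] [Module ℚ E'] [FiniteDimensional ℚ E'] (T : Set E) (T' : Set E')
    (f : E → E') (g : E' → E), Sph (k + 1) T → Pol T' → PLInv f g T T' → Sph (k + 1) T'

/-- The whole space is a sphere. -/
def St_SphQ : Prop :=
  ∀ (n : ℕ) (E : Type) [AddCommGroup E] [Module ℚ E] [FiniteDimensional ℚ E],
    Module.finrank ℚ E = n + 1 → Sph (n + 1) (Set.univ : Set E)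

def St_StdSides : Prop :=
  ∀ (n : ℕ) (E : Type) [AddCommGroup E] [Module ℚ E] [FiniteDimensional ℚ E] (T A A' : Set E),
    A ∪ A' = Set.univ → A ∩ A' = T → Ball (n + 1) A T → Ball (n + 1) A' T → Sides T A A'

/-- Standardness is invariant under piecewise linear homeomorphisms of the space. -/
def St_StdTr : Prop :=
  ∀ (n : ℕ) (E E' : Type) [AddCommGroup E] [Module ℚ E] [FiniteDimensional ℚ E]
    [AddCommGroup E'] [Module ℚ E'] [FiniteDimensional ℚ E'] (T : Set E) (T' : Set E')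
    (f : E → E') (g : E' → E), PLInv f g (Set.univ : Set E) (Set.univ : Set E') →
    (∀ x, x ∈ T ↔ f x ∈ T') → Std (n + 1) T' → Std (n + 1) T

/-- A codimension one sphere cuts a sphere into two balls. -/
def St_K3 : Prop :=
  ∀ (n : ℕ), SchA (n + 1) →
    ∀ (E : Type) [AddCommGroup E] [Module ℚ E] [FiniteDimensional ℚ E] (T C : Set E),
    Sph (n + 2) T → Sph (n + 1) C → C ⊆ T →
    ∃ E₁ E₂ : Set E, E₁ ∪ E₂ = T ∧ E₁ ∩ E₂ = C ∧ Ball (n + 2) E₁ C ∧ Ball (n + 2) E₂ C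

/-- The reduction of the Schoenflies theorem to spheres in a half space. -/
def St_Refl : Prop :=
  ∀ (n : ℕ) (E : Type) [AddCommGroup E] [Module ℚ E] [FiniteDimensional ℚ E],
    Module.finrank ℚ E = n + 2 →
    (∀ (T : Set E) (u : E →ₗ[ℚ] ℚ), Sph (n + 1) T → Bdd u T → Std (n + 2) T) →
    ∀ T : Set E, Sph (n + 1) T → Std (n + 2) T

/-- Connection with the hypothesis `SchP`. -/
def St_SchPof : Prop :=
  ∀ k : ℕ, (∀ (T : Set (Fin (k + 2) → ℚ)) (u : (Fin (k + 2) → ℚ) →ₗ[ℚ] ℚ),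
    Sph (k + 1) T → Bdd u T → Std (k + 2) T) → SchP (k + 2)

/-! ### Theta lemma -/

/-- Normal form for a standard sphere. -/
def St_NF : Prop :=
  ∀ (n : ℕ) (E : Type) [AddCommGroup E] [Module ℚ E] [FiniteDimensional ℚ E] (T A A' : Set E),
    Module.finrank ℚ E = n + 1 → A ∪ A' = Set.univ → A ∩ A' = T → Ball (n + 1) A T →
    Ball (n + 1) A' T → ∃ (f : E → (Fin (n + 1) → ℚ)) (g : (Fin (n + 1) → ℚ) → E),
      PLInv f g Set.univ Set.univ ∧ (∀ x, x ∈ A ↔ f x 0 ≤ 0) ∧ (∀ x, x ∈ A' ↔ 0 ≤ f x 0)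

/-- Normal form for a standard sphere which is the union of two balls. -/
def St_NF2 : Prop :=
  ∀ (n : ℕ) (E : Type) [AddCommGroup E] [Module ℚ E] [FiniteDimensional ℚ E]
    (A A' D E₁ c : Set E), Module.finrank ℚ E = n + 2 → A ∪ A' = Set.univ → A ∩ A' = E₁ ∪ D →
    Ball (n + 2) A (E₁ ∪ D) → Ball (n + 2) A' (E₁ ∪ D) → Ball (n + 1) D c → Ball (n + 1) E₁ c →
    D ∩ E₁ = c → ∃ (f : E → (Fin (n + 2) → ℚ)) (g : (Fin (n + 2) → ℚ) → E),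
      PLInv f g Set.univ Set.univ ∧ (∀ x, x ∈ A ↔ f x 0 ≤ 0) ∧ (∀ x, x ∈ A' ↔ 0 ≤ f x 0) ∧
      (∀ x, x ∈ D ↔ f x 0 = 0 ∧ f x 1 ≤ 0) ∧ (∀ x, x ∈ E₁ ↔ f x 0 = 0 ∧ 0 ≤ f x 1)

/-- Bounded slope. -/
def St_Slope : Prop :=
  ∀ (E : Type) [AddCommGroup E] [Module ℚ E] [FiniteDimensional ℚ E] (X : Set E)
    (a b : E →ₗ[ℚ] ℚ), Pol X → (∀ x ∈ X, 0 ≤ a x) → (∀ x ∈ X, a x = 0 → b x ≤ 0) →
    ∃ M : ℚ, 0 < M ∧ ∀ x ∈ X, b x ≤ M * a x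

/-- The coordinate form of the theta lemma. -/
def St_ThE : Prop :=
  ∀ (n : ℕ) (E₂ A₂ A₂' : Set (Fin (n + 2) → ℚ)),
    Ball (n + 1) E₂ {x | x 0 = 0 ∧ x 1 = 0} → (∀ x ∈ E₂, 0 ≤ x 0) →
    (∀ x ∈ E₂, x 0 = 0 → x 1 = 0) → A₂ ∪ A₂' = Set.univ →
    A₂ ∩ A₂' = E₂ ∪ {x | x 0 = 0 ∧ x 1 ≤ 0} →
    Ball (n + 2) A₂ (E₂ ∪ {x | x 0 = 0 ∧ x 1 ≤ 0}) →
    Ball (n + 2) A₂' (E₂ ∪ {x | x 0 = 0 ∧ x 1 ≤ 0}) → (∀ x ∈ A₂, 0 ≤ x 0) →
    Std (n + 2) ({x | x 0 = 0 ∧ 0 ≤ x 1} ∪ E₂)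

/-- The theta lemma. -/
def St_Theta : Prop :=
  ∀ (n : ℕ) (E : Type) [AddCommGroup E] [Module ℚ E] [FiniteDimensional ℚ E]
    (D E₁ E₂ c : Set E), Module.finrank ℚ E = n + 2 → Ball (n + 1) D c → Ball (n + 1) E₁ c →
    Ball (n + 1) E₂ c → D ∩ E₁ = c → D ∩ E₂ = c → E₁ ∩ E₂ = c → Std (n + 2) (E₁ ∪ D) →
    Std (n + 2) (E₂ ∪ D) → Std (n + 2) (E₁ ∪ E₂)

/-! ### Links -/

/-- The derivative of a piecewise linear homeomorphism. -/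
def St_Der : Prop :=
  ∀ (E E' : Type) [AddCommGroup E] [Module ℚ E] [FiniteDimensional ℚ E]
    [AddCommGroup E'] [Module ℚ E'] [FiniteDimensional ℚ E'] (S : Set E) (T : Set E')
    (f : E → E') (g : E' → E) (x : E), PLInv f g S T → Pol S → Pol T → x ∈ S →
    ∃ (F : E → E') (G : E' → E), PLInv F G (Tg x S) (Tg (f x) T) ∧
      (∀ v ∈ Tg x S, ∀ c : ℚ, F (v + c • x) = F v + c • f x) ∧
      (∀ z w, (∀ v ∈ S, ∀ c : ℚ, v + c • z ∈ S ∧ f (v + c • z) = f v + c • w) →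
        ∀ v ∈ Tg x S, ∀ c : ℚ, F (v + c • z) = F v + c • w) ∧
      (∀ U ⊆ S, ∀ v ∈ Tg x S, (v ∈ Tg x U ↔ F v ∈ Tg (f x) (f '' U)))

/-- Links of spheres are spheres. -/
def St_LS : Prop :=
  ∀ (k : ℕ) (E F : Type) [AddCommGroup E] [Module ℚ E] [FiniteDimensional ℚ E]
    [AddCommGroup F] [Module ℚ F] [FiniteDimensional ℚ F] (T : Set E) (x : E)
    (π : E →ₗ[ℚ] F) (σ : F →ₗ[ℚ] E), (∀ z, π (σ z) = z) → (∀ y, π y = 0 ↔ ∃ c : ℚ, y = c • x) →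
    Sph (k + 2) T → x ∈ T → x ≠ 0 → Sph (k + 1) (π '' Tg x T)

/-- Spheres of dimension one are pairs of rays. -/
def St_Sph1 : Prop :=
  ∀ (E : Type) [AddCommGroup E] [Module ℚ E] [FiniteDimensional ℚ E] (T : Set E),
    Sph 1 T ↔ ∃ p q : E, p ≠ 0 ∧ q ≠ 0 ∧ q ∉ ray p ∧ T = ray p ∪ ray q

/-- The germ of a sphere at a point with a two dimensional linear part. -/
def St_LS2 : Prop :=
  ∀ (E : Type) [AddCommGroup E] [Module ℚ E] [FiniteDimensional ℚ E] (T : Set E) (x e : E),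
    Sph 3 T → x ∈ T → x ≠ 0 → (¬ ∃ c : ℚ, e = c • x) →
    (∀ v ∈ Tg x T, ∀ c : ℚ, v + c • e ∈ Tg x T) →
    ∃ p q : E, (¬ ∃ a b : ℚ, p = a • x + b • e) ∧ (¬ ∃ a b : ℚ, q = a • x + b • e) ∧
      (¬ ∃ a b c : ℚ, 0 ≤ c ∧ q = a • x + b • e + c • p) ∧
      Tg x T = {v | ∃ a b c : ℚ, 0 ≤ c ∧ v = a • x + b • e + c • p} ∪
        {v | ∃ a b c : ℚ, 0 ≤ c ∧ v = a • x + b • e + c • q}

def St_ConnP : Prop :=
  ∀ (n : ℕ) (E : Type) [AddCommGroup E] [Module ℚ E] [FiniteDimensional ℚ E],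
    Module.finrank ℚ E = n + 2 → Conn ({x : E | x ≠ 0})

/-- Spheres of dimension `k + 2` are connected after removing the apex. -/
def St_ConnS : Prop :=
  ∀ (k : ℕ) (E : Type) [AddCommGroup E] [Module ℚ E] [FiniteDimensional ℚ E] (T : Set E),
    Sph (k + 2) T → Conn (T \ {0})

/-- Spheres of full dimension fill the space. -/
def St_NC : Prop :=
  ∀ (n : ℕ) (E : Type) [AddCommGroup E] [Module ℚ E] [FiniteDimensional ℚ E] (T : Set E),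
    Module.finrank ℚ E = n + 1 → Sph (n + 1) T → T = Set.univ

def St_NCp : Prop :=
  ∀ (n : ℕ) (E : Type) [AddCommGroup E] [Module ℚ E] [FiniteDimensional ℚ E] (X Y : Set E),
    Sph (n + 1) X → Sph (n + 1) Y → X ⊆ Y → X = Y

/-- Spheres of smaller dimension contain no chamber. -/
def St_NoChm : Prop :=
  ∀ (n : ℕ) (E : Type) [AddCommGroup E] [Module ℚ E] [FiniteDimensional ℚ E] (T : Set E)
    (A : Set (E →ₗ[ℚ] ℚ)), Module.finrank ℚ E = n + 2 → Sph (n + 1) T → A.Finite → InvA A T →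
    ∀ x, Chm A x → x ∉ T

/-! ### Colorings -/

section Col

variable {E : Type*} [AddCommGroup E] [Module ℚ E]

/-- `z` is an interior point of a facet, lying in the kernel of `b`. -/
def Facet (A : Set (E →ₗ[ℚ] ℚ)) (z : E) (b : E →ₗ[ℚ] ℚ) : Prop :=
  b ∈ A ∧ b z = 0 ∧ ∀ a ∈ A, a z = 0 → ∃ k : ℚ, a = k • b

/-- The coloring `c` changes across the facet at `z` if and only if `z ∈ w`. -/
def FlipAt (A : Set (E →ₗ[ℚ] ℚ)) (c w : Set E) (z : E) (b : E →ₗ[ℚ] ℚ) : Prop :=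
  ∀ x y, z ∈ face A x → z ∈ face A y → 0 < b x → b y < 0 → ((x ∈ c ↔ y ∉ c) ↔ z ∈ w)

/-- The coloring `c` changes across the facet at `z`. -/
def Flips (A : Set (E →ₗ[ℚ] ℚ)) (c : Set E) (z : E) (b : E →ₗ[ℚ] ℚ) : Prop :=
  ∃ x y, z ∈ face A x ∧ z ∈ face A y ∧ 0 < b x ∧ b y < 0 ∧ (x ∈ c ↔ y ∉ c)

/-- `c` is constant on the chambers. -/
def InvC (A : Set (E →ₗ[ℚ] ℚ)) (c : Set E) : Prop :=
  ∀ x y, SameSign A x y → Chm A x → x ∈ c → y ∈ c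

/-- Local colorings exist. -/
def LC (A : Set (E →ₗ[ℚ] ℚ)) (w : Set E) : Prop :=
  ∀ q : E, q ≠ 0 → ∃ c : Set E, InvC (At A q) c ∧
    ∀ z b, Facet A z b → q ∈ face A z → FlipAt A c w z b

def c0 (A : Set (E →ₗ[ℚ] ℚ)) (a : E →ₗ[ℚ] ℚ) (w : Set E) : Set E :=
  {x | 0 < a x ∧ ∃ h, a h = 0 ∧ SameSign A h x ∧ h ∈ w}

def w1 (A : Set (E →ₗ[ℚ] ℚ)) (a : E →ₗ[ℚ] ℚ) (w : Set E) : Set E :=
  {z | ∃ z' b, SameSign A z z' ∧ a z' ≠ 0 ∧ Facet A z' b ∧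
    ¬ (z' ∈ w ↔ Flips (insert a A) (c0 A a w) z' b)}

/-- The situation of the induction step. -/
def JBh (A : Set (E →ₗ[ℚ] ℚ)) (a : E →ₗ[ℚ] ℚ) (w : Set E) : Prop :=
  A.Finite ∧ (∀ b ∈ A, b ≠ 0) ∧ a ≠ 0 ∧ (∀ b ∈ A, ∀ k : ℚ, b ≠ k • a) ∧
    InvA (insert a A) w ∧ LC (insert a A) w ∧ Spn (insert a A)

end Col

/-- The modified cycle is well defined. -/
def St_JBa : Prop :=
  ∀ (n : ℕ) (E : Type) [AddCommGroup E] [Module ℚ E] [FiniteDimensional ℚ E]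
    (A : Set (E →ₗ[ℚ] ℚ)) (a : E →ₗ[ℚ] ℚ) (w : Set E), Module.finrank ℚ E = n + 3 →
    JBh A a w → ∀ z z' b b', SameSign A z z' → a z ≠ 0 → a z' ≠ 0 → Facet A z b → Facet A z' b' →
      ((z ∈ w ↔ Flips (insert a A) (c0 A a w) z b) ↔
        (z' ∈ w ↔ Flips (insert a A) (c0 A a w) z' b'))

/-- The modified cycle satisfies the local condition. -/
def St_JBb : Prop :=
  ∀ (n : ℕ) (E : Type) [AddCommGroup E] [Module ℚ E] [FiniteDimensional ℚ E]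
    (A : Set (E →ₗ[ℚ] ℚ)) (a : E →ₗ[ℚ] ℚ) (w : Set E), Module.finrank ℚ E = n + 3 →
    JBh A a w → LC A (w1 A a w)

/-- Locally colorable cycles are colorable. -/
def St_JB : Prop :=
  ∀ (n : ℕ) (E : Type) [AddCommGroup E] [Module ℚ E] [FiniteDimensional ℚ E]
    (A : Set (E →ₗ[ℚ] ℚ)) (w : Set E), Module.finrank ℚ E = n + 3 → A.Finite →
    (∀ b ∈ A, b ≠ 0) → InvA A w → LC A w →
    ∃ c : Set E, InvC A c ∧ ∀ z b, Facet A z b → FlipAt A c w z b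

/-- Generic segments meet the hyperplanes one at a time. -/
def St_Gen : Prop :=
  ∀ (E : Type) [AddCommGroup E] [Module ℚ E] [FiniteDimensional ℚ E]
    (A : Set (E →ₗ[ℚ] ℚ)) (x₀ y₀ : E), A.Finite → Chm A x₀ → Chm A y₀ →
    ∃ y₁, SameSign A y₁ y₀ ∧ ∀ t : ℚ, 0 ≤ t → t ≤ 1 → ∀ b ∈ A, b (x₀ + t • (y₁ - x₀)) = 0 →
      Facet A (x₀ + t • (y₁ - x₀)) b

/-- Local sides. -/
def St_LocS : Prop :=
  ∀ (n : ℕ), SchA (n + 1) →
    ∀ (E : Type) [AddCommGroup E] [Module ℚ E] [FiniteDimensional ℚ E] (T : Set E) (x : E),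
    Module.finrank ℚ E = n + 3 → Sph (n + 2) T → x ∈ T → x ≠ 0 →
    ∃ N N' : Set E, Sides (Tg x T) N N'

/-- A sphere has a coloring. -/
def St_ColS : Prop :=
  ∀ (n : ℕ), SchA (n + 1) →
    ∀ (E : Type) [AddCommGroup E] [Module ℚ E] [FiniteDimensional ℚ E] (T : Set E),
    Module.finrank ℚ E = n + 3 → Sph (n + 2) T →
    ∃ (A : Set (E →ₗ[ℚ] ℚ)) (c : Set E), A.Finite ∧ (∀ b ∈ A, b ≠ 0) ∧ ClA A T ∧ InvC A c ∧
      ∀ z b, Facet A z b → FlipAt A c T z b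

/-- From a coloring to closed sets. -/
def St_ColM : Prop :=
  ∀ (E : Type) [AddCommGroup E] [Module ℚ E] [FiniteDimensional ℚ E] (T : Set E)
    (A : Set (E →ₗ[ℚ] ℚ)) (c : Set E), A.Finite → (∀ b ∈ A, b ≠ 0) → ClA A T →
    InvC A c → (∀ z b, Facet A z b → FlipAt A c T z b) → (∀ x, Chm A x → x ∉ T) →
    (∀ x ∈ T, x ≠ 0 → ∃ N N' : Set E, Sides (Tg x T) N N') → (∃ x ∈ T, x ≠ 0) →
    ∃ M M' : Set E, Pol M ∧ Pol M' ∧ M ∪ M' = Set.univ ∧ M ∩ M' = T ∧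
      ∀ x ∈ T, x ≠ 0 → Sides (Tg x T) (Tg x M) (Tg x M')

/-- Connectedness of the sides. -/
def St_ColC : Prop :=
  ∀ (n : ℕ) (E : Type) [AddCommGroup E] [Module ℚ E] [FiniteDimensional ℚ E] (T M M' : Set E),
    Module.finrank ℚ E = n + 2 → Pol M → Pol M' → M ∪ M' = Set.univ → M ∩ M' = T →
    (∀ x ∈ T, x ≠ 0 → Sides (Tg x T) (Tg x M) (Tg x M')) → Conn (T \ {0}) → Sides T M M'

/-- Jordan Brouwer separation. -/
def St_JBS : Prop :=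
  ∀ (n : ℕ), SchA (n + 1) →
    ∀ (E : Type) [AddCommGroup E] [Module ℚ E] [FiniteDimensional ℚ E] (T : Set E),
    Module.finrank ℚ E = n + 3 → Sph (n + 2) T →
    ∃ M M' : Set E, Sides T M M' ∧ ∀ x ∈ T, x ≠ 0 → Sides (Tg x T) (Tg x M) (Tg x M')

/-! ### Further tools -/

/-- The boundary of a ball is a sphere. -/
def St_BdSph : Prop :=
  ∀ (n : ℕ) (E : Type) [AddCommGroup E] [Module ℚ E] [FiniteDimensional ℚ E] (A T : Set E),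
    Ball (n + 2) A T → Sph (n + 1) T

/-- Ball without its boundary is connected. -/
def St_ConnB : Prop :=
  ∀ (n : ℕ) (E : Type) [AddCommGroup E] [Module ℚ E] [FiniteDimensional ℚ E] (A T : Set E),
    Ball (n + 1) A T → Conn (A \ T) ∧ cl (A \ T) = A ∧ (0 : E) ∈ T

/-- Ball without the apex is connected. -/
def St_ConnB0 : Prop :=
  ∀ (n : ℕ) (E : Type) [AddCommGroup E] [Module ℚ E] [FiniteDimensional ℚ E] (A T : Set E),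
    Ball (n + 1) A T → Conn (A \ {0})

/-- A bounded sphere of codimension one is not contained in a hyperplane. -/
def St_NotFlat : Prop :=
  ∀ (n : ℕ) (E : Type) [AddCommGroup E] [Module ℚ E] [FiniteDimensional ℚ E] (T : Set E)
    (a u : E →ₗ[ℚ] ℚ), Module.finrank ℚ E = n + 2 → a ≠ 0 → Sph (n + 1) T →
    (∀ x ∈ T, a x = 0) → ¬ Bdd u T

/-- Pieces of a cut closed set are closed for the same forms. -/
def St_ClE : Prop :=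
  ∀ (E : Type) [AddCommGroup E] [Module ℚ E] [FiniteDimensional ℚ E] (A : Set (E →ₗ[ℚ] ℚ))
    (T c E₁ E₂ : Set E), A.Finite → ClA A T → ClA A c → E₁ ∪ E₂ = T → E₁ ∩ E₂ = c → Pol E₁ →
    Pol E₂ → ClA A E₁

/-- The sides of a union of faces are unions of faces. -/
def St_ClM : Prop :=
  ∀ (E : Type) [AddCommGroup E] [Module ℚ E] [FiniteDimensional ℚ E] (A : Set (E →ₗ[ℚ] ℚ))
    (T M : Set E), A.Finite → ClA A T → Comp M Set.univ T → ClA A M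

/-- Convex cones in a hyperplane. -/
def St_SecB : Prop :=
  ∀ (n : ℕ) (E : Type) [AddCommGroup E] [Module ℚ E] [FiniteDimensional ℚ E]
    (ι : Type) [Fintype ι] [Nonempty ι] (h : ι → E →ₗ[ℚ] ℚ) (a : E →ₗ[ℚ] ℚ) (w : E),
    Module.finrank ℚ E = n + 2 → a ≠ 0 → a w = 0 → w ∈ KO h →
    (∀ x, a x = 0 → (∀ i, h i x = 0) → x = 0) →
    Ball (n + 1) (KC h ∩ {x | a x = 0}) (KD h ∩ {x | a x = 0})

/-- A sphere that crosses no hyperplane of its arrangement is standard. -/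
def St_Base : Prop :=
  ∀ (n : ℕ) (E : Type) [AddCommGroup E] [Module ℚ E] [FiniteDimensional ℚ E] (T : Set E)
    (A : Set (E →ₗ[ℚ] ℚ)) (u : E →ₗ[ℚ] ℚ), Module.finrank ℚ E = n + 2 → Sph (n + 1) T →
    Bdd u T → A.Finite → Spn A → ClA A T →
    (∀ a ∈ A, (∀ x ∈ T, 0 ≤ a x) ∨ (∀ x ∈ T, a x ≤ 0)) → Std (n + 2) T

/-! ### Circles in three dimensional space -/

section Cnt

variable {E : Type*} [AddCommGroup E] [Module ℚ E]

open Classical in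
/-- The sign vector of `x`. -/
noncomputable def sgv (A : Set (E →ₗ[ℚ] ℚ)) (x : E) : (E →ₗ[ℚ] ℚ) → SignType :=
  fun a => if a ∈ A then SignType.sign (a x) else 0

/-- The number of cells of `T` off the kernel of `a`. -/
noncomputable def nof (A : Set (E →ₗ[ℚ] ℚ)) (a : E →ₗ[ℚ] ℚ) (T : Set E) : ℕ :=
  Set.ncard {σ | ∃ x ∈ T, a x ≠ 0 ∧ σ = sgv A x}

/-- The number of chambers of `K`. -/
noncomputable def nch (A : Set (E →ₗ[ℚ] ℚ)) (K : Set E) : ℕ :=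
  Set.ncard {σ | ∃ x ∈ K, Chm A x ∧ σ = sgv A x}

end Cnt

def St_SchA1 : Prop := SchA 1

/-- Last points on a segment. -/
def St_Last : Prop :=
  ∀ (E : Type) [AddCommGroup E] [Module ℚ E] [FiniteDimensional ℚ E] (X Y : Set E) (p₀ q₀ : E),
    Pol X → Pol Y → p₀ ∈ X → q₀ ∈ Y →
    (∀ t : ℚ, 0 ≤ t → t ≤ 1 → p₀ + t • (q₀ - p₀) ∈ X → p₀ + t • (q₀ - p₀) ∉ Y) →
    ∃ t₁ t₂ : ℚ, 0 ≤ t₁ ∧ t₁ < t₂ ∧ t₂ ≤ 1 ∧
      ((p₀ + t₁ • (q₀ - p₀) ∈ X ∧ p₀ + t₂ • (q₀ - p₀) ∈ Y) ∨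
        (p₀ + t₁ • (q₀ - p₀) ∈ Y ∧ p₀ + t₂ • (q₀ - p₀) ∈ X)) ∧
      ∀ t : ℚ, t₁ < t → t < t₂ → p₀ + t • (q₀ - p₀) ∉ X ∧ p₀ + t • (q₀ - p₀) ∉ Y

/-- The cut of a circle along a gap. -/
def St_Cut3 : Prop :=
  ∀ (E : Type) [AddCommGroup E] [Module ℚ E] [FiniteDimensional ℚ E] (T : Set E)
    (A : Set (E →ₗ[ℚ] ℚ)) (u a : E →ₗ[ℚ] ℚ), Module.finrank ℚ E = 3 → Sph 2 T → Bdd u T →
    A.Finite → Spn A → ClA A T → u ∈ A → a ∈ A → (∃ x ∈ T, 0 < a x) → (∃ x ∈ T, a x < 0) →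
    ∃ D c : Set E, Ball 2 D c ∧ Sph 1 c ∧ D ∩ T = c ∧ ClA A D ∧ (∀ x ∈ D, a x = 0) ∧ Bdd u D ∧
      ∀ b : E →ₗ[ℚ] ℚ, (∀ x ∈ T, 0 ≤ b x) → ∀ x ∈ D, 0 ≤ b x

/-- The Schoenflies theorem for circles. -/
def St_SchA2 : Prop := SchA 2

/-- A connected open cone in the plane. -/
def St_PF : Prop :=
  ∀ (F : Type) [AddCommGroup F] [Module ℚ F] [FiniteDimensional ℚ F] (k : Set F),
    Module.finrank ℚ F = 2 → Pol kᶜ → Conn k →
    (cl k \ k = {0}) ∨ (∃ p : F, p ≠ 0 ∧ cl k \ k = ray p ∧ ∀ y, y ∈ k ∨ y ∈ ray p) ∨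
    (∃ p q : F, p ≠ 0 ∧ q ≠ 0 ∧ q ∉ ray p ∧ cl k \ k = ray p ∪ ray q)

section Reg

variable {E : Type*} [AddCommGroup E] [Module ℚ E]

/-- The germ of `Y` at `x` is a pair of half planes. -/
def Reg2 (Y : Set E) (x : E) : Prop :=
  ∃ p q : E, (¬ ∃ a : ℚ, p = a • x) ∧ (¬ ∃ a : ℚ, q = a • x) ∧
    (¬ ∃ a c : ℚ, 0 ≤ c ∧ q = a • x + c • p) ∧
    Tg x Y = {v | ∃ a c : ℚ, 0 ≤ c ∧ v = a • x + c • p} ∪
      {v | ∃ a c : ℚ, 0 ≤ c ∧ v = a • x + c • q}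

/-- The components of the complement of `S` meet the hyperplane of `l` in connected sets. -/
def PP (S : Set E) (l : E →ₗ[ℚ] ℚ) : Prop :=
  ∀ M, Comp M Set.univ S → (M \ S) ∩ {x | l x = 0} = ∅ ∨ Conn ((M \ S) ∩ {x | l x = 0})

/-- The form of the level of `x`. -/
def lev (u v : E →ₗ[ℚ] ℚ) (x : E) : E →ₗ[ℚ] ℚ := u x • v - v x • u

end Reg

/-- The structure of the edges of a regular set. -/
def St_Edge : Prop :=
  ∀ (E : Type) [AddCommGroup E] [Module ℚ E] [FiniteDimensional ℚ E] (Y : Set E)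
    (A : Set (E →ₗ[ℚ] ℚ)) (u : E →ₗ[ℚ] ℚ), A.Finite → Spn A → u ∈ A → ClA A Y → Bdd u Y →
    (∀ y ∈ Y, y ≠ 0 → Reg2 Y y) → ∀ y ∈ Y, y ≠ 0 → ¬ Ray A y →
    ∃ r s : E, Ray A r ∧ Ray A s ∧ s ∉ ray r ∧ r ∉ ray s ∧
      face A y = {x | ∃ c d : ℚ, 0 ≤ c ∧ 0 ≤ d ∧ x = c • r + d • s} ∧
      (∀ x, (∃ c d : ℚ, 0 < c ∧ 0 < d ∧ x = c • r + d • s) → SameSign A x y) ∧
      Tg y Y = {v | ∃ c d : ℚ, v = c • r + d • s}

/-- A regular set is a union of circles. -/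
def St_Circ : Prop :=
  ∀ (E : Type) [AddCommGroup E] [Module ℚ E] [FiniteDimensional ℚ E] (Y : Set E)
    (u : E →ₗ[ℚ] ℚ) (x : E), Pol Y → Bdd u Y → (∀ y ∈ Y, y ≠ 0 → Reg2 Y y) → x ∈ Y → x ≠ 0 →
    ∃ C ⊆ Y, Sph 2 C ∧ x ∈ C ∧ ∀ y ∈ C, y ≠ 0 → Tg y C = Tg y Y

/-- The Schoenflies theorem in a hyperplane. -/
def St_SchH : Prop :=
  ∀ (n : ℕ), SchA (n + 1) →
    ∀ (E : Type) [AddCommGroup E] [Module ℚ E] [FiniteDimensional ℚ E] (C : Set E)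
    (h : E →ₗ[ℚ] ℚ), Module.finrank ℚ E = n + 3 → h ≠ 0 → Sph (n + 1) C →
    (∀ x ∈ C, h x = 0) → ∃ D D' : Set E, D ∪ D' = {x | h x = 0} ∧ D ∩ D' = C ∧
      Ball (n + 2) D C ∧ Ball (n + 2) D' C

/-- The bounded side. -/
def St_Disc : Prop :=
  ∀ (n : ℕ), SchA (n + 1) →
    ∀ (E : Type) [AddCommGroup E] [Module ℚ E] [FiniteDimensional ℚ E] (C : Set E)
    (h u : E →ₗ[ℚ] ℚ), Module.finrank ℚ E = n + 3 → h ≠ 0 → Sph (n + 1) C →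
    (∀ x ∈ C, h x = 0) → Bdd u C → ∃ D D' : Set E, D ∪ D' = {x | h x = 0} ∧ D ∩ D' = C ∧
      Ball (n + 2) D C ∧ Ball (n + 2) D' C ∧ Bdd u D ∧ ∀ x, h x = 0 → u x ≤ 0 → x ∈ D'

/-- Cells meet all the levels of a gap. -/
def St_Gap : Prop :=
  ∀ (E : Type) [AddCommGroup E] [Module ℚ E] [FiniteDimensional ℚ E] (A : Set (E →ₗ[ℚ] ℚ))
    (u v : E →ₗ[ℚ] ℚ) (l c t : ℚ) (x : E), A.Finite → Spn A → l < t → t < c →
    v - l • u ∈ A → c • u - v ∈ A →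
    (∀ r, Ray A r → ¬ (0 < (v - l • u) r ∧ 0 < (c • u - v) r)) →
    0 < (v - l • u) x → 0 < (c • u - v) x → ∃ y, SameSign A y x ∧ v y = t * u y

/-- The situation of the slab lemma. -/
structure SlabH {E : Type} [AddCommGroup E] [Module ℚ E] (A : Set (E →ₗ[ℚ] ℚ))
    (u v : E →ₗ[ℚ] ℚ) (l c : ℚ) (K : Set E) : Prop where
  fin : A.Finite
  spn : Spn A
  ne : ∀ a ∈ A, a ≠ 0
  lt : l < c
  low : v - l • u ∈ A
  up : c • u - v ∈ A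
  inv : InvA A K
  opn : Pol Kᶜ
  conn : Conn K
  slab : ∀ x ∈ K, 0 < (v - l • u) x ∧ 0 < (c • u - v) x
  bdd : Bdd u (cl K)
  sph : Sph 3 (cl K \ K)
  noray : ∀ r, Ray A r → ¬ (0 < (v - l • u) r ∧ 0 < (c • u - v) r)

def St_SlabB : Prop :=
  ∀ (E : Type) [AddCommGroup E] [Module ℚ E] [FiniteDimensional ℚ E] (A : Set (E →ₗ[ℚ] ℚ))
    (u v : E →ₗ[ℚ] ℚ) (l c : ℚ) (K : Set E), Module.finrank ℚ E = 4 → SlabH A u v l c K →
    (∀ x ∈ K, Chm A x) → Std 4 (cl K \ K)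

def St_Chord : Prop :=
  ∀ (E : Type) [AddCommGroup E] [Module ℚ E] [FiniteDimensional ℚ E] (A : Set (E →ₗ[ℚ] ℚ))
    (u v : E →ₗ[ℚ] ℚ) (l c : ℚ) (K : Set E) (x₀ : E) (a : E →ₗ[ℚ] ℚ),
    Module.finrank ℚ E = 4 → SlabH A u v l c K → x₀ ∈ K → a ∈ A → a x₀ = 0 →
    ∃ D C : Set E, Ball 3 D C ∧ Sph 2 C ∧ D ∩ (cl K \ K) = C ∧ D \ C ⊆ K ∧ ClA A D

def St_Slab : Prop :=
  ∀ (E : Type) [AddCommGroup E] [Module ℚ E] [FiniteDimensional ℚ E] (A : Set (E →ₗ[ℚ] ℚ))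
    (u v : E →ₗ[ℚ] ℚ) (l c : ℚ) (K : Set E), Module.finrank ℚ E = 4 → SlabH A u v l c K →
    Std 4 (cl K \ K)

/-- Transversal invariance gives `PP`. -/
def St_TD : Prop :=
  ∀ (E : Type) [AddCommGroup E] [Module ℚ E] [FiniteDimensional ℚ E] (S M : Set E)
    (l : E →ₗ[ℚ] ℚ) (e : E), Pol S → (∀ v ∈ S, ∀ c : ℚ, v + c • e ∈ S) → l e ≠ 0 →
    Comp M Set.univ S → (M \ S) ∩ {x | l x = 0} = ∅ ∨ Conn ((M \ S) ∩ {x | l x = 0})

end Pool.Agent.Work.MP_552024_lc.PLS
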