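import Pool.Agent.Work.MP_552024_lc.PLS.S4

set_option autoImplicit false

/-! Statements for the block on levels (PL Schoenflies theorem in dimension 4). -/

namespace Pool.Agent.Work.MP_552024_lc.PLS

section Defs

variable {E : Type*} [AddCommGroup E] [Module ℚ E]

/-- The level `t`. -/
def Hl (u v : E →ₗ[ℚ] ℚ) (t : ℚ) : Set E := {x | v x = t * u x}

/-- The union of the special levels. -/
def FF (L : Set ℚ) (u v : E →ₗ[ℚ] ℚ) : Set E := {x | ∃ l ∈ L, v x = l * u x}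

/-- Consecutive special levels. -/
def Adj (L : Set ℚ) (l c : ℚ) : Prop := l ∈ L ∧ c ∈ L ∧ l < c ∧ ∀ m ∈ L, m ≤ l ∨ c ≤ m

/-- The open region between two levels. -/
def Gr (u v : E →ₗ[ℚ] ℚ) (l c : ℚ) : Set E := {x | l * u x < v x ∧ v x < c * u x}

/-- The arrangement with the special levels added. -/
def Bp (B : Set (E →ₗ[ℚ] ℚ)) (L : Set ℚ) (u v : E →ₗ[ℚ] ℚ) : Set (E →ₗ[ℚ] ℚ) :=
  B ∪ {a | ∃ l ∈ L, a = v - l • u ∨ a = l • u - v}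

/-- The bounded side of the circle `C` in the hyperplane of `h`. -/
def bsd (u h : E →ₗ[ℚ] ℚ) (C : Set E) : Set E :=
  {x | h x = 0 ∧ (x ∈ C ∨ ¬ ∃ G : Set E, Conn G ∧ x ∈ G ∧ (∀ y ∈ G, h y = 0 ∧ y ∉ C) ∧
    ∃ y ∈ G, u y ≤ 0)}

/-- The closed unbounded side. -/
def osd (u h : E →ₗ[ℚ] ℚ) (C : Set E) : Set E := {x | h x = 0 ∧ (x ∈ C ∨ x ∉ bsd u h C)}

/-- The open tube inside the annulus `M` between the levels `l` and `c`. -/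
def Tub (u v : E →ₗ[ℚ] ℚ) (M : Set E) (l c : ℚ) : Set E :=
  {x | x ∈ Gr u v l c ∧ x ∉ M ∧ x ∈ bsd u (v - (v x / u x) • u) (M ∩ Hl u v (v x / u x))}

/-- The lower part of an annulus, capped at the level `c`. -/
def Up (u v : E →ₗ[ℚ] ℚ) (F M : Set E) (c : ℚ) : Set E :=
  ((M \ F) ∩ {x | v x ≤ c * u x}) ∪ (bsd u (v - c • u) (M ∩ Hl u v c) \ {0})

/-- The upper part of an annulus, capped at the level `c`. -/
def Dn (u v : E →ₗ[ℚ] ℚ) (F M : Set E) (c : ℚ) : Set E :=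
  ((M \ F) ∩ {x | c * u x ≤ v x}) ∪ (bsd u (v - c • u) (M ∩ Hl u v c) \ {0})

end Defs

/-- The situation of the level argument. -/
structure LvH {E : Type} [AddCommGroup E] [Module ℚ E] (T : Set E) (u v : E →ₗ[ℚ] ℚ)
    (B : Set (E →ₗ[ℚ] ℚ)) (L : Set ℚ) : Prop where
  dim : Module.finrank ℚ E = 4
  sph : Sph 3 T
  bdd : Bdd u T
  fin : B.Finite
  spn : Spn B
  ne : ∀ b ∈ B, b ≠ 0
  cla : ClA B T
  lam : L.Finite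
  ray : ∀ r, Ray B r → 0 < u r → ∃ l ∈ L, v r = l * u r
  ind : ∀ t : ℚ, v ≠ t • u

/-- `M` is an annulus of `T` between the levels `l` and `c`. -/
structure AnnH {E : Type} [AddCommGroup E] [Module ℚ E] (T : Set E) (u v : E →ₗ[ℚ] ℚ)
    (L : Set ℚ) (M : Set E) (l c : ℚ) : Prop where
  comp : Comp M T (FF L u v)
  adj : Adj L l c
  gr : M \ FF L u v ⊆ Gr u v l c

def St_ClC : Prop :=
  ∀ (E : Type) [AddCommGroup E] [Module ℚ E] [FiniteDimensional ℚ E] (A : Set (E →ₗ[ℚ] ℚ))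
    (C F M : Set E), A.Finite → ClA A C → ClA A F → Pol C → Pol F → Comp M C F → ClA A M

def St_LvMk : Prop :=
  ∀ (E : Type) [AddCommGroup E] [Module ℚ E] [FiniteDimensional ℚ E] (T : Set E)
    (u v : E →ₗ[ℚ] ℚ), Module.finrank ℚ E = 4 → Sph 3 T → Bdd u T → (∀ t : ℚ, v ≠ t • u) →
    ∃ (B : Set (E →ₗ[ℚ] ℚ)) (L : Set ℚ), LvH T u v B L

/-- The bounded side has the expected properties. -/
def St_Bsd : Prop :=
  ∀ (n : ℕ), SchA (n + 1) →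
    ∀ (E : Type) [AddCommGroup E] [Module ℚ E] [FiniteDimensional ℚ E] (C : Set E)
    (h u : E →ₗ[ℚ] ℚ), Module.finrank ℚ E = n + 3 → h ≠ 0 → Sph (n + 1) C →
    (∀ x ∈ C, h x = 0) → Bdd u C →
    bsd u h C ∪ osd u h C = {x | h x = 0} ∧ bsd u h C ∩ osd u h C = C ∧
      Ball (n + 2) (bsd u h C) C ∧ Ball (n + 2) (osd u h C) C ∧ Bdd u (bsd u h C) ∧
      ∀ x, h x = 0 → u x ≤ 0 → x ∈ osd u h C

/-- Two disjoint circles in a plane. -/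
def St_Nest : Prop :=
  ∀ (E : Type) [AddCommGroup E] [Module ℚ E] [FiniteDimensional ℚ E] (C C' : Set E)
    (h u : E →ₗ[ℚ] ℚ), Module.finrank ℚ E = 4 → h ≠ 0 → Sph 2 C → Sph 2 C' →
    (∀ x ∈ C, h x = 0) → (∀ x ∈ C', h x = 0) → Bdd u C → Bdd u C' → C ∩ C' ⊆ {0} →
    (C' ⊆ bsd u h C ∧ bsd u h C' ⊆ bsd u h C ∧ C ∩ bsd u h C' ⊆ {0}) ∨
      (C ⊆ bsd u h C' ∧ bsd u h C ⊆ bsd u h C' ∧ C' ∩ bsd u h C ⊆ {0}) ∨
      (bsd u h C ∩ bsd u h C' ⊆ {0})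

def St_LvRay : Prop :=
  ∀ (E : Type) [AddCommGroup E] [Module ℚ E] [FiniteDimensional ℚ E] (T : Set E)
    (u v : E →ₗ[ℚ] ℚ) (B : Set (E →ₗ[ℚ] ℚ)) (L : Set ℚ), LvH T u v B L →
    (Bp B L u v).Finite ∧ Spn (Bp B L u v) ∧ ClA (Bp B L u v) T ∧
      ClA (Bp B L u v) (FF L u v) ∧
      (∀ r, Ray (Bp B L u v) r → 0 < u r → ∃ l ∈ L, v r = l * u r) ∧ L.Nonempty ∧
      Pol (FF L u v)

/-- Cells meet all the levels. -/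
def St_LvCell : Prop :=
  ∀ (E : Type) [AddCommGroup E] [Module ℚ E] [FiniteDimensional ℚ E] (T : Set E)
    (u v : E →ₗ[ℚ] ℚ) (B : Set (E →ₗ[ℚ] ℚ)) (L : Set ℚ) (l c t : ℚ) (x : E), LvH T u v B L →
    Adj L l c → l < t → t < c → x ∈ Gr u v l c → ∃ y, SameSign (Bp B L u v) y x ∧ v y = t * u y

def St_LvGap : Prop :=
  ∀ (E : Type) [AddCommGroup E] [Module ℚ E] [FiniteDimensional ℚ E] (T : Set E)
    (u v : E →ₗ[ℚ] ℚ) (B : Set (E →ₗ[ℚ] ℚ)) (L : Set ℚ) (M : Set E), LvH T u v B L →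
    Comp M T (FF L u v) → ∃ l c, AnnH T u v L M l c

/-- The intersection with a transversal hyperplane is regular. -/
def St_RegT : Prop :=
  ∀ (E : Type) [AddCommGroup E] [Module ℚ E] [FiniteDimensional ℚ E] (T : Set E) (x e : E)
    (h : E →ₗ[ℚ] ℚ), Sph 3 T → x ∈ T → x ≠ 0 → h x = 0 → h e ≠ 0 →
    (∀ v ∈ Tg x T, ∀ c : ℚ, v + c • e ∈ Tg x T) → Reg2 (T ∩ {y | h y = 0}) x

def St_LvReg : Prop :=
  ∀ (E : Type) [AddCommGroup E] [Module ℚ E] [FiniteDimensional ℚ E] (T : Set E)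
    (u v : E →ₗ[ℚ] ℚ) (B : Set (E →ₗ[ℚ] ℚ)) (L : Set ℚ) (t : ℚ) (x : E), LvH T u v B L →
    t ∉ L → x ∈ T → x ≠ 0 → v x = t * u x → Reg2 (T ∩ Hl u v t) x

/-- The sections of an annulus are circles. -/
def St_LvCir : Prop :=
  ∀ (E : Type) [AddCommGroup E] [Module ℚ E] [FiniteDimensional ℚ E] (T : Set E)
    (u v : E →ₗ[ℚ] ℚ) (B : Set (E →ₗ[ℚ] ℚ)) (L : Set ℚ) (M : Set E) (l c t : ℚ),
    LvH T u v B L → AnnH T u v L M l c → l < t → t < c → Sph 2 (M ∩ Hl u v t)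

/-- Connectedness of slices. -/
def St_LvSlice : Prop :=
  ∀ (E : Type) [AddCommGroup E] [Module ℚ E] [FiniteDimensional ℚ E] (T : Set E)
    (u v : E →ₗ[ℚ] ℚ) (B : Set (E →ₗ[ℚ] ℚ)) (L : Set ℚ) (X : Set E) (l c t : ℚ) (I : Set ℚ),
    LvH T u v B L → Adj L l c → l < t → t < c → InvA (Bp B L u v) X → X ⊆ Gr u v l c →
    t ∈ I → (∀ a ∈ I, ∀ b ∈ I, ∀ r, a ≤ r → r ≤ b → r ∈ I) → Conn (X ∩ Hl u v t) →
    Conn (X ∩ {x | v x / u x ∈ I})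

/-- Properties of the tube. -/
def St_LvTub : Prop :=
  ∀ (E : Type) [AddCommGroup E] [Module ℚ E] [FiniteDimensional ℚ E] (T : Set E)
    (u v : E →ₗ[ℚ] ℚ) (B : Set (E →ₗ[ℚ] ℚ)) (L : Set ℚ) (M : Set E) (l c : ℚ),
    LvH T u v B L → AnnH T u v L M l c →
    InvA (Bp B L u v) (Tub u v M l c) ∧
      (∀ x ∈ Gr u v l c, x ∉ M → x ∈ cl (Tub u v M l c) → x ∈ Tub u v M l c) ∧
      (∀ x ∈ Tub u v M l c, ∀ y, x ∈ face (Bp B L u v) y → y ∈ Tub u v M l c) ∧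
      Bdd u (cl (Tub u v M l c)) ∧
      (∀ t, l < t → t < c → Tub u v M l c ∩ Hl u v t =
        bsd u (v - t • u) (M ∩ Hl u v t) \ (M ∩ Hl u v t))

/-- The limits of an annulus at its ends. -/
def St_LvLim : Prop :=
  ∀ (E : Type) [AddCommGroup E] [Module ℚ E] [FiniteDimensional ℚ E] (T : Set E)
    (u v : E →ₗ[ℚ] ℚ) (B : Set (E →ₗ[ℚ] ℚ)) (L : Set ℚ) (M : Set E) (l c : ℚ),
    LvH T u v B L → AnnH T u v L M l c →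
    Conn ((M ∩ Hl u v l) \ {0}) ∧ Conn ((M ∩ Hl u v c) \ {0})

/-- The capped pieces. -/
def St_LvPc : Prop :=
  ∀ (E : Type) [AddCommGroup E] [Module ℚ E] [FiniteDimensional ℚ E] (T : Set E)
    (u v : E →ₗ[ℚ] ℚ) (B : Set (E →ₗ[ℚ] ℚ)) (L : Set ℚ) (M : Set E) (l c t : ℚ),
    LvH T u v B L → AnnH T u v L M l c → l < t → t < c →
    Conn (Up u v (FF L u v) M t) ∧ Conn (Dn u v (FF L u v) M t) ∧
      Up u v (FF L u v) M t ⊆ {x | l * u x < v x ∧ v x ≤ t * u x} ∧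
      Dn u v (FF L u v) M t ⊆ {x | t * u x ≤ v x ∧ v x < c * u x} ∧
      cl (Up u v (FF L u v) M t) = Up u v (FF L u v) M t ∪ (M ∩ Hl u v l) ∧
      cl (Dn u v (FF L u v) M t) = Dn u v (FF L u v) M t ∪ (M ∩ Hl u v c) ∧
      Conn ((M \ FF L u v) ∩ {x | t * u x < v x}) ∧ Conn ((M \ FF L u v) ∩ {x | v x < t * u x})

/-! ### Phase 1 -/

/-- Spheres obtained from `T₀` by cuts between the special levels. -/
structure Cl1 {E : Type} [AddCommGroup E] [Module ℚ E] (T₀ : Set E) (u v : E →ₗ[ℚ] ℚ)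
    (L : Set ℚ) (T : Set E) (Fs : Set (Set E)) (Us Ds : Set (Set E × ℚ)) : Prop where
  sph : Sph 3 T
  bdd : Bdd u T
  finF : Fs.Finite
  finU : Us.Finite
  finD : Ds.Finite
  hF : ∀ M ∈ Fs, Comp M T₀ (FF L u v)
  hU : ∀ p ∈ Us, ∃ l c, AnnH T₀ u v L p.1 l c ∧ l < p.2 ∧ p.2 < c
  hD : ∀ p ∈ Ds, ∃ l c, AnnH T₀ u v L p.1 l c ∧ l < p.2 ∧ p.2 < c
  cov : ∀ x, x ∈ T \ FF L u v ↔ (∃ M ∈ Fs, x ∈ M \ FF L u v) ∨
    (∃ p ∈ Us, x ∈ Up u v (FF L u v) p.1 p.2) ∨ (∃ p ∈ Ds, x ∈ Dn u v (FF L u v) p.1 p.2)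
  dFU : ∀ M ∈ Fs, ∀ p ∈ Us, ∀ x ∈ M \ FF L u v, x ∉ Up u v (FF L u v) p.1 p.2
  dFD : ∀ M ∈ Fs, ∀ p ∈ Ds, ∀ x ∈ M \ FF L u v, x ∉ Dn u v (FF L u v) p.1 p.2
  dUU : ∀ p ∈ Us, ∀ q ∈ Us, p ≠ q → ∀ x ∈ Up u v (FF L u v) p.1 p.2,
    x ∉ Up u v (FF L u v) q.1 q.2
  dDD : ∀ p ∈ Ds, ∀ q ∈ Ds, p ≠ q → ∀ x ∈ Dn u v (FF L u v) p.1 p.2,
    x ∉ Dn u v (FF L u v) q.1 q.2
  ord : ∀ p ∈ Us, ∀ q ∈ Ds, ∀ l c, Adj L l c → l < p.2 → p.2 < c → l < q.2 → q.2 < c →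
    p.2 < q.2
  pp : ∀ x ∈ T, x ∈ FF L u v → x ≠ 0 → PP (Tg x T) (lev u v x)

/-- The data of a cut. -/
structure CutD {E : Type} [AddCommGroup E] [Module ℚ E] (T D C E₁ E₂ : Set E) : Prop where
  uni : E₁ ∪ E₂ = T
  int : E₁ ∩ E₂ = C
  dT : D ∩ T = C
  ballD : Ball 3 D C
  ball1 : Ball 3 E₁ C
  ball2 : Ball 3 E₂ C
  sphC : Sph 2 C

/-- Elementary consequences of a cut. -/
def St_CutT : Prop :=
  ∀ (E : Type) [AddCommGroup E] [Module ℚ E] [FiniteDimensional ℚ E] (T D C E₁ E₂ : Set E),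
    Module.finrank ℚ E = 4 → CutD T D C E₁ E₂ →
    Sph 3 (E₁ ∪ D) ∧ Sph 3 (E₂ ∪ D) ∧ (Std 4 (E₁ ∪ D) → Std 4 (E₂ ∪ D) → Std 4 T) ∧
      D ∩ E₁ = C ∧ D ∩ E₂ = C

/-- A free level and an innermost circle. -/
def St_P1a : Prop :=
  ∀ (E : Type) [AddCommGroup E] [Module ℚ E] [FiniteDimensional ℚ E] (T₀ : Set E)
    (u v : E →ₗ[ℚ] ℚ) (B : Set (E →ₗ[ℚ] ℚ)) (L : Set ℚ) (T : Set E) (Fs : Set (Set E))
    (Us Ds : Set (Set E × ℚ)), LvH T₀ u v B L → Cl1 T₀ u v L T Fs Us Ds → Fs.Nonempty →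
    ∃ (M : Set E) (l c t : ℚ), M ∈ Fs ∧ AnnH T₀ u v L M l c ∧ l < t ∧ t < c ∧
      (∀ p ∈ Us, l < p.2 → p.2 < c → p.2 < t) ∧ (∀ p ∈ Ds, l < p.2 → p.2 < c → t < p.2) ∧
      bsd u (v - t • u) (M ∩ Hl u v t) ∩ T = M ∩ Hl u v t

/-- The two halves of the annulus lie in different pieces. -/
def St_P1b : Prop :=
  ∀ (E : Type) [AddCommGroup E] [Module ℚ E] [FiniteDimensional ℚ E] (T₀ : Set E)
    (u v : E →ₗ[ℚ] ℚ) (B : Set (E →ₗ[ℚ] ℚ)) (L : Set ℚ) (T : Set E) (Fs : Set (Set E))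
    (Us Ds : Set (Set E × ℚ)) (M : Set E) (l c t : ℚ) (D E₁ E₂ : Set E),
    LvH T₀ u v B L → Cl1 T₀ u v L T Fs Us Ds → M ∈ Fs → AnnH T₀ u v L M l c → l < t → t < c →
      (∀ p ∈ Us, l < p.2 → p.2 < c → p.2 < t) → (∀ p ∈ Ds, l < p.2 → p.2 < c → t < p.2) →
      CutD T D (M ∩ Hl u v t) E₁ E₂ →
      ((M \ FF L u v) ∩ {x | t * u x < v x} ⊆ E₁ ∧ (M \ FF L u v) ∩ {x | v x < t * u x} ⊆ E₂) ∨
      ((M \ FF L u v) ∩ {x | t * u x < v x} ⊆ E₂ ∧ (M \ FF L u v) ∩ {x | v x < t * u x} ⊆ E₁)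

/-- The cut pieces are in the class. -/
def St_P1c : Prop :=
  ∀ (E : Type) [AddCommGroup E] [Module ℚ E] [FiniteDimensional ℚ E] (T₀ : Set E)
    (u v : E →ₗ[ℚ] ℚ) (B : Set (E →ₗ[ℚ] ℚ)) (L : Set ℚ) (T : Set E) (Fs : Set (Set E))
    (Us Ds : Set (Set E × ℚ)) (M : Set E) (l c t : ℚ) (E₁ E₂ : Set E),
    LvH T₀ u v B L → Cl1 T₀ u v L T Fs Us Ds → M ∈ Fs → AnnH T₀ u v L M l c → l < t → t < c →
      (∀ p ∈ Us, l < p.2 → p.2 < c → p.2 < t) → (∀ p ∈ Ds, l < p.2 → p.2 < c → t < p.2) →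
      CutD T (bsd u (v - t • u) (M ∩ Hl u v t)) (M ∩ Hl u v t) E₁ E₂ →
      (M \ FF L u v) ∩ {x | t * u x < v x} ⊆ E₁ → (M \ FF L u v) ∩ {x | v x < t * u x} ⊆ E₂ →
      (∃ Fs' Us' Ds', Cl1 T₀ u v L (E₁ ∪ bsd u (v - t • u) (M ∩ Hl u v t)) Fs' Us' Ds' ∧
        Fs'.ncard < Fs.ncard) ∧
      (∃ Fs' Us' Ds', Cl1 T₀ u v L (E₂ ∪ bsd u (v - t • u) (M ∩ Hl u v t)) Fs' Us' Ds' ∧
        Fs'.ncard < Fs.ncard)

/-! ### Phase 2 -/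

section Pc

variable {E : Type*} [AddCommGroup E] [Module ℚ E]

/-- The piece of `p` seen from the level `m`. -/
def Pc (u v : E →ₗ[ℚ] ℚ) (L : Set ℚ) (m : ℚ) (p : Set E × ℚ) : Set E :=
  {x | (m < p.2 ∧ x ∈ Up u v (FF L u v) p.1 p.2) ∨ (p.2 < m ∧ x ∈ Dn u v (FF L u v) p.1 p.2)}

end Pc

/-- Spheres around the level `m`. -/
structure Cl2 {E : Type} [AddCommGroup E] [Module ℚ E] (T₀ : Set E) (u v : E →ₗ[ℚ] ℚ)
    (L : Set ℚ) (m : ℚ) (T : Set E) (W : Set (Set E × ℚ)) : Prop where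
  sph : Sph 3 T
  bdd : Bdd u T
  mem : m ∈ L
  fin : W.Finite
  hW : ∀ p ∈ W, (∃ c, AnnH T₀ u v L p.1 m c ∧ m < p.2 ∧ p.2 < c) ∨
    (∃ l, AnnH T₀ u v L p.1 l m ∧ l < p.2 ∧ p.2 < m)
  cov : ∀ x, x ∈ T \ Hl u v m ↔ ∃ p ∈ W, x ∈ Pc u v L m p
  dis : ∀ p ∈ W, ∀ q ∈ W, p ≠ q → ∀ x ∈ Pc u v L m p, x ∉ Pc u v L m q
  pp : ∀ x ∈ T, x ∈ Hl u v m → x ≠ 0 → PP (Tg x T) (v - m • u)
  meet : ∃ x ∈ T, x ∈ Hl u v m ∧ x ≠ 0

/-- Without full annuli the sphere lies around one level. -/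
def St_P1T : Prop :=
  ∀ (E : Type) [AddCommGroup E] [Module ℚ E] [FiniteDimensional ℚ E] (T₀ : Set E)
    (u v : E →ₗ[ℚ] ℚ) (B : Set (E →ₗ[ℚ] ℚ)) (L : Set ℚ) (T : Set E)
    (Us Ds : Set (Set E × ℚ)), LvH T₀ u v B L → Cl1 T₀ u v L T ∅ Us Ds →
    ∃ (m : ℚ) (W : Set (Set E × ℚ)), Cl2 T₀ u v L m T W

def St_P2Z : Prop :=
  ∀ (E : Type) [AddCommGroup E] [Module ℚ E] [FiniteDimensional ℚ E] (T₀ : Set E)
    (u v : E →ₗ[ℚ] ℚ) (B : Set (E →ₗ[ℚ] ℚ)) (L : Set ℚ) (m : ℚ) (T : Set E)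
    (W : Set (Set E × ℚ)), LvH T₀ u v B L → Cl2 T₀ u v L m T W →
    Conn ((T ∩ Hl u v m) \ {0})

/-- The situation of the planar lemmas. -/
structure PlH {E : Type} [AddCommGroup E] [Module ℚ E] (T M M' : Set E) (h u : E →ₗ[ℚ] ℚ)
    (D : Set E) : Prop where
  dim : Module.finrank ℚ E = 4
  sph : Sph 3 T
  bdd : Bdd u T
  sides : Sides T M M'
  loc : ∀ x ∈ T, x ≠ 0 → Sides (Tg x T) (Tg x M) (Tg x M')
  hne : h ≠ 0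
  conn : Conn ((T ∩ {x | h x = 0}) \ {0})
  pp : ∀ x ∈ T, h x = 0 → x ≠ 0 → PP (Tg x T) h
  comp : Comp D {x | h x = 0} (T ∩ {x | h x = 0})
  bddD : Bdd u D
  side : D \ T ⊆ M \ T

/-- The germs of the two discs in a hyperplane. -/
def St_LocH : Prop :=
  ∀ (E : Type) [AddCommGroup E] [Module ℚ E] [FiniteDimensional ℚ E] (C D D' : Set E)
    (h : E →ₗ[ℚ] ℚ) (x : E), Module.finrank ℚ E = 4 → h ≠ 0 → Sph 2 C → D ∪ D' = {x | h x = 0} →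
    D ∩ D' = C → Ball 3 D C → Ball 3 D' C → x ∈ C → x ≠ 0 →
    Comp (Tg x D) {x | h x = 0} (Tg x C) ∧ Comp (Tg x D') {x | h x = 0} (Tg x C)

/-- The germ of a component. -/
def St_PlA : Prop :=
  ∀ (E : Type) [AddCommGroup E] [Module ℚ E] [FiniteDimensional ℚ E] (T M M' : Set E)
    (h u : E →ₗ[ℚ] ℚ) (D : Set E) (x : E), PlH T M M' h u D → x ∈ D → x ∈ T → x ≠ 0 →
    Tg x D \ Tg x T = (Tg x M \ Tg x T) ∩ {y | h y = 0} ∧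
      Tg x D = cl ((Tg x M \ Tg x T) ∩ {y | h y = 0})

/-- Regularity of the boundary of a component. -/
def St_PlB : Prop :=
  ∀ (E : Type) [AddCommGroup E] [Module ℚ E] [FiniteDimensional ℚ E] (T M M' : Set E)
    (h u : E →ₗ[ℚ] ℚ) (D : Set E) (x : E), PlH T M M' h u D → x ∈ D → x ∈ T → x ≠ 0 →
    Reg2 (D ∩ T) x

/-- Components are discs. -/
def St_PlC : Prop :=
  ∀ (E : Type) [AddCommGroup E] [Module ℚ E] [FiniteDimensional ℚ E] (T M M' : Set E)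
    (h u : E →ₗ[ℚ] ℚ) (D : Set E), PlH T M M' h u D →
    Ball 3 D (D ∩ T) ∧ Sph 2 (D ∩ T) ∧
      ∀ x ∈ D ∩ T, x ≠ 0 → Conn ({y | h y = 0} \ Tg x D)

/-- Preservation of `PP`. -/
def St_PlP : Prop :=
  ∀ (E : Type) [AddCommGroup E] [Module ℚ E] [FiniteDimensional ℚ E] (T M M' : Set E)
    (h u : E →ₗ[ℚ] ℚ) (D E₁ E₂ : Set E), PlH T M M' h u D → CutD T D (D ∩ T) E₁ E₂ →
    ∀ x ∈ E₁ ∪ D, h x = 0 → x ≠ 0 → PP (Tg x (E₁ ∪ D)) h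

/-- The cut at a special level. -/
def St_P2S : Prop :=
  ∀ (E : Type) [AddCommGroup E] [Module ℚ E] [FiniteDimensional ℚ E] (T₀ : Set E)
    (u v : E →ₗ[ℚ] ℚ) (B : Set (E →ₗ[ℚ] ℚ)) (L : Set ℚ) (m : ℚ) (T : Set E)
    (W : Set (Set E × ℚ)) (D : Set E), LvH T₀ u v B L → Cl2 T₀ u v L m T W →
    Comp D (Hl u v m) (T ∩ Hl u v m) → Bdd u D →
    ∃ E₁ E₂ : Set E, CutD T D (D ∩ T) E₁ E₂ ∧
      (∃ W', Cl2 T₀ u v L m (E₁ ∪ D) W' ∧ W'.ncard < W.ncard) ∧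
      (∃ W', Cl2 T₀ u v L m (E₂ ∪ D) W' ∧ W'.ncard < W.ncard)

/-- If no component is bounded, the bounded side of `T` lies on one side of the level. -/
def St_P2F1 : Prop :=
  ∀ (E : Type) [AddCommGroup E] [Module ℚ E] [FiniteDimensional ℚ E] (T : Set E)
    (h u : E →ₗ[ℚ] ℚ), Module.finrank ℚ E = 4 → Sph 3 T → Bdd u T → (∀ t : ℚ, h ≠ t • u) →
    (∀ D, Comp D {x | h x = 0} (T ∩ {x | h x = 0}) → ¬ Bdd u D) →
    ∃ M M' : Set E, Sides T M M' ∧ Bdd u M ∧ ((∀ x ∈ M \ T, 0 < h x) ∨ (∀ x ∈ M \ T, h x < 0)) ∧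
      {x | h x = 0} ⊆ M' ∧ Conn ({x | h x = 0} \ T)

/-- An innermost piece. -/
def St_P2F2 : Prop :=
  ∀ (E : Type) [AddCommGroup E] [Module ℚ E] [FiniteDimensional ℚ E] (T₀ : Set E)
    (u v : E →ₗ[ℚ] ℚ) (B : Set (E →ₗ[ℚ] ℚ)) (L : Set ℚ) (m : ℚ) (T : Set E)
    (W : Set (Set E × ℚ)), LvH T₀ u v B L → Cl2 T₀ u v L m T W →
    (∀ x ∈ T, m * u x ≤ v x) →
    ∃ p ∈ W, ∃ c, AnnH T₀ u v L p.1 m c ∧ m < p.2 ∧ p.2 < c ∧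
      ∀ x ∈ Tub u v p.1 m c, v x < p.2 * u x → x ∉ T

/-- The final step in the upper case. -/
def St_P2F3 : Prop :=
  ∀ (E : Type) [AddCommGroup E] [Module ℚ E] [FiniteDimensional ℚ E] (T₀ : Set E)
    (u v : E →ₗ[ℚ] ℚ) (B : Set (E →ₗ[ℚ] ℚ)) (L : Set ℚ) (m : ℚ) (T : Set E)
    (W : Set (Set E × ℚ)) (M M' : Set E), LvH T₀ u v B L → Cl2 T₀ u v L m T W →
    Sides T M M' → Bdd u M → (∀ x ∈ M \ T, m * u x < v x) → Hl u v m ⊆ M' →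
    Conn (Hl u v m \ T) → Std 4 T

/-- Symmetry. -/
def St_Neg : Prop :=
  ∀ (E : Type) [AddCommGroup E] [Module ℚ E] [FiniteDimensional ℚ E] (T₀ : Set E)
    (u v : E →ₗ[ℚ] ℚ) (B : Set (E →ₗ[ℚ] ℚ)) (L : Set ℚ) (m : ℚ) (T : Set E)
    (W : Set (Set E × ℚ)), LvH T₀ u v B L → Cl2 T₀ u v L m T W →
    ∃ (L' : Set ℚ) (W' : Set (Set E × ℚ)), LvH T₀ u (-v) B L' ∧ Cl2 T₀ u (-v) L' (-m) T W' ∧
      W'.ncard = W.ncard

/-- Spheres around one level are standard. -/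
def St_P2 : Prop :=
  ∀ (E : Type) [AddCommGroup E] [Module ℚ E] [FiniteDimensional ℚ E] (T₀ : Set E)
    (u v : E →ₗ[ℚ] ℚ) (B : Set (E →ₗ[ℚ] ℚ)) (L : Set ℚ) (m : ℚ) (T : Set E)
    (W : Set (Set E × ℚ)), LvH T₀ u v B L → Cl2 T₀ u v L m T W → Std 4 T

/-- Spheres without saddles are standard. -/
def St_LvMain : Prop :=
  ∀ (E : Type) [AddCommGroup E] [Module ℚ E] [FiniteDimensional ℚ E] (T : Set E)
    (u v : E →ₗ[ℚ] ℚ), Module.finrank ℚ E = 4 → Sph 3 T → Bdd u T → (∀ t : ℚ, v ≠ t • u) →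
    (∀ x ∈ T, x ≠ 0 → PP (Tg x T) (lev u v x)) → Std 4 T

end Pool.Agent.Work.MP_552024_lc.PLS
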