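import Pool.Agent.Work.MP_552024_lc.PLS.S4L

set_option autoImplicit false

/-! Statements for the block on boxes (removal of saddles). -/

namespace Pool.Agent.Work.MP_552024_lc.PLS

/-- The forms of the box. -/
def qf {E : Type} [AddCommGroup E] [Module ℚ E] (u g : E →ₗ[ℚ] ℚ) (s : Fin 3 → E →ₗ[ℚ] ℚ)
    (δ η : ℚ) : Fin 5 → E →ₗ[ℚ] ℚ :=
  ![(δ * η) • u - g, (δ * η) • u + g, η • u - s 0, η • u - s 1, η • u - s 2]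

/-- A special point `w` of `T`. -/
structure BxH {E : Type} [AddCommGroup E] [Module ℚ E] (T : Set E) (u v : E →ₗ[ℚ] ℚ) (w : E)
    (B : Set (E →ₗ[ℚ] ℚ)) : Prop where
  dim : Module.finrank ℚ E = 4
  sph : Sph 3 T
  bdd : Bdd u T
  mem : w ∈ T
  w0 : w ≠ 0
  fin : B.Finite
  van : ∀ b ∈ B, b w = 0
  spn : ∀ y, (∀ b ∈ B, b y = 0) → ∃ c : ℚ, y = c • w
  cla : ClA B (Tg w T)
  nh : ∀ x ∈ Tg w T, (¬ ∃ c : ℚ, x = c • w) →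
    (∃ y y', SameSign B y x ∧ SameSign B y' x ∧ lev u v w y < 0 ∧ 0 < lev u v w y') ∨
    (∀ y ∈ face B x, lev u v w y = 0 → ∃ c : ℚ, y = c • w)
  ind : ∀ t : ℚ, v ≠ t • u

/-- The side forms of the box. -/
structure BxF {E : Type} [AddCommGroup E] [Module ℚ E] (T : Set E) (u v : E →ₗ[ℚ] ℚ) (w : E)
    (s : Fin 3 → E →ₗ[ℚ] ℚ) : Prop where
  sw : ∀ i, s i w = 0
  sum : s 0 + s 1 + s 2 = 0
  bas : ∀ x, u x = 0 → lev u v w x = 0 → s 0 x = 0 → s 1 x = 0 → x = 0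
  corner : ∀ x ∈ Tg w T, lev u v w x = 0 → ∀ i j, i ≠ j → s i x = s j x → s i x ≤ 0

/-- The data of the box. -/
structure BxD {E : Type} [AddCommGroup E] [Module ℚ E] (T : Set E) (u v : E →ₗ[ℚ] ℚ) (w : E)
    (B A : Set (E →ₗ[ℚ] ℚ)) (s : Fin 3 → E →ₗ[ℚ] ℚ) (δ η : ℚ) : Prop where
  frm : BxF T u v w s
  dpos : 0 < δ
  epos : 0 < η
  small : ∀ x ∈ KC (qf u (lev u v w) s δ η), x ≠ 0 → w ∈ face A x
  near : ∀ x ∈ Tg w T, ∀ i, 0 < s i x → (∀ j, s j x ≤ s i x) → |lev u v w x| ≤ δ * s i x →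
    (∀ j, j ≠ i → s j x < s i x) ∧
    ∃ y y', SameSign B y x ∧ SameSign B y' x ∧ lev u v w y < 0 ∧ 0 < lev u v w y'
  slope : ∀ b ∈ B, ∀ i, ∀ k : ℚ, (∃ y, b y = 0 ∧ lev u v w y ≠ 0) →
    (∀ y, b y = 0 → lev u v w y = k * s i y) → δ < |k|

/-- The choice of the side forms. -/
def St_BxS : Prop :=
  ∀ (E : Type) [AddCommGroup E] [Module ℚ E] [FiniteDimensional ℚ E] (T : Set E)
    (u v : E →ₗ[ℚ] ℚ) (w : E) (B : Set (E →ₗ[ℚ] ℚ)), BxH T u v w B →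
    ∃ s : Fin 3 → E →ₗ[ℚ] ℚ, BxF T u v w s

/-- The choice of the thickness. -/
def St_BxDl : Prop :=
  ∀ (E : Type) [AddCommGroup E] [Module ℚ E] [FiniteDimensional ℚ E] (T : Set E)
    (u v : E →ₗ[ℚ] ℚ) (w : E) (B : Set (E →ₗ[ℚ] ℚ)) (s : Fin 3 → E →ₗ[ℚ] ℚ),
    BxH T u v w B → BxF T u v w s → ∃ δ : ℚ, 0 < δ ∧
    (∀ x ∈ Tg w T, ∀ i, 0 < s i x → (∀ j, s j x ≤ s i x) → |lev u v w x| ≤ δ * s i x →
      (∀ j, j ≠ i → s j x < s i x) ∧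
      ∃ y y', SameSign B y x ∧ SameSign B y' x ∧ lev u v w y < 0 ∧ 0 < lev u v w y') ∧
    (∀ b ∈ B, ∀ i, ∀ k : ℚ, (∃ y, b y = 0 ∧ lev u v w y ≠ 0) →
      (∀ y, b y = 0 → lev u v w y = k * s i y) → δ < |k|)

/-- The choice of the size. -/
def St_BxE : Prop :=
  ∀ (E : Type) [AddCommGroup E] [Module ℚ E] [FiniteDimensional ℚ E]
    (u v : E →ₗ[ℚ] ℚ) (w : E) (A : Set (E →ₗ[ℚ] ℚ)) (s : Fin 3 → E →ₗ[ℚ] ℚ) (δ : ℚ),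
    Module.finrank ℚ E = 4 → 0 < u w → A.Finite → (∀ i, s i w = 0) → s 0 + s 1 + s 2 = 0 →
    (∀ x, u x = 0 → lev u v w x = 0 → s 0 x = 0 → s 1 x = 0 → x = 0) → 0 < δ →
    ∃ η : ℚ, 0 < η ∧ ∀ x ∈ KC (qf u (lev u v w) s δ η), x ≠ 0 → w ∈ face A x

/-- Elementary properties of the box. -/
def St_BxQ : Prop :=
  ∀ (E : Type) [AddCommGroup E] [Module ℚ E] [FiniteDimensional ℚ E]
    (u v : E →ₗ[ℚ] ℚ) (w : E) (s : Fin 3 → E →ₗ[ℚ] ℚ) (δ η : ℚ),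
    0 < u w → (∀ i, s i w = 0) → s 0 + s 1 + s 2 = 0 →
    (∀ x, u x = 0 → lev u v w x = 0 → s 0 x = 0 → s 1 x = 0 → x = 0) → 0 < δ → 0 < η →
    w ∈ KO (qf u (lev u v w) s δ η) ∧ (∀ x, (∀ i, qf u (lev u v w) s δ η i x = 0) → x = 0) ∧
      Bdd u (KC (qf u (lev u v w) s δ η)) ∧
      (∀ x, x ∈ KC (qf u (lev u v w) s δ η) ↔
        (|lev u v w x| ≤ δ * η * u x ∧ ∀ i, s i x ≤ η * u x)) ∧
      (∀ x, x ∈ KO (qf u (lev u v w) s δ η) ↔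
        (|lev u v w x| < δ * η * u x ∧ ∀ i, s i x < η * u x))

/-- The cone structure near `w`. -/
def St_BxB : Prop :=
  ∀ (E : Type) [AddCommGroup E] [Module ℚ E] [FiniteDimensional ℚ E] (T N N' : Set E) (w : E)
    (ι : Type) [Fintype ι] [Nonempty ι] (h : ι → E →ₗ[ℚ] ℚ), SchA 2 →
    Module.finrank ℚ E = 4 → Sph 3 T → w ∈ T → w ≠ 0 → Sides (Tg w T) N N' → w ∈ KO h →
    (∀ x, (∀ i, h i x = 0) → x = 0) →
    Sph 2 (Tg w T ∩ KD h) ∧ Ball 3 (N ∩ KD h) (Tg w T ∩ KD h) ∧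
      Ball 3 (N' ∩ KD h) (Tg w T ∩ KD h) ∧ Ball 3 (Tg w T ∩ KC h) (Tg w T ∩ KD h) ∧
      Ball 4 (N ∩ KC h) ((N ∩ KD h) ∪ (Tg w T ∩ KC h)) ∧
      Ball 4 (N' ∩ KC h) ((N' ∩ KD h) ∪ (Tg w T ∩ KC h))

def St_BxStd : Prop :=
  ∀ (E : Type) [AddCommGroup E] [Module ℚ E] [FiniteDimensional ℚ E] (T N N' : Set E) (w : E)
    (ι : Type) [Fintype ι] [Nonempty ι] (h : ι → E →ₗ[ℚ] ℚ), SchA 2 →
    Module.finrank ℚ E = 4 → Sph 3 T → w ∈ T → w ≠ 0 → Sides (Tg w T) N N' → w ∈ KO h →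
    (∀ x, (∀ i, h i x = 0) → x = 0) → Std 4 ((N ∩ KD h) ∪ (Tg w T ∩ KC h))

/-- The situation of a box replacement. -/
structure BxR {E : Type} [AddCommGroup E] [Module ℚ E] (T M M' : Set E) (w : E)
    (A : Set (E →ₗ[ℚ] ℚ)) {ι : Type} (h : ι → E →ₗ[ℚ] ℚ) : Prop where
  dim : Module.finrank ℚ E = 4
  sph : Sph 3 T
  mem : w ∈ T
  w0 : w ≠ 0
  sides : Sides T M M'
  loc : ∀ x ∈ T, x ≠ 0 → Sides (Tg x T) (Tg x M) (Tg x M')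
  fin : A.Finite
  cla : ClA A T
  wKO : w ∈ KO h
  ptd : ∀ x, (∀ i, h i x = 0) → x = 0
  small : ∀ x ∈ KC h, x ≠ 0 → w ∈ face A x

/-- The new sphere. -/
def St_BxTh : Prop :=
  ∀ (E : Type) [AddCommGroup E] [Module ℚ E] [FiniteDimensional ℚ E] (T M M' : Set E) (w : E)
    (A : Set (E →ₗ[ℚ] ℚ)) (ι : Type) [Fintype ι] [Nonempty ι] (h : ι → E →ₗ[ℚ] ℚ), SchA 2 →
    BxR T M M' w A h →
    Sph 3 ((T \ KO h) ∪ (M ∩ KD h)) ∧ (Std 4 ((T \ KO h) ∪ (M ∩ KD h)) → Std 4 T)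

/-- The sides of the new sphere. -/
def St_BxSide : Prop :=
  ∀ (E : Type) [AddCommGroup E] [Module ℚ E] [FiniteDimensional ℚ E] (T M M' : Set E) (w : E)
    (A : Set (E →ₗ[ℚ] ℚ)) (ι : Type) [Fintype ι] [Nonempty ι] (h : ι → E →ₗ[ℚ] ℚ), SchA 2 →
    BxR T M M' w A h →
    Sides ((T \ KO h) ∪ (M ∩ KD h)) (M \ KO h) (M' ∪ KC h) ∧
      ∀ x ∈ (T \ KO h) ∪ (M ∩ KD h), x ≠ 0 →
        Sides (Tg x ((T \ KO h) ∪ (M ∩ KD h))) (Tg x (M \ KO h)) (Tg x (M' ∪ KC h))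

/-- Facts about the sphere near the box in the crossing case. -/
def St_BxX : Prop :=
  ∀ (E : Type) [AddCommGroup E] [Module ℚ E] [FiniteDimensional ℚ E] (T M M' : Set E)
    (u v : E →ₗ[ℚ] ℚ) (w : E) (B A : Set (E →ₗ[ℚ] ℚ)) (s : Fin 3 → E →ₗ[ℚ] ℚ) (δ η : ℚ)
    (x : E), BxH T u v w B → BxD T u v w B A s δ η →
    BxR T M M' w A (qf u (lev u v w) s δ η) → x ∈ T → x ∈ KC (qf u (lev u v w) s δ η) →
    x ≠ 0 → (∃ y y', SameSign B y x ∧ SameSign B y' x ∧ lev u v w y < 0 ∧ 0 < lev u v w y') →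
    (¬ ∃ c : ℚ, x = c • w) →
    ∃ b ∈ B, b ≠ 0 ∧ b x = 0 ∧ Tg x T = {y | b y = 0} ∧ (∃ y, b y = 0 ∧ lev u v w y ≠ 0) ∧
      (∃ y, b y = 0 ∧ lev u v w y = 0 ∧ ¬ ∃ c : ℚ, y = c • w) ∧
      ((Tg x M \ Tg x T = {y | 0 < b y} ∧ Tg x M' \ Tg x T = {y | b y < 0}) ∨
        (Tg x M \ Tg x T = {y | b y < 0} ∧ Tg x M' \ Tg x T = {y | 0 < b y}))

/-- `PP` on the sides of the box. -/
def St_BxPS : Prop :=
  ∀ (E : Type) [AddCommGroup E] [Module ℚ E] [FiniteDimensional ℚ E] (T M M' : Set E)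
    (u v : E →ₗ[ℚ] ℚ) (w : E) (B A : Set (E →ₗ[ℚ] ℚ)) (s : Fin 3 → E →ₗ[ℚ] ℚ) (δ η : ℚ)
    (T' : Set E) (x : E), BxH T u v w B → BxD T u v w B A s δ η →
    BxR T M M' w A (qf u (lev u v w) s δ η) →
    T' = (T \ KO (qf u (lev u v w) s δ η)) ∪ (M ∩ KD (qf u (lev u v w) s δ η)) →
    Sph 3 T' → x ∈ T' → x ∈ KD (qf u (lev u v w) s δ η) → x ≠ 0 →
    |lev u v w x| < δ * η * u x → PP (Tg x T') (lev u v x)

/-- `PP` on the top and the bottom of the box. -/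
def St_BxPT : Prop :=
  ∀ (E : Type) [AddCommGroup E] [Module ℚ E] [FiniteDimensional ℚ E] (T M M' : Set E)
    (u v : E →ₗ[ℚ] ℚ) (w : E) (B A : Set (E →ₗ[ℚ] ℚ)) (s : Fin 3 → E →ₗ[ℚ] ℚ) (δ η : ℚ)
    (T' : Set E) (x : E), BxH T u v w B → BxD T u v w B A s δ η →
    BxR T M M' w A (qf u (lev u v w) s δ η) →
    T' = (T \ KO (qf u (lev u v w) s δ η)) ∪ (M ∩ KD (qf u (lev u v w) s δ η)) →
    Sph 3 T' →
    (∀ x ∈ T', x ≠ 0 → Sides (Tg x T') (Tg x (M \ KO (qf u (lev u v w) s δ η)))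
      (Tg x (M' ∪ KC (qf u (lev u v w) s δ η)))) →
    x ∈ T' → x ∈ KD (qf u (lev u v w) s δ η) → x ≠ 0 →
    |lev u v w x| = δ * η * u x → PP (Tg x T') (lev u v x)

/-- The box step. -/
def St_Box : Prop :=
  ∀ (E : Type) [AddCommGroup E] [Module ℚ E] [FiniteDimensional ℚ E] (T : Set E)
    (u v : E →ₗ[ℚ] ℚ) (w : E) (B : Set (E →ₗ[ℚ] ℚ)) (W : Set E), SchA 2 → BxH T u v w B →
    W.Finite → (∀ y ∈ W, y ∈ T ∧ y ≠ 0 ∧ y ∉ ray w) →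
    ∃ T' : Set E, Sph 3 T' ∧ Bdd u T' ∧ (Std 4 T' → Std 4 T) ∧
      (∀ y ∈ W, y ∈ T' ∧ Tg y T' = Tg y T) ∧
      ∀ x ∈ T', x ≠ 0 → (x ∈ T ∧ x ∉ ray w ∧ Tg x T' = Tg x T) ∨ PP (Tg x T') (lev u v x)

/-- Generic height functions. -/
def St_GenV : Prop :=
  ∀ (E : Type) [AddCommGroup E] [Module ℚ E] [FiniteDimensional ℚ E]
    (B : Set (E →ₗ[ℚ] ℚ)) (u : E →ₗ[ℚ] ℚ), Module.finrank ℚ E = 4 → B.Finite → Spn B →
    ∃ v : E →ₗ[ℚ] ℚ, (∀ t : ℚ, v ≠ t • u) ∧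
      ∀ r r', Ray B r → Ray B r' → 0 < u r → 0 < u r' → v r * u r' = v r' * u r → r' ∈ ray r

/-- The special points of a generic sphere. -/
def St_NH : Prop :=
  ∀ (E : Type) [AddCommGroup E] [Module ℚ E] [FiniteDimensional ℚ E] (T : Set E)
    (B : Set (E →ₗ[ℚ] ℚ)) (u v : E →ₗ[ℚ] ℚ) (w : E), Module.finrank ℚ E = 4 → Sph 3 T →
    Bdd u T → B.Finite → Spn B → ClA B T → (∀ t : ℚ, v ≠ t • u) →
    (∀ r r', Ray B r → Ray B r' → 0 < u r → 0 < u r' → v r * u r' = v r' * u r → r' ∈ ray r) →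
    w ∈ T → Ray B w → BxH T u v w (At B w)

/-- The other points of a generic sphere. -/
def St_PPgen : Prop :=
  ∀ (E : Type) [AddCommGroup E] [Module ℚ E] [FiniteDimensional ℚ E] (T : Set E)
    (B : Set (E →ₗ[ℚ] ℚ)) (u v : E →ₗ[ℚ] ℚ) (x : E), Module.finrank ℚ E = 4 → Sph 3 T →
    Bdd u T → B.Finite → Spn B → ClA B T →
    (∀ r r', Ray B r → Ray B r' → 0 < u r → 0 < u r' → v r * u r' = v r' * u r → r' ∈ ray r) →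
    x ∈ T → x ≠ 0 → ¬ Ray B x → PP (Tg x T) (lev u v x)

/-- `BxH` only depends on the germ at `w`. -/
def St_BxT : Prop :=
  ∀ (E : Type) [AddCommGroup E] [Module ℚ E] [FiniteDimensional ℚ E] (T T' : Set E)
    (u v : E →ₗ[ℚ] ℚ) (w : E) (B : Set (E →ₗ[ℚ] ℚ)), BxH T u v w B → Sph 3 T' → Bdd u T' →
    w ∈ T' → Tg w T' = Tg w T → BxH T' u v w B

/-- The Schoenflies theorem for bounded spheres in dimension 4. -/
def St_Main4 : Prop :=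
  ∀ (E : Type) [AddCommGroup E] [Module ℚ E] [FiniteDimensional ℚ E] (T : Set E)
    (u : E →ₗ[ℚ] ℚ), Module.finrank ℚ E = 4 → Sph 3 T → Bdd u T → Std 4 T

end Pool.Agent.Work.MP_552024_lc.PLS
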