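import Pool.Agent.Work.MP_552024_lc.PLS.Balls

set_option autoImplicit false

namespace Pool.Agent.Work.MP_552024_lc.PLS

variable {E : Type*} [AddCommGroup E] [Module ℚ E]

/-- coordinates `1, …, k` of `Fin (k + 1) → ℚ` -/
def tcr (k : ℕ) : Fin k → (Fin (k + 1) → ℚ) →ₗ[ℚ] ℚ := fun i => crd (k + 1) i.succ

/-- the form `x ↦ x 0` -/
def zcr (k : ℕ) : (Fin (k + 1) → ℚ) →ₗ[ℚ] ℚ := crd (k + 1) 0

/-- the facet `x 0 = 0` and the rest of the boundary of the orthant -/
def Fct (k : ℕ) : Set (Fin (k + 1) → ℚ) := KC (tcr k) ∩ {x | zcr k x = 0}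
def Rst (k : ℕ) : Set (Fin (k + 1) → ℚ) := KD (tcr k) ∩ {x | 0 ≤ zcr k x}

/-- direction vector -/
def pv (k : ℕ) : Fin (k + 1) → ℚ := fun i => if i = 0 then 0 else 1

theorem pv_mem (k : ℕ) : pv k ∈ KO (tcr k) := fun i => by
  show (0 : ℚ) < pv k i.succ
  simp [pv, Fin.succ_ne_zero]

theorem zcr_pv (k : ℕ) : zcr k (pv k) = 0 := by
  show pv k 0 = 0
  simp [pv]

/-- first unit vector -/
def ev (k : ℕ) : Fin (k + 1) → ℚ := fun i => if i = 0 then 1 else 0

theorem tcr_ev (k : ℕ) (i : Fin k) : tcr k i (ev k) = 0 := by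
  show ev k i.succ = 0
  simp [ev, Fin.succ_ne_zero]

theorem zcr_ev (k : ℕ) : zcr k (ev k) = 1 := by
  show ev k 0 = 1
  simp [ev]

theorem mem_Orth_succ {k : ℕ} {x : Fin (k + 1) → ℚ} :
    x ∈ Orth (k + 1) ↔ 0 ≤ zcr k x ∧ x ∈ KC (tcr k) := by
  constructor
  · intro h; exact ⟨h 0, fun i => h i.succ⟩
  · rintro ⟨h1, h2⟩ i
    rcases Fin.eq_zero_or_eq_succ i with rfl | ⟨j, rfl⟩
    · exact h1
    · exact h2 j

theorem dOrth_eq_union (k : ℕ) : dOrth (k + 1) = Fct k ∪ Rst k := by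
  ext x; constructor
  · rintro ⟨h1, i, hi⟩
    have h2 := mem_Orth_succ.1 h1
    rcases Fin.eq_zero_or_eq_succ i with rfl | ⟨j, rfl⟩
    · exact Or.inl ⟨h2.2, hi⟩
    · exact Or.inr ⟨⟨h2.2, j, hi⟩, h2.1⟩
  · rintro (⟨h1, h2⟩ | ⟨⟨h1, j, hj⟩, h2⟩)
    · have h2 : zcr k x = 0 := h2
      exact ⟨mem_Orth_succ.2 ⟨h2.ge, h1⟩, 0, h2⟩
    · exact ⟨mem_Orth_succ.2 ⟨h2, h1⟩, j.succ, hj⟩

theorem pol_Fct (k : ℕ) : Pol (Fct k) := (pol_KC _).inter (pol_hyperplane _)
theorem pol_Rst (k : ℕ) [NeZero k] : Pol (Rst k) := by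
  have : Nonempty (Fin k) := ⟨0⟩
  exact (pol_KD _).inter (pol_halfspace _)

theorem Fct_subset (k : ℕ) : Fct k ⊆ Orth (k + 1) := fun x hx => dOrth_subset _
  (by rw [dOrth_eq_union]; exact Or.inl hx)
theorem Rst_subset (k : ℕ) : Rst k ⊆ Orth (k + 1) := fun x hx => dOrth_subset _
  (by rw [dOrth_eq_union]; exact Or.inr hx)

/-- embedding of the facet -/
def emb (k : ℕ) : (Fin k → ℚ) →ₗ[ℚ] (Fin (k + 1) → ℚ) :=
  LinearMap.pi (fun i => if h : i = 0 then 0 else crd k (i.pred h))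

def tl (k : ℕ) : (Fin (k + 1) → ℚ) →ₗ[ℚ] (Fin k → ℚ) := LinearMap.pi (tcr k)

theorem emb_zero {k : ℕ} (x : Fin k → ℚ) : emb k x 0 = 0 := by
  simp [emb]

theorem emb_succ {k : ℕ} (x : Fin k → ℚ) (i : Fin k) : emb k x i.succ = x i := by
  simp [emb, crd, Fin.succ_ne_zero]

theorem tl_emb {k : ℕ} (x : Fin k → ℚ) : tl k (emb k x) = x := by
  ext i; show emb k x i.succ = x i; exact emb_succ x i

theorem emb_tl {k : ℕ} {x : Fin (k + 1) → ℚ} (hx : zcr k x = 0) : emb k (tl k x) = x := by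
  ext i
  rcases Fin.eq_zero_or_eq_succ i with rfl | ⟨j, rfl⟩
  · rw [emb_zero]; exact hx.symm
  · rw [emb_succ]; rfl

theorem plInv_emb (k : ℕ) : PLInv (emb k) (tl k) (Orth k) (Fct k) := by
  refine ⟨plOn_linear _ _, plOn_linear _ _, ?_, ?_, fun x _ => tl_emb x, fun y hy => emb_tl hy.2⟩
  · intro x hx
    exact ⟨fun i => by show 0 ≤ emb k x i.succ; rw [emb_succ]; exact hx i, emb_zero x⟩
  · intro y hy i; exact hy.1 i

theorem emb_mem_iff {k : ℕ} {x : Fin k → ℚ} (hx : x ∈ Orth k) :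
    x ∈ dOrth k ↔ emb k x ∈ Fct k ∩ Rst k := by
  have h0 : zcr k (emb k x) = 0 := emb_zero x
  have h1 := (plInv_emb k).mapsf x hx
  constructor
  · rintro ⟨_, i, hi⟩
    exact ⟨h1, ⟨h1.1, i, by show emb k x i.succ = 0; rw [emb_succ]; exact hi⟩, h0.ge⟩
  · rintro ⟨_, ⟨_, i, hi⟩, _⟩
    refine ⟨hx, i, ?_⟩
    have hi : emb k x i.succ = 0 := hi
    rwa [emb_succ] at hi

theorem ball_Fct (k : ℕ) : Ball k (Fct k) (Fct k ∩ Rst k) :=
  (ball_Orth k).transport (pol_Fct k) (plInv_emb k) Set.inter_subset_left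
    (fun _ hx => emb_mem_iff hx)

theorem ball_Rst (k : ℕ) [NeZero k] : Ball k (Rst k) (Fct k ∩ Rst k) := by
  have : Nonempty (Fin k) := ⟨0⟩
  have hp : pv k - ev k ∈ KO (tcr k) := fun i => by
    rw [map_sub, tcr_ev, sub_zero]; exact pv_mem k i
  have hp₀ : zcr k (pv k - ev k) < 0 := by
    rw [map_sub, zcr_pv, zcr_ev]; norm_num
  obtain ⟨α, β, h1, h2, h3, h4⟩ := proj_side (tcr k) (zcr k) hp hp₀
  refine (ball_Fct k).transport (pol_Rst k) h1.symm Set.inter_subset_right ?_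
  intro x hx
  have hx0 : zcr k x = 0 := hx.2
  constructor
  · rintro ⟨_, h5, h6⟩
    rw [h3 x h5]; exact ⟨hx, h5, h6⟩
  · rintro ⟨h5, h6⟩
    have h7 : β x ∈ KD (tcr k) := h6.1
    have h8 : zcr k (β x) = 0 := h5.2
    have h9 : α (β x) = β x := h2 _ h8
    have h10 : α (β x) = x := h1.fg x hx
    have : β x = x := by rw [← h9, h10]
    rw [this] at h6
    exact ⟨hx, h6⟩

/-- A parametrization of a ball adapted to a decomposition of its boundary. -/
theorem model_ball {k : ℕ} [NeZero k] {B W V T : Set E} (hB : Ball (k + 1) B (W ∪ V))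
    (hW : Ball k W T) (hV : Ball k V T) (hWV : W ∩ V = T) {ψ : (Fin k → ℚ) → E}
    {ψ' : E → (Fin k → ℚ)} (hψ : PLInv ψ ψ' (Orth k) W)
    (hψT : ∀ x ∈ Orth k, (x ∈ dOrth k ↔ ψ x ∈ T)) :
    ∃ α : (Fin (k + 1) → ℚ) → E, ∃ α' : E → (Fin (k + 1) → ℚ), PLInv α α' (Orth (k + 1)) B ∧
      (∀ x ∈ Fct k, α x = ψ (tl k x)) ∧ (∀ y ∈ W, α' y = emb k (ψ' y)) ∧
      (∀ x ∈ Orth (k + 1), (x ∈ Fct k ↔ α x ∈ W)) ∧
      (∀ x ∈ Orth (k + 1), (x ∈ Rst k ↔ α x ∈ V)) := by
  have hTW : T ⊆ W := hW.2.1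
  have hTV : T ⊆ V := hV.2.1
  have h1 : PLInv (fun x => ψ (tl k x)) (fun y => emb k (ψ' y)) (Fct k) W :=
    (plInv_emb k).symm.trans hψ
  have h1T : ∀ x ∈ Fct k, (x ∈ Fct k ∩ Rst k ↔ ψ (tl k x) ∈ T) := by
    intro x hx
    have h2 := (plInv_emb k).mapsg x hx
    rw [← hψT _ h2, emb_mem_iff h2, (plInv_emb k).fg x hx]
  have h2 : PLInv (fun x => ψ (tl k x)) (fun y => emb k (ψ' y)) (Fct k ∩ Rst k) T :=
    h1.restrict Set.inter_subset_left hTW h1T
  obtain ⟨Φ, Ψ, h3, h4, h5, h6⟩ := ball_ext (ball_Rst k) hV h2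
  have hVp : Pol V := hV.1
  have hWp : Pol W := hW.1
  obtain ⟨F, G, hFG, hF1, hF2, hG1, hG2⟩ := h1.paste h3 (pol_Fct k) (pol_Rst k) hWp hVp
    (fun x hx hx' => (h4 x ⟨hx, hx'⟩).symm)
    (fun y hy hy' => (h5 y (by rw [← hWV]; exact ⟨hy, hy'⟩)).symm)
  rw [← dOrth_eq_union] at hFG
  obtain ⟨α, α', h7, h8, h9, h10⟩ := ball_ext (ball_Orth (k + 1)) hB hFG
  refine ⟨α, α', h7, ?_, ?_, ?_, ?_⟩
  · intro x hx
    rw [h8 x (by rw [dOrth_eq_union]; exact Or.inl hx), hF1 x hx]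
  · intro y hy
    rw [h9 y (Or.inl hy), hG1 y hy]
  · intro x hx
    constructor
    · intro hxF
      rw [h8 x (by rw [dOrth_eq_union]; exact Or.inl hxF), hF1 x hxF]
      exact h1.mapsf x hxF
    · intro hxW
      have hxd : x ∈ dOrth (k + 1) := (h10 x hx).2 (Or.inl hxW)
      rw [dOrth_eq_union] at hxd
      rcases hxd with h | h
      · exact h
      · have e : α x = Φ x := by
          rw [h8 x (by rw [dOrth_eq_union]; exact Or.inr h), hF2 x h]
        have hxT : Φ x ∈ T := by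
          rw [← hWV]; exact ⟨e ▸ hxW, h3.mapsf x h⟩
        exact ((h6 x h).2 hxT).1
  · intro x hx
    constructor
    · intro hxR
      rw [h8 x (by rw [dOrth_eq_union]; exact Or.inr hxR), hF2 x hxR]
      exact h3.mapsf x hxR
    · intro hxV
      have hxd : x ∈ dOrth (k + 1) := (h10 x hx).2 (Or.inr hxV)
      rw [dOrth_eq_union] at hxd
      rcases hxd with h | h
      · have e : α x = ψ (tl k x) := by
          rw [h8 x (by rw [dOrth_eq_union]; exact Or.inl h), hF1 x h]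
        have hxT : ψ (tl k x) ∈ T := by
          rw [← hWV]; exact ⟨h1.mapsf x h, e ▸ hxV⟩
        exact ((h1T x h).2 hxT).2
      · exact h

/-- reflection in the first coordinate -/
def refl0 (k : ℕ) : (Fin (k + 1) → ℚ) →ₗ[ℚ] (Fin (k + 1) → ℚ) :=
  LinearMap.id - (2 : ℚ) • (LinearMap.toSpanSingleton ℚ _ (ev k)).comp (zcr k)

theorem refl0_apply {k : ℕ} (x : Fin (k + 1) → ℚ) :
    refl0 k x = x - (2 * zcr k x) • ev k := by
  simp [refl0, LinearMap.sub_apply, smul_smul]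

theorem zcr_refl0 {k : ℕ} (x : Fin (k + 1) → ℚ) : zcr k (refl0 k x) = - zcr k x := by
  rw [refl0_apply, map_sub, map_smul, zcr_ev, smul_eq_mul]; ring

theorem tcr_refl0 {k : ℕ} (x : Fin (k + 1) → ℚ) (i : Fin k) :
    tcr k i (refl0 k x) = tcr k i x := by
  rw [refl0_apply, map_sub, map_smul, tcr_ev, smul_zero, sub_zero]

theorem refl0_refl0 {k : ℕ} (x : Fin (k + 1) → ℚ) : refl0 k (refl0 k x) = x := by
  rw [refl0_apply (refl0 k x), zcr_refl0, refl0_apply]
  module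

theorem refl0_eq {k : ℕ} {x : Fin (k + 1) → ℚ} (hx : zcr k x = 0) : refl0 k x = x := by
  rw [refl0_apply, hx]; simp

/-- The flattening map between the double orthant and the orthant. -/
theorem flatten (k : ℕ) [NeZero k] :
    ∃ θ η : (Fin (k + 1) → ℚ) → (Fin (k + 1) → ℚ), PLInv η θ (Orth (k + 1)) (KC (tcr k)) ∧
      ∀ x ∈ Orth (k + 1), (x ∈ dOrth (k + 1) ↔ η x ∈ KD (tcr k)) := by
  have : Nonempty (Fin k) := ⟨0⟩
  set m : (Fin (k + 1) → ℚ) → ℚ := rad (tcr k) (pv k) with hm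
  have hpv := pv_mem k
  have hmadd : ∀ x t, m (x + t • pv k) = m x + t := fun x t => rad_add _ hpv x t
  have hmev : ∀ x t, m (x + t • ev k) = m x := fun x t => rad_congr _ _ (fun i => by
    rw [map_add, map_smul, tcr_ev, smul_zero, add_zero])
  have hR := radial_KC (tcr k) hpv
  have hmle : ∀ x i, m x ≤ tcr k i x := by
    intro x i
    have h1 := rad_le (tcr k) hpv x i
    have h2 : tcr k i (pv k) = 1 := by
      show pv k i.succ = 1
      simp [pv, Fin.succ_ne_zero]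
    rwa [h2, mul_one] at h1
  have hmeq : ∀ x, ∃ i, m x = tcr k i x := by
    intro x
    obtain ⟨i, hi⟩ := exists_rad_eq (tcr k) hpv x
    have h2 : tcr k i (pv k) = 1 := by
      show pv k i.succ = 1
      simp [pv, Fin.succ_ne_zero]
    rw [h2, mul_one] at hi
    exact ⟨i, hi⟩
  have hmnn : ∀ x, x ∈ KC (tcr k) ↔ 0 ≤ m x := by
    intro x; constructor
    · exact fun hx => hR.nonneg x hx
    · exact fun h i => h.trans (hmle x i)
  have hplm : ∀ S, PLOn m S := fun S => plOn_rad _ _ S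
  have hplz : ∀ S, PLOn (zcr k) S := fun S => plOn_linear _ S
  have hpl0 : ∀ S : Set (Fin (k + 1) → ℚ), PLOn (fun _ => (0 : ℚ)) S := fun S =>
    plOn_linear (0 : (Fin (k + 1) → ℚ) →ₗ[ℚ] ℚ) S
  -- η y = y - max (m y - y0, 0) p - m y e0
  let η : (Fin (k + 1) → ℚ) → (Fin (k + 1) → ℚ) := fun y =>
    y - (max (m y - zcr k y) 0) • pv k - m y • ev k
  let θ : (Fin (k + 1) → ℚ) → (Fin (k + 1) → ℚ) := fun x =>
    x + (max (- zcr k x) 0) • pv k + (m x + max (- zcr k x) 0) • ev k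
  have hzη : ∀ y, zcr k (η y) = zcr k y - m y := by
    intro y
    show zcr k (y - (max (m y - zcr k y) 0) • pv k - m y • ev k) = _
    rw [map_sub, map_sub, map_smul, map_smul, zcr_pv, zcr_ev, smul_zero, sub_zero, smul_eq_mul,
      mul_one]
  have hmη : ∀ y, m (η y) = m y - max (m y - zcr k y) 0 := by
    intro y
    have : η y = (y + (-(max (m y - zcr k y) 0)) • pv k) + (-(m y)) • ev k := by
      show y - (max (m y - zcr k y) 0) • pv k - m y • ev k = _
      module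
    rw [this, hmev, hmadd]; ring
  have hzθ : ∀ x, zcr k (θ x) = zcr k x + (m x + max (- zcr k x) 0) := by
    intro x
    show zcr k (x + (max (- zcr k x) 0) • pv k + (m x + max (- zcr k x) 0) • ev k) = _
    rw [map_add, map_add, map_smul, map_smul, zcr_pv, zcr_ev, smul_zero, add_zero, smul_eq_mul,
      mul_one]
  have hmθ : ∀ x, m (θ x) = m x + max (- zcr k x) 0 := by
    intro x
    show m (x + (max (- zcr k x) 0) • pv k + (m x + max (- zcr k x) 0) • ev k) = _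
    rw [hmev, hmadd]
  refine ⟨θ, η, ⟨?_, ?_, ?_, ?_, ?_, ?_⟩, ?_⟩
  · exact ((plOn_id _).sub ((((hplm _).sub (hplz _)).max (hpl0 _)).lin
      (LinearMap.toSpanSingleton ℚ _ (pv k)))).sub ((hplm _).lin
      (LinearMap.toSpanSingleton ℚ _ (ev k)))
  · exact ((plOn_id _).add (((hplz _).neg.max (hpl0 _)).lin
      (LinearMap.toSpanSingleton ℚ _ (pv k)))).add (((hplm _).add
      ((hplz _).neg.max (hpl0 _))).lin (LinearMap.toSpanSingleton ℚ _ (ev k)))
  · intro y hy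
    have hy' := mem_Orth_succ.1 hy
    rw [hmnn, hmη]
    have h1 := (hmnn y).1 hy'.2
    rcases le_total (m y - zcr k y) 0 with h | h
    · rw [max_eq_right h]; linarith
    · rw [max_eq_left h]; linarith [hy'.1]
  · intro x hx
    rw [mem_Orth_succ, hmnn, hzθ, hmθ]
    have h1 := (hmnn x).1 hx
    rcases le_total (- zcr k x) 0 with h | h
    · rw [max_eq_right h]; constructor <;> linarith
    · rw [max_eq_left h]; constructor <;> linarith
  · intro y hy
    have hy' := mem_Orth_succ.1 hy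
    show η y + (max (- zcr k (η y)) 0) • pv k + (m (η y) + max (- zcr k (η y)) 0) • ev k = y
    have e1 : max (- zcr k (η y)) 0 = max (m y - zcr k y) 0 := by rw [hzη]; ring_nf
    rw [e1, hmη]
    show y - (max (m y - zcr k y) 0) • pv k - m y • ev k + (max (m y - zcr k y) 0) • pv k + _ = y
    module
  · intro x hx
    show θ x - (max (m (θ x) - zcr k (θ x)) 0) • pv k - m (θ x) • ev k = x
    have e1 : max (m (θ x) - zcr k (θ x)) 0 = max (- zcr k x) 0 := by
      rw [hmθ, hzθ]; ring_nf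
    rw [e1, hmθ]
    show x + (max (- zcr k x) 0) • pv k + (m x + max (- zcr k x) 0) • ev k - _ - _ = x
    module
  · intro y hy
    have hy' := mem_Orth_succ.1 hy
    have h1 := (hmnn y).1 hy'.2
    have hηC : η y ∈ KC (tcr k) := by
      rw [hmnn, hmη]
      rcases le_total (m y - zcr k y) 0 with h | h
      · rw [max_eq_right h]; linarith
      · rw [max_eq_left h]; linarith [hy'.1]
    rw [rad_zero_iff (tcr k) hpv hηC]
    rw [show rad (tcr k) (pv k) (η y) = m (η y) from rfl, hmη]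
    constructor
    · rintro ⟨_, i, hi⟩
      rcases Fin.eq_zero_or_eq_succ i with rfl | ⟨j, rfl⟩
      · have hi : zcr k y = 0 := hi
        rw [hi, sub_zero, max_eq_left h1, sub_self]
      · have hi : tcr k j y = 0 := hi
        have h2 : m y ≤ 0 := hi ▸ hmle y j
        have h3 : m y = 0 := le_antisymm h2 h1
        rw [h3, max_eq_right (by linarith [hy'.1]), sub_zero]
    · intro h
      refine ⟨hy, ?_⟩
      rcases le_total (m y - zcr k y) 0 with h2 | h2
      · rw [max_eq_right h2, sub_zero] at h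
        obtain ⟨i, hi⟩ := hmeq y
        exact ⟨i.succ, by show tcr k i y = 0; rw [← hi, h]⟩
      · rw [max_eq_left h2] at h
        exact ⟨0, by show zcr k y = 0; linarith⟩

/-- The union of two balls along a ball in their boundaries is a ball. -/
theorem unionLemma (k : ℕ) [NeZero k] : UnionLemma E k := by
  intro B X W V V' T hB hX hW hV hV' hWV hWV' hBX
  have : Nonempty (Fin k) := ⟨0⟩
  obtain ⟨hWp, hTW, ψ, ψ', hψ, hψT⟩ := id hW
  obtain ⟨α, α', hα, hα1, hα1', hα2, hα3⟩ := model_ball hB hW hV hWV hψ hψT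
  obtain ⟨β, β', hβ, hβ1, hβ1', hβ2, hβ3⟩ := model_ball hX hW hV' hWV' hψ hψT
  have hBp : Pol B := hB.1
  have hXp : Pol X := hX.1
  -- the reflected orthant
  set O' : Set (Fin (k + 1) → ℚ) := {x | zcr k x ≤ 0 ∧ x ∈ KC (tcr k)} with hO'
  have hO'p : Pol O' := by
    have : O' = {x | 0 ≤ (-zcr k) x} ∩ KC (tcr k) := by
      ext x; simp [hO', LinearMap.neg_apply]
    rw [this]; exact (pol_halfspace _).inter (pol_KC _)
  have hrefl : PLInv (refl0 k) (refl0 k) O' (Orth (k + 1)) := by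
    refine ⟨plOn_linear _ _, plOn_linear _ _, ?_, ?_, fun x _ => refl0_refl0 x,
      fun x _ => refl0_refl0 x⟩
    · rintro x ⟨hx1, hx2⟩
      rw [mem_Orth_succ, zcr_refl0]
      exact ⟨by linarith, fun i => by rw [tcr_refl0]; exact hx2 i⟩
    · intro x hx
      have hx := mem_Orth_succ.1 hx
      exact ⟨by rw [zcr_refl0]; linarith [hx.1], fun i => by rw [tcr_refl0]; exact hx.2 i⟩
  have hβ' := hrefl.trans hβ
  obtain ⟨γ, γ', hγ, hγ1, hγ2, hγ1', hγ2'⟩ := hα.paste hβ' (pol_Orth (k + 1)) hO'p hBp hXp (by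
      intro x hx hx'
      have hx0 : zcr k x = 0 := le_antisymm hx'.1 (mem_Orth_succ.1 hx).1
      have hxF : x ∈ Fct k := ⟨hx'.2, hx0⟩
      show α x = β (refl0 k x)
      rw [refl0_eq hx0, hα1 x hxF, hβ1 x hxF]) (by
      intro y hy hy'
      have hyW : y ∈ W := by rw [← hBX]; exact ⟨hy, hy'⟩
      show α' y = refl0 k (β' y)
      have h0 : zcr k (emb k (ψ' y)) = 0 := emb_zero _
      rw [hα1' y hyW, hβ1' y hyW, refl0_eq h0])
  have hunion : Orth (k + 1) ∪ O' = KC (tcr k) := by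
    ext x; constructor
    · rintro (h | h)
      · exact (mem_Orth_succ.1 h).2
      · exact h.2
    · intro h
      rcases le_total 0 (zcr k x) with h1 | h1
      · exact Or.inl (mem_Orth_succ.2 ⟨h1, h⟩)
      · exact Or.inr ⟨h1, h⟩
  rw [hunion] at hγ
  obtain ⟨θ, η, hη, hηd⟩ := flatten k
  have hfin := hη.trans hγ
  have hVB : W ∪ V ⊆ B := hB.2.1
  have hVX : W ∪ V' ⊆ X := hX.2.1
  refine ⟨hBp.union hXp, ?_, _, _, hfin, ?_⟩
  · rintro x (hx | hx)
    · exact Or.inl (hVB (Or.inr hx))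
    · exact Or.inr (hVX (Or.inr hx))
  · intro y hy
    show y ∈ dOrth (k + 1) ↔ γ (η y) ∈ V ∪ V'
    rw [hηd y hy]
    have hxC := hη.mapsf y hy
    generalize η y = x at hxC
    rcases le_total 0 (zcr k x) with h0 | h0
    · have hxO : x ∈ Orth (k + 1) := mem_Orth_succ.2 ⟨h0, hxC⟩
      rw [hγ1 x hxO]
      constructor
      · intro hx; exact Or.inl ((hα3 x hxO).1 ⟨hx, h0⟩)
      · rintro (hx | hx)
        · exact ((hα3 x hxO).2 hx).1
        · have h1 : α x ∈ W := by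
            rw [← hBX]; exact ⟨hα.mapsf x hxO, hVX (Or.inr hx)⟩
          have h2 : α x ∈ V := by
            have : α x ∈ W ∩ V' := ⟨h1, hx⟩
            rw [hWV', ← hWV] at this; exact this.2
          exact ((hα3 x hxO).2 h2).1
    · have hxO' : x ∈ O' := ⟨h0, hxC⟩
      have hr := hrefl.mapsf x hxO'
      rw [hγ2 x hxO']
      show x ∈ KD (tcr k) ↔ β (refl0 k x) ∈ V ∪ V'
      have hKD : x ∈ KD (tcr k) ↔ refl0 k x ∈ Rst k := by
        constructor
        · rintro ⟨h1, i, hi⟩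
          refine ⟨⟨fun j => by rw [tcr_refl0]; exact h1 j, i, by rw [tcr_refl0]; exact hi⟩, ?_⟩
          show 0 ≤ zcr k (refl0 k x)
          rw [zcr_refl0]; linarith
        · rintro ⟨⟨h1, i, hi⟩, _⟩
          rw [tcr_refl0] at hi
          exact ⟨hxC, i, hi⟩
      rw [hKD]
      constructor
      · intro hx; exact Or.inr ((hβ3 _ hr).1 hx)
      · rintro (hx | hx)
        · have h1 : β (refl0 k x) ∈ W := by
            rw [← hBX]; exact ⟨hVB (Or.inr hx), hβ.mapsf _ hr⟩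
          have h2 : β (refl0 k x) ∈ V' := by
            have : β (refl0 k x) ∈ W ∩ V := ⟨h1, hx⟩
            rw [hWV, ← hWV'] at this; exact this.2
          exact (hβ3 _ hr).2 h2
        · exact (hβ3 _ hr).2 hx

end Pool.Agent.Work.MP_552024_lc.PLS
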