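import Pool.Agent.Work.MP_552024_lc.PLS.Formula
import Pool.Agent.Work.MP_552024_lc.PLS.Union

set_option autoImplicit false

namespace Pool.Agent.Work.MP_552024_lc.PLS

variable {E : Type*} [AddCommGroup E] [Module ℚ E] [FiniteDimensional ℚ E]
variable {E' : Type*} [AddCommGroup E'] [Module ℚ E'] [FiniteDimensional ℚ E']

/-! Monotonicity in the relation. -/

theorem Side.mono {β β' : Set E → Set E → Prop} (h : ∀ C S, β C S → β' C S)
    {M F G w x : Set E} (hs : Side β M F G w x) : Side β' M F G w x := by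
  obtain ⟨m, h1, h2, h3, ⟨V, h4, h5, h6, h7⟩, h8⟩ := hs
  exact ⟨m, h1, h2, h3, ⟨V, h4, h5, h6, h _ _ h7⟩, h8⟩

theorem Good.mono {β β' : Set E → Set E → Prop} (h : ∀ C S, β C S → β' C S)
    {M F G : Set E} (hs : Good β M F G) : Good β' M F G := by
  refine ⟨fun w hw => ?_, hs.2⟩
  obtain ⟨x, y, h1, h2, h3, h4, h5, h6, h7, h8, h9, h10⟩ := hs.1 w hw
  exact ⟨x, y, h1, h2, h3, h4, h5, h _ _ h6, h _ _ h7, h _ _ h8, h9.mono h, h10.mono h⟩

theorem Lev.mono {β β' : Set E → Set E → Prop} (h : ∀ C S, β C S → β' C S)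
    {C A : Set E} (j : ℕ) : ∀ {F : Set E}, Lev β C A j F → Lev β' C A j F := by
  induction j with
  | zero =>
    intro F hs M hM
    obtain ⟨h1, D₁, D₂, h2, h3, h4, h5, h6⟩ := hs M hM
    exact ⟨h1, D₁, D₂, h2, h3, h4, h _ _ h5, h _ _ h6⟩
  | succ j ih =>
    rintro F ⟨G, h1, h2, h3, h4⟩
    exact ⟨G, h1, h2, fun M hM => (h3 M hM).mono h, ih h4⟩

section transport

variable {f : E → E'} {g : E' → E} {s : Set E} {t : Set E'}

/-- `β` implies `β'` for images. -/
def Tr (f : E → E') (s : Set E) (β : Set E → Set E → Prop) (β' : Set E' → Set E' → Prop) : Prop :=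
  ∀ C S, C ⊆ s → S ⊆ s → β C S → β' (f '' C) (f '' S)

theorem image_sub_iff (h : PLInv f g s t) {u v : Set E} (hu : u ⊆ s) (hv : v ⊆ s) :
    f '' u ⊆ f '' v ↔ u ⊆ v := by
  constructor
  · intro hh x hx
    exact (h.mem_image hv (hu hx)).1 (hh ⟨x, hx, rfl⟩)
  · exact fun hh => Set.image_mono hh

/-- Components of images are images of components. -/
theorem comp_of_image (h : PLInv f g s t) (hs : Pol s) (ht : Pol t) {M' : Set E'} {C F : Set E}
    (hC : Pol C) (hCs : C ⊆ s) (hF : Pol F) (hFs : F ⊆ s) (hM : Comp M' (f '' C) (f '' F)) :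
    ∃ M, Comp M C F ∧ M' = f '' M ∧ M ⊆ s := by
  have h1 := h.symm.comp_image ht hs (h.pol_image ht hCs hC) (h.image_subset hCs)
    (h.pol_image ht hFs hF) (h.image_subset hFs) hM
  rw [h.image_image hCs, h.image_image hFs] at h1
  refine ⟨g '' M', h1, ?_, h1.sub.trans hCs⟩
  rw [h.symm.image_image (hM.sub.trans (h.image_subset hCs))]

theorem side_image (h : PLInv f g s t) (hs : Pol s) (ht : Pol t)
    {β : Set E → Set E → Prop} {β' : Set E' → Set E' → Prop} (hβ : Tr f s β β')
    {M F G w x : Set E} (hM : Pol M) (hF : Pol F) (hG : Pol G) (hw : Pol w)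
    (hMs : M ⊆ s) (hFs : F ⊆ s) (hGs : G ⊆ s) (hws : w ⊆ s) (hxs : x ⊆ s)
    (hS : Side β M F G w x) : Side β' (f '' M) (f '' F) (f '' G) (f '' w) (f '' x) := by
  obtain ⟨m, h1, h2, h3, ⟨V, h4, h5, h6, h7⟩, h8⟩ := hS
  have hms : m ⊆ s := h1.sub.trans hMs
  have hFG : F ∪ G ⊆ s := Set.union_subset hFs hGs
  have hVs : V ⊆ s := by
    intro v hv
    have : v ∈ m ∩ (F ∪ G) := by rw [h5]; exact Or.inr hv
    exact hms this.1
  refine ⟨f '' m, ?_, Set.image_mono h2, ?_, ⟨f '' V, h.pol_image ht hVs h4, ?_, ?_, ?_⟩, ?_⟩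
  · rw [← Set.image_union]
    exact h.comp_image hs ht hM hMs (hF.union hG) hFG h1
  · rw [← h.image_inter hws hms, image_sub_iff h (Set.inter_subset_left.trans hws) hFs]
    exact h3
  · rw [← Set.image_union, ← h.image_inter hms hFG, h5, Set.image_union]
  · rw [← h.image_inter hws hVs, h6, h.image_inter hws hFs]
  · rw [← h.image_inter hws hFs]
    exact hβ _ _ hVs (Set.inter_subset_left.trans hws) h7
  · intro m' hm' hm'x hm'w
    rw [← Set.image_union] at hm'
    obtain ⟨m₀, h9, rfl, h10⟩ := comp_of_image h hs ht hM hMs (hF.union hG) hFG hm'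
    rw [image_sub_iff h h10 hxs] at hm'x
    rw [← h.image_inter hws h10, image_sub_iff h (Set.inter_subset_left.trans hws) hFs] at hm'w
    rw [h8 m₀ h9 hm'x hm'w]

theorem good_image (h : PLInv f g s t) (hs : Pol s) (ht : Pol t)
    {β : Set E → Set E → Prop} {β' : Set E' → Set E' → Prop} (hβ : Tr f s β β')
    {M F G : Set E} (hM : Pol M) (hF : Pol F) (hG : Pol G)
    (hMs : M ⊆ s) (hFs : F ⊆ s) (hGs : G ⊆ s)
    (hS : Good β M F G) : Good β' (f '' M) (f '' F) (f '' G) := by
  have hGM : G ∩ M ⊆ s := Set.inter_subset_right.trans hMs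
  have hFG : F ∪ G ⊆ s := Set.union_subset hFs hGs
  constructor
  · intro w' hw'
    rw [← h.image_inter hGs hMs] at hw'
    obtain ⟨w, hw, rfl, hws⟩ := comp_of_image h hs ht (hG.inter hM) hGM hF hFs hw'
    obtain ⟨x, y, h1, h2, h3, h4, h5, h6, h7, h8, h9, h10⟩ := hS.1 w hw
    have hxs : x ⊆ s := h1.sub.trans hMs
    have hys : y ⊆ s := h2.sub.trans hMs
    have hFw : F ∪ w ⊆ s := Set.union_subset hFs hws
    refine ⟨f '' x, f '' y, ?_, ?_, ?_, ?_, ?_, ?_, ?_, ?_, ?_, ?_⟩
    · rw [← Set.image_union]; exact h.comp_image hs ht hM hMs (hF.union hw.pol) hFw h1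
    · rw [← Set.image_union]; exact h.comp_image hs ht hM hMs (hF.union hw.pol) hFw h2
    · intro hh; apply h3
      apply subset_antisymm
      · rw [← image_sub_iff h hxs hys, hh]
      · rw [← image_sub_iff h hys hxs, hh]
    · intro z' hz'
      rw [← Set.image_union] at hz'
      obtain ⟨z, hz, rfl, hzs⟩ := comp_of_image h hs ht hM hMs (hF.union hw.pol) hFw hz'
      rcases h4 z hz with rfl | rfl
      · exact Or.inl rfl
      · exact Or.inr rfl
    · rw [← h.image_inter hxs hys, h5]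
    · rw [← h.image_inter hws hFs]
      exact hβ _ _ hws (Set.inter_subset_left.trans hws) h6
    · rw [← h.image_inter hxs hFs, ← h.image_inter hws hFs]
      exact hβ _ _ (Set.inter_subset_left.trans hxs) (Set.inter_subset_left.trans hws) h7
    · rw [← h.image_inter hys hFs, ← h.image_inter hws hFs]
      exact hβ _ _ (Set.inter_subset_left.trans hys) (Set.inter_subset_left.trans hws) h8
    · exact side_image h hs ht hβ hM hF hG hw.pol hMs hFs hGs hws hxs h9
    · exact side_image h hs ht hβ hM hF hG hw.pol hMs hFs hGs hws hys h10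
  · intro m' w₁' w₂' w₃' hm' hw₁' hw₂' hw₃' h1 h2 h3
    rw [← Set.image_union] at hm'
    rw [← h.image_inter hGs hMs] at hw₁' hw₂' hw₃'
    obtain ⟨m, hm, rfl, hms⟩ := comp_of_image h hs ht hM hMs (hF.union hG) hFG hm'
    obtain ⟨w₁, hw₁, rfl, hw₁s⟩ := comp_of_image h hs ht (hG.inter hM) hGM hF hFs hw₁'
    obtain ⟨w₂, hw₂, rfl, hw₂s⟩ := comp_of_image h hs ht (hG.inter hM) hGM hF hFs hw₂'
    obtain ⟨w₃, hw₃, rfl, hw₃s⟩ := comp_of_image h hs ht (hG.inter hM) hGM hF hFs hw₃'
    rw [← h.image_inter hw₁s hms, image_sub_iff h (Set.inter_subset_left.trans hw₁s) hFs] at h1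
    rw [← h.image_inter hw₂s hms, image_sub_iff h (Set.inter_subset_left.trans hw₂s) hFs] at h2
    rw [← h.image_inter hw₃s hms, image_sub_iff h (Set.inter_subset_left.trans hw₃s) hFs] at h3
    rcases hS.2 m w₁ w₂ w₃ hm hw₁ hw₂ hw₃ h1 h2 h3 with hh | hh | hh
    · exact Or.inl (by rw [hh])
    · exact Or.inr (Or.inl (by rw [hh]))
    · exact Or.inr (Or.inr (by rw [hh]))

theorem lev_image (h : PLInv f g s t) (hs : Pol s) (ht : Pol t)
    {β : Set E → Set E → Prop} {β' : Set E' → Set E' → Prop} (hβ : Tr f s β β')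
    {C A : Set E} (hC : Pol C) (hCs : C ⊆ s) (hAs : A ⊆ s) (j : ℕ) :
    ∀ {F : Set E}, Pol F → F ⊆ s → Lev β C A j F → Lev β' (f '' C) (f '' A) j (f '' F) := by
  induction j with
  | zero =>
    intro F hF hFs hL M' hM'
    obtain ⟨M, hM, rfl, hMs⟩ := comp_of_image h hs ht hC hCs hF hFs hM'
    obtain ⟨h1, D₁, D₂, h2, h3, h4, h5, h6⟩ := hL M hM
    have hD₁ : D₁ ⊆ s := by
      intro v hv
      have : v ∈ M ∩ F := by rw [h4]; exact Or.inl hv
      exact hMs this.1
    have hD₂ : D₂ ⊆ s := by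
      intro v hv
      have : v ∈ M ∩ F := by rw [h4]; exact Or.inr hv
      exact hMs this.1
    refine ⟨?_, f '' D₁, f '' D₂, h.pol_image ht hD₁ h2, h.pol_image ht hD₂ h3, ?_, ?_, ?_⟩
    · rw [← h.image_inter hMs hAs, image_sub_iff h (Set.inter_subset_left.trans hMs) hFs]
      exact h1
    · rw [← h.image_inter hMs hFs, h4, Set.image_union]
    · rw [← h.image_inter hD₁ hD₂]
      exact hβ _ _ hD₁ (Set.inter_subset_left.trans hD₁) h5
    · rw [← h.image_inter hD₁ hD₂]
      exact hβ _ _ hD₂ (Set.inter_subset_left.trans hD₁) h6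
  | succ j ih =>
    rintro F hF hFs ⟨G, h1, h2, h3, h4⟩
    have hGs : G ⊆ s := h2.trans hCs
    refine ⟨f '' G, h.pol_image ht hGs h1, Set.image_mono h2, fun M' hM' => ?_, ?_⟩
    · obtain ⟨M, hM, rfl, hMs⟩ := comp_of_image h hs ht hC hCs hF hFs hM'
      exact good_image h hs ht hβ hM.pol hF h1 hMs hFs hGs (h3 M hM)
    · rw [← Set.image_union]
      exact ih (hF.union h1) (Set.union_subset hFs hGs) h4

end transport

/-- Balls described by the formula are preserved by piecewise linear bijections. -/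
theorem BB.image (k : ℕ) : ∀ {E : Type} [AddCommGroup E] [Module ℚ E] [FiniteDimensional ℚ E]
    {E' : Type} [AddCommGroup E'] [Module ℚ E'] [FiniteDimensional ℚ E']
    {f : E → E'} {g : E' → E} {s : Set E} {t : Set E'} (_ : PLInv f g s t)
    (_ : Pol s) (_ : Pol t), Tr f s (BB k) (BB k) := by
  induction k with
  | zero => intro E _ _ _ E' _ _ _ f g s t h hs ht C S _ _ h0; exact h0
  | succ k ih =>
    intro E _ _ _ E' _ _ _ f g s t h hs ht C S hCs hSs hB
    cases k with
    | zero =>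
      obtain ⟨h1, h2, h3, h4⟩ := hB
      have h0 : f 0 = 0 := h.plf.zero hs.1
      refine ⟨by rw [h1, Set.image_singleton, h0], h.pol_image ht hCs h2, ?_, ?_⟩
      · intro hh; apply h3
        have h5 := h.image_image hCs
        rw [hh, Set.image_singleton, h.plg.zero ht.1] at h5
        exact h5.symm
      · intro D hD hDC
        have hDt : D ⊆ t := hDC.trans (h.image_subset hCs)
        have h5 : g '' D ⊆ C := by
          have := Set.image_mono (f := g) hDC
          rwa [h.image_image hCs] at this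
        rcases h4 (g '' D) (h.symm.pol_image hs hDt hD) h5 with h6 | h6
        · left
          have h7 := h.symm.image_image hDt
          rw [h6, Set.image_singleton, h0] at h7
          exact h7.symm
        · right
          have h7 := h.symm.image_image hDt
          rw [h6] at h7
          exact h7.symm
    | succ k =>
      obtain ⟨h1, h2, h3, h4, h5⟩ := hB
      refine ⟨h.pol_image ht hCs h1, h.pol_image ht hSs h2, Set.image_mono h3,
        h.comp_image hs ht h1 hCs h2 hSs h4, ?_⟩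
      intro A hA hAC hcl
      have hAt : A ⊆ t := hAC.trans (h.image_subset hCs)
      have hgA : g '' A ⊆ C := by
        have := Set.image_mono (f := g) hAC
        rwa [h.image_image hCs] at this
      have hgAs : g '' A ⊆ s := hgA.trans hCs
      have hA' : f '' (g '' A) = A := h.symm.image_image hAt
      have h6 := h5 (g '' A) (h.symm.pol_image hs hAt hA) hgA (by
        have h7 : cl (C \ g '' A) ⊆ s := (h1.cl_subset Set.sdiff_subset).trans hCs
        have h8 := h.image_cl hs ht (u := C \ g '' A) (Set.sdiff_subset.trans hCs)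
          (h1.con.diff (h.symm.pol_image hs hAt hA).con)
        rw [h.image_diff hCs hgAs, hA', hcl] at h8
        apply subset_antisymm
        · rw [← image_sub_iff h h7 hCs, h8]
        · rw [← image_sub_iff h hCs h7, h8])
      have h9 := lev_image h hs ht (ih h hs ht) h1 hCs hgAs (k + 1) h2 hSs h6
      rwa [hA'] at h9

end Pool.Agent.Work.MP_552024_lc.PLS
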