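import Pool.Agent.Work.MP_552024_lc.PLS.Assemble
import Pool.Agent.Work.MP_552024_lc.H1
import Pool.Agent.Work.MP_552024_lc.D1
import Pool.Agent.Work.MP_552024_lc.D2

set_option autoImplicit false

namespace Pool.Agent.Work.MP_552024_lc.PLS

open Pool.Agent.MP552024

/-! Zero sets of elements of a lattice-ordered group with a chart. -/

/-- rational points as real points -/
def castR {V : Type} (x : V → ℚ) : V → ℝ := fun i => (x i : ℝ)

/-- the rational points of the realisation -/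
def Qset {G : Type} [AddCommGroup G] [Lattice G] (M : Mdl G) : Set (M.V → ℚ) :=
  {x | castR x ∈ M.Δ.Z}

/-- the zero set of an element -/
def Zset {G : Type} [AddCommGroup G] [Lattice G] (M : Mdl G) (a : G) : Set (M.V → ℚ) :=
  {x | x ∈ Qset M ∧ M.ev a (castR x) = 0}

/-- elements of `LP` are rational piecewise linear at rational points -/
theorem LP_pl {V : Type} [Fintype V] {a : (V → ℝ) → ℝ} (ha : a ∈ LP V) :
    ∃ b : (V → ℚ) → ℚ, PLOn b Set.univ ∧ ∀ x, a (castR x) = (b x : ℝ) := by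
  refine LP_ind (P := fun a => ∃ b : (V → ℚ) → ℚ, PLOn b Set.univ ∧
    ∀ x, a (castR x) = (b x : ℝ)) ha ?_ ?_ ?_ ?_ ?_ ?_
  · intro i
    exact ⟨_, plOn_linear (LinearMap.proj i : (V → ℚ) →ₗ[ℚ] ℚ) _, fun x => rfl⟩
  · exact ⟨_, plOn_linear (0 : (V → ℚ) →ₗ[ℚ] ℚ) _, fun x => by simp⟩
  · rintro a b ⟨a', h1, h2⟩ ⟨b', h3, h4⟩
    exact ⟨_, h1.add h3, fun x => by beta_reduce; rw [h2, h4]; push_cast; rfl⟩
  · rintro a ⟨a', h1, h2⟩
    exact ⟨_, h1.neg, fun x => by beta_reduce; rw [h2]; push_cast; rfl⟩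
  · rintro a b ⟨a', h1, h2⟩ ⟨b', h3, h4⟩
    exact ⟨_, h1.max h3, fun x => by beta_reduce; rw [h2, h4]; push_cast; rfl⟩
  · rintro a b ⟨a', h1, h2⟩ ⟨b', h3, h4⟩
    exact ⟨_, h1.min h3, fun x => by beta_reduce; rw [h2, h4]; push_cast; rfl⟩

theorem pol_Qset {G : Type} [AddCommGroup G] [Lattice G] (M : Mdl G) : Pol (Qset M) := by
  refine ⟨?_, Set.range (fun i => (LinearMap.proj i : (M.V → ℚ) →ₗ[ℚ] ℚ)), Set.finite_range _, ?_⟩
  · show castR (0 : M.V → ℚ) ∈ M.Δ.Z
    have : castR (0 : M.V → ℚ) = fun _ => (0 : ℝ) := by ext i; simp [castR]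
    rw [this]; exact Cx.zero_mem
  · intro y hy x hx
    have hxy : ∀ i, x i = 0 ∨ SignType.sign (x i) = SignType.sign (y i) := fun i => hx _ ⟨i, rfl⟩
    refine ⟨fun i => ?_, M.Δ.down _ _ ?_ hy.2⟩
    · have h1 := hy.1 i
      simp only [castR] at h1 ⊢
      rcases hxy i with h | h
      · rw [h]; simp
      · have h2 : (0 : ℚ) ≤ y i := by exact_mod_cast h1
        rcases h2.eq_or_lt with h3 | h3
        · rw [← h3, sign_zero, sign_eq_zero_iff] at h; rw [h]; simp
        · rw [sign_pos h3, sign_eq_one_iff] at h; exact_mod_cast h.le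
    · intro i hi
      simp only [castR, Set.mem_ofPred_eq, ne_eq, Rat.cast_eq_zero] at hi ⊢
      intro h0
      rcases hxy i with h | h
      · exact hi h
      · rw [h0, sign_zero, sign_eq_zero_iff] at h; exact hi h

theorem pol_Zset {G : Type} [AddCommGroup G] [Lattice G] (M : Mdl G) (a : G) : Pol (Zset M a) := by
  obtain ⟨b, hb, hab⟩ := M.chart.mem a
  obtain ⟨b', hb', hbb'⟩ := LP_pl hb
  have h1 := (hb'.mono (Set.subset_univ (Qset M))).pol_preimage (pol_Qset M)
    (pol_zero (E := ℚ))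
  convert h1 using 1
  ext x
  constructor
  · rintro ⟨h2, h3⟩
    refine ⟨h2, ?_⟩
    rw [hab _ h2, hbb' x] at h3
    exact_mod_cast h3
  · rintro ⟨h2, h3⟩
    refine ⟨h2, ?_⟩
    rw [hab _ h2, hbb' x]
    rw [Set.mem_singleton_iff] at h3
    rw [h3]; simp

theorem Zset_sub {G : Type} [AddCommGroup G] [Lattice G] (M : Mdl G) (a : G) :
    Zset M a ⊆ Qset M := fun _ h => h.1

/-- `s` is the zero set of a nonnegative element of `LP` -/
def LPZ {V : Type} (s : Set (V → ℚ)) : Prop :=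
  ∃ b ∈ LP V, (∀ z, 0 ≤ b z) ∧ ∀ x, b (castR x) = 0 ↔ x ∈ s

theorem LPZ.inter {V : Type} {s t : Set (V → ℚ)} (hs : LPZ s) (ht : LPZ t) : LPZ (s ∩ t) := by
  obtain ⟨a, ha, ha0, has⟩ := hs
  obtain ⟨b, hb, hb0, hbt⟩ := ht
  refine ⟨_, LP_add ha hb, fun z => add_nonneg (ha0 z) (hb0 z), fun x => ?_⟩
  rw [Set.mem_inter_iff, ← has, ← hbt]
  constructor
  · intro h
    have h1 := ha0 (castR x)
    have h2 := hb0 (castR x)
    constructor <;> linarith
  · rintro ⟨h1, h2⟩; rw [h1, h2, add_zero]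

theorem LPZ.union {V : Type} {s t : Set (V → ℚ)} (hs : LPZ s) (ht : LPZ t) : LPZ (s ∪ t) := by
  obtain ⟨a, ha, ha0, has⟩ := hs
  obtain ⟨b, hb, hb0, hbt⟩ := ht
  refine ⟨_, LP_min ha hb, fun z => le_min (ha0 z) (hb0 z), fun x => ?_⟩
  rw [Set.mem_union, ← has, ← hbt]
  have h1 := ha0 (castR x)
  have h2 := hb0 (castR x)
  rcases le_total (a (castR x)) (b (castR x)) with h | h
  · rw [min_eq_left h]
    constructor
    · exact fun h3 => Or.inl h3
    · rintro (h3 | h3)
      · exact h3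
      · exact le_antisymm (h3 ▸ h) h1
  · rw [min_eq_right h]
    constructor
    · exact fun h3 => Or.inr h3
    · rintro (h3 | h3)
      · exact le_antisymm (h3 ▸ h) h2
      · exact h3

/-- forms have integral multiples -/
theorem form_int {V : Type} [Fintype V] (a : (V → ℚ) →ₗ[ℚ] ℚ) :
    ∃ N : ℕ, 0 < N ∧ ∃ c : V → ℤ, ∀ x, (N : ℚ) * a x = ∑ i, (c i : ℚ) * x i := by
  classical
  set N : ℕ := ∏ i, (a (Pi.single i 1)).den with hN
  have hNpos : 0 < N := Finset.prod_pos (fun i _ => (a (Pi.single i 1)).pos)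
  have h1 : ∀ i, ∃ c : ℤ, (N : ℚ) * a (Pi.single i 1) = c := by
    intro i
    obtain ⟨m, hm⟩ : (a (Pi.single i 1)).den ∣ N := Finset.dvd_prod_of_mem _ (Finset.mem_univ i)
    refine ⟨(a (Pi.single i 1)).num * m, ?_⟩
    rw [hm]
    push_cast
    have h2 : ((a (Pi.single i 1)).den : ℚ) * a (Pi.single i 1) = (a (Pi.single i 1)).num := by
      rw [mul_comm]; exact Rat.mul_den_eq_num _
    rw [← h2]; ring
  choose c hc using h1
  refine ⟨N, hNpos, c, fun x => ?_⟩
  have h2 : a x = ∑ i, x i * a (Pi.single i 1) := by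
    conv_lhs => rw [pi_eq_sum_univ' x]
    rw [map_sum]
    refine Finset.sum_congr rfl (fun i _ => ?_)
    rw [map_smul, smul_eq_mul]
  rw [h2, Finset.mul_sum]
  refine Finset.sum_congr rfl (fun i _ => ?_)
  rw [← hc i]; ring

theorem LPZ_halfspace {V : Type} [Fintype V] (a : (V → ℚ) →ₗ[ℚ] ℚ) : LPZ {x | 0 ≤ a x} := by
  obtain ⟨N, hN, c, hc⟩ := form_int a
  refine ⟨_, LP_max (LP_neg (LP_lin c)) LP_zero, fun z => le_max_right _ _, fun x => ?_⟩
  have h1 : (∑ i, (c i : ℝ) * castR x i) = ((N : ℚ) * a x : ℚ) := by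
    rw [hc]; push_cast; rfl
  show max (-(∑ i, (c i : ℝ) * castR x i)) 0 = 0 ↔ 0 ≤ a x
  rw [h1, max_eq_right_iff, neg_nonpos]
  rw [show (0 : ℝ) = ((0 : ℚ) : ℝ) by simp, Rat.cast_le]
  have : (0 : ℚ) < N := by exact_mod_cast hN
  constructor
  · intro h; by_contra hcon
    push Not at hcon
    nlinarith
  · intro h; positivity

theorem LPZ_univ {V : Type} : LPZ (Set.univ : Set (V → ℚ)) :=
  ⟨_, LP_zero, fun _ => le_rfl, fun x => by simp⟩

theorem LPZ_face {V : Type} [Fintype V] {A : Set ((V → ℚ) →ₗ[ℚ] ℚ)} (hA : A.Finite) (y : V → ℚ) :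
    LPZ (face A y) := by
  induction A, hA using Set.Finite.induction_on with
  | empty => convert LPZ_univ (V := V) using 1; ext x; simp [face]
  | @insert a A _ _ ih =>
    have h1 : face (insert a A) y = {x | a x = 0 ∨ SignType.sign (a x) = SignType.sign (a y)} ∩
        face A y := by
      ext x; constructor
      · intro h; exact ⟨h a (Set.mem_insert _ _), fun b hb => h b (Set.mem_insert_of_mem _ hb)⟩
      · rintro ⟨h1, h2⟩ b hb
        rcases Set.mem_insert_iff.1 hb with rfl | hb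
        · exact h1
        · exact h2 b hb
    rw [h1]
    refine LPZ.inter ?_ ih
    rcases lt_trichotomy (a y) 0 with h | h | h
    · convert LPZ_halfspace (-a) using 1
      ext x
      show (a x = 0 ∨ _) ↔ 0 ≤ -(a x)
      rw [sign_neg h, sign_eq_neg_one_iff]
      constructor
      · rintro (h2 | h2) <;> linarith
      · intro h2
        rcases (neg_nonneg.1 h2).eq_or_lt with h3 | h3
        · exact Or.inl h3
        · exact Or.inr h3
    · convert (LPZ_halfspace a).inter (LPZ_halfspace (-a)) using 1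
      ext x
      show (a x = 0 ∨ _) ↔ 0 ≤ a x ∧ 0 ≤ -(a x)
      rw [h, sign_zero, sign_eq_zero_iff, or_self]
      constructor
      · intro h2; rw [h2]; simp
      · rintro ⟨h2, h3⟩; linarith
    · convert LPZ_halfspace a using 1
      ext x
      show (a x = 0 ∨ _) ↔ 0 ≤ a x
      rw [sign_pos h, sign_eq_one_iff]
      constructor
      · rintro (h2 | h2) <;> linarith
      · intro h2
        rcases h2.eq_or_lt with h3 | h3
        · exact Or.inl h3.symm
        · exact Or.inr h3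

theorem LPZ_of_pol {V : Type} [Fintype V] {s : Set (V → ℚ)} (hs : Pol s) : LPZ s := by
  obtain ⟨h0, A, hA, hsA⟩ := hs
  obtain ⟨R, hR, hRs, hRr⟩ := exists_reps hA s
  have key : ∀ R : Set (V → ℚ), R.Finite → LPZ (face A 0 ∪ ⋃ r ∈ R, face A r) := by
    intro R hR
    induction R, hR using Set.Finite.induction_on with
    | empty => convert LPZ_face hA (0 : V → ℚ) using 1; simp
    | @insert r R _ _ ih =>
      convert (LPZ_face hA r).union ih using 1
      rw [Set.biUnion_insert, ← Set.union_assoc, Set.union_comm (face A 0) (face A r),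
        Set.union_assoc]
  convert key R hR using 1
  ext x; constructor
  · intro hx
    obtain ⟨b, hb, hbx⟩ := hRr x hx
    exact Or.inr (Set.mem_biUnion hb hbx.symm.mem_face)
  · rintro (hx | hx)
    · exact hsA 0 h0 hx
    · obtain ⟨r, hr, hx⟩ := Set.mem_iUnion₂.1 hx
      exact hsA r (hRs hr) hx

theorem exists_Zset {G : Type} [AddCommGroup G] [Lattice G] (M : Mdl G)
    {s : Set (M.V → ℚ)} (hs : Pol s) (hsQ : s ⊆ Qset M) : ∃ a : G, 0 ≤ a ∧ Zset M a = s := by
  obtain ⟨b, hb, hb0, hbs⟩ := LPZ_of_pol hs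
  obtain ⟨g, hg⟩ := M.chart.sur b hb
  refine ⟨g, M.chart.nonneg_iff.2 (fun z hz => by rw [hg z hz]; exact hb0 z), ?_⟩
  ext x; constructor
  · rintro ⟨hx, hx0⟩
    rw [hg _ hx, hbs] at hx0; exact hx0
  · intro hx
    exact ⟨hsQ hx, by rw [hg _ (hsQ hx), hbs]; exact hx⟩

theorem Zset_le_iff {G : Type} [AddCommGroup G] [Lattice G] [IsOrderedAddMonoid G]
    (hlin : S_linall) (M : Mdl G) {a t : G} (ha : 0 ≤ a) (ht : 0 ≤ t) :
    Zset M t ⊆ Zset M a ↔ Inc a t := by
  have hinc : S_inc := prfD1 hlin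
  have hincL : S_incL := prfD2a hinc
  constructor
  · intro h
    obtain ⟨N, hMN, hN⟩ := hlin G M Bool (fun b => if b then a else t)
    obtain ⟨ca, hca⟩ := hN true
    obtain ⟨ct, hct⟩ := hN false
    simp only [if_true] at hca
    simp only [Bool.false_eq_true, if_false] at hct
    refine (hincL G N a t ca ct hca hct ha ht).2 (fun i hi => ?_)
    obtain ⟨T, hT1, _, hT3⟩ := hMN.map
    have hpt := Cx.pt_mem (Δ := N.Δ) i
    have hint : ∀ v, ∃ k : ℤ, T (pt i) v = k := by
      intro v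
      obtain ⟨hv, hhv⟩ := M.chart.hat v
      obtain ⟨k, hk⟩ := N.chart.int_pt hv i
      refine ⟨k, ?_⟩
      rw [← hhv _ (hT1 _ hpt), ← hT3 hv _ hpt, hk]
    choose x hx using hint
    have hcast : castR (fun v => (x v : ℚ)) = T (pt i) := by
      ext v; rw [hx v]; simp [castR]
    have hQ : (fun v => (x v : ℚ)) ∈ Qset M := by
      show castR _ ∈ M.Δ.Z
      rw [hcast]; exact hT1 _ hpt
    have h1 : (fun v => (x v : ℚ)) ∈ Zset M t := by
      refine ⟨hQ, ?_⟩
      rw [hcast, ← hT3 t _ hpt, hct.pt i, hi]; simp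
    have h2 := (h h1).2
    rw [hcast, ← hT3 a _ hpt, hca.pt i] at h2
    exact_mod_cast h2
  · intro h x hx
    exact ⟨hx.1, (hinc G M a t ha ht).1 h _ hx.1 hx.2⟩

end Pool.Agent.Work.MP_552024_lc.PLS
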